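import Mathlib

namespace Pool.Agent.H72.Aff

/-- The semidirect product of an additive group `W` by a group `Q` acting on it. -/
@[ext] structure Aff (Q W : Type) where
  v : W
  q : Q

variable {Q W : Type} [Group Q] [AddCommGroup W] [DistribMulAction Q W]

instance : Mul (Aff Q W) := ⟨fun x y => ⟨x.v + x.q • y.v, x.q * y.q⟩⟩
instance : One (Aff Q W) := ⟨⟨0, 1⟩⟩
instance : Inv (Aff Q W) := ⟨fun x => ⟨-(x.q⁻¹ • x.v), x.q⁻¹⟩⟩

@[simp] theorem mul_v (x y : Aff Q W) : (x * y).v = x.v + x.q • y.v := rfl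
@[simp] theorem mul_q (x y : Aff Q W) : (x * y).q = x.q * y.q := rfl
omit [DistribMulAction Q W] in
@[simp] theorem one_v : (1 : Aff Q W).v = 0 := rfl
omit [DistribMulAction Q W] in
@[simp] theorem one_q : (1 : Aff Q W).q = 1 := rfl
@[simp] theorem inv_v (x : Aff Q W) : (x⁻¹).v = -(x.q⁻¹ • x.v) := rfl
@[simp] theorem inv_q (x : Aff Q W) : (x⁻¹).q = x.q⁻¹ := rfl

instance : Group (Aff Q W) := Group.ofLeftAxioms
  (fun x y w => Aff.ext (by simp [mul_smul, add_assoc]) (by simp [mul_assoc]))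
  (fun x => Aff.ext (by simp) (by simp))
  (fun x => Aff.ext (by simp) (by simp))

def proj : Aff Q W →* Q where
  toFun := Aff.q
  map_one' := rfl
  map_mul' _ _ := rfl

def inr : Q →* Aff Q W where
  toFun q := ⟨0, q⟩
  map_one' := rfl
  map_mul' _ _ := Aff.ext (by simp) rfl

def tr (w : W) : Aff Q W := ⟨w, 1⟩

@[simp] theorem inr_v (q : Q) : (inr q : Aff Q W).v = 0 := rfl
@[simp] theorem inr_q (q : Q) : (inr q : Aff Q W).q = q := rfl
omit [AddCommGroup W] [DistribMulAction Q W] in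
@[simp] theorem tr_v (w : W) : (tr w : Aff Q W).v = w := rfl
omit [AddCommGroup W] [DistribMulAction Q W] in
@[simp] theorem tr_q (w : W) : (tr w : Aff Q W).q = 1 := rfl
@[simp] theorem proj_apply (x : Aff Q W) : proj x = x.q := rfl

theorem tr_add (w w' : W) : (tr (w + w') : Aff Q W) = tr w * tr w' := Aff.ext (by simp) (by simp)
theorem tr_neg (w : W) : (tr (-w) : Aff Q W) = (tr w)⁻¹ := Aff.ext (by simp) (by simp)
omit [DistribMulAction Q W] in
theorem tr_zero : (tr 0 : Aff Q W) = 1 := rfl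
theorem tr_conj (x : Aff Q W) (w : W) : x * tr w * x⁻¹ = tr (x.q • w) :=
  Aff.ext (by simp) (by simp)

def inl : Multiplicative W →* Aff Q W where
  toFun w := tr w.toAdd
  map_one' := rfl
  map_mul' _ _ := tr_add _ _

theorem tr_zsmul (n : ℤ) (w : W) : (tr (n • w) : Aff Q W) = tr w ^ n :=
  (map_zpow (inl (Q := Q) (W := W)) (Multiplicative.ofAdd w) n)

theorem tr_nsmul (n : ℕ) (w : W) : (tr (n • w) : Aff Q W) = tr w ^ n :=
  (map_pow (inl (Q := Q) (W := W)) (Multiplicative.ofAdd w) n)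

theorem eq_tr_mul_inr (x : Aff Q W) : x = tr x.v * inr x.q := Aff.ext (by simp) (by simp)

theorem dl_succ {A B : Type*} [Group A] [Group B] (f : A →* B) (n : ℕ)
    (hB : derivedSeries B n = ⊥) (hk : ∀ x y : A, f x = 1 → f y = 1 → Commute x y) :
    derivedSeries A (n + 1) = ⊥ := by
  have h1 : derivedSeries A n ≤ f.ker := by
    have := map_derivedSeries_le_derivedSeries f n
    rw [hB, le_bot_iff, Subgroup.map_eq_bot_iff] at this
    exact this
  rw [derivedSeries_succ, eq_bot_iff, Subgroup.commutator_le]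
  intro x hx y hy
  rw [Subgroup.mem_bot, commutatorElement_eq_one_iff_commute]
  exact hk x y (h1 hx) (h1 hy)

theorem dl_aff (n : ℕ) (h : derivedSeries Q n = ⊥) : derivedSeries (Aff Q W) (n + 1) = ⊥ :=
  dl_succ proj n h fun x y hx hy => by
    simp only [proj_apply] at hx hy
    exact Aff.ext (by simp [hx, hy, add_comm]) (by simp [hx, hy])

end Pool.Agent.H72.Aff
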