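import Pool.Agent.H72.AgeDefs

/-! Ages with well-founded subage order are level-finite and have countable height. -/

namespace Pool.Agent.H72.AgeA

open Set Pool.Agent.H72.AgeDefs Filter

universe u

/-- infinite Ramsey theorem -/
theorem ramsey {C : Type*} [Finite C] (n : ℕ) : ∀ (c : Finset ℕ → C) (S : Set ℕ), S.Infinite →
    ∃ I ⊆ S, I.Infinite ∧ ∃ col, ∀ s : Finset ℕ, (s : Set ℕ) ⊆ I → s.card = n → c s = col := by
  induction n with
  | zero =>
    intro c S hS
    exact ⟨S, Subset.rfl, hS, c ∅, fun s _ h => by rw [Finset.card_eq_zero.1 h]⟩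
  | succ n ih =>
    intro c S hS
    have step : ∀ T : {T : Set ℕ // T.Infinite}, ∃ a ∈ T.1, ∃ T' : {T : Set ℕ // T.Infinite},
        T'.1 ⊆ T.1 ∩ Ioi a ∧ ∃ col, ∀ s : Finset ℕ, (s : Set ℕ) ⊆ T'.1 → s.card = n →
          c (insert a s) = col := by
      rintro ⟨T, hT⟩
      obtain ⟨a, ha⟩ := hT.nonempty
      have : (T ∩ Ioi a).Infinite := by
        have := hT.sdiff (finite_Iic a)
        rwa [sdiff_eq, compl_Iic] at this
      obtain ⟨I, h1, h2, h3⟩ := ih (fun s => c (insert a s)) _ this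
      exact ⟨a, ha, ⟨I, h2⟩, h1, h3⟩
    choose a ha f hf col hcol using step
    let T : ℕ → {T : Set ℕ // T.Infinite} := fun k => f^[k] ⟨S, hS⟩
    have TS : ∀ k, T (k + 1) = f (T k) := fun k => Function.iterate_succ_apply' _ _ _
    have anti : Antitone fun k => (T k).1 := antitone_nat_of_succ_le fun k => by
      rw [TS]; exact (hf _).trans inter_subset_left
    have mono : StrictMono fun k => a (T k) := strictMono_nat_of_lt_succ fun k => by
      have := ha (T (k + 1))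
      rw [TS] at this ⊢
      exact (hf _ this).2
    obtain ⟨y, hy⟩ := Finite.exists_infinite_fiber fun k => col (T k)
    refine ⟨(fun k => a (T k)) '' ((fun k => col (T k)) ⁻¹' {y}), ?_,
      (Set.infinite_coe_iff.1 hy).image mono.injective.injOn, y, ?_⟩
    · rintro _ ⟨k, -, rfl⟩
      exact anti (Nat.zero_le k) (ha _)
    · intro s hs hc
      have hne : s.Nonempty := Finset.card_pos.1 (by omega)
      obtain ⟨k, hk, e⟩ := hs (s.min'_mem hne)
      have hmem : a (T k) ∈ s := by have := s.min'_mem hne; rwa [← e] at this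
      have := hcol (T k) (s.erase (a (T k))) (by
        intro b hb
        obtain ⟨h1, h2⟩ := Finset.mem_erase.1 hb
        obtain ⟨j, -, rfl⟩ := hs h2
        have h3 : k < j := mono.lt_iff_lt.1 (lt_of_le_of_ne (e.le.trans (s.min'_le _ h2)) h1.symm)
        rw [← TS]
        exact anti h3 (ha _)) (by
        rw [Finset.card_erase_of_mem hmem, hc]; rfl)
      rw [Finset.insert_erase hmem] at this
      exact this.trans hk

variable {ι : Type u} {ar : ι → ℕ}

lemma emb_refl (G : FinStr ar) : Emb G G := ⟨id, Function.injective_id, fun _ _ => Iff.rfl⟩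

lemma emb_trans {G H K : FinStr ar} (h1 : Emb G H) (h2 : Emb H K) : Emb G K := by
  obtain ⟨f, hf, e⟩ := h1
  obtain ⟨g, hg, e'⟩ := h2
  exact ⟨g ∘ f, hg.comp hf, fun i x => (e' i (f ∘ x)).trans (e i x)⟩

/-- structures on an arbitrary type -/
abbrev Str (ar : ι → ℕ) (X : Type) := ∀ i, (Fin (ar i) → X) → Prop

/-- pull back along a tuple -/
def pull {X : Type} (R : Str ar X) {n : ℕ} (t : Fin n → X) : FinStr ar :=
  ⟨n, fun i x => R i (t ∘ x)⟩

/-- the age of the restriction of `R` to `S` -/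
def ageOn {X : Type} (R : Str ar X) (S : Set X) : Set (FinStr ar) :=
  {G | ∃ t : Fin G.n → X, Function.Injective t ∧ range t ⊆ S ∧ ∀ i x, R i (t ∘ x) ↔ G.rel i x}

lemma pull_mem {X : Type} (R : Str ar X) {S : Set X} {n : ℕ} {t : Fin n → X}
    (ht : Function.Injective t) (hS : range t ⊆ S) : pull R t ∈ ageOn R S :=
  ⟨t, ht, hS, fun _ _ => Iff.rfl⟩

lemma ageOn_mono {X : Type} (R : Str ar X) {S T : Set X} (h : S ⊆ T) : ageOn R S ⊆ ageOn R T :=
  fun _ ⟨t, h1, h2, h3⟩ => ⟨t, h1, h2.trans h, h3⟩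

lemma join {X : Type} (R : Str ar X) {S : Set X} {G H : FinStr ar} (hG : G ∈ ageOn R S)
    (hH : H ∈ ageOn R S) : ∃ K ∈ ageOn R S, Emb G K ∧ Emb H K ∧ K.n ≤ G.n + H.n := by
  classical
  obtain ⟨s, s1, s2, s3⟩ := hG
  obtain ⟨t, t1, t2, t3⟩ := hH
  let T : Finset X := Finset.univ.image s ∪ Finset.univ.image t
  let e := T.equivFin
  have key : ∀ (G : FinStr ar) (s : Fin G.n → X), Function.Injective s → (∀ j, s j ∈ T) →
      (∀ i x, R i (s ∘ x) ↔ G.rel i x) → Emb G (pull R fun j => (e.symm j : X)) := by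
    intro G s h1 h2 h3
    refine ⟨fun j => e ⟨s j, h2 j⟩, fun a b h => h1 (congrArg Subtype.val (e.injective h)),
      fun i x => ?_⟩
    rw [← h3]
    simp only [pull, Function.comp_def, Equiv.symm_apply_apply]
  refine ⟨pull R fun j => (e.symm j : X), pull_mem R
    (Subtype.val_injective.comp e.symm.injective) ?_, key G s s1 (by simp [T]) s3,
    key H t t1 (by simp [T]) t3, ?_⟩
  · rintro _ ⟨j, rfl⟩
    rcases Finset.mem_union.1 (e.symm j).2 with h | h <;> obtain ⟨k, -, h⟩ := Finset.mem_image.1 h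
    · exact s2 ⟨k, h⟩
    · exact t2 ⟨k, h⟩
  · change T.card ≤ _
    refine (Finset.card_union_le _ _).trans (add_le_add ?_ ?_) <;>
      exact Finset.card_image_le.trans (by simp)

lemma isAge_ageOn {X : Type} (ne : Prop) (R : Str ar X) (S : Set X) : IsAge ne (ageOn R S) := by
  refine ⟨fun _ => ⟨_, pull_mem R (t := (Fin.elim0 : Fin 0 → X)) (fun a => a.elim0)
    (by rintro _ ⟨a, -⟩; exact a.elim0)⟩, ?_, fun G hG H hH => ?_⟩
  · rintro G ⟨t, h1, h2, h3⟩ H ⟨f, hf, e⟩
    exact ⟨t ∘ f, h1.comp hf, (range_comp_subset_range _ _).trans h2,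
      fun i x => (h3 i (f ∘ x)).trans (e i x)⟩
  · obtain ⟨K, h1, h2, h3, -⟩ := join R hG hH
    exact ⟨K, h1, h2, h3⟩

lemma small_join {ne : Prop} {A : Set (FinStr ar)} (hA : IsAge ne A) {G H : FinStr ar}
    (hG : G ∈ A) (hH : H ∈ A) : ∃ K ∈ A, Emb G K ∧ Emb H K ∧ K.n ≤ G.n + H.n := by
  obtain ⟨K, hK, ⟨f, hf, e⟩, ⟨g, hg, e'⟩⟩ := hA.2.2 G hG H hH
  obtain ⟨K', ⟨t, h1, -, h3⟩, h4⟩ := join K.rel (S := univ) ⟨f, hf, subset_univ _, e⟩
    ⟨g, hg, subset_univ _, e'⟩
  exact ⟨K', hA.2.1 K hK K' ⟨t, h1, h3⟩, h4⟩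

/-- the restriction of a structure on `ℕ` to an initial segment -/
def seg (R : Str ar ℕ) (n : ℕ) : FinStr ar := pull R (Fin.val : Fin n → ℕ)

lemma extend {ne : Prop} {A : Set (FinStr ar)} (hA : IsAge ne A) (R : Str ar ℕ) (n : ℕ)
    (h : seg R n ∈ A) {G : FinStr ar} (hG : G ∈ A) : ∃ (R' : Str ar ℕ) (n' : ℕ), n ≤ n' ∧
      seg R' n' ∈ A ∧ (∀ i x, (∀ j, x j < n) → (R' i x ↔ R i x)) ∧ G ∈ ageOn R' (Iio n') := by
  obtain ⟨K, hK, ⟨f, hf, e⟩, ⟨g, hg, e'⟩⟩ := hA.2.2 _ h G hG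
  have hn : n ≤ K.n := by
    have := Fintype.card_le_of_injective (α := Fin n) f hf
    simpa using this
  obtain ⟨σ, hσ⟩ := Equiv.Perm.exists_extending_pair (f := Fin.castLE hn) (g := f)
    (Fin.castLE_injective hn) hf
  let R' : Str ar ℕ := fun i x => ∃ y : Fin (ar i) → Fin K.n, x = Fin.val ∘ y ∧ K.rel i (σ ∘ y)
  have hR' : ∀ i (y : Fin (ar i) → Fin K.n), R' i (Fin.val ∘ y) ↔ K.rel i (σ ∘ y) := by
    intro i y
    refine ⟨?_, fun h => ⟨y, rfl, h⟩⟩
    rintro ⟨z, h1, h2⟩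
    rwa [Fin.val_injective.comp_left h1]
  refine ⟨R', K.n, hn, hA.2.1 K hK _ ⟨σ, σ.injective, fun i y => (hR' i y).symm⟩, ?_,
    fun j => σ.symm (g j), Fin.val_injective.comp (σ.symm.injective.comp hg), ?_, ?_⟩
  · intro i x hx
    have h1 := hR' i (Fin.castLE hn ∘ fun j => ⟨x j, hx j⟩)
    have h2 := e i fun j => ⟨x j, hx j⟩
    have h3 : (σ ∘ Fin.castLE hn ∘ fun j => ⟨x j, hx j⟩) = f ∘ fun j => ⟨x j, hx j⟩ :=
      funext fun j => hσ _
    rw [h3] at h1
    exact h1.trans h2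
  · rintro _ ⟨j, rfl⟩
    exact (σ.symm (g j)).2
  · intro i x
    rw [← e']
    have := hR' i (σ.symm ∘ g ∘ x)
    simpa [Function.comp_def] using this

lemma limit {ne : Prop} {A : Set (FinStr ar)} (hA : IsAge ne A) (G : ℕ → FinStr ar)
    (hG : ∀ k, G k ∈ A) : ∃ (R : Str ar ℕ) (U : Set ℕ), ageOn R U ⊆ A ∧ ∀ k, G k ∈ ageOn R U := by
  have h0 : seg (fun i x => ∃ y : Fin (ar i) → Fin (G 0).n, IsEmpty (Fin (ar i)) ∧
      (G 0).rel i y) 0 ∈ A := by
    refine hA.2.1 _ (hG 0) _ ⟨Fin.elim0, fun a => a.elim0, fun i x => ?_⟩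
    have : IsEmpty (Fin (ar i)) := ⟨fun a => (x a).elim0⟩
    refine ⟨fun h => ⟨_, this, h⟩, ?_⟩
    rintro ⟨y, -, h⟩
    exact (congrArg ((G 0).rel i) (funext fun a => isEmptyElim a)).mp h
  have step : ∀ (s : {p : Str ar ℕ × ℕ // seg p.1 p.2 ∈ A}) (k : ℕ),
      ∃ s' : {p : Str ar ℕ × ℕ // seg p.1 p.2 ∈ A}, s.1.2 ≤ s'.1.2 ∧
      (∀ i x, (∀ j, x j < s.1.2) → (s'.1.1 i x ↔ s.1.1 i x)) ∧ G k ∈ ageOn s'.1.1 (Iio s'.1.2) := by
    intro s k
    obtain ⟨R', n', h1, h2, h3, h4⟩ := extend hA _ _ s.2 (hG k)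
    exact ⟨⟨(R', n'), h2⟩, h1, h3, h4⟩
  choose f hf1 hf2 hf3 using step
  let s : ℕ → {p : Str ar ℕ × ℕ // seg p.1 p.2 ∈ A} :=
    fun k => Nat.rec ⟨(_, 0), h0⟩ (fun k t => f t k) k
  have sS : ∀ k, s (k + 1) = f (s k) k := fun _ => rfl
  have mono : Monotone fun k => (s k).1.2 := monotone_nat_of_le_succ fun k => hf1 _ _
  have agree : ∀ k m, k ≤ m → ∀ i x, (∀ j, x j < (s k).1.2) → ((s m).1.1 i x ↔ (s k).1.1 i x) := by
    intro k m hkm i x hx
    induction hkm with
    | refl => rfl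
    | step h ih => exact (hf2 _ _ i x fun j => (hx j).trans_le (mono h)).trans ih
  let U : Set ℕ := {a | ∃ k, a < (s k).1.2}
  let R : Str ar ℕ := fun i x => ∃ k, (∀ j, x j < (s k).1.2) ∧ (s k).1.1 i x
  have hR : ∀ k i x, (∀ j, x j < (s k).1.2) → (R i x ↔ (s k).1.1 i x) := by
    intro k i x hx
    refine ⟨?_, fun h => ⟨k, hx, h⟩⟩
    rintro ⟨m, h1, h2⟩
    rwa [← agree k (max k m) (le_max_left _ _) i x hx, agree m (max k m) (le_max_right _ _) i x h1]
  refine ⟨R, U, ?_, fun k => ?_⟩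
  · rintro H ⟨t, h1, h2, h3⟩
    choose m hm using fun j => h2 (mem_range_self j)
    obtain ⟨M, hM⟩ := (finite_range m).bddAbove
    have h4 : ∀ j, t j < (s M).1.2 := fun j => (hm j).trans_le (mono (hM (mem_range_self j)))
    refine hA.2.1 _ (s M).2 _ ⟨fun j => ⟨t j, h4 j⟩, fun a b e => h1 (congrArg Fin.val e),
      fun i x => ?_⟩
    exact (hR M i (t ∘ x) fun j => h4 _).symm.trans (h3 i x)
  · obtain ⟨t, h1, h2, h3⟩ := hf3 (s k) k
    rw [← sS] at h2 h3
    refine ⟨t, h1, fun a ha => ⟨k + 1, h2 ha⟩, fun i x => ?_⟩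
    exact (hR (k + 1) i (t ∘ x) fun j => h2 (mem_range_self _)).trans (h3 i x)

theorem level_finite {ne : Prop} {A : Set (FinStr ar)} (hA : IsAge ne A)
    (hw : WellFounded (Lt : Sub ne A → Sub ne A → Prop)) (n : ℕ) :
    {r : Str ar (Fin n) | (⟨n, r⟩ : FinStr ar) ∈ A}.Finite := by
  classical
  by_contra hn
  obtain ⟨B, hB, hmin⟩ := hw.has_min
    {B | {r : Str ar (Fin n) | (⟨n, r⟩ : FinStr ar) ∈ B.1}.Infinite} ⟨⟨A, hA, subset_rfl⟩, hn⟩
  let g := Set.Infinite.natEmbedding _ hB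
  obtain ⟨R, U, hRU, hG⟩ := limit B.2.1 (fun k => ⟨n, g k⟩) fun k => (g k).2
  choose a a1 a2 a3 using hG
  change ℕ → Fin n → ℕ at a
  let P := Fin n → Fin n × Fin n
  let N := Fintype.card P
  let tup : Finset ℕ → P → Fin n → ℕ := fun s τ j => a (Nat.nth (· ∈ s) (τ j).1) (τ j).2
  obtain ⟨I, -, hI, col, hcol⟩ := ramsey n (fun s => {p : P × Fin (N + 1) |
    ∀ i x, R i (tup s p.1 ∘ x) ↔ (g p.2).1 i x}) univ infinite_univ
  have hsub : ageOn R (⋃ k ∈ I, range (a k)) ⊆ B.1 :=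
    (ageOn_mono R (iUnion₂_subset fun k _ => a2 k)).trans hRU
  have hall : B.1 ⊆ ageOn R (⋃ k ∈ I, range (a k)) := by
    by_contra hc
    refine hmin ⟨_, isAge_ageOn ne R _, hsub.trans B.2.2⟩ ?_ ⟨hsub, hc⟩
    refine (hI.image (f := fun k => (g k).1)
      (Subtype.val_injective.comp g.injective).injOn).mono ?_
    rintro _ ⟨k, hk, rfl⟩
    exact ⟨a k, a1 k, subset_biUnion_of_mem (u := fun k => range (a k)) hk, a3 k⟩
  have key : ∀ l : Fin (N + 1), ∃ τ, (τ, l) ∈ col := by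
    intro l
    obtain ⟨t, -, h2, h3⟩ := hall (g l).2
    change Fin n → ℕ at t
    have h4 : ∀ j, ∃ k ∈ I, ∃ p, a k p = t j := fun j => by
      simpa using h2 (mem_range_self j)
    choose k hk p hp using h4
    have : Infinite I := hI.to_subtype
    obtain ⟨s, s1, s2⟩ := Infinite.exists_superset_card_eq
      (Finset.univ.image fun j => (⟨k j, hk j⟩ : I)) n (Finset.card_image_le.trans (by simp))
    let s' : Finset ℕ := s.map (Function.Embedding.subtype _)
    have s3 : s'.card = n := by rw [Finset.card_map, s2]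
    have h5 : ∀ j, ∃ q : Fin n, Nat.nth (· ∈ s') q = k j := by
      intro j
      obtain ⟨q, q1, q2⟩ := Nat.exists_lt_card_finite_nth_eq (p := (· ∈ s')) s'.finite_toSet
        (x := k j) (Finset.mem_map.2 ⟨⟨k j, hk j⟩, s1 (by simp), rfl⟩)
      have : q < n := by
        rw [← s3]; convert q1; exact (Finset.finite_toSet_toFinset s').symm
      exact ⟨⟨q, this⟩, q2⟩
    choose q hq using h5
    refine ⟨fun j => (q j, p j), ?_⟩
    rw [← hcol s' (by
      intro b hb
      obtain ⟨c, -, rfl⟩ := Finset.mem_map.1 hb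
      exact c.2) s3]
    intro i x
    have : tup s' (fun j => (q j, p j)) = t := funext fun j => by
      simp only [tup]; rw [hq, hp]
    simp only [this]
    exact h3 i x
  choose τ hτ using key
  obtain ⟨l, l', hne, e⟩ := Fintype.exists_ne_map_eq_of_card_lt τ (by simp [N])
  obtain ⟨s, s1, s2⟩ := hI.exists_subset_card_eq n
  have h1 := hτ l
  have h2 := hτ l'
  rw [← hcol s s1 s2] at h1 h2
  refine hne (Fin.ext (g.injective (Subtype.ext ?_)))
  funext i x
  have h3 := h1 i x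
  have h4 := h2 i x
  simp only [e] at h3 h4
  exact propext (h3.symm.trans h4)

lemma small_finite {ne : Prop} {A : Set (FinStr ar)} (hA : IsAge ne A)
    (hw : WellFounded (Lt : Sub ne A → Sub ne A → Prop)) (n : ℕ) :
    {G ∈ A | G.n ≤ n}.Finite := by
  refine ((finite_Iic n).biUnion fun m _ =>
    (level_finite hA hw m).image fun r => (⟨m, r⟩ : FinStr ar)).subset ?_
  rintro ⟨m, r⟩ ⟨h1, h2⟩
  exact mem_biUnion (show m ∈ Iic n from h2) ⟨r, h1, rfl⟩

lemma rank_lt {T : Type u} [Countable T] {r : T → T → Prop} {a : T} (h : Acc r a) :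
    h.rank < Ordinal.omega 1 := by
  induction h with
  | intro a h ih =>
    rw [Acc.rank_eq]
    exact Ordinal.iSup_lt_omega_one fun b =>
      (Cardinal.isSuccLimit_omega 1).succ_lt (ih b b.2)

theorem height_lt {ne : Prop} {A : Set (FinStr ar)} (hA : IsAge ne A)
    (hw : WellFounded (Lt : Sub ne A → Sub ne A → Prop)) : height hA hw < Ordinal.omega 1 := by
  classical
  have hc : A.Countable := by
    refine (countable_iUnion fun n => (small_finite hA hw n).countable).mono fun G hG => ?_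
    exact mem_iUnion.2 ⟨G.n, hG, le_rfl⟩
  have : Countable A := hc.to_subtype
  let V : List A → (ℕ → Sub ne A) → Prop := fun l x => (∀ i, (x (i + 1)).1 ⊆ (x i).1) ∧
    ∀ i a, l[i]? = some a → a.1 ∈ (x i).1 ∧ a.1 ∉ (x (i + 1)).1
  let r : List A → List A → Prop := fun l' l => (∃ a, l' = l ++ [a]) ∧ ∃ x, V l' x
  have hr : WellFounded r := by
    rw [wellFounded_iff_isEmpty_descending_chain]
    refine ⟨fun ⟨l, hl⟩ => ?_⟩
    choose a ha using fun m => (hl m).1
    choose x hx using fun m => (hl m).2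
    have len : ∀ m, m ≤ (l m).length := by
      intro m
      induction m with
      | zero => exact Nat.zero_le _
      | succ m ih => rw [ha]; simpa using ih
    have stab : ∀ i m, i + 1 ≤ m → (l m)[i]? = (l (i + 1))[i]? := by
      intro i m hm
      induction hm with
      | refl => rfl
      | step h ih => rw [ha, List.getElem?_append_left (lt_of_lt_of_le h (len _)), ih]
    have hb : ∀ i, ∃ b, (l (i + 1))[i]? = some b := fun i =>
      ⟨_, List.getElem?_eq_getElem (len (i + 1))⟩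
    choose b hb using hb
    let U := hyperfilter ℕ
    have ev : ∀ i, ∀ᶠ m in (U : Filter ℕ), (b i).1 ∈ (x m i).1 ∧ (b i).1 ∉ (x m (i + 1)).1 := by
      intro i
      refine Nat.hyperfilter_le_atTop (eventually_atTop.2 ⟨i, fun m hm => ?_⟩)
      exact (hx m).2 i _ ((stab i (m + 1) (by omega)).trans (hb i))
    let y : ℕ → Sub ne A := fun i => ⟨{G | ∀ᶠ m in (U : Filter ℕ), G ∈ (x m i).1},
      ⟨fun _ => ⟨_, (ev i).mono fun _ h => h.1⟩,
        fun G hG H e => hG.mono fun m h => (x m i).2.1.2.1 G h H e, fun G hG H hH => by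
          have h1 : ∀ᶠ m in (U : Filter ℕ), ∃ K ∈ {K ∈ A | K.n ≤ G.n + H.n},
              K ∈ (x m i).1 ∧ Emb G K ∧ Emb H K := by
            refine (hG.and hH).mono fun m h => ?_
            obtain ⟨K, k1, k2, k3, k4⟩ := small_join (x m i).2.1 h.1 h.2
            exact ⟨K, ⟨(x m i).2.2 k1, k4⟩, k1, k2, k3⟩
          obtain ⟨K, -, hK⟩ := (Ultrafilter.eventually_exists_mem_iff
            (small_finite hA hw _)).1 h1
          exact ⟨K, hK.mono fun _ h => h.1, hK.exists.choose_spec.2⟩⟩,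
      fun G hG => (x _ i).2.2 hG.exists.choose_spec⟩
    refine (wellFounded_iff_isEmpty_descending_chain.1 hw).false ⟨y, fun i => ⟨?_, ?_⟩⟩
    · exact fun G hG => hG.mono fun m h => (hx m).1 i h
    · intro h
      obtain ⟨m, h1, h2⟩ := ((ev i).and (h ((ev i).mono fun _ h => h.1))).exists
      exact h1.2 h2
  have key : ∀ (z : Sub ne A) (l : List A) (x : ℕ → Sub ne A), V l x → x l.length = z →
      (hw.apply z).rank ≤ (hr.apply l).rank := by
    intro z
    induction z using hw.induction with | _ z ih => ?_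
    intro l x hx e
    rw [Acc.rank_eq]
    refine Ordinal.iSup_le fun w => Order.succ_le_of_lt ?_
    obtain ⟨G, g1, g2⟩ := exists_of_ssubset w.2
    obtain ⟨x', x1, x2⟩ : ∃ x' : ℕ → Sub ne A, (∀ i, i ≤ l.length → x' i = x i) ∧
        ∀ i, l.length < i → x' i = w.1 :=
      ⟨fun i => if i ≤ l.length then x i else w.1, fun i h => if_pos h,
        fun i h => if_neg (by omega)⟩
    have hV : V (l ++ [⟨G, z.2.2 g1⟩]) x' := by
      constructor
      · intro i
        rcases lt_trichotomy i l.length with h | h | h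
        · rw [x1 _ h.le, x1 _ h]; exact hx.1 i
        · rw [x1 _ h.le, x2 _ (by omega), h, e]; exact w.2.1
        · rw [x2 _ h, x2 _ (by omega)]
      · intro i a ha
        rcases lt_trichotomy i l.length with h | h | h
        · rw [List.getElem?_append_left h] at ha
          rw [x1 _ h.le, x1 _ h]
          exact hx.2 i a ha
        · subst h
          simp only [List.getElem?_concat_length, Option.some.injEq] at ha
          subst ha
          rw [x1 _ le_rfl, x2 _ (by omega), e]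
          exact ⟨g1, g2⟩
        · rw [List.getElem?_eq_none (by simp; omega)] at ha
          cases ha
    have h1 := ih w.1 w.2 _ _ hV (x2 _ (by simp))
    have h2 : r (l ++ [⟨G, z.2.2 g1⟩]) l := ⟨⟨_, rfl⟩, _, hV⟩
    exact h1.trans_lt (Acc.rank_lt_of_rel (hr.apply l) h2)
  exact (key _ [] (fun _ => ⟨A, hA, subset_rfl⟩) ⟨fun _ => subset_rfl, by simp⟩ rfl).trans_lt
    (rank_lt _)

end Pool.Agent.H72.AgeA
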