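import Pool.Agent.H72.AgeA

/-! Ages of arbitrarily large countable height. -/

namespace Pool.Agent.H72.AgeB

open Set Pool.Agent.H72.AgeDefs Pool.Agent.H72.AgeA

universe u v w

section basic

variable {ι : Type u} {ar : ι → ℕ} {X : Type}

/-- `Y` embeds into `Z` fixing `F` pointwise -/
def Le (R : Str ar X) (F Y Z : Set X) : Prop :=
  ∃ f : X → X, InjOn f Y ∧ MapsTo f Y Z ∧ (∀ x ∈ F, f x = x) ∧
    ∀ i x, range x ⊆ Y → (R i (f ∘ x) ↔ R i x)

/-- finite sets containing `F` -/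
abbrev Over (F : Set X) := {Y : Set X // Y.Finite ∧ F ⊆ Y}

instance pre (R : Str ar X) (F : Set X) : IsPreorder (Over F) fun Y Z => Le R F Y.1 Z.1 where
  refl Y := ⟨id, injOn_id _, mapsTo_id _, fun _ _ => rfl, fun _ _ _ => Iff.rfl⟩
  trans := by
    rintro Y Z W ⟨f, f1, f2, f3, f4⟩ ⟨g, g1, g2, g3, g4⟩
    refine ⟨g ∘ f, g1.comp f1 f2, g2.comp f2, fun x hx => by simp [f3 x hx, g3 x hx],
      fun i x hx => (g4 i (f ∘ x) ?_).trans (f4 i x hx)⟩
    rintro _ ⟨j, rfl⟩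
    exact f2 (hx ⟨j, rfl⟩)

/-- well quasi ordering with finitely many constants -/
def Good (R : Str ar X) : Prop :=
  ∀ F : Set X, F.Finite → WellQuasiOrdered fun Y Z : Over F => Le R F Y.1 Z.1

lemma good_triv (R : Str ar X) (hR : ∀ i x, R i x) : Good R := by
  classical
  intro F hF Y
  obtain ⟨i, j, hij, h⟩ := wellQuasiOrdered_le (α := ℕ) fun k => ((Y k).1 \ F).ncard
  refine ⟨i, j, hij, ?_⟩
  rcases isEmpty_or_nonempty X with hX | hX
  · exact ⟨id, injOn_id _, fun x => isEmptyElim x, fun _ _ => rfl, fun _ _ _ => Iff.rfl⟩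
  obtain ⟨f, f1, f2⟩ := ((Y i).2.1.sdiff (t := F)).exists_injOn_of_encard_le
    (t := (Y j).1 \ F) (by
      rw [← ((Y i).2.1.sdiff (t := F)).cast_ncard_eq, ← ((Y j).2.1.sdiff (t := F)).cast_ncard_eq]
      exact_mod_cast h)
  refine ⟨fun x => if x ∈ F then x else f x, ?_, ?_, fun x hx => if_pos hx,
    fun i x _ => iff_of_true (hR _ _) (hR _ _)⟩
  · intro a ha b hb e
    by_cases h1 : a ∈ F <;> by_cases h2 : b ∈ F <;> simp only [h1, h2, if_true, if_false] at e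
    · exact e
    · exact absurd (e ▸ h1) (f1 ⟨hb, h2⟩).2
    · exact absurd (e ▸ h2) (f1 ⟨ha, h1⟩).2
    · exact f2 ⟨ha, h1⟩ ⟨hb, h2⟩ e
  · intro a ha
    by_cases h1 : a ∈ F <;> simp only [h1, if_true, if_false]
    · exact (Y j).2.2 h1
    · exact (f1 ⟨ha, h1⟩).1

lemma le_of_sub {R : Str ar X} {S S' Y : Set X} (h : ageOn R S' ⊆ ageOn R S) (hY : Y.Finite)
    (hS : Y ⊆ S') : Le R ∅ Y S := by
  have : Finite Y := hY
  obtain ⟨n, ⟨e⟩⟩ := Finite.exists_equiv_fin Y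
  have hi : Function.Injective fun j => (e.symm j : X) :=
    Subtype.val_injective.comp e.symm.injective
  obtain ⟨t, t1, t2, t3⟩ := h (pull_mem R hi (by rintro _ ⟨j, rfl⟩; exact hS (e.symm j).2))
  change Fin n → X at t
  have hf : ∀ y : Y, Function.extend (fun j => (e.symm j : X)) t id y = t (e y) := by
    intro y
    rw [← hi.extend_apply t id (e y)]; simp
  refine ⟨Function.extend (fun j => (e.symm j : X)) t id, ?_, ?_, by simp, ?_⟩
  · intro a ha b hb k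
    rw [hf ⟨a, ha⟩, hf ⟨b, hb⟩] at k
    exact congrArg Subtype.val (e.injective (t1 k))
  · intro a ha
    rw [hf ⟨a, ha⟩]; exact t2 ⟨_, rfl⟩
  · intro i x hx
    have := t3 i fun j => e ⟨x j, hx ⟨j, rfl⟩⟩
    simp only [pull, Function.comp_def, Equiv.symm_apply_apply] at this
    rw [← this]
    exact iff_of_eq (congrArg _ (funext fun j => hf ⟨x j, hx ⟨j, rfl⟩⟩))

lemma wf_of_good {R : Str ar X} (h : Good R) (ne : Prop) :
    WellFounded (Lt : Sub ne (ageOn R univ) → Sub ne (ageOn R univ) → Prop) := by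
  rw [wellFounded_iff_isEmpty_descending_chain]
  refine ⟨fun ⟨B, hB⟩ => ?_⟩
  choose G g1 g2 using fun k => exists_of_ssubset (hB k)
  choose t t1 _ t3 using fun k => (B k).2.2 (g1 k)
  obtain ⟨i, j, hij, f, f1, f2, -, f4⟩ := h ∅ finite_empty
    fun k => ⟨range (t k), finite_range _, empty_subset _⟩
  choose g hg using fun a => f2 (mem_range_self (f := t i) a)
  have anti : Antitone fun k => (B k).1 := antitone_nat_of_succ_le fun k => (hB k).1
  refine g2 i ((B (i + 1)).2.1.2.1 _ (anti hij (g1 j)) _ ⟨g, fun a b e => t1 i (f1 ⟨a, rfl⟩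
    ⟨b, rfl⟩ (by rw [← hg, ← hg, e])), fun s x => ?_⟩)
  rw [← t3, ← t3, ← f4 s (t i ∘ x) (range_comp_subset_range _ _)]
  exact iff_of_eq (congrArg _ (funext fun a => hg _))

/-- strict subage relation on subsets -/
def Prec (R : Str ar X) (S S' : Set X) : Prop := S ⊆ S' ∧ ∃ Y ⊆ S', Y.Finite ∧ ¬ Le R ∅ Y S

end basic

/-- `s` has height at least `α` -/
def H {T : Type v} (r : T → T → Prop) (s : T) (α : Ordinal.{u}) : Prop :=
  ∀ β < α, ∃ s', r s' s ∧ H r s' β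
termination_by α

lemma H.map {T : Type v} {T' : Type w} {r : T → T → Prop} {r' : T' → T' → Prop} (φ : T → T')
    (P : T → Prop) (hP : ∀ a b, P b → r a b → P a)
    (hφ : ∀ a b, P b → r a b → r' (φ a) (φ b)) (α : Ordinal.{u}) :
    ∀ s, P s → H r s α → H r' (φ s) α := by
  induction α using WellFoundedLT.induction with | _ α ih => ?_
  intro s hs h
  rw [H] at h ⊢
  intro β hβ
  obtain ⟨s', h1, h2⟩ := h β hβ
  exact ⟨φ s', hφ _ _ hs h1, ih β hβ s' (hP _ _ hs h1) h2⟩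

lemma H_iff {T : Type u} {r : T → T → Prop} (α : Ordinal.{u}) :
    ∀ (s : T) (h : Acc r s), H r s α ↔ α ≤ h.rank := by
  induction α using WellFoundedLT.induction with | _ α ih => ?_
  intro s h
  rw [H]
  constructor
  · intro h1
    refine le_of_forall_lt fun β hβ => ?_
    obtain ⟨s', h2, h3⟩ := h1 β hβ
    exact ((ih β hβ s' (h.inv h2)).1 h3).trans_lt (Acc.rank_lt_of_rel h h2)
  · intro h1 β hβ
    have h2 := hβ.trans_le h1
    rw [Acc.rank_eq, Ordinal.lt_iSup_iff] at h2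
    obtain ⟨b, hb⟩ := h2
    exact ⟨b.1, b.2, (ih β hβ b.1 (h.inv b.2)).2 (Order.lt_succ_iff.1 hb)⟩

section glue

variable {ι : ℕ → Type u} {ar : ∀ n, ι n → ℕ} {X : ℕ → Type}

/-- arities of the glued structure -/
def gar (ar : ∀ n, ι n → ℕ) : Option (Σ n, ι n) → ℕ
  | none => 1
  | some p => ar p.1 p.2 + p.1

/-- the glued structure -/
def glue (R : ∀ n, Str (ar n) (X n)) (u : ∀ n, Fin n → Σ n, X n) : Str (gar ar) (Σ n, X n)
  | none => fun _ => True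
  | some p => fun x : Fin (ar p.1 p.2 + p.1) → Σ n, X n => (∀ j, x (Fin.natAdd _ j) = u p.1 j) ∧
      ∃ y, R p.1 p.2 y ∧ ∀ j, x (Fin.castAdd _ j) = ⟨p.1, y j⟩

variable {R : ∀ n, Str (ar n) (X n)} {u : ∀ n, Fin n → Σ n, X n}

lemma glue_app {n : ℕ} (i : ι n) (y : Fin (ar n i) → X n) (f : (Σ n, X n) → Σ n, X n)
    (g : X n → X n) (h1 : ∀ j, f (u n j) = u n j) (h2 : ∀ j, f ⟨n, y j⟩ = ⟨n, g (y j)⟩) :
    glue R u (some ⟨n, i⟩) (f ∘ Fin.append (fun j => (⟨n, y j⟩ : Σ n, X n)) (u n)) ↔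
      R n i (g ∘ y) := by
  simp only [glue, Function.comp_apply, Fin.append_left, Fin.append_right, h1, h2,
    implies_true, true_and]
  constructor
  · rintro ⟨z, h3, h4⟩
    have : g ∘ y = z := funext fun j => sigma_mk_injective (h4 j)
    rwa [this]
  · exact fun h => ⟨_, h, fun _ => rfl⟩

lemma range_app {n : ℕ} {k : ℕ} (y : Fin k → Σ n, X n) {Y : Set (Σ n, X n)}
    (h1 : ∀ j, y j ∈ Y) (h2 : range (u n) ⊆ Y) : range (Fin.append y (u n)) ⊆ Y := by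
  rintro _ ⟨j, rfl⟩
  induction j using Fin.addCases with
  | left j => rw [Fin.append_left]; exact h1 j
  | right j => rw [Fin.append_right]; exact h2 ⟨j, rfl⟩

lemma mark (hpos : ∀ n i, 0 < ar n i) (hm : ∀ n, ∃ i, ∀ a, R n i fun _ => a)
    {f : (Σ n, X n) → Σ n, X n} {Y : Set (Σ n, X n)}
    (hf : ∀ i x, range x ⊆ Y → (glue R u i (f ∘ x) ↔ glue R u i x)) {n : ℕ} {a : X n}
    (ha : (⟨n, a⟩ : Σ n, X n) ∈ Y) (hu : range (u n) ⊆ Y) :
    (∀ j, f (u n j) = u n j) ∧ ∃ b, f ⟨n, a⟩ = ⟨n, b⟩ := by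
  obtain ⟨i, hi⟩ := hm n
  obtain ⟨h1, y, -, h2⟩ := (hf (some ⟨n, i⟩) _ (range_app (fun _ => ⟨n, a⟩) (fun _ => ha) hu)).2
    ((glue_app i (fun _ => a) id id (fun _ => rfl) fun _ => rfl).2 (hi a))
  exact ⟨fun j => by simpa using h1 j, y ⟨0, hpos n i⟩, by
    have := h2 ⟨0, hpos n i⟩
    rwa [Function.comp_apply, Fin.append_left] at this⟩

lemma prec_glue (hpos : ∀ n i, 0 < ar n i) (hm : ∀ n, ∃ i, ∀ a, R n i fun _ => a)
    (hu : ∀ n j, (u n j).1 < n) (n : ℕ) {S S' : Set (X n)} (h : Prec (R n) S S') :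
    Prec (glue R u) (Sigma.mk n '' S ∪ range (u n)) (Sigma.mk n '' S' ∪ range (u n)) := by
  classical
  obtain ⟨h1, Y, h2, h3, h4⟩ := h
  refine ⟨union_subset_union_left _ (image_mono h1), Sigma.mk n '' Y ∪ range (u n),
    union_subset_union_left _ (image_mono h2), (h3.image _).union (finite_range _), ?_⟩
  rintro ⟨f, f1, f2, -, f4⟩
  have hk := fun a (ha : a ∈ Y) => mark hpos hm f4 (Or.inl ⟨a, ha, rfl⟩) subset_union_right
  have : ∀ a, ∃ b, a ∈ Y → f ⟨n, a⟩ = ⟨n, b⟩ := by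
    intro a
    by_cases ha : a ∈ Y
    · obtain ⟨b, hb⟩ := (hk a ha).2; exact ⟨b, fun _ => hb⟩
    · exact ⟨a, fun h => absurd h ha⟩
  choose g hg using this
  refine h4 ⟨g, ?_, ?_, by simp, fun i x hx => ?_⟩
  · intro a ha b hb e
    exact sigma_mk_injective (f1 (Or.inl ⟨a, ha, rfl⟩) (Or.inl ⟨b, hb, rfl⟩)
      (by rw [hg a ha, hg b hb, e]))
  · intro a ha
    rcases f2 (Or.inl ⟨a, ha, rfl⟩) with ⟨b, hb, e⟩ | ⟨j, e⟩
    · rw [hg a ha] at e; exact sigma_mk_injective e ▸ hb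
    · have := hu n j
      rw [e, hg a ha] at this
      exact absurd this (lt_irrefl n)
  · rw [← glue_app (R := R) (u := u) i x f g (hk _ (hx ⟨⟨0, hpos n i⟩, rfl⟩)).1
      fun j => hg _ (hx ⟨j, rfl⟩)]
    exact (f4 (some ⟨n, i⟩) _ (range_app _ (fun j => Or.inl ⟨_, hx ⟨j, rfl⟩, rfl⟩)
      subset_union_right)).trans (glue_app i x id id (fun _ => rfl) fun _ => rfl)

lemma prec_top (hpos : ∀ n i, 0 < ar n i) (hm : ∀ n, ∃ i, ∀ a, R n i fun _ => a)
    (hu : ∀ n j, (u n j).1 < n) (hX : ∀ n, Nonempty (X n)) (n : ℕ) :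
    Prec (glue R u) (Sigma.mk n '' univ ∪ range (u n)) univ := by
  obtain ⟨a⟩ := hX (n + 1)
  refine ⟨subset_univ _, insert ⟨n + 1, a⟩ (range (u (n + 1))), subset_univ _,
    (finite_range _).insert _, ?_⟩
  rintro ⟨f, -, f2, -, f4⟩
  obtain ⟨-, b, hb⟩ := mark hpos hm f4 (mem_insert _ _) (subset_insert _ _)
  rcases f2 (mem_insert _ _) with ⟨c, -, e⟩ | ⟨j, e⟩
  · have := congrArg Sigma.fst (e.trans hb)
    simp at this
  · have := hu n j
    rw [e, hb] at this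
    simp at this

lemma good_glue (hR : ∀ n, Good (R n)) (hX : ∀ n, Nonempty (X n))
    (hu : ∀ x, ∃ m, ∀ n, m ≤ n → x ∈ range (u n)) : Good (glue R u) := by
  classical
  intro F hF Y
  by_cases hb : ∃ m, ∀ k n, m ≤ n → ¬ range (u n) ⊆ (Y k).1
  swap
  · push Not at hb
    have hinf : Infinite (Σ n, X n) :=
      Infinite.of_injective (fun n => ⟨n, (hX n).some⟩) fun a b e => congrArg Sigma.fst e
    obtain ⟨z, -, hz⟩ := infinite_univ.exists_notMem_finite (Y 0).2.1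
    choose m hm using hu
    obtain ⟨M, hM⟩ := (((Y 0).2.1.insert z).image m).bddAbove
    obtain ⟨k, n, h1, h2⟩ := hb M
    have h3 : insert z (Y 0).1 ⊆ (Y k).1 := fun x hx => h2 (hm x n ((hM ⟨x, hx, rfl⟩).trans h1))
    refine ⟨0, k, Nat.pos_of_ne_zero ?_, id, injOn_id _, fun x hx => h3 (Or.inr hx),
      fun _ _ => rfl, fun _ _ _ => Iff.rfl⟩
    rintro rfl
    exact hz (h3 (Or.inl rfl))
  obtain ⟨m, hm⟩ := hb
  let W : Set (Σ n, X n) := F ∪ ⋃ n ∈ Iio m, range (u n)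
  have hW : W.Finite := hF.union ((finite_Iio m).biUnion fun n _ => finite_range _)
  have : Finite W := hW
  obtain ⟨T0, hT0⟩ := Finite.exists_infinite_fiber fun k => (Subtype.val ⁻¹' (Y k).1 : Set W)
  have hJ := Set.infinite_coe_iff.1 hT0
  let φ := Nat.nth (· ∈ (fun k => (Subtype.val ⁻¹' (Y k).1 : Set W)) ⁻¹' {T0})
  have hφ : StrictMono φ := Nat.nth_strictMono hJ
  let T : Set (Σ n, X n) := Subtype.val '' T0
  have hT : ∀ k x, x ∈ T ↔ x ∈ W ∧ x ∈ (Y (φ k)).1 := by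
    intro k x
    have h1 : Subtype.val ⁻¹' (Y (φ k)).1 = T0 := Nat.nth_mem_of_infinite hJ k
    simp only [T, ← h1]
    exact ⟨fun ⟨a, h2, h3⟩ => h3 ▸ ⟨a.2, h2⟩, fun h => ⟨⟨x, h.1⟩, h.2, rfl⟩⟩
  have hTf : T.Finite := hW.subset fun x hx => ((hT 0 x).1 hx).1
  have w1 := WellQuasiOrdered.pi (ι := Fin m) fun n => hR n (Sigma.mk n.1 ⁻¹' T)
    (hTf.preimage sigma_mk_injective.injOn)
  have w2 := good_triv (ar := fun _ : Empty => 0) (X := Σ n, X n) (fun _ _ => True)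
    (fun _ _ => trivial) (T ∩ {x | m ≤ x.1}) (hTf.inter_of_left _)
  obtain ⟨i, j, hij, ⟨g, g1, g2, g3, -⟩, hf⟩ := w2.prod w1 fun k =>
    (⟨(Y (φ k)).1 ∩ {x | m ≤ x.1}, (Y _).2.1.inter_of_left _,
      fun x hx => ⟨((hT k x).1 hx.1).2, hx.2⟩⟩,
     fun n => ⟨Sigma.mk n.1 ⁻¹' (Y (φ k)).1, (Y _).2.1.preimage sigma_mk_injective.injOn,
      fun x hx => ((hT k _).1 hx).2⟩)
  have : ∀ n, ∃ f : X n → X n, n < m → InjOn f (Sigma.mk n ⁻¹' (Y (φ i)).1) ∧
      MapsTo f (Sigma.mk n ⁻¹' (Y (φ i)).1) (Sigma.mk n ⁻¹' (Y (φ j)).1) ∧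
      (∀ x ∈ Sigma.mk n ⁻¹' T, f x = x) ∧
      ∀ s x, range x ⊆ Sigma.mk n ⁻¹' (Y (φ i)).1 → (R n s (f ∘ x) ↔ R n s x) := by
    intro n
    by_cases h : n < m
    · obtain ⟨f, hf⟩ := hf ⟨n, h⟩; exact ⟨f, fun _ => hf⟩
    · exact ⟨id, fun h' => absurd h' h⟩
  choose f hf using this
  obtain ⟨G, G1, G2⟩ : ∃ G : (Σ n, X n) → Σ n, X n, (∀ n a, n < m → G ⟨n, a⟩ = ⟨n, f n a⟩) ∧
      ∀ x, m ≤ x.1 → G x = g x :=
    ⟨fun x => if x.1 < m then ⟨x.1, f x.1 x.2⟩ else g x, fun n a h => if_pos h,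
      fun x h => if_neg (not_lt.2 h)⟩
  have lev : ∀ x ∈ (Y (φ i)).1, (G x).1 < m → (G x).1 = x.1 := by
    rintro ⟨n, a⟩ hx h
    by_cases hn : n < m
    · rw [G1 n a hn]
    · rw [G2 _ (not_lt.1 hn)] at h
      exact absurd (g2 ⟨hx, not_lt.1 hn⟩).2 (not_le.2 h)
  have inj : InjOn G (Y (φ i)).1 := by
    rintro ⟨n, a⟩ ha ⟨n', b⟩ hb e
    by_cases hn : n < m
    · have h1 := lev _ hb (by rw [← e, G1 n a hn]; exact hn)
      rw [← e, G1 n a hn] at h1
      cases h1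
      rw [G1 _ a hn, G1 _ b hn] at e
      rw [(hf n hn).1 ha hb (sigma_mk_injective e)]
    · by_cases hn' : n' < m
      · have h1 := lev _ ha (by rw [e, G1 n' b hn']; exact hn')
        rw [e, G1 n' b hn'] at h1
        exact absurd ((show n' = n from h1) ▸ hn') hn
      · rw [G2 _ (not_lt.1 hn), G2 _ (not_lt.1 hn')] at e
        exact g1 ⟨ha, not_lt.1 hn⟩ ⟨hb, not_lt.1 hn'⟩ e
  have maps : MapsTo G (Y (φ i)).1 (Y (φ j)).1 := by
    rintro ⟨n, a⟩ ha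
    by_cases hn : n < m
    · rw [G1 n a hn]; exact (hf n hn).2.1 ha
    · rw [G2 _ (not_lt.1 hn)]; exact (g2 ⟨ha, not_lt.1 hn⟩).1
  have fix : ∀ x ∈ T, G x = x := by
    rintro ⟨n, a⟩ ha
    by_cases hn : n < m
    · rw [G1 n a hn, (hf n hn).2.2.1 a ha]
    · rw [G2 _ (not_lt.1 hn)]; exact g3 _ ⟨ha, not_lt.1 hn⟩
  have vis : ∀ k n, range (u n) ⊆ (Y (φ k)).1 → n < m ∧ range (u n) ⊆ T := by
    intro k n h
    have hn : n < m := not_le.1 fun h' => hm _ n h' h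
    exact ⟨hn, fun x hx => (hT k x).2 ⟨Or.inr (mem_biUnion hn hx), h hx⟩⟩
  refine ⟨φ i, φ j, hφ hij, G, inj, maps,
    fun x hx => fix x ((hT i x).2 ⟨Or.inl hx, (Y _).2.2 hx⟩), ?_⟩
  rintro (_ | ⟨n, s⟩) x hx
  · rfl
  constructor
  · rintro ⟨h1, y, h2, h3⟩
    obtain ⟨hn, h4⟩ := vis j n (by rintro _ ⟨t, rfl⟩; rw [← h1]; exact maps (hx ⟨_, rfl⟩))
    refine ⟨fun t => inj (hx ⟨_, rfl⟩) ((hT i _).1 (h4 ⟨t, rfl⟩)).2
      ((h1 t).trans (fix _ (h4 ⟨t, rfl⟩)).symm), ?_⟩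
    have h5 : ∀ t, ∃ a, x (Fin.castAdd _ t) = ⟨n, a⟩ := by
      intro t
      have h6 : G (x (Fin.castAdd _ t)) = ⟨n, y t⟩ := h3 t
      have h7 := lev _ (hx ⟨Fin.castAdd _ t, rfl⟩) (by rw [h6]; exact hn)
      rw [h6] at h7
      generalize x (Fin.castAdd _ t) = z at h7
      obtain ⟨n', a⟩ := z
      cases h7
      exact ⟨a, rfl⟩
    choose z hz using h5
    refine ⟨z, ((hf n hn).2.2.2 s z ?_).1 ?_, hz⟩
    · rintro _ ⟨t, rfl⟩
      rw [mem_preimage, ← hz]; exact hx ⟨_, rfl⟩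
    · have : f n ∘ z = y := funext fun t => sigma_mk_injective (by
        rw [← h3 t, Function.comp_apply, Function.comp_apply, hz, G1 _ _ hn])
      rwa [this]
  · rintro ⟨h1, y, h2, h3⟩
    obtain ⟨hn, h4⟩ := vis i n (by rintro _ ⟨t, rfl⟩; rw [← h1]; exact hx ⟨_, rfl⟩)
    refine ⟨fun t => by rw [Function.comp_apply, h1, fix _ (h4 ⟨t, rfl⟩)], f n ∘ y,
      ((hf n hn).2.2.2 s y ?_).2 h2, fun t => by
        rw [Function.comp_apply, h3, G1 _ _ hn]; rfl⟩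
    rintro _ ⟨t, rfl⟩
    rw [mem_preimage, ← h3]; exact hx ⟨_, rfl⟩

end glue

/-- a countable structure in a countable signature -/
structure Mod where
  ι : Type u
  ar : ι → ℕ
  X : Type
  R : Str ar X
  cι : Countable ι
  cX : Countable X
  ne : Nonempty X
  pos : ∀ i, 0 < ar i
  mark : ∃ i, ∀ a, R i fun _ => a
  good : Good R

theorem exists_mod (α : Ordinal.{u}) (hα : α < Ordinal.omega 1) :
    ∃ M : Mod.{u}, H (Prec M.R) univ α := by
  induction α using WellFoundedLT.induction with | _ α ih => ?_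
  rcases eq_or_ne α 0 with rfl | h0
  · refine ⟨⟨PUnit, fun _ => 1, Unit, fun _ _ => True, inferInstance, inferInstance,
      inferInstance, fun _ => one_pos, ⟨⟨⟩, fun _ => trivial⟩, good_triv _ fun _ _ => trivial⟩, ?_⟩
    rw [H]; intro β hβ; exact absurd hβ (not_lt_zero)
  have hc : (Iio α).Countable := by
    rw [← Cardinal.le_aleph0_iff_set_countable, Cardinal.mk_Iio_ordinal, Cardinal.lift_le_aleph0,
      ← Order.lt_succ_iff, Cardinal.succ_aleph0, ← Cardinal.lt_ord, Cardinal.ord_aleph]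
    exact hα
  obtain ⟨β, hβ⟩ := hc.exists_eq_range ⟨0, pos_iff_ne_zero.2 h0⟩
  have hβα : ∀ n, β n < α := fun n => by
    have : β n ∈ Iio α := hβ ▸ mem_range_self n
    exact this
  choose M hM using fun n => ih (β n) (hβα n) ((hβα n).trans hα)
  have := fun n => (M n).cι
  have := fun n => (M n).cX
  have := fun n => (M n).ne
  obtain ⟨e, he⟩ := exists_surjective_nat (Σ n, (M n).X)
  let u : ∀ n, Fin n → Σ n, (M n).X := fun n j =>
    if (e j).1 < n then e j else ⟨0, (M 0).ne.some⟩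
  have hu : ∀ n j, (u n j).1 < n := by
    intro n j
    simp only [u]
    split_ifs with h
    · exact h
    · exact j.pos
  have hu' : ∀ x, ∃ m, ∀ n, m ≤ n → x ∈ range (u n) := by
    intro x
    obtain ⟨j, rfl⟩ := he x
    exact ⟨max j (e j).1 + 1, fun n hn => ⟨⟨j, by omega⟩, if_pos (by simp only; omega)⟩⟩
  refine ⟨⟨_, _, _, glue (fun n => (M n).R) u, inferInstance, inferInstance, inferInstance, ?_,
    ⟨none, fun _ => trivial⟩, good_glue (fun n => (M n).good) (fun n => (M n).ne) hu'⟩, ?_⟩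
  · rintro (_ | ⟨n, i⟩)
    · exact one_pos
    · exact Nat.add_pos_left ((M n).pos i) _
  · rw [H]
    intro γ hγ
    obtain ⟨n, rfl⟩ : γ ∈ range β := hβ ▸ hγ
    exact ⟨_, prec_top (fun n => (M n).pos) (fun n => (M n).mark) hu (fun n => (M n).ne) n,
      H.map (fun S => Sigma.mk n '' S ∪ range (u n)) (fun _ => True) (fun _ _ _ _ => trivial)
        (fun _ _ _ h => prec_glue (fun n => (M n).pos) (fun n => (M n).mark) hu n h) _ _
        trivial (hM n)⟩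

theorem attained (ne : Prop) (α : Ordinal.{u}) (hα : α < Ordinal.omega 1) :
    ∃ (ι : Type u) (ar : ι → ℕ), Countable ι ∧ (∀ i, 0 < ar i) ∧
      ∃ (A : Set (FinStr ar)) (hA : IsAge ne A)
        (hw : WellFounded (Lt : Sub ne A → Sub ne A → Prop)), height hA hw = α := by
  classical
  obtain ⟨M, hM⟩ := exists_mod α hα
  have hw := wf_of_good M.good ne
  have h1 := H.map (r' := (Lt : Sub ne (ageOn M.R univ) → _ → Prop))
    (fun S => ⟨ageOn M.R S, isAge_ageOn ne _ _, ageOn_mono _ (subset_univ _)⟩) (fun _ => True)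
    (fun _ _ _ _ => trivial) (fun S S' _ h => ⟨ageOn_mono _ h.1, fun h' => by
      obtain ⟨Y, h2, h3, h4⟩ := h.2
      exact h4 (le_of_sub h' h3 h2)⟩) α univ trivial hM
  obtain ⟨B, hB, e⟩ := Acc.mem_range_rank_of_le _ ((H_iff α _ (hw.apply _)).1 h1)
  let ψ : Sub ne B.1 → Sub ne (ageOn M.R univ) := fun C => ⟨C.1, C.2.1, C.2.2.trans B.2.2⟩
  have hw' : WellFounded (Lt : Sub ne B.1 → Sub ne B.1 → Prop) := InvImage.wf ψ hw
  refine ⟨M.ι, M.ar, M.cι, M.pos, B.1, B.2.1, hw', ?_⟩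
  rw [← e]
  apply le_antisymm
  · have := H.map (r := Lt) (r' := Lt) ψ (fun _ => True) (fun _ _ _ _ => trivial)
      (fun _ _ _ h => h) _ _ trivial
      ((H_iff _ _ (hw'.apply ⟨B.1, B.2.1, subset_rfl⟩)).2 le_rfl)
    exact (H_iff _ _ hB).1 this
  · let χ : Sub ne (ageOn M.R univ) → Sub ne B.1 := fun C =>
      if h : C.1 ⊆ B.1 then ⟨C.1, C.2.1, h⟩ else ⟨B.1, B.2.1, subset_rfl⟩
    have hχ : ∀ C : Sub ne (ageOn M.R univ), C.1 ⊆ B.1 → (χ C).1 = C.1 := fun C h => by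
      simp only [χ, dif_pos h]
    have := H.map (r' := Lt) χ (fun C => C.1 ⊆ B.1) (fun a b h h' => h'.1.trans h)
      (fun a b h h' => by
        unfold Lt
        rw [hχ a (h'.1.trans h), hχ b h]; exact h') _ B subset_rfl ((H_iff _ _ hB).2 le_rfl)
    have e' : χ B = ⟨B.1, B.2.1, subset_rfl⟩ := Subtype.ext (hχ B subset_rfl)
    rw [e'] at this
    exact (H_iff _ _ _).1 this

end Pool.Agent.H72.AgeB
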