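import Mathlib

/-! Finite relational structures, ages and their heights. -/

namespace Pool.Agent.H72.AgeDefs

universe u

/-- A finite relational structure of similarity type `ar : ι → ℕ` (the relation symbol `i` has
arity `ar i`), on the universe `Fin n`. -/
structure FinStr {ι : Type u} (ar : ι → ℕ) where
  n : ℕ
  rel : ∀ i, (Fin (ar i) → Fin n) → Prop

variable {ι : Type u} {ar : ι → ℕ}

/-- `H` embeds into `G` (isomorphism onto an induced substructure). -/
def Emb (H G : FinStr ar) : Prop :=
  ∃ f : Fin H.n → Fin G.n, Function.Injective f ∧ ∀ i x, G.rel i (f ∘ x) ↔ H.rel i x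

/-- An age: a hereditary and directed collection of finite structures. The parameter `ne`
selects the convention: if `ne` holds, ages are also required to be nonempty. -/
def IsAge (ne : Prop) (A : Set (FinStr ar)) : Prop :=
  (ne → A.Nonempty) ∧ (∀ G ∈ A, ∀ H, Emb H G → H ∈ A) ∧
    ∀ G ∈ A, ∀ H ∈ A, ∃ K ∈ A, Emb G K ∧ Emb H K

/-- `𝒟(A)`: the ages contained in `A`. -/
def Sub (ne : Prop) (A : Set (FinStr ar)) : Type u := {B : Set (FinStr ar) // IsAge ne B ∧ B ⊆ A}

/-- strict inclusion on `𝒟(A)` -/
def Lt {ne : Prop} {A : Set (FinStr ar)} (B C : Sub ne A) : Prop := B.1 ⊂ C.1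

/-- The height of the age `A` in the well-founded poset `𝒟(A)`: the rank
`h(B) = sup {h(C) + 1 : C ⊂ B}` evaluated at `A`. -/
noncomputable def height {ne : Prop} {A : Set (FinStr ar)} (hA : IsAge ne A)
    (hw : WellFounded (Lt : Sub ne A → Sub ne A → Prop)) : Ordinal.{u} :=
  (hw.apply ⟨A, hA, subset_rfl⟩).rank

end Pool.Agent.H72.AgeDefs
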