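import Mathlib

set_option autoImplicit false

namespace Pool.Agent.H72.Amen

open scoped Pointwise

/-- A finitely additive probability measure defined on all subsets of `G`. -/
def IsMean {G : Type} (m : Set G → ℝ) : Prop :=
  (∀ A, 0 ≤ m A) ∧ m Set.univ = 1 ∧ ∀ A B, Disjoint A B → m (A ∪ B) = m A + m B

/-- A discrete group is amenable if it has a left-invariant finitely additive probability measure. -/
def Amenable (G : Type) [Group G] : Prop :=
  ∃ m : Set G → ℝ, IsMean m ∧ ∀ (g : G) (A : Set G), m (g • A) = m A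

open scoped Pointwise Topology
open Filter

variable {G : Type}

theorem IsMean.le_one {m : Set G → ℝ} (h : IsMean m) (A : Set G) : m A ≤ 1 := by
  have := h.2.2 A Aᶜ disjoint_compl_right
  rw [Set.union_compl_self, h.2.1] at this
  linarith [h.1 Aᶜ]

theorem ulim {ι : Type} (U : Ultrafilter ι) (m : ι → Set G → ℝ) (h : ∀ i, IsMean (m i)) :
    ∃ μ : Set G → ℝ, IsMean μ ∧ ∀ A, Tendsto (fun i => m i A) U (𝓝 (μ A)) := by
  have : ∀ A, ∃ x, Tendsto (fun i => m i A) U (𝓝 x) := by
    intro A
    obtain ⟨x, -, hx⟩ := (isCompact_Icc (a := (0 : ℝ)) (b := 1)).ultrafilter_le_nhds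
      (U.map fun i => m i A) (by
        rw [Ultrafilter.coe_map, le_principal_iff, mem_map]
        exact univ_mem' fun i => ⟨(h i).1 A, (h i).le_one A⟩)
    exact ⟨x, hx⟩
  choose μ hμ using this
  refine ⟨μ, ⟨fun A => ge_of_tendsto' (hμ A) fun i => (h i).1 A, ?_, fun A B hAB => ?_⟩, hμ⟩
  · refine tendsto_nhds_unique (hμ _) ?_
    simp only [(h _).2.1]
    exact tendsto_const_nhds
  · refine tendsto_nhds_unique (hμ _) ?_
    simp only [(h _).2.2 A B hAB]
    exact (hμ A).add (hμ B)

variable [Group G]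

def stab (m : Set G → ℝ) : Subgroup G where
  carrier := {g | ∀ A : Set G, m (g • A) = m A}
  one_mem' := fun A => by rw [one_smul]
  mul_mem' := fun {a b} ha hb A => by rw [mul_smul, ha, hb]
  inv_mem' := fun {a} ha A => by rw [← ha, smul_inv_smul]

theorem step (H : Subgroup G) (t : G) (ht : ∀ h ∈ H, t * h * t⁻¹ ∈ H) (m : Set G → ℝ)
    (hm : IsMean m) (hH : H ≤ stab m) : ∃ μ : Set G → ℝ, IsMean μ ∧ H ≤ stab μ ∧ t ∈ stab μ := by
  have hk : ∀ k : ℕ, ∀ h ∈ H, t ^ k * h * (t ^ k)⁻¹ ∈ H := by
    intro k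
    induction k with
    | zero => intro h hh; simpa using hh
    | succ k ih =>
      intro h hh
      have := ht _ (ih h hh)
      rw [pow_succ']
      simpa [mul_assoc] using this
  let M : ℕ → Set G → ℝ := fun N A => (∑ i ∈ Finset.range (N + 1), m (t ^ i • A)) / (N + 1)
  have hM : ∀ N, IsMean (M N) := by
    intro N
    have hN : (0 : ℝ) < N + 1 := by positivity
    refine ⟨fun A => div_nonneg (Finset.sum_nonneg fun i _ => hm.1 _) hN.le, ?_, fun A B hAB => ?_⟩
    · simp only [M, Set.smul_set_univ, hm.2.1]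
      simp [hN.ne']
    · simp only [M]
      rw [← add_div, ← Finset.sum_add_distrib]
      congr 1
      refine Finset.sum_congr rfl fun i _ => ?_
      rw [Set.smul_set_union, hm.2.2 _ _ (Set.disjoint_smul_set.2 hAB)]
  obtain ⟨μ, hμ, hl⟩ := ulim (hyperfilter ℕ) M hM
  refine ⟨μ, hμ, fun h hh A => ?_, fun A => ?_⟩
  · refine tendsto_nhds_unique (hl _) ?_
    have : ∀ N, M N (h • A) = M N A := by
      intro N
      simp only [M]
      congr 1
      refine Finset.sum_congr rfl fun i _ => ?_
      rw [← hH (hk i h hh) (t ^ i • A), smul_smul, smul_smul]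
      simp
    simp only [this]
    exact hl A
  · have h0 : Tendsto (fun N => M N (t • A) - M N A) atTop (𝓝 0) := by
      have e : ∀ N : ℕ, M N (t • A) - M N A = (m (t ^ (N + 1) • A) - m A) / (N + 1) := by
        intro N
        simp only [M]
        rw [← sub_div, ← Finset.sum_sub_distrib]
        congr 1
        have := Finset.sum_range_sub (fun i => m (t ^ i • A)) (N + 1)
        simp only [pow_zero, one_smul] at this
        rw [← this]
        refine Finset.sum_congr rfl fun i _ => ?_
        rw [smul_smul, pow_succ]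
      simp only [e]
      refine squeeze_zero_norm (fun N => ?_) tendsto_one_div_add_atTop_nhds_zero_nat
      have hN : (0 : ℝ) < N + 1 := by positivity
      rw [norm_div, Real.norm_of_nonneg hN.le]
      refine div_le_div_of_nonneg_right ?_ hN.le
      rw [Real.norm_eq_abs, abs_le]
      constructor <;> linarith [hm.1 A, hm.le_one A, hm.1 (t ^ (N + 1) • A),
        hm.le_one (t ^ (N + 1) • A)]
    have h1 := (hl (t • A)).sub (hl A)
    have h2 := h0.mono_left (Nat.hyperfilter_le_atTop)
    exact sub_eq_zero.1 (tendsto_nhds_unique h1 h2)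

theorem up (H : Subgroup G) (m : Set G → ℝ) (hm : IsMean m) (hH : ⁅H, H⁆ ≤ stab m) :
    ∃ μ : Set G → ℝ, IsMean μ ∧ H ≤ stab μ := by
  classical
  have key : ∀ T : Finset G, ∃ μ : Set G → ℝ, IsMean μ ∧ ⁅H, H⁆ ≤ stab μ ∧
      ∀ t ∈ T, t ∈ H → t ∈ stab μ := by
    intro T
    induction T using Finset.induction_on with
    | empty => exact ⟨m, hm, hH, by simp⟩
    | insert t T _ ih =>
      obtain ⟨μ, h1, h2, h3⟩ := ih
      by_cases ht : t ∈ H
      · obtain ⟨ν, g1, g2, g3⟩ := step (H ⊓ stab μ) t (fun h hh => ⟨H.mul_mem (H.mul_mem ht hh.1)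
          (H.inv_mem ht), by
            have := (stab μ).mul_mem (h2 (Subgroup.commutator_mem_commutator ht hh.1)) hh.2
            simpa [commutatorElement_def] using this⟩) μ h1 inf_le_right
        refine ⟨ν, g1, fun x hx => g2 ⟨Subgroup.commutator_le_self H hx, h2 hx⟩, fun s hs hsH => ?_⟩
        rcases Finset.mem_insert.1 hs with rfl | hs
        · exact g3
        · exact g2 ⟨hsH, h3 s hs hsH⟩
      · refine ⟨μ, h1, h2, fun s hs hsH => ?_⟩
        rcases Finset.mem_insert.1 hs with rfl | hs
        · exact absurd hsH ht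
        · exact h3 s hs hsH
  choose M h1 h2 h3 using key
  obtain ⟨μ, hμ, hl⟩ := ulim (Ultrafilter.of (atTop : Filter (Finset G))) M h1
  refine ⟨μ, hμ, fun h hh A => tendsto_nhds_unique (hl _) ((hl A).congr' ?_)⟩
  have : ∀ᶠ T : Finset G in atTop, M T A = M T (h • A) := by
    filter_upwards [eventually_ge_atTop {h}] with T hT
    exact (h3 T h (hT (Finset.mem_singleton_self h)) hh A).symm
  exact this.filter_mono (Ultrafilter.of_le _)

/-- Solvable groups are amenable. -/
theorem amenable_of_solvable [hG : Group.IsSolvable G] : Amenable G := by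
  classical
  obtain ⟨n, hn⟩ := hG.solvable
  have key : ∀ k, k ≤ n → ∃ μ : Set G → ℝ, IsMean μ ∧ derivedSeries G (n - k) ≤ stab μ := by
    intro k
    induction k with
    | zero =>
      intro _
      refine ⟨fun A => if (1 : G) ∈ A then 1 else 0, ⟨fun A => ?_, by simp, fun A B h => ?_⟩, ?_⟩
      · dsimp only; split_ifs <;> norm_num
      · have : (1 : G) ∈ A → (1 : G) ∉ B := fun x => Set.disjoint_left.1 h x
        by_cases a : (1 : G) ∈ A <;> by_cases b : (1 : G) ∈ B <;> simp_all
      · rw [Nat.sub_zero, hn]; exact bot_le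
    | succ k ih =>
      intro hk
      obtain ⟨μ, h1, h2⟩ := ih (by omega)
      refine up _ μ h1 ?_
      rwa [show n - k = (n - (k + 1)) + 1 by omega, derivedSeries_succ] at h2
  obtain ⟨μ, h1, h2⟩ := key n le_rfl
  rw [Nat.sub_self, derivedSeries_zero] at h2
  exact ⟨μ, h1, fun g => h2 (Subgroup.mem_top g)⟩

end Pool.Agent.H72.Amen
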