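import Mathlib

set_option autoImplicit false
set_option linter.unusedVariables false

namespace Pool.Agent.H72.Amp

open Polynomial IntermediateField
open scoped IntermediateField.algebraAdjoinAdjoin

section seid
variable {N : Type} [Field N] [CharZero N]

theorem seid (D : Derivation ℤ N N) (A S : Subring N) (hSA : S ≤ A) (hS : ∀ s ∈ S, D s ∈ S)
    (hQ : ∀ n : ℕ, (n : N)⁻¹ ∈ A) (a d : N) (ha : a ∈ A) (hd : ∀ n, d * a ^ n ∈ S) (m : ℕ) :
    d * D a ^ m ∈ A := by
  let : Differential N := ⟨D⟩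
  let δ : Derivation ℤ N[X] N[X] := Differential.mapCoeffs
  have δ1 : ∀ p i, coeff (δ p) i = D (coeff p i) := fun _ _ => rfl
  have δ2 : ∀ c, δ (C c) = C (D c) := Differential.mapCoeffs_C
  have δ3 : δ (C a - X) = C (D a) := by
    rw [map_sub, δ2, show δ X = 0 from Differential.mapCoeffs_X, sub_zero]
  have h1 : ∀ m n i, d * a ^ n * coeff ((C a - X) ^ m) i ∈ S := by
    intro m
    induction m with
    | zero =>
      intro n i
      rw [pow_zero, coeff_one]
      split_ifs
      · simpa using hd n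
      · simp
    | succ m ih =>
      intro n i
      rw [pow_succ, mul_sub, coeff_sub, coeff_mul_C, mul_sub]
      refine sub_mem (by have := ih (n + 1) i; rwa [pow_succ, ← mul_assoc, mul_right_comm,
        mul_assoc (d * a ^ n)] at this) ?_
      cases i with
      | zero => simp
      | succ i => rw [coeff_mul_X]; exact ih n i
  have h2 : ∀ n p, (∀ i, coeff p i ∈ S) → ∀ i, coeff (δ^[n] p) i ∈ S := by
    intro n p hp
    induction n with
    | zero => exact hp
    | succ n ih => intro i; rw [Function.iterate_succ_apply', δ1]; exact hS _ (ih i)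
  have h3 : ∀ n j, ∃ (H : N[X]) (c : ℕ), c ≠ 0 ∧ δ^[n] (C d * (C a - X) ^ (n + j)) =
      C (c * d * D a ^ n) * (C a - X) ^ j + (C a - X) ^ (j + 1) * H := by
    intro n
    induction n with
    | zero => intro j; exact ⟨0, 1, one_ne_zero, by simp⟩
    | succ n ih =>
      intro j
      obtain ⟨H, c, hc, e⟩ := ih (j + 1)
      refine ⟨C (D (c * d * D a ^ n)) + ((j : N[X]) + 2) * C (D a) * H + (C a - X) * δ H, c * (j + 1),
        by positivity, ?_⟩
      rw [Function.iterate_succ_apply', show n + 1 + j = n + (j + 1) by ring, e, map_add,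
        δ.leibniz, δ.leibniz, δ.leibniz_pow, δ.leibniz_pow, δ2, δ3]
      simp only [smul_eq_mul, nsmul_eq_mul, Nat.add_sub_cancel, map_mul, map_pow, map_natCast,
        Nat.cast_mul, Nat.cast_add, Nat.cast_one, map_add, map_one, Nat.cast_ofNat]
      ring
  obtain ⟨H, c, hc, e⟩ := h3 m 0
  have h4 : eval a (δ^[m] (C d * (C a - X) ^ (m + 0))) ∈ A := by
    rw [eval_eq_sum_range]
    refine sum_mem (fun i _ => mul_mem (hSA (h2 m _ (fun i => ?_) i)) (pow_mem ha _))
    rw [coeff_C_mul]
    simpa using h1 (m + 0) 0 i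
  rw [e] at h4
  have h5 := mul_mem (hQ c) h4
  have hc' : (c : N) ≠ 0 := by exact_mod_cast hc
  simp only [pow_zero, mul_one, zero_add, pow_one, eval_add, eval_C, eval_mul, eval_sub, eval_X,
    sub_self, zero_mul, add_zero] at h5
  rwa [mul_assoc, inv_mul_cancel_left₀ hc'] at h5

theorem loc_val (A : Subring N) [IsDedekindDomain A] [IsFractionRing A N]
    (O : ValuationSubring N) (hA : A ≤ O.toSubring) (a : N) (ha : a ∈ O) :
    ∃ b ∈ A, ∃ e ∈ A, e⁻¹ ∈ O ∧ e ≠ 0 ∧ a = b / e := by
  let f : A →+* O := Subring.inclusion hA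
  let P : Ideal A := (IsLocalRing.maximalIdeal O).comap f
  have hP : ∀ e : A, e ∉ P → (e : N)⁻¹ ∈ O ∧ (e : N) ≠ 0 := by
    intro e he
    have : IsUnit (f e) := by simpa [P] using he
    obtain ⟨w, hw⟩ := this.exists_right_inv
    have h1 : (e : N) * w = 1 := congrArg Subtype.val hw
    exact ⟨by rw [← eq_inv_of_mul_eq_one_right h1]; exact w.2, left_ne_zero_of_mul_eq_one h1⟩
  obtain ⟨r, s, hs, rfl⟩ := IsFractionRing.div_surjective (A := A) a
  have hs' : (s : N) ≠ 0 := by simpa using nonZeroDivisors.ne_zero hs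
  by_cases h0 : P = ⊥
  · have := hP s (by rw [h0]; simpa using hs')
    exact ⟨r, r.2, s, s.2, this.1, this.2, rfl⟩
  have := IsLocalization.AtPrime.isDiscreteValuationRing_of_dedekind_domain A h0
    (Localization.AtPrime P)
  have inj := IsLocalization.injective (Localization.AtPrime P) P.primeCompl_le_nonZeroDivisors
  obtain ⟨c, hc⟩ := ValuationRing.cond (algebraMap A (Localization.AtPrime P) r)
    (algebraMap A (Localization.AtPrime P) s)
  obtain ⟨⟨b, e⟩, hb⟩ := IsLocalization.surj P.primeCompl c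
  have he := hP e e.2
  dsimp only at hb
  rcases hc with hc | hc
  · have h1 : (r : N) * b = s * e := by
      have : r * b = s * e := inj (by rw [map_mul, map_mul, ← hb, ← hc, mul_assoc])
      exact congrArg Subtype.val this
    have hb0 : (b : N) ≠ 0 := right_ne_zero_of_mul (h1 ▸ mul_ne_zero hs' he.2)
    have h2 : (algebraMap A N r / algebraMap A N s) = e / b := by
      show (r : N) / s = _
      field_simp; linear_combination h1
    refine ⟨e, e.1.2, b, b.2, ?_, hb0, h2⟩
    rw [show (b : N)⁻¹ = e / b * (e : N)⁻¹ by field_simp [he.2], ← h2]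
    exact mul_mem ha he.1
  · have h1 : (s : N) * b = r * e := by
      have : s * b = r * e := inj (by rw [map_mul, map_mul, ← hb, ← hc, mul_assoc])
      exact congrArg Subtype.val this
    refine ⟨b, b.2, e, e.1.2, he.1, he.2, ?_⟩
    show (r : N) / s = _
    field_simp [he.2]; linear_combination -h1

variable {k K : Type} [Field k] [Field K] [Algebra k K] [Algebra K N] [Algebra k N]
  [IsScalarTower k K N]

theorem pres (D : Derivation ℤ N N) (hk : ∀ c : k, D (algebraMap k N c) = 0)
    (hK : ∀ a : K, ∃ b : K, D (algebraMap K N a) = algebraMap K N b) (y : N) (hy : D y = 0)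
    (Z : Set N) (hZ : Z.Finite) (hZ1 : ∀ z ∈ Z, D z = 0 ∧ IsAlgebraic k⟮y⟯ z)
    (hg : adjoin K Z = ⊤) (O : ValuationSubring N) (hO : ∀ a : K, algebraMap K N a ∈ O)
    (hyO : y ∈ O) : ∀ a ∈ O, D a ∈ O := by
  have := hZ.to_subtype
  have : CharZero K := RingHom.charZero (algebraMap K N)
  have hle : Algebra.adjoin k {y} ≤ (Algebra.adjoin K {y}).restrictScalars k :=
    Algebra.adjoin_le (Algebra.subset_adjoin)
  have hZ2 : ∀ z ∈ Z, ∃ c, c ≠ 0 ∧ D c = 0 ∧ c ∈ Algebra.adjoin K {y} ∧
      IsIntegral (Algebra.adjoin K {y}) (c * z) := by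
    intro z hz
    obtain ⟨c, c0, hc⟩ := ((IsFractionRing.isAlgebraic_iff (Algebra.adjoin k {y}) k⟮y⟯ N).2
      (hZ1 z hz).2).exists_integral_multiple
    refine ⟨c, by simpa using c0, ?_, hle c.2,
      IsIntegral.map_of_comp_eq (Subalgebra.inclusion hle).toRingHom (RingHom.id N) rfl hc⟩
    refine Algebra.adjoin_induction (p := fun c _ => D c = 0) ?_ hk ?_ ?_ c.2
    · rintro _ rfl; exact hy
    · intro a b _ _ h1 h2; rw [map_add, h1, h2, add_zero]
    · intro a b _ _ h1 h2; rw [D.leibniz, h1, h2]; simp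
  have hfd : FiniteDimensional K⟮y⟯ N := by
    have h1 : adjoin K⟮y⟯ Z = ⊤ := by
      apply restrictScalars_injective K
      rw [restrictScalars_top, eq_top_iff, ← hg, adjoin_le_iff]
      exact subset_adjoin K⟮y⟯ Z
    have h2 := finiteDimensional_adjoin (K := K⟮y⟯) (S := Z) (fun z hz => by
      obtain ⟨c, c0, -, c1, c2⟩ := hZ2 z hz
      have c3 : IsIntegral K⟮y⟯ (c * z) := c2.tower_top
      have c4 : IsIntegral K⟮y⟯ c⁻¹ :=
        isIntegral_algebraMap (x := (⟨c⁻¹, inv_mem (algebra_adjoin_le_adjoin K _ c1)⟩ : K⟮y⟯))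
      simpa [c0] using c4.mul c3)
    rw [h1] at h2
    exact topEquiv.toLinearEquiv.finiteDimensional
  have hpid : IsPrincipalIdealRing (Algebra.adjoin K {y}) := by
    rw [Algebra.adjoin_singleton_eq_range_aeval]
    exact IsPrincipalIdealRing.of_surjective (aeval y).rangeRestrict
      (aeval y).rangeRestrict_surjective
  let A := integralClosure (Algebra.adjoin K {y}) N
  have hded : IsDedekindDomain A := integralClosure.isDedekindDomain _ K⟮y⟯ N
  have hfr : IsFractionRing A N := integralClosure.isFractionRing_of_finite_extension K⟮y⟯ N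
  have hRA : ∀ c ∈ Algebra.adjoin K {y}, c ∈ A := fun c hc =>
    A.algebraMap_mem (⟨c, hc⟩ : Algebra.adjoin K {y})
  have hKA : ∀ c : K, algebraMap K N c ∈ A := fun c => hRA _ (Subalgebra.algebraMap_mem _ c)
  have hAO : A.toSubring ≤ O.toSubring := by
    intro a ha
    have h1 : (Algebra.adjoin K {y}).toSubring ≤ O.toSubring := by
      intro c hc
      refine Algebra.adjoin_induction (p := fun c _ => c ∈ O) ?_ hO ?_ ?_ hc
      · rintro _ rfl; exact hyO
      · intro a b _ _; exact add_mem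
      · intro a b _ _; exact mul_mem
    have h2 : IsIntegral O a :=
      IsIntegral.map_of_comp_eq (Subring.inclusion h1) (RingHom.id N) rfl ha
    obtain ⟨b, rfl⟩ := IsIntegrallyClosed.algebraMap_eq_of_integral h2
    exact b.2
  let S := Algebra.adjoin K {z | D z = 0 ∧ z ∈ A}
  have hS : ∀ s ∈ S, D s ∈ S ∧ s ∈ A := by
    intro s hs
    refine Algebra.adjoin_induction (p := fun c _ => D c ∈ S ∧ c ∈ A) ?_ ?_ ?_ ?_ hs
    · rintro z ⟨h1, h2⟩; exact ⟨by rw [h1]; exact zero_mem _, h2⟩
    · intro c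
      obtain ⟨b, hb⟩ := hK c
      exact ⟨by rw [hb]; exact S.algebraMap_mem b, hKA c⟩
    · intro a b _ _ h1 h2
      exact ⟨by rw [map_add]; exact add_mem h1.1 h2.1, add_mem h1.2 h2.2⟩
    · intro a b ha hb h1 h2
      exact ⟨by rw [D.leibniz]; exact add_mem (mul_mem ha h2.1) (mul_mem hb h1.1),
        mul_mem h1.2 h2.2⟩
  have hRS : Algebra.adjoin K {y} ≤ S := Algebra.adjoin_mono (by
    rintro _ rfl; exact ⟨hy, hRA _ (Algebra.self_mem_adjoin_singleton K _)⟩)
  have hfS : IsFractionRing S N := by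
    refine IsFractionRing.of_field _ _ (fun z => ?_)
    have : adjoin K {z | D z = 0 ∧ z ∈ A} = ⊤ := by
      rw [eq_top_iff, ← hg, adjoin_le_iff]
      intro z hz
      obtain ⟨c, c0, c1, c2, c3⟩ := hZ2 z hz
      rw [show z = (c * z) / c by field_simp]
      exact div_mem (subset_adjoin _ _ ⟨by rw [D.leibniz, c1, (hZ1 z hz).1]; simp, c3⟩)
        (subset_adjoin _ _ ⟨c1, hRA c c2⟩)
    obtain ⟨r, hr, s, hs, e⟩ := mem_adjoin_iff_div.1 (this.ge (mem_top (x := z)))
    exact ⟨⟨r, hr⟩, ⟨s, hs⟩, e⟩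
  have hDA : ∀ a ∈ A, D a ∈ A := by
    intro a ha
    have h1 : IsIntegral S a :=
      IsIntegral.map_of_comp_eq (Subalgebra.inclusion hRS).toRingHom (RingHom.id N) rfl ha
    obtain ⟨d, d0, hd⟩ := h1.isAlmostIntegral
    have h2 := seid D A.toSubring S.toSubring (fun s hs => (hS s hs).2) (fun s hs => (hS s hs).1)
      (fun n => by have := hKA (n : K)⁻¹; simpa using this) a d ha (fun n => by
        obtain ⟨b, hb⟩ := hd n
        exact (show (b : N) = d * a ^ n from hb) ▸ b.2)
    have h3 : IsAlmostIntegral A (D a) := ⟨⟨d, (hS d d.2).2⟩, mem_nonZeroDivisors_of_ne_zero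
      (fun h => nonZeroDivisors.ne_zero d0 (Subtype.ext (Subtype.ext_iff.1 h :))), fun n => ⟨⟨_, h2 n⟩, rfl⟩⟩
    exact isIntegral_trans (A := A) _ h3.isIntegral
  intro a ha
  have : IsDedekindDomain A.toSubring := hded
  have : IsFractionRing A.toSubring N := hfr
  obtain ⟨b, hb, e, he, h1, h2, rfl⟩ := loc_val A.toSubring O hAO a ha
  rw [D.leibniz_div]
  exact mul_mem (pow_mem h1 2) (sub_mem (mul_mem (hAO he) (hAO (hDA b hb)))
    (mul_mem (hAO hb) (hAO (hDA e he))))

end seid

end Pool.Agent.H72.Amp
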