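import Pool.Agent.H72.AmpA

set_option autoImplicit false
set_option linter.unusedVariables false
set_option linter.unusedSectionVars false

namespace Pool.Agent.H72.Amp

open Polynomial IntermediateField
open scoped IntermediateField.algebraAdjoinAdjoin

section
variable {N : Type} [Field N] [CharZero N]

theorem alg_map {E E' N' : Type} [Field E] [Field E'] [Field N'] [Algebra E N] [Algebra E' N']
    (σ : N →+* N') (h : ∀ a : E, σ (algebraMap E N a) ∈ Set.range (algebraMap E' N')) {z : N}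
    (hz : IsAlgebraic E z) : IsAlgebraic E' (σ z) := by
  obtain ⟨p, p0, hp⟩ := hz
  obtain ⟨q, hq⟩ := (mem_lifts (f := algebraMap E' N') (p.map (σ.comp (algebraMap E N)))).1
    ((lifts_iff_coeff_lifts _).2 (fun n => by rw [coeff_map]; exact h _))
  refine ⟨q, fun e => p0 ?_, ?_⟩
  · rw [e, Polynomial.map_zero] at hq
    exact (Polynomial.map_eq_zero _).1 hq.symm
  · rw [aeval_def, ← eval_map, hq, eval_map, ← hom_eval₂, ← aeval_def, hp, map_zero]

theorem alg_mono {E E' : Type} [Field E] [Field E'] [Algebra E N] [Algebra E' N]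
    (h : ∀ a : E, algebraMap E N a ∈ Set.range (algebraMap E' N)) {z : N}
    (hz : IsAlgebraic E z) : IsAlgebraic E' z := alg_map (RingHom.id N) h hz

theorem der_alg (D : Derivation ℤ N N) {E : Type} [Field E] [Algebra E N] {y : N}
    (hy : IsAlgebraic E y) (T : AddSubgroup N) (hT : ∀ c n, y ^ n * D (algebraMap E N c) ∈ T) :
    ∃ t ∈ T, ∃ p : E[X], D y = -t / aeval y p := by
  have : CharZero E := RingHom.charZero (algebraMap E N)
  have h1 : ∀ p : E[X], D (aeval y p) - aeval y (derivative p) * D y ∈ T := by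
    intro p
    induction p using Polynomial.induction_on' with
    | add p q a b =>
      have := add_mem a b
      simp only [map_add]
      rwa [show ∀ a b c d e : N, a - b * e + (c - d * e) = a + c - (b + d) * e by intros; ring]
        at this
    | monomial n c =>
      have := hT c n
      rw [aeval_monomial, D.leibniz, D.leibniz_pow, derivative_monomial, aeval_monomial]
      simp only [smul_eq_mul, nsmul_eq_mul, map_mul, map_natCast]
      rwa [show ∀ a b c d e : N, a * (b * (c * d)) + e - a * b * c * d = e by intros; ring]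
  have h2 : aeval y (derivative (minpoly E y)) ≠ 0 :=
    (minpoly.irreducible hy.isIntegral).separable.aeval_derivative_ne_zero (minpoly.aeval E y)
  refine ⟨_, h1 (minpoly E y), derivative (minpoly E y), ?_⟩
  rw [minpoly.aeval, map_zero]
  field_simp
  ring

theorem der_zero (D : Derivation ℤ N N) {E : Type} [Field E] [Algebra E N] {y : N}
    (hy : IsAlgebraic E y) (hT : ∀ c, D (algebraMap E N c) = 0) : D y = 0 := by
  obtain ⟨t, h, p, e⟩ := der_alg D hy ⊥ (fun c n => by simp [hT])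
  rw [e, AddSubgroup.mem_bot.1 h]; simp

variable {k : Type} [Field k] [Algebra k N]

theorem der_adj (D : Derivation ℤ N N) (hk : ∀ c : k, D (algebraMap k N c) = 0) {y : N}
    (hy : D y = 0) (c : k⟮y⟯) : D (algebraMap k⟮y⟯ N c) = 0 := by
  refine adjoin_induction k (p := fun c _ => D c = 0) ?_ hk ?_ ?_ ?_ c.2
  · rintro _ rfl; exact hy
  · intro a b _ _ h1 h2; rw [map_add, h1, h2, add_zero]
  · intro a _ h1; rw [D.leibniz_inv, h1, smul_zero]
  · intro a b _ _ h1 h2; rw [D.leibniz, h1, h2]; simp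

def Ind (R : Type) {A : Type} [CommRing R] [CommRing A] [Algebra R A] (y z : A) : Prop :=
  AlgebraicIndependent R (fun o : Option Unit => o.elim z (fun _ => y))

theorem ind_iff {y z : N} : Ind k y z ↔ Transcendental k y ∧ Transcendental k⟮y⟯ z := by
  rw [Ind, AlgebraicIndependent.option_iff, algebraicIndependent_unique_type_iff, Set.range_const,
    Transcendental, Transcendental, Transcendental,
    IsFractionRing.isAlgebraic_iff (Algebra.adjoin k {y}) k⟮y⟯ N]

theorem Ind.symm {R A : Type} [CommRing R] [CommRing A] [Algebra R A] {y z : A} (h : Ind R y z) :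
    Ind R z y := by
  have := AlgebraicIndependent.comp h (Equiv.swap none (some ())) (Equiv.injective _)
  have e : (fun o : Option Unit => o.elim z (fun _ => y)) ∘ (Equiv.swap none (some ())) =
      (fun o : Option Unit => o.elim y (fun _ => z)) := by
    funext o
    rcases o with _ | ⟨⟨⟩⟩ <;> simp
  rwa [e] at this

theorem exch (D : Derivation ℤ N N) (hk : ∀ c : k, D (algebraMap k N c) = 0) {x w : N}
    (hx : D x = 1) (hw : D w = 0) (h : IsAlgebraic k⟮x⟯ w) : IsAlgebraic k w := by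
  by_contra h1
  refine (ind_iff.1 (ind_iff.2 ⟨h1, fun h2 => ?_⟩).symm).2 h
  rw [der_zero D h2 (der_adj D hk hw)] at hx
  exact zero_ne_one hx

theorem curve {K : Type} [Field K] [Algebra K N] (D : Derivation ℤ N N)
    (hO : ∀ O : ValuationSubring N, (∀ a : K, algebraMap K N a ∈ O) → ∀ a ∈ O, D a ∈ O)
    (t : K) (t0 : t ≠ 0) (ht : D (algebraMap K N t) = 0) (u v : N)
    (e : algebraMap K N t * v ^ 2 = 1 - u ^ 6) : D u = 0 ∨ IsAlgebraic K u := by
  have : CharZero K := RingHom.charZero (algebraMap K N)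
  by_cases v0 : v = 0
  · refine Or.inr ⟨1 - X ^ 6, fun h => ?_, by simp [← e, v0]⟩
    simpa using congrArg (eval 0) h
  rw [or_iff_not_imp_left]
  intro hu
  have T0 : algebraMap K N t ≠ 0 := by simpa using t0
  have key : ∀ O : ValuationSubring N, (∀ a : K, algebraMap K N a ∈ O) →
      D u / v ∈ O ∧ u * (D u / v) ∈ O := by
    intro O h
    have hD := hO O h
    have hti : (algebraMap K N t)⁻¹ ∈ O := by simpa using h t⁻¹
    have h3 : (3 : N)⁻¹ ∈ O := by have := h (3 : K)⁻¹; rwa [map_inv₀, map_ofNat] at this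
    have hT := h t
    generalize algebraMap K N t = T at *
    have unit : ∀ a b : N, a ∈ O → b ∈ O → a + b = 1 → a⁻¹ ∈ O ∧ a ≠ 0 ∨ b⁻¹ ∈ O ∧ b ≠ 0 := by
      intro a b ha hb hab
      have hu : ∀ c : O, IsUnit c → (c : N)⁻¹ ∈ O ∧ (c : N) ≠ 0 := by
        intro c hc
        obtain ⟨w, hw⟩ := hc.exists_right_inv
        have h1 : (c : N) * w = 1 := congrArg Subtype.val hw
        exact ⟨by rw [← eq_inv_of_mul_eq_one_right h1]; exact w.2, left_ne_zero_of_mul_eq_one h1⟩
      exact (IsLocalRing.isUnit_or_isUnit_of_add_one (a := (⟨a, ha⟩ : O)) (b := ⟨b, hb⟩)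
        (Subtype.ext hab)).imp (hu _) (hu _)
    have sq : ∀ a : N, a ^ 2 ∈ O → a ∈ O := by
      intro a ha
      rcases O.mem_or_inv_mem a with h | h
      · exact h
      · by_cases a0 : a = 0
        · rw [a0]; exact zero_mem _
        · rw [show a = a ^ 2 * a⁻¹ by field_simp]; exact mul_mem ha h
    have dv : T * v * D v = -3 * u ^ 5 * D u := by
      have := congrArg D e
      rw [D.leibniz, ht, D.leibniz_pow, map_sub, D.map_one_eq_zero, D.leibniz_pow] at this
      simp only [smul_eq_mul, nsmul_eq_mul] at this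
      push_cast at this
      linear_combination this / 2
    rcases O.mem_or_inv_mem u with h1 | h1
    · have h2 : v ∈ O := sq v (by
        rw [show v ^ 2 = T⁻¹ * (1 - u ^ 6) by rw [← e]; field_simp]
        exact mul_mem hti (sub_mem (one_mem _) (pow_mem h1 6)))
      suffices D u / v ∈ O from ⟨this, mul_mem h1 this⟩
      rcases unit (T * v ^ 2) (u ^ 6) (mul_mem hT (pow_mem h2 2)) (pow_mem h1 6)
        (by rw [e]; ring) with ⟨h4, -⟩ | ⟨h4, h5⟩
      · rw [show D u / v = D u * (T * v) * (T * v ^ 2)⁻¹ by field_simp]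
        exact mul_mem (mul_mem (hD u h1) (mul_mem hT h2)) h4
      · have u0 : u ≠ 0 := fun h => h5 (by simp [h])
        rw [show D u / v = -(T * D v * u * 3⁻¹ * (u ^ 6)⁻¹) by
          field_simp; linear_combination dv]
        exact neg_mem (mul_mem (mul_mem (mul_mem (mul_mem hT (hD v h2)) h1) h3) h4)
    · by_cases h0 : u ∈ O
      · have h2 : v ∈ O := sq v (by
          rw [show v ^ 2 = T⁻¹ * (1 - u ^ 6) by rw [← e]; field_simp]
          exact mul_mem hti (sub_mem (one_mem _) (pow_mem h0 6)))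
        have u0 : u ≠ 0 := fun h => hu (by simp [h])
        suffices D u / v ∈ O from ⟨this, mul_mem h0 this⟩
        rw [show D u / v = -(T * D v * 3⁻¹ * (u⁻¹) ^ 5) by
          field_simp; linear_combination dv]
        exact neg_mem (mul_mem (mul_mem (mul_mem hT (hD v h2)) h3) (pow_mem h1 5))
      have u0 : u ≠ 0 := fun h => hu (by simp [h])
      have e2 : T * (v * u⁻¹ ^ 3) ^ 2 = u⁻¹ ^ 6 - 1 := by field_simp; linear_combination e
      have h2 : v * u⁻¹ ^ 3 ∈ O := sq _ (by
        rw [show (v * u⁻¹ ^ 3) ^ 2 = T⁻¹ * (u⁻¹ ^ 6 - 1) by rw [← e2]; field_simp]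
        exact mul_mem hti (sub_mem (pow_mem h1 6) (one_mem _)))
      rcases unit (-(T * (v * u⁻¹ ^ 3) ^ 2)) (u⁻¹ ^ 6) (neg_mem (mul_mem hT (pow_mem h2 2)))
        (pow_mem h1 6) (by rw [e2]; ring) with ⟨h4, -⟩ | ⟨h4, -⟩
      · have h5 : u * (D u / v) ∈ O := by
          rw [show u * (D u / v) = D u⁻¹ * (T * (v * u⁻¹ ^ 3)) * (-(T * (v * u⁻¹ ^ 3) ^ 2))⁻¹ by
            rw [D.leibniz_inv, smul_eq_mul]; field_simp]
          exact mul_mem (mul_mem (hD _ h1) (mul_mem hT h2)) h4
        refine ⟨?_, h5⟩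
        rw [show D u / v = u⁻¹ * (u * (D u / v)) by field_simp]
        exact mul_mem h1 h5
      · refine (h0 ?_).elim
        rw [show u = u⁻¹ ^ 5 * (u⁻¹ ^ 6)⁻¹ by field_simp]
        exact mul_mem (pow_mem h1 5) h4
  have alg : ∀ w : N, (∀ O : ValuationSubring N, (∀ a : K, algebraMap K N a ∈ O) → w ∈ O) →
      IsIntegral K w := by
    intro w hw
    have h1 : w ∈ (integralClosure (Subring.closure (Set.range (algebraMap K N))) N).toSubring := by
      rw [← iInf_valuationSubring_superset, Subring.mem_iInf]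
      exact fun V => hw V.1 (fun a => V.2 ⟨a, rfl⟩)
    have h2 : Subring.closure (Set.range (algebraMap K N)) ≤ (algebraMap K N).fieldRange.toSubring :=
      Subring.closure_le.2 (fun _ h => h)
    have h3 : IsIntegral (algebraMap K N).fieldRange w :=
      IsIntegral.map_of_comp_eq (Subring.inclusion h2) (RingHom.id N) rfl h1
    exact (alg_mono (fun a => a.2) h3.isAlgebraic).isIntegral
  have a1 := alg _ (fun O h => (key O h).1)
  have a2 := alg _ (fun O h => (key O h).2)
  rw [show u = u * (D u / v) * (D u / v)⁻¹ by field_simp]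
  exact (a2.mul a1.inv).isAlgebraic

theorem desc (D : Derivation ℤ N N) (hk : ∀ c : k, D (algebraMap k N c) = 0) (Z1 Z2 : Set N)
    (f1 : Z1.Finite) (x1 x2 : N) (d1 : D x1 = 0) (d2 : D x2 = 1)
    (z1 : ∀ z ∈ Z1, IsAlgebraic k⟮x1⟯ z) (z2 : ∀ z ∈ Z2, IsAlgebraic k⟮x2⟯ z)
    (hg : adjoin k (Z1 ∪ Z2) = ⊤) (σ : N →+* N)
    (s0 : ∀ c : k, σ (algebraMap k N c) ∈ Set.range (algebraMap k N))
    (s1 : σ x1 = x2) (s2 : σ x2 = x1) (t : k) (t0 : t ≠ 0) (u v : N)
    (e : algebraMap k N t * v ^ 2 = 1 - u ^ 6) (hu : σ u = u) : IsAlgebraic k u := by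
  have sym : ∀ a b : N, σ a = b → IsAlgebraic k⟮a⟯ u → IsAlgebraic k⟮b⟯ u := by
    intro a b h h'
    rw [← hu]
    refine alg_map σ (fun c => ?_) h'
    suffices σ c ∈ k⟮b⟯ from ⟨⟨_, this⟩, rfl⟩
    refine adjoin_induction k (p := fun c _ => σ c ∈ k⟮b⟯) ?_ ?_ ?_ ?_ ?_ c.2
    · rintro _ rfl; rw [h]; exact mem_adjoin_simple_self k b
    · intro c
      obtain ⟨c', hc⟩ := s0 c
      rw [← hc]; exact IntermediateField.algebraMap_mem _ _
    · intro a b _ _ h1 h2; rw [map_add]; exact add_mem h1 h2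
    · intro a _ h1; rw [map_inv₀]; exact inv_mem h1
    · intro a b _ _ h1 h2; rw [map_mul]; exact mul_mem h1 h2
  suffices IsAlgebraic k⟮x1⟯ u ∨ IsAlgebraic k⟮x2⟯ u from
    exch D hk d2 (der_zero D (this.elim id (sym _ _ s2)) (der_adj D hk d1))
      (this.elim (sym _ _ s1) id)
  let K := algebraicClosure k⟮x2⟯ N
  have : IsScalarTower k K N := IsScalarTower.of_algebraMap_eq (fun _ => rfl)
  have hK0 : ∀ c ∈ k⟮x2⟯, D c ∈ k⟮x2⟯ := by
    intro c hc
    refine adjoin_induction k (p := fun c _ => D c ∈ k⟮x2⟯) ?_ ?_ ?_ ?_ ?_ hc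
    · rintro _ rfl; rw [d2]; exact one_mem _
    · intro c; rw [hk]; exact zero_mem _
    · intro a b _ _ h1 h2; rw [map_add]; exact add_mem h1 h2
    · intro a ha h1; rw [D.leibniz_inv]; exact mul_mem (neg_mem (pow_mem (inv_mem ha) 2)) h1
    · intro a b ha hb h1 h2; rw [D.leibniz]; exact add_mem (mul_mem ha h2) (mul_mem hb h1)
  have hK : ∀ a : K, ∃ b : K, D (algebraMap K N a) = algebraMap K N b := by
    intro a
    obtain ⟨t, h, p, e⟩ := der_alg D (mem_algebraicClosure_iff.1 a.2) K.toSubfield.toAddSubgroup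
      (fun c n => K.mul_mem (pow_mem a.2 n) (K.algebraMap_mem ⟨_, hK0 c c.2⟩))
    refine ⟨⟨_, ?_⟩, e⟩
    exact div_mem (neg_mem h) (by
      have := (aeval a p).2
      rwa [← IntermediateField.algebraMap_apply, ← aeval_algebraMap_apply] at this)
  have hg1 : adjoin K Z1 = ⊤ := by
    rw [eq_top_iff]
    intro z _
    have : adjoin k (Z1 ∪ Z2) ≤ ((adjoin K Z1).restrictScalars k⟮x2⟯).restrictScalars k :=
      adjoin_le_iff.2 (Set.union_subset (subset_adjoin K Z1) (fun z hz =>
        (adjoin K Z1).algebraMap_mem ⟨z, mem_algebraicClosure_iff.2 (z2 z hz)⟩))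
    exact this (hg.ge mem_top)
  have dz : ∀ z ∈ Z1, D z = 0 := fun z hz => der_zero D (z1 z hz) (der_adj D hk d1)
  have := curve (K := K) D (fun O h => by
    rcases O.mem_or_inv_mem x1 with h1 | h1
    · exact pres D hk hK x1 d1 Z1 f1 (fun z hz => ⟨dz z hz, z1 z hz⟩) hg1 O h h1
    · refine pres D hk hK x1⁻¹ (by rw [D.leibniz_inv, d1, smul_zero]) Z1 f1
        (fun z hz => ⟨dz z hz, alg_mono (fun a => ?_) (z1 z hz)⟩) hg1 O h h1
      have : k⟮x1⟯ ≤ k⟮x1⁻¹⟯ := adjoin_simple_le_iff.2 (by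
        simpa using inv_mem (mem_adjoin_simple_self k x1⁻¹))
      exact ⟨⟨a, this a.2⟩, rfl⟩) (algebraMap k K t) (by simpa using t0) (hk t) u v e
  refine this.imp (fun h => exch D (der_adj D hk d1) d2 h ?_) (fun h => h.restrictScalars _)
  have : adjoin k (Z1 ∪ Z2) ≤ ((algebraicClosure (k⟮x1⟯)⟮x2⟯ N).restrictScalars
      k⟮x1⟯).restrictScalars k := by
    refine adjoin_le_iff.2 (Set.union_subset (fun z hz => mem_algebraicClosure_iff.2
      ((z1 z hz).tower_top _)) (fun z hz => mem_algebraicClosure_iff.2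
      (alg_mono (fun a => ?_) (z2 z hz))))
    have : k⟮x2⟯ ≤ (k⟮x1⟯)⟮x2⟯.restrictScalars k :=
      adjoin_simple_le_iff.2 (mem_adjoin_simple_self k⟮x1⟯ x2)
    exact ⟨⟨a, this a.2⟩, rfl⟩
  exact mem_algebraicClosure_iff.1 (this (hg.ge mem_top))

end

end Pool.Agent.H72.Amp
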