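import Pool.Agent.H72.AmpB

set_option autoImplicit false
set_option linter.unusedVariables false
set_option linter.unusedSectionVars false

namespace Pool.Agent.H72.Amp

open Polynomial IntermediateField TensorProduct

theorem der_ex {E N : Type} [Field E] [Field N] [CharZero N] [Algebra E N] (x : N)
    (hx : Transcendental E x) (h : ∀ z : N, IsAlgebraic E⟮x⟯ z) :
    ∃ D : Derivation ℤ N N, D x = 1 ∧ ∀ c, D (algebraMap E N c) = 0 := by
  let : Algebra E[X] N := (aeval x).toRingHom.toAlgebra
  have : IsScalarTower E E[X] N := IsScalarTower.of_algebraMap_eq (fun c => (aeval_C x c).symm)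
  have : FaithfulSMul E[X] N := (faithfulSMul_iff_algebraMap_injective _ _).2
    (transcendental_iff_injective.1 hx)
  let := FractionRing.liftAlgebra E[X] N
  have := FractionRing.isScalarTower_liftAlgebra E[X] N
  have : CharZero (FractionRing E[X]) := RingHom.charZero (algebraMap _ N)
  have : Algebra.IsAlgebraic (FractionRing E[X]) N := ⟨fun z => alg_mono (fun a => by
    obtain ⟨r, s, e⟩ := (mem_adjoin_simple_iff E (a : N)).1 a.2
    refine ⟨algebraMap _ _ r / algebraMap _ _ s, ?_⟩
    rw [map_div₀, ← IsScalarTower.algebraMap_apply, ← IsScalarTower.algebraMap_apply]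
    exact e.symm) (h z)⟩
  have : Algebra.FormallyEtale E[X] (FractionRing E[X]) :=
    .of_isLocalization (nonZeroDivisors E[X])
  have : Algebra.FormallyEtale (FractionRing E[X]) N := .of_isSeparable _ _
  have : Algebra.FormallyEtale E[X] N := .comp _ (FractionRing E[X]) _
  have hb := KaehlerDifferential.isBaseChange_of_formallyEtale E E[X] N
  let l := hb.lift ((Algebra.linearMap E[X] N).comp
    (KaehlerDifferential.polynomialEquiv E).toLinearMap)
  let D : Derivation E N N := l.compDer (KaehlerDifferential.D E N)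
  refine ⟨D.restrictScalars ℤ, ?_, fun c => D.map_algebraMap c⟩
  have h1 : x = algebraMap E[X] N X := (aeval_X x).symm
  show l (KaehlerDifferential.D E N x) = 1
  rw [h1, ← KaehlerDifferential.map_D E E E[X] N, hb.lift_eq]
  simp

theorem desc' {N k : Type} [Field N] [CharZero N] [Field k] [Algebra k N] (Z1 Z2 : Set N)
    (f1 : Z1.Finite) (x1 x2 : N) (hi : Ind k x1 x2)
    (z1 : ∀ z ∈ Z1, IsAlgebraic k⟮x1⟯ z) (z2 : ∀ z ∈ Z2, IsAlgebraic k⟮x2⟯ z)
    (hg : adjoin k (Z1 ∪ Z2) = ⊤) (σ : N →+* N)
    (s0 : ∀ c : k, σ (algebraMap k N c) ∈ Set.range (algebraMap k N))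
    (s1 : σ x1 = x2) (s2 : σ x2 = x1) (t : k) (t0 : t ≠ 0) (u v : N)
    (e : algebraMap k N t * v ^ 2 = 1 - u ^ 6) (hu : σ u = u) : IsAlgebraic k u := by
  obtain ⟨D, d1, d2⟩ := der_ex x2 (ind_iff.1 hi).2 (fun u => by
    have : adjoin k (Z1 ∪ Z2) ≤ ((algebraicClosure (k⟮x1⟯)⟮x2⟯ N).restrictScalars
        k⟮x1⟯).restrictScalars k := by
      refine adjoin_le_iff.2 (Set.union_subset (fun z hz => mem_algebraicClosure_iff.2
        ((z1 z hz).tower_top _)) (fun z hz => mem_algebraicClosure_iff.2
        (alg_mono (fun a => ?_) (z2 z hz))))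
      have : k⟮x2⟯ ≤ (k⟮x1⟯)⟮x2⟯.restrictScalars k :=
        adjoin_simple_le_iff.2 (mem_adjoin_simple_self k⟮x1⟯ x2)
      exact ⟨⟨a, this a.2⟩, rfl⟩
    exact mem_algebraicClosure_iff.1 (this (hg.ge mem_top)))
  exact desc D (fun c => d2 (algebraMap k _ c)) Z1 Z2 f1 x1 x2
    (d2 ⟨x1, mem_adjoin_simple_self k x1⟩) d1 z1 z2 hg σ s0 s1 s2 t t0 u v e hu

theorem ind_bc {K A : Type} (R : Type) [Field K] [CommRing R] [Algebra K R] [CommRing A]
    [Algebra K A] {ι : Type} {v : ι → A} (h : AlgebraicIndependent K v) :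
    AlgebraicIndependent R (fun i => (1 : R) ⊗ₜ[K] v i) := by
  have e : MvPolynomial.aeval (fun i => (1 : R) ⊗ₜ[K] v i) =
      (Algebra.TensorProduct.map (AlgHom.id R R) (MvPolynomial.aeval v)).comp
        (MvPolynomial.algebraTensorAlgEquiv K R).symm.toAlgHom := by
    ext; simp
  rw [AlgebraicIndependent, e]
  exact (Module.Flat.lTensor_preserves_injective_linearMap (M := R)
    (MvPolynomial.aeval v).toLinearMap h).comp
    (MvPolynomial.algebraTensorAlgEquiv K R).symm.injective

theorem tr_bc {K A : Type} (R : Type) [Field K] [CommRing R] [Algebra K R] [CommRing A]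
    [Algebra K A] {x : A} (h : Transcendental K x) : Transcendental R ((1 : R) ⊗ₜ[K] x) :=
  (algebraicIndependent_unique_type_iff (ι := Unit)).1
    (ind_bc R (v := fun _ => x) (algebraicIndependent_unique_type_iff.2 h))

theorem ind_tower {k S A : Type} [CommRing k] [CommRing S] [CommRing A] [Algebra k S]
    [Algebra S A] [Algebra k A] [IsScalarTower k S A] {a : S} {b : A} (h : Transcendental k a)
    (h' : Transcendental S b) : Ind k (algebraMap S A a) b := by
  have := (AlgebraicIndependent.sumElim_comp (x := fun _ : Unit => a) (y := fun _ : Unit => b)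
    (algebraicIndependent_unique_type_iff.2 h) (algebraicIndependent_unique_type_iff.2 h')).comp
    (fun o : Option Unit => o.elim (Sum.inl ()) Sum.inr) (by decide)
  have e : (Sum.elim (fun _ : Unit => b) (algebraMap S A ∘ fun _ : Unit => a)) ∘
      (fun o : Option Unit => o.elim (Sum.inl ()) Sum.inr) =
      (fun o : Option Unit => o.elim b (fun _ => algebraMap S A a)) := by
    funext o
    rcases o with _ | ⟨⟨⟩⟩ <;> rfl
  rwa [e] at this

theorem Ind.of_map {K k A N : Type} [Field K] [Field k] [CommRing A] [CommRing N] [Algebra K k]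
    [Algebra K A] [Algebra K N] [Algebra k N] [IsScalarTower K k N] (f : A →ₐ[K] N) {y z : A}
    (h : Ind k (f y) (f z)) : Ind K y z := by
  refine AlgebraicIndependent.of_comp f ?_
  have e : f ∘ (fun o : Option Unit => o.elim z (fun _ => y)) =
      (fun o : Option Unit => o.elim (f z) (fun _ => f y)) := by
    funext o
    rcases o with _ | ⟨⟨⟩⟩ <;> rfl
  rw [e]
  exact AlgebraicIndependent.restrictScalars (algebraMap K k).injective h

theorem Ind.map {K A N : Type} [CommRing K] [CommRing A] [CommRing N]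
    [Algebra K A] [Algebra K N] (f : A →ₐ[K] N) (hf : Function.Injective f) {y z : A}
    (h : Ind K y z) : Ind K (f y) (f z) := by
  have := AlgebraicIndependent.map' h hf
  have e : f ∘ (fun o : Option Unit => o.elim z (fun _ => y)) =
      (fun o : Option Unit => o.elim (f z) (fun _ => f y)) := by
    funext o
    rcases o with _ | ⟨⟨⟩⟩ <;> rfl
  rwa [e] at this

theorem cnt_mv (R σ : Type) [CommRing R] [Countable R] [Countable σ] :
    Countable (MvPolynomial σ R) := by
  rw [← Cardinal.mk_le_aleph0_iff]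
  exact MvPolynomial.cardinalMk_le_max.trans (by simp [Cardinal.mk_le_aleph0])

theorem cnt_ft (R S : Type) [CommRing R] [CommRing S] [Algebra R S] [Countable R]
    [h : Algebra.FiniteType R S] : Countable S := by
  obtain ⟨n, f, hf⟩ := Algebra.FiniteType.iff_quotient_mvPolynomial''.1 h
  have := cnt_mv R (Fin n)
  exact hf.countable

theorem emb (k N : Type) [Field k] [Algebra k ℂ] [Countable k] [Field N] [Algebra k N]
    [Countable N] : Nonempty (N →ₐ[k] ℂ) := by
  obtain ⟨s, hs⟩ := exists_isTranscendenceBasis k N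
  obtain ⟨t, ht⟩ := exists_isTranscendenceBasis k ℂ
  have h1 := IsAlgClosed.cardinal_eq_cardinal_transcendence_basis_of_aleph0_lt' _ ht
    Cardinal.mk_le_aleph0 (by rw [Cardinal.mk_complex]; exact Cardinal.aleph0_lt_continuum)
  obtain ⟨j⟩ : Nonempty (s ↪ t) := by
    rw [← Cardinal.le_def, ← h1, Cardinal.mk_complex]
    exact Cardinal.mk_le_aleph0.trans Cardinal.aleph0_le_continuum
  have h2 := ht.1.comp j j.injective
  let ψ := (MvPolynomial.aeval (R := k) (Subtype.val ∘ j)).comp hs.1.aevalEquiv.symm.toAlgHom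
  have hψ : Function.Injective ψ := fun a b h => hs.1.aevalEquiv.symm.injective (h2 h)
  let := ψ.toRingHom.toAlgebra
  have : FaithfulSMul (Algebra.adjoin k (Set.range (Subtype.val : s → N))) ℂ :=
    (faithfulSMul_iff_algebraMap_injective _ _).2 hψ
  have : IsScalarTower k (Algebra.adjoin k (Set.range (Subtype.val : s → N))) ℂ :=
    IsScalarTower.of_algebraMap_eq (fun c => (ψ.commutes c).symm)
  have := hs.isAlgebraic
  exact ⟨(IsAlgClosed.lift (R := Algebra.adjoin k (Set.range (Subtype.val : s → N))) (S := N)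
    (M := ℂ)).restrictScalars k⟩

theorem cnt_fr (R : Type) [CommRing R] [Countable R] : Countable (FractionRing R) := by
  rw [← Cardinal.mk_le_aleph0_iff, Cardinal.mk_fractionRing]
  exact Cardinal.mk_le_aleph0

theorem dom_of {K R A : Type} [Field K] [CommRing R] [CommRing A] [Algebra K R] [Algebra K A]
    [Algebra K ℂ] [IsDomain (ℂ ⊗[K] A)] (f : R →ₐ[K] ℂ) (hf : Function.Injective f) :
    IsDomain (R ⊗[K] A) :=
  Function.Injective.isDomain (Algebra.TensorProduct.map f (AlgHom.id K A)).toRingHom
    (Module.Flat.rTensor_preserves_injective_linearMap (M := A) f.toLinearMap hf)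

end Pool.Agent.H72.Amp
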