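import Pool.Agent.H72.AmpC

set_option autoImplicit false
set_option linter.unusedVariables false
set_option linter.unusedSectionVars false

namespace Pool.Agent.H72.Amp

open Polynomial IntermediateField TensorProduct

/-- Geometrically integral affine curves with a chosen transcendental function. -/
structure Good (K0 A : Type) [Field K0] [Algebra K0 ℂ] [CommRing A] [Algebra K0 A] (x : A) :
    Prop where
  dom : IsDomain (ℂ ⊗[K0] A)
  ft : Algebra.FiniteType K0 A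
  tr : Transcendental K0 x
  one : ∀ a, ¬ Ind K0 x a

section
variable {K0 k A : Type} [Field K0] [Field k] [Algebra K0 k] [Algebra k ℂ] [Algebra K0 ℂ]
  [IsScalarTower K0 k ℂ] [Countable k] [CommRing A] [Algebra K0 A] {x : A}

theorem core0 (h : Good K0 A x) : IsDomain (k ⊗[K0] (A ⊗[K0] A)) ∧
    Countable (k ⊗[K0] (A ⊗[K0] A)) ∧
    Ind k ((1 : k) ⊗ₜ[K0] (x ⊗ₜ[K0] (1 : A))) ((1 : k) ⊗ₜ[K0] ((1 : A) ⊗ₜ[K0] x)) := by
  have := h.dom
  have := h.ft
  have d1 : IsDomain (k ⊗[K0] A) :=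
    dom_of (IsScalarTower.toAlgHom K0 k ℂ) (algebraMap k ℂ).injective
  have c1 : Countable (k ⊗[K0] A) := cnt_ft k _
  have c2 := cnt_fr (k ⊗[K0] A)
  obtain ⟨j⟩ := emb k (FractionRing (k ⊗[K0] A))
  have d2 : IsDomain ((k ⊗[K0] A) ⊗[K0] A) :=
    dom_of ((j.comp (IsScalarTower.toAlgHom k (k ⊗[K0] A) _)).restrictScalars K0)
      (j.injective.comp (IsFractionRing.injective _ _))
  have c3 : Countable ((k ⊗[K0] A) ⊗[K0] A) := cnt_ft (k ⊗[K0] A) _
  let e := Algebra.TensorProduct.assoc K0 K0 k k A A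
  refine ⟨e.symm.injective.isDomain e.symm.toRingHom, e.surjective.countable, ?_⟩
  exact (ind_tower (tr_bc k h.tr) (tr_bc (k ⊗[K0] A) h.tr)).map e.toAlgHom e.injective

theorem core (h : Good K0 A x) : ∃ P P' : A →ₐ[K0] ℂ, Transcendental k (P x) ∧
    ∀ τ : k ≃ₐ[K0] k, ∃ Φ Ψ : Subfield ℂ,
      (∀ c, algebraMap k ℂ c ∈ Φ ↔ τ c = c) ∧ (∀ a, P a ∈ Φ ∧ P' a ∈ Φ) ∧
      (∀ c, algebraMap k ℂ c ∈ Ψ ↔ τ c = c) ∧ (∀ a, P a + P' a ∈ Ψ ∧ (P a - P' a) ^ 2 ∈ Ψ ∧
        ∀ c, τ c = -c → algebraMap k ℂ c * (P a - P' a) ∈ Ψ) ∧ P x - P' x ∉ Ψ ∧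
      ∀ (n : ℕ) (t : k), t ≠ 0 → ∀ u ∈ Ψ, ∀ v ∈ Ψ,
        algebraMap k ℂ t * ((P x - P' x) ^ n * v) ^ 2 = 1 - u ^ 6 → IsAlgebraic k u := by
  obtain ⟨d, c, i⟩ := core0 (k := k) h
  let B := k ⊗[K0] (A ⊗[K0] A)
  let N := FractionRing B
  have := cnt_fr B
  obtain ⟨j⟩ := emb k N
  have : CharZero N := RingHom.charZero j.toRingHom
  let g : B →ₐ[k] N := IsScalarTower.toAlgHom k B N
  have hg : Function.Injective g := IsFractionRing.injective B N
  let q : A ⊗[K0] A →ₐ[K0] N := (g.restrictScalars K0).comp Algebra.TensorProduct.includeRight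
  let p : A →ₐ[K0] N := q.comp Algebra.TensorProduct.includeLeft
  let p' : A →ₐ[K0] N := q.comp Algebra.TensorProduct.includeRight
  have hi : Ind k (p x) (p' x) := i.map g hg
  have hi' : Ind k (p' x) (p x) := hi.symm
  have ne : p x ≠ p' x := fun e => (ind_iff.1 hi).2
    (e ▸ isAlgebraic_algebraMap (⟨p x, mem_adjoin_simple_self k _⟩ : k⟮p x⟯))
  obtain ⟨s, hs⟩ := h.ft.1
  have gen : adjoin k (p '' s ∪ Set.range p') = ⊤ := by
    have h1 : ∀ a, p a ∈ adjoin k (p '' s ∪ Set.range p') := by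
      intro a
      refine Algebra.adjoin_induction (p := fun a _ => p a ∈ adjoin k (p '' s ∪ Set.range p'))
        ?_ ?_ ?_ ?_ (hs.ge (Algebra.mem_top (x := a)))
      · intro a ha; exact subset_adjoin _ _ (Or.inl ⟨a, ha, rfl⟩)
      · intro r
        rw [p.commutes, IsScalarTower.algebraMap_apply K0 k N]
        exact IntermediateField.algebraMap_mem _ _
      · intro a b _ _ h1 h2; rw [map_add]; exact add_mem h1 h2
      · intro a b _ _ h1 h2; rw [map_mul]; exact mul_mem h1 h2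
    have h2 : ∀ a, q a ∈ adjoin k (p '' s ∪ Set.range p') := by
      intro a
      induction a using TensorProduct.induction_on with
      | zero => rw [map_zero]; exact zero_mem _
      | add a b h1 h2 => rw [map_add]; exact add_mem h1 h2
      | tmul a b =>
        rw [show q (a ⊗ₜ b) = p a * p' b by
          simp only [p, p', AlgHom.comp_apply, ← map_mul]; simp]
        exact mul_mem (h1 a) (subset_adjoin _ _ (Or.inr ⟨b, rfl⟩))
    have h3 : ∀ a, g a ∈ adjoin k (p '' s ∪ Set.range p') := by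
      intro a
      induction a using TensorProduct.induction_on with
      | zero => rw [map_zero]; exact zero_mem _
      | add a b h1 h2 => rw [map_add]; exact add_mem h1 h2
      | tmul a b =>
        rw [show g (a ⊗ₜ b) = algebraMap k N a * q b by
          rw [← g.commutes, show q b = g (1 ⊗ₜ b) from rfl, ← map_mul,
            show algebraMap k B a = a ⊗ₜ 1 from rfl, Algebra.TensorProduct.tmul_mul_tmul]; simp]
        exact mul_mem (IntermediateField.algebraMap_mem _ _) (h2 b)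
    rw [eq_top_iff]
    intro z _
    obtain ⟨a, b, -, rfl⟩ := IsFractionRing.div_surjective (A := B) z
    exact div_mem (h3 a) (h3 b)
  have alg : ∀ f : A →ₐ[K0] N, Transcendental k (f x) → ∀ a, IsAlgebraic k⟮f x⟯ (f a) := by
    intro f hf a
    by_contra h1
    exact h.one a ((ind_iff.2 ⟨hf, h1⟩).of_map f)
  have ext : ∀ (τ : k ≃ₐ[K0] k) (ρ : A ⊗[K0] A ≃ₐ[K0] A ⊗[K0] A), ∃ σ : N →+* N,
      (∀ c, σ (algebraMap k N c) = algebraMap k N (τ c)) ∧ ∀ a, σ (q a) = q (ρ a) := by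
    intro τ ρ
    let e : B ≃+* B := (Algebra.TensorProduct.congr τ ρ).toRingEquiv
    have he := IsFractionRing.ringEquivOfRingEquiv_algebraMap (K := N) (L := N) e
    refine ⟨(IsFractionRing.ringEquivOfRingEquiv (K := N) (L := N) e).toRingHom,
      fun c => ?_, fun a => ?_⟩
    · refine (he (c ⊗ₜ 1)).trans ?_
      show g (τ c ⊗ₜ ρ 1) = g (τ c ⊗ₜ 1)
      rw [map_one]
    · refine (he (1 ⊗ₜ a)).trans ?_
      show g (τ 1 ⊗ₜ ρ a) = g (1 ⊗ₜ ρ a)
      rw [map_one]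
  have mem : ∀ (σ : N →+* N) (z : N),
      j z ∈ (σ.eqLocusField (RingHom.id N)).map j.toRingHom ↔ σ z = z :=
    fun σ z => ⟨fun ⟨w, h1, h2⟩ => j.injective h2 ▸ h1, fun h => ⟨z, h, rfl⟩⟩
  refine ⟨(j.restrictScalars K0).comp p, (j.restrictScalars K0).comp p', fun h1 =>
    (ind_iff.1 hi).1 ((isAlgebraic_algHom_iff j j.injective).1 h1), fun τ => ?_⟩
  obtain ⟨φ, a1, a2⟩ := ext τ AlgEquiv.refl
  obtain ⟨ψ, b1, b2⟩ := ext τ (Algebra.TensorProduct.comm K0 A A)
  have b3 : ∀ a, ψ (p a) = p' a := fun a => b2 _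
  have b4 : ∀ a, ψ (p' a) = p a := fun a => b2 _
  refine ⟨(φ.eqLocusField (RingHom.id N)).map j.toRingHom,
    (ψ.eqLocusField (RingHom.id N)).map j.toRingHom, fun c => ?_,
    fun a => ⟨(mem φ _).2 (a2 _), (mem φ _).2 (a2 _)⟩, fun c => ?_, fun a => ⟨?_, ?_, ?_⟩, ?_, ?_⟩
  · rw [← j.commutes, mem, a1, (algebraMap k N).injective.eq_iff]
  · rw [← j.commutes, mem, b1, (algebraMap k N).injective.eq_iff]
  · show j (p a) + j (p' a) ∈ _
    rw [← map_add, mem, map_add, b3, b4, add_comm]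
  · show (j (p a) - j (p' a)) ^ 2 ∈ _
    rw [← map_sub, ← map_pow, mem, map_pow, map_sub, b3, b4]
    ring
  · intro c hc
    show _ * (j (p a) - j (p' a)) ∈ _
    rw [← j.commutes, ← map_sub, ← map_mul, mem, map_mul, map_sub, b1, b3, b4, hc, map_neg]
    ring
  · show j (p x) - j (p' x) ∉ _
    rw [← map_sub, mem, map_sub, b3, b4]
    intro e
    exact ne (by linear_combination -e / 2)
  · rintro n t t0 _ ⟨u, hu, rfl⟩ _ ⟨v, hv, rfl⟩ e
    refine (isAlgebraic_algHom_iff j j.injective).2 (desc' (p '' s) (Set.range p')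
      (s.finite_toSet.image _) (p x) (p' x) hi ?_ ?_ gen ψ (fun c => ⟨_, (b1 c).symm⟩)
      (b3 x) (b4 x) t t0 u ((p x - p' x) ^ n * v) (j.injective ?_) hu)
    · rintro _ ⟨a, -, rfl⟩; exact alg p (ind_iff.1 hi).1 a
    · rintro _ ⟨a, rfl⟩; exact alg p' (ind_iff.1 hi').1 a
    · simp only [map_mul, map_pow, map_sub, map_one]
      rw [← j.commutes] at e
      exact e

end

end Pool.Agent.H72.Amp
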