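import Pool.Agent.H72.AmpD

set_option autoImplicit false
set_option linter.unusedVariables false
set_option linter.unusedSectionVars false

namespace Pool.Agent.H72.Amp

open Polynomial Subfield TensorProduct

noncomputable def acl (F : Subfield ℂ) : Subfield ℂ := (algebraicClosure F ℂ).toSubfield

theorem mem_acl {F : Subfield ℂ} {z : ℂ} : z ∈ acl F ↔ IsAlgebraic F z :=
  mem_algebraicClosure_iff

theorem le_acl (F : Subfield ℂ) : F ≤ acl F :=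
  fun z hz => mem_acl.2 (isAlgebraic_algebraMap (⟨z, hz⟩ : F))

theorem acl_mono {F G : Subfield ℂ} (h : F ≤ G) : acl F ≤ acl G :=
  fun z hz => mem_acl.2 (alg_mono (fun a => ⟨⟨a, h a.2⟩, rfl⟩) (mem_acl.1 hz))

theorem acl_acl (F : Subfield ℂ) : acl (acl F) ≤ acl F := fun z hz => by
  have : ∀ (F : Type) [Field F] [Algebra F ℂ], IsAlgebraic (algebraicClosure F ℂ) z →
    IsAlgebraic F z := fun F _ _ h => h.restrictScalars F
  exact mem_acl.2 (this F (mem_acl.1 hz))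

theorem acl_sq {F : Subfield ℂ} {z : ℂ} (h : z ^ 2 ∈ acl F) : z ∈ acl F :=
  mem_acl.2 ((mem_acl.1 h).of_pow two_pos)

theorem cnt_acl (F : Subfield ℂ) [Countable F] : Countable (acl F) := by
  rw [← Cardinal.mk_le_aleph0_iff]
  exact (Algebra.IsAlgebraic.cardinalMk_le_max F (algebraicClosure F ℂ)).trans
    (max_le Cardinal.mk_le_aleph0 le_rfl)

theorem cnt_sup (F : Subfield ℂ) [Countable F] {S : Set ℂ} (h : S.Countable) :
    Countable (F ⊔ Subfield.closure S : Subfield ℂ) := by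
  rw [← closure_eq F, ← Subfield.closure_union, ← Cardinal.mk_le_aleph0_iff]
  exact (cardinalMk_closure_le_max _).trans (max_le (Cardinal.mk_le_aleph0_iff.2
    ((Set.countable_coe_iff.1 ‹Countable F›).union h)) le_rfl)

theorem gal {F M : Subfield ℂ} (h1 : F ≤ M) (h2 : M ≤ acl F) (z : acl F) (hz : (z : ℂ) ∉ M) :
    ∃ τ : acl F ≃+* acl F, (∀ c : acl F, (c : ℂ) ∈ M → τ c = c) ∧ τ z ≠ z := by
  let : Algebra M (acl F) := (Subfield.inclusion h2).toAlgebra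
  have : IsScalarTower M (acl F) ℂ := IsScalarTower.of_algebraMap_eq (fun _ => rfl)
  have : IsAlgClosed (acl F) := (algebraicClosure.isAlgClosure F ℂ).isAlgClosed
  have : IsAlgClosure M (acl F) := ⟨this, ⟨fun c =>
    (isAlgebraic_algebraMap_iff (algebraMap (acl F) ℂ).injective).1 (mem_acl.1 (acl_mono h1 c.2))⟩⟩
  have := IsAlgClosure.isGalois M (acl F)
  by_contra! h
  obtain ⟨w, hw⟩ := (InfiniteGalois.mem_range_algebraMap_iff_fixed (k := M) z).2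
    (fun f => h f.toRingEquiv (fun c hc => f.commutes ⟨c, hc⟩))
  exact hz (hw ▸ w.2)

def Desc (F Ψ : Subfield ℂ) (r : ℂ) : Prop :=
  ∀ (n : ℕ), ∀ t ∈ acl F, t ≠ 0 → ∀ u ∈ Ψ, ∀ v ∈ Ψ, t * (r ^ n * v) ^ 2 = 1 - u ^ 6 → u ∈ acl F

theorem core2 {K F : Subfield ℂ} (hKF : K ≤ F) [Countable F] {A : Type} [CommRing A]
    [Algebra K A] {x : A} (h : Good K A x) : ∃ P P' : A →ₐ[K] ℂ, P x ∉ acl F ∧
    (∀ M, F ≤ M → M ≤ acl F → ∀ z ∈ acl F, z ∉ M → ∃ Φ Ψ : Subfield ℂ, M ≤ Φ ∧ M ≤ Ψ ∧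
      z ∉ Φ ∧ z ∉ Ψ ∧ (∀ a, P a ∈ Φ ∧ P' a ∈ Φ) ∧
      (∀ a, P a + P' a ∈ Ψ ∧ (P a - P' a) ^ 2 ∈ Ψ) ∧
      (∀ r, r ^ 2 ∈ F → r ∈ Φ ∨ ∀ a, r * (P a - P' a) ∈ Ψ) ∧ Desc F Ψ (P x - P' x)) ∧
    ∃ Ψ : Subfield ℂ, acl F ≤ Ψ ∧ (P x - P' x) ^ 2 ∈ Ψ ∧ P x - P' x ∉ Ψ ∧
      Desc F Ψ (P x - P' x) := by
  let : Algebra K (acl F) := (Subfield.inclusion (hKF.trans (le_acl F))).toAlgebra
  have : IsScalarTower K (acl F) ℂ := IsScalarTower.of_algebraMap_eq (fun _ => rfl)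
  have := cnt_acl F
  obtain ⟨P, P', h1, h2⟩ := core (k := acl F) h
  refine ⟨P, P', fun e => h1 (isAlgebraic_algebraMap (⟨_, e⟩ : acl F)), ?_, ?_⟩
  · intro M m1 m2 z z1 z2
    obtain ⟨τ, t1, t2⟩ := gal m1 m2 ⟨z, z1⟩ z2
    obtain ⟨Φ, Ψ, a1, a2, a3, a4, a5, a6⟩ := h2 (AlgEquiv.ofRingEquiv (f := τ)
      (fun c => t1 _ (m1 (hKF c.2))))
    refine ⟨Φ, Ψ, fun c hc => (a1 ⟨c, m2 hc⟩).2 (t1 _ hc), fun c hc => (a3 ⟨c, m2 hc⟩).2 (t1 _ hc),
      fun e => t2 ((a1 ⟨z, z1⟩).1 e), fun e => t2 ((a3 ⟨z, z1⟩).1 e), a2,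
      fun a => ⟨(a4 a).1, (a4 a).2.1⟩, fun r hr => ?_, fun n t t1 t0 u hu v hv e =>
      acl_acl F (mem_acl.2 (a6 n ⟨t, t1⟩ (fun e => t0 (congrArg Subtype.val e)) u hu v hv e))⟩
    have r1 : r ∈ acl F := acl_sq (le_acl F hr)
    have := t1 (⟨r, r1⟩ ^ 2) (m1 hr)
    rw [map_pow, sq_eq_sq_iff_eq_or_eq_neg] at this
    exact this.imp (a1 ⟨r, r1⟩).2 (fun e a => (a4 a).2.2 ⟨r, r1⟩ e)
  · obtain ⟨Φ, Ψ, a1, a2, a3, a4, a5, a6⟩ := h2 AlgEquiv.refl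
    exact ⟨Ψ, fun c hc => (a3 ⟨c, hc⟩).2 rfl, (a4 x).2.1, a5, fun n t t1 t0 u hu v hv e =>
      acl_acl F (mem_acl.2 (a6 n ⟨t, t1⟩ (fun e => t0 (congrArg Subtype.val e)) u hu v hv e))⟩

def Prot (E : Subfield ℂ) (t : ℂ) (F : Subfield ℂ) : Prop :=
  ∀ u ∈ E ⊔ F, ∀ v ∈ E ⊔ F, t * v ^ 2 = 1 - u ^ 6 → v = 0

theorem Prot.ext {E F G Ψ : Subfield ℂ} {t r : ℂ} (h : Prot E t F) (t1 : t ∈ F) (t0 : t ≠ 0)
    (reg : ∀ z ∈ acl F, z ∈ E ⊔ F ⊔ G → z ∈ E ⊔ F) (h1 : E ⊔ F ⊔ G ≤ Ψ) (h2 : Desc F Ψ r) :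
    Prot E t (F ⊔ G) := by
  intro u hu v hv e
  rw [← sup_assoc] at hu hv
  have u1 := h2 0 t (le_acl F t1) t0 u (h1 hu) v (h1 hv) (by simpa using e)
  refine h u (reg u u1 hu) v (reg v (acl_sq ?_) hv) e
  rw [show v ^ 2 = (1 - u ^ 6) / t by rw [← e]; field_simp]
  exact div_mem (sub_mem (one_mem _) (pow_mem u1 6)) (le_acl F t1)

structure Inv (K : Subfield ℂ) (r : ℂ) (F : Subfield ℂ) : Prop where
  le : K ≤ F
  cnt : Countable F
  sq : r ^ 2 ∈ F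
  nm : r ∉ acl K ⊔ F

theorem step {K F : Subfield ℂ} {r : ℂ} (hF : Inv K r F) {A : Type} [CommRing A]
    [Algebra K A] (x : A) : ∃ F', Inv K r F' ∧ F ≤ F' ∧
    (∀ E ≤ acl K, ∀ t ∈ F, t ≠ 0 → Prot E t F → Prot E t F') ∧
    (Good K A x → ∃ P : A →ₐ[K] ℂ, P x ∉ acl F ∧ ∀ a, P a ∈ F' ⊔ Subfield.closure {r}) := by
  by_cases h : Good K A x
  swap
  · exact ⟨F, hF, le_rfl, fun _ _ _ _ _ h => h, fun h' => (h h').elim⟩
  have := hF.cnt
  have : Countable K := (Subfield.inclusion hF.le).injective.countable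
  have := h.ft
  have := cnt_ft K A
  obtain ⟨P, P', h1, h2, -⟩ := core2 hF.le h
  let S := Set.range (fun a => P a + P' a) ∪ Set.range (fun a => r * (P a - P' a))
  have r1 : r ∈ acl F := acl_sq (le_acl F hF.sq)
  have hM : ∀ E ≤ acl K, E ⊔ F ≤ acl F := fun E hE =>
    sup_le (hE.trans (acl_mono hF.le)) (le_acl F)
  have reg : ∀ E ≤ acl K, ∀ z ∈ acl F, z ∈ E ⊔ F ⊔ Subfield.closure S → z ∈ E ⊔ F := by
    intro E hE z z1 z2
    by_contra z3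
    obtain ⟨Φ, Ψ, a1, a2, a3, a4, a5, a6, a7, a8⟩ := h2 _ le_sup_right (hM E hE) z z1 z3
    rcases a7 r hF.sq with h | h
    · refine a3 (sup_le a1 (closure_le.2 ?_) z2)
      rintro _ (⟨a, rfl⟩ | ⟨a, rfl⟩)
      · exact add_mem (a5 a).1 (a5 a).2
      · exact mul_mem h (sub_mem (a5 a).1 (a5 a).2)
    · refine a4 (sup_le a2 (closure_le.2 ?_) z2)
      rintro _ (⟨a, rfl⟩ | ⟨a, rfl⟩)
      · exact (a6 a).1
      · exact h a
  refine ⟨F ⊔ Subfield.closure S, ⟨hF.le.trans le_sup_left,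
    cnt_sup F ((Set.countable_range _).union (Set.countable_range _)),
    (le_sup_left : F ≤ _) hF.sq, fun e => hF.nm (reg _ le_rfl r r1 (by rwa [sup_assoc]))⟩,
    le_sup_left, fun E hE t t1 t0 p => ?_, fun _ => ⟨P, h1, fun a => ?_⟩⟩
  · obtain ⟨Φ, Ψ, a1, a2, a3, a4, a5, a6, a7, a8⟩ := h2 _ le_sup_right (hM E hE) r r1
      (fun e => hF.nm (sup_le_sup_right hE F e))
    refine p.ext t1 t0 (reg E hE) (sup_le a2 (closure_le.2 ?_)) a8
    rintro _ (⟨a, rfl⟩ | ⟨a, rfl⟩)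
    · exact (a6 a).1
    · exact (a7 r hF.sq).resolve_left a3 a
  · have r0 : r ≠ 0 := fun e => hF.nm (e ▸ zero_mem _)
    have hS : ∀ z ∈ S, z ∈ F ⊔ Subfield.closure S ⊔ Subfield.closure {r} := fun z hz =>
      (le_sup_right.trans le_sup_left : Subfield.closure S ≤ _) (subset_closure hz)
    rw [show P a = (P a + P' a + r * (P a - P' a) / r) / 2 by field_simp; ring]
    exact div_mem (add_mem (hS _ (Or.inl ⟨a, rfl⟩)) (div_mem (hS _ (Or.inr ⟨a, rfl⟩))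
      ((le_sup_right : Subfield.closure {r} ≤ _) (subset_closure rfl)))) (ofNat_mem _ 2)

theorem start (K : Subfield ℂ) [Countable K] : ∃ r F, Inv K r F ∧
    (∀ E ≤ acl K, ∀ t ∈ K, t ≠ 0 → Prot E t K → Prot E t F) ∧ Prot (acl K) (r ^ 2) F := by
  have h : Good K K[X] X := ⟨(polyEquivTensor K ℂ).symm.injective.isDomain _, inferInstance,
    transcendental_X K, fun a h => by
      have := h.cardinalMk_le_trdeg
      rw [Polynomial.trdeg_of_isDomain] at this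
      simp at this⟩
  obtain ⟨P, P', h1, h2, Ψ, b1, b2, b3, b4⟩ := core2 le_rfl h
  generalize hr : P X - P' X = r at *
  have hΨ : acl K ⊔ (K ⊔ Subfield.closure {r ^ 2}) ≤ Ψ := sup_le b1 (sup_le ((le_acl K).trans b1)
    (closure_le.2 (by rintro _ rfl; exact b2)))
  refine ⟨r, K ⊔ Subfield.closure {r ^ 2}, ⟨le_sup_left, cnt_sup K (Set.countable_singleton _),
    (le_sup_right : Subfield.closure _ ≤ _) (subset_closure rfl), fun e => b3 (hΨ e)⟩,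
    fun E hE t t1 t0 p => p.ext t1 t0 (fun z z1 z2 => ?_)
      (by rw [sup_assoc]; exact (sup_le_sup_right hE _).trans hΨ) b4, fun u hu v hv e => ?_⟩
  · by_contra z3
    obtain ⟨Φ, Ψ, a1, a2, a3, a4, a5, a6, a7, a8⟩ := h2 _ le_sup_right
      (sup_le hE (le_acl K)) z z1 z3
    refine a4 (sup_le a2 (closure_le.2 ?_) z2)
    rintro _ rfl
    exact hr ▸ (a6 X).2
  · by_contra v0
    have u1 := b4 1 1 (one_mem _) one_ne_zero u (hΨ hu) v (hΨ hv) (by rw [← e]; ring)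
    have : r * v ∈ acl K := acl_sq (by
      rw [mul_pow, e]; exact sub_mem (one_mem _) (pow_mem u1 6))
    refine b3 ?_
    rw [show r = r * v / v by field_simp]
    exact div_mem (b1 this) (hΨ hv)

theorem mem_chain {c : ℕ → Subfield ℂ} (h : Monotone c) (E : Subfield ℂ) {z : ℂ}
    (hz : z ∈ E ⊔ ⨆ n, c n) : ∃ n, ∀ m ≥ n, z ∈ E ⊔ c m := by
  have h' : Monotone (fun n => E ⊔ c n) := fun a b hab => sup_le_sup_left (h hab) E
  rw [sup_iSup, mem_iSup_of_directed h'.directed_le] at hz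
  obtain ⟨n, hn⟩ := hz
  exact ⟨n, fun m hm => h' hm hn⟩

theorem prot_chain {c : ℕ → Subfield ℂ} (h : Monotone c) {E : Subfield ℂ} {t : ℂ} (i : ℕ)
    (p : ∀ n ≥ i, Prot E t (c n)) : Prot E t (⨆ n, c n) := by
  intro u hu v hv e
  obtain ⟨a, ha⟩ := mem_chain h E hu
  obtain ⟨b, hb⟩ := mem_chain h E hv
  exact p (i + a + b) (by omega) u (ha _ (by omega)) v (hb _ (by omega)) e

theorem cnt_chain {c : ℕ → Subfield ℂ} (h : Monotone c) (hc : ∀ n, Countable (c n)) :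
    Countable (⨆ n, c n : Subfield ℂ) := by
  have : ((⨆ n, c n : Subfield ℂ) : Set ℂ).Countable := by
    rw [coe_iSup_of_directed h.directed_le]
    exact Set.countable_iUnion (fun n => Set.countable_coe_iff.1 (hc n))
  exact this

theorem level (K : Subfield ℂ) [Countable K] {T : Type} [Countable T] [Nonempty T]
    (A : T → Type) [∀ i, CommRing (A i)] [∀ i, Algebra K (A i)] (x : ∀ i, A i) :
    ∃ K' r, K ≤ K' ∧ Countable K' ∧ r ^ 2 ∈ K' ∧ r ≠ 0 ∧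
    (∀ E ≤ acl K, ∀ t ∈ K, t ≠ 0 → Prot E t K → Prot E t K') ∧ Prot (acl K) (r ^ 2) K' ∧
    ∀ i, Good K (A i) (x i) →
      {P : A i →ₐ[K] ℂ | ∀ a, P a ∈ K' ⊔ Subfield.closure {r}}.Infinite := by
  obtain ⟨r, F0, h0, h1, h2⟩ := start K
  have r0 : r ≠ 0 := fun e => h0.nm (e ▸ zero_mem _)
  have := fun (F : {F // Inv K r F}) (i : T) => step F.2 (x i)
  choose nx n1 n2 n3 n4 using this
  obtain ⟨g, hg⟩ := exists_surjective_nat (T × ℕ)
  obtain ⟨c, c0, cs⟩ : ∃ c : ℕ → {F // Inv K r F}, (c 0).1 = F0 ∧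
      ∀ n, (c (n + 1)).1 = nx (c n) (g n).1 :=
    ⟨fun n => Nat.rec ⟨F0, h0⟩ (fun n F => ⟨nx F (g n).1, n1 _ _⟩) n, rfl, fun _ => rfl⟩
  subst c0
  have hm : Monotone (fun n => (c n).1) := monotone_nat_of_le_succ (fun n => by
    rw [cs]; exact n2 _ _)
  have hp : ∀ E ≤ acl K, ∀ t ∈ (c 0).1, t ≠ 0 → Prot E t (c 0).1 → Prot E t (⨆ n, (c n).1) := by
    intro E hE t t1 t0 p
    refine prot_chain hm 0 (fun n hn => ?_)
    clear hn
    induction n with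
    | zero => exact p
    | succ n ih => rw [cs]; exact n3 _ _ E hE t (hm (Nat.zero_le n) t1) t0 ih
  have hl : ∀ n, (c n).1 ≤ ⨆ n, (c n).1 := le_iSup (fun n => (c n).1)
  refine ⟨⨆ n, (c n).1, r, h0.le.trans (hl 0), cnt_chain hm (fun n => (c n).2.cnt),
    hl 0 h0.sq, r0, fun E hE t t1 t0 p => hp E hE t (h0.le t1) t0 (h1 E hE t t1 t0 p),
    hp _ le_rfl _ h0.sq (pow_ne_zero 2 r0) h2, fun i hi => ?_⟩
  have h3 : ∀ j : ℕ, ∃ n, g n = (i, j) ∧ ∃ P : A i →ₐ[K] ℂ, P (x i) ∉ acl (c n).1 ∧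
      ∀ a, P a ∈ (c (n + 1)).1 ⊔ Subfield.closure {r} := by
    intro j
    obtain ⟨n, hn⟩ := hg (i, j)
    obtain ⟨P, p1, p2⟩ := n4 (c n) i hi
    refine ⟨n, hn, P, p1, fun a => ?_⟩
    rw [cs, hn]
    exact p2 a
  choose n e P p1 p2 using h3
  have h4 : ∀ a b, n a < n b → P a ≠ P b := by
    intro a b hab h
    refine p1 b (sup_le (le_acl _ |>.trans' (hm hab)) (closure_le.2 ?_) (h ▸ p2 a _))
    rintro _ rfl
    exact acl_sq (le_acl _ (c _).2.sq)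
  refine Set.infinite_of_injective_forall_mem (f := P) (fun a b h => ?_)
    (fun j a => sup_le_sup_right (hl _) _ (p2 j a))
  rcases lt_trichotomy (n a) (n b) with h5 | h5 | h5
  · exact (h4 a b h5 h).elim
  · exact (Prod.ext_iff.1 ((e a).symm.trans (h5 ▸ e b))).2
  · exact (h4 b a h5 h.symm).elim

end Pool.Agent.H72.Amp
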