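import Pool.Agent.H72.AmpE

set_option autoImplicit false
set_option linter.unusedVariables false
set_option linter.unusedSectionVars false

namespace Pool.Agent.H72.Amp

open Polynomial Subfield TensorProduct
open scoped IntermediateField

theorem no_ind {K A : Type} [Field K] [CommRing A] [IsDomain A] [Algebra K A]
    [Algebra.FiniteType K A] (h : ringKrullDim A ≤ 1) (a b : A) : ¬ Ind K a b := by
  intro hi
  have : Ring.KrullDimLE 1 A := Ring.krullDimLE_iff.2 h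
  obtain ⟨s, g, g1, g2⟩ := exists_finite_inj_algHom_of_fg K A
  let := g.toRingHom.toAlgebra
  have : IsScalarTower K (MvPolynomial (Fin s) K) A :=
    IsScalarTower.of_algebraMap_eq (fun c => (g.commutes c).symm)
  have : Module.Finite (MvPolynomial (Fin s) K) A := g2
  have : FaithfulSMul (MvPolynomial (Fin s) K) A := (faithfulSMul_iff_algebraMap_injective _ _).2 g1
  have h1 := trdeg_add_eq K (MvPolynomial (Fin s) K) (A := A)
  have h2 := hi.cardinalMk_le_trdeg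
  rw [← h1, MvPolynomial.trdeg_of_isDomain, trdeg_eq_zero] at h2
  have h3 : 2 ≤ s := by
    simp at h2
    exact_mod_cast h2
  have h4 : Ring.KrullDimLE 1 (MvPolynomial (Fin s) K) := .mk₁' (fun I I0 I1 => by
    obtain ⟨Q, q1, rfl⟩ := Ideal.exists_ideal_over_prime_of_isIntegral_of_isDomain (S := A) I
      (((RingHom.injective_iff_ker_eq_bot (algebraMap (MvPolynomial (Fin s) K) A)).1 g1).le.trans bot_le)
    have := q1.isMaximal_of_ne_bot (fun e => I0 (by rw [e]; exact Ideal.comap_bot_of_injective _ g1))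
    exact Ideal.isMaximal_comap_of_isIntegral_of_isMaximal Q)
  have h5 := (ringKrullDim_add_natCard_le_ringKrullDim_mvPolynomial (R := K) (Fin s)).trans
    (Ring.krullDimLE_iff.1 h4)
  rw [ringKrullDim_eq_zero_of_field, zero_add, Nat.card_eq_fintype_card, Fintype.card_fin] at h5
  have : s ≤ 1 := by exact_mod_cast h5
  omega

theorem good_of {K0 K A0 A : Type} [Field K0] [Field K] [Algebra K0 K] [Algebra K ℂ] [Algebra K0 ℂ]
    [IsScalarTower K0 K ℂ] [CommRing A0] [Algebra K0 A0] [Algebra.FiniteType K0 A0] [CommRing A]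
    [Algebra K A] (e : K ⊗[K0] A0 ≃ₐ[K] A) [IsDomain (ℂ ⊗[K] A)] (h : ringKrullDim A ≤ 1)
    (hf : ¬ IsField A) : ∃ x, Good K0 A0 x := by
  have : IsDomain A := (Algebra.TensorProduct.includeRight_injective (A := ℂ) (B := A)
    (algebraMap K ℂ).injective).isDomain _
  have : Algebra.FiniteType K A := .equiv inferInstance e
  obtain ⟨x, hx⟩ : ∃ x : A0, Transcendental K0 x := by
    by_contra! h1
    have : Algebra.IsIntegral K0 A0 := ⟨fun x => (not_not.1 (h1 x)).isIntegral⟩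
    have : Algebra.IsIntegral K A := e.isIntegral_iff.1 inferInstance
    exact hf (isField_of_isIntegral_of_isField' (Field.toIsField K))
  refine ⟨x, ((Algebra.TensorProduct.cancelBaseChange K0 K K ℂ A0).symm.trans
    (Algebra.TensorProduct.congr AlgEquiv.refl e)).injective.isDomain _, inferInstance, hx,
    fun a ha => no_ind (K := K) h (e (1 ⊗ₜ x)) (e (1 ⊗ₜ a)) (Ind.map e.toAlgHom e.injective ?_)⟩
  have := ind_bc K ha
  have e : (fun i : Option Unit => (1 : K) ⊗ₜ[K0] i.elim a (fun _ => x)) =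
      (fun i : Option Unit => i.elim ((1 : K) ⊗ₜ[K0] a) (fun _ => (1 : K) ⊗ₜ[K0] x)) := by
    funext o
    rcases o with _ | ⟨⟨⟩⟩ <;> rfl
  rwa [e] at this

theorem fin_chain {c : ℕ → Subfield ℂ} (h : Monotone c) {S : Set ℂ} (hS : S.Finite)
    (hc : ∀ z ∈ S, z ∈ ⨆ n, c n) : ∃ n, ∀ z ∈ S, z ∈ c n := by
  have := hS.to_subtype
  choose f hf using fun z : S => (mem_iSup_of_directed h.directed_le).1 (hc z z.2)
  obtain ⟨n, hn⟩ := Finite.exists_le f
  exact ⟨n, fun z hz => h (hn ⟨z, hz⟩) (hf ⟨z, hz⟩)⟩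

theorem acl_chain {c : ℕ → Subfield ℂ} (h : Monotone c) {z : ℂ} (hz : z ∈ acl (⨆ n, c n)) :
    ∃ n, z ∈ acl (c n) := by
  obtain ⟨p, p0, hp⟩ := mem_acl.1 hz
  obtain ⟨n, hn⟩ := fin_chain h (p.coeffs.finite_toSet.image Subtype.val)
    (by rintro _ ⟨w, -, rfl⟩; exact w.2)
  obtain ⟨q, hq⟩ := (mem_lifts (f := algebraMap (c n) ℂ) (p.map (algebraMap _ ℂ))).1
    ((lifts_iff_coeff_lifts _).2 (fun i => by
      rw [coeff_map]
      by_cases h0 : p.coeff i = 0
      · exact ⟨0, by simp [h0]⟩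
      · exact ⟨⟨_, hn _ ⟨_, coeff_mem_coeffs h0, rfl⟩⟩, rfl⟩))
  refine ⟨n, mem_acl.2 ⟨q, fun e => p0 ?_, ?_⟩⟩
  · rw [e, Polynomial.map_zero] at hq
    exact (Polynomial.map_eq_zero _).1 hq.symm
  · rw [aeval_def, ← eval_map, hq, eval_map, ← aeval_def, hp]

abbrev Q (K : Type) [Field K] {m l : ℕ} (f : Fin l → MvPolynomial (Fin m) K) : Type :=
  MvPolynomial (Fin m) K ⧸ Ideal.span (Set.range f)

theorem tower : ∃ (c : ℕ → Subfield ℂ) (r : ℕ → ℂ), Monotone c ∧ ∀ n, r n ^ 2 ∈ ⨆ n, c n ∧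
    r n ≠ 0 ∧ Prot (acl (c n)) (r n ^ 2) (⨆ n, c n) ∧
    ∀ m l (f : Fin l → MvPolynomial (Fin m) (c n)) (x : Q (c n) f), Good (c n) (Q (c n) f) x →
      {P : Q (c n) f →ₐ[c n] ℂ | ∀ a, P a ∈ (⨆ n, c n) ⊔ Subfield.closure {r n}}.Infinite := by
  have key : ∀ K : {K : Subfield ℂ // Countable K}, ∃ (K' : {K : Subfield ℂ // Countable K}) (r : ℂ),
      K.1 ≤ K'.1 ∧ r ^ 2 ∈ K'.1 ∧ r ≠ 0 ∧
      (∀ E ≤ acl K.1, ∀ t ∈ K.1, t ≠ 0 → Prot E t K.1 → Prot E t K'.1) ∧
      Prot (acl K.1) (r ^ 2) K'.1 ∧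
      ∀ m l (f : Fin l → MvPolynomial (Fin m) K.1) (x : Q K.1 f), Good K.1 (Q K.1 f) x →
      {P : Q K.1 f →ₐ[K.1] ℂ | ∀ a, P a ∈ K'.1 ⊔ Subfield.closure {r}}.Infinite := by
    rintro ⟨K, hK⟩
    have : ∀ m, Countable (MvPolynomial (Fin m) K) := fun m => cnt_mv K _
    have : ∀ m l (f : Fin l → MvPolynomial (Fin m) K), Countable (Q K f) := fun m l f => cnt_ft K _
    have : Nonempty (Σ (m l : ℕ) (f : Fin l → MvPolynomial (Fin m) K), Q K f) :=
      ⟨⟨0, 0, 0, 0⟩⟩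
    obtain ⟨K', r, h1, h2, h3, h4, h5, h6, h7⟩ := level K
      (T := Σ (m l : ℕ) (f : Fin l → MvPolynomial (Fin m) K), Q K f)
      (fun i => Q K i.2.2.1) (fun i => i.2.2.2)
    exact ⟨⟨K', h2⟩, r, h1, h3, h4, h5, h6, fun m l f x => h7 ⟨m, l, f, x⟩⟩
  choose nx r n1 n2 n3 n4 n5 n6 using key
  have h0 : Countable (⊥ ⊔ Subfield.closure ∅ : Subfield ℂ) := by
    rw [← Cardinal.mk_le_aleph0_iff, bot_sup_eq]
    exact (cardinalMk_closure_le_max _).trans (by simp)
  obtain ⟨c, cs⟩ : ∃ c : ℕ → {K : Subfield ℂ // Countable K}, ∀ n, c (n + 1) = nx (c n) :=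
    ⟨fun n => nx^[n] ⟨_, h0⟩, fun n => Function.iterate_succ_apply' _ _ _⟩
  have hm : Monotone (fun n => (c n).1) := monotone_nat_of_le_succ (fun n => by
    rw [cs]; exact n1 _)
  have hl : ∀ n, (nx (c n)).1 ≤ ⨆ n, (c n).1 := fun n => by
    rw [← cs]; exact le_iSup (fun n => (c n).1) (n + 1)
  refine ⟨fun n => (c n).1, fun n => r (c n), hm, fun n => ⟨hl n (n2 _), n3 _, ?_,
    fun m l f x h => (n6 _ m l f x h).mono (fun P hP => ?_)⟩⟩
  swap
  · exact fun a => sup_le_sup_right (hl n) _ (hP a)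
  refine prot_chain hm (n + 1) (fun m hm' => ?_)
  induction m, hm' using Nat.le_induction with
  | base => rw [cs]; exact n5 _
  | succ m h ih =>
    rw [cs]
    exact n4 _ _ (acl_mono (hm (by omega))) _ (hm h (by dsimp only; rw [cs]; exact n2 _))
      (pow_ne_zero 2 (n3 _)) ih

theorem main : ∃ K : Subfield ℂ,
    (∀ (A : Type) [CommRing A] [Algebra K A] [Algebra.FiniteType K A] [IsDomain (ℂ ⊗[K] A)],
      ringKrullDim A ≤ 1 → ¬ IsField A → ∃ L : IntermediateField K ℂ, FiniteDimensional K L ∧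
        Infinite (A →ₐ[K] L)) ∧
    ∀ (L : Type) [Field L] [Algebra K L] [FiniteDimensional K L], ∃ t : L, t ≠ 0 ∧
      ∀ u v : L, t * v ^ 2 = 1 - u ^ 6 → v = 0 := by
  obtain ⟨c, r, hm, h⟩ := tower
  have hl := le_iSup c
  have h1 := @fin_chain c hm
  have h2 := @acl_chain c hm
  generalize ⨆ n, c n = K at *
  refine ⟨K, fun A _ _ _ _ hd hf => ?_, fun L _ _ _ => ?_⟩
  · have : Algebra.FinitePresentation K A := Algebra.FinitePresentation.of_finiteType.1 ‹_›
    obtain ⟨m, l, ⟨P⟩⟩ := Algebra.Presentation.exists_presentation_fin K A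
    obtain ⟨n, hn⟩ := h1 (P.finite_coeffs.image Subtype.val) (by rintro _ ⟨w, -, rfl⟩; exact w.2)
    let : Algebra (c n) K := (Subfield.inclusion (hl n)).toAlgebra
    have : IsScalarTower (c n) K ℂ := IsScalarTower.of_algebraMap_eq (fun _ => rfl)
    let : Algebra (c n) A := ((algebraMap K A).comp (algebraMap (c n) K)).toAlgebra
    have : IsScalarTower (c n) K A := IsScalarTower.of_algebraMap_eq (fun _ => rfl)
    have : P.HasCoeffs (c n) := ⟨fun z hz => ⟨⟨z, hn _ ⟨z, hz, rfl⟩⟩, rfl⟩⟩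
    let e := P.tensorModelOfHasCoeffsEquiv (c n)
    obtain ⟨x, hx⟩ := good_of e hd hf
    obtain ⟨a1, a2, a3, a4⟩ := h n
    have a5 := (a4 m l _ x hx).to_subtype
    have a6 : K ⊔ Subfield.closure {r n} ≤ K⟮r n⟯.toSubfield :=
      sup_le (fun z hz => K⟮r n⟯.algebraMap_mem ⟨z, hz⟩) (closure_le.2 (by
        rintro _ rfl; exact IntermediateField.mem_adjoin_simple_self _ _))
    refine ⟨K⟮r n⟯, IntermediateField.adjoin.finiteDimensional
      (IsAlgebraic.of_pow two_pos (isAlgebraic_algebraMap (⟨_, a1⟩ : K))).isIntegral, ?_⟩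
    have a7 : ∀ φ : Q (c n) (P.relationOfHasCoeffs (c n)) →ₐ[c n] ℂ,
        (∀ a, φ a ∈ K ⊔ Subfield.closure {r n}) → ∃ ψ : A →ₐ[K] K⟮r n⟯,
          ∀ a, (ψ (e (1 ⊗ₜ a)) : ℂ) = φ a := by
      intro φ hφ
      let ψ := (Algebra.TensorProduct.lift (Algebra.ofId K ℂ) φ (fun _ _ => .all _ _)).comp
        e.symm.toAlgHom
      have hψ : ∀ a, ψ (e a) = Algebra.TensorProduct.lift (Algebra.ofId K ℂ) φ
          (fun _ _ => .all _ _) a := fun a => congrArg _ (e.symm_apply_apply a)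
      refine ⟨ψ.codRestrict K⟮r n⟯.toSubalgebra (fun a => ?_), fun a => (hψ _).trans (by simp)⟩
      obtain ⟨a, rfl⟩ := e.surjective a
      rw [hψ]
      induction a using TensorProduct.induction_on with
      | zero => rw [map_zero]; exact zero_mem _
      | add a b h1 h2 => rw [map_add]; exact add_mem h1 h2
      | tmul a b =>
        rw [Algebra.TensorProduct.lift_tmul]
        exact mul_mem (K⟮r n⟯.algebraMap_mem a) (a6 (hφ b))
    choose g hg using a7
    refine @Infinite.of_injective _ _ a5 (fun φ => g φ.1 φ.2) (fun φ φ' e => Subtype.ext ?_)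
    refine AlgHom.ext (fun a => ?_)
    rw [← hg _ φ.2, ← hg _ φ'.2, show g φ.1 φ.2 = g φ'.1 φ'.2 from e]
  · let j : L →ₐ[K] ℂ := IsAlgClosed.lift
    obtain ⟨α, hα⟩ := Field.exists_primitive_element K L
    obtain ⟨n, hn⟩ := h2 (mem_acl.2 ((Algebra.IsAlgebraic.isAlgebraic α).algHom j))
    obtain ⟨a1, a2, a3, a4⟩ := h n
    have hj : ∀ z, j z ∈ acl (c n) ⊔ K := by
      intro z
      refine IntermediateField.adjoin_induction K (p := fun z _ => j z ∈ acl (c n) ⊔ K)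
        ?_ ?_ ?_ ?_ ?_ (hα.ge (IntermediateField.mem_top (x := z)))
      · rintro _ rfl; exact (le_sup_left : acl (c n) ≤ _) hn
      · intro a; rw [j.commutes]; exact (le_sup_right : K ≤ _) a.2
      · intro a b _ _ h1 h2; rw [map_add]; exact add_mem h1 h2
      · intro a _ h1; rw [map_inv₀]; exact inv_mem h1
      · intro a b _ _ h1 h2; rw [map_mul]; exact mul_mem h1 h2
    refine ⟨algebraMap K L ⟨_, a1⟩, by simpa [Subtype.ext_iff] using a2, fun u v e => ?_⟩
    have := congrArg j e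
    rw [map_mul, j.commutes, map_pow, map_sub, map_one, map_pow] at this
    exact (map_eq_zero j).1 (a3 _ (hj u) _ (hj v) this)

end Pool.Agent.H72.Amp
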