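import Mathlib

set_option autoImplicit false
set_option linter.unusedVariables false
set_option linter.unusedSectionVars false

namespace Pool.Agent.H72.Amp

open Polynomial TensorProduct

attribute [local instance] Polynomial.algebra

theorem prime6 {E : Type} [Field E] [CharZero E] {t : E} (t0 : t ≠ 0) :
    Prime (X ^ 6 + C (C t * X ^ 2 - 1) : E[X][X]) := by
  have hs : (C t * X ^ 2 - 1 : E[X]).Separable := by
    refine ⟨-1, C (2⁻¹) * X, ?_⟩
    have : (C (2⁻¹ : E)) * 2 = (1 : E[X]) := by
      rw [← map_ofNat C 2, ← map_mul]; simp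
    simp only [derivative_sub, derivative_C_mul, derivative_X_pow, derivative_one, Nat.cast_ofNat,
      map_ofNat]
    linear_combination (C t * X ^ 2) * this
  have hu : ¬ IsUnit (C t * X ^ 2 - 1 : E[X]) := fun h => by
    have h1 := natDegree_eq_zero_of_isUnit h
    have h2 : (C t * X ^ 2 - 1 : E[X]).natDegree = 2 := by compute_degree!
    omega
  obtain ⟨p, hp, hd⟩ := WfDvdMonoid.exists_irreducible_factor hu hs.ne_zero
  have hm : (X ^ 6 + C (C t * X ^ 2 - 1) : E[X][X]).Monic := monic_X_pow_add_C _ (by norm_num)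
  have hdeg : (X ^ 6 + C (C t * X ^ 2 - 1) : E[X][X]).degree = 6 :=
    degree_X_pow_add_C (by norm_num) _
  refine (irreducible_of_eisenstein_criterion (P := Ideal.span {p})
    ((Ideal.span_singleton_prime hp.ne_zero).2 hp.prime) ?_ ?_ (by rw [hdeg]; norm_num) ?_
    hm.isPrimitive).prime
  · rw [hm.leadingCoeff, Ideal.mem_span_singleton]
    exact fun h => hp.not_isUnit (isUnit_of_dvd_one h)
  · intro n hn
    rw [hdeg] at hn
    have : n < 6 := by exact_mod_cast hn
    rw [coeff_add, coeff_X_pow, if_neg this.ne, zero_add, coeff_C]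
    split_ifs
    · exact Ideal.mem_span_singleton.2 hd
    · exact zero_mem _
  · rw [coeff_add, coeff_X_pow, if_neg (by norm_num), zero_add, coeff_C_zero,
      Ideal.span_singleton_pow, Ideal.mem_span_singleton, sq]
    exact fun h => hp.not_isUnit (hs.squarefree p h)

theorem dom_pair {E : Type} [Field E] [CharZero E] {t : E} (t0 : t ≠ 0) (P : StandardEtalePair E[X])
    (hf : P.f = X ^ 6 + C (C t * X ^ 2 - 1)) (hg : P.g = X) :
    IsDomain P.Ring ∧ ringKrullDim P.Ring ≤ 1 := by
  have := AdjoinRoot.isDomain_of_prime (hf ▸ prime6 t0 : Prime P.f)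
  have h0 : AdjoinRoot.mk P.f P.g ≠ 0 := by
    rw [Ne, AdjoinRoot.mk_eq_zero]
    intro h
    have := natDegree_le_of_dvd h (hg ▸ X_ne_zero)
    rw [hf, hg, natDegree_X_pow_add_C, natDegree_X] at this
    omega
  have h1 := powers_le_nonZeroDivisors_of_noZeroDivisors h0
  have := IsLocalization.isDomain_localization h1
  have := P.monic_f.finite_adjoinRoot
  have := Ring.DimensionLEOne.of_isIntegral E[X] (AdjoinRoot P.f)
  have := Ring.DimensionLEOne.localization (Localization.Away (AdjoinRoot.mk P.f P.g)) h1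
  refine ⟨P.equivAwayAdjoinRoot.injective.isDomain _, ?_⟩
  rw [ringKrullDim_eq_of_ringEquiv P.equivAwayAdjoinRoot.toRingEquiv]
  exact Ring.krullDimLE_iff.1 (inferInstance : Ring.KrullDimLE 1 _)

theorem curve_ex {L : Type} [Field L] [CharZero L] {t : L} (t0 : t ≠ 0)
    (h : ∀ u v : L, t * v ^ 2 = 1 - u ^ 6 → v = 0) :
    ∃ (A : Type) (_ : CommRing A) (_ : Algebra L A), Algebra.Smooth L A ∧
      (∀ (E : Type) [Field E] [Algebra L E], IsDomain (E ⊗[L] A)) ∧ ringKrullDim A = 1 ∧
      Nonempty (A →ₐ[L] L) ∧ Finite (A →ₐ[L] L) := by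
  let P : StandardEtalePair L[X] := ⟨X ^ 6 + C (C t * X ^ 2 - 1), monic_X_pow_add_C _ (by norm_num),
    X, C (C 6⁻¹) * X, 0, 6, by
      have : (C (C (6⁻¹ : L))) * 6 = (1 : L[X][X]) := by
        rw [← map_ofNat C 6, ← map_mul, ← map_ofNat C 6, ← map_mul]; simp
      simp only [derivative_add, derivative_C, derivative_X_pow, Nat.cast_ofNat, map_ofNat]
      linear_combination (X ^ 6) * this⟩
  let : Algebra L P.Ring := ((algebraMap L[X] P.Ring).comp C).toAlgebra
  have : IsScalarTower L L[X] P.Ring := IsScalarTower.of_algebraMap_eq (fun _ => rfl)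
  let : Algebra L[X] L := (evalRingHom 0).toAlgebra
  have : IsScalarTower L L[X] L := IsScalarTower.of_algebraMap_eq (fun c => (eval_C).symm)
  have hp : ∀ u : L, u ^ 6 = 1 → P.HasMap u := fun u hu => ⟨by
    simp [P, RingHom.algebraMap_toAlgebra, hu], by
      simpa [P] using fun e => by simp [e] at hu⟩
  obtain ⟨d1, d2⟩ := dom_pair t0 P rfl rfl
  have hX : P.X ^ 6 + (algebraMap L _ t * algebraMap L[X] _ X ^ 2 - 1) = 0 := by
    have := P.hasMap_X.1
    simp only [P, map_add, map_pow, aeval_X, aeval_C, map_sub, map_mul, map_one] at this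
    exact this
  have hv : ∀ φ : P.Ring →ₐ[L] L, φ (algebraMap L[X] _ X) = 0 ∧ φ P.X ^ 6 = 1 := by
    intro φ
    have h1 := congrArg φ hX
    simp only [map_add, map_pow, map_sub, map_mul, map_one, map_zero, φ.commutes,
      Algebra.algebraMap_self, RingHom.id_apply] at h1
    have h2 := h (φ P.X) (φ (algebraMap L[X] _ X)) (by linear_combination h1)
    rw [h2] at h1
    exact ⟨h2, by linear_combination h1⟩
  have : Algebra.Smooth L L[X] := {}
  refine ⟨P.Ring, inferInstance, inferInstance, .comp L L[X] _, fun E _ _ => ?_, ?_,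
    ⟨(P.lift 1 (hp 1 (one_pow 6))).restrictScalars L⟩, ?_⟩
  · have : CharZero E := algebraMap L E |>.injective |> charZero_of_injective_algebraMap
    have := (dom_pair (t := algebraMap L E t) (by simpa using t0) (P.map (algebraMap L[X] E[X]))
      (by simp [P, Polynomial.algebraMap_def]) (by simp [P])).1
    let Q : StandardEtalePresentation L[X] P.Ring := ⟨P, P.X, P.hasMap_X, by
      simpa [StandardEtalePair.lift_X_left] using Function.bijective_id⟩
    have : IsDomain (Q.baseChange (T := E[X])).Ring := this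
    have : IsDomain (E[X] ⊗[L[X]] P.Ring) :=
      (Q.baseChange (T := E[X])).equivRing.injective.isDomain _
    exact (Algebra.IsPushout.cancelBaseChangeAlg L E L[X] E[X] P.Ring).symm.injective.isDomain _
  · refine eq_of_le_of_not_lt d2 (fun h' => ?_)
    have h1 : Ring.KrullDimLE 0 P.Ring := Ring.krullDimLE_iff.2 (Order.le_of_lt_succ h')
    let := (Ring.KrullDimLE.isField_of_isDomain (R := P.Ring)).toField
    have h2 : P.X = 1 := (P.lift 1 (hp 1 (one_pow 6))).toRingHom.injective (by simp)
    have h3 := P.lift_X (-1 : L) (hp _ (by norm_num))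
    rw [h2, map_one] at h3
    norm_num at h3
  · have h1 : ∀ (φ : P.Ring →ₐ[L] L) p, φ (algebraMap L[X] _ p) = algebraMap L[X] L p := by
      intro φ p
      have : φ.comp (IsScalarTower.toAlgHom L L[X] _) = IsScalarTower.toAlgHom L L[X] L :=
        Polynomial.algHom_ext ((hv φ).1.trans (eval_X).symm)
      exact congr($this p)
    have := (nthRoots 6 (1 : L)).finite_toSet.to_subtype
    refine Finite.of_injective (β := {x | x ∈ nthRoots 6 (1 : L)})
      (fun φ => ⟨φ P.X, (mem_nthRoots (by norm_num)).2 (hv φ).2⟩) (fun φ ψ e => ?_)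
    have := P.hom_ext (f := ⟨φ.toRingHom, h1 φ⟩) (g := ⟨ψ.toRingHom, h1 ψ⟩) (congrArg Subtype.val e)
    exact AlgHom.ext (fun a => congr($this a))

end Pool.Agent.H72.Amp
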