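import Mathlib
import Pool.Agent.H72.Amen

set_option autoImplicit false

namespace Pool.Agent.H72.AugFil

open scoped Pointwise
open Pool.Agent.H72.Amen

section amen
variable {G : Type} [Group G]

theorem am_finite (H : Subgroup G) [Finite H] : ∃ μ : Set G → ℝ, IsMean μ ∧ H ≤ stab μ := by
  classical
  have := Fintype.ofFinite H
  have hc : (0 : ℝ) < Fintype.card H := by exact_mod_cast Fintype.card_pos
  refine ⟨fun A => (∑ h : H, if (h : G) ∈ A then 1 else 0) / Fintype.card H,
    ⟨fun A => ?_, ?_, fun A B hAB => ?_⟩, fun g hg A => ?_⟩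
  · exact div_nonneg (Finset.sum_nonneg fun h _ => by split_ifs <;> norm_num) hc.le
  · simp [hc.ne']
  · dsimp only
    rw [← add_div, ← Finset.sum_add_distrib]
    congr 1
    refine Finset.sum_congr rfl fun h _ => ?_
    have : (h : G) ∈ A → (h : G) ∉ B := fun x => Set.disjoint_left.1 hAB x
    by_cases a : (h : G) ∈ A <;> by_cases b : (h : G) ∈ B <;> simp_all
  · dsimp only
    refine congrArg (· / (Fintype.card H : ℝ)) ?_
    refine Fintype.sum_equiv (Equiv.mulLeft (⟨g, hg⟩ : H)⁻¹) _ _ fun h => ?_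
    simp [Set.mem_smul_set_iff_inv_smul_mem]

theorem amenable_of_lf_cyclic (H : Subgroup G) (t : G) (ht : ∀ h ∈ H, t * h * t⁻¹ ∈ H)
    (hgen : ∀ K : Subgroup G, H ≤ K → t ∈ K → K = ⊤)
    (hlf : ∀ T : Finset G, ∃ K : Subgroup G, Finite K ∧ ∀ x ∈ T, x ∈ H → x ∈ K) : Amenable G := by
  classical
  have h : ∀ T : Finset G, ∃ μ : Set G → ℝ, IsMean μ ∧ ∀ t ∈ T, t ∈ H → t ∈ stab μ := by
    intro T
    obtain ⟨K, hK, hT⟩ := hlf T
    obtain ⟨μ, h1, h2⟩ := am_finite K
    exact ⟨μ, h1, fun x hx hxH => h2 (hT x hx hxH)⟩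
  choose M h1 h3 using h
  obtain ⟨μ, hμ, hl⟩ := ulim (Ultrafilter.of (Filter.atTop : Filter (Finset G))) M h1
  have hH : H ≤ stab μ := by
    refine fun h hh A => tendsto_nhds_unique (hl _) ((hl A).congr' ?_)
    have : ∀ᶠ T : Finset G in Filter.atTop, M T A = M T (h • A) := by
      filter_upwards [Filter.eventually_ge_atTop {h}] with T hT
      exact (h3 T h (hT (Finset.mem_singleton_self h)) hh A).symm
    exact this.filter_mono (Ultrafilter.of_le _)
  obtain ⟨ν, g1, g2, g3⟩ := step H t ht μ hμ hH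
  have := hgen _ g2 g3
  exact ⟨ν, g1, fun g => (this ▸ Subgroup.mem_top g : g ∈ stab ν)⟩

end amen

variable (F : Type) [Field F] (G : Type) [Group G]

noncomputable def aug : Submodule F (MonoidAlgebra F G) :=
  Submodule.span F (Set.range (fun g : G => MonoidAlgebra.of F G g - 1))

variable {F G}

theorem mem_aug (g : G) : MonoidAlgebra.of F G g - 1 ∈ aug F G := Submodule.subset_span ⟨g, rfl⟩

theorem aug_sq : aug F G * aug F G ≤ aug F G := by
  rw [aug, Submodule.span_mul_span, Submodule.span_le]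
  rintro _ ⟨_, ⟨g, rfl⟩, _, ⟨h, rfl⟩, rfl⟩
  have : (MonoidAlgebra.of F G g - 1) * (MonoidAlgebra.of F G h - 1) =
      (MonoidAlgebra.of F G (g * h) - 1) - (MonoidAlgebra.of F G g - 1) -
        (MonoidAlgebra.of F G h - 1) := by
    rw [map_mul]; noncomm_ring
  show (MonoidAlgebra.of F G g - 1) * (MonoidAlgebra.of F G h - 1) ∈ aug F G
  rw [this]
  exact sub_mem (sub_mem (mem_aug _) (mem_aug _)) (mem_aug _)

theorem aug_pow_le (n : ℕ) : aug F G ^ (n + 2) ≤ aug F G ^ (n + 1) := by
  rw [pow_succ, pow_succ, mul_assoc]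
  exact mul_le_mul_right aug_sq _

theorem finite_quot (S : Set G) (hS : S.Finite) (hgen : Subgroup.closure S = ⊤) (n : ℕ) :
    Module.Finite F (MonoidAlgebra F G ⧸ aug F G ^ (n + 1)) := by
  let W : Submodule F (MonoidAlgebra F G) :=
    Submodule.span F ((fun g : G => MonoidAlgebra.of F G g - 1) '' S)
  have hW : W.FG := Submodule.fg_span (hS.image _)
  have hWM : W ≤ aug F G := Submodule.span_mono (Set.image_subset_range _ _)
  have h1 : aug F G ≤ W ⊔ aug F G * aug F G := by
    rw [aug, Submodule.span_le]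
    rintro _ ⟨g, rfl⟩
    have hg : g ∈ Subgroup.closure S := hgen ▸ Subgroup.mem_top g
    show MonoidAlgebra.of F G g - 1 ∈ W ⊔ aug F G * aug F G
    induction hg using Subgroup.closure_induction with
    | mem x hx => exact Submodule.mem_sup_left (Submodule.subset_span ⟨x, hx, rfl⟩)
    | one => rw [map_one, sub_self]; exact zero_mem _
    | mul g h _ _ hg hh =>
      have : MonoidAlgebra.of F G (g * h) - 1 = (MonoidAlgebra.of F G g - 1) *
          (MonoidAlgebra.of F G h - 1) + (MonoidAlgebra.of F G g - 1) +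
          (MonoidAlgebra.of F G h - 1) := by
        rw [map_mul]; noncomm_ring
      rw [this]
      exact add_mem (add_mem (Submodule.mem_sup_right
        (Submodule.mul_mem_mul (mem_aug _) (mem_aug _))) hg) hh
    | inv g _ hg =>
      have e : MonoidAlgebra.of F G g⁻¹ * MonoidAlgebra.of F G g = 1 := by
        rw [← map_mul, inv_mul_cancel, map_one]
      have : MonoidAlgebra.of F G g⁻¹ - 1 = -((MonoidAlgebra.of F G g⁻¹ - 1) *
          (MonoidAlgebra.of F G g - 1)) - (MonoidAlgebra.of F G g - 1) := by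
        rw [sub_mul, mul_sub, e]; noncomm_ring
      rw [this]
      exact sub_mem (neg_mem (Submodule.mem_sup_right
        (Submodule.mul_mem_mul (mem_aug _) (mem_aug _)))) hg
  have h2 : ∀ n, aug F G ^ (n + 1) ≤ W ^ (n + 1) ⊔ aug F G ^ (n + 2) := by
    intro n
    induction n with
    | zero => simpa [pow_two] using h1
    | succ n ih =>
      have a1 : W ^ (n + 1) ≤ aug F G ^ (n + 1) := pow_le_pow_left' hWM _
      calc aug F G ^ (n + 1 + 1) = aug F G ^ (n + 1) * aug F G := pow_succ _ _
        _ ≤ (W ^ (n + 1) ⊔ aug F G ^ (n + 2)) * aug F G := mul_le_mul_left ih _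
        _ = W ^ (n + 1) * aug F G ⊔ aug F G ^ (n + 2) * aug F G := Submodule.sup_mul _ _ _
        _ ≤ _ := by
          refine sup_le ?_ (by rw [← pow_succ]; exact le_sup_right)
          refine (mul_le_mul_right h1 _).trans ?_
          rw [Submodule.mul_sup, ← pow_succ]
          refine sup_le le_sup_left (le_sup_of_le_right ?_)
          refine (mul_le_mul_left a1 _).trans (le_of_eq ?_)
          rw [← pow_two, ← pow_add]
  have h3 : ∀ n, ∃ V : Submodule F (MonoidAlgebra F G), V.FG ∧ V ⊔ aug F G ^ (n + 1) = ⊤ := by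
    intro n
    induction n with
    | zero =>
      refine ⟨Submodule.span F {1}, Submodule.fg_span_singleton _, ?_⟩
      rw [eq_top_iff]
      intro x _
      induction x using MonoidAlgebra.induction_on with
      | of g =>
        have : MonoidAlgebra.of F G g = 1 + (MonoidAlgebra.of F G g - 1) := by abel
        rw [this]
        exact add_mem (Submodule.mem_sup_left (Submodule.mem_span_singleton_self _))
          (Submodule.mem_sup_right (by simpa using mem_aug g))
      | add f g hf hg => exact add_mem (hf trivial) (hg trivial)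
      | smul r f hf => exact Submodule.smul_mem _ _ (hf trivial)
    | succ n ih =>
      obtain ⟨V, hV, h⟩ := ih
      refine ⟨V ⊔ W ^ (n + 1), hV.sup (hW.pow _), ?_⟩
      rw [eq_top_iff, ← h, sup_assoc]
      exact sup_le_sup_left (h2 n) _
  obtain ⟨V, hV, h⟩ := h3 n
  refine ⟨?_⟩
  have : Submodule.map (aug F G ^ (n + 1)).mkQ V = ⊤ := by
    rw [Submodule.map_mkQ_eq_top, sup_comm, h]
  rw [← this]
  exact hV.map _

variable {U : Type} [AddCommGroup U] [Module F U] (ρ : G →* Module.End F U)

def Phi : ℕ → Submodule F U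
  | 0 => ⊥
  | n + 1 => ⨅ g : G, (Phi n).comap (ρ g - 1)

theorem mem_Phi (n : ℕ) (φ : U) : φ ∈ Phi ρ (n + 1) ↔ ∀ g, ρ g φ - φ ∈ Phi ρ n := by
  simp [Phi, Submodule.mem_iInf]

theorem Phi_inv (n : ℕ) : ∀ (h : G) (φ : U), φ ∈ Phi ρ n → ρ h φ ∈ Phi ρ n := by
  induction n with
  | zero => intro h φ hφ; rw [Phi, Submodule.mem_bot] at *; simp [hφ]
  | succ n ih =>
    intro h φ hφ
    rw [mem_Phi] at *
    intro g
    have := ih h _ (hφ (h⁻¹ * g * h))
    rw [map_sub, ← Module.End.mul_apply, ← map_mul] at this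
    rw [← Module.End.mul_apply, ← map_mul]
    convert this using 4
    group

theorem Phi_of_gen (S : Set G) (hgen : Subgroup.closure S = ⊤) (n : ℕ) (φ : U)
    (h : ∀ s ∈ S, ρ s φ - φ ∈ Phi ρ n) : φ ∈ Phi ρ (n + 1) := by
  rw [mem_Phi]
  intro g
  have hg : g ∈ Subgroup.closure S := hgen ▸ Subgroup.mem_top g
  induction hg using Subgroup.closure_induction with
  | mem x hx => exact h x hx
  | one => simp
  | mul g h _ _ hg hh =>
    have : ρ (g * h) φ - φ = ρ g (ρ h φ - φ) + (ρ g φ - φ) := by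
      rw [map_mul, map_sub, Module.End.mul_apply]; abel
    rw [this]
    exact add_mem (Phi_inv ρ n g _ hh) hg
  | inv g _ hg =>
    have : ρ g⁻¹ φ - φ = -(ρ g⁻¹ (ρ g φ - φ)) := by
      rw [map_sub, ← Module.End.mul_apply, ← map_mul, inv_mul_cancel, map_one]; simp
    rw [this]
    exact neg_mem (Phi_inv ρ n _ _ hg)

theorem aug_kill (n : ℕ) : ∀ r ∈ aug F G ^ n, ∀ φ ∈ Phi ρ n,
    MonoidAlgebra.lift F (Module.End F U) G ρ r φ = 0 := by
  induction n with
  | zero => intro r _ φ hφ; rw [Phi, Submodule.mem_bot] at hφ; simp [hφ]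
  | succ n ih =>
    intro r hr φ hφ
    rw [pow_succ] at hr
    refine Submodule.mul_induction_on hr (fun a ha b hb => ?_) (fun x y hx hy => by simp [hx, hy])
    rw [map_mul, Module.End.mul_apply]
    apply ih a ha
    rw [mem_Phi] at hφ
    induction hb using Submodule.span_induction with
    | mem x hx =>
      obtain ⟨g, rfl⟩ := hx
      simpa using hφ g
    | zero => simp
    | add x y _ _ hx hy => rw [map_add]; exact add_mem hx hy
    | smul c x _ hx => rw [map_smul]; exact Submodule.smul_mem _ _ hx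

end Pool.Agent.H72.AugFil
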