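import Mathlib

set_option autoImplicit false

namespace Pool.Agent.H72.Lcp

variable {A : Type} [DecidableEq A]

def lcp : List A → List A → ℕ
  | a :: u, b :: v => if a = b then lcp u v + 1 else 0
  | _, _ => 0

@[simp] theorem lcp_nil_left (v : List A) : lcp [] v = 0 := by cases v <;> rfl
@[simp] theorem lcp_nil_right (u : List A) : lcp u [] = 0 := by cases u <;> rfl
theorem lcp_cons (a b : A) (u v : List A) :
    lcp (a :: u) (b :: v) = if a = b then lcp u v + 1 else 0 := rfl

theorem lcp_comm (u v : List A) : lcp u v = lcp v u := by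
  induction u generalizing v with
  | nil => simp
  | cons a u ih =>
    cases v with
    | nil => simp
    | cons b v => simp only [lcp_cons, ih v, eq_comm]

theorem le_lcp_iff (k : ℕ) (u v : List A) :
    k ≤ lcp u v ↔ k ≤ u.length ∧ k ≤ v.length ∧ u.take k = v.take k := by
  induction k generalizing u v with
  | zero => simp
  | succ k ih =>
    cases u with
    | nil => simp
    | cons a u =>
      cases v with
      | nil => simp
      | cons b v =>
        by_cases h : a = b
        · simp [lcp_cons, h, ih]
        · simp [lcp_cons, h]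

theorem lcp_le_left (u v : List A) : lcp u v ≤ u.length := ((le_lcp_iff _ u v).1 le_rfl).1
theorem lcp_le_right (u v : List A) : lcp u v ≤ v.length := ((le_lcp_iff _ u v).1 le_rfl).2.1

theorem lcp_ultra (u v w : List A) : min (lcp u v) (lcp v w) ≤ lcp u w := by
  have h1 := (le_lcp_iff _ u v).1 (min_le_left (lcp u v) (lcp v w))
  have h2 := (le_lcp_iff _ v w).1 (min_le_right (lcp u v) (lcp v w))
  exact (le_lcp_iff _ u w).2 ⟨h1.1, h2.2.1, h1.2.2.trans h2.2.2⟩

theorem lcp_self (u : List A) : lcp u u = u.length :=
  le_antisymm (lcp_le_left u u) ((le_lcp_iff _ u u).2 ⟨le_rfl, le_rfl, rfl⟩)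

theorem lcp_append (p u v : List A) : lcp (p ++ u) (p ++ v) = p.length + lcp u v := by
  induction p with
  | nil => simp
  | cons a p ih => simp [lcp_cons, ih]; ring

end Pool.Agent.H72.Lcp
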