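import Mathlib
import Pool.Agent.H72.Lcp
import Pool.Agent.H72.Realize

set_option autoImplicit false

namespace Pool.Agent.H72.BSTree

open Pool.Agent.H72.Lcp

section td
variable {A : Type} [DecidableEq A]

def td (u v : List A) : ℤ := u.length + v.length - 2 * lcp u v

theorem td_nonneg (u v : List A) : 0 ≤ td u v := by
  have := lcp_le_left u v; have := lcp_le_right u v; unfold td; omega

theorem td_cons (a : A) (u v : List A) : td (a :: u) (a :: v) = td u v := by
  simp [td, lcp_cons]; ring

theorem td_append (p u v : List A) : td (p ++ u) (p ++ v) = td u v := by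
  simp [td, lcp_append]; ring

theorem td_comm (u v : List A) : td u v = td v u := by
  simp [td, lcp_comm u v]; ring

theorem td_tri (u v w : List A) : td u w ≤ td u v + td v w := by
  have := lcp_ultra u v w
  have := lcp_le_right u v
  have := lcp_le_left v w
  unfold td; omega

theorem eq_of_td {u v : List A} (h : td u v = 0) : u = v := by
  have h1 := lcp_le_left u v
  have h2 := lcp_le_right u v
  have h3 := ((le_lcp_iff _ u v).1 le_rfl).2.2
  unfold td at h
  rw [List.take_of_length_le (by omega), List.take_of_length_le (by omega)] at h3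
  exact h3

theorem td_nil (u : List A) : td u [] = u.length := by simp [td]

theorem td_one {u v : List A} (h : td u v = 1) : (∃ a, v = u ++ [a]) ∨ ∃ a, u = v ++ [a] := by
  induction u generalizing v with
  | nil =>
    rw [td_comm, td_nil] at h
    obtain ⟨a, rfl⟩ := List.length_eq_one_iff.1 (show v.length = 1 by omega)
    exact Or.inl ⟨a, rfl⟩
  | cons a u ih =>
    cases v with
    | nil =>
      rw [td_nil] at h
      obtain ⟨b, hb⟩ := List.length_eq_one_iff.1 (show (a :: u).length = 1 by omega)
      exact Or.inr ⟨b, hb⟩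
    | cons b v =>
      by_cases e : a = b
      · subst e
        rw [td_cons] at h
        simpa using ih h
      · simp [td, lcp_cons, e] at h; omega

theorem td_take (w : List A) (i j : ℕ) (hij : i ≤ j) :
    td (w.take i) (w.take j) = (min j w.length : ℕ) - (min i w.length : ℕ) := by
  have : lcp (w.take i) (w.take j) = min i w.length := by
    apply le_antisymm ((lcp_le_left _ _).trans (by simp))
    rw [le_lcp_iff]
    refine ⟨by simp, by simp; omega, ?_⟩
    rw [List.take_take, List.take_take]; congr 1; omega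
  simp only [td, this, List.length_take]; omega


theorem td_mixed (a : A) (u v : List A) (hv : v.head? ≠ some a) :
    td (a :: u) v = u.length + v.length + 1 := by
  cases v with
  | nil => simp [td]
  | cons b v =>
    have : a ≠ b := by rintro rfl; simp at hv
    simp [td, lcp_cons, this]; ring

end td

abbrev L := Bool × ℤ

def md : Bool → ℤ
  | true => 3
  | false => 2

theorem md_pos (e : Bool) : 0 < md e := by cases e <;> simp [md]

def ok : List L → Prop
  | [] => True
  | x :: w => 0 ≤ x.2 ∧ x.2 < md x.1 ∧ w.head? ≠ some (!x.1, 0) ∧ ok w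

theorem ok_take : ∀ (w : List L) (n : ℕ), ok w → ok (w.take n)
  | [], n, _ => by simp [ok]
  | _ :: _, 0, _ => by simp [ok]
  | x :: w, n + 1, h => by
    refine ⟨h.1, h.2.1, ?_, ok_take w n h.2.2.2⟩
    intro e
    apply h.2.2.1
    cases w with
    | nil => simp at e
    | cons y w => cases n with
      | zero => simp at e
      | succ n => simpa using e

def act : ℤ → List L → List L
  | _, [] => []
  | k, x :: w => (x.1, (k + x.2) % md x.1) :: act (md (!x.1) * ((k + x.2) / md x.1)) w

theorem act_length : ∀ (k : ℤ) (w : List L), (act k w).length = w.length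
  | _, [] => rfl
  | k, x :: w => by simp [act, act_length]

theorem act_zero : ∀ (w : List L), ok w → act 0 w = w
  | [], _ => rfl
  | x :: w, h => by
    simp only [act, zero_add, Int.emod_eq_of_lt h.1 h.2.1, Int.ediv_eq_zero_of_lt h.1 h.2.1,
      mul_zero, act_zero w h.2.2.2]

theorem act_act : ∀ (k k' : ℤ) (w : List L), act k (act k' w) = act (k + k') w
  | _, _, [] => rfl
  | k, k', x :: w => by
    obtain ⟨e, i⟩ := x
    simp only [act, act_act]
    congr 2
    · cases e <;> simp only [md] <;> omega
    · cases e <;> simp only [md, Bool.not_true, Bool.not_false] <;> omega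

theorem ok_act : ∀ (k : ℤ) (w : List L), ok w → ok (act k w)
  | _, [], _ => trivial
  | k, x :: w, h => by
    refine ⟨Int.emod_nonneg _ (md_pos _).ne', Int.emod_lt_of_pos _ (md_pos _), ?_,
      ok_act _ w h.2.2.2⟩
    cases w with
    | nil => simp [act]
    | cons y w =>
      have h1 := h.2.2.1
      have h2 := h.2.2.2.1
      have h3 := h.2.2.2.2.1
      obtain ⟨e, i⟩ := x
      obtain ⟨e', j⟩ := y
      simp only [act, List.head?_cons, ne_eq, Option.some.injEq, Prod.mk.injEq, not_and] at h1 ⊢
      rintro rfl h4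
      apply h1 rfl
      cases e <;> simp only [md, Bool.not_true, Bool.not_false] at h2 h3 h4 <;> omega

theorem lcp_act : ∀ (k : ℤ) (u v : List L), ok u → ok v → lcp (act k u) (act k v) = lcp u v
  | _, [], _, _, _ => by simp [act]
  | _, _ :: _, [], _, _ => by simp [act]
  | k, x :: u, y :: v, hu, hv => by
    simp only [act, lcp_cons]
    by_cases e : x = y
    · subst e
      simp [lcp_act _ u v hu.2.2.2 hv.2.2.2]
    · rw [if_neg e, if_neg]
      intro h
      apply e
      clear e
      obtain ⟨c, i⟩ := x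
      obtain ⟨c', j⟩ := y
      simp only [Prod.mk.injEq] at h ⊢
      obtain ⟨h0, h⟩ := h
      subst h0
      refine ⟨rfl, ?_⟩
      have a1 := hu.1; have a2 := hu.2.1; have a3 := hv.1; have a4 := hv.2.1
      cases c <;> simp only [md] at h a1 a2 a3 a4 <;> omega

theorem act_append (b : L) : ∀ (k : ℤ) (v : List L), ∃ b', act k (v ++ [b]) = act k v ++ [b']
  | k, [] => ⟨_, rfl⟩
  | k, x :: v => by
    obtain ⟨b', h⟩ := act_append b (md (!x.1) * ((k + x.2) / md x.1)) v
    exact ⟨b', by simp only [List.cons_append, act, h]⟩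

def push (e : Bool) (w : List L) : List L := if w.head? = some (!e, 0) then w.tail else (e, 0) :: w

theorem push_cases (e : Bool) (w : List L) (hw : ok w) :
    (w.head? ≠ some (!e, 0) ∧ push e w = (e, 0) :: w) ∨
      ((push e w).head? ≠ some (e, 0) ∧ w = (!e, 0) :: push e w) := by
  by_cases h : w.head? = some (!e, 0)
  · right
    obtain ⟨w, rfl⟩ := List.head?_eq_some_iff.1 h
    have := hw.2.2.1
    simp only [Bool.not_not] at this
    simp only [push, List.head?_cons, if_true, List.tail_cons]
    exact ⟨this, trivial⟩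
  · left
    exact ⟨h, by simp only [push, if_neg h]⟩

theorem ok_push (e : Bool) (w : List L) (hw : ok w) : ok (push e w) := by
  rcases push_cases e w hw with ⟨h1, h2⟩ | ⟨h1, h2⟩
  · rw [h2]; exact ⟨le_rfl, md_pos _, h1, hw⟩
  · rw [h2] at hw; exact hw.2.2.2

theorem push_push (e : Bool) (w : List L) (hw : ok w) : push (!e) (push e w) = w := by
  rcases push_cases e w hw with ⟨h1, h2⟩ | ⟨h1, h2⟩
  · rw [h2]; simp [push]
  · conv_rhs => rw [h2]
    rw [push, if_neg (by simpa using h1)]

@[ext] structure W where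
  l : List L
  h : ok l

def root : W := ⟨[], trivial⟩

instance : Nonempty W := ⟨root⟩

instance : MetricSpace W where
  dist u v := td u.l v.l
  dist_self u := by simp [td, lcp_self]; ring
  dist_comm u v := by rw [td_comm]
  dist_triangle u v w := by exact_mod_cast td_tri _ _ _
  eq_of_dist_eq_zero h := W.ext (eq_of_td (by exact_mod_cast h))

theorem dist_def (u v : W) : dist u v = td u.l v.l := rfl

theorem dist_root (u : W) : dist u root = u.l.length := by
  simp [dist_def, root, td_nil]

def al (k : ℤ) : Equiv.Perm W where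
  toFun w := ⟨act k w.l, ok_act k _ w.h⟩
  invFun w := ⟨act (-k) w.l, ok_act _ _ w.h⟩
  left_inv w := W.ext (by simp [act_act, act_zero _ w.h])
  right_inv w := W.ext (by simp [act_act, act_zero _ w.h])

theorem al_l (k : ℤ) (w : W) : (al k w).l = act k w.l := rfl

theorem al_add (k k' : ℤ) : al (k + k') = al k * al k' := by
  ext1 w; exact W.ext (act_act _ _ _).symm

theorem al_dist (k : ℤ) (u v : W) : dist (al k u) (al k v) = dist u v := by
  simp only [dist_def, al_l, td, act_length, lcp_act _ _ _ u.h v.h]

theorem al_root (k : ℤ) : al k root = root := rfl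

def pu (e : Bool) : Equiv.Perm W where
  toFun w := ⟨push e w.l, ok_push e _ w.h⟩
  invFun w := ⟨push (!e) w.l, ok_push _ _ w.h⟩
  left_inv w := W.ext (push_push e _ w.h)
  right_inv w := W.ext (by simpa using push_push (!e) _ w.h)

theorem pu_l (e : Bool) (w : W) : (pu e w).l = push e w.l := rfl

theorem pu_dist (e : Bool) (u v : W) : dist (pu e u) (pu e v) = dist u v := by
  simp only [dist_def, pu_l]
  congr 1
  rcases push_cases e u.l u.h with ⟨h1, h2⟩ | ⟨h1, h2⟩ <;>
    rcases push_cases e v.l v.h with ⟨h3, h4⟩ | ⟨h3, h4⟩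
  · rw [h2, h4, td_cons]
  · rw [h2, td_mixed _ _ _ h3]
    conv_rhs => rw [h4, td_comm, td_mixed _ _ _ h1]
    ring
  · rw [h4, td_comm, td_mixed _ _ _ h1]
    conv_rhs => rw [h2, td_mixed _ _ _ h3]
    ring
  · conv_rhs => rw [h2, h4, td_cons]

theorem bs_rel : pu true * al 2 = al 3 * pu true := by
  ext1 w
  apply W.ext
  simp only [Equiv.Perm.mul_apply, pu_l, al_l]
  obtain ⟨l, h⟩ := w
  cases l with
  | nil => simp [push, act, md]
  | cons x l =>
    obtain ⟨e, i⟩ := x
    have h1 := h.1
    have h2 := h.2.1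
    cases e
    · simp only [md] at h1 h2
      by_cases hi : i = 0
      · subst hi
        simp [push, act, md]
      · have : i = 1 := by omega
        subst this
        simp [push, act, md]
    · simp [push, act, md]

theorem to_root (u : W) : ∃ g : Equiv.Perm W, (∀ x y, dist (g x) (g y) = dist x y) ∧
    g u = root := by
  have : ∀ n, ∀ u : W, u.l.length = n → ∃ g : Equiv.Perm W, (∀ x y, dist (g x) (g y) = dist x y) ∧
      g u = root := by
    intro n
    induction n with
    | zero => intro u h; exact ⟨1, fun _ _ => rfl, W.ext (List.length_eq_zero_iff.1 h)⟩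
    | succ n ih =>
      rintro ⟨l, hl⟩ h
      cases l with
      | nil => simp at h
      | cons x l =>
        obtain ⟨g, hg, e⟩ := ih (pu (!x.1) (al (-x.2) ⟨x :: l, hl⟩)) (by
          simp only [pu_l, al_l, act, push, neg_add_cancel, Int.zero_emod, List.head?_cons,
            Bool.not_not, if_true, List.tail_cons, act_length]
          simpa using h)
        refine ⟨g * pu (!x.1) * al (-x.2), fun a b => ?_, e⟩
        simp only [Equiv.Perm.mul_apply, hg, pu_dist, al_dist]
  exact this _ u rfl

theorem hyp (x y z w : W) : min ((dist x w + dist y w - dist x y) / 2)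
    ((dist y w + dist z w - dist y z) / 2) ≤ (dist x w + dist z w - dist x z) / 2 := by
  obtain ⟨g, hg, e⟩ := to_root w
  rw [← hg x w, ← hg y w, ← hg z w, ← hg x y, ← hg y z, ← hg x z, e]
  simp only [dist_root]
  simp only [dist_def, td]
  have := lcp_ultra (g x).l (g y).l (g z).l
  rcases min_le_iff.1 this with h | h
  · have : (lcp (g x).l (g y).l : ℝ) ≤ lcp (g x).l (g z).l := by exact_mod_cast h
    refine (min_le_left _ _).trans ?_
    push_cast; linarith
  · have : (lcp (g y).l (g z).l : ℝ) ≤ lcp (g x).l (g z).l := by exact_mod_cast h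
    refine (min_le_right _ _).trans ?_
    push_cast; linarith

theorem nb (u v : W) (h : dist u v ≤ 1) : u = v ∨ dist u v = 1 := by
  have h0 := td_nonneg u.l v.l
  have h1 : td u.l v.l ≤ 1 := by rw [dist_def] at h; exact_mod_cast h
  rcases h1.eq_or_lt with e | e
  · right; rw [dist_def, e]; simp
  · left; exact W.ext (eq_of_td (by omega))

theorem ex_nb (u : W) : ∃ v, dist u v = 1 := by
  obtain ⟨g, hg, e⟩ := to_root u
  refine ⟨g⁻¹ ⟨[(true, 0)], by simp [ok, md]⟩, ?_⟩
  rw [← hg, e, dist_comm, dist_root]; simp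

def Good (u u' v v' : W) : Prop := ∃ (x : ℤ → W) (n j : ℤ),
      (∀ i, dist (x i) (x (i + 1)) ≤ 1) ∧ (∀ i, 0 ≤ i → i ≤ n → dist (x i) (x 0) = i) ∧
      0 ≤ j ∧ j + 1 ≤ n ∧ ((u = x 0 ∧ u' = x 1) ∨ (u' = x 0 ∧ u = x 1)) ∧
      ((v = x j ∧ v' = x (j + 1)) ∨ (v' = x j ∧ v = x (j + 1)))

theorem Good.of_map {u u' v v' : W} (g : Equiv.Perm W)
    (hg : ∀ x y, dist (g x) (g y) = dist x y) (h : Good (g u) (g u') (g v) (g v')) :
    Good u u' v v' := by
  obtain ⟨x, n, j, h1, h2, h3, h4, h5, h6⟩ := h
  refine ⟨fun i => g⁻¹ (x i), n, j, fun i => ?_, fun i a b => ?_, h3, h4, ?_, ?_⟩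
  · rw [← hg]; simpa using h1 i
  · rw [← hg]; simpa using h2 i a b
  · simpa only [Equiv.Perm.eq_inv_iff_eq] using h5
  · simpa only [Equiv.Perm.eq_inv_iff_eq] using h6

theorem Good.swap1 {u u' v v' : W} (h : Good u u' v v') : Good u' u v v' := by
  obtain ⟨x, n, j, h1, h2, h3, h4, h5, h6⟩ := h
  exact ⟨x, n, j, h1, h2, h3, h4, h5.symm, h6⟩

theorem Good.swap2 {u u' v v' : W} (h : Good u u' v v') : Good u u' v' v := by
  obtain ⟨x, n, j, h1, h2, h3, h4, h5, h6⟩ := h
  exact ⟨x, n, j, h1, h2, h3, h4, h5, h6.symm⟩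

theorem good0 (u' v v' : W) (a b : L) (h1 : u'.l = [a]) (h2 : v'.l = v.l ++ [b])
    (h3 : v'.l.head? = some a) : Good root u' v v' := by
  refine ⟨fun i => ⟨v'.l.take i.toNat, ok_take _ _ v'.h⟩, v'.l.length, v.l.length, fun i => ?_,
    fun i a b => ?_, by omega, by simp [h2], Or.inl ⟨W.ext (by simp [root]), W.ext ?_⟩,
    Or.inl ⟨W.ext (by simp [h2]), W.ext ?_⟩⟩
  · have : td (v'.l.take i.toNat) (v'.l.take (i + 1).toNat) ≤ 1 := by
      rw [td_take _ _ _ (by omega)]; omega
    rw [dist_def]; exact_mod_cast this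
  · have : td (v'.l.take (0 : ℤ).toNat) (v'.l.take i.toNat) = i := by
      rw [td_take _ _ _ (by omega)]; omega
    rw [dist_comm, dist_def]; exact_mod_cast this
  · obtain ⟨w, hw⟩ := List.head?_eq_some_iff.1 h3
    simp [h1, hw]
  · simp only; rw [List.take_of_length_le (by simp [h2])]

theorem good1 (u' v v' : W) (a b : L) (h1 : u'.l = [a]) (h2 : v'.l = v.l ++ [b]) :
    Good root u' v v' := by
  by_cases h3 : v'.l.head? = some a
  · exact good0 u' v v' a b h1 h2 h3
  · have ha : 0 ≤ a.2 ∧ a.2 < md a.1 := by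
      have := u'.h
      rw [h1] at this
      exact ⟨this.1, this.2.1⟩
    have key : ∀ z : W, z.l.head? ≠ some a →
        (pu (!a.1) (al (-a.2) z)).l = (!a.1, 0) :: act (-a.2) z.l := by
      rintro ⟨l, hl⟩ hz
      simp only [pu_l, al_l, push, Bool.not_not]
      rw [if_neg]
      cases l with
      | nil => simp [act]
      | cons y l =>
        obtain ⟨e, i⟩ := a
        obtain ⟨e', j⟩ := y
        have := hl.1
        have := hl.2.1
        simp only [act, List.head?_cons, ne_eq, Option.some.injEq, Prod.mk.injEq, not_and] at hz ⊢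
        rintro rfl h4
        apply hz rfl
        cases e' <;> simp only [md] at * <;> omega
    apply Good.of_map (pu (!a.1) * al (-a.2)) (fun x y => by
      simp only [Equiv.Perm.mul_apply, pu_dist, al_dist])
    simp only [Equiv.Perm.mul_apply]
    have e : pu (!a.1) (al (-a.2) u') = root := W.ext (by
      simp [pu_l, al_l, h1, act, push, root])
    rw [e]
    have h4 : v.l.head? ≠ some a := by
      intro h; apply h3; rw [h2, List.head?_append, h]; rfl
    obtain ⟨b', hb'⟩ := act_append b (-a.2) v.l
    refine (good0 _ _ _ (!a.1, 0) b' ?_ ?_ ?_).swap1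
    · rw [key _ (by simp [root])]; rfl
    · rw [key _ h3, key _ h4, h2, hb']; rfl
    · rw [key _ h3]; rfl

theorem good (u u' v v' : W) (h1 : dist u u' = 1) (h2 : dist v v' = 1) : Good u u' v v' := by
  obtain ⟨g, hg, e⟩ := to_root u
  apply Good.of_map g hg
  rw [← hg, e, dist_comm, dist_root] at h1
  rw [← hg, dist_def] at h2
  obtain ⟨a, ha⟩ := List.length_eq_one_iff.1 (show (g u').l.length = 1 by exact_mod_cast h1)
  rw [e]
  rcases td_one (show td (g v).l (g v').l = 1 by exact_mod_cast h2) with ⟨b, hb⟩ | ⟨b, hb⟩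
  · exact good1 _ _ _ a b ha hb
  · exact (good1 _ _ _ a b ha hb).swap2

end Pool.Agent.H72.BSTree
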