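import Mathlib

namespace Pool.Agent.H72.CentExt

open Subgroup
open scoped commutatorElement

/-! ### general nilpotency lemmas -/

theorem exists_nilp_of_not_mem {G : Type} [Group G] (g : G) (N : ℕ)
    (h : g ∉ (⊤ : Subgroup G).lowerCentralSeries N) :
    ∃ (H : Type) (_ : Group H) (φ : G →* H), Group.IsNilpotent H ∧ φ g ≠ 1 := by
  let K := (⊤ : Subgroup G).lowerCentralSeries N
  refine ⟨G ⧸ K, inferInstance, QuotientGroup.mk' K, ?_, fun h' => h ?_⟩
  · rw [Subgroup.nilpotent_iff_lowerCentralSeries]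
    refine ⟨N, ?_⟩
    have := map_lowerCentralSeries (⊤ : Subgroup G) (QuotientGroup.mk' K) N
    rw [Subgroup.map_top_of_surjective _ (QuotientGroup.mk'_surjective K)] at this
    rw [← this, Subgroup.map_eq_bot_iff, QuotientGroup.ker_mk']
  · exact (QuotientGroup.eq_one_iff g).1 h'

theorem inv_pow_mem {H : Type} [Group H] (d T : H) (h : T * d * T⁻¹ = d⁻¹) (k : ℕ) :
    d ^ (2 ^ k) ∈ (⊤ : Subgroup H).lowerCentralSeries k := by
  induction k with
  | zero => trivial
  | succ k ih =>
    have : d ^ (2 ^ (k + 1)) = ⁅d ^ (2 ^ k), T⁆ := by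
      have e : T * (d ^ (2 ^ k))⁻¹ * T⁻¹ = d ^ (2 ^ k) := by
        rw [← inv_pow, ← conj_pow, ← inv_inj]
        congr 1
        have : T * d⁻¹ * T⁻¹ = (T * d * T⁻¹)⁻¹ := by group
        rw [this, h, inv_inv]
      rw [commutatorElement_def, mul_assoc, mul_assoc, ← mul_assoc T, e, pow_succ, pow_mul, sq]
    rw [this, Subgroup.lowerCentralSeries_succ]
    exact commutator_mem_commutator ih (mem_top _)

theorem normal_of_le_center {H : Type} [Group H] {N : Subgroup H} (h : N ≤ center H) :
    N.Normal :=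
  ⟨fun n hn g => by rw [mem_center_iff.1 (h hn) g]; simpa using hn⟩

theorem center_nilp (H : Type) [Group H] : Group.IsNilpotent (center H) := by
  let _ : CommGroup (center H) :=
    { (inferInstance : Group (center H)) with
      mul_comm := fun x y => Subtype.ext (mem_center_iff.1 y.2 x) }
  exact CommGroup.isNilpotent

/-! ### the group -/

def fa : FreeGroup Bool := FreeGroup.of false
def ft : FreeGroup Bool := FreeGroup.of true
def fz : FreeGroup Bool := ft * fa ^ 3 * ft⁻¹ * fa ^ 3
def fc : FreeGroup Bool := fz * fa * fz⁻¹ * fa⁻¹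

abbrev G : Type := PresentedGroup ({fz} : Set (FreeGroup Bool))

def gen (b : Bool) : G := PresentedGroup.of b

theorem G_rel : gen true * gen false ^ 3 * (gen true)⁻¹ * gen false ^ 3 = 1 := by
  have := PresentedGroup.one_of_mem (rels := {fz}) (x := fz) rfl
  exact this

def liftG {H : Type} [Group H] (a t : H) (h : t * a ^ 3 * t⁻¹ * a ^ 3 = 1) : G →* H :=
  PresentedGroup.toGroup (f := fun b => if b then t else a) (by
    rintro r rfl
    simpa [fz, fa, ft] using h)

theorem liftG_a {H : Type} [Group H] (a t : H) (h) : liftG a t h (gen false) = a := by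
  simp [liftG, gen]
theorem liftG_t {H : Type} [Group H] (a t : H) (h) : liftG a t h (gen true) = t := by
  simp [liftG, gen]

/-! ### normal forms -/

def P (l : List (Bool × ℤ)) : G := (l.map fun x => gen x.1 ^ x.2).prod

def Ok (x : Bool × ℤ) : Prop := if x.1 then x.2 ≠ 0 else ¬ (3 ∣ x.2)

def hd (c : Bool) : List (Bool × ℤ) → Bool
  | [] => c
  | x :: _ => x.1

def Red (c : Bool) : List (Bool × ℤ) → Prop
  | [] => True
  | x :: l => x.1 ≠ hd c l ∧ Ok x ∧ Red c l

def NF (g : G) : Prop := ∃ (k : ℤ) (c : Bool) (l : List (Bool × ℤ)),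
  Red c l ∧ g = gen false ^ (3 * k) * P l

theorem red_cons {c : Bool} {l : List (Bool × ℤ)} (h : Red c l) (x : Bool × ℤ) (hx : Ok x)
    (hl : l = [] ∨ x.1 ≠ hd c l) : ∃ c', Red c' (x :: l) := by
  rcases hl with rfl | hl
  · exact ⟨!x.1, by simp [hd], hx, trivial⟩
  · exact ⟨c, hl, hx, h⟩

theorem t_comm (j k : ℤ) : ∃ k' : ℤ,
    gen true ^ j * gen false ^ (3 * k) = gen false ^ (3 * k') * gen true ^ j := by
  have h1 : gen true * gen false ^ (3 : ℤ) * (gen true)⁻¹ = (gen false ^ (3 : ℤ))⁻¹ := by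
    rw [eq_inv_iff_mul_eq_one]; exact_mod_cast G_rel
  have h2 : ∀ k : ℤ, gen true * gen false ^ (3 * k) = gen false ^ (3 * -k) * gen true := by
    intro k
    rw [zpow_mul, zpow_mul, zpow_neg, ← inv_zpow, ← h1, conj_zpow]; group
  have h3 : ∀ k : ℤ, (gen true)⁻¹ * gen false ^ (3 * k) = gen false ^ (3 * -k) * (gen true)⁻¹ := by
    intro k
    have := h2 (-k)
    rw [neg_neg] at this
    rw [inv_mul_eq_iff_eq_mul, ← mul_assoc, this]; group
  induction j using Int.induction_on generalizing k with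
  | zero => exact ⟨k, by simp⟩
  | succ j ih =>
    obtain ⟨k', hk⟩ := ih (-k)
    exact ⟨k', by rw [zpow_add_one, mul_assoc, h2, ← mul_assoc, hk, mul_assoc]⟩
  | pred j ih =>
    obtain ⟨k', hk⟩ := ih (-k)
    exact ⟨k', by rw [zpow_sub_one, mul_assoc, h3, ← mul_assoc, hk, mul_assoc]⟩

theorem NF_prepend (b : Bool) (j k : ℤ) {c : Bool} {l : List (Bool × ℤ)} (h : Red c l)
    (hl : l = [] ∨ b ≠ hd c l) : NF (gen false ^ (3 * k) * (gen b ^ j * P l)) := by
  by_cases hx : Ok (b, j)
  · obtain ⟨c', hc⟩ := red_cons h (b, j) hx hl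
    exact ⟨k, c', _, hc, by simp [P]⟩
  · cases b
    · simp only [Ok, Bool.false_eq_true, if_false, not_not] at hx
      obtain ⟨i, rfl⟩ := hx
      exact ⟨k + i, c, l, h, by rw [mul_add, zpow_add, mul_assoc]⟩
    · simp only [Ok, if_true, not_not] at hx
      subst hx
      exact ⟨k, c, l, h, by simp⟩

theorem NF_mul (b : Bool) (j : ℤ) {g : G} (h : NF g) : NF (gen b ^ j * g) := by
  obtain ⟨k, c, l, hl, rfl⟩ := h
  obtain ⟨k', hk⟩ : ∃ k' : ℤ,
      gen b ^ j * gen false ^ (3 * k) = gen false ^ (3 * k') * gen b ^ j := by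
    cases b
    · exact ⟨k, by group⟩
    · exact t_comm j k
  rw [← mul_assoc, hk, mul_assoc]
  rcases l with _ | ⟨x, l⟩
  · exact NF_prepend b j k' hl (Or.inl rfl)
  · by_cases hb : b = x.1
    · have : gen b ^ j * P (x :: l) = gen b ^ (j + x.2) * P l := by
        simp [P, hb, zpow_add, mul_assoc]
      rw [this]
      exact NF_prepend b _ k' hl.2.2 (Or.inr (hb ▸ hl.1))
    · exact NF_prepend b j k' hl (Or.inr hb)

theorem NF_all (g : G) : NF g := by
  have : g ∈ Subgroup.closure (Set.range gen) := by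
    have := PresentedGroup.closure_range_of ({fz} : Set (FreeGroup Bool))
    exact this ▸ mem_top g
  induction this using Subgroup.closure_induction_left with
  | one => exact ⟨0, true, [], trivial, by simp [P]⟩
  | mul_left x hx y _ ih => obtain ⟨b, rfl⟩ := hx; simpa using NF_mul b 1 ih
  | inv_mul_cancel x hx y _ ih => obtain ⟨b, rfl⟩ := hx; simpa using NF_mul b (-1) ih

/-! ### the Magnus representation -/

abbrev V : Type := List Bool → ZMod 3

def lead (b : Bool) : List Bool → ℕ
  | [] => 0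
  | x :: w => if x = b then lead b w + 1 else 0

def L (q : ℕ) (b : Bool) : Module.End (ZMod 3) V where
  toFun f w := if 1 ≤ lead b w ∧ lead b w < q then f w.tail else 0
  map_add' f g := by ext w; simp only [Pi.add_apply]; split_ifs <;> simp
  map_smul' c f := by ext w; simp only [Pi.smul_apply, RingHom.id_apply]; split_ifs <;> simp

theorem L_apply (q : ℕ) (b : Bool) (f : V) (w) :
    L q b f w = if 1 ≤ lead b w ∧ lead b w < q then f w.tail else 0 := rfl

theorem lead_tail {b : Bool} {w : List Bool} (h : 1 ≤ lead b w) :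
    lead b w = lead b w.tail + 1 ∧ w = b :: w.tail := by
  rcases w with _ | ⟨x, w⟩
  · simp [lead] at h
  · by_cases hx : x = b
    · simp [lead, hx]
    · simp [lead, hx] at h

theorem L_pow (q : ℕ) (b : Bool) (k : ℕ) (f : V) (w) :
    (L q b ^ (k + 1)) f w = if k + 1 ≤ lead b w ∧ lead b w < q then f (w.drop (k + 1)) else 0 := by
  induction k generalizing w with
  | zero => simp [L_apply]
  | succ k ih =>
    rw [pow_succ', Module.End.mul_apply, L_apply, ih]
    by_cases h : 1 ≤ lead b w
    · have := (lead_tail h).1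
      by_cases h2 : k + 1 + 1 ≤ lead b w ∧ lead b w < q
      · rw [if_pos h2, if_pos (by omega), if_pos (by omega)]; simp
      · rw [if_neg h2]
        split_ifs with h3 h4
        · omega
        · rfl
        · rfl
    · rw [if_neg (by omega), if_neg (by omega)]

theorem L_pow_q (m : ℕ) (b : Bool) : (1 + L (3 ^ m) b) ^ (3 ^ m) = 1 := by
  have : Nontrivial V := inferInstance
  have : CharP (Module.End (ZMod 3) V) 3 := charP_of_injective_algebraMap' (ZMod 3) 3
  have : Fact (Nat.Prime 3) := ⟨Nat.prime_three⟩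
  rw [add_pow_char_pow_of_commute 3 m (Commute.one_left _), one_pow]
  obtain ⟨k, hk⟩ : ∃ k, 3 ^ m = k + 1 := ⟨3 ^ m - 1, by have := Nat.one_le_pow m 3; omega⟩
  have : L (3 ^ m) b ^ 3 ^ m = 0 := by
    refine LinearMap.ext fun f => funext fun w => ?_
    nth_rewrite 2 [hk]
    rw [L_pow, if_neg (by omega)]; rfl
  rw [this, add_zero]

def un (m : ℕ) (b : Bool) : (Module.End (ZMod 3) V)ˣ :=
  Units.ofPowEqOne _ _ (L_pow_q m b) (by positivity)

theorem un_pow (m : ℕ) (b : Bool) : un m b ^ (3 ^ m) = 1 := Units.pow_ofPowEqOne _ _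

def ex (m : ℕ) (b : Bool) : ℕ := if b then m else 1

def rho (m : ℕ) : G →* (Module.End (ZMod 3) V)ˣ :=
  liftG (un 1 false) (un m true) (by
    have := un_pow 1 false
    rw [pow_one] at this
    simp [this])

theorem rho_gen (m : ℕ) (b : Bool) : rho m (gen b) = un (ex m b) b := by
  cases b
  · exact liftG_a _ _ _
  · exact liftG_t _ _ _

def F (i : ℕ) : Submodule (ZMod 3) V where
  carrier := {f | ∀ w : List Bool, w.length < i → f w = 0}
  add_mem' hf hg w hw := by simp [hf w hw, hg w hw]
  zero_mem' _ _ := rfl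
  smul_mem' c f hf w hw := by simp [hf w hw]

theorem F_mono {i j : ℕ} (h : i ≤ j) : F j ≤ F i := fun _ hf w hw => hf w (by omega)

def U (k : ℕ) : Subgroup (Module.End (ZMod 3) V)ˣ where
  carrier := {u | (∀ i f, f ∈ F i → u.1 f - f ∈ F (i + k)) ∧ ∀ i f, f ∈ F i → (u⁻¹).1 f ∈ F i}
  one_mem' := ⟨fun i f _ => by simp, fun i f h => by simpa using h⟩
  mul_mem' {u v} hu hv := by
    refine ⟨fun i f hf => ?_, fun i f hf => ?_⟩
    · have h1 := hv.1 i f hf
      have h2 : v.1 f ∈ F i := by
        simpa using (F i).add_mem (F_mono (Nat.le_add_right i k) h1) hf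
      simpa using (F _).add_mem (hu.1 i _ h2) h1
    · simpa using hv.2 i _ (hu.2 i f hf)
  inv_mem' {u} hu := by
    refine ⟨fun i f hf => ?_, fun i f hf => ?_⟩
    · have := (F _).neg_mem (hu.1 i _ (hu.2 i f hf))
      rw [← Module.End.mul_apply, Units.mul_inv] at this
      simpa using this
    · simpa using (F i).add_mem (F_mono (Nat.le_add_right i k) (hu.1 i f hf)) hf

theorem U_pres {k : ℕ} {u} (hu : u ∈ U k) (i : ℕ) (f : V) (hf : f ∈ F i) : u.1 f ∈ F i :=
  ((U k).inv_mem hu).2 i f hf

theorem U_comm {k : ℕ} {u v} (hu : u ∈ U k) (hv : v ∈ U 1) : ⁅u, v⁆ ∈ U (k + 1) := by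
  refine ⟨fun i f hf => ?_, fun i f hf => ?_⟩
  · set g := (u⁻¹).1 ((v⁻¹).1 f) with hg
    have hg' : g ∈ F i := hu.2 i _ (hv.2 i f hf)
    have e1 : (⁅u, v⁆).1 f = u.1 (v.1 g) := by simp [commutatorElement_def, hg]
    have e2 : f = v.1 (u.1 g) := by
      rw [hg, ← Module.End.mul_apply u.1, Units.mul_inv, Module.End.one_apply,
        ← Module.End.mul_apply v.1, Units.mul_inv, Module.End.one_apply]
    have h1 := hu.1 _ _ (hv.1 i g hg')
    have h2 := hv.1 _ _ (hu.1 i g hg')
    rw [show i + 1 + k = i + (k + 1) by ring] at h1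
    have := (F _).sub_mem h1 h2
    rw [e1]
    convert this using 1
    conv_lhs => rw [e2]
    simp only [map_sub]; abel
  · have e : (⁅u, v⁆⁻¹).1 f = v.1 (u.1 ((v⁻¹).1 ((u⁻¹).1 f))) := by
      simp [commutatorElement_def]
    rw [e]
    exact U_pres hv _ _ (U_pres hu _ _ (hv.2 _ _ (hu.2 _ _ hf)))

theorem un_mem (m : ℕ) (b : Bool) : un m b ∈ U 1 := by
  have h1 : ∀ i f, f ∈ F i → (un m b).1 f - f ∈ F (i + 1) := by
    intro i f hf w hw
    have : (un m b).1 f - f = L (3 ^ m) b f := by simp [un]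
    rw [this, L_apply]
    split_ifs with h
    · apply hf
      have := congrArg List.length (lead_tail h.1).2
      simp only [List.length_cons] at this
      omega
    · rfl
  refine ⟨h1, fun i f hf => ?_⟩
  have h2 : ∀ (n : ℕ) f, f ∈ F i → (un m b ^ n).1 f ∈ F i := by
    intro n
    induction n with
    | zero => intro f hf; simpa using hf
    | succ n ih =>
      intro f hf
      rw [pow_succ, Units.val_mul, Module.End.mul_apply]
      apply ih
      simpa using (F i).add_mem (F_mono (Nat.le_add_right i 1) (h1 i f hf)) hf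
  have : (un m b)⁻¹ = un m b ^ (3 ^ m - 1) := by
    rw [inv_eq_iff_mul_eq_one, ← pow_succ', Nat.sub_add_cancel (Nat.one_le_pow _ _ (by norm_num)),
      un_pow]
  rw [this]; exact h2 _ f hf

theorem rho_lcs (m k : ℕ) (g : G) (hg : g ∈ (⊤ : Subgroup G).lowerCentralSeries k) :
    rho m g ∈ U (k + 1) := by
  have h0 : ∀ g, rho m g ∈ U 1 := fun g =>
    PresentedGroup.generated_by _ ((U 1).comap (rho m))
      (fun b => by rw [mem_comap]; exact rho_gen m b ▸ un_mem _ b) g
  induction k generalizing g with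
  | zero => exact h0 g
  | succ k ih =>
    have : (⊤ : Subgroup G).lowerCentralSeries (k + 1) ≤ (U (k + 1 + 1)).comap (rho m) := by
      rw [Subgroup.lowerCentralSeries_succ, commutator_le]
      intro x hx y _
      rw [mem_comap, map_commutatorElement]
      exact U_comm (ih x hx) (h0 y)
    exact this hg

def runs : List Bool → ℕ
  | [] => 0
  | [_] => 1
  | x :: y :: w => runs (y :: w) + if x = y then 0 else 1

theorem runs_le (b c : Bool) (w : List Bool) : runs (b :: w) ≤ runs (c :: w) + 1 := by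
  rcases w with _ | ⟨y, w⟩
  · simp [runs]
  · simp only [runs]; split_ifs <;> omega

theorem runs_drop (b : Bool) (k : ℕ) (w : List Bool) (h : k ≤ lead b w) :
    runs (b :: w.drop k) = runs (b :: w) := by
  induction k generalizing w with
  | zero => rfl
  | succ k ih =>
    obtain ⟨h1, h2⟩ := lead_tail (show 1 ≤ lead b w by omega)
    rw [h2, List.drop_succ_cons, ih _ (by omega)]
    simp [runs]

def M (m : ℕ) (x : Bool × ℤ) : ℕ := (x.2 % (3 ^ ex m x.1 : ℕ)).toNat

def u (m : ℕ) (c : Bool) : List (Bool × ℤ) → List Bool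
  | [] => [c]
  | x :: l => List.replicate (M m x) x.1 ++ u m c l

def dl (c : Bool) : V := fun w => if w = [c] then 1 else 0

theorem lead_rep (b : Bool) (k : ℕ) (w : List Bool) :
    lead b (List.replicate k b ++ w) = k + lead b w := by
  induction k with
  | zero => simp
  | succ k ih => simp [List.replicate_succ, lead, ih]; ring

theorem runs_rep (b : Bool) (k : ℕ) (w : List Bool) :
    runs (b :: (List.replicate k b ++ w)) = runs (b :: w) := by
  induction k with
  | zero => simp
  | succ k ih => simp [List.replicate_succ, runs, ih]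

theorem rho_pow (m : ℕ) (x : Bool × ℤ) (f : V) (w : List Bool) :
    (rho m (gen x.1 ^ x.2)).1 f w = ∑ k ∈ Finset.range (M m x + 1),
      ((M m x).choose k : ZMod 3) * (L (3 ^ ex m x.1) x.1 ^ k) f w := by
  have h1 : un (ex m x.1) x.1 ^ x.2 = un (ex m x.1) x.1 ^ M m x := by
    rw [← zpow_natCast, M, Int.toNat_of_nonneg (Int.emod_nonneg _ (by positivity))]
    exact zpow_eq_zpow_emod' _ (un_pow _ _)
  rw [map_zpow, rho_gen, h1, Units.val_pow_eq_pow_val]
  have : (un (ex m x.1) x.1).1 = L (3 ^ ex m x.1) x.1 + 1 := by simp [un, add_comm]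
  rw [this, (Commute.one_right _).add_pow, LinearMap.sum_apply, Finset.sum_apply]
  refine Finset.sum_congr rfl fun k _ => ?_
  rw [one_pow, mul_one, (Nat.cast_commute _ _).symm.eq, ← nsmul_eq_mul, LinearMap.smul_apply,
    Pi.smul_apply, nsmul_eq_mul]

theorem eval (m : ℕ) (c : Bool) (l : List (Bool × ℤ)) (hl : Red c l)
    (hm : ∀ x ∈ l, 1 ≤ M m x) :
    (∀ w, (rho m (P l)).1 (dl c) w ≠ 0 → runs (hd c l :: w) ≤ l.length + 1) ∧
    (rho m (P l)).1 (dl c) (u m c l) = 1 ∧
    (∃ w, u m c l = hd c l :: w) ∧ runs (u m c l) = l.length + 1 := by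
  induction l with
  | nil =>
    refine ⟨fun w hw => ?_, by simp [P, dl, u], ⟨[], rfl⟩, rfl⟩
    have : w = [c] := by simpa [P, dl] using hw
    simp [this, hd, runs]
  | cons x l ih =>
    obtain ⟨h1, h2, ⟨w0, h3⟩, h4⟩ := ih hl.2.2 fun y hy => hm y (by simp [hy])
    have hP : P (x :: l) = gen x.1 ^ x.2 * P l := by simp [P]
    have hM := hm x (by simp)
    have hM' : M m x < 3 ^ ex m x.1 := by
      have := Int.emod_lt_of_pos x.2 (show (0 : ℤ) < (3 ^ ex m x.1 : ℕ) by positivity)
      rw [M, Int.toNat_lt' (by positivity)]; exact this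
    have hne := hl.1
    have hlead : lead x.1 (u m c l) = 0 := by rw [h3]; simp [lead, hne.symm]
    have hrun : runs (x.1 :: u m c l) = l.length + 2 := by
      rw [h3] at h4 ⊢; simp [runs, hne, h4]
    rw [hP, map_mul, Units.val_mul]
    simp only [Module.End.mul_apply, rho_pow]
    set f := (rho m (P l)).1 (dl c)
    refine ⟨fun w hw => ?_, ?_, ?_, ?_⟩
    · obtain ⟨k, -, hk⟩ := Finset.exists_ne_zero_of_sum_ne_zero hw
      have hk' := right_ne_zero_of_mul hk
      have := runs_le x.1 (hd c l)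
      simp only [hd, List.length_cons]
      rcases k with _ | k
      · have := this w
        have := h1 w hk'
        omega
      · rw [L_pow] at hk'
        split_ifs at hk' with h
        · have := this (w.drop (k + 1))
          have := h1 _ hk'
          rw [← runs_drop x.1 (k + 1) w h.1]
          omega
        · exact absurd rfl hk'
    · rw [Finset.sum_eq_single (M m x)]
      · obtain ⟨k, hk⟩ : ∃ k, M m x = k + 1 := ⟨M m x - 1, by omega⟩
        rw [Nat.choose_self, u]
        nth_rewrite 1 [hk]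
        rw [L_pow, lead_rep, if_pos (by omega), ← hk]
        simp [h2]
      · intro k hk hk'
        have hk2 : k < M m x := by simp at hk; omega
        have z : f (List.replicate (M m x - k) x.1 ++ u m c l) = 0 := by
          by_contra hz
          have := h1 _ hz
          obtain ⟨j, hj⟩ : ∃ j, M m x - k = j + 1 := ⟨M m x - k - 1, by omega⟩
          rw [hj, List.replicate_succ, List.cons_append, runs, runs_rep, hrun] at this
          omega
        rcases k with _ | k
        · simpa [u] using z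
        · rw [L_pow, u]
          split_ifs
          · rw [List.drop_append_of_le_length (by simp; omega), List.drop_replicate, z, mul_zero]
          · simp
      · simp
    · obtain ⟨k, hk⟩ : ∃ k, M m x = k + 1 := ⟨M m x - 1, by omega⟩
      exact ⟨_, by rw [u, hk, List.replicate_succ]; rfl⟩
    · obtain ⟨k, hk⟩ : ∃ k, M m x = k + 1 := ⟨M m x - 1, by omega⟩
      rw [u, hk, List.replicate_succ, List.cons_append, runs_rep, hrun]; rfl

theorem G_resnil (g : G) (hg : g ≠ 1) :
    ∃ (H : Type) (_ : Group H) (φ : G →* H), Group.IsNilpotent H ∧ φ g ≠ 1 := by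
  obtain ⟨k, c, l, hl, rfl⟩ := NF_all g
  rcases l with _ | ⟨x, l⟩
  · have hk : k ≠ 0 := by rintro rfl; simp [P] at hg
    set n := (3 * k).natAbs
    have : NeZero (2 ^ n) := ⟨by positivity⟩
    have : Fact (Nat.Prime 2) := ⟨Nat.prime_two⟩
    refine ⟨DihedralGroup (2 ^ n), inferInstance,
      liftG (DihedralGroup.r 1) (DihedralGroup.sr 0) ?_, ?_, ?_⟩
    · simp only [pow_succ, pow_zero, DihedralGroup.r_mul_r, DihedralGroup.inv_sr,
        DihedralGroup.sr_mul_r, DihedralGroup.sr_mul_sr, DihedralGroup.one_def]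
      congr 1; ring
    · refine IsPGroup.isNilpotent (p := 2) (IsPGroup.of_card (n := n + 1) ?_)
      rw [DihedralGroup.nat_card, pow_succ']
    · simp only [P, List.map_nil, List.prod_nil, mul_one, map_zpow, liftG_a]
      rw [Ne, ← orderOf_dvd_iff_zpow_eq_one, DihedralGroup.orderOf_r_one, Int.natCast_dvd]
      intro h
      have := Nat.le_of_dvd (by omega) h
      have := Nat.lt_two_pow_self (n := n)
      omega
  · set l' := x :: l
    obtain ⟨m, hm⟩ : ∃ m : ℕ, ∀ y ∈ l', y.2.natAbs < 3 ^ m := by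
      refine ⟨(l'.map fun y => y.2.natAbs).sum, fun y hy => ?_⟩
      exact lt_of_le_of_lt (List.single_le_sum (by simp) _
        (List.mem_map_of_mem (f := fun y : Bool × ℤ => y.2.natAbs) hy))
        (Nat.lt_pow_self (show 1 < 3 by norm_num))
    have hok : ∀ l, Red c l → ∀ y ∈ l, Ok y := by
      intro l
      induction l with
      | nil => simp
      | cons z l ih =>
        intro h y hy
        rcases List.mem_cons.1 hy with rfl | hy
        · exact h.2.1
        · exact ih h.2.2 y hy
    have hM : ∀ y ∈ l', 1 ≤ M m y := by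
      intro y hy
      have h1 := hok l' hl y hy
      have h2 := hm y hy
      have h3 := Int.emod_nonneg y.2 (show ((3 ^ ex m y.1 : ℕ) : ℤ) ≠ 0 by positivity)
      have h4 : y.2 % (3 ^ ex m y.1 : ℕ) ≠ 0 := by
        rw [Ne, ← Int.dvd_iff_emod_eq_zero]
        obtain ⟨b, j⟩ := y
        cases b
        · simpa [Ok, ex] using h1
        · simp only [Ok, if_true, ex] at h1 h2 ⊢
          rw [Int.natCast_dvd]
          intro h
          have := Nat.le_of_dvd (by omega) h
          omega
      rw [M]; omega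
    obtain ⟨-, h2, -, h4⟩ := eval m c l' hl hM
    refine exists_nilp_of_not_mem _ (u m c l').length fun h => ?_
    have h5 := (rho_lcs m _ _ h).1 0 (dl c) (fun w hw => by omega) (u m c l') (by omega)
    have h6 : rho m (gen false ^ (3 * k)) = 1 := by
      have := un_pow 1 false
      rw [pow_one] at this
      rw [map_zpow, rho_gen, zpow_mul]
      simp only [ex, Bool.false_eq_true, if_false]
      rw [show (3 : ℤ) = (3 : ℕ) from rfl, zpow_natCast, this, one_zpow]
    rw [map_mul, h6, one_mul, Pi.sub_apply, h2, dl, if_neg] at h5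
    · exact absurd h5 (by decide)
    · intro h7
      rw [h7] at h4
      simp [l', runs] at h4

theorem central_resnil (E : Type) [Group E] (f : E →* G) (hf : Function.Surjective f)
    (hk : f.ker ≤ center E) (g : E) (hg : g ≠ 1) :
    ∃ (H : Type) (_ : Group H) (φ : E →* H), Group.IsNilpotent H ∧ φ g ≠ 1 := by
  by_cases h : f g = 1
  swap
  · obtain ⟨H, _, φ, h1, h2⟩ := G_resnil (f g) h
    exact ⟨H, inferInstance, φ.comp f, h1, h2⟩
  obtain ⟨a, ha⟩ := hf (gen false)
  obtain ⟨t, ht⟩ := hf (gen true)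
  let al : E × Multiplicative ℤ := (t * a ^ 3 * t⁻¹ * a ^ 3, Multiplicative.ofAdd 6)
  have hal : f al.1 = 1 := by simp [al, ha, ht, G_rel]
  have hcen : ∀ x : E × Multiplicative ℤ, f x.1 = 1 → x ∈ center (E × Multiplicative ℤ) := by
    intro x hx
    rw [mem_center_iff]
    intro y
    exact Prod.ext (mem_center_iff.1 (hk hx) _) (mul_comm _ _)
  let N := zpowers al
  have : N.Normal := normal_of_le_center (zpowers_le_of_mem (hcen al hal))
  let mk := QuotientGroup.mk' N
  let s : G →* (E × Multiplicative ℤ) ⧸ N :=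
    liftG (mk (a, Multiplicative.ofAdd 1)) (mk (t, 1)) (by
      rw [← map_pow, ← map_inv, ← map_mul, ← map_mul, ← map_mul]
      apply (QuotientGroup.eq_one_iff _).2
      convert mem_zpowers al using 1
      exact Prod.ext rfl (by simp [al]; rfl))
  let pi : (E × Multiplicative ℤ) ⧸ N →* G := QuotientGroup.lift N (f.comp (MonoidHom.fst _ _))
    (zpowers_le_of_mem hal)
  have hpi : ∀ x, pi (mk x) = f x.1 := fun _ => rfl
  have hs : ∀ x, pi (s x) = x := by
    have : pi.comp s = MonoidHom.id _ := PresentedGroup.ext fun b => by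
      cases b
      · have : s (gen false) = _ := liftG_a _ _ _
        exact (congrArg pi this).trans ((hpi _).trans ha)
      · have : s (gen true) = _ := liftG_t _ _ _
        exact (congrArg pi this).trans ((hpi _).trans ht)
    exact DFunLike.congr_fun this
  have hc : ∀ y, pi y = 1 → y ∈ center _ := by
    intro y hy
    obtain ⟨x, rfl⟩ := QuotientGroup.mk'_surjective N y
    rw [mem_center_iff]
    intro z
    obtain ⟨z, rfl⟩ := QuotientGroup.mk'_surjective N z
    rw [← map_mul, ← map_mul, mem_center_iff.1 (hcen x hy)]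
  have hmem : ∀ e : E, mk (e, 1) * (s (f e))⁻¹ ∈ center _ := fun e =>
    hc _ (by rw [map_mul, map_inv, hpi, hs, mul_inv_cancel])
  let ψ : E →* center ((E × Multiplicative ℤ) ⧸ N) := MonoidHom.mk'
    (fun e => ⟨_, hmem e⟩) (fun x y => Subtype.ext (by
      have h1 := mem_center_iff.1 (hmem y) (s (f x))⁻¹
      have h2 : mk (x * y, 1) = mk (x, 1) * mk (y, 1) := by rw [← map_mul]; simp
      simp only [coe_mul, map_mul, mul_inv_rev, h2]
      rw [mul_assoc (mk (x, 1)) _ (mk (y, 1) * _), h1]
      simp only [mul_assoc]))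
  refine ⟨_, inferInstance, ψ, center_nilp _, fun h1 => hg ?_⟩
  have h2 : mk (g, 1) * (s (f g))⁻¹ = 1 := congrArg Subtype.val h1
  rw [h, map_one, inv_one, mul_one] at h2
  obtain ⟨k, hk'⟩ := mem_zpowers_iff.1 ((QuotientGroup.eq_one_iff _).1 h2)
  have h3 := congrArg (fun x => x.2.toAdd) hk'
  simp [al] at h3
  subst h3
  simpa using (congrArg Prod.fst hk').symm

/-! ### the second extension -/

def rels2 : Set (FreeGroup Bool) := {fc * fa * fc⁻¹ * fa⁻¹, fc * ft * fc⁻¹ * ft⁻¹, fc ^ 3,
  fz * ft * fz⁻¹ * ft⁻¹}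

abbrev E2 : Type := PresentedGroup rels2

abbrev Pt : Type := Fin 3 × Fin 3 × Fin 3 × Fin 3

def pa : Equiv.Perm Pt where
  toFun x := (x.1 + 1, if x.1 = 2 then x.2.1 + 1 else x.2.1, x.2.2.1, x.2.2.2 - x.2.2.1)
  invFun x := (x.1 - 1, if x.1 = 0 then x.2.1 - 1 else x.2.1, x.2.2.1, x.2.2.2 + x.2.2.1)
  left_inv := by decide +kernel
  right_inv := by decide +kernel

def pt : Equiv.Perm Pt where
  toFun x := (x.1, -x.2.1, x.2.2.1 + x.2.1, x.2.2.2)
  invFun x := (x.1, -x.2.1, x.2.2.1 + x.2.1, x.2.2.2)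
  left_inv := by decide +kernel
  right_inv := by decide +kernel

def model : E2 →* Equiv.Perm Pt :=
  PresentedGroup.toGroup (f := fun b => if b then pt else pa) (by
    rintro r (rfl | rfl | rfl | rfl) <;>
    · simp only [fc, fz, fa, ft, map_mul, map_pow, map_inv, FreeGroup.lift_apply_of, if_true,
        Bool.false_eq_true, if_false]
      decide +kernel)

def mk2 : FreeGroup Bool →* E2 := PresentedGroup.mk rels2

theorem c_ne : mk2 fc ≠ 1 := by
  intro h
  have := congrArg model h
  simp only [fc, fz, fa, ft, map_mul, map_pow, map_inv, map_one] at this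
  have e : ∀ b, model (mk2 (FreeGroup.of b)) = if b then pt else pa := fun b =>
    PresentedGroup.toGroup.of _
  simp only [e, if_true, Bool.false_eq_true, if_false] at this
  revert this
  decide +kernel

theorem rel2 {r} (h : r ∈ rels2) : mk2 r = 1 := PresentedGroup.one_of_mem h

theorem ca : Commute (mk2 fc) (mk2 fa) := by
  have := rel2 (r := fc * fa * fc⁻¹ * fa⁻¹) (by simp [rels2])
  rw [← commutatorElement_eq_one_iff_commute]; simpa [commutatorElement_def] using this
theorem ct : Commute (mk2 fc) (mk2 ft) := by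
  have := rel2 (r := fc * ft * fc⁻¹ * ft⁻¹) (by simp [rels2])
  rw [← commutatorElement_eq_one_iff_commute]; simpa [commutatorElement_def] using this
theorem zt : Commute (mk2 fz) (mk2 ft) := by
  have := rel2 (r := fz * ft * fz⁻¹ * ft⁻¹) (by simp [rels2])
  rw [← commutatorElement_eq_one_iff_commute]; simpa [commutatorElement_def] using this
theorem c3 : mk2 fc ^ 3 = 1 := by
  have := rel2 (r := fc ^ 3) (by simp [rels2])
  simpa using this

theorem mem_center_of {H : Type} [Group H] (φ : E2 →* H) (hφ : Function.Surjective φ) (x : H)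
    (h1 : Commute x (φ (mk2 fa))) (h2 : Commute x (φ (mk2 ft))) : x ∈ center H := by
  rw [mem_center_iff]
  intro y
  obtain ⟨y, rfl⟩ := hφ y
  have := PresentedGroup.generated_by _ ((centralizer {x}).comap φ) (fun b => by
    rw [mem_comap, mem_centralizer_singleton_iff]
    cases b
    · exact h1.eq.symm
    · exact h2.eq.symm) y
  rwa [mem_comap, mem_centralizer_singleton_iff] at this

theorem dies (H : Type) [Group H] (φ : E2 →* H) (hH : Group.IsNilpotent H) :
    φ (mk2 fc) = 1 := by
  set A := φ (mk2 fa)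
  set T := φ (mk2 ft)
  set Z := φ (mk2 fz) with hZ
  set C := φ (mk2 fc) with hC
  have eZ : Z = T * A ^ 3 * T⁻¹ * A ^ 3 := by simp [hZ, fz, A, T]
  have eC : C = Z * A * Z⁻¹ * A⁻¹ := by simp [hC, fc, A, Z]
  have hCA : Commute C A := ca.map φ
  have hCT : Commute C T := ct.map φ
  have hZT : Commute Z T := zt.map φ
  have hC3 : C ^ 3 = 1 := by rw [hC, ← map_pow, c3, map_one]
  have hCZ : Commute C Z := by
    rw [eZ]
    exact ((hCT.mul_right (hCA.pow_right 3)).mul_right hCT.inv_right).mul_right (hCA.pow_right 3)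
  have h1 : Z * A * Z⁻¹ = C * A := by rw [eC]; group
  have h2 : Commute Z (A ^ 3) := by
    have : Z * A ^ 3 * Z⁻¹ = A ^ 3 := by rw [← conj_pow, h1, hCA.mul_pow, hC3, one_mul]
    exact mul_inv_eq_iff_eq_mul.1 this
  set B := A ^ 3 with hB
  have h3 : T * B * T⁻¹ = Z * B⁻¹ := by rw [eZ]; group
  have h4 : T * (B * B * Z⁻¹) * T⁻¹ = (B * B * Z⁻¹)⁻¹ := by
    have e1 : T * (B * B * Z⁻¹) * T⁻¹ = (T * B * T⁻¹) * (T * B * T⁻¹) * (T * Z⁻¹ * T⁻¹) := by group
    have e2 : T * Z⁻¹ * T⁻¹ = Z⁻¹ := by rw [← hZT.inv_left.eq]; group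
    rw [e1, e2, h3, mul_assoc (Z * B⁻¹), mul_assoc Z B⁻¹ Z⁻¹, ← h2.inv_inv.eq]
    group
  have h5 : A * (B * B * Z⁻¹) * A⁻¹ = C * (B * B * Z⁻¹) := by
    have e1 : A * (B * B * Z⁻¹) * A⁻¹ = B * B * (A * Z⁻¹ * A⁻¹) := by rw [hB]; group
    have e2 : A * Z⁻¹ * A⁻¹ = Z⁻¹ * C := by rw [eC]; group
    have e3 : Commute C (B * B * Z⁻¹) :=
      ((hCA.pow_right 3).mul_right (hCA.pow_right 3)).mul_right hCZ.inv_right
    rw [e1, e2, e3.eq]; group
  obtain ⟨k, hk⟩ := Subgroup.nilpotent_iff_lowerCentralSeries.1 hH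
  have h6 := inv_pow_mem _ _ h4 k
  rw [hk, mem_bot] at h6
  have e3 : Commute C (B * B * Z⁻¹) :=
    ((hCA.pow_right 3).mul_right (hCA.pow_right 3)).mul_right hCZ.inv_right
  have h7 : C ^ 2 ^ k = 1 := by
    have := congrArg (· ^ 2 ^ k) h5
    simp only [conj_pow, h6, e3.mul_pow] at this
    simpa using this.symm
  have := pow_gcd_eq_one.2 ⟨h7, hC3⟩
  rwa [Nat.Coprime.gcd_eq_one (Nat.Coprime.pow_left k (by norm_num)), pow_one] at this

theorem second : ∃ (E₁ : Type) (_ : Group E₁) (f₁ : E₁ →* G)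
    (E₂ : Type) (_ : Group E₂) (f₂ : E₂ →* E₁),
    Function.Surjective f₁ ∧ f₁.ker ≤ Subgroup.center E₁ ∧
    Function.Surjective f₂ ∧ f₂.ker ≤ Subgroup.center E₂ ∧
    ∃ g : E₂, g ≠ 1 ∧
      ∀ (H : Type) (_ : Group H) (φ : E₂ →* H), Group.IsNilpotent H → φ g = 1 := by
  have hc : mk2 fc ∈ center E2 :=
    mem_center_of (MonoidHom.id _) Function.surjective_id _ ca ct
  let C := zpowers (mk2 fc)
  have : C.Normal := normal_of_le_center (zpowers_le_of_mem hc)
  let q := QuotientGroup.mk' C
  have hz0 : FreeGroup.lift gen fz = 1 := by simpa [fz, fa, ft] using G_rel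
  have hc0 : FreeGroup.lift gen fc = 1 := by simp [fc, hz0]
  let pi : E2 →* G := PresentedGroup.toGroup (f := gen) (by
    rintro r (rfl | rfl | rfl | rfl) <;> simp [hz0, hc0])
  have hpi : ∀ b, pi (mk2 (FreeGroup.of b)) = gen b := fun b => PresentedGroup.toGroup.of _
  have hpi' : ∀ w, pi (mk2 w) = FreeGroup.lift gen w := by
    have : pi.comp mk2 = FreeGroup.lift gen := FreeGroup.ext_hom _ _ fun b => by simp [hpi]
    exact DFunLike.congr_fun this
  let f1 : E2 ⧸ C →* G := QuotientGroup.lift C pi (zpowers_le_of_mem (by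
    rw [MonoidHom.mem_ker, hpi', hc0]))
  have hf1 : ∀ x, f1 (q x) = pi x := fun _ => rfl
  have hz : q (mk2 fz) ∈ center (E2 ⧸ C) := by
    refine mem_center_of q (QuotientGroup.mk'_surjective C) _ ?_ (zt.map q)
    have : q (mk2 fc) = 1 := (QuotientGroup.eq_one_iff _).2 (mem_zpowers _)
    rw [← commutatorElement_eq_one_iff_commute]
    simpa [fc, commutatorElement_def] using this
  let Zb := zpowers (q (mk2 fz))
  have : Zb.Normal := normal_of_le_center (zpowers_le_of_mem hz)
  let q' := QuotientGroup.mk' Zb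
  let s : G →* (E2 ⧸ C) ⧸ Zb := liftG (q' (q (mk2 fa))) (q' (q (mk2 ft))) (by
    have : q' (q (mk2 fz)) = 1 := (QuotientGroup.eq_one_iff _).2 (mem_zpowers _)
    simpa [fz] using this)
  have hs : ∀ x, s (pi x) = q' (q x) := by
    have : s.comp pi = q'.comp q := PresentedGroup.ext fun b => by
      have := hpi b
      cases b
      · exact (congrArg s this).trans (liftG_a _ _ _)
      · exact (congrArg s this).trans (liftG_t _ _ _)
    exact DFunLike.congr_fun this
  refine ⟨E2 ⧸ C, inferInstance, f1, E2, inferInstance, q, ?_, ?_,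
    QuotientGroup.mk'_surjective C, ?_, mk2 fc, c_ne, fun H _ φ hH => dies H φ hH⟩
  · intro g
    obtain ⟨w, rfl⟩ := PresentedGroup.mk_surjective _ g
    refine ⟨q (mk2 w), ?_⟩
    rw [hf1, hpi']
    have : FreeGroup.lift gen = PresentedGroup.mk {fz} := FreeGroup.ext_hom _ _ fun b => by
      simp only [FreeGroup.lift_apply_of]; rfl
    rw [this]
  · intro x hx
    obtain ⟨x, rfl⟩ := QuotientGroup.mk'_surjective C x
    have := hs x
    rw [MonoidHom.mem_ker] at hx
    rw [← hf1, hx, map_one] at this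
    exact zpowers_le_of_mem hz ((QuotientGroup.eq_one_iff _).1 this.symm)
  · rw [QuotientGroup.ker_mk']
    exact zpowers_le_of_mem hc

end Pool.Agent.H72.CentExt
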