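import Pool.Agent.H69.SchDefs

set_option autoImplicit false

namespace Pool.Agent.H72.Comb

open Pool.Agent.H69.Sch

/-- There is a finite subset `N` of `L` containing, for every `g` in `L`, all restrictions
`g|_v` at sufficiently long words `v`. -/
def Contracting {X : Type} (L : Subgroup (Equiv.Perm (List X))) : Prop :=
  ∃ N : Set (Equiv.Perm (List X)), N.Finite ∧ N ⊆ L ∧
    ∀ g ∈ L, ∃ n : ℕ, ∀ v : List X, n < v.length → ∃ h ∈ N, ∀ w, g (v ++ w) = g v ++ h w

/-- `L` is transitive on every level of the tree. -/
def LevelTrans {X : Type} (L : Subgroup (Equiv.Perm (List X))) : Prop :=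
  ∀ v w : List X, v.length = w.length → ∃ g ∈ L, g v = w

/-- The degree of growth `limsup log γ(n) / log n` of the Schreier graph of the orbit of `ξ`. -/
noncomputable def degree {X : Type} (S : Set (Equiv.Perm (List X))) (ξ : ℕ → X) : EReal :=
  Filter.limsup (fun n : ℕ => ((Real.log (ball S ξ n).ncard / Real.log n : ℝ) : EReal))
    Filter.atTop

/-- The real degrees of growth of boundary Schreier graphs of finitely generated contracting
self-similar groups; if `lt` holds, only level-transitive actions on alphabets with at least two
letters are allowed. -/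
def degs (lt : Prop) : Set ℝ :=
  {α | ∃ (X : Type) (_ : Fintype X) (L : Subgroup (Equiv.Perm (List X)))
    (S : Finset (Equiv.Perm (List X))) (ξ : ℕ → X),
      SelfSimilar L ∧ Subgroup.closure (S : Set (Equiv.Perm (List X))) = L ∧ Contracting L ∧
      (lt → Nontrivial X ∧ LevelTrans L) ∧
      degree (S : Set (Equiv.Perm (List X))) ξ = (α : EReal)}

end Pool.Agent.H72.Comb
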