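import Pool.Agent.H69.Sch1
import Pool.Agent.H72.CombDefs

set_option autoImplicit false

namespace Pool.Agent.H72.Comb

open Pool.Agent.H69.Sch SimpleGraph
open scoped Pointwise

section gen
variable {X : Type} [DecidableEq X]

def hf (f : X) (σ : X → X) : List X → List X
  | [] => []
  | x :: w => if x = f then f :: hf f σ w else σ x :: w

theorem hf_comp (f : X) (σ τ : X → X) (hτ : ∀ x, τ x = f → x = f) :
    ∀ w, hf f σ (hf f τ w) = hf f (σ ∘ τ) w
  | [] => rfl
  | x :: w => by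
    by_cases h : x = f
    · simp [hf, h, hf_comp f σ τ hτ w]
    · have h' : τ x ≠ f := fun e => h (hτ x e)
      simp [hf, h, h']

theorem hf_id (f : X) : ∀ w, hf f id w = w
  | [] => rfl
  | x :: w => by
    by_cases h : x = f
    · simp [hf, h, hf_id f w]
    · simp [hf, h]

def hg (f : X) (σ : Equiv.Perm X) (h : σ f = f) : Equiv.Perm (List X) where
  toFun := hf f σ
  invFun := hf f σ.symm
  left_inv w := by
    rw [hf_comp f _ _ (fun x e => σ.injective (e.trans h.symm)), Equiv.symm_comp_self, hf_id]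
  right_inv w := by
    rw [hf_comp f _ _ (fun x e => by rw [← h, ← e]; simp), Equiv.self_comp_symm, hf_id]

variable (c : X → X → ℕ)

def SS : Set (Equiv.Perm (List X)) :=
  {g | ∃ (f : X) (σ : Equiv.Perm X), (∀ x, c f (σ x) = c f x) ∧ ⇑g = hf f σ}

variable {c}

theorem fix (hc : ∀ f x, c f x = c f f → x = f) {f : X} {σ : Equiv.Perm X}
    (h : ∀ x, c f (σ x) = c f x) : σ f = f := hc f _ (h f)

theorem fix' (hc : ∀ f x, c f x = c f f → x = f) {f : X} {σ : Equiv.Perm X}
    (h : ∀ x, c f (σ x) = c f x) (x : X) (e : σ x = f) : x = f :=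
  σ.injective (e.trans (fix hc h).symm)

theorem SS_fin [Finite X] : (SS c).Finite := by
  have : (SS c) ⊆ DFunLike.coe ⁻¹' (Set.range (fun p : X × Equiv.Perm X => hf p.1 p.2)) := by
    rintro g ⟨f, σ, -, h⟩
    exact ⟨(f, σ), h.symm⟩
  exact ((Set.finite_range _).preimage (DFunLike.coe_injective.injOn)).subset this

theorem one_SS [Nonempty X] : (1 : Equiv.Perm (List X)) ∈ SS c :=
  ⟨Classical.arbitrary X, 1, fun _ => rfl, funext (fun w => (hf_id _ w).symm)⟩

theorem inv_SS (hc : ∀ f x, c f x = c f f → x = f) {g : Equiv.Perm (List X)} (h : g ∈ SS c) :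
    g⁻¹ ∈ SS c := by
  obtain ⟨f, σ, h1, h2⟩ := h
  have : g = hg f σ (fix hc h1) := DFunLike.coe_injective h2
  subst this
  exact ⟨f, σ⁻¹, fun x => by rw [← h1 (σ⁻¹ x)]; simp, rfl⟩

theorem sec2 [Nonempty X] (hc : ∀ f x, c f x = c f f → x = f) {g g' : Equiv.Perm (List X)}
    (h : g ∈ SS c) (h' : g' ∈ SS c) (x : X) :
    ∃ k ∈ SS c, ∃ y, ∀ w, (g * g') (x :: w) = y :: k w := by
  obtain ⟨f, σ, h1, h2⟩ := h
  obtain ⟨f', σ', h1', h2'⟩ := h'
  by_cases e : x = f'
  · by_cases e' : f' = f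
    · subst e e'
      refine ⟨g * g', ⟨x, σ * σ', fun y => by rw [Equiv.Perm.mul_apply, h1, h1'], ?_⟩, x,
        fun w => ?_⟩
      · funext w
        rw [Equiv.Perm.mul_apply, h2, h2', hf_comp _ _ _ (fix' hc h1')]; rfl
      · simp [Equiv.Perm.mul_apply, h2, h2', hf]
    · exact ⟨g', ⟨f', σ', h1', h2'⟩, σ f', fun w => by
        simp [Equiv.Perm.mul_apply, h2, h2', hf, e, e']⟩
  · by_cases e' : σ' x = f
    · exact ⟨g, ⟨f, σ, h1, h2⟩, f, fun w => by simp [Equiv.Perm.mul_apply, h2, h2', hf, e, e']⟩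
    · exact ⟨1, one_SS, σ (σ' x), fun w => by simp [Equiv.Perm.mul_apply, h2, h2', hf, e, e']⟩

theorem sec_pow [Nonempty X] (hc : ∀ f x, c f x = c f f → x = f) (n : ℕ) :
    ∀ g ∈ SS c ^ (2 * n), ∀ x, ∃ k ∈ SS c ^ n, ∃ y, ∀ w, g (x :: w) = y :: k w := by
  induction n with
  | zero =>
    intro g hg x
    obtain rfl : g = 1 := by simpa using hg
    exact ⟨1, by simp, x, fun _ => rfl⟩
  | succ n ih =>
    intro g hg x
    rw [show 2 * (n + 1) = 2 + 2 * n by ring, pow_add, pow_two] at hg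
    obtain ⟨_, ⟨a, ha, b, hb, rfl⟩, g', hg', rfl⟩ := hg
    obtain ⟨k, hk, y, e⟩ := ih g' hg' x
    obtain ⟨k', hk', y', e'⟩ := sec2 hc ha hb y
    refine ⟨k' * k, by rw [pow_succ']; exact Set.mul_mem_mul hk' hk, y', fun w => ?_⟩
    show (a * b) (g' (x :: w)) = _
    rw [e, e']; rfl

theorem nil_SS {g : Equiv.Perm (List X)} (h : g ∈ SS c) : g [] = [] := by
  obtain ⟨f, σ, -, h2⟩ := h
  rw [h2]; rfl

theorem sec_deep [Nonempty X] (hc : ∀ f x, c f x = c f f → x = f) (v : List X) :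
    ∀ k ≤ v.length, ∀ g ∈ SS c ^ (2 ^ k), ∃ h ∈ SS c, ∀ w, g (v ++ w) = g v ++ h w := by
  induction v with
  | nil =>
    intro k hk g hg
    obtain rfl : k = 0 := by simpa using hk
    have hg' : g ∈ SS c := by simpa using hg
    exact ⟨g, hg', fun w => by rw [nil_SS hg']; rfl⟩
  | cons x v ih =>
    intro k hk g hg
    have : g ∈ SS c ^ (2 * 2 ^ (k - 1)) := by
      refine Set.pow_subset_pow_right one_SS ?_ hg
      rw [← pow_succ']
      exact Nat.pow_le_pow_right (by norm_num) (by omega)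
    obtain ⟨g', hg', y, e⟩ := sec_pow hc _ g this x
    obtain ⟨h, a1, a2⟩ := ih (k - 1) (by simp at hk; omega) g' hg'
    exact ⟨h, a1, fun w => by rw [List.cons_append, e, e, a2]; rfl⟩

theorem mem_pow [Nonempty X] (hc : ∀ f x, c f x = c f f → x = f) {g : Equiv.Perm (List X)}
    (hg : g ∈ Subgroup.closure (SS c)) : ∃ n, g ∈ SS c ^ n := by
  induction hg using Subgroup.closure_induction'' with
  | mem s hs => exact ⟨1, by simpa using hs⟩
  | inv_mem s hs => exact ⟨1, by simpa using inv_SS hc hs⟩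
  | one => exact ⟨0, by simp⟩
  | mul g g' _ _ ih ih' =>
    obtain ⟨n, h⟩ := ih
    obtain ⟨n', h'⟩ := ih'
    exact ⟨n + n', by rw [pow_add]; exact Set.mul_mem_mul h h'⟩

theorem pow_sub (n : ℕ) : SS c ^ n ⊆ Subgroup.closure (SS c) := by
  induction n with
  | zero => intro g hg; obtain rfl : g = 1 := by simpa using hg
            exact one_mem _
  | succ n ih =>
    rw [pow_succ]
    rintro _ ⟨a, ha, b, hb, rfl⟩
    exact mul_mem (ih ha) (Subgroup.subset_closure hb)

theorem contr [Nonempty X] [Finite X] (hc : ∀ f x, c f x = c f f → x = f) :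
    Contracting (Subgroup.closure (SS c)) := by
  refine ⟨SS c, SS_fin, Subgroup.subset_closure, fun g hg => ?_⟩
  obtain ⟨n, h⟩ := mem_pow hc hg
  exact ⟨n, fun v hv => sec_deep hc v n hv.le g
    (Set.pow_subset_pow_right one_SS Nat.lt_two_pow_self.le h)⟩

theorem selfsim [Nonempty X] (hc : ∀ f x, c f x = c f f → x = f) :
    SelfSimilar (Subgroup.closure (SS c)) := by
  have h0 : ∀ g ∈ Subgroup.closure (SS c), g [] = [] := by
    intro g hg
    induction hg using Subgroup.closure_induction'' with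
    | mem s hs => exact nil_SS hs
    | inv_mem s hs => exact nil_SS (inv_SS hc hs)
    | one => rfl
    | mul g g' _ _ ih ih' => rw [Equiv.Perm.mul_apply, ih', ih]
  have h1 : ∀ g ∈ Subgroup.closure (SS c), ∀ x, ∃ h ∈ Subgroup.closure (SS c), ∃ y, ∀ w,
      g (x :: w) = y :: h w := by
    intro g hg x
    obtain ⟨n, h⟩ := mem_pow hc hg
    obtain ⟨k, a1, a2⟩ := sec_pow hc n g (Set.pow_subset_pow_right one_SS (by omega) h) x
    exact ⟨k, pow_sub n a1, a2⟩
  refine ⟨fun g hg => ⟨h0 g hg, fun w x => ?_⟩, h1⟩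
  induction w generalizing g with
  | nil =>
    obtain ⟨h, a1, y, a2⟩ := h1 g hg x
    exact ⟨y, by rw [List.nil_append, a2, h0 g hg, h0 h a1]; rfl⟩
  | cons z w ih =>
    obtain ⟨h, a1, y, a2⟩ := h1 g hg z
    obtain ⟨y', a3⟩ := ih h a1
    exact ⟨y', by rw [List.cons_append, a2, a2, a3]; rfl⟩

theorem maps_hf (f : X) (σ : X → X) (j : ℕ) : ∀ ξ : ℕ → X, (∀ i < j, ξ i = f) → ξ j ≠ f →
    ∀ n, hf f σ (pre ξ n) = pre (Function.update ξ j (σ (ξ j))) n := by
  induction j with
  | zero =>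
    intro ξ _ h n
    cases n with
    | zero => rfl
    | succ n => rw [pre_succ, pre_succ]; simp [hf, h]
  | succ j ih =>
    intro ξ h h' n
    cases n with
    | zero => rfl
    | succ n =>
      rw [pre_succ, pre_succ]
      have h0 := h 0 (Nat.succ_pos _)
      simp only [hf, h0, if_true]
      rw [ih (fun k => ξ (k + 1)) (fun i hi => h _ (Nat.succ_lt_succ hi)) h' n]
      congr 1
      · rw [Function.update_of_ne (by omega), h0]
      · congr 1
        funext k
        simp [Function.update_apply]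

theorem maps_hf' (f : X) (σ : X → X) (n : ℕ) : ∀ ξ : ℕ → X, (∀ i, ξ i = f) →
    hf f σ (pre ξ n) = pre ξ n := by
  induction n with
  | zero => intro _ _; rfl
  | succ n ih =>
    intro ξ h
    rw [pre_succ]
    simp only [hf, h 0, if_true]
    rw [ih _ (fun i => h _)]

/-- An elementary move at position `j` with colour `f`. -/
def St (c : X → X → ℕ) (j : ℕ) (f : X) (ξ η : ℕ → X) : Prop :=
  (∀ i < j, ξ i = f) ∧ ξ j ≠ f ∧ η j ≠ f ∧ η j ≠ ξ j ∧ c f (η j) = c f (ξ j) ∧
    ∀ i, i ≠ j → η i = ξ i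

theorem St.symm {j : ℕ} {f : X} {ξ η : ℕ → X} (h : St c j f ξ η) : St c j f η ξ :=
  ⟨fun i hi => (h.2.2.2.2.2 i hi.ne).trans (h.1 i hi), h.2.2.1, h.2.1, h.2.2.2.1.symm,
    h.2.2.2.2.1.symm, fun i hi => (h.2.2.2.2.2 i hi).symm⟩

theorem maps_st (hc : ∀ f x, c f x = c f f → x = f) {s : Equiv.Perm (List X)} (hs : s ∈ SS c)
    {ξ η : ℕ → X} (h : Maps s ξ η) (hne : ξ ≠ η) : ∃ j f, St c j f ξ η := by
  classical
  obtain ⟨f, σ, h1, h2⟩ := hs
  by_cases he : ∃ j, ξ j ≠ f
  · have a1 := Nat.find_spec he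
    have a2 : ∀ i < Nat.find he, ξ i = f := fun i hi => not_not.1 (Nat.find_min he hi)
    have a3 : η = Function.update ξ (Nat.find he) (σ (ξ (Nat.find he))) :=
      h.uniq (fun n => by rw [h2]; exact maps_hf f σ _ ξ a2 a1 n)
    refine ⟨Nat.find he, f, a2, a1, ?_, ?_, ?_, fun i hi => ?_⟩
    · rw [a3, Function.update_self]; exact fun e => a1 (fix' hc h1 _ e)
    · intro e
      apply hne
      rw [a3, Function.update_self] at e
      rw [a3, e, Function.update_eq_self]
    · rw [a3, Function.update_self, h1]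
    · rw [a3, Function.update_of_ne hi]
  · push Not at he
    exact (hne (Maps.uniq (fun n => by rw [h2]; exact maps_hf' f σ n ξ he) h)).elim

theorem adj_st (hc : ∀ f x, c f x = c f f → x = f) {ξ η : ℕ → X}
    (h : (schreier (SS c)).Adj ξ η) : ∃ j f, St c j f ξ η := by
  obtain ⟨hne, ⟨s, h2, h3⟩ | ⟨s, h2, h3⟩⟩ := (fromRel_adj _ _ _).1 h
  · exact maps_st hc h2 h3 hne
  · obtain ⟨j, f, h⟩ := maps_st hc h2 h3 hne.symm
    exact ⟨j, f, h.symm⟩

/-- distance at most `n` -/
def R (c : X → X → ℕ) (n : ℕ) (ξ η : ℕ → X) : Prop := (schreier (SS c)).edist ξ η ≤ n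

theorem R.refl (n : ℕ) (ξ : ℕ → X) : R c n ξ ξ := by simp [R]

theorem R.symm {n : ℕ} {ξ η : ℕ → X} (h : R c n ξ η) : R c n η ξ := by
  rw [R, edist_comm]; exact h

theorem R.trans {n m : ℕ} {ξ η ζ : ℕ → X} (h : R c n ξ η) (h' : R c m η ζ) :
    R c (n + m) ξ ζ := by
  unfold R at *
  push_cast
  exact (schreier _).edist_triangle.trans (add_le_add h h')

theorem R.mono {n m : ℕ} {ξ η : ℕ → X} (h : R c n ξ η) (h' : n ≤ m) : R c m ξ η :=
  le_trans h (Nat.cast_le.2 h')

def setp (k : ℕ) (f : X) (η : ℕ → X) : ℕ → X := fun i => if i < k then f else η i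

def W (k : ℕ) (f a : X) (η : ℕ → X) : ℕ → X := setp k f (Function.update η k a)

theorem setp_succ (k : ℕ) (f : X) (η : ℕ → X) : setp (k + 1) f η = W k f f η := by
  funext i
  simp only [W, setp, Function.update_apply]
  split_ifs <;> first | rfl | omega

theorem W_self (k : ℕ) (f : X) (η : ℕ → X) : W k f (η k) η = setp k f η := by
  simp [W]

theorem step (hc : ∀ f x, c f x = c f f → x = f) (k : ℕ) (f a b : X) (η : ℕ → X)
    (h : c f a = c f b) : R c 1 (W k f a η) (W k f b η) := by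
  by_cases e : a = b
  · rw [e]; exact R.refl _ _
  have ha : a ≠ f := fun e' => e (by rw [e'] at h ⊢; exact (hc f b h.symm).symm)
  have hs : ∀ x, c f (Equiv.swap a b x) = c f x := by
    intro x
    rw [Equiv.swap_apply_def]
    split_ifs with h1 h2
    · rw [h1, h]
    · rw [h2, h]
    · rfl
  have w1 : W k f a η k = a := by simp [W, setp]
  unfold R
  rw [Nat.cast_one, edist_le_one_iff_adj_or_eq, or_iff_not_imp_right]
  intro hne
  refine (fromRel_adj _ _ _).2 ⟨hne, Or.inl ⟨hg f _ (fix hc hs), ⟨f, _, hs, rfl⟩, fun n => ?_⟩⟩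
  refine (maps_hf f _ k _ (fun i hi => by simp [W, setp, hi]) (by rw [w1]; exact ha) n).trans ?_
  congr 1
  funext i
  rw [w1]
  simp only [W, setp, Function.update_apply, Equiv.swap_apply_left]
  split_ifs <;> first | rfl | omega

theorem box_card [Fintype X] (T : ℕ → Finset X) (ξ : ℕ → X) (n : ℕ) :
    {η : ℕ → X | (∀ i < n, η i ∈ T i) ∧ ∀ i, n ≤ i → η i = ξ i}.Finite ∧
    {η : ℕ → X | (∀ i < n, η i ∈ T i) ∧ ∀ i, n ≤ i → η i = ξ i}.ncard =
      ∏ i ∈ Finset.range n, (T i).card := by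
  let f : (Fin n → X) → ℕ → X := fun v k => if h : k < n then v ⟨k, h⟩ else ξ k
  have hf : Function.Injective f := by
    intro v v' h
    funext k
    simpa [f] using congrFun h k
  have e : {η : ℕ → X | (∀ i < n, η i ∈ T i) ∧ ∀ i, n ≤ i → η i = ξ i} =
      f '' (Fintype.piFinset (fun k : Fin n => T k)) := by
    ext η
    constructor
    · rintro ⟨h1, h2⟩
      refine ⟨fun k => η k, ?_, funext (fun k => ?_)⟩
      · simp only [Finset.mem_coe, Fintype.mem_piFinset]
        exact fun k => h1 k k.2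
      · simp only [f]
        split_ifs with h
        · rfl
        · exact (h2 k (not_lt.1 h)).symm
    · rintro ⟨v, h1, rfl⟩
      simp only [Finset.mem_coe, Fintype.mem_piFinset] at h1
      refine ⟨fun k hk => ?_, fun k hk => ?_⟩
      · simp only [f, dif_pos hk]
        exact h1 ⟨k, hk⟩
      · simp only [f, dif_neg (not_lt.2 hk)]
  rw [e, Set.ncard_image_of_injective _ hf, Set.ncard_coe_finset, Fintype.card_piFinset]
  exact ⟨(Finset.finite_toSet _).image _, Fin.prod_univ_eq_prod_range (fun k => (T k).card) n⟩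

theorem ball_ind (hc : ∀ f x, c f x = c f f → x = f) (ξ : ℕ → X) (P : ℕ → (ℕ → X) → Prop)
    (h0 : ∀ n, P n ξ) (r : ℕ)
    (h1 : ∀ n < r, ∀ j f η η', P n η → St c j f η η' → P (n + 1) η') :
    ∀ η ∈ ball (SS c) ξ r, P r η := by
  induction r with
  | zero => intro η hη; rw [ball_zero _ _ hη]; exact h0 0
  | succ r ih =>
    intro η hη
    rcases ball_succ _ _ hη with rfl | ⟨u, a1, a2⟩
    · exact h0 _
    obtain ⟨j, f, h⟩ := adj_st hc a2
    exact h1 r (Nat.lt_succ_self r) j f u η (ih (fun n hn => h1 n (by omega)) u a1) h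

theorem levelTrans [Nonempty X] (hc : ∀ f x, c f x = c f f → x = f) (p : X)
    (h : ∀ k, ∃ n, ∀ η, R c n η (setp k p η)) : LevelTrans (Subgroup.closure (SS c)) := by
  intro v w e
  obtain ⟨n, hn⟩ := h v.length
  have a : ∀ u : List X, pre (fun i => u.getD i p) u.length = u := by
    intro u
    apply List.ext_getElem
    · simp [pre]
    · intro i h1 h2
      simp [pre, List.getD_eq_getElem?_getD, List.getElem?_eq_getElem h2]
  have b : setp v.length p (fun i => v.getD i p) = setp v.length p (fun i => w.getD i p) := by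
    funext i
    simp only [setp]
    split_ifs with hi
    · rfl
    · rw [List.getD_eq_default _ _ (by omega), List.getD_eq_default _ _ (by omega)]
  have h1 := hn (fun i => v.getD i p)
  rw [b] at h1
  obtain ⟨g, a1, a2⟩ := orb_of _ _ (selfsim hc).1 (n + n) (h1.trans (hn _).symm)
  refine ⟨g, a1, ?_⟩
  have := a2 v.length
  rwa [a v, e, a w] at this

end gen

end Pool.Agent.H72.Comb
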