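import Pool.Agent.H72.CombA

set_option autoImplicit false
set_option linter.unusedVariables false

namespace Pool.Agent.H72.Comb

open Pool.Agent.H69.Sch SimpleGraph

def cN (D m f a : ℕ) : ℕ :=
  if f = 0 then (if a < D then (if a = 1 then D else a) else D + (a - D + 1) / 2)
  else if f = D + 2 * m then (if a < D then a else D + (a - D) / 2)
  else if f = 1 ∧ 2 ≤ D then (if a = 1 then 1 else if a ≤ D then 0 else a)
  else a

variable (D m : ℕ)

def cc (f a : Fin (D + 2 * m + 1)) : ℕ := cN D m f a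

def le (a : ℕ) : Fin (D + 2 * m + 1) := ⟨min a (D + 2 * m), by omega⟩

def qq : ℕ := if D = 0 then 0 else 1

variable {D m}

theorem cN0 (a : ℕ) :
    cN D m 0 a = if a < D then (if a = 1 then D else a) else D + (a - D + 1) / 2 := by
  simp [cN]

theorem cNs (hm : 2 ≤ m) (a : ℕ) :
    cN D m (D + 2 * m) a = if a < D then a else D + (a - D) / 2 := by
  unfold cN
  rw [if_neg (by omega), if_pos rfl]

theorem cN1 (hD : 2 ≤ D) (a : ℕ) :
    cN D m 1 a = if a = 1 then 1 else if a ≤ D then 0 else a := by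
  unfold cN
  rw [if_neg (by omega), if_neg (by omega), if_pos ⟨rfl, hD⟩]

theorem le_val (a : ℕ) : (le D m a : ℕ) = min a (D + 2 * m) := rfl

theorem le_self (a : Fin (D + 2 * m + 1)) : le D m a = a :=
  Fin.ext (by rw [le_val]; omega)

theorem hcc (hD : D = 0 ∨ 2 ≤ D) (hm : 2 ≤ m) (f x : Fin (D + 2 * m + 1))
    (h : cc D m f x = cc D m f f) : x = f := by
  apply Fin.ext
  have := f.2
  have := x.2
  unfold cc cN at h
  split_ifs at h <;> omega

theorem stp (hD : D = 0 ∨ 2 ≤ D) (hm : 2 ≤ m) (k f a b : ℕ) (η : ℕ → Fin (D + 2 * m + 1))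
    (hf : f ≤ D + 2 * m) (ha : a ≤ D + 2 * m) (hb : b ≤ D + 2 * m)
    (h : cN D m f a = cN D m f b) :
    R (cc D m) 1 (W k (le D m f) (le D m a) η) (W k (le D m f) (le D m b) η) :=
  step (hcc hD hm) k _ _ _ η (by
    unfold cc
    rw [le_val, le_val, le_val, min_eq_left hf, min_eq_left ha, min_eq_left hb, h])

theorem s1 (hD : D = 0 ∨ 2 ≤ D) (hm : 2 ≤ m) (k a : ℕ) (η : ℕ → Fin (D + 2 * m + 1))
    (ha : a ≤ D) (ha' : a ≠ 1) :
    R (cc D m) 1 (W k (le D m (qq D)) (le D m a) η) (W k (le D m (qq D)) (le D m 0) η) :=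
  stp hD hm k _ _ _ η (by unfold qq; split_ifs <;> omega) (by omega) (by omega) (by
    rcases hD with h | h
    · rw [show a = 0 by omega]
    · rw [qq, if_neg (by omega), cN1 h, cN1 h, if_neg ha', if_pos ha]; simp)

theorem s2 (hD : D = 0 ∨ 2 ≤ D) (hm : 2 ≤ m) (k : ℕ) (η : ℕ → Fin (D + 2 * m + 1)) :
    R (cc D m) 1 (W k (le D m 0) (le D m (qq D)) η) (W k (le D m 0) (le D m D) η) :=
  stp hD hm k _ _ _ η (by omega) (by unfold qq; split_ifs <;> omega) (by omega)
    (by unfold cN qq; split_ifs <;> omega)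

theorem lA (hD : D = 0 ∨ 2 ≤ D) (hm : 2 ≤ m) (k : ℕ) : ∀ n, 3 ^ k ≤ n + 1 →
    ∀ η, R (cc D m) n (setp k (le D m 0) η) (setp k (le D m (qq D)) η) := by
  induction k with
  | zero => intro n _ η; exact R.refl _ _
  | succ k ih =>
    intro n hn η
    obtain ⟨a, ha⟩ := Nat.exists_eq_add_of_le' (Nat.one_le_pow k 3 (by norm_num))
    have h := fun b => ih a ha.le (Function.update η k b)
    rw [setp_succ, setp_succ]
    refine (((((h _).trans (s1 hD hm k D η le_rfl (by omega)).symm).trans (h _).symm).trans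
      (s2 hD hm k η).symm).trans (h _)).mono ?_
    rw [pow_succ] at hn
    omega

theorem lB (hD : D = 0 ∨ 2 ≤ D) (hm : 2 ≤ m) (k : ℕ) : ∀ n, 2 * (2 * m + 1) ^ k ≤ n + 1 + 3 ^ k →
    ∀ η, R (cc D m) n (setp k (le D m 0) η) (setp k (le D m (D + 2 * m)) η) ∧
      R (cc D m) n (setp k (le D m (qq D)) η) (setp k (le D m (D + 2 * m)) η) := by
  induction k with
  | zero => intro n _ η; exact ⟨R.refl _ _, R.refl _ _⟩
  | succ k ih =>
    intro n hn η
    obtain ⟨a, ha⟩ := Nat.exists_eq_add_of_le' (Nat.one_le_pow k 3 (by norm_num))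
    have h3 : 3 ^ k ≤ (2 * m + 1) ^ k := Nat.pow_le_pow_left (by omega) k
    obtain ⟨b, hb⟩ : ∃ b, 2 * (2 * m + 1) ^ k = b + 1 + 3 ^ k :=
      ⟨2 * (2 * m + 1) ^ k - 1 - 3 ^ k, by omega⟩
    have h := fun x => lA hD hm k a ha.le (Function.update η k x)
    have h' := fun x => ih b hb.le (Function.update η k x)
    have tooth : ∀ i ≤ m, R (cc D m) (i * (2 * b + 2)) (W k (le D m (D + 2 * m)) (le D m D) η)
        (W k (le D m (D + 2 * m)) (le D m (D + 2 * i)) η) := by
      intro i hi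
      induction i with
      | zero => exact R.refl _ _
      | succ i ih2 =>
        refine (((((ih2 (by omega)).trans (stp hD hm k (D + 2 * m) (D + 2 * i) (D + 2 * i + 1) η
          (by omega) (by omega) (by omega) (by unfold cN; split_ifs <;> omega))).trans
          (h' _).1.symm).trans (stp hD hm k 0 (D + 2 * i + 1) (D + 2 * (i + 1)) η
          (by omega) (by omega) (by omega) (by unfold cN; split_ifs <;> omega))).trans
          (h' _).1).mono ?_
        rw [add_mul]; omega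
    have e : a + 1 + b + m * (2 * b + 2) ≤ n := by
      rw [pow_succ, pow_succ, ← mul_assoc, hb, ha] at hn
      nlinarith
    rw [setp_succ, setp_succ, setp_succ]
    exact ⟨((((h _).trans (s1 hD hm k D η le_rfl (by omega)).symm).trans (h' _).2).trans
      (tooth m le_rfl)).mono e, ((((h _).symm.trans (s2 hD hm k η)).trans (h' _).1).trans
      (tooth m le_rfl)).mono e⟩

theorem cheap1 (hD : D = 0 ∨ 2 ≤ D) (hm : 2 ≤ m) (k a : ℕ) (η : ℕ → Fin (D + 2 * m + 1))
    (ha : a ≤ D) :
    R (cc D m) (2 * 3 ^ k) (W k (le D m 0) (le D m a) η) (setp (k + 1) (le D m 0) η) := by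
  obtain ⟨n, hn⟩ := Nat.exists_eq_add_of_le' (Nat.one_le_pow k 3 (by norm_num))
  have h := fun x => lA hD hm k n hn.le (Function.update η k x)
  have key : ∀ a ≤ D, a ≠ 1 → R (cc D m) (n + 1 + n) (W k (le D m 0) (le D m a) η)
      (W k (le D m 0) (le D m 0) η) := fun a h1 h2 =>
    ((h _).trans (s1 hD hm k a η h1 h2)).trans (h _).symm
  rw [setp_succ]
  by_cases h1 : a = 1
  · have e : qq D = a := by unfold qq; split_ifs <;> omega
    rw [← e]
    exact ((s2 hD hm k η).trans (key D le_rfl (by omega))).mono (by omega)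
  · exact (key a ha h1).mono (by omega)

theorem cheap (hD : D = 0 ∨ 2 ≤ D) (hm : 2 ≤ m) (k : ℕ) (η : ℕ → Fin (D + 2 * m + 1)) (j : ℕ)
    (h : ∀ i, k ≤ i → i < k + j → (η i : ℕ) ≤ D) :
    R (cc D m) (3 ^ (k + j) - 1) (setp k (le D m 0) η) (setp (k + j) (le D m 0) η) := by
  induction j with
  | zero => exact R.refl _ _
  | succ j ih =>
    have h1 := cheap1 hD hm (k + j) _ η (h (k + j) (by omega) (by omega))
    rw [le_self, W_self] at h1
    refine ((ih (fun i a b => h i a (by omega))).trans h1).mono ?_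
    rw [← add_assoc, pow_succ]
    have := Nat.one_le_pow (k + j) 3 (by norm_num)
    omega

theorem far1 (hD : D = 0 ∨ 2 ≤ D) (hm : 2 ≤ m) (k : ℕ) (η : ℕ → Fin (D + 2 * m + 1)) (i : ℕ)
    (hi : i ≤ 2 * m) :
    R (cc D m) (i * (5 * (2 * m + 1) ^ k)) (W k (le D m 0) (le D m (D + i)) η)
      (W k (le D m 0) (le D m D) η) := by
  have h' := fun x => lB hD hm k (2 * (2 * m + 1) ^ k)
    (by rw [add_assoc]; exact Nat.le_add_right _ _) (Function.update η k x)
  have h1 := Nat.one_le_pow k (2 * m + 1) (by omega)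
  induction i with
  | zero => exact R.refl _ _
  | succ i ih =>
    rcases Nat.even_or_odd' i with ⟨t, rfl | rfl⟩
    · refine ((((h' _).1.trans (stp hD hm k (D + 2 * m) (D + (2 * t + 1)) (D + 2 * t) η
        (by omega) (by omega) (by omega) (by unfold cN; split_ifs <;> omega))).trans
        (h' _).1.symm).trans (ih (by omega))).mono ?_
      rw [add_mul]; omega
    · refine ((stp hD hm k 0 (D + (2 * t + 1 + 1)) (D + (2 * t + 1)) η
        (by omega) (by omega) (by omega) (by unfold cN; split_ifs <;> omega)).trans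
        (ih (by omega))).mono ?_
      rw [add_mul (2 * t + 1)]; omega

theorem diam (hD : D = 0 ∨ 2 ≤ D) (hm : 2 ≤ m) (k : ℕ) (η : ℕ → Fin (D + 2 * m + 1)) :
    R (cc D m) (5 * (2 * m + 1) * (2 * m + 1) ^ k) η (setp k (le D m 0) η) := by
  induction k with
  | zero => exact R.refl _ _
  | succ k ih =>
    have h3 : 3 ^ k ≤ (2 * m + 1) ^ k := Nat.pow_le_pow_left (by omega) k
    have h4 := Nat.mul_le_mul_right ((2 * m + 1) ^ k) hm
    have : R (cc D m) (5 * (2 * m + 1) * (2 * m + 1) ^ k) (setp k (le D m 0) η)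
        (setp (k + 1) (le D m 0) η) := by
      rw [← W_self, ← le_self (η k)]
      by_cases h : (η k : ℕ) ≤ D
      · refine (cheap1 hD hm k _ η h).mono ?_
        generalize (2 * m + 1) ^ k = M at *
        generalize 3 ^ k = T at *
        nlinarith
      · obtain ⟨i, hi⟩ := Nat.exists_eq_add_of_le (not_le.1 h).le
        have h2 : i ≤ 2 * m := by have := (η k).2; omega
        rw [hi]
        refine ((far1 hD hm k η i h2).trans (cheap1 hD hm k D η le_rfl)).mono ?_
        generalize (2 * m + 1) ^ k = M at *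
        generalize 3 ^ k = T at *
        nlinarith [Nat.mul_le_mul_right (5 * M) h2]
    refine (ih.trans this).mono ?_
    rw [pow_succ]
    nlinarith [Nat.zero_le (5 * (2 * m + 1) * (2 * m + 1) ^ k * m)]

/-- the potential -/
def hh : ℕ → (ℕ → Fin (D + 2 * m + 1)) → ℤ
  | 0, _ => 0
  | k + 1, η => if (η k : ℕ) < D then 0 else
      if ((η k : ℕ) - D) % 2 = 0 then (((η k : ℕ) - D : ℕ) : ℤ) * (2 * m + 1) ^ k + hh k η
      else ((((η k : ℕ) - D : ℕ) : ℤ) + 1) * (2 * m + 1) ^ k - 1 - hh k η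

theorem hh0 (k : ℕ) (η : ℕ → Fin (D + 2 * m + 1))
    (h : ∀ i < k, (η i : ℕ) = 0 ∨ (η i : ℕ) < D) : hh k η = 0 := by
  induction k with
  | zero => rfl
  | succ k ih =>
    have := ih (fun i hi => h i (by omega))
    rcases h k (Nat.lt_succ_self k) with e | e
    · simp [hh, e, this]
    · simp [hh, e]

theorem hhs (k : ℕ) (η : ℕ → Fin (D + 2 * m + 1))
    (h : ∀ i < k, (η i : ℕ) = D + 2 * m) : hh k η = (2 * m + 1) ^ k - 1 := by
  induction k with
  | zero => simp [hh]
  | succ k ih =>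
    simp only [hh, h k (Nat.lt_succ_self k), ih (fun i hi => h i (by omega))]
    rw [if_neg (by omega), if_pos (by omega), Nat.add_sub_cancel_left]
    push_cast
    ring

theorem st_col {j : ℕ} {f : Fin (D + 2 * m + 1)} {ξ η : ℕ → Fin (D + 2 * m + 1)}
    (h : St (cc D m) j f ξ η) : (f : ℕ) = 0 ∨ (f : ℕ) = D + 2 * m ∨ ((f : ℕ) = 1 ∧ 2 ≤ D) := by
  by_contra hn
  have h1 := h.2.2.2.2.1
  unfold cc cN at h1
  rw [if_neg (by omega), if_neg (by omega), if_neg (by omega), if_neg (by omega),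
    if_neg (by omega), if_neg (by omega)] at h1
  exact h.2.2.2.1 (Fin.ext h1)

theorem hh_congr (k : ℕ) {ξ η : ℕ → Fin (D + 2 * m + 1)} (h : ∀ i < k, η i = ξ i) :
    hh k η = hh k ξ := by
  induction k with
  | zero => rfl
  | succ k ih => simp only [hh, h k (Nat.lt_succ_self k), ih (fun i hi => h i (by omega))]

theorem hh_lip (hD : D = 0 ∨ 2 ≤ D) (hm : 2 ≤ m) {j : ℕ} {f : Fin (D + 2 * m + 1)}
    {ξ η : ℕ → Fin (D + 2 * m + 1)} (h : St (cc D m) j f ξ η) (k : ℕ) :
    |hh k η - hh k ξ| ≤ 1 := by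
  induction k with
  | zero => simp [hh]
  | succ k ih =>
    by_cases hk : k = j
    · subst hk
      have e := hh_congr k (fun i hi => h.2.2.2.2.2 i hi.ne)
      have h1 := h.2.2.2.2.1
      have h2 : (η k : ℕ) ≠ ξ k := fun e => h.2.2.2.1 (Fin.ext e)
      have h3 := (η k).2
      have h4 := (ξ k).2
      unfold cc at h1
      simp only [hh, e]
      generalize (η k : ℕ) = a at *
      generalize (ξ k : ℕ) = b at *
      rcases st_col h with c | c | c
      · rw [hh0 k ξ (fun i hi => Or.inl (by rw [h.1 i hi, c]))]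
        rw [c, cN0, cN0] at h1
        generalize ((2 : ℤ) * m + 1) ^ k = M
        by_cases q1 : a ≤ D
        · have q2 : b ≤ D := by split_ifs at h1 <;> omega
          rw [show a - D = 0 by omega, show b - D = 0 by omega]
          simp
        · have q2 : (a - D) % 2 = 0 ∧ a - D = b - D + 1 ∧ D ≤ b ∨
              (b - D) % 2 = 0 ∧ b - D = a - D + 1 ∧ D ≤ b := by split_ifs at h1 <;> omega
          rcases q2 with ⟨r1, r2, r3⟩ | ⟨r1, r2, r3⟩
          · rw [if_neg (by omega), if_pos r1, if_neg (by omega), if_neg (by omega), r2]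
            push_cast; ring_nf; simp
          · rw [if_neg (by omega), if_neg (by omega), if_neg (by omega), if_pos r1, r2]
            push_cast; ring_nf; simp
      · rw [hhs k ξ (fun i hi => by rw [h.1 i hi, c])]
        rw [c, cNs hm, cNs hm] at h1
        generalize ((2 : ℤ) * m + 1) ^ k = M
        have q2 : (a - D) % 2 = 0 ∧ b - D = a - D + 1 ∧ D ≤ b ∧ D ≤ a ∨
            (b - D) % 2 = 0 ∧ a - D = b - D + 1 ∧ D ≤ b ∧ D ≤ a := by split_ifs at h1 <;> omega
        rcases q2 with ⟨r1, r2, r3, r4⟩ | ⟨r1, r2, r3, r4⟩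
        · rw [if_neg (by omega), if_pos r1, if_neg (by omega), if_neg (by omega), r2]
          push_cast; ring_nf; simp
        · rw [if_neg (by omega), if_neg (by omega), if_neg (by omega), if_pos r1, r2]
          push_cast; ring_nf; simp
      · rw [hh0 k ξ (fun i hi => Or.inr (by rw [h.1 i hi]; omega))]
        rw [c.1, cN1 c.2, cN1 c.2] at h1
        rw [show a - D = 0 by split_ifs at h1 <;> omega, show b - D = 0 by split_ifs at h1 <;> omega]
        simp
    · simp only [hh, h.2.2.2.2.2 k hk]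
      rw [abs_le] at ih ⊢
      split_ifs <;> omega

theorem ball_box (hD : D = 0 ∨ 2 ≤ D) (hm : 2 ≤ m) (ξ : ℕ → Fin (D + 2 * m + 1)) (k t r : ℕ)
    (hkt : k < t) (h0 : (ξ k : ℕ) ≠ D + 2 * m) (h1 : ∀ i, k < i → i < t → (ξ i : ℕ) ≤ D)
    (h2 : D < (ξ t : ℕ)) (hr : 2 * r < (2 * m + 1) ^ k) :
    ∀ η ∈ ball (SS (cc D m)) ξ r,
      (∀ i, k < i → i < t → (η i : ℕ) ≤ D) ∧ ∀ i, t < i → η i = ξ i := by
  have hr' : (2 * r : ℤ) < (2 * m + 1) ^ k := by exact_mod_cast hr
  have lip : ∀ (n : ℕ) j f η η', |hh k η - hh k ξ| ≤ n → St (cc D m) j f η η' →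
      |hh k η' - hh k ξ| ≤ (n + 1 : ℕ) := by
    intro n j f η η' a b
    have := hh_lip hD hm b k
    rw [abs_le] at *
    push_cast
    omega
  intro η hη
  by_cases hx : (r : ℤ) ≤ hh k ξ
  · have := ball_ind (hcc hD hm) ξ (fun n η => |hh k η - hh k ξ| ≤ n ∧
        (η k : ℕ) ≠ D + 2 * m ∧ ∀ i, k < i → η i = ξ i) (fun n => ⟨by simp, h0, fun _ _ => rfl⟩) r
      ?_ η hη
    · exact ⟨fun i a b => by rw [this.2.2 i a]; exact h1 i a b, fun i a => this.2.2 i (by omega)⟩
    rintro n hn j f η η' ⟨a1, a2, a3⟩ b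
    refine ⟨lip n j f η η' a1 b, ?_⟩
    by_cases hj : j < k
    · exact ⟨by rw [b.2.2.2.2.2 k (by omega)]; exact a2,
        fun i hi => (b.2.2.2.2.2 i (by omega)).trans (a3 i hi)⟩
    have c : (f : ℕ) = D + 2 * m := by
      by_contra c
      have := hh0 k η (fun i hi => by
        rw [b.1 i (by omega)]; rcases st_col b with c | c | c <;> omega)
      rw [abs_le] at a1
      omega
    have hj' : j = k := by
      by_contra hj'
      exact a2 (by rw [b.1 k (by omega), c])
    subst hj'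
    exact ⟨fun e => b.2.2.1 (Fin.ext (e.trans c.symm)),
      fun i hi => (b.2.2.2.2.2 i (by omega)).trans (a3 i hi)⟩
  · have := ball_ind (hcc hD hm) ξ (fun n η => |hh k η - hh k ξ| ≤ n ∧
        (∀ i, k < i → i < t → (η i : ℕ) ≤ D) ∧ D < (η t : ℕ) ∧ ∀ i, t < i → η i = ξ i)
      (fun n => ⟨by simp, h1, h2, fun _ _ => rfl⟩) r ?_ η hη
    · exact ⟨this.2.1, this.2.2.2⟩
    rintro n hn j f η η' ⟨a1, a2, a3, a4⟩ b
    refine ⟨lip n j f η η' a1 b, ?_⟩
    have b5 := b.2.2.2.2.2
    by_cases hj : j ≤ k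
    · exact ⟨fun i c d => by rw [b5 i (by omega)]; exact a2 i c d,
        by rw [b5 t (by omega)]; exact a3, fun i hi => (b5 i (by omega)).trans (a4 i hi)⟩
    have c : (f : ℕ) ≠ D + 2 * m := by
      intro c
      have := hhs k η (fun i hi => by rw [b.1 i (by omega), c])
      rw [abs_le] at a1
      omega
    have c1 := st_col b
    have c2 : j ≤ t := by
      by_contra c2
      rw [b.1 t (by omega)] at a3
      omega
    have c3 : (η' j : ℕ) ≤ D ↔ (η j : ℕ) ≤ D := by
      have h1 := b.2.2.2.2.1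
      unfold cc cN at h1
      split_ifs at h1 <;> omega
    refine ⟨fun i c d => ?_, ?_, fun i hi => (b5 i (by omega)).trans (a4 i hi)⟩
    · by_cases e : i = j
      · subst e; exact c3.2 (a2 i c d)
      · rw [b5 i e]; exact a2 i c d
    · by_cases e : t = j
      · subst e; omega
      · rw [b5 t e]; exact a3

end Pool.Agent.H72.Comb
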