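import Pool.Agent.H72.CombB

set_option autoImplicit false
set_option linter.unusedVariables false

namespace Pool.Agent.H72.Comb

open Pool.Agent.H69.Sch SimpleGraph Filter

theorem logC (C ε : ℝ) (hε : 0 < ε) :
    ∀ᶠ n : ℕ in atTop, 0 < Real.log n ∧ C ≤ ε * Real.log n := by
  have h1 : Tendsto (fun n : ℕ => Real.log n) atTop atTop :=
    Real.tendsto_log_atTop.comp tendsto_natCast_atTop_atTop
  filter_upwards [h1.eventually_gt_atTop 0, h1.eventually_ge_atTop (C / ε)] with n a b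
  exact ⟨a, by rwa [div_le_iff₀' hε] at b⟩

theorem limsup_le (u : ℕ → ℝ) (α C : ℝ) (h : ∀ᶠ n : ℕ in atTop, u n ≤ α * Real.log n + C) :
    limsup (fun n : ℕ => ((u n / Real.log n : ℝ) : EReal)) atTop ≤ α := by
  refine le_of_forall_gt_imp_ge_of_dense (fun b hb => ?_)
  obtain ⟨β, h1, h2⟩ := EReal.lt_iff_exists_real_btwn.1 hb
  have h3 : α < β := EReal.coe_lt_coe_iff.1 h1
  refine le_trans (limsup_le_of_le (by isBoundedDefault) ?_) h2.le
  filter_upwards [h, logC C (β - α) (by linarith)] with n a b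
  rw [EReal.coe_le_coe_iff, div_le_iff₀ b.1]
  linarith [b.2]

theorem le_limsup' (u : ℕ → ℝ) (α C : ℝ) (h : ∃ᶠ n : ℕ in atTop, α * Real.log n - C ≤ u n) :
    (α : EReal) ≤ limsup (fun n : ℕ => ((u n / Real.log n : ℝ) : EReal)) atTop := by
  refine le_of_forall_lt_imp_le_of_dense (fun b hb => ?_)
  obtain ⟨β, h1, h2⟩ := EReal.lt_iff_exists_real_btwn.1 hb
  have h3 : β < α := EReal.coe_lt_coe_iff.1 h2
  refine h1.le.trans (le_limsup_of_frequently_le ?_)
  refine (h.and_eventually (logC C (α - β) (by linarith))).mono (fun n ⟨a, b⟩ => ?_)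
  rw [EReal.coe_le_coe_iff, le_div_iff₀ b.1]
  linarith [b.2]

theorem exP (θ : ℝ) (hθ : 0 ≤ θ) : ∃ P : ℕ → Prop,
    (∀ K : ℕ, ∃ j : ℕ, (j : ℝ) ≤ θ * K ∧ P (K + j) ∧ ∀ i : ℕ, K ≤ i → i < K + j → ¬ P i) ∧
    ∀ n : ℕ, ∃ k : ℕ, n ≤ k ∧ ∀ i : ℕ, k ≤ i → i < k + ⌊θ * k⌋₊ → ¬ P i := by
  classical
  obtain ⟨ns, hz, hs⟩ : ∃ ns : ℕ → ℕ, ns 0 = 0 ∧
      ∀ t, ns (t + 1) = ns t + ⌊θ * ((ns t : ℕ) : ℝ)⌋₊ + 1 :=
    ⟨fun t => Nat.rec (motive := fun _ => ℕ) 0 (fun _ (a : ℕ) => a + ⌊θ * a⌋₊ + 1) t, rfl,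
      fun _ => rfl⟩
  have hm : StrictMono ns := strictMono_nat_of_lt_succ (fun t => by rw [hs]; omega)
  refine ⟨fun i => ∃ t, i + 1 = ns (t + 1), fun K => ?_, fun n => ⟨ns n, hm.id_le n, ?_⟩⟩
  · have h1 : ∃ t, ns t ≤ K ∧ K < ns (t + 1) := by
      induction K with
      | zero => exact ⟨0, hz.le, by rw [hs]; omega⟩
      | succ K ih =>
        obtain ⟨t, a, b⟩ := ih
        by_cases c : K + 1 < ns (t + 1)
        · exact ⟨t, by omega, c⟩
        · exact ⟨t + 1, by omega, by have := hs (t + 1); omega⟩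
    obtain ⟨t, a, b⟩ := h1
    have h2 : ∃ j, ∃ t, K + j + 1 = ns (t + 1) := ⟨ns (t + 1) - 1 - K, t, by omega⟩
    refine ⟨Nat.find h2, ?_, Nat.find_spec h2, fun i c d => ?_⟩
    · have h3 : Nat.find h2 ≤ ⌊θ * ns t⌋₊ :=
        (Nat.find_min' h2 (m := ns (t + 1) - 1 - K) ⟨t, by omega⟩).trans (by rw [hs]; omega)
      have h4 : (⌊θ * ns t⌋₊ : ℝ) ≤ θ * ns t := Nat.floor_le (by positivity)
      have h5 : θ * ns t ≤ θ * K := mul_le_mul_of_nonneg_left (by exact_mod_cast a) hθ
      have h6 : (Nat.find h2 : ℝ) ≤ ⌊θ * ns t⌋₊ := by exact_mod_cast h3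
      linarith
    · obtain ⟨j, rfl⟩ := Nat.exists_eq_add_of_le c
      exact Nat.find_min h2 (by omega)
  · rintro i a b ⟨t, c⟩
    have h1 : n < t + 1 := hm.lt_iff_lt.1 (by omega)
    have h2 : t + 1 < n + 1 := hm.lt_iff_lt.1 (by rw [hs n]; omega)
    omega

theorem prodT (K N d j : ℕ) :
    ∏ i ∈ Finset.range (K + j), (if i < K then N else d) = N ^ K * d ^ j := by
  induction j with
  | zero =>
    rw [add_zero, Finset.prod_congr rfl (fun i hi => if_pos (Finset.mem_range.1 hi))]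
    simp
  | succ j ih => rw [← add_assoc, Finset.prod_range_succ, ih, if_neg (by omega)]; ring

theorem main (D m : ℕ) (hD : D = 0 ∨ 2 ≤ D) (hm : 2 ≤ m) (θ α : ℝ) (hθ : 0 ≤ θ) (hα : 0 ≤ α)
    (h1 : (1 + θ) * Real.log 3 ≤ Real.log (2 * m + 1 : ℕ))
    (h2 : α * Real.log (2 * m + 1 : ℕ) =
      Real.log (D + 2 * m + 1 : ℕ) + θ * Real.log (D + 1 : ℕ)) : α ∈ degs True := by
  classical
  obtain ⟨P, p1, p2⟩ := exP θ hθ
  let ξ : ℕ → Fin (D + 2 * m + 1) := fun i => if P i then le D m (D + 1) else le D m D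
  have x1 : ∀ i, P i → (ξ i : ℕ) = D + 1 := fun i h => by
    simp only [ξ, if_pos h, le_val]; omega
  have x2 : ∀ i, ¬ P i → (ξ i : ℕ) = D := fun i h => by
    simp only [ξ, if_neg h, le_val]; omega
  let T : ℕ → ℕ → Finset (Fin (D + 2 * m + 1)) := fun K i =>
    if i < K then Finset.univ else Finset.Iic (le D m D)
  have t1 : ∀ K j, ∏ i ∈ Finset.range (K + j), (T K i).card =
      (D + 2 * m + 1) ^ K * (D + 1) ^ j := by
    intro K j
    rw [← prodT]
    refine Finset.prod_congr rfl (fun i _ => ?_)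
    simp only [T]
    split_ifs
    · simp
    · rw [Fin.card_Iic, le_val]; omega
  have t2 : ∀ K i a, a ∈ T K i ↔ (K ≤ i → (a : ℕ) ≤ D) := by
    intro K i a
    simp only [T]
    split_ifs
    · simp; omega
    · rw [Finset.mem_Iic, Fin.le_def, le_val]; omega
  have hS : (SS (cc D m)).Finite := SS_fin
  have l1 : 0 ≤ Real.log (D + 1 : ℕ) := Real.log_natCast_nonneg _
  have l2 : 0 ≤ Real.log (2 * m + 1 : ℕ) := Real.log_natCast_nonneg _
  have pos : ∀ n, 0 < (ball (SS (cc D m)) ξ n).ncard := fun n =>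
    (Set.ncard_pos (ball_fin _ ξ hS n)).2 ⟨ξ, self_mem _ ξ n⟩
  refine ⟨Fin (D + 2 * m + 1), inferInstance, Subgroup.closure (SS (cc D m)), hS.toFinset, ξ,
    selfsim (hcc hD hm), by simp, contr (hcc hD hm),
    fun _ => ⟨Fin.nontrivial_iff_two_le.2 (by omega),
      levelTrans (hcc hD hm) (le D m 0) (fun k => ⟨_, diam hD hm k⟩)⟩, ?_⟩
  rw [hS.coe_toFinset]
  refine le_antisymm (limsup_le _ α (α * Real.log 2 + 2 * (α * Real.log (2 * m + 1 : ℕ)) +
    Real.log (D + 2 * m + 1 : ℕ)) ?_)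
    (le_limsup' _ α (α * Real.log (2 * (5 * (2 * m + 1) + 1) : ℕ) + Real.log (D + 1 : ℕ)) ?_)
  · filter_upwards [eventually_ge_atTop 1] with n hn
    have b1 := Nat.pow_log_le_self (2 * m + 1) (x := 2 * n) (by omega)
    have b2 := Nat.lt_pow_succ_log_self (b := 2 * m + 1) (by omega) (2 * n)
    generalize Nat.log (2 * m + 1) (2 * n) = M at b1 b2
    obtain ⟨j, j1, j2, j3⟩ := p1 (M + 2)
    have c1 := ball_box hD hm ξ (M + 1) (M + 2 + j) n (by omega)
      (by by_cases h : P (M + 1)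
          · rw [x1 _ h]; omega
          · rw [x2 _ h]; omega)
      (fun i a b => (x2 i (j3 i a b)).le) (by rw [x1 _ j2]; omega) b2
    have c2 := box_card (fun i => if i = M + 2 + j then Finset.univ else T (M + 2) i) ξ
      (M + 2 + j + 1)
    have c3 := Set.ncard_le_ncard (s := ball (SS (cc D m)) ξ n) (fun η hη => by
      refine ⟨fun i hi => ?_, fun i hi => (c1 η hη).2 i hi⟩
      split_ifs with h
      · simp
      · exact (t2 _ _ _).2 (fun a => (c1 η hη).1 i a (by omega))) c2.1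
    rw [c2.2, Finset.prod_range_succ, if_pos rfl, Finset.prod_congr rfl
      (fun i hi => by rw [if_neg (Finset.mem_range.1 hi).ne]), t1, Finset.card_univ,
      Fintype.card_fin] at c3
    have e1 : Real.log (ball (SS (cc D m)) ξ n).ncard ≤
        ((M + 2 : ℕ) : ℝ) * Real.log (D + 2 * m + 1 : ℕ) + j * Real.log (D + 1 : ℕ) +
          Real.log (D + 2 * m + 1 : ℕ) := by
      rw [← Real.log_pow, ← Real.log_pow, ← Real.log_mul (by positivity) (by positivity),
        ← Real.log_mul (by positivity) (by positivity)]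
      exact Real.log_le_log (by exact_mod_cast pos n) (by exact_mod_cast c3)
    have e2 : (M : ℝ) * Real.log (2 * m + 1 : ℕ) ≤ Real.log 2 + Real.log n := by
      rw [← Real.log_pow, ← Real.log_mul (by positivity) (by positivity)]
      exact Real.log_le_log (by positivity) (by exact_mod_cast b1)
    have e3 := mul_le_mul_of_nonneg_right j1 l1
    have e4 := mul_le_mul_of_nonneg_left e2 hα
    have e5 : ((M + 2 : ℕ) : ℝ) * (α * Real.log (2 * m + 1 : ℕ)) = ((M + 2 : ℕ) : ℝ) *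
      (Real.log (D + 2 * m + 1 : ℕ) + θ * Real.log (D + 1 : ℕ)) := by rw [h2]
    generalize Real.log (2 * m + 1 : ℕ) = A at *
    generalize Real.log (D + 2 * m + 1 : ℕ) = B at *
    generalize Real.log (D + 1 : ℕ) = E at *
    push_cast at *
    nlinarith
  · rw [frequently_atTop]
    intro n
    obtain ⟨k, k1, k2⟩ := p2 n
    have f1 : (⌊θ * k⌋₊ : ℝ) ≤ θ * k := Nat.floor_le (by positivity)
    have f2 := (Nat.lt_floor_add_one (θ * k)).le
    generalize ⌊θ * k⌋₊ = j at *
    have f3 : 3 ^ (k + j) ≤ (2 * m + 1) ^ k := by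
      have l3 : 0 < Real.log 3 := Real.log_pos (by norm_num)
      have : Real.log ((3 : ℝ) ^ (k + j)) ≤ Real.log (((2 * m + 1 : ℕ) : ℝ) ^ k) := by
        rw [Real.log_pow, Real.log_pow]
        have := mul_le_mul_of_nonneg_left h1 (Nat.cast_nonneg (α := ℝ) k)
        have := mul_le_mul_of_nonneg_right f1 l3.le
        rw [Nat.cast_add]
        nlinarith
      exact_mod_cast (Real.log_le_log_iff (by positivity) (by positivity)).1 this
    refine ⟨2 * (5 * (2 * m + 1) + 1) * (2 * m + 1) ^ k, ?_, ?_⟩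
    · have := Nat.lt_pow_self (n := k) (show 1 < 2 * m + 1 by omega)
      nlinarith
    have c2 := box_card (T k) ξ (k + j)
    have key : ∀ η : ℕ → Fin (D + 2 * m + 1), (∀ i, k ≤ i → i < k + j → (η i : ℕ) ≤ D) →
        R (cc D m) ((5 * (2 * m + 1) + 1) * (2 * m + 1) ^ k) η (setp (k + j) (le D m 0) η) :=
      fun η h => ((diam hD hm k η).trans (cheap hD hm k η j h)).mono (by rw [add_mul]; omega)
    have c4 : {η : ℕ → Fin (D + 2 * m + 1) |
        (∀ i < k + j, η i ∈ T k i) ∧ ∀ i, k + j ≤ i → η i = ξ i} ⊆ ball (SS (cc D m)) ξ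
        (2 * (5 * (2 * m + 1) + 1) * (2 * m + 1) ^ k) := by
      intro η hη
      have a1 := key η (fun i a b => (t2 _ _ _).1 (hη.1 i b) a)
      have a2 := key ξ (fun i a b => (x2 i (k2 i a b)).le)
      rw [show setp (k + j) (le D m 0) η = setp (k + j) (le D m 0) ξ from funext (fun i => by
        simp only [setp]
        split_ifs with h
        · rfl
        · exact hη.2 i (not_lt.1 h))] at a1
      exact (a2.trans a1.symm).mono (by rw [mul_assoc]; omega)
    have c3 := Set.ncard_le_ncard c4 (ball_fin _ ξ hS _)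
    rw [c2.2, t1] at c3
    have e1 : (k : ℝ) * Real.log (D + 2 * m + 1 : ℕ) + j * Real.log (D + 1 : ℕ) ≤
        Real.log (ball (SS (cc D m)) ξ (2 * (5 * (2 * m + 1) + 1) * (2 * m + 1) ^ k)).ncard := by
      rw [← Real.log_pow, ← Real.log_pow, ← Real.log_mul (by positivity) (by positivity)]
      exact Real.log_le_log (by positivity) (by exact_mod_cast c3)
    rw [Nat.cast_mul, Nat.cast_pow, Real.log_mul (by positivity) (by positivity), Real.log_pow]
    have e3 := mul_le_mul_of_nonneg_right f2 l1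
    have e5 : (k : ℝ) * (α * Real.log (2 * m + 1 : ℕ)) = (k : ℝ) *
      (Real.log (D + 2 * m + 1 : ℕ) + θ * Real.log (D + 1 : ℕ)) := by rw [h2]
    generalize Real.log (2 * m + 1 : ℕ) = A at *
    generalize Real.log (D + 2 * m + 1 : ℕ) = B at *
    generalize Real.log (D + 1 : ℕ) = E at *
    nlinarith

theorem mem_degs {α : ℝ} (hα : 1 ≤ α) : α ∈ degs True := by
  have l3 : 0 < Real.log 3 := Real.log_pos (by norm_num)
  rcases hα.eq_or_lt with rfl | hα'
  · refine main 0 2 (Or.inl rfl) le_rfl 0 1 le_rfl zero_le_one ?_ (by simp)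
    rw [add_zero, one_mul]
    exact Real.log_le_log (by norm_num) (by norm_num)
  obtain ⟨a, ha⟩ := exists_nat_gt α
  obtain ⟨D, hD⟩ := Nat.exists_eq_add_of_le' (Nat.one_le_pow a 3 (by norm_num))
  have ha1 : 1 ≤ a := by exact_mod_cast (hα.trans ha.le)
  have hD2 : 2 ≤ D := by
    have := Nat.pow_le_pow_right (show 0 < 3 by norm_num) ha1
    omega
  have h1 : Tendsto (fun n : ℕ => 2 * n + 1) atTop atTop :=
    tendsto_atTop_mono (fun n => by simp only [id]; omega) tendsto_id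
  obtain ⟨m, m1, m2⟩ := ((h1.eventually (logC (Real.log 2) (α - 1) (by linarith))).and
    (eventually_ge_atTop D)).exists
  have e1 : Real.log (D + 2 * m + 1 : ℕ) ≤ α * Real.log (2 * m + 1 : ℕ) := by
    have : Real.log (D + 2 * m + 1 : ℕ) ≤ Real.log 2 + Real.log (2 * m + 1 : ℕ) := by
      rw [← Real.log_mul (by positivity) (by positivity)]
      exact Real.log_le_log (by positivity) (by exact_mod_cast (by omega))
    linarith [m1.2]
  have e2 : Real.log (D + 1 : ℕ) = a * Real.log 3 := by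
    rw [← hD, Nat.cast_pow, Real.log_pow]; rfl
  have e3 : Real.log (D + 1 : ℕ) ≤ Real.log (D + 2 * m + 1 : ℕ) :=
    Real.log_le_log (by positivity) (by exact_mod_cast (by omega))
  have a0 : (0 : ℝ) < a := by linarith
  have e4 : 0 < Real.log (D + 1 : ℕ) := by rw [e2]; positivity
  refine main D m (Or.inr hD2) (by omega)
    ((α * Real.log (2 * m + 1 : ℕ) - Real.log (D + 2 * m + 1 : ℕ)) / Real.log (D + 1 : ℕ)) α
    (div_nonneg (by linarith) e4.le) (by linarith) ?_ (by field_simp; ring)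
  have e5 := m1.1
  generalize Real.log (2 * m + 1 : ℕ) = A at *
  generalize Real.log (D + 2 * m + 1 : ℕ) = B at *
  generalize Real.log (D + 1 : ℕ) = E at *
  rw [← mul_le_mul_iff_left₀ a0, mul_assoc, mul_comm (Real.log 3), ← e2, add_mul,
    div_mul_cancel₀ _ e4.ne']
  nlinarith

theorem dich {X : Type} (S : Set (Equiv.Perm (List X))) (ξ : ℕ → X) (hS : S.Finite) :
    ({η | (schreier S).Reachable ξ η}.Finite → degree S ξ = (0 : ℝ)) ∧
    ({η | (schreier S).Reachable ξ η}.Infinite → ((1 : ℝ) : EReal) ≤ degree S ξ) := by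
  refine ⟨fun h => le_antisymm (limsup_le _ 0
    (Real.log {η | (schreier S).Reachable ξ η}.ncard) (Eventually.of_forall (fun n => ?_)))
    (le_limsup' _ 0 0 (Frequently.of_forall (fun n => ?_))),
    fun h => le_limsup' _ 1 0 (Eventually.frequently ?_)⟩
  · rw [zero_mul, zero_add]
    refine Real.log_le_log (by
      exact_mod_cast (Set.ncard_pos (ball_fin _ ξ hS n)).2 ⟨ξ, self_mem _ ξ n⟩) ?_
    exact_mod_cast Set.ncard_le_ncard (fun η hη => reachable_of_edist_ne_top
      (ne_top_of_le_ne_top (ENat.natCast_ne_top n) hη)) h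
  · simpa using Real.log_natCast_nonneg _
  · filter_upwards [eventually_ge_atTop 1] with n hn
    rw [one_mul, sub_zero]
    exact Real.log_le_log (by exact_mod_cast hn)
      (by exact_mod_cast (Nat.le_succ n).trans (ball_grow S ξ hS h n))

theorem inf_of_lt {X : Type} [Nontrivial X] (S : Set (Equiv.Perm (List X))) (ξ : ℕ → X)
    (h1 : SelfSimilar (Subgroup.closure S)) (h2 : LevelTrans (Subgroup.closure S)) :
    {η | (schreier S).Reachable ξ η}.Infinite := by
  obtain ⟨a, b, hab⟩ := exists_pair_ne X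
  have key : ∀ n, ∃ η, (schreier S).Reachable ξ η ∧ η n = b ∧ ∀ i < n, η i = a := by
    intro n
    obtain ⟨g, a1, a2⟩ := h2 (pre ξ (n + 1)) (pre (fun i => if i < n then a else b) (n + 1))
      (by simp [pre])
    obtain ⟨η, a3⟩ := (h1.1 g a1).ex ξ
    have a4 := List.ofFn_injective ((a3 (n + 1)).symm.trans a2)
    refine ⟨η, reach_of S h1.1 g a1 _ _ a3, ?_, fun i hi => ?_⟩
    · simpa using congrFun a4 ⟨n, by omega⟩
    · simpa [hi] using congrFun a4 ⟨i, by omega⟩
  choose f f1 f2 f3 using key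
  refine Set.infinite_of_injective_forall_mem (f := f) (fun n n' h => ?_) f1
  by_contra hn
  rcases lt_or_gt_of_ne hn with c | c
  · exact hab ((f3 n' n c).symm.trans (h ▸ f2 n))
  · exact hab ((f3 n n' c).symm.trans (h ▸ f2 n'))

theorem final : degs False = {0} ∪ Set.Ici 1 ∧ degs True = Set.Ici 1 := by
  refine ⟨Set.ext (fun α => ⟨?_, ?_⟩), Set.ext (fun α => ⟨?_, mem_degs⟩)⟩
  · rintro ⟨X, _, L, S, ξ, -, -, -, -, h⟩
    have := dich _ ξ S.finite_toSet
    rw [h] at this
    by_cases hf : {η | (schreier (S : Set (Equiv.Perm (List X)))).Reachable ξ η}.Finite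
    · exact Or.inl (EReal.coe_injective (this.1 hf))
    · exact Or.inr (EReal.coe_le_coe_iff.1 (this.2 hf))
  · rintro (rfl | h)
    · refine ⟨Bool, inferInstance, ⊥, ∅, fun _ => true, ⟨?_, ?_⟩, by simp,
        ⟨{1}, by simp, by simp, ?_⟩, False.elim, (dich _ _ (by simp)).1 ?_⟩
      · intro g hg
        rw [Subgroup.mem_bot.1 hg]
        exact ⟨rfl, fun w x => ⟨x, rfl⟩⟩
      · intro g hg x
        rw [Subgroup.mem_bot.1 hg]
        exact ⟨1, one_mem _, x, fun _ => rfl⟩
      · intro g hg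
        rw [Subgroup.mem_bot.1 hg]
        exact ⟨0, fun v _ => ⟨1, rfl, fun _ => rfl⟩⟩
      · refine (Set.finite_singleton (fun _ => true)).subset (fun η hη => ?_)
        have : schreier ((∅ : Finset (Equiv.Perm (List Bool))) : Set (Equiv.Perm (List Bool)))
            = ⊥ := by
          ext a b; simp [schreier]
        rw [this] at hη
        exact (reachable_bot.1 hη).symm
    · obtain ⟨X, i, L, S, ξ, a, b, c, -, d⟩ := mem_degs h
      exact ⟨X, i, L, S, ξ, a, b, c, False.elim, d⟩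
  · rintro ⟨X, _, L, S, ξ, a, rfl, -, b, h⟩
    have := (b trivial).1
    have := (dich _ ξ S.finite_toSet).2 (inf_of_lt _ ξ a (b trivial).2)
    rw [h] at this
    exact EReal.coe_le_coe_iff.1 this

end Pool.Agent.H72.Comb
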