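import Mathlib

set_option autoImplicit false
set_option linter.unusedVariables false
set_option linter.unusedSectionVars false

namespace Pool.Agent.H72.Dfc

open Polynomial IntermediateField

variable {Ω Γ : Type} [Field Ω] [LinearOrderedCommGroupWithZero Γ] (w : Valuation Ω Γ) {p : ℕ}

theorem fr (hp : p.Prime) {x y : Ω} (hx : w x ≤ 1) (hy : w y ≤ 1) :
    ∃ r, w r ≤ 1 ∧ (x + y) ^ p = x ^ p + y ^ p + p * x * y * r := by
  obtain ⟨r, hr⟩ := exists_add_pow_prime_eq hp (⟨x, hx⟩ : w.integer) ⟨y, hy⟩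
  exact ⟨r, r.2, by simpa using congrArg Subtype.val hr⟩

theorem fr_add (hp : p.Prime) {x y : Ω} (hx : w x ≤ 1) (hy : w y ≤ 1) :
    w ((x + y) ^ p - (x ^ p + y ^ p)) ≤ w p := by
  obtain ⟨r, h1, h2⟩ := fr w hp hx hy
  rw [h2, add_sub_cancel_left, map_mul, map_mul, map_mul]
  exact (mul_le_of_le_one_right' h1).trans ((mul_le_of_le_one_right' hy).trans
    (mul_le_of_le_one_right' hx))

theorem fr_sub (hp : p.Prime) {x y : Ω} (hx : w x ≤ 1) (hy : w y ≤ 1) :
    w ((x - y) ^ p - (x ^ p - y ^ p)) ≤ w p := by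
  have := fr_add w hp (w.map_sub_le hx hy) hy
  rw [sub_add_cancel, w.map_sub_swap] at this
  rwa [show (x - y) ^ p - (x ^ p - y ^ p) = (x - y) ^ p + y ^ p - x ^ p by ring]

theorem ms_le (s : Multiset Ω) {g : Γ} (h : ∀ x ∈ s, w x ≤ g) : w s.sum ≤ g := by
  induction s using Multiset.induction_on with
  | empty => simp
  | cons a s ih =>
    rw [Multiset.sum_cons]
    exact w.map_add_le (h a (by simp)) (ih (fun x hx => h x (by simp [hx])))

theorem fr_sum (hp : p.Prime) (s : Multiset Ω) (h : ∀ x ∈ s, w x ≤ 1) :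
    w (s.sum ^ p - (s.map (· ^ p)).sum) ≤ w p := by
  induction s using Multiset.induction_on with
  | empty => simp [hp.ne_zero]
  | cons a s ih =>
    have h1 : ∀ x ∈ s, w x ≤ 1 := fun x hx => h x (by simp [hx])
    have := w.map_add_le (fr_add w hp (h a (by simp)) (ms_le w s h1)) (ih h1)
    rw [Multiset.sum_cons, Multiset.map_cons, Multiset.sum_cons]
    rwa [show ∀ a b c d : Ω, a - (b + c) + (c - d) = a - (b + d) by intros; ring] at this

theorem unit_nat (hp : p.Prime) (h : w p < 1) {d : ℕ} (hd : ¬ p ∣ d) : w d = 1 := by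
  have h1 : ∀ z : ℤ, w z ≤ 1 := fun z => (intCast_mem w.integer z :)
  refine le_antisymm (by simpa using h1 d) (not_lt.1 (fun h2 => ?_))
  obtain ⟨a, b, e⟩ := Nat.isCoprime_iff_coprime.2 ((Nat.Prime.coprime_iff_not_dvd hp).2 hd)
  have e' : (a : Ω) * p + b * d = 1 := by exact_mod_cast congrArg (Int.cast : ℤ → Ω) e
  have := w.map_add_lt (x := (a : Ω) * p) (y := b * d) (g := 1)
    (by rw [map_mul]; exact (mul_le_of_le_one_left' (h1 a)).trans_lt h)
    (by rw [map_mul]; exact (mul_le_of_le_one_left' (h1 b)).trans_lt h2)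
  rw [e', map_one] at this
  exact lt_irrefl _ this

theorem le_one_of {a c : Ω} (hp : p.Prime) (ha : w a ≤ 1) (h : w (a - c ^ p) ≤ 1) : w c ≤ 1 := by
  have := w.map_sub_le ha h
  rw [sub_sub_cancel, map_pow] at this
  exact (pow_le_one_iff hp.ne_zero).1 this

variable {L : Type} [Field L] [Algebra L Ω] [IsAlgClosed Ω] [Algebra.IsAlgebraic L Ω]

theorem conj {c r : Ω} (h : r ∈ (minpoly L c).aroots Ω) : ∃ σ : Ω ≃ₐ[L] Ω, σ c = r := by
  have : IsAlgClosure L Ω := ⟨inferInstance, inferInstance⟩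
  exact ((isConjRoot_iff_mem_minpoly_aroots (Algebra.IsIntegral.isIntegral c)).2
    h).symm.exists_algEquiv

theorem card_ar (c : Ω) : ((minpoly L c).aroots Ω).card = (minpoly L c).natDegree := by
  rw [aroots, ← (IsAlgClosed.splits _).natDegree_eq_card_roots, natDegree_map]

theorem avg (hp : p.Prime) (hw : w p < 1) (hinv : ∀ (σ : Ω ≃ₐ[L] Ω) x, w (σ x) = w x) (a : L)
    (ha : w (algebraMap L Ω a) ≤ 1) (h : ∀ c : L, w p < w (algebraMap L Ω (a - c ^ p))) (c : Ω)
    (hc : ¬ p ∣ (minpoly L c).natDegree) :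
    ∃ c' : L, w (algebraMap L Ω (a - c' ^ p)) ≤ w (algebraMap L Ω a - c ^ p) := by
  by_cases h0 : w (algebraMap L Ω a) ≤ w (algebraMap L Ω a - c ^ p)
  · exact ⟨0, by simpa [hp.ne_zero] using h0⟩
  have c1 : w c ≤ 1 := le_one_of w hp ha ((not_le.1 h0).le.trans ha)
  have hd := unit_nat w hp hw hc
  have hd0 : ((minpoly L c).natDegree : Ω) ≠ 0 := fun e => by simp [e] at hd
  have hs := (IsAlgClosed.splits ((minpoly L c).map (algebraMap L Ω))
    ).nextCoeff_eq_neg_sum_roots_of_monic ((minpoly.monic (Algebra.IsIntegral.isIntegral c)).map _)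
  rw [nextCoeff_map (algebraMap L Ω).injective] at hs
  have hcard := card_ar (L := L) c
  have hr : ∀ r ∈ (minpoly L c).aroots Ω, w r ≤ 1 ∧
      w (algebraMap L Ω a - r ^ p) = w (algebraMap L Ω a - c ^ p) := by
    intro r hr
    obtain ⟨σ, rfl⟩ := conj hr
    exact ⟨by rwa [hinv], by rw [← hinv σ (_ - c ^ p), map_sub σ, map_pow σ, σ.commutes]⟩
  change _ = -((minpoly L c).aroots Ω).sum at hs
  generalize (minpoly L c).aroots Ω = s at *
  generalize (minpoly L c).natDegree = d at *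
  refine ⟨-(minpoly L c).nextCoeff / d, ?_⟩
  have h := h (-(minpoly L c).nextCoeff / d)
  rw [map_sub, map_pow, map_div₀, map_neg, hs, neg_neg, map_natCast (algebraMap L Ω)] at h ⊢
  have e1 : w (s.sum / d) ≤ 1 := by
    rw [map_div₀, hd, div_one]; exact ms_le w s (fun x hx => (hr x hx).1)
  have e2 := fr_sum w hp (Multiset.replicate d (s.sum / d))
    (fun x hx => by rw [Multiset.eq_of_mem_replicate hx]; exact e1)
  rw [Multiset.map_replicate, Multiset.sum_replicate, Multiset.sum_replicate, nsmul_eq_mul,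
    nsmul_eq_mul, mul_div_cancel₀ _ hd0] at e2
  have e3 := fr_sum w hp s (fun x hx => (hr x hx).1)
  have e4 := ms_le w (s.map (fun r => algebraMap L Ω a - r ^ p)) (g := w (algebraMap L Ω a - c ^ p))
    (fun x hx => by obtain ⟨r, h1, rfl⟩ := Multiset.mem_map.1 hx; exact (hr r h1).2.le)
  rw [Multiset.sum_map_sub, Multiset.map_const', Multiset.sum_replicate, hcard, nsmul_eq_mul] at e4
  by_contra! h5
  have := w.map_add_lt (w.map_sub_lt (e2.trans_lt h) (e3.trans_lt h)) (e4.trans_lt h5)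
  rw [show ∀ a b c e f : Ω, a - e * b - (a - c) + (e * f - c) = e * (f - b) by intros; ring,
    map_mul, hd, one_mul] at this
  exact lt_irrefl _ this

/-- No proper extension of degree prime to `p`. -/
def PC (p : ℕ) (L Ω : Type) [Field L] [Field Ω] [Algebra L Ω] : Prop :=
  ∀ x : Ω, ¬ p ∣ (minpoly L x).natDegree → ∃ c : L, algebraMap L Ω c = x

theorem PC.root (h : PC p L Ω) (g : L[X]) : ¬ p ∣ g.natDegree → ∃ c : L, g.IsRoot c := by
  induction g using UniqueFactorizationMonoid.induction_on_prime with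
  | h₁ => simp
  | h₂ g hg => simp [natDegree_eq_zero_of_isUnit hg]
  | h₃ g q g0 hq ih =>
    intro hd
    rw [natDegree_mul hq.ne_zero g0] at hd
    by_cases h1 : p ∣ g.natDegree
    · obtain ⟨x, hx⟩ := IsAlgClosed.exists_aeval_eq_zero Ω q
        (degree_pos_of_irreducible hq.irreducible).ne'
      obtain ⟨c, rfl⟩ := h x (by
        rw [← minpoly.eq_of_irreducible hq.irreducible hx, natDegree_mul_C
          (inv_ne_zero (leadingCoeff_ne_zero.2 hq.ne_zero))]
        exact fun h2 => hd (dvd_add h2 h1))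
      rw [aeval_algebraMap_apply, map_eq_zero] at hx
      exact ⟨c, root_mul_right_of_isRoot _ hx⟩
    · obtain ⟨c, hc⟩ := ih h1
      exact ⟨c, root_mul_left_of_isRoot _ hc⟩

theorem PC.ind (h : PC p L Ω) {θ : Ω} (hθ : (minpoly L θ).natDegree ≤ p) (P : Ω → Prop)
    (h0 : ∀ e : L, P (algebraMap L Ω e)) (h1 : ∀ b : L, P (θ - algebraMap L Ω b))
    (h2 : ∀ x y, P x → P y → P (x * y)) : ∀ f ∈ L⟮θ⟯, P f := by
  have hi : IsIntegral L θ := Algebra.IsIntegral.isIntegral θ
  have key : ∀ n, ∀ g : L[X], g.natDegree = n → n < p → P (aeval θ g) := by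
    intro n
    induction n with
    | zero => intro g hg _; rw [eq_C_of_natDegree_eq_zero hg, aeval_C]; exact h0 _
    | succ n ih =>
      intro g hg hn
      obtain ⟨b, hb⟩ := h.root g (by rw [hg]; exact Nat.not_dvd_of_pos_of_lt n.succ_pos hn)
      obtain ⟨g', rfl⟩ := dvd_iff_isRoot.2 hb
      have g0 : g' ≠ 0 := by rintro rfl; simp at hg
      rw [natDegree_mul (X_sub_C_ne_zero b) g0, natDegree_X_sub_C] at hg
      rw [map_mul, map_sub, aeval_X, aeval_C]
      exact h2 _ _ (h1 b) (ih g' (by omega) (by omega))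
  intro f hf
  obtain ⟨g, hg, e⟩ := (adjoin.powerBasis hi).exists_eq_aeval ⟨f, hf⟩
  have : f = aeval θ g := by
    have := congrArg (L⟮θ⟯.val) e
    rwa [← aeval_algHom_apply] at this
  rw [this]
  exact key _ g rfl (lt_of_lt_of_le hg hθ)

theorem PC.est (h : PC p L Ω) {θ : Ω} (hθ : (minpoly L θ).natDegree ≤ p) (σ : Ω ≃ₐ[L] Ω) {κ : Γ}
    (hκ : κ ≤ 1) (h1 : ∀ b : L, w (σ θ - θ) ≤ κ * w (θ - algebraMap L Ω b)) :
    ∀ f ∈ L⟮θ⟯, w (σ f - f) ≤ κ * w f := by
  refine h.ind hθ _ (fun e => by simp) (fun b => by simpa using h1 b) (fun x y hx hy => ?_)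
  have : w (σ x) ≤ w x := by
    have := w.map_add_le (hx.trans (mul_le_of_le_one_left' hκ)) (le_refl (w x))
    rwa [sub_add_cancel] at this
  rw [show σ (x * y) - x * y = σ x * (σ y - y) + (σ x - x) * y by rw [map_mul]; ring]
  refine w.map_add_le ?_ ?_
  · rw [map_mul, map_mul, mul_left_comm]; exact mul_le_mul' this hy
  · rw [map_mul, map_mul, ← mul_assoc]; exact mul_le_mul' hx le_rfl

end Pool.Agent.H72.Dfc
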