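import Pool.Agent.H72.DfcA

set_option autoImplicit false
set_option linter.unusedVariables false
set_option linter.unusedSectionVars false

namespace Pool.Agent.H72.Dfc

open Polynomial IntermediateField

variable {Ω Γ : Type} [Field Ω] [LinearOrderedCommGroupWithZero Γ] (w : Valuation Ω Γ) {p : ℕ}

section
variable {L : Type} [Field L] [Algebra L Ω] [IsAlgClosed Ω] [Algebra.IsAlgebraic L Ω]

theorem as0 (hp : p.Prime) (d b : L) : (X ^ p - (C d * X + C b)).Monic ∧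
    (X ^ p - (C d * X + C b)).natDegree = p := by
  have h : (C d * X + C b).degree < (p : WithBot ℕ) :=
    degree_linear_le.trans_lt (by exact_mod_cast hp.one_lt)
  exact ⟨monic_X_pow_sub h, natDegree_eq_of_degree_eq_some
    ((degree_sub_eq_left_of_degree_lt (by rwa [degree_X_pow])).trans (degree_X_pow p))⟩

theorem as1 (hp : p.Prime) (d b : L) : ∃ θ : Ω, θ ^ p = algebraMap L Ω d * θ + algebraMap L Ω b := by
  obtain ⟨θ, h⟩ := IsAlgClosed.exists_aeval_eq_zero Ω (X ^ p - (C d * X + C b)) (by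
    rw [degree_eq_natDegree (as0 hp d b).1.ne_zero, (as0 hp d b).2]; exact_mod_cast hp.ne_zero)
  exact ⟨θ, by simpa [sub_eq_zero] using h⟩

theorem as2 (hp : p.Prime) (h : PC p L Ω) {d b : L} {θ : Ω}
    (e : θ ^ p = algebraMap L Ω d * θ + algebraMap L Ω b) (h1 : ∀ c, algebraMap L Ω c ≠ θ) :
    (minpoly L θ).natDegree = p ∧
      (p * θ ^ (p - 1) ≠ algebraMap L Ω d → ∃ σ : Ω ≃ₐ[L] Ω, σ θ ≠ θ) := by
  have hi : IsIntegral L θ := Algebra.IsIntegral.isIntegral θ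
  have h2 : minpoly L θ ∣ X ^ p - (C d * X + C b) := minpoly.dvd _ _ (by simp [e])
  have h3 := natDegree_le_of_dvd h2 (as0 hp d b).1.ne_zero
  rw [(as0 hp d b).2] at h3
  have h4 : p ≤ (minpoly L θ).natDegree := Nat.le_of_dvd (minpoly.natDegree_pos hi) (by
    by_contra h4
    obtain ⟨c, hc⟩ := h θ h4
    exact h1 c hc)
  refine ⟨le_antisymm h3 h4, fun h5 => ?_⟩
  have h6 := eq_of_monic_of_dvd_of_natDegree_le (minpoly.monic hi) (as0 hp d b).1 h2
    (by rwa [(as0 hp d b).2])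
  have h7 : IsSeparable L θ := (separable_iff_derivative_ne_zero (minpoly.irreducible hi)).2
    (fun h => h5 (by
      have := congrArg (aeval θ) h
      rw [← h6] at this
      simpa [sub_eq_zero, derivative_X_pow] using this))
  obtain ⟨y, y1, y2⟩ := (notMem_iff_exists_ne_and_isConjRoot h7 (IsAlgClosed.splits _)).1
    (fun ⟨c, hc⟩ => h1 c hc)
  obtain ⟨σ, rfl⟩ := conj ((isConjRoot_iff_mem_minpoly_aroots hi).1 y2)
  exact ⟨σ, y1.symm⟩

theorem eps (hp : p.Prime) {d b θ θ' : Ω} (e : θ ^ p = d * θ + b) (e' : θ' ^ p = d * θ' + b)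
    (h : θ' ≠ θ) (h1 : w θ ≤ 1) (h2 : w θ' ≤ 1) :
    w ((θ' - θ) ^ (p - 1) - d) ≤ w p ∧ w (d - p * θ ^ (p - 1)) ≤ w (θ' - θ) := by
  have h3 := w.map_sub_le h2 h1
  have h0 := sub_ne_zero.2 h
  constructor
  · obtain ⟨r, r1, r2⟩ := fr w hp h1 h3
    rw [add_sub_cancel, e, e', ← mul_pow_sub_one hp.ne_zero] at r2
    rw [show (θ' - θ) ^ (p - 1) - d = -(p * θ * r) from
      mul_left_cancel₀ h0 (by linear_combination -r2), Valuation.map_neg, map_mul, map_mul]
    exact (mul_le_of_le_one_right' r1).trans (mul_le_of_le_one_right' h1)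
  · obtain ⟨r, hr⟩ := powAddExpansion (⟨θ, h1⟩ : w.integer) ⟨θ' - θ, h3⟩ p
    have r2 : (θ + (θ' - θ)) ^ p = θ ^ p + p * θ ^ (p - 1) * (θ' - θ) + r * (θ' - θ) ^ 2 := by
      simpa using congrArg Subtype.val hr
    rw [add_sub_cancel, e, e'] at r2
    rw [show d - p * θ ^ (p - 1) = r * (θ' - θ) from
      mul_left_cancel₀ h0 (by linear_combination r2), map_mul]
    exact mul_le_of_le_one_left' r.2

theorem step2 (hp : p.Prime) (h : PC p L Ω) (b ρ : L) (r0 : w p < w (algebraMap L Ω ρ) ^ p)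
    (r1 : w (algebraMap L Ω ρ) ^ p < w (algebraMap L Ω b)) (hb : w (algebraMap L Ω b) ≤ 1)
    (best : ∀ c : L, w (algebraMap L Ω b) ≤ w (algebraMap L Ω b - algebraMap L Ω c ^ p)) :
    ∃ θ : Ω, (∀ c, algebraMap L Ω c ≠ θ) ∧
      ∀ c ∈ L⟮θ⟯, w (algebraMap L Ω ρ) ^ p ≤ w (algebraMap L Ω b - c ^ p) := by
  obtain ⟨θ, e⟩ := as1 (Ω := Ω) hp (ρ ^ (p - 1)) b
  have e0 := e
  rw [map_pow] at e
  generalize hB : algebraMap L Ω b = B at *
  generalize hR : algebraMap L Ω ρ = R at *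
  have R0 : 0 < w R := by
    rw [zero_lt_iff]; intro h; simp [h, hp.ne_zero] at r0
  have R1 : w R ≤ 1 := (pow_le_one_iff hp.ne_zero).1 (r1.le.trans hb)
  have rt : ∀ θ : Ω, θ ^ p = R ^ (p - 1) * θ + B → w R < w θ ∧ w (R ^ (p - 1) * θ) < w B ∧
      w θ ^ p = w B ∧ w θ ≤ 1 := by
    intro θ e
    have h1 : w R < w θ := by
      by_contra! h1
      refine r1.not_ge ?_
      rw [show B = θ ^ p - R ^ (p - 1) * θ by rw [e]; ring]
      refine w.map_sub_le (by rw [map_pow]; exact pow_le_pow_left' h1 p) ?_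
      rw [map_mul, map_pow, ← pow_sub_one_mul hp.ne_zero]
      exact mul_le_mul' le_rfl h1
    have h2 : w (R ^ (p - 1) * θ) < w (θ ^ p) := by
      rw [map_mul, map_pow, map_pow, ← pow_sub_one_mul hp.ne_zero]
      exact mul_lt_mul_of_pos_right (pow_lt_pow_left₀ h1 zero_le (by have := hp.two_le; omega))
        (R0.trans h1)
    have h3 : w θ ^ p = w B := by
      rw [show B = θ ^ p - R ^ (p - 1) * θ by rw [e]; ring, w.map_sub_eq_of_lt_left h2, map_pow]
    exact ⟨h1, by rwa [← h3, ← map_pow], h3, (pow_le_one_iff hp.ne_zero).1 (h3 ▸ hb)⟩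
  obtain ⟨t1, t2, t3, t4⟩ := rt θ e
  have rp : w p < w R ^ (p - 1) := r0.trans_le (pow_le_pow_right_of_le_one' R1 (Nat.sub_le _ _))
  have n1 : ∀ c, algebraMap L Ω c ≠ θ := by
    rintro c rfl
    have := best c
    rw [e, sub_add_cancel_right, Valuation.map_neg] at this
    exact t2.not_ge this
  obtain ⟨hd, hσ⟩ := as2 hp h (hB ▸ e0) n1
  obtain ⟨σ, hσ⟩ := hσ (fun h => by
    rw [map_pow, hR] at h
    rw [← map_pow, ← h, map_mul, map_pow] at rp
    exact rp.not_ge (mul_le_of_le_one_right' (pow_le_one' t4 _)))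
  have e' : σ θ ^ p = R ^ (p - 1) * σ θ + B := by
    have := congrArg σ e
    rwa [map_pow, map_add, map_mul, map_pow, ← hR, ← hB, σ.commutes, σ.commutes, hR, hB] at this
  have he : w (σ θ - θ) = w R := by
    have h1 := (eps w hp e e' hσ t4 (rt _ e').2.2.2).1.trans_lt rp
    rw [← map_pow] at h1
    have h2 := w.map_eq_of_sub_lt h1
    rw [map_pow, map_pow] at h2
    exact (pow_left_inj₀ zero_le zero_le (by have := hp.two_le; omega)).1 h2
  have T0 := R0.trans t1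
  have est := h.est w hd.le σ (κ := w R / w θ) ((div_le_one₀ T0).2 t1.le) (fun c => by
    have : w θ ≤ w (θ - algebraMap L Ω c) := by
      by_contra! h1
      have c1 : w (algebraMap L Ω c) ≤ 1 := by
        have := w.map_sub_le t4 (h1.le.trans t4)
        rwa [sub_sub_cancel] at this
      have h2 : w ((θ - algebraMap L Ω c) ^ p) < w B := by
        rw [map_pow, ← t3]; exact pow_lt_pow_left₀ h1 zero_le hp.ne_zero
      have h3 := w.map_sub_lt (w.map_sub_lt h2 ((fr_sub w hp t4 c1).trans_lt (r0.trans r1))) t2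
      rw [e, show ∀ a b c d : Ω, a - (a - (b + c - d)) - b = c - d by intros; ring] at h3
      exact h3.not_ge (best c)
    rw [he]
    calc w R = w R / w θ * w θ := (div_mul_cancel₀ _ T0.ne').symm
      _ ≤ _ := mul_le_mul' le_rfl this)
  refine ⟨θ, n1, fun c hc => ?_⟩
  by_contra! h1
  have c1 : w c ≤ 1 := le_one_of w hp hb ((h1.trans r1).le.trans hb)
  have h2 : w (θ - c) < w θ := by
    refine lt_of_pow_lt_pow_left₀ p zero_le ?_
    have := w.map_add_lt ((fr_sub w hp t4 c1).trans_lt (r0.trans r1))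
      (w.map_add_lt t2 (h1.trans r1))
    rwa [e, show ∀ a b c d : Ω, a - (b + c - d) + (b + (c - d)) = a by intros; ring, map_pow,
      ← t3] at this
  have h3 : w (σ c - c) = w R := by
    have h4 := (est _ (sub_mem (mem_adjoin_simple_self L θ) hc)).trans_lt
      (mul_lt_mul_of_pos_left h2 (div_pos R0 T0))
    rw [div_mul_cancel₀ _ T0.ne', ← he, map_sub σ,
      show σ θ - σ c - (θ - c) = -((σ c - c) - (σ θ - θ)) by ring, Valuation.map_neg] at h4
    rw [← he]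
    exact w.map_eq_of_sub_lt h4
  have c2 : w (σ c) ≤ 1 := by
    have := w.map_add_le (h3.le.trans R1) c1
    rwa [sub_add_cancel] at this
  have h5 := (est _ (sub_mem (hB ▸ L⟮θ⟯.algebraMap_mem b) (pow_mem hc p))).trans_lt
    ((mul_le_of_le_one_left' ((div_le_one₀ T0).2 t1.le)).trans_lt h1)
  rw [map_sub σ, map_pow σ, ← hB, σ.commutes] at h5
  have h6 := w.map_sub_lt ((fr_sub w hp c2 c1).trans_lt r0) h5
  rw [show ∀ a b c d : Ω, a - (b - c) - (d - b - (d - c)) = a by intros; ring, map_pow, h3] at h6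
  exact lt_irrefl _ h6

theorem rho (hp : p.Prime) (h : PC p L Ω) (π : L) (j : ℕ) : ∃ ρ : L, ρ ^ (p * j + 1) = π ^ j := by
  obtain ⟨c, hc⟩ := h.root (X ^ (p * j + 1) - C (π ^ j)) (by
    rw [natDegree_X_pow_sub_C]
    exact fun h => hp.one_lt.ne' (Nat.dvd_one.1 ((Nat.dvd_add_right (dvd_mul_right p j)).1 h)))
  exact ⟨c, by simpa [sub_eq_zero] using hc⟩

end

variable {K : Type} [Field K] [Algebra K Ω] [IsAlgClosed Ω] [Algebra.IsAlgebraic K Ω]

theorem zorn (hp : p.Prime) (hw : w p < 1) (hinv : ∀ (σ : Ω ≃ₐ[K] Ω) x, w (σ x) = w x)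
    (T : Set Γ) (hT : IsUpperSet T) (hpT : ∀ τ ∈ T, w p < τ) (K1 : IntermediateField K Ω) (a : Ω)
    (a1 : a ∈ K1) (ha : w a ≤ 1) (h : ∀ c ∈ K1, w (a - c ^ p) ∈ T) :
    ∃ L : IntermediateField K Ω, K1 ≤ L ∧ (∀ c ∈ L, w (a - c ^ p) ∈ T) ∧
      (∀ x, (∀ c ∈ L⟮x⟯, w (a - c ^ p) ∈ T) → x ∈ L) ∧ PC p L Ω := by
  obtain ⟨L, h1, h2⟩ := zorn_le_nonempty₀ {L : IntermediateField K Ω | ∀ c ∈ L, w (a - c ^ p) ∈ T}
    (fun c hc hc' y hy => ⟨⨆ i : c, i.1, fun x hx => by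
      have : Nonempty c := ⟨⟨y, hy⟩⟩
      have hx' : x ∈ ((⨆ i : c, i.1 : IntermediateField K Ω) : Set Ω) := hx
      rw [coe_iSup_of_directed hc'.directed, Set.mem_iUnion] at hx'
      obtain ⟨i, hi⟩ := hx'
      exact hc i.2 x hi, fun z hz => le_iSup (fun i : c => i.1) ⟨z, hz⟩⟩) K1 h
  have h3 : ∀ x, (∀ c ∈ L⟮x⟯, w (a - c ^ p) ∈ T) → x ∈ L := fun x hx =>
    h2.2 (y := L⟮x⟯.restrictScalars K) hx (fun y hy => L⟮x⟯.algebraMap_mem ⟨y, hy⟩)
      (mem_adjoin_simple_self L x)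
  refine ⟨L, h1, h2.1, h3, fun x hx => ⟨⟨x, h3 x (fun c hc => ?_)⟩, rfl⟩⟩
  obtain ⟨c', hc'⟩ := avg (L := L) w hp hw (fun σ => hinv (σ.restrictScalars K)) (⟨a, h1 a1⟩ : L) ha
    (fun c => hpT _ (h2.1 c c.2)) c (fun h => hx (h.trans (by
      rw [← adjoin.finrank (Algebra.IsIntegral.isIntegral x), ← minpoly_eq (⟨c, hc⟩ : L⟮x⟯)]
      exact minpoly.degree_dvd (Algebra.IsIntegral.isIntegral _))))
  exact hT hc' (h2.1 c' c'.2)

end Pool.Agent.H72.Dfc
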