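import Pool.Agent.H72.DfcB

set_option autoImplicit false
set_option linter.unusedVariables false
set_option linter.unusedSectionVars false

namespace Pool.Agent.H72.Dfc

open Polynomial IntermediateField

variable {Ω Γ : Type} [Field Ω] [LinearOrderedCommGroupWithZero Γ] (w : Valuation Ω Γ) {p : ℕ}

theorem num (hp : p.Prime) {μ r : Γ} {j : ℕ} (m0 : 0 < μ) (m1 : μ < 1)
    (e : r ^ (p * j + 1) = μ ^ j) : μ < r ^ p ∧ (∃ n, μ ^ n < (r ^ p) ^ (n + 1)) ∧
      ∀ β ≤ 1, μ ^ j < β ^ (j + 1) → r ^ p < β := by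
  have e' : (r ^ p) ^ (p * j + 1) = μ ^ (p * j) := by
    rw [← pow_mul, mul_comm p, pow_mul, e, ← pow_mul, mul_comm]
  have h1 : μ < r ^ p := lt_of_pow_lt_pow_left₀ (p * j + 1) zero_le (by
    rw [e']; exact pow_lt_pow_right_of_lt_one₀ m0 m1 (Nat.lt_succ_self _))
  refine ⟨h1, ⟨p * j + 1, ?_⟩, fun β b1 b2 => lt_of_pow_lt_pow_left₀ (p * j + 1) zero_le ?_⟩
  · rw [pow_succ (r ^ p), e', pow_succ]
    exact mul_lt_mul_of_pos_left h1 (pow_pos m0 _)
  · rw [e', mul_comm p, pow_mul]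
    refine (pow_lt_pow_left₀ b2 zero_le hp.ne_zero).trans_le ?_
    rw [← pow_mul]
    exact pow_le_pow_right_of_le_one' b1 (by have := hp.one_lt; nlinarith)

variable {K : Type} [Field K] [Algebra K Ω] [IsAlgClosed Ω] [Algebra.IsAlgebraic K Ω]

theorem good (hp : p.Prime) (hinv : ∀ (σ : Ω ≃ₐ[K] Ω) x, w (σ x) = w x)
    (K1 : IntermediateField K Ω) {π a : Ω} (p1 : π ∈ K1) (a1 : a ∈ K1) (m0 : π ≠ 0) (m1 : w π < 1)
    (m2 : w p ≤ w π) (ha : w a ≤ 1) (h : ∀ c ∈ K1, w π < w (a - c ^ p)) :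
    ∃ (L : IntermediateField K Ω) (a : Ω), π ∈ L ∧ a ∈ L ∧ w a ≤ 1 ∧ PC p L Ω ∧
      ∀ c ∈ L, w π < w (a - c ^ p) ∧ ∃ c' ∈ L, w (a - c' ^ p) < w (a - c ^ p) := by
  have hw := m2.trans_lt m1
  have m0' : 0 < w π := by simpa [zero_lt_iff] using m0
  obtain ⟨L0, l1, l2, -, l3⟩ := zorn w hp hw hinv (Set.Ioi (w π)) (isUpperSet_Ioi _)
    (fun τ h => m2.trans_lt h) K1 a a1 ha h
  have hrho : ∀ (L : IntermediateField K Ω), π ∈ L → PC p L Ω → ∀ j, ∃ ρ ∈ L,
      w ρ ^ (p * j + 1) = w π ^ j := by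
    intro L h1 h2 j
    obtain ⟨ρ, e⟩ := rho hp h2 ⟨π, h1⟩ j
    exact ⟨ρ, ρ.2, by rw [← map_pow, ← map_pow]; exact congrArg (fun x : L => w x) e⟩
  obtain ⟨ρ, r1, r2⟩ := hrho L0 (l1 p1) l3 1
  obtain ⟨r3, r4, -⟩ := num hp m0' m1 r2
  have r5 : w ρ ≤ 1 := (pow_le_one_iff (Nat.succ_ne_zero _)).1 (r2.le.trans (pow_le_one' m1.le _))
  have r0 : ρ ≠ 0 := by rintro rfl; simp [hp.ne_zero] at r3
  obtain ⟨a', a2, a3, a4⟩ : ∃ a' ∈ L0, w a' ≤ 1 ∧ ∀ c ∈ L0, w ρ ^ p < w (a' - c ^ p) := by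
    by_contra! h1
    obtain ⟨c, c1, c2⟩ := h1 a (l1 a1) ha
    have c3 := le_one_of w hp ha (c2.trans (pow_le_one' r5 _))
    have x1 : w ((a - c ^ p) / ρ ^ p) ≤ 1 := by
      rw [map_div₀, map_pow]; exact div_le_one_of_le₀ c2 zero_le
    obtain ⟨d, d1, d2⟩ := h1 _ (div_mem (sub_mem (l1 a1) (pow_mem c1 p)) (pow_mem r1 p)) x1
    have d3 := le_one_of w hp x1 (d2.trans (pow_le_one' r5 _))
    refine (l2 (c + ρ * d) (add_mem c1 (mul_mem r1 d1))).not_ge ?_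
    rw [show a - (c + ρ * d) ^ p = ρ ^ p * ((a - c ^ p) / ρ ^ p - d ^ p) -
      ((c + ρ * d) ^ p - (c ^ p + (ρ * d) ^ p)) by field_simp; ring]
    refine w.map_sub_le ?_ ((fr_add w hp c3 (by rw [map_mul]; exact mul_le_one' r5 d3)).trans m2)
    rw [map_mul, map_pow]
    refine (mul_le_mul' le_rfl d2).trans ?_
    rw [← pow_one (w π), ← r2, ← pow_add]
    exact pow_le_pow_right_of_le_one' r5 (by have := hp.one_lt; omega)
  let T : Set Γ := {τ | ∃ n, w π ^ n < τ ^ (n + 1)}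
  have T1 : IsUpperSet T := fun x y h ⟨n, hn⟩ => ⟨n, hn.trans_le (pow_le_pow_left' h _)⟩
  have T2 : ∀ τ ∈ T, w π < τ := fun τ ⟨n, hn⟩ => lt_of_pow_lt_pow_left₀ (n + 1) zero_le
    ((pow_le_pow_right_of_le_one' m1.le (Nat.le_succ n)).trans_lt hn)
  obtain ⟨L, k1, k2, k3, k4⟩ := zorn w hp hw hinv T T1 (fun τ h => m2.trans_lt (T2 τ h)) L0 a' a2 a3
    (fun c hc => T1 (a4 c hc).le r4)
  refine ⟨L, a', k1 (l1 p1), k1 a2, a3, k4, fun c hc => ⟨T2 _ (k2 c hc), ?_⟩⟩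
  by_contra! best
  have b1 : w (a' - c ^ p) ≤ 1 := (best 0 (zero_mem _)).trans (by simpa [hp.ne_zero] using a3)
  have c1 := le_one_of w hp a3 b1
  obtain ⟨n, hn⟩ := k2 c hc
  obtain ⟨ρ, r1, r2⟩ := hrho L (k1 (l1 p1)) k4 n
  obtain ⟨r3, r4, r5⟩ := num hp m0' m1 r2
  have r6 := r5 _ b1 hn
  obtain ⟨θ, t1, t2⟩ := step2 w hp k4 ⟨a' - c ^ p, sub_mem (k1 a2) (pow_mem hc p)⟩ ⟨ρ, r1⟩
    (m2.trans_lt r3) r6 b1 (fun d => by
      change w (a' - c ^ p) ≤ w (a' - c ^ p - d ^ p)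
      by_contra! h1
      have := w.map_sub_lt h1 ((fr_add w hp c1 (le_one_of w hp b1 (h1.le.trans b1))).trans_lt
        (m2.trans_lt (r3.trans r6)))
      rw [show ∀ a b c d : Ω, a - b - c - (d - (b + c)) = a - d by intros; ring] at this
      exact this.not_ge (best _ (add_mem hc d.2)))
  refine t1 ⟨θ, k3 θ (fun d hd => T1 (?_ : w ρ ^ p ≤ _) r4)⟩ rfl
  by_contra! h1
  have := w.map_sub_lt h1 ((fr_sub w hp (le_one_of w hp a3 ((h1.trans r6).le.trans b1))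
    c1).trans_lt (m2.trans_lt r3))
  rw [show ∀ a b c d : Ω, a - b - (d - (b - c)) = a - c - d by intros; ring] at this
  exact this.not_ge (t2 _ (sub_mem hd (L⟮θ⟯.algebraMap_mem ⟨c, hc⟩)))

variable {L : Type} [Field L] [Algebra L Ω] [Algebra.IsAlgebraic L Ω]

theorem dep (hp : p.Prime) (h : PC p L Ω) (π a d : L) (m0 : π ≠ 0) (m1 : w (algebraMap L Ω π) < 1)
    (m2 : w p ≤ w (algebraMap L Ω π)) (ha : w (algebraMap L Ω a) ≤ 1)
    (hc : ∀ c : L, w (algebraMap L Ω π) < w (algebraMap L Ω a - algebraMap L Ω c ^ p) ∧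
      ∃ c' : L, w (algebraMap L Ω a - algebraMap L Ω c' ^ p) <
        w (algebraMap L Ω a - algebraMap L Ω c ^ p))
    (hd : (d = 0 ∧ π = p ∧ ∃ ζ : L, ζ ≠ 1 ∧ ζ ^ p = 1) ∨ (d = π ^ (p - 1) ∧ CharP L p)) :
    ∃ θ : Ω, Module.finrank L L⟮θ⟯ = p ∧ IsGalois L L⟮θ⟯ ∧
      (∀ f ∈ L⟮θ⟯, ∃ (e : L) (u : Ω), f = algebraMap L Ω e * u ∧ w (u - 1) < 1) ∧
      ∀ σ : Ω ≃ₐ[L] Ω, σ θ ≠ θ → (∀ f ∈ L⟮θ⟯, f ≠ 0 →
        w ((σ f - f) / f) ^ (p * (p - 1)) ≤ w (algebraMap L Ω π)) ∧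
        w (algebraMap L Ω π) ^ p ≤ w ((σ θ - θ) / θ) := by
  obtain ⟨θ, e⟩ := as1 (Ω := Ω) hp d a
  have hi : IsIntegral L θ := Algebra.IsIntegral.isIntegral θ
  have h2 := hp.two_le
  have M0 : 0 < w (algebraMap L Ω π) := by simpa [zero_lt_iff] using m0
  have d1 : w (algebraMap L Ω d) ≤ w (algebraMap L Ω π) := by
    rcases hd with ⟨rfl, -⟩ | ⟨rfl, -⟩
    · simp
    · rw [map_pow, map_pow]; exact pow_le_of_le_one zero_le m1.le (by omega)
  have rt : ∀ θ : Ω, θ ^ p = algebraMap L Ω d * θ + algebraMap L Ω a → w θ ≤ 1 := by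
    intro θ e
    by_contra! h1
    have h3 : w θ ≤ w θ ^ p := le_self_pow₀ h1.le hp.ne_zero
    have := w.map_add_lt (x := algebraMap L Ω d * θ) (y := algebraMap L Ω a) (g := w θ ^ p)
      (by rw [map_mul]; exact (mul_lt_of_lt_one_left (zero_lt_one.trans h1)
        (d1.trans_lt m1)).trans_le h3) ((ha.trans_lt h1).trans_le h3)
    rw [← e, map_pow] at this
    exact lt_irrefl _ this
  have t1 := rt θ e
  have key : ∀ c : L, w (algebraMap L Ω a - algebraMap L Ω c ^ p) ≤ 1 →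
      w (θ - algebraMap L Ω c) ^ p = w (algebraMap L Ω a - algebraMap L Ω c ^ p) := by
    intro c h1
    rw [← map_pow]
    refine w.map_eq_of_sub_lt ?_
    have := w.map_add_lt ((fr_sub w hp t1 (le_one_of w hp ha h1)).trans_lt (m2.trans_lt (hc c).1))
      (y := algebraMap L Ω d * θ)
      (by rw [map_mul]; exact ((mul_le_of_le_one_right' t1).trans d1).trans_lt (hc c).1)
    rwa [e, show ∀ a b c d : Ω, a - (b + c - d) + b = a - (c - d) by intros; ring] at this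
  have k1 : ∀ c : L, w (algebraMap L Ω π) < w (θ - algebraMap L Ω c) ^ p ∧
      ∃ c' : L, w (θ - algebraMap L Ω c') < w (θ - algebraMap L Ω c) := by
    intro c
    by_cases h1 : w (algebraMap L Ω a - algebraMap L Ω c ^ p) ≤ 1
    · obtain ⟨c', h3⟩ := (hc c).2
      refine ⟨key c h1 ▸ (hc c).1, c', lt_of_pow_lt_pow_left₀ p zero_le ?_⟩
      rwa [key c h1, key c' (h3.le.trans h1)]
    · have h3 : 1 < w (θ - algebraMap L Ω c) := by
        by_contra! h3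
        have := w.map_sub_le t1 h3
        rw [sub_sub_cancel] at this
        exact h1 (w.map_sub_le ha (by rw [map_pow]; exact pow_le_one' this p))
      exact ⟨m1.trans (one_lt_pow₀ h3 hp.ne_zero), 0, by simpa using t1.trans_lt h3⟩
  have n1 : ∀ c, algebraMap L Ω c ≠ θ := by
    rintro c rfl
    simpa [hp.ne_zero] using (k1 c).1
  have T0 : θ ≠ 0 := fun h => n1 0 (by simp [h])
  have T1 : w (algebraMap L Ω π) < w θ ^ p := by simpa using (k1 0).1
  have hdeg := (as2 hp h e n1).1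
  have hfr : Module.finrank L L⟮θ⟯ = p := by rw [adjoin.finrank hi, hdeg]
  have hmin : ∀ x : Ω, x ^ p = algebraMap L Ω d * x + algebraMap L Ω a →
      x ∈ (minpoly L θ).aroots Ω := by
    intro x hx
    rw [← eq_of_monic_of_dvd_of_natDegree_le (minpoly.monic hi) (as0 hp d a).1
      (minpoly.dvd _ _ (by simp [e])) (by rw [(as0 hp d a).2, hdeg]), mem_aroots]
    exact ⟨(as0 hp d a).1.ne_zero, by simp [hx]⟩
  refine ⟨θ, hfr, ?_, h.ind hdeg.le _ (fun e => ⟨e, 1, by simp⟩) (fun b => ?_) ?_, fun σ hσ => ?_⟩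
  · obtain ⟨x, x1, x2, x3⟩ : ∃ x ∈ L⟮θ⟯, x ≠ θ ∧
        x ^ p = algebraMap L Ω d * x + algebraMap L Ω a := by
      rcases hd with ⟨rfl, -, ζ, z1, z2⟩ | ⟨rfl, _⟩
      · refine ⟨algebraMap L Ω ζ * θ, mul_mem (L⟮θ⟯.algebraMap_mem _) (mem_adjoin_simple_self L θ),
          by simpa [T0] using z1, ?_⟩
        rw [mul_pow, ← map_pow, z2, e]; simp
      · have := charP_of_injective_algebraMap (algebraMap L Ω).injective p
        have := Fact.mk hp
        refine ⟨θ + algebraMap L Ω π, add_mem (mem_adjoin_simple_self L θ)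
          (L⟮θ⟯.algebraMap_mem _), by simpa using m0, ?_⟩
        rw [add_pow_char, e, map_pow, ← pow_sub_one_mul hp.ne_zero (algebraMap L Ω π)]
        ring
    obtain ⟨σ, rfl⟩ := conj (hmin x x3)
    have := adjoin.finiteDimensional hi
    have hm : ∀ f : L⟮θ⟯, σ f ∈ L⟮θ⟯ := by
      have : L⟮θ⟯.map σ.toAlgHom ≤ L⟮θ⟯ := by
        rw [adjoin_map, Set.image_singleton]; exact adjoin_simple_le_iff.2 x1
      exact fun f => this ⟨f, f.2, rfl⟩
    let τ : L⟮θ⟯ →ₐ[L] L⟮θ⟯ := (σ.toAlgHom.comp L⟮θ⟯.val).codRestrict L⟮θ⟯.toSubalgebra hm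
    refine IsGalois.of_fixedField_eq_bot _ _ (((isSimpleOrder_of_finrank_prime _ _
      (hfr ▸ hp)).eq_bot_or_eq_top _).resolve_right (fun h => x2 ?_))
    exact congrArg Subtype.val ((mem_fixedField_iff _ _).1 (h.ge (mem_top (x := AdjoinSimple.gen L θ)))
      (AlgEquiv.ofBijective τ (Algebra.IsAlgebraic.algHom_bijective τ)) (Subgroup.mem_top _))
  · obtain ⟨c, hc⟩ := (k1 b).2
    have h3 : w (algebraMap L Ω c - algebraMap L Ω b) = w (θ - algebraMap L Ω b) :=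
      w.map_eq_of_sub_lt (by rwa [sub_sub_sub_cancel_right, w.map_sub_swap])
    have h4 : algebraMap L Ω c - algebraMap L Ω b ≠ 0 := fun h => by
      rw [h, map_zero] at h3; rw [← h3] at hc; exact not_lt_zero hc
    refine ⟨c - b, (θ - algebraMap L Ω b) / (algebraMap L Ω c - algebraMap L Ω b),
      by rw [map_sub, mul_div_cancel₀ _ h4], ?_⟩
    rw [div_sub_one h4, sub_sub_sub_cancel_right, map_div₀, h3]
    exact (div_lt_one₀ (zero_le.trans_lt hc)).2 hc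
  · rintro _ _ ⟨e, u, rfl, h1⟩ ⟨e', u', rfl, h3⟩
    refine ⟨e * e', u * u', by rw [map_mul]; ring, ?_⟩
    rw [show u * u' - 1 = (u - 1) * (u' - 1) + ((u - 1) + (u' - 1)) by ring]
    exact w.map_add_lt (by rw [map_mul]; exact (mul_le_of_le_one_left' h1.le).trans_lt h3)
      (w.map_add_lt h1 h3)
  · have e' : σ θ ^ p = algebraMap L Ω d * σ θ + algebraMap L Ω a := by
      simpa using congrArg σ e
    obtain ⟨s1, s2⟩ := eps w hp e e' hσ t1 (rt _ e')
    have s3 : w (σ θ - θ) ^ (p * (p - 1)) ≤ w (algebraMap L Ω π) ^ p ∧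
        w (algebraMap L Ω π) ^ p ≤ w (σ θ - θ) := by
      rcases hd with ⟨rfl, rfl, -⟩ | ⟨rfl, _⟩
      · rw [map_zero, sub_zero, map_pow] at s1
        rw [map_zero, zero_sub, Valuation.map_neg, map_mul, map_pow] at s2
        rw [map_natCast] at T1 m1 ⊢
        refine ⟨by rw [mul_comm, pow_mul]; exact pow_le_pow_left' s1 p, le_trans ?_ s2⟩
        refine (pow_le_pow_right_of_le_one' m1.le h2).trans ?_
        rw [sq]
        exact mul_le_mul' le_rfl (T1.le.trans (pow_le_pow_right_of_le_one' t1 (Nat.sub_le _ _)))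
      · have := charP_of_injective_algebraMap (algebraMap L Ω).injective p
        rw [CharP.cast_eq_zero, map_zero, le_zero_iff, w.zero_iff, sub_eq_zero, map_pow] at s1
        have s4 := congrArg w s1
        rw [map_pow, map_pow, pow_left_inj₀ zero_le zero_le (by omega)] at s4
        rw [s4]
        exact ⟨pow_le_pow_right_of_le_one' m1.le (Nat.le_mul_of_pos_right _ (by omega)),
          pow_le_of_le_one zero_le m1.le hp.ne_zero⟩
    refine ⟨fun f hf f0 => ?_, s3.2.trans ?_⟩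
    swap
    · rw [map_div₀, le_div_iff₀ (by simpa [zero_lt_iff] using T0)]
      exact mul_le_of_le_one_right' t1
    obtain ⟨η, hη⟩ := IsAlgClosed.exists_pow_nat_eq (algebraMap L Ω π) hp.pos
    have y0 : 0 < w η := by
      rw [zero_lt_iff]; intro h; rw [← hη, map_pow, h] at M0; simp [hp.ne_zero] at M0
    have y1 : (w (σ θ - θ) / w η) ^ (p * (p - 1)) ≤ w (algebraMap L Ω π) := by
      rw [div_pow, pow_mul (w η), ← map_pow w η, hη, div_le_iff₀ (pow_pos M0 _),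
        mul_pow_sub_one hp.ne_zero]
      exact s3.1
    have := h.est w hdeg.le σ (κ := w (σ θ - θ) / w η) ((pow_le_one_iff
      (Nat.mul_ne_zero hp.ne_zero (by omega))).1 (y1.trans m1.le)) (fun b => by
      have : w η ≤ w (θ - algebraMap L Ω b) := le_of_lt (lt_of_pow_lt_pow_left₀ p zero_le (by
        rw [← map_pow, hη]; exact (k1 b).1))
      calc w (σ θ - θ) = w (σ θ - θ) / w η * w η := (div_mul_cancel₀ _ y0.ne').symm
        _ ≤ _ := mul_le_mul' le_rfl this) f hf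
    refine le_trans (pow_le_pow_left' ?_ _) y1
    rwa [map_div₀, div_le_iff₀ (by simpa [zero_lt_iff] using f0)]

end Pool.Agent.H72.Dfc
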