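import Pool.Agent.H72.DfcC

set_option autoImplicit false
set_option linter.unusedVariables false
set_option linter.unusedSectionVars false

namespace Pool.Agent.H72.Dfc

open Polynomial IntermediateField Topology Filter

theorem ball {F Γ : Type} [Field F] [LinearOrderedCommGroupWithZero Γ] [Valued F Γ] {s : Set F}
    {x : F} : s ∈ 𝓝 x ↔ ∃ y : F, y ≠ 0 ∧ {z | Valued.v (z - x) < Valued.v y} ⊆ s := by
  rw [Valued.mem_nhds]
  constructor
  · rintro ⟨γ, h⟩
    obtain ⟨y, hy⟩ := MonoidWithZeroHom.ValueGroup₀.restrict₀_surjective _ γ.1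
    have hy' : (Valued.v : Valuation F Γ).restrict y = γ.1 := hy
    refine ⟨y, fun e => γ.ne_zero (by rw [← hy', e, map_zero]), fun z hz => h ?_⟩
    show _ < γ.1
    rw [← hy', Valuation.restrict_lt_iff]
    exact hz
  · rintro ⟨y, y0, h⟩
    exact ⟨Units.mk0 ((Valued.v : Valuation F Γ).restrict y) (by simpa using y0),
      fun z hz => h (Valued.v.restrict_lt_iff.1 hz)⟩

theorem compl {F Γ : Type} [Field F] [LinearOrderedCommGroupWithZero Γ] [Valued F Γ] {p : ℕ}
    (hp : p.Prime) [CharP F p]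
    (h : ∀ a : F, Valued.v a ≤ 1 → ∀ y : F, y ≠ 0 → ∃ c, Valued.v (c ^ p - a) < Valued.v y)
    (x : UniformSpace.Completion F) (hx : Valued.v x ≤ 1) : ∃ z, z ^ p = x := by
  have := Fact.mk hp
  have : CharP (UniformSpace.Completion F) p :=
    charP_of_injective_ringHom (UniformSpace.Completion.coeRingHom (α := F)).injective p
  let φ := frobenius (UniformSpace.Completion F) p
  have h1 : IsInducing φ := by
    refine (IsTopologicalAddGroup.isInducing_iff_nhds_zero (f := φ)).2 (le_antisymm ?_ ?_)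
    · have := (continuous_pow p (M := UniformSpace.Completion F)).tendsto 0
      rw [zero_pow hp.ne_zero] at this
      exact this.le_comap
    · intro s hs
      obtain ⟨y, y0, hy⟩ := ball.1 hs
      refine mem_comap.2 ⟨_, ball.2 ⟨y ^ p, pow_ne_zero _ y0, subset_rfl⟩, fun z hz => hy ?_⟩
      simp only [Set.mem_preimage, Set.mem_ofPred_eq, sub_zero, φ, frobenius_def, map_pow] at hz ⊢
      exact lt_of_pow_lt_pow_left₀ p zero_le hz
  have h2 : IsClosed (Set.range φ) :=
    (AddMonoidHom.isUniformInducing_of_isInducing (f := φ) h1).isComplete_range.isClosed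
  revert hx
  induction x using UniformSpace.Completion.induction_on with
  | hp =>
    have := (Valued.isOpen_integer (UniformSpace.Completion F)).isClosed_compl.union h2
    refine cast (congrArg IsClosed (Set.ext (fun x => ?_))) this
    exact imp_iff_not_or.symm
  | ih a =>
    intro ha
    rw [Valued.valuedCompletion_apply] at ha
    have h3 : a ∈ closure (Set.range (fun c : F => c ^ p)) := mem_closure_iff_nhds.2 (fun s hs => by
      obtain ⟨y, y0, hy⟩ := ball.1 hs
      obtain ⟨c, hc⟩ := h a ha y y0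
      exact ⟨_, hy hc, c, rfl⟩)
    refine h2.closure_subset (map_mem_closure (UniformSpace.Completion.continuous_coe F) h3 ?_)
    rintro _ ⟨c, rfl⟩
    exact ⟨c, (map_pow UniformSpace.Completion.coeRingHom c p).symm⟩

theorem eqv {F Ω : Type} [Field F] [Field Ω] (W : ValuationSubring Ω) (f : F →+* Ω) :
    (W.comap f).valuation.IsEquiv (W.valuation.comap f) :=
  Valuation.isEquiv_iff_val_le_one.2 (fun {x} => by simp [ValuationSubring.valuation_le_one_iff])

theorem inv_val {K Ω : Type} [Field K] [Field Ω] [Algebra K Ω] [Algebra.IsAlgebraic K Ω]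
    (W : ValuationSubring Ω) (h : ∀ σ : Ω ≃ₐ[K] Ω, W.comap σ = W) (σ : Ω ≃ₐ[K] Ω) (x : Ω) :
    W.valuation (σ x) = W.valuation x := by
  have key : ∀ (σ : Ω ≃ₐ[K] Ω) x, ¬ W.valuation (σ x) < W.valuation x := by
    intro σ x hx
    have h1 := eqv W (σ : Ω →+* Ω)
    rw [h σ] at h1
    have h2 : StrictAnti (fun n => W.valuation (σ^[n] x)) := strictAnti_nat_of_succ_lt (fun n => by
      induction n with
      | zero => exact hx
      | succ n ih =>
        rw [Function.iterate_succ_apply' σ (n + 1), Function.iterate_succ_apply' σ n x]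
        rw [Function.iterate_succ_apply'] at ih
        exact h1.lt_iff_lt.1 ih)
    refine Set.infinite_of_injective_forall_mem (f := fun n => σ^[n] x)
      (Function.Injective.of_comp (f := W.valuation) h2.injective) (fun n => ?_)
      ((minpoly K x).rootSet_finite Ω)
    induction n with
    | zero =>
      exact (mem_rootSet_of_ne (minpoly.ne_zero (Algebra.IsIntegral.isIntegral x))).2
        (minpoly.aeval K x)
    | succ n ih => rw [Function.iterate_succ_apply']; exact rootSet_mapsTo σ.toAlgHom ih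
  refine le_antisymm (not_lt.1 (fun h => key σ.symm (σ x) ?_)) (not_lt.1 (key σ x))
  rwa [σ.symm_apply_apply]

theorem grp {G : Type} [CommGroup G] [LinearOrder G] [IsOrderedMonoid G] (H : Subgroup G)
    (h1 : ∀ α, ∀ h₁ ∈ H, ∀ h₂ ∈ H, h₁ ≤ α → α ≤ h₂ → α ∈ H)
    (h2 : ∀ α, (∀ h ∈ H, α < h) → ∃ β, (∀ h ∈ H, β < h) ∧ ∀ h ∈ H, α / β < h) {μ α : G}
    {n N : ℕ} (m1 : μ ≤ 1) (a1 : ∀ h ∈ H, α < h) (a2 : μ ^ n ≤ α)
    (a3 : ∀ β, (∀ h ∈ H, β < h) → β ^ N ≤ μ) : False := by
  have h3 : ∀ h ∈ H, μ < h := fun h hh => not_le.1 (fun e =>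
    (a1 _ (pow_mem (h1 μ h hh 1 (one_mem _) e m1) n)).not_ge a2)
  have h4 : ∀ k, ∃ β, (∀ h ∈ H, β < h) ∧ μ ≤ β ^ 2 ^ k := by
    intro k
    induction k with
    | zero => exact ⟨μ, h3, by simp⟩
    | succ k ih =>
      obtain ⟨β, b1, b2⟩ := ih
      obtain ⟨γ, c1, c2⟩ := h2 β b1
      refine ⟨max γ (β / γ), fun h hh => max_lt (c1 h hh) (c2 h hh), b2.trans ?_⟩
      rw [pow_succ', pow_mul, sq]
      refine pow_le_pow_left' ?_ _
      calc β = γ * (β / γ) := by simp
        _ ≤ _ := mul_le_mul' (le_max_left _ _) (le_max_right _ _)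
  obtain ⟨β, b1, b2⟩ := h4 N
  have h5 := pow_lt_pow_right' (one_lt_inv'.2 (b1 1 (one_mem _))) (N.lt_two_pow_self)
  rw [inv_pow, inv_pow, inv_lt_inv_iff] at h5
  exact h5.not_ge ((a3 β b1).trans b2)

theorem ramif {K Ω Γ : Type} [Field K] [Field Ω] [Algebra K Ω] [IsAlgClosed Ω]
    [Algebra.IsAlgebraic K Ω] [LinearOrderedCommGroupWithZero Γ] (w : Valuation Ω Γ) {p : ℕ}
    (hp : p.Prime) (hinv : ∀ (σ : Ω ≃ₐ[K] Ω) x, w (σ x) = w x) (p0 : (p : Ω) ≠ 0) (p1 : w p < 1)
    (h : ∀ y : K, y ≠ 0 → w (algebraMap K Ω y) < 1 → w (algebraMap K Ω y) ≤ w p) :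
    ∃ a : Ω, w a ≤ 1 ∧ ∀ c ∈ K⟮a⟯, w p < w (a - c ^ p) := by
  obtain ⟨a, ha⟩ := IsAlgClosed.exists_pow_nat_eq (p : Ω) two_pos
  have P0 : 0 < w p := by simpa [zero_lt_iff] using p0
  have a1 : w a ^ 2 = w p := by rw [← map_pow, ha]
  have a2 : w a < 1 := (pow_lt_one_iff two_ne_zero).1 (a1 ▸ p1)
  have a3 : w p < w a := lt_of_pow_lt_pow_left₀ 2 zero_le (by
    rw [a1]; exact pow_lt_self_of_lt_one₀ P0 p1 one_lt_two)
  refine ⟨a, a2.le, fun c hc => not_le.1 (fun h1 => ?_)⟩
  have c1 : w c ^ p = w a := by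
    rw [← map_pow]; exact w.map_eq_of_sub_lt (by rw [w.map_sub_swap]; exact h1.trans_lt a3)
  have c0 : 0 < w c := by
    rw [zero_lt_iff]; intro e; rw [e, zero_pow hp.ne_zero] at c1; exact (P0.trans a3).ne c1
  have c2 : w c < 1 := (pow_lt_one_iff hp.ne_zero).1 (c1 ▸ a2)
  have hi : IsIntegral K a := Algebra.IsIntegral.isIntegral a
  have hc' : IsIntegral K c := Algebra.IsIntegral.isIntegral c
  have := adjoin.finiteDimensional hi
  have d1 : (minpoly K c).natDegree ≤ 2 := by
    rw [← minpoly_eq (⟨c, hc⟩ : K⟮a⟯)]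
    refine (minpoly.natDegree_le _).trans ?_
    rw [adjoin.finrank hi, ← natDegree_X_pow_sub_C (n := 2) (r := (p : K))]
    exact natDegree_le_of_dvd (minpoly.dvd _ _ (by simp [ha])) (X_pow_sub_C_ne_zero two_pos _)
  have hs := (IsAlgClosed.splits ((minpoly K c).map (algebraMap K Ω))
    ).coeff_zero_eq_prod_roots_of_monic ((minpoly.monic hc').map _)
  have e : w (algebraMap K Ω ((minpoly K c).coeff 0)) = w c ^ (minpoly K c).natDegree := by
    rw [← coeff_map, hs, map_mul, map_pow, Valuation.map_neg, map_one, one_pow, one_mul,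
      map_multiset_prod, ← card_ar (L := K) c, ← Multiset.prod_replicate]
    refine congrArg _ (Multiset.eq_replicate.2 ⟨Multiset.card_map _ _, fun b hb => ?_⟩)
    obtain ⟨r, hr, rfl⟩ := Multiset.mem_map.1 hb
    obtain ⟨σ, rfl⟩ := conj (L := K) hr
    exact hinv σ c
  have := h ((minpoly K c).coeff 0) (fun h0 => by
    rw [h0, map_zero, map_zero] at e; exact (pow_pos c0 _).ne e)
    (by rw [e]; exact pow_lt_one₀ zero_le c2 (minpoly.natDegree_pos hc').ne')
  rw [e, ← a1, ← c1, ← pow_mul] at this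
  exact (pow_lt_pow_right_of_lt_one₀ c0 c2 (by have := hp.two_le; omega)).not_ge this

end Pool.Agent.H72.Dfc
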