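import Mathlib

set_option autoImplicit false
set_option linter.unusedVariables false
set_option linter.unusedSimpArgs false
set_option linter.unnecessarySeqFocus false
set_option linter.unusedSectionVars false

namespace Pool.Agent.H72.Fit

open Matrix Finset

section cb
variable {A : Type} [CommRing A] {R C : Type} [Fintype R] [DecidableEq R] [Fintype C] [DecidableEq C]

theorem cb0 (M N : Matrix R C A) :
    (M * Nᵀ).det = ∑ f : R → C, (M.submatrix id f).det * ∏ r, N r (f r) := by
  simp only [det_apply', mul_apply, prod_univ_sum, mul_sum, Fintype.piFinset_univ, transpose_apply,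
    submatrix_apply, id, sum_mul]
  rw [sum_comm]
  refine sum_congr rfl fun f _ => sum_congr rfl fun σ _ => ?_
  rw [prod_mul_distrib, mul_assoc]

theorem cb (M N : Matrix R C A) : ((Fintype.card R).factorial : A) * (M * Nᵀ).det =
    ∑ f : R → C, (M.submatrix id f).det * (N.submatrix id f).det := by
  have h : ∀ σ : Equiv.Perm R, (M * Nᵀ).det =
      ∑ f : R → C, (M.submatrix id f).det * ((Equiv.Perm.sign σ : ℤ) * ∏ r, N (σ r) (f r)) := by
    intro σ
    rw [cb0]
    refine Fintype.sum_equiv (Equiv.arrowCongr σ.symm (Equiv.refl C)) _ _ fun f => ?_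
    have e : M.submatrix id (Equiv.arrowCongr σ.symm (Equiv.refl C) f) =
        (M.submatrix id f).submatrix id σ := by ext i j; simp
    rw [e, det_permute', ← Equiv.prod_comp σ fun r => N r (f r)]
    have : ((Equiv.Perm.sign σ : ℤ) : A) * (Equiv.Perm.sign σ : ℤ) = 1 := by
      rw [← Int.cast_mul, ← Units.val_mul, Int.units_mul_self]; simp
    simp only [Equiv.arrowCongr_apply, Equiv.coe_refl, Function.comp, id, Equiv.symm_symm]
    linear_combination (-((M.submatrix id f).det * ∏ x, N (σ x) (f (σ x)))) * this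
  calc _ = ∑ σ : Equiv.Perm R, (M * Nᵀ).det := by simp [Fintype.card_perm]
    _ = _ := by
      rw [sum_congr rfl fun σ _ => h σ, sum_comm]
      refine sum_congr rfl fun f _ => ?_
      rw [← mul_sum, det_apply' (N.submatrix id f)]
      rfl

end cb

section lap
variable {A : Type} [CommRing A] {V : Type} [Fintype V] [DecidableEq V]

theorem sw1 (F : V → V → V → A) : ∑ a, ∑ b, ∑ c, F a b c = ∑ a, ∑ b, ∑ c, F b a c := sum_comm

theorem sw2 (F : V → V → V → A) : ∑ a, ∑ b, ∑ c, F a b c = ∑ a, ∑ b, ∑ c, F a c b :=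
  sum_congr rfl fun a _ => sum_comm

theorem lap0 (x : V → A) (e e' : V → V → A) (h : ∀ a b, e b a = -e a b) (h' : ∀ a b, e' b a = -e' a b) :
    ∑ a, ∑ b, ∑ c, (x c * e a b - x b * e a c + x a * e b c) * (e' a b - e' a c + e' b c) =
      3 * ((∑ c, x c) * ∑ a, ∑ b, e a b * e' a b) - 6 * ∑ a, (∑ b, e a b) * ∑ c, x c * e' a c := by
  have eD : (∑ c, x c) * ∑ a, ∑ b, e a b * e' a b = ∑ a, ∑ b, ∑ c, x c * e a b * e' a b := by
    simp only [mul_sum, sum_mul, mul_assoc]
  have eX : ∑ a, (∑ b, e a b) * ∑ c, x c * e' a c = ∑ a, ∑ b, ∑ c, x c * e a b * e' a c := by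
    refine sum_congr rfl fun a _ => ?_
    rw [sum_mul_sum]
    exact sum_congr rfl fun b _ => sum_congr rfl fun c _ => by ring
  rw [eD, eX]
  set D := ∑ a, ∑ b, ∑ c, x c * e a b * e' a b
  set X := ∑ a, ∑ b, ∑ c, x c * e a b * e' a c
  have c3 : ∀ F G : V → V → V → A, (∀ a b c, F a b c = G a b c) →
      ∑ a, ∑ b, ∑ c, F a b c = ∑ a, ∑ b, ∑ c, G a b c := fun F G hh => by simp only [hh]
  have n3 : -X = ∑ a, ∑ b, ∑ c, -(x c * e a b * e' a c) := by simp only [X, sum_neg_distrib]
  have t3 : ∑ a, ∑ b, ∑ c, x c * e a b * e' b c = -X := by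
    rw [sw1, n3]; exact c3 _ _ fun a b c => by rw [h a b]; ring
  have t4 : ∑ a, ∑ b, ∑ c, x b * e a c * e' a b = X := sw2 _
  have t5 : ∑ a, ∑ b, ∑ c, x b * e a c * e' a c = D := sw2 _
  have t6 : ∑ a, ∑ b, ∑ c, x b * e a c * e' b c = X := by
    rw [sw2, sw1]; exact c3 _ _ fun a b c => by rw [h a b, h' a c]; ring
  have t7 : ∑ a, ∑ b, ∑ c, x a * e b c * e' a b = -X := by
    rw [sw1, sw2, n3]; exact c3 _ _ fun a b c => by rw [h' a c]; ring
  have t8 : ∑ a, ∑ b, ∑ c, x a * e b c * e' a c = X := by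
    rw [sw1, sw2, sw1]; exact c3 _ _ fun a b c => by rw [h a b, h' a c]; ring
  have t9 : ∑ a, ∑ b, ∑ c, x a * e b c * e' b c = D := by rw [sw1, sw2]
  rw [c3 _ (fun a b c => x c * e a b * e' a b - x c * e a b * e' a c + x c * e a b * e' b c -
    x b * e a c * e' a b + x b * e a c * e' a c - x b * e a c * e' b c + x a * e b c * e' a b -
    x a * e b c * e' a c + x a * e b c * e' b c) fun a b c => by ring]
  simp only [sum_add_distrib, sum_sub_distrib]
  rw [t3, t4, t5, t6, t7, t8, t9]
  ring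

def d (a i : V) : A := if a = i then 1 else 0

def ep (p : V × V) (a b : V) : A := d a p.1 * d b p.2 - d a p.2 * d b p.1

def KM (x : V → A) (p : V × V) (t : V × V × V) : A :=
  x t.2.2 * ep p t.1 t.2.1 - x t.2.1 * ep p t.1 t.2.2 + x t.1 * ep p t.2.1 t.2.2

def WM (x : V → A) (a : V) (p : V × V) : A := d a p.1 * x p.2 - d a p.2 * x p.1

theorem ep_anti (p : V × V) (a b : V) : (ep p b a : A) = -ep p a b := by simp only [ep]; ring

theorem sum_d (i : V) (F : V → A) : ∑ a, d a i * F a = F i := by simp [d]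

theorem ep_x (x : V → A) (p : V × V) (a : V) : ∑ c, x c * ep p a c = WM x a p := by
  rw [WM, ← sum_d p.2 x, ← sum_d p.1 x, mul_sum, mul_sum, ← sum_sub_distrib]
  exact sum_congr rfl fun c _ => by rw [ep]; ring

theorem ep_ep [LinearOrder V] {p q : V × V} (hp : p.1 < p.2) (hq : q.1 < q.2) :
    ∑ a, ∑ b, (ep p a b : A) * ep q a b = if p = q then 2 else 0 := by
  have : ∀ a, ∑ b, (ep p a b : A) * ep q a b = d a p.1 * ep q a p.2 - d a p.2 * ep q a p.1 := fun a => by
    rw [← sum_d p.2 (ep q a), ← sum_d p.1 (ep q a), mul_sum, mul_sum, ← sum_sub_distrib]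
    exact sum_congr rfl fun c _ => by rw [ep]; ring
  simp only [this, sum_sub_distrib, sum_d]
  rw [ep_anti q p.1 p.2, ep]
  obtain ⟨i, j⟩ := p
  obtain ⟨k, l⟩ := q
  simp only [d, Prod.mk.injEq] at *
  have h5 := hq.ne'
  by_cases h1 : i = k <;> by_cases h2 : j = l <;> by_cases h3 : i = l <;> by_cases h4 : j = k <;>
    simp [h1, h2, h3, h4, h5] <;> first | order | norm_num

theorem lap [LinearOrder V] (x : V → A) {p q : V × V} (hp : p.1 < p.2) (hq : q.1 < q.2) :
    ∑ t, KM x p t * KM (1 : V → A) q t =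
      6 * ((if p = q then ∑ c, x c else 0) - ∑ a, WM (1 : V → A) a p * WM x a q) := by
  have := lap0 x (ep p) (ep q) (ep_anti p) (ep_anti q)
  have e : ∀ a, ∑ b, (ep p a b : A) = WM 1 a p := fun a => by simpa using ep_x (1 : V → A) p a
  rw [ep_ep hp hq] at this
  simp only [ep_x, e] at this
  simp only [Fintype.sum_prod_type, KM, Pi.one_apply, one_mul, this]
  split_ifs <;> ring

theorem WW [LinearOrder V] (x : V → A) (a b : V) :
    ∑ p : V × V, (if p.1 < p.2 then WM x a p * WM (1 : V → A) b p else 0) =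
      (if a = b then ∑ c, x c else 0) - x b := by
  have e : ∀ p : V × V, (if p.1 < p.2 then WM x a p * WM (1 : V → A) b p else 0) =
      d p.1 a * (if a < p.2 then x p.2 * (d b a - d b p.2) else 0) +
      d p.2 a * (if p.1 < a then x p.1 * (d b a - d b p.1) else 0) := fun ⟨i, j⟩ => by
    simp only [WM, d, Pi.one_apply, eq_comm (a := a)]
    by_cases h1 : i = a <;> by_cases h2 : j = a <;> simp [h1, h2] <;> split_ifs <;> ring
  simp only [e, sum_add_distrib]
  rw [Fintype.sum_prod_type_right, Fintype.sum_prod_type]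
  simp only [sum_d]
  have e1 : ∀ (j : V) (c : A), ∑ i, d i a * c = c := fun j c => sum_d a fun _ => c
  simp only [e1 a, ← sum_add_distrib]
  have e2 : ∀ j, ((if a < j then x j * (d b a - d b j) else 0) + if j < a then x j * (d b a - d b j) else 0) =
      d b a * x j - d j b * x j := fun j => by
    rcases lt_trichotomy a j with h | rfl | h
    · simp [h, h.not_gt, d, eq_comm]; split_ifs <;> ring
    · simp [d, eq_comm]
    · simp [h, h.not_gt, d, eq_comm]; split_ifs <;> ring
  simp only [e2, sum_sub_distrib, sum_d, ← mul_sum]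
  simp [d, eq_comm]

theorem xW (x : V → A) (p : V × V) : ∑ a, x a * WM x a p = 0 := by
  have : ∀ a, x a * WM x a p = d a p.1 * (x a * x p.2) - d a p.2 * (x a * x p.1) := fun a => by
    rw [WM]; ring
  simp only [this, sum_sub_distrib, sum_d]; ring

end lap

section tree
variable {A : Type} [CommRing A] {m : ℕ}

theorem rank1 (x : Fin (m + 1) → A) (L : Matrix (Fin (m + 1)) (Fin (m + 1)) A)
    (h1 : ∀ j, ∑ i, x i * L i j = 0) (h2 : ∀ i, ∑ j, L i j = 0) :
    x 0 * (Matrix.of fun i j => x j + L i j).det =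
      (∑ c, x c) ^ 2 * (L.submatrix Fin.succ Fin.succ).det := by
  set Q : Matrix _ _ A := Matrix.of fun i j => x j + L i j
  have a1 := det_updateCol_sum Q 0 1
  have e1 : (fun k => ∑ i, (1 : Fin (m + 1) → A) i • Q k i) = (∑ c, x c) • (1 : Fin (m + 1) → A) := by
    funext k; simp [Q, sum_add_distrib, h2]
  rw [e1, det_updateCol_smul, Pi.one_apply, one_smul] at a1
  have a2 : (Q.updateCol 0 1).det = (L.updateCol 0 1).det := by
    rw [← det_transpose, ← det_transpose (L.updateCol 0 1)]
    refine det_eq_of_forall_row_eq_smul_add_const (fun i => if i = 0 then 0 else x i) 0 (by simp)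
      fun i j => ?_
    by_cases h : i = 0 <;> simp [h, Q, updateCol_apply, add_comm]
  have a3 := det_updateRow_sum (L.updateCol 0 1) 0 x
  set v := ∑ k, x k • (L.updateCol 0 1) k with hv
  have e2 : ((L.updateCol 0 1).updateRow 0 v).submatrix Fin.succ
      (Fin.succAbove 0) = L.submatrix Fin.succ Fin.succ := by
    ext i j; simp [updateRow_apply, updateCol_apply]
  have v0 : v 0 = ∑ c, x c := by simp [hv, Finset.sum_apply]
  have v1 : ∀ j : Fin m, v j.succ = 0 := fun j => by simp [hv, updateCol_apply, Finset.sum_apply, h1]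
  rw [det_succ_row_zero, Fin.sum_univ_succ, e2] at a3
  simp only [updateRow_self, v0, v1, smul_eq_mul, mul_zero, zero_mul, sum_const_zero, Fin.val_zero,
    pow_zero, one_mul, add_zero] at a3
  rw [← a1, a2]
  linear_combination (-∑ c, x c) * a3

end tree

end Pool.Agent.H72.Fit
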