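import Pool.Agent.H72.Fit1

set_option autoImplicit false
set_option linter.unusedVariables false
set_option linter.unusedSimpArgs false
set_option linter.unnecessarySeqFocus false
set_option linter.unusedSectionVars false

namespace Pool.Agent.H72.Fit

open Matrix Finset

variable {m : ℕ} (P : Fin (m + 1) → Fin (m + 1) → Prop) [DecidableRel P]

abbrev NE : Type := {p : Fin (m + 1) × Fin (m + 1) // p.1 < p.2 ∧ ¬ P p.1 p.2}

abbrev ED : Type := {p : Fin (m + 1) × Fin (m + 1) // p.1 < p.2 ∧ P p.1 p.2}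

abbrev T3 (m : ℕ) : Type := Fin (m + 1) × Fin (m + 1) × Fin (m + 1)

section
variable {A : Type} [CommRing A]

def MX (x : Fin (m + 1) → A) : Matrix (NE P) (T3 m) A := Matrix.of fun p t => KM x p.1 t

def WX (x : Fin (m + 1) → A) : Matrix (Fin m) (ED P) A := Matrix.of fun a p => WM x a.succ p.1

theorem main0 [IsDomain A] (x : Fin (m + 1) → A) (hs : ∑ c, x c ≠ 0) (K : ℕ)
    (hK : Fintype.card (NE P) + 2 = K + (m + 1)) :
    x 0 * (MX P x * (MX P (1 : Fin (m + 1) → A))ᵀ : Matrix (NE P) (NE P) A).det =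
      6 ^ Fintype.card (NE P) * (∑ c, x c) ^ K * (WX P x * (WX P (1 : Fin (m + 1) → A))ᵀ : Matrix (Fin m) (Fin m) A).det := by
  set s := ∑ c, x c
  let U : Matrix (Fin (m + 1)) (NE P) A := Matrix.of fun a p => WM 1 a p.1
  let W : Matrix (Fin (m + 1)) (NE P) A := Matrix.of fun a p => WM x a p.1
  let L : Matrix (Fin (m + 1)) (Fin (m + 1)) A :=
    Matrix.of fun a b => ∑ p : ED P, WM x a p.1 * WM 1 b p.1
  have e1 : MX P x * (MX P (1 : Fin (m + 1) → A))ᵀ = (6 : A) • (scalar _ s - Uᵀ * W) := by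
    ext p q
    simp only [Matrix.mul_apply, MX, transpose_apply, of_apply, lap x p.2.1 q.2.1, Matrix.smul_apply, Matrix.sub_apply,
      scalar_apply, diagonal_apply, U, W, smul_eq_mul, Subtype.ext_iff, s]
  have e2 := congrArg (Polynomial.eval s) (charpoly_mul_comm' Uᵀ W)
  simp only [Polynomial.eval_mul, Polynomial.eval_pow, Polynomial.eval_X, eval_charpoly,
    Fintype.card_fin] at e2
  have e3 : scalar _ s - W * Uᵀ = Matrix.of fun i j => x j + L i j := by
    ext a b
    have h := WW x a b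
    have h1 : ∑ p : NE P, WM x a p.1 * WM 1 b p.1 =
        ∑ p, if p.1 < p.2 ∧ ¬ P p.1 p.2 then WM x a p * WM 1 b p else 0 := by
      rw [← sum_filter]; exact (sum_subtype _ (by simp) fun p => WM x a p * WM 1 b p).symm
    have h2 : ∑ p : ED P, WM x a p.1 * WM 1 b p.1 =
        ∑ p, if p.1 < p.2 ∧ P p.1 p.2 then WM x a p * WM 1 b p else 0 := by
      rw [← sum_filter]; exact (sum_subtype _ (by simp) fun p => WM x a p * WM 1 b p).symm
    have h3 : ∑ p : NE P, WM x a p.1 * WM 1 b p.1 + ∑ p : ED P, WM x a p.1 * WM 1 b p.1 =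
        ∑ p : _ × _, if p.1 < p.2 then WM x a p * WM 1 b p else 0 := by
      rw [h1, h2, ← sum_add_distrib]
      refine sum_congr rfl fun p _ => ?_
      by_cases g1 : p.1 < p.2 <;> by_cases g2 : P p.1 p.2 <;> simp [g1, g2]
    simp only [Matrix.mul_apply, transpose_apply, of_apply, Matrix.sub_apply, scalar_apply, diagonal_apply, U, W, L]
    linear_combination -h3 - h
  have e4 := rank1 x L (fun j => by
    simp only [L, of_apply, mul_sum, ← mul_assoc]
    rw [sum_comm]
    simp only [← sum_mul, xW, zero_mul, sum_const_zero]) fun i => by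
    simp only [L, of_apply]
    rw [sum_comm]
    have : ∀ p, ∑ j, WM (1 : Fin (m + 1) → A) j p = 0 := fun p => by simpa using xW (1 : Fin (m + 1) → A) p
    simp only [← mul_sum, this, mul_zero, sum_const_zero]
  have e5 : L.submatrix Fin.succ Fin.succ = WX P x * (WX P (1 : Fin (m + 1) → A))ᵀ := by
    ext a b; simp [L, WX, Matrix.mul_apply]
  rw [e3] at e2
  rw [e5] at e4
  rw [e1, det_smul]
  apply mul_left_cancel₀ (pow_ne_zero (m + 1) hs)
  have e6 : s ^ Fintype.card (NE P) * s ^ 2 = s ^ K * s ^ (m + 1) := by rw [← pow_add, ← pow_add, hK]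
  linear_combination (6 ^ Fintype.card (NE P) * x 0) * e2 +
    (6 ^ Fintype.card (NE P) * s ^ Fintype.card (NE P)) * e4 +
    (6 ^ Fintype.card (NE P) * (WX P x * (WX P (1 : Fin (m + 1) → A))ᵀ : Matrix (Fin m) (Fin m) A).det) * e6

theorem KM_x {V : Type} [DecidableEq V] (x : V → A) (p : V × V) (t : V × V × V) :
    x p.1 * x p.2 * KM x p t = x t.1 * x t.2.1 * x t.2.2 * KM 1 p t := by
  have : ∀ a b, x p.1 * x p.2 * ep p a b = x a * x b * ep p a b := fun a b => by
    have g : ∀ a i : V, x i * d a i = x a * d a i := fun a i => by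
      rw [d]; split_ifs with h <;> simp [h]
    simp only [ep]
    linear_combination (x p.2 * d b p.2) * g a p.1 + (x a * d a p.1) * g b p.2 -
      (x p.1 * d b p.1) * g a p.2 - (x a * d a p.2) * g b p.1
  simp only [KM, Pi.one_apply]
  linear_combination x t.2.2 * this t.1 t.2.1 - x t.2.1 * this t.1 t.2.2 + x t.1 * this t.2.1 t.2.2

theorem WM_x {V : Type} [DecidableEq V] (x : V → A) (a : V) (p : V × V) :
    x a * WM x a p = x p.1 * x p.2 * WM 1 a p := by
  have g : ∀ a i : V, x i * d a i = x a * d a i := fun a i => by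
    rw [d]; split_ifs with h <;> simp [h]
  simp only [WM, Pi.one_apply]
  linear_combination -x p.2 * g a p.1 + x p.1 * g a p.2

def cM (f : NE P → T3 m) : ℤ := ((MX P (1 : Fin (m + 1) → ℤ)).submatrix id f).det

def cW (g : Fin m → ED P) : ℤ := ((WX P (1 : Fin (m + 1) → ℤ)).submatrix id g).det

theorem cM_cast (f : NE P → T3 m) : ((MX P (1 : Fin (m + 1) → A)).submatrix id f).det = cM P f := by
  rw [cM, ← eq_intCast (Int.castRingHom A), RingHom.map_det]
  congr 1; ext i j; simp [MX, KM, ep, d]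

theorem cW_cast (g : Fin m → ED P) : ((WX P (1 : Fin (m + 1) → A)).submatrix id g).det = cW P g := by
  rw [cW, ← eq_intCast (Int.castRingHom A), RingHom.map_det]
  congr 1; ext i j; simp [WX, WM, d]

theorem det_MX (x : Fin (m + 1) → A) (f : NE P → T3 m) :
    (∏ p : NE P, x p.1.1 * x p.1.2) * ((MX P x).submatrix id f).det =
      (∏ p, x (f p).1 * x (f p).2.1 * x (f p).2.2) * cM P f := by
  rw [← cM_cast, ← det_mul_column, ← det_mul_row]
  congr 1; ext i j; exact KM_x x _ _

theorem det_WX (x : Fin (m + 1) → A) (g : Fin m → ED P) :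
    (∏ a : Fin m, x a.succ) * ((WX P x).submatrix id g).det =
      (∏ r, x (g r).1.1 * x (g r).1.2) * cW P g := by
  rw [← cW_cast, ← det_mul_column, ← det_mul_row]
  congr 1; ext i j; exact WM_x x _ _

end

section
variable {B B' : Type} [CommSemiring B] [CommSemiring B']

def LH (z : Fin (m + 1) → B) : B := (m.factorial : B) * (∏ a, z a) *
  ∑ f : NE P → T3 m, (((cM P f).natAbs ^ 2 : ℕ) : B) * ∏ p, z (f p).1 * z (f p).2.1 * z (f p).2.2

def RH (K : ℕ) (z : Fin (m + 1) → B) : B :=
  (((Fintype.card (NE P)).factorial * 6 ^ Fintype.card (NE P) : ℕ) : B) * (∑ a, z a) ^ K *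
  (∏ p : NE P, z p.1.1 * z p.1.2) *
  ∑ g : Fin m → ED P, (((cW P g).natAbs ^ 2 : ℕ) : B) * ∏ r, z (g r).1.1 * z (g r).1.2

theorem LH_map (φ : B →+* B') (z : Fin (m + 1) → B) : φ (LH P z) = LH P fun a => φ (z a) := by
  simp only [LH, map_mul, map_sum, map_prod, map_natCast]

theorem RH_map (φ : B →+* B') (K : ℕ) (z : Fin (m + 1) → B) :
    φ (RH P K z) = RH P K fun a => φ (z a) := by
  simp only [RH, map_mul, map_sum, map_prod, map_natCast, map_pow]

theorem main1 {A : Type} [CommRing A] [IsDomain A] (x : Fin (m + 1) → A) (hs : ∑ c, x c ≠ 0) (K : ℕ)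
    (hK : Fintype.card (NE P) + 2 = K + (m + 1)) : LH P x = RH P K x := by
  have h0 := main0 P x hs K hK
  have h1 := cb (MX P x) (MX P (1 : Fin (m + 1) → A))
  have h2 := cb (WX P x) (WX P (1 : Fin (m + 1) → A))
  have sq : ∀ c : ℤ, ((c.natAbs ^ 2 : ℕ) : A) = c * c := fun c => by
    rw [← Int.cast_natCast, Nat.cast_pow, Int.natAbs_sq]; push_cast; ring
  have a1 : ∑ f : NE P → T3 m, (((cM P f).natAbs ^ 2 : ℕ) : A) *
      ∏ p, x (f p).1 * x (f p).2.1 * x (f p).2.2 = (∏ p : NE P, x p.1.1 * x p.1.2) *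
        ∑ f, ((MX P x).submatrix id f).det * ((MX P (1 : Fin (m + 1) → A)).submatrix id f).det := by
    rw [mul_sum]
    refine sum_congr rfl fun f _ => ?_
    rw [← mul_assoc, det_MX, cM_cast, sq]; ring
  have a2 : ∑ g : Fin m → ED P, (((cW P g).natAbs ^ 2 : ℕ) : A) * ∏ r, x (g r).1.1 * x (g r).1.2 =
      (∏ a : Fin m, x a.succ) * ∑ f, ((WX P x).submatrix id f).det * ((WX P (1 : Fin (m + 1) → A)).submatrix id f).det := by
    rw [mul_sum]
    refine sum_congr rfl fun f _ => ?_
    rw [← mul_assoc, det_WX, cW_cast, sq]; ring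
  rw [LH, RH, a1, a2, ← h1, ← h2, Fin.prod_univ_succ, Fintype.card_fin]
  push_cast
  linear_combination ((m.factorial : A) * (∏ a : Fin m, x a.succ) * (∏ p : NE P, x p.1.1 * x p.1.2) *
    (Fintype.card (NE P)).factorial) * h0

theorem main2 (z : Fin (m + 1) → B) (K : ℕ)
    (hK : Fintype.card (NE P) + 2 = K + (m + 1)) : LH P z = RH P K z := by
  have h : LH P (MvPolynomial.X : _ → MvPolynomial (Fin (m + 1)) ℕ) = RH P K MvPolynomial.X := by
    apply MvPolynomial.map_injective (Nat.castRingHom ℤ) Nat.cast_injective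
    rw [LH_map, RH_map]
    refine main1 P _ (fun h => ?_) K hK
    have := congrArg (MvPolynomial.eval fun _ => (1 : ℤ)) h
    simp at this
    omega
  have := congrArg (MvPolynomial.eval₂Hom (Nat.castRingHom B) z) h
  rw [LH_map, RH_map] at this
  simpa using this

end

end Pool.Agent.H72.Fit
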