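import Pool.Agent.H72.Fit2

set_option autoImplicit false
set_option linter.unusedVariables false
set_option linter.unusedSimpArgs false
set_option linter.unnecessarySeqFocus false
set_option linter.unusedSectionVars false

namespace Pool.Agent.H72.Fit

open Matrix Finset

variable {m : ℕ} {P : Fin (m + 1) → Fin (m + 1) → Prop} [DecidableRel P]

theorem ep_lt {A : Type} [CommRing A] {V : Type} [LinearOrder V] {p : V × V} {a b : V} (hp : p.1 < p.2)
    (h : a < b) (y : A) : y * ep p a b = if p = (a, b) then y else 0 := by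
  obtain ⟨i, j⟩ := p
  simp only [ep, d, Prod.mk.injEq] at *
  by_cases h1 : a = i <;> by_cases h2 : b = j <;> by_cases h3 : a = j <;> by_cases h4 : b = i <;>
    simp [h1, h2, h3, h4, eq_comm] <;> first | order | simp_all

theorem sorted {A : Type} [CommRing A] {V : Type} [LinearOrder V] (x : V → A) {i j l : V} (h1 : i < j)
    (h2 : j < l) (t : V × V × V) :
    ∃ t' : {t : V × V × V // t.1 < t.2.1 ∧ t.2.1 < t.2.2}, ∃ u : A, ∀ p, KM x p t = u * KM x p t'.1 := by
  let G : V → V → V → Prop := fun a b c =>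
    ∃ t' : {t : V × V × V // t.1 < t.2.1 ∧ t.2.1 < t.2.2}, ∃ u : A, ∀ p, KM x p (a, b, c) = u * KM x p t'.1
  have g0 : ∀ a c, G a a c := fun a c => ⟨⟨(i, j, l), h1, h2⟩, 0, fun p => by simp only [KM, ep]; ring⟩
  have g1 : ∀ {a b c}, a < b → b < c → G a b c := fun {a b c} h h' => ⟨⟨(a, b, c), h, h'⟩, 1, by simp⟩
  have g2 : ∀ {a b c}, G a b c → G b a c := fun {a b c} ⟨t, u, h⟩ => ⟨t, -u, fun p => by
    rw [neg_mul, ← h]; simp only [KM, ep]; ring⟩
  have g3 : ∀ {a b c}, G a b c → G a c b := fun {a b c} ⟨t, u, h⟩ => ⟨t, -u, fun p => by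
    rw [neg_mul, ← h]; simp only [KM, ep]; ring⟩
  obtain ⟨a, b, c⟩ := t
  show G a b c
  rcases lt_trichotomy a b with h | rfl | h
  · rcases lt_trichotomy b c with h' | rfl | h'
    · exact g1 h h'
    · exact g2 (g3 (g0 _ _))
    · rcases lt_trichotomy a c with h'' | rfl | h''
      · exact g3 (g1 h'' h')
      · exact g3 (g0 _ _)
      · exact g3 (g2 (g1 h'' h))
  · exact g0 _ _
  · rcases lt_trichotomy a c with h' | rfl | h'
    · exact g2 (g1 h h')
    · exact g3 (g0 _ _)
    · rcases lt_trichotomy b c with h'' | rfl | h''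
      · exact g2 (g3 (g1 h'' h'))
      · exact g2 (g3 (g0 _ _))
      · exact g2 (g3 (g2 (g1 h'' h)))

def Enum (T : SimpleGraph (Fin (m + 1))) (g : Fin m → ED P) : Prop :=
  ∀ a b, T.Adj a b ↔ ∃ r, (g r).1 = (a, b) ∨ (g r).1 = (b, a)

theorem vm (g : Fin m → ED P) (u : Fin (m + 1) → ℤ) (h : u 0 = 0) (r : Fin m) :
    ((fun a => u a.succ) ᵥ* (WX P (1 : Fin (m + 1) → ℤ)).submatrix id g) r = u (g r).1.1 - u (g r).1.2 := by
  have : ∑ a, u a * WM 1 a (g r).1 = u (g r).1.1 - u (g r).1.2 := by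
    rw [← sum_d (g r).1.1 u, ← sum_d (g r).1.2 u, ← sum_sub_distrib]
    exact sum_congr rfl fun a _ => by simp only [WM, Pi.one_apply]; ring
  rw [Fin.sum_univ_succ, h, zero_mul, zero_add] at this
  exact this

theorem conn {T : SimpleGraph (Fin (m + 1))} {g : Fin m → ED P} (h : Enum T g) :
    cW P g ≠ 0 ↔ T.Connected := by
  classical
  rw [cW, Ne, ← exists_vecMul_eq_zero_iff]
  constructor
  · intro hn
    rw [SimpleGraph.connected_iff_exists_forall_reachable]
    refine ⟨0, fun w => by_contra fun hw => hn ⟨fun a => (fun a => if T.Reachable 0 a then (0 : ℤ) else 1)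
      a.succ, fun e => ?_, funext fun r => ?_⟩⟩
    · obtain ⟨a, rfl⟩ := Fin.exists_succ_eq.2 (show w ≠ 0 by rintro rfl; exact hw (.refl _))
      simpa [hw] using congrFun e a
    · refine (vm g (fun a => if T.Reachable 0 a then (0 : ℤ) else 1) (by simp) r).trans ?_
      have ha : T.Adj (g r).1.1 (g r).1.2 := (h _ _).2 ⟨r, Or.inl rfl⟩
      have : T.Reachable 0 (g r).1.1 ↔ T.Reachable 0 (g r).1.2 :=
        ⟨fun e => e.trans ha.reachable, fun e => e.trans ha.symm.reachable⟩
      simp [this]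
  · rintro hc ⟨v, hv, e⟩
    have e1 : ∀ a b, T.Adj a b → (Fin.cons 0 v : Fin (m + 1) → ℤ) a = (Fin.cons 0 v : Fin (m + 1) → ℤ) b := by
      intro a b hab
      obtain ⟨r, hr⟩ := (h a b).1 hab
      have := (vm g (Fin.cons 0 v) rfl r).symm.trans (congrFun e r)
      rcases hr with hr | hr <;> rw [hr] at this <;> simp only [Pi.zero_apply] at this <;> omega
    have e2 : ∀ a b, T.Reachable a b →
        (Fin.cons 0 v : Fin (m + 1) → ℤ) a = (Fin.cons 0 v : Fin (m + 1) → ℤ) b := by
      rintro a b ⟨w⟩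
      induction w with
      | nil => rfl
      | cons h _ ih => exact (e1 _ _ h).trans ih
    exact hv (funext fun a => (e2 _ _ (hc 0 a.succ)).symm)

theorem deg {A : Type} [CommRing A] (x : Fin (m + 1) → A) {T : SimpleGraph (Fin (m + 1))}
    {g : Fin m → ED P} (h : Enum T g) (hg : Function.Injective g) :
    ∏ r, x (g r).1.1 * x (g r).1.2 = ∏ v, x v ^ (T.neighborSet v).ncard := by
  have e1 : ∀ r, x (g r).1.1 * x (g r).1.2 =
      ∏ v, x v ^ (if v = (g r).1.1 ∨ v = (g r).1.2 then 1 else 0) := fun r => by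
    rw [← prod_pair (g r).2.1.ne, ← univ_inter {(g r).1.1, (g r).1.2}, ← prod_ite_mem]
    exact prod_congr rfl fun v _ => by simp [pow_ite]
  rw [prod_congr rfl fun r _ => e1 r, prod_comm]
  refine prod_congr rfl fun v _ => ?_
  rw [prod_pow_eq_pow_sum, ← card_filter, ← Set.ncard_coe_finset]
  congr 1
  refine Set.ncard_congr (fun r _ => if v = (g r).1.1 then (g r).1.2 else (g r).1.1) ?_ ?_ ?_
  · intro r hr
    have ha : T.Adj (g r).1.1 (g r).1.2 := (h _ _).2 ⟨r, Or.inl rfl⟩
    simp only [coe_filter, mem_univ, true_and, Set.mem_ofPred_eq] at hr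
    split_ifs with h1
    · exact h1 ▸ ha
    · exact (hr.resolve_left h1) ▸ ha.symm
  · intro r s hr hs e
    simp only [coe_filter, mem_univ, true_and, Set.mem_ofPred_eq] at hr hs
    have a1 := (g r).2.1
    have a2 := (g s).2.1
    refine hg (Subtype.ext (Prod.ext ?_ ?_)) <;> split_ifs at e <;> omega
  · intro b hb
    obtain ⟨r, hr | hr⟩ := (h v b).1 hb
    · exact ⟨r, by simp [hr], by simp [hr]⟩
    · exact ⟨r, by simp [hr], by simp [hr, hb.ne]⟩

theorem card_enum {T : SimpleGraph (Fin (m + 1))} {g : Fin m → ED P} (h : Enum T g)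
    (hg : Function.Injective g) : Nat.card T.edgeSet = m := by
  have : Function.Bijective fun r => (⟨s((g r).1.1, (g r).1.2), (h _ _).2 ⟨r, Or.inl rfl⟩⟩ : T.edgeSet) := by
    refine ⟨fun r s e => ?_, ?_⟩
    · have a1 := (g r).2.1
      have a2 := (g s).2.1
      simp only [Subtype.mk.injEq, Sym2.eq_iff] at e
      refine hg (Subtype.ext (Prod.ext ?_ ?_)) <;> omega
    · rintro ⟨⟨a, b⟩, hab⟩
      obtain ⟨r, hr | hr⟩ := (h a b).1 hab
      · exact ⟨r, Subtype.ext (by simp only [hr])⟩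
      · exact ⟨r, Subtype.ext (by simp only [hr]; exact Sym2.eq_swap)⟩
  rw [← Nat.card_eq_of_bijective _ this]; simp

theorem tree_of (Γ : SimpleGraph (Fin (m + 1))) [DecidableRel Γ.Adj] {g : Fin m → ED Γ.Adj}
    (h : cW Γ.Adj g ≠ 0) : ∃ T ≤ Γ, T.IsTree ∧ Enum T g ∧ Function.Injective g := by
  let T : SimpleGraph (Fin (m + 1)) := SimpleGraph.fromRel fun a b => ∃ r, (g r).1 = (a, b)
  have hE : Enum T g := fun a b => by
    simp only [T, SimpleGraph.fromRel_adj, exists_or, and_iff_right_iff_imp]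
    rintro (⟨r, hr⟩ | ⟨r, hr⟩) <;> have := (g r).2.1 <;> rw [hr] at this
    · exact this.ne
    · exact this.ne'
  have hg : Function.Injective g := fun r s e => by_contra fun hn =>
    h (det_zero_of_column_eq hn fun k => by simp [e])
  refine ⟨T, fun a b hab => ?_, SimpleGraph.isTree_iff_connected_and_card.2
    ⟨(conn hE).1 h, by rw [card_enum hE hg]; simp⟩, hE, hg⟩
  obtain ⟨r, hr | hr⟩ := (hE a b).1 hab <;> have := (g r).2.2 <;> rw [hr] at this
  · exact this
  · exact this.symm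

theorem enum_of (Γ : SimpleGraph (Fin (m + 1))) [DecidableRel Γ.Adj] {T : SimpleGraph (Fin (m + 1))}
    (hT : T ≤ Γ) (ht : T.IsTree) : ∃ g : Fin m → ED Γ.Adj, Enum T g ∧ Function.Injective g := by
  have hc : Nat.card T.edgeSet = m := by
    simpa using (SimpleGraph.isTree_iff_connected_and_card.1 ht).2
  let e := (Finite.equivFinOfCardEq hc).symm
  have : ∀ w : T.edgeSet, ∃ p : ED Γ.Adj, s(p.1.1, p.1.2) = w.1 := by
    rintro ⟨⟨a, b⟩, hab⟩
    have hab' : T.Adj a b := hab
    rcases lt_or_gt_of_ne hab'.ne with h | h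
    · exact ⟨⟨(a, b), h, hT hab'⟩, rfl⟩
    · exact ⟨⟨(b, a), h, hT hab'.symm⟩, Sym2.eq_swap⟩
  choose φ hφ using this
  refine ⟨fun r => φ (e r), fun a b => ⟨fun hab => ?_, ?_⟩, fun r s h => e.injective (Subtype.ext ?_)⟩
  · obtain ⟨r, hr⟩ := e.surjective ⟨s(a, b), hab⟩
    have := hφ (e r)
    rw [show (e r).1 = s(a, b) from congrArg Subtype.val hr, Sym2.eq_iff] at this
    exact ⟨r, this.imp (fun h => Prod.ext h.1 h.2) fun h => Prod.ext h.1 h.2⟩
  · rintro ⟨r, hr⟩
    have := (e r).2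
    rw [← hφ] at this
    rcases hr with hr | hr <;> simp only [hr] at this
    · exact this
    · exact SimpleGraph.Adj.symm this
  · rw [← hφ, ← hφ, show φ (e r) = φ (e s) from h]

end Pool.Agent.H72.Fit
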