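import Mathlib

set_option autoImplicit false

namespace Pool.Agent.H72.FlatAct

universe u

open MulOpposite Function

section Defs

variable (S : Type u) [Monoid S]

/-- The generating relation `(a s, x) ~ (a, s x)` of the tensor product. -/
def TRel (A X : Type u) [MulAction Sᵐᵒᵖ A] [MulAction S X] (p q : A × X) : Prop :=
  ∃ (a : A) (s : S) (x : X), p = (op s • a, x) ∧ q = (a, s • x)

/-- The tensor product of a right act and a left act. -/
def Tensor (A X : Type u) [MulAction Sᵐᵒᵖ A] [MulAction S X] : Type u := Quot (TRel S A X)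

/-- The map of tensor products induced by a morphism of left acts. -/
def Tensor.map (A : Type u) {X Y : Type u} [MulAction Sᵐᵒᵖ A] [MulAction S X] [MulAction S Y]
    (f : X →[S] Y) : Tensor S A X → Tensor S A Y :=
  Quot.map (fun p => (p.1, f p.2)) (by
    rintro _ _ ⟨a, s, x, rfl, rfl⟩
    exact ⟨a, s, f x, rfl, by simp⟩)

/-- Flat right acts. -/
def Flat (A : Type u) [MulAction Sᵐᵒᵖ A] : Prop :=
  ∀ (X Y : Type u) [MulAction S X] [MulAction S Y] (f : X →[S] Y),
    Injective f → Injective (Tensor.map S A f)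

end Defs

variable {S : Type u} [Monoid S]

def P {F : Type u} (act : F → S → F) (D : Set F) : List (S × Bool) → F → F → Prop
  | [], a, a' => a = a' ∧ a ∈ D
  | (s, true) :: w, a, a' => a ∈ D ∧ ∃ b, a = act b s ∧ P act D w b a'
  | (s, false) :: w, a, a' => a ∈ D ∧ P act D w (act a s) a'

def Q {X : Type u} [MulAction S X] : List (S × Bool) → X → X → Prop
  | [], x, x' => x = x'
  | (s, true) :: w, x, x' => Q w (s • x) x'
  | (s, false) :: w, x, x' => ∃ y, x = s • y ∧ Q w y x'

def E {F X : Type u} [MulAction S X] (act : F → S → F) (D : Set F) (a : F) (x : X) (a' : F)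
    (x' : X) : Prop := ∃ w, P act D w a a' ∧ Q w x x'

section Raw

variable {F F' X Y : Type u} [MulAction S X] [MulAction S Y] {act : F → S → F}
  {act' : F' → S → F'} {D : Set F} {D' : Set F'}

omit [Monoid S] in
lemma P.left {w : List (S × Bool)} {a a' : F} (h : P act D w a a') : a ∈ D := by
  rcases w with _ | ⟨⟨s, _ | _⟩, w⟩
  · exact h.2
  · exact h.1
  · exact h.1

omit [Monoid S] in
lemma P.right {w : List (S × Bool)} {a a' : F} (h : P act D w a a') : a' ∈ D := by
  induction w generalizing a with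
  | nil => exact h.1 ▸ h.2
  | cons p w ih =>
    rcases p with ⟨s, _ | _⟩
    · exact ih h.2
    · obtain ⟨b, -, hb⟩ := h.2; exact ih hb

omit [Monoid S] in
lemma P.append {w w' : List (S × Bool)} {a b c : F} (h : P act D w a b) (h' : P act D w' b c) :
    P act D (w ++ w') a c := by
  induction w generalizing a with
  | nil => exact h.1 ▸ h'
  | cons p w ih =>
    rcases p with ⟨s, _ | _⟩
    · exact ⟨h.1, ih h.2⟩
    · obtain ⟨b, hb1, hb⟩ := h.2; exact ⟨h.1, b, hb1, ih hb⟩

lemma Q.append {w w' : List (S × Bool)} {a b c : X} (h : Q w a b) (h' : Q w' b c) :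
    Q (w ++ w') a c := by
  induction w generalizing a with
  | nil => exact (show a = b from h) ▸ h'
  | cons p w ih =>
    rcases p with ⟨s, _ | _⟩
    · obtain ⟨b, hb1, hb⟩ := h; exact ⟨b, hb1, ih hb⟩
    · exact ih h

omit [Monoid S] in
lemma P.map (f : F → F') (hf : ∀ a ∈ D, f a ∈ D')
    (he : ∀ a ∈ D, ∀ s, act a s ∈ D → f (act a s) = act' (f a) s)
    {w : List (S × Bool)} {a a' : F} (h : P act D w a a') : P act' D' w (f a) (f a') := by
  induction w generalizing a with
  | nil => exact ⟨by rw [h.1], hf _ h.2⟩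
  | cons p w ih =>
    rcases p with ⟨s, _ | _⟩
    · exact ⟨hf _ h.1, by rw [← he _ h.1 _ h.2.left]; exact ih h.2⟩
    · obtain ⟨b, hb1, hb⟩ := h.2
      exact ⟨hf _ h.1, f b, by rw [← he _ hb.left _ (hb1 ▸ h.1), hb1], ih hb⟩

lemma E.left {a a' : F} {x x' : X} (h : E act D a x a' x') : a ∈ D := h.choose_spec.1.left
lemma E.right {a a' : F} {x x' : X} (h : E act D a x a' x') : a' ∈ D := h.choose_spec.1.right

lemma E.refl {a : F} (ha : a ∈ D) (x : X) : E act D a x a x := ⟨[], ⟨rfl, ha⟩, rfl⟩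

lemma E.trans {a b c : F} {x y z : X} (h : E act D a x b y) (h' : E act D b y c z) :
    E act D a x c z := by
  obtain ⟨w, h1, h2⟩ := h
  obtain ⟨w', h1', h2'⟩ := h'
  exact ⟨w ++ w', h1.append h1', h2.append h2'⟩

lemma E.step1 {a : F} {s : S} (ha : a ∈ D) (hs : act a s ∈ D) (x : X) :
    E act D (act a s) x a (s • x) := ⟨[(s, true)], ⟨hs, a, rfl, rfl, ha⟩, rfl⟩

lemma E.step2 {a : F} {s : S} (ha : a ∈ D) (hs : act a s ∈ D) (x : X) :
    E act D a (s • x) (act a s) x := ⟨[(s, false)], ⟨ha, rfl, hs⟩, x, rfl, rfl⟩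

lemma E.ind {β : Sort*} (N : F → X → β)
    (hN : ∀ a ∈ D, ∀ s, act a s ∈ D → ∀ x, N (act a s) x = N a (s • x))
    {a a' : F} {x x' : X} (h : E act D a x a' x') : N a x = N a' x' := by
  obtain ⟨w, h1, h2⟩ := h
  induction w generalizing a x with
  | nil => rw [h1.1, show x = x' from h2]
  | cons p w ih =>
    rcases p with ⟨s, _ | _⟩
    · obtain ⟨y, rfl, hy⟩ := h2
      rw [← hN _ h1.1 _ h1.2.left]; exact ih h1.2 hy
    · obtain ⟨ha, b, rfl, hb⟩ := h1
      rw [hN _ hb.left _ ha]; exact ih hb h2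

lemma E.symm {a a' : F} {x x' : X} (h : E act D a x a' x') : E act D a' x' a x := by
  have := E.ind (fun b y => E act D b y a x) (fun b hb s hs y => propext
    ⟨fun h => (E.step2 hb hs y).trans h, fun h => (E.step1 hb hs y).trans h⟩) h
  exact this ▸ E.refl h.left x

lemma E.map (f : F → F') (hf : ∀ a ∈ D, f a ∈ D')
    (he : ∀ a ∈ D, ∀ s, act a s ∈ D → f (act a s) = act' (f a) s)
    {a a' : F} {x x' : X} (h : E act D a x a' x') : E act' D' (f a) x (f a') x' := by
  obtain ⟨w, h1, h2⟩ := h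
  exact ⟨w, h1.map f hf he, h2⟩

lemma E.mono {D1 D2 : Set F} (hD : D1 ⊆ D2) {a a' : F} {x x' : X} (h : E act D1 a x a' x') :
    E act D2 a x a' x' := E.map (act' := act) id hD (fun _ _ _ _ => rfl) h

lemma E.mapR (f : X →[S] Y) {a a' : F} {x x' : X} (h : E act D a x a' x') :
    E act D a (f x) a' (f x') := by
  have := E.ind (fun b y => E act D a (f x) b (f y)) (fun b hb s hs y => propext
    ⟨fun h => by rw [map_smul]; exact h.trans (E.step1 hb hs _),
     fun h => by rw [map_smul] at h; exact h.trans (E.step2 hb hs _)⟩) h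
  exact this ▸ E.refl h.left _

end Raw

def FlatOn {F : Type u} (act : F → S → F) (D : Set F) : Prop :=
  ∀ (X Y : Type u) [MulAction S X] [MulAction S Y] (f : X →[S] Y), Injective f →
    ∀ a a' x x', E act D a (f x) a' (f x') → E act D a x a' x'

def Pure {F : Type u} (act : F → S → F) (C U : Set F) : Prop :=
  ∀ (Y : Type u) [MulAction S Y], ∀ c ∈ C, ∀ c' ∈ C, ∀ y y' : Y,
    E act U c y c' y' → E act C c y c' y'

def Stab {F : Type u} (act : F → S → F) (C U : Set F) : Prop :=
  ∀ (X Y : Type u) [MulAction S X] [MulAction S Y] (f : X →[S] Y), Injective f →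
    ∀ a, ∀ c ∈ C, ∀ x y, E act U a (f x) c y → ∃ c' ∈ C, ∃ x' : X, E act U a x c' x'

def ract (F : Type u) [MulAction Sᵐᵒᵖ F] : F → S → F := fun a s => op s • a

lemma E_iff {F X : Type u} [MulAction Sᵐᵒᵖ F] [MulAction S X] (a a' : F) (x x' : X) :
    E (ract (S := S) F) Set.univ a x a' x' ↔
      Quot.mk (TRel S F X) (a, x) = Quot.mk (TRel S F X) (a', x') := by
  constructor
  · intro h
    exact E.ind (fun a x => Quot.mk (TRel S F X) (a, x))
      (fun a _ s _ x => Quot.sound ⟨a, s, x, rfl, rfl⟩) h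
  · intro h
    have : ∀ p q : F × X, Relation.EqvGen (TRel S F X) p q →
        E (ract (S := S) F) Set.univ p.1 p.2 q.1 q.2 := by
      intro p q h
      induction h with
      | rel p q h =>
        obtain ⟨a, s, x, rfl, rfl⟩ := h
        exact E.step1 (act := ract F) (Set.mem_univ _) (Set.mem_univ _) x
      | refl p => exact E.refl (Set.mem_univ _) _
      | symm p q _ ih => exact ih.symm
      | trans p q r _ _ ih1 ih2 => exact ih1.trans ih2
    exact this _ _ (Quot.eq.1 h)

lemma flat_iff (F : Type u) [MulAction Sᵐᵒᵖ F] :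
    Flat S F ↔ FlatOn (ract (S := S) F) Set.univ := by
  constructor
  · intro h X Y _ _ f hf a a' x x' hE
    exact (E_iff _ _ _ _).2 (h X Y f hf ((E_iff _ _ _ _).1 hE))
  · intro h X Y _ _ f hf p q hpq
    obtain ⟨⟨a, x⟩, rfl⟩ := Quot.exists_rep p
    obtain ⟨⟨a', x'⟩, rfl⟩ := Quot.exists_rep q
    exact (E_iff _ _ _ _).1 (h X Y f hf a a' x x' ((E_iff _ _ _ _).2 hpq))

end Pool.Agent.H72.FlatAct
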