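import Pool.Agent.H72.FlatA1

set_option autoImplicit false

namespace Pool.Agent.H72.FlatAct

universe u

open MulOpposite Function

structure Datum (S K A : Type u) [Monoid S] (actA : A → S → A) where
  act : K → S → K
  U : Set K
  C : Set K
  p : K → A
  one : ∀ k ∈ U, act k 1 = k
  mul : ∀ k ∈ U, ∀ s t, act (act k s) t = act k (s * t)
  clU : ∀ k ∈ U, ∀ s, act k s ∈ U
  clC : ∀ k ∈ C, ∀ s, act k s ∈ C
  sub : C ⊆ U
  hp : ∀ k ∈ U, ∀ s, p (act k s) = actA (p k) s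
  flat : FlatOn act U
  pure : Pure act C U
  stab : Stab act C U

inductive Tm (S K A : Type u) [Monoid S] (actA : A → S → A) : Type u
  | node (d : Datum S K A actA) (e : K) (φ : d.C → Tm S K A actA) : Tm S K A actA

variable {S K A : Type u} [Monoid S] {actA : A → S → A}

open Classical in
noncomputable def ext (d : Datum S K A actA) (φ : d.C → Tm S K A actA) (k : K) :
    Tm S K A actA := if h : k ∈ d.C then φ ⟨k, h⟩ else Tm.node d k φ

noncomputable def tact : Tm S K A actA → S → Tm S K A actA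
  | Tm.node d e φ, s => ext d φ (d.act e s)

def tp : Tm S K A actA → A
  | Tm.node d e _ => d.p e

inductive Valid : Tm S K A actA → Prop
  | mk (d : Datum S K A actA) (e : K) (φ : d.C → Tm S K A actA) (he : e ∈ d.U) (hC : e ∉ d.C)
    (hv : ∀ c, Valid (φ c))
    (ha : ∀ (c : d.C) s, φ ⟨d.act c s, d.clC _ c.2 s⟩ = tact (φ c) s)
    (hp : ∀ c, tp (φ c) = d.p c) : Valid (Tm.node d e φ)

structure Mor (d : Datum S K A actA) (φ : d.C → Tm S K A actA) : Prop where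
  hv : ∀ c, Valid (φ c)
  ha : ∀ (c : d.C) s, φ ⟨d.act c s, d.clC _ c.2 s⟩ = tact (φ c) s
  hp : ∀ c, tp (φ c) = d.p c

variable {d : Datum S K A actA} {φ : d.C → Tm S K A actA}

lemma ext_of_mem {k : K} (h : k ∈ d.C) : ext d φ k = φ ⟨k, h⟩ := dif_pos h
lemma ext_of_not {k : K} (h : k ∉ d.C) : ext d φ k = Tm.node d k φ := dif_neg h

lemma Mor.valid (m : Mor d φ) {k : K} (hk : k ∈ d.U) : Valid (ext d φ k) := by
  by_cases h : k ∈ d.C
  · rw [ext_of_mem h]; exact m.hv _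
  · rw [ext_of_not h]; exact Valid.mk d k φ hk h m.hv m.ha m.hp

lemma Mor.act (m : Mor d φ) (k : K) (s : S) : ext d φ (d.act k s) = tact (ext d φ k) s := by
  by_cases h : k ∈ d.C
  · rw [ext_of_mem h, ext_of_mem (d.clC _ h s)]; exact m.ha ⟨k, h⟩ s
  · rw [ext_of_not h]; rfl

lemma Mor.p (m : Mor d φ) (k : K) : tp (ext d φ k) = d.p k := by
  by_cases h : k ∈ d.C
  · rw [ext_of_mem h]; exact m.hp _
  · rw [ext_of_not h]; rfl

lemma Valid.ex {t : Tm S K A actA} (h : Valid t) :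
    ∃ d φ, Mor d φ ∧ ∃ k ∈ d.U, t = ext d φ k := by
  obtain ⟨d, e, φ, he, hC, hv, ha, hp⟩ := h
  exact ⟨d, φ, ⟨hv, ha, hp⟩, e, he, (ext_of_not hC).symm⟩

lemma Valid.act {t : Tm S K A actA} (h : Valid t) (s : S) : Valid (tact t s) := by
  obtain ⟨d, φ, m, k, hk, rfl⟩ := h.ex
  rw [← m.act]; exact m.valid (d.clU _ hk s)

lemma Valid.one {t : Tm S K A actA} (h : Valid t) : tact t 1 = t := by
  obtain ⟨d, φ, m, k, hk, rfl⟩ := h.ex
  rw [← m.act, d.one _ hk]

lemma Valid.mul {t : Tm S K A actA} (h : Valid t) (s s' : S) :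
    tact (tact t s) s' = tact t (s * s') := by
  obtain ⟨d, φ, m, k, hk, rfl⟩ := h.ex
  rw [← m.act, ← m.act, ← m.act, d.mul _ hk]

lemma Valid.p {t : Tm S K A actA} (h : Valid t) (s : S) : tp (tact t s) = actA (tp t) s := by
  obtain ⟨d, φ, m, k, hk, rfl⟩ := h.ex
  rw [← m.act, m.p, m.p, d.hp _ hk]

def V : Set (Tm S K A actA) := {t | Valid t}

lemma Mor.E {X : Type u} [MulAction S X] (m : Mor d φ) {a a' : K} {x x' : X}
    (h : E d.act d.U a x a' x') : E tact V (ext d φ a) x (ext d φ a') x' :=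
  E.map (ext d φ) (fun _ ha => m.valid ha) (fun a _ s _ => m.act a s) h

variable {Y : Type u} [MulAction S Y]

open Classical in
noncomputable def N : Tm S K A actA → Y →
    (Σ d : Datum S K A actA, d.C → Tm S K A actA) × Set (K × Y)
  | Tm.node d e φ => fun y =>
    if h : ∃ q : d.C × Y, E d.act d.U e y q.1 q.2 then N (φ h.choose.1) h.choose.2
    else (⟨d, φ⟩, {q | E d.act d.U e y q.1 q.2})

lemma N_pos {e : K} {y : Y} (h : ∃ q : d.C × Y, E d.act d.U e y q.1 q.2) :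
    N (Tm.node d e φ) y = N (φ h.choose.1) h.choose.2 := by
  rw [N]; exact dif_pos h

lemma N_neg {e : K} {y : Y} (h : ¬ ∃ q : d.C × Y, E d.act d.U e y q.1 q.2) :
    N (Tm.node d e φ) y = (⟨d, φ⟩, {q | E d.act d.U e y q.1 q.2}) := by
  rw [N]; exact dif_neg h

lemma N_act {t : Tm S K A actA} (h : Valid t) (s : S) (y : Y) : N (tact t s) y = N t (s • y) := by
  induction h generalizing s y with
  | mk d e φ he hC hv ha hp ih =>
    have m : Mor d φ := ⟨hv, ha, hp⟩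
    have k1 : ∀ (c c' : d.C) (y y' : Y), E d.act d.U c y c' y' → N (φ c) y = N (φ c') y' := by
      intro c c' y y' h
      have := E.ind (fun k y => N (ext d φ k) y) (fun a ha s _ x => by
        rw [m.act, ext_of_mem ha]; exact ih _ s x) (d.pure Y _ c.2 _ c'.2 y y' h)
      rwa [ext_of_mem c.2, ext_of_mem c'.2] at this
    have k2 : ∀ k (c : d.C) (y y' : Y), E d.act d.U k y c y' → N (ext d φ k) y = N (φ c) y' := by
      intro k c y y' h
      by_cases hk : k ∈ d.C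
      · rw [ext_of_mem hk]; exact k1 ⟨k, hk⟩ c y y' h
      · rw [ext_of_not hk]
        have h0 : ∃ q : d.C × Y, E d.act d.U k y q.1 q.2 := ⟨(c, y'), h⟩
        rw [N_pos h0]
        exact k1 _ _ _ _ (h0.choose_spec.symm.trans h)
    have st := E.step1 (act := d.act) he (d.clU _ he s) y
    show N (ext d φ (d.act e s)) y = _
    by_cases h0 : ∃ q : d.C × Y, E d.act d.U e (s • y) q.1 q.2
    · obtain ⟨⟨c, y'⟩, h⟩ := h0
      rw [k2 _ c _ y' (st.trans h), ← ext_of_not hC, k2 _ c _ y' h]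
    · have h1 : ¬ ∃ q : d.C × Y, E d.act d.U (d.act e s) y q.1 q.2 := fun ⟨q, hq⟩ =>
        h0 ⟨q, st.symm.trans hq⟩
      have h2 : d.act e s ∉ d.C := fun h => h1 ⟨(⟨_, h⟩, y), E.refl (d.clU _ he s) y⟩
      rw [ext_of_not h2, N_neg h0, N_neg h1]
      congr 1
      ext q
      exact ⟨fun h => st.symm.trans h, fun h => st.trans h⟩

lemma reduce {X : Type u} [MulAction S X] {t : Tm S K A actA} (h : Valid t) (x : X) :
    ∃ d φ, Mor d φ ∧ ∃ e ∈ d.U, e ∉ d.C ∧ ∃ x' : X,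
      (¬ ∃ q : d.C × X, E d.act d.U e x' q.1 q.2) ∧ E tact V t x (Tm.node d e φ) x' := by
  induction h generalizing x with
  | mk d e φ he hC hv ha hp ih =>
    have m : Mor d φ := ⟨hv, ha, hp⟩
    by_cases h0 : ∃ q : d.C × X, E d.act d.U e x q.1 q.2
    · obtain ⟨⟨c, x'⟩, h⟩ := h0
      obtain ⟨d', φ', m', e', he', hC', x'', h1, h2⟩ := ih c x'
      refine ⟨d', φ', m', e', he', hC', x'', h1, E.trans ?_ h2⟩
      have := m.E h
      rwa [ext_of_not hC, ext_of_mem c.2] at this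
    · exact ⟨d, φ, m, e, he, hC, x, h0, E.refl (Valid.mk d e φ he hC hv ha hp) x⟩

lemma flat_V : FlatOn (tact : Tm S K A actA → S → _) V := by
  intro X Y _ _ f hf t t' x x' h
  obtain ⟨d, φ, m, e, he, hC, z, h1, h2⟩ := reduce h.left x
  obtain ⟨d', φ', m', e', he', hC', z', h1', h2'⟩ := reduce h.right x'
  have h3 := ((h2.mapR f).symm.trans h).trans (h2'.mapR f)
  have h4 := E.ind N (fun a ha s _ x => N_act ha s x) h3
  have n1 : ¬ ∃ q : d.C × Y, E d.act d.U e (f z) q.1 q.2 := fun ⟨q, hq⟩ => by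
    obtain ⟨c, hc, w, hw⟩ := d.stab X Y f hf _ _ q.1.2 _ _ hq
    exact h1 ⟨(⟨c, hc⟩, w), hw⟩
  have n2 : ¬ ∃ q : d'.C × Y, E d'.act d'.U e' (f z') q.1 q.2 := fun ⟨q, hq⟩ => by
    obtain ⟨c, hc, w, hw⟩ := d'.stab X Y f hf _ _ q.1.2 _ _ hq
    exact h1' ⟨(⟨c, hc⟩, w), hw⟩
  rw [N_neg n1, N_neg n2] at h4
  obtain ⟨h5, h6⟩ := Prod.ext_iff.1 h4
  obtain ⟨rfl, h7⟩ := Sigma.ext_iff.1 h5
  obtain rfl := eq_of_heq h7
  have h8 : E d.act d.U e (f z) e' (f z') := by
    have : (e', f z') ∈ {q : K × Y | E d.act d.U e' (f z') q.1 q.2} := E.refl he' _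
    exact (Set.ext_iff.1 h6 _).2 this
  have h9 := m.E (d.flat X Y f hf _ _ _ _ h8)
  rw [ext_of_not hC, ext_of_not hC'] at h9
  exact (h2.trans h9).trans h2'.symm

end Pool.Agent.H72.FlatAct
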