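import Pool.Agent.H72.FlatA2

set_option autoImplicit false

namespace Pool.Agent.H72.FlatAct

universe u

open MulOpposite Function

inductive KT (ι : Type u) : Type u
  | base : KT ι
  | app (i : ι) (k k' : KT ι) : KT ι

noncomputable def KT.ev {ι F : Type u} (Φ : ι → F → F → F → Prop) (f0 : F) : KT ι → F
  | KT.base => f0
  | KT.app i k k' => @Classical.epsilon F ⟨f0⟩ (Φ i (KT.ev Φ f0 k) (KT.ev Φ f0 k'))

lemma closing {ι F : Type u} (Φ : ι → F → F → F → Prop) (f0 : F) :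
    ∃ π : KT ι → F, f0 ∈ Set.range π ∧ ∀ i, ∀ e ∈ Set.range π, ∀ e' ∈ Set.range π,
      (∃ b, Φ i e e' b) → ∃ b ∈ Set.range π, Φ i e e' b := by
  refine ⟨KT.ev Φ f0, ⟨KT.base, rfl⟩, ?_⟩
  rintro i _ ⟨k, rfl⟩ _ ⟨k', rfl⟩ h
  exact ⟨_, ⟨KT.app i k k', rfl⟩, Classical.epsilon_spec h⟩

variable {S A F : Type u} [Monoid S] {actA : A → S → A} {act : F → S → F}

omit [Monoid S] in
lemma P.inter {Z R : Set F} (h1 : ∀ e ∈ R, ∀ s, act e s ∈ R)
    (h2 : ∀ s w, ∀ e ∈ R, ∀ e' ∈ R, (∃ b, e = act b s ∧ P act Z w b e') →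
      ∃ b ∈ R, e = act b s ∧ P act Z w b e')
    {w : List (S × Bool)} {e e' : F} (he : e ∈ R) (he' : e' ∈ R) (h : P act Z w e e') :
    P act (Z ∩ R) w e e' := by
  induction w generalizing e with
  | nil => exact ⟨h.1, h.2, he⟩
  | cons p w ih =>
    rcases p with ⟨s, _ | _⟩
    · exact ⟨⟨h.1, he⟩, ih (h1 _ he s) h.2⟩
    · obtain ⟨b, hb, hb1, hb2⟩ := h2 s w e he e' he' h.2
      exact ⟨⟨h.1, he⟩, b, hb1, ih hb hb2⟩

abbrev KS (S : Type u) : Type u := KT (S × List (S × Bool) × Fin 5)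

lemma small (hF : FlatOn act Set.univ) {D : Set F} (hp : Pure act D Set.univ)
    (hs : Stab act D Set.univ) (f0 : F) :
    ∃ π : KS S → F, f0 ∈ Set.range π ∧ (∀ e ∈ Set.range π, ∀ s, act e s ∈ Set.range π) ∧
      FlatOn act (Set.range π) ∧ Pure act (D ∩ Set.range π) (Set.range π) ∧
      Stab act (D ∩ Set.range π) (Set.range π) ∧ Pure act (D ∪ Set.range π) Set.univ ∧
      Stab act (D ∪ Set.range π) Set.univ := by
  obtain ⟨π, h0, h⟩ := closing (ι := S × List (S × Bool) × Fin 5) (fun i e e' b =>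
    ![b = act e i.1, e = act b i.1 ∧ P act Set.univ i.2.1 b e', e = act b i.1 ∧ P act D i.2.1 b e',
      b ∈ D ∧ P act Set.univ i.2.1 e b, P act Set.univ i.2.1 b e] i.2.2) f0
  set R := Set.range π with hR
  have c0 : ∀ e ∈ R, ∀ s, act e s ∈ R := fun e he s => by
    obtain ⟨b, hb, h'⟩ := h (s, [], 0) e he e he ⟨_, rfl⟩
    exact (show b = act e s from h') ▸ hb
  have ca : ∀ {w e e'}, e ∈ R → e' ∈ R → P act Set.univ w e e' → P act R w e e' :=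
    fun he he' hP => by
      have := P.inter c0 (fun s w e he e' he' => h (s, w, 1) e he e' he') he he' hP
      rwa [Set.univ_inter] at this
  have cb : ∀ {w e e'}, e ∈ R → e' ∈ R → P act D w e e' → P act (D ∩ R) w e e' :=
    fun he he' hP => P.inter c0 (fun s w e he e' he' => h (s, w, 2) e he e' he') he he' hP
  have cc : ∀ {w e d}, e ∈ R → d ∈ D → P act Set.univ w e d →
      ∃ b ∈ D ∩ R, P act R w e b := fun {w e d} he hd hP => by
    obtain ⟨b, hb, h1, h2⟩ := h (1, w, 3) e he e he ⟨d, hd, hP⟩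
    exact ⟨b, ⟨h1, hb⟩, ca he hb h2⟩
  have cd : ∀ {w e f}, e ∈ R → P act Set.univ w f e → ∃ b ∈ R, P act Set.univ w b e :=
    fun {w e f} he hP => h (1, w, 4) e he e he ⟨f, hP⟩
  have mix : ∀ (Y : Type u) [MulAction S Y], ∀ e ∈ R, ∀ d ∈ D, ∀ y y' : Y,
      E act Set.univ e y d y' → E act (D ∪ R) e y d y' := by
    rintro Y _ e he d hd y y' ⟨w, h1, h2⟩
    obtain ⟨b, hb, h3⟩ := cc he hd h1
    have h4 : E act R e y b y' := ⟨w, h3, h2⟩
    exact (h4.mono Set.subset_union_right).trans ((hp Y b hb.1 d hd y' y'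
      ((h4.mono (Set.subset_univ _)).symm.trans ⟨w, h1, h2⟩)).mono Set.subset_union_left)
  refine ⟨π, h0, c0, ?_, ?_, ?_, ?_, ?_⟩
  · intro X Y _ _ f hf a a' x x' hE
    obtain ⟨w, h1, h2⟩ := hF X Y f hf a a' x x' (hE.mono (Set.subset_univ _))
    exact ⟨w, ca hE.left hE.right h1, h2⟩
  · intro Y _ c hc c' hc' y y' hE
    obtain ⟨w, h1, h2⟩ := hp Y c hc.1 c' hc'.1 y y' (hE.mono (Set.subset_univ _))
    exact ⟨w, cb hc.2 hc'.2 h1, h2⟩
  · intro X Y _ _ f hf a c hc x y hE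
    obtain ⟨d, hd, x', w, h1, h2⟩ := hs X Y f hf a c hc.1 x y (hE.mono (Set.subset_univ _))
    obtain ⟨b, hb, h3⟩ := cc hE.left hd h1
    exact ⟨b, hb, x', w, h3, h2⟩
  · rintro Y _ c (hc | hc) c' (hc' | hc') y y' hE
    · exact (hp Y c hc c' hc' y y' hE).mono Set.subset_union_left
    · exact (mix Y c' hc' c hc _ _ hE.symm).symm
    · exact mix Y c hc c' hc' _ _ hE
    · obtain ⟨w, h1, h2⟩ := hE
      exact E.mono Set.subset_union_right ⟨w, ca hc hc' h1, h2⟩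
  · rintro X Y _ _ f hf a c (hc | hc) x y hE
    · obtain ⟨d, hd, x', h1⟩ := hs X Y f hf a c hc x y hE
      exact ⟨d, Or.inl hd, x', h1⟩
    · obtain ⟨w, h1, h2⟩ := hE
      obtain ⟨b, hb, h3⟩ := cd hc h1
      exact ⟨b, Or.inr hb, x, hF X Y f hf _ _ _ _ (E.trans ⟨w, h1, h2⟩ (E.symm ⟨w, h3, h2⟩))⟩

structure Good (act : F → S → F) (actA : A → S → A) (g : F → A)
    (Γ : Set (F × Tm S (KS S) A actA)) : Prop where
  fn : ∀ a t t', (a, t) ∈ Γ → (a, t') ∈ Γ → t = t'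
  val : ∀ q ∈ Γ, Valid q.2
  ov : ∀ q ∈ Γ, tp q.2 = g q.1
  cl : ∀ q ∈ Γ, ∀ s, (act q.1 s, tact q.2 s) ∈ Γ
  pure : Pure act (Prod.fst '' Γ) Set.univ
  stab : Stab act (Prod.fst '' Γ) Set.univ

lemma step (h1 : ∀ a, act a 1 = a) (hm : ∀ a s t, act (act a s) t = act a (s * t))
    (hF : FlatOn act Set.univ) {g : F → A} (hg : ∀ a s, g (act a s) = actA (g a) s)
    {Γ : Set (F × Tm S (KS S) A actA)} (hΓ : Good act actA g Γ) (f0 : F) :
    ∃ Γ', Good act actA g Γ' ∧ Γ ⊆ Γ' ∧ f0 ∈ Prod.fst '' Γ' := by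
  obtain ⟨π, h0, c0, r1, r2, r3, r4, r5⟩ := small hF hΓ.pure hΓ.stab f0
  set D := Prod.fst '' Γ with hD
  set R := Set.range π with hR
  have : Nonempty (KS S) := ⟨KT.base⟩
  let j : F → KS S := invFun π
  have hj : ∀ e ∈ R, π (j e) = e := fun e he => invFun_eq he
  let act' : KS S → S → KS S := fun k s => j (act (π k) s)
  have hπ : ∀ k s, π (act' k s) = act (π k) s := fun k s => hj _ (c0 _ ⟨k, rfl⟩ s)
  have clD : ∀ a ∈ D, ∀ s, act a s ∈ D := by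
    rintro _ ⟨q, hq, rfl⟩ s; exact ⟨_, hΓ.cl q hq s, rfl⟩
  have up : ∀ {X : Type u} [MulAction S X] {Z : Set F} {k k' : KS S} {x x' : X},
      E act' {k | j (π k) = k ∧ π k ∈ Z} k x k' x' → E act (Z ∩ R) (π k) x (π k') x' :=
    fun {X _ Z k k' x x'} h => E.map (D' := Z ∩ R) π (fun k hk => ⟨hk.2, k, rfl⟩)
      (fun k _ s _ => hπ k s) h
  have dn : ∀ {X : Type u} [MulAction S X] {Z : Set F} {a a' : F} {x x' : X},
      E act (Z ∩ R) a x a' x' → E act' {k | j (π k) = k ∧ π k ∈ Z} (j a) x (j a') x' :=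
    fun {X _ Z a a' x x'} h => E.map (D' := {k | j (π k) = k ∧ π k ∈ Z}) j (fun a ha => ⟨by rw [hj _ ha.2], by rw [hj _ ha.2]; exact ha.1⟩)
      (fun a ha s _ => by simp only [act', hj _ ha.2]) h
  have uR : Set.univ ∩ R = R := Set.univ_inter _
  let d : Datum S (KS S) A actA :=
    { act := act'
      U := {k | j (π k) = k ∧ π k ∈ Set.univ}
      C := {k | j (π k) = k ∧ π k ∈ D}
      p := fun k => g (π k)
      one := fun k hk => by simp only [act', h1, hk.1]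
      mul := fun k _ s t => by
        show j (act (π (act' k s)) t) = j (act (π k) (s * t))
        rw [hπ, hm]
      clU := fun k _ s => ⟨by rw [hπ], trivial⟩
      clC := fun k hk s => ⟨by rw [hπ], by rw [hπ]; exact clD _ hk.2 s⟩
      sub := fun k hk => ⟨hk.1, trivial⟩
      hp := fun k _ s => by rw [hπ, hg]
      flat := fun X Y _ _ f hf a a' x x' hE => by
        have := r1 X Y f hf _ _ _ _ (uR ▸ up hE)
        have := dn (Z := Set.univ) (uR.symm ▸ this)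
        rwa [hE.left.1, hE.right.1] at this
      pure := fun Y _ c hc c' hc' y y' hE => by
        have := dn (r2 Y _ ⟨hc.2, c, rfl⟩ _ ⟨hc'.2, c', rfl⟩ y y' (uR ▸ up hE))
        rwa [hc.1, hc'.1] at this
      stab := fun X Y _ _ f hf a c hc x y hE => by
        obtain ⟨b, hb, x', h⟩ := r3 X Y f hf _ _ ⟨hc.2, c, rfl⟩ x y (uR ▸ up hE)
        have := dn (Z := Set.univ) (uR.symm ▸ h)
        rw [hE.left.1] at this
        exact ⟨j b, ⟨by rw [hj _ hb.2], by rw [hj _ hb.2]; exact hb.1⟩, x', this⟩ }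
  have hφ : ∀ c : d.C, ∃ t, (π c, t) ∈ Γ := fun c => by
    obtain ⟨q, hq, h⟩ := c.2.2
    exact ⟨q.2, h ▸ hq⟩
  choose φ hφ using hφ
  have m : Mor d φ := ⟨fun c => hΓ.val _ (hφ c), fun c s => hΓ.fn _ _ _ (hφ _) (by
    have := hΓ.cl _ (hφ c) s
    rwa [← hπ] at this), fun c => hΓ.ov _ (hφ c)⟩
  have dom : Prod.fst '' (Γ ∪ {q | ∃ k ∈ d.U, q = (π k, ext d φ k)}) = D ∪ R := by
    rw [Set.image_union]
    congr 1
    ext a
    constructor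
    · rintro ⟨_, ⟨k, -, rfl⟩, rfl⟩; exact ⟨k, rfl⟩
    · intro ha; exact ⟨_, ⟨j a, ⟨by rw [hj _ ha], trivial⟩, rfl⟩, hj _ ha⟩
  have cmp : ∀ k ∈ d.U, ∀ t, (π k, t) ∈ Γ → t = ext d φ k := fun k hk t ht => by
    have hc : k ∈ d.C := ⟨hk.1, _, ht, rfl⟩
    rw [ext_of_mem hc]; exact hΓ.fn _ _ _ ht (hφ ⟨k, hc⟩)
  refine ⟨Γ ∪ {q | ∃ k ∈ d.U, q = (π k, ext d φ k)}, ⟨?_, ?_, ?_, ?_, dom ▸ r4, dom ▸ r5⟩,
    Set.subset_union_left, dom ▸ Or.inr h0⟩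
  · rintro a t t' (h | ⟨k, hk, h⟩) (h' | ⟨k', hk', h'⟩)
    · exact hΓ.fn _ _ _ h h'
    · obtain ⟨rfl, rfl⟩ := Prod.ext_iff.1 h'; exact cmp _ hk' _ h
    · obtain ⟨rfl, rfl⟩ := Prod.ext_iff.1 h; exact (cmp _ hk _ h').symm
    · obtain ⟨rfl, rfl⟩ := Prod.ext_iff.1 h
      obtain ⟨e, rfl⟩ := Prod.ext_iff.1 h'
      have : k = k' := by rw [← hk.1, ← hk'.1]; exact congrArg j e
      rw [this]
  · rintro q (h | ⟨k, hk, rfl⟩)
    · exact hΓ.val _ h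
    · exact m.valid hk
  · rintro q (h | ⟨k, hk, rfl⟩)
    · exact hΓ.ov _ h
    · exact m.p k
  · rintro q (h | ⟨k, hk, rfl⟩) s
    · exact Or.inl (hΓ.cl _ h s)
    · exact Or.inr ⟨d.act k s, d.clU _ hk s, by rw [m.act, ← hπ]⟩

lemma precover (h1 : ∀ a, act a 1 = a) (hm : ∀ a s t, act (act a s) t = act a (s * t))
    (hF : FlatOn act Set.univ) {g : F → A} (hg : ∀ a s, g (act a s) = actA (g a) s) :
    ∃ m : F → Tm S (KS S) A actA, (∀ a, Valid (m a)) ∧ (∀ a, tp (m a) = g a) ∧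
      ∀ a s, m (act a s) = tact (m a) s := by
  obtain ⟨Γ, hΓ⟩ := zorn_subset {Γ | Good act actA g Γ} (fun c hc hch => by
    have two : ∀ q ∈ ⋃₀ c, ∀ q' ∈ ⋃₀ c, ∃ Γ ∈ c, q ∈ Γ ∧ q' ∈ Γ := by
      rintro q ⟨Γ, h, hq⟩ q' ⟨Γ', h', hq'⟩
      rcases hch.total h h' with e | e
      · exact ⟨Γ', h', e hq, hq'⟩
      · exact ⟨Γ, h, hq, e hq'⟩
    refine ⟨⋃₀ c, ⟨?_, ?_, ?_, ?_, ?_, ?_⟩, fun s hs => Set.subset_sUnion_of_mem hs⟩
    · intro a t t' h h'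
      obtain ⟨Γ, h0, h2, h3⟩ := two _ h _ h'
      exact (hc h0).fn _ _ _ h2 h3
    · rintro q ⟨Γ, h, hq⟩; exact (hc h).val q hq
    · rintro q ⟨Γ, h, hq⟩; exact (hc h).ov q hq
    · rintro q ⟨Γ, h, hq⟩ s; exact ⟨Γ, h, (hc h).cl q hq s⟩
    · rintro Y _ _ ⟨q, hq, rfl⟩ _ ⟨q', hq', rfl⟩ y y' hE
      obtain ⟨Γ, h0, h2, h3⟩ := two _ hq _ hq'
      exact ((hc h0).pure Y _ ⟨q, h2, rfl⟩ _ ⟨q', h3, rfl⟩ y y' hE).mono
        (Set.image_mono (Set.subset_sUnion_of_mem h0))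
    · rintro X Y _ _ f hf a _ ⟨q, ⟨Γ, h, hq⟩, rfl⟩ x y hE
      obtain ⟨b, hb, x', h2⟩ := (hc h).stab X Y f hf a _ ⟨q, hq, rfl⟩ x y hE
      exact ⟨b, Set.image_mono (Set.subset_sUnion_of_mem h) hb, x', h2⟩)
  have tot : ∀ a, ∃ t, (a, t) ∈ Γ := fun a => by
    obtain ⟨Γ', h2, h3, q, hq, rfl⟩ := step h1 hm hF hg hΓ.prop a
    exact ⟨q.2, hΓ.le_of_ge h2 h3 hq⟩
  choose m hm' using tot
  exact ⟨m, fun a => hΓ.prop.val _ (hm' a), fun a => hΓ.prop.ov _ (hm' a),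
    fun a s => hΓ.prop.fn _ _ _ (hm' _) (hΓ.prop.cl _ (hm' a) s)⟩

end Pool.Agent.H72.FlatAct
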