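import Pool.Agent.H72.FlatA3

set_option autoImplicit false

namespace Pool.Agent.H72.FlatAct

universe u

open MulOpposite Function

section Rec

def CP (M : Type u) [Monoid M] : Prop :=
  ∀ (I : Type u) [LinearOrder I] (h : I → I → M),
    (∀ a b c, a ≤ b → b ≤ c → h b c * h a b = h a c) →
      ∃ k : I → M, ∀ a b, a ≤ b → k b * h a b = k a

lemma CP.rec {M : Type u} [Monoid M] (H : CP M) (W : Type u) [LinearOrder W] [WellFoundedLT W]
    (U : (W → M) → M) : ∃ h : W → W → M, (∀ a b c, a ≤ b → b ≤ c → h b c * h a b = h a c) ∧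
      ∀ β, ∃ k : W → M, (∀ a b, a ≤ b → b < β → k b * h a b = k a) ∧
        ∀ a, a < β → h a β = U k * k a := by
  classical
  let K : ∀ β : W, (∀ γ, γ < β → W → M) → W → M := fun β prev =>
    Classical.epsilon fun k : W → M => ∀ a b (hb : b < β), a ≤ b → k b * prev b hb a = k a
  let col : W → W → M := (wellFounded_lt (α := W)).fix fun β prev a =>
    if a < β then U (K β prev) * K β prev a else 1
  have hcol : ∀ β a, col β a =
      if a < β then U (K β fun γ _ => col γ) * K β (fun γ _ => col γ) a else 1 := fun β a => by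
    simp only [col]; rw [WellFounded.fix_eq]
  have spec : ∀ β, (∀ c, c < β → ∀ a b, a ≤ b → b ≤ c → col c b * col b a = col c a) →
      ∀ a b, b < β → a ≤ b → K β (fun γ _ => col γ) b * col b a = K β (fun γ _ => col γ) a := by
    intro β ih
    obtain ⟨k, hk⟩ := H (Set.Iio β) (fun a b => col b a) fun a b c h1 h2 => ih c c.2 a b h1 h2
    exact Classical.epsilon_spec (p := fun k : W → M =>
      ∀ a b (_ : b < β), a ≤ b → k b * col b a = k a)
      ⟨fun a => if h : a < β then k ⟨a, h⟩ else 1, fun a b hb hab => by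
        simp only [dif_pos hb, dif_pos (hab.trans_lt hb)]
        exact hk ⟨a, hab.trans_lt hb⟩ ⟨b, hb⟩ hab⟩
  have coh : ∀ c a b, a ≤ b → b ≤ c → col c b * col b a = col c a := by
    intro c
    induction c using WellFoundedLT.induction with
    | ind c ih =>
      intro a b hab hbc
      rcases hbc.eq_or_lt with rfl | hbc
      · rw [hcol b b, if_neg (lt_irrefl _), one_mul]
      · rw [hcol c b, hcol c a, if_pos hbc, if_pos (hab.trans_lt hbc), mul_assoc,
          spec c ih a b hbc hab]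
  exact ⟨fun a b => col b a, fun a b c => coh c a b, fun β => ⟨K β fun γ _ => col γ,
    fun a b h1 h2 => spec β (fun c _ => coh c) a b h2 h1, fun a ha => by
      show col β a = _
      rw [hcol, if_pos ha]⟩⟩

lemma bigW (T : Type u) : ∃ (W : Type u) (_ : LinearOrder W) (_ : WellFoundedLT W) (b : W),
    (∀ a, b ≤ a) ∧ ∀ Z : W → Set T, ¬ StrictMono Z := by
  obtain ⟨lo, wf⟩ := exists_wellFoundedLT (KT (Set (Set T)))
  refine ⟨_, lo, wf, wf.wf.min Set.univ ⟨KT.base, trivial⟩,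
    fun a => not_lt.1 (wf.wf.not_lt_min _ (Set.mem_univ a)), fun Z hZ => ?_⟩
  exact cantor_injective (fun s => Z (KT.app s KT.base KT.base)) fun s t h => by
    simpa using hZ.injective h

end Rec

variable {S : Type u} [Monoid S] {A F : Type u} [MulAction Sᵐᵒᵖ A] [MulAction Sᵐᵒᵖ F]

def Pre (g : F →[Sᵐᵒᵖ] A) : Prop :=
  ∀ (F' : Type u) [MulAction Sᵐᵒᵖ F'], Flat S F' → ∀ h : F' →[Sᵐᵒᵖ] A,
    ∃ f : F' →[Sᵐᵒᵖ] F, ∀ a, g (f a) = h a

lemma exists_pre (S A : Type u) [Monoid S] [MulAction Sᵐᵒᵖ A] :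
    ∃ (F : Type u) (_ : MulAction Sᵐᵒᵖ F) (g : F →[Sᵐᵒᵖ] A), Flat S F ∧ Pre g := by
  classical
  let G := {t : Tm S (KS S) A (ract A) // Valid t}
  let _ : MulAction Sᵐᵒᵖ G :=
    { smul := fun s t => ⟨tact t.1 s.unop, t.2.act _⟩
      one_smul := fun t => Subtype.ext t.2.one
      mul_smul := fun s s' t => Subtype.ext (t.2.mul _ _).symm }
  refine ⟨G, inferInstance, ⟨fun t => tp t.1, fun s t => t.2.p s.unop⟩, ?_, ?_⟩
  · rw [flat_iff]
    intro X Y _ _ f hf a a' x x' h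
    have h1 := flat_V X Y f hf _ _ _ _
      (E.map (act' := tact) (D' := V) Subtype.val (fun a _ => a.2) (fun _ _ _ _ => rfl) h)
    have h2 := E.map (act' := ract G) (D' := Set.univ)
      (fun t => if h : Valid t then (⟨t, h⟩ : G) else a) (fun _ _ => trivial)
      (fun t ht s hs => by
        rw [dif_pos (show Valid _ from hs), dif_pos (show Valid _ from ht)]; rfl) h1
    simpa only [dif_pos a.2, dif_pos a'.2] using h2
  · intro F' _ hF h
    obtain ⟨m, h1, h2, h3⟩ := precover (act := ract F') (actA := ract A) (g := h)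
      (fun a => by simp [ract]) (fun a s t => by simp [ract, mul_smul]) ((flat_iff _).1 hF)
      (fun a s => by simp [ract])
    exact ⟨⟨fun a => ⟨m a, h1 a⟩, fun s a => Subtype.ext (h3 a s.unop)⟩, h2⟩

def EndM (g : F →[Sᵐᵒᵖ] A) : Submonoid (Function.End F) where
  carrier := {f | (∀ (s : Sᵐᵒᵖ) (x : F), f (s • x) = s • f x) ∧ ∀ x, g (f x) = g x}
  one_mem' := ⟨fun _ _ => rfl, fun _ => rfl⟩
  mul_mem' := fun {a b} ha hb => ⟨fun s x => by
    show a (b _) = s • a (b x)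
    rw [hb.1, ha.1], fun x => by
    show g (a (b x)) = _
    rw [ha.2, hb.2]⟩

lemma colim {g : F →[Sᵐᵒᵖ] A} (hF : Flat S F) (I : Type u) [LinearOrder I]
    (h : I → I → EndM g) (coh : ∀ a b c, a ≤ b → b ≤ c → h b c * h a b = h a c) :
    ∃ (L : Type u) (_ : MulAction Sᵐᵒᵖ L) (gL : L →[Sᵐᵒᵖ] A) (lam : I → F →[Sᵐᵒᵖ] L),
      Flat S L ∧ (∀ a x, gL (lam a x) = g x) ∧
      (∀ a b x, a ≤ b → lam b ((h a b).1 x) = lam a x) ∧ ∀ l, ∃ a x, lam a x = l := by
  have coh' : ∀ a b c x, a ≤ b → b ≤ c → (h b c).1 ((h a b).1 x) = (h a c).1 x :=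
    fun a b c x h1 h2 => congrFun (congrArg Subtype.val (coh a b c h1 h2)) x
  have up : ∀ {a b c c' x y}, a ≤ c → b ≤ c → c ≤ c' → (h a c).1 x = (h b c).1 y →
      (h a c').1 x = (h b c').1 y := fun h1 h2 h3 e => by
    rw [← coh' _ _ _ _ h1 h3, e, coh' _ _ _ _ h2 h3]
  let r : Setoid (I × F) :=
    { r := fun p q => ∃ c, p.1 ≤ c ∧ q.1 ≤ c ∧ (h p.1 c).1 p.2 = (h q.1 c).1 q.2
      iseqv := ⟨fun p => ⟨p.1, le_rfl, le_rfl, rfl⟩, fun ⟨c, h1, h2, h3⟩ => ⟨c, h2, h1, h3.symm⟩,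
        fun ⟨c, h1, h2, h3⟩ ⟨c', h1', h2', h3'⟩ => ⟨max c c', le_max_of_le_left h1,
          le_max_of_le_right h2', (up h1 h2 (le_max_left _ _) h3).trans
            (up h1' h2' (le_max_right _ _) h3')⟩⟩ }
  let _ : MulAction Sᵐᵒᵖ (Quotient r) :=
    { smul := fun s => Quotient.map (fun p => (p.1, s • p.2)) fun p q ⟨c, h1, h2, h3⟩ =>
        ⟨c, h1, h2, by rw [(h _ _).2.1, (h _ _).2.1, h3]⟩
      one_smul := fun l => by
        obtain ⟨p, rfl⟩ := l.exists_rep
        exact congrArg (fun x => Quotient.mk r (p.1, x)) (one_smul _ _)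
      mul_smul := fun s t l => by
        obtain ⟨p, rfl⟩ := l.exists_rep
        exact congrArg (fun x => Quotient.mk r (p.1, x)) (mul_smul _ _ _) }
  let lam : I → F →[Sᵐᵒᵖ] Quotient r := fun a => ⟨fun x => Quotient.mk r (a, x), fun _ _ => rfl⟩
  have sur : ∀ l, ∃ a x, lam a x = l := fun l => by
    obtain ⟨p, rfl⟩ := l.exists_rep; exact ⟨p.1, p.2, rfl⟩
  have co : ∀ a b x, a ≤ b → lam b ((h a b).1 x) = lam a x := fun a b x hab =>
    Quotient.sound ⟨b, le_rfl, hab, coh' _ _ _ _ hab le_rfl⟩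
  refine ⟨Quotient r, inferInstance, ⟨Quotient.lift (fun p => g p.2) fun p q ⟨c, _, _, h3⟩ => by
    rw [← (h p.1 c).2.2, h3, (h q.1 c).2.2], fun s l => by
      obtain ⟨p, rfl⟩ := l.exists_rep; exact map_smul g s p.2⟩, lam, ?_, fun _ _ => rfl, co, sur⟩
  have lift : ∀ (w : List (S × Bool)) a x b y,
      P (ract (Quotient r)) Set.univ w (lam a x) (lam b y) →
      ∃ c, a ≤ c ∧ b ≤ c ∧ P (ract F) Set.univ w ((h a c).1 x) ((h b c).1 y) := by
    intro w
    induction w with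
    | nil =>
      intro a x b y hP
      obtain ⟨c, h1, h2, h3⟩ := Quotient.exact hP.1
      exact ⟨c, h1, h2, h3, trivial⟩
    | cons p w ih =>
      intro a x b y hP
      rcases p with ⟨s, _ | _⟩
      · obtain ⟨c, h1, h2, h3⟩ := ih a (op s • x) b y hP.2
        exact ⟨c, h1, h2, trivial, by rwa [(h _ _).2.1] at h3⟩
      · obtain ⟨-, l, h1, h2⟩ := hP
        obtain ⟨a', x', rfl⟩ := sur l
        obtain ⟨c, h3, h4, h5⟩ := Quotient.exact (show lam a x = lam a' (op s • x') from h1)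
        obtain ⟨c', h6, h7, h8⟩ := ih _ _ _ _ h2
        refine ⟨max c c', le_max_of_le_left h3, le_max_of_le_right h7, trivial,
          (h a' (max c c')).1 x', ?_, ?_⟩
        · exact (up h3 h4 (le_max_left _ _) h5).trans ((h _ _).2.1 _ _)
        · have := P.map (act' := ract F) (D' := Set.univ) (h c' (max c c')).1 (fun _ _ => trivial)
            (fun a _ s _ => (h _ _).2.1 _ _) h8
          rwa [coh' _ _ _ _ h6 (le_max_right _ _), coh' _ _ _ _ h7 (le_max_right _ _)] at this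
  rw [flat_iff]
  rintro X Y _ _ f hf l l' x x' ⟨w, h1, h2⟩
  obtain ⟨a, z, rfl⟩ := sur l
  obtain ⟨b, z', rfl⟩ := sur l'
  obtain ⟨c, h3, h4, h5⟩ := lift w _ _ _ _ h1
  have := E.map (act' := ract (Quotient r)) (D' := Set.univ) (lam c) (fun _ _ => trivial)
    (fun a _ s _ => rfl) ((flat_iff F).1 hF X Y f hf _ _ _ _ ⟨w, h5, h2⟩)
  rwa [co _ _ _ h3, co _ _ _ h4] at this

lemma cp {g : F →[Sᵐᵒᵖ] A} (hF : Flat S F) (hP : Pre g) : CP (EndM g) := by
  intro I _ h coh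
  obtain ⟨L, _, gL, lam, h1, h2, h3, -⟩ := colim hF I h coh
  obtain ⟨v, hv⟩ := hP L h1 gL
  exact ⟨fun a => ⟨fun x => v (lam a x), fun s x => by simp, fun x => by rw [hv, h2]⟩,
    fun a b hab => Subtype.ext (funext fun x => congrArg v (h3 a b x hab))⟩

lemma maxker {g : F →[Sᵐᵒᵖ] A} (H : CP (EndM g)) :
    ∃ h : EndM g, ∀ h' : EndM g, ∀ x y, h'.1 (h.1 x) = h'.1 (h.1 y) → h.1 x = h.1 y := by
  by_contra hc
  push Not at hc
  choose U x y h1 h2 using hc
  obtain ⟨W, _, _, b, hb, hW⟩ := bigW (F × F)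
  obtain ⟨h, -, hk⟩ := H.rec W fun k => U (k b)
  refine hW (fun β => {p | (h b β).1 p.1 = (h b β).1 p.2}) fun a β hab => ?_
  obtain ⟨k, k1, k2⟩ := hk β
  have e1 : ∀ z, (k b).1 z = (k a).1 ((h b a).1 z) := fun z => by
    rw [← k1 b a (hb a) hab]; rfl
  have e2 : ∀ z, (h b β).1 z = (U (k b)).1 ((k b).1 z) := fun z => by
    rw [k2 b ((hb a).trans_lt hab)]; rfl
  refine Set.ssubset_iff_of_subset (fun p hp => ?_) |>.2 ⟨(x (k b), y (k b)), ?_, fun hp => ?_⟩
  · show (h b β).1 p.1 = (h b β).1 p.2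
    rw [e2, e2, e1, e1, show (h b a).1 p.1 = (h b a).1 p.2 from hp]
  · show (h b β).1 _ = (h b β).1 _
    rw [e2, e2]; exact h1 _
  · exact h2 (k b) (by rw [e1, e1, show (h b a).1 (x (k b)) = (h b a).1 (y (k b)) from hp])

lemma surj {g : F →[Sᵐᵒᵖ] A} (H : CP (EndM g)) (inj : ∀ f : EndM g, Injective f.1)
    (f : EndM g) : Surjective f.1 := by
  by_contra hc
  obtain ⟨z, hz⟩ : ∃ z, ∀ x, f.1 x ≠ z := by
    unfold Surjective at hc; push Not at hc; exact hc
  obtain ⟨W, _, _, b, hb, hW⟩ := bigW F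
  obtain ⟨h, coh, hk⟩ := H.rec W fun _ => f
  obtain ⟨K, hK⟩ := H W h coh
  refine hW (fun β => Set.range (K β).1) fun a β hab => ?_
  obtain ⟨k, -, k2⟩ := hk β
  have e : ∀ x, (K a).1 x = (K β).1 (f.1 ((k a).1 x)) := fun x => by
    rw [← hK a β hab.le, k2 a hab]; rfl
  refine Set.ssubset_iff_of_subset ?_ |>.2 ⟨(K β).1 z, ⟨z, rfl⟩, ?_⟩
  · rintro _ ⟨x, rfl⟩; exact ⟨_, (e x).symm⟩
  · rintro ⟨x, hx⟩; exact hz _ (inj _ ((e x).symm.trans hx))

lemma flat_self : Flat S S := by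
  rw [flat_iff]
  intro X Y _ _ f hf a a' x x' h
  have h1 : a • f x = a' • f x' := E.ind (fun (a : S) (y : Y) => a • y)
    (fun a _ s _ y => by simp [ract, mul_smul]) h
  rw [← map_smul, ← map_smul] at h1
  have st : ∀ (a : S) (x : X), E (ract S) Set.univ a x 1 (a • x) := fun a x => by
    simpa [ract] using E.step1 (act := ract S) (a := 1) (s := a) (Set.mem_univ _)
      (Set.mem_univ _) x
  exact (st a x).trans (hf h1 ▸ (st a' x').symm)

theorem cover (S A : Type u) [Monoid S] [MulAction Sᵐᵒᵖ A] :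
    ∃ (F : Type u) (_ : MulAction Sᵐᵒᵖ F) (g : F →[Sᵐᵒᵖ] A), Flat S F ∧ Pre g ∧
      ∀ f : EndM g, Bijective f.1 := by
  obtain ⟨F, _, g, hF, hP⟩ := exists_pre S A
  obtain ⟨h, hh⟩ := maxker (cp hF hP)
  obtain ⟨L, _, gL, lam, h1, h2, h3, h4⟩ := colim hF (ULift.{u} ℕ)
    (fun a b => h ^ (b.down - a.down)) fun a b c hab hbc => by
      have e1 : a.down ≤ b.down := hab
      have e2 : b.down ≤ c.down := hbc
      rw [← pow_add]; congr 1; omega
  have hL : Pre gL := fun F' _ hF' k => by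
    obtain ⟨f, hf⟩ := hP F' hF' k
    exact ⟨(lam ⟨0⟩).comp f, fun a => by rw [MulActionHom.comp_apply, h2, hf]⟩
  have inj : ∀ f : EndM gL, Injective f.1 := by
    intro f l l' e
    obtain ⟨v, hv⟩ := hP L h1 gL
    obtain ⟨a, x, rfl⟩ := h4 l
    obtain ⟨b, y, rfl⟩ := h4 l'
    have key : ∀ (a : ULift.{u} ℕ) (n : ℕ) x, a.down ≤ n → ∃ z, lam ⟨n + 1⟩ (h.1 z) = lam a x :=
      fun a n x ha => ⟨(h ^ (n - a.down)).1 x, by
        rw [← h3 a ⟨n + 1⟩ x (show a.down ≤ n + 1 by omega), Nat.succ_sub ha, pow_succ']; rfl⟩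
    obtain ⟨z, hz⟩ := key a (max a.down b.down) x (le_max_left _ _)
    obtain ⟨z', hz'⟩ := key b (max a.down b.down) y (le_max_right _ _)
    rw [← hz, ← hz'] at e ⊢
    exact congrArg _ (hh ⟨fun x => v (f.1 (lam ⟨max a.down b.down + 1⟩ x)),
      fun s x => by beta_reduce; rw [map_smul, f.2.1, map_smul],
      fun x => by beta_reduce; rw [hv, f.2.2, h2]⟩ _ _
      (congrArg v e))
  exact ⟨L, inferInstance, gL, h1, hL, fun f => ⟨inj f, surj (cp h1 hL) inj f⟩⟩

end Pool.Agent.H72.FlatAct
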