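import Mathlib

namespace Pool.Agent.H72.FoxDefs

/-- A finitely generated free partial resolution `C_m → ⋯ → C_0 → ℤ → 0` of length `m` of the
trivial module `ℤ` over `ℤG`, with `C_i = (ℤG)^(rk i)`, `d i = ∂_(i+1)` and `eps = ∂_0`.
(The data in degrees above `m` are unconstrained and play no role.) -/
structure PartialRes (G : Type) [Group G] (m : ℕ) where
  rk : ℕ → ℕ
  d : ∀ i, (Fin (rk (i + 1)) → MonoidAlgebra ℤ G) →ₗ[MonoidAlgebra ℤ G]
    (Fin (rk i) → MonoidAlgebra ℤ G)
  eps : (Fin (rk 0) → MonoidAlgebra ℤ G) →+ ℤ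
  eps_smul : ∀ (g : G) (x : Fin (rk 0) → MonoidAlgebra ℤ G),
    eps (MonoidAlgebra.of ℤ G g • x) = eps x
  eps_surj : Function.Surjective eps
  exact_zero : 1 ≤ m → Function.Exact (d 0) eps
  exact_succ : ∀ i, i + 2 ≤ m → Function.Exact (d (i + 1)) (d i)

variable {G : Type} [Group G]

/-- The kernel of the top boundary map `∂_m`. -/
def topKer : {m : ℕ} → (C : PartialRes G m) → Set (Fin (C.rk m) → MonoidAlgebra ℤ G)
  | 0, C => {x | C.eps x = 0}
  | k + 1, C => {x | C.d k x = 0}

/-- The Fox ideal `I_m(C)`: the two-sided ideal generated by all coefficients of all elements of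
`ker ∂_m`. -/
noncomputable def foxIdeal {m : ℕ} (C : PartialRes G m) : TwoSidedIdeal (MonoidAlgebra ℤ G) :=
  TwoSidedIdeal.span {l | ∃ x ∈ topKer C, ∃ j, x j = l}

/-- The directed Euler characteristic `(-1)^m χ(C)`. -/
def dirChi {m : ℕ} (C : PartialRes G m) : ℤ :=
  ∑ i ∈ Finset.range (m + 1), (-1) ^ (i + m) * (C.rk i : ℤ)

/-- `C` has minimal directed Euler characteristic among all partial resolutions of length `m`. -/
def Minimal {m : ℕ} (C : PartialRes G m) : Prop :=
  ∀ D : PartialRes G m, dirChi C ≤ dirChi D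

end Pool.Agent.H72.FoxDefs
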