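import Mathlib
import Pool.Agent.H72.FoxDefs

namespace Pool.Agent.H72.FoxGen

open Pool.Agent.H72.FoxDefs MonoidAlgebra

variable {G : Type} [Group G]

/-- additive extension of a function on `G` to `ℤG`. -/
noncomputable def ext {A : Type*} [AddCommGroup A] (f : G → A) : MonoidAlgebra ℤ G →ₗ[ℤ] A :=
  (MonoidAlgebra.basis G ℤ).constr ℤ f

@[simp] theorem ext_of {A : Type*} [AddCommGroup A] (f : G → A) (g : G) :
    ext f (of ℤ G g) = f g := by
  have := (MonoidAlgebra.basis G ℤ).constr_basis ℤ f g
  rw [MonoidAlgebra.basis_apply] at this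
  exact this

theorem ext_one {A : Type*} [AddCommGroup A] (f : G → A) : ext f 1 = f 1 := by
  rw [← ext_of f 1, map_one (of ℤ G)]

noncomputable def aug : MonoidAlgebra ℤ G →ₐ[ℤ] ℤ := MonoidAlgebra.lift ℤ ℤ G 1

@[simp] theorem aug_of (g : G) : aug (of ℤ G g) = 1 := by
  rw [aug, lift_of]; rfl

theorem sub_aug_mem {N : ℕ} (x : Fin N → G) (hx : Subgroup.closure (Set.range x) = ⊤)
    (y : MonoidAlgebra ℤ G) :
    y - (aug y) • (1 : MonoidAlgebra ℤ G) ∈
      Ideal.span (Set.range fun j => of ℤ G (x j) - 1) := by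
  set J := Ideal.span (Set.range fun j => of ℤ G (x j) - 1)
  have hg : ∀ g : G, of ℤ G g - 1 ∈ J := by
    intro g
    have : g ∈ Subgroup.closure (Set.range x) := hx ▸ Subgroup.mem_top g
    induction this using Subgroup.closure_induction with
    | mem g h => obtain ⟨j, rfl⟩ := h; exact Ideal.subset_span ⟨j, rfl⟩
    | one => simp only [map_one, sub_self]; exact J.zero_mem
    | mul g h _ _ hg hh =>
      have : of ℤ G (g * h) - 1 = of ℤ G g * (of ℤ G h - 1) + (of ℤ G g - 1) := by
        rw [map_mul]; noncomm_ring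
      rw [this]; exact J.add_mem (J.mul_mem_left _ hh) hg
    | inv g _ hg =>
      have : of ℤ G g⁻¹ - 1 = - (of ℤ G g⁻¹ * (of ℤ G g - 1)) := by
        rw [mul_sub, ← map_mul, inv_mul_cancel, map_one]; noncomm_ring
      rw [this]; exact J.neg_mem (J.mul_mem_left _ hg)
  induction y using MonoidAlgebra.induction_on with
  | of g => simpa only [aug_of, one_smul] using hg g
  | add y z hy hz =>
    have : y + z - (aug (y + z)) • (1 : MonoidAlgebra ℤ G) =
        (y - (aug y) • 1) + (z - (aug z) • 1) := by rw [map_add, add_smul]; abel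
    rw [this]; exact J.add_mem hy hz
  | smul r y hy =>
    have : r • y - (aug (r • y)) • (1 : MonoidAlgebra ℤ G) = r • (y - (aug y) • 1) := by
      rw [map_smul, smul_sub, smul_eq_mul, mul_smul]
    rw [this]; exact zsmul_mem hy r

/-- ranks of the resolution attached to a generating family -/
def rks (N : ℕ) : ℕ → ℕ
  | 0 => 1
  | 1 => N
  | _ + 2 => 0

noncomputable def d0 {N : ℕ} (x : Fin N → G) :
    (Fin N → MonoidAlgebra ℤ G) →ₗ[MonoidAlgebra ℤ G] (Fin 1 → MonoidAlgebra ℤ G) where
  toFun l := fun _ => ∑ j, l j * (of ℤ G (x j) - 1)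
  map_add' l l' := by ext1 i; simp [add_mul, Finset.sum_add_distrib]
  map_smul' c l := by ext1 i; simp [Finset.mul_sum, mul_assoc]

noncomputable def ds {N : ℕ} (x : Fin N → G) : ∀ i,
    (Fin (rks N (i + 1)) → MonoidAlgebra ℤ G) →ₗ[MonoidAlgebra ℤ G]
      (Fin (rks N i) → MonoidAlgebra ℤ G)
  | 0 => d0 x
  | _ + 1 => 0

noncomputable def eps0 : (Fin 1 → MonoidAlgebra ℤ G) →+ ℤ where
  toFun y := aug (y 0)
  map_zero' := by simp
  map_add' y z := by simp

/-- The partial resolution of length one attached to a finite generating family. -/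
noncomputable def res {N : ℕ} (x : Fin N → G) (hx : Subgroup.closure (Set.range x) = ⊤) :
    PartialRes G 1 where
  rk := rks N
  d := ds x
  eps := eps0
  eps_smul g y := by
    change aug (of ℤ G g * y (0 : Fin 1)) = aug (y (0 : Fin 1))
    rw [map_mul, aug_of, one_mul]
  eps_surj n := ⟨fun _ => n • 1, by change aug (n • (1 : MonoidAlgebra ℤ G)) = n; simp⟩
  exact_zero _ y := by
    change aug (y (0 : Fin 1)) = 0 ↔ ∃ l : Fin N → MonoidAlgebra ℤ G, d0 x l = y
    constructor
    · intro h
      have := sub_aug_mem x hx (y (0 : Fin 1))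
      rw [h, zero_smul, sub_zero, Ideal.span, Submodule.mem_span_range_iff_exists_fun] at this
      obtain ⟨l, hl⟩ := this
      refine ⟨l, funext fun i => ?_⟩
      have : i = (0 : Fin 1) := Subsingleton.elim (α := Fin 1) _ _
      subst this
      exact hl
    · rintro ⟨l, rfl⟩
      change aug (∑ j, l j * (of ℤ G (x j) - 1)) = 0
      simp only [map_sum, map_mul, map_sub, aug_of, map_one, sub_self, mul_zero,
        Finset.sum_const_zero]
  exact_succ i h := by omega

theorem dirChi_res {N : ℕ} (x : Fin N → G) (hx : Subgroup.closure (Set.range x) = ⊤) :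
    dirChi (res x hx) = N - 1 := by
  simp [dirChi, Finset.sum_range_succ, res, rks]; ring

theorem mem_topKer {N : ℕ} (x : Fin N → G) (hx : Subgroup.closure (Set.range x) = ⊤)
    (l : Fin N → MonoidAlgebra ℤ G) :
    l ∈ topKer (res x hx) ↔ ∑ j, l j * (of ℤ G (x j) - 1) = 0 := by
  change d0 x l = 0 ↔ _
  constructor
  · intro h; exact congrFun h 0
  · intro h; funext i; exact h

/-- A derivation with independent values on the generators kills the Fox ideal. -/
theorem fox_le_ker {N : ℕ} (x : Fin N → G) (hx : Subgroup.closure (Set.range x) = ⊤)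
    {T V : Type} [Ring T] [AddCommGroup V] [Module T V] (ρ : G →* T) (D : G → V)
    (hD : ∀ g h, D (g * h) = D g + ρ g • D h) (hli : LinearIndependent T fun j => D (x j))
    (l : MonoidAlgebra ℤ G) (hl : l ∈ foxIdeal (res x hx)) :
    MonoidAlgebra.lift ℤ T G ρ l = 0 := by
  have key : ∀ (l : MonoidAlgebra ℤ G) (g : G),
      ext D (l * (of ℤ G g - 1)) = MonoidAlgebra.lift ℤ T G ρ l • D g := by
    intro l g
    induction l using MonoidAlgebra.induction_on with
    | of h => rw [mul_sub, ← map_mul, mul_one, map_sub, ext_of, ext_of, hD, lift_of]; abel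
    | add y z hy hz => rw [add_mul, map_add, hy, hz, map_add, add_smul]
    | smul r y hy => rw [smul_mul_assoc, map_smul, hy, map_smul, smul_assoc]
  have : foxIdeal (res x hx) ≤ TwoSidedIdeal.ker (MonoidAlgebra.lift ℤ T G ρ) := by
    rw [foxIdeal, TwoSidedIdeal.span_le]
    rintro _ ⟨y, hy, j, rfl⟩
    have hy' := (mem_topKer x hx y).1 hy
    have h2 := congrArg (ext D) hy'
    rw [map_sum, map_zero] at h2
    simp only [key] at h2
    have := Fintype.linearIndependent_iff.1 hli _ h2 j
    simpa [TwoSidedIdeal.mem_ker] using this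
  simpa [TwoSidedIdeal.mem_ker] using this hl

/-- commuting generators give a coefficient in the Fox ideal -/
theorem mem_fox_of_commute {N : ℕ} (x : Fin N → G) (hx : Subgroup.closure (Set.range x) = ⊤)
    (i j : Fin N) (hij : i ≠ j) (hc : Commute (x i) (x j)) :
    of ℤ G (x i) - 1 ∈ foxIdeal (res x hx) := by
  classical
  apply TwoSidedIdeal.subset_span
  refine ⟨(Pi.single j (of ℤ G (x i) - 1) - Pi.single i (of ℤ G (x j) - 1) :
    Fin N → MonoidAlgebra ℤ G), (mem_topKer x hx _).2 ?_, j, ?_⟩
  · simp only [Pi.sub_apply, sub_mul, Finset.sum_sub_distrib]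
    have h1 : ∀ (k : Fin N) (c : MonoidAlgebra ℤ G),
        ∑ j, (Pi.single k c : Fin N → MonoidAlgebra ℤ G) j * (of ℤ G (x j) - 1) =
          c * (of ℤ G (x k) - 1) := by
      intro k c
      rw [Finset.sum_eq_single k]
      · simp
      · intro b _ hb; simp [hb]
      · simp
    rw [h1, h1]
    have : of ℤ G (x i) * of ℤ G (x j) = of ℤ G (x j) * of ℤ G (x i) := by
      rw [← map_mul, ← map_mul, hc.eq]
    simp only [sub_mul, mul_sub, this]; noncomm_ring
  · simp [hij.symm]

/-- Lower bound for the directed Euler characteristic from the abelianisation. -/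
theorem dirChi_ge {κ : Type} [Fintype κ] (φ : G →* Multiplicative (κ → ℤ))
    (hφ : Function.Surjective φ) (C : PartialRes G 1) :
    (Fintype.card κ : ℤ) - 1 ≤ dirChi C := by
  classical
  have hlin : ∀ (l : MonoidAlgebra ℤ G) (y : Fin (C.rk 0) → MonoidAlgebra ℤ G),
      C.eps (l • y) = aug l * C.eps y := by
    intro l y
    induction l using MonoidAlgebra.induction_on with
    | of g => rw [C.eps_smul, aug_of, one_mul]
    | add a b ha hb => rw [add_smul, map_add, ha, hb, map_add, add_mul]
    | smul r a ha => rw [smul_assoc, map_zsmul, ha, map_smul, smul_mul_assoc]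
  let δ : MonoidAlgebra ℤ G →ₗ[ℤ] (κ → ℤ) := ext fun g => (φ g).toAdd
  have hδ : ∀ l y : MonoidAlgebra ℤ G, δ (l * y) = aug l • δ y + aug y • δ l := by
    intro l y
    induction l using MonoidAlgebra.induction_on with
    | of g =>
      induction y using MonoidAlgebra.induction_on with
      | of h =>
        rw [← map_mul]; simp only [δ, ext_of, aug_of, one_smul]
        rw [map_mul, toAdd_mul, add_comm]
      | add a b ha hb => rw [mul_add, map_add, ha, hb]; simp only [map_add, smul_add, add_smul]; abel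
      | smul r a ha =>
        rw [mul_smul_comm, map_smul, ha]
        simp only [map_smul, smul_add, smul_eq_mul, mul_smul, smul_comm r]
    | add a b ha hb => rw [add_mul, map_add, ha, hb]; simp only [map_add, smul_add, add_smul]; abel
    | smul r a ha =>
      rw [smul_mul_assoc, map_smul, ha]
      simp only [map_smul, smul_add, smul_eq_mul, mul_smul, smul_comm r]
  let c : Fin (C.rk 0) → ℤ := fun i => C.eps (Pi.single i 1)
  let ψ : (Fin (C.rk 0) → MonoidAlgebra ℤ G) →ₗ[MonoidAlgebra ℤ G] MonoidAlgebra ℤ G :=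
    { toFun := fun y => ∑ i, c i • y i
      map_add' := fun y z => by simp [Finset.sum_add_distrib]
      map_smul' := fun a y => by
        simp only [Pi.smul_apply, smul_eq_mul, RingHom.id_apply, Finset.mul_sum, mul_smul_comm] }
  have hψ : ∀ y, aug (ψ y) = C.eps y := by
    intro y
    have hy : y = ∑ i, y i • (Pi.single i 1 : Fin (C.rk 0) → MonoidAlgebra ℤ G) := by
      ext1 k; simp [Finset.sum_apply, Pi.single_apply]
    conv_rhs => rw [hy]
    rw [map_sum]
    simp only [hlin]
    have : ψ y = ∑ i, c i • y i := rfl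
    rw [this]
    simp only [map_sum, map_smul, smul_eq_mul, c, mul_comm]
  let F : (Fin (C.rk 0) → MonoidAlgebra ℤ G) →+ (κ → ℤ) × (Fin (C.rk 0) → ℤ) :=
    { toFun := fun y => (δ (ψ y), fun i => aug (y i))
      map_zero' := by ext <;> simp
      map_add' := fun y z => by ext <;> simp }
  have hF1 : ∀ y, (F y).1 = δ (ψ y) := fun _ => rfl
  have hF2 : ∀ y i, (F y).2 i = aug (y i) := fun _ _ => rfl
  have hF : ∀ (l : MonoidAlgebra ℤ G) y, C.eps y = 0 → F (l • y) = aug l • F y := by
    intro l y hy
    refine Prod.ext ?_ ?_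
    · rw [Prod.smul_fst, hF1, hF1, map_smul, smul_eq_mul, hδ, hψ, hy, zero_smul, add_zero]
    · ext i
      rw [Prod.smul_snd, Pi.smul_apply, hF2, hF2, Pi.smul_apply, smul_eq_mul, map_mul, smul_eq_mul]
  obtain ⟨x0, hx0⟩ := C.eps_surj 1
  let v : Option (Fin (C.rk 1)) → (κ → ℤ) × (Fin (C.rk 0) → ℤ) := fun o =>
    match o with
    | none => F x0
    | some j => F (C.d 0 (Pi.single j 1))
  set S := Submodule.span ℤ (Set.range v)
  have hker : ∀ y, C.eps y = 0 → F y ∈ S := by
    intro y hy
    obtain ⟨l, rfl⟩ := (C.exact_zero le_rfl y).1 hy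
    have hl : l = ∑ i, l i • (Pi.single i 1 : Fin (C.rk 1) → MonoidAlgebra ℤ G) := by
      ext1 k; simp [Finset.sum_apply, Pi.single_apply]
    rw [hl, map_sum, map_sum]
    refine Submodule.sum_mem _ fun j _ => ?_
    rw [map_smul, hF _ _ ((C.exact_zero le_rfl _).2 ⟨_, rfl⟩)]
    exact S.smul_mem _ (Submodule.subset_span ⟨some j, rfl⟩)
  have hall : ∀ y, F y ∈ S := by
    intro y
    have : y = (y - C.eps y • x0) + C.eps y • x0 := by abel
    rw [this, map_add, map_zsmul]
    refine S.add_mem (hker _ ?_) (S.smul_mem _ (Submodule.subset_span ⟨none, rfl⟩))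
    rw [map_sub, map_zsmul, hx0]; simp
  have h1 : ∀ w : κ → ℤ, ((w, 0) : (κ → ℤ) × (Fin (C.rk 0) → ℤ)) ∈ S := by
    intro w
    obtain ⟨g, hg⟩ := hφ (Multiplicative.ofAdd w)
    have : F ((of ℤ G g - 1) • x0) = (w, 0) := by
      refine Prod.ext ?_ ?_
      · rw [hF1, map_smul, smul_eq_mul, hδ, hψ, hx0, map_sub, map_sub, aug_of, map_one]
        simp only [δ, ext_of, ext_one, hg, map_one]
        simp
      · ext i
        rw [hF2, Pi.smul_apply, smul_eq_mul, map_mul, map_sub, aug_of, map_one, sub_self, zero_mul]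
        rfl
    exact this ▸ hall _
  have htop : S = ⊤ := by
    rw [eq_top_iff]
    rintro ⟨w, z⟩ -
    have h2 := hall fun i => z i • 1
    have : ((w, z) : (κ → ℤ) × (Fin (C.rk 0) → ℤ)) =
        F (fun i => z i • 1) + (w - (F fun i => z i • 1).1, 0) := by
      refine Prod.ext (by simp) ?_
      ext i
      rw [Prod.snd_add, Pi.add_apply, hF2]
      simp
    rw [this]
    exact S.add_mem h2 (h1 _)
  have := finrank_le_of_span_eq_top htop
  simp only [Module.finrank_prod, Module.finrank_fintype_fun_eq_card, Fintype.card_fin,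
    Fintype.card_option] at this
  simp only [dirChi, Finset.sum_range_succ, Finset.sum_range_zero]
  norm_num
  omega

end Pool.Agent.H72.FoxGen
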