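import Mathlib
import Pool.Agent.H72.FoxGen

namespace Pool.Agent.H72.FoxCons

open Pool.Agent.H72.FoxDefs Pool.Agent.H72.FoxGen MonoidAlgebra

abbrev T : Type := Module.End ℤ (ℕ → ℤ)

def a : T := LinearMap.funLeft ℤ ℤ fun n => 2 * n
def b : T := LinearMap.funLeft ℤ ℤ fun n => 2 * n + 1
def a' : T where
  toFun f n := if n % 2 = 0 then f (n / 2) else 0
  map_add' f g := by ext n; by_cases h : n % 2 = 0 <;> simp [h]
  map_smul' c f := by ext n; by_cases h : n % 2 = 0 <;> simp [h]
def b' : T where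
  toFun f n := if n % 2 = 0 then 0 else f (n / 2)
  map_add' f g := by ext n; by_cases h : n % 2 = 0 <;> simp [h]
  map_smul' c f := by ext n; by_cases h : n % 2 = 0 <;> simp [h]

theorem aa' : a * a' = 1 := by
  refine LinearMap.ext fun f => funext fun n => ?_
  simp [a, a', LinearMap.funLeft_apply]
theorem bb' : b * b' = 1 := by
  refine LinearMap.ext fun f => funext fun n => ?_
  have : (2 * n + 1) / 2 = n := by omega
  simp [b, b', LinearMap.funLeft_apply, this]
theorem ab' : a * b' = 0 := by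
  refine LinearMap.ext fun f => funext fun n => ?_
  simp [a, b', LinearMap.funLeft_apply]
theorem ba' : b * a' = 0 := by
  refine LinearMap.ext fun f => funext fun n => ?_
  simp [b, a', LinearMap.funLeft_apply]
theorem sum_one : a' * a + b' * b = 1 := by
  refine LinearMap.ext fun f => funext fun n => ?_
  by_cases h : n % 2 = 0
  · have : 2 * (n / 2) = n := by omega
    simp [a, b, a', b', LinearMap.funLeft_apply, h, this]
  · have : 2 * (n / 2) + 1 = n := by omega
    simp [a, b, a', b', LinearMap.funLeft_apply, h, this]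

theorem aa'' (x : T) : a * (a' * x) = x := by rw [← mul_assoc, aa', one_mul]
theorem bb'' (x : T) : b * (b' * x) = x := by rw [← mul_assoc, bb', one_mul]
theorem ab'' (x : T) : a * (b' * x) = 0 := by rw [← mul_assoc, ab', zero_mul]
theorem ba'' (x : T) : b * (a' * x) = 0 := by rw [← mul_assoc, ba', zero_mul]

def pr : Bool → T | false => a | true => b
def pr' : Bool → T | false => a' | true => b'
def tt : Fin 4 → T := ![a, b, a', b']

abbrev I : Type := (Fin 4 × Bool × Bool) ⊕ Bool

def nil : I → T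
  | Sum.inl (k, i, j) => a' * ((pr i * tt k * pr' j) * b)
  | Sum.inr false => a' * b
  | Sum.inr true => b' * a

theorem nil_sq (j : I) : nil j * nil j = 0 := by
  rcases j with ⟨k, i, j⟩ | _ | _ <;> simp [nil, mul_assoc, ba'', ab'']

def un (j : I) : Tˣ where
  val := 1 + nil j
  inv := 1 - nil j
  val_inv := by rw [add_mul, one_mul, mul_sub, mul_one, nil_sq]; abel
  inv_val := by rw [sub_mul, one_mul, mul_add, mul_one, nil_sq]; abel

abbrev V : Type := Option I → T

@[ext] structure Aff (Z : Type) where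
  v : V
  u : Tˣ
  z : Z

variable {Z : Type} [AddCommGroup Z]

instance : Mul (Aff Z) := ⟨fun x y => ⟨x.v + (x.u : T) • y.v, x.u * y.u, x.z + y.z⟩⟩
instance : One (Aff Z) := ⟨⟨0, 1, 0⟩⟩
instance : Inv (Aff Z) := ⟨fun x => ⟨-(((x.u⁻¹ : Tˣ) : T) • x.v), x.u⁻¹, -x.z⟩⟩

@[simp] theorem mul_v (x y : Aff Z) : (x * y).v = x.v + (x.u : T) • y.v := rfl
@[simp] theorem mul_u (x y : Aff Z) : (x * y).u = x.u * y.u := rfl
@[simp] theorem mul_z (x y : Aff Z) : (x * y).z = x.z + y.z := rfl
@[simp] theorem one_v : (1 : Aff Z).v = 0 := rfl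
@[simp] theorem one_u : (1 : Aff Z).u = 1 := rfl
@[simp] theorem one_z : (1 : Aff Z).z = 0 := rfl
@[simp] theorem inv_v (x : Aff Z) : (x⁻¹).v = -(((x.u⁻¹ : Tˣ) : T) • x.v) := rfl
@[simp] theorem inv_u (x : Aff Z) : (x⁻¹).u = x.u⁻¹ := rfl
@[simp] theorem inv_z (x : Aff Z) : (x⁻¹).z = -x.z := rfl

instance : Group (Aff Z) := Group.ofLeftAxioms
  (fun x y w => Aff.ext (by simp [mul_smul, add_assoc]) (by simp [mul_assoc]) (by simp [add_assoc]))
  (fun x => Aff.ext (by simp) (by simp) (by simp))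
  (fun x => Aff.ext (by simp) (by simp) (by simp))

def tr (m : T) (z : Z) : Aff Z := ⟨Pi.single none m, 1, z⟩
def yy (t : I → Z) (j : I) : Aff Z := ⟨Pi.single (some j) 1, un j, t j⟩

theorem tr_mul (m m' : T) (z z' : Z) : tr m z * tr m' z' = tr (m + m') (z + z') :=
  Aff.ext (by simp [tr, Pi.single_add]) (by simp [tr]) (by simp [tr])
theorem tr_inv (m : T) (z : Z) : (tr m z)⁻¹ = tr (-m) (-z) :=
  Aff.ext (by simp [tr, Pi.single_neg]) (by simp [tr]) (by simp [tr])
theorem tr_conj (x : Aff Z) (m : T) (z : Z) : x * tr m z * x⁻¹ = tr ((x.u : T) * m) z := by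
  refine Aff.ext ?_ (by simp [tr]) (by simp [tr])
  simp only [tr, mul_v, inv_v, mul_u, mul_one, smul_neg, smul_smul, Units.mul_inv, one_smul]
  rw [← Pi.single_smul, smul_eq_mul]; abel

section
variable {t : I → Z} {H : Subgroup (Aff Z)} (hH : ∀ j, yy t j ∈ H)
include hH

theorem nil_mem (j : I) {m : T} {z : Z} (h : tr m z ∈ H) : tr (nil j * m) (0 : Z) ∈ H := by
  have h1 := H.mul_mem (H.mul_mem (H.mul_mem (hH j) h) (H.inv_mem (hH j))) (H.inv_mem h)
  rw [tr_conj, tr_inv, tr_mul] at h1
  convert h1 using 2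
  · simp [yy, un, add_mul]
  · simp

theorem split {m : T} {z : Z} (h : tr m z ∈ H) : tr m (0 : Z) ∈ H ∧ tr 0 z ∈ H := by
  have h1 := nil_mem hH (Sum.inr true) (nil_mem hH (Sum.inr false) h)
  have h2 := nil_mem hH (Sum.inr false) (nil_mem hH (Sum.inr true) h)
  have h3 := H.mul_mem h2 h1
  rw [tr_mul] at h3
  have h4 : tr m (0 : Z) ∈ H := by
    convert h3 using 2
    · simp only [nil, mul_assoc, aa'', bb'']
      rw [← mul_assoc, ← mul_assoc, ← add_mul, sum_one, one_mul]
    · simp
  refine ⟨h4, ?_⟩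
  have h5 := H.mul_mem h (H.inv_mem h4)
  rw [tr_inv, tr_mul] at h5
  simpa using h5

theorem tt_mem (k : Fin 4) {m : T} (h : tr m (0 : Z) ∈ H) : tr (tt k * m) (0 : Z) ∈ H := by
  have hv : ∀ {m : T}, tr m (0 : Z) ∈ H → tr (b' * a * m) (0 : Z) ∈ H :=
    fun h => nil_mem hH (Sum.inr true) h
  have hs : ∀ i j, ∀ {m : T}, tr m (0 : Z) ∈ H →
      tr (a' * ((pr i * tt k * pr' j) * b) * m) (0 : Z) ∈ H :=
    fun i j _ h => nil_mem hH (Sum.inl (k, i, j)) h
  have h00 := hs false false (hv h)
  have h01 := hs false true h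
  have h10 := hv (hs true false (hv h))
  have h11 := hv (hs true true h)
  have := H.mul_mem (H.mul_mem h00 h01) (H.mul_mem h10 h11)
  simp only [tr_mul, pr, pr', mul_assoc, aa'', bb'', add_zero] at this
  convert this using 2
  have e : tt k * m = (a' * a + b' * b) * (tt k * ((a' * a + b' * b) * m)) := by
    rw [sum_one, one_mul, one_mul]
  rw [e]; noncomm_ring

end

def sys1 (t : I ⊕ Bool → Z) : I ⊕ Bool → Aff Z
  | Sum.inl j => yy (fun j => t (Sum.inl j)) j
  | Sum.inr false => tr a (t (Sum.inr false))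
  | Sum.inr true => tr b (t (Sum.inr true))

def sys2 (t : I ⊕ Bool → Z) : I ⊕ Bool → Aff Z
  | Sum.inl j => yy (fun j => t (Sum.inl j)) j
  | Sum.inr false => tr 1 (t (Sum.inr false))
  | Sum.inr true => tr 0 (t (Sum.inr true))

theorem closure_eq (t : I ⊕ Bool → Z) :
    Subgroup.closure (Set.range (sys2 t)) = Subgroup.closure (Set.range (sys1 t)) := by
  apply le_antisymm
  · rw [Subgroup.closure_le]
    set H := Subgroup.closure (Set.range (sys1 t))
    have hm : ∀ j, sys1 t j ∈ H := fun j => Subgroup.subset_closure ⟨j, rfl⟩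
    have hH : ∀ j, yy (fun j => t (Sum.inl j)) j ∈ H := fun j => hm (Sum.inl j)
    obtain ⟨h1, h2⟩ := split hH (hm (Sum.inr false))
    obtain ⟨h3, h4⟩ := split hH (hm (Sum.inr true))
    rintro _ ⟨j | _ | _, rfl⟩
    · exact hH j
    · have := H.mul_mem (H.mul_mem (tt_mem hH 2 h1) (tt_mem hH 3 h3)) h2
      simp only [tr_mul, add_zero, zero_add] at this
      change tr 1 _ ∈ H
      rw [← sum_one]; exact this
    · exact h4
  · rw [Subgroup.closure_le]
    set H := Subgroup.closure (Set.range (sys2 t))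
    have hm : ∀ j, sys2 t j ∈ H := fun j => Subgroup.subset_closure ⟨j, rfl⟩
    have hH : ∀ j, yy (fun j => t (Sum.inl j)) j ∈ H := fun j => hm (Sum.inl j)
    obtain ⟨h1, h2⟩ := split hH (hm (Sum.inr false))
    have h4 := hm (Sum.inr true)
    rintro _ ⟨j | _ | _, rfl⟩
    · exact hH j
    · have := H.mul_mem (tt_mem hH 0 h1) h2
      simp only [tr_mul, add_zero, zero_add, mul_one] at this
      exact this
    · have := H.mul_mem (tt_mem hH 1 h1) h4
      simp only [sys2, tr_mul, add_zero, zero_add, mul_one] at this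
      exact this

def fam {B κ : Type} [Group B] (f : κ → B) (H : Subgroup B)
    (h : Subgroup.closure (Set.range f) = H) {N : ℕ} (e : Fin N ≃ κ) (j : Fin N) : H :=
  ⟨f (e j), h ▸ Subgroup.subset_closure ⟨e j, rfl⟩⟩

theorem fam_val {B κ : Type} [Group B] (f : κ → B) (H : Subgroup B)
    (h : Subgroup.closure (Set.range f) = H) {N : ℕ} (e : Fin N ≃ κ) (j : Fin N) :
    (fam f H h e j : B) = f (e j) := rfl

theorem closure_sub {B κ : Type} [Group B] (f : κ → B) (H : Subgroup B)
    (h : Subgroup.closure (Set.range f) = H) {N : ℕ} (e : Fin N ≃ κ) :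
    Subgroup.closure (Set.range (fam f H h e)) = ⊤ := by
  apply Subgroup.map_injective H.subtype_injective
  rw [MonoidHom.map_closure, ← Set.range_comp, ← MonoidHom.range_eq_map, Subgroup.range_subtype]
  have : (H.subtype ∘ fam f H h e) = f ∘ e := rfl
  rw [this, e.surjective.range_comp, h]

omit [AddCommGroup Z] in
theorem li_sys1 (t : I ⊕ Bool → Z) : LinearIndependent T fun j => (sys1 t j).v := by
  rw [Fintype.linearIndependent_iff]
  intro g hg
  rw [Fintype.sum_sum_type, Fintype.sum_bool] at hg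
  have h0 := congrFun hg none
  simp only [sys1, yy, tr, Pi.add_apply, Finset.sum_apply, Pi.smul_apply, Pi.zero_apply,
    Pi.single_eq_same, smul_eq_mul, ne_eq, reduceCtorEq, not_false_eq_true, Pi.single_eq_of_ne,
    mul_zero, Finset.sum_const_zero, zero_add] at h0
  rintro (j | _ | _)
  · have h1 := congrFun hg (some j)
    simp only [sys1, yy, tr, Pi.add_apply, Finset.sum_apply, Pi.smul_apply, Pi.zero_apply,
      smul_eq_mul, ne_eq, reduceCtorEq, not_false_eq_true, Pi.single_eq_of_ne,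
      mul_zero, add_zero] at h1
    rw [Finset.sum_eq_single j] at h1
    · simpa using h1
    · intro k _ hk
      rw [Pi.single_eq_of_ne (by simpa using hk.symm), mul_zero]
    · simp
  · have := congrArg (· * a') h0
    simpa [add_mul, mul_assoc, aa', ba'] using this
  · have := congrArg (· * b') h0
    simpa [add_mul, mul_assoc, bb', ab'] using this

def GG (t : I ⊕ Bool → Z) : Subgroup (Aff Z) := Subgroup.closure (Set.range (sys1 t))

def rho (t : I ⊕ Bool → Z) : GG t →* T where
  toFun g := (g.1.u : T)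
  map_one' := rfl
  map_mul' _ _ := rfl

theorem GG_eq (t : I ⊕ Bool → Z) : Subgroup.closure (Set.range (sys1 t)) = GG t := rfl
theorem GG_eq2 (t : I ⊕ Bool → Z) : Subgroup.closure (Set.range (sys2 t)) = GG t := closure_eq t

noncomputable def C1 (t : I ⊕ Bool → Z) {N : ℕ} (e : Fin N ≃ I ⊕ Bool) : PartialRes (GG t) 1 :=
  res (fam (sys1 t) (GG t) (GG_eq t) e) (closure_sub (sys1 t) (GG t) (GG_eq t) e)
noncomputable def C2 (t : I ⊕ Bool → Z) {N : ℕ} (e : Fin N ≃ I ⊕ Bool) : PartialRes (GG t) 1 :=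
  res (fam (sys2 t) (GG t) (GG_eq2 t) e) (closure_sub (sys2 t) (GG t) (GG_eq2 t) e)

theorem C1_ker (t : I ⊕ Bool → Z) {N : ℕ} (e : Fin N ≃ I ⊕ Bool) (l : MonoidAlgebra ℤ (GG t))
    (hl : l ∈ foxIdeal (C1 t e)) :
    MonoidAlgebra.lift ℤ T (GG t) (rho t) l = 0 := by
  have hli : LinearIndependent T
      fun j => (fun g : GG t => g.1.v) (fam (sys1 t) (GG t) (GG_eq t) e j) := by
    have := (li_sys1 t).comp e e.injective
    simpa only [fam_val, Function.comp_def] using this
  exact fox_le_ker (fam (sys1 t) (GG t) (GG_eq t) e) (closure_sub (sys1 t) (GG t) (GG_eq t) e)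
    (rho t) (fun g => g.1.v) (fun _ _ => rfl) hli l hl

theorem T_ne : (1 : T) ≠ 0 := by
  intro h
  have := congrFun (LinearMap.congr_fun h (fun _ => 1)) 0
  simp at this

theorem nonminimal : ∃ (G : Type) (_ : Group G) (C D : PartialRes G 1),
    dirChi D < dirChi C ∧ foxIdeal C ≠ ⊤ := by
  let t : I ⊕ Bool → ℤ := 0
  let f : Option I → Aff ℤ := fun o => match o with
    | none => sys2 t (Sum.inr false)
    | some j => sys2 t (Sum.inl j)
  have hf : Subgroup.closure (Set.range f) = GG t := by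
    rw [GG, ← closure_eq]
    apply le_antisymm
    · apply Subgroup.closure_mono
      rintro _ ⟨_ | j, rfl⟩ <;> exact ⟨_, rfl⟩
    · rw [Subgroup.closure_le]
      rintro _ ⟨j | _ | _, rfl⟩
      · exact Subgroup.subset_closure ⟨some j, rfl⟩
      · exact Subgroup.subset_closure ⟨none, rfl⟩
      · have : sys2 t (Sum.inr true) = 1 := Aff.ext (by simp [sys2, tr]) rfl rfl
        rw [this]; exact Subgroup.one_mem _
  refine ⟨GG t, inferInstance, C1 t (Fintype.equivFin _).symm,
    res _ (closure_sub f (GG t) hf (Fintype.equivFin _).symm), ?_, fun h => ?_⟩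
  · rw [C1, dirChi_res, dirChi_res]; simp
  · have := C1_ker t _ 1 (by rw [h]; exact TwoSidedIdeal.mem_top _)
    rw [map_one] at this
    exact T_ne this

theorem minimal : ∃ (G : Type) (_ : Group G) (C D : PartialRes G 1),
    Minimal C ∧ Minimal D ∧ foxIdeal C ≠ foxIdeal D := by
  classical
  let t : I ⊕ Bool → (I ⊕ Bool → ℤ) := fun j => Pi.single j 1
  let φ : GG t →* Multiplicative (I ⊕ Bool → ℤ) :=
    { toFun := fun g => Multiplicative.ofAdd g.1.z
      map_one' := rfl
      map_mul' := fun _ _ => rfl }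
  have hφ : Function.Surjective φ := by
    rw [← MonoidHom.range_eq_top, eq_top_iff]
    intro w _
    have hw : w = ∏ j, (Multiplicative.ofAdd (t j)) ^ (w.toAdd j) := by
      apply Multiplicative.toAdd.injective
      rw [toAdd_prod]
      ext k
      simp [t, Finset.sum_apply, Pi.single_apply]
    rw [hw]
    refine Subgroup.prod_mem _ fun j _ => Subgroup.zpow_mem _ ?_ _
    refine ⟨⟨sys1 t j, Subgroup.subset_closure ⟨j, rfl⟩⟩, ?_⟩
    rcases j with j | _ | _ <;> rfl
  obtain ⟨N, hN, ⟨e1⟩⟩ : ∃ N, N = Fintype.card (I ⊕ Bool) ∧ Nonempty (Fin N ≃ I ⊕ Bool) :=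
    ⟨_, rfl, ⟨(Fintype.equivFin _).symm⟩⟩
  refine ⟨GG t, inferInstance, C1 t e1, C2 t e1, fun D => ?_, fun D => ?_, fun h => ?_⟩
  · rw [C1, dirChi_res, hN]; exact dirChi_ge φ hφ D
  · rw [C2, dirChi_res, hN]; exact dirChi_ge φ hφ D
  · have h1 := mem_fox_of_commute _ (closure_sub (sys2 t) (GG t) (GG_eq2 t) e1)
      (e1.symm (Sum.inl (Sum.inr false))) (e1.symm (Sum.inr true)) (by simp) (by
        apply Subtype.ext
        simp only [Subgroup.coe_mul, fam_val, Equiv.apply_symm_apply]
        exact Aff.ext (by simp [sys2, tr]) (by simp [sys2, tr]) (by simp [add_comm]))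
    have h2 := C1_ker t e1 _ (by rw [h]; exact h1)
    rw [map_sub, map_one, lift_of] at h2
    simp only [rho, MonoidHom.coe_mk, OneHom.coe_mk, fam_val, Equiv.apply_symm_apply, sys2, yy, un, nil,
      add_sub_cancel_left] at h2
    have := congrArg (fun x => a * (x * b')) h2
    simp only [mul_assoc, aa'', bb', zero_mul, mul_zero] at this
    exact T_ne this

end Pool.Agent.H72.FoxCons
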