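import Mathlib

set_option autoImplicit false

namespace H72.GreenHop

variable {S : Type} [Semigroup S] (T : Subsemigroup S)

def Rr (x y : S) : Prop := y = x ∨ ∃ t ∈ T, y = x * t
def Ll (x y : S) : Prop := y = x ∨ ∃ t ∈ T, y = t * x

variable {T}

theorem Rr.trans {x y z : S} (h1 : Rr T x y) (h2 : Rr T y z) : Rr T x z := by
  rcases h1 with rfl | ⟨t, ht, rfl⟩
  · exact h2
  · rcases h2 with rfl | ⟨u, hu, rfl⟩
    · exact Or.inr ⟨t, ht, rfl⟩
    · exact Or.inr ⟨t * u, T.mul_mem ht hu, mul_assoc _ _ _⟩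

theorem Ll.trans {x y z : S} (h1 : Ll T x y) (h2 : Ll T y z) : Ll T x z := by
  rcases h1 with rfl | ⟨t, ht, rfl⟩
  · exact h2
  · rcases h2 with rfl | ⟨u, hu, rfl⟩
    · exact Or.inr ⟨t, ht, rfl⟩
    · exact Or.inr ⟨u * t, T.mul_mem hu ht, (mul_assoc _ _ _).symm⟩

theorem R_iff (x y : S) :
    insert x ((fun t => x * t) '' (T : Set S)) = insert y ((fun t => y * t) '' (T : Set S)) ↔
      Rr T x y ∧ Rr T y x := by
  have key : ∀ x z : S, z ∈ insert x ((fun t => x * t) '' (T : Set S)) ↔ Rr T x z := by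
    intro x z
    simp only [Set.mem_insert_iff, Set.mem_image, Rr, SetLike.mem_coe]
    constructor
    · rintro (h | ⟨t, ht, h⟩)
      · exact Or.inl h
      · exact Or.inr ⟨t, ht, h.symm⟩
    · rintro (h | ⟨t, ht, h⟩)
      · exact Or.inl h
      · exact Or.inr ⟨t, ht, h.symm⟩
  constructor
  · intro h
    refine ⟨(key x y).1 (h ▸ (key y y).2 (Or.inl rfl)), (key y x).1 (h ▸ (key x x).2 (Or.inl rfl))⟩
  · rintro ⟨h1, h2⟩
    ext z
    rw [key, key]
    exact ⟨fun h => h2.trans h, fun h => h1.trans h⟩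

theorem L_iff (x y : S) :
    insert x ((fun t => t * x) '' (T : Set S)) = insert y ((fun t => t * y) '' (T : Set S)) ↔
      Ll T x y ∧ Ll T y x := by
  have key : ∀ x z : S, z ∈ insert x ((fun t => t * x) '' (T : Set S)) ↔ Ll T x z := by
    intro x z
    simp only [Set.mem_insert_iff, Set.mem_image, Ll, SetLike.mem_coe]
    constructor
    · rintro (h | ⟨t, ht, h⟩)
      · exact Or.inl h
      · exact Or.inr ⟨t, ht, h.symm⟩
    · rintro (h | ⟨t, ht, h⟩)
      · exact Or.inl h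
      · exact Or.inr ⟨t, ht, h.symm⟩
  constructor
  · intro h
    refine ⟨(key x y).1 (h ▸ (key y y).2 (Or.inl rfl)), (key y x).1 (h ▸ (key x x).2 (Or.inl rfl))⟩
  · rintro ⟨h1, h2⟩
    ext z
    rw [key, key]
    exact ⟨fun h => h2.trans h, fun h => h1.trans h⟩

variable (T)

def Hh (x y : S) : Prop := (Rr T x y ∧ Rr T y x) ∧ (Ll T x y ∧ Ll T y x)

def Cls (x : S) : Set S := {y : S |
  insert x ((fun t => x * t) '' (T : Set S)) = insert y ((fun t => y * t) '' (T : Set S)) ∧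
  insert x ((fun t => t * x) '' (T : Set S)) = insert y ((fun t => t * y) '' (T : Set S))}

variable {T}

theorem mem_Cls {x y : S} : y ∈ Cls T x ↔ Hh T x y := by
  simp only [Cls, Set.mem_ofPred_eq, R_iff, L_iff, Hh]

theorem Hh.refl (x : S) : Hh T x x := ⟨⟨Or.inl rfl, Or.inl rfl⟩, ⟨Or.inl rfl, Or.inl rfl⟩⟩
theorem Hh.symm {x y : S} (h : Hh T x y) : Hh T y x := ⟨⟨h.1.2, h.1.1⟩, ⟨h.2.2, h.2.1⟩⟩
theorem Hh.trans {x y z : S} (h : Hh T x y) (k : Hh T y z) : Hh T x z :=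
  ⟨⟨h.1.1.trans k.1.1, k.1.2.trans h.1.2⟩, ⟨h.2.1.trans k.2.1, k.2.2.trans h.2.2⟩⟩

theorem Cls_eq {x y : S} : Cls T x = Cls T y ↔ Hh T x y := by
  constructor
  · intro h
    exact mem_Cls.1 (h ▸ mem_Cls.2 (Hh.refl y))
  · intro h
    ext z
    rw [mem_Cls, mem_Cls]
    exact ⟨fun k => h.symm.trans k, fun k => h.trans k⟩

theorem Rr.mem {x y : S} (h : Rr T x y) (hx : x ∈ T) : y ∈ T := by
  rcases h with rfl | ⟨t, ht, rfl⟩
  · exact hx
  · exact T.mul_mem hx ht

theorem Ll.mem {x y : S} (h : Ll T x y) (hx : x ∈ T) : y ∈ T := by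
  rcases h with rfl | ⟨t, ht, rfl⟩
  · exact hx
  · exact T.mul_mem ht hx

theorem Rr.mul_left {x y : S} (h : Rr T x y) (s : S) : Rr T (s * x) (s * y) := by
  rcases h with rfl | ⟨t, ht, rfl⟩
  · exact Or.inl rfl
  · exact Or.inr ⟨t, ht, (mul_assoc _ _ _).symm⟩

theorem Ll.mul_right {x y : S} (h : Ll T x y) (s : S) : Ll T (x * s) (y * s) := by
  rcases h with rfl | ⟨t, ht, rfl⟩
  · exact Or.inl rfl
  · exact Or.inr ⟨t, ht, mul_assoc _ _ _⟩

theorem Hh.map {x y : S} (h : Hh T x y) (f : S → S) (hf : ∀ a b, f (a * b) = f a * f b)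
    (hT : ∀ t ∈ T, f t ∈ T) : Hh T (f x) (f y) := by
  have h1 : ∀ {x y : S}, Rr T x y → Rr T (f x) (f y) := by
    intro x y h
    rcases h with rfl | ⟨t, ht, rfl⟩
    · exact Or.inl rfl
    · exact Or.inr ⟨f t, hT t ht, hf _ _⟩
  have h2 : ∀ {x y : S}, Ll T x y → Ll T (f x) (f y) := by
    intro x y h
    rcases h with rfl | ⟨t, ht, rfl⟩
    · exact Or.inl rfl
    · exact Or.inr ⟨f t, hT t ht, hf _ _⟩
  exact ⟨⟨h1 h.1.1, h1 h.1.2⟩, ⟨h2 h.2.1, h2 h.2.2⟩⟩

/-- a finite set of representatives -/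
theorem exists_reps (hfin : Set.Finite {C : Set S | ∃ x : S, x ∉ T ∧ C = Cls T x}) :
    ∃ B : Set S, B.Finite ∧ (∀ b ∈ B, b ∉ T) ∧ ∀ x, x ∉ T → ∃ b ∈ B, Hh T b x := by
  classical
  have : ∀ C : {C : Set S | ∃ x : S, x ∉ T ∧ C = Cls T x}, ∃ x : S, x ∉ T ∧ C.1 = Cls T x :=
    fun C => C.2
  choose r hr1 hr2 using this
  have := hfin.to_subtype
  refine ⟨Set.range r, Set.finite_range r, ?_, ?_⟩
  · rintro b ⟨C, rfl⟩
    exact hr1 C
  · intro x hx
    refine ⟨r ⟨Cls T x, x, hx, rfl⟩, ⟨_, rfl⟩, ?_⟩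
    exact (Cls_eq.1 (hr2 ⟨Cls T x, x, hx, rfl⟩)).symm

variable (T)

def N (s : S) : Prop × Set S := (s ∈ T, {y | s * y ∈ T})

def dl (a : S) (p : Prop × Set S) : Prop × Set S := (a ∈ p.2, {y | a * y ∈ p.2})

variable {T}

theorem dl_N (s a : S) : dl a (N T s) = N T (s * a) := by
  simp only [dl, N, Set.mem_ofPred_eq, mul_assoc]

theorem dl_mul (a b : S) (p : Prop × Set S) : dl (a * b) p = dl b (dl a p) := by
  simp only [dl, Set.mem_ofPred_eq, mul_assoc]

theorem finite_N {B : Set S} (hB : B.Finite) (hr : ∀ x, x ∉ T → ∃ b ∈ B, Hh T b x) :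
    (Set.range (N T)).Finite := by
  have h1 : (N T '' B).Finite := hB.image _
  have h2 : ((fun W : Set S => ((True, {y | y ∈ T ∨ ∃ b ∈ W, Hh T b y}) : Prop × Set S)) ''
      {W | W ⊆ B}).Finite := hB.finite_subsets.image _
  refine (h1.union h2).subset ?_
  rintro _ ⟨s, rfl⟩
  by_cases hs : s ∈ T
  · right
    refine ⟨{b | b ∈ B ∧ s * b ∈ T}, fun b hb => hb.1, ?_⟩
    simp only [N, Prod.mk.injEq]
    refine ⟨by simp [hs], ?_⟩
    ext y
    simp only [Set.mem_ofPred_eq]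
    constructor
    · rintro (h | ⟨b, ⟨_, hb⟩, h⟩)
      · exact T.mul_mem hs h
      · exact (h.1.1.mul_left s).mem hb
    · intro h
      by_cases hy : y ∈ T
      · exact Or.inl hy
      · obtain ⟨b, hb, k⟩ := hr y hy
        exact Or.inr ⟨b, ⟨hb, (k.1.2.mul_left s).mem h⟩, k⟩
  · left
    obtain ⟨b, hb, k⟩ := hr s hs
    refine ⟨b, hb, ?_⟩
    simp only [N, Prod.mk.injEq]
    refine ⟨propext ⟨fun h => k.1.1.mem h, fun h => k.1.2.mem h⟩, ?_⟩
    ext y
    simp only [Set.mem_ofPred_eq]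
    exact ⟨fun h => (k.2.1.mul_right y).mem h, fun h => (k.2.2.mul_right y).mem h⟩

theorem iter_mul (f : S → S) (hf : ∀ a b, f (a * b) = f a * f b) (k : ℕ) (a b : S) :
    f^[k] (a * b) = f^[k] a * f^[k] b := by
  induction k generalizing a b with
  | zero => rfl
  | succ k ih => simp only [Function.iterate_succ, Function.comp, hf, ih]

theorem pig {Y : Type} [Finite Y] (g : ℕ → Y) : ∃ k r : ℕ, 0 < r ∧ g k = g (r + k) := by
  obtain ⟨k, l, hne, h⟩ := Finite.exists_ne_map_eq_of_infinite g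
  rcases lt_or_gt_of_ne hne with hl | hl
  · exact ⟨k, l - k, by omega, by rw [h]; congr 1; omega⟩
  · exact ⟨l, k - l, by omega, by rw [← h]; congr 1; omega⟩

theorem power_pres {A : Set S} (hA : A.Finite) (hgen : ∀ s, s ∈ Subsemigroup.closure A)
    (hN : (Set.range (N T)).Finite) (f : S → S) (hf : ∀ a b, f (a * b) = f a * f b)
    (hs : Function.Surjective f) : ∃ r, 0 < r ∧ ∀ s, f^[r] s ∈ T ↔ s ∈ T := by
  have := hN.to_subtype
  have := hA.to_subtype
  let X := Set.range (N T)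
  let Φ : S → X × (X → X) := fun s => (⟨N T s, s, rfl⟩, fun p => ⟨dl s p.1, by
    obtain ⟨p, u, rfl⟩ := p
    exact ⟨u * s, (dl_N u s).symm⟩⟩)
  have hΦ : ∀ s t, Φ (s * t) = ((Φ t).2 (Φ s).1, fun p => (Φ t).2 ((Φ s).2 p)) := by
    intro s t
    refine Prod.ext (Subtype.ext ?_) (funext fun p => Subtype.ext ?_)
    · exact (dl_N s t).symm
    · exact dl_mul s t p.1
  obtain ⟨k, r, hr, h⟩ := pig (fun k => fun a : A => Φ (f^[k] a))
  have hall : ∀ s, Φ (f^[k] s) = Φ (f^[r + k] s) := by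
    intro s
    induction hgen s using Subsemigroup.closure_induction with
    | mem x hx => exact congrFun h ⟨x, hx⟩
    | mul x y _ _ hx hy => rw [iter_mul f hf, iter_mul f hf, hΦ, hΦ, hx, hy]
  refine ⟨r, hr, fun s => ?_⟩
  obtain ⟨u, rfl⟩ := hs.iterate k s
  have := congrArg (fun q => q.1.1.1) (hall u)
  simp only [Φ, N] at this
  rw [← Function.iterate_add_apply, this]

theorem power_fix {B : Set S} (hB : B.Finite) (hBT : ∀ b ∈ B, b ∉ T)
    (hr : ∀ x, x ∉ T → ∃ b ∈ B, Hh T b x) (f : S → S) (hf : ∀ a b, f (a * b) = f a * f b)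
    (hs : Function.Surjective f) (hT : ∀ s, f s ∈ T ↔ s ∈ T) :
    ∃ r, 0 < r ∧ ∀ s, s ∉ T → Hh T s (f^[r] s) := by
  have := hB.to_subtype
  have hTk : ∀ k s, f^[k] s ∈ T ↔ s ∈ T := by
    intro k
    induction k with
    | zero => intro s; rfl
    | succ k ih => intro s; rw [Function.iterate_succ_apply, ih, hT]
  have : ∀ (k : ℕ) (b : B), ∃ c : B, Hh T c (f^[k] b) := by
    intro k b
    obtain ⟨c, hc, h⟩ := hr (f^[k] b) (fun h => hBT b b.2 ((hTk k b).1 h))
    exact ⟨⟨c, hc⟩, h⟩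
  choose g hg using this
  obtain ⟨k, r, hr0, h⟩ := pig g
  refine ⟨r, hr0, fun s hs' => ?_⟩
  obtain ⟨u, rfl⟩ := hs.iterate k s
  obtain ⟨b, hb, hu⟩ := hr u (fun h => hs' ((hTk k u).2 h))
  rw [← Function.iterate_add_apply]
  have e1 := hu.map _ (iter_mul f hf k) (fun t ht => (hTk k t).2 ht)
  have e2 := hu.map _ (iter_mul f hf (r + k)) (fun t ht => (hTk _ t).2 ht)
  have e3 := hg k ⟨b, hb⟩
  have e4 := hg (r + k) ⟨b, hb⟩
  rw [← h] at e4
  exact (e1.symm.trans e3.symm).trans (e4.trans e2)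

/-- relative Green lemma -/
theorem green {x h t : S} (hh : Hh T x h) (ht : t ∈ T) (h' : Hh T x (h * t)) :
    (fun z => z * t) '' Cls T x = Cls T x := by
  have hk : Hh T h (h * t) := hh.symm.trans h'
  have aux : ∀ {h t u : S}, Hh T x h → t ∈ T → Hh T x (h * t) → (h = h * t ∨ (u ∈ T ∧ h = h * t * u)) →
      ∀ z, Hh T x z → Hh T x (z * t) := by
    intro h t u hh ht h' hu z hz
    have hzh : Hh T h z := hh.symm.trans hz
    have r1 : Rr T z (z * t) := Or.inr ⟨t, ht, rfl⟩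
    have r2 : Rr T (z * t) z := by
      rcases hu with hu | ⟨hu, e⟩
      · left
        rcases hzh.2.1 with rfl | ⟨v, _, rfl⟩
        · exact hu
        · rw [mul_assoc, ← hu]
      · right
        refine ⟨u, hu, ?_⟩
        rcases hzh.2.1 with rfl | ⟨v, _, rfl⟩
        · exact e
        · rw [mul_assoc v, mul_assoc v, ← e]
    exact ⟨⟨hz.1.1.trans r1, r2.trans hz.1.2⟩,
      ⟨h'.2.1.trans (hzh.2.1.mul_right t), (hzh.2.2.mul_right t).trans h'.2.2⟩⟩
  rcases hk.1.2 with e | ⟨u, hu, e⟩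
  · ext z
    simp only [Set.mem_image, mem_Cls]
    constructor
    · rintro ⟨w, hw, rfl⟩
      exact aux (u := t) hh ht h' (Or.inl e) w hw
    · intro hz
      refine ⟨z, hz, ?_⟩
      rcases (hh.symm.trans hz).2.1 with rfl | ⟨v, _, rfl⟩
      · exact e.symm
      · rw [mul_assoc, ← e]
  · ext z
    simp only [Set.mem_image, mem_Cls]
    constructor
    · rintro ⟨w, hw, rfl⟩
      exact aux hh ht h' (Or.inr ⟨hu, e⟩) w hw
    · intro hz
      refine ⟨z * u, aux (u := t) h' hu (e ▸ hh) (Or.inr ⟨ht, by rw [← e]⟩) z hz, ?_⟩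
      rcases (h'.symm.trans hz).2.1 with rfl | ⟨v, _, rfl⟩
      · rw [← e]
      · rw [mul_assoc v, ← e, mul_assoc]

variable (T)

def St (H : Set S) : Submonoid (WithOne S) := Submonoid.closure {u : WithOne S | u = 1 ∨
  ∃ t ∈ T, u = (t : WithOne S) ∧ (fun h => h * t) '' H = H}

variable {T}

theorem mem_St {H : Set S} {u : WithOne S} (hu : u ∈ St T H) :
    u = 1 ∨ ∃ t ∈ T, u = (t : WithOne S) ∧ (fun h => h * t) '' H = H := by
  induction hu using Submonoid.closure_induction with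
  | mem x hx => exact hx
  | one => exact Or.inl rfl
  | mul x y _ _ hx hy =>
    rcases hx with rfl | ⟨t, ht, rfl, e⟩
    · simpa using hy
    · rcases hy with rfl | ⟨u, hu, rfl, e'⟩
      · exact Or.inr ⟨t, ht, mul_one _, e⟩
      · refine Or.inr ⟨t * u, T.mul_mem ht hu, (WithOne.coe_mul _ _).symm, ?_⟩
        have : (fun h => h * (t * u)) = (fun h => h * u) ∘ (fun h => h * t) := by
          funext h; simp [mul_assoc]
        rw [this, Set.image_comp, e, e']

theorem St_act {H : Set S} {u : WithOne S} (hu : u ∈ St T H) {h : S} (hh : h ∈ H) :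
    ∃ z ∈ H, (h : WithOne S) * u = z := by
  rcases mem_St hu with rfl | ⟨t, _, rfl, e⟩
  · exact ⟨h, hh, mul_one _⟩
  · exact ⟨h * t, e ▸ ⟨h, hh, rfl⟩, (WithOne.coe_mul _ _).symm⟩

theorem St_trans {x h z : S} (hh : Hh T x h) (hz : Hh T x z) :
    ∃ u ∈ St T (Cls T x), (h : WithOne S) * u = z := by
  rcases (hh.symm.trans hz).1.1 with rfl | ⟨t, ht, rfl⟩
  · exact ⟨1, one_mem _, mul_one _⟩
  · exact ⟨t, Submonoid.subset_closure (Or.inr ⟨t, ht, rfl, green hh ht hz⟩),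
      (WithOne.coe_mul _ _).symm⟩

theorem St_free {x h : S} (hh : Hh T x h) {a b : WithOne S}
    (e : (h : WithOne S) * a = (h : WithOne S) * b) :
    ∀ z ∈ Cls T x, (z : WithOne S) * a = (z : WithOne S) * b := by
  intro z hz
  rcases (hh.symm.trans (mem_Cls.1 hz)).2.1 with rfl | ⟨t, _, rfl⟩
  · exact e
  · rw [WithOne.coe_mul, mul_assoc, mul_assoc, e]

variable (T)

def sg (H : Set S) : Con (St T H) where
  r a b := ∀ h ∈ H, (h : WithOne S) * (a : WithOne S) = (h : WithOne S) * (b : WithOne S)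
  iseqv := ⟨fun _ _ _ => rfl, fun h z hz => (h z hz).symm, fun h k z hz => (h z hz).trans (k z hz)⟩
  mul' := by
    intro a b c d h k z hz
    obtain ⟨w, hw, e⟩ := St_act a.2 hz
    have e' := (h z hz).symm.trans e
    simp only [Submonoid.coe_mul, ← mul_assoc, e, e']
    exact k w hw

variable {T}

theorem core (f : S →ₙ* S) (hs : Function.Surjective f) (hT : ∀ s, f s ∈ T ↔ s ∈ T)
    (hfix : ∀ s, s ∉ T → Hh T s (f s))
    (h1 : ∀ f : T →ₙ* T, Function.Surjective f → Function.Injective f)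
    (h2 : ∀ x, x ∉ T → ∀ f : (sg T (Cls T x)).Quotient →* (sg T (Cls T x)).Quotient,
      Function.Surjective f → Function.Injective f) : Function.Injective f := by
  intro x y hxy
  by_cases hx : x ∈ T
  · have hy : y ∈ T := (hT y).1 (hxy ▸ (hT x).2 hx)
    let g : T →ₙ* T := ⟨fun t => ⟨f t, (hT _).2 t.2⟩, fun a b => Subtype.ext (map_mul f _ _)⟩
    have hg : Function.Surjective g := by
      intro t
      obtain ⟨u, hu⟩ := hs t
      exact ⟨⟨u, (hT u).1 (hu ▸ t.2)⟩, Subtype.ext hu⟩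
    exact congrArg Subtype.val (h1 g hg (a₁ := ⟨x, hx⟩) (a₂ := ⟨y, hy⟩) (Subtype.ext hxy))
  · have hy : y ∉ T := fun hy => hx ((hT x).1 (hxy ▸ (hT y).2 hy))
    have hxy' : Hh T x y := (hfix x hx).trans (hxy ▸ (hfix y hy).symm)
    have hn : ∀ z, Hh T x z → z ∉ T := fun z hz h => hx (hz.1.2.mem h)
    have hin : ∀ z, Hh T x z → Hh T x (f z) := fun z hz => hz.trans (hfix z (hn z hz))
    have hon : ∀ z, Hh T x z → ∃ w, Hh T x w ∧ f w = z := by
      intro z hz
      obtain ⟨w, rfl⟩ := hs z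
      exact ⟨w, hz.trans (hfix w (fun h => hn _ hz ((hT w).2 h))).symm, rfl⟩
    let F : WithOne S →* WithOne S := WithOne.mapMulHom f
    have hF : ∀ s : S, F s = f s := fun s => rfl
    have hSt : ∀ u ∈ St T (Cls T x), F u ∈ St T (Cls T x) := by
      intro u hu
      rcases mem_St hu with rfl | ⟨t, ht, rfl, e⟩
      · rw [map_one]; exact one_mem _
      · refine Submonoid.subset_closure (Or.inr ⟨f t, (hT t).2 ht, rfl, ?_⟩)
        refine green (h := f x) (hin x (Hh.refl x)) ((hT t).2 ht) ?_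
        rw [← map_mul]
        exact hin _ (mem_Cls.1 (e ▸ ⟨x, mem_Cls.2 (Hh.refl x), rfl⟩))
    let g : St T (Cls T x) →* St T (Cls T x) := (F.comp (St T (Cls T x)).subtype).codRestrict _ (fun u => hSt u u.2)
    have hg : ∀ u, (g u : WithOne S) = F u := fun u => rfl
    let K := sg T (Cls T x)
    have hK : K ≤ Con.ker (K.mk'.comp g) := by
      intro a b hab
      rw [Con.ker_rel]
      refine (Con.eq K).2 ?_
      refine St_free (hin x (Hh.refl x)) ?_
      rw [hg, hg, ← hF, ← map_mul, ← map_mul, hab x (mem_Cls.2 (Hh.refl x))]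
    let φ : K.Quotient →* K.Quotient := K.lift _ hK
    have hφ : ∀ a, φ (K.mk' a) = K.mk' (g a) := fun a => rfl
    have hφs : Function.Surjective φ := by
      intro q
      obtain ⟨a, rfl⟩ := K.mk'_surjective q
      obtain ⟨z, hz, e⟩ := St_act a.2 (mem_Cls.2 (hin x (Hh.refl x)))
      obtain ⟨w, hw, rfl⟩ := hon z (mem_Cls.1 hz)
      obtain ⟨b, hb, e'⟩ := St_trans (Hh.refl x) hw
      refine ⟨K.mk' ⟨b, hb⟩, ?_⟩
      rw [hφ]
      refine (Con.eq K).2 (St_free (hin x (Hh.refl x)) ?_)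
      rw [hg, e, ← hF, ← hF, ← map_mul, e']
    have hφi := h2 x hx φ hφs
    obtain ⟨b, hb, e⟩ := St_trans (Hh.refl x) hxy'
    have : K.mk' ⟨b, hb⟩ = K.mk' 1 := by
      apply hφi
      rw [hφ, hφ]
      refine (Con.eq K).2 (St_free (hin x (Hh.refl x)) ?_)
      rw [hg, hg, ← hF, ← map_mul, ← map_mul, e]
      simp [hF, hxy]
    have := (Con.eq K).1 this x (mem_Cls.2 (Hh.refl x))
    rw [e] at this
    simpa using this.symm

def pw (f : S →ₙ* S) (r : ℕ) : S →ₙ* S := ⟨f^[r], iter_mul f (map_mul f) r⟩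

theorem main (hfg : ∃ F : Finset S, Subsemigroup.closure (↑F : Set S) = T)
    (hfin : Set.Finite {C : Set S | ∃ x : S, x ∉ T ∧ C = Cls T x})
    (h1 : ∀ f : T →ₙ* T, Function.Surjective f → Function.Injective f)
    (h2 : ∀ x, x ∉ T → ∀ f : (sg T (Cls T x)).Quotient →* (sg T (Cls T x)).Quotient,
      Function.Surjective f → Function.Injective f)
    (f : S →ₙ* S) (hs : Function.Surjective f) : Function.Injective f := by
  obtain ⟨F, hF⟩ := hfg
  obtain ⟨B, hB, hBT, hr⟩ := exists_reps hfin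
  have hgen : ∀ s, s ∈ Subsemigroup.closure ((F : Set S) ∪ B) := by
    have hT : ∀ t ∈ T, t ∈ Subsemigroup.closure ((F : Set S) ∪ B) := by
      intro t ht
      rw [← hF] at ht
      exact Subsemigroup.closure_mono Set.subset_union_left ht
    intro s
    by_cases h : s ∈ T
    · exact hT s h
    · obtain ⟨b, hb, k⟩ := hr s h
      have hb' : b ∈ Subsemigroup.closure ((F : Set S) ∪ B) :=
        Subsemigroup.subset_closure (Or.inr hb)
      rcases k.1.1 with rfl | ⟨t, ht, rfl⟩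
      · exact hb'
      · exact mul_mem hb' (hT t ht)
  obtain ⟨r, hr0, hT⟩ := power_pres (F.finite_toSet.union hB) hgen (finite_N hB hr) f
    (map_mul f) hs
  obtain ⟨q, hq0, hq⟩ := power_fix hB hBT hr (pw f r) (map_mul _) (hs.iterate r) hT
  have hTk : ∀ k s, (pw f r)^[k] s ∈ T ↔ s ∈ T := by
    intro k
    induction k with
    | zero => intro s; rfl
    | succ k ih => intro s; rw [Function.iterate_succ_apply, ih]; exact hT s
  have := core (pw (pw f r) q) ((hs.iterate r).iterate q) (hTk q) hq h1 h2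
  obtain ⟨q, rfl⟩ := Nat.exists_eq_succ_of_ne_zero hq0.ne'
  obtain ⟨r, rfl⟩ := Nat.exists_eq_succ_of_ne_zero hr0.ne'
  intro a b hab
  apply this
  change (f^[r + 1])^[q + 1] a = (f^[r + 1])^[q + 1] b
  simp only [Function.iterate_succ_apply, hab]

end H72.GreenHop
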