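import Mathlib

namespace Pool.Agent.H72.GrigDefs

/-- The four generators of the first Grigorchuk group. -/
inductive Gen | a | b | c | d

/-- The action of the generators on the vertices of the binary tree (words over `Bool`,
`false = 0`, `true = 1`). -/
def act : Gen → List Bool → List Bool
  | _, [] => []
  | Gen.a, x :: w => (!x) :: w
  | Gen.b, false :: w => false :: act Gen.a w
  | Gen.b, true :: w => true :: act Gen.c w
  | Gen.c, false :: w => false :: act Gen.a w
  | Gen.c, true :: w => true :: act Gen.d w
  | Gen.d, false :: w => false :: w
  | Gen.d, true :: w => true :: act Gen.b w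

theorem act_act (w : List Bool) : ∀ s, act s (act s w) = w := by
  induction w with
  | nil => intro s; cases s <;> rfl
  | cons x w ih => intro s; cases s <;> cases x <;> simp [act, ih]

/-- The generators as permutations of the vertex set. -/
def gen (s : Gen) : Equiv.Perm (List Bool) :=
  Function.Involutive.toPerm (act s) fun w => act_act w s

/-- The first Grigorchuk group. -/
def G : Subgroup (Equiv.Perm (List Bool)) := Subgroup.closure (Set.range gen)

/-- Word length with respect to `a, b, c, d`. -/
noncomputable def len (g : Equiv.Perm (List Bool)) : ℕ :=
  sInf {n | ∃ w : List Gen, w.length = n ∧ (w.map gen).prod = g}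

/-- The growth function. -/
noncomputable def growth (n : ℕ) : ℕ := {g | g ∈ G ∧ len g ≤ n}.ncard

/-- The spherical growth function. -/
noncomputable def sph (n : ℕ) : ℕ := {g | g ∈ G ∧ len g = n}.ncard

end Pool.Agent.H72.GrigDefs
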