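import Mathlib
import Pool.Agent.H72.GrigDefs

namespace Pool.Agent.H72.Grig

open Pool.Agent.H72.GrigDefs

abbrev P := Equiv.Perm (List Bool)

def ev (w : List Gen) : P := (w.map gen).prod

@[simp] theorem ev_nil : ev [] = 1 := rfl
@[simp] theorem ev_cons (s : Gen) (w : List Gen) : ev (s :: w) = gen s * ev w := by simp [ev]
@[simp] theorem ev_append (v w : List Gen) : ev (v ++ w) = ev v * ev w := by simp [ev]

theorem gen_sq (s : Gen) : gen s * gen s = 1 := by
  ext1 w; exact act_act w s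

theorem gen_sq' (s : Gen) (x : P) : gen s * (gen s * x) = x := by
  rw [← mul_assoc, gen_sq, one_mul]

theorem ev_rev (w : List Gen) : ev w.reverse = (ev w)⁻¹ := by
  induction w with
  | nil => simp
  | cons s w ih =>
    rw [List.reverse_cons, ev_append, ih, ev_cons, ev_cons, ev_nil, mul_one, mul_inv_rev,
      inv_eq_of_mul_eq_one_left (gen_sq s)]

theorem ev_mem (w : List Gen) : ev w ∈ G := by
  induction w with
  | nil => exact G.one_mem
  | cons s w ih => rw [ev_cons]; exact G.mul_mem (Subgroup.subset_closure ⟨s, rfl⟩) ih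

theorem exists_word {g : P} (hg : g ∈ G) : ∃ w, ev w = g := by
  induction hg using Subgroup.closure_induction with
  | mem g h => obtain ⟨s, rfl⟩ := h; exact ⟨[s], by simp⟩
  | one => exact ⟨[], rfl⟩
  | mul g h _ _ hg hh => obtain ⟨v, rfl⟩ := hg; obtain ⟨w, rfl⟩ := hh; exact ⟨v ++ w, by simp⟩
  | inv g _ hg => obtain ⟨v, rfl⟩ := hg; exact ⟨v.reverse, ev_rev v⟩

theorem len_le (w : List Gen) : len (ev w) ≤ w.length := Nat.sInf_le ⟨w, rfl, rfl⟩

theorem exists_geo {g : P} (hg : g ∈ G) : ∃ w, w.length = len g ∧ ev w = g := by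
  obtain ⟨w, hw⟩ := exists_word hg
  exact Nat.sInf_mem (s := {n | ∃ w : List Gen, w.length = n ∧ (w.map gen).prod = g})
    ⟨w.length, w, rfl, hw⟩

theorem len_mul {g h : P} (hg : g ∈ G) (hh : h ∈ G) : len (g * h) ≤ len g + len h := by
  obtain ⟨v, hv, rfl⟩ := exists_geo hg
  obtain ⟨w, hw, rfl⟩ := exists_geo hh
  rw [← ev_append, ← hv, ← hw, ← List.length_append]; exact len_le _

theorem len_inv {g : P} (hg : g ∈ G) : len g⁻¹ ≤ len g := by
  obtain ⟨v, hv, rfl⟩ := exists_geo hg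
  rw [← ev_rev, ← hv, ← List.length_reverse]; exact len_le _

def ball (n : ℕ) : Set P := {g | g ∈ G ∧ len g ≤ n}
def sphere (n : ℕ) : Set P := {g | g ∈ G ∧ len g = n}

instance : Finite Gen := by
  refine Finite.of_surjective (![Gen.a, Gen.b, Gen.c, Gen.d] : Fin 4 → Gen) ?_
  intro s; cases s
  exacts [⟨0, rfl⟩, ⟨1, rfl⟩, ⟨2, rfl⟩, ⟨3, rfl⟩]

theorem ball_fin (n : ℕ) : (ball n).Finite := by
  refine ((List.finite_length_le Gen n).image ev).subset ?_
  rintro g ⟨hg, hl⟩
  obtain ⟨w, hw, rfl⟩ := exists_geo hg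
  exact ⟨w, by simpa [hw] using hl, rfl⟩

theorem sphere_fin (n : ℕ) : (sphere n).Finite :=
  (ball_fin n).subset fun _ h => ⟨h.1, h.2.le⟩

theorem growth_mono {m n : ℕ} (h : m ≤ n) : growth m ≤ growth n :=
  Set.ncard_le_ncard (fun _ hg => ⟨hg.1, hg.2.trans h⟩) (ball_fin n)

theorem sph_le (n : ℕ) : sph n ≤ growth n :=
  Set.ncard_le_ncard (fun _ hg => ⟨hg.1, hg.2.le⟩) (ball_fin n)

/-! ### sections -/

def secFun (x y : P) : List Bool → List Bool
  | [] => []
  | false :: w => false :: x w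
  | true :: w => true :: y w

def sec (x y : P) : P where
  toFun := secFun x y
  invFun := secFun x⁻¹ y⁻¹
  left_inv w := by rcases w with _ | ⟨_ | _, w⟩ <;> simp [secFun]
  right_inv w := by rcases w with _ | ⟨_ | _, w⟩ <;> simp [secFun]

@[simp] theorem sec_nil (x y : P) : sec x y [] = [] := rfl
@[simp] theorem sec_f (x y : P) (w) : sec x y (false :: w) = false :: x w := rfl
@[simp] theorem sec_t (x y : P) (w) : sec x y (true :: w) = true :: y w := rfl
theorem gen_apply (s : Gen) (w) : gen s w = act s w := rfl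

theorem sec_mul (x y x' y' : P) : sec x y * sec x' y' = sec (x * x') (y * y') := by
  ext1 w; rcases w with _ | ⟨_ | _, w⟩ <;> simp
theorem sec_one : sec 1 1 = 1 := by
  ext1 w; rcases w with _ | ⟨_ | _, w⟩ <;> simp
theorem sec_inj {x y x' y' : P} (h : sec x y = sec x' y') : x = x' ∧ y = y' := by
  constructor
  · ext1 w; simpa using congrArg (fun f : P => f (false :: w)) h
  · ext1 w; simpa using congrArg (fun f : P => f (true :: w)) h
theorem a_sec (x y : P) : gen Gen.a * sec x y * gen Gen.a = sec y x := by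
  ext1 w; rcases w with _ | ⟨_ | _, w⟩ <;> simp [gen_apply, act]
theorem b_eq : gen Gen.b = sec (gen Gen.a) (gen Gen.c) := by
  ext1 w; rcases w with _ | ⟨_ | _, w⟩ <;> simp [gen_apply, act]
theorem c_eq : gen Gen.c = sec (gen Gen.a) (gen Gen.d) := by
  ext1 w; rcases w with _ | ⟨_ | _, w⟩ <;> simp [gen_apply, act]
theorem d_eq : gen Gen.d = sec 1 (gen Gen.b) := by
  ext1 w; rcases w with _ | ⟨_ | _, w⟩ <;> simp [gen_apply, act]

def A : P := gen Gen.a
def D : P := gen Gen.d
theorem AA (x : P) : A * (A * x) = x := gen_sq' _ x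
theorem DD (x : P) : D * (D * x) = x := gen_sq' _ x
theorem AA' : A * A = 1 := gen_sq _
theorem DD' : D * D = 1 := gen_sq _

theorem adad : D * (A * (D * A)) = A * (D * (A * D)) := by
  have h1 : A * D * A = sec (gen Gen.b) 1 := by rw [A, D, d_eq, a_sec]
  have h2 : D = sec 1 (gen Gen.b) := d_eq
  calc D * (A * (D * A)) = D * (A * D * A) := by simp [mul_assoc]
    _ = A * D * A * D := by rw [h1, h2, sec_mul, sec_mul]; simp
    _ = _ := by simp [mul_assoc]

def D8 : List P := [1, A, D, A * D, D * A, A * (D * A), D * (A * D), A * (D * (A * D))]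

theorem A_D8 {x : P} (h : x ∈ D8) : A * x ∈ D8 := by
  simp only [D8, List.mem_cons, List.not_mem_nil, or_false] at h ⊢
  rcases h with rfl | rfl | rfl | rfl | rfl | rfl | rfl | rfl <;> simp [AA, AA']

theorem D_D8 {x : P} (h : x ∈ D8) : D * x ∈ D8 := by
  simp only [D8, List.mem_cons, List.not_mem_nil, or_false] at h ⊢
  rcases h with rfl | rfl | rfl | rfl | rfl | rfl | rfl | rfl
  · simp
  · simp
  · simp [DD']
  · simp
  · simp [DD]
  · simp [adad]
  · simp [DD]
  · rw [← adad, DD]; simp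

def sig : List Gen → List Gen
  | [] => []
  | Gen.a :: w => Gen.a :: Gen.c :: Gen.a :: sig w
  | Gen.b :: w => Gen.d :: sig w
  | Gen.c :: w => Gen.b :: sig w
  | Gen.d :: w => Gen.c :: sig w

theorem sig_len (w : List Gen) : (sig w).length ≤ 3 * w.length := by
  induction w with
  | nil => simp [sig]
  | cons s w ih => cases s <;> simp [sig] <;> omega

theorem ev_sig (w : List Gen) : ∃ x ∈ D8, ev (sig w) = sec x (ev w) := by
  induction w with
  | nil => exact ⟨1, by simp [D8], sec_one.symm⟩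
  | cons s w ih =>
    obtain ⟨x, hx, h⟩ := ih
    cases s
    · refine ⟨D * x, D_D8 hx, ?_⟩
      simp only [sig, ev_cons, h]
      rw [← mul_assoc, ← mul_assoc, c_eq, a_sec, sec_mul]; rfl
    · refine ⟨x, hx, ?_⟩
      simp only [sig, ev_cons, h]
      rw [d_eq, sec_mul, one_mul]
    · refine ⟨A * x, A_D8 hx, ?_⟩
      simp only [sig, ev_cons, h]
      rw [b_eq, sec_mul]; rfl
    · refine ⟨A * x, A_D8 hx, ?_⟩
      simp only [sig, ev_cons, h]
      conv_lhs => rw [c_eq]
      rw [sec_mul]; rfl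

theorem exists_lift (g : P) (hg : g ∈ G) :
    ∃ x ∈ D8, sec x g ∈ G ∧ len (sec x g) ≤ 3 * len g := by
  obtain ⟨w, hw, rfl⟩ := exists_geo hg
  obtain ⟨x, hx, h⟩ := ev_sig w
  exact ⟨x, hx, h ▸ ev_mem _, h ▸ (len_le _).trans (hw ▸ sig_len w)⟩

theorem G_infinite : (G : Set P).Infinite := by
  intro hf
  choose! x hx hG hl using exists_lift
  have hinj : Set.InjOn (fun g => sec (x g) g) (G : Set P) := fun g _ h _ e => (sec_inj e).2
  have hmaps : Set.MapsTo (fun g => sec (x g) g) (G : Set P) (G : Set P) := fun g hg => hG g hg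
  have hsurj := ((hf.injOn_iff_bijOn_of_mapsTo hmaps).1 hinj).surjOn
  obtain ⟨g, _, hg⟩ := hsurj (show gen Gen.a ∈ (G : Set P) from Subgroup.subset_closure ⟨_, rfl⟩)
  have := congrArg (fun f : P => f [false]) hg
  simp [gen_apply, act] at this

theorem len_gen (s : Gen) : len (gen s) ≤ 1 := by simpa using len_le [s]
theorem gen_mem (s : Gen) : gen s ∈ G := Subgroup.subset_closure ⟨s, rfl⟩

theorem square (m : ℕ) : growth m * growth m ≤ 64 * growth (6 * m + 2) := by
  classical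
  choose! x hx hG hl using exists_lift
  let F : P × P → P × P × P := fun p =>
    (sec (x p.1) p.1 * sec p.2 (x p.2), x p.1, x p.2)
  have h8 : (D8.toFinset : Set P).ncard ≤ 8 := by
    rw [Set.ncard_coe_finset]; exact List.toFinset_card_le D8
  have hinj : Set.InjOn F (ball m ×ˢ ball m) := by
    rintro ⟨g, h⟩ _ ⟨g', h'⟩ _ e
    simp only [F, Prod.mk.injEq, sec_mul] at e
    obtain ⟨e1, e2, e3⟩ := e
    obtain ⟨e4, e5⟩ := sec_inj e1
    rw [e2] at e4; rw [e3] at e5
    exact Prod.ext (mul_right_cancel e5) (mul_left_cancel e4)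
  have hmaps : ∀ p ∈ ball m ×ˢ ball m,
      F p ∈ ball (6 * m + 2) ×ˢ ((D8.toFinset : Set P) ×ˢ (D8.toFinset : Set P)) := by
    rintro ⟨g, h⟩ ⟨⟨hg, hgl⟩, hh, hhl⟩
    simp only at hg hh hgl hhl
    have e : sec h (x h) = gen Gen.a * sec (x h) h * gen Gen.a := (a_sec _ _).symm
    have m1 := G.mul_mem (gen_mem Gen.a) (hG _ hh)
    have m2 := G.mul_mem m1 (gen_mem Gen.a)
    refine ⟨⟨?_, ?_⟩, by simpa using hx _ hg, by simpa using hx _ hh⟩
    · simp only [F, e]; exact G.mul_mem (hG _ hg) m2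
    · simp only [F, e]
      have := len_mul (hG _ hg) m2
      have := len_mul m1 (gen_mem Gen.a)
      have := len_mul (gen_mem Gen.a) (hG _ hh)
      have := len_gen Gen.a
      have := hl _ hg
      have := hl _ hh
      omega
  have := Set.ncard_le_ncard_of_injOn F hmaps hinj
    ((ball_fin _).prod ((Finset.finite_toSet _).prod (Finset.finite_toSet _)))
  rw [Set.ncard_prod, Set.ncard_prod, Set.ncard_prod] at this
  calc growth m * growth m ≤ growth (6 * m + 2) * (_ * _) := this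
    _ ≤ growth (6 * m + 2) * (8 * 8) := Nat.mul_le_mul_left _ (Nat.mul_le_mul h8 h8)
    _ = _ := by ring

theorem cross {g : P} (hg : g ∈ G) (n : ℕ) (hn : len g ≤ n) (w : List Gen)
    (hw : n < len (g * ev w)) : ∃ i < w.length, len (g * ev (w.take (i + 1))) = n + 1 := by
  induction w using List.reverseRecOn with
  | nil => simp at hw; omega
  | append_singleton w s ih =>
    by_cases h : n < len (g * ev w)
    · obtain ⟨i, hi, h'⟩ := ih h
      refine ⟨i, by simp; omega, ?_⟩
      rwa [List.take_append_of_le_length (by omega)]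
    · refine ⟨w.length, by simp, ?_⟩
      rw [List.take_of_length_le (by simp)]
      have := len_mul (G.mul_mem hg (ev_mem w)) (gen_mem s)
      have := len_gen s
      have e : g * ev (w ++ [s]) = g * ev w * gen s := by simp [mul_assoc]
      rw [e] at hw ⊢
      omega

theorem len_one : len 1 = 0 := Nat.le_zero.1 (len_le [])

theorem exists_long (n : ℕ) : ∃ g ∈ G, len g = n := by
  have : ∃ g ∈ G, n < len g := by
    by_contra h
    push Not at h
    exact G_infinite ((ball_fin n).subset fun g hg => ⟨hg, h g hg⟩)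
  obtain ⟨g, hg, hl⟩ := this
  rcases n with _ | n
  · exact ⟨1, G.one_mem, len_one⟩
  · obtain ⟨w, hw, rfl⟩ := exists_geo hg
    obtain ⟨i, _, h⟩ := cross G.one_mem n (by rw [len_one]; omega) w (by rw [one_mul]; omega)
    exact ⟨_, G.mul_mem G.one_mem (ev_mem _), h⟩

theorem growth_ge (n : ℕ) : n + 1 ≤ growth n := by
  choose f hf hl using exists_long
  have := Set.ncard_le_ncard_of_injOn f (s := (Finset.range (n + 1) : Set ℕ)) (t := ball n)
    (fun i hi => ⟨hf i, by rw [hl]; simpa [Nat.lt_succ_iff] using hi⟩)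
    (fun i _ j _ e => by rw [← hl i, ← hl j, e]) (ball_fin n)
  rw [Set.ncard_coe_finset, Finset.card_range] at this
  exact this

theorem iso (n : ℕ) : growth n ≤ (2 * n + 1) * sph (n + 1) := by
  obtain ⟨x, hx, hl⟩ := exists_long (2 * n + 1)
  obtain ⟨w, hw, rfl⟩ := exists_geo hx
  have : ∀ g ∈ ball n, ∃ i < 2 * n + 1, len (g * ev (w.take (i + 1))) = n + 1 := by
    rintro g ⟨hg, hgl⟩
    rw [← hl, ← hw]
    refine cross hg n hgl w ?_
    have := len_mul (G.inv_mem hg) (G.mul_mem hg hx)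
    have := len_inv hg
    rw [inv_mul_cancel_left] at *
    omega
  choose! i hi hi' using this
  have := Set.ncard_le_ncard_of_injOn (fun g => (i g, g * ev (w.take (i g + 1)))) (s := ball n)
    (t := (Finset.range (2 * n + 1) : Set ℕ) ×ˢ sphere (n + 1))
    (fun g hg => ⟨by simpa using hi g hg, G.mul_mem hg.1 (ev_mem _), hi' g hg⟩)
    (fun g _ h _ e => by
      simp only [Prod.mk.injEq] at e
      obtain ⟨e1, e2⟩ := e
      rw [e1] at e2
      exact mul_right_cancel e2) ((Finset.finite_toSet _).prod (sphere_fin _))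
  rw [Set.ncard_prod, Set.ncard_coe_finset, Finset.card_range] at this
  exact this

theorem square' (m : ℕ) (hm : 1 ≤ m) : growth m * growth m ≤ 64 * growth (8 * m) :=
  (square m).trans (Nat.mul_le_mul_left _ (growth_mono (by omega)))

theorem growth_le_sph : ∃ C, 1 ≤ C ∧ ∀ n, 1 ≤ n → growth n ≤ sph (C * n) := by
  obtain ⟨k, hk⟩ : ∃ k : ℕ, k = 532480 := ⟨_, rfl⟩
  refine ⟨64 * k + 1, by omega, fun n hn => ?_⟩
  have hkn : 1 ≤ k * n := Nat.mul_pos (by omega) hn
  have h1 := square' (k * n) hkn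
  have h2 := square' (8 * (k * n)) (by omega)
  have h3 := growth_ge (k * n)
  have h4 : growth n ≤ growth (8 * (k * n)) := growth_mono (by nlinarith)
  obtain ⟨N, hN⟩ : ∃ N, (64 * k + 1) * n = N + 1 := ⟨(64 * k + 1) * n - 1, by
    have : 1 ≤ (64 * k + 1) * n := Nat.mul_pos (by omega) hn
    omega⟩
  have h5 : growth (8 * (8 * (k * n))) ≤ growth N := growth_mono (by nlinarith)
  have h6 := iso N
  rw [hN]
  set u := growth (k * n)
  set v := growth (8 * (k * n))
  set z := growth (8 * (8 * (k * n)))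
  have h7 : (k * n) * (k * n) ≤ 64 * v := le_trans (Nat.mul_le_mul (by omega) (by omega)) h1
  have h8 : growth n * ((k * n) * (k * n)) ≤ 4096 * ((2 * N + 1) * sph (N + 1)) := by
    calc growth n * ((k * n) * (k * n)) ≤ v * (64 * v) := Nat.mul_le_mul h4 h7
      _ = 64 * (v * v) := by ring
      _ ≤ 64 * (64 * z) := Nat.mul_le_mul_left _ h2
      _ = 4096 * z := by ring
      _ ≤ _ := Nat.mul_le_mul_left _ (h5.trans h6)
  have h9 : 4096 * (2 * N + 1) ≤ (k * n) * (k * n) := by
    have : 2 * N + 1 ≤ 130 * (k * n) := by nlinarith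
    calc 4096 * (2 * N + 1) ≤ 4096 * (130 * (k * n)) := Nat.mul_le_mul_left _ this
      _ = k * (k * n) := by rw [hk]; ring
      _ ≤ (k * n) * (k * n) := Nat.mul_le_mul_right _ (by nlinarith)
  have h10 : growth n * (4096 * (2 * N + 1)) ≤ sph (N + 1) * (4096 * (2 * N + 1)) := by
    calc growth n * (4096 * (2 * N + 1)) ≤ growth n * ((k * n) * (k * n)) :=
          Nat.mul_le_mul_left _ h9
      _ ≤ _ := h8
      _ = _ := by ring
  exact Nat.le_of_mul_le_mul_right h10 (by omega)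

theorem growth_pow (j : ℕ) : 64 * 3 ^ (2 ^ j) ≤ growth (192 * 8 ^ j) := by
  induction j with
  | zero => have := growth_ge 192; norm_num; omega
  | succ j ih =>
    have h := square' (192 * 8 ^ j) (Nat.mul_pos (by norm_num) (by positivity))
    have e : 192 * 8 ^ (j + 1) = 8 * (192 * 8 ^ j) := by ring
    rw [e]
    have h2 : 64 * (64 * 3 ^ 2 ^ (j + 1)) ≤ 64 * growth (8 * (192 * 8 ^ j)) := by
      calc 64 * (64 * 3 ^ 2 ^ (j + 1)) = (64 * 3 ^ 2 ^ j) * (64 * 3 ^ 2 ^ j) := by
            rw [pow_succ 2 j, pow_mul]; ring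
        _ ≤ _ := Nat.mul_le_mul ih ih
        _ ≤ _ := h
    omega

theorem exp_le_sph : ∃ C : ℕ, 0 < C ∧ ∀ n : ℕ,
    Real.exp ((n : ℝ) ^ (1 / 3 : ℝ)) ≤ sph (C * n) := by
  obtain ⟨C, hC, h⟩ := growth_le_sph
  refine ⟨C * (192 * 8), by positivity, fun n => ?_⟩
  rcases Nat.eq_zero_or_pos n with rfl | hn
  · have : 0 < sph 0 := (Set.ncard_pos (sphere_fin 0)).2 ⟨1, G.one_mem, len_one⟩
    simp only [Nat.cast_zero, mul_zero]
    rw [Real.zero_rpow (by norm_num), Real.exp_zero]
    exact_mod_cast this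
  · obtain ⟨j, hj1, hj2⟩ : ∃ j, n ≤ 8 ^ j ∧ 8 ^ j ≤ 8 * n := by
      refine ⟨Nat.log 8 n + 1, (Nat.lt_pow_succ_log_self (by norm_num) n).le, ?_⟩
      rw [pow_succ, mul_comm]
      exact Nat.mul_le_mul_left _ (Nat.pow_log_le_self 8 hn.ne')
    have h1 := h (192 * 8 * n) (by omega)
    have h2 : growth (192 * 8 ^ j) ≤ growth (192 * 8 * n) := growth_mono (by omega)
    have h3 := growth_pow j
    have h4 : 3 ^ 2 ^ j ≤ sph (C * (192 * 8) * n) := by
      rw [mul_assoc]; omega
    have h5 : (n : ℝ) ^ (1 / 3 : ℝ) ≤ (2 ^ j : ℕ) := by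
      have : (n : ℝ) ≤ ((2 ^ j : ℕ) : ℝ) ^ (3 : ℕ) := by
        have : n ≤ (2 ^ j) ^ 3 := by rw [← pow_mul, mul_comm, pow_mul]; exact hj1
        exact_mod_cast this
      calc (n : ℝ) ^ (1 / 3 : ℝ) ≤ (((2 ^ j : ℕ) : ℝ) ^ (3 : ℕ)) ^ (1 / 3 : ℝ) :=
            Real.rpow_le_rpow (by positivity) this (by norm_num)
        _ = _ := by
            rw [← Real.rpow_natCast, ← Real.rpow_mul (by positivity)]; norm_num
    calc Real.exp ((n : ℝ) ^ (1 / 3 : ℝ)) ≤ Real.exp ((2 ^ j : ℕ) : ℝ) := Real.exp_le_exp.2 h5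
      _ = Real.exp 1 ^ (2 ^ j : ℕ) := by rw [← Real.exp_nat_mul, mul_one]
      _ ≤ (3 : ℝ) ^ (2 ^ j : ℕ) :=
          pow_le_pow_left₀ (Real.exp_pos 1).le (by have := Real.exp_one_lt_d9; linarith) _
      _ ≤ _ := by exact_mod_cast h4

end Pool.Agent.H72.Grig
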