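import Mathlib

/-! Ping-pong with nested half-spaces: extremely proximal, topologically free actions on
tree-like spaces give highly transitive actions. -/

namespace Pool.Agent.H72.HTrA

open Set

variable {G X : Type*} [Group G] [MulAction G X]

/-- preimage of a set under a group element -/
def pre (g : G) (B : Set X) : Set X := {x | g • x ∈ B}

@[simp] lemma mem_pre {g : G} {B : Set X} {x : X} : x ∈ pre g B ↔ g • x ∈ B := Iff.rfl

lemma pre_pre (g h : G) (B : Set X) : pre g (pre h B) = pre (h * g) B := by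
  ext x; simp [mul_smul]

/-- a system of nested half-spaces -/
structure Sys (G X : Type*) [Group G] [MulAction G X] where
  hs : Set (Set X)
  gap : Set X → Set X → Prop
  pre_mem : ∀ (g : G) (B : Set X), B ∈ hs → pre g B ∈ hs
  compl_mem : ∀ B ∈ hs, Bᶜ ∈ hs
  nested : ∀ B ∈ hs, ∀ C ∈ hs, B ⊆ C ∨ C ⊆ B ∨ Disjoint B C ∨ B ∪ C = univ
  gap_pre : ∀ (g : G) (A W : Set X), gap A W → gap (pre g A) (pre g W)
  gap_mono : ∀ A A' W W' : Set X, gap A W → A' ⊆ A → W ⊆ W' → gap A' W'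
  gap_sub : ∀ A W : Set X, gap A W → A ⊆ W
  chain : ∀ C : ℕ → Set X, (∀ n, gap (C (n + 1)) (C n)) → C 0 ≠ univ →
    ∀ B ∈ hs, ¬ ∀ n, B ⊆ C n
  basis : ∀ B ∈ hs, ∀ C ∈ hs, ∀ x ∈ B, x ∈ C → ∃ A ∈ hs, x ∈ A ∧ gap A (B ∩ C)
  sep : ∀ x y : X, x ≠ y → ∃ B ∈ hs, x ∈ B ∧ y ∉ B
  inf : ∀ B ∈ hs, B.Infinite
  fix : ∀ g : G, g ≠ 1 → {x : X | g • x = x}.Finite
  prox : ∀ B ∈ hs, ∀ C ∈ hs, ∃ g : G, ∀ x, x ∉ B → g • x ∈ C
  ne : hs.Nonempty

namespace Sys

variable (S : Sys G X)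

/-- open sets -/
def Op (D : Set X) : Prop := ∀ x ∈ D, ∃ B ∈ S.hs, x ∈ B ∧ B ⊆ D

variable {S}

lemma op_hs {B : Set X} (h : B ∈ S.hs) : S.Op B := fun _ hx => ⟨B, h, hx, Subset.rfl⟩

lemma op_univ : S.Op univ := by
  intro x _
  obtain ⟨B, hB⟩ := S.ne
  by_cases hx : x ∈ B
  · exact ⟨B, hB, hx, subset_univ _⟩
  · exact ⟨Bᶜ, S.compl_mem B hB, hx, subset_univ _⟩

lemma Op.inter {D E : Set X} (hD : S.Op D) (hE : S.Op E) : S.Op (D ∩ E) := by
  intro x hx
  obtain ⟨B, hB, hxB, hBD⟩ := hD x hx.1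
  obtain ⟨C, hC, hxC, hCE⟩ := hE x hx.2
  obtain ⟨A, hA, hxA, hg⟩ := S.basis B hB C hC x hxB hxC
  exact ⟨A, hA, hxA, (S.gap_sub _ _ hg).trans (inter_subset_inter hBD hCE)⟩

lemma Op.gap {D : Set X} (hD : S.Op D) {x : X} (hx : x ∈ D) :
    ∃ A ∈ S.hs, x ∈ A ∧ S.gap A D := by
  obtain ⟨B, hB, hxB, hBD⟩ := hD x hx
  obtain ⟨A, hA, hxA, hg⟩ := S.basis B hB B hB x hxB hxB
  exact ⟨A, hA, hxA, S.gap_mono _ _ _ _ hg Subset.rfl (inter_subset_left.trans hBD)⟩

lemma Op.pre {D : Set X} (hD : S.Op D) (g : G) : S.Op (pre g D) := by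
  intro x hx
  obtain ⟨B, hB, hxB, hBD⟩ := hD _ hx
  exact ⟨_, S.pre_mem g B hB, hxB, fun y hy => hBD hy⟩

lemma op_iInter {ι : Type*} [Finite ι] {D : ι → Set X} (h : ∀ i, S.Op (D i)) :
    S.Op (⋂ i, D i) := by
  classical
  have := Fintype.ofFinite ι
  have key : ∀ s : Finset ι, S.Op (⋂ i ∈ s, D i) := by
    intro s
    induction s using Finset.induction_on with
    | empty => simpa using op_univ
    | insert a s _ ih => rw [Finset.set_biInter_insert]; exact (h a).inter ih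
  simpa using key Finset.univ

lemma op_compl_fin {T : Set X} (hT : T.Finite) : S.Op Tᶜ := by
  have : Finite T := hT
  have e : Tᶜ = ⋂ y : T, {(y : X)}ᶜ := by
    ext x; simp only [mem_compl_iff, mem_iInter, mem_singleton_iff, Subtype.forall]
    exact ⟨fun h a ha e => h (e ▸ ha), fun h hx => h x hx rfl⟩
  rw [e]
  refine op_iInter fun y x hx => ?_
  obtain ⟨B, hB, hxB, hy⟩ := S.sep x y hx
  exact ⟨B, hB, hxB, fun z hz e => hy (e ▸ hz)⟩

/-- `D` is an open wandering domain for `H` whose saturation is dense -/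
structure Good (S : Sys G X) (H : Subgroup G) (D : Set X) : Prop where
  op : S.Op D
  wan : ∀ h ∈ H, ∀ x ∈ D, h • x ∈ D → h = 1
  den : ∀ B ∈ S.hs, ∃ x ∈ B, ∃ h ∈ H, h • x ∈ D

end Sys

/-- reduced words -/
inductive Red (H : Subgroup G) (γ : Bool → G) : G → Option Bool → Prop
  | one : Red H γ 1 none
  | step (u : G) (t : Option Bool) (h : G) (s : Bool) : Red H γ u t → h ∈ H →
      (h = 1 → t ≠ some (!s)) → Red H γ (γ s * h * u) (some s)

lemma Red.inv {H : Subgroup G} {γ : Bool → G} {u : G} {s : Bool} (h : Red H γ u (some s)) :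
    ∃ u' t h, Red H γ u' t ∧ h ∈ H ∧ u = γ s * h * u' := by
  generalize e : some s = t at h
  cases h with
  | one => cases e
  | step u' t' h s' h1 h2 _ => cases e; exact ⟨u', t', h, h1, h2, rfl⟩

lemma normal_form {H : Subgroup G} {γ : Bool → G} (hγ : ∀ s, γ (!s) = (γ s)⁻¹) {w : G}
    (hw : w ∈ Subgroup.closure ((H : Set G) ∪ range γ)) :
    ∃ h ∈ H, ∃ u t, Red H γ u t ∧ w = h * u := by
  have stepH : ∀ x ∈ H, ∀ w, (∃ h ∈ H, ∃ u t, Red H γ u t ∧ w = h * u) →
      ∃ h ∈ H, ∃ u t, Red H γ u t ∧ x * w = h * u := by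
    rintro x hx w ⟨h, hh, u, t, hr, rfl⟩
    exact ⟨x * h, H.mul_mem hx hh, u, t, hr, by group⟩
  have stepγ : ∀ s, ∀ w, (∃ h ∈ H, ∃ u t, Red H γ u t ∧ w = h * u) →
      ∃ h ∈ H, ∃ u t, Red H γ u t ∧ γ s * w = h * u := by
    rintro s w ⟨h, hh, u, t, hr, rfl⟩
    by_cases hc : h = 1 → t ≠ some (!s)
    · exact ⟨1, H.one_mem, _, _, Red.step u t h s hr hh hc, by group⟩
    · push Not at hc
      obtain ⟨rfl, rfl⟩ := hc
      obtain ⟨u', t', h', h1, h2, rfl⟩ := hr.inv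
      exact ⟨h', h2, u', t', h1, by rw [hγ]; group⟩
  induction hw using Subgroup.closure_induction_left with
  | one => exact ⟨1, H.one_mem, 1, none, Red.one, by group⟩
  | mul_left x hx y _ ih =>
    rcases hx with hx | ⟨s, rfl⟩
    · exact stepH x hx y ih
    · exact stepγ s y ih
  | inv_mul_cancel x hx y _ ih =>
    rcases hx with hx | ⟨s, rfl⟩
    · exact stepH _ (H.inv_mem hx) y ih
    · rw [← hγ]; exact stepγ _ y ih

namespace Sys

variable {S : Sys G X}

theorem comb {H : Subgroup G} {D : Set X} (hG : S.Good H D) (γ : Bool → G)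
    (hγ : ∀ s, γ (!s) = (γ s)⁻¹) (A W : Bool → Set X) (hA : ∀ s, A s ∈ S.hs)
    (hg : ∀ s, S.gap (A s) (W s)) (hW : ∀ s, W s ⊆ D) (hd : ∀ s, Disjoint (W s) (W (!s)))
    (hpp : ∀ s x, x ∉ A (!s) ↔ γ s • x ∈ A s) (y : X) (hy : y ∈ D) (hyA : ∀ s, y ∉ A s) :
    S.Good (Subgroup.closure ((H : Set G) ∪ range γ)) (D \ (A true ∪ A false)) := by
  set H' := Subgroup.closure ((H : Set G) ∪ range γ) with hH'
  have hHH : H ≤ H' := fun h hh => Subgroup.subset_closure (Or.inl hh)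
  have hγH : ∀ s, γ s ∈ H' := fun s => Subgroup.subset_closure (Or.inr ⟨s, rfl⟩)
  have hAW : ∀ s, A s ⊆ W s := fun s => S.gap_sub _ _ (hg s)
  have hAD : ∀ s, A s ⊆ D := fun s => (hAW s).trans (hW s)
  have hD' : ∀ x, x ∈ D \ (A true ∪ A false) ↔ x ∈ D ∧ ∀ s, x ∉ A s := by
    intro x; simp [Bool.forall_bool]; tauto
  -- moving a big ball off the small ball
  have off : ∀ s s' : Bool, ∀ h ∈ H, (h = 1 → s' ≠ !s) → ∀ z ∈ W s', h • z ∉ A (!s) := by
    intro s s' h hh hc z hz hz'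
    have h1 := hG.wan h hh z (hW _ hz) (hAD _ hz')
    have h2 : s' = s := by
      have := hc h1
      revert this; cases s <;> cases s' <;> simp
    subst h1 h2
    rw [one_smul] at hz'
    exact Set.disjoint_left.1 (hd s') hz (hAW _ hz')
  have key : ∀ u t, Red H γ u t → ∀ x ∈ D \ (A true ∪ A false),
      (t = none ∧ u = 1) ∨ ∃ s, t = some s ∧ u • x ∈ A s := by
    intro u t hr x hx
    rw [hD'] at hx
    induction hr with
    | one => exact Or.inl ⟨rfl, rfl⟩
    | step u t h s _ hh hc ih =>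
      refine Or.inr ⟨s, rfl, ?_⟩
      rw [mul_smul, mul_smul, ← hpp]
      rcases ih with ⟨rfl, rfl⟩ | ⟨s', rfl, hs'⟩
      · rw [one_smul]
        intro hz
        have h1 := hG.wan h hh x hx.1 (hAD _ hz)
        subst h1
        rw [one_smul] at hz
        exact hx.2 _ hz
      · exact off s s' h hh (fun e e' => hc e (by rw [e'])) _ (hAW _ hs')
  refine ⟨?_, ?_, ?_⟩
  · have : D \ (A true ∪ A false) = D ∩ ((A true)ᶜ ∩ (A false)ᶜ) := by
      ext x; simp
    rw [this]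
    exact hG.op.inter ((op_hs (S.compl_mem _ (hA _))).inter (op_hs (S.compl_mem _ (hA _))))
  · intro w hw x hx hwx
    obtain ⟨h, hh, u, t, hr, rfl⟩ := normal_form hγ hw
    rcases key u t hr x hx with ⟨-, rfl⟩ | ⟨s, -, hs⟩
    · rw [mul_one] at hwx ⊢
      exact hG.wan h hh x hx.1 hwx.1
    · rw [mul_smul] at hwx
      have h1 := hG.wan h hh _ (hAD _ hs) hwx.1
      subst h1
      rw [one_smul, hD'] at hwx
      exact absurd hs (hwx.2 s)
  · intro B hB
    by_contra hno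
    push Not at hno
    have hy' : y ∈ D \ (A true ∪ A false) := (hD' y).2 ⟨hy, hyA⟩
    have trap : ∀ w ∈ H', ∃ h ∈ H, ∃ s, ∀ x ∈ B, (h * w) • x ∈ A s := by
      intro w hw
      obtain ⟨x, hx, h, hh, hhx⟩ := hG.den _ (S.pre_mem w⁻¹ B hB)
      have hhw : h * w ∈ H' := H'.mul_mem (hHH hh) hw
      have h1 := hno _ hx _ hhw
      rw [mul_smul, smul_inv_smul, hD'] at h1
      push Not at h1
      obtain ⟨s, hs⟩ := h1 hhx
      refine ⟨h, hh, s, ?_⟩
      rcases S.nested _ (S.pre_mem (h * w)⁻¹ B hB) _ (hA s) with h2 | h2 | h2 | h2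
      · intro z hz
        exact h2 (by rw [mem_pre, inv_smul_smul]; exact hz)
      · exfalso
        have h3 := h2 ((hpp s y).1 (hyA _))
        apply hno _ h3 ((γ s)⁻¹ * (h * w)) (H'.mul_mem (H'.inv_mem (hγH s)) hhw)
        rw [mul_smul, smul_inv_smul, inv_smul_smul]
        exact hy'
      · exfalso
        refine Set.disjoint_left.1 h2 ?_ hs
        simpa [mul_smul] using hx
      · exfalso
        have h3 : y ∈ pre (h * w)⁻¹ B ∪ A s := h2 ▸ mem_univ y
        rcases h3 with h3 | h3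
        · apply hno _ h3 _ hhw
          rw [smul_inv_smul]; exact hy'
        · exact hyA s h3
    choose! fh hfh fs hfs using trap
    let w : ℕ → G := fun n => Nat.rec 1 (fun _ v => (γ (fs v))⁻¹ * (fh v * v)) n
    have w0 : w 0 = 1 := rfl
    have wS : ∀ n, w (n + 1) = (γ (fs (w n)))⁻¹ * (fh (w n) * w n) := fun _ => rfl
    have wH : ∀ n, w n ∈ H' := by
      intro n
      induction n with
      | zero => exact H'.one_mem
      | succ n ih =>
        rw [wS]; exact H'.mul_mem (H'.inv_mem (hγH _)) (H'.mul_mem (hHH (hfh _ ih)) ih)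
    refine S.chain (fun n => pre (fh (w n) * w n) (A (fs (w n)))) ?_ ?_ B hB ?_
    · intro n
      refine S.gap_mono _ _ _ _ (S.gap_pre (fh (w (n + 1)) * w (n + 1)) _ _ (hg _))
        Subset.rfl ?_
      intro z hz
      rw [mem_pre] at hz ⊢
      obtain ⟨b, hb⟩ := (S.inf B hB).nonempty
      have h1 := off (fs (w n)) (fs (w (n + 1))) (fh (w (n + 1)))⁻¹
        (H.inv_mem (hfh _ (wH (n + 1)))) (by
          intro e e'
          have h2 := hfs _ (wH (n + 1)) b hb
          have h3 := hfs _ (wH n) b hb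
          rw [inv_eq_one] at e
          rw [e, e', one_mul] at h2
          refine (hpp _ _).2 ?_ h2
          rw [wS, mul_smul, smul_inv_smul]; exact h3) _ hz
      rw [mul_smul, inv_smul_smul, hpp, wS, mul_smul, smul_inv_smul] at h1
      exact h1
    · intro e
      have : (fh (w 0) * w 0)⁻¹ • y ∈ pre (fh (w 0) * w 0) (A (fs (w 0))) := by
        have := mem_univ ((fh (w 0) * w 0)⁻¹ • y)
        rw [← e] at this; exact this
      rw [mem_pre, smul_inv_smul] at this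
      exact hyA _ this
    · intro n z hz
      exact hfs _ (wH n) z hz

end Sys

end Pool.Agent.H72.HTrA
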