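import Pool.Agent.H72.HTrA

/-! The inductive construction of a highly transitive coset action. -/

namespace Pool.Agent.H72.HTrA

open Set

variable {G X : Type*} [Group G] [MulAction G X]

namespace Sys

variable {S : Sys G X}

theorem multi {ι : Type*} {H : Subgroup G} {D : Set X} (hG : S.Good H D) (γ : ι → Bool → G)
    (hγ : ∀ i s, γ i (!s) = (γ i s)⁻¹) (A W : ι → Bool → Set X) (hA : ∀ i s, A i s ∈ S.hs)
    (hg : ∀ i s, S.gap (A i s) (W i s)) (hW : ∀ i s, W i s ⊆ D)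
    (hd : ∀ i s j t, (i, s) ≠ (j, t) → Disjoint (W i s) (W j t))
    (hpp : ∀ i s x, x ∉ A i (!s) ↔ γ i s • x ∈ A i s) (y : X) (hy : y ∈ D)
    (hyA : ∀ i s, y ∉ A i s) (T : Finset ι) :
    ∃ H' D', H ≤ H' ∧ (∀ i ∈ T, ∀ s, γ i s ∈ H') ∧ S.Good H' D' ∧
      ∀ x ∈ D, (∀ i ∈ T, ∀ s, x ∉ A i s) → x ∈ D' := by
  classical
  induction T using Finset.induction_on with
  | empty => exact ⟨H, D, le_rfl, by simp, hG, fun x hx _ => hx⟩
  | insert a T ha ih =>
    obtain ⟨H', D', h1, h2, h3, h4⟩ := ih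
    have hWD : ∀ s, W a s ⊆ D' := by
      intro s x hx
      refine h4 x (hW _ _ hx) fun i hi t hxA => ?_
      refine Set.disjoint_left.1 (hd a s i t ?_) hx (S.gap_sub _ _ (hg i t) hxA)
      intro e
      rw [Prod.mk.injEq] at e
      exact ha (e.1 ▸ hi)
    have := comb h3 (γ a) (hγ a) (A a) (W a) (hA a) (hg a) hWD
      (fun s => hd a s a (!s) (by cases s <;> simp)) (hpp a) y
      (h4 y hy fun i _ s => hyA i s) (hyA a)
    refine ⟨_, _, ?_, ?_, this, ?_⟩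
    · exact fun h hh => Subgroup.subset_closure (Or.inl (h1 hh))
    · intro i hi s
      rcases Finset.mem_insert.1 hi with rfl | hi
      · exact Subgroup.subset_closure (Or.inr ⟨s, rfl⟩)
      · exact Subgroup.subset_closure (Or.inl (h2 i hi s))
    · intro x hx hxA
      refine ⟨h4 x hx fun i hi s => hxA i (Finset.mem_insert_of_mem hi) s, ?_⟩
      rintro (h | h)
      · exact hxA a (Finset.mem_insert_self _ _) _ h
      · exact hxA a (Finset.mem_insert_self _ _) _ h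

lemma spread {ι : Type*} [Finite ι] {H : Subgroup G} {D : Set X} (hG : S.Good H D)
    (a : ι → G) : ∃ c : ι → G, (∀ i, (a i)⁻¹ * c i ∈ H) ∧
      ∃ B ∈ S.hs, ∀ i, ∀ x ∈ B, (c i)⁻¹ • x ∈ D := by
  classical
  have := Fintype.ofFinite ι
  have key : ∀ T : Finset ι, ∃ c : ι → G, (∀ i, (a i)⁻¹ * c i ∈ H) ∧
      ∃ B ∈ S.hs, ∀ i ∈ T, ∀ x ∈ B, (c i)⁻¹ • x ∈ D := by
    intro T
    induction T using Finset.induction_on with
    | empty =>
      obtain ⟨B, hB⟩ := S.ne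
      exact ⟨a, fun i => by simpa using H.one_mem, B, hB, by simp⟩
    | insert j T hj ih =>
      obtain ⟨c, hc, B, hB, hBD⟩ := ih
      obtain ⟨x, hx, h, hh, hhx⟩ := hG.den _ (S.pre_mem (a j) B hB)
      have hop : S.Op (B ∩ pre (a j * h⁻¹)⁻¹ D) := (op_hs hB).inter (hG.op.pre _)
      obtain ⟨B', hB', -, hsub⟩ := hop (a j • x) ⟨hx, by
        rw [mem_pre, mul_inv_rev, inv_inv, mul_smul, inv_smul_smul]; exact hhx⟩
      refine ⟨Function.update c j (a j * h⁻¹), ?_, B', hB', ?_⟩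
      · intro i
        by_cases e : i = j
        · subst e; simpa using hh
        · rw [Function.update_of_ne e]; exact hc i
      · intro i hi z hz
        by_cases e : i = j
        · subst e; rw [Function.update_self]; exact (hsub hz).2
        · rw [Function.update_of_ne e]
          exact hBD i ((Finset.mem_insert.1 hi).resolve_left e) z (hsub hz).1
  obtain ⟨c, hc, B, hB, h⟩ := key Finset.univ
  exact ⟨c, hc, B, hB, fun i => h i (Finset.mem_univ i)⟩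

lemma pick {ι : Type*} [Finite ι] {H : Subgroup G} {D : Set X} (hG : S.Good H D)
    (a : ι → G) (ha : ∀ i j, (a i)⁻¹ * a j ∈ H → i = j) {T : Set X} (hT : T.Finite) :
    ∃ c : ι → G, (∀ i, (a i)⁻¹ * c i ∈ H) ∧ ∃ x : X, (∀ i, (c i)⁻¹ • x ∈ D) ∧
      (∀ i, (c i)⁻¹ • x ∉ T) ∧ Function.Injective fun i => (c i)⁻¹ • x := by
  obtain ⟨c, hc, B, hB, hBD⟩ := spread hG a
  have hfin : ((⋃ i, (fun z => c i • z) '' T) ∪
      ⋃ p : {p : ι × ι // p.1 ≠ p.2}, {x : X | (c p.1.2 * (c p.1.1)⁻¹) • x = x}).Finite := by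
    refine (finite_iUnion fun i => hT.image _).union (finite_iUnion fun p => S.fix _ ?_)
    intro e
    apply p.2
    apply ha
    have e' : c p.1.2 = c p.1.1 := by rwa [mul_inv_eq_one] at e
    have := H.mul_mem (hc p.1.1) (H.inv_mem (hc p.1.2))
    rw [e'] at this
    convert this using 1
    group
  obtain ⟨x, hx, hxn⟩ := (S.inf B hB).exists_notMem_finite hfin
  refine ⟨c, hc, x, fun i => hBD i x hx, ?_, ?_⟩
  · intro i hi
    exact hxn (Or.inl (mem_iUnion.2 ⟨i, _, hi, smul_inv_smul _ _⟩))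
  · intro i j e
    by_contra hne
    refine hxn (Or.inr (mem_iUnion.2 ⟨⟨(i, j), hne⟩, ?_⟩))
    simp only [mem_ofPred_eq] at e ⊢
    rw [mul_smul, e, smul_inv_smul]

lemma separate {κ : Type*} [Finite κ] {U : Set X} (hU : S.Op U) (pt : κ → X)
    (hinj : Function.Injective pt) (hpt : ∀ k, pt k ∈ U) :
    ∃ W V : κ → Set X, (∀ k, W k ⊆ U) ∧ (∀ k l, k ≠ l → Disjoint (W k) (W l)) ∧
      (∀ k, S.gap (V k) (W k)) ∧ (∀ k, S.Op (V k)) ∧ ∀ k, pt k ∈ V k := by
  classical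
  have h1 : ∀ k l, ∃ B : Set X, S.Op B ∧ S.Op Bᶜ ∧ pt k ∈ B ∧ (k ≠ l → pt l ∉ B) := by
    intro k l
    by_cases e : k = l
    · exact ⟨univ, op_univ, by intro x hx; simp at hx, mem_univ _, fun h => absurd e h⟩
    · obtain ⟨B, hB, h1, h2⟩ := S.sep _ _ (fun h => e (hinj h))
      exact ⟨B, op_hs hB, op_hs (S.compl_mem B hB), h1, fun _ => h2⟩
  choose B hB hBc hk hl using h1
  let W : κ → Set X := fun k => U ∩ ((⋂ l, B k l) ∩ ⋂ l : {l // l ≠ k}, (B l k)ᶜ)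
  have hWop : ∀ k, S.Op (W k) := fun k =>
    hU.inter ((op_iInter (hB k)).inter (op_iInter fun l => hBc _ _))
  have hWpt : ∀ k, pt k ∈ W k := fun k =>
    ⟨hpt k, mem_iInter.2 (hk k), mem_iInter.2 fun l => hl _ _ l.2⟩
  choose V hV hVpt hVg using fun k => (hWop k).gap (hWpt k)
  refine ⟨W, V, fun k => inter_subset_left, ?_, hVg, fun k => op_hs (hV k), hVpt⟩
  intro k l hkl
  rw [Set.disjoint_left]
  intro x hx hx'
  exact mem_iInter.1 hx'.2.2 ⟨k, hkl⟩ (mem_iInter.1 hx.2.1 l)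

theorem tuple {ι : Type*} [Finite ι] {H : Subgroup G} {D O : Set X} (hG : S.Good H D)
    (hO : O.Finite) (hne : O.Nonempty) (hOD : O ⊆ D) (a b : ι → G)
    (ha : ∀ i j, (a i)⁻¹ * a j ∈ H → i = j) (hb : ∀ i j, (b i)⁻¹ * b j ∈ H → i = j) :
    ∃ H' D', H ≤ H' ∧ S.Good H' D' ∧ O ⊆ D' ∧ ∃ g : G, ∀ i, (b i)⁻¹ * g * a i ∈ H' := by
  classical
  have := Fintype.ofFinite ι
  obtain ⟨c, hc, x, hxD, hxO, hxi⟩ := pick hG a ha hO
  obtain ⟨d, hd, z, hzD, hzO, hzi⟩ := pick hG b hb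
    (hO.union (finite_range fun i => (c i)⁻¹ • x))
  let pt : ι × Bool → X := fun k => if k.2 then (d k.1)⁻¹ • z else (c k.1)⁻¹ • x
  have hinj : Function.Injective pt := by
    rintro ⟨i, s⟩ ⟨j, t⟩ e
    cases s <;> cases t <;> simp only [pt, if_true, if_false, Bool.false_eq_true] at e
    · rw [hxi e]
    · exact absurd (Or.inr ⟨i, e⟩) (hzO j)
    · exact absurd (Or.inr ⟨j, e.symm⟩) (hzO i)
    · rw [hzi e]
  have hpt : ∀ k, pt k ∈ D ∩ Oᶜ := by
    rintro ⟨i, s⟩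
    cases s
    · exact ⟨hxD i, hxO i⟩
    · exact ⟨hzD i, fun h => hzO i (Or.inl h)⟩
  obtain ⟨W, V, hWU, hWd, hVW, hVop, hVpt⟩ :=
    separate (hG.op.inter (op_compl_fin hO)) pt hinj hpt
  obtain ⟨B0, hB0, -, hB0s⟩ := op_iInter (fun i => (hVop (i, false)).pre (c i)⁻¹) x
    (mem_iInter.2 fun i => hVpt (i, false))
  obtain ⟨B1, hB1, -, hB1s⟩ := op_iInter (fun i => (hVop (i, true)).pre (d i)⁻¹) z
    (mem_iInter.2 fun i => hVpt (i, true))
  obtain ⟨g, hg⟩ := S.prox B0 hB0 B1 hB1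
  let γ : ι → Bool → G := fun i s => if s then (d i)⁻¹ * g * c i else ((d i)⁻¹ * g * c i)⁻¹
  let A : ι → Bool → Set X := fun i s => if s then pre (g⁻¹ * d i) B0ᶜ else pre (c i) B0
  have hAV : ∀ i s, A i s ⊆ V (i, s) := by
    intro i s u hu
    cases s
    · have := mem_iInter.1 (hB0s hu) i
      rwa [mem_pre, inv_smul_smul] at this
    · have h1 := hg _ hu
      rw [mul_smul, smul_inv_smul] at h1
      have := mem_iInter.1 (hB1s h1) i
      rwa [mem_pre, inv_smul_smul] at this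
  have hgap : ∀ i s, S.gap (A i s) (W (i, s)) := fun i s =>
    S.gap_mono _ _ _ _ (hVW (i, s)) (hAV i s) Subset.rfl
  have hOA : ∀ o ∈ O, ∀ i s, o ∉ A i s := fun o ho i s h =>
    (hWU _ (S.gap_sub _ _ (hgap i s) h)).2 ho
  obtain ⟨y, hy⟩ := hne
  obtain ⟨H', D', h1, h2, h3, h4⟩ := multi hG γ (by intro i s; cases s <;> simp [γ]) A
    (fun i s => W (i, s)) (by
      intro i s
      cases s
      · exact S.pre_mem _ _ hB0
      · exact S.pre_mem _ _ (S.compl_mem _ hB0)) hgap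
    (fun i s => (hWU _).trans inter_subset_left) (fun i s j t h => hWd _ _ h) (by
      intro i s u
      cases s <;> simp [γ, A, mul_smul]) y (hOD hy) (hOA y hy) Finset.univ
  refine ⟨H', D', h1, h3, fun o ho => h4 o (hOD ho) fun i _ s => hOA o ho i s, g, fun i => ?_⟩
  have := H'.mul_mem (H'.mul_mem (h1 (hd i)) (h2 i (Finset.mem_univ i) true))
    (H'.inv_mem (h1 (hc i)))
  convert this using 1
  simp only [γ, if_true]
  group

theorem faith {H : Subgroup G} {D : Set X} (hG : S.Good H D) (hD : D.Nonempty) {g : G}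
    (hg : g ≠ 1) : ∃ c : G, ∃ o ∈ D, (c * g * c⁻¹) • o ∈ D := by
  obtain ⟨y, hy⟩ := hD
  obtain ⟨C, hC, -, hCD⟩ := hG.op y hy
  obtain ⟨z, -, hz⟩ := (S.inf C hC).exists_notMem_finite ((finite_singleton (g • y)).insert y)
  obtain ⟨B, hB, -, hBs⟩ := op_compl_fin (S := S) ((finite_singleton (g • y)).insert y) z hz
  obtain ⟨c, hc⟩ := S.prox B hB C hC
  refine ⟨c, c • y, hCD (hc y fun h => hBs h (Or.inl rfl)), ?_⟩
  rw [mul_smul, inv_smul_smul, mul_smul]
  exact hCD (hc _ fun h => hBs h (Or.inr rfl))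

/-- a state of the construction -/
structure St (S : Sys G X) where
  H : Subgroup G
  D : Set X
  O : Set X
  good : S.Good H D
  fin : O.Finite
  ne : O.Nonempty
  sub : O ⊆ D

/-- the requirements -/
def Sat (s : St S) : (Σ k : ℕ, (Fin k → G) × (Fin k → G)) ⊕ G → Prop
  | Sum.inl ⟨_, a, b⟩ => (∃ i j, i ≠ j ∧ (a i)⁻¹ * a j ∈ s.H) ∨
      (∃ i j, i ≠ j ∧ (b i)⁻¹ * b j ∈ s.H) ∨ ∃ g : G, ∀ i, (b i)⁻¹ * g * a i ∈ s.H
  | Sum.inr g => g = 1 ∨ ∃ c : G, ∃ o ∈ s.O, (c * g * c⁻¹) • o ∈ s.O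

lemma step (s : St S) (r : (Σ k : ℕ, (Fin k → G) × (Fin k → G)) ⊕ G) :
    ∃ s' : St S, s.H ≤ s'.H ∧ s.O ⊆ s'.O ∧ Sat s' r := by
  rcases r with ⟨k, a, b⟩ | g
  · by_cases ha : ∃ i j, i ≠ j ∧ (a i)⁻¹ * a j ∈ s.H
    · exact ⟨s, le_rfl, Subset.rfl, Or.inl ha⟩
    by_cases hb : ∃ i j, i ≠ j ∧ (b i)⁻¹ * b j ∈ s.H
    · exact ⟨s, le_rfl, Subset.rfl, Or.inr (Or.inl hb)⟩
    obtain ⟨H', D', h1, h2, h3, h4⟩ := tuple s.good s.fin s.ne s.sub a b
      (fun i j h => by_contra fun e => ha ⟨i, j, e, h⟩)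
      (fun i j h => by_contra fun e => hb ⟨i, j, e, h⟩)
    exact ⟨⟨H', D', s.O, h2, s.fin, s.ne, h3⟩, h1, Subset.rfl, Or.inr (Or.inr h4)⟩
  · by_cases hg : g = 1
    · exact ⟨s, le_rfl, Subset.rfl, Or.inl hg⟩
    obtain ⟨c, o, ho, ho'⟩ := faith s.good (s.ne.mono s.sub) hg
    refine ⟨⟨s.H, s.D, insert o (insert ((c * g * c⁻¹) • o) s.O), s.good,
      (s.fin.insert _).insert _, insert_nonempty _ _,
      insert_subset ho (insert_subset ho' s.sub)⟩, le_rfl,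
      (subset_insert _ _).trans (subset_insert _ _), Or.inr ⟨c, o, Or.inl rfl, Or.inr (Or.inl rfl)⟩⟩

/-- The main abstract theorem. -/
theorem exists_subgroup [Countable G] (S : Sys G X) : ∃ K : Subgroup G,
    FaithfulSMul G (G ⧸ K) ∧ ∀ k, MulAction.IsMultiplyPretransitive G (G ⧸ K) k := by
  obtain ⟨e, he⟩ := exists_surjective_nat ((Σ k : ℕ, (Fin k → G) × (Fin k → G)) ⊕ G)
  obtain ⟨B, hB⟩ := S.ne
  obtain ⟨x0, -⟩ := (S.inf B hB).nonempty
  let s0 : St S := ⟨⊥, univ, {x0}, ⟨op_univ, fun h hh _ _ _ => Subgroup.mem_bot.1 hh, fun C hC =>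
    let ⟨x, hx⟩ := (S.inf C hC).nonempty
    ⟨x, hx, 1, Subgroup.one_mem _, mem_univ _⟩⟩, finite_singleton _, singleton_nonempty _,
    subset_univ _⟩
  choose f hf1 hf2 hf3 using step (S := S)
  let s : ℕ → St S := fun n => Nat.rec s0 (fun n t => f t (e n)) n
  have sS : ∀ n, s (n + 1) = f (s n) (e n) := fun _ => rfl
  have mH : Monotone fun n => (s n).H := monotone_nat_of_le_succ fun n => hf1 _ _
  have mO : Monotone fun n => (s n).O := monotone_nat_of_le_succ fun n => hf2 _ _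
  have mem : ∀ g, g ∈ (⨆ n, (s n).H) ↔ ∃ n, g ∈ (s n).H := fun g =>
    Subgroup.mem_iSup_of_directed mH.directed_le
  have sat : ∀ r, ∃ n, Sat (s n) r := by
    intro r
    obtain ⟨n, rfl⟩ := he r
    exact ⟨n + 1, hf3 _ _⟩
  refine ⟨⨆ n, (s n).H, ?_, ?_⟩
  · rw [faithfulSMul_iff]
    intro g hg
    obtain ⟨n, h | ⟨c, o, ho, ho'⟩⟩ := sat (Sum.inr g)
    · exact h
    have h1 := hg (c⁻¹ : G)
    rw [MulAction.Quotient.smul_mk, eq_comm, QuotientGroup.eq, mem] at h1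
    obtain ⟨m, hm⟩ := h1
    have h2 := (s (max n m)).good.wan (c * g * c⁻¹)
      (by have := mH (le_max_right n m) hm; simpa [mul_assoc] using this) o
      ((s _).sub (mO (le_max_left n m) ho)) ((s _).sub (mO (le_max_left n m) ho'))
    simpa using h2
  · intro k
    refine ⟨fun u v => ?_⟩
    obtain ⟨n, h | h | ⟨g, h⟩⟩ := sat (Sum.inl ⟨k, fun i => (u i).out, fun i => (v i).out⟩)
    · obtain ⟨i, j, hij, h⟩ := h
      refine absurd (u.injective ?_) hij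
      rw [← QuotientGroup.out_eq' (u i), ← QuotientGroup.out_eq' (u j), QuotientGroup.eq, mem]
      exact ⟨n, h⟩
    · obtain ⟨i, j, hij, h⟩ := h
      refine absurd (v.injective ?_) hij
      rw [← QuotientGroup.out_eq' (v i), ← QuotientGroup.out_eq' (v j), QuotientGroup.eq, mem]
      exact ⟨n, h⟩
    · refine ⟨g, ?_⟩
      ext i
      rw [Function.Embedding.smul_apply, ← QuotientGroup.out_eq' (u i),
        ← QuotientGroup.out_eq' (v i), MulAction.Quotient.smul_mk, eq_comm, QuotientGroup.eq, mem]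
      exact ⟨n, by simpa [mul_assoc] using h i⟩

end Sys

end Pool.Agent.H72.HTrA
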