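import Mathlib

/-! Basic facts on the action of `PGL(2,K)` on the projective line. -/

namespace Pool.Agent.H72.HTrC

open Projectivization Matrix
open scoped LinearAlgebra.Projectivization commutatorElement

variable {K : Type*} [Field K]

/-- the projective line -/
abbrev PP (K : Type*) [Field K] := ℙ K (Fin 2 → K)

/-- the projective general linear group -/
abbrev PG (K : Type*) [Field K] := Matrix.ProjGenLinGroup (Fin 2) K

/-- the determinant of two vectors -/
def D (u w : Fin 2 → K) : K := u 0 * w 1 - u 1 * w 0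

lemma gl_apply (M : GL (Fin 2) K) (u : Fin 2 → K) (i : Fin 2) :
    (M • u) i = M.val i 0 * u 0 + M.val i 1 * u 1 := by
  change (M.val *ᵥ u) i = _
  simp [Matrix.mulVec, dotProduct, Fin.sum_univ_two]

lemma D_smul (M : GL (Fin 2) K) (u w : Fin 2 → K) :
    D (M • u) (M • w) = M.val.det * D u w := by
  simp only [D, gl_apply, det_fin_two]; ring

lemma det_ne (M : GL (Fin 2) K) : M.val.det ≠ 0 := M.det_ne_zero

lemma gl_smul (M : GL (Fin 2) K) (c : K) (u : Fin 2 → K) : M • (c • u) = c • (M • u) := by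
  ext i; simp only [gl_apply, Pi.smul_apply, smul_eq_mul]; ring

lemma D_self (u : Fin 2 → K) : D u u = 0 := by simp only [D]; ring
lemma D_swap (u w : Fin 2 → K) : D u w = - D w u := by simp only [D]; ring
lemma D_smul_left (c : K) (u w : Fin 2 → K) : D (c • u) w = c * D u w := by
  simp only [D, Pi.smul_apply, smul_eq_mul]; ring
lemma D_smul_right (c : K) (u w : Fin 2 → K) : D u (c • w) = c * D u w := by
  simp only [D, Pi.smul_apply, smul_eq_mul]; ring
lemma D_add_left (u v w : Fin 2 → K) : D (u + v) w = D u w + D v w := by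
  simp only [D, Pi.add_apply]; ring
lemma D_add_right (u v w : Fin 2 → K) : D u (v + w) = D u v + D u w := by
  simp only [D, Pi.add_apply]; ring

lemma cramer (u w z : Fin 2 → K) : D u w • z = D z w • u + D u z • w := by
  ext i; fin_cases i <;> simp [D] <;> ring

lemma left_ne {u w : Fin 2 → K} (h : D u w ≠ 0) : u ≠ 0 := by
  rintro rfl; simp [D] at h

lemma right_ne {u w : Fin 2 → K} (h : D u w ≠ 0) : w ≠ 0 := by
  rintro rfl; simp [D] at h

lemma exists_indep {u : Fin 2 → K} (hu : u ≠ 0) : ∃ w, D u w ≠ 0 := by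
  by_cases h : u 0 = 0
  · refine ⟨![1, 0], ?_⟩
    intro e
    apply hu
    ext i; fin_cases i
    · exact h
    · simpa [D] using e
  · exact ⟨![0, 1], by simpa [D] using h⟩

lemma exists_smul_of_D {u w : Fin 2 → K} (hu : u ≠ 0) (h : D u w = 0) : ∃ c : K, w = c • u := by
  obtain ⟨z, hz⟩ := exists_indep hu
  have := cramer u z w
  rw [h, zero_smul, add_zero] at this
  refine ⟨(D u z)⁻¹ * D w z, ?_⟩
  rw [mul_smul, ← this, smul_smul, inv_mul_cancel₀ hz, one_smul]

lemma mk_eq_iff {u w : Fin 2 → K} (hu : u ≠ 0) (hw : w ≠ 0) :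
    Projectivization.mk K u hu = Projectivization.mk K w hw ↔ D u w = 0 := by
  rw [eq_comm, mk_eq_mk_iff']
  constructor
  · rintro ⟨c, rfl⟩; rw [D_smul_right, D_self, mul_zero]
  · intro h; obtain ⟨c, hc⟩ := exists_smul_of_D hu h; exact ⟨c, hc.symm⟩

lemma ext_two {M N : GL (Fin 2) K} {u w : Fin 2 → K} (h : D u w ≠ 0) (hu : M • u = N • u)
    (hw : M • w = N • w) : M = N := by
  have key : ∀ z : Fin 2 → K, M • z = N • z := by
    intro z
    have h1 : D u w • (M • z) = D u w • (N • z) := by
      rw [← gl_smul, ← gl_smul, cramer, smul_add, smul_add, gl_smul, gl_smul, gl_smul, gl_smul,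
        hu, hw]
    exact smul_right_injective _ h h1
  ext i j
  fin_cases j
  · simpa [gl_apply] using congrFun (key ![1, 0]) i
  · simpa [gl_apply] using congrFun (key ![0, 1]) i

lemma exists_GL {a b c d : Fin 2 → K} (h : D a b ≠ 0) (h' : D c d ≠ 0) :
    ∃ M : GL (Fin 2) K, M • a = c ∧ M • b = d := by
  have key : ∀ a b : Fin 2 → K, D a b ≠ 0 →
      ∃ M : GL (Fin 2) K, M • ![(1 : K), 0] = a ∧ M • ![(0 : K), 1] = b := by
    intro a b h
    refine ⟨GeneralLinearGroup.mkOfDetNeZero !![a 0, b 0; a 1, b 1] ?_, ?_, ?_⟩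
    · rw [det_fin_two_of]; intro e; apply h; rw [← e]; simp only [D]; ring
    · ext i; fin_cases i <;> simp [gl_apply]
    · ext i; fin_cases i <;> simp [gl_apply]
  obtain ⟨M, h1, h2⟩ := key a b h
  obtain ⟨N, h3, h4⟩ := key c d h'
  exact ⟨N * M⁻¹, by rw [← h1, mul_smul, inv_smul_smul, h3],
    by rw [← h2, mul_smul, inv_smul_smul, h4]⟩

lemma fix_iff (M : GL (Fin 2) K) {u : Fin 2 → K} (hu : u ≠ 0) :
    (ProjGenLinGroup.mk M : PG K) • Projectivization.mk K u hu = Projectivization.mk K u hu ↔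
      ∃ c : K, M • u = c • u := by
  rw [PGL.mk_smul_mk, mk_eq_mk_iff']
  exact ⟨fun ⟨c, h⟩ => ⟨c, h.symm⟩, fun ⟨c, h⟩ => ⟨c, h.symm⟩⟩

lemma mk_eq_one_of {M : GL (Fin 2) K} {u w : Fin 2 → K} (h : D u w ≠ 0) {c : K}
    (hu : M • u = c • u) (hw : M • w = c • w) : (ProjGenLinGroup.mk M : PG K) = 1 := by
  have hc : c ≠ 0 := by
    rintro rfl
    rw [zero_smul] at hu
    exact (smul_ne_zero_iff_ne M).2 (left_ne h) hu
  have key : ∀ z : Fin 2 → K, (GeneralLinearGroup.scalar (Fin 2) (Units.mk0 c hc)) • z = c • z := by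
    intro z; ext i; fin_cases i <;> simp [gl_apply, GeneralLinearGroup.scalar]
  rw [ext_two h (hu.trans (key u).symm) (hw.trans (key w).symm), ProjGenLinGroup.mk_scalar]

/-- only the identity fixes three points -/
theorem three {g : PG K} {x y z : PP K} (hxy : x ≠ y) (hxz : x ≠ z) (hyz : y ≠ z)
    (hx : g • x = x) (hy : g • y = y) (hz : g • z = z) : g = 1 := by
  induction g using ProjGenLinGroup.induction_on with | _ M => ?_
  induction x using Projectivization.ind with | _ u hu => ?_
  induction y using Projectivization.ind with | _ w hw => ?_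
  induction z using Projectivization.ind with | _ t ht => ?_
  rw [Ne, mk_eq_iff] at hxy hxz hyz
  obtain ⟨a, ha⟩ := (fix_iff M hu).1 hx
  obtain ⟨b, hb⟩ := (fix_iff M hw).1 hy
  obtain ⟨c, hc⟩ := (fix_iff M ht).1 hz
  have h1 := D_smul M u t
  have h2 := D_smul M w t
  rw [ha, hc, D_smul_left, D_smul_right, ← mul_assoc] at h1
  rw [hb, hc, D_smul_left, D_smul_right, ← mul_assoc] at h2
  have h3 := mul_right_cancel₀ hxz h1
  have h4 := mul_right_cancel₀ hyz h2
  have hc0 : c ≠ 0 := by rintro rfl; exact det_ne M (by rw [← h3, mul_zero])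
  have : a = b := mul_right_cancel₀ hc0 (h3.trans h4.symm)
  subst this
  exact mk_eq_one_of hxy ha hb

/-- the pointwise stabiliser of two points is abelian -/
theorem torus {g h : PG K} {x y : PP K} (hxy : x ≠ y) (gx : g • x = x) (gy : g • y = y)
    (hx : h • x = x) (hy : h • y = y) : g * h = h * g := by
  induction g using ProjGenLinGroup.induction_on with | _ M => ?_
  induction h using ProjGenLinGroup.induction_on with | _ N => ?_
  induction x using Projectivization.ind with | _ u hu => ?_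
  induction y using Projectivization.ind with | _ w hw => ?_
  rw [Ne, mk_eq_iff] at hxy
  obtain ⟨a, ha⟩ := (fix_iff M hu).1 gx
  obtain ⟨b, hb⟩ := (fix_iff M hw).1 gy
  obtain ⟨c, hc⟩ := (fix_iff N hu).1 hx
  obtain ⟨d, hd⟩ := (fix_iff N hw).1 hy
  rw [← map_mul, ← map_mul]
  congr 1
  apply ext_two hxy
  · simp only [mul_smul, ha, hc, gl_smul]; rw [smul_comm]
  · simp only [mul_smul, hb, hd, gl_smul]; rw [smul_comm]

lemma comm_fix {M N : GL (Fin 2) K} {u : Fin 2 → K} {a b : K} (ha : M • u = a • u)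
    (hb : N • u = b • u) : ⁅M, N⁆ • u = u ∧ (⁅M, N⁆ : GL (Fin 2) K).val.det = 1 := by
  constructor
  · have : (N * M) • u = (M * N) • u := by
      simp only [mul_smul, ha, hb, gl_smul]; rw [smul_comm]
    have h2 : ∀ (P : GL (Fin 2) K) (c : K), P • u = c • u → ∃ e : K, P⁻¹ • u = e • u := by
      intro P c hc
      by_cases h0 : c = 0
      · rw [h0, zero_smul, smul_eq_iff_eq_inv_smul, smul_zero] at hc
        exact ⟨0, by rw [hc, smul_zero, smul_zero]⟩
      · refine ⟨c⁻¹, ?_⟩
        rw [inv_smul_eq_iff, gl_smul, hc, smul_smul, inv_mul_cancel₀ h0, one_smul]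
    obtain ⟨e, he⟩ := h2 (N * M) (a * b) (by simp only [mul_smul, ha, hb, gl_smul])
    have h3 : ⁅M, N⁆ = M * N * (N * M)⁻¹ := by rw [commutatorElement_def]; group
    rw [h3, mul_smul, he, gl_smul, ← this, ← gl_smul, ← he, smul_inv_smul]
  · have h3 : ⁅M, N⁆ * (N * M) = M * N := by rw [commutatorElement_def]; group
    have := congrArg (fun P : GL (Fin 2) K => P.val.det) h3
    simp only [Units.val_mul, det_mul] at this
    rw [mul_comm M.val.det] at this
    exact (mul_eq_right₀ (mul_ne_zero (det_ne N) (det_ne M))).1 this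

/-- the stabiliser of a point is metabelian -/
theorem borel {g1 g2 g3 g4 : PG K} {x : PP K} (h1 : g1 • x = x) (h2 : g2 • x = x)
    (h3 : g3 • x = x) (h4 : g4 • x = x) : ⁅⁅g1, g2⁆, ⁅g3, g4⁆⁆ = 1 := by
  induction g1 using ProjGenLinGroup.induction_on with | _ M1 => ?_
  induction g2 using ProjGenLinGroup.induction_on with | _ M2 => ?_
  induction g3 using ProjGenLinGroup.induction_on with | _ M3 => ?_
  induction g4 using ProjGenLinGroup.induction_on with | _ M4 => ?_
  induction x using Projectivization.ind with | _ u hu => ?_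
  obtain ⟨a1, e1⟩ := (fix_iff M1 hu).1 h1
  obtain ⟨a2, e2⟩ := (fix_iff M2 hu).1 h2
  obtain ⟨a3, e3⟩ := (fix_iff M3 hu).1 h3
  obtain ⟨a4, e4⟩ := (fix_iff M4 hu).1 h4
  obtain ⟨f1, d1⟩ := comm_fix e1 e2
  obtain ⟨f2, d2⟩ := comm_fix e3 e4
  rw [← map_commutatorElement, ← map_commutatorElement, commutatorElement_eq_one_iff_mul_comm,
    ← map_mul, ← map_mul]
  congr 1
  obtain ⟨w, hw⟩ := exists_indep hu
  have key : ∀ P : GL (Fin 2) K, P • u = u → P.val.det = 1 → ∃ t : K, P • w = w + t • u := by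
    intro P hP hd
    have h := D_smul P u w
    rw [hP, hd, one_mul] at h
    obtain ⟨t, ht⟩ := exists_smul_of_D (w := P • w - w) hu (by
      simp only [D, Pi.sub_apply] at h ⊢; linear_combination h)
    exact ⟨t, by rw [← ht]; abel⟩
  obtain ⟨s, hs⟩ := key _ f1 d1
  obtain ⟨t, ht⟩ := key _ f2 d2
  apply ext_two hw
  · simp only [mul_smul, f1, f2]
  · simp only [mul_smul, hs, ht, smul_add, gl_smul, f1, f2]; abel

/-- over an algebraically closed field every element has a fixed point -/
theorem exists_fixed [IsAlgClosed K] (g : PG K) : ∃ x : PP K, g • x = x := by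
  induction g using ProjGenLinGroup.induction_on with | _ M => ?_
  obtain ⟨c, hc⟩ := Module.End.exists_eigenvalue (Matrix.toLin' M.val)
  obtain ⟨u, hu⟩ := hc.exists_hasEigenvector
  exact ⟨Projectivization.mk K u hu.2, (fix_iff M hu.2).2 ⟨c, hu.apply_eq_smul⟩⟩

lemma map_inj {L : Type*} [Field L] (f : K →+* L) :
    Function.Injective (ProjGenLinGroup.map (n := Fin 2) f) := by
  rw [injective_iff_map_eq_one]
  intro g hg
  induction g using ProjGenLinGroup.induction_on with | _ M => ?_
  rw [ProjGenLinGroup.map_mk, ProjGenLinGroup.mk_eq_one,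
    GeneralLinearGroup.mem_center_iff_val_mem_range_scalar] at hg
  obtain ⟨c, hc⟩ := hg
  have h : ∀ i j, f (M.val i j) = Matrix.scalar (Fin 2) c i j := fun i j => by rw [hc]; rfl
  have h01 : M.val 0 1 = 0 := by simpa using h 0 1
  have h10 : M.val 1 0 = 0 := by simpa using h 1 0
  have h00 : M.val 1 1 = M.val 0 0 := by
    apply f.injective; rw [h, h]; simp
  refine mk_eq_one_of (u := ![1, 0]) (w := ![0, 1]) (c := M.val 0 0) (by simp [D]) ?_ ?_
  · ext i; fin_cases i <;> simp [gl_apply, h10]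
  · ext i; fin_cases i <;> simp [gl_apply, h01, h00]

lemma pt_inj : Function.Injective fun a : K =>
    Projectivization.mk K (![a, 1] : Fin 2 → K) (by intro h; simpa using congrFun h 1) := by
  intro a b h
  simp only [mk_eq_iff, D] at h
  simpa [sub_eq_zero] using h

instance [Infinite K] : Infinite (PP K) := Infinite.of_injective _ pt_inj

theorem faithful [Infinite K] : FaithfulSMul (PG K) (PP K) := by
  rw [faithfulSMul_iff]
  intro g hg
  let e := Infinite.natEmbedding (PP K)
  exact three (x := e 0) (y := e 1) (z := e 2) (by simp) (by simp) (by simp) (hg _) (hg _) (hg _)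

theorem three_trans : MulAction.IsMultiplyPretransitive (PG K) (PP K) 3 := by
  have key : ∀ u : Fin 3 ↪ PP K, ∃ a b : Fin 2 → K, ∃ h : D a b ≠ 0,
      u 0 = Projectivization.mk K a (left_ne h) ∧ u 1 = Projectivization.mk K b (right_ne h) ∧
      ∃ h', u 2 = Projectivization.mk K (a + b) h' := by
    intro u
    have h : ∀ i j, i ≠ j → D (u i).rep (u j).rep ≠ 0 := by
      intro i j hij e
      rw [← mk_eq_iff (rep_nonzero _) (rep_nonzero _), mk_rep, mk_rep] at e
      exact hij (u.injective e)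
    have hc := cramer (u 0).rep (u 1).rep (u 2).rep
    refine ⟨D (u 2).rep (u 1).rep • (u 0).rep, D (u 0).rep (u 2).rep • (u 1).rep, ?_, ?_, ?_,
      ?_, ?_⟩
    · rw [D_smul_left, D_smul_right]
      exact mul_ne_zero (h _ _ (by decide)) (mul_ne_zero (h _ _ (by decide)) (h _ _ (by decide)))
    · conv_lhs => rw [← mk_rep (u 0)]
      rw [mk_eq_iff, D_smul_right, D_self, mul_zero]
    · conv_lhs => rw [← mk_rep (u 1)]
      rw [mk_eq_iff, D_smul_right, D_self, mul_zero]
    · rw [← hc]; exact smul_ne_zero (h _ _ (by decide)) (rep_nonzero _)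
    · conv_lhs => rw [← mk_rep (u 2)]
      rw [mk_eq_iff, ← hc, D_smul_right, D_self, mul_zero]
  refine ⟨fun u v => ?_⟩
  obtain ⟨a, b, h, u0, u1, h', u2⟩ := key u
  obtain ⟨c, d, k, v0, v1, k', v2⟩ := key v
  obtain ⟨M, hM, hM'⟩ := exists_GL h k
  refine ⟨ProjGenLinGroup.mk M, ?_⟩
  ext i
  rw [Function.Embedding.smul_apply]
  fin_cases i
  · change _ • u 0 = v 0
    rw [u0, v0, PGL.mk_smul_mk]; congr 1
  · change _ • u 1 = v 1
    rw [u1, v1, PGL.mk_smul_mk]; congr 1
  · change _ • u 2 = v 2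
    rw [u2, v2, PGL.mk_smul_mk]; congr 1; rw [smul_add, hM, hM']

instance [Infinite K] : Infinite (PG K) := by
  by_contra h
  rw [not_infinite_iff_finite] at h
  have := three_trans (K := K)
  have h1 : MulAction.IsMultiplyPretransitive (PG K) (PP K) 1 :=
    MulAction.isMultiplyPretransitive_of_le' (n := 3) (by norm_num) (by simp)
  rw [MulAction.is_one_pretransitive_iff] at h1
  obtain ⟨x⟩ : Nonempty (PP K) := inferInstance
  have := Finite.of_surjective _ (MulAction.surjective_smul (PG K) x)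
  exact not_finite (PP K)

instance [Countable K] : Countable (PG K) := by
  have : Countable (Matrix (Fin 2) (Fin 2) K) := inferInstanceAs (Countable (Fin 2 → Fin 2 → K))
  have : Countable (GL (Fin 2) K) := Units.val_injective.countable
  exact ProjGenLinGroup.mk_surjective.countable

end Pool.Agent.H72.HTrC
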