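import Pool.Agent.H72.HTrB
import Pool.Agent.H72.HTrC

/-! Half-spaces of the projective line over a field with an archimedean valuation. -/

namespace Pool.Agent.H72.HTrD

open Projectivization Matrix Set Pool.Agent.H72.HTrA Pool.Agent.H72.HTrC
open scoped LinearAlgebra.Projectivization

variable {K : Type*} [Field K] {Γ : Type*} [LinearOrderedCommGroupWithZero Γ]
  (v : Valuation K Γ)

/-- closed half-space -/
def le (a b : Fin 2 → K) : Set (PP K) := {x | v (D x.rep a) ≤ v (D x.rep b)}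

variable {v}

lemma mk_mem {a b u : Fin 2 → K} (hu : u ≠ 0) :
    Projectivization.mk K u hu ∈ le v a b ↔ v (D u a) ≤ v (D u b) := by
  obtain ⟨c, hc⟩ := exists_smul_eq_mk_rep K u hu
  have h0 : 0 < v c := zero_lt_iff.2 ((Valuation.ne_zero_iff v).2 c.ne_zero)
  simp only [le, mem_ofPred_eq, ← hc, Units.smul_def, D_smul_left, map_mul]
  exact mul_le_mul_iff_right₀ h0

lemma vD_swap (u w : Fin 2 → K) : v (D u w) = v (D w u) := by
  rw [D_swap, Valuation.map_neg]

lemma pluecker (u w a b : Fin 2 → K) : D u w * D a b = D u a * D w b - D u b * D w a := by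
  simp only [D]; ring

lemma beta_ne {a b u : Fin 2 → K} (h : D a b ≠ 0) (hu : u ≠ 0) (hle : v (D u a) ≤ v (D u b)) :
    0 < v (D u b) := by
  rw [zero_lt_iff]
  intro e
  have e' : v (D u a) = 0 := le_antisymm (e ▸ hle) zero_le
  rw [Valuation.zero_iff] at e e'
  have := cramer a b u
  rw [e, D_swap a u, e', neg_zero, zero_smul, zero_smul, add_zero] at this
  exact smul_ne_zero h hu this

lemma L1 {a b u w : Fin 2 → K} (h : D a b ≠ 0) (hu : u ≠ 0) (h1 : v (D u a) ≤ v (D u b))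
    (h2 : v (D w b) < v (D w a)) : v (D u w) * v (D a b) = v (D u b) * v (D w a) := by
  rw [← map_mul, pluecker, Valuation.map_sub_eq_of_lt_right, map_mul]
  rw [map_mul, map_mul]
  exact lt_of_le_of_lt (mul_le_mul_left h1 _) (mul_lt_mul_of_pos_left h2 (beta_ne h hu h1))

lemma L2 {a b u w : Fin 2 → K} (h1 : v (D u a) ≤ v (D u b))
    (h2 : v (D w a) ≤ v (D w b)) : v (D u w) * v (D a b) ≤ v (D u b) * v (D w b) := by
  rw [← map_mul, pluecker]
  refine v.map_sub_le ?_ ?_ <;> rw [map_mul]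
  · exact mul_le_mul_left h1 _
  · exact mul_le_mul_right h2 _

lemma L3 {a b u w : Fin 2 → K} (h1 : v (D u b) < v (D u a))
    (h2 : v (D w b) < v (D w a)) : v (D u w) * v (D a b) < v (D u a) * v (D w a) := by
  rw [← map_mul, pluecker]
  refine v.map_sub_lt ?_ ?_ <;> rw [map_mul]
  · exact mul_lt_mul_of_pos_left h2 (lt_of_le_of_lt zero_le h1)
  · exact mul_lt_mul_of_pos_right h1 (lt_of_le_of_lt zero_le h2)

/-- the half-spaces -/
def hs (v : Valuation K Γ) : Set (Set (PP K)) :=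
  {B | ∃ a b, D a b ≠ 0 ∧ (B = le v a b ∨ Bᶜ = le v a b)}

lemma cross_le {a b : Fin 2 → K} (h : D a b ≠ 0) {x1 x2 x3 x4 : PP K} (h1 : x1 ∈ le v a b)
    (h2 : x2 ∈ le v a b) (h3 : x3 ∉ le v a b) (h4 : x4 ∉ le v a b) :
    v (D x1.rep x2.rep) * v (D x3.rep x4.rep) < v (D x1.rep x3.rep) * v (D x2.rep x4.rep) := by
  simp only [le, mem_ofPred_eq, not_le] at h1 h2 h3 h4
  have h0 : 0 < v (D a b) := zero_lt_iff.2 ((Valuation.ne_zero_iff v).2 h)
  have e1 := L1 h (rep_nonzero x1) h1 h3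
  have e2 := L1 h (rep_nonzero x2) h2 h4
  have e3 := L2 h1 h2
  have e4 := L3 h3 h4
  have p1 := beta_ne h (rep_nonzero x1) h1
  have p2 := beta_ne h (rep_nonzero x2) h2
  refine lt_of_mul_lt_mul_right (a := v (D a b) * v (D a b)) ?_ zero_le
  calc _ = (v (D x1.rep x2.rep) * v (D a b)) * (v (D x3.rep x4.rep) * v (D a b)) := by ac_rfl
    _ ≤ (v (D x1.rep b) * v (D x2.rep b)) * (v (D x3.rep x4.rep) * v (D a b)) :=
        mul_le_mul_left e3 _
    _ < (v (D x1.rep b) * v (D x2.rep b)) * (v (D x3.rep a) * v (D x4.rep a)) :=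
        mul_lt_mul_of_pos_left e4 (mul_pos p1 p2)
    _ = (v (D x1.rep x3.rep) * v (D a b)) * (v (D x2.rep x4.rep) * v (D a b)) := by
        rw [e1, e2]; ac_rfl
    _ = _ := by ac_rfl

lemma cross {B : Set (PP K)} (hB : B ∈ hs v) {x1 x2 x3 x4 : PP K} (h1 : x1 ∈ B)
    (h2 : x2 ∈ B) (h3 : x3 ∉ B) (h4 : x4 ∉ B) :
    v (D x1.rep x2.rep) * v (D x3.rep x4.rep) < v (D x1.rep x3.rep) * v (D x2.rep x4.rep) := by
  obtain ⟨a, b, h, e | e⟩ := hB
  · subst e; exact cross_le h h1 h2 h3 h4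
  · have := cross_le (v := v) h (x1 := x3) (x2 := x4) (x3 := x1) (x4 := x2) (e ▸ h3) (e ▸ h4)
      (by rw [← e]; simpa using h1) (by rw [← e]; simpa using h2)
    rwa [mul_comm, vD_swap x3.rep x1.rep, vD_swap x4.rep x2.rep] at this

lemma nested {B C : Set (PP K)} (hB : B ∈ hs v) (hC : C ∈ hs v) :
    B ⊆ C ∨ C ⊆ B ∨ Disjoint B C ∨ B ∪ C = univ := by
  by_contra hn
  push Not at hn
  obtain ⟨h1, h2, h3, h4⟩ := hn
  obtain ⟨x2, a2, b2⟩ := not_subset.1 h1
  obtain ⟨x3, b3, a3⟩ := not_subset.1 h2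
  obtain ⟨x1, a1, b1⟩ := not_disjoint_iff.1 h3
  obtain ⟨x4, h5⟩ := (ne_univ_iff_exists_notMem _).1 h4
  have a4 : x4 ∉ B := fun h => h5 (Or.inl h)
  have b4 : x4 ∉ C := fun h => h5 (Or.inr h)
  exact lt_asymm (cross hB a1 a2 a3 a4) (cross hC b1 b3 b2 b4)

lemma pre_le (M : GL (Fin 2) K) (a b : Fin 2 → K) :
    pre (ProjGenLinGroup.mk M : PG K) (le v a b) = le v (M⁻¹ • a) (M⁻¹ • b) := by
  ext x
  induction x using Projectivization.ind with | _ u hu => ?_
  rw [mem_pre, PGL.mk_smul_mk, mk_mem, mk_mem]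
  have h0 : 0 < v M.val.det := zero_lt_iff.2 ((Valuation.ne_zero_iff v).2 (det_ne M))
  conv_lhs => rw [← smul_inv_smul M a, ← smul_inv_smul M b, D_smul, D_smul, map_mul, map_mul]
  exact mul_le_mul_iff_right₀ h0

lemma D_inv {a b : Fin 2 → K} (h : D a b ≠ 0) (M : GL (Fin 2) K) : D (M • a) (M • b) ≠ 0 := by
  rw [D_smul]; exact mul_ne_zero (det_ne M) h

/-- strong containment -/
def gap (v : Valuation K Γ) (π : K) (A W : Set (PP K)) : Prop :=
  ∃ a b, D a b ≠ 0 ∧ A ⊆ le v a (π • b) ∧ le v a b ⊆ W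

lemma le_sub {π : K} (h1 : v π < 1) (a b : Fin 2 → K) : le v a (π • b) ⊆ le v a b := by
  intro x hx
  simp only [le, mem_ofPred_eq, D_smul_right, map_mul] at hx ⊢
  exact hx.trans (mul_le_of_le_one_left' h1.le)

lemma R1 {a b : Fin 2 → K} (h : D a b ≠ 0) {x t w : PP K} (hx : x ∈ le v a b)
    (ht : t ∈ le v a b) (hw : w ∉ le v a b) :
    v (D x.rep t.rep) / v (D t.rep w.rep) ≤ v (D x.rep b) / v (D w.rep a) := by
  simp only [le, mem_ofPred_eq, not_le] at hx ht hw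
  have h0 : 0 < v (D a b) := zero_lt_iff.2 ((Valuation.ne_zero_iff v).2 h)
  have e1 := L1 h (rep_nonzero t) ht hw
  have e2 := L2 hx ht
  have p1 := beta_ne h (rep_nonzero t) ht
  have p2 : 0 < v (D w.rep a) := lt_of_le_of_lt zero_le hw
  rw [← mul_div_mul_right _ _ h0.ne', e1, div_le_div_iff₀ (mul_pos p1 p2) p2]
  calc _ ≤ v (D x.rep b) * v (D t.rep b) * v (D w.rep a) := mul_le_mul_left e2 _
    _ = _ := by ac_rfl

lemma R2 {a b : Fin 2 → K} (h : D a b ≠ 0) {x w : PP K} (hx : x ∈ le v a b)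
    (hw : w ∉ le v a b) : ∃ t ∈ le v a b,
    v (D x.rep t.rep) / v (D t.rep w.rep) = v (D x.rep b) / v (D w.rep a) := by
  simp only [le, mem_ofPred_eq, not_le] at hx hw
  have key : ∀ u (hu : u ≠ 0), v (D x.rep (Projectivization.mk K u hu).rep) /
      v (D (Projectivization.mk K u hu).rep w.rep) = v (D x.rep u) / v (D w.rep u) := by
    intro u hu
    obtain ⟨c, hc⟩ := exists_smul_eq_mk_rep K u hu
    have h0 : v c ≠ 0 := (Valuation.ne_zero_iff v).2 c.ne_zero
    rw [← hc, Units.smul_def, D_smul_left, D_smul_right, map_mul, map_mul,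
      mul_div_mul_left _ _ h0, vD_swap u]
  rcases hx.eq_or_lt with e | e
  · refine ⟨Projectivization.mk K a (left_ne h), ?_, ?_⟩
    · rw [mk_mem, D_self, map_zero]; exact zero_le
    · rw [key, e]
  · have hab : D (a + b) b ≠ 0 := by rwa [D_add_left, D_self, add_zero]
    refine ⟨Projectivization.mk K (a + b) (left_ne hab), ?_, ?_⟩
    · rw [mk_mem, D_add_left, D_add_left, D_self, D_self, zero_add, add_zero, vD_swap]
    · rw [key, D_add_right, D_add_right, v.map_add_eq_of_lt_right e, v.map_add_eq_of_lt_left hw]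

lemma hs_sub {π : K} (h0 : π ≠ 0) (h1 : v π < 1) {B : Set (PP K)} (hB : B ∈ hs v) :
    ∃ a b, D a b ≠ 0 ∧ le v a b ⊆ B := by
  obtain ⟨a, b, h, e | e⟩ := hB
  · exact ⟨a, b, h, e.ge⟩
  · have h' : D b (π • a) ≠ 0 := by
      rw [D_smul_right, D_swap]; exact mul_ne_zero h0 (neg_ne_zero.2 h)
    refine ⟨b, π • a, h', fun x hx => ?_⟩
    by_contra hn
    have hn' : x ∈ le v a b := e ▸ hn
    have p := beta_ne h (rep_nonzero x) hn'
    simp only [le, mem_ofPred_eq, D_smul_right, map_mul] at hx hn'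
    exact lt_irrefl _ (hx.trans_lt ((mul_le_mul_right hn' _).trans_lt (mul_lt_of_lt_one_left p h1)))

lemma le_inf {π : K} (h0 : π ≠ 0) (h1 : v π < 1) {a b : Fin 2 → K} (h : D a b ≠ 0) :
    (le v a b).Infinite := by
  have hne : ∀ n : ℕ, D (a + π ^ n • b) b ≠ 0 := fun n => by
    rwa [D_add_left, D_smul_left, D_self, mul_zero, add_zero]
  refine infinite_of_injective_forall_mem
    (f := fun n : ℕ => Projectivization.mk K (a + π ^ n • b) (left_ne (hne n))) ?_ ?_
  · intro m n e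
    simp only [mk_eq_iff] at e
    have e' : (π ^ n - π ^ m) * D a b = 0 := by
      rw [← e]; simp only [D, Pi.add_apply, Pi.smul_apply, smul_eq_mul]; ring
    have e2 := congrArg v (sub_eq_zero.1 ((mul_eq_zero.1 e').resolve_right h))
    rw [map_pow, map_pow] at e2
    exact ((pow_right_strictAnti₀ (zero_lt_iff.2 ((Valuation.ne_zero_iff v).2 h0))
      h1).injective e2).symm
  · intro n
    rw [mk_mem, D_add_left, D_add_left, D_smul_left, D_smul_left, D_self, D_self, zero_add,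
      mul_zero, add_zero, map_mul, map_pow, vD_swap b a]
    exact mul_le_of_le_one_left' (pow_le_one₀ zero_le h1.le)

lemma hs_inf {π : K} (h0 : π ≠ 0) (h1 : v π < 1) {B : Set (PP K)} (hB : B ∈ hs v) :
    B.Infinite := by
  obtain ⟨a, b, h, hs⟩ := hs_sub h0 h1 hB
  exact (le_inf h0 h1 h).mono hs

lemma chain {π : K} (h0 : π ≠ 0) (h1 : v π < 1) (arch : ∀ x : K, x ≠ 0 → ∃ m : ℕ, v π ^ m ≤ v x)
    (C : ℕ → Set (PP K)) (hC : ∀ n, gap v π (C (n + 1)) (C n)) (hu : C 0 ≠ univ)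
    (B : Set (PP K)) (hB : B ∈ hs v) : ¬ ∀ n, B ⊆ C n := by
  intro hBC
  choose a b hab h2 h3 using hC
  obtain ⟨w, hw⟩ := (ne_univ_iff_exists_notMem _).1 hu
  have hwC : ∀ n, w ∉ C n := by
    intro n
    induction n with
    | zero => exact hw
    | succ n ih => exact fun h => ih (h3 n (le_sub h1 _ _ (h2 n h)))
  have hw1 : ∀ n, w ∉ le v (a n) (b n) := fun n h => hwC n (h3 n h)
  have hw2 : ∀ n, w ∉ le v (a n) (π • b n) := fun n h => hw1 n (le_sub h1 _ _ h)
  obtain ⟨x, hx, y, hy, hxy⟩ := (hs_inf h0 h1 hB).nontrivial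
  have hab' : ∀ n, D (a n) (π • b n) ≠ 0 := fun n => by
    rw [D_smul_right]; exact mul_ne_zero h0 (hab n)
  have k1 : ∀ n, ∀ t ∈ C (n + 1), v (D x.rep t.rep) / v (D t.rep w.rep) ≤
      v π * (v (D x.rep (b n)) / v (D w.rep (a n))) := by
    intro n t ht
    have := R1 (hab' n) (h2 n (hBC _ hx)) (h2 n ht) (hw2 n)
    rwa [D_smul_right, map_mul, mul_div_assoc] at this
  have k2 : ∀ n, v (D x.rep (b n)) / v (D w.rep (a n)) ≤
      v π ^ n * (v (D x.rep (b 0)) / v (D w.rep (a 0))) := by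
    intro n
    induction n with
    | zero => simp
    | succ n ih =>
      obtain ⟨t, ht, e⟩ := R2 (hab (n + 1)) (le_sub h1 _ _ (h2 _ (hBC _ hx))) (hw1 (n + 1))
      rw [← e, pow_succ', mul_assoc]
      exact (k1 n t (h3 _ ht)).trans (mul_le_mul_right ih _)
  have ne_of : ∀ p q : PP K, p ≠ q → D p.rep q.rep ≠ 0 := by
    intro p q hpq e
    rw [← mk_eq_iff (rep_nonzero _) (rep_nonzero _), mk_rep, mk_rep] at e
    exact hpq e
  have p1 := beta_ne (hab 0) (rep_nonzero x) (le_sub h1 _ _ (h2 _ (hBC _ hx)))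
  have p2 : 0 < v (D w.rep (a 0)) := lt_of_le_of_lt zero_le (not_le.1 (hw1 0))
  have p3 : 0 < v (D x.rep (b 0)) / v (D w.rep (a 0)) := div_pos p1 p2
  obtain ⟨m, hm⟩ := arch ((D x.rep y.rep / D y.rep w.rep) / (D x.rep (b 0) / D w.rep (a 0)))
    (div_ne_zero (div_ne_zero (ne_of _ _ hxy) (ne_of _ _ (by rintro rfl; exact hw (hBC 0 hy))))
      (by rw [← Valuation.ne_zero_iff v, map_div₀]; exact p3.ne'))
  rw [map_div₀, map_div₀, map_div₀, le_div_iff₀ p3] at hm
  have p4 : 0 < v π ^ m * (v (D x.rep (b 0)) / v (D w.rep (a 0))) :=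
    mul_pos (pow_pos (zero_lt_iff.2 ((Valuation.ne_zero_iff v).2 h0)) m) p3
  exact lt_irrefl _ ((hm.trans ((k1 m y (hBC _ hy)).trans (mul_le_mul_right (k2 m) _))).trans_lt
    (mul_lt_of_lt_one_left p4 h1))

lemma compl_mem {B : Set (PP K)} (hB : B ∈ hs v) : Bᶜ ∈ hs v := by
  obtain ⟨a, b, h, e | e⟩ := hB
  · exact ⟨a, b, h, Or.inr (by rw [compl_compl, e])⟩
  · exact ⟨a, b, h, Or.inl e⟩

lemma basis {π : K} (h0 : π ≠ 0) (h1 : v π < 1) (arch : ∀ x : K, x ≠ 0 → ∃ m : ℕ, v π ^ m ≤ v x)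
    {B C : Set (PP K)} (hB : B ∈ hs v) (hC : C ∈ hs v) {x : PP K} (hxB : x ∈ B) (hxC : x ∈ C) :
    ∃ A ∈ hs v, x ∈ A ∧ gap v π A (B ∩ C) := by
  obtain ⟨b, hb⟩ := exists_indep (rep_nonzero x)
  have hne : ∀ m : ℕ, D x.rep (π ^ m • b) ≠ 0 := fun m => by
    rw [D_smul_right]; exact mul_ne_zero (pow_ne_zero _ h0) hb
  let A : ℕ → Set (PP K) := fun m => le v x.rep (π ^ m • b)
  have hA : ∀ m, A m ∈ hs v := fun m => ⟨_, _, hne m, Or.inl rfl⟩
  have hxA : ∀ m, x ∈ A m := fun m => by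
    simp only [A, le, mem_ofPred_eq, D_self, map_zero]; exact zero_le
  have hS : ∀ m, A (m + 1) = le v x.rep (π • π ^ m • b) := fun m => by
    simp only [A, smul_smul, pow_succ']
  have hg : ∀ m, gap v π (A (m + 1)) (A m) := fun m => ⟨_, _, hne m, (hS m).le, Subset.rfl⟩
  have anti : Antitone A := antitone_nat_of_succ_le fun m => (hS m).le.trans (le_sub h1 _ _)
  have hA0 : A 0 ≠ univ := by
    rw [ne_univ_iff_exists_notMem]
    refine ⟨Projectivization.mk K b (right_ne hb), ?_⟩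
    simp only [A, pow_zero, one_smul]
    rw [mk_mem, D_self, map_zero, vD_swap, not_le, zero_lt_iff]
    exact (Valuation.ne_zero_iff v).2 hb
  have key : ∀ E ∈ hs v, x ∈ E → ∃ m, A m ⊆ E := by
    intro E hE hx
    by_contra hn
    push Not at hn
    have c1 := chain h0 h1 arch A hg hA0 E hE
    have c2 := chain h0 h1 arch A hg hA0 Eᶜ (compl_mem hE)
    push Not at c1 c2
    obtain ⟨m, hm⟩ := c1
    obtain ⟨n, hn'⟩ := c2
    rcases nested (hA (max m n)) hE with h | h | h | h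
    · exact hn _ h
    · exact hm (h.trans (anti (le_max_left _ _)))
    · exact Set.disjoint_left.1 h (hxA _) hx
    · refine hn' (fun z hz => anti (le_max_right m n) ?_)
      have : z ∈ A (max m n) ∪ E := h ▸ mem_univ z
      exact this.resolve_right hz
  obtain ⟨m, hm⟩ := key B hB hxB
  obtain ⟨n, hn⟩ := key C hC hxC
  exact ⟨A (max m n + 1), hA _, hxA _, _, _, hne _, (hS _).le,
    subset_inter ((anti (le_max_left _ _)).trans hm) ((anti (le_max_right _ _)).trans hn)⟩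

/-- the half-space system -/
def sys {π : K} (h0 : π ≠ 0) (h1 : v π < 1) (arch : ∀ x : K, x ≠ 0 → ∃ m : ℕ, v π ^ m ≤ v x) :
    Sys (PG K) (PP K) where
  hs := hs v
  gap := gap v π
  pre_mem := by
    intro g B hB
    induction g using ProjGenLinGroup.induction_on with | _ M => ?_
    obtain ⟨a, b, h, e | e⟩ := hB
    · exact ⟨_, _, D_inv h M⁻¹, Or.inl (by rw [e, pre_le])⟩
    · exact ⟨_, _, D_inv h M⁻¹, Or.inr (by rw [← pre_le, ← e]; rfl)⟩
  compl_mem := fun _ => compl_mem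
  nested := fun _ hB _ hC => nested hB hC
  gap_pre := by
    rintro g A W ⟨a, b, h, h2, h3⟩
    induction g using ProjGenLinGroup.induction_on with | _ M => ?_
    refine ⟨_, _, D_inv h M⁻¹, ?_, ?_⟩
    · rw [← gl_smul, ← pre_le]; exact fun x hx => h2 hx
    · rw [← pre_le]; exact fun x hx => h3 hx
  gap_mono := by
    rintro A A' W W' ⟨a, b, h, h2, h3⟩ h4 h5
    exact ⟨a, b, h, h4.trans h2, h3.trans h5⟩
  gap_sub := by
    rintro A W ⟨a, b, -, h2, h3⟩
    exact h2.trans ((le_sub h1 _ _).trans h3)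
  chain := chain h0 h1 arch
  basis := fun _ hB _ hC _ hx hx' => basis h0 h1 arch hB hC hx hx'
  sep := by
    intro x y hxy
    have h : D x.rep y.rep ≠ 0 := by
      intro e
      rw [← mk_eq_iff (rep_nonzero _) (rep_nonzero _), mk_rep, mk_rep] at e
      exact hxy e
    refine ⟨_, ⟨_, _, h, Or.inl rfl⟩, ?_, ?_⟩
    · simp only [le, mem_ofPred_eq, D_self, map_zero]; exact zero_le
    · simp only [le, mem_ofPred_eq, D_self, map_zero, not_le, zero_lt_iff]
      rw [vD_swap]; exact (Valuation.ne_zero_iff v).2 h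
  inf := fun _ hB => hs_inf h0 h1 hB
  fix := by
    intro g hg
    by_contra hn
    let e := Set.Infinite.natEmbedding _ hn
    have inj : ∀ i j, i ≠ j → (e i : PP K) ≠ e j := fun i j h e' =>
      h (e.injective (Subtype.ext e'))
    exact hg (three (inj 0 1 (by decide)) (inj 0 2 (by decide)) (inj 1 2 (by decide))
      (e 0).2 (e 1).2 (e 2).2)
  prox := by
    intro B hB C hC
    obtain ⟨a, b, h, h2⟩ := hs_sub h0 h1 hB
    obtain ⟨c, d, h', h3⟩ := hs_sub h0 h1 hC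
    obtain ⟨M, e1, e2⟩ := exists_GL (a := b) (b := a) (by rw [D_swap]; exact neg_ne_zero.2 h) h'
    refine ⟨ProjGenLinGroup.mk M, fun x hx => h3 ?_⟩
    rw [← mem_pre, pre_le, ← e1, ← e2, inv_smul_smul, inv_smul_smul]
    exact (not_le.1 fun h => hx (h2 h)).le
  ne := ⟨_, ![1, 0], ![0, 1], by simp [D], Or.inl rfl⟩

end Pool.Agent.H72.HTrD
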