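import Mathlib

/-! Transitivity degree, highly transitive groups, locally finite fields. -/

namespace Pool.Agent.H72.HTrDefs

universe u

/-- The action of `G` on `Ω` is `k`-transitive: `Ω` has at least `k` points and `G` is
transitive on `k`-tuples of pairwise distinct points (embeddings `Fin k ↪ Ω`). -/
def KTrans (G Ω : Type u) [Group G] [MulAction G Ω] (k : ℕ) : Prop :=
  (k : ℕ∞) ≤ ENat.card Ω ∧ ∀ a b : Fin k ↪ Ω, ∃ g : G, ∀ i, g • a i = b i

/-- The transitivity degree: the supremum in `ℕ∞` of all `k ≥ 1` such that `G` has a faithful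
`k`-transitive action on some set. -/
noncomputable def td (G : Type u) [Group G] : ℕ∞ :=
  sSup {k : ℕ∞ | ∃ n : ℕ, k = n ∧ 1 ≤ n ∧
    ∃ (Ω : Type u) (_ : MulAction G Ω), FaithfulSMul G Ω ∧ KTrans G Ω n}

/-- `G` is highly transitive: it has a faithful action on an infinite set which is
`k`-transitive for every `k ≥ 1`. -/
def HighlyTransitive (G : Type u) [Group G] : Prop :=
  ∃ (Ω : Type u) (_ : MulAction G Ω), FaithfulSMul G Ω ∧ Infinite Ω ∧
    ∀ k : ℕ, 1 ≤ k → KTrans G Ω k

/-- A field is locally finite if every finitely generated subfield is finite. -/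
def LocFin (F : Type u) [Field F] : Prop :=
  ∀ s : Finset F, Finite (Subfield.closure (s : Set F))

end Pool.Agent.H72.HTrDefs
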