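import Pool.Agent.H72.HTrD
import Pool.Agent.H72.HTrDefs

/-! Fields that are not locally finite carry a rank one valuation; high transitivity. -/

namespace Pool.Agent.H72.HTrE

open Polynomial Pool.Agent.H72.HTrDefs Pool.Agent.H72.HTrC

universe u

variable {F : Type u} [Field F]

/-- existence of a nontrivial archimedean valuation -/
def HasVal (F : Type u) [Field F] : Prop :=
  ∃ (B : ValuationSubring F) (π : F), π ≠ 0 ∧ B.valuation π < 1 ∧
    ∀ x : F, x ≠ 0 → ∃ m : ℕ, B.valuation π ^ m ≤ B.valuation x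

lemma val_of_subring (A : Subring F) (π : F) (hπ : π ∈ A) (h0 : π ≠ 0)
    (hinv : ∀ a ∈ A, a * π ≠ 1)
    (hdec : ∀ a ∈ A, a ≠ 0 → ∃ (m : ℕ) (c g : F), c ∈ A ∧ c⁻¹ ∈ A ∧ c ≠ 0 ∧ g ∈ A ∧
      a = π ^ m * (c + π * g))
    (halg : ∀ x : F, IsAlgebraic A x) : HasVal F := by
  obtain ⟨B, hAB, hI⟩ := Ideal.image_subset_nonunits_valuationSubring
    (Ideal.span {(⟨π, hπ⟩ : A)}) (by
      rw [Ne, Ideal.eq_top_iff_one, Ideal.mem_span_singleton']
      rintro ⟨a, ha⟩
      exact hinv a a.2 (congrArg Subtype.val ha))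
  have hle : ∀ a ∈ A, B.valuation a ≤ 1 := fun a ha => (B.valuation_le_one_iff a).2 (hAB ha)
  have h1 : B.valuation π < 1 :=
    (ValuationSubring.mem_nonunits_iff B).1 (hI ⟨_, Ideal.subset_span rfl, rfl⟩)
  refine ⟨B, π, h0, h1, fun x hx => ?_⟩
  by_cases hxB : x ∈ B
  swap
  · exact ⟨0, by rw [pow_zero]; exact (not_le.1 fun h => hxB ((B.valuation_le_one_iff x).1 h)).le⟩
  obtain ⟨t, ht, r, hr, e⟩ := (halg x).exists_nonzero_eq_adjoin_mul (mem_nonZeroDivisors_of_ne_zero hx)
  have htB : t ∈ B := by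
    clear e
    induction ht using Algebra.adjoin_induction with
    | mem y hy => exact hy ▸ hxB
    | algebraMap a => exact hAB a.2
    | add y z _ _ hy hz => exact B.add_mem _ _ hy hz
    | mul y z _ _ hy hz => exact B.mul_mem _ _ hy hz
  obtain ⟨m, c, g, hc, hc', hc0, hg, e'⟩ := hdec r r.2 (fun h => hr (Subtype.ext h))
  have vc : B.valuation c = 1 := by
    refine le_antisymm (hle c hc) ?_
    have := hle _ hc'
    rwa [map_inv₀, inv_le_one₀ (zero_lt_iff.2 ((Valuation.ne_zero_iff _).2 hc0))] at this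
  have v2 : B.valuation (c + π * g) = 1 := by
    rw [Valuation.map_add_eq_of_lt_left, vc]
    rw [vc, map_mul]
    exact (mul_le_of_le_one_right' (hle g hg)).trans_lt h1
  refine ⟨m, ?_⟩
  have e2 : x * t = π ^ m * (c + π * g) := e.trans e'
  have := congrArg B.valuation e2
  rw [map_mul, map_mul, v2, mul_one, map_pow] at this
  rw [← this]
  exact mul_le_of_le_one_right' ((B.valuation_le_one_iff t).2 htB)

lemma val_of_trans (k : Type*) [Field k] [Algebra k F] (h : ¬ Algebra.IsAlgebraic k F) :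
    HasVal F := by
  obtain ⟨s, hs⟩ := exists_isTranscendenceBasis k F
  rw [← hs.isEmpty_iff_isAlgebraic, not_isEmpty_iff] at h
  obtain ⟨t⟩ := h
  let K0 := IntermediateField.adjoin k ((Subtype.val : s → F) '' {t}ᶜ)
  have htr : Transcendental K0 (t : F) :=
    IntermediateField.transcendental_adjoin_iff.2 (hs.1.transcendental_adjoin (by simp))
  let A : Subalgebra K0 F := Algebra.adjoin K0 {(t : F)}
  have hA : ∀ a, a ∈ A ↔ ∃ p : K0[X], aeval (t : F) p = a := by
    intro a
    simp only [A, Algebra.adjoin_singleton_eq_range_aeval, AlgHom.mem_range]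
  refine val_of_subring A.toSubring t (Algebra.subset_adjoin rfl) ?_ ?_ ?_ ?_
  · intro e
    exact htr (e ▸ isAlgebraic_zero)
  · intro a ha e
    obtain ⟨p, rfl⟩ := (hA a).1 ha
    refine htr ⟨p * X - 1, ?_, by simp [e]⟩
    intro e'
    have := congrArg (eval 0) e'
    simp at this
  · intro a ha h0
    obtain ⟨p, rfl⟩ := (hA a).1 ha
    have hp : p ≠ 0 := by rintro rfl; simp at h0
    obtain ⟨q, hpq, hq⟩ := exists_eq_pow_rootMultiplicity_mul_and_not_dvd p hp 0
    simp only [C_0, sub_zero, X_dvd_iff] at hpq hq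
    refine ⟨rootMultiplicity 0 p, algebraMap K0 F (q.coeff 0), aeval (t : F) q.divX,
      A.algebraMap_mem _, ?_, ?_, (hA _).2 ⟨_, rfl⟩, ?_⟩
    · rw [← map_inv₀]; exact A.algebraMap_mem _
    · simpa using hq
    · have e1 := congrArg (aeval (t : F)) hpq
      have e2 := congrArg (aeval (t : F)) (X_mul_divX_add q)
      rw [map_mul, map_pow, aeval_X] at e1
      rw [map_add, map_mul, aeval_X, aeval_C, add_comm] at e2
      rw [e2]; exact e1
  · intro x
    have hle : (Algebra.adjoin k (Set.range (Subtype.val : s → F))).toSubring ≤ A.toSubring := by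
      intro y hy
      have : Algebra.adjoin k (Set.range (Subtype.val : s → F)) ≤ A.restrictScalars k := by
        rw [Algebra.adjoin_le_iff]
        rintro _ ⟨z, rfl⟩
        by_cases e : z = t
        · subst e; exact Algebra.subset_adjoin rfl
        · exact A.algebraMap_mem ⟨z, IntermediateField.subset_adjoin _ _ ⟨z, e, rfl⟩⟩
      exact this hy
    obtain ⟨p, hp, hpx⟩ := hs.isAlgebraic.isAlgebraic x
    refine ⟨p.map (Subring.inclusion hle), ?_, ?_⟩
    · exact (Polynomial.map_ne_zero_iff (Subring.inclusion_injective hle)).2 hp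
    · rw [aeval_def, eval₂_map]; exact hpx

lemma val_of_charZero [CharZero F] : HasVal F := by
  by_cases h : Algebra.IsAlgebraic ℚ F
  swap
  · exact val_of_trans ℚ h
  have hZ : Algebra.IsAlgebraic ℤ F := (IsFractionRing.comap_isAlgebraic_iff).2 h
  refine val_of_subring (Int.castRingHom F).range 2 ⟨2, by simp⟩ two_ne_zero ?_ ?_ ?_
  · rintro _ ⟨a, rfl⟩ e
    have : (a * 2 : ℤ) = 1 := by
      apply Int.cast_injective (α := F); simpa using e
    omega
  · rintro _ ⟨a, rfl⟩ h0
    have ha : a ≠ 0 := by rintro rfl; simp at h0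
    obtain ⟨m, b, hb, e⟩ := (FiniteMultiplicity.of_prime_left Int.prime_two ha).exists_eq_pow_mul_and_not_dvd
      |>.imp (fun b hb => hb) |> fun ⟨b, h1, h2⟩ => (⟨_, b, h2, h1⟩ : ∃ m b, ¬ (2 : ℤ) ∣ b ∧ a = 2 ^ m * b)
    refine ⟨m, 1, (b / 2 : ℤ), one_mem _, by rw [inv_one]; exact one_mem _, one_ne_zero,
      ⟨_, rfl⟩, ?_⟩
    have : a = 2 ^ m * (1 + 2 * (b / 2)) := by rw [e]; congr 1; omega
    conv_lhs => rw [this]
    simp
  · intro x
    obtain ⟨p, hp, hpx⟩ := hZ.isAlgebraic x
    refine ⟨p.map (Int.castRingHom F).rangeRestrict, ?_, ?_⟩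
    · refine (Polynomial.map_ne_zero_iff ?_).2 hp
      intro a b e
      exact Int.cast_injective (α := F) (congrArg Subtype.val e)
    · rw [aeval_def, eval₂_map]; exact hpx

lemma locFin_of_alg (p : ℕ) [Fact p.Prime] [Algebra (ZMod p) F]
    (h : Algebra.IsAlgebraic (ZMod p) F) : LocFin F := by
  intro s
  have := IntermediateField.finiteDimensional_adjoin (K := ZMod p) (S := (s : Set F))
    fun x _ => (h.isAlgebraic x).isIntegral
  have hfin : Finite (IntermediateField.adjoin (ZMod p) (s : Set F)) :=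
    Module.finite_of_finite (ZMod p)
  have hle : Subfield.closure (s : Set F) ≤
      (IntermediateField.adjoin (ZMod p) (s : Set F)).toSubfield :=
    Subfield.closure_le.2 (IntermediateField.subset_adjoin _ _)
  exact Finite.of_injective (fun x => (⟨x.1, hle x.2⟩ : IntermediateField.adjoin (ZMod p) (s : Set F)))
    fun a b e => Subtype.ext (by simpa using e)

theorem hasVal (h : ¬ LocFin F) : HasVal F := by
  obtain ⟨p, hp⟩ := CharP.exists F
  rcases CharP.char_is_prime_or_zero F p with hp' | rfl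
  · have : Fact p.Prime := ⟨hp'⟩
    let _ := ZMod.algebra F p
    exact val_of_trans (ZMod p) fun h' => h (locFin_of_alg p h')
  · have := CharP.charP_to_charZero F
    exact val_of_charZero

theorem highly [Countable F] [Infinite F] (h : ¬ LocFin F) : HighlyTransitive (PG F) := by
  obtain ⟨B, π, h0, h1, arch⟩ := hasVal h
  obtain ⟨K, hK, hT⟩ := (HTrD.sys h0 h1 arch).exists_subgroup
  have hinf : Infinite (PG F ⧸ K) := by
    by_contra hn
    rw [not_infinite_iff_finite] at hn
    have := Finite.of_injective _ (MulAction.toPerm_injective (α := PG F) (β := PG F ⧸ K))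
    exact not_finite (PG F)
  refine ⟨PG F ⧸ K, inferInstance, hK, hinf, fun k _ => ⟨by simp, fun a b => ?_⟩⟩
  obtain ⟨g, hg⟩ := (hT k).exists_smul_eq a b
  exact ⟨g, fun i => by rw [← hg]; rfl⟩

end Pool.Agent.H72.HTrE
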