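import Pool.Agent.H72.HTrC
import Pool.Agent.H72.HTrDefs

/-! `PGL(2,F)` over an infinite locally finite field has no faithful 4-transitive action. -/

namespace Pool.Agent.H72.HTrF

open Pool.Agent.H72.HTrDefs Pool.Agent.H72.HTrC Matrix
open scoped commutatorElement

/-- properties of the action on the projective line over an algebraically closed field -/
structure P1 (E X : Type*) [Group E] [MulAction E X] : Prop where
  three : ∀ {g : E} {x y z : X}, x ≠ y → x ≠ z → y ≠ z → g • x = x → g • y = y → g • z = z →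
    g = 1
  torus : ∀ {g h : E} {x y : X}, x ≠ y → g • x = x → g • y = y → h • x = x → h • y = y →
    g * h = h * g
  borel : ∀ {g1 g2 g3 g4 : E} {x : X}, g1 • x = x → g2 • x = x → g3 • x = x → g4 • x = x →
    ⁅⁅g1, g2⁆, ⁅g3, g4⁆⁆ = 1
  fixed : ∀ g : E, ∃ x : X, g • x = x

lemma P1.comap {E G X : Type*} [Group E] [Group G] [MulAction G X] (h : P1 G X) (ι : E →* G)
    (hι : Function.Injective ι) : @P1 E X _ (MulAction.compHom X ι) := by
  let _ := MulAction.compHom X ι
  refine ⟨fun a b c d e f => hι ?_, fun a b c d e => hι ?_, fun a b c d => hι ?_,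
    fun g => h.fixed (ι g)⟩
  · rw [map_one]; exact h.three a b c d e f
  · rw [map_mul, map_mul]; exact h.torus a b c d e
  · simp only [map_commutatorElement, map_one]; exact h.borel a b c d

lemma p1 (K : Type*) [Field K] [IsAlgClosed K] : P1 (PG K) (PP K) :=
  ⟨three, torus, borel, exists_fixed⟩

section
variable {E X : Type*} [Group E] [MulAction E X]

lemma P1.two (h : P1 E X) {a : E} (ha : a ≠ 1) {x y z : X} (hxy : x ≠ y) (hx : a • x = x)
    (hy : a • y = y) (hz : a • z = z) : z = x ∨ z = y := by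
  by_contra hn
  push Not at hn
  exact ha (h.three hxy hn.1.symm hn.2.symm hx hy hz)

lemma swap_or {n : E} {x y : X} (hxy : x ≠ y) (hx : n • x = x ∨ n • x = y)
    (hy : n • y = x ∨ n • y = y) : (n • x = x ∧ n • y = y) ∨ (n • x = y ∧ n • y = x) := by
  rcases hx with hx | hx <;> rcases hy with hy | hy
  · exact absurd (MulAction.injective n (hx.trans hy.symm)) hxy
  · exact Or.inl ⟨hx, hy⟩
  · exact Or.inr ⟨hx, hy⟩
  · exact absurd (MulAction.injective n (hx.trans hy.symm)) hxy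

lemma comm_fix {m n : E} {x y : X} (hm : (m • x = x ∧ m • y = y) ∨ (m • x = y ∧ m • y = x))
    (hn : (n • x = x ∧ n • y = y) ∨ (n • x = y ∧ n • y = x)) :
    ⁅m, n⁆ • x = x ∧ ⁅m, n⁆ • y = y := by
  rcases hm with ⟨a, b⟩ | ⟨a, b⟩ <;> rcases hn with ⟨c, d⟩ | ⟨c, d⟩
  all_goals
    have a' := inv_smul_eq_iff.2 a.symm
    have b' := inv_smul_eq_iff.2 b.symm
    have c' := inv_smul_eq_iff.2 c.symm
    have d' := inv_smul_eq_iff.2 d.symm
    simp only [commutatorElement_def, mul_smul]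
    constructor
  · rw [c', a', c, a]
  · rw [d', b', d, b]
  · rw [d', b', d, a]
  · rw [c', a', c, b]
  · rw [c', b', d, b]
  · rw [d', a', c, a]
  · rw [d', a', c, b]
  · rw [c', b', d, a]

theorem P1.abel (h : P1 E X) (A N : Subgroup E) (φ : E →* Equiv.Perm (Fin 4)) {a : E}
    (haA : a ∈ A) (ha : a ≠ 1) (hcomm : ∀ b ∈ A, ∀ c ∈ A, b * c = c * b)
    (hN : ∀ n ∈ N, ∀ b ∈ A, n * b * n⁻¹ ∈ A) (hker : ∀ b ∈ A, φ b = 1)
    (hsurj : ∀ σ, ∃ n ∈ N, φ n = σ) : False := by
  classical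
  obtain ⟨n1, m1, e1⟩ := hsurj (Equiv.swap 0 1)
  obtain ⟨n2, m2, e2⟩ := hsurj (Equiv.swap 1 2)
  obtain ⟨n3, m3, e3⟩ := hsurj (Equiv.swap 2 3)
  have hne : ⁅⁅n1, n2⁆, ⁅n2, n3⁆⁆ ≠ 1 := by
    intro e
    have := congrArg φ e
    simp only [map_commutatorElement, map_one, e1, e2, e3] at this
    revert this; decide
  by_cases hfix : ∃ x : X, ∀ b ∈ A, b • x = x
  · obtain ⟨x, hx⟩ := hfix
    have mv : ∀ z : X, (∀ b ∈ A, b • z = z) → ∀ n ∈ N, ∀ b ∈ A, b • n • z = n • z := by
      intro z hz n hn b hb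
      have := hz _ (hN _ (N.inv_mem hn) b hb)
      rw [inv_inv, mul_smul, mul_smul, inv_smul_eq_iff] at this
      exact this
    by_cases hall : ∀ n ∈ N, n • x = x
    · exact hne (h.borel (hall _ m1) (hall _ m2) (hall _ m2) (hall _ m3))
    push Not at hall
    obtain ⟨n0, m0, hy⟩ := hall
    have hy' := mv x hx n0 m0
    have key : ∀ n ∈ N, (n • x = x ∧ n • n0 • x = n0 • x) ∨ (n • x = n0 • x ∧ n • n0 • x = x) :=
      fun n hn => swap_or hy.symm
        (h.two ha hy.symm (hx a haA) (hy' a haA) (mv x hx n hn a haA))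
        (h.two ha hy.symm (hx a haA) (hy' a haA) (mv _ hy' n hn a haA))
    obtain ⟨c1, c2⟩ := comm_fix (key n1 m1) (key n2 m2)
    obtain ⟨c3, c4⟩ := comm_fix (key n2 m2) (key n3 m3)
    exact hne (commutatorElement_eq_one_iff_mul_comm.2 (h.torus hy.symm c1 c2 c3 c4))
  push Not at hfix
  have cf : ∀ {c d : E} {z : X}, c * d = d * c → c • z = z → c • d • z = d • z := by
    intro c d z e hz
    rw [← mul_smul, e, mul_smul, hz]
  obtain ⟨x, hx⟩ := h.fixed a
  obtain ⟨b, hbA, hxy⟩ := hfix x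
  set y := b • x with hydef
  have hb : b ≠ 1 := by rintro rfl; exact hxy (one_smul _ _)
  have hab := hcomm a haA b hbA
  have hy : a • y = y := cf hab hx
  have hby : b • y = x := by
    rcases h.two ha hxy.symm hx hy (cf hab hy) with e | e
    · exact e
    · exact absurd (MulAction.injective b (e.trans hydef)) hxy
  obtain ⟨z, hz⟩ := h.fixed b
  have hxz : x ≠ z := by rintro rfl; exact hxy hz
  have hyz : y ≠ z := by
    intro e; rw [← e, hby] at hz; exact hxy hz.symm
  have hzw : a • z ≠ z := fun e => ha (h.three hxy.symm hxz hyz hx hy e)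
  have hw : b • a • z = a • z := cf hab.symm hz
  have eq3 : ∀ c d : E, c • x = d • x → c • y = d • y → c • z = d • z → c = d := by
    intro c d h1 h2 h3
    have := h.three (g := d⁻¹ * c) hxy.symm hxz hyz (by rw [mul_smul, h1, inv_smul_smul])
      (by rw [mul_smul, h2, inv_smul_smul]) (by rw [mul_smul, h3, inv_smul_smul])
    exact (inv_mul_eq_one.1 this).symm
  have cent : ∀ c : E, a * c = c * a → b * c = c * b → c = 1 ∨ c ∈ ({a, b, a * b} : Finset E) := by
    intro c h1 h2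
    simp only [Finset.mem_insert, Finset.mem_singleton]
    rcases swap_or hxy.symm (h.two ha hxy.symm hx hy (cf h1 hx))
      (h.two ha hxy.symm hx hy (cf h1 hy)) with ⟨k1, k2⟩ | ⟨k1, k2⟩ <;>
    rcases h.two hb hzw.symm hz hw (cf h2 hz) with k3 | k3
    · exact Or.inl (h.three hxy.symm hxz hyz k1 k2 k3)
    · exact Or.inr (Or.inl (eq3 _ _ (by rw [k1, hx]) (by rw [k2, hy]) k3))
    · exact Or.inr (Or.inr (Or.inl (eq3 _ _ k1 (by rw [k2, hby]) (by rw [k3, hz]))))
    · exact Or.inr (Or.inr (Or.inr (eq3 _ _ (by rw [k1, mul_smul, ← hydef, hy])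
        (by rw [k2, mul_smul, hby, hx]) (by rw [k3, mul_smul, hz]))))
  obtain ⟨e, me, he⟩ := hsurj (finRotate 4)
  have six : ∀ c ∈ A, c ≠ 1 → c * e ^ 6 = e ^ 6 * c := by
    intro c hc hc1
    obtain ⟨i, -, j, -, hij, hf⟩ := Finset.exists_ne_map_eq_of_card_lt_of_maps_to
      (s := (Finset.univ : Finset (Fin 4))) (t := ({a, b, a * b} : Finset E))
      (f := fun i => e ^ (i : ℕ) * c * (e ^ (i : ℕ))⁻¹)
      (lt_of_le_of_lt Finset.card_le_three (by simp)) (by
        intro i _
        have hm := hN _ (N.pow_mem me i) c hc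
        refine (cent _ (hcomm _ haA _ hm) (hcomm _ hbA _ hm)).resolve_left ?_
        simpa using hc1)
    wlog hlt : i < j generalizing i j
    · exact this j i hij.symm hf.symm (lt_of_le_of_ne (not_lt.1 hlt) hij.symm)
    obtain ⟨d, hd⟩ := Nat.exists_eq_add_of_lt (show (i : ℕ) < j from hlt)
    have hc2 : Commute c (e ^ (d + 1)) := by
      rw [hd, add_assoc, pow_add] at hf
      have : c = e ^ (d + 1) * c * (e ^ (d + 1))⁻¹ := by
        apply (MulAut.conj (e ^ (i : ℕ))).injective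
        simp only [MulAut.conj_apply]
        rw [hf]; group
      exact eq_mul_inv_iff_mul_eq.1 this
    have hd3 : d + 1 ∣ 6 := by
      have : d < 3 := by have := j.2; omega
      interval_cases d <;> norm_num
    obtain ⟨k, hk⟩ := hd3
    rw [hk, pow_mul]
    exact hc2.pow_right k
  have h6 : φ (e ^ 6) = 1 := by
    rcases cent _ (six a haA ha) (six b hbA hb) with h1 | h1
    · rw [h1, map_one]
    · simp only [Finset.mem_insert, Finset.mem_singleton] at h1
      rcases h1 with h1 | h1 | h1 <;> rw [h1]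
      · exact hker _ haA
      · exact hker _ hbA
      · exact hker _ (A.mul_mem haA hbA)
  rw [map_pow, he] at h6
  revert h6; decide

theorem P1.finS4 [Finite E] (h : P1 E X) (φ : E →* Equiv.Perm (Fin 4))
    (hφ : Function.Surjective φ) : φ.ker = ⊥ := by
  by_contra hK
  obtain ⟨p, hp, hd⟩ := Nat.exists_prime_and_dvd (n := Nat.card φ.ker)
    (by rwa [Ne, Subgroup.card_eq_one])
  have : Fact p.Prime := ⟨hp⟩
  obtain ⟨P⟩ : Nonempty (Sylow p φ.ker) := inferInstance
  have hP := P.ne_bot_of_dvd_card hd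
  set Q : Subgroup E := (P : Subgroup φ.ker).map φ.ker.subtype with hQ
  have hQp : IsPGroup p Q := P.isPGroup'.map _
  have hQn : Nontrivial Q := by
    rw [Subgroup.nontrivial_iff_ne_bot, Ne, hQ, Subgroup.map_eq_bot_iff_of_injective _
      (Subgroup.subtype_injective _)]
    exact hP
  have := hQp.center_nontrivial
  obtain ⟨a, ha⟩ := exists_ne (1 : Subgroup.center Q)
  refine h.abel (Q ⊓ Subgroup.centralizer Q) (Subgroup.normalizer Q) φ (a := a.1.1) ⟨a.1.2, ?_⟩
    (fun e => ha (Subtype.ext (Subtype.ext e))) ?_ ?_ ?_ ?_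
  · intro q hq
    exact congrArg Subtype.val (Subgroup.mem_center_iff.1 a.2 ⟨q, hq⟩)
  · intro b hb c hc
    exact hc.2 b hb.1
  · intro n hn b hb
    refine ⟨(Subgroup.mem_normalizer_iff.1 hn b).1 hb.1, fun q hq => ?_⟩
    have h1 := hb.2 _ ((Subgroup.mem_normalizer_iff.1 (Subgroup.inv_mem _ hn) q).1 hq)
    calc q * (n * b * n⁻¹) = n * (n⁻¹ * q * n⁻¹⁻¹ * b) * n⁻¹ := by group
      _ = _ := by rw [h1]; group
  · rintro b ⟨⟨c, -, rfl⟩, -⟩
    exact c.2
  · intro σ
    obtain ⟨g, rfl⟩ := hφ σ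
    have hg : g ∈ Subgroup.normalizer Q ⊔ φ.ker := by
      rw [hQ, Sylow.normalizer_sup_eq_top]; trivial
    obtain ⟨n, hn, k, hk, rfl⟩ := Subgroup.mem_sup_of_normal_right.1 hg
    exact ⟨n, hn, by rw [map_mul, (MonoidHom.mem_ker.1 hk), mul_one]⟩

end

lemma emb4 {Ω : Type*} {a b c d : Ω} (h1 : a ≠ b) (h2 : a ≠ c) (h3 : a ≠ d) (h4 : b ≠ c)
    (h5 : b ≠ d) (h6 : c ≠ d) : Function.Injective ![a, b, c, d] := by
  intro i j e
  fin_cases i <;> fin_cases j <;> simp_all [eq_comm]

/-- there is no infinite sharply 4-transitive group -/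
theorem no_sharp {G Ω : Type*} [Group G] [MulAction G Ω] [Infinite Ω]
    (ht : ∀ a b : Fin 4 ↪ Ω, ∃ g : G, ∀ i, g • a i = b i)
    (hs : ∀ (a : Fin 4 ↪ Ω) (g : G), (∀ i, g • a i = a i) → g = 1) : False := by
  have ht' : ∀ {a b c d a' b' c' d' : Ω}, Function.Injective ![a, b, c, d] →
      Function.Injective ![a', b', c', d'] →
      ∃ g : G, g • a = a' ∧ g • b = b' ∧ g • c = c' ∧ g • d = d' := by
    intro a b c d a' b' c' d' h h'
    obtain ⟨g, hg⟩ := ht ⟨_, h⟩ ⟨_, h'⟩
    exact ⟨g, hg 0, hg 1, hg 2, hg 3⟩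
  have hs' : ∀ {a b c d : Ω} {g h : G}, Function.Injective ![a, b, c, d] → g • a = h • a →
      g • b = h • b → g • c = h • c → g • d = h • d → g = h := by
    intro a b c d g h hi h1 h2 h3 h4
    refine (inv_mul_eq_one.1 (hs ⟨_, hi⟩ (h⁻¹ * g) fun i => ?_)).symm
    rw [mul_smul, inv_smul_eq_iff]
    fin_cases i
    exacts [h1, h2, h3, h4]
  let e := Infinite.natEmbedding Ω
  have ne : ∀ i j, i ≠ j → e i ≠ e j := fun i j h k => h (e.injective k)
  have i0 := emb4 (ne 0 1 (by decide)) (ne 0 2 (by decide)) (ne 0 3 (by decide))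
    (ne 1 2 (by decide)) (ne 1 3 (by decide)) (ne 2 3 (by decide))
  obtain ⟨t, t0, t1, t2, t3⟩ := ht' i0 (emb4 (ne 1 0 (by decide)) (ne 1 2 (by decide))
    (ne 1 3 (by decide)) (ne 0 2 (by decide)) (ne 0 3 (by decide)) (ne 2 3 (by decide)))
  have tt : t * t = 1 := hs' i0 (by rw [mul_smul, t0, t1, one_smul])
    (by rw [mul_smul, t1, t0, one_smul]) (by rw [mul_smul, t2, t2, one_smul])
    (by rw [mul_smul, t3, t3, one_smul])
  have ttx : ∀ x : Ω, t • t • x = x := fun x => by rw [← mul_smul, tt, one_smul]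
  have hfix : {x : Ω | t • x = x}.Finite := by
    by_contra hn
    let f := Set.Infinite.natEmbedding _ hn
    have := hs ⟨fun i => f i, fun i j k => Fin.ext (f.injective (Subtype.ext k))⟩ t
      fun i => (f i).2
    rw [this, one_smul] at t0
    exact ne 0 1 (by decide) t0
  let C : Set G := {g | g * t = t * g ∧ g • e 0 = e 0 ∧ g • e 1 = e 1}
  have hC : C.Finite := by
    refine Set.Finite.of_finite_image (f := fun g : G => (g • e 2, g • e 3))
      ((hfix.prod hfix).subset ?_) ?_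
    · rintro _ ⟨g, hg, rfl⟩
      constructor
      · change t • g • e 2 = g • e 2
        rw [← mul_smul, ← hg.1, mul_smul, t2]
      · change t • g • e 3 = g • e 3
        rw [← mul_smul, ← hg.1, mul_smul, t3]
    · intro g hg h hh k
      rw [Prod.mk.injEq] at k
      exact hs' i0 (hg.2.1.trans hh.2.1.symm) (hg.2.2.trans hh.2.2.symm) k.1 k.2
  have hT : ({x : Ω | t • x = x} ∪ {e 0, e 1}).Finite := hfix.union (Set.toFinite _)
  have inj : ∀ z, z ∉ ({x : Ω | t • x = x} ∪ {e 0, e 1}) →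
      Function.Injective ![e 0, e 1, z, t • z] := by
    intro z hz
    simp only [Set.mem_union, Set.mem_ofPred_eq, Set.mem_insert_iff, Set.mem_singleton_iff,
      not_or] at hz
    refine emb4 (ne 0 1 (by decide)) (Ne.symm hz.2.1) ?_ (Ne.symm hz.2.2) ?_ (Ne.symm hz.1)
    · intro k; apply hz.2.2; rw [← ttx z, ← k, t0]
    · intro k; apply hz.2.1; rw [← ttx z, ← k, t1]
  obtain ⟨z, -, hz⟩ := Set.infinite_univ.exists_notMem_finite hT
  obtain ⟨w, -, hw⟩ := Set.infinite_univ.exists_notMem_finite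
    (hT.union (hC.image fun g => g • z))
  have hw1 : w ∉ ({x : Ω | t • x = x} ∪ {e 0, e 1}) := fun h => hw (Or.inl h)
  obtain ⟨g, g0, g1, g2, g3⟩ := ht' (inj z hz) (inj w hw1)
  refine hw (Or.inr ⟨g, ⟨hs' (inj z hz) ?_ ?_ ?_ ?_, g0, g1⟩, g2⟩)
  · rw [mul_smul, mul_smul, t0, g0, g1, t0]
  · rw [mul_smul, mul_smul, t1, g0, g1, t1]
  · rw [mul_smul, mul_smul, g3, g2]
  · rw [mul_smul, mul_smul, ttx, g3, g2, ttx]

universe u

variable {F : Type u} [Field F]

lemma locfin (h : LocFin F) {s : Set (PG F)} (hs : s.Finite) :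
    ∃ E : Subgroup (PG F), Finite E ∧ s ⊆ E := by
  classical
  choose M hM using ProjGenLinGroup.mk_surjective (n := Fin 2) (R := F)
  have hT : (⋃ g ∈ s, Set.range fun p : Fin 2 × Fin 2 => (M g).val p.1 p.2).Finite :=
    hs.biUnion fun _ _ => Set.finite_range _
  let L := Subfield.closure (hT.toFinset : Set F)
  have : Finite L := h _
  have : Finite (PG L) := Finite.of_surjective _ ProjGenLinGroup.mk_surjective
  refine ⟨(ProjGenLinGroup.map L.subtype).range,
    Finite.of_surjective _ (MonoidHom.rangeRestrict_surjective _), fun g hg => ?_⟩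
  have hL : ∀ i j, (M g).val i j ∈ L := fun i j => Subfield.subset_closure (by
    simp only [Set.Finite.coe_toFinset, Set.mem_iUnion]
    exact ⟨g, hg, (i, j), rfl⟩)
  refine ⟨ProjGenLinGroup.mk (GeneralLinearGroup.mkOfDetNeZero
    (Matrix.of fun i j => (⟨_, hL i j⟩ : L)) ?_), ?_⟩
  · intro e
    apply det_ne (M g)
    have := congrArg L.subtype e
    rw [det_fin_two] at this ⊢
    simpa using this
  · rw [ProjGenLinGroup.map_mk]
    conv_rhs => rw [← hM g]
    congr 1
    ext i j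
    rfl

theorem not_four [Infinite F] (h : LocFin F) {Ω : Type*} [MulAction (PG F) Ω]
    [FaithfulSMul (PG F) Ω] (ht : ∀ a b : Fin 4 ↪ Ω, ∃ g : PG F, ∀ i, g • a i = b i) : False := by
  have hinf : Infinite Ω := by
    by_contra hn
    rw [not_infinite_iff_finite] at hn
    have := Finite.of_injective _ (MulAction.toPerm_injective (α := PG F) (β := Ω))
    exact not_finite (PG F)
  refine no_sharp ht fun δ g hg => ?_
  choose c hc using fun σ : Equiv.Perm (Fin 4) => ht δ (σ.toEmbedding.trans δ)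
  obtain ⟨E0, hE0, hsub⟩ := locfin h ((Set.finite_range c).insert g)
  let E : Subgroup (PG F × Equiv.Perm (Fin 4)) :=
    { carrier := {p | p.1 ∈ E0 ∧ ∀ i, p.1 • δ i = δ (p.2 i)}
      one_mem' := ⟨E0.one_mem, fun i => one_smul _ _⟩
      mul_mem' := fun {p q} hp hq => ⟨E0.mul_mem hp.1 hq.1, fun i => by
        rw [Prod.fst_mul, mul_smul, hq.2, hp.2]; rfl⟩
      inv_mem' := fun {p} hp => ⟨E0.inv_mem hp.1, fun i => by
        rw [Prod.fst_inv, inv_smul_eq_iff, hp.2]; simp⟩ }
  let ι : E →* PG F := (MonoidHom.fst _ _).comp E.subtype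
  have hι : Function.Injective ι := by
    intro p q e
    refine Subtype.ext (Prod.ext e (Equiv.ext fun i => δ.injective ?_))
    rw [← p.2.2, ← q.2.2]; exact congrArg (· • δ i) e
  have : Finite E := Finite.of_injective (fun p => (⟨ι p, p.2.1⟩ : E0))
    fun p q e => hι (congrArg Subtype.val e)
  let K := AlgebraicClosure F
  let _ := MulAction.compHom (PP K) ((ProjGenLinGroup.map (algebraMap F K)).comp ι)
  have hP := (p1 K).comap ((ProjGenLinGroup.map (algebraMap F K)).comp ι)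
    ((map_inj _).comp hι)
  have hk := hP.finS4 ((MonoidHom.snd _ _).comp E.subtype)
    fun σ => ⟨⟨(c σ, σ), hsub (Or.inr ⟨σ, rfl⟩), hc σ⟩, rfl⟩
  have : (⟨(g, 1), hsub (Or.inl rfl), hg⟩ : E) ∈ ((MonoidHom.snd _ _).comp E.subtype).ker := rfl
  rw [hk, Subgroup.mem_bot] at this
  exact congrArg (fun p : E => p.1.1) this

end Pool.Agent.H72.HTrF
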