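import Pool.Agent.H72.HTrE
import Pool.Agent.H72.HTrF

namespace Pool.Agent.H72.HTrG

open Pool.Agent.H72.HTrDefs Pool.Agent.H72.HTrC

universe u

variable {F : Type u} [Field F]

lemma le_three [Infinite F] (h : LocFin F) {Ω : Type u} [MulAction (PG F) Ω]
    [FaithfulSMul (PG F) Ω] {n : ℕ} (hn : KTrans (PG F) Ω n) : n ≤ 3 := by
  by_contra hlt
  have h1 : MulAction.IsMultiplyPretransitive (PG F) Ω n := ⟨fun a b => by
    obtain ⟨g, hg⟩ := hn.2 a b
    exact ⟨g, by ext i; exact hg i⟩⟩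
  have h4 : MulAction.IsMultiplyPretransitive (PG F) Ω 4 :=
    MulAction.isMultiplyPretransitive_of_le' (n := n) (by omega) hn.1
  refine HTrF.not_four h (Ω := Ω) fun a b => ?_
  obtain ⟨g, hg⟩ := h4.exists_smul_eq a b
  exact ⟨g, fun i => by rw [← hg]; rfl⟩

lemma ktrans_three [Infinite F] : KTrans (PG F) (PP F) 3 := by
  refine ⟨by simp, fun a b => ?_⟩
  obtain ⟨g, hg⟩ := (three_trans (K := F)).exists_smul_eq a b
  exact ⟨g, fun i => by rw [← hg]; rfl⟩

end Pool.Agent.H72.HTrG
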