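import Mathlib

set_option autoImplicit false

namespace Pool.Agent.H72.InclVar

universe u

/-- The free semigroup on a countably infinite alphabet. -/
abbrev W : Type := FreeSemigroup ℕ

/-- An identical inclusion: a word `u` and a nonempty set `V` of words. -/
structure Incl where
  u : W
  V : Set W
  ne : V.Nonempty

/-- A semigroup satisfies an identical inclusion. -/
def Sat (S : Type u) [Semigroup S] (σ : Incl) : Prop :=
  ∀ φ : W →ₙ* S, ∃ v ∈ σ.V, φ σ.u = φ v

/-- The class of semigroups defined by a set of identical inclusions. -/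
def Mod (Γ : Set Incl) : Set Semigrp.{u} := {S | ∀ σ ∈ Γ, Sat S σ}

/-- Inclusive varieties. -/
def IsInclVar (M : Set Semigrp.{u}) : Prop := ∃ Γ : Set Incl, M = Mod Γ

/-- Elementary inclusive varieties. -/
def IsElem (M : Set Semigrp.{u}) : Prop :=
  ∃ Γ : Set Incl, (∀ σ ∈ Γ, σ.V.Finite) ∧ M = Mod Γ

def Q (c : Con W) : Semigrp.{u} := Semigrp.of (ULift.{u} c.Quotient)

def toQ (c : Con W) : W →ₙ* ULift.{u} c.Quotient where
  toFun w := ULift.up (w : c.Quotient)
  map_mul' _ _ := rfl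

lemma sat_Q (c : Con W) (σ : Incl) :
    Sat (Q.{u} c) σ ↔ ∀ e : W →ₙ* W, ∃ v ∈ σ.V, c (e σ.u) (e v) := by
  constructor
  · intro h e
    obtain ⟨v, hv, h⟩ := h ((toQ.{u} c).comp e)
    exact ⟨v, hv, (Con.eq c).1 (congrArg ULift.down h)⟩
  · intro h φ
    have hs : ∀ i : ℕ, ∃ w : W, toQ.{u} c w = φ (FreeSemigroup.of i) := fun i => by
      obtain ⟨w, hw⟩ := Quotient.exists_rep (ULift.down (φ (FreeSemigroup.of i)))
      exact ⟨w, congrArg ULift.up hw⟩
    choose g hg using hs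
    have hφ : φ = (toQ.{u} c).comp (FreeSemigroup.lift g) := by
      ext1
      funext i
      exact ((congrArg (toQ.{u} c) (FreeSemigroup.lift_of g i)).trans (hg i)).symm
    obtain ⟨v, hv, h⟩ := h (FreeSemigroup.lift g)
    refine ⟨v, hv, ?_⟩
    rw [hφ]
    exact congrArg ULift.up ((Con.eq c).2 h)

lemma len_le (e : W →ₙ* W) (w : W) : w.length ≤ (e w).length := by
  induction w using FreeSemigroup.recOnMul with
  | ih1 x => simp [FreeSemigroup.length]
  | ih2 x y h1 h2 => simp only [map_mul, FreeSemigroup.length_mul]; omega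

lemma len_pos (w : W) : 0 < w.length := by simp [FreeSemigroup.length]

def nil (n : ℕ) : Con W where
  r w w' := w = w' ∨ (n < w.length ∧ n < w'.length)
  iseqv := ⟨fun _ => Or.inl rfl, fun h => h.elim (fun h => Or.inl h.symm) (fun h => Or.inr h.symm),
    fun h1 h2 => by
      rcases h1 with rfl | h1
      · exact h2
      rcases h2 with rfl | h2
      · exact Or.inr h1
      exact Or.inr ⟨h1.1, h2.2⟩⟩
  mul' := by
    intro a b c d h1 h2
    rcases h1 with rfl | h1
    · rcases h2 with rfl | h2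
      · exact Or.inl rfl
      · right; simp only [FreeSemigroup.length_mul]; omega
    · right; simp only [FreeSemigroup.length_mul]; omega

def sh : W →ₙ* W := FreeSemigroup.map (· + 2)

def next (σ : Incl) : Incl where
  u := sh σ.u * FreeSemigroup.of 0
  V := {w | (∃ v ∈ σ.V, w = sh v * FreeSemigroup.of 0) ∨
    w = sh σ.u * FreeSemigroup.of 0 * FreeSemigroup.of 1}
  ne := ⟨_, Or.inr rfl⟩

@[ext] structure Ext (S : Type u) where
  a : S
  b : WithOne S
  c : Bool

instance (S : Type u) [Semigroup S] : Semigroup (Ext S) where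
  mul s t := ⟨s.a * t.a, (s.a : WithOne S) * t.b, t.c⟩
  mul_assoc s t r := by
    apply Ext.ext
    · exact mul_assoc _ _ _
    · show ((s.a * t.a : S) : WithOne S) * r.b = (s.a : WithOne S) * ((t.a : WithOne S) * r.b)
      rw [WithOne.coe_mul, mul_assoc]
    · rfl

lemma mul_def {S : Type u} [Semigroup S] (s t : Ext S) :
    s * t = ⟨s.a * t.a, (s.a : WithOne S) * t.b, t.c⟩ := rfl

def rho (S : Type u) [Semigroup S] : Ext S →ₙ* S where
  toFun := Ext.a
  map_mul' _ _ := rfl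

lemma ext_sat {S : Type u} [Semigroup S] {σ : Incl} (h : Sat S σ) : Sat (Ext S) (next σ) := by
  intro ψ
  obtain ⟨v, hv, h⟩ := h ((rho S).comp (ψ.comp sh))
  refine ⟨_, Or.inl ⟨v, hv, rfl⟩, ?_⟩
  have h' : (ψ (sh σ.u)).a = (ψ (sh v)).a := h
  simp only [next, map_mul, mul_def, h']

def psi {S : Type u} [Semigroup S] (φ : W →ₙ* S) : W →ₙ* Ext S :=
  FreeSemigroup.lift fun i =>
    ⟨φ (FreeSemigroup.of (i - 2)), 1, decide (i = 0)⟩

lemma psi_sh {S : Type u} [Semigroup S] (φ : W →ₙ* S) (w : W) : (psi φ (sh w)).a = φ w := by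
  have : (rho S).comp ((psi φ).comp sh) = φ := by
    ext1
    funext i
    simp [psi, sh, rho]
  exact DFunLike.congr_fun this w

theorem no_max (M : Set Semigrp.{u}) (hM : IsInclVar M) (hn : ¬ IsElem M) :
    ∃ M' : Set Semigrp.{u}, IsInclVar M' ∧ ¬ IsElem M' ∧ M ⊂ M' := by
  classical
  obtain ⟨Γ, rfl⟩ := hM
  have key : ∃ σ ∈ Γ, ∀ (V0 : Set W) (h0 : V0.Nonempty), V0 ⊆ σ.V → V0.Finite →
      ∃ S ∈ Mod.{u} Γ, ¬ Sat S ⟨σ.u, V0, h0⟩ := by
    by_contra hc
    push Not at hc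
    choose! V0 h0 hsub hfin hsat using hc
    refine hn ⟨{τ | ∃ σ, ∃ h : σ ∈ Γ, τ = ⟨σ.u, V0 σ, h0 σ h⟩}, ?_, ?_⟩
    · rintro _ ⟨σ, h, rfl⟩; exact hfin σ h
    · ext S
      constructor
      · rintro hS _ ⟨σ, h, rfl⟩; exact hsat σ h S hS
      · intro hS σ h φ
        obtain ⟨v, hv, e⟩ := hS _ ⟨σ, h, rfl⟩ φ
        exact ⟨v, hsub σ h hv, e⟩
  obtain ⟨σ, hσ, key⟩ := key
  have hu : σ.u ∉ σ.V := fun hu => by
    obtain ⟨S, -, hS⟩ := key {σ.u} (Set.singleton_nonempty _) (by simpa using hu)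
      (Set.finite_singleton _)
    exact hS fun φ => ⟨σ.u, rfl, rfl⟩
  refine ⟨Mod {next σ}, ⟨_, rfl⟩, ?_, ?_, ?_⟩
  · rintro ⟨Γ1, hfin, hΓ⟩
    obtain ⟨v0, hv0⟩ := σ.ne
    have hA : ∀ A : Finset W, ∃ S ∈ Mod.{u} Γ, ∃ φ : W →ₙ* S, ∀ v ∈ σ.V, v ∈ A → φ σ.u ≠ φ v := by
      intro A
      obtain ⟨S, hS, h⟩ := key (insert v0 ((A : Set W) ∩ σ.V)) (Set.insert_nonempty _ _)
        (Set.insert_subset hv0 Set.inter_subset_right)
        ((A.finite_toSet.inter_of_left _).insert _)
      unfold Sat at h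
      push Not at h
      obtain ⟨φ, h⟩ := h
      exact ⟨S, hS, φ, fun v hv hvA => h v (Or.inr ⟨hvA, hv⟩)⟩
    choose S hS φ hφ using hA
    let U : Ultrafilter (Finset W) := Ultrafilter.of Filter.atTop
    let c : Con W :=
      { r := fun w w' => ∀ᶠ A in (U : Filter (Finset W)), psi (φ A) w = psi (φ A) w'
        iseqv := ⟨fun _ => Filter.Eventually.of_forall fun _ => rfl,
          fun h => h.mono fun _ h => h.symm,
          fun h1 h2 => (h1.and h2).mono fun _ h => h.1.trans h.2⟩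
        mul' := fun h1 h2 => (h1.and h2).mono fun _ h => by rw [map_mul, map_mul, h.1, h.2] }
    have hT : ∀ A, Semigrp.of (Ext (S A)) ∈ Mod.{u} Γ1 := fun A => by
      rw [← hΓ]
      rintro _ rfl
      exact ext_sat (hS A σ hσ)
    have hQ : Q.{u} c ∈ Mod.{u} Γ1 := fun τ hτ => (sat_Q c τ).2 fun e =>
      (Ultrafilter.eventually_exists_mem_iff (hfin τ hτ)).1
        (Filter.Eventually.of_forall fun A => hT A τ hτ ((psi (φ A)).comp e))
    rw [← hΓ] at hQ
    obtain ⟨w, hw, h⟩ := (sat_Q c _).1 (hQ _ rfl) (MulHom.id _)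
    have h : ∀ᶠ A in (U : Filter (Finset W)), psi (φ A) (next σ).u = psi (φ A) w := h
    rcases hw with ⟨v, hv, rfl⟩ | rfl
    · have hv' : ∀ᶠ A in (U : Filter (Finset W)), v ∈ A :=
        Ultrafilter.of_le _ ((Filter.eventually_ge_atTop {v}).mono fun A hA => by simpa using hA)
      obtain ⟨A, h1, h2⟩ := (h.and hv').exists
      have := congrArg Ext.b h1
      simp only [next, map_mul, mul_def, psi_sh] at this
      simp only [psi, FreeSemigroup.lift_of, mul_one, WithOne.coe_inj] at this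
      exact hφ A v hv h2 this
    · obtain ⟨A, h1⟩ := h.exists
      have := congrArg Ext.c h1
      simp [next, map_mul, mul_def, psi] at this
  · intro S hS
    rintro _ rfl ψ
    obtain ⟨v, hv, h⟩ := hS σ hσ (ψ.comp sh)
    refine ⟨_, Or.inl ⟨v, hv, rfl⟩, ?_⟩
    have h' : ψ (sh σ.u) = ψ (sh v) := h
    simp only [next, map_mul, h']
  · intro h
    have h1 : Q.{u} (nil σ.u.length) ∈ Mod.{u} {next σ} := by
      rintro _ rfl
      refine (sat_Q _ _).2 fun e => ⟨_, Or.inr rfl, Or.inr ?_⟩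
      have a1 := len_le (e.comp sh) σ.u
      have a2 := len_pos (e (FreeSemigroup.of 0))
      simp only [MulHom.comp_apply] at a1
      simp only [next, map_mul, FreeSemigroup.length_mul]
      omega
    obtain ⟨v, hv, h2⟩ := (sat_Q _ _).1 (h h1 σ hσ) (MulHom.id _)
    rcases h2 with h2 | h2
    · exact hu ((show σ.u = v from h2) ▸ hv)
    · exact lt_irrefl _ h2.1

end Pool.Agent.H72.InclVar
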