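import Pool.Agent.H72.KzDefs

set_option autoImplicit false
set_option linter.unusedVariables false
set_option linter.unusedSimpArgs false
set_option linter.unnecessarySeqFocus false
set_option linter.unusedSectionVars false

namespace Pool.Agent.H72.Kz

open Finsupp
open Matrix hiding single single_apply

variable {k : Type} [Field k] {D : Type} [CommRing D] [Algebra k D] {α : Type} [Fintype α]
  [LinearOrder α]

noncomputable def mon (y : α → D) (m : α →₀ ℕ) : D := m.prod fun a e => y a ^ e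

theorem mon_add (y : α → D) (m n : α →₀ ℕ) : mon y (m + n) = mon y m * mon y n :=
  prod_add_index' (by simp) fun a => pow_add _

@[simp] theorem mon_single (y : α → D) (a : α) : mon y (single a 1) = y a := by simp [mon]

@[simp] theorem mon_zero (y : α → D) : mon y 0 = 1 := by simp [mon]

def Std (forb : α → α → Prop) (m : α →₀ ℕ) : Prop :=
  ∀ a b, forb a b → ¬ (single a 1 + single b 1 ≤ m)

/-- a quadratic Groebner basis -/
structure GB (k : Type) [Field k] [Algebra k D] (y : α → D) (mo : MonomialOrder.{0, 0} α)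
    (forb : α → α → Prop) : Prop where
  symm : ∀ a b, forb a b → forb b a
  red : ∀ a b, forb a b → y a * y b ∈ Submodule.span k
    (mon y '' {m | mo.toSyn m < mo.toSyn (single a 1 + single b 1) ∧ degree m = 2})
  ind : LinearIndepOn k (mon y) {m | Std forb m}
  gen : Submodule.span k (Set.range (mon y)) = ⊤

variable {y : α → D} {mo : MonomialOrder.{0, 0} α} {forb : α → α → Prop}

theorem mon_red (h : GB k y mo forb) (u : α →₀ ℕ) : mon y u ∈ Submodule.span k
    (mon y '' {m | Std forb m ∧ mo.toSyn m ≤ mo.toSyn u ∧ degree m = degree u}) := by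
  induction hz : mo.toSyn u using WellFoundedLT.induction generalizing u with
  | ind z ih =>
    subst hz
    by_cases hs : Std forb u
    · exact Submodule.subset_span ⟨u, ⟨hs, le_rfl, rfl⟩, rfl⟩
    · simp only [Std, not_forall, not_not] at hs
      obtain ⟨a, b, hab, hle⟩ := hs
      obtain ⟨w, rfl⟩ := exists_add_of_le hle
      rw [mon_add, mon_add, mon_single, mon_single]
      have := h.red a b hab
      generalize y a * y b = p at this
      induction this using Submodule.span_induction with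
      | mem p hp =>
        obtain ⟨m, ⟨h1, h2⟩, rfl⟩ := hp
        have h3 : mo.toSyn (m + w) < mo.toSyn (single a 1 + single b 1 + w) := by
          rw [map_add, map_add _ _ w]; exact add_lt_add_left h1 _
        rw [← mon_add]
        refine Submodule.span_mono (Set.image_mono ?_) (ih _ h3 _ rfl)
        rintro n ⟨n1, n2, n3⟩
        exact ⟨n1, n2.trans h3.le, by simp [n3, h2]⟩
      | zero => simp
      | add p q _ _ hp hq => rw [add_mul]; exact add_mem hp hq
      | smul r p _ hp => rw [smul_mul_assoc]; exact Submodule.smul_mem _ _ hp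

section level
variable {J : Type} [Fintype J] [LinearOrder J]

noncomputable def key (mo : MonomialOrder.{0, 0} α) (μ : J → α →₀ ℕ) (s : (α →₀ ℕ) × J) : mo.syn ×ₗ J :=
  toLex (mo.toSyn (s.1 + μ s.2), s.2)

theorem key_lt {μ : J → α →₀ ℕ} {s t : (α →₀ ℕ) × J} : key mo μ s < key mo μ t ↔
    mo.toSyn (s.1 + μ s.2) < mo.toSyn (t.1 + μ t.2) ∨ (s.1 + μ s.2 = t.1 + μ t.2 ∧ s.2 < t.2) := by
  simp only [key, Prod.Lex.toLex_lt_toLex, EmbeddingLike.apply_eq_iff_eq]

theorem key_inj {μ : J → α →₀ ℕ} {s t : (α →₀ ℕ) × J} (h : key mo μ s = key mo μ t) : s = t := by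
  obtain ⟨u, j⟩ := s
  obtain ⟨u', j'⟩ := t
  simp only [key, toLex_inj, Prod.mk.injEq, EmbeddingLike.apply_eq_iff_eq] at h
  obtain ⟨h1, rfl⟩ := h
  rw [add_right_cancel h1]

theorem key_add {μ : J → α →₀ ℕ} {s t : (α →₀ ℕ) × J} (m : α →₀ ℕ) (h : key mo μ s < key mo μ t) :
    key mo μ (m + s.1, s.2) < key mo μ (m + t.1, t.2) := by
  rw [key_lt] at h ⊢
  simp only [add_assoc, map_add mo.toSyn m, add_lt_add_iff_left, add_right_inj]
  exact h

noncomputable def TT (y : α → D) (s : (α →₀ ℕ) × J) : J → D := Pi.single s.2 (mon y s.1)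

abbrev Sp (k : Type) [Field k] [Algebra k D] (y : α → D) (P : Set ((α →₀ ℕ) × J)) :
    Submodule k (J → D) := Submodule.span k (TT y '' P)

theorem mul_Sp {P Q : Set ((α →₀ ℕ) × J)} (m : α →₀ ℕ) (h : ∀ s ∈ P, (m + s.1, s.2) ∈ Q) {f : J → D}
    (hf : f ∈ Sp k y P) : mon y m • f ∈ Sp k y Q := by
  induction hf using Submodule.span_induction with
  | mem f hf =>
    obtain ⟨s, hs, rfl⟩ := hf
    refine Submodule.subset_span ⟨_, h s hs, ?_⟩
    simp only [TT, mon_add, ← smul_eq_mul, Pi.single_smul']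
  | zero => simp
  | add p q _ _ hp hq => rw [smul_add]; exact add_mem hp hq
  | smul r p _ hp => rw [smul_comm]; exact Submodule.smul_mem _ _ hp

theorem single_Sp (j : J) {P : Set (α →₀ ℕ)} {a : D} (ha : a ∈ Submodule.span k (mon y '' P)) :
    (Pi.single j a : J → D) ∈ Sp k y {s | s.1 ∈ P ∧ s.2 = j} := by
  induction ha using Submodule.span_induction with
  | mem f hf => obtain ⟨s, hs, rfl⟩ := hf; exact Submodule.subset_span ⟨(s, j), ⟨hs, rfl⟩, rfl⟩
  | zero => simp
  | add p q _ _ hp hq => rw [Pi.single_add]; exact add_mem hp hq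
  | smul r p _ hp => rw [Pi.single_smul']; exact Submodule.smul_mem _ _ hp

theorem Sp_apply (j : J) {P : Set ((α →₀ ℕ) × J)} {f : J → D} (hf : f ∈ Sp k y P) :
    f j ∈ Submodule.span k (mon y '' {m | (m, j) ∈ P}) := by
  induction hf using Submodule.span_induction with
  | mem f hf =>
    obtain ⟨⟨m, j'⟩, hs, rfl⟩ := hf
    by_cases hj : j = j'
    · subst hj; exact Submodule.subset_span ⟨m, hs, by simp [TT]⟩
    · simp [TT, hj]
  | zero => simp
  | add p q _ _ hp hq => exact add_mem hp hq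
  | smul r p _ hp => exact Submodule.smul_mem _ _ hp

theorem Sp_std (h : GB k y mo forb) (μ : J → α →₀ ℕ) {P : Set ((α →₀ ℕ) × J)}
    (hP : ∀ s ∈ P, ∀ t, key mo μ t ≤ key mo μ s → degree t.1 = degree s.1 → t ∈ P) :
    Sp k y P ≤ Sp k y {s | s ∈ P ∧ Std forb s.1} := by
  rw [Submodule.span_le]
  rintro _ ⟨s, hs, rfl⟩
  refine Submodule.span_mono (Set.image_mono ?_) (single_Sp s.2 (mon_red h s.1))
  rintro ⟨m, j⟩ ⟨⟨h1, h2, h3⟩, rfl⟩
  refine ⟨hP s hs _ ?_ h3, h1⟩
  rcases h2.lt_or_eq with h2 | h2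
  · exact (key_lt.2 (Or.inl (by rw [map_add, map_add]; exact add_lt_add_left h2 _))).le
  · obtain rfl : m = s.1 := mo.toSyn.injective h2
    exact le_rfl

theorem lead (h : GB k y mo forb) (μ : J → α →₀ ℕ) {P : Set ((α →₀ ℕ) × J)}
    (hP : ∀ s ∈ P, ∀ t, key mo μ t ≤ key mo μ s → degree t.1 = degree s.1 → t ∈ P) {f : J → D}
    (hf : f ∈ Sp k y P) : f = 0 ∨ ∃ t ∈ P, Std forb t.1 ∧ ∃ r : k, r ≠ 0 ∧
      TT y t - r • f ∈ Sp k y {s | s ∈ P ∧ key mo μ s < key mo μ t} := by
  classical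
  obtain ⟨l, hl, rfl⟩ := (mem_span_image_iff_linearCombination k).1 (Sp_std h μ hP hf)
  by_cases l0 : l = 0
  · left; simp [l0]
  right
  obtain ⟨t, ht, hmax⟩ := l.support.exists_max_image (key mo μ) (support_nonempty_iff.2 l0)
  have t0 := mem_support_iff.1 ht
  refine ⟨t, (hl ht).1, (hl ht).2, (l t)⁻¹, inv_ne_zero t0, ?_⟩
  rw [linearCombination_apply, Finsupp.sum, ← Finset.add_sum_erase _ _ ht, smul_add, smul_smul,
    inv_mul_cancel₀ t0, one_smul, sub_add_cancel_left]
  refine neg_mem (Submodule.smul_mem _ _ (Submodule.sum_mem _ fun s hs => Submodule.smul_mem _ _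
    (Submodule.subset_span ⟨s, ⟨(hl (Finset.mem_of_mem_erase hs)).1, ?_⟩, rfl⟩)))
  exact (hmax s (Finset.mem_of_mem_erase hs)).lt_of_ne fun e => Finset.ne_of_mem_erase hs (key_inj e)

theorem indep (h : GB k y mo forb) (μ : J → α →₀ ℕ) {t : (α →₀ ℕ) × J} (ht : Std forb t.1) :
    TT y t ∉ Sp k y {s | key mo μ s < key mo μ t} := fun hm => by
  have := Sp_apply t.2 (Sp_std h μ (fun s hs t' h1 _ => h1.trans_lt hs) hm)
  simp only [TT, Pi.single_eq_same] at this
  refine h.ind.notMem_span ht (Submodule.span_mono (Set.image_mono ?_) this)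
  rintro m ⟨h1, h2⟩
  refine ⟨h2, ?_⟩
  rintro rfl
  exact lt_irrefl (key mo μ t) h1

theorem Sp_univ (h : GB k y mo forb) (f : J → D) : f ∈ Sp k y Set.univ := by
  rw [← Finset.univ_sum_single f]
  refine Submodule.sum_mem _ fun j _ => Submodule.span_mono (Set.image_mono (Set.subset_univ _))
    (single_Sp (P := Set.univ) j ?_)
  rw [Set.image_univ, h.gen]; trivial

end level

structure Lev (k : Type) [Field k] [Algebra k D] (y : α → D) (mo : MonomialOrder.{0, 0} α)
    (forb : α → α → Prop) where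
  J : Type
  [fin : Fintype J]
  [ord : LinearOrder J]
  μ : J → α →₀ ℕ
  N : Submodule D (J → D)
  S : α × J → Prop
  ha : ∀ p, S p → ∃ v ∈ N, TT y (single p.1 1, p.2) - v ∈
    Sp k y {s | key mo μ s < key mo μ (single p.1 1, p.2) ∧ degree s.1 = 1}
  hb : ∀ t, Std forb t.1 → ∀ f ∈ N, TT y t - f ∈ Sp k y {s | key mo μ s < key mo μ t} →
    ∃ c, S (c, t.2) ∧ t.1 c ≠ 0

attribute [instance] Lev.fin Lev.ord

namespace Lev
variable (L : Lev k y mo forb)

def J' : Type := {p : α × L.J // L.S p}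

noncomputable instance : Fintype L.J' := by classical exact Subtype.fintype _

noncomputable instance : LinearOrder L.J' :=
  LinearOrder.lift' (fun p => toLex (p.1.2, p.1.1)) fun p q h => by
    simp only [toLex_inj, Prod.mk.injEq] at h
    exact Subtype.ext (Prod.ext h.2 h.1)

noncomputable def μ' (p : L.J') : α →₀ ℕ := single p.1.1 1 + L.μ p.1.2

noncomputable def d : Matrix L.J' L.J D := fun p => (L.ha p.1 p.2).choose

noncomputable def φ (s : (α →₀ ℕ) × L.J') : (α →₀ ℕ) × L.J := (s.1 + single s.2.1.1 1, s.2.1.2)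

theorem d_mem (p : L.J') : L.d p ∈ L.N := (L.ha p.1 p.2).choose_spec.1

theorem vm_T (s : (α →₀ ℕ) × L.J') : TT y s ᵥ* L.d = mon y s.1 • L.d s.2 := by
  ext j; simp [TT, single_vecMul]

theorem d_spec (p : L.J') : TT y (single p.1.1 1, p.1.2) - L.d p ∈
    Sp k y {s | key mo L.μ s < key mo L.μ (single p.1.1 1, p.1.2) ∧ degree s.1 = 1} :=
  (L.ha p.1 p.2).choose_spec.2

theorem d_T (s : (α →₀ ℕ) × L.J') : TT y (L.φ s) - TT y s ᵥ* L.d ∈
    Sp k y {t | key mo L.μ t < key mo L.μ (L.φ s) ∧ degree t.1 = degree s.1 + 1} := by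
  have e : TT y (L.φ s) = mon y s.1 • TT y (single s.2.1.1 1, s.2.1.2) := by
    simp only [TT, φ, mon_add, ← smul_eq_mul, Pi.single_smul']
  rw [e, L.vm_T, ← smul_sub]
  refine mul_Sp s.1 (fun t ht => ?_) (L.d_spec s.2)
  refine And.intro ?_ ?_
  · have := key_add s.1 ht.1
    exact this
  · show degree (s.1 + t.1) = _
    rw [map_add, ht.2]

theorem vm_mem (g : L.J' → D) : g ᵥ* L.d ∈ L.N := by
  rw [vecMul_eq_sum]
  exact Submodule.sum_mem _ fun p _ => Submodule.smul_mem _ _ (L.d_mem p)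

theorem lt_of_φ {s t : (α →₀ ℕ) × L.J'} (h : key mo L.μ (L.φ s) < key mo L.μ (L.φ t)) :
    key mo L.μ' s < key mo L.μ' t := by
  rw [key_lt] at h ⊢
  simp only [φ, μ', ← add_assoc] at h ⊢
  exact h.imp id fun h => ⟨h.1, Prod.Lex.toLex_lt_toLex.2 (Or.inl h.2)⟩

theorem φ_of_lt {s t : (α →₀ ℕ) × L.J'} (h : key mo L.μ' s < key mo L.μ' t) :
    key mo L.μ (L.φ s) < key mo L.μ (L.φ t) ∨
      (L.φ s = L.φ t ∧ s.2.1.2 = t.2.1.2 ∧ s.2.1.1 < t.2.1.1) := by
  rw [key_lt] at h ⊢
  simp only [φ, μ', ← add_assoc] at h ⊢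
  rcases h with h | ⟨h, h'⟩
  · exact Or.inl (Or.inl h)
  · rcases Prod.Lex.toLex_lt_toLex.1 h' with h' | ⟨h1, h2⟩
    · exact Or.inl (Or.inr ⟨h, h'⟩)
    · simp only at h1 h2
      rw [h1] at h
      exact Or.inr ⟨Prod.ext (add_right_cancel h) h1, h1, h2⟩

theorem gen (h : GB k y mo forb) (q : ℕ → Prop) (z : WithTop (mo.syn ×ₗ L.J)) : ∀ f ∈ L.N,
    f ∈ Sp k y {s | ↑(key mo L.μ s) < z ∧ q (degree s.1)} →
    ∃ g ∈ Sp k y {s | ↑(key mo L.μ (L.φ s)) < z ∧ q (degree s.1 + 1)}, g ᵥ* L.d = f := by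
  induction z using WellFoundedLT.induction with
  | ind z ih =>
    intro f hN hf
    rcases lead h L.μ (P := {s | ↑(key mo L.μ s) < z ∧ q (degree s.1)})
      (fun s hs t h1 h2 => ⟨(WithTop.coe_le_coe.2 h1).trans_lt hs.1, h2 ▸ hs.2⟩) hf with
      rfl | ⟨t, ht, hs, r, hr, hl⟩
    · exact ⟨0, zero_mem _, zero_vecMul _⟩
    obtain ⟨c, hc, hu⟩ := L.hb t hs (r • f) (L.N.smul_of_tower_mem r hN)
      (Submodule.span_mono (Set.image_mono fun s hs => hs.2) hl)
    obtain ⟨w, hw⟩ : ∃ w, t.1 = w + single c 1 :=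
      ⟨t.1 - single c 1, (tsub_add_cancel_of_le (single_le_iff.2 (Nat.pos_of_ne_zero hu))).symm⟩
    let s' : (α →₀ ℕ) × L.J' := (w, ⟨(c, t.2), hc⟩)
    have e : L.φ s' = t := Prod.ext hw.symm rfl
    have hd : degree t.1 = degree w + 1 := by simp [hw]
    have h1 := L.d_T s'
    rw [e] at h1
    obtain ⟨g, hg, hg'⟩ := ih _ ht.1 (TT y s' ᵥ* L.d - r • f)
      (sub_mem (L.vm_mem _) (L.N.smul_of_tower_mem r hN)) (by
        rw [← sub_sub_sub_cancel_left _ _ (TT y t)]
        refine sub_mem (Submodule.span_mono (Set.image_mono fun s hs => ?_) hl)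
          (Submodule.span_mono (Set.image_mono fun s hs => ?_) h1)
        · exact ⟨WithTop.coe_lt_coe.2 hs.2, hs.1.2⟩
        · exact ⟨WithTop.coe_lt_coe.2 hs.1, by rw [hs.2, ← hd]; exact ht.2⟩)
    refine ⟨r⁻¹ • (TT y s' - g), Submodule.smul_mem _ _ (sub_mem (Submodule.subset_span
      ⟨s', ⟨by rw [e]; exact ht.1, hd ▸ ht.2⟩, rfl⟩)
      (Submodule.span_mono (Set.image_mono fun s hs => And.intro (hs.1.trans ht.1) hs.2) hg)), ?_⟩
    rw [smul_vecMul, sub_vecMul, hg', sub_sub_cancel, smul_smul, inv_mul_cancel₀ hr, one_smul]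

theorem range_d (h : GB k y mo forb) (f : L.J → D) : (∃ g, g ᵥ* L.d = f) ↔ f ∈ L.N := by
  refine ⟨fun ⟨g, hg⟩ => hg ▸ L.vm_mem g, fun hf => ?_⟩
  obtain ⟨g, -, hg⟩ := L.gen h (fun _ => True) ⊤ f hf (by simpa using Sp_univ h f)
  exact ⟨g, hg⟩

theorem d_lin (p : L.J') (j : L.J) : L.d p j ∈ Submodule.span k (Set.range y) := by
  have h1 : L.d p ∈ Sp k y {s | degree s.1 = 1} := by
    have := L.d_spec p
    rw [← sub_sub_cancel (TT y (single p.1.1 1, p.1.2)) (L.d p)]
    exact sub_mem (Submodule.subset_span ⟨_, by simp, rfl⟩)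
      (Submodule.span_mono (Set.image_mono fun s hs => hs.2) this)
  refine Submodule.span_mono ?_ (Sp_apply j h1)
  rintro _ ⟨m, hm, rfl⟩
  obtain ⟨a, rfl⟩ : m ∈ Set.range fun a : α => single a 1 := by rw [range_single_one]; exact hm
  exact ⟨a, by simp⟩

noncomputable def step (h : GB k y mo forb) : Lev k y mo forb where
  J := L.J'
  μ := L.μ'
  N := LinearMap.ker L.d.vecMulLinear
  S q := forb q.1 q.2.1.1 ∨ (L.S (q.1, q.2.1.2) ∧ q.1 < q.2.1.1)
  ha := by
    rintro ⟨c', p⟩ hq
    have h1 := L.d_T (single c' 1, p)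
    have key1 : ∀ e ∈ Sp k y {s | key mo L.μ' s < key mo L.μ' (single c' 1, p) ∧ degree s.1 = 1},
        (TT y (single c' 1, p) - e) ᵥ* L.d ∈
          Sp k y {s | key mo L.μ s < key mo L.μ (L.φ (single c' 1, p)) ∧ degree s.1 = 2} →
        ∃ v ∈ LinearMap.ker L.d.vecMulLinear, TT y (single c' 1, p) - v ∈
          Sp k y {s | key mo L.μ' s < key mo L.μ' (single c' 1, p) ∧ degree s.1 = 1} := by
      intro e he hm
      obtain ⟨g, hg, hg'⟩ := L.gen h (· = 2) (key mo L.μ (L.φ (single c' 1, p))) _ (L.vm_mem _)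
        (by simpa using hm)
      refine ⟨TT y (single c' 1, p) - e - g, ?_, ?_⟩
      · show _ ᵥ* L.d = 0
        rw [sub_vecMul, hg', sub_self]
      · rw [sub_sub, sub_sub_cancel]
        exact add_mem he (Submodule.span_mono (Set.image_mono fun s hs =>
          And.intro (L.lt_of_φ (WithTop.coe_lt_coe.1 hs.1)) (by simpa using hs.2)) hg)
    rcases hq with hq | ⟨hq, hlt⟩
    · refine key1 0 (zero_mem _) ?_
      rw [sub_zero, ← sub_sub_cancel (TT y (L.φ (single c' 1, p))) (_ ᵥ* _)]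
      refine sub_mem ?_ (by simpa using h1)
      have := single_Sp p.1.2 (h.red _ _ hq)
      rw [← mon_single y c', ← mon_single y p.1.1, ← mon_add] at this
      refine Submodule.span_mono (Set.image_mono ?_) this
      rintro ⟨m, j⟩ ⟨⟨h2, h3⟩, rfl⟩
      exact And.intro (key_lt.2 (Or.inl (by rw [map_add, map_add _ _ (L.μ _)]; exact add_lt_add_left h2 _))) h3
    · let s2 : (α →₀ ℕ) × L.J' := (single p.1.1 1, ⟨(c', p.1.2), hq⟩)
      have e : L.φ s2 = L.φ (single c' 1, p) := Prod.ext (add_comm _ _) rfl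
      have h2 := L.d_T s2
      rw [e] at h2
      refine key1 (TT y s2) (Submodule.subset_span ⟨s2, ⟨key_lt.2 (Or.inr ⟨?_, ?_⟩), by simp [s2]⟩, rfl⟩) ?_
      · simp only [s2, μ']; abel
      · exact Prod.Lex.toLex_lt_toLex.2 (Or.inr ⟨rfl, hlt⟩)
      · rw [sub_vecMul, ← sub_sub_sub_cancel_left _ _ (TT y (L.φ (single c' 1, p)))]
        exact sub_mem (by simpa [s2] using h2) (by simpa using h1)
  hb := by
    rintro ⟨u, p⟩ hu f hf hl
    by_contra hn
    simp only [not_exists, not_and, not_not] at hn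
    have hstd : Std forb (L.φ (u, p)).1 := fun a b hab hle => by
      have hle' : ∀ x, (single a 1 : α →₀ ℕ) x + (single b 1 : α →₀ ℕ) x ≤
          u x + (single p.1.1 1 : α →₀ ℕ) x := hle
      by_cases ha : a = p.1.1
      · have := hle' b
        rw [hn b (Or.inl (ha ▸ h.symm _ _ hab)), ha] at this
        simp at this
      by_cases hb : b = p.1.1
      · have := hle' a
        rw [hn a (Or.inl (hb ▸ hab)), hb] at this
        simp at this
      refine hu a b hab fun x => ?_
      have := hle' x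
      by_cases hx : p.1.1 = x
      · subst hx; simp [single_apply, ha, hb]
      · simpa [single_apply, hx] using this
    refine indep h L.μ hstd ?_
    have h1 : ∀ e ∈ Sp k y {s | key mo L.μ' s < key mo L.μ' (u, p)},
        e ᵥ* L.d ∈ Sp k y {s | key mo L.μ s < key mo L.μ (L.φ (u, p))} := fun e he => by
      induction he using Submodule.span_induction with
      | mem e he =>
        obtain ⟨s, hs, rfl⟩ := he
        rcases L.φ_of_lt hs with h2 | ⟨h2, h3, h4⟩
        · rw [← sub_sub_cancel (TT y (L.φ s)) (_ ᵥ* _)]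
          exact sub_mem (Submodule.subset_span ⟨_, h2, rfl⟩)
            (Submodule.span_mono (Set.image_mono fun t ht => ht.1.trans h2) (L.d_T s))
        · have h5 := hn s.2.1.1 (Or.inr ⟨h3 ▸ s.2.2, h4⟩)
          have := DFunLike.congr_fun (congrArg Prod.fst h2) s.2.1.1
          simp [φ, h5, single_apply, h4.ne'] at this
      | zero => simp
      | add p q _ _ hp hq => rw [add_vecMul]; exact add_mem hp hq
      | smul r p _ hp => rw [smul_vecMul]; exact Submodule.smul_mem _ _ hp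
    have h2 := h1 _ hl
    have hf' : f ᵥ* L.d = 0 := hf
    rw [sub_vecMul, hf', sub_zero] at h2
    rw [← sub_add_cancel (TT y (L.φ (u, p))) (TT y (u, p) ᵥ* L.d)]
    exact add_mem (Submodule.span_mono (Set.image_mono fun t ht => ht.1) (L.d_T (u, p))) h2

end Lev

theorem one_notMem (h : GB k y mo forb) : (1 : D) ∉ Ideal.span (Set.range y) := fun h1 => by
  have s0 : Std forb 0 := fun a b _ hle => by simpa using hle a
  have : ∀ a ∈ Ideal.span (Set.range y), a ∈ Submodule.span k (mon y '' ({m | Std forb m} \ {0})) := by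
    intro a ha
    obtain ⟨g, rfl⟩ := Ideal.mem_span_range_iff_exists_fun.1 ha
    refine Submodule.sum_mem _ fun c _ => ?_
    have : g c ∈ Submodule.span k (Set.range (mon y)) := h.gen ▸ Submodule.mem_top
    generalize g c = b at this
    induction this using Submodule.span_induction with
    | mem b hb =>
      obtain ⟨m, rfl⟩ := hb
      rw [← mon_single y c, ← mon_add]
      refine Submodule.span_mono (Set.image_mono ?_) (mon_red h _)
      rintro n ⟨h1, -, h2⟩
      refine ⟨h1, ?_⟩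
      rintro rfl
      simp at h2
    | zero => simp
    | add p q _ _ hp hq => rw [add_mul]; exact add_mem hp hq
    | smul r p _ hp => rw [smul_mul_assoc]; exact Submodule.smul_mem _ _ hp
  exact h.ind.notMem_span s0 (by simpa using this 1 h1)

noncomputable def lev0 (h : GB k y mo forb) : Lev k y mo forb where
  J := Fin 1
  μ := 0
  N := Submodule.pi Set.univ fun _ => Ideal.span (Set.range y)
  S _ := True
  ha p _ := ⟨TT y (single p.1 1, p.2), fun j _ => by
    rw [Subsingleton.elim j p.2]; simpa [TT] using Ideal.subset_span (Set.mem_range_self p.1), by simp⟩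
  hb := by
    rintro ⟨u, j⟩ hu f hf hl
    by_contra hn
    have u0 : u = 0 := Finsupp.ext fun c => by_contra fun hc => hn ⟨c, trivial, hc⟩
    subst u0
    have : {s : (α →₀ ℕ) × Fin 1 | key mo 0 s < key mo 0 (0, j)} = ∅ := by
      ext s
      simp [key_lt, Subsingleton.elim s.2 j]
    rw [this, Sp, Set.image_empty, Submodule.span_empty, Submodule.mem_bot, sub_eq_zero] at hl
    have := hf j trivial
    rw [← hl] at this
    exact one_notMem h (by simpa [TT] using this)

theorem reidx {I J I' J' : Type} [Fintype I] [Fintype I'] (d : Matrix I J D) (e : I' ≃ I) (e' : J' ≃ J)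
    (f : J' → D) : (∃ g, g ᵥ* d.submatrix e e' = f) ↔ ∃ g, g ᵥ* d = f ∘ e'.symm := by
  constructor
  · rintro ⟨g, rfl⟩
    exact ⟨g ∘ e.symm, by rw [submatrix_vecMul_equiv]; ext j; simp⟩
  · rintro ⟨g, hg⟩
    refine ⟨g ∘ e, ?_⟩
    rw [submatrix_vecMul_equiv, Function.comp_assoc, Equiv.self_comp_symm, Function.comp_id, hg]
    ext j; simp

noncomputable def levs (h : GB k y mo forb) : ℕ → Lev k y mo forb
  | 0 => lev0 h
  | n + 1 => (levs h n).step h

theorem koszul (h : GB k y mo forb) : KzDef.Koszul k D (Submodule.span k (Set.range y)) := by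
  set L := levs h with hL
  let e : ∀ n : ℕ, Fin (Fintype.card (L n).J) ≃ (L n).J := fun n => (Fintype.equivFin (L n).J).symm
  let d : ∀ n : ℕ, Matrix (L (n + 1)).J (L n).J D := fun n => (L n).d
  have hr : ∀ (n : ℕ) (f : Fin (Fintype.card (L n).J) → D), (∃ g, g ᵥ* (d n).submatrix (e (n + 1)) (e n) = f) ↔ f ∘ (e n).symm ∈ (L n).N := by
    intro n f
    exact (reidx _ _ _ _).trans ((L n).range_d h _)
  refine ⟨fun n => Fintype.card (L n).J, fun n => (d n).submatrix (e (n + 1)) (e n),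
    Fintype.card_fin 1, fun n i j => (L n).d_lin _ _, fun f => ?_, fun n f => ?_⟩
  · rw [hr, Ideal.span, Submodule.span_span_of_tower]
    exact ⟨fun H j => by simpa using H (e 0 j) trivial, fun H j _ => H _⟩
  · rw [hr, submatrix_vecMul_equiv]
    show (f ∘ (e (n + 1)).symm) ᵥ* d n = 0 ↔ _
    exact ⟨fun H => by rw [H]; rfl, fun H => funext fun j => by simpa using congrFun H ((e n).symm j)⟩

end Pool.Agent.H72.Kz
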