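import Pool.Agent.H72.KzA

set_option autoImplicit false
set_option linter.unusedVariables false
set_option linter.unusedSimpArgs false
set_option linter.unnecessarySeqFocus false
set_option linter.unusedSectionVars false

namespace Pool.Agent.H72.Kz

open Finsupp

def RL : List (Fin 11 × Fin 11 × List (ℤ × Fin 11 × Fin 11)) :=
  [(0, 0, [(1, 0, 1), (-1, 1, 6)]),
    (0, 3, []),
    (0, 6, []),
    (0, 7, []),
    (0, 8, []),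
    (0, 9, []),
    (0, 10, []),
    (1, 1, [(1, 1, 2), (1, 1, 4), (-1, 2, 4)]),
    (1, 7, []),
    (1, 8, []),
    (1, 9, []),
    (1, 10, []),
    (2, 2, [(-1, 9, 10)]),
    (2, 9, []),
    (2, 10, []),
    (3, 3, [(-1, 3, 7), (-1, 5, 6), (1, 5, 7)]),
    (3, 5, []),
    (3, 6, []),
    (4, 4, [(2, 4, 9), (-1, 7, 8)]),
    (4, 7, [(1, 4, 9)]),
    (4, 8, [(1, 4, 9)]),
    (5, 5, [(1, 5, 6)]),
    (6, 6, [(1, 6, 7)]),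
    (7, 7, [(1, 7, 8)]),
    (8, 8, [(1, 8, 9)]),
    (9, 9, [(1, 9, 10)]),
    (10, 10, [])]

def NN : List (Fin 18 × Fin 18) := [(0, 1), (0, 6), (1, 9), (2, 11), (2, 14), (2, 16), (3, 4), (3, 12), (4, 10), (5, 14), (5, 15), (6, 7), (6, 11), (6, 13), (7, 8), (7, 9), (8, 10), (8, 12), (9, 11), (9, 13), (10, 11), (10, 13), (11, 12), (12, 13), (13, 14), (13, 16), (15, 16)]

def fm (a : ℕ) : ℕ := [1993, 1922, 1540, 105, 400, 40, 73, 147, 275, 519, 1031].getD a 0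

def forb (a b : Fin 11) : Prop := (fm a).testBit b = true

instance : DecidableRel forb := fun a b => inferInstanceAs (Decidable (_ = true))

section ring
variable {R : Type} [Ring R]

def XY (y : Fin 11 → R) : Fin 18 → R :=
  ![-y 2 + y 10,
    -y 2 + y 9,
    -y 0 + y 6,
    -y 4 + y 7,
    -y 4 + y 8,
    -y 3 + y 5,
    y 10,
    -y 1 + y 2,
    -y 1 + y 4,
    y 9 - y 10,
    y 8 - y 9,
    -y 0 + y 1,
    y 7 - y 8,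
    y 0,
    -y 3 + y 6 - y 7,
    y 5 - y 6,
    y 3,
    -y 5]

def YX (x : Fin 18 → R) : Fin 11 → R :=
  ![x 13,
    x 11 + x 13,
    x 7 + x 11 + x 13,
    x 16,
    x 8 + x 11 + x 13,
    x 5 + x 16,
    x 2 + x 13,
    x 3 + x 8 + x 11 + x 13,
    x 4 + x 8 + x 11 + x 13,
    x 1 + x 7 + x 11 + x 13,
    x 0 + x 7 + x 11 + x 13]

def GR (y : Fin 11 → R) : Prop :=
  ∀ r ∈ RL, y r.1 * y r.2.1 = (r.2.2.map fun q => q.1 • (y q.2.1 * y q.2.2)).sum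

def QR (x : Fin 18 → R) : Prop := ∀ p ∈ NN, x p.1 * x p.2 = 0

theorem YX_XY (y : Fin 11 → R) : YX (XY y) = y := by
  funext a; fin_cases a <;> simp [YX, XY] <;> abel

end ring

section comm
variable {R : Type} [CommRing R] {y : Fin 11 → R}

theorem GR_of (h : QR (XY y)) : GR y := by
  simp only [QR, NN, List.forall_mem_cons, XY, Matrix.cons_val, List.not_mem_nil, false_imp_iff,
    implies_true, and_true] at h
  obtain ⟨q0, q1, q2, q3, q4, q5, q6, q7, q8, q9, q10, q11, q12, q13, q14, q15, q16, q17, q18, q19, q20, q21, q22, q23, q24, q25, q26⟩ := h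
  simp only [GR, RL, List.forall_mem_cons, List.not_mem_nil, false_imp_iff, implies_true, and_true,
    List.map_cons, List.map_nil, List.sum_cons, List.sum_nil, zsmul_eq_mul]
  push_cast
  refine ⟨?_, ?_, ?_, ?_, ?_, ?_, ?_, ?_, ?_, ?_, ?_, ?_, ?_, ?_, ?_, ?_, ?_, ?_, ?_, ?_, ?_, ?_, ?_, ?_, ?_, ?_, ?_⟩
  · linear_combination (1) * q3 + (1) * q13 + (1) * q19 + (1) * q21 + (1) * q23 + (1) * q24 + (1) * q25
  · linear_combination (1) * q25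
  · linear_combination (1) * q13 + (1) * q19 + (1) * q21 + (1) * q23 + (1) * q24 + (1) * q25
  · linear_combination (1) * q13 + (1) * q19 + (1) * q21 + (1) * q23
  · linear_combination (1) * q13 + (1) * q19 + (1) * q21
  · linear_combination (1) * q13 + (1) * q19
  · linear_combination (1) * q13
  · linear_combination (1) * q14
  · linear_combination (1) * q12 + (1) * q13 + (1) * q18 + (1) * q19 + (1) * q20 + (1) * q21 + (1) * q22 + (1) * q23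
  · linear_combination (1) * q12 + (1) * q13 + (1) * q18 + (1) * q19 + (1) * q20 + (1) * q21
  · linear_combination (1) * q12 + (1) * q13 + (1) * q18 + (1) * q19
  · linear_combination (1) * q12 + (1) * q13
  · linear_combination (1) * q0 + (2) * q11 + (2) * q12 + (2) * q13 + (1) * q15 + (1) * q18 + (1) * q19
  · linear_combination (1) * q11 + (1) * q12 + (1) * q13 + (1) * q15 + (1) * q18 + (1) * q19
  · linear_combination (1) * q11 + (1) * q12 + (1) * q13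
  · linear_combination (2) * q5 + (1) * q9 + (2) * q25 + (1) * q26
  · linear_combination (1) * q5 + (1) * q25 + (1) * q26
  · linear_combination (1) * q5 + (1) * q25
  · linear_combination (1) * q6 + (2) * q16 + (1) * q17 + (2) * q20 + (2) * q21 + (1) * q22 + (1) * q23
  · linear_combination (1) * q16 + (1) * q17 + (1) * q20 + (1) * q21 + (1) * q22 + (1) * q23
  · linear_combination (1) * q16 + (1) * q20 + (1) * q21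
  · linear_combination (1) * q10 + (1) * q26
  · linear_combination (1) * q4 + (1) * q5 + (1) * q24 + (1) * q25
  · linear_combination (1) * q7 + (1) * q17 + (1) * q22 + (1) * q23
  · linear_combination (1) * q8 + (1) * q16 + (1) * q20 + (1) * q21
  · linear_combination (1) * q2 + (1) * q15 + (1) * q18 + (1) * q19
  · linear_combination (1) * q1 + (1) * q11 + (1) * q12 + (1) * q13

theorem QR_of (h : GR y) : QR (XY y) := by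
  simp only [GR, RL, List.forall_mem_cons, List.not_mem_nil, false_imp_iff, implies_true, and_true,
    List.map_cons, List.map_nil, List.sum_cons, List.sum_nil, zsmul_eq_mul] at h
  push_cast at h
  obtain ⟨r0, r1, r2, r3, r4, r5, r6, r7, r8, r9, r10, r11, r12, r13, r14, r15, r16, r17, r18, r19, r20, r21, r22, r23, r24, r25, r26⟩ := h
  simp only [QR, NN, List.forall_mem_cons, XY, Matrix.cons_val, List.not_mem_nil, false_imp_iff,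
    implies_true, and_true]
  refine ⟨?_, ?_, ?_, ?_, ?_, ?_, ?_, ?_, ?_, ?_, ?_, ?_, ?_, ?_, ?_, ?_, ?_, ?_, ?_, ?_, ?_, ?_, ?_, ?_, ?_, ?_, ?_⟩
  · linear_combination (1) * r12 + (-1) * r13 + (-1) * r14
  · linear_combination (-1) * r14 + (1) * r26
  · linear_combination (-1) * r13 + (1) * r14 + (1) * r25
  · linear_combination (1) * r0 + (-1) * r2
  · linear_combination (1) * r1 + (-1) * r2 + (1) * r3 + (-1) * r17 + (1) * r22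
  · linear_combination (-1) * r1 + (1) * r17
  · linear_combination (1) * r18 + (-1) * r19 + (-1) * r20
  · linear_combination (-1) * r19 + (1) * r20 + (1) * r23
  · linear_combination (-1) * r20 + (1) * r24
  · linear_combination (1) * r15 + (-1) * r16 + (-1) * r17
  · linear_combination (-1) * r16 + (1) * r17 + (1) * r21
  · linear_combination (-1) * r11 + (1) * r14
  · linear_combination (-1) * r6 + (1) * r11
  · linear_combination (1) * r6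
  · linear_combination (1) * r7
  · linear_combination (-1) * r10 + (1) * r11 + (1) * r13 + (-1) * r14
  · linear_combination (-1) * r9 + (1) * r10 + (1) * r20
  · linear_combination (-1) * r8 + (1) * r9 + (1) * r19 + (-1) * r20
  · linear_combination (-1) * r5 + (1) * r6 + (1) * r10 + (-1) * r11
  · linear_combination (1) * r5 + (-1) * r6
  · linear_combination (-1) * r4 + (1) * r5 + (1) * r9 + (-1) * r10
  · linear_combination (1) * r4 + (-1) * r5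
  · linear_combination (-1) * r3 + (1) * r4 + (1) * r8 + (-1) * r9
  · linear_combination (1) * r3 + (-1) * r4
  · linear_combination (-1) * r1 + (1) * r2 + (-1) * r3
  · linear_combination (1) * r1
  · linear_combination (1) * r16 + (-1) * r17

end comm

abbrev SV := List (ℤ × ℕ)

inductive Tr
  | lf (k : ℕ) (l : SV)
  | nd (k : ℕ) (a b : Tr)

noncomputable def Tr.get (n : ℕ) (t : Tr) : SV :=
  Tr.rec (motive := fun _ => SV) (fun k l => cond (Nat.beq n k) l [])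
    (fun k _ _ a b => cond (Nat.ble n k) a b) t

open Tr

def T0 : Tr :=
  (nd 23 (nd 7 (nd 3 (nd 1 (nd 0 (lf 0 [(1, 1)]) (lf 1 [(1, 3), (-1, 66)])) (nd 2 (lf 2 [(1, 3)]) (lf
  3 [(1, 7), (1, 19), (-1, 21), (-1, 70), (-1, 82), (1, 84)]))) (nd 5 (nd 4 (lf 4 [(1, 5)]) (lf 5 [(1,
  7), (-1, 70)])) (nd 6 (lf 6 [(1, 7)]) (lf 7 [(1, 23), (-1, 86), (-1, 1616)])))) (nd 19 (nd 17 (nd 16
  (lf 16 [(1, 17)]) (lf 17 [(1, 19), (-1, 82)])) (nd 18 (lf 18 [(1, 19)]) (lf 19 [(1, 23), (-1, 86),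
  (-1, 452)]))) (nd 21 (nd 20 (lf 20 [(1, 21)]) (lf 21 [(1, 23), (-1, 86)])) (nd 22 (lf 22 [(1, 23)])
  (lf 23 [(1, 1984)]))))) (nd 39 (nd 35 (nd 33 (nd 32 (lf 32 [(1, 33)]) (lf 33 [(1, 35), (-1, 98)]))
  (nd 34 (lf 34 [(1, 35)]) (lf 35 [(1, 39), (1, 51), (-1, 53), (-1, 102), (-1, 114), (1, 116)]))) (nd
  37 (nd 36 (lf 36 [(1, 37)]) (lf 37 [(1, 39), (-1, 102)])) (nd 38 (lf 38 [(1, 39)]) (lf 39 [(1, 55),
  (-1, 118), (-1, 1648)])))) (nd 51 (nd 49 (nd 48 (lf 48 [(1, 49)]) (lf 49 [(1, 51), (-1, 114)])) (nd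
  50 (lf 50 [(1, 51)]) (lf 51 [(1, 55), (-1, 118), (-1, 484)]))) (nd 53 (nd 52 (lf 52 [(1, 53)]) (lf
  53 [(1, 55), (-1, 118)])) (nd 54 (lf 54 [(1, 55)]) (lf 55 [(1, 2016)]))))))

def T1 : Tr :=
  (nd 35 (nd 16 (nd 5 (nd 2 (nd 0 (lf 0 [(1, 2)]) (nd 1 (lf 1 [(1, 3)]) (lf 2 [(1, 6), (1, 18), (-1,
  20)]))) (nd 3 (lf 3 [(1, 7), (1, 19), (-1, 21)]) (nd 4 (lf 4 [(1, 6)]) (lf 5 [(1, 7)])))) (nd 8 (nd
  6 (lf 6 [(1, 22), (1, 1552)]) (nd 7 (lf 7 [(1, 23)]) (lf 8 [(1, 10)]))) (nd 12 (nd 10 (lf 10 [(1,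
  14), (1, 26), (-1, 28)]) (lf 12 [(1, 14)])) (nd 14 (lf 14 [(1, 30), (1, 1560)]) (lf 16 [(1,
  18)]))))) (nd 24 (nd 19 (nd 17 (lf 17 [(1, 19)]) (nd 18 (lf 18 [(1, 22), (1, 388)]) (lf 19 [(1,
  23)]))) (nd 21 (nd 20 (lf 20 [(1, 22)]) (lf 21 [(1, 23)])) (nd 22 (lf 22 [(-1, 1920)]) (lf 24 [(1,
  26)])))) (nd 30 (nd 26 (lf 26 [(1, 30), (1, 396)]) (nd 28 (lf 28 [(1, 30)]) (lf 30 [(-1, 1928)])))
  (nd 33 (nd 32 (lf 32 [(1, 34)]) (lf 33 [(1, 35)])) (nd 34 (lf 34 [(1, 38), (1, 50), (-1, 52)]) (lf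
  35 [(1, 39), (1, 51), (-1, 53)])))))) (nd 66 (nd 49 (nd 38 (nd 36 (lf 36 [(1, 38)]) (nd 37 (lf 37
  [(1, 39)]) (lf 38 [(1, 54), (1, 1584)]))) (nd 39 (lf 39 [(1, 55)]) (nd 48 (lf 48 [(1, 50)]) (lf 49
  [(1, 51)])))) (nd 52 (nd 50 (lf 50 [(1, 54), (1, 420)]) (nd 51 (lf 51 [(1, 55)]) (lf 52 [(1, 54)])))
  (nd 54 (nd 53 (lf 53 [(1, 55)]) (lf 54 [(-1, 1952)])) (nd 64 (lf 64 [(1, 66)]) (lf 66 [(1, 70), (1,
  82), (-1, 84)]))))) (nd 96 (nd 80 (nd 68 (lf 68 [(1, 70)]) (nd 70 (lf 70 [(1, 86), (1, 1616)]) (lf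
  80 [(1, 82)]))) (nd 84 (nd 82 (lf 82 [(1, 86), (1, 452)]) (lf 84 [(1, 86)])) (nd 86 (lf 86 [(-1,
  1984)]) (lf 96 [(1, 98)])))) (nd 102 (nd 98 (lf 98 [(1, 102), (1, 114), (-1, 116)]) (nd 100 (lf 100
  [(1, 102)]) (lf 102 [(1, 118), (1, 1648)]))) (nd 114 (nd 112 (lf 112 [(1, 114)]) (lf 114 [(1, 118),
  (1, 484)])) (nd 116 (lf 116 [(1, 118)]) (lf 118 [(-1, 2016)])))))))

def T2 : Tr :=
  (nd 98 (nd 32 (nd 12 (nd 3 (nd 1 (nd 0 (lf 0 [(1, 4)]) (lf 1 [(1, 5)])) (nd 2 (lf 2 [(1, 6)]) (lf 3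
  [(1, 7)]))) (nd 8 (nd 4 (lf 4 [(-1, 1536)]) (lf 8 [(1, 12)])) (nd 10 (lf 10 [(1, 14)]) (lf 12 [(-1,
  1544)])))) (nd 19 (nd 17 (nd 16 (lf 16 [(1, 20)]) (lf 17 [(1, 21)])) (nd 18 (lf 18 [(1, 22)]) (lf 19
  [(1, 23)]))) (nd 24 (nd 20 (lf 20 [(-1, 1552)]) (lf 24 [(1, 28)])) (nd 26 (lf 26 [(1, 30)]) (nd 28
  (lf 28 [(-1, 1560)]) (lf 32 [(1, 36)])))))) (nd 51 (nd 36 (nd 34 (nd 33 (lf 33 [(1, 37)]) (lf 34
  [(1, 38)])) (nd 35 (lf 35 [(1, 39)]) (lf 36 [(-1, 1568)]))) (nd 49 (nd 48 (lf 48 [(1, 52)]) (lf 49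
  [(1, 53)])) (nd 50 (lf 50 [(1, 54)]) (lf 51 [(1, 55)])))) (nd 68 (nd 64 (nd 52 (lf 52 [(-1, 1584)])
  (lf 64 [(1, 68)])) (nd 66 (lf 66 [(1, 70)]) (lf 68 [(-1, 1600)]))) (nd 82 (nd 80 (lf 80 [(1, 84)])
  (lf 82 [(1, 86)])) (nd 84 (lf 84 [(-1, 1616)]) (nd 96 (lf 96 [(1, 100)]) (lf 98 [(1, 102)])))))))
  (nd 264 (nd 140 (nd 116 (nd 112 (nd 100 (lf 100 [(-1, 1632)]) (lf 112 [(1, 116)])) (nd 114 (lf 114
  [(1, 118)]) (lf 116 [(-1, 1648)]))) (nd 132 (nd 128 (lf 128 [(1, 132)]) (lf 132 [(-1, 1664)])) (nd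
  136 (lf 136 [(1, 140)]) (lf 140 [(-1, 1672)])))) (nd 196 (nd 164 (nd 160 (lf 160 [(1, 164)]) (lf 164
  [(-1, 1696)])) (nd 192 (lf 192 [(1, 196)]) (lf 196 [(-1, 1728)]))) (nd 228 (nd 224 (lf 224 [(1,
  228)]) (lf 228 [(-1, 1760)])) (nd 256 (lf 256 [(1, 260)]) (nd 260 (lf 260 [(-1, 1792)]) (lf 264 [(1,
  268)])))))) (nd 384 (nd 320 (nd 288 (nd 268 (lf 268 [(-1, 1800)]) (lf 288 [(1, 292)])) (nd 292 (lf
  292 [(-1, 1824)]) (lf 320 [(1, 324)]))) (nd 352 (nd 324 (lf 324 [(-1, 1856)]) (lf 352 [(1, 356)]))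
  (nd 356 (lf 356 [(-1, 1888)]) (lf 384 [(1, 388)])))) (nd 416 (nd 392 (nd 388 (lf 388 [(-1, 1920)])
  (lf 392 [(1, 396)])) (nd 396 (lf 396 [(-1, 1928)]) (lf 416 [(1, 420)]))) (nd 448 (nd 420 (lf 420
  [(-1, 1952)]) (lf 448 [(1, 452)])) (nd 452 (lf 452 [(-1, 1984)]) (nd 480 (lf 480 [(1, 484)]) (lf 484
  [(-1, 2016)]))))))))

def T3 : Tr :=
  (nd 512 (nd 26 (nd 12 (nd 4 (nd 0 (lf 0 [(1, 8)]) (nd 2 (lf 2 [(1, 10)]) (lf 4 [(1, 12)]))) (nd 8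
  (nd 6 (lf 6 [(1, 14)]) (lf 8 [(-1, 96), (-1, 136), (1, 160)])) (nd 10 (lf 10 [(-1, 98)]) (lf 12
  [(-1, 100), (-1, 140), (1, 164)])))) (nd 18 (nd 14 (lf 14 [(-1, 102)]) (nd 16 (lf 16 [(1, 24)]) (lf
  18 [(1, 26)]))) (nd 22 (nd 20 (lf 20 [(1, 28)]) (lf 22 [(1, 30)])) (nd 24 (lf 24 [(-1, 112), (-1,
  536), (1, 560)]) (lf 26 [(-1, 114)]))))) (nd 256 (nd 128 (nd 28 (lf 28 [(-1, 116)]) (nd 30 (lf 30
  [(-1, 118)]) (lf 128 [(1, 136)]))) (nd 136 (nd 132 (lf 132 [(1, 140)]) (lf 136 [(-1, 224), (-1,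
  392), (1, 416)])) (nd 140 (lf 140 [(-1, 228), (-1, 396), (1, 420)]) (lf 256 [(1, 264)])))) (nd 384
  (nd 264 (nd 260 (lf 260 [(1, 268)]) (lf 264 [(-1, 352), (-1, 392), (1, 416)])) (nd 268 (lf 268 [(-1,
  356), (-1, 396), (1, 420)]) (lf 384 [(1, 392)]))) (nd 392 (nd 388 (lf 388 [(1, 396)]) (lf 392 [(-1,
  480), (-1, 904), (1, 928)])) (nd 396 (lf 396 [(-1, 484)]) (lf 512 [(1, 520)])))))) (nd 1152 (nd 776
  (nd 536 (nd 520 (lf 520 [(-1, 608), (-1, 648), (1, 672)]) (nd 528 (lf 528 [(1, 536)]) (lf 536 [(-1,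
  624), (-1, 1560), (1, 1584)]))) (nd 648 (nd 640 (lf 640 [(1, 648)]) (lf 648 [(-1, 736), (-1, 904),
  (1, 928)])) (nd 768 (lf 768 [(1, 776)]) (lf 776 [(-1, 864), (-1, 904), (1, 928)])))) (nd 1024 (nd
  896 (lf 896 [(1, 904)]) (nd 904 (lf 904 [(-1, 992), (-1, 1928), (1, 1952)]) (lf 1024 [(1, 1032)])))
  (nd 1040 (nd 1032 (lf 1032 [(-1, 1120), (-1, 1160), (1, 1184)]) (lf 1040 [(1, 1048)])) (nd 1048 (lf
  1048 [(-1, 1136), (-1, 1560), (1, 1584)]) (lf 1152 [(1, 1160)]))))) (nd 1544 (nd 1288 (nd 1160 (lf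
  1160 [(-1, 1248), (-1, 1416), (1, 1440)]) (nd 1280 (lf 1280 [(1, 1288)]) (lf 1288 [(-1, 1376), (-1,
  1416), (1, 1440)]))) (nd 1416 (nd 1408 (lf 1408 [(1, 1416)]) (lf 1416 [(-1, 1504), (-1, 1928), (1,
  1952)])) (nd 1536 (lf 1536 [(1, 1544)]) (lf 1544 [(-1, 1632), (-1, 1672), (1, 1696)])))) (nd 1672
  (nd 1560 (nd 1552 (lf 1552 [(1, 1560)]) (lf 1560 [(-1, 1648)])) (nd 1664 (lf 1664 [(1, 1672)]) (lf
  1672 [(-1, 1760), (-1, 1928), (1, 1952)]))) (nd 1800 (nd 1792 (lf 1792 [(1, 1800)]) (lf 1800 [(-1,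
  1888), (-1, 1928), (1, 1952)])) (nd 1920 (lf 1920 [(1, 1928)]) (lf 1928 [(-1, 2016)])))))))

def T4 : Tr :=
  (nd 416 (nd 48 (nd 14 (nd 5 (nd 2 (nd 0 (lf 0 [(1, 16)]) (nd 1 (lf 1 [(1, 17)]) (lf 2 [(1, 18)])))
  (nd 3 (lf 3 [(1, 19)]) (nd 4 (lf 4 [(1, 20)]) (lf 5 [(1, 21)])))) (nd 8 (nd 6 (lf 6 [(1, 22)]) (nd 7
  (lf 7 [(1, 23)]) (lf 8 [(1, 24)]))) (nd 10 (lf 10 [(1, 26)]) (nd 12 (lf 12 [(1, 28)]) (lf 14 [(1,
  30)]))))) (nd 33 (nd 24 (nd 16 (lf 16 [(-1, 384), (2, 528)]) (nd 20 (lf 20 [(-1, 388)]) (lf 24 [(-1,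
  392), (2, 536)]))) (nd 28 (lf 28 [(-1, 396)]) (nd 32 (lf 32 [(1, 48)]) (lf 33 [(1, 49)])))) (nd 36
  (nd 34 (lf 34 [(1, 50)]) (nd 35 (lf 35 [(1, 51)]) (lf 36 [(1, 52)]))) (nd 38 (nd 37 (lf 37 [(1,
  53)]) (lf 38 [(1, 54)])) (nd 39 (lf 39 [(1, 55)]) (lf 48 [(-1, 416), (2, 560)])))))) (nd 116 (nd 80
  (nd 66 (nd 52 (lf 52 [(-1, 420)]) (nd 64 (lf 64 [(1, 80)]) (lf 66 [(1, 82)]))) (nd 68 (lf 68 [(1,
  84)]) (nd 70 (lf 70 [(1, 86)]) (lf 80 [(-1, 448), (2, 592)])))) (nd 98 (nd 84 (lf 84 [(-1, 452)])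
  (nd 96 (lf 96 [(1, 112)]) (lf 98 [(1, 114)]))) (nd 102 (nd 100 (lf 100 [(1, 116)]) (lf 102 [(1,
  118)])) (nd 112 (lf 112 [(-1, 480), (2, 624)]) (lf 116 [(-1, 484)]))))) (nd 256 (nd 160 (nd 128 (lf
  128 [(1, 528)]) (nd 136 (lf 136 [(1, 536)]) (lf 160 [(1, 560)]))) (nd 192 (lf 192 [(1, 592)]) (nd
  224 (lf 224 [(1, 624)]) (lf 256 [(1, 528)])))) (nd 320 (nd 264 (lf 264 [(1, 536)]) (nd 288 (lf 288
  [(1, 560)]) (lf 320 [(1, 592)]))) (nd 384 (nd 352 (lf 352 [(1, 624)]) (lf 384 [(1, 1552)])) (nd 392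
  (lf 392 [(1, 1560)]) (lf 416 [(1, 1584)]))))))) (nd 1048 (nd 640 (nd 536 (nd 512 (nd 448 (lf 448
  [(1, 1616)]) (nd 480 (lf 480 [(1, 1648)]) (lf 512 [(1, 528)]))) (nd 520 (lf 520 [(1, 536)]) (nd 528
  (lf 528 [(-1, 896), (2, 1552)]) (lf 536 [(-1, 904), (2, 1560)])))) (nd 576 (nd 544 (lf 544 [(1,
  560)]) (nd 560 (lf 560 [(-1, 928), (2, 1584)]) (lf 576 [(1, 592)]))) (nd 608 (nd 592 (lf 592 [(-1,
  960), (2, 1616)]) (lf 608 [(1, 624)])) (nd 624 (lf 624 [(-1, 992), (2, 1648)]) (lf 640 [(1,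
  1552)]))))) (nd 776 (nd 704 (nd 648 (lf 648 [(1, 1560)]) (nd 672 (lf 672 [(1, 1584)]) (lf 704 [(1,
  1616)]))) (nd 736 (lf 736 [(1, 1648)]) (nd 768 (lf 768 [(1, 1552)]) (lf 776 [(1, 1560)])))) (nd 864
  (nd 800 (lf 800 [(1, 1584)]) (nd 832 (lf 832 [(1, 1616)]) (lf 864 [(1, 1648)]))) (nd 1032 (nd 1024
  (lf 1024 [(1, 1040)]) (lf 1032 [(1, 1048)])) (nd 1040 (lf 1040 [(-1, 1408), (2, 1552)]) (lf 1048
  [(-1, 1416), (2, 1560)])))))) (nd 1288 (nd 1136 (nd 1088 (nd 1056 (lf 1056 [(1, 1072)]) (nd 1072 (lf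
  1072 [(-1, 1440), (2, 1584)]) (lf 1088 [(1, 1104)]))) (nd 1104 (lf 1104 [(-1, 1472), (2, 1616)]) (nd
  1120 (lf 1120 [(1, 1136)]) (lf 1136 [(-1, 1504), (2, 1648)])))) (nd 1184 (nd 1152 (lf 1152 [(1,
  1552)]) (nd 1160 (lf 1160 [(1, 1560)]) (lf 1184 [(1, 1584)]))) (nd 1248 (nd 1216 (lf 1216 [(1,
  1616)]) (lf 1248 [(1, 1648)])) (nd 1280 (lf 1280 [(1, 1552)]) (lf 1288 [(1, 1560)]))))) (nd 1552 (nd
  1376 (nd 1312 (lf 1312 [(1, 1584)]) (nd 1344 (lf 1344 [(1, 1616)]) (lf 1376 [(1, 1648)]))) (nd 1536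
  (lf 1536 [(1, 1552)]) (nd 1544 (lf 1544 [(1, 1560)]) (lf 1552 [(-1, 1920)])))) (nd 1584 (nd 1560 (lf
  1560 [(-1, 1928)]) (nd 1568 (lf 1568 [(1, 1584)]) (lf 1584 [(-1, 1952)]))) (nd 1616 (nd 1600 (lf
  1600 [(1, 1616)]) (lf 1616 [(-1, 1984)])) (nd 1632 (lf 1632 [(1, 1648)]) (lf 1648 [(-1,
  2016)]))))))))

def T5 : Tr :=
  (nd 480 (nd 80 (nd 21 (nd 6 (nd 2 (nd 0 (lf 0 [(1, 32)]) (nd 1 (lf 1 [(1, 33)]) (lf 2 [(1, 34)])))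
  (nd 4 (nd 3 (lf 3 [(1, 35)]) (lf 4 [(1, 36)])) (nd 5 (lf 5 [(1, 37)]) (lf 6 [(1, 38)])))) (nd 17 (nd
  7 (lf 7 [(1, 39)]) (nd 16 (lf 16 [(1, 48)]) (lf 17 [(1, 49)]))) (nd 19 (nd 18 (lf 18 [(1, 50)]) (lf
  19 [(1, 51)])) (nd 20 (lf 20 [(1, 52)]) (lf 21 [(1, 53)]))))) (nd 48 (nd 32 (nd 22 (lf 22 [(1, 54)])
  (nd 23 (lf 23 [(1, 55)]) (lf 32 [(1, 96)]))) (nd 36 (nd 34 (lf 34 [(1, 98)]) (lf 36 [(1, 100)])) (nd
  38 (lf 38 [(1, 102)]) (lf 48 [(1, 112)])))) (nd 64 (nd 52 (nd 50 (lf 50 [(1, 114)]) (lf 52 [(1,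
  116)])) (nd 54 (lf 54 [(1, 118)]) (lf 64 [(1, 96)]))) (nd 68 (nd 66 (lf 66 [(1, 98)]) (lf 68 [(1,
  100)])) (nd 70 (lf 70 [(1, 102)]) (lf 80 [(1, 112)])))))) (nd 228 (nd 128 (nd 86 (nd 82 (lf 82 [(1,
  114)]) (nd 84 (lf 84 [(1, 116)]) (lf 86 [(1, 118)]))) (nd 100 (nd 96 (lf 96 [(1, 224)]) (lf 100 [(1,
  228)])) (nd 112 (lf 112 [(1, 624)]) (lf 128 [(1, 160)])))) (nd 164 (nd 132 (lf 132 [(1, 164)]) (nd
  160 (lf 160 [(1, 224)]) (lf 164 [(1, 228)]))) (nd 196 (nd 192 (lf 192 [(1, 224)]) (lf 196 [(1,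
  228)])) (nd 224 (lf 224 [(1, 480)]) (lf 228 [(1, 484)]))))) (nd 352 (nd 288 (nd 256 (lf 256 [(1,
  288)]) (nd 260 (lf 260 [(1, 292)]) (lf 288 [(1, 352)]))) (nd 320 (nd 292 (lf 292 [(1, 356)]) (lf 320
  [(1, 352)])) (nd 324 (lf 324 [(1, 356)]) (lf 352 [(1, 480)])))) (nd 416 (nd 384 (nd 356 (lf 356 [(1,
  484)]) (lf 384 [(1, 416)])) (nd 388 (lf 388 [(1, 420)]) (lf 416 [(1, 480)]))) (nd 448 (nd 420 (lf
  420 [(1, 484)]) (lf 448 [(1, 480)])) (nd 452 (lf 452 [(1, 484)]) (lf 480 [(1, 992)]))))))) (nd 1152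
  (nd 800 (nd 608 (nd 544 (nd 512 (lf 512 [(1, 544)]) (nd 528 (lf 528 [(1, 560)]) (lf 544 [(1,
  608)]))) (nd 576 (nd 560 (lf 560 [(1, 624)]) (lf 576 [(1, 608)])) (nd 592 (lf 592 [(1, 624)]) (lf
  608 [(1, 736)])))) (nd 672 (nd 624 (lf 624 [(1, 1648)]) (nd 640 (lf 640 [(1, 672)]) (lf 672 [(1,
  736)]))) (nd 736 (nd 704 (lf 704 [(1, 736)]) (lf 736 [(1, 992)])) (nd 768 (lf 768 [(1, 800)]) (lf
  800 [(1, 864)]))))) (nd 1024 (nd 896 (nd 832 (lf 832 [(1, 864)]) (nd 864 (lf 864 [(1, 992)]) (lf 896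
  [(1, 928)]))) (nd 960 (nd 928 (lf 928 [(1, 992)]) (lf 960 [(1, 992)])) (nd 992 (lf 992 [(1, 2016)])
  (lf 1024 [(1, 1056)])))) (nd 1088 (nd 1056 (nd 1040 (lf 1040 [(1, 1072)]) (lf 1056 [(1, 1120)])) (nd
  1072 (lf 1072 [(1, 1136)]) (lf 1088 [(1, 1120)]))) (nd 1120 (nd 1104 (lf 1104 [(1, 1136)]) (lf 1120
  [(1, 1248)])) (nd 1136 (lf 1136 [(1, 1648)]) (lf 1152 [(1, 1184)])))))) (nd 1568 (nd 1376 (nd 1248
  (nd 1184 (lf 1184 [(1, 1248)]) (nd 1216 (lf 1216 [(1, 1248)]) (lf 1248 [(1, 1504)]))) (nd 1312 (nd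
  1280 (lf 1280 [(1, 1312)]) (lf 1312 [(1, 1376)])) (nd 1344 (lf 1344 [(1, 1376)]) (lf 1376 [(1,
  1504)])))) (nd 1472 (nd 1408 (lf 1408 [(1, 1440)]) (nd 1440 (lf 1440 [(1, 1504)]) (lf 1472 [(1,
  1504)]))) (nd 1536 (nd 1504 (lf 1504 [(1, 2016)]) (lf 1536 [(1, 1568)])) (nd 1552 (lf 1552 [(1,
  1584)]) (lf 1568 [(1, 1632)]))))) (nd 1728 (nd 1616 (nd 1584 (lf 1584 [(1, 1648)]) (nd 1600 (lf 1600
  [(1, 1632)]) (lf 1616 [(1, 1648)]))) (nd 1664 (nd 1632 (lf 1632 [(1, 1760)]) (lf 1664 [(1, 1696)]))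
  (nd 1696 (lf 1696 [(1, 1760)]) (lf 1728 [(1, 1760)])))) (nd 1856 (nd 1792 (nd 1760 (lf 1760 [(1,
  2016)]) (lf 1792 [(1, 1824)])) (nd 1824 (lf 1824 [(1, 1888)]) (lf 1856 [(1, 1888)]))) (nd 1920 (nd
  1888 (lf 1888 [(1, 2016)]) (lf 1920 [(1, 1952)])) (nd 1952 (lf 1952 [(1, 2016)]) (lf 1984 [(1,
  2016)]))))))))

def T6 : Tr :=
  (nd 592 (nd 160 (nd 38 (nd 18 (nd 4 (nd 0 (lf 0 [(1, 64)]) (nd 2 (lf 2 [(1, 66)]) (lf 4 [(1, 68)])))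
  (nd 6 (lf 6 [(1, 70)]) (nd 16 (lf 16 [(1, 80)]) (lf 18 [(1, 82)])))) (nd 32 (nd 20 (lf 20 [(1, 84)])
  (nd 22 (lf 22 [(1, 86)]) (lf 32 [(1, 96)]))) (nd 34 (lf 34 [(1, 98)]) (nd 36 (lf 36 [(1, 100)]) (lf
  38 [(1, 102)]))))) (nd 68 (nd 52 (nd 48 (lf 48 [(1, 112)]) (nd 50 (lf 50 [(1, 114)]) (lf 52 [(1,
  116)]))) (nd 54 (lf 54 [(1, 118)]) (nd 64 (lf 64 [(1, 192)]) (lf 68 [(1, 196)])))) (nd 100 (nd 80
  (lf 80 [(1, 592)]) (nd 96 (lf 96 [(1, 224)]) (lf 100 [(1, 228)]))) (nd 128 (nd 112 (lf 112 [(1,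
  624)]) (lf 128 [(1, 192)])) (nd 132 (lf 132 [(1, 196)]) (lf 160 [(1, 224)])))))) (nd 352 (nd 256 (nd
  196 (nd 164 (lf 164 [(1, 228)]) (nd 192 (lf 192 [(1, 448)]) (lf 196 [(1, 452)]))) (nd 224 (lf 224
  [(1, 480)]) (nd 228 (lf 228 [(1, 484)]) (lf 256 [(1, 320)])))) (nd 292 (nd 260 (lf 260 [(1, 324)])
  (nd 288 (lf 288 [(1, 352)]) (lf 292 [(1, 356)]))) (nd 320 (lf 320 [(1, 448)]) (nd 324 (lf 324 [(1,
  452)]) (lf 352 [(1, 480)]))))) (nd 448 (nd 388 (nd 356 (lf 356 [(1, 484)]) (nd 384 (lf 384 [(1,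
  448)]) (lf 388 [(1, 452)]))) (nd 416 (lf 416 [(1, 480)]) (nd 420 (lf 420 [(1, 484)]) (lf 448 [(1,
  960)])))) (nd 528 (nd 480 (lf 480 [(1, 992)]) (nd 512 (lf 512 [(1, 576)]) (lf 528 [(1, 592)]))) (nd
  560 (nd 544 (lf 544 [(1, 608)]) (lf 560 [(1, 624)])) (nd 576 (lf 576 [(1, 704)]) (lf 592 [(1,
  1616)]))))))) (nd 1216 (nd 928 (nd 736 (nd 640 (nd 608 (lf 608 [(1, 736)]) (nd 624 (lf 624 [(1,
  1648)]) (lf 640 [(1, 704)]))) (nd 672 (lf 672 [(1, 736)]) (nd 704 (lf 704 [(1, 960)]) (lf 736 [(1,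
  992)])))) (nd 832 (nd 768 (lf 768 [(1, 832)]) (nd 800 (lf 800 [(1, 864)]) (lf 832 [(1, 960)]))) (nd
  864 (lf 864 [(1, 992)]) (nd 896 (lf 896 [(1, 960)]) (lf 928 [(1, 992)]))))) (nd 1072 (nd 1024 (nd
  960 (lf 960 [(1, 1984)]) (nd 992 (lf 992 [(1, 2016)]) (lf 1024 [(1, 1088)]))) (nd 1040 (lf 1040 [(1,
  1104)]) (nd 1056 (lf 1056 [(1, 1120)]) (lf 1072 [(1, 1136)])))) (nd 1120 (nd 1088 (lf 1088 [(1,
  1216)]) (nd 1104 (lf 1104 [(1, 1616)]) (lf 1120 [(1, 1248)]))) (nd 1152 (nd 1136 (lf 1136 [(1,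
  1648)]) (lf 1152 [(1, 1216)])) (nd 1184 (lf 1184 [(1, 1248)]) (lf 1216 [(1, 1472)])))))) (nd 1568
  (nd 1408 (nd 1312 (nd 1248 (lf 1248 [(1, 1504)]) (nd 1280 (lf 1280 [(1, 1344)]) (lf 1312 [(1,
  1376)]))) (nd 1344 (lf 1344 [(1, 1472)]) (nd 1376 (lf 1376 [(1, 1504)]) (lf 1408 [(1, 1472)])))) (nd
  1504 (nd 1440 (lf 1440 [(1, 1504)]) (nd 1472 (lf 1472 [(1, 1984)]) (lf 1504 [(1, 2016)]))) (nd 1536
  (lf 1536 [(1, 1600)]) (nd 1552 (lf 1552 [(1, 1616)]) (lf 1568 [(1, 1632)]))))) (nd 1728 (nd 1632 (nd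
  1584 (lf 1584 [(1, 1648)]) (nd 1600 (lf 1600 [(1, 1728)]) (lf 1632 [(1, 1760)]))) (nd 1664 (lf 1664
  [(1, 1728)]) (nd 1696 (lf 1696 [(1, 1760)]) (lf 1728 [(1, 1984)])))) (nd 1824 (nd 1760 (lf 1760 [(1,
  2016)]) (nd 1792 (lf 1792 [(1, 1856)]) (lf 1824 [(1, 1888)]))) (nd 1888 (nd 1856 (lf 1856 [(1,
  1984)]) (lf 1888 [(1, 2016)])) (nd 1920 (lf 1920 [(1, 1984)]) (lf 1952 [(1, 2016)]))))))))

def T7 : Tr :=
  (nd 648 (nd 256 (nd 96 (nd 24 (nd 8 (nd 0 (lf 0 [(1, 128)]) (nd 4 (lf 4 [(1, 132)]) (lf 8 [(1,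
  136)]))) (nd 12 (lf 12 [(1, 140)]) (nd 16 (lf 16 [(1, 528)]) (lf 24 [(1, 536)])))) (nd 48 (nd 32 (lf
  32 [(1, 160)]) (nd 36 (lf 36 [(1, 164)]) (lf 48 [(1, 560)]))) (nd 68 (nd 64 (lf 64 [(1, 192)]) (lf
  68 [(1, 196)])) (nd 80 (lf 80 [(1, 592)]) (lf 96 [(1, 224)]))))) (nd 140 (nd 128 (nd 100 (lf 100
  [(1, 228)]) (nd 112 (lf 112 [(1, 624)]) (lf 128 [(1, 384)]))) (nd 132 (lf 132 [(1, 388)]) (nd 136
  (lf 136 [(1, 392)]) (lf 140 [(1, 396)])))) (nd 192 (nd 160 (lf 160 [(1, 416)]) (nd 164 (lf 164 [(1,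
  420)]) (lf 192 [(1, 448)]))) (nd 224 (nd 196 (lf 196 [(1, 452)]) (lf 224 [(1, 480)])) (nd 228 (lf
  228 [(1, 484)]) (lf 256 [(1, 384)])))))) (nd 448 (nd 320 (nd 268 (nd 260 (lf 260 [(1, 388)]) (nd 264
  (lf 264 [(1, 392)]) (lf 268 [(1, 396)]))) (nd 288 (lf 288 [(1, 416)]) (nd 292 (lf 292 [(1, 420)])
  (lf 320 [(1, 448)])))) (nd 356 (nd 324 (lf 324 [(1, 452)]) (nd 352 (lf 352 [(1, 480)]) (lf 356 [(1,
  484)]))) (nd 392 (nd 384 (lf 384 [(1, 896)]) (lf 392 [(1, 904)])) (nd 416 (lf 416 [(1, 928)]) (lf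
  448 [(1, 960)]))))) (nd 544 (nd 520 (nd 480 (lf 480 [(1, 992)]) (nd 512 (lf 512 [(1, 640)]) (lf 520
  [(1, 648)]))) (nd 528 (lf 528 [(1, 1552)]) (nd 536 (lf 536 [(1, 1560)]) (lf 544 [(1, 672)])))) (nd
  592 (nd 560 (lf 560 [(1, 1584)]) (nd 576 (lf 576 [(1, 704)]) (lf 592 [(1, 1616)]))) (nd 624 (nd 608
  (lf 608 [(1, 736)]) (lf 624 [(1, 1648)])) (nd 640 (lf 640 [(1, 896)]) (lf 648 [(1, 904)]))))))) (nd
  1184 (nd 992 (nd 800 (nd 736 (nd 672 (lf 672 [(1, 928)]) (nd 704 (lf 704 [(1, 960)]) (lf 736 [(1,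
  992)]))) (nd 768 (lf 768 [(1, 896)]) (nd 776 (lf 776 [(1, 904)]) (lf 800 [(1, 928)])))) (nd 896 (nd
  832 (lf 832 [(1, 960)]) (nd 864 (lf 864 [(1, 992)]) (lf 896 [(1, 1920)]))) (nd 928 (nd 904 (lf 904
  [(1, 1928)]) (lf 928 [(1, 1952)])) (nd 960 (lf 960 [(1, 1984)]) (lf 992 [(1, 2016)]))))) (nd 1072
  (nd 1040 (nd 1024 (lf 1024 [(1, 1152)]) (nd 1032 (lf 1032 [(1, 1160)]) (lf 1040 [(1, 1552)]))) (nd
  1048 (lf 1048 [(1, 1560)]) (nd 1056 (lf 1056 [(1, 1184)]) (lf 1072 [(1, 1584)])))) (nd 1120 (nd 1088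
  (lf 1088 [(1, 1216)]) (nd 1104 (lf 1104 [(1, 1616)]) (lf 1120 [(1, 1248)]))) (nd 1152 (nd 1136 (lf
  1136 [(1, 1648)]) (lf 1152 [(1, 1408)])) (nd 1160 (lf 1160 [(1, 1416)]) (lf 1184 [(1, 1440)]))))))
  (nd 1536 (nd 1344 (nd 1280 (nd 1216 (lf 1216 [(1, 1472)]) (nd 1248 (lf 1248 [(1, 1504)]) (lf 1280
  [(1, 1408)]))) (nd 1288 (lf 1288 [(1, 1416)]) (nd 1312 (lf 1312 [(1, 1440)]) (lf 1344 [(1,
  1472)])))) (nd 1416 (nd 1376 (lf 1376 [(1, 1504)]) (nd 1408 (lf 1408 [(1, 1920)]) (lf 1416 [(1,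
  1928)]))) (nd 1472 (nd 1440 (lf 1440 [(1, 1952)]) (lf 1472 [(1, 1984)])) (nd 1504 (lf 1504 [(1,
  2016)]) (lf 1536 [(1, 1664)]))))) (nd 1696 (nd 1600 (nd 1544 (lf 1544 [(1, 1672)]) (nd 1568 (lf 1568
  [(1, 1696)]) (lf 1600 [(1, 1728)]))) (nd 1664 (nd 1632 (lf 1632 [(1, 1760)]) (lf 1664 [(1, 1920)]))
  (nd 1672 (lf 1672 [(1, 1928)]) (lf 1696 [(1, 1952)])))) (nd 1792 (nd 1728 (lf 1728 [(1, 1984)]) (nd
  1760 (lf 1760 [(1, 2016)]) (lf 1792 [(1, 1920)]))) (nd 1824 (nd 1800 (lf 1800 [(1, 1928)]) (lf 1824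
  [(1, 1952)])) (nd 1856 (lf 1856 [(1, 1984)]) (lf 1888 [(1, 2016)]))))))))

def T8 : Tr :=
  (nd 648 (nd 196 (nd 68 (nd 16 (nd 4 (nd 0 (lf 0 [(1, 256)]) (lf 4 [(1, 260)])) (nd 8 (lf 8 [(1,
  264)]) (nd 12 (lf 12 [(1, 268)]) (lf 16 [(1, 528)])))) (nd 36 (nd 24 (lf 24 [(1, 536)]) (nd 32 (lf
  32 [(1, 288)]) (lf 36 [(1, 292)]))) (nd 48 (lf 48 [(1, 560)]) (nd 64 (lf 64 [(1, 320)]) (lf 68 [(1,
  324)]))))) (nd 132 (nd 100 (nd 80 (lf 80 [(1, 592)]) (nd 96 (lf 96 [(1, 352)]) (lf 100 [(1, 356)])))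
  (nd 112 (lf 112 [(1, 624)]) (nd 128 (lf 128 [(1, 384)]) (lf 132 [(1, 388)])))) (nd 160 (nd 136 (lf
  136 [(1, 392)]) (nd 140 (lf 140 [(1, 396)]) (lf 160 [(1, 416)]))) (nd 164 (lf 164 [(1, 420)]) (nd
  192 (lf 192 [(1, 448)]) (lf 196 [(1, 452)])))))) (nd 480 (nd 320 (nd 256 (nd 224 (lf 224 [(1, 480)])
  (nd 228 (lf 228 [(1, 484)]) (lf 256 [(1, 768)]))) (nd 264 (lf 264 [(1, 776)]) (nd 288 (lf 288 [(1,
  800)]) (lf 320 [(1, 832)])))) (nd 392 (nd 352 (lf 352 [(1, 864)]) (nd 384 (lf 384 [(1, 896)]) (lf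
  392 [(1, 904)]))) (nd 416 (lf 416 [(1, 928)]) (nd 448 (lf 448 [(1, 960)]) (lf 480 [(1, 992)])))))
  (nd 560 (nd 528 (nd 512 (lf 512 [(1, 768)]) (nd 520 (lf 520 [(1, 776)]) (lf 528 [(1, 1552)]))) (nd
  536 (lf 536 [(1, 1560)]) (nd 544 (lf 544 [(1, 800)]) (lf 560 [(1, 1584)])))) (nd 608 (nd 576 (lf 576
  [(1, 832)]) (nd 592 (lf 592 [(1, 1616)]) (lf 608 [(1, 864)]))) (nd 624 (lf 624 [(1, 1648)]) (nd 640
  (lf 640 [(1, 896)]) (lf 648 [(1, 904)]))))))) (nd 1152 (nd 960 (nd 800 (nd 736 (nd 672 (lf 672 [(1,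
  928)]) (nd 704 (lf 704 [(1, 960)]) (lf 736 [(1, 992)]))) (nd 768 (lf 768 [(1, 1792)]) (nd 776 (lf
  776 [(1, 1800)]) (lf 800 [(1, 1824)])))) (nd 896 (nd 832 (lf 832 [(1, 1856)]) (nd 864 (lf 864 [(1,
  1888)]) (lf 896 [(1, 1920)]))) (nd 904 (lf 904 [(1, 1928)]) (nd 928 (lf 928 [(1, 1952)]) (lf 960
  [(1, 1984)]))))) (nd 1056 (nd 1032 (nd 992 (lf 992 [(1, 2016)]) (nd 1024 (lf 1024 [(1, 1280)]) (lf
  1032 [(1, 1288)]))) (nd 1040 (lf 1040 [(1, 1552)]) (nd 1048 (lf 1048 [(1, 1560)]) (lf 1056 [(1,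
  1312)])))) (nd 1104 (nd 1072 (lf 1072 [(1, 1584)]) (nd 1088 (lf 1088 [(1, 1344)]) (lf 1104 [(1,
  1616)]))) (nd 1120 (lf 1120 [(1, 1376)]) (nd 1136 (lf 1136 [(1, 1648)]) (lf 1152 [(1, 1408)]))))))
  (nd 1440 (nd 1288 (nd 1216 (nd 1160 (lf 1160 [(1, 1416)]) (nd 1184 (lf 1184 [(1, 1440)]) (lf 1216
  [(1, 1472)]))) (nd 1248 (lf 1248 [(1, 1504)]) (nd 1280 (lf 1280 [(1, 1792)]) (lf 1288 [(1,
  1800)])))) (nd 1376 (nd 1312 (lf 1312 [(1, 1824)]) (nd 1344 (lf 1344 [(1, 1856)]) (lf 1376 [(1,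
  1888)]))) (nd 1408 (lf 1408 [(1, 1920)]) (nd 1416 (lf 1416 [(1, 1928)]) (lf 1440 [(1, 1952)])))))
  (nd 1600 (nd 1536 (nd 1472 (lf 1472 [(1, 1984)]) (nd 1504 (lf 1504 [(1, 2016)]) (lf 1536 [(1,
  1792)]))) (nd 1544 (lf 1544 [(1, 1800)]) (nd 1568 (lf 1568 [(1, 1824)]) (lf 1600 [(1, 1856)])))) (nd
  1672 (nd 1632 (lf 1632 [(1, 1888)]) (nd 1664 (lf 1664 [(1, 1920)]) (lf 1672 [(1, 1928)]))) (nd 1696
  (lf 1696 [(1, 1952)]) (nd 1728 (lf 1728 [(1, 1984)]) (lf 1760 [(1, 2016)]))))))))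

def T9 : Tr :=
  (nd 648 (nd 288 (nd 96 (nd 24 (nd 8 (nd 0 (lf 0 [(1, 512)]) (lf 8 [(1, 520)])) (nd 16 (lf 16 [(1,
  528)]) (lf 24 [(1, 536)]))) (nd 48 (nd 32 (lf 32 [(1, 544)]) (lf 48 [(1, 560)])) (nd 64 (lf 64 [(1,
  576)]) (nd 80 (lf 80 [(1, 592)]) (lf 96 [(1, 608)]))))) (nd 160 (nd 128 (nd 112 (lf 112 [(1, 624)])
  (lf 128 [(1, 640)])) (nd 136 (lf 136 [(1, 648)]) (lf 160 [(1, 672)]))) (nd 224 (nd 192 (lf 192 [(1,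
  704)]) (lf 224 [(1, 736)])) (nd 256 (lf 256 [(1, 768)]) (nd 264 (lf 264 [(1, 776)]) (lf 288 [(1,
  800)])))))) (nd 520 (nd 392 (nd 352 (nd 320 (lf 320 [(1, 832)]) (lf 352 [(1, 864)])) (nd 384 (lf 384
  [(1, 896)]) (lf 392 [(1, 904)]))) (nd 448 (nd 416 (lf 416 [(1, 928)]) (lf 448 [(1, 960)])) (nd 480
  (lf 480 [(1, 992)]) (nd 512 (lf 512 [(1, 1536)]) (lf 520 [(1, 1544)]))))) (nd 576 (nd 536 (nd 528
  (lf 528 [(1, 1552)]) (lf 536 [(1, 1560)])) (nd 544 (lf 544 [(1, 1568)]) (nd 560 (lf 560 [(1, 1584)])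
  (lf 576 [(1, 1600)])))) (nd 608 (nd 592 (lf 592 [(1, 1616)]) (lf 608 [(1, 1632)])) (nd 624 (lf 624
  [(1, 1648)]) (nd 640 (lf 640 [(1, 1664)]) (lf 648 [(1, 1672)]))))))) (nd 1072 (nd 896 (nd 768 (nd
  704 (nd 672 (lf 672 [(1, 1696)]) (lf 704 [(1, 1728)])) (nd 736 (lf 736 [(1, 1760)]) (lf 768 [(1,
  1792)]))) (nd 800 (nd 776 (lf 776 [(1, 1800)]) (lf 800 [(1, 1824)])) (nd 832 (lf 832 [(1, 1856)])
  (nd 864 (lf 864 [(1, 1888)]) (lf 896 [(1, 1920)]))))) (nd 1024 (nd 928 (nd 904 (lf 904 [(1, 1928)])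
  (lf 928 [(1, 1952)])) (nd 960 (lf 960 [(1, 1984)]) (nd 992 (lf 992 [(1, 2016)]) (lf 1024 [(1,
  1536)])))) (nd 1040 (nd 1032 (lf 1032 [(1, 1544)]) (lf 1040 [(1, 1552)])) (nd 1048 (lf 1048 [(1,
  1560)]) (nd 1056 (lf 1056 [(1, 1568)]) (lf 1072 [(1, 1584)])))))) (nd 1248 (nd 1136 (nd 1104 (nd
  1088 (lf 1088 [(1, 1600)]) (lf 1104 [(1, 1616)])) (nd 1120 (lf 1120 [(1, 1632)]) (lf 1136 [(1,
  1648)]))) (nd 1160 (nd 1152 (lf 1152 [(1, 1664)]) (lf 1160 [(1, 1672)])) (nd 1184 (lf 1184 [(1,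
  1696)]) (nd 1216 (lf 1216 [(1, 1728)]) (lf 1248 [(1, 1760)]))))) (nd 1376 (nd 1288 (nd 1280 (lf 1280
  [(1, 1792)]) (lf 1288 [(1, 1800)])) (nd 1312 (lf 1312 [(1, 1824)]) (nd 1344 (lf 1344 [(1, 1856)])
  (lf 1376 [(1, 1888)])))) (nd 1416 (nd 1408 (lf 1408 [(1, 1920)]) (lf 1416 [(1, 1928)])) (nd 1440 (lf
  1440 [(1, 1952)]) (nd 1472 (lf 1472 [(1, 1984)]) (lf 1504 [(1, 2016)]))))))))

def T10 : Tr :=
  (nd 480 (nd 136 (nd 48 (nd 16 (nd 0 (lf 0 [(1, 1024)]) (nd 8 (lf 8 [(1, 1032)]) (lf 16 [(1,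
  1040)]))) (nd 24 (lf 24 [(1, 1048)]) (nd 32 (lf 32 [(1, 1056)]) (lf 48 [(1, 1072)])))) (nd 96 (nd 64
  (lf 64 [(1, 1088)]) (nd 80 (lf 80 [(1, 1104)]) (lf 96 [(1, 1120)]))) (nd 112 (lf 112 [(1, 1136)])
  (nd 128 (lf 128 [(1, 1152)]) (lf 136 [(1, 1160)]))))) (nd 288 (nd 224 (nd 160 (lf 160 [(1, 1184)])
  (nd 192 (lf 192 [(1, 1216)]) (lf 224 [(1, 1248)]))) (nd 256 (lf 256 [(1, 1280)]) (nd 264 (lf 264
  [(1, 1288)]) (lf 288 [(1, 1312)])))) (nd 384 (nd 320 (lf 320 [(1, 1344)]) (nd 352 (lf 352 [(1,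
  1376)]) (lf 384 [(1, 1408)]))) (nd 416 (nd 392 (lf 392 [(1, 1416)]) (lf 416 [(1, 1440)])) (nd 448
  (lf 448 [(1, 1472)]) (lf 480 [(1, 1504)])))))) (nd 648 (nd 560 (nd 528 (nd 512 (lf 512 [(1, 1536)])
  (nd 520 (lf 520 [(1, 1544)]) (lf 528 [(1, 1552)]))) (nd 536 (lf 536 [(1, 1560)]) (nd 544 (lf 544
  [(1, 1568)]) (lf 560 [(1, 1584)])))) (nd 608 (nd 576 (lf 576 [(1, 1600)]) (nd 592 (lf 592 [(1,
  1616)]) (lf 608 [(1, 1632)]))) (nd 624 (lf 624 [(1, 1648)]) (nd 640 (lf 640 [(1, 1664)]) (lf 648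
  [(1, 1672)]))))) (nd 800 (nd 736 (nd 672 (lf 672 [(1, 1696)]) (nd 704 (lf 704 [(1, 1728)]) (lf 736
  [(1, 1760)]))) (nd 768 (lf 768 [(1, 1792)]) (nd 776 (lf 776 [(1, 1800)]) (lf 800 [(1, 1824)])))) (nd
  896 (nd 832 (lf 832 [(1, 1856)]) (nd 864 (lf 864 [(1, 1888)]) (lf 896 [(1, 1920)]))) (nd 928 (nd 904
  (lf 904 [(1, 1928)]) (lf 928 [(1, 1952)])) (nd 960 (lf 960 [(1, 1984)]) (lf 992 [(1, 2016)])))))))

def TB (a : ℕ) : Tr := [T0, T1, T2, T3, T4, T5, T6, T7, T8, T9, T10].getD a T0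

noncomputable def col (a : Fin 11) (n : ℕ) : SV := cond (Nat.ble 2048 n) [] ((TB a).get n)

def okb (n : ℕ) : Bool :=
  decide (n < 2048) && (List.finRange 11).all fun a => !n.testBit a || (n &&& fm a == 2 ^ a.val)

noncomputable def app (a : Fin 11) (l : SV) : SV :=
  l.flatMap fun p => (col a p.2).map fun t => (p.1 * t.1, t.2)

def cf (l : SV) (n : ℕ) : ℤ := (l.map fun p => if p.2 = n then p.1 else 0).sum

def eqb (l l' : SV) : Bool := (l ++ l').all fun p => cf l p.2 == cf l' p.2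

noncomputable def chk (n : ℕ) : Bool := cond (okb n)
  ((((List.finRange 11).all fun a => (List.finRange 11).all fun b =>
    decide (b ≤ a) || eqb (app a (app b [(1, n)])) (app b (app a [(1, n)]))) &&
  RL.all fun r => eqb (app r.1 (app r.2.1 [(1, n)]))
    (r.2.2.flatMap fun q => app q.2.1 (app q.2.2 [(q.1, n)]))) &&
  (List.finRange 11).all fun a => !(n &&& fm a == 0) || col a n == [(1, n ||| 2 ^ a.val)])
  ((List.finRange 11).all fun a => (col a n).isEmpty)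

theorem chk0 : (List.range' 0 256).all chk = true := by decide +kernel

theorem chk1 : (List.range' 256 256).all chk = true := by decide +kernel

theorem chk2 : (List.range' 512 256).all chk = true := by decide +kernel

theorem chk3 : (List.range' 768 256).all chk = true := by decide +kernel

theorem chk4 : (List.range' 1024 256).all chk = true := by decide +kernel

theorem chk5 : (List.range' 1280 256).all chk = true := by decide +kernel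

theorem chk6 : (List.range' 1536 256).all chk = true := by decide +kernel

theorem chk7 : (List.range' 1792 256).all chk = true := by decide +kernel

theorem chk_lt {n : ℕ} (h : n < 2048) : chk n = true := by
  by_cases h0 : n < 256
  · exact List.all_eq_true.1 chk0 n (List.mem_range'_1.2 (by omega))
  by_cases h1 : n < 512
  · exact List.all_eq_true.1 chk1 n (List.mem_range'_1.2 (by omega))
  by_cases h2 : n < 768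
  · exact List.all_eq_true.1 chk2 n (List.mem_range'_1.2 (by omega))
  by_cases h3 : n < 1024
  · exact List.all_eq_true.1 chk3 n (List.mem_range'_1.2 (by omega))
  by_cases h4 : n < 1280
  · exact List.all_eq_true.1 chk4 n (List.mem_range'_1.2 (by omega))
  by_cases h5 : n < 1536
  · exact List.all_eq_true.1 chk5 n (List.mem_range'_1.2 (by omega))
  by_cases h6 : n < 1792
  · exact List.all_eq_true.1 chk6 n (List.mem_range'_1.2 (by omega))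
  by_cases h7 : n < 2048
  · exact List.all_eq_true.1 chk7 n (List.mem_range'_1.2 (by omega))
  omega

end Pool.Agent.H72.Kz
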