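import Pool.Agent.H72.KzB

set_option autoImplicit false
set_option linter.unusedVariables false
set_option linter.unusedSimpArgs false
set_option linter.unnecessarySeqFocus false
set_option linter.unusedSectionVars false

namespace Pool.Agent.H72.Kz

open Finsupp

noncomputable def ev (l : SV) : ℕ →₀ ℚ := (l.map fun p => single p.2 (p.1 : ℚ)).sum

theorem ev_cons (p : ℤ × ℕ) (l : SV) : ev (p :: l) = single p.2 (p.1 : ℚ) + ev l := by simp [ev]

theorem ev_append (l l' : SV) : ev (l ++ l') = ev l + ev l' := by simp [ev]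

theorem ev_apply (l : SV) (n : ℕ) : ev l n = cf l n := by
  induction l with
  | nil => simp [ev, cf]
  | cons p l ih =>
    rw [ev_cons, Finsupp.add_apply, ih, single_apply]
    simp only [cf, List.map_cons, List.sum_cons]
    split_ifs <;> simp

theorem ev_eq {l l' : SV} (h : eqb l l' = true) : ev l = ev l' := by
  ext n
  rw [ev_apply, ev_apply]
  by_cases hn : ∃ p ∈ l ++ l', p.2 = n
  · obtain ⟨p, hp, rfl⟩ := hn
    rw [beq_iff_eq.1 (List.all_eq_true.1 h p hp)]
  · have : ∀ m : SV, (∀ p ∈ m, p ∈ l ++ l') → cf m n = 0 := fun m hm =>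
      List.sum_eq_zero fun x hx => by
        obtain ⟨p, hp, rfl⟩ := List.mem_map.1 hx
        exact if_neg fun e => hn ⟨p, hm p hp, e⟩
    rw [this l fun p hp => List.mem_append_left _ hp, this l' fun p hp => List.mem_append_right _ hp]

noncomputable def YY (a : Fin 11) : Module.End ℚ (ℕ →₀ ℚ) :=
  linearCombination ℚ fun n => ev (col a n)

theorem ev_scale (c : ℤ) (l : SV) : ev (l.map fun t => (c * t.1, t.2)) = (c : ℚ) • ev l := by
  induction l with
  | nil => simp [ev]
  | cons p l ih => rw [List.map_cons, ev_cons, ev_cons, ih, smul_add]; simp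

theorem ev_app (a : Fin 11) (l : SV) : ev (app a l) = YY a (ev l) := by
  induction l with
  | nil => simp [ev, app]
  | cons p l ih =>
    rw [app, List.flatMap_cons, ev_append, ev_cons, map_add, ← ih, YY, linearCombination_single]
    congr 1
    exact ev_scale _ _

theorem ev_one (c : ℤ) (n : ℕ) : ev [(c, n)] = single n (c : ℚ) := by simp [ev]

theorem chk_of {n : ℕ} (h : okb n = true) : chk n = true := by
  refine chk_lt ?_
  simp only [okb, Bool.and_eq_true, decide_eq_true_eq] at h
  exact h.1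

theorem YY_zero {n : ℕ} (h : ¬ okb n = true) (a : Fin 11) (c : ℚ) : YY a (single n c) = 0 := by
  have : col a n = [] := by
    by_cases hn : n < 2048
    · have := chk_lt hn
      rw [chk, Bool.eq_false_iff.2 h, cond_false, List.all_eq_true] at this
      exact List.isEmpty_iff.1 (this a (List.mem_finRange _))
    · rw [col, Nat.ble_eq.mpr (not_lt.1 hn), cond_true]
  simp [YY, this, ev]

theorem YY_comm (a b : Fin 11) : YY a * YY b = YY b * YY a := by
  wlog hab : a < b generalizing a b
  · rcases (not_lt.1 hab).eq_or_lt with rfl | h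
    · rfl
    · exact (this b a h).symm
  refine Finsupp.lhom_ext' fun n => LinearMap.ext_ring ?_
  show YY a (YY b (single n 1)) = YY b (YY a (single n 1))
  by_cases h : okb n = true
  · have := chk_of h
    simp only [chk, h, cond_true, Bool.and_eq_true, List.all_eq_true,
      Bool.or_eq_true, decide_eq_true_eq] at this
    have := ev_eq ((this.1.1 a (List.mem_finRange _) b (List.mem_finRange _)).resolve_left (not_le.2 hab))
    simpa [ev_app, ev_one] using this
  · simp [YY_zero h]

theorem YY_GR : GR YY := by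
  intro r hr
  refine Finsupp.lhom_ext' fun n => LinearMap.ext_ring ?_
  show YY r.1 (YY r.2.1 (single n 1)) = (r.2.2.map fun q => q.1 • (YY q.2.1 * YY q.2.2)).sum (single n 1)
  have e : ∀ L : List (ℤ × Fin 11 × Fin 11), (L.map fun q => q.1 • (YY q.2.1 * YY q.2.2)).sum (single n 1) =
      ev (L.flatMap fun q => app q.2.1 (app q.2.2 [(q.1, n)])) := fun L => by
    induction L with
    | nil => simp [ev]
    | cons q L ih =>
      rw [List.map_cons, List.sum_cons, LinearMap.add_apply, ih, List.flatMap_cons, ev_append, ev_app,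
        ev_app, ev_one, LinearMap.smul_apply, Module.End.mul_apply, ← map_zsmul, ← map_zsmul]
      simp
  by_cases h : okb n = true
  · have := chk_of h
    simp only [chk, h, cond_true, Bool.and_eq_true, List.all_eq_true] at this
    rw [e, ← ev_eq (this.1.2 r hr)]
    simp [ev_app, ev_one]
  · rw [YY_zero h, map_zero]
    induction r.2.2 with
    | nil => simp
    | cons q L ih =>
      rw [List.map_cons, List.sum_cons, LinearMap.add_apply, ← ih, LinearMap.smul_apply,
        Module.End.mul_apply, YY_zero h, map_zero, smul_zero, add_zero]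

def Clq (S : Finset (Fin 11)) : Prop := ∀ a ∈ S, ∀ b ∈ S, a ≠ b → ¬ forb a b

instance : DecidablePred Clq := fun S => inferInstanceAs (Decidable (∀ a ∈ S, ∀ b ∈ S, _))

theorem forb_self : ∀ a, forb a a := by decide

theorem forb_symm : ∀ a b, forb a b → forb b a := by decide

theorem fm_lt : ∀ a : Fin 11, fm a < 2 ^ 11 := by decide

theorem code {R : Type} [CommRing R] (y : Fin 11 → R) (ρ : R →+* Module.End ℚ (ℕ →₀ ℚ))
    (hρ : ∀ a, ρ (y a) = YY a) (S : Finset (Fin 11)) (hS : Clq S) :
    ∃ n : ℕ, (∀ b, n.testBit b = true ↔ ∃ a ∈ S, a.val = b) ∧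
      ρ (∏ a ∈ S, y a) (single 0 1) = single n 1 := by
  induction S using Finset.induction_on with
  | empty => exact ⟨0, by simp, by simp⟩
  | insert a S ha ih =>
    obtain ⟨n, h1, h2⟩ := ih fun b hb c hc => hS b (Finset.mem_insert_of_mem hb) c
      (Finset.mem_insert_of_mem hc)
    have ok : okb n = true := by
      simp only [okb, Bool.and_eq_true, decide_eq_true_eq, List.all_eq_true, Bool.or_eq_true,
        Bool.not_eq_true', beq_iff_eq]
      refine ⟨Nat.lt_pow_two_of_testBit (n := 11) n fun i hi => ?_, fun b _ => ?_⟩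
      · rw [← Bool.not_eq_true, h1]
        rintro ⟨c, -, rfl⟩
        omega
      · by_cases hb : n.testBit b = true
        · refine Or.inr (Nat.eq_of_testBit_eq fun i => ?_)
          obtain ⟨b', hb', e⟩ := (h1 _).1 hb
          obtain rfl : b' = b := Fin.ext e
          rw [Nat.testBit_and, Nat.testBit_two_pow, Bool.eq_iff_iff, Bool.and_eq_true, h1,
            decide_eq_true_eq]
          constructor
          · rintro ⟨⟨c, hc, rfl⟩, h⟩
            by_contra hne
            exact hS b' (Finset.mem_insert_of_mem hb') c (Finset.mem_insert_of_mem hc)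
              (fun e => hne (congrArg _ e)) h
          · rintro rfl
            exact ⟨⟨b', hb', rfl⟩, forb_self b'⟩
        · exact Or.inl (by simpa using hb)
    have z : n &&& fm a = 0 := Nat.eq_of_testBit_eq fun i => by
      rw [Nat.testBit_and, Nat.zero_testBit, ← Bool.not_eq_true, Bool.and_eq_true, h1]
      rintro ⟨⟨c, hc, rfl⟩, h⟩
      exact hS a (Finset.mem_insert_self _ _) c (Finset.mem_insert_of_mem hc)
        (fun e => ha (e ▸ hc)) h
    refine ⟨n ||| 2 ^ a.val, fun b => ?_, ?_⟩
    · simp only [Nat.testBit_or, Nat.testBit_two_pow, Bool.or_eq_true, h1, decide_eq_true_eq,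
        Finset.mem_insert, exists_eq_or_imp]
      exact or_comm
    · rw [Finset.prod_insert ha, map_mul, Module.End.mul_apply, h2, hρ]
      have := chk_of ok
      simp only [chk, ok, cond_true, Bool.and_eq_true, List.all_eq_true] at this
      have := this.2 a (List.mem_finRange _)
      simp only [z, beq_self_eq_true, Bool.not_true, Bool.false_or, beq_iff_eq] at this
      simp [YY, this, ev_one]

noncomputable def ind (S : Finset (Fin 11)) : Fin 11 →₀ ℕ := ∑ a ∈ S, single a 1

theorem ind_apply (S : Finset (Fin 11)) (b : Fin 11) : ind S b = if b ∈ S then 1 else 0 := by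
  simp [ind, finsetSum_apply, single_apply]

theorem mon_ind {R : Type} [CommRing R] (y : Fin 11 → R) (S : Finset (Fin 11)) :
    mon y (ind S) = ∏ a ∈ S, y a := by
  induction S using Finset.induction_on with
  | empty => simp [ind]
  | insert a S ha ih => rw [ind, Finset.sum_insert ha, mon_add, mon_single, Finset.prod_insert ha, ← ih, ind]

theorem std_iff (m : Fin 11 →₀ ℕ) : Std forb m ↔ ∃ S, Clq S ∧ ind S = m := by
  constructor
  · intro h
    refine ⟨m.support, fun a ha b hb hab hf => h a b hf fun c => ?_, Finsupp.ext fun a => ?_⟩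
    · have := mem_support_iff.1 ha
      have := mem_support_iff.1 hb
      simp only [Finsupp.add_apply, single_apply]
      split_ifs <;> subst_vars <;> omega
    · have : ¬ 2 ≤ m a := fun h2 => h a a (forb_self a) (by rw [← single_add, single_le_iff]; exact h2)
      rw [ind_apply]
      split_ifs with ha
      · have := mem_support_iff.1 ha
        omega
      · exact (notMem_support_iff.1 ha).symm
  · rintro ⟨S, hS, rfl⟩ a b hab hle
    have h1 := hle a
    have h2 := hle b
    simp only [Finsupp.add_apply, single_apply, ind_apply, if_true] at h1 h2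
    by_cases e : a = b
    · subst e; split_ifs at h1 <;> simp_all
    · refine hS a ?_ b ?_ e hab <;> by_contra hn <;> simp_all

theorem red_facts : (∀ a b, forb a b → ∃ r ∈ RL, (r.1 = a ∧ r.2.1 = b) ∨ (r.1 = b ∧ r.2.1 = a)) ∧
    ∀ r ∈ RL, ∀ q ∈ r.2.2, r.1 ≤ r.2.1 ∧ q.2.1 ≤ q.2.2 ∧
      (r.1 < q.2.1 ∨ (r.1 = q.2.1 ∧ r.2.1 < q.2.2)) := by decide +kernel

theorem lex_pair {a b c d : Fin 11} (h1 : a ≤ b) (h2 : c ≤ d) (h : a < c ∨ (a = c ∧ b < d)) :
    toLex (single c 1 + single d 1 : Fin 11 →₀ ℕ) < toLex (single a 1 + single b 1) := by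
  rw [Lex.lt_iff]
  rcases h with h | ⟨rfl, h⟩
  · refine ⟨a, fun j hj => ?_, ?_⟩ <;> simp only [ofLex_toLex, Finsupp.add_apply, single_apply] <;>
      split_ifs <;> omega
  · refine ⟨b, fun j hj => ?_, ?_⟩ <;> simp only [ofLex_toLex, Finsupp.add_apply, single_apply] <;>
      split_ifs <;> omega

variable {D : Type} [CommRing D] [Algebra ℚ D] {y : Fin 11 → D}

theorem gb (hG : GR y) (ρ : D →ₐ[ℚ] Module.End ℚ (ℕ →₀ ℚ)) (hρ : ∀ a, ρ (y a) = YY a)
    (hg : Algebra.adjoin ℚ (Set.range y) = ⊤) : GB ℚ y MonomialOrder.lex forb := by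
  refine ⟨forb_symm, fun a b hab => ?_, ?_, ?_⟩
  · obtain ⟨r, hr, h⟩ := red_facts.1 a b hab
    have : y r.1 * y r.2.1 ∈ Submodule.span ℚ (mon y '' {m | MonomialOrder.lex.toSyn m <
        MonomialOrder.lex.toSyn (single r.1 1 + single r.2.1 1) ∧ degree m = 2}) := by
      rw [hG r hr]
      refine list_sum_mem fun x hx => ?_
      obtain ⟨q, hq, rfl⟩ := List.mem_map.1 hx
      obtain ⟨h1, h2, h3⟩ := red_facts.2 r hr q hq
      refine zsmul_mem (Submodule.subset_span ?_) _
      exact ⟨single q.2.1 1 + single q.2.2 1,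
        ⟨lex_pair h1 h2 h3, by simp⟩, by rw [mon_add, mon_single, mon_single]⟩
    rcases h with ⟨rfl, rfl⟩ | ⟨rfl, rfl⟩
    · exact this
    · rwa [mul_comm, add_comm]
  · have : ∀ m : {m | Std forb m}, ∃ n : ℕ, (∀ b : Fin 11, n.testBit b = true ↔ m.1 b = 1) ∧
        (∀ b, m.1 b ≤ 1) ∧ ρ (mon y m) (single 0 1) = single n 1 := by
      rintro ⟨m, hm⟩
      obtain ⟨S, hS, rfl⟩ := (std_iff m).1 hm
      obtain ⟨n, h1, h2⟩ := code y ρ.toRingHom hρ S hS
      refine ⟨n, fun b => ?_, fun b => ?_, by rw [mon_ind]; exact h2⟩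
      · simp [h1, ind_apply, Fin.val_inj]
      · rw [ind_apply]; split_ifs <;> omega
    choose nn h1 h2 h3 using this
    have inj : Function.Injective nn := fun m m' e => Subtype.ext (Finsupp.ext fun b => by
      have a1 := h1 m b
      have a2 := h1 m' b
      have a3 := h2 m b
      have a4 := h2 m' b
      rw [e, a2] at a1
      omega)
    refine LinearIndependent.of_comp ((LinearMap.applyₗ (single 0 1)).comp ρ.toLinearMap) ?_
    have := (Finsupp.basisSingleOne (R := ℚ) (ι := ℕ)).linearIndependent.comp nn inj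
    have e : (LinearMap.applyₗ (single 0 1)).comp ρ.toLinearMap ∘ (fun m : {m | Std forb m} => mon y m) =
        Finsupp.basisSingleOne ∘ nn := funext fun m => h3 m
    rwa [e]
  · rw [eq_top_iff]
    rintro a -
    have : a ∈ Algebra.adjoin ℚ (Set.range y) := hg ▸ Algebra.mem_top
    induction this using Algebra.adjoin_induction with
    | mem a ha => obtain ⟨j, rfl⟩ := ha; exact Submodule.subset_span ⟨single j 1, by simp⟩
    | algebraMap r =>
      rw [Algebra.algebraMap_eq_smul_one]
      exact Submodule.smul_mem _ _ (Submodule.subset_span ⟨0, by simp⟩)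
    | add a b _ _ h h' => exact add_mem h h'
    | mul a b _ _ h h' =>
      have := Submodule.mul_mem_mul h h'
      rw [Submodule.span_mul_span] at this
      refine Submodule.span_mono ?_ this
      rintro _ ⟨_, ⟨m, rfl⟩, _, ⟨n, rfl⟩, rfl⟩
      exact ⟨m + n, mon_add y m n⟩

theorem pow_eq (n : ℕ) : Submodule.span ℚ (Set.range y) ^ n =
    Submodule.span ℚ (mon y '' {m | degree m = n}) := by
  induction n with
  | zero =>
    have : {m : Fin 11 →₀ ℕ | degree m = 0} = {0} := by ext m; simp [degree_eq_zero_iff]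
    rw [this, pow_zero, Submodule.one_eq_span]; simp
  | succ n ih =>
    rw [pow_succ, ih, Submodule.span_mul_span]
    congr 1
    ext x
    constructor
    · rintro ⟨_, ⟨m, hm, rfl⟩, _, ⟨a, rfl⟩, rfl⟩
      exact ⟨m + single a 1, by simpa using hm, by rw [mon_add, mon_single]⟩
    · rintro ⟨m, hm, rfl⟩
      have hm' : degree m = n + 1 := hm
      obtain ⟨a, ha⟩ : ∃ a, m a ≠ 0 := by
        by_contra hn
        rw [show m = 0 from Finsupp.ext fun a => by_contra fun h => hn ⟨a, h⟩] at hm'
        simp at hm'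
      obtain ⟨w, rfl⟩ : ∃ w, m = w + single a 1 :=
        ⟨m - single a 1, (tsub_add_cancel_of_le (single_le_iff.2 (Nat.pos_of_ne_zero ha))).symm⟩
      exact ⟨_, ⟨w, by simpa using hm', rfl⟩, _, ⟨a, rfl⟩, by rw [mon_add, mon_single]⟩

theorem counts : ∀ i : Fin 12, ((Finset.univ.powersetCard i).filter Clq).card =
    [1, 11, 39, 59, 39, 11, 1].getD i 0 := by decide +kernel

theorem hilb (h : GB ℚ y MonomialOrder.lex forb) (n : ℕ) :
    Module.finrank ℚ ↥(Submodule.span ℚ (Set.range y) ^ n) = [1, 11, 39, 59, 39, 11, 1].getD n 0 := by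
  have dg : ∀ S, degree (ind S) = S.card := fun S => by simp [ind]
  have inj : Function.Injective ind := fun S T e => Finset.ext fun a => by
    have := DFunLike.congr_fun e a
    rw [ind_apply, ind_apply] at this
    split_ifs at this <;> simp_all
  let F := (Finset.univ.powersetCard n).filter Clq
  have e : Submodule.span ℚ (Set.range y) ^ n = Submodule.span ℚ (Set.range fun S : F => mon y (ind S)) := by
    rw [pow_eq]
    apply le_antisymm
    · rw [Submodule.span_le]
      rintro _ ⟨m, hm, rfl⟩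
      refine Submodule.span_mono ?_ (mon_red h m)
      rintro _ ⟨u, ⟨h1, -, h2⟩, rfl⟩
      obtain ⟨S, hS, rfl⟩ := (std_iff u).1 h1
      exact ⟨⟨S, by simp [F, hS, ← dg, h2.trans hm]⟩, rfl⟩
    · refine Submodule.span_mono ?_
      rintro _ ⟨⟨S, hS⟩, rfl⟩
      exact ⟨_, (dg S).trans (by simp [F] at hS; exact hS.1), rfl⟩
  rw [e, finrank_span_eq_card, Fintype.card_coe]
  · by_cases hn : n < 12
    · exact counts ⟨n, hn⟩
    · rw [List.getD_eq_default _ _ (by simp; omega)]
      simp only [F]
      rw [Finset.powersetCard_eq_empty.2 (by simp; omega)]; rfl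
  · exact h.ind.linearIndependent.comp (fun S : F => (⟨ind S, (std_iff _).2
      ⟨S, (Finset.mem_filter.1 S.2).2, rfl⟩⟩ : {m | Std forb m})) fun S T e =>
        Subtype.ext (inj (congrArg Subtype.val e))

theorem model : ∃ (R : Type) (_ : CommRing R) (_ : Algebra ℚ R) (z : Fin 11 → R)
    (ι : R →ₐ[ℚ] Module.End ℚ (ℕ →₀ ℚ)), GR z ∧ ∀ a, ι (z a) = YY a := by
  have hc : ∀ a ∈ Set.range YY, ∀ b ∈ Set.range YY, a * b = b * a := by
    rintro _ ⟨j, rfl⟩ _ ⟨l, rfl⟩; exact YY_comm j l
  let _ := Algebra.adjoinCommRingOfComm ℚ hc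
  refine ⟨Algebra.adjoin ℚ (Set.range YY), inferInstance, inferInstance,
    fun a => ⟨YY a, Algebra.subset_adjoin ⟨a, rfl⟩⟩, (Algebra.adjoin ℚ (Set.range YY)).val,
    fun r hr => Subtype.ext ?_, fun _ => rfl⟩
  refine (YY_GR r hr).trans ?_
  induction r.2.2 with
  | nil => rfl
  | cons q L ih => rw [List.map_cons, List.map_cons, List.sum_cons, List.sum_cons, ih]; rfl

theorem nonreal : ∃ z : ℂ, z.im ≠ 0 ∧
    1 + 11 * z + 39 * z ^ 2 + 59 * z ^ 3 + 39 * z ^ 4 + 11 * z ^ 5 + z ^ 6 = 0 := by
  let P : Cubic ℂ := ⟨1, 5, 4, 1⟩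
  obtain ⟨a, b, c, h3⟩ := (Cubic.splits_iff_roots_eq_three (φ := RingHom.id ℂ) (P := P) one_ne_zero).1
    (IsAlgClosed.splits _)
  have hd := Cubic.discr_eq_prod_three_roots one_ne_zero h3
  have : ∃ s : ℂ, s.im ≠ 0 ∧ s ∈ (Cubic.map (RingHom.id ℂ) P).roots := by
    by_contra hn
    simp only [h3, not_exists, not_and, Multiset.insert_eq_cons, Multiset.mem_cons,
      Multiset.mem_singleton] at hn
    have ha : a.im = 0 := by_contra fun h => hn a h (Or.inl rfl)
    have hb : b.im = 0 := by_contra fun h => hn b h (Or.inr (Or.inl rfl))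
    have hc : c.im = 0 := by_contra fun h => hn c h (Or.inr (Or.inr rfl))
    lift a to ℝ using ha
    lift b to ℝ using hb
    lift c to ℝ using hc
    have e : ((-23 : ℝ) : ℂ) = (((a - b) * (a - c) * (b - c)) ^ 2 : ℝ) := by
      simp only [Cubic.discr, P, RingHom.id_apply] at hd
      push_cast
      linear_combination hd
    have := Complex.ofReal_injective e
    nlinarith [sq_nonneg ((a - b) * (a - c) * (b - c))]
  obtain ⟨s, hs, hr⟩ := this
  have hr' : s ^ 3 + 5 * s ^ 2 + 4 * s + 1 = 0 := by
    have := (Cubic.mem_roots_iff (P := P) (Cubic.ne_zero_of_a_ne_zero one_ne_zero) s).1 hr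
    simpa [P] using this
  obtain ⟨w, hw⟩ := IsAlgClosed.exists_eq_mul_self (s ^ 2 - 4 * s)
  have hz : ((s - 2 + w) / 2) ^ 2 + (2 - s) * ((s - 2 + w) / 2) + 1 = 0 := by
    linear_combination (-1 / 4 : ℂ) * hw
  generalize (s - 2 + w) / 2 = z at hz
  refine ⟨z, fun h => ?_, ?_⟩
  · have h1 := congrArg Complex.im hz
    have h2 := congrArg Complex.re hz
    simp [sq, h, hs] at h1 h2
    simp [h1] at h2
  · have e : (1 + z) ^ 2 = s * z := by linear_combination hz
    have : 1 + 11 * z + 39 * z ^ 2 + 59 * z ^ 3 + 39 * z ^ 4 + 11 * z ^ 5 + z ^ 6 =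
        ((1 + z) ^ 2) ^ 3 + 5 * z * ((1 + z) ^ 2) ^ 2 + 4 * z ^ 2 * (1 + z) ^ 2 + z ^ 3 := by ring
    rw [this, e]
    linear_combination z ^ 3 * hr'

end Pool.Agent.H72.Kz
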