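import Mathlib

set_option autoImplicit false

namespace Pool.Agent.H72.KzDef

open Matrix

/-- The residue field `A / A V` has a free resolution `⋯ → A^(b 2) → A^(b 1) → A^(b 0) = A` all of whose
matrices have entries in the degree-one part `V`. -/
def Koszul (k : Type) [Field k] (A : Type) [CommRing A] [Algebra k A] (V : Submodule k A) : Prop :=
  ∃ (b : ℕ → ℕ) (d : ∀ n, Matrix (Fin (b (n + 1))) (Fin (b n)) A), b 0 = 1 ∧
    (∀ n i j, d n i j ∈ V) ∧
    (∀ f, (∃ g, g ᵥ* d 0 = f) ↔ ∀ j, f j ∈ Ideal.span (V : Set A)) ∧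
    ∀ n f, (∃ g, g ᵥ* d (n + 1) = f) ↔ f ᵥ* d n = 0

end Pool.Agent.H72.KzDef
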