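import Mathlib

set_option autoImplicit false

namespace H72.Leib

abbrev Idx := Fin 6 × Fin 6 × Fin 6

/-- the base algebra: `e2 e0 = e1 e0 = e3 e3 = e4`, `e1 e2 = e0 e3 = e5`. -/
def c0 (s : Idx) : ℂ := (![![![0, 0, 0, 0, 0, 0], ![0, 0, 0, 0, 0, 0], ![0, 0, 0, 0, 0, 0], ![0, 0, 0, 0, 0, 1], ![0, 0, 0, 0, 0, 0], ![0, 0, 0, 0, 0, 0]], ![![0, 0, 0, 0, 1, 0], ![0, 0, 0, 0, 0, 0], ![0, 0, 0, 0, 0, 1], ![0, 0, 0, 0, 0, 0], ![0, 0, 0, 0, 0, 0], ![0, 0, 0, 0, 0, 0]], ![![0, 0, 0, 0, 1, 0], ![0, 0, 0, 0, 0, 0], ![0, 0, 0, 0, 0, 0], ![0, 0, 0, 0, 0, 0], ![0, 0, 0, 0, 0, 0], ![0, 0, 0, 0, 0, 0]], ![![0, 0, 0, 0, 0, 0], ![0, 0, 0, 0, 0, 0], ![0, 0, 0, 0, 0, 0], ![0, 0, 0, 0, 1, 0], ![0, 0, 0, 0, 0, 0], ![0, 0, 0, 0, 0, 0]], ![![0, 0, 0, 0, 0, 0], ![0, 0, 0, 0, 0, 0], ![0, 0, 0, 0, 0, 0], ![0, 0, 0, 0, 0, 0], ![0, 0, 0, 0, 0, 0], ![0, 0, 0, 0, 0, 0]], ![![0, 0, 0, 0, 0, 0], ![0, 0, 0, 0, 0, 0], ![0, 0, 0, 0, 0, 0], ![0, 0, 0, 0, 0, 0], ![0, 0, 0, 0, 0, 0], ![0, 0, 0,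 0, 0, 0]]] : Fin 6 → Fin 6 → Fin 6 → ℂ) s.1 s.2.1 s.2.2

theorem f6 {P : Fin 6 → Prop} (h0 : P 0) (h1 : P 1) (h2 : P 2) (h3 : P 3) (h4 : P 4) (h5 : P 5) :
    ∀ i, P i := by
  intro i
  fin_cases i
  exacts [h0, h1, h2, h3, h4, h5]

theorem cert (z : Idx → ℂ)
    (hL : ∀ i j k : Fin 6, i.val < 4 → j.val < 4 → 4 ≤ k.val → z (i,j,k) = 0)
    (hA : ∀ k : Fin 6, k.val < 4 → z (2,0,k) = 0)
    (hB : ∀ k : Fin 6, k.val < 4 → z (1,2,k) = 0)
    (hE : ∀ i j k m : Fin 6, ∑ l : Fin 6,
      ((c0 (j,k,l) * z (i,l,m) + z (j,k,l) * c0 (i,l,m))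
        - (c0 (i,j,l) * z (l,k,m) + z (i,j,l) * c0 (l,k,m))
        - (c0 (i,k,l) * z (j,l,m) + z (i,k,l) * c0 (j,l,m))) = 0) :
    ∀ i j k : Fin 6, z (i,j,k) = 0 := by
  have z004 : z (0,0,4) = 0 := hL 0 0 4 (by decide) (by decide) (by decide)
  have z005 : z (0,0,5) = 0 := hL 0 0 5 (by decide) (by decide) (by decide)
  have z014 : z (0,1,4) = 0 := hL 0 1 4 (by decide) (by decide) (by decide)
  have z015 : z (0,1,5) = 0 := hL 0 1 5 (by decide) (by decide) (by decide)
  have z024 : z (0,2,4) = 0 := hL 0 2 4 (by decide) (by decide) (by decide)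
  have z025 : z (0,2,5) = 0 := hL 0 2 5 (by decide) (by decide) (by decide)
  have z034 : z (0,3,4) = 0 := hL 0 3 4 (by decide) (by decide) (by decide)
  have z035 : z (0,3,5) = 0 := hL 0 3 5 (by decide) (by decide) (by decide)
  have z104 : z (1,0,4) = 0 := hL 1 0 4 (by decide) (by decide) (by decide)
  have z105 : z (1,0,5) = 0 := hL 1 0 5 (by decide) (by decide) (by decide)
  have z114 : z (1,1,4) = 0 := hL 1 1 4 (by decide) (by decide) (by decide)
  have z115 : z (1,1,5) = 0 := hL 1 1 5 (by decide) (by decide) (by decide)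
  have z124 : z (1,2,4) = 0 := hL 1 2 4 (by decide) (by decide) (by decide)
  have z125 : z (1,2,5) = 0 := hL 1 2 5 (by decide) (by decide) (by decide)
  have z134 : z (1,3,4) = 0 := hL 1 3 4 (by decide) (by decide) (by decide)
  have z135 : z (1,3,5) = 0 := hL 1 3 5 (by decide) (by decide) (by decide)
  have z204 : z (2,0,4) = 0 := hL 2 0 4 (by decide) (by decide) (by decide)
  have z205 : z (2,0,5) = 0 := hL 2 0 5 (by decide) (by decide) (by decide)
  have z214 : z (2,1,4) = 0 := hL 2 1 4 (by decide) (by decide) (by decide)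
  have z215 : z (2,1,5) = 0 := hL 2 1 5 (by decide) (by decide) (by decide)
  have z224 : z (2,2,4) = 0 := hL 2 2 4 (by decide) (by decide) (by decide)
  have z225 : z (2,2,5) = 0 := hL 2 2 5 (by decide) (by decide) (by decide)
  have z234 : z (2,3,4) = 0 := hL 2 3 4 (by decide) (by decide) (by decide)
  have z235 : z (2,3,5) = 0 := hL 2 3 5 (by decide) (by decide) (by decide)
  have z304 : z (3,0,4) = 0 := hL 3 0 4 (by decide) (by decide) (by decide)
  have z305 : z (3,0,5) = 0 := hL 3 0 5 (by decide) (by decide) (by decide)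
  have z314 : z (3,1,4) = 0 := hL 3 1 4 (by decide) (by decide) (by decide)
  have z315 : z (3,1,5) = 0 := hL 3 1 5 (by decide) (by decide) (by decide)
  have z324 : z (3,2,4) = 0 := hL 3 2 4 (by decide) (by decide) (by decide)
  have z325 : z (3,2,5) = 0 := hL 3 2 5 (by decide) (by decide) (by decide)
  have z334 : z (3,3,4) = 0 := hL 3 3 4 (by decide) (by decide) (by decide)
  have z335 : z (3,3,5) = 0 := hL 3 3 5 (by decide) (by decide) (by decide)
  have z120 : z (1,2,0) = 0 := hB 0 (by decide)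
  have z121 : z (1,2,1) = 0 := hB 1 (by decide)
  have z122 : z (1,2,2) = 0 := hB 2 (by decide)
  have z123 : z (1,2,3) = 0 := hB 3 (by decide)
  have z200 : z (2,0,0) = 0 := hA 0 (by decide)
  have z201 : z (2,0,1) = 0 := hA 1 (by decide)
  have z202 : z (2,0,2) = 0 := hA 2 (by decide)
  have z203 : z (2,0,3) = 0 := hA 3 (by decide)
  have e0025 : (-1 : ℂ) * z (0,0,1) = 0 := by
    have h := hE 0 0 2 5
    simp only [Fin.sum_univ_six, c0, Matrix.cons_val] at h
    linear_combination h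
  have z001 : z (0,0,1) = 0 := by linear_combination (-1 : ℂ) * e0025
  have e0034 : (-1 : ℂ) * z (0,0,3) = 0 := by
    have h := hE 0 0 3 4
    simp only [Fin.sum_univ_six, c0, Matrix.cons_val] at h
    linear_combination h
  have z003 : z (0,0,3) = 0 := by linear_combination (-1 : ℂ) * e0034
  have e0035 : (-1 : ℂ) * z (0,0,0) = 0 := by
    have h := hE 0 0 3 5
    simp only [Fin.sum_univ_six, c0, Matrix.cons_val] at h
    linear_combination h
  have z000 : z (0,0,0) = 0 := by linear_combination (-1 : ℂ) * e0035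
  have e0100 : (1 : ℂ) * z (0,4,0) = 0 := by
    have h := hE 0 1 0 0
    simp only [Fin.sum_univ_six, c0, Matrix.cons_val] at h
    linear_combination h
  have z040 : z (0,4,0) = 0 := by linear_combination (1 : ℂ) * e0100
  have e0101 : (1 : ℂ) * z (0,4,1) = 0 := by
    have h := hE 0 1 0 1
    simp only [Fin.sum_univ_six, c0, Matrix.cons_val] at h
    linear_combination h
  have z041 : z (0,4,1) = 0 := by linear_combination (1 : ℂ) * e0101
  have e0102 : (1 : ℂ) * z (0,4,2) = 0 := by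
    have h := hE 0 1 0 2
    simp only [Fin.sum_univ_six, c0, Matrix.cons_val] at h
    linear_combination h
  have z042 : z (0,4,2) = 0 := by linear_combination (1 : ℂ) * e0102
  have e0103 : (1 : ℂ) * z (0,4,3) = 0 := by
    have h := hE 0 1 0 3
    simp only [Fin.sum_univ_six, c0, Matrix.cons_val] at h
    linear_combination h
  have z043 : z (0,4,3) = 0 := by linear_combination (1 : ℂ) * e0103
  have e0114 : (-1 : ℂ) * z (0,1,0) = 0 := by
    have h := hE 0 1 1 4
    simp only [Fin.sum_univ_six, c0, Matrix.cons_val] at h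
    linear_combination h
  have z010 : z (0,1,0) = 0 := by linear_combination (-1 : ℂ) * e0114
  have e0120 : (1 : ℂ) * z (0,5,0) = 0 := by
    have h := hE 0 1 2 0
    simp only [Fin.sum_univ_six, c0, Matrix.cons_val] at h
    linear_combination h
  have z050 : z (0,5,0) = 0 := by linear_combination (1 : ℂ) * e0120
  have e0121 : (1 : ℂ) * z (0,5,1) = 0 := by
    have h := hE 0 1 2 1
    simp only [Fin.sum_univ_six, c0, Matrix.cons_val] at h
    linear_combination h
  have z051 : z (0,5,1) = 0 := by linear_combination (1 : ℂ) * e0121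
  have e0122 : (1 : ℂ) * z (0,5,2) = 0 := by
    have h := hE 0 1 2 2
    simp only [Fin.sum_univ_six, c0, Matrix.cons_val] at h
    linear_combination h
  have z052 : z (0,5,2) = 0 := by linear_combination (1 : ℂ) * e0122
  have e0123 : (1 : ℂ) * z (0,5,3) = 0 := by
    have h := hE 0 1 2 3
    simp only [Fin.sum_univ_six, c0, Matrix.cons_val] at h
    linear_combination h
  have z053 : z (0,5,3) = 0 := by linear_combination (1 : ℂ) * e0123
  have e0130 : (-1 : ℂ) * z (1,5,0) = 0 := by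
    have h := hE 0 1 3 0
    simp only [Fin.sum_univ_six, c0, Matrix.cons_val] at h
    linear_combination h
  have z150 : z (1,5,0) = 0 := by linear_combination (-1 : ℂ) * e0130
  have e0131 : (-1 : ℂ) * z (1,5,1) = 0 := by
    have h := hE 0 1 3 1
    simp only [Fin.sum_univ_six, c0, Matrix.cons_val] at h
    linear_combination h
  have z151 : z (1,5,1) = 0 := by linear_combination (-1 : ℂ) * e0131
  have e0132 : (-1 : ℂ) * z (1,5,2) = 0 := by
    have h := hE 0 1 3 2
    simp only [Fin.sum_univ_six, c0, Matrix.cons_val] at h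
    linear_combination h
  have z152 : z (1,5,2) = 0 := by linear_combination (-1 : ℂ) * e0132
  have e0133 : (-1 : ℂ) * z (1,5,3) = 0 := by
    have h := hE 0 1 3 3
    simp only [Fin.sum_univ_six, c0, Matrix.cons_val] at h
    linear_combination h
  have z153 : z (1,5,3) = 0 := by linear_combination (-1 : ℂ) * e0133
  have e0145 : (-1 : ℂ) * z (0,4,2) + (1 : ℂ) * z (1,4,3) = 0 := by
    have h := hE 0 1 4 5
    simp only [Fin.sum_univ_six, c0, Matrix.cons_val] at h
    linear_combination h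
  have z143 : z (1,4,3) = 0 := by linear_combination (1 : ℂ) * e0145 + (1 : ℂ) * z042
  have e0205 : (1 : ℂ) * z (2,0,3) + (1 : ℂ) * z (0,4,5) = 0 := by
    have h := hE 0 2 0 5
    simp only [Fin.sum_univ_six, c0, Matrix.cons_val] at h
    linear_combination h
  have z045 : z (0,4,5) = 0 := by linear_combination (1 : ℂ) * e0205 + (-1 : ℂ) * z203
  have e0215 : (1 : ℂ) * z (2,1,3) = 0 := by
    have h := hE 0 2 1 5
    simp only [Fin.sum_univ_six, c0, Matrix.cons_val] at h
    linear_combination h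
  have z213 : z (2,1,3) = 0 := by linear_combination (1 : ℂ) * e0215
  have e0224 : (-1 : ℂ) * z (0,2,0) = 0 := by
    have h := hE 0 2 2 4
    simp only [Fin.sum_univ_six, c0, Matrix.cons_val] at h
    linear_combination h
  have z020 : z (0,2,0) = 0 := by linear_combination (-1 : ℂ) * e0224
  have e0230 : (-1 : ℂ) * z (2,5,0) = 0 := by
    have h := hE 0 2 3 0
    simp only [Fin.sum_univ_six, c0, Matrix.cons_val] at h
    linear_combination h
  have z250 : z (2,5,0) = 0 := by linear_combination (-1 : ℂ) * e0230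
  have e0231 : (-1 : ℂ) * z (2,5,1) = 0 := by
    have h := hE 0 2 3 1
    simp only [Fin.sum_univ_six, c0, Matrix.cons_val] at h
    linear_combination h
  have z251 : z (2,5,1) = 0 := by linear_combination (-1 : ℂ) * e0231
  have e0232 : (-1 : ℂ) * z (2,5,2) = 0 := by
    have h := hE 0 2 3 2
    simp only [Fin.sum_univ_six, c0, Matrix.cons_val] at h
    linear_combination h
  have z252 : z (2,5,2) = 0 := by linear_combination (-1 : ℂ) * e0232
  have e0233 : (-1 : ℂ) * z (2,5,3) = 0 := by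
    have h := hE 0 2 3 3
    simp only [Fin.sum_univ_six, c0, Matrix.cons_val] at h
    linear_combination h
  have z253 : z (2,5,3) = 0 := by linear_combination (-1 : ℂ) * e0233
  have e0245 : (1 : ℂ) * z (2,4,3) = 0 := by
    have h := hE 0 2 4 5
    simp only [Fin.sum_univ_six, c0, Matrix.cons_val] at h
    linear_combination h
  have z243 : z (2,4,3) = 0 := by linear_combination (1 : ℂ) * e0245
  have e0300 : (-1 : ℂ) * z (5,0,0) = 0 := by
    have h := hE 0 3 0 0
    simp only [Fin.sum_univ_six, c0, Matrix.cons_val] at h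
    linear_combination h
  have z500 : z (5,0,0) = 0 := by linear_combination (-1 : ℂ) * e0300
  have e0301 : (-1 : ℂ) * z (5,0,1) = 0 := by
    have h := hE 0 3 0 1
    simp only [Fin.sum_univ_six, c0, Matrix.cons_val] at h
    linear_combination h
  have z501 : z (5,0,1) = 0 := by linear_combination (-1 : ℂ) * e0301
  have e0302 : (-1 : ℂ) * z (5,0,2) = 0 := by
    have h := hE 0 3 0 2
    simp only [Fin.sum_univ_six, c0, Matrix.cons_val] at h
    linear_combination h
  have z502 : z (5,0,2) = 0 := by linear_combination (-1 : ℂ) * e0302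
  have e0303 : (-1 : ℂ) * z (5,0,3) = 0 := by
    have h := hE 0 3 0 3
    simp only [Fin.sum_univ_six, c0, Matrix.cons_val] at h
    linear_combination h
  have z503 : z (5,0,3) = 0 := by linear_combination (-1 : ℂ) * e0303
  have e0310 : (-1 : ℂ) * z (5,1,0) = 0 := by
    have h := hE 0 3 1 0
    simp only [Fin.sum_univ_six, c0, Matrix.cons_val] at h
    linear_combination h
  have z510 : z (5,1,0) = 0 := by linear_combination (-1 : ℂ) * e0310
  have e0311 : (-1 : ℂ) * z (5,1,1) = 0 := by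
    have h := hE 0 3 1 1
    simp only [Fin.sum_univ_six, c0, Matrix.cons_val] at h
    linear_combination h
  have z511 : z (5,1,1) = 0 := by linear_combination (-1 : ℂ) * e0311
  have e0312 : (-1 : ℂ) * z (5,1,2) = 0 := by
    have h := hE 0 3 1 2
    simp only [Fin.sum_univ_six, c0, Matrix.cons_val] at h
    linear_combination h
  have z512 : z (5,1,2) = 0 := by linear_combination (-1 : ℂ) * e0312
  have e0313 : (-1 : ℂ) * z (5,1,3) = 0 := by
    have h := hE 0 3 1 3
    simp only [Fin.sum_univ_six, c0, Matrix.cons_val] at h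
    linear_combination h
  have z513 : z (5,1,3) = 0 := by linear_combination (-1 : ℂ) * e0313
  have e0320 : (-1 : ℂ) * z (5,2,0) = 0 := by
    have h := hE 0 3 2 0
    simp only [Fin.sum_univ_six, c0, Matrix.cons_val] at h
    linear_combination h
  have z520 : z (5,2,0) = 0 := by linear_combination (-1 : ℂ) * e0320
  have e0321 : (-1 : ℂ) * z (5,2,1) = 0 := by
    have h := hE 0 3 2 1
    simp only [Fin.sum_univ_six, c0, Matrix.cons_val] at h
    linear_combination h
  have z521 : z (5,2,1) = 0 := by linear_combination (-1 : ℂ) * e0321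
  have e0322 : (-1 : ℂ) * z (5,2,2) = 0 := by
    have h := hE 0 3 2 2
    simp only [Fin.sum_univ_six, c0, Matrix.cons_val] at h
    linear_combination h
  have z522 : z (5,2,2) = 0 := by linear_combination (-1 : ℂ) * e0322
  have e0323 : (-1 : ℂ) * z (5,2,3) = 0 := by
    have h := hE 0 3 2 3
    simp only [Fin.sum_univ_six, c0, Matrix.cons_val] at h
    linear_combination h
  have z523 : z (5,2,3) = 0 := by linear_combination (-1 : ℂ) * e0323
  have e0340 : (-1 : ℂ) * z (5,4,0) = 0 := by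
    have h := hE 0 3 4 0
    simp only [Fin.sum_univ_six, c0, Matrix.cons_val] at h
    linear_combination h
  have z540 : z (5,4,0) = 0 := by linear_combination (-1 : ℂ) * e0340
  have e0341 : (-1 : ℂ) * z (5,4,1) = 0 := by
    have h := hE 0 3 4 1
    simp only [Fin.sum_univ_six, c0, Matrix.cons_val] at h
    linear_combination h
  have z541 : z (5,4,1) = 0 := by linear_combination (-1 : ℂ) * e0341
  have e0342 : (-1 : ℂ) * z (5,4,2) = 0 := by
    have h := hE 0 3 4 2
    simp only [Fin.sum_univ_six, c0, Matrix.cons_val] at h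
    linear_combination h
  have z542 : z (5,4,2) = 0 := by linear_combination (-1 : ℂ) * e0342
  have e0343 : (-1 : ℂ) * z (5,4,3) = 0 := by
    have h := hE 0 3 4 3
    simp only [Fin.sum_univ_six, c0, Matrix.cons_val] at h
    linear_combination h
  have z543 : z (5,4,3) = 0 := by linear_combination (-1 : ℂ) * e0343
  have e0344 : (-1 : ℂ) * z (0,4,3) + (-1 : ℂ) * z (5,4,4) = 0 := by
    have h := hE 0 3 4 4
    simp only [Fin.sum_univ_six, c0, Matrix.cons_val] at h
    linear_combination h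
  have z544 : z (5,4,4) = 0 := by linear_combination (-1 : ℂ) * e0344 + (-1 : ℂ) * z043
  have e0350 : (-1 : ℂ) * z (5,5,0) = 0 := by
    have h := hE 0 3 5 0
    simp only [Fin.sum_univ_six, c0, Matrix.cons_val] at h
    linear_combination h
  have z550 : z (5,5,0) = 0 := by linear_combination (-1 : ℂ) * e0350
  have e0351 : (-1 : ℂ) * z (5,5,1) = 0 := by
    have h := hE 0 3 5 1
    simp only [Fin.sum_univ_six, c0, Matrix.cons_val] at h
    linear_combination h
  have z551 : z (5,5,1) = 0 := by linear_combination (-1 : ℂ) * e0351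
  have e0352 : (-1 : ℂ) * z (5,5,2) = 0 := by
    have h := hE 0 3 5 2
    simp only [Fin.sum_univ_six, c0, Matrix.cons_val] at h
    linear_combination h
  have z552 : z (5,5,2) = 0 := by linear_combination (-1 : ℂ) * e0352
  have e0353 : (-1 : ℂ) * z (5,5,3) = 0 := by
    have h := hE 0 3 5 3
    simp only [Fin.sum_univ_six, c0, Matrix.cons_val] at h
    linear_combination h
  have z553 : z (5,5,3) = 0 := by linear_combination (-1 : ℂ) * e0353
  have e0354 : (-1 : ℂ) * z (0,5,3) + (-1 : ℂ) * z (5,5,4) = 0 := by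
    have h := hE 0 3 5 4
    simp only [Fin.sum_univ_six, c0, Matrix.cons_val] at h
    linear_combination h
  have z554 : z (5,5,4) = 0 := by linear_combination (-1 : ℂ) * e0354 + (-1 : ℂ) * z053
  have e0405 : (1 : ℂ) * z (4,0,3) = 0 := by
    have h := hE 0 4 0 5
    simp only [Fin.sum_univ_six, c0, Matrix.cons_val] at h
    linear_combination h
  have z403 : z (4,0,3) = 0 := by linear_combination (1 : ℂ) * e0405
  have e0415 : (1 : ℂ) * z (4,1,3) = 0 := by
    have h := hE 0 4 1 5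
    simp only [Fin.sum_univ_six, c0, Matrix.cons_val] at h
    linear_combination h
  have z413 : z (4,1,3) = 0 := by linear_combination (1 : ℂ) * e0415
  have e0425 : (-1 : ℂ) * z (0,4,1) + (1 : ℂ) * z (4,2,3) = 0 := by
    have h := hE 0 4 2 5
    simp only [Fin.sum_univ_six, c0, Matrix.cons_val] at h
    linear_combination h
  have z423 : z (4,2,3) = 0 := by linear_combination (1 : ℂ) * e0425 + (1 : ℂ) * z041
  have e0430 : (-1 : ℂ) * z (4,5,0) = 0 := by
    have h := hE 0 4 3 0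
    simp only [Fin.sum_univ_six, c0, Matrix.cons_val] at h
    linear_combination h
  have z450 : z (4,5,0) = 0 := by linear_combination (-1 : ℂ) * e0430
  have e0431 : (-1 : ℂ) * z (4,5,1) = 0 := by
    have h := hE 0 4 3 1
    simp only [Fin.sum_univ_six, c0, Matrix.cons_val] at h
    linear_combination h
  have z451 : z (4,5,1) = 0 := by linear_combination (-1 : ℂ) * e0431
  have e0432 : (-1 : ℂ) * z (4,5,2) = 0 := by
    have h := hE 0 4 3 2
    simp only [Fin.sum_univ_six, c0, Matrix.cons_val] at h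
    linear_combination h
  have z452 : z (4,5,2) = 0 := by linear_combination (-1 : ℂ) * e0432
  have e0433 : (-1 : ℂ) * z (4,5,3) = 0 := by
    have h := hE 0 4 3 3
    simp only [Fin.sum_univ_six, c0, Matrix.cons_val] at h
    linear_combination h
  have z453 : z (4,5,3) = 0 := by linear_combination (-1 : ℂ) * e0433
  have e0434 : (-1 : ℂ) * z (0,4,3) + (-1 : ℂ) * z (4,5,4) = 0 := by
    have h := hE 0 4 3 4
    simp only [Fin.sum_univ_six, c0, Matrix.cons_val] at h
    linear_combination h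
  have z454 : z (4,5,4) = 0 := by linear_combination (-1 : ℂ) * e0434 + (-1 : ℂ) * z043
  have e0445 : (1 : ℂ) * z (4,4,3) = 0 := by
    have h := hE 0 4 4 5
    simp only [Fin.sum_univ_six, c0, Matrix.cons_val] at h
    linear_combination h
  have z443 : z (4,4,3) = 0 := by linear_combination (1 : ℂ) * e0445
  have e1000 : (-1 : ℂ) * z (4,0,0) + (-1 : ℂ) * z (0,4,0) = 0 := by
    have h := hE 1 0 0 0
    simp only [Fin.sum_univ_six, c0, Matrix.cons_val] at h
    linear_combination h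
  have z400 : z (4,0,0) = 0 := by linear_combination (-1 : ℂ) * e1000 + (-1 : ℂ) * z040
  have e1001 : (-1 : ℂ) * z (4,0,1) + (-1 : ℂ) * z (0,4,1) = 0 := by
    have h := hE 1 0 0 1
    simp only [Fin.sum_univ_six, c0, Matrix.cons_val] at h
    linear_combination h
  have z401 : z (4,0,1) = 0 := by linear_combination (-1 : ℂ) * e1001 + (-1 : ℂ) * z041
  have e1002 : (-1 : ℂ) * z (4,0,2) + (-1 : ℂ) * z (0,4,2) = 0 := by
    have h := hE 1 0 0 2
    simp only [Fin.sum_univ_six, c0, Matrix.cons_val] at h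
    linear_combination h
  have z402 : z (4,0,2) = 0 := by linear_combination (-1 : ℂ) * e1002 + (-1 : ℂ) * z042
  have e1010 : (-1 : ℂ) * z (4,1,0) = 0 := by
    have h := hE 1 0 1 0
    simp only [Fin.sum_univ_six, c0, Matrix.cons_val] at h
    linear_combination h
  have z410 : z (4,1,0) = 0 := by linear_combination (-1 : ℂ) * e1010
  have e1011 : (-1 : ℂ) * z (4,1,1) = 0 := by
    have h := hE 1 0 1 1
    simp only [Fin.sum_univ_six, c0, Matrix.cons_val] at h
    linear_combination h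
  have z411 : z (4,1,1) = 0 := by linear_combination (-1 : ℂ) * e1011
  have e1012 : (-1 : ℂ) * z (4,1,2) = 0 := by
    have h := hE 1 0 1 2
    simp only [Fin.sum_univ_six, c0, Matrix.cons_val] at h
    linear_combination h
  have z412 : z (4,1,2) = 0 := by linear_combination (-1 : ℂ) * e1012
  have e1014 : (1 : ℂ) * z (0,1,0) + (-1 : ℂ) * z (4,1,4) = 0 := by
    have h := hE 1 0 1 4
    simp only [Fin.sum_univ_six, c0, Matrix.cons_val] at h
    linear_combination h
  have z414 : z (4,1,4) = 0 := by linear_combination (-1 : ℂ) * e1014 + (1 : ℂ) * z010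
  have e1020 : (-1 : ℂ) * z (4,2,0) + (-1 : ℂ) * z (0,5,0) = 0 := by
    have h := hE 1 0 2 0
    simp only [Fin.sum_univ_six, c0, Matrix.cons_val] at h
    linear_combination h
  have z420 : z (4,2,0) = 0 := by linear_combination (-1 : ℂ) * e1020 + (-1 : ℂ) * z050
  have e1021 : (-1 : ℂ) * z (4,2,1) + (-1 : ℂ) * z (0,5,1) = 0 := by
    have h := hE 1 0 2 1
    simp only [Fin.sum_univ_six, c0, Matrix.cons_val] at h
    linear_combination h
  have z421 : z (4,2,1) = 0 := by linear_combination (-1 : ℂ) * e1021 + (-1 : ℂ) * z051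
  have e1022 : (-1 : ℂ) * z (4,2,2) + (-1 : ℂ) * z (0,5,2) = 0 := by
    have h := hE 1 0 2 2
    simp only [Fin.sum_univ_six, c0, Matrix.cons_val] at h
    linear_combination h
  have z422 : z (4,2,2) = 0 := by linear_combination (-1 : ℂ) * e1022 + (-1 : ℂ) * z052
  have e1030 : (-1 : ℂ) * z (4,3,0) + (1 : ℂ) * z (1,5,0) = 0 := by
    have h := hE 1 0 3 0
    simp only [Fin.sum_univ_six, c0, Matrix.cons_val] at h
    linear_combination h
  have z430 : z (4,3,0) = 0 := by linear_combination (-1 : ℂ) * e1030 + (1 : ℂ) * z150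
  have e1031 : (-1 : ℂ) * z (4,3,1) + (1 : ℂ) * z (1,5,1) = 0 := by
    have h := hE 1 0 3 1
    simp only [Fin.sum_univ_six, c0, Matrix.cons_val] at h
    linear_combination h
  have z431 : z (4,3,1) = 0 := by linear_combination (-1 : ℂ) * e1031 + (1 : ℂ) * z151
  have e1032 : (-1 : ℂ) * z (4,3,2) + (1 : ℂ) * z (1,5,2) = 0 := by
    have h := hE 1 0 3 2
    simp only [Fin.sum_univ_six, c0, Matrix.cons_val] at h
    linear_combination h
  have z432 : z (4,3,2) = 0 := by linear_combination (-1 : ℂ) * e1032 + (1 : ℂ) * z152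
  have e1033 : (-1 : ℂ) * z (4,3,3) + (1 : ℂ) * z (1,5,3) = 0 := by
    have h := hE 1 0 3 3
    simp only [Fin.sum_univ_six, c0, Matrix.cons_val] at h
    linear_combination h
  have z433 : z (4,3,3) = 0 := by linear_combination (-1 : ℂ) * e1033 + (1 : ℂ) * z153
  have e1040 : (-1 : ℂ) * z (4,4,0) = 0 := by
    have h := hE 1 0 4 0
    simp only [Fin.sum_univ_six, c0, Matrix.cons_val] at h
    linear_combination h
  have z440 : z (4,4,0) = 0 := by linear_combination (-1 : ℂ) * e1040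
  have e1041 : (-1 : ℂ) * z (4,4,1) = 0 := by
    have h := hE 1 0 4 1
    simp only [Fin.sum_univ_six, c0, Matrix.cons_val] at h
    linear_combination h
  have z441 : z (4,4,1) = 0 := by linear_combination (-1 : ℂ) * e1041
  have e1042 : (-1 : ℂ) * z (4,4,2) = 0 := by
    have h := hE 1 0 4 2
    simp only [Fin.sum_univ_six, c0, Matrix.cons_val] at h
    linear_combination h
  have z442 : z (4,4,2) = 0 := by linear_combination (-1 : ℂ) * e1042
  have e1044 : (1 : ℂ) * z (0,4,0) + (-1 : ℂ) * z (4,4,4) = 0 := by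
    have h := hE 1 0 4 4
    simp only [Fin.sum_univ_six, c0, Matrix.cons_val] at h
    linear_combination h
  have z444 : z (4,4,4) = 0 := by linear_combination (-1 : ℂ) * e1044 + (1 : ℂ) * z040
  have e1045 : (1 : ℂ) * z (0,4,2) + (-1 : ℂ) * z (1,4,3) + (-1 : ℂ) * z (4,4,5) = 0 := by
    have h := hE 1 0 4 5
    simp only [Fin.sum_univ_six, c0, Matrix.cons_val] at h
    linear_combination h
  have z445 : z (4,4,5) = 0 := by linear_combination (-1 : ℂ) * e1045 + (1 : ℂ) * z042 + (-1 : ℂ) * z143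
  have e1055 : (1 : ℂ) * z (0,5,2) + (-1 : ℂ) * z (1,5,3) + (-1 : ℂ) * z (4,5,5) = 0 := by
    have h := hE 1 0 5 5
    simp only [Fin.sum_univ_six, c0, Matrix.cons_val] at h
    linear_combination h
  have z455 : z (4,5,5) = 0 := by linear_combination (-1 : ℂ) * e1055 + (1 : ℂ) * z052 + (-1 : ℂ) * z153
  have e1125 : (-1 : ℂ) * z (1,1,1) = 0 := by
    have h := hE 1 1 2 5
    simp only [Fin.sum_univ_six, c0, Matrix.cons_val] at h
    linear_combination h
  have z111 : z (1,1,1) = 0 := by linear_combination (-1 : ℂ) * e1125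
  have e1134 : (-1 : ℂ) * z (1,1,3) = 0 := by
    have h := hE 1 1 3 4
    simp only [Fin.sum_univ_six, c0, Matrix.cons_val] at h
    linear_combination h
  have z113 : z (1,1,3) = 0 := by linear_combination (-1 : ℂ) * e1134
  have e1135 : (-1 : ℂ) * z (1,1,0) = 0 := by
    have h := hE 1 1 3 5
    simp only [Fin.sum_univ_six, c0, Matrix.cons_val] at h
    linear_combination h
  have z110 : z (1,1,0) = 0 := by linear_combination (-1 : ℂ) * e1135
  have e1230 : (-1 : ℂ) * z (5,3,0) = 0 := by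
    have h := hE 1 2 3 0
    simp only [Fin.sum_univ_six, c0, Matrix.cons_val] at h
    linear_combination h
  have z530 : z (5,3,0) = 0 := by linear_combination (-1 : ℂ) * e1230
  have e1231 : (-1 : ℂ) * z (5,3,1) = 0 := by
    have h := hE 1 2 3 1
    simp only [Fin.sum_univ_six, c0, Matrix.cons_val] at h
    linear_combination h
  have z531 : z (5,3,1) = 0 := by linear_combination (-1 : ℂ) * e1231
  have e1232 : (-1 : ℂ) * z (5,3,2) = 0 := by
    have h := hE 1 2 3 2
    simp only [Fin.sum_univ_six, c0, Matrix.cons_val] at h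
    linear_combination h
  have z532 : z (5,3,2) = 0 := by linear_combination (-1 : ℂ) * e1232
  have e1233 : (-1 : ℂ) * z (5,3,3) = 0 := by
    have h := hE 1 2 3 3
    simp only [Fin.sum_univ_six, c0, Matrix.cons_val] at h
    linear_combination h
  have z533 : z (5,3,3) = 0 := by linear_combination (-1 : ℂ) * e1233
  have e1255 : (1 : ℂ) * z (2,5,2) + (-1 : ℂ) * z (5,5,5) = 0 := by
    have h := hE 1 2 5 5
    simp only [Fin.sum_univ_six, c0, Matrix.cons_val] at h
    linear_combination h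
  have z555 : z (5,5,5) = 0 := by linear_combination (-1 : ℂ) * e1255 + (1 : ℂ) * z252
  have e1300 : (-1 : ℂ) * z (3,4,0) = 0 := by
    have h := hE 1 3 0 0
    simp only [Fin.sum_univ_six, c0, Matrix.cons_val] at h
    linear_combination h
  have z340 : z (3,4,0) = 0 := by linear_combination (-1 : ℂ) * e1300
  have e1301 : (-1 : ℂ) * z (3,4,1) = 0 := by
    have h := hE 1 3 0 1
    simp only [Fin.sum_univ_six, c0, Matrix.cons_val] at h
    linear_combination h
  have z341 : z (3,4,1) = 0 := by linear_combination (-1 : ℂ) * e1301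
  have e1302 : (-1 : ℂ) * z (3,4,2) = 0 := by
    have h := hE 1 3 0 2
    simp only [Fin.sum_univ_six, c0, Matrix.cons_val] at h
    linear_combination h
  have z342 : z (3,4,2) = 0 := by linear_combination (-1 : ℂ) * e1302
  have e1303 : (-1 : ℂ) * z (3,4,3) = 0 := by
    have h := hE 1 3 0 3
    simp only [Fin.sum_univ_six, c0, Matrix.cons_val] at h
    linear_combination h
  have z343 : z (3,4,3) = 0 := by linear_combination (-1 : ℂ) * e1303
  have e1314 : (1 : ℂ) * z (3,1,0) + (-1 : ℂ) * z (1,1,3) = 0 := by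
    have h := hE 1 3 1 4
    simp only [Fin.sum_univ_six, c0, Matrix.cons_val] at h
    linear_combination h
  have z310 : z (3,1,0) = 0 := by linear_combination (1 : ℂ) * e1314 + (1 : ℂ) * z113
  have e1315 : (1 : ℂ) * z (3,1,2) = 0 := by
    have h := hE 1 3 1 5
    simp only [Fin.sum_univ_six, c0, Matrix.cons_val] at h
    linear_combination h
  have z312 : z (3,1,2) = 0 := by linear_combination (1 : ℂ) * e1315
  have e1320 : (-1 : ℂ) * z (3,5,0) = 0 := by
    have h := hE 1 3 2 0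
    simp only [Fin.sum_univ_six, c0, Matrix.cons_val] at h
    linear_combination h
  have z350 : z (3,5,0) = 0 := by linear_combination (-1 : ℂ) * e1320
  have e1321 : (-1 : ℂ) * z (3,5,1) = 0 := by
    have h := hE 1 3 2 1
    simp only [Fin.sum_univ_six, c0, Matrix.cons_val] at h
    linear_combination h
  have z351 : z (3,5,1) = 0 := by linear_combination (-1 : ℂ) * e1321
  have e1322 : (-1 : ℂ) * z (3,5,2) = 0 := by
    have h := hE 1 3 2 2
    simp only [Fin.sum_univ_six, c0, Matrix.cons_val] at h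
    linear_combination h
  have z352 : z (3,5,2) = 0 := by linear_combination (-1 : ℂ) * e1322
  have e1323 : (-1 : ℂ) * z (3,5,3) = 0 := by
    have h := hE 1 3 2 3
    simp only [Fin.sum_univ_six, c0, Matrix.cons_val] at h
    linear_combination h
  have z353 : z (3,5,3) = 0 := by linear_combination (-1 : ℂ) * e1323
  have e1330 : (1 : ℂ) * z (1,4,0) = 0 := by
    have h := hE 1 3 3 0
    simp only [Fin.sum_univ_six, c0, Matrix.cons_val] at h
    linear_combination h
  have z140 : z (1,4,0) = 0 := by linear_combination (1 : ℂ) * e1330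
  have e1331 : (1 : ℂ) * z (1,4,1) = 0 := by
    have h := hE 1 3 3 1
    simp only [Fin.sum_univ_six, c0, Matrix.cons_val] at h
    linear_combination h
  have z141 : z (1,4,1) = 0 := by linear_combination (1 : ℂ) * e1331
  have e1332 : (1 : ℂ) * z (1,4,2) = 0 := by
    have h := hE 1 3 3 2
    simp only [Fin.sum_univ_six, c0, Matrix.cons_val] at h
    linear_combination h
  have z142 : z (1,4,2) = 0 := by linear_combination (1 : ℂ) * e1332
  have e1505 : (1 : ℂ) * z (5,0,2) + (-1 : ℂ) * z (5,4,5) = 0 := by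
    have h := hE 1 5 0 5
    simp only [Fin.sum_univ_six, c0, Matrix.cons_val] at h
    linear_combination h
  have z545 : z (5,4,5) = 0 := by linear_combination (-1 : ℂ) * e1505 + (1 : ℂ) * z502
  have e2005 : (-1 : ℂ) * z (2,0,3) + (-1 : ℂ) * z (4,0,5) + (-1 : ℂ) * z (0,4,5) = 0 := by
    have h := hE 2 0 0 5
    simp only [Fin.sum_univ_six, c0, Matrix.cons_val] at h
    linear_combination h
  have z405 : z (4,0,5) = 0 := by linear_combination (-1 : ℂ) * e2005 + (-1 : ℂ) * z203 + (-1 : ℂ) * z045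
  have e2015 : (-1 : ℂ) * z (2,1,3) + (-1 : ℂ) * z (4,1,5) = 0 := by
    have h := hE 2 0 1 5
    simp only [Fin.sum_univ_six, c0, Matrix.cons_val] at h
    linear_combination h
  have z415 : z (4,1,5) = 0 := by linear_combination (-1 : ℂ) * e2015 + (-1 : ℂ) * z213
  have e2024 : (1 : ℂ) * z (0,2,0) + (-1 : ℂ) * z (4,2,4) = 0 := by
    have h := hE 2 0 2 4
    simp only [Fin.sum_univ_six, c0, Matrix.cons_val] at h
    linear_combination h
  have z424 : z (4,2,4) = 0 := by linear_combination (-1 : ℂ) * e2024 + (1 : ℂ) * z020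
  have e2100 : (1 : ℂ) * z (2,4,0) + (-1 : ℂ) * z (1,4,0) = 0 := by
    have h := hE 2 1 0 0
    simp only [Fin.sum_univ_six, c0, Matrix.cons_val] at h
    linear_combination h
  have z240 : z (2,4,0) = 0 := by linear_combination (1 : ℂ) * e2100 + (1 : ℂ) * z140
  have e2101 : (1 : ℂ) * z (2,4,1) + (-1 : ℂ) * z (1,4,1) = 0 := by
    have h := hE 2 1 0 1
    simp only [Fin.sum_univ_six, c0, Matrix.cons_val] at h
    linear_combination h
  have z241 : z (2,4,1) = 0 := by linear_combination (1 : ℂ) * e2101 + (1 : ℂ) * z141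
  have e2102 : (1 : ℂ) * z (2,4,2) + (-1 : ℂ) * z (1,4,2) = 0 := by
    have h := hE 2 1 0 2
    simp only [Fin.sum_univ_six, c0, Matrix.cons_val] at h
    linear_combination h
  have z242 : z (2,4,2) = 0 := by linear_combination (1 : ℂ) * e2102 + (1 : ℂ) * z142
  have e2114 : (1 : ℂ) * z (1,1,0) + (-1 : ℂ) * z (2,1,0) = 0 := by
    have h := hE 2 1 1 4
    simp only [Fin.sum_univ_six, c0, Matrix.cons_val] at h
    linear_combination h
  have z210 : z (2,1,0) = 0 := by linear_combination (-1 : ℂ) * e2114 + (1 : ℂ) * z110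
  have e2115 : (-1 : ℂ) * z (2,1,2) = 0 := by
    have h := hE 2 1 1 5
    simp only [Fin.sum_univ_six, c0, Matrix.cons_val] at h
    linear_combination h
  have z212 : z (2,1,2) = 0 := by linear_combination (-1 : ℂ) * e2115
  have e2135 : (-1 : ℂ) * z (2,1,0) + (-1 : ℂ) * z (2,3,2) = 0 := by
    have h := hE 2 1 3 5
    simp only [Fin.sum_univ_six, c0, Matrix.cons_val] at h
    linear_combination h
  have z232 : z (2,3,2) = 0 := by linear_combination (-1 : ℂ) * e2135 + (-1 : ℂ) * z210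
  have e2225 : (-1 : ℂ) * z (2,2,1) = 0 := by
    have h := hE 2 2 2 5
    simp only [Fin.sum_univ_six, c0, Matrix.cons_val] at h
    linear_combination h
  have z221 : z (2,2,1) = 0 := by linear_combination (-1 : ℂ) * e2225
  have e2234 : (-1 : ℂ) * z (2,2,3) = 0 := by
    have h := hE 2 2 3 4
    simp only [Fin.sum_univ_six, c0, Matrix.cons_val] at h
    linear_combination h
  have z223 : z (2,2,3) = 0 := by linear_combination (-1 : ℂ) * e2234
  have e2235 : (-1 : ℂ) * z (2,2,0) = 0 := by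
    have h := hE 2 2 3 5
    simp only [Fin.sum_univ_six, c0, Matrix.cons_val] at h
    linear_combination h
  have z220 : z (2,2,0) = 0 := by linear_combination (-1 : ℂ) * e2235
  have e2305 : (-1 : ℂ) * z (3,4,5) = 0 := by
    have h := hE 2 3 0 5
    simp only [Fin.sum_univ_six, c0, Matrix.cons_val] at h
    linear_combination h
  have z345 : z (3,4,5) = 0 := by linear_combination (-1 : ℂ) * e2305
  have e2324 : (1 : ℂ) * z (3,2,0) + (-1 : ℂ) * z (2,2,3) = 0 := by
    have h := hE 2 3 2 4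
    simp only [Fin.sum_univ_six, c0, Matrix.cons_val] at h
    linear_combination h
  have z320 : z (3,2,0) = 0 := by linear_combination (1 : ℂ) * e2324 + (1 : ℂ) * z223
  have e2325 : (-1 : ℂ) * z (2,3,1) = 0 := by
    have h := hE 2 3 2 5
    simp only [Fin.sum_univ_six, c0, Matrix.cons_val] at h
    linear_combination h
  have z231 : z (2,3,1) = 0 := by linear_combination (-1 : ℂ) * e2325
  have e3005 : (-1 : ℂ) * z (3,0,3) = 0 := by
    have h := hE 3 0 0 5
    simp only [Fin.sum_univ_six, c0, Matrix.cons_val] at h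
    linear_combination h
  have z303 : z (3,0,3) = 0 := by linear_combination (-1 : ℂ) * e3005
  have e3014 : (1 : ℂ) * z (0,1,3) = 0 := by
    have h := hE 3 0 1 4
    simp only [Fin.sum_univ_six, c0, Matrix.cons_val] at h
    linear_combination h
  have z013 : z (0,1,3) = 0 := by linear_combination (1 : ℂ) * e3014
  have e3015 : (-1 : ℂ) * z (3,1,3) = 0 := by
    have h := hE 3 0 1 5
    simp only [Fin.sum_univ_six, c0, Matrix.cons_val] at h
    linear_combination h
  have z313 : z (3,1,3) = 0 := by linear_combination (-1 : ℂ) * e3015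
  have e3024 : (1 : ℂ) * z (0,2,3) = 0 := by
    have h := hE 3 0 2 4
    simp only [Fin.sum_univ_six, c0, Matrix.cons_val] at h
    linear_combination h
  have z023 : z (0,2,3) = 0 := by linear_combination (1 : ℂ) * e3024
  have e3105 : (-1 : ℂ) * z (3,0,2) + (1 : ℂ) * z (3,4,5) = 0 := by
    have h := hE 3 1 0 5
    simp only [Fin.sum_univ_six, c0, Matrix.cons_val] at h
    linear_combination h
  have z302 : z (3,0,2) = 0 := by linear_combination (-1 : ℂ) * e3105 + (1 : ℂ) * z345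
  have e3124 : (-1 : ℂ) * z (3,2,0) + (1 : ℂ) * z (1,2,3) + (1 : ℂ) * z (3,5,4) = 0 := by
    have h := hE 3 1 2 4
    simp only [Fin.sum_univ_six, c0, Matrix.cons_val] at h
    linear_combination h
  have z354 : z (3,5,4) = 0 := by linear_combination (1 : ℂ) * e3124 + (1 : ℂ) * z320 + (-1 : ℂ) * z123
  have e3225 : (-1 : ℂ) * z (3,2,1) = 0 := by
    have h := hE 3 2 2 5
    simp only [Fin.sum_univ_six, c0, Matrix.cons_val] at h
    linear_combination h
  have z321 : z (3,2,1) = 0 := by linear_combination (-1 : ℂ) * e3225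
  have e3235 : (-1 : ℂ) * z (3,2,0) + (-1 : ℂ) * z (2,4,5) = 0 := by
    have h := hE 3 2 3 5
    simp only [Fin.sum_univ_six, c0, Matrix.cons_val] at h
    linear_combination h
  have z245 : z (2,4,5) = 0 := by linear_combination (-1 : ℂ) * e3235 + (-1 : ℂ) * z320
  have e0004 : (-1 : ℂ) * z (0,0,1) + (-1 : ℂ) * z (0,0,2) = 0 := by
    have h := hE 0 0 0 4
    simp only [Fin.sum_univ_six, c0, Matrix.cons_val] at h
    linear_combination h
  have z002 : z (0,0,2) = 0 := by linear_combination (-1 : ℂ) * e0004 + (-1 : ℂ) * z001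
  have e0105 : (-1 : ℂ) * z (0,0,2) + (1 : ℂ) * z (1,0,3) + (1 : ℂ) * z (0,4,5) = 0 := by
    have h := hE 0 1 0 5
    simp only [Fin.sum_univ_six, c0, Matrix.cons_val] at h
    linear_combination h
  have z103 : z (1,0,3) = 0 := by linear_combination (1 : ℂ) * e0105 + (1 : ℂ) * z002 + (-1 : ℂ) * z045
  have e0115 : (-1 : ℂ) * z (0,1,2) + (1 : ℂ) * z (1,1,3) = 0 := by
    have h := hE 0 1 1 5
    simp only [Fin.sum_univ_six, c0, Matrix.cons_val] at h
    linear_combination h
  have z012 : z (0,1,2) = 0 := by linear_combination (-1 : ℂ) * e0115 + (1 : ℂ) * z113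
  have e0124 : (-1 : ℂ) * z (0,2,0) + (1 : ℂ) * z (0,5,4) = 0 := by
    have h := hE 0 1 2 4
    simp only [Fin.sum_univ_six, c0, Matrix.cons_val] at h
    linear_combination h
  have z054 : z (0,5,4) = 0 := by linear_combination (1 : ℂ) * e0124 + (1 : ℂ) * z020
  have e0225 : (-1 : ℂ) * z (0,2,1) + (1 : ℂ) * z (2,2,3) = 0 := by
    have h := hE 0 2 2 5
    simp only [Fin.sum_univ_six, c0, Matrix.cons_val] at h
    linear_combination h
  have z021 : z (0,2,1) = 0 := by linear_combination (-1 : ℂ) * e0225 + (1 : ℂ) * z223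
  have e0305 : (1 : ℂ) * z (3,0,3) + (-1 : ℂ) * z (5,0,5) = 0 := by
    have h := hE 0 3 0 5
    simp only [Fin.sum_univ_six, c0, Matrix.cons_val] at h
    linear_combination h
  have z505 : z (5,0,5) = 0 := by linear_combination (-1 : ℂ) * e0305 + (1 : ℂ) * z303
  have e0314 : (-1 : ℂ) * z (0,1,3) + (-1 : ℂ) * z (5,1,4) = 0 := by
    have h := hE 0 3 1 4
    simp only [Fin.sum_univ_six, c0, Matrix.cons_val] at h
    linear_combination h
  have z514 : z (5,1,4) = 0 := by linear_combination (-1 : ℂ) * e0314 + (-1 : ℂ) * z013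
  have e0315 : (1 : ℂ) * z (3,1,3) + (-1 : ℂ) * z (5,1,5) = 0 := by
    have h := hE 0 3 1 5
    simp only [Fin.sum_univ_six, c0, Matrix.cons_val] at h
    linear_combination h
  have z515 : z (5,1,5) = 0 := by linear_combination (-1 : ℂ) * e0315 + (1 : ℂ) * z313
  have e0324 : (-1 : ℂ) * z (0,2,3) + (-1 : ℂ) * z (5,2,4) = 0 := by
    have h := hE 0 3 2 4
    simp only [Fin.sum_univ_six, c0, Matrix.cons_val] at h
    linear_combination h
  have z524 : z (5,2,4) = 0 := by linear_combination (-1 : ℂ) * e0324 + (-1 : ℂ) * z023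
  have e1104 : (-1 : ℂ) * z (1,1,1) + (-1 : ℂ) * z (1,1,2) = 0 := by
    have h := hE 1 1 0 4
    simp only [Fin.sum_univ_six, c0, Matrix.cons_val] at h
    linear_combination h
  have z112 : z (1,1,2) = 0 := by linear_combination (-1 : ℂ) * e1104 + (-1 : ℂ) * z111
  have e1205 : (1 : ℂ) * z (2,0,2) + (1 : ℂ) * z (1,4,5) + (-1 : ℂ) * z (2,4,5) + (-1 : ℂ) * z (5,0,5) = 0 := by
    have h := hE 1 2 0 5
    simp only [Fin.sum_univ_six, c0, Matrix.cons_val] at h
    linear_combination h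
  have z145 : z (1,4,5) = 0 := by linear_combination (1 : ℂ) * e1205 + (-1 : ℂ) * z202 + (1 : ℂ) * z245 + (1 : ℂ) * z505
  have e1224 : (1 : ℂ) * z (2,2,0) + (-1 : ℂ) * z (1,2,0) + (-1 : ℂ) * z (5,2,4) + (-1 : ℂ) * z (2,5,4) = 0 := by
    have h := hE 1 2 2 4
    simp only [Fin.sum_univ_six, c0, Matrix.cons_val] at h
    linear_combination h
  have z254 : z (2,5,4) = 0 := by linear_combination (-1 : ℂ) * e1224 + (1 : ℂ) * z220 + (-1 : ℂ) * z120 + (-1 : ℂ) * z524
  have e1235 : (-1 : ℂ) * z (1,2,0) + (1 : ℂ) * z (2,3,2) + (-1 : ℂ) * z (5,3,5) = 0 := by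
    have h := hE 1 2 3 5
    simp only [Fin.sum_univ_six, c0, Matrix.cons_val] at h
    linear_combination h
  have z535 : z (5,3,5) = 0 := by linear_combination (-1 : ℂ) * e1235 + (-1 : ℂ) * z120 + (1 : ℂ) * z232
  have e2025 : (-1 : ℂ) * z (2,0,1) + (-1 : ℂ) * z (2,2,3) + (-1 : ℂ) * z (4,2,5) = 0 := by
    have h := hE 2 0 2 5
    simp only [Fin.sum_univ_six, c0, Matrix.cons_val] at h
    linear_combination h
  have z425 : z (4,2,5) = 0 := by linear_combination (-1 : ℂ) * e2025 + (-1 : ℂ) * z201 + (-1 : ℂ) * z223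
  have e2204 : (-1 : ℂ) * z (2,2,1) + (-1 : ℂ) * z (2,2,2) = 0 := by
    have h := hE 2 2 0 4
    simp only [Fin.sum_univ_six, c0, Matrix.cons_val] at h
    linear_combination h
  have z222 : z (2,2,2) = 0 := by linear_combination (-1 : ℂ) * e2204 + (-1 : ℂ) * z221
  have e2335 : (-1 : ℂ) * z (2,3,0) + (1 : ℂ) * z (2,4,5) = 0 := by
    have h := hE 2 3 3 5
    simp only [Fin.sum_univ_six, c0, Matrix.cons_val] at h
    linear_combination h
  have z230 : z (2,3,0) = 0 := by linear_combination (-1 : ℂ) * e2335 + (1 : ℂ) * z245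
  have e3004 : (-1 : ℂ) * z (3,0,1) + (-1 : ℂ) * z (3,0,2) + (1 : ℂ) * z (0,0,3) = 0 := by
    have h := hE 3 0 0 4
    simp only [Fin.sum_univ_six, c0, Matrix.cons_val] at h
    linear_combination h
  have z301 : z (3,0,1) = 0 := by linear_combination (-1 : ℂ) * e3004 + (-1 : ℂ) * z302 + (1 : ℂ) * z003
  have e3025 : (-1 : ℂ) * z (3,0,1) + (-1 : ℂ) * z (3,2,3) = 0 := by
    have h := hE 3 0 2 5
    simp only [Fin.sum_univ_six, c0, Matrix.cons_val] at h
    linear_combination h
  have z323 : z (3,2,3) = 0 := by linear_combination (-1 : ℂ) * e3025 + (-1 : ℂ) * z301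
  have e3135 : (-1 : ℂ) * z (3,1,0) + (-1 : ℂ) * z (3,3,2) + (-1 : ℂ) * z (1,4,5) = 0 := by
    have h := hE 3 1 3 5
    simp only [Fin.sum_univ_six, c0, Matrix.cons_val] at h
    linear_combination h
  have z332 : z (3,3,2) = 0 := by linear_combination (-1 : ℂ) * e3135 + (-1 : ℂ) * z310 + (-1 : ℂ) * z145
  have e3325 : (-1 : ℂ) * z (3,3,1) + (-1 : ℂ) * z (4,2,5) = 0 := by
    have h := hE 3 3 2 5
    simp only [Fin.sum_univ_six, c0, Matrix.cons_val] at h
    linear_combination h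
  have z331 : z (3,3,1) = 0 := by linear_combination (-1 : ℂ) * e3325 + (-1 : ℂ) * z425
  have e0234 : (-1 : ℂ) * z (0,3,0) + (-1 : ℂ) * z (0,2,3) + (-1 : ℂ) * z (2,5,4) = 0 := by
    have h := hE 0 2 3 4
    simp only [Fin.sum_univ_six, c0, Matrix.cons_val] at h
    linear_combination h
  have z030 : z (0,3,0) = 0 := by linear_combination (-1 : ℂ) * e0234 + (-1 : ℂ) * z023 + (-1 : ℂ) * z254
  have e1335 : (-1 : ℂ) * z (1,3,0) + (1 : ℂ) * z (3,3,2) + (1 : ℂ) * z (1,4,5) = 0 := by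
    have h := hE 1 3 3 5
    simp only [Fin.sum_univ_six, c0, Matrix.cons_val] at h
    linear_combination h
  have z130 : z (1,3,0) = 0 := by linear_combination (-1 : ℂ) * e1335 + (1 : ℂ) * z332 + (1 : ℂ) * z145
  have e2034 : (1 : ℂ) * z (0,3,0) + (-1 : ℂ) * z (2,0,3) + (-1 : ℂ) * z (4,3,4) + (1 : ℂ) * z (2,5,4) = 0 := by
    have h := hE 2 0 3 4
    simp only [Fin.sum_univ_six, c0, Matrix.cons_val] at h
    linear_combination h
  have z434 : z (4,3,4) = 0 := by linear_combination (-1 : ℂ) * e2034 + (1 : ℂ) * z030 + (-1 : ℂ) * z203 + (1 : ℂ) * z254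
  have e3304 : (-1 : ℂ) * z (3,3,1) + (-1 : ℂ) * z (3,3,2) + (-1 : ℂ) * z (4,0,4) = 0 := by
    have h := hE 3 3 0 4
    simp only [Fin.sum_univ_six, c0, Matrix.cons_val] at h
    linear_combination h
  have z404 : z (4,0,4) = 0 := by linear_combination (-1 : ℂ) * e3304 + (-1 : ℂ) * z331 + (-1 : ℂ) * z332
  have e3334 : (-1 : ℂ) * z (3,3,3) + (-1 : ℂ) * z (4,3,4) = 0 := by
    have h := hE 3 3 3 4
    simp only [Fin.sum_univ_six, c0, Matrix.cons_val] at h
    linear_combination h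
  have z333 : z (3,3,3) = 0 := by linear_combination (-1 : ℂ) * e3334 + (-1 : ℂ) * z434
  have e0134 : (-1 : ℂ) * z (0,3,0) + (-1 : ℂ) * z (0,1,3) + (-1 : ℂ) * z (1,5,4) = 0 := by
    have h := hE 0 1 3 4
    simp only [Fin.sum_univ_six, c0, Matrix.cons_val] at h
    linear_combination h
  have z154 : z (1,5,4) = 0 := by linear_combination (-1 : ℂ) * e0134 + (-1 : ℂ) * z030 + (-1 : ℂ) * z013
  have e0335 : (-1 : ℂ) * z (0,3,0) + (1 : ℂ) * z (3,3,3) + (1 : ℂ) * z (0,4,5) + (-1 : ℂ) * z (5,3,5) + (-1 : ℂ) * z (3,5,5) = 0 := by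
    have h := hE 0 3 3 5
    simp only [Fin.sum_univ_six, c0, Matrix.cons_val] at h
    linear_combination h
  have z355 : z (3,5,5) = 0 := by linear_combination (-1 : ℂ) * e0335 + (-1 : ℂ) * z030 + (1 : ℂ) * z333 + (1 : ℂ) * z045 + (-1 : ℂ) * z535
  have e1234 : (1 : ℂ) * z (2,3,0) + (-1 : ℂ) * z (1,3,0) + (-1 : ℂ) * z (1,2,3) + (-1 : ℂ) * z (5,3,4) = 0 := by
    have h := hE 1 2 3 4
    simp only [Fin.sum_univ_six, c0, Matrix.cons_val] at h
    linear_combination h
  have z534 : z (5,3,4) = 0 := by linear_combination (-1 : ℂ) * e1234 + (1 : ℂ) * z230 + (-1 : ℂ) * z130 + (-1 : ℂ) * z123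
  have e2004 : (1 : ℂ) * z (0,0,0) + (-1 : ℂ) * z (2,0,1) + (-1 : ℂ) * z (2,0,2) + (-1 : ℂ) * z (4,0,4) + (-1 : ℂ) * z (0,4,4) = 0 := by
    have h := hE 2 0 0 4
    simp only [Fin.sum_univ_six, c0, Matrix.cons_val] at h
    linear_combination h
  have z044 : z (0,4,4) = 0 := by linear_combination (-1 : ℂ) * e2004 + (1 : ℂ) * z000 + (-1 : ℂ) * z201 + (-1 : ℂ) * z202 + (-1 : ℂ) * z404
  have e3034 : (1 : ℂ) * z (0,3,3) + (-1 : ℂ) * z (3,0,3) + (-1 : ℂ) * z (0,4,4) + (1 : ℂ) * z (3,5,4) = 0 := by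
    have h := hE 3 0 3 4
    simp only [Fin.sum_univ_six, c0, Matrix.cons_val] at h
    linear_combination h
  have z033 : z (0,3,3) = 0 := by linear_combination (1 : ℂ) * e3034 + (1 : ℂ) * z303 + (1 : ℂ) * z044 + (-1 : ℂ) * z354
  have e3035 : (-1 : ℂ) * z (3,0,0) + (-1 : ℂ) * z (3,3,3) + (-1 : ℂ) * z (0,4,5) + (1 : ℂ) * z (3,5,5) = 0 := by
    have h := hE 3 0 3 5
    simp only [Fin.sum_univ_six, c0, Matrix.cons_val] at h
    linear_combination h
  have z300 : z (3,0,0) = 0 := by linear_combination (-1 : ℂ) * e3035 + (-1 : ℂ) * z333 + (-1 : ℂ) * z045 + (1 : ℂ) * z355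
  have e0104 : (-1 : ℂ) * z (0,0,0) + (-1 : ℂ) * z (0,1,1) + (-1 : ℂ) * z (0,1,2) + (1 : ℂ) * z (0,4,4) = 0 := by
    have h := hE 0 1 0 4
    simp only [Fin.sum_univ_six, c0, Matrix.cons_val] at h
    linear_combination h
  have z011 : z (0,1,1) = 0 := by linear_combination (-1 : ℂ) * e0104 + (-1 : ℂ) * z000 + (-1 : ℂ) * z012 + (1 : ℂ) * z044
  have e0204 : (-1 : ℂ) * z (0,0,0) + (-1 : ℂ) * z (0,2,1) + (-1 : ℂ) * z (0,2,2) + (1 : ℂ) * z (0,4,4) = 0 := by
    have h := hE 0 2 0 4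
    simp only [Fin.sum_univ_six, c0, Matrix.cons_val] at h
    linear_combination h
  have z022 : z (0,2,2) = 0 := by linear_combination (-1 : ℂ) * e0204 + (-1 : ℂ) * z000 + (-1 : ℂ) * z021 + (1 : ℂ) * z044
  have e2304 : (1 : ℂ) * z (3,0,0) + (-1 : ℂ) * z (2,3,1) + (-1 : ℂ) * z (2,3,2) + (-1 : ℂ) * z (2,0,3) + (-1 : ℂ) * z (3,4,4) = 0 := by
    have h := hE 2 3 0 4
    simp only [Fin.sum_univ_six, c0, Matrix.cons_val] at h
    linear_combination h
  have z344 : z (3,4,4) = 0 := by linear_combination (-1 : ℂ) * e2304 + (1 : ℂ) * z300 + (-1 : ℂ) * z231 + (-1 : ℂ) * z232 + (-1 : ℂ) * z203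
  have e3104 : (-1 : ℂ) * z (3,0,0) + (-1 : ℂ) * z (3,1,1) + (-1 : ℂ) * z (3,1,2) + (1 : ℂ) * z (1,0,3) + (1 : ℂ) * z (3,4,4) = 0 := by
    have h := hE 3 1 0 4
    simp only [Fin.sum_univ_six, c0, Matrix.cons_val] at h
    linear_combination h
  have z311 : z (3,1,1) = 0 := by linear_combination (-1 : ℂ) * e3104 + (-1 : ℂ) * z300 + (-1 : ℂ) * z312 + (1 : ℂ) * z103 + (1 : ℂ) * z344
  have e3125 : (-1 : ℂ) * z (3,1,1) + (-1 : ℂ) * z (3,2,2) + (1 : ℂ) * z (3,5,5) = 0 := by
    have h := hE 3 1 2 5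
    simp only [Fin.sum_univ_six, c0, Matrix.cons_val] at h
    linear_combination h
  have z322 : z (3,2,2) = 0 := by linear_combination (-1 : ℂ) * e3125 + (-1 : ℂ) * z311 + (1 : ℂ) * z355
  have e0125 : (-1 : ℂ) * z (0,1,1) + (-1 : ℂ) * z (0,2,2) + (1 : ℂ) * z (1,2,3) + (1 : ℂ) * z (0,5,5) = 0 := by
    have h := hE 0 1 2 5
    simp only [Fin.sum_univ_six, c0, Matrix.cons_val] at h
    linear_combination h
  have z055 : z (0,5,5) = 0 := by linear_combination (1 : ℂ) * e0125 + (1 : ℂ) * z011 + (1 : ℂ) * z022 + (-1 : ℂ) * z123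
  have e1025 : (-1 : ℂ) * z (1,0,1) + (1 : ℂ) * z (0,2,2) + (-1 : ℂ) * z (1,2,3) + (-1 : ℂ) * z (4,2,5) + (-1 : ℂ) * z (0,5,5) = 0 := by
    have h := hE 1 0 2 5
    simp only [Fin.sum_univ_six, c0, Matrix.cons_val] at h
    linear_combination h
  have z101 : z (1,0,1) = 0 := by linear_combination (-1 : ℂ) * e1025 + (1 : ℂ) * z022 + (-1 : ℂ) * z123 + (-1 : ℂ) * z425 + (-1 : ℂ) * z055
  have e1325 : (-1 : ℂ) * z (1,3,1) + (1 : ℂ) * z (3,2,2) + (-1 : ℂ) * z (3,5,5) = 0 := by
    have h := hE 1 3 2 5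
    simp only [Fin.sum_univ_six, c0, Matrix.cons_val] at h
    linear_combination h
  have z131 : z (1,3,1) = 0 := by linear_combination (-1 : ℂ) * e1325 + (1 : ℂ) * z322 + (-1 : ℂ) * z355
  have e1004 : (1 : ℂ) * z (0,0,0) + (-1 : ℂ) * z (1,0,1) + (-1 : ℂ) * z (1,0,2) + (-1 : ℂ) * z (4,0,4) + (-1 : ℂ) * z (0,4,4) = 0 := by
    have h := hE 1 0 0 4
    simp only [Fin.sum_univ_six, c0, Matrix.cons_val] at h
    linear_combination h
  have z102 : z (1,0,2) = 0 := by linear_combination (-1 : ℂ) * e1004 + (1 : ℂ) * z000 + (-1 : ℂ) * z101 + (-1 : ℂ) * z404 + (-1 : ℂ) * z044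
  have e1304 : (1 : ℂ) * z (3,0,0) + (-1 : ℂ) * z (1,3,1) + (-1 : ℂ) * z (1,3,2) + (-1 : ℂ) * z (1,0,3) + (-1 : ℂ) * z (3,4,4) = 0 := by
    have h := hE 1 3 0 4
    simp only [Fin.sum_univ_six, c0, Matrix.cons_val] at h
    linear_combination h
  have z132 : z (1,3,2) = 0 := by linear_combination (-1 : ℂ) * e1304 + (1 : ℂ) * z300 + (-1 : ℂ) * z131 + (-1 : ℂ) * z103 + (-1 : ℂ) * z344
  have e2035 : (-1 : ℂ) * z (2,0,0) + (-1 : ℂ) * z (2,3,3) + (-1 : ℂ) * z (4,3,5) + (1 : ℂ) * z (2,5,5) = 0 := by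
    have h := hE 2 0 3 5
    simp only [Fin.sum_univ_six, c0, Matrix.cons_val] at h
    linear_combination h
  have e0235 : (-1 : ℂ) * z (0,2,0) + (1 : ℂ) * z (2,3,3) + (-1 : ℂ) * z (2,5,5) = 0 := by
    have h := hE 0 2 3 5
    simp only [Fin.sum_univ_six, c0, Matrix.cons_val] at h
    linear_combination h
  have z435 : z (4,3,5) = 0 := by linear_combination (-1 : ℂ) * e2035 + (-1 : ℂ) * e0235 + (-1 : ℂ) * z200 + (-1 : ℂ) * z020
  have e3335 : (-1 : ℂ) * z (3,3,0) + (-1 : ℂ) * z (4,3,5) = 0 := by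
    have h := hE 3 3 3 5
    simp only [Fin.sum_univ_six, c0, Matrix.cons_val] at h
    linear_combination h
  have z330 : z (3,3,0) = 0 := by linear_combination (-1 : ℂ) * e3335 + (-1 : ℂ) * z435
  have e3134 : (-1 : ℂ) * z (3,3,0) + (1 : ℂ) * z (1,3,3) + (-1 : ℂ) * z (3,1,3) + (-1 : ℂ) * z (1,4,4) = 0 := by
    have h := hE 3 1 3 4
    simp only [Fin.sum_univ_six, c0, Matrix.cons_val] at h
    linear_combination h
  have e1334 : (1 : ℂ) * z (3,3,0) + (-2 : ℂ) * z (1,3,3) + (1 : ℂ) * z (1,4,4) = 0 := by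
    have h := hE 1 3 3 4
    simp only [Fin.sum_univ_six, c0, Matrix.cons_val] at h
    linear_combination h
  have z144 : z (1,4,4) = 0 := by linear_combination (-2 : ℂ) * e3134 + (-1 : ℂ) * e1334 + (-1 : ℂ) * z330 + (-2 : ℂ) * z313
  have z133 : z (1,3,3) = 0 := by linear_combination (-1 / 2 : ℂ) * e1334 + (1 / 2 : ℂ) * z330 + (1 / 2 : ℂ) * z144
  have e3234 : (-1 : ℂ) * z (3,3,0) + (1 : ℂ) * z (2,3,3) + (-1 : ℂ) * z (3,2,3) + (-1 : ℂ) * z (2,4,4) = 0 := by
    have h := hE 3 2 3 4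
    simp only [Fin.sum_univ_six, c0, Matrix.cons_val] at h
    linear_combination h
  have e2334 : (1 : ℂ) * z (3,3,0) + (-2 : ℂ) * z (2,3,3) + (1 : ℂ) * z (2,4,4) = 0 := by
    have h := hE 2 3 3 4
    simp only [Fin.sum_univ_six, c0, Matrix.cons_val] at h
    linear_combination h
  have z255 : z (2,5,5) = 0 := by linear_combination (-1 : ℂ) * e3234 + (-1 : ℂ) * e0235 + (-1 : ℂ) * e2334 + (-1 : ℂ) * z323 + (-1 : ℂ) * z020
  have z233 : z (2,3,3) = 0 := by linear_combination (1 : ℂ) * e0235 + (1 : ℂ) * z020 + (1 : ℂ) * z255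
  have e1225 : (-1 : ℂ) * z (1,2,1) + (1 : ℂ) * z (2,2,2) + (-1 : ℂ) * z (5,2,5) + (-1 : ℂ) * z (2,5,5) = 0 := by
    have h := hE 1 2 2 5
    simp only [Fin.sum_univ_six, c0, Matrix.cons_val] at h
    linear_combination h
  have z525 : z (5,2,5) = 0 := by linear_combination (-1 : ℂ) * e1225 + (-1 : ℂ) * z121 + (1 : ℂ) * z222 + (-1 : ℂ) * z255
  have e2125 : (-1 : ℂ) * z (2,1,1) + (-1 : ℂ) * z (2,2,2) + (1 : ℂ) * z (2,5,5) = 0 := by
    have h := hE 2 1 2 5
    simp only [Fin.sum_univ_six, c0, Matrix.cons_val] at h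
    linear_combination h
  have z211 : z (2,1,1) = 0 := by linear_combination (-1 : ℂ) * e2125 + (-1 : ℂ) * z222 + (1 : ℂ) * z255
  have z244 : z (2,4,4) = 0 := by linear_combination (1 : ℂ) * e2334 + (-1 : ℂ) * z330 + (2 : ℂ) * z233
  have e0325 : (-1 : ℂ) * z (0,3,1) + (1 : ℂ) * z (3,2,3) + (-1 : ℂ) * z (5,2,5) = 0 := by
    have h := hE 0 3 2 5
    simp only [Fin.sum_univ_six, c0, Matrix.cons_val] at h
    linear_combination h
  have z031 : z (0,3,1) = 0 := by linear_combination (-1 : ℂ) * e0325 + (1 : ℂ) * z323 + (-1 : ℂ) * z525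
  have e2104 : (1 : ℂ) * z (1,0,0) + (-1 : ℂ) * z (2,0,0) + (-1 : ℂ) * z (2,1,1) + (-1 : ℂ) * z (2,1,2) + (1 : ℂ) * z (2,4,4) + (-1 : ℂ) * z (1,4,4) = 0 := by
    have h := hE 2 1 0 4
    simp only [Fin.sum_univ_six, c0, Matrix.cons_val] at h
    linear_combination h
  have z100 : z (1,0,0) = 0 := by linear_combination (1 : ℂ) * e2104 + (1 : ℂ) * z200 + (1 : ℂ) * z211 + (1 : ℂ) * z212 + (-1 : ℂ) * z244 + (1 : ℂ) * z144
  have e1204 : (1 : ℂ) * z (2,0,0) + (-1 : ℂ) * z (1,0,0) + (-1 : ℂ) * z (1,2,1) + (-1 : ℂ) * z (1,2,2) + (1 : ℂ) * z (1,4,4) + (-1 : ℂ) * z (2,4,4) + (-1 : ℂ) * z (5,0,4) = 0 := by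
    have h := hE 1 2 0 4
    simp only [Fin.sum_univ_six, c0, Matrix.cons_val] at h
    linear_combination h
  have z504 : z (5,0,4) = 0 := by linear_combination (-1 : ℂ) * e1204 + (1 : ℂ) * z200 + (-1 : ℂ) * z100 + (-1 : ℂ) * z121 + (-1 : ℂ) * z122 + (1 : ℂ) * z144 + (-1 : ℂ) * z244
  have e0304 : (-1 : ℂ) * z (0,3,1) + (-1 : ℂ) * z (0,3,2) + (-1 : ℂ) * z (0,0,3) + (-1 : ℂ) * z (5,0,4) = 0 := by
    have h := hE 0 3 0 4
    simp only [Fin.sum_univ_six, c0, Matrix.cons_val] at h
    linear_combination h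
  have z032 : z (0,3,2) = 0 := by linear_combination (-1 : ℂ) * e0304 + (-1 : ℂ) * z031 + (-1 : ℂ) * z003 + (-1 : ℂ) * z504
  have e1035 : (-1 : ℂ) * z (1,0,0) + (1 : ℂ) * z (0,3,2) + (-1 : ℂ) * z (1,3,3) + (-1 : ℂ) * z (4,3,5) + (1 : ℂ) * z (1,5,5) = 0 := by
    have h := hE 1 0 3 5
    simp only [Fin.sum_univ_six, c0, Matrix.cons_val] at h
    linear_combination h
  have z155 : z (1,5,5) = 0 := by linear_combination (1 : ℂ) * e1035 + (1 : ℂ) * z100 + (-1 : ℂ) * z032 + (1 : ℂ) * z133 + (1 : ℂ) * z435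
  exact f6 
    (f6 (f6 z000 z001 z002 z003 z004 z005) (f6 z010 z011 z012 z013 z014 z015) (f6 z020 z021 z022 z023 z024 z025) (f6 z030 z031 z032 z033 z034 z035) (f6 z040 z041 z042 z043 z044 z045) (f6 z050 z051 z052 z053 z054 z055)) 
    (f6 (f6 z100 z101 z102 z103 z104 z105) (f6 z110 z111 z112 z113 z114 z115) (f6 z120 z121 z122 z123 z124 z125) (f6 z130 z131 z132 z133 z134 z135) (f6 z140 z141 z142 z143 z144 z145) (f6 z150 z151 z152 z153 z154 z155)) 
    (f6 (f6 z200 z201 z202 z203 z204 z205) (f6 z210 z211 z212 z213 z214 z215) (f6 z220 z221 z222 z223 z224 z225) (f6 z230 z231 z232 z233 z234 z235) (f6 z240 z241 z242 z243 z244 z245) (f6 z250 z251 z252 z253 z254 z255)) 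
    (f6 (f6 z300 z301 z302 z303 z304 z305) (f6 z310 z311 z312 z313 z314 z315) (f6 z320 z321 z322 z323 z324 z325) (f6 z330 z331 z332 z333 z334 z335) (f6 z340 z341 z342 z343 z344 z345) (f6 z350 z351 z352 z353 z354 z355)) 
    (f6 (f6 z400 z401 z402 z403 z404 z405) (f6 z410 z411 z412 z413 z414 z415) (f6 z420 z421 z422 z423 z424 z425) (f6 z430 z431 z432 z433 z434 z435) (f6 z440 z441 z442 z443 z444 z445) (f6 z450 z451 z452 z453 z454 z455)) 
    (f6 (f6 z500 z501 z502 z503 z504 z505) (f6 z510 z511 z512 z513 z514 z515) (f6 z520 z521 z522 z523 z524 z525) (f6 z530 z531 z532 z533 z534 z535) (f6 z540 z541 z542 z543 z544 z545) (f6 z550 z551 z552 z553 z554 z555))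

end H72.Leib
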