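import Mathlib
import Pool.Agent.H72.LeibCert

set_option autoImplicit false

namespace H72.Leib

open Matrix

section Gen
variable {R : Type} [CommRing R]

def mu (c : Idx → R) (u v : Fin 6 → R) : Fin 6 → R :=
  fun k => ∑ i : Fin 6, ∑ j : Fin 6, u i * v j * c (i, j, k)

def IsLeib (c : Idx → R) : Prop :=
  ∀ u v w : Fin 6 → R, mu c u (mu c v w) = mu c (mu c u v) w + mu c v (mu c u w)

theorem map_mu {S : Type} [CommRing S] (f : R →+* S) (c : Idx → R) (u v : Fin 6 → R) (k : Fin 6) :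
    f (mu c u v k) = mu (fun s => f (c s)) (fun i => f (u i)) (fun i => f (v i)) k := by
  simp [mu]

theorem map_mu' {S : Type} [CommRing S] (f : R →+* S) (c : Idx → R) (u v : Fin 6 → R) :
    (fun k => f (mu c u v k)) = mu (fun s => f (c s)) (fun i => f (u i)) (fun i => f (v i)) :=
  funext (map_mu f c u v)

theorem mu_single_left (c : Idx → R) (i : Fin 6) (v : Fin 6 → R) (k : Fin 6) :
    mu c (Pi.single i 1) v k = ∑ j, v j * c (i, j, k) := by
  unfold mu
  rw [Finset.sum_eq_single i]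
  · simp
  · intro b _ hb
    simp [Pi.single_eq_of_ne hb]
  · simp

theorem mu_single_right (c : Idx → R) (j : Fin 6) (u : Fin 6 → R) (k : Fin 6) :
    mu c u (Pi.single j 1) k = ∑ i, u i * c (i, j, k) := by
  unfold mu
  refine Finset.sum_congr rfl fun i _ => ?_
  rw [Finset.sum_eq_single j]
  · simp
  · intro b _ hb
    simp [Pi.single_eq_of_ne hb]
  · simp

theorem mu_single_single (c : Idx → R) (i j k : Fin 6) :
    mu c (Pi.single i 1) (Pi.single j 1) k = c (i, j, k) := by
  rw [mu_single_left, Finset.sum_eq_single j]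
  · simp
  · intro b _ hb
    simp [Pi.single_eq_of_ne hb]
  · simp

theorem IsLeib.coord {c : Idx → R} (h : IsLeib c) (i j k m : Fin 6) :
    ∑ l : Fin 6, (c (j,k,l) * c (i,l,m) - c (i,j,l) * c (l,k,m) - c (i,k,l) * c (j,l,m)) = 0 := by
  have h1 := congrFun (h (Pi.single i 1) (Pi.single j 1) (Pi.single k 1)) m
  rw [Pi.add_apply, mu_single_left, mu_single_right, mu_single_left] at h1
  simp only [mu_single_single] at h1
  rw [Finset.sum_sub_distrib, Finset.sum_sub_distrib, h1]
  ring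

/-- change of basis -/
def tr (P Q : Matrix (Fin 6) (Fin 6) R) (c : Idx → R) : Idx → R :=
  fun s => (Q *ᵥ mu c (P *ᵥ Pi.single s.1 1) (P *ᵥ Pi.single s.2.1 1)) s.2.2

theorem mu_tr (P Q : Matrix (Fin 6) (Fin 6) R) (c : Idx → R) (u v : Fin 6 → R) :
    mu (tr P Q c) u v = Q *ᵥ mu c (P *ᵥ u) (P *ᵥ v) := by
  funext k
  simp only [tr, mu, Matrix.mulVec_single_one]
  simp only [mu, Matrix.mulVec, dotProduct, Matrix.col_apply, Finset.mul_sum, Finset.sum_mul]
  have e1 : ∀ (f : Fin 6 → Fin 6 → Fin 6 → Fin 6 → Fin 6 → R),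
      ∑ i, ∑ j, ∑ x, ∑ a, ∑ b, f i j x a b = ∑ x, ∑ a, ∑ b, ∑ j, ∑ i, f i j x a b := by
    intro f
    rw [Finset.sum_comm]
    calc ∑ j, ∑ i, ∑ x, ∑ a, ∑ b, f i j x a b
        = ∑ j, ∑ x, ∑ a, ∑ b, ∑ i, f i j x a b := by
          refine Finset.sum_congr rfl fun j _ => ?_
          rw [Finset.sum_comm]
          refine Finset.sum_congr rfl fun x _ => ?_
          rw [Finset.sum_comm]
          refine Finset.sum_congr rfl fun a _ => ?_
          rw [Finset.sum_comm]
      _ = _ := by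
          rw [Finset.sum_comm]
          refine Finset.sum_congr rfl fun x _ => ?_
          rw [Finset.sum_comm]
          refine Finset.sum_congr rfl fun a _ => ?_
          rw [Finset.sum_comm]
  rw [e1]
  refine Finset.sum_congr rfl fun x _ => Finset.sum_congr rfl fun a _ =>
    Finset.sum_congr rfl fun b _ => Finset.sum_congr rfl fun j _ =>
    Finset.sum_congr rfl fun i _ => ?_
  ring

theorem IsLeib.tr {c : Idx → R} (h : IsLeib c) (P Q : Matrix (Fin 6) (Fin 6) R)
    (hPQ : P * Q = 1) : IsLeib (tr P Q c) := by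
  intro u v w
  simp only [mu_tr, Matrix.mulVec_mulVec, hPQ, Matrix.one_mulVec]
  rw [h, Matrix.mulVec_add]

end Gen

def InL (s : Idx) : Prop := s.1.val < 4 ∧ s.2.1.val < 4 ∧ 4 ≤ s.2.2.val

theorem c0_off : ∀ i j k : Fin 6, ¬ InL (i, j, k) → c0 (i, j, k) = 0 := by
  intro i j k h
  fin_cases i <;> fin_cases j <;> fin_cases k <;>
    first | rfl | (exfalso; apply h; simp [InL])

/-- Nakayama step -/
theorem key {R : Type} [CommRing R] [Algebra ℂ R] (ev : R →ₐ[ℂ] ℂ) (c : Idx → R)
    (hc : IsLeib c) (h0 : ∀ s, ev (c s) = c0 s)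
    (hA : ∀ k : Fin 6, k.val < 4 → c (2,0,k) = 0)
    (hB : ∀ k : Fin 6, k.val < 4 → c (1,2,k) = 0) :
    ∃ r : R, ev r = 1 ∧ ∀ s, ¬ InL s → r * c s = 0 := by
  classical
  let m : Ideal R := RingHom.ker ev.toRingHom
  let I : Ideal R := Ideal.span (c '' {s | ¬ InL s})
  have hIfg : I.FG := Submodule.fg_span ((Set.toFinite _).image c)
  have hmem : ∀ s, ¬ InL s → c s ∈ I := fun s hs => Ideal.subset_span ⟨s, hs, rfl⟩
  have hle : I ≤ m • I := by
    rw [Ideal.span_le]
    rintro _ ⟨s, hs, rfl⟩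
    by_contra hns
    have hns' : c s ∉ (m • I : Submodule R R).restrictScalars ℂ := hns
    obtain ⟨φ, hφ, hφ0⟩ := Submodule.exists_dual_map_eq_bot_of_notMem hns' inferInstance
    have hz : ∀ x ∈ (m • I : Submodule R R), φ x = 0 := by
      intro x hx
      have : φ x ∈ Submodule.map φ ((m • I : Submodule R R).restrictScalars ℂ) :=
        Submodule.mem_map_of_mem hx
      rw [hφ0] at this
      exact (Submodule.mem_bot ℂ).1 this
    let z : Idx → ℂ := fun s => if InL s then 0 else φ (c s)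
    have one : ∀ s t, ¬ InL t → φ (c s * c t) = c0 s * z t + z s * c0 t := by
      intro s t ht
      have e1 : c s * c t = (c s - algebraMap ℂ R (c0 s)) * c t + c0 s • c t := by
        rw [Algebra.smul_def]; ring
      have e2 : (c s - algebraMap ℂ R (c0 s)) * c t ∈ (m • I : Submodule R R) := by
        refine Submodule.smul_mem_smul (r := c s - algebraMap ℂ R (c0 s)) ?_ (hmem t ht)
        show ev.toRingHom _ = 0
        simp [h0]
      have e3 : c0 t = 0 := c0_off t.1 t.2.1 t.2.2 ht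
      rw [e1, map_add, hz _ e2, map_smul, e3]
      simp [z, ht]
    have two : ∀ s t, ¬ InL s ∨ ¬ InL t → φ (c s * c t) = c0 s * z t + z s * c0 t := by
      intro s t h
      rcases h with h | h
      · rw [mul_comm, one t s h]; ring
      · exact one s t h
    have hall := cert z (fun i j k h1 h2 h3 => by simp [z, InL, h1, h2, h3])
      (fun k hk => by simp [z, hA k hk]) (fun k hk => by simp [z, hB k hk])
      (fun i j k m => by
        have h1 := congrArg φ (hc.coord i j k m)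
        rw [map_sum, map_zero] at h1
        rw [← h1]
        refine Finset.sum_congr rfl fun l _ => ?_
        rw [map_sub, map_sub, two, two, two]
        all_goals (simp only [InL]; omega))
    have := hall s.1 s.2.1 s.2.2
    apply hφ
    have hs' : ¬ InL s := hs
    simpa [z, hs'] using this
  obtain ⟨r, hr1, hr⟩ := Submodule.exists_sub_one_mem_and_smul_eq_zero_of_fg_of_le_smul m I hIfg hle
  refine ⟨r, ?_, fun s hs => hr _ (hmem s hs)⟩
  have : ev.toRingHom (r - 1) = 0 := hr1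
  simpa [sub_eq_zero] using this


section Gen2
variable {R : Type} [CommRing R]

theorem triple_left (c : Idx → R) (r : R) (hr : ∀ s, ¬ InL s → r * c s = 0)
    (u v w : Fin 6 → R) : r • mu c (mu c u v) w = 0 := by
  funext k
  simp only [mu, Pi.smul_apply, smul_eq_mul, Finset.mul_sum, Finset.sum_mul, Pi.zero_apply]
  refine Finset.sum_eq_zero fun l _ => Finset.sum_eq_zero fun j _ =>
    Finset.sum_eq_zero fun a _ => Finset.sum_eq_zero fun b _ => ?_
  by_cases h : InL (a, b, l)
  · have h2 : ¬ InL (l, j, k) := by simp only [InL] at h ⊢; omega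
    have := hr _ h2
    linear_combination (u a * v b * c (a, b, l) * w j) * this
  · have := hr _ h
    linear_combination (u a * v b * w j * c (l, j, k)) * this

theorem triple_right (c : Idx → R) (r : R) (hr : ∀ s, ¬ InL s → r * c s = 0)
    (u v w : Fin 6 → R) : r • mu c u (mu c v w) = 0 := by
  funext k
  simp only [mu, Pi.smul_apply, smul_eq_mul, Finset.mul_sum, Finset.sum_mul, Pi.zero_apply]
  refine Finset.sum_eq_zero fun i _ => Finset.sum_eq_zero fun l _ =>
    Finset.sum_eq_zero fun a _ => Finset.sum_eq_zero fun b _ => ?_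
  by_cases h : InL (a, b, l)
  · have h2 : ¬ InL (i, l, k) := by simp only [InL] at h ⊢; omega
    have := hr _ h2
    linear_combination (u i * v a * w b * c (a, b, l)) * this
  · have := hr _ h
    linear_combination (u i * v a * w b * c (i, l, k)) * this

/-- the base change matrix -/
def Pm (c : Idx → R) : Matrix (Fin 6) (Fin 6) R :=
  Matrix.of fun k j => if j = 4 then c (2, 0, k) else if j = 5 then c (1, 2, k)
    else if k = j then 1 else 0

theorem map_Pm {S : Type} [CommRing S] (f : R →+* S) (c : Idx → R) :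
    (Pm c).map f = Pm (fun s => f (c s)) := by
  ext k j
  simp only [Pm, Matrix.map_apply, Matrix.of_apply]
  split_ifs <;> simp

theorem Pm_col (c : Idx → R) (j : Fin 6) (hj : j.val < 4) :
    Pm c *ᵥ Pi.single j 1 = Pi.single j 1 := by
  rw [Matrix.mulVec_single_one]
  funext k
  have h4 : j ≠ 4 := by rintro rfl; simp at hj
  have h5 : j ≠ 5 := by rintro rfl; simp at hj
  simp [Pm, h4, h5, Pi.single_apply]

theorem Pm_col4 (c : Idx → R) :
    Pm c *ᵥ Pi.single 4 1 = mu c (Pi.single 2 1) (Pi.single 0 1) := by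
  rw [Matrix.mulVec_single_one]
  funext k
  simp [Pm, mu_single_single]

theorem Pm_col5 (c : Idx → R) :
    Pm c *ᵥ Pi.single 5 1 = mu c (Pi.single 1 1) (Pi.single 2 1) := by
  rw [Matrix.mulVec_single_one]
  funext k
  simp [Pm, mu_single_single]

end Gen2

theorem Pm_c0 : Pm c0 = 1 := by
  ext k j
  fin_cases k <;> fin_cases j <;> simp [Pm, c0]

theorem key2 {R : Type} [CommRing R] [Algebra ℂ R] (ev : R →ₐ[ℂ] ℂ) (x : Idx → R)
    (hx : IsLeib x) (h0 : ∀ s, ev (x s) = c0 s) (hD : IsUnit (Pm x).det) :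
    ∃ r : R, ev r = 1 ∧ ∀ u v w, r • mu x (mu x u v) w = 0 ∧ r • mu x u (mu x v w) = 0 := by
  set P := Pm x with hP
  set Q := P⁻¹ with hQ
  have hPQ : P * Q = 1 := Matrix.mul_nonsing_inv P hD
  have hQP : Q * P = 1 := Matrix.nonsing_inv_mul P hD
  have hevP : P.map ev.toRingHom = 1 := by
    rw [hP, map_Pm, ← Pm_c0]
    congr 1
    funext s
    exact h0 s
  have hevQ : Q.map ev.toRingHom = 1 := by
    have := congrArg (fun M : Matrix (Fin 6) (Fin 6) R => M.map ev.toRingHom) hQP
    simp only [Matrix.map_mul, hevP, Matrix.mul_one] at this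
    rw [this]
    exact Matrix.map_one _ (map_zero _) (map_one _)
  have evmul : ∀ (M : Matrix (Fin 6) (Fin 6) R), M.map ev.toRingHom = 1 →
      ∀ (v : Fin 6 → R) (k : Fin 6), ev.toRingHom ((M *ᵥ v) k) = ev.toRingHom (v k) := by
    intro M hM v k
    rw [RingHom.map_mulVec, hM, Matrix.one_mulVec]
    rfl
  have evs : ∀ i : Fin 6, (fun k => ev.toRingHom ((P *ᵥ Pi.single i 1) k)) = Pi.single i 1 := by
    intro i
    funext k
    rw [evmul P hevP]
    by_cases h : k = i
    · subst h; simp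
    · simp [Pi.single_eq_of_ne h]
  obtain ⟨r, hr1, hr⟩ := key ev (tr P Q x) (hx.tr P Q hPQ)
    (fun s => by
      show ev.toRingHom _ = _
      unfold tr
      rw [evmul Q hevQ, map_mu, evs, evs, mu_single_single]
      exact h0 s)
    (fun k hk => by
      unfold tr
      simp only
      rw [hP, Pm_col x 2 (by decide), Pm_col x 0 (by decide), ← Pm_col4, ← hP,
        Matrix.mulVec_mulVec, hQP, Matrix.one_mulVec]
      have : k ≠ 4 := by rintro rfl; simp at hk
      exact Pi.single_eq_of_ne this _)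
    (fun k hk => by
      unfold tr
      simp only
      rw [hP, Pm_col x 1 (by decide), Pm_col x 2 (by decide), ← Pm_col5, ← hP,
        Matrix.mulVec_mulVec, hQP, Matrix.one_mulVec]
      have : k ≠ 5 := by rintro rfl; simp at hk
      exact Pi.single_eq_of_ne this _)
  refine ⟨r, hr1, fun u v w => ⟨?_, ?_⟩⟩
  · have h1 := triple_left _ r hr (Q *ᵥ u) (Q *ᵥ v) (Q *ᵥ w)
    simp only [mu_tr, Matrix.mulVec_mulVec, hPQ, Matrix.one_mulVec] at h1
    have h2 := congrArg (fun y => P *ᵥ y) h1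
    simpa only [Matrix.mulVec_smul, Matrix.mulVec_mulVec, hPQ, Matrix.one_mulVec,
      Matrix.mulVec_zero] using h2
  · have h1 := triple_right _ r hr (Q *ᵥ u) (Q *ᵥ v) (Q *ᵥ w)
    simp only [mu_tr, Matrix.mulVec_mulVec, hPQ, Matrix.one_mulVec] at h1
    have h2 := congrArg (fun y => P *ᵥ y) h1
    simpa only [Matrix.mulVec_smul, Matrix.mulVec_mulVec, hPQ, Matrix.one_mulVec,
      Matrix.mulVec_zero] using h2

def Nil2 (c : Idx → ℂ) : Prop :=
  ∀ u v w, mu c (mu c u v) w = 0 ∧ mu c u (mu c v w) = 0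

theorem c0_leib : IsLeib c0 := by
  intro u v w
  have hr : ∀ s, ¬ InL s → (1 : ℂ) * c0 s = 0 := fun s hs => by
    rw [one_mul]; exact c0_off s.1 s.2.1 s.2.2 hs
  have h1 := triple_left c0 1 hr u v w
  have h2 := triple_right c0 1 hr u v w
  have h3 := triple_right c0 1 hr v u w
  rw [one_smul] at h1 h2 h3
  rw [h1, h2, h3, add_zero]

open MvPolynomial in
theorem exists_g : ∃ g : MvPolynomial Idx ℂ, eval c0 g ≠ 0 ∧
    ∀ c, IsLeib c → eval c g ≠ 0 → Nil2 c := by
  classical
  let Dp : MvPolynomial Idx ℂ := (Pm (fun s => (X s : MvPolynomial Idx ℂ))).det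
  have hDp : ∀ c : Idx → ℂ, eval c Dp = (Pm c).det := by
    intro c
    rw [RingHom.map_det, RingHom.mapMatrix_apply, map_Pm]
    simp
  let U := {c : Idx → ℂ // IsLeib c ∧ (Pm c).det ≠ 0}
  let gens : Set (U → ℂ) :=
    insert (fun c => ((Pm c.1).det)⁻¹) (Set.range fun s : Idx => fun c : U => c.1 s)
  let R := Algebra.adjoin ℂ gens
  let evc : U → (R →ₐ[ℂ] ℂ) := fun c => (Pi.evalAlgHom ℂ (fun _ : U => ℂ) c).comp R.val
  have hev : ∀ (c : U) (f : R), evc c f = f.1 c := fun _ _ => rfl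
  have hext : ∀ f g : R, (∀ c : U, evc c f = evc c g) → f = g := fun f g h =>
    Subtype.ext (funext h)
  let x : Idx → R := fun s => ⟨fun c => c.1 s, Algebra.subset_adjoin (Or.inr ⟨s, rfl⟩)⟩
  let dinv : R := ⟨fun c => ((Pm c.1).det)⁻¹, Algebra.subset_adjoin (Or.inl rfl)⟩
  have hx : IsLeib x := by
    intro u v w
    funext k
    refine hext _ _ fun c => ?_
    show (evc c).toRingHom _ = (evc c).toRingHom _
    rw [Pi.add_apply, map_add, map_mu, map_mu, map_mu, map_mu', map_mu', map_mu']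
    exact congrFun (c.2.1 _ _ _) k
  have hdet : ∀ c : U, (evc c).toRingHom (Pm x).det = (Pm c.1).det := by
    intro c
    rw [RingHom.map_det, RingHom.mapMatrix_apply, map_Pm]
    rfl
  have hD : IsUnit (Pm x).det := by
    refine IsUnit.of_mul_eq_one dinv (hext _ _ fun c => ?_)
    show (evc c).toRingHom _ = (evc c).toRingHom _
    rw [map_mul, hdet, map_one]
    exact mul_inv_cancel₀ c.2.2
  let u0 : U := ⟨c0, c0_leib, by rw [Pm_c0]; simp⟩
  obtain ⟨r, hr1, hr⟩ := key2 (evc u0) x hx (fun s => rfl) hD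
  have hpoly : ∀ f ∈ R, ∃ (p : MvPolynomial Idx ℂ) (k : ℕ),
      ∀ c : U, f c * (Pm c.1).det ^ k = eval c.1 p := by
    intro f hf
    induction hf using Algebra.adjoin_induction with
    | mem f hf =>
      rcases hf with rfl | ⟨s, rfl⟩
      · exact ⟨1, 1, fun c => by simp [inv_mul_cancel₀ c.2.2]⟩
      · exact ⟨X s, 0, fun c => by simp⟩
    | algebraMap a => exact ⟨C a, 0, fun c => by simp⟩
    | add f g _ _ hf hg =>
      obtain ⟨p, k, hp⟩ := hf
      obtain ⟨q, l, hq⟩ := hg
      refine ⟨p * Dp ^ l + q * Dp ^ k, k + l, fun c => ?_⟩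
      simp only [map_add, map_mul, map_pow, hDp, ← hp, ← hq, Pi.add_apply]
      ring
    | mul f g _ _ hf hg =>
      obtain ⟨p, k, hp⟩ := hf
      obtain ⟨q, l, hq⟩ := hg
      refine ⟨p * q, k + l, fun c => ?_⟩
      simp only [map_mul, ← hp, ← hq, Pi.mul_apply]
      ring
  obtain ⟨p, k, hp⟩ := hpoly r.1 r.2
  refine ⟨Dp * p, ?_, fun c hc hg => ?_⟩
  · have h1 := hp u0
    have h2 : r.1 u0 = 1 := hr1
    rw [h2] at h1
    have h3 : (Pm u0.1).det = 1 := by
      show (Pm c0).det = 1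
      rw [Pm_c0]; simp
    rw [map_mul, hDp]
    change (Pm u0.1).det * eval u0.1 p ≠ 0
    rw [← h1, h3]; simp
  · rw [map_mul, hDp] at hg
    let uc : U := ⟨c, hc, left_ne_zero_of_mul hg⟩
    have hrc : (evc uc).toRingHom r ≠ 0 := by
      intro h
      have h1 := hp uc
      have h2 : r.1 uc = 0 := h
      rw [h2, zero_mul] at h1
      exact right_ne_zero_of_mul hg h1.symm
    intro u v w
    obtain ⟨h1, h2⟩ := hr (fun i => algebraMap ℂ R (u i)) (fun i => algebraMap ℂ R (v i))
      (fun i => algebraMap ℂ R (w i))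
    constructor
    · funext m
      have h3 := congrArg (evc uc).toRingHom (congrFun h1 m)
      rw [Pi.smul_apply, smul_eq_mul, map_mul, map_mu, map_mu', Pi.zero_apply, map_zero] at h3
      exact (mul_eq_zero.1 h3).resolve_left hrc
    · funext m
      have h3 := congrArg (evc uc).toRingHom (congrFun h2 m)
      rw [Pi.smul_apply, smul_eq_mul, map_mul, map_mu, map_mu', Pi.zero_apply, map_zero] at h3
      exact (mul_eq_zero.1 h3).resolve_left hrc

def Cl (Z : Set (Idx → ℂ)) : Prop :=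
  ∃ S : Set (MvPolynomial Idx ℂ), Z = {c | ∀ p ∈ S, MvPolynomial.eval c p = 0}

def Irr (Z : Set (Idx → ℂ)) : Prop :=
  Cl Z ∧ Z.Nonempty ∧ ∀ A B : Set (Idx → ℂ), Cl A → Cl B → Z ⊆ A ∪ B → (Z ⊆ A ∨ Z ⊆ B)

open MvPolynomial in
theorem eval_mu (c : Idx → ℂ) (u v : Fin 6 → MvPolynomial Idx ℂ) :
    (fun k => eval c (mu (fun s => X s) u v k))
      = mu c (fun i => eval c (u i)) (fun i => eval c (v i)) := by
  rw [map_mu']
  simp

open MvPolynomial in
theorem cl_leib : Cl {c | IsLeib c} := by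
  refine ⟨{p | ∃ (u v w : Fin 6 → ℂ) (m : Fin 6), p =
    mu (fun s => X s) (fun i => C (u i)) (mu (fun s => X s) (fun i => C (v i)) (fun i => C (w i))) m
    - (mu (fun s => X s) (mu (fun s => X s) (fun i => C (u i)) (fun i => C (v i))) (fun i => C (w i)) m
    + mu (fun s => X s) (fun i => C (v i)) (mu (fun s => X s) (fun i => C (u i)) (fun i => C (w i))) m)},
    ?_⟩
  ext c
  simp only [Set.mem_ofPred_eq]
  constructor
  · rintro h _ ⟨u, v, w, m, rfl⟩
    simp only [map_sub, map_add, map_mu, map_mu', eval_X, eval_C]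
    rw [sub_eq_zero]
    exact congrFun (h u v w) m
  · intro h u v w
    funext m
    have := h _ ⟨u, v, w, m, rfl⟩
    simp only [map_sub, map_add, map_mu, map_mu', eval_X, eval_C] at this
    exact sub_eq_zero.1 this

open MvPolynomial in
theorem cl_nil : Cl {c | Nil2 c} := by
  refine ⟨{p | ∃ (u v w : Fin 6 → ℂ) (m : Fin 6), p =
    mu (fun s => X s) (fun i => C (u i)) (mu (fun s => X s) (fun i => C (v i)) (fun i => C (w i))) m
    ∨ p = mu (fun s => X s) (mu (fun s => X s) (fun i => C (u i)) (fun i => C (v i)))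
      (fun i => C (w i)) m}, ?_⟩
  ext c
  simp only [Set.mem_ofPred_eq]
  constructor
  · rintro h _ ⟨u, v, w, m, rfl | rfl⟩
    · simp only [map_mu, map_mu', eval_X, eval_C]
      exact congrFun (h u v w).2 m
    · simp only [map_mu, map_mu', eval_X, eval_C]
      exact congrFun (h u v w).1 m
  · intro h u v w
    constructor
    · funext m
      have := h _ ⟨u, v, w, m, Or.inr rfl⟩
      simp only [map_mu, map_mu', eval_X, eval_C] at this
      exact this
    · funext m
      have := h _ ⟨u, v, w, m, Or.inl rfl⟩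
      simp only [map_mu, map_mu', eval_X, eval_C] at this
      exact this

open MvPolynomial in
theorem irr_single (c : Idx → ℂ) : Irr {c} := by
  refine ⟨⟨Set.range fun s => X s - C (c s), ?_⟩, ⟨c, rfl⟩, fun A B _ _ h => ?_⟩
  · ext d
    simp only [Set.mem_singleton_iff, Set.mem_ofPred_eq, Set.forall_mem_range, map_sub, eval_X,
      eval_C, sub_eq_zero]
    exact funext_iff
  · simpa using h

theorem exists_comp : ∃ Z, c0 ∈ Z ∧ Irr Z ∧ (∀ c ∈ Z, IsLeib c) ∧
    ∀ Z', Irr Z' → Z ⊆ Z' → (∀ c ∈ Z', IsLeib c) → Z' = Z := by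
  let F : Set (Set (Idx → ℂ)) := {Z | Irr Z ∧ ∀ c ∈ Z, IsLeib c}
  have hz := zorn_subset_nonempty F (fun C hC hch hne => ?_) {c0}
    ⟨irr_single c0, by rintro c rfl; exact c0_leib⟩
  · obtain ⟨Z, hZ0, hZ⟩ := hz
    refine ⟨Z, hZ0 rfl, hZ.prop.1, hZ.prop.2, fun Z' h1 h2 h3 => ?_⟩
    exact Set.Subset.antisymm (hZ.2 ⟨h1, h3⟩ h2) h2
  · let T : Set (Idx → ℂ) :=
      {c | ∀ p ∈ {p : MvPolynomial Idx ℂ | ∀ t ∈ ⋃₀ C, MvPolynomial.eval t p = 0},
        MvPolynomial.eval c p = 0}
    have hsub : ⋃₀ C ⊆ T := fun t ht p hp => hp t ht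
    have hmin : ∀ A, Cl A → ⋃₀ C ⊆ A → T ⊆ A := by
      rintro A ⟨S, rfl⟩ h c hc p hp
      exact hc p fun t ht => h ht p hp
    refine ⟨T, ⟨⟨⟨_, rfl⟩, ?_, fun A B hA hB h => ?_⟩, ?_⟩,
      fun s hs => (Set.subset_sUnion_of_mem hs).trans hsub⟩
    · obtain ⟨Z, hZ⟩ := hne
      obtain ⟨c, hc⟩ := (hC hZ).1.2.1
      exact ⟨c, hsub ⟨Z, hZ, hc⟩⟩
    · by_cases hA' : ⋃₀ C ⊆ A
      · exact Or.inl (hmin A hA hA')
      · right
        refine hmin B hB ?_
        obtain ⟨a, ⟨Z1, hZ1, ha1⟩, haA⟩ := Set.not_subset.1 hA'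
        rintro b ⟨Z2, hZ2, hb2⟩
        have key : ∀ Z ∈ C, a ∈ Z → Z ⊆ B := fun Z hZ ha =>
          ((hC hZ).1.2.2 A B hA hB
            (((Set.subset_sUnion_of_mem hZ).trans hsub).trans h)).resolve_left
            fun h' => haA (h' ha)
        rcases hch.total hZ1 hZ2 with h12 | h21
        · exact key Z2 hZ2 (h12 ha1) hb2
        · exact key Z1 hZ1 ha1 (h21 hb2)
    · exact fun c hc => hmin _ cl_leib (fun t ⟨Z, hZ, ht⟩ => (hC hZ).2 t ht) hc

theorem final : ∃ Z, Irr Z ∧ (∀ c ∈ Z, IsLeib c) ∧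
    (∀ Z', Irr Z' → Z ⊆ Z' → (∀ c ∈ Z', IsLeib c) → Z' = Z) ∧ ∀ c ∈ Z, Nil2 c := by
  obtain ⟨Z, h0, hI, hL, hM⟩ := exists_comp
  obtain ⟨g, hg0, hg⟩ := exists_g
  refine ⟨Z, hI, hL, hM, ?_⟩
  have := hI.2.2 {c | ∀ p ∈ ({g} : Set (MvPolynomial Idx ℂ)), MvPolynomial.eval c p = 0}
    {c | Nil2 c} ⟨_, rfl⟩ cl_nil (fun c hc => by
      by_cases h : MvPolynomial.eval c g = 0
      · left
        rintro p rfl
        exact h
      · right
        exact hg c (hL c hc) h)
  rcases this with h | h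
  · exact absurd (h h0 g rfl) hg0
  · exact h

/-- the two-sided annihilator -/
def ann (c : Idx → ℂ) : Submodule ℂ (Fin 6 → ℂ) where
  carrier := {v | ∀ u, mu c u v = 0 ∧ mu c v u = 0}
  zero_mem' := fun u => by constructor <;> (funext k; simp [mu])
  add_mem' := fun {a b} ha hb u => by
    constructor
    · have : mu c u (a + b) = mu c u a + mu c u b := by
        funext k; simp [mu, mul_add, add_mul, Finset.sum_add_distrib]
      rw [this, (ha u).1, (hb u).1, add_zero]
    · have : mu c (a + b) u = mu c a u + mu c b u := by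
        funext k; simp [mu, add_mul, Finset.sum_add_distrib]
      rw [this, (ha u).2, (hb u).2, add_zero]
  smul_mem' := fun t a ha u => by
    constructor
    · have : mu c u (t • a) = t • mu c u a := by
        funext k
        simp only [mu, Pi.smul_apply, smul_eq_mul, Finset.mul_sum]
        refine Finset.sum_congr rfl fun i _ => Finset.sum_congr rfl fun j _ => by ring
      rw [this, (ha u).1, smul_zero]
    · have : mu c (t • a) u = t • mu c a u := by
        funext k
        simp only [mu, Pi.smul_apply, smul_eq_mul, Finset.mul_sum]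
        refine Finset.sum_congr rfl fun i _ => Finset.sum_congr rfl fun j _ => by ring
      rw [this, (ha u).2, smul_zero]

theorem nil_chain (c : Idx → ℂ) (h : Nil2 c) : ∃ V : ℕ → Submodule ℂ (Fin 6 → ℂ),
    Monotone V ∧ V 0 = ⊥ ∧ (∃ m : ℕ, V m = ⊤) ∧
      ∀ (k : ℕ) (u v : Fin 6 → ℂ), v ∈ V (k + 1) → (mu c u v ∈ V k ∧ mu c v u ∈ V k) := by
  refine ⟨fun k => match k with
    | 0 => ⊥
    | 1 => ann c
    | _ + 2 => ⊤, monotone_nat_of_le_succ fun k => ?_, rfl, ⟨2, rfl⟩, fun k u v hv => ?_⟩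
  · match k with
    | 0 => exact bot_le
    | 1 => exact le_top
    | _ + 2 => exact le_rfl
  · match k with
    | 0 => exact ⟨(hv u).1, (hv u).2⟩
    | 1 => exact ⟨fun w => ⟨(h w u v).2, (h u v w).1⟩, fun w => ⟨(h w v u).2, (h v u w).1⟩⟩
    | _ + 2 => exact ⟨trivial, trivial⟩

end H72.Leib
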