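import Mathlib

namespace Pool.Agent.H72.LinLat

open Submodule

/-- parity lemma -/
lemma parity {C : Type} [Finite C] (α : Setoid C) (R : C → C → Prop)
    (tot : ∀ x, ∃ x', R x x') (sym : ∀ x x', R x x' → R x' x)
    (fn : ∀ x y x' y', α x y → R x x' → R y y' → α x' y') :
    ∃ f : Function.End (Quotient α), f ^ 2 ^ 1 = 1 ∧
      ∀ x x', R x x' → f (Quotient.mk α x) = Quotient.mk α x' := by
  choose φ hφ using tot
  refine ⟨Quotient.map φ (fun x y h => fn x y _ _ h (hφ x) (hφ y)), ?_, ?_⟩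
  · funext q
    obtain ⟨x, rfl⟩ := Quotient.exists_rep q
    exact Quotient.sound (fn _ _ _ _ (α.refl _) (hφ (φ x)) (sym _ _ (hφ x)))
  · intro x x' h
    exact Quotient.sound (fn _ _ _ _ (α.refl _) (hφ x) h)

structure Rep {F M B : Type} [Field F] [AddCommGroup M] [Module F M]
    (ρ : Submodule F M → Setoid B) : Prop where
  inf : ∀ x y, ρ (x ⊓ y) = ρ x ⊓ ρ y
  sup : ∀ x y a b, ρ (x ⊔ y) a b ↔ ∃ c, ρ x a c ∧ ρ y c b

section
variable {F M B : Type} [Field F] [AddCommGroup M] [Module F M] {ρ : Submodule F M → Setoid B}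

lemma Rep.mono (h : Rep ρ) {x y : Submodule F M} (hxy : x ≤ y) {a b : B} (hab : ρ x a b) :
    ρ y a b := by
  rw [← sup_eq_right.mpr hxy, h.sup]
  exact ⟨b, hab, (ρ y).refl _⟩

lemma Rep.both (h : Rep ρ) {x y : Submodule F M} {a b : B} (h1 : ρ x a b) (h2 : ρ y a b) :
    ρ (x ⊓ y) a b := by
  rw [h.inf]; exact ⟨h1, h2⟩

lemma Rep.join (h : Rep ρ) {x y : Submodule F M} {a b c : B} (h1 : ρ x a c) (h2 : ρ y c b) :
    ρ (x ⊔ y) a b := (h.sup x y a b).mpr ⟨c, h1, h2⟩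

lemma mem2 {u v w : M} : w ∈ span F {u} ⊔ span F {v} ↔ ∃ s t : F, w = s • u + t • v := by
  rw [mem_sup]
  constructor
  · rintro ⟨y, hy, z, hz, rfl⟩
    obtain ⟨s, rfl⟩ := mem_span_singleton.mp hy
    obtain ⟨t, rfl⟩ := mem_span_singleton.mp hz
    exact ⟨s, t, rfl⟩
  · rintro ⟨s, t, rfl⟩
    exact ⟨_, mem_span_singleton.mpr ⟨s, rfl⟩, _, mem_span_singleton.mpr ⟨t, rfl⟩, rfl⟩

lemma Rep.meet4 (h : Rep ρ) {u v u' v' : M} (w : M) {a b c c' : B}
    (h1 : ρ (span F {u}) a c) (h2 : ρ (span F {v}) c b)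
    (h3 : ρ (span F {u'}) a c') (h4 : ρ (span F {v'}) c' b)
    (hc : ∀ s t s' t' : F, s • u + t • v = s' • u' + t' • v' → ∃ r : F, s • u + t • v = r • w) :
    ρ (span F {w}) a b := by
  refine h.mono ?_ (h.both (h.join h1 h2) (h.join h3 h4))
  rintro x ⟨hx, hx'⟩
  obtain ⟨s, t, rfl⟩ := mem2.mp hx
  obtain ⟨s', t', e⟩ := mem2.mp hx'
  obtain ⟨r, hr⟩ := hc s t s' t' e
  exact mem_span_singleton.mpr ⟨r, hr.symm⟩

lemma Rep.meet2 (h : Rep ρ) {u v : M} {a b : B}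
    (h1 : ρ (span F {u}) a b) (h2 : ρ (span F {v}) a b)
    (hc : ∀ s t : F, s • u = t • v → s • u = 0) : ρ ⊥ a b := by
  refine h.mono ?_ (h.both h1 h2)
  rintro x ⟨hx, hx'⟩
  obtain ⟨s, rfl⟩ := mem_span_singleton.mp hx
  obtain ⟨t, e⟩ := mem_span_singleton.mp hx'
  exact hc s t e.symm

lemma Rep.split (h : Rep ρ) {u v : M} (u' v' : M) {a b c : B}
    (h1 : ρ (span F {u}) a c) (h2 : ρ (span F {v}) c b)
    (hu : ∃ s t : F, u = s • u' + t • v') (hv : ∃ s t : F, v = s • u' + t • v') :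
    ∃ c', ρ (span F {u'}) a c' ∧ ρ (span F {v'}) c' b := by
  rw [← h.sup]
  refine h.mono ?_ (h.join h1 h2)
  apply sup_le <;> rw [span_singleton_le_iff_mem, mem2] <;> assumption

end

abbrev V2 := Fin 3 → ZMod 2
abbrev V3 := Fin 3 → ZMod 3

def β : Submodule (ZMod 2) V2 := span (ZMod 2) {![1, 0, 0]}
def α : Submodule (ZMod 3) V3 := span (ZMod 3) {![0, 1, 0]} ⊔ span (ZMod 3) {![0, 0, 1]}

lemma even_card {B : Type} [Finite B] {ρ : Submodule (ZMod 2) V2 → Setoid B} (h : Rep ρ)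
    (O P : B) (hOP : ρ β O P) (hn : ¬ ρ ⊥ O P) :
    Nat.card (Quotient ((ρ ⊥).comap (Subtype.val : {x // ρ β O x} → B))) % 2 = 0 := by
  classical
  unfold β at hOP ⊢
  obtain ⟨Y, hY, hY'⟩ := h.split ![0, 1, 0] ![1, 1, 0] hOP ((ρ (span _ {![1, 0, 0]})).refl _)
    (by decide) (by decide)
  have bot : ∀ {u : V2} {a b : B}, ρ ⊥ a b → ρ (span _ {u}) a b := fun hab => h.mono bot_le hab
  obtain ⟨f, hf, hR⟩ := parity
    ((ρ ⊥).comap (Subtype.val : {x // ρ (span _ {![1, 0, 0]}) O x} → B))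
    (fun x x' => ∃ y, ρ (span _ {![0, 1, 0]}) x.1 y ∧ ρ (span _ {![1, 0, 0]}) y Y ∧
      ρ (span _ {![1, 1, 0]}) y x'.1) (by
      intro x
      obtain ⟨y, hy, hy'⟩ := h.split ![0, 1, 0] ![1, 0, 0] ((ρ _).symm x.2) hY
        (by decide) (by decide)
      obtain ⟨z, hz, hz'⟩ := h.split ![1, 1, 0] ![1, 0, 0] ((ρ _).symm hy) ((ρ _).symm x.2)
        (by decide) (by decide)
      exact ⟨⟨z, (ρ _).symm hz'⟩, y, hy, hy', hz⟩) (by
      rintro x x' ⟨y, h1, h2, h3⟩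
      obtain ⟨y', hy, hy'⟩ := h.split ![0, 1, 0] ![1, 0, 0] ((ρ _).symm x'.2) hY
        (by decide) (by decide)
      refine ⟨y', hy, hy', ?_⟩
      have hxx : ρ (span _ {![1, 0, 0]}) x.1 x'.1 := (ρ _).trans ((ρ _).symm x.2) x'.2
      have hyy : ρ (span _ {![1, 0, 0]}) y y' := (ρ _).trans h2 ((ρ _).symm hy')
      obtain ⟨Q, q1, q2⟩ := h.split ![0, 0, 1] ![1, 0, 1] hxx ((ρ (span _ {![1, 0, 0]})).refl _)
        (by decide) (by decide)
      have q3 := h.meet4 ![0, 1, 1] ((ρ _).symm q1) h1 q2 ((ρ _).symm h3) (by decide)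
      have q4 := h.meet4 ![1, 1, 1] q2 hy q3 hyy (by decide)
      exact (ρ _).symm (h.meet4 ![1, 1, 0] q1 q4 hxx hy (by decide))) (by
      rintro x y x' y' hxy ⟨u, h1, h2, h3⟩ ⟨v, k1, k2, k3⟩
      have e1 : ρ ⊥ u v := h.meet2 ((ρ _).trans ((ρ _).trans ((ρ _).symm h1) (bot hxy)) k1)
        ((ρ _).trans h2 ((ρ _).symm k2)) (by decide)
      exact h.meet2 ((ρ _).trans ((ρ _).trans ((ρ _).symm h3) (bot e1)) k3)
        ((ρ _).trans ((ρ _).symm x'.2) y'.2) (by decide))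
  have := Fintype.ofFinite
    (Quotient ((ρ ⊥).comap (Subtype.val : {x // ρ (span _ {![1, 0, 0]}) O x} → B)))
  have hc := Equiv.Perm.card_fixedPoints_modEq hf
  have he : IsEmpty (Function.fixedPoints f) := by
    refine ⟨fun ⟨q, hq⟩ => ?_⟩
    obtain ⟨x, rfl⟩ := Quotient.exists_rep q
    obtain ⟨y, hy, hy'⟩ := h.split ![0, 1, 0] ![1, 0, 0] ((ρ _).symm x.2) hY
      (by decide) (by decide)
    obtain ⟨z, hz, hz'⟩ := h.split ![1, 1, 0] ![1, 0, 0] ((ρ _).symm hy) ((ρ _).symm x.2)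
      (by decide) (by decide)
    have e := hR x ⟨z, (ρ _).symm hz'⟩ ⟨y, hy, hy', hz⟩
    rw [Function.mem_fixedPoints_iff.mp hq] at e
    have e0 := Quotient.exact e
    have e1 : ρ ⊥ x.1 z := e0
    have e2 : ρ ⊥ x.1 y := h.meet2 hy ((ρ _).trans (bot e1) ((ρ _).symm hz)) (by decide)
    have e3 : ρ ⊥ O Y := h.meet2 hY ((ρ _).trans ((ρ _).trans x.2 (bot e2)) hy') (by decide)
    exact hn (h.meet2 hOP ((ρ _).trans (bot e3) hY') (by decide))
  rw [Fintype.card_eq_zero (α := Function.fixedPoints f)] at hc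
  rw [Nat.card_eq_fintype_card]
  exact hc

lemma odd_card {B : Type} [Finite B] {ρ : Submodule (ZMod 3) V3 → Setoid B} (h : Rep ρ)
    (O : B) :
    Nat.card (Quotient ((ρ α).comap (Subtype.val : {x // ρ ⊤ O x} → B))) % 2 = 1 := by
  classical
  have bot : ∀ {u : Submodule (ZMod 3) V3} {a b : B}, ρ ⊥ a b → ρ u a b :=
    fun hab => h.mono bot_le hab
  have htop : α ⊔ span (ZMod 3) {![1, 0, 0]} = ⊤ := by
    rw [eq_top_iff]
    rintro x -
    refine mem_sup.mpr ⟨x 1 • ![0, 1, 0] + x 2 • ![0, 0, 1], mem2.mpr ⟨_, _, rfl⟩,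
      x 0 • ![1, 0, 0], mem_span_singleton.mpr ⟨_, rfl⟩, ?_⟩
    revert x; decide
  have hbot : α ⊓ span (ZMod 3) {![1, 0, 0]} ≤ ⊥ := by
    rintro x ⟨h1, h2⟩
    obtain ⟨s, t, rfl⟩ := mem2.mp h1
    obtain ⟨r, hr⟩ := mem_span_singleton.mp h2
    rw [mem_bot]
    clear h1 h2
    revert s t r; decide
  have tot : ∀ x : {x // ρ ⊤ O x}, ∃ x' : {x // ρ ⊤ O x}, ∃ u u' v, ρ α x.1 u ∧ ρ α x'.1 u' ∧
      ρ (span _ {![1, 0, 0]}) u O ∧ ρ (span _ {![1, 0, 0]}) u' O ∧ ρ (span _ {![0, 1, 0]}) v O ∧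
      ρ (span _ {![1, 1, 0]}) u v ∧ ρ (span _ {![1, 2, 0]}) v u' := by
    intro x
    obtain ⟨u, h1, h2⟩ := (h.sup α (span (ZMod 3) {![1, 0, 0]}) x.1 O).mp
      (h.mono htop.ge ((ρ ⊤).symm x.2))
    obtain ⟨v, h3, h4⟩ := h.split ![1, 1, 0] ![0, 1, 0] h2 ((ρ (span _ {![1, 0, 0]})).refl _)
      (by decide) (by decide)
    obtain ⟨u', h5, h6⟩ := h.split ![1, 2, 0] ![1, 0, 0] h4 ((ρ (span _ {![1, 0, 0]})).refl _)
      (by decide) (by decide)
    exact ⟨⟨u', h.mono le_top ((ρ _).symm h6)⟩, u, u', v, h1, (ρ _).refl _, h2, h6, h4, h3, h5⟩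
  obtain ⟨f, hf, hR⟩ := parity ((ρ α).comap (Subtype.val : {x // ρ ⊤ O x} → B))
    (fun x x' => ∃ u u' v, ρ α x.1 u ∧ ρ α x'.1 u' ∧
      ρ (span _ {![1, 0, 0]}) u O ∧ ρ (span _ {![1, 0, 0]}) u' O ∧ ρ (span _ {![0, 1, 0]}) v O ∧
      ρ (span _ {![1, 1, 0]}) u v ∧ ρ (span _ {![1, 2, 0]}) v u') tot (by
      rintro x x' ⟨u, u', v, h1, h2, h3, h4, h5, h6, h7⟩
      obtain ⟨v', h8, h9⟩ := h.split ![1, 1, 0] ![0, 1, 0] h4 ((ρ (span _ {![1, 0, 0]})).refl _)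
        (by decide) (by decide)
      refine ⟨u', u, v', h2, h1, h4, h3, h9, h8, ?_⟩
      obtain ⟨Q, q1, q2⟩ := h.split ![0, 0, 1] ![1, 0, 2] ((ρ _).symm h3)
        ((ρ (span _ {![1, 0, 0]})).refl _) (by decide) (by decide)
      have q3 := h.meet4 ![0, 1, 1] h5 q1 ((ρ _).symm h6) ((ρ _).symm q2) (by decide)
      have q4 := h.meet4 ![1, 0, 1] h4 q1 ((ρ _).symm h7) q3 (by decide)
      have q5 := h.meet4 ![0, 1, 2] h9 q1 ((ρ _).symm h8) q4 (by decide)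
      exact h.meet4 ![1, 2, 0] q5 q2 h9 ((ρ _).symm h3) (by decide)) (by
      rintro x y x' y' hxy ⟨u, u', v, h1, h2, h3, h4, h5, h6, h7⟩
        ⟨w, w', z, k1, k2, k3, k4, k5, k6, k7⟩
      have e1 : ρ ⊥ u w := h.mono hbot (h.both
        ((ρ _).trans ((ρ _).trans ((ρ _).symm h1) hxy) k1) ((ρ _).trans h3 ((ρ _).symm k3)))
      have e2 : ρ ⊥ v z := h.meet2 ((ρ _).trans h5 ((ρ _).symm k5))
        ((ρ _).trans ((ρ _).trans ((ρ _).symm h6) (bot e1)) k6) (by decide)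
      have e3 : ρ ⊥ u' w' := h.meet2 ((ρ _).trans h4 ((ρ _).symm k4))
        ((ρ _).trans ((ρ _).trans ((ρ _).symm h7) (bot e2)) k7) (by decide)
      exact (ρ _).trans ((ρ _).trans h2 (bot e3)) ((ρ _).symm k2))
  have := Fintype.ofFinite (Quotient ((ρ α).comap (Subtype.val : {x // ρ ⊤ O x} → B)))
  have hc := Equiv.Perm.card_fixedPoints_modEq hf
  have he : Function.fixedPoints f = {Quotient.mk _ ⟨O, (ρ _).refl _⟩} := by
    ext q
    constructor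
    · intro hq
      obtain ⟨x, rfl⟩ := Quotient.exists_rep q
      obtain ⟨x', u, u', v, h1, h2, h3, h4, h5, h6, h7⟩ := tot x
      have e := hR x x' ⟨u, u', v, h1, h2, h3, h4, h5, h6, h7⟩
      rw [Function.mem_fixedPoints_iff.mp hq] at e
      have e00 := Quotient.exact e
      have e0 : ρ α x.1 x'.1 := e00
      have e1 : ρ ⊥ u u' := h.mono hbot (h.both
        ((ρ _).trans ((ρ _).trans ((ρ _).symm h1) e0) h2) ((ρ _).trans h3 ((ρ _).symm h4)))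
      have e2 : ρ ⊥ u v := h.meet2 h6 ((ρ _).trans (bot e1) ((ρ _).symm h7)) (by decide)
      have e3 : ρ ⊥ u O := h.meet2 h3 ((ρ _).trans (bot e2) h5) (by decide)
      exact Quotient.sound ((ρ α).trans h1 (bot e3))
    · rintro rfl
      exact hR _ _ ⟨O, O, O, (ρ _).refl _, (ρ _).refl _, (ρ _).refl _, (ρ _).refl _, (ρ _).refl _,
        (ρ _).refl _, (ρ _).refl _⟩
  simp only [he, Fintype.card_unique] at hc
  rw [Nat.card_eq_fintype_card]
  exact hc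

lemma no_finite {B : Type} [Finite B] {up : Submodule (ZMod 2) V2 → Setoid B}
    {lo : Submodule (ZMod 3) V3 → Setoid B} (hu : Rep up) (hl : Rep lo)
    (h1 : lo α = up ⊥) (h2 : lo ⊤ = up β) : up ⊥ = up β := by
  by_contra hne
  obtain ⟨O, P, hOP, hn⟩ : ∃ O P, up β O P ∧ ¬ up ⊥ O P := by
    by_contra hc
    push Not at hc
    exact hne (Setoid.ext fun a b => ⟨fun h => hu.mono bot_le h, hc a b⟩)
  have e := even_card hu O P hOP hn
  have o := odd_card hl O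
  rw [h1, h2] at o
  omega

/-! the infinite model -/

lemma exists_equiv : Nonempty ((ℕ → ZMod 3) ≃ (ℕ → ZMod 2)) := by
  rw [← Cardinal.eq]
  simp only [Cardinal.mk_pi, Cardinal.mk_fintype, ZMod.card, Cardinal.prod_const, Cardinal.mk_nat,
    Cardinal.lift_id]
  rw [Cardinal.nat_power_aleph0 (by norm_num), Cardinal.nat_power_aleph0 (by norm_num)]

noncomputable def e : (ℕ → ZMod 3) ≃ (ℕ → ZMod 2) := exists_equiv.some

abbrev A := (ℕ → ZMod 2) × (ℕ → ZMod 2) × (ℕ → V3)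

noncomputable def π (a : A) (n : ℕ) : V2 := ![e (fun k => a.2.2 k 0) n, a.1 n, a.2.1 n]

def Lo (x : Submodule (ZMod 3) V3) : Setoid A where
  r a b := a.1 = b.1 ∧ a.2.1 = b.2.1 ∧ ∀ n, a.2.2 n - b.2.2 n ∈ x
  iseqv := ⟨fun a => ⟨rfl, rfl, fun n => by simp⟩,
    fun ⟨h1, h2, h3⟩ => ⟨h1.symm, h2.symm, fun n => by simpa using x.neg_mem (h3 n)⟩,
    fun ⟨h1, h2, h3⟩ ⟨k1, k2, k3⟩ => ⟨h1.trans k1, h2.trans k2, fun n => by
      simpa using x.add_mem (h3 n) (k3 n)⟩⟩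

def Up (y : Submodule (ZMod 2) V2) : Setoid A where
  r a b := ∀ n, π a n - π b n ∈ y
  iseqv := ⟨fun a n => by simp, fun h n => by simpa using y.neg_mem (h n),
    fun h k n => by simpa using y.add_mem (h n) (k n)⟩

lemma π_surj (v : ℕ → V2) : ∃ a, π a = v := by
  refine ⟨(fun n => v n 1, fun n => v n 2, fun k => ![e.symm (fun n => v n 0) k, 0, 0]), ?_⟩
  funext n i
  fin_cases i <;> simp [π]

lemma rep_Lo : Rep Lo where
  inf x y := Setoid.ext fun a b => ⟨fun ⟨h1, h2, h3⟩ => ⟨⟨h1, h2, fun n => (h3 n).1⟩,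
    ⟨h1, h2, fun n => (h3 n).2⟩⟩, fun ⟨⟨h1, h2, h3⟩, ⟨_, _, h4⟩⟩ => ⟨h1, h2, fun n => ⟨h3 n, h4 n⟩⟩⟩
  sup x y a b := by
    constructor
    · rintro ⟨h1, h2, h3⟩
      choose u hu v hv huv using fun n => mem_sup.mp (h3 n)
      refine ⟨(a.1, a.2.1, fun n => a.2.2 n - u n), ⟨rfl, rfl, fun n => by simpa using hu n⟩,
        h1, h2, fun n => ?_⟩
      have : a.2.2 n - u n - b.2.2 n = v n := by rw [sub_right_comm, ← huv]; simp
      simpa [this] using hv n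
    · rintro ⟨c, ⟨h1, h2, h3⟩, k1, k2, k3⟩
      exact ⟨h1.trans k1, h2.trans k2, fun n => mem_sup.mpr ⟨_, h3 n, _, k3 n, by simp⟩⟩

lemma rep_Up : Rep Up where
  inf x y := Setoid.ext fun a b => ⟨fun h => ⟨fun n => (h n).1, fun n => (h n).2⟩,
    fun ⟨h1, h2⟩ n => ⟨h1 n, h2 n⟩⟩
  sup x y a b := by
    constructor
    · intro h
      choose u hu v hv huv using fun n => mem_sup.mp (h n)
      obtain ⟨c, hc⟩ := π_surj (fun n => π a n - u n)
      refine ⟨c, fun n => by simpa [hc] using hu n, fun n => ?_⟩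
      have : π a n - u n - π b n = v n := by rw [sub_right_comm, ← huv]; simp
      simpa [hc, this] using hv n
    · rintro ⟨c, h, k⟩ n
      exact mem_sup.mpr ⟨_, h n, _, k n, by simp⟩

lemma mem_α (x : V3) : x ∈ α ↔ x 0 = 0 := by
  unfold α
  rw [mem2]
  revert x; decide

lemma mem_β (x : V2) : x ∈ β ↔ x 1 = 0 ∧ x 2 = 0 := by
  unfold β
  rw [mem_span_singleton]
  revert x; decide

lemma Lo_α : Lo α = Up ⊥ := by
  refine Setoid.ext fun a b => ⟨?_, ?_⟩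
  · rintro ⟨h1, h2, h3⟩ n
    have : (fun k => a.2.2 k 0) = fun k => b.2.2 k 0 := by
      funext k
      simpa [mem_α, sub_eq_zero] using h3 k
    simp [π, h1, h2, this]
  · intro h
    have h' : ∀ n, π a n = π b n := fun n => by simpa [sub_eq_zero] using h n
    refine ⟨funext fun n => congrFun (h' n) 1, funext fun n => congrFun (h' n) 2, fun n => ?_⟩
    have : (fun k => a.2.2 k 0) = fun k => b.2.2 k 0 :=
      e.injective (funext fun n => congrFun (h' n) 0)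
    rw [mem_α, Pi.sub_apply, sub_eq_zero]
    exact congrFun this n

lemma Lo_top : Lo ⊤ = Up β := by
  refine Setoid.ext fun a b => ⟨?_, ?_⟩
  · rintro ⟨h1, h2, -⟩ n
    simp [mem_β, π, h1, h2]
  · intro h
    have h' : ∀ n, a.1 n = b.1 n ∧ a.2.1 n = b.2.1 n := fun n => by
      simpa [mem_β, π, sub_eq_zero] using h n
    exact ⟨funext fun n => (h' n).1, funext fun n => (h' n).2, fun n => trivial⟩

lemma Up_ne : Up ⊥ ≠ Up β := by
  intro h
  obtain ⟨a, ha⟩ := π_surj (fun _ => ![1, 0, 0])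
  obtain ⟨b, hb⟩ := π_surj 0
  have h1 : Up β a b := fun n => by simp [ha, hb, mem_β]
  rw [← h] at h1
  have := h1 0
  rw [ha, hb] at this
  simp at this

lemma sup_α (x : Submodule (ZMod 3) V3) : ∃ y, Lo (x ⊔ α) = Up y := by
  by_cases h : x ≤ α
  · exact ⟨⊥, by rw [sup_eq_right.mpr h, Lo_α]⟩
  · refine ⟨β, ?_⟩
    rw [← Lo_top]
    congr 1
    rw [eq_top_iff]
    obtain ⟨v, hv, hv'⟩ := SetLike.not_le_iff_exists.mp h
    rw [mem_α] at hv'
    intro w _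
    refine mem_sup.mpr ⟨(w 0 * v 0) • v, x.smul_mem _ hv, w - (w 0 * v 0) • v, ?_, by simp⟩
    rw [mem_α]
    simp only [Pi.sub_apply, Pi.smul_apply, smul_eq_mul]
    generalize w 0 = s
    generalize v 0 = t at hv'
    revert s t; decide

lemma inf_β (y : Submodule (ZMod 2) V2) : ∃ x, Up (β ⊓ y) = Lo x := by
  by_cases h : β ≤ y
  · exact ⟨⊤, by rw [inf_eq_left.mpr h, Lo_top]⟩
  · refine ⟨α, ?_⟩
    rw [Lo_α]
    congr 1
    rw [eq_bot_iff]
    rintro v ⟨hv, hv'⟩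
    by_contra h0
    apply h
    have : v = ![1, 0, 0] := by
      have h1 := (mem_β v).mp hv
      have h2 : v ≠ 0 := h0
      clear hv hv' h0
      revert v; decide
    rw [β, span_singleton_le_iff_mem, ← this]
    exact hv'

def Cmp {B : Type} (r s t : Setoid B) : Prop := ∀ a b, t a b ↔ ∃ c, r a c ∧ s c b

lemma Cmp.eq {B : Type} {r s t : Setoid B} (h : Cmp r s t) : r ⊔ s = t := by
  apply le_antisymm
  · exact sup_le (fun a b hab => (h a b).mpr ⟨b, hab, s.refl _⟩)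
      (fun a b hab => (h a b).mpr ⟨a, r.refl _, hab⟩)
  · intro a b hab
    obtain ⟨c, h1, h2⟩ := (h a b).mp hab
    exact (r ⊔ s).trans ((le_sup_left : r ≤ r ⊔ s) h1) ((le_sup_right : s ≤ r ⊔ s) h2)

lemma Cmp.symm {B : Type} {r s t : Setoid B} (h : Cmp r s t) : Cmp s r t := by
  intro a b
  constructor
  · intro hab
    obtain ⟨c, h1, h2⟩ := (h b a).mp (t.symm hab)
    exact ⟨c, s.symm h2, r.symm h1⟩
  · rintro ⟨c, h1, h2⟩
    exact t.symm ((h b a).mpr ⟨c, r.symm h2, s.symm h1⟩)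

def car : Set (Setoid A) := Set.range Lo ∪ Set.range Up

lemma cmp_LU (x y) : ∃ z, Cmp (Lo x) (Up y) (Up z) := by
  obtain ⟨y', hy⟩ := sup_α x
  refine ⟨y' ⊔ y, fun a b => ?_⟩
  rw [rep_Up.sup, ← hy]
  constructor
  · rintro ⟨c, h1, h2⟩
    obtain ⟨d, h3, h4⟩ := (rep_Lo.sup _ _ _ _).mp h1
    rw [Lo_α] at h4
    exact ⟨d, h3, (Up y).trans (rep_Up.mono bot_le h4) h2⟩
  · rintro ⟨c, h1, h2⟩
    exact ⟨c, rep_Lo.mono le_sup_left h1, h2⟩

lemma inf_LU (x y) : ∃ z, Lo x ⊓ Up y = Lo z := by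
  obtain ⟨x', hx⟩ := inf_β y
  refine ⟨x ⊓ x', ?_⟩
  rw [rep_Lo.inf, ← hx, rep_Up.inf, ← Lo_top, ← inf_assoc, ← rep_Lo.inf, inf_top_eq]

lemma cmp_car {r s : Setoid A} (hr : r ∈ car) (hs : s ∈ car) : ∃ t ∈ car, Cmp r s t := by
  rcases hr with ⟨x, rfl⟩ | ⟨x, rfl⟩ <;> rcases hs with ⟨y, rfl⟩ | ⟨y, rfl⟩
  · exact ⟨_, Or.inl ⟨_, rfl⟩, rep_Lo.sup x y⟩
  · obtain ⟨z, hz⟩ := cmp_LU x y
    exact ⟨_, Or.inr ⟨_, rfl⟩, hz⟩
  · obtain ⟨z, hz⟩ := cmp_LU y x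
    exact ⟨_, Or.inr ⟨_, rfl⟩, hz.symm⟩
  · exact ⟨_, Or.inr ⟨_, rfl⟩, rep_Up.sup x y⟩

def L : Sublattice (Setoid A) where
  carrier := car
  supClosed' := by
    intro r hr s hs
    obtain ⟨t, ht, h⟩ := cmp_car hr hs
    rw [h.eq]; exact ht
  infClosed' := by
    intro r hr s hs
    rcases hr with ⟨x, rfl⟩ | ⟨x, rfl⟩ <;> rcases hs with ⟨y, rfl⟩ | ⟨y, rfl⟩
    · exact Or.inl ⟨_, rep_Lo.inf x y⟩
    · obtain ⟨z, hz⟩ := inf_LU x y
      exact Or.inl ⟨_, hz.symm⟩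
    · obtain ⟨z, hz⟩ := inf_LU y x
      exact Or.inl ⟨_, by rw [inf_comm, hz]⟩
    · exact Or.inr ⟨_, rep_Up.inf x y⟩

instance : Finite L := (Set.finite_range Lo).union (Set.finite_range Up)

lemma lin : ∃ (A : Type) (f : LatticeHom L (Setoid A)), Function.Injective f ∧
    ∀ (x y : L) (a b : A), (f (x ⊔ y)).r a b ↔ ∃ c : A, (f x).r a c ∧ (f y).r c b := by
  refine ⟨A, L.subtype, Subtype.val_injective, fun x y a b => ?_⟩
  obtain ⟨t, -, h⟩ := cmp_car x.2 y.2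
  have : L.subtype (x ⊔ y) = t := h.eq
  rw [this]
  exact h a b

lemma not_fin (B : Type) [Finite B] (g : LatticeHom L (Setoid B)) (hg : Function.Injective g)
    (h : ∀ (x y : L) (a b : B), (g (x ⊔ y)).r a b ↔ ∃ c : B, (g x).r a c ∧ (g y).r c b) :
    False := by
  let lo : Submodule (ZMod 3) V3 → L := fun x => ⟨Lo x, Or.inl ⟨x, rfl⟩⟩
  let up : Submodule (ZMod 2) V2 → L := fun x => ⟨Up x, Or.inr ⟨x, rfl⟩⟩
  have hl : Rep fun x => g (lo x) := ⟨fun x y => by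
      rw [← InfHomClass.map_inf]; congr 1; exact Subtype.ext (rep_Lo.inf x y), fun x y a b => by
      have : lo (x ⊔ y) = lo x ⊔ lo y := Subtype.ext (Cmp.eq (rep_Lo.sup x y)).symm
      rw [this]; exact h _ _ a b⟩
  have hu : Rep fun x => g (up x) := ⟨fun x y => by
      rw [← InfHomClass.map_inf]; congr 1; exact Subtype.ext (rep_Up.inf x y), fun x y a b => by
      have : up (x ⊔ y) = up x ⊔ up y := Subtype.ext (Cmp.eq (rep_Up.sup x y)).symm
      rw [this]; exact h _ _ a b⟩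
  have := no_finite hu hl (congrArg g (Subtype.ext Lo_α)) (congrArg g (Subtype.ext Lo_top))
  exact Up_ne (congrArg Subtype.val (hg this))

end Pool.Agent.H72.LinLat
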