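import Mathlib

set_option autoImplicit false

namespace H72.Malc

def ev {A G : Type} [Monoid G] (φ : A → G) (l : List A) : G := (l.map φ).prod

section
variable {A G : Type} [Monoid G] (φ : A → G)
@[simp] theorem ev_nil : ev φ [] = 1 := rfl
@[simp] theorem ev_cons (a : A) (l : List A) : ev φ (a :: l) = φ a * ev φ l := by simp [ev]
@[simp] theorem ev_append (l m : List A) : ev φ (l ++ m) = ev φ l * ev φ m := by simp [ev]
theorem map_ev {H : Type} [Monoid H] (f : G →* H) (l : List A) :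
    f (ev φ l) = ev (fun a => f (φ a)) l := by
  induction l with
  | nil => simp
  | cons a l ih => simp [ih]
theorem ev_pow (l : List A) (n : ℕ) : ev φ (List.replicate n l).flatten = ev φ l ^ n := by
  induction n with
  | zero => simp
  | succ n ih => simp [List.replicate_succ, ih, pow_succ']

def N0 : Subgroup (FreeGroup A) := Subgroup.normalClosure
  {w | ∃ u v, ev φ u = ev φ v ∧ w = ev FreeGroup.of u * (ev FreeGroup.of v)⁻¹}

def Nn (n : ℕ) : Subgroup (FreeGroup A) := Subgroup.normalClosure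
  {w | ∃ u v, u.length ≤ n ∧ v.length ≤ n ∧ ev φ u = ev φ v ∧
    w = ev FreeGroup.of u * (ev FreeGroup.of v)⁻¹}

instance : (N0 φ).Normal := Subgroup.normalClosure_normal
instance (n : ℕ) : (Nn φ n).Normal := Subgroup.normalClosure_normal

/-- all positive relations follow in groups from the short ones -/
def MP : Prop := ∃ n : ℕ, ∀ (H : Type) [Group H] (g : A → H),
  (∀ u v : List A, u.length ≤ n → v.length ≤ n → ev φ u = ev φ v → ev g u = ev g v) →
  ∀ u v : List A, ev φ u = ev φ v → ev g u = ev g v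

theorem lift_ev {H : Type} [Group H] (g : A → H) (l : List A) :
    FreeGroup.lift g (ev FreeGroup.of l) = ev g l := by
  rw [map_ev]; simp

theorem Nn_le (n : ℕ) : Nn φ n ≤ N0 φ := Subgroup.normalClosure_mono (by
  rintro w ⟨u, v, _, _, h, e⟩
  exact ⟨u, v, h, e⟩)

theorem Nn_mono {m n : ℕ} (h : m ≤ n) : Nn φ m ≤ Nn φ n := Subgroup.normalClosure_mono (by
  rintro w ⟨u, v, h1, h2, h3, e⟩
  exact ⟨u, v, h1.trans h, h2.trans h, h3, e⟩)

theorem MP.le {φ : A → G} (h : MP φ) : ∃ n, N0 φ ≤ Nn φ n := by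
  obtain ⟨n, hn⟩ := h
  refine ⟨n, Subgroup.normalClosure_le_normal ?_⟩
  rintro w ⟨u, v, h, rfl⟩
  have key : ∀ l, ev (fun a => QuotientGroup.mk' (Nn φ n) (FreeGroup.of a)) l =
      QuotientGroup.mk' (Nn φ n) (ev FreeGroup.of l) := fun l => (map_ev _ _ l).symm
  have := hn (FreeGroup A ⧸ Nn φ n) (fun a => QuotientGroup.mk' _ (FreeGroup.of a)) (by
    intro u v hu hv h
    rw [key, key, ← mul_inv_eq_one, ← map_inv, ← map_mul, QuotientGroup.mk'_apply,
      QuotientGroup.eq_one_iff]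
    exact Subgroup.subset_normalClosure ⟨u, v, hu, hv, h, rfl⟩) u v h
  rwa [key, key, ← mul_inv_eq_one, ← map_inv, ← map_mul, QuotientGroup.mk'_apply,
      QuotientGroup.eq_one_iff] at this

theorem MP.fng [Finite A] {φ : A → G} (h : MP φ) : (N0 φ).IsFinitelyNormallyGenerated := by
  obtain ⟨n, hn⟩ := h.le
  refine ⟨_, ?_, le_antisymm (Nn_le φ n) hn⟩
  have h1 := List.finite_length_le A n
  refine ((h1.prod h1).image
    (fun p => ev FreeGroup.of p.1 * (ev FreeGroup.of p.2)⁻¹)).subset ?_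
  rintro w ⟨u, v, hu, hv, _, e⟩
  exact ⟨(u, v), ⟨hu, hv⟩, e.symm⟩

theorem exists_Nn {w : FreeGroup A} (hw : w ∈ N0 φ) : ∃ n, w ∈ Nn φ n := by
  let D : Subgroup (FreeGroup A) :=
    { carrier := {w | ∃ n, w ∈ Nn φ n}
      one_mem' := ⟨0, one_mem _⟩
      inv_mem' := fun ⟨n, h⟩ => ⟨n, inv_mem h⟩
      mul_mem' := fun ⟨m, h⟩ ⟨n, k⟩ => ⟨max m n, mul_mem (Nn_mono φ (le_max_left _ _) h)
        (Nn_mono φ (le_max_right _ _) k)⟩ }
  have : D.Normal := ⟨fun w ⟨n, h⟩ g => ⟨n, Subgroup.Normal.conj_mem inferInstance w h g⟩⟩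
  have h : N0 φ ≤ D := Subgroup.normalClosure_le_normal (by
    rintro w ⟨u, v, h, e⟩
    exact ⟨max u.length v.length,
      Subgroup.subset_normalClosure ⟨u, v, le_max_left _ _, le_max_right _ _, h, e⟩⟩)
  exact h hw

theorem MP.of_fng {φ : A → G} (h : (N0 φ).IsFinitelyNormallyGenerated) : MP φ := by
  obtain ⟨S, hS, e⟩ := h
  have : ∀ s : S, ∃ n, s.1 ∈ Nn φ n := fun s =>
    exists_Nn φ (e ▸ Subgroup.subset_normalClosure s.2)
  choose m hm using this
  have := hS.to_subtype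
  obtain ⟨n, hn⟩ := (Set.finite_range m).bddAbove
  refine ⟨n, fun H _ g hg u v h => ?_⟩
  have h1 : Nn φ n ≤ (FreeGroup.lift g).ker := Subgroup.normalClosure_le_normal (by
    rintro w ⟨u, v, hu, hv, h, rfl⟩
    simp [MonoidHom.mem_ker, lift_ev, hg u v hu hv h])
  have h2 : N0 φ ≤ Nn φ n := by
    rw [← e]
    exact Subgroup.normalClosure_le_normal fun s hs => Nn_mono φ (hn ⟨⟨s, hs⟩, rfl⟩) (hm ⟨s, hs⟩)
  have := h1 (h2 (Subgroup.subset_normalClosure ⟨u, v, h, rfl⟩))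
  rwa [MonoidHom.mem_ker, map_mul, map_inv, lift_ev, lift_ev, mul_inv_eq_one] at this

end

theorem fg_sub {D : Type} [CommGroup D] [Group.FG D] (K : Subgroup D) : K.FG := by
  have : Module.Finite ℤ (Additive D) := Module.Finite.iff_addGroup_fg.2 inferInstance
  have h := IsNoetherian.noetherian (R := ℤ) (AddSubgroup.toIntSubmodule K.toAddSubgroup)
  rw [Submodule.fg_iff_addSubgroup_fg] at h
  exact (Subgroup.fg_iff_add_fg K).2 h

theorem finite_conj {G : Type} [Group G] (C : Subgroup G) [C.FiniteIndex] (a : G)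
    (h : ∀ c ∈ C, Commute c a) : {v | ∃ g, v = g * a * g⁻¹}.Finite := by
  refine (Set.finite_range (fun q : G ⧸ C => q.out * a * q.out⁻¹)).subset ?_
  rintro v ⟨g, rfl⟩
  obtain ⟨c, hc⟩ := QuotientGroup.mk_out_eq_mul C g
  refine ⟨(g : G ⧸ C), ?_⟩
  simp only [hc, mul_inv_rev]
  rw [mul_assoc g, (h c c.2).eq]
  group

theorem fng_inf_ker {A G : Type} [Finite A] [Group G] (N : Subgroup (FreeGroup A))
    (hN : N.IsFinitelyNormallyGenerated) (ψ : FreeGroup A →* G) (C : Subgroup G) [C.FiniteIndex]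
    (hC : ∀ c ∈ C, ∀ n ∈ N, Commute c (ψ n)) (hab : ∀ m ∈ N, ∀ n ∈ N, Commute (ψ m) (ψ n)) :
    (N ⊓ ψ.ker).IsFinitelyNormallyGenerated := by
  classical
  obtain ⟨W, hW, rfl⟩ := hN
  set N := Subgroup.normalClosure W with hNdef
  have hNn : N.Normal := Subgroup.normalClosure_normal
  let V : Set G := {v | ∃ f, ∃ w ∈ W, v = ψ (f * w * f⁻¹)}
  have hV : V.Finite := by
    refine (hW.biUnion (fun w hw => finite_conj C (ψ w)
      (fun c hc => hC c hc w (Subgroup.subset_normalClosure hw)))).subset ?_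
    rintro v ⟨f, w, hw, rfl⟩
    simp only [Set.mem_iUnion]
    exact ⟨w, hw, ψ f, by simp⟩
  have : ∀ v : G, ∃ y : FreeGroup A, v ∈ V → y ∈ N ∧ ψ y = v := by
    intro v
    by_cases hv : v ∈ V
    · obtain ⟨f, w, hw, rfl⟩ := hv
      exact ⟨f * w * f⁻¹, fun _ => ⟨hNn.conj_mem w (Subgroup.subset_normalClosure hw) f, rfl⟩⟩
    · exact ⟨1, fun h => absurd h hv⟩
  choose y hy using this
  let Y : Set (FreeGroup A) := y '' V ∪ W
  have hY : Y.Finite := (hV.image y).union hW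
  have hYN : ∀ a ∈ Y, a ∈ N := by
    rintro a (⟨v, hv, rfl⟩ | ha)
    · exact (hy v hv).1
    · exact Subgroup.subset_normalClosure ha
  have hYV : ∀ a ∈ Y, ∀ x, ψ (x * a * x⁻¹) ∈ V := by
    rintro a (⟨v, hv, rfl⟩ | ha) x
    · have e := (hy v hv).2
      obtain ⟨f, w, hw, e'⟩ := hv
      refine ⟨x * f, w, hw, ?_⟩
      rw [map_mul, map_mul, e, e']
      simp [mul_assoc]
    · exact ⟨x, a, ha, rfl⟩
  let X : Set (FreeGroup A) := Set.range FreeGroup.of ∪ Set.range (fun a => (FreeGroup.of a)⁻¹)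
  have hX : X.Finite := (Set.finite_range _).union (Set.finite_range _)
  let S : Set (FreeGroup A) := (fun p => p.1 * p.2 * (p.2 * p.1)⁻¹) '' (Y ×ˢ Y) ∪
    (fun p => p.1 * p.2 * p.1⁻¹ * (y (ψ (p.1 * p.2 * p.1⁻¹)))⁻¹) '' (X ×ˢ Y)
  have hS : S.Finite := ((hY.prod hY).image _).union ((hX.prod hY).image _)
  let M := Subgroup.normalClosure S
  have hM : M ≤ N ⊓ ψ.ker := Subgroup.normalClosure_le_normal (by
    rintro s (⟨⟨a, b⟩, ⟨ha, hb⟩, rfl⟩ | ⟨⟨x, a⟩, ⟨_, ha⟩, rfl⟩)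
    · refine Subgroup.mem_inf.2 ⟨N.mul_mem (N.mul_mem (hYN a ha) (hYN b hb))
        (N.inv_mem (N.mul_mem (hYN b hb) (hYN a ha))), MonoidHom.mem_ker.2 ?_⟩
      simp only [map_mul, map_inv, mul_inv_eq_one]
      exact (hab a (hYN a ha) b (hYN b hb)).eq
    · refine Subgroup.mem_inf.2 ⟨N.mul_mem (hNn.conj_mem a (hYN a ha) x)
        (N.inv_mem (hy _ (hYV a ha x)).1), MonoidHom.mem_ker.2 ?_⟩
      simp only
      rw [map_mul ψ (x * a * x⁻¹), map_inv ψ (y _), (hy _ (hYV a ha x)).2, mul_inv_cancel])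
  let π := QuotientGroup.mk' M
  have hπ : ∀ s ∈ S, π s = 1 := fun s hs =>
    (QuotientGroup.eq_one_iff s).2 (Subgroup.subset_normalClosure hs)
  let D := Subgroup.closure (π '' Y)
  have hD1 : ∀ x ∈ X, ∀ d ∈ D, π x * d * (π x)⁻¹ ∈ D := by
    intro x hx d hd
    induction hd using Subgroup.closure_induction with
    | mem d hd =>
      obtain ⟨a, ha, rfl⟩ := hd
      have := hπ _ (Or.inr ⟨(x, a), ⟨hx, ha⟩, rfl⟩)
      simp only [map_mul π, map_inv π, mul_inv_eq_one] at this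
      rw [this]
      exact Subgroup.subset_closure ⟨_, Or.inl ⟨_, hYV a ha x, rfl⟩, rfl⟩
    | one => simp
    | mul a b _ _ ha hb =>
      have := mul_mem ha hb
      simpa [mul_assoc] using this
    | inv a _ ha =>
      have := D.inv_mem ha
      rwa [show (π x * a * (π x)⁻¹)⁻¹ = π x * a⁻¹ * (π x)⁻¹ by group] at this
  have hDn : D.Normal := by
    refine ⟨fun d hd q => ?_⟩
    obtain ⟨f, rfl⟩ := QuotientGroup.mk'_surjective M q
    induction f using FreeGroup.induction_on generalizing d with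
    | C1 => simpa using hd
    | of a => exact hD1 _ (Or.inl ⟨a, rfl⟩) d hd
    | inv_of a _ => exact hD1 _ (Or.inr ⟨a, rfl⟩) d hd
    | mul a b ha hb =>
      have := ha _ (hb d hd)
      simpa [mul_assoc] using this
  have hcomm : ∀ a ∈ π '' Y, ∀ b ∈ π '' Y, a * b = b * a := by
    rintro _ ⟨a, ha, rfl⟩ _ ⟨b, hb, rfl⟩
    have := hπ _ (Or.inl ⟨(a, b), ⟨ha, hb⟩, rfl⟩)
    simpa only [map_mul π, map_inv π, mul_inv_eq_one] using this
  let ψ' : (FreeGroup A ⧸ M) →* G := QuotientGroup.lift M ψ (fun m hm => (hM hm).2)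
  have hK : (D ⊓ ψ'.ker).FG := by
    have := (hY.image π).to_subtype
    have hc : IsMulCommutative D := Subgroup.isMulCommutative_closure hcomm
    let _ : CommGroup D := { (inferInstance : Group D) with mul_comm := hc.is_comm.comm }
    have : Group.FG D := Group.closure_finite_fg _
    have h := fg_sub (D := D) (ψ'.ker.subgroupOf D)
    obtain ⟨T, hT⟩ := h
    refine ⟨T.image D.subtype, ?_⟩
    rw [Finset.coe_image, ← MonoidHom.map_closure, hT, Subgroup.subgroupOf_map_subtype, inf_comm]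
  have := (Group.fg_iff_subgroup_fg _).2 hK
  have h := (Subgroup.IsFinitelyNormallyGenerated.of_FG (D ⊓ ψ'.ker)).comap
    (QuotientGroup.mk'_surjective M) ⟨S, hS, (QuotientGroup.ker_mk' M).symm⟩
  have e : (D ⊓ ψ'.ker).comap π = N ⊓ ψ.ker := by
    apply le_antisymm
    · intro f ⟨h1, h2⟩
      refine ⟨?_, h2⟩
      have h3 : D ≤ N.map π := by
        refine (Subgroup.closure_le _).2 ?_
        rintro _ ⟨a, ha, rfl⟩
        exact ⟨a, hYN a ha, rfl⟩
      obtain ⟨n, hn, e⟩ := h3 h1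
      have : n⁻¹ * f ∈ M := QuotientGroup.eq.1 e
      simpa using mul_mem hn (hM this).1
    · intro f ⟨h1, h2⟩
      refine ⟨?_, h2⟩
      have : N ≤ D.comap π := Subgroup.normalClosure_le_normal
        (fun w hw => Subgroup.subset_closure ⟨w, Or.inr hw, rfl⟩)
      exact this h1
  exact e ▸ h

theorem N0_eq {A G Q : Type} [Group G] [Group Q] (φ : A → G) (π : G →* Q) (C : Subgroup G)
    [C.Normal] [C.FiniteIndex] (hC : ∀ c ∈ C, ∀ k ∈ π.ker, Commute c k) :
    N0 φ = N0 (fun a => π (φ a)) ⊓ (FreeGroup.lift φ).ker := by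
  have h0 : N0 φ ≤ (FreeGroup.lift φ).ker := Subgroup.normalClosure_le_normal (by
    rintro w ⟨u, v, h, rfl⟩
    simp [MonoidHom.mem_ker, lift_ev, h])
  apply le_antisymm
  · refine le_inf (Subgroup.normalClosure_mono ?_) h0
    rintro w ⟨u, v, h, e⟩
    exact ⟨u, v, by rw [← map_ev, ← map_ev, h], e⟩
  let ρ := QuotientGroup.mk' (N0 φ)
  let e : List A → FreeGroup A ⧸ N0 φ := fun l => ρ (ev FreeGroup.of l)
  have e_app : ∀ u v, e (u ++ v) = e u * e v := fun u v => by simp only [e, ev_append, map_mul]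
  have K1 : ∀ u v, ev φ u = ev φ v → e u = e v := by
    intro u v h
    rw [← mul_inv_eq_one, ← map_inv, ← map_mul, QuotientGroup.mk'_apply, QuotientGroup.eq_one_iff]
    exact Subgroup.subset_normalClosure ⟨u, v, h, rfl⟩
  have K2 : ∀ v, ∃ w, ev φ (w ++ v) ∈ C ∧ ev φ (v ++ w) ∈ C := by
    intro v
    obtain ⟨m, hm⟩ := Nat.exists_eq_succ_of_ne_zero (Subgroup.FiniteIndex.index_ne_zero (H := C))
    have := Subgroup.pow_index_mem (H := C) (ev φ v)
    rw [hm] at this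
    refine ⟨(List.replicate m v).flatten, ?_, ?_⟩
    · rwa [ev_append, ev_pow, ← pow_succ]
    · rwa [ev_append, ev_pow, ← pow_succ']
  have K3 : ∀ u v, π (ev φ u) = π (ev φ v) → ev φ v ∈ C →
      ev φ u * (ev φ v)⁻¹ = (ev φ v)⁻¹ * ev φ u := by
    intro u v h hv
    have := (hC _ hv (ev φ u * (ev φ v)⁻¹) (by simp [MonoidHom.mem_ker, h])).eq
    calc ev φ u * (ev φ v)⁻¹ = (ev φ v)⁻¹ * (ev φ v * (ev φ u * (ev φ v)⁻¹)) := by group
      _ = _ := by rw [this]; group
  let ZL : Set (FreeGroup A ⧸ N0 φ) := {z | ∃ u v, π (ev φ u) = π (ev φ v) ∧ z = e u * (e v)⁻¹}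
  let ZR : Set (FreeGroup A ⧸ N0 φ) := {z | ∃ u v, π (ev φ u) = π (ev φ v) ∧ z = (e v)⁻¹ * e u}
  have RL : ∀ z ∈ ZR, z ∈ ZL := by
    rintro z ⟨u, v, h, rfl⟩
    obtain ⟨w, hw, _⟩ := K2 v
    have h' : π (ev φ (w ++ u)) = π (ev φ (w ++ v)) := by simp [h]
    refine ⟨w ++ u, w ++ v, h', ?_⟩
    have k := K3 _ _ h' hw
    have k2 : ev φ (u ++ (w ++ v)) = ev φ (v ++ (w ++ u)) := by
      rw [ev_append φ u, ev_append φ v]
      have : ev φ (w ++ u) = (ev φ v)⁻¹ * ev φ u * ev φ (w ++ v) := by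
        rw [← mul_inv_eq_iff_eq_mul, k]; simp only [ev_append]; group
      rw [this]; group
    have := K1 _ _ k2
    rw [e_app u, e_app v] at this
    rw [eq_mul_inv_iff_mul_eq, mul_assoc, this]; group
  have LR : ∀ z ∈ ZL, z ∈ ZR := by
    rintro z ⟨u, v, h, rfl⟩
    obtain ⟨w, _, hw⟩ := K2 v
    have h' : π (ev φ (u ++ w)) = π (ev φ (v ++ w)) := by simp [h]
    refine ⟨u ++ w, v ++ w, h', ?_⟩
    have k := K3 _ _ h' hw
    have k2 : ev φ ((v ++ w) ++ u) = ev φ ((u ++ w) ++ v) := by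
      rw [ev_append φ _ u, ev_append φ _ v]
      have : ev φ (u ++ w) = ev φ (v ++ w) * (ev φ u * (ev φ v)⁻¹) := by
        rw [← inv_mul_eq_iff_eq_mul, ← k]; simp only [ev_append]; group
      rw [this]; group
    have := K1 _ _ k2
    rw [e_app _ u, e_app _ v] at this
    rw [eq_inv_mul_iff_mul_eq, ← mul_assoc, this]; group
  have c1 : ∀ w, ∀ z ∈ ZL, e w * z * (e w)⁻¹ ∈ ZL := by
    rintro w z ⟨u, v, h, rfl⟩
    exact ⟨w ++ u, w ++ v, by simp [h], by simp only [e_app]; group⟩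
  have c2 : ∀ w, ∀ z ∈ ZL, (e w)⁻¹ * z * e w ∈ ZL := by
    intro w z hz
    obtain ⟨u, v, h, rfl⟩ := LR z hz
    exact RL _ ⟨u ++ w, v ++ w, by simp [h], by simp only [e_app]; group⟩
  let Z : Subgroup (FreeGroup A ⧸ N0 φ) :=
    { carrier := ZL
      one_mem' := ⟨[], [], rfl, by simp⟩
      inv_mem' := by
        rintro z ⟨u, v, h, rfl⟩
        exact ⟨v, u, h.symm, by simp⟩
      mul_mem' := by
        rintro z y ⟨u, v, h, rfl⟩ hy
        obtain ⟨u', v', h', k⟩ := c2 v y hy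
        refine ⟨u ++ u', v ++ v', by simp [h, h'], ?_⟩
        simp only [e_app, mul_inv_rev]
        rw [mul_assoc (e u) (e u'), ← mul_assoc (e u'), ← k]; group }
  have hZ : Z.Normal := by
    refine ⟨fun d hd q => ?_⟩
    obtain ⟨f, rfl⟩ := QuotientGroup.mk'_surjective _ q
    induction f using FreeGroup.induction_on generalizing d with
    | C1 => simpa using hd
    | of a =>
      change _ ∈ ZL
      simpa [e, ρ] using c1 [a] d hd
    | inv_of a _ =>
      change _ ∈ ZL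
      simpa [e, ρ] using c2 [a] d hd
    | mul a b ha hb =>
      have := ha _ (hb d hd)
      simpa [mul_assoc] using this
  have h1 : N0 (fun a => π (φ a)) ≤ Z.comap ρ := Subgroup.normalClosure_le_normal (by
    rintro w ⟨u, v, h, rfl⟩
    exact ⟨u, v, by rwa [map_ev, map_ev], by simp [e]⟩)
  intro f ⟨hf, hf'⟩
  obtain ⟨u, v, _, k⟩ := h1 hf
  have k1 : (ev FreeGroup.of u * (ev FreeGroup.of v)⁻¹)⁻¹ * f ∈ N0 φ := by
    rw [← QuotientGroup.eq]
    exact (by simpa [e, ρ] using k.symm)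
  have k2 : ev φ u = ev φ v := by
    have := h0 k1
    rw [MonoidHom.mem_ker, map_mul, show FreeGroup.lift φ f = 1 from hf', mul_one, map_inv,
      inv_eq_one, map_mul, map_inv, lift_ev, lift_ev, mul_inv_eq_one] at this
    exact this
  have k3 : ev FreeGroup.of u * (ev FreeGroup.of v)⁻¹ ∈ N0 φ :=
    Subgroup.subset_normalClosure ⟨u, v, k2, rfl⟩
  have := mul_mem k3 k1
  rwa [mul_inv_cancel_left] at this

theorem MP.ext {A G Q : Type} [Finite A] [Group G] [Group Q] (φ : A → G) (π : G →* Q)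
    (C : Subgroup G) [C.FiniteIndex] (hC : ∀ c ∈ C, ∀ k ∈ π.ker, Commute c k)
    (hab : ∀ c ∈ π.ker, ∀ k ∈ π.ker, Commute c k) (h : MP (fun a => π (φ a))) : MP φ := by
  apply MP.of_fng
  rw [N0_eq φ π C.normalCore (fun c hc => hC c (C.normalCore_le hc))]
  have hk : ∀ n ∈ N0 (fun a => π (φ a)), FreeGroup.lift φ n ∈ π.ker := by
    have : N0 (fun a => π (φ a)) ≤ π.ker.comap (FreeGroup.lift φ) :=
      Subgroup.normalClosure_le_normal (by
        rintro w ⟨u, v, h, rfl⟩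
        simp [MonoidHom.mem_ker, map_ev, h])
    exact this
  exact fng_inf_ker _ h.fng _ C (fun c hc n hn => hC c hc _ (hk n hn))
    (fun m hm n hn => hab _ (hk m hm) _ (hk n hn))

end H72.Malc
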