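import Pool.Agent.H72.Malc1
import Pool.Agent.H72.Lcp

set_option autoImplicit false

namespace H72.Malc

open Pool.Agent.H72.Lcp

section ear
variable {A G : Type} [Group G] (φ : A → G) (E : G → G → Prop) (r : G → List A)

def val (l : List G) : G := l.headD 1

@[simp] theorem val_nil : val ([] : List G) = 1 := rfl
@[simp] theorem val_cons (a : G) (l : List G) : val (a :: l) = a := rfl

def Path : List G → Prop
  | [] => True
  | a :: l => E (val l) a ∧ ev φ (r ((val l)⁻¹ * a)) = (val l)⁻¹ * a ∧ Path l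

def wt {H : Type} [Group H] (g : A → H) : List G → H
  | [] => 1
  | a :: l => wt g l * ev g (r ((val l)⁻¹ * a))

theorem path_reach {l : List G} (h : Path φ E r l) : ∃ u, ev φ u = val l := by
  induction l with
  | nil => exact ⟨[], rfl⟩
  | cons a l ih =>
    obtain ⟨u, hu⟩ := ih h.2.2
    exact ⟨u ++ r ((val l)⁻¹ * a), by rw [ev_append, hu, h.2.1]; simp⟩

theorem val_mem (l : List G) : val l = 1 ∨ val l ∈ l := by
  cases l with
  | nil => exact Or.inl rfl
  | cons a l => exact Or.inr (by simp)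

theorem path_cut {H : Type} [Group H] (g : A → H) (y x : G) (l : List G)
    (h1 : Path φ E r (y :: x :: l) → Path φ E r (y :: l) ∧ wt r g (y :: l) = wt r g (y :: x :: l))
    (m : List G) (h : Path φ E r (m ++ y :: x :: l)) :
    Path φ E r (m ++ y :: l) ∧ wt r g (m ++ y :: l) = wt r g (m ++ y :: x :: l) ∧
      val (m ++ y :: l) = val (m ++ y :: x :: l) := by
  induction m with
  | nil => exact ⟨(h1 h).1, (h1 h).2, rfl⟩
  | cons a m ih =>
    obtain ⟨k1, k2, k3⟩ := ih h.2.2
    refine ⟨⟨?_, ?_, k1⟩, ?_, rfl⟩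
    · exact k3 ▸ h.1
    · exact k3 ▸ h.2.1
    · simp only [List.cons_append, wt, k2, k3]

theorem path_suffix (m l : List G) (h : Path φ E r (m ++ l)) : Path φ E r l := by
  induction m with
  | nil => exact h
  | cons a m ih => exact ih h.2.2

end ear

theorem bound_ex {X Y : Type} {B : Set X} (hB : B.Finite) (P : X → Y → Prop) (sz : Y → ℕ) :
    ∃ n, ∀ b ∈ B, (∃ y, P b y) → ∃ y, sz y ≤ n ∧ P b y := by
  classical
  have : ∀ b : X, ∃ k : ℕ, (∃ y, P b y) → ∃ y, sz y ≤ k ∧ P b y := by
    intro b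
    by_cases h : ∃ y, P b y
    · obtain ⟨y, hy⟩ := h
      exact ⟨sz y, fun _ => ⟨y, le_rfl, hy⟩⟩
    · exact ⟨0, fun h' => absurd h' h⟩
  choose k hk using this
  obtain ⟨n, hn⟩ := (hB.image k).bddAbove
  refine ⟨n, fun b hb h => ?_⟩
  obtain ⟨y, h1, h2⟩ := hk b h
  exact ⟨y, h1.trans (hn ⟨b, hb, rfl⟩), h2⟩

theorem MP.of_ear {A G : Type} [Finite A] [Group G] (φ : A → G) (E : G → G → Prop) (ν : G → ℕ)
    (B : Set G) (hB : B.Finite) (hEB : ∀ x y, E x y → x⁻¹ * y ∈ B)
    (hs : ∀ x y, E x y → E y x) (hr : ∀ x, E x x) (hg : ∀ x a, E x (x * φ a))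
    (h1 : ∀ x, ν 1 ≤ ν x)
    (ear : ∀ x y z, E x y → E x z → ν y ≤ ν x → ν z ≤ ν x → E y z) : MP φ := by
  classical
  obtain ⟨n1, hn1⟩ := bound_ex hB (fun b (y : List A × List A) => ev φ y.2 = b * ev φ y.1)
    (fun y => max y.1.length y.2.length)
  obtain ⟨n2, hn2⟩ := bound_ex hB (fun b (y : List A × List A) => ev φ y.2 = ev φ y.1 * b)
    (fun y => max y.1.length y.2.length)
  obtain ⟨n3, hn3⟩ := bound_ex hB (fun b (y : List A) => ev φ y = b) List.length
  have : ∀ b : G, ∃ y : List A, b ∈ B → (∃ y, ev φ y = b) → y.length ≤ n3 ∧ ev φ y = b := by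
    intro b
    by_cases h : b ∈ B ∧ ∃ y, ev φ y = b
    · obtain ⟨y, hy⟩ := hn3 b h.1 h.2
      exact ⟨y, fun _ _ => hy⟩
    · exact ⟨[], fun h1 h2 => absurd ⟨h1, h2⟩ h⟩
  choose r hrr using this
  refine ⟨n1 + n2 + 2 * n3 + 1, fun H _ g hsh => ?_⟩
  have hlen : ∀ x y, E x y → ev φ (r (x⁻¹ * y)) = x⁻¹ * y → (r (x⁻¹ * y)).length ≤ n3 :=
    fun x y h k => (hrr _ (hEB x y h) ⟨_, k⟩).1
  let Cl : List G → List G → Prop := fun l l' => Path φ E r l → Path φ E r l' →
    E (val l) (val l') → ∀ p q : List A, p.length ≤ n1 → q.length ≤ n1 →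
    val l * ev φ p = val l' * ev φ q → wt r g l * ev g p = wt r g l' * ev g q
  have Csym : ∀ l l', Cl l l' → Cl l' l := fun l l' h a b c p q hp hq e =>
    (h b a (hs _ _ c) q p hq hp e.symm).symm
  have step : ∀ l l' x, x ∈ l → (∀ y ∈ l, ν y ≤ ν x) → (∀ y ∈ l', ν y ≤ ν x) →
      (∀ m, m.length < l.length → Cl m l') → Cl l l' := by
    intro l l' x hx hl hl' ih P P' hE p q hp hq e
    have hv : ∀ m : List G, (∀ y ∈ m, ν y ≤ ν x) → ν (val m) ≤ ν x := by
      intro m hm
      rcases val_mem m with h | h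
      · rw [h]; exact h1 x
      · exact hm _ h
    obtain ⟨m, l0, rfl⟩ := List.append_of_mem hx
    have hv0 : ν (val l0) ≤ ν x := hv l0 (fun y hy => hl y (by simp [hy]))
    rcases List.eq_nil_or_concat m with rfl | ⟨m, y, rfl⟩
    · simp only [List.nil_append, val_cons] at P hE e ⊢
      obtain ⟨P1, P2, P3⟩ := P
      have hE' : E (val l0) (val l') := ear x _ _ (hs _ _ P1) hE hv0 (hv l' hl')
      have hb := hEB _ _ (hs _ _ hE')
      obtain ⟨⟨p', q'⟩, k1, k2⟩ := hn1 _ hb ⟨(r ((val l0)⁻¹ * x) ++ p, q), by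
        simp only [ev_append, P2]
        rw [eq_comm, mul_assoc, inv_mul_eq_iff_eq_mul, ← e]; group⟩
      obtain ⟨u0, hu0⟩ := path_reach φ E r P3
      obtain ⟨v0, hv0'⟩ := path_reach φ E r P'
      obtain ⟨⟨v, u⟩, k3, k4⟩ := hn2 _ hb ⟨(v0, u0), by simp [hu0, hv0']⟩
      simp only [max_le_iff] at k1 k2 k3 k4
      have i1 := ih l0 (by simp) P3 P' hE' p' q' k1.1 k1.2 (by rw [k2]; group)
      have hL := hlen _ _ P1 P2
      have i2 := hsh (u ++ p') (v ++ q') (by simp; omega) (by simp; omega)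
        (by simp only [ev_append, k2, k4]; group)
      have i3 := hsh (u ++ (r ((val l0)⁻¹ * x) ++ p)) (v ++ q) (by simp; omega) (by simp; omega)
        (by
          simp only [ev_append, k4, P2]
          have : ev φ q = (val l')⁻¹ * (x * ev φ p) := by rw [e]; group
          rw [this]; group)
      simp only [ev_append] at i2 i3
      have j1 : wt r g l0 = wt r g l' * ev g q' * (ev g p')⁻¹ := by rw [← i1]; group
      have j2 : ev g q' = (ev g v)⁻¹ * (ev g u * ev g p') := by rw [i2]; group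
      have j3 : ev g q = (ev g v)⁻¹ * (ev g u * (ev g (r ((val l0)⁻¹ * x)) * ev g p)) := by
        rw [i3]; group
      simp only [wt]
      rw [j1, j2, j3]; group
    · simp only [List.concat_eq_append, List.append_assoc, List.singleton_append] at *
      have hy : ν y ≤ ν x := hl y (by simp)
      have cut := path_cut φ E r g y x l0 (by
        rintro ⟨Q1, Q2, Q3, Q4, Q5⟩
        simp only [val_cons] at Q1 Q2
        have hE' : E (val l0) y := ear x _ _ (hs _ _ Q3) Q1 hv0 hy
        have hw : ev φ (r ((val l0)⁻¹ * x) ++ r (x⁻¹ * y)) = (val l0)⁻¹ * y := by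
          rw [ev_append, Q2, Q4]; group
        obtain ⟨k1, k2⟩ := hrr _ (hEB _ _ hE') ⟨_, hw⟩
        refine ⟨⟨hE', k2, Q5⟩, ?_⟩
        have a1 := hlen _ _ Q1 Q2
        have a2 := hlen _ _ Q3 Q4
        have := hsh _ _ (by omega) (by simp; omega) (k2.trans hw.symm)
        simp only [wt, val_cons, this, ev_append, mul_assoc]) m P
      obtain ⟨c1, c2, c3⟩ := cut
      rw [← c2]
      exact ih _ (by simp) c1 P' (c3 ▸ hE) p q hp hq (c3 ▸ e)
  have all : ∀ n l l', List.length l + List.length l' = n → Cl l l' := by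
    intro n
    induction n using Nat.strong_induction_on with
    | _ n ih =>
      intro l l' hn
      by_cases h0 : l ++ l' = []
      · obtain ⟨rfl, rfl⟩ := List.append_eq_nil_iff.1 h0
        intro _ _ _ p q hp hq e
        simp only [val_nil, one_mul, wt] at e ⊢
        exact hsh p q (by omega) (by omega) e
      · obtain ⟨x, hx, hmax⟩ := (List.finite_toSet (l ++ l')).exists_maximalFor ν _
          (List.exists_mem_of_ne_nil _ h0)
        have hm : ∀ y ∈ l ++ l', ν y ≤ ν x := by
          intro y hy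
          by_contra hc
          push Not at hc
          exact absurd (hmax hy hc.le) (by omega)
        rcases List.mem_append.1 hx with h | h
        · exact step l l' x h (fun y hy => hm y (by simp [hy])) (fun y hy => hm y (by simp [hy]))
            (fun m hm => ih _ (by omega) m l' rfl)
        · exact Csym _ _ (step l' l x h (fun y hy => hm y (by simp [hy]))
            (fun y hy => hm y (by simp [hy])) (fun m hm => ih _ (by omega) m l rfl))
  have mk : ∀ u : List A, ∃ l, Path φ E r l ∧ val l = ev φ u ∧ wt r g l = ev g u := by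
    intro u
    induction u using List.reverseRecOn with
    | nil => exact ⟨[], trivial, rfl, rfl⟩
    | append_singleton u a ih =>
      obtain ⟨l, k1, k2, k3⟩ := ih
      have e : (val l)⁻¹ * (val l * φ a) = φ a := by group
      obtain ⟨k4, k5⟩ := hrr (φ a) (e ▸ hEB _ _ (hg (val l) a)) ⟨[a], by simp⟩
      refine ⟨(val l * φ a) :: l, ⟨hg _ a, by rw [e, k5], k1⟩, by simp [k2], ?_⟩
      have := hsh (r (φ a)) [a] (by omega) (by simp) (by simp [k5])
      simp only [wt, e, this, k3, ev_append]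
  intro u v h
  obtain ⟨l, k1, k2, k3⟩ := mk u
  obtain ⟨l', k4, k5, k6⟩ := mk v
  have := all _ l l' rfl k1 k4 (by rw [k2, k5, h]; exact hr _) [] [] (by simp) (by simp)
    (by rw [k2, k5, h])
  simpa [k3, k6] using this

section free
variable {ι : Type} [DecidableEq ι]

theorem norm_mk_lcp (X Y : List (ι × Bool)) (hX : FreeGroup.IsReduced X)
    (hY : FreeGroup.IsReduced Y) :
    ((FreeGroup.mk X)⁻¹ * FreeGroup.mk Y).norm + 2 * lcp X Y = X.length + Y.length := by
  induction X generalizing Y with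
  | nil =>
    have : (FreeGroup.mk ([] : List (ι × Bool))) = 1 := rfl
    simp [this, FreeGroup.norm, hY.reduce_eq]
  | cons a X ih =>
    cases Y with
    | nil =>
      have : (FreeGroup.mk ([] : List (ι × Bool))) = 1 := rfl
      rw [this, mul_one, FreeGroup.norm_inv_eq]
      simp [FreeGroup.norm, hX.reduce_eq]
    | cons b Y =>
      by_cases hab : a = b
      · subst hab
        have e : ∀ Z, FreeGroup.mk (a :: Z) = FreeGroup.mk [a] * FreeGroup.mk Z := fun Z => by
          rw [FreeGroup.mul_mk]; rfl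
        have := ih Y (List.IsChain.tail hX) (List.IsChain.tail hY)
        rw [e X, e Y, show (FreeGroup.mk [a] * FreeGroup.mk X)⁻¹ *
          (FreeGroup.mk [a] * FreeGroup.mk Y) = (FreeGroup.mk X)⁻¹ * FreeGroup.mk Y by group]
        simp only [lcp_cons, if_true, List.length_cons]
        omega
      · have hi : FreeGroup.IsReduced (FreeGroup.invRev (a :: X)) := by
          rw [FreeGroup.isReduced_iff_reduce_eq, FreeGroup.reduce_invRev, hX.reduce_eq]
        have hred : FreeGroup.IsReduced (FreeGroup.invRev (a :: X) ++ b :: Y) := by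
          refine List.IsChain.append hi hY ?_
          intro x hx y hy
          simp only [FreeGroup.invRev, List.map_cons, List.reverse_cons, List.getLast?_append,
            List.getLast?_singleton, Option.some_or, Option.mem_def, Option.some.injEq,
            List.head?_cons] at hx hy
          subst hx hy
          intro h
          by_contra hc
          apply hab
          ext
          · exact h
          · revert hc; cases a.2 <;> cases b.2 <;> simp
        rw [FreeGroup.inv_mk, FreeGroup.mul_mk, FreeGroup.norm, FreeGroup.toWord_mk, hred.reduce_eq]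
        simp [lcp_cons, hab]

theorem norm_lcp (x y : FreeGroup ι) :
    (x⁻¹ * y).norm + 2 * lcp x.toWord y.toWord = x.norm + y.norm := by
  have := norm_mk_lcp x.toWord y.toWord FreeGroup.isReduced_toWord FreeGroup.isReduced_toWord
  rwa [FreeGroup.mk_toWord, FreeGroup.mk_toWord] at this

theorem free_ear (x y z : FreeGroup ι) (K : ℕ) (h1 : (x⁻¹ * y).norm ≤ K) (h2 : (x⁻¹ * z).norm ≤ K)
    (hy : y.norm ≤ x.norm) (hz : z.norm ≤ x.norm) : (y⁻¹ * z).norm ≤ K := by
  have a := norm_lcp x y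
  have b := norm_lcp x z
  have c := norm_lcp y z
  have d := lcp_ultra y.toWord x.toWord z.toWord
  rw [lcp_comm y.toWord x.toWord] at d
  omega

def Sup (Y : Set ι) : Subgroup (FreeGroup ι) where
  carrier := {w | ∀ p ∈ w.toWord, p.1 ∈ Y}
  one_mem' := by simp
  mul_mem' := by
    intro a b ha hb p hp
    rcases List.mem_append.1 ((FreeGroup.toWord_mul_sublist a b).subset hp) with h | h
    · exact ha p h
    · exact hb p h
  inv_mem' := by
    intro a ha p hp
    rw [FreeGroup.toWord_inv] at hp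
    simp only [FreeGroup.invRev, List.mem_reverse, List.mem_map] at hp
    obtain ⟨q, hq, rfl⟩ := hp
    exact ha q hq

theorem finite_ball {Y : Set ι} (hY : Y.Finite) (K : ℕ) :
    {w : FreeGroup ι | w.norm ≤ K ∧ w ∈ Sup Y}.Finite := by
  have := hY.to_subtype
  refine ((List.finite_length_le (Y × Bool) K).image
    (fun l => FreeGroup.mk (l.map (fun p => (p.1.1, p.2))))).subset ?_
  rintro w ⟨h1, h2⟩
  have h3 : ∀ p ∈ w.toWord, p.1 ∈ Y := h2
  refine ⟨w.toWord.pmap (fun (p : ι × Bool) (h : p.1 ∈ Y) => ((⟨p.1, h⟩ : Y), p.2)) h3,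
    by simpa [FreeGroup.norm] using h1, ?_⟩
  simp only [List.map_pmap, List.pmap_eq_map, List.map_id']
  exact FreeGroup.mk_toWord

end free

theorem MP.of_vfree {A G ι : Type} [Finite A] [Group G] (φ : A → G) (K : Subgroup G)
    [K.FiniteIndex] (e : K →* FreeGroup ι) (he : Function.Injective e) : MP φ := by
  classical
  let o : G → G := fun g => ((g⁻¹ : G) : G ⧸ K).out
  have ho : ∀ g, g * o g ∈ K := by
    intro g
    obtain ⟨c, hc⟩ := QuotientGroup.mk_out_eq_mul K g⁻¹
    simp only [o, hc]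
    simp
  have hfin : (Set.range o).Finite :=
    (Set.finite_range (fun q : G ⧸ K => q.out)).subset (by rintro _ ⟨g, rfl⟩; exact ⟨_, rfl⟩)
  let k : G → K := fun g => ⟨g * o g, ho g⟩
  let f : G → FreeGroup ι := fun g => (e (k 1))⁻¹ * e (k g)
  have hf : ∀ x y, (f x)⁻¹ * f y = e ((k x)⁻¹ * k y) := by
    intro x y; simp only [f, map_mul, map_inv]; group
  let W : Set (FreeGroup ι) := {w | ∃ x a, w = (f x)⁻¹ * f (x * φ a)}
  have hW : W.Finite := by
    have h1 : ((fun p : G × G × G => p.1⁻¹ * p.2.1 * p.2.2) ''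
      (Set.range o ×ˢ Set.range φ ×ˢ Set.range o)).Finite :=
      (hfin.prod ((Set.finite_range φ).prod hfin)).image _
    have h2 := h1.preimage (f := K.subtype) (K.subtype_injective.injOn)
    refine (h2.image e).subset ?_
    rintro w ⟨x, a, rfl⟩
    refine ⟨_, ?_, (hf _ _).symm⟩
    refine ⟨(o x, φ a, o (x * φ a)), ⟨⟨_, rfl⟩, ⟨_, rfl⟩, ⟨_, rfl⟩⟩, ?_⟩
    simp only [k, Subgroup.coe_subtype, Subgroup.coe_mul, Subgroup.coe_inv]
    group
  obtain ⟨N, hN⟩ := (hW.image FreeGroup.norm).bddAbove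
  let Y : Set ι := ⋃ w ∈ W, {i | i ∈ w.toWord.map Prod.fst}
  have hY : Y.Finite := hW.biUnion (fun w _ => List.finite_toSet _)
  let E : G → G → Prop := fun x y => ((f x)⁻¹ * f y).norm ≤ N ∧ (f x)⁻¹ * f y ∈ Sup Y
  have hb := ((finite_ball hY N).preimage he.injOn).image K.subtype
  refine MP.of_ear φ E (fun g => (f g).norm) _
    ((hfin.prod (hb.prod hfin)).image (fun p : G × G × G => p.1 * p.2.1 * p.2.2⁻¹))
    ?_ ?_ ?_ ?_ ?_ ?_
  · intro x y h
    refine ⟨(o x, ((k x)⁻¹ * k y : K), o y), ⟨⟨_, rfl⟩, ⟨(k x)⁻¹ * k y, ?_, rfl⟩, ⟨_, rfl⟩⟩, ?_⟩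
    · simp only [E, hf] at h
      exact h
    · simp only [k, Subgroup.coe_mul, Subgroup.coe_inv]
      group
  · intro x y h
    have : (f y)⁻¹ * f x = ((f x)⁻¹ * f y)⁻¹ := by group
    simp only [E]
    rw [this, FreeGroup.norm_inv_eq]
    exact ⟨h.1, inv_mem h.2⟩
  · intro x
    simp [E]
  · intro x a
    refine ⟨hN ⟨_, ⟨x, a, rfl⟩, rfl⟩, fun p hp => ?_⟩
    simp only [Y, Set.mem_iUnion]
    exact ⟨_, ⟨x, a, rfl⟩, List.mem_map_of_mem hp⟩
  · intro x
    simp [f]
  · intro x y z h1 h2 hy hz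
    refine ⟨free_ear _ _ _ N h1.1 h2.1 hy hz, ?_⟩
    have := mul_mem (inv_mem h1.2) h2.2
    rwa [show ((f x)⁻¹ * f y)⁻¹ * ((f x)⁻¹ * f z) = (f y)⁻¹ * f z by group] at this

end H72.Malc
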