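import Mathlib

set_option autoImplicit false

namespace H72.Malc

/-- the element of the free group on `A` represented by a nonempty positive word -/
def emb (A : Type) : FreeSemigroup A →ₙ* FreeGroup A := FreeSemigroup.lift FreeGroup.of

/-- the relators `u v⁻¹`, `(u, v) ∈ ρ`, of the group `Gp⟨A | ρ⟩` -/
def gpRels {A : Type} (ρ : Set (FreeSemigroup A × FreeSemigroup A)) : Set (FreeGroup A) :=
  {w | ∃ p ∈ ρ, w = emb A p.1 * (emb A p.2)⁻¹}

/-- `S` has a finite Malcev presentation -/
def HasFinMalcev (S : Type) [Semigroup S] : Prop :=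
  ∃ (A : Type) (_ : Finite A) (f : FreeSemigroup A →ₙ* S)
    (ρ : Set (FreeSemigroup A × FreeSemigroup A)), Function.Surjective f ∧ ρ.Finite ∧
    ∀ u v, f u = f v ↔
      PresentedGroup.mk (gpRels ρ) (emb A u) = PresentedGroup.mk (gpRels ρ) (emb A v)

/-- `M` embeds in a group -/
def GroupEmbeddable (M : Type) [Semigroup M] : Prop :=
  ∃ (G : Type) (_ : Group G) (i : M →ₙ* G), Function.Injective i

/-- every finitely generated subsemigroup of `M` has a finite Malcev presentation -/
def MalcevCoherent (M : Type) [Semigroup M] : Prop :=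
  ∀ S : Subsemigroup M, (∃ T : Finset M, Subsemigroup.closure (T : Set M) = S) → HasFinMalcev S

end H72.Malc
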