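import Pool.Agent.H72.Malc2
import Pool.Agent.H72.MalcDefs

set_option autoImplicit false

namespace H72.Malc

def tl {A : Type} (u : FreeSemigroup A) : List A := u.head :: u.tail

theorem tl_mul {A : Type} (u v : FreeSemigroup A) : tl (u * v) = tl u ++ tl v := rfl

theorem lift_tl {A M : Type} [Monoid M] (φ : A → M) (u : FreeSemigroup A) :
    FreeSemigroup.lift φ u = ev φ (tl u) := by
  induction u using FreeSemigroup.recOnMul with
  | ih1 a => simp [tl]
  | ih2 a u h1 h2 => rw [map_mul, tl_mul, ev_append, h1, h2]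

theorem hom_tl {A M : Type} [Monoid M] (f : FreeSemigroup A →ₙ* M) (u : FreeSemigroup A) :
    f u = ev (fun a => f (FreeSemigroup.of a)) (tl u) := by
  induction u using FreeSemigroup.recOnMul with
  | ih1 a => simp [tl]
  | ih2 a u h1 h2 => rw [map_mul, tl_mul, ev_append, h1, h2]

theorem emb_tl {A : Type} (u : FreeSemigroup A) : emb A u = ev FreeGroup.of (tl u) := lift_tl _ u

theorem mk_iff {A : Type} (R : Set (FreeGroup A)) (x y : FreeGroup A) :
    PresentedGroup.mk R x = PresentedGroup.mk R y ↔ x * y⁻¹ ∈ Subgroup.normalClosure R := by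
  rw [← PresentedGroup.mk_eq_one_iff, map_mul, map_inv, mul_inv_eq_one]

theorem pres_lift {A H : Type} [Group H] (ρ : Set (FreeSemigroup A × FreeSemigroup A)) (g : A → H)
    (h : ∀ p ∈ ρ, ev g (tl p.1) = ev g (tl p.2)) (u v : FreeSemigroup A)
    (e : PresentedGroup.mk (gpRels ρ) (emb A u) = PresentedGroup.mk (gpRels ρ) (emb A v)) :
    ev g (tl u) = ev g (tl v) := by
  have h1 : Subgroup.normalClosure (gpRels ρ) ≤ (FreeGroup.lift g).ker :=
    Subgroup.normalClosure_le_normal (by
      rintro w ⟨p, hp, rfl⟩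
      simp [MonoidHom.mem_ker, emb_tl, lift_ev, h p hp])
  have := h1 ((mk_iff _ _ _).1 e)
  rwa [MonoidHom.mem_ker, map_mul, map_inv, emb_tl, emb_tl, lift_ev, lift_ev, mul_inv_eq_one] at this

theorem mc_of_emb {M G : Type} [Monoid M] [Group G] (i : M →* G) (hi : Function.Injective i)
    (h : ∀ (A : Type) [Finite A] (φ : A → M), MP φ) : MalcevCoherent M := by
  rintro S ⟨T, rfl⟩
  obtain ⟨n, hn⟩ := h T Subtype.val
  let f : FreeSemigroup T →ₙ* Subsemigroup.closure (T : Set M) :=
    FreeSemigroup.lift (fun a => ⟨a, Subsemigroup.subset_closure a.2⟩)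
  have hf : ∀ u, (f u : M) = ev Subtype.val (tl u) := by
    intro u
    induction u using FreeSemigroup.recOnMul with
    | ih1 a => simp [tl, f]
    | ih2 a u h1 h2 => rw [map_mul, tl_mul, ev_append, ← h1, ← h2]; rfl
  let ρ : Set (FreeSemigroup T × FreeSemigroup T) :=
    {p | (tl p.1).length ≤ n + 1 ∧ (tl p.2).length ≤ n + 1 ∧ f p.1 = f p.2}
  have htl : Function.Injective (tl : FreeSemigroup T → List T) := by
    intro u v e
    simp only [tl, List.cons.injEq] at e
    exact FreeSemigroup.ext e.1 e.2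
  refine ⟨T, inferInstance, f, ρ, ?_, ?_, ?_⟩
  · rintro ⟨s, hs⟩
    induction hs using Subsemigroup.closure_induction with
    | mem x hx => exact ⟨FreeSemigroup.of ⟨x, hx⟩, by simp [f]⟩
    | mul x y _ _ hx hy =>
      obtain ⟨u, hu⟩ := hx
      obtain ⟨v, hv⟩ := hy
      exact ⟨u * v, by rw [map_mul, hu, hv]; rfl⟩
  · have h1 := (List.finite_length_le T (n + 1)).preimage htl.injOn
    exact (h1.prod h1).subset (fun p hp => ⟨hp.1, hp.2.1⟩)
  · intro u v
    constructor
    · intro e
      have key : ∀ l, ev (fun a => PresentedGroup.mk (gpRels ρ) (FreeGroup.of a)) l =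
        PresentedGroup.mk (gpRels ρ) (ev FreeGroup.of l) := fun l => (map_ev _ _ l).symm
      rw [emb_tl, emb_tl, ← key, ← key]
      refine hn _ _ ?_ _ _ (by rw [← hf, ← hf, e])
      intro l m hl hm e
      have : PresentedGroup.mk (gpRels ρ) (emb T ⟨u.head, l⟩) =
          PresentedGroup.mk (gpRels ρ) (emb T ⟨u.head, m⟩) := by
        refine (mk_iff _ _ _).2 (Subgroup.subset_normalClosure ?_)
        refine ⟨(⟨u.head, l⟩, ⟨u.head, m⟩), ⟨by simpa [tl] using hl, by simpa [tl] using hm, ?_⟩, rfl⟩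
        apply Subtype.ext
        simp [hf, tl, e]
      rw [emb_tl, emb_tl, ← key, ← key] at this
      simpa [tl] using this
    · intro e
      apply Subtype.ext
      apply hi
      rw [hf, hf, map_ev, map_ev]
      refine pres_lift ρ _ ?_ u v e
      intro p hp
      rw [← map_ev, ← map_ev, ← hf, ← hf, hp.2.2]

theorem of_hasFin {X M : Type} [Finite X] [Monoid M] (φ : X → M) (S : Subsemigroup M)
    (hS : Subsemigroup.closure (Set.range φ) = S) (h : HasFinMalcev S) :
    ∃ n : ℕ, ∀ (H : Type) [Group H] (g : X → H),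
      (∀ u v : List X, u.length ≤ n → v.length ≤ n → ev φ u = ev φ v → ev g u = ev g v) →
      ∀ u v : List X, u ≠ [] → v ≠ [] → ev φ u = ev φ v → ev g u = ev g v := by
  obtain ⟨A, _, f, ρ, hf, hρ, hp⟩ := h
  have : ∀ s ∈ S, ∃ l, ev φ l = s := by
    intro s hs
    rw [← hS] at hs
    induction hs using Subsemigroup.closure_induction with
    | mem x hx => obtain ⟨a, rfl⟩ := hx; exact ⟨[a], by simp⟩
    | mul x y _ _ hx hy =>
      obtain ⟨u, hu⟩ := hx
      obtain ⟨v, hv⟩ := hy
      exact ⟨u ++ v, by rw [ev_append, hu, hv]⟩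
  choose! L hL using this
  let lam : A → List X := fun a => L (f (FreeSemigroup.of a))
  let Λ : FreeSemigroup A → List X := fun w => ((tl w).map lam).flatten
  have hΛ : ∀ {H : Type} [Monoid H] (g : X → H) (w : FreeSemigroup A),
      ev g (Λ w) = ev (fun a => ev g (lam a)) (tl w) := by
    intro H _ g w
    simp only [Λ]
    induction tl w with
    | nil => simp
    | cons a l ih => simp [ih]
  have hΛf : ∀ w, ev φ (Λ w) = f w := by
    intro w
    rw [hΛ]
    have := hom_tl ((MulMemClass.subtype S).comp f) w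
    simp only [MulHom.coe_comp, Function.comp, MulMemClass.coe_subtype] at this
    rw [this]
    congr 1
    funext a
    exact hL _ (f _).2
  have hx : ∀ x, φ x ∈ S := fun x => hS ▸ Subsemigroup.subset_closure ⟨x, rfl⟩
  choose μ hμ using fun x => hf ⟨φ x, hx x⟩
  obtain ⟨n1, hn1⟩ := (hρ.image (fun p => max (Λ p.1).length (Λ p.2).length)).bddAbove
  obtain ⟨n2, hn2⟩ := (Set.finite_range (fun x => (Λ (μ x)).length)).bddAbove
  refine ⟨n1 + n2 + 1, fun H _ g hg => ?_⟩
  have k1 : ∀ w w', f w = f w' → ev g (Λ w) = ev g (Λ w') := by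
    intro w w' e
    rw [hΛ, hΛ]
    refine pres_lift ρ _ ?_ w w' ((hp w w').1 e)
    intro p hp'
    have := hn1 ⟨p, hp', rfl⟩
    simp only [max_le_iff] at this
    rw [← hΛ, ← hΛ]
    refine hg _ _ (by omega) (by omega) ?_
    rw [hΛf, hΛf, (hp _ _).2]
    exact (mk_iff _ _ _).2 (Subgroup.subset_normalClosure ⟨p, hp', rfl⟩)
  have k2 : ∀ x, ev g (Λ (μ x)) = g x := by
    intro x
    have := hn2 ⟨x, rfl⟩
    simpa using hg (Λ (μ x)) [x] (by simp only at this; omega) (by simp) (by simp [hΛf, hμ])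
  have k3 : ∀ (u : List X) (x : X), ∃ w, (f w : M) = ev φ (x :: u) ∧ ev g (Λ w) = ev g (x :: u) := by
    intro u
    induction u with
    | nil => intro x; exact ⟨μ x, by simp [hμ], by simp [k2]⟩
    | cons y u ih =>
      intro x
      obtain ⟨w, h1, h2⟩ := ih y
      refine ⟨μ x * w, ?_, ?_⟩
      · rw [map_mul, MulMemClass.coe_mul, h1, hμ]; simp
      · have : Λ (μ x * w) = Λ (μ x) ++ Λ w := by simp [Λ, tl_mul]
        rw [this, ev_append, k2, h2]; simp
  intro u v hu hv e
  obtain ⟨x, u, rfl⟩ := List.exists_cons_of_ne_nil hu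
  obtain ⟨y, v, rfl⟩ := List.exists_cons_of_ne_nil hv
  obtain ⟨w, h1, h2⟩ := k3 u x
  obtain ⟨w', h3, h4⟩ := k3 v y
  rw [← h2, ← h4]
  exact k1 _ _ (Subtype.ext (by rw [h1, h3, e]))

theorem mp_prod (F : Type) [Group F] (K : Subgroup F) [K.FiniteIndex] [IsFreeGroup K] (c : ℕ) :
    ∀ (H : Type) [Group H] (N : Subgroup H) [N.Normal] [N.FiniteIndex] [Group.IsNilpotent N],
      Group.nilpotencyClass N ≤ c → ∀ (A : Type) [Finite A] (φ : A → F × H), MP φ := by
  induction c with
  | zero =>
    intro H _ N _ _ _ hc A _ φ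
    have hN : N = ⊥ := by
      have := Group.nilpotencyClass_zero_iff_subsingleton.1 (Nat.le_zero.1 hc)
      exact Subgroup.eq_bot_of_subsingleton N
    subst hN
    have : (K.prod (⊥ : Subgroup H)).FiniteIndex := by
      constructor
      rw [Subgroup.index_prod]
      exact mul_ne_zero Subgroup.FiniteIndex.index_ne_zero Subgroup.FiniteIndex.index_ne_zero
    let e0 : (K.prod (⊥ : Subgroup H)) →* K :=
      ((MonoidHom.fst F H).comp (Subgroup.subtype _)).codRestrict K (fun x => x.2.1)
    refine MP.of_vfree φ (K.prod ⊥) ((IsFreeGroup.toFreeGroup K).toMonoidHom.comp e0) ?_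
    refine (IsFreeGroup.toFreeGroup K).injective.comp ?_
    intro x y h
    refine Subtype.ext (Prod.ext (congrArg Subtype.val h) ?_)
    exact (Subgroup.mem_bot.1 x.2.2).trans (Subgroup.mem_bot.1 y.2.2).symm
  | succ c ih =>
    intro H _ N _ _ _ hc A _ φ
    let Z : Subgroup H := (Subgroup.center N).map N.subtype
    have hZ : ∀ z ∈ Z, ∀ n ∈ N, Commute n z := by
      rintro z ⟨w, hw, rfl⟩ n hn
      exact congrArg Subtype.val (Subgroup.mem_center_iff.1 hw ⟨n, hn⟩)
    have hZN : Z ≤ N := Subgroup.map_subtype_le _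
    have : Z.Normal := inferInstance
    let q := QuotientGroup.mk' Z
    let π : F × H →* F × (H ⧸ Z) := (MonoidHom.id F).prodMap q
    have hk : ∀ k ∈ π.ker, k.1 = 1 ∧ k.2 ∈ Z := by
      intro k hk
      have := Prod.ext_iff.1 (MonoidHom.mem_ker.1 hk)
      exact ⟨this.1, (QuotientGroup.eq_one_iff _).1 this.2⟩
    have : ((⊤ : Subgroup F).prod N).FiniteIndex := by
      constructor
      rw [Subgroup.index_prod]
      exact mul_ne_zero Subgroup.FiniteIndex.index_ne_zero Subgroup.FiniteIndex.index_ne_zero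
    refine MP.ext φ π ((⊤ : Subgroup F).prod N) ?_ ?_ ?_
    · intro x hx k hk'
      obtain ⟨h1, h2⟩ := hk k hk'
      exact Prod.ext (by simp [h1]) (hZ _ h2 _ hx.2).eq
    · intro x hx k hk'
      obtain ⟨h1, h2⟩ := hk k hk'
      exact Prod.ext (by simp [h1]) (hZ _ h2 _ (hZN (hk x hx).2)).eq
    · have : (N.map q).Normal := Subgroup.Normal.map inferInstance q (QuotientGroup.mk'_surjective Z)
      have : (N.map q).FiniteIndex := ⟨fun h => Subgroup.FiniteIndex.index_ne_zero (H := N)
        (Nat.eq_zero_of_zero_dvd (h ▸ N.index_map_dvd (QuotientGroup.mk'_surjective Z)))⟩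
      let s : N ⧸ Subgroup.center N →* N.map q := QuotientGroup.lift _ (q.subgroupMap N) (by
        intro x hx
        apply Subtype.ext
        exact (QuotientGroup.eq_one_iff _).2 ⟨x, hx, rfl⟩)
      have hs : Function.Surjective s := by
        intro y
        obtain ⟨x, hx⟩ := q.subgroupMap_surjective N y
        exact ⟨x, hx⟩
      have : Group.IsNilpotent (N.map q) := Group.nilpotent_of_surjective s hs
      refine ih (H ⧸ Z) (N.map q) ((Group.nilpotencyClass_le_of_surjective s hs).trans ?_) A _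
      rw [Group.nilpotencyClass_quotient_center]
      omega

theorem mp_main (F H : Type) [Group F] [Group H]
    (hF : ∃ K : Subgroup F, K.FiniteIndex ∧ IsFreeGroup K)
    (hH : ∃ N : Subgroup H, N.FiniteIndex ∧ Group.IsNilpotent N)
    (A : Type) [Finite A] (φ : A → F × H) : MP φ := by
  obtain ⟨K, _, _⟩ := hF
  obtain ⟨N, _, _⟩ := hH
  have : Group.IsNilpotent N.normalCore :=
    Subgroup.isNilpotent_of_ker_le_center (Subgroup.inclusion N.normalCore_le) (by
      rw [(MonoidHom.ker_eq_bot_iff _).2 (Subgroup.inclusion_injective _)]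
      exact bot_le)
  exact mp_prod F K _ H N.normalCore le_rfl A φ

end H72.Malc
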