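import Pool.Agent.H72.Malc3

set_option autoImplicit false

namespace H72.Malc

open Monoid

section nf
variable (I M : Type) [Group M]

abbrev Om := M × List (I × M)
abbrev PP := Coprod (FreeMonoid I) M

variable {I M}

def lam (i : I) (w : Om I M) : Om I M := (1, (i, w.1) :: w.2)

theorem lam_inj (i : I) : Function.Injective (lam (M := M) i) := by
  rintro ⟨a, l⟩ ⟨b, m⟩ h
  simp only [lam, Prod.mk.injEq, List.cons.injEq, true_and] at h
  exact Prod.ext h.1 h.2

open Classical in
noncomputable def extP {W : Type} (f : W → W) (hf : Function.Injective f) : Equiv.Perm (W × ℕ) :=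
  Equiv.ofBijective (fun p => match p with
    | (z, 0) => (f z, 0)
    | (z, k + 1) => if z ∈ Set.range f then (z, k + 1) else (z, k)) (by
    constructor
    · rintro ⟨z, k⟩ ⟨y, j⟩ h
      rcases k with _ | k <;> rcases j with _ | j <;> simp only at h
      · rw [hf (Prod.ext_iff.1 h).1]
      · split_ifs at h with hy
        · simp at h
        · exact absurd ⟨z, (Prod.ext_iff.1 h).1⟩ hy
      · split_ifs at h with hz
        · simp at h
        · exact absurd ⟨y, (Prod.ext_iff.1 h).1.symm⟩ hz
      · split_ifs at h with hz hy hy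
        · exact h
        · simp only [Prod.mk.injEq] at h
          exact absurd (h.1 ▸ hz) hy
        · simp only [Prod.mk.injEq] at h
          exact absurd (h.1 ▸ hy) hz
        · simp only [Prod.mk.injEq] at h ⊢
          exact ⟨h.1, by omega⟩
    · rintro ⟨z, k⟩
      by_cases hz : z ∈ Set.range f
      · rcases k with _ | k
        · obtain ⟨y, rfl⟩ := hz
          exact ⟨(y, 0), rfl⟩
        · exact ⟨(z, k + 1), by simp only [if_pos hz]⟩
      · exact ⟨(z, k + 1), by simp only [if_neg hz]⟩)

theorem extP_zero {W : Type} (f : W → W) (hf : Function.Injective f) (z : W) :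
    extP f hf (z, 0) = (f z, 0) := rfl

def actM : M →* Equiv.Perm (Om I M × ℕ) where
  toFun m := ⟨fun p => ((m * p.1.1, p.1.2), p.2), fun p => ((m⁻¹ * p.1.1, p.1.2), p.2),
    fun p => by simp, fun p => by simp⟩
  map_one' := by ext p <;> simp
  map_mul' a b := by ext p <;> simp [mul_assoc]

noncomputable def xi : PP I M →* Equiv.Perm (Om I M × ℕ) :=
  Coprod.lift (FreeMonoid.lift fun i => extP (lam i) (lam_inj i)) actM

noncomputable def act (z : PP I M) (w : Om I M) : Om I M := (xi z (w, 0)).1

def dec (w : Om I M) : PP I M :=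
  Coprod.inr w.1 * (w.2.map fun p => Coprod.inl (FreeMonoid.of p.1) * Coprod.inr p.2).prod

theorem xi_spec (z : PP I M) : ∀ w : Om I M, (xi z (w, 0)).2 = 0 ∧ dec (act z w) = z * dec w := by
  have hmul : ∀ a b : PP I M,
      (∀ w : Om I M, (xi a (w, 0)).2 = 0 ∧ dec (act a w) = a * dec w) →
      (∀ w : Om I M, (xi b (w, 0)).2 = 0 ∧ dec (act b w) = b * dec w) →
      ∀ w : Om I M, (xi (a * b) (w, 0)).2 = 0 ∧ dec (act (a * b) w) = a * b * dec w := by
    intro a b ha hb w
    have e : xi b (w, 0) = (act b w, 0) := Prod.ext rfl (hb w).1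
    have e2 : xi (a * b) (w, 0) = xi a (act b w, 0) := by rw [map_mul, Equiv.Perm.mul_apply, e]
    refine ⟨by rw [e2]; exact (ha _).1, ?_⟩
    rw [mul_assoc, ← (hb w).2, ← (ha _).2, act, e2]; rfl
  induction z using Coprod.induction_on with
  | inl m =>
    induction m using FreeMonoid.inductionOn with
    | one => intro w; simp [act]
    | of i =>
      intro w
      have e : xi (Coprod.inl (FreeMonoid.of i) : PP I M) (w, 0) = (lam i w, 0) := rfl
      simp only [act, e, lam, dec, map_one, one_mul, List.map_cons, List.prod_cons, mul_assoc,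
        and_self]
    | mul a b ha hb => rw [map_mul]; exact hmul _ _ ha hb
  | inr m =>
    intro w
    have e : xi (Coprod.inr m : PP I M) (w, 0) = ((m * w.1, w.2), 0) := rfl
    simp only [act, e, dec, map_mul, mul_assoc, and_self]
  | mul a b ha hb => exact hmul _ _ ha hb

theorem act_mul (a b : PP I M) (w : Om I M) : act (a * b) w = act a (act b w) := by
  have e : xi b (w, 0) = (act b w, 0) := Prod.ext rfl (xi_spec b w).1
  rw [act, map_mul, Equiv.Perm.mul_apply, e]; rfl

theorem act_one (w : Om I M) : act (1 : PP I M) w = w := by simp [act]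

theorem act_inl (i : I) (w : Om I M) :
    act (Coprod.inl (FreeMonoid.of i) : PP I M) w = (1, (i, w.1) :: w.2) := rfl

theorem act_inr (m : M) (w : Om I M) : act (Coprod.inr m : PP I M) w = (m * w.1, w.2) := rfl

theorem dec_act (z : PP I M) : dec (act z (1, [])) = z := by
  rw [(xi_spec z _).2]; simp [dec]

theorem xi_inj : Function.Injective (xi : PP I M →* _) := by
  intro a b h
  rw [← dec_act a, ← dec_act b, act, act, h]

theorem pp_emb : GroupEmbeddable (PP I M) := ⟨_, inferInstance, xi.toMulHom, xi_inj⟩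

end nf

theorem ev_of_inj {A : Type} {u v : List A} (h : ev FreeGroup.of u = ev FreeGroup.of v) : u = v := by
  classical
  have k : ∀ l : List A, (ev FreeGroup.of l).toWord = l.map (fun a => (a, true)) := by
    intro l
    have e : ev FreeGroup.of l = FreeGroup.mk (l.map (fun a => (a, true))) := by
      induction l with
      | nil => rfl
      | cons a l ih => rw [ev_cons, ih]; rfl
    rw [e, FreeGroup.toWord_mk]
    apply FreeGroup.IsReduced.reduce_eq
    unfold FreeGroup.IsReduced
    rw [List.isChain_map]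
    exact List.Pairwise.isChain (List.pairwise_of_forall (fun _ _ _ => rfl))
  have := (k u).symm.trans ((congrArg FreeGroup.toWord h).trans (k v))
  exact List.map_injective_iff.2 (fun a b e => (Prod.ext_iff.1 e).1) this

namespace Cex

abbrev MM := FreeGroup (Fin 3) × Multiplicative ℤ
abbrev XX := Fin 4 ⊕ (Fin 2 × Bool)

def f1 : Fin 4 → Fin 3 := ![2, 2, 0, 1]
def f2 : Fin 4 → Fin 3 := ![0, 1, 2, 2]
def wt0 : Fin 4 → ℤ := ![0, 1, 1, 0]
def na0 : Fin 4 → ℤ := ![1, 0, 1, 0]

def flat : List (Fin 4) → List (Fin 3)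
  | [] => []
  | j :: w => f1 j :: f2 j :: flat w

def m (j : Fin 4) : MM :=
  (FreeGroup.of (f1 j) * FreeGroup.of (f2 j), Multiplicative.ofAdd (wt0 j))

def cl (b : Bool) : List (Fin 3) := if b then [2] else []

def c (b : Bool) : MM := (ev FreeGroup.of (cl b), 1)

def φ : XX → PP (Fin 2) MM
  | Sum.inl j => Coprod.inr (m j)
  | Sum.inr (i, b) => if i = 0 then Coprod.inl (FreeMonoid.of i) * Coprod.inr (c b)
      else Coprod.inr (c b) * Coprod.inl (FreeMonoid.of i)

theorem ev_m (w : List (Fin 4)) :
    ev m w = (ev FreeGroup.of (flat w), Multiplicative.ofAdd (w.map wt0).sum) := by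
  induction w with
  | nil => rfl
  | cons j w ih => simp [ih, m, flat, mul_assoc, ofAdd_add]

theorem flat_len (w : List (Fin 4)) : (flat w).length = 2 * w.length := by
  induction w with
  | nil => rfl
  | cons j w ih => simp [flat, ih]; ring

theorem lemA (w w' : List (Fin 4)) (h : 2 :: flat w = flat w' ++ [2]) :
    (w.map wt0).sum = (w.map na0).sum ∧ (w'.map wt0).sum = w.length - (w.map na0).sum := by
  induction w generalizing w' with
  | nil =>
    cases w' with
    | nil => simp
    | cons j w' => simp [flat] at h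
  | cons j w ih =>
    cases w' with
    | nil => simp [flat] at h
    | cons k w' =>
      simp only [flat, List.cons_append, List.cons.injEq] at h
      obtain ⟨h1, h2, h3⟩ := h
      have h4 : f2 j = 2 ∧ wt0 j = na0 j ∧ wt0 k = 1 - na0 j := by
        clear h3; revert h1 h2; revert j k; decide
      rw [h4.1] at h3
      obtain ⟨i1, i2⟩ := ih w' h3
      simp only [List.map_cons, List.sum_cons, List.length_cons, i1, i2, h4.2.1, h4.2.2]
      push_cast
      exact ⟨trivial, by ring⟩

theorem lemB (w w' : List (Fin 4)) : flat w' ≠ 2 :: (flat w ++ [2]) := by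
  induction w generalizing w' with
  | nil =>
    cases w' with
    | nil => simp [flat]
    | cons j w' =>
      intro h
      simp only [flat, List.nil_append, List.cons.injEq] at h
      obtain ⟨h1, h2, -⟩ := h
      revert j; decide
  | cons j w ih =>
    cases w' with
    | nil => simp [flat]
    | cons k w' =>
      intro h
      simp only [flat, List.cons_append, List.cons.injEq] at h
      obtain ⟨h1, h2, h3⟩ := h
      have h4 : f2 j = 2 := by clear h3; revert h1 h2; revert j k; decide
      rw [h4] at h3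
      exact ih w' h3

variable (N : ℤ)

def al : Equiv.Perm ℤ := Equiv.addRight 1
def be : Equiv.Perm ℤ := Equiv.addRight (-1) * Equiv.swap N (N + 1)
def d3 : Fin 3 → Equiv.Perm ℤ := ![al, be N, 1]
def d4 : Fin 4 → Equiv.Perm ℤ := ![al, be N, al, be N]
def io : Equiv.Perm ℤ →* Equiv.Perm (ℤ ⊕ ℤ) :=
  (Equiv.Perm.sumCongrHom ℤ ℤ).comp ((MonoidHom.id _).prod (MonoidHom.id _))
def sg (b : Bool) : Equiv.Perm (ℤ ⊕ ℤ) := if b then Equiv.swap (Sum.inl 0) (Sum.inr 0) else 1

def γ : XX → Equiv.Perm (ℤ ⊕ ℤ)
  | Sum.inl j => io (d4 N j)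
  | Sum.inr (_, b) => sg b

theorem d4_flat (w : List (Fin 4)) : ev (d4 N) w = ev (d3 N) (flat w) := by
  induction w with
  | nil => rfl
  | cons j w ih =>
    simp only [ev_cons, flat, ih, ← mul_assoc]
    congr 1
    fin_cases j <;> simp [d4, d3, f1, f2]

theorem d4_zero (w : List (Fin 4)) (h : (w.length : ℤ) < N) :
    ev (d4 N) w 0 = 2 * (w.map na0).sum - w.length ∧ 0 ≤ (w.map na0).sum ∧
      (w.map na0).sum ≤ w.length := by
  induction w with
  | nil => simp
  | cons j w ih =>
    simp only [List.length_cons] at h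
    push_cast at h
    obtain ⟨i1, i2, i3⟩ := ih (by omega)
    have hb : be N (2 * (w.map na0).sum - w.length) = 2 * (w.map na0).sum - w.length - 1 := by
      simp only [be, Equiv.Perm.mul_apply]
      rw [Equiv.swap_apply_of_ne_of_ne (by omega) (by omega)]
      simp; ring
    simp only [ev_cons, Equiv.Perm.mul_apply, i1, List.map_cons, List.sum_cons, List.length_cons]
    generalize (w.map na0).sum = t at *
    fin_cases j <;> simp [d4, na0, al, hb] <;> omega

theorem comm_sg (g : Equiv.Perm ℤ) (h : g 0 = 0) : sg true * io g = io g * sg true := by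
  simp only [sg, if_true]
  rw [Equiv.mul_swap_eq_swap_mul]
  simp [io, h]

theorem junction (s p s' p' : Bool) (w w' : List (Fin 4)) (hw : (w.length : ℤ) < N)
    (hw' : (w'.length : ℤ) < N) (h : c s * ev m w * c p = c s' * ev m w' * c p') :
    sg s * io (ev (d4 N) w) * sg p = sg s' * io (ev (d4 N) w') * sg p' := by
  simp only [ev_m, c, Prod.mk_mul_mk, one_mul, mul_one, Prod.mk.injEq, ← ev_append] at h
  obtain ⟨h1, h2⟩ := h
  have h1 := ev_of_inj h1
  have h2 : (w.map wt0).sum = (w'.map wt0).sum := h2
  have hc : ∀ b, ev (d3 N) (cl b) = 1 := by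
    intro b; cases b <;> simp [cl, d3]
  have h3 : ev (d4 N) w = ev (d4 N) w' := by
    have := congrArg (ev (d3 N)) h1
    simpa only [ev_append, hc, one_mul, mul_one, ← d4_flat] using this
  have hl := congrArg List.length h1
  simp only [List.length_append, flat_len] at hl
  rw [← h3]
  cases s <;> cases p <;> cases s' <;> cases p' <;> simp only [cl] at hl h1 <;>
    simp at hl h1 <;> first | rfl | omega | skip
  · exact absurd h1 (lemB _ _)
  · obtain ⟨k1, k2⟩ := lemA _ _ h1.symm
    have := (d4_zero N w' hw').1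
    rw [comm_sg _ (by rw [h3, this]; omega)]
    simp [sg]
  · obtain ⟨k1, k2⟩ := lemA _ _ h1
    have := (d4_zero N w hw).1
    rw [comm_sg _ (by rw [this]; omega)]
    simp [sg]
  · exact absurd h1.symm (lemB _ _)

open Classical in
noncomputable def J (x : MM) : Equiv.Perm (ℤ ⊕ ℤ) :=
  if h : ∃ t : Bool × List (Fin 4) × Bool, (t.2.1.length : ℤ) < N ∧ c t.1 * ev m t.2.1 * c t.2.2 = x
  then sg h.choose.1 * io (ev (d4 N) h.choose.2.1) * sg h.choose.2.2 else 1

theorem J_eq (s p : Bool) (w : List (Fin 4)) (hw : (w.length : ℤ) < N) :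
    J N (c s * ev m w * c p) = sg s * io (ev (d4 N) w) * sg p := by
  have h : ∃ t : Bool × List (Fin 4) × Bool, (t.2.1.length : ℤ) < N ∧
    c t.1 * ev m t.2.1 * c t.2.2 = c s * ev m w * c p := ⟨(s, w, p), hw, rfl⟩
  rw [J, dif_pos h]
  exact junction N _ _ _ _ _ _ h.choose_spec.1 hw h.choose_spec.2

noncomputable def Val (w : Om (Fin 2) MM) : Equiv.Perm (ℤ ⊕ ℤ) :=
  J N w.1 * (w.2.map fun p => J N p.2).prod

theorem val_eq (u : List XX) : ∀ (s : Bool) (w : List (Fin 4)), (w.length + u.length : ℤ) < N →
    Val N (act (Coprod.inr (c s * ev m w) * ev φ u) (1, [])) =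
      sg s * io (ev (d4 N) w) * ev (γ N) u := by
  have c0 : c false = 1 := rfl
  have s0 : sg false = 1 := rfl
  induction u with
  | nil =>
    intro s w h
    have := J_eq N s false w (by simpa using h)
    simp only [c0, s0, mul_one] at this
    simp only [ev_nil, mul_one, act_inr, Val, this, List.map_nil, List.prod_nil]
  | cons x u ih =>
    intro s w h
    simp only [List.length_cons] at h
    push_cast at h
    rcases x with j | ⟨i, b⟩
    · have := ih s (w ++ [j]) (by simp; omega)
      simp only [ev_append, ev_cons, ev_nil, mul_one, map_mul, mul_assoc] at this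
      simp only [ev_cons, φ, γ, map_mul, mul_assoc, this]
    · by_cases hi : i = 0
      · have h1 := ih b [] (by simp; omega)
        have h2 := J_eq N s false w (by omega)
        simp only [ev_nil, mul_one, map_one, c0, s0] at h1 h2
        simp only [ev_cons, φ, γ, if_pos hi, mul_assoc]
        rw [act_mul, act_mul, act_inl, act_inr, ← h1]
        simp only [Val, mul_one, h2, List.map_cons, List.prod_cons, mul_assoc]
      · have h1 := ih false [] (by simp; omega)
        have h2 := J_eq N s b w (by omega)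
        simp only [ev_nil, mul_one, map_one, c0, s0, one_mul] at h1 h2
        simp only [ev_cons, φ, γ, if_neg hi, mul_assoc]
        rw [act_mul, act_mul, act_mul, act_inl, act_inr, act_inr, ← h1]
        simp only [Val, mul_one, List.map_cons, List.prod_cons, mul_assoc]
        simp only [← mul_assoc, h2]

theorem short (u v : List XX) (hu : (u.length : ℤ) < N) (hv : (v.length : ℤ) < N)
    (h : ev φ u = ev φ v) : ev (γ N) u = ev (γ N) v := by
  have h1 := val_eq N u false [] (by simpa using hu)
  have h2 := val_eq N v false [] (by simpa using hv)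
  rw [h, h2] at h1
  simpa [sg] using h1.symm

theorem ev_rep {A G : Type} [Monoid G] (g : A → G) (a : A) (n : ℕ) :
    ev g (List.replicate n a) = g a ^ n := by
  simp [ev]

theorem not_fin : ¬ HasFinMalcev (Subsemigroup.closure (Set.range φ)) := by
  intro h
  obtain ⟨n, hn⟩ := of_hasFin φ _ rfl h
  have key := hn _ (γ (n + 1 : ℕ)) (fun u v hu hv e => short _ u v (by omega) (by omega) e)
    (Sum.inr (0, true) :: (List.replicate (n + 1) (Sum.inl 3) ++
      (List.replicate (n + 1) (Sum.inl 2) ++ [Sum.inr (1, false)])))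
    (Sum.inr (0, false) :: (List.replicate (n + 1) (Sum.inl 1) ++
      (List.replicate (n + 1) (Sum.inl 0) ++ [Sum.inr (1, true)]))) (by simp) (by simp) (by
      have e : c true * (m 3 ^ (n + 1) * m 2 ^ (n + 1)) * c false =
          c false * (m 1 ^ (n + 1) * m 0 ^ (n + 1)) * c true := by
        refine Prod.ext ?_ ?_
        · simp only [c, m, cl, f1, f2, Prod.fst_mul, Prod.pow_fst]
          simp
          rw [← mul_assoc, ← mul_pow_mul, mul_assoc, ← mul_pow_mul, mul_assoc]
        · simp [c, m, wt0]
      simp only [ev_cons, ev_append, ev_rep, ev_nil, φ, mul_one]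
      simp only [← map_pow, if_true, one_ne_zero, if_false, mul_assoc]
      congr 1
      simp only [← mul_assoc, ← map_mul]
      congr 2
      simpa only [mul_assoc] using e)
  simp only [ev_cons, ev_append, ev_rep, ev_nil, γ, mul_one, ← map_pow] at key
  have h1 : ∀ k : ℕ, (al ^ k) 0 = k := by
    intro k
    induction k with
    | zero => simp
    | succ k ih => rw [pow_succ', Equiv.Perm.mul_apply, ih]; simp [al]
  have h2 : ∀ k : ℕ, (be ((n + 1 : ℕ) : ℤ) ^ k) ((n + 1 : ℕ) : ℤ) = ((n + 1 : ℕ) : ℤ) := by
    intro k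
    apply Equiv.Perm.pow_apply_eq_self_of_apply_eq_self
    simp [be]
  have := congrArg (fun g => g (Sum.inl 0)) key
  have i1 : ∀ g k, io g (Sum.inl k) = Sum.inl (g k) := fun _ _ => rfl
  have i2 : ∀ g k, io g (Sum.inr k) = Sum.inr (g k) := fun _ _ => rfl
  have a0 : d4 ((n + 1 : ℕ) : ℤ) 0 = al := rfl
  have a1 : d4 ((n + 1 : ℕ) : ℤ) 1 = be ((n + 1 : ℕ) : ℤ) := rfl
  have a2 : d4 ((n + 1 : ℕ) : ℤ) 2 = al := rfl
  have a3 : d4 ((n + 1 : ℕ) : ℤ) 3 = be ((n + 1 : ℕ) : ℤ) := rfl
  simp only [sg, Equiv.Perm.mul_apply, a0, a1, a2, a3, if_true, Bool.false_eq_true, if_false,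
    Equiv.Perm.one_apply, Equiv.swap_apply_left, i1, i2, h1, h2] at this
  rw [Equiv.swap_apply_of_ne_of_ne (by simp; omega) (by simp)] at this
  simp at this

end Cex

end H72.Malc
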