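import Mathlib

set_option autoImplicit false

namespace H72.Nil

open MvPolynomial in
/-- polynomials whose exponents are the identity matrix mod 2 are algebraically independent -/
theorem algInd_of_parity (π : Fin 3 → MvPolynomial (Fin 3) ℚ) (h0 : ∀ i, π i ≠ 0)
    (hpar : ∀ i, ∀ e ∈ (π i).support, ∀ j, ((e j : ℕ) : ZMod 2) = if i = j then 1 else 0) :
    AlgebraicIndependent ℚ π := by
  classical
  let m : MonomialOrder (Fin 3) := MonomialOrder.lex
  let δ : Fin 3 → (Fin 3 →₀ ℕ) := fun i => m.degree (π i)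
  let M : Matrix (Fin 3) (Fin 3) ℤ := Matrix.of fun i j => (δ i j : ℤ)
  have hM : M.det ≠ 0 := by
    intro h
    have h1 := congrArg (Int.castRingHom (ZMod 2)) h
    rw [RingHom.map_det, map_zero] at h1
    have h2 : (Int.castRingHom (ZMod 2)).mapMatrix M = 1 := by
      ext i j
      have := hpar i _ (m.degree_mem_support (h0 i)) j
      simp only [RingHom.mapMatrix_apply, Matrix.map_apply, M, Matrix.of_apply, Matrix.one_apply,
        eq_intCast, Int.cast_natCast]
      exact this
    rw [h2, Matrix.det_one] at h1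
    exact one_ne_zero h1
  let dg : (Fin 3 →₀ ℕ) → (Fin 3 →₀ ℕ) := fun α => ∑ i, α i • δ i
  have hinj : Function.Injective dg := by
    intro α β h
    have h1 : Matrix.vecMul (fun i => (α i : ℤ) - β i) M = 0 := by
      funext j
      have := congrArg (fun e : Fin 3 →₀ ℕ => (e j : ℤ)) h
      simp only [dg, Finsupp.coe_finsetSum, Finset.sum_apply, Finsupp.coe_smul, Pi.smul_apply,
        smul_eq_mul, Nat.cast_sum, Nat.cast_mul] at this
      simp only [Matrix.vecMul, dotProduct, M, Matrix.of_apply, sub_mul, Finset.sum_sub_distrib,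
        Pi.zero_apply, this, sub_self]
    have h2 := Matrix.eq_zero_of_vecMul_eq_zero hM h1
    ext j
    have := congrFun h2 j
    simp only [Pi.zero_apply, sub_eq_zero, Nat.cast_inj] at this
    exact this
  have hdeg : ∀ α : Fin 3 →₀ ℕ, m.degree (∏ i, π i ^ α i) = dg α := by
    intro α
    rw [m.degree_prod (fun i _ => pow_ne_zero _ (h0 i))]
    exact Finset.sum_congr rfl fun i _ => m.degree_pow _ _
  have hne : ∀ α : Fin 3 →₀ ℕ, (∏ i, π i ^ α i) ≠ 0 := fun α =>
    Finset.prod_ne_zero_iff.2 fun i _ => pow_ne_zero _ (h0 i)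
  rw [algebraicIndependent_iff]
  intro F hF
  by_contra hF0
  obtain ⟨α, hα, hmax⟩ := Finset.exists_max_image F.support (fun α => m.toSyn (dg α))
    (support_nonempty.2 hF0)
  have h1 : aeval π F = ∑ β ∈ F.support, coeff β F • ∏ i, π i ^ β i := by
    rw [aeval_def, eval₂_eq']
    refine Finset.sum_congr rfl fun β _ => ?_
    rw [Algebra.smul_def]
  have h2 := congrArg (coeff (dg α)) (h1.symm.trans hF)
  rw [coeff_sum, Finset.sum_eq_single α, coeff_smul, coeff_zero, smul_eq_mul, mul_eq_zero] at h2
  · rcases h2 with h2 | h2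
    · exact (mem_support_iff.1 hα) h2
    · rw [← hdeg α] at h2
      exact hne α (m.coeff_degree_eq_zero_iff.1 h2)
  · intro β hβ hne'
    have h3 : coeff (dg α) (∏ i, π i ^ β i) = 0 := by
      refine m.coeff_eq_zero_of_lt ?_
      rw [hdeg]
      exact lt_of_le_of_ne (hmax β hβ) fun h => hne' (hinj (m.toSyn.injective h))
    rw [coeff_smul, h3, smul_zero]
  · intro h; exact absurd hα h

variable {K : Type} [Field K]

abbrev A (K : Type) [Field K] := FreeAlgebra K (Fin 3)

def X (i : Fin 3) : A K := FreeAlgebra.ι K i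

def eps : A K →ₐ[K] K := FreeAlgebra.algebraMapInv

@[simp] theorem eps_X (i : Fin 3) : eps (X i : A K) = 0 := by
  simp [eps, X, FreeAlgebra.algebraMapInv]

noncomputable def phi (x : Fin 3) : A K →ₐ[K] Matrix (Fin 2) (Fin 2) (A K) :=
  FreeAlgebra.lift K fun y => !![0, if x = y then 1 else 0; 0, X y]

theorem phi_X (x y : Fin 3) : phi x (X y : A K) = !![0, if x = y then 1 else 0; 0, X y] :=
  FreeAlgebra.lift_ι_apply _ _

theorem phi_spec (x : Fin 3) (f : A K) :
    phi x f 0 0 = algebraMap K (A K) (eps f) ∧ phi x f 1 0 = 0 ∧ phi x f 1 1 = f := by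
  induction f using FreeAlgebra.induction with
  | grade0 r =>
    rw [AlgHom.commutes, AlgHom.commutes]
    simp [Matrix.algebraMap_matrix_apply]
  | grade1 y =>
    have := phi_X (K := K) x y
    unfold X at this
    rw [this]
    have h2 := eps_X (K := K) y
    unfold X at h2
    simp [h2]
  | mul a b ha hb =>
    simp only [map_mul, Matrix.mul_apply, Fin.sum_univ_two, ha.1, ha.2.1, ha.2.2, hb.1, hb.2.1,
      hb.2.2]
    simp
  | add a b ha hb =>
    simp only [map_add, Matrix.add_apply, ha.1, ha.2.1, ha.2.2, hb.1, hb.2.1, hb.2.2]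
    simp

/-- left derivative -/
noncomputable def d (x : Fin 3) : Module.End K (A K) :=
  Matrix.entryLinearMap K (A K) 0 1 ∘ₗ (phi x).toLinearMap

theorem d_apply (x : Fin 3) (f : A K) : d x f = phi x f 0 1 := rfl

theorem d_mul (x : Fin 3) (f g : A K) : d x (f * g) = d x f * g + eps f • d x g := by
  simp only [d_apply, map_mul, Matrix.mul_apply, Fin.sum_univ_two, (phi_spec x f).1,
    (phi_spec x g).2.2, Algebra.smul_def]
  rw [add_comm]

theorem d_one (x : Fin 3) : d x (1 : A K) = 0 := by
  rw [d_apply, map_one]; simp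

theorem d_X (x y : Fin 3) : d x (X y : A K) = if x = y then 1 else 0 := by
  rw [d_apply, phi_X]; simp

theorem d_X_mul (x y : Fin 3) (f : A K) : d x (X y * f) = if x = y then f else 0 := by
  rw [d_mul, d_X, eps_X, zero_smul, add_zero]
  split_ifs <;> simp

noncomputable def Dq : A K →ₐ[K] Module.End K (A K) := FreeAlgebra.lift K d

theorem Dq_X (x : Fin 3) : Dq (X x : A K) = d x := FreeAlgebra.lift_ι_apply _ _

def wd (l : List (Fin 3)) : A K := (l.map X).prod

@[simp] theorem wd_nil : (wd [] : A K) = 1 := rfl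

theorem wd_cons (x : Fin 3) (l : List (Fin 3)) : (wd (x :: l) : A K) = X x * wd l := by
  simp [wd]

theorem wd_append (l l' : List (Fin 3)) : (wd (l ++ l') : A K) = wd l * wd l' := by
  simp [wd]

theorem wd_concat (l : List (Fin 3)) (x : Fin 3) : (wd (l ++ [x]) : A K) = wd l * X x := by
  simp [wd]

theorem mem_span_wd (f : A K) : f ∈ Submodule.span K (Set.range (wd : List (Fin 3) → A K)) := by
  induction f using FreeAlgebra.induction with
  | grade0 r =>
    rw [Algebra.algebraMap_eq_smul_one]
    exact Submodule.smul_mem _ _ (Submodule.subset_span ⟨[], rfl⟩)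
  | grade1 y => exact Submodule.subset_span ⟨[y], by simp [wd, X]⟩
  | mul a b ha hb =>
    induction ha using Submodule.span_induction with
    | mem a ha =>
      obtain ⟨l, rfl⟩ := ha
      induction hb using Submodule.span_induction with
      | mem b hb =>
        obtain ⟨l', rfl⟩ := hb
        exact Submodule.subset_span ⟨l ++ l', wd_append _ _⟩
      | zero => simp
      | add x y _ _ hx hy => rw [mul_add]; exact Submodule.add_mem _ hx hy
      | smul c x _ hx => rw [mul_smul_comm]; exact Submodule.smul_mem _ _ hx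
    | zero => simp
    | add x y _ _ hx hy => rw [add_mul]; exact Submodule.add_mem _ hx hy
    | smul c x _ hx => rw [smul_mul_assoc]; exact Submodule.smul_mem _ _ hx
  | add a b ha hb => exact Submodule.add_mem _ ha hb

/-- elements all of whose words have length at least `m` -/
noncomputable def Low : ℕ → Submodule K (A K)
  | 0 => ⊤
  | m + 1 => LinearMap.ker eps.toLinearMap ⊓ ⨅ x, (Low m).comap (d x)

theorem mem_Low_succ (m : ℕ) (f : A K) :
    f ∈ Low (m + 1) ↔ eps f = 0 ∧ ∀ x, d x f ∈ Low m := by
  simp [Low, Submodule.mem_iInf]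

theorem Low_succ_le (m : ℕ) : ∀ f : A K, f ∈ Low (m + 1) → f ∈ Low m := by
  induction m with
  | zero => intro f _; trivial
  | succ m ih =>
    intro f hf
    rw [mem_Low_succ] at hf ⊢
    exact ⟨hf.1, fun x => ih _ (hf.2 x)⟩

theorem Low_mul (m : ℕ) : ∀ a f : A K, f ∈ Low m → a * f ∈ Low m := by
  induction m with
  | zero => intro a f _; trivial
  | succ m ih =>
    intro a f hf
    have hf' := Low_succ_le m f hf
    rw [mem_Low_succ] at hf ⊢
    refine ⟨by rw [map_mul, hf.1, mul_zero], fun x => ?_⟩
    rw [d_mul]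
    exact Submodule.add_mem _ (ih _ _ hf') (Submodule.smul_mem _ _ (hf.2 x))

theorem pow_mem_Low (r : A K) (hr : eps r = 0) (m : ℕ) : r ^ m ∈ Low m := by
  induction m with
  | zero => trivial
  | succ m ih =>
    rw [mem_Low_succ, pow_succ']
    refine ⟨by rw [map_mul, hr, zero_mul], fun x => ?_⟩
    rw [d_mul, hr, zero_smul, add_zero]
    exact Low_mul _ _ _ ih

/-- elements all of whose words have length below `m` -/
noncomputable def Up : ℕ → Submodule K (A K)
  | 0 => ⊥
  | m + 1 => ⨅ x, (Up m).comap (d x)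

theorem mem_Up_succ (m : ℕ) (f : A K) : f ∈ Up (m + 1) ↔ ∀ x, d x f ∈ Up m := by
  simp [Up, Submodule.mem_iInf]

theorem Up_le_succ (m : ℕ) : ∀ f : A K, f ∈ Up m → f ∈ Up (m + 1) := by
  induction m with
  | zero =>
    intro f hf
    have : f = 0 := hf
    rw [this]; exact Submodule.zero_mem _
  | succ m ih =>
    intro f hf
    rw [mem_Up_succ] at hf ⊢
    exact fun x => ih _ (hf x)

theorem Up_mono {m n : ℕ} (h : m ≤ n) (f : A K) (hf : f ∈ Up m) : f ∈ Up n := by
  induction h with
  | refl => exact hf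
  | step _ ih => exact Up_le_succ _ _ ih

theorem wd_mem_Up (l : List (Fin 3)) : (wd l : A K) ∈ Up (l.length + 1) := by
  induction l with
  | nil => rw [mem_Up_succ]; intro x; rw [wd_nil, d_one]; exact Submodule.zero_mem _
  | cons y l ih =>
    rw [mem_Up_succ]; intro x
    rw [wd_cons, d_X_mul]
    split_ifs
    · exact ih
    · exact Submodule.zero_mem _

theorem exists_Up (f : A K) : ∃ m, f ∈ Up m := by
  have hf := mem_span_wd f
  induction hf using Submodule.span_induction with
  | mem a ha => obtain ⟨l, rfl⟩ := ha; exact ⟨_, wd_mem_Up l⟩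
  | zero => exact ⟨0, Submodule.zero_mem _⟩
  | add x y _ _ hx hy =>
    obtain ⟨m, hm⟩ := hx
    obtain ⟨n, hn⟩ := hy
    exact ⟨max m n, Submodule.add_mem _ (Up_mono (le_max_left _ _) _ hm)
      (Up_mono (le_max_right _ _) _ hn)⟩
  | smul c x _ hx => obtain ⟨m, hm⟩ := hx; exact ⟨m, Submodule.smul_mem _ _ hm⟩

variable [Algebra ℚ K]

/-- rational homogeneous elements of degree `n` -/
def H (n : ℕ) : Submodule ℚ (A K) := Submodule.span ℚ {f | ∃ l : List (Fin 3), l.length = n ∧ f = wd l}

theorem H_mul {m n : ℕ} {a b : A K} (ha : a ∈ H m) (hb : b ∈ H n) : a * b ∈ H (m + n) := by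
  induction ha using Submodule.span_induction with
  | mem a ha =>
    obtain ⟨l, hl, rfl⟩ := ha
    induction hb using Submodule.span_induction with
    | mem b hb =>
      obtain ⟨l', hl', rfl⟩ := hb
      exact Submodule.subset_span ⟨l ++ l', by simp [hl, hl'], (wd_append _ _).symm⟩
    | zero => simp
    | add x y _ _ hx hy => rw [mul_add]; exact Submodule.add_mem _ hx hy
    | smul c x _ hx => rw [mul_smul_comm]; exact Submodule.smul_mem _ _ hx
  | zero => simp
  | add x y _ _ hx hy => rw [add_mul]; exact Submodule.add_mem _ hx hy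
  | smul c x _ hx => rw [smul_mul_assoc]; exact Submodule.smul_mem _ _ hx

theorem H_pow {m : ℕ} {a : A K} (ha : a ∈ H m) (n : ℕ) : a ^ n ∈ H (m * n) := by
  induction n with
  | zero => exact Submodule.subset_span ⟨[], rfl, by simp⟩
  | succ n ih => rw [pow_succ, Nat.mul_succ]; exact H_mul ih ha

theorem Dq_rat_smul (c : ℚ) (q f : A K) : Dq (c • q) f = c • Dq q f := by
  rw [← algebraMap_smul K c q, map_smul, LinearMap.smul_apply, algebraMap_smul]

theorem d_rat_smul (x : Fin 3) (c : ℚ) (f : A K) : d x (c • f) = c • d x f := by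
  rw [← algebraMap_smul K c f, map_smul, algebraMap_smul]

theorem chain (S : ℕ → Submodule ℚ (A K)) (M : ℕ)
    (h : ∀ m, m < M → ∀ x, ∀ f ∈ S (m + 1), d x f ∈ S m) (n : ℕ) (q : A K) (hq : q ∈ H n) :
    ∀ m, m + n ≤ M → ∀ f ∈ S (m + n), Dq q f ∈ S m := by
  induction hq using Submodule.span_induction with
  | mem q hq =>
    obtain ⟨l, rfl, rfl⟩ := hq
    induction l using List.reverseRecOn with
    | nil => intro m _ f hf; simpa using hf
    | append_singleton l x ih =>
      intro m hm f hf
      rw [List.length_append, List.length_singleton] at hm hf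
      rw [wd_concat, map_mul, Dq_X, Module.End.mul_apply]
      exact ih m (by omega) _ (h (m + l.length) (by omega) x f hf)
  | zero => intro m _ f _; simp
  | add x y _ _ hx hy =>
    intro m hm f hf
    rw [map_add, LinearMap.add_apply]
    exact Submodule.add_mem _ (hx m hm f hf) (hy m hm f hf)
  | smul c x _ hx =>
    intro m hm f hf
    rw [Dq_rat_smul]
    exact Submodule.smul_mem _ _ (hx m hm f hf)

theorem Dq_Up {n : ℕ} {q f : A K} (hq : q ∈ H n) (hf : f ∈ Up n) : Dq q f = 0 := by
  have := chain (K := K) (fun m => (Up m : Submodule K (A K)).restrictScalars ℚ) n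
    (fun m _ x f hf => (mem_Up_succ m f).1 hf x) n q hq 0 (by omega) f (by simpa using hf)
  exact this

theorem Dq_Low {n m : ℕ} {q f : A K} (hq : q ∈ H n) (hf : f ∈ Low (m + n)) : Dq q f ∈ Low m :=
  chain (K := K) (fun m => (Low m : Submodule K (A K)).restrictScalars ℚ) (m + n)
    (fun m _ x f hf => ((mem_Low_succ m f).1 hf).2 x) n q hq m le_rfl f hf

theorem Dq_mul {n : ℕ} {q : A K} (hq : q ∈ H n) (g : A K) :
    ∀ f : A K, f ∈ Low n → Dq q (f * g) = Dq q f * g := by
  induction hq using Submodule.span_induction with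
  | mem q hq =>
    obtain ⟨l, rfl, rfl⟩ := hq
    induction l using List.reverseRecOn with
    | nil => intro f _; simp
    | append_singleton l x ih =>
      intro f hf
      rw [List.length_append, List.length_singleton, mem_Low_succ] at hf
      rw [wd_concat, map_mul Dq, Dq_X, Module.End.mul_apply, Module.End.mul_apply, d_mul, hf.1,
        zero_smul, add_zero]
      exact ih _ (hf.2 x)
  | zero => intro f _; simp
  | add x y _ _ hx hy =>
    intro f hf
    rw [map_add, LinearMap.add_apply, LinearMap.add_apply, hx f hf, hy f hf, add_mul]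
  | smul c x _ hx =>
    intro f hf
    rw [Dq_rat_smul, Dq_rat_smul, hx f hf, smul_mul_assoc]

end H72.Nil
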