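import Mathlib
import Pool.Agent.H72.NilA

set_option autoImplicit false

namespace H72.Nil

variable {K : Type} [Field K] [Algebra ℚ K]

/-- rational elements without constant term -/
def R : Submodule ℚ (A K) :=
  Submodule.span ℚ (Set.range fun p : Fin 3 × List (Fin 3) => (wd (p.1 :: p.2) : A K))

theorem R_mul {a b : A K} (ha : a ∈ R) (hb : b ∈ R) : a * b ∈ R := by
  induction ha using Submodule.span_induction with
  | mem a ha =>
    obtain ⟨p, rfl⟩ := ha
    induction hb using Submodule.span_induction with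
    | mem b hb =>
      obtain ⟨p', rfl⟩ := hb
      exact Submodule.subset_span ⟨(p.1, p.2 ++ (p'.1 :: p'.2)), wd_append (p.1 :: p.2) _⟩
    | zero => simp
    | add x y _ _ hx hy => rw [mul_add]; exact Submodule.add_mem _ hx hy
    | smul c x _ hx => rw [mul_smul_comm]; exact Submodule.smul_mem _ _ hx
  | zero => simp
  | add x y _ _ hx hy => rw [add_mul]; exact Submodule.add_mem _ hx hy
  | smul c x _ hx => rw [smul_mul_assoc]; exact Submodule.smul_mem _ _ hx

theorem R_pow {a : A K} (ha : a ∈ R) (n : ℕ) : a ^ (n + 1) ∈ R := by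
  induction n with
  | zero => simpa using ha
  | succ n ih => rw [pow_succ]; exact R_mul ih ha

def Y (k : ℕ) : Submodule ℚ (A K) :=
  Submodule.span ℚ {f | ∃ l : List (Fin 3), l.length ≤ k ∧ f = wd l}

theorem Y_mono {k k' : ℕ} (h : k ≤ k') : (Y k : Submodule ℚ (A K)) ≤ Y k' :=
  Submodule.span_mono fun _ ⟨l, hl, e⟩ => ⟨l, hl.trans h, e⟩

theorem eps_rat_smul (c : ℚ) (f : A K) : eps (c • f) = algebraMap ℚ K c * eps f := by
  rw [← algebraMap_smul K c f, map_smul, smul_eq_mul]

theorem R_spec {r : A K} (hr : r ∈ R) : eps r = 0 ∧ ∃ k, ∀ x, d x r ∈ Y k := by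
  induction hr using Submodule.span_induction with
  | mem a ha =>
    obtain ⟨p, rfl⟩ := ha
    refine ⟨by simp [wd_cons], p.2.length, fun x => ?_⟩
    simp only [wd_cons, d_X_mul]
    split_ifs
    · exact Submodule.subset_span ⟨p.2, le_rfl, rfl⟩
    · exact Submodule.zero_mem _
  | zero => exact ⟨map_zero _, 0, fun x => by rw [map_zero]; exact Submodule.zero_mem _⟩
  | add a b _ _ ha hb =>
    obtain ⟨h1, k, hk⟩ := ha
    obtain ⟨h2, l, hl⟩ := hb
    refine ⟨by rw [map_add, h1, h2, add_zero], max k l, fun x => ?_⟩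
    rw [map_add]
    exact Submodule.add_mem _ (Y_mono (le_max_left _ _) (hk x)) (Y_mono (le_max_right _ _) (hl x))
  | smul c a _ ha =>
    obtain ⟨h1, k, hk⟩ := ha
    refine ⟨by rw [eps_rat_smul, h1, mul_zero], k, fun x => ?_⟩
    rw [d_rat_smul]
    exact Submodule.smul_mem _ _ (hk x)

theorem R_countable : ∃ e : ℕ → A K, (∀ n, e n ∈ R) ∧ ∀ r ∈ R, ∃ n, e n = r := by
  obtain ⟨f, hf⟩ := exists_surjective_nat ((Fin 3 × List (Fin 3)) →₀ ℚ)
  refine ⟨fun n => Finsupp.linearCombination ℚ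
    (fun p : Fin 3 × List (Fin 3) => (wd (p.1 :: p.2) : A K)) (f n), fun n => ?_, fun r hr => ?_⟩
  · rw [R, ← Finsupp.range_linearCombination]
    exact ⟨_, rfl⟩
  · rw [R, ← Finsupp.range_linearCombination] at hr
    obtain ⟨c, rfl⟩ := hr
    obtain ⟨n, rfl⟩ := hf c
    exact ⟨n, rfl⟩

/-- multiplying an element of `Y k` on the right -/
theorem Y_mul_mem {k : ℕ} {y : A K} (hy : y ∈ Y k) (h : A K) (S : Submodule ℚ (A K))
    (hS : ∀ l : List (Fin 3), l.length ≤ k → wd l * h ∈ S) : y * h ∈ S := by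
  induction hy using Submodule.span_induction with
  | mem a ha => obtain ⟨l, hl, rfl⟩ := ha; exact hS l hl
  | zero => simp
  | add x y _ _ hx hy => rw [add_mul]; exact Submodule.add_mem _ hx hy
  | smul c x _ hx => rw [smul_mul_assoc]; exact Submodule.smul_mem _ _ hx

theorem d_span (x : Fin 3) (s : Set (A K)) (S : Submodule ℚ (A K)) (h : ∀ f ∈ s, d x f ∈ S) :
    ∀ f ∈ Submodule.span ℚ s, d x f ∈ S := by
  intro f hf
  induction hf using Submodule.span_induction with
  | mem a ha => exact h a ha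
  | zero => simp
  | add a b _ _ ha hb => rw [map_add]; exact Submodule.add_mem _ ha hb
  | smul c a _ ha => rw [d_rat_smul]; exact Submodule.smul_mem _ _ ha

def T (r : A K) (k a b : ℕ) : Submodule ℚ (A K) :=
  Submodule.span ℚ {f | ∃ (l : List (Fin 3)) (j : ℕ), l.length ≤ k ∧ a ≤ j ∧ j ≤ b ∧
    f = wd l * r ^ j}

theorem d_T {r : A K} {k : ℕ} (h0 : eps r = 0) (hk : ∀ x, d x r ∈ Y k) (a b : ℕ) (x : Fin 3) :
    ∀ f ∈ T r k (a + 1) b, d x f ∈ T r k a b := by
  refine d_span x _ _ ?_
  rintro _ ⟨l, j, hl, h1, h2, rfl⟩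
  cases l with
  | nil =>
    obtain ⟨j, rfl⟩ : ∃ j', j = j' + 1 := ⟨j - 1, by omega⟩
    rw [wd_nil, one_mul, pow_succ', d_mul, h0, zero_smul, add_zero]
    exact Y_mul_mem (hk x) _ _ fun l hl =>
      Submodule.subset_span ⟨l, j, hl, by omega, by omega, rfl⟩
  | cons y l =>
    rw [wd_cons, mul_assoc, d_X_mul]
    split_ifs
    · exact Submodule.subset_span ⟨l, j, by simp at hl; omega, by omega, h2, rfl⟩
    · exact Submodule.zero_mem _

/-- the largest subspace of the augmentation ideal invariant under the derivatives along `p` -/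
def Z (p : Fin 3 → A K) : Submodule K (A K) where
  carrier := {f | ∀ q ∈ Submonoid.closure (Set.range p), eps (Dq q f) = 0}
  zero_mem' := fun q _ => by simp
  add_mem' := fun {a b} ha hb q hq => by rw [map_add, map_add, ha q hq, hb q hq, add_zero]
  smul_mem' := fun c a ha q hq => by rw [map_smul, map_smul, ha q hq, smul_zero]

omit [Algebra ℚ K] in
theorem Z_intro {p : Fin 3 → A K} {f : A K} (h0 : eps f = 0) (h : ∀ i, Dq (p i) f ∈ Z p) :
    f ∈ Z p := by
  intro q hq
  induction hq using Submonoid.closure_induction_right with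
  | one => simpa using h0
  | mul_right x hx y hy _ =>
    obtain ⟨i, rfl⟩ := hy
    rw [map_mul, Module.End.mul_apply]
    exact h i x hx

omit [Algebra ℚ K] in
theorem Z_adjoin {p : Fin 3 → A K} {f : A K} (hf : f ∈ Z p) (q : A K)
    (hq : q ∈ Algebra.adjoin K (Set.range p)) : eps (Dq q f) = 0 := by
  have hq' : q ∈ Submodule.span K (Submonoid.closure (Set.range p) : Set (A K)) := by
    rw [← Algebra.adjoin_eq_span]; exact hq
  clear hq
  induction hq' using Submodule.span_induction with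
  | mem a ha => exact hf a ha
  | zero => simp
  | add a b _ _ ha hb => rw [map_add, LinearMap.add_apply, map_add, ha, hb, add_zero]
  | smul c a _ ha => rw [map_smul, LinearMap.smul_apply, map_smul, ha, smul_zero]

omit [Algebra ℚ K] in
theorem Z_mono {p p' : Fin 3 → A K} (h : ∀ i, p' i ∈ Algebra.adjoin K (Set.range p))
    {f : A K} (hf : f ∈ Z p) : f ∈ Z p' := by
  intro q hq
  refine Z_adjoin hf q ?_
  have : Submonoid.closure (Set.range p') ≤ (Algebra.adjoin K (Set.range p)).toSubmonoid := by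
    rw [Submonoid.closure_le]
    rintro _ ⟨i, rfl⟩
    exact h i
  exact this hq

theorem kill {r : A K} {k L : ℕ} (h0 : eps r = 0) (hk : ∀ x, d x r ∈ Y k) (hL : 1 ≤ L)
    {p : Fin 3 → A K} (hp : ∀ i, p i ∈ H L)
    (hkill : ∀ i, ∀ l : List (Fin 3), l.length ≤ k → Dq (p i) (wd l * r ^ L) = 0)
    (u g : A K) : u * r ^ (2 * L) * g ∈ Z p := by
  have eps0 : ∀ (a : A K) (j : ℕ), 1 ≤ j → eps (a * r ^ j * g) = 0 := by
    intro a j hj
    rw [map_mul, map_mul, map_pow, h0, zero_pow (by omega), mul_zero, zero_mul]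
  have hG : ∀ (l : List (Fin 3)) (j : ℕ), l.length ≤ k → L ≤ j → wd l * r ^ j * g ∈ Z p := by
    intro l j hl hj
    refine Z_intro (eps0 _ _ (by omega)) fun i => ?_
    obtain ⟨j, rfl⟩ : ∃ j', j = L + j' := ⟨j - L, by omega⟩
    rw [pow_add, ← mul_assoc, mul_assoc _ _ g,
      Dq_mul (hp i) _ _ (Low_mul _ _ _ (pow_mem_Low r h0 L)), hkill i l hl, zero_mul]
    exact Submodule.zero_mem _
  let Q : ℕ → ℕ → Submodule ℚ (A K) := fun n m => Submodule.span ℚ
    ({f | ∃ u : List (Fin 3), u.length < n ∧ f = wd u * r ^ (2 * L) * g} ∪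
      {f | ∃ (l : List (Fin 3)) (j : ℕ), l.length ≤ k ∧ m ≤ j ∧ f = wd l * r ^ j * g})
  have nilcase : ∀ (x : Fin 3) (n m j : ℕ), m + 1 ≤ j → d x (wd [] * r ^ j * g) ∈ Q n m := by
    intro x n m j hj
    obtain ⟨j, rfl⟩ : ∃ j', j = j' + 1 := ⟨j - 1, by omega⟩
    rw [wd_nil, one_mul, pow_succ', mul_assoc, d_mul, h0, zero_smul, add_zero]
    refine Y_mul_mem (hk x) _ _ fun l hl => Submodule.subset_span (Or.inr ⟨l, j, hl, by omega, ?_⟩)
    rw [mul_assoc]
  have hQ : ∀ n m, m + 1 ≤ 2 * L → ∀ x, ∀ f ∈ Q (n + 1) (m + 1), d x f ∈ Q n m := by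
    intro n m hm x
    refine d_span x _ _ ?_
    rintro _ (⟨u, hu, rfl⟩ | ⟨l, j, hl, hj, rfl⟩)
    · cases u with
      | nil => exact nilcase x n m _ hm
      | cons y u =>
        rw [wd_cons, mul_assoc, mul_assoc, d_X_mul]
        split_ifs
        · exact Submodule.subset_span (Or.inl ⟨u, by simp at hu; omega, by rw [mul_assoc]⟩)
        · exact Submodule.zero_mem _
    · cases l with
      | nil => exact nilcase x n m _ hj
      | cons y l =>
        rw [wd_cons, mul_assoc, mul_assoc, d_X_mul]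
        split_ifs
        · exact Submodule.subset_span
            (Or.inr ⟨l, j, by simp at hl; omega, by omega, by rw [mul_assoc]⟩)
        · exact Submodule.zero_mem _
  have hF : ∀ n, ∀ u : List (Fin 3), u.length < n → wd u * r ^ (2 * L) * g ∈ Z p := by
    intro n
    induction n with
    | zero => intro u hu; omega
    | succ n ih =>
      intro u hu
      refine Z_intro (eps0 _ _ (by omega)) fun i => ?_
      have h1 := chain (fun m => Q (n + m) (L + m)) L
        (fun m hm x f hf => hQ (n + m) (L + m) (by omega) x f hf) L (p i) (hp i) 0 (by omega)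
        (wd u * r ^ (2 * L) * g) (Submodule.subset_span (Or.inl ⟨u, by omega, rfl⟩))
      have h2 : Q (n + 0) (L + 0) ≤ (Z p).restrictScalars ℚ := by
        rw [Submodule.span_le]
        rintro _ (⟨u, hu, rfl⟩ | ⟨l, j, hl, hj, rfl⟩)
        · exact ih u hu
        · exact hG l j hl hj
      exact h2 h1
  have hu := mem_span_wd u
  induction hu using Submodule.span_induction with
  | mem a ha => obtain ⟨l, rfl⟩ := ha; exact hF _ l (Nat.lt_succ_self _)
  | zero => simp
  | add a b _ _ ha hb => rw [add_mul, add_mul]; exact Submodule.add_mem _ ha hb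
  | smul c a _ ha => rw [smul_mul_assoc, smul_mul_assoc]; exact Submodule.smul_mem _ _ ha

noncomputable def ev (a : Fin 3 → K) : A K →ₐ[K] K := FreeAlgebra.lift K a

omit [Algebra ℚ K] in
theorem ev_X (a : Fin 3 → K) (i : Fin 3) : ev a (X i) = a i := FreeAlgebra.lift_ι_apply _ _

theorem ev_rat_smul (a : Fin 3 → K) (c : ℚ) (f : A K) : 
    ev a (c • f) = algebraMap ℚ K c * ev a f := by
  rw [← algebraMap_smul K c f, map_smul, smul_eq_mul]

structure St (a : Fin 3 → K) where
  L : ℕ
  p : Fin 3 → A K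
  hL : 1 ≤ L
  hp : ∀ i, p i ∈ H L
  hind : AlgebraicIndependent ℚ fun i => ev a (p i)

noncomputable def ex (N : ℕ) (i : Fin 3) (a b : ℕ) : Fin 3 →₀ ℕ :=
  Finsupp.single i (N - 2 * a - 2 * b) + Finsupp.single (i + 1) (2 * a)
    + Finsupp.single (i + 2) (2 * b)

theorem ex_apply (N : ℕ) (i : Fin 3) (a b : ℕ) :
    ex N i a b i = N - 2 * a - 2 * b ∧ ex N i a b (i + 1) = 2 * a ∧ ex N i a b (i + 2) = 2 * b := by
  fin_cases i <;> simp [ex]

theorem ex_par (n : ℕ) (i : Fin 3) (a b : ℕ) (ha : a < n) (hb : b < n) (j : Fin 3) :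
    ((ex (4 * n + 1) i a b j : ℕ) : ZMod 2) = if i = j then 1 else 0 := by
  have hj : j = i ∨ j = i + 1 ∨ j = i + 2 := by revert i j; decide
  have hi1 : ¬ i = i + 1 := by clear hj; revert i; decide
  have hi2 : ¬ i = i + 2 := by clear hj hi1; revert i; decide
  obtain ⟨h1, h2, h3⟩ := ex_apply (4 * n + 1) i a b
  rcases hj with rfl | rfl | rfl
  · rw [h1, if_pos rfl]
    have : 4 * n + 1 - 2 * a - 2 * b = 2 * (2 * n - a - b) + 1 := by omega
    rw [this]
    push_cast
    have : (2 : ZMod 2) = 0 := rfl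
    rw [this]; simp
  · rw [h2, if_neg hi1]
    push_cast
    have : (2 : ZMod 2) = 0 := rfl
    rw [this]; simp
  · rw [h3, if_neg hi2]
    push_cast
    have : (2 : ZMod 2) = 0 := rfl
    rw [this]; simp

theorem step {a : Fin 3 → K} (S : St a) {r : A K} (hr : r ∈ R) :
    ∃ S' : St a, (∀ i, S'.p i ∈ Algebra.adjoin K (Set.range S.p)) ∧
      ∀ u g : A K, u * r ^ (2 * S'.L) * g ∈ Z S'.p := by
  classical
  obtain ⟨h0, k, hk⟩ := R_spec hr
  let W := {l : List (Fin 3) // l.length ≤ k}
  have : Finite W := List.finite_length_le (Fin 3) k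
  let _ : Fintype W := Fintype.ofFinite W
  let c := Fintype.card W
  let n := c * c * (5 * S.L + 1) + 1
  let N := 4 * n + 1
  let L' := S.L * N
  let T0 : Submodule ℚ (A K) := Submodule.span ℚ
    (Set.range fun q : W × Fin (L' + 1) => (wd q.1.1 : A K) * r ^ (q.2 : ℕ))
  have : Module.Finite ℚ T0 := Module.Finite.span_of_finite ℚ (Set.finite_range _)
  have hT0 : Module.finrank ℚ T0 ≤ c * (L' + 1) := by
    have := finrank_range_le_card (R := ℚ)
      fun q : W × Fin (L' + 1) => (wd q.1.1 : A K) * r ^ (q.2 : ℕ)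
    simpa [Set.finrank] using this
  have hTle : T r k 0 L' ≤ T0 := by
    refine Submodule.span_mono ?_
    rintro _ ⟨l, j, hl, _, hj, rfl⟩
    exact ⟨(⟨l, hl⟩, ⟨j, by omega⟩), rfl⟩
  have hDT : ∀ q ∈ H L', ∀ y : W, Dq q (wd y.1 * r ^ L') ∈ T0 := by
    intro q hq y
    refine hTle (chain (fun m => T r k m L') L' (fun m _ x f hf => d_T h0 hk m L' x f hf) L' q hq 0
      (by omega) _ (Submodule.subset_span ⟨y.1, L', y.2, by omega, le_rfl, rfl⟩))
  let mon : Fin 3 → Fin n × Fin n → A K := fun i q =>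
    S.p i ^ (N - 2 * q.1 - 2 * q.2) * S.p (i + 1) ^ (2 * (q.1 : ℕ)) * S.p (i + 2) ^ (2 * (q.2 : ℕ))
  have hmon : ∀ i q, mon i q ∈ H L' := by
    intro i q
    have h1 := H_mul (H_mul (H_pow (S.hp i) (N - 2 * q.1 - 2 * q.2))
      (H_pow (S.hp (i + 1)) (2 * (q.1 : ℕ)))) (H_pow (S.hp (i + 2)) (2 * (q.2 : ℕ)))
    have h2 : S.L * (N - 2 * q.1 - 2 * q.2) + S.L * (2 * (q.1 : ℕ)) + S.L * (2 * (q.2 : ℕ)) = L' := by
      rw [← Nat.mul_add, ← Nat.mul_add]
      have := q.1.2
      have := q.2.2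
      congr 1
      omega
    rwa [h2] at h1
  have hex : ∀ i, ∃ g : Fin n × Fin n → ℚ, (∃ q, g q ≠ 0) ∧
      ∀ y : W, Dq (∑ q, g q • mon i q) (wd y.1 * r ^ L') = 0 := by
    intro i
    let v : Fin n × Fin n → (W → T0) := fun q y => ⟨_, hDT _ (hmon i q) y⟩
    have hv : ¬ LinearIndependent ℚ v := by
      intro h
      have h1 := h.fintype_card_le_finrank
      rw [Module.finrank_pi_fintype, Finset.sum_const, Fintype.card_prod, Fintype.card_fin,
        smul_eq_mul, Finset.card_univ] at h1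
      have h2 : c * Module.finrank ℚ T0 ≤ c * (c * (L' + 1)) := Nat.mul_le_mul_left _ hT0
      have h3 : n * n ≤ c * (c * (S.L * (4 * n + 1) + 1)) := h1.trans h2
      have h4 : n = c * c * (5 * S.L + 1) + 1 := rfl
      have h5 : 1 ≤ n := by omega
      have h6 : S.L * (4 * n + 1) + 1 ≤ (5 * S.L + 1) * n := by nlinarith
      have h7 : c * (c * (S.L * (4 * n + 1) + 1)) ≤ c * (c * ((5 * S.L + 1) * n)) :=
        Nat.mul_le_mul_left _ (Nat.mul_le_mul_left _ h6)
      have h8 : n * n = c * (c * ((5 * S.L + 1) * n)) + n := by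
        conv_lhs => rw [h4]
        rw [← h4]
        nth_rewrite 1 [h4]
        ring
      omega
    obtain ⟨g, hg, hg0⟩ := Fintype.not_linearIndependent_iff.1 hv
    refine ⟨g, hg0, fun y => ?_⟩
    have h1 := congrArg (fun w : W → T0 => ((w y : T0) : A K)) hg
    simp only [Finset.sum_apply, Pi.smul_apply, Submodule.coe_sum, Submodule.coe_smul,
      Pi.zero_apply, Submodule.coe_zero, v] at h1
    rw [map_sum, LinearMap.sum_apply]
    simp only [Dq_rat_smul]
    exact h1
  choose g hg0 hg using hex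
  let p' : Fin 3 → A K := fun i => ∑ q, g i q • mon i q
  have hp' : ∀ i, p' i ∈ H L' := fun i =>
    Submodule.sum_mem _ fun q _ => Submodule.smul_mem _ _ (hmon i q)
  let π : Fin 3 → MvPolynomial (Fin 3) ℚ := fun i =>
    ∑ q : Fin n × Fin n, MvPolynomial.monomial (ex N i q.1 q.2) (g i q)
  have hexinj : ∀ i (q q' : Fin n × Fin n), ex N i q.1 q.2 = ex N i q'.1 q'.2 → q = q' := by
    intro i q q' h
    obtain ⟨_, h2, h3⟩ := ex_apply N i q.1 q.2
    obtain ⟨_, h2', h3'⟩ := ex_apply N i q'.1 q'.2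
    rw [h] at h2 h3
    ext
    · omega
    · omega
  have hπ0 : ∀ i, π i ≠ 0 := by
    intro i h
    obtain ⟨q, hq⟩ := hg0 i
    have h1 := congrArg (MvPolynomial.coeff (ex N i q.1 q.2)) h
    rw [MvPolynomial.coeff_sum, Finset.sum_eq_single q] at h1
    · simp at h1
      exact hq h1
    · intro q' _ hq'
      rw [MvPolynomial.coeff_monomial, if_neg fun h => hq' (hexinj i _ _ h)]
    · simp
  have hπ : AlgebraicIndependent ℚ π := by
    refine algInd_of_parity π hπ0 fun i e he j => ?_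
    obtain ⟨q, hq⟩ : ∃ q : Fin n × Fin n, ex N i q.1 q.2 = e := by
      by_contra hne
      push Not at hne
      apply MvPolynomial.mem_support_iff.1 he
      rw [MvPolynomial.coeff_sum]
      exact Finset.sum_eq_zero fun q _ => by rw [MvPolynomial.coeff_monomial, if_neg (hne q)]
    rw [← hq]
    exact ex_par n i _ _ q.1.2 q.2.2 j
  have hev : ∀ i, ev a (p' i) = MvPolynomial.aeval (fun i => ev a (S.p i)) (π i) := by
    intro i
    simp only [p', π, map_sum, ev_rat_smul]
    refine Finset.sum_congr rfl fun q _ => ?_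
    rw [MvPolynomial.aeval_monomial]
    congr 1
    simp only [mon, map_mul, map_pow, ex]
    rw [Finsupp.prod_add_index', Finsupp.prod_add_index']
    · rw [Finsupp.prod_single_index, Finsupp.prod_single_index, Finsupp.prod_single_index]
      all_goals exact pow_zero _
    all_goals (intros; simp [pow_add])
  have hL' : 1 ≤ L' := Nat.mul_pos S.hL (by omega)
  refine ⟨⟨L', p', hL', hp', ?_⟩, fun i => ?_, fun u g' => ?_⟩
  · simp only [hev]
    exact S.hind.aeval_of_algebraicIndependent hπ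
  · have hm : ∀ j, S.p j ∈ Algebra.adjoin K (Set.range S.p) := fun j =>
      Algebra.subset_adjoin ⟨j, rfl⟩
    refine Subalgebra.sum_mem _ fun q _ => ?_
    rw [← algebraMap_smul K (g i q)]
    exact Subalgebra.smul_mem _ (mul_mem (mul_mem (pow_mem (hm _) _) (pow_mem (hm _) _))
      (pow_mem (hm _) _)) _
  · exact kill h0 hk hL' hp' (fun i l hl => hg i ⟨l, hl⟩) u g'


noncomputable def tt (a : Fin 3 → K) : A K := ∑ i, a i • X i

omit [Algebra ℚ K] in
theorem eps_tt (a : Fin 3 → K) : eps (tt a) = 0 := by simp [tt]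

omit [Algebra ℚ K] in
theorem d_tt_pow (a : Fin 3 → K) (x : Fin 3) (n : ℕ) : d x (tt a ^ (n + 1)) = a x • tt a ^ n := by
  rw [pow_succ', d_mul, eps_tt, zero_smul, add_zero]
  have : d x (tt a) = a x • 1 := by
    simp only [tt, map_sum, map_smul, d_X]
    rw [Finset.sum_eq_single x]
    · simp
    · intro b _ hb; rw [if_neg hb.symm, smul_zero]
    · simp
  rw [this, smul_mul_assoc, one_mul]

omit [Algebra ℚ K] in
theorem tt_pow_Up (a : Fin 3 → K) (n : ℕ) : tt a ^ n ∈ Up (n + 1) := by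
  induction n with
  | zero => rw [mem_Up_succ]; intro x; rw [pow_zero, d_one]; exact Submodule.zero_mem _
  | succ n ih => rw [mem_Up_succ]; intro x; rw [d_tt_pow]; exact Submodule.smul_mem _ _ ih

theorem Dq_tt (a : Fin 3 → K) {n : ℕ} {q : A K} (hq : q ∈ H n) :
    Dq q (tt a ^ n) = ev a q • 1 := by
  induction hq using Submodule.span_induction with
  | mem q hq =>
    obtain ⟨l, rfl, rfl⟩ := hq
    induction l using List.reverseRecOn with
    | nil => simp
    | append_singleton l x ih =>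
      rw [List.length_append, List.length_singleton, wd_concat, map_mul Dq, Dq_X,
        Module.End.mul_apply, d_tt_pow, map_smul, ih, map_mul, ev_X, smul_smul, mul_comm]
  | zero => simp
  | add x y _ _ hx hy => rw [map_add, LinearMap.add_apply, hx, hy, map_add, add_smul]
  | smul c x _ hx =>
    rw [Dq_rat_smul, hx, ev_rat_smul, mul_smul, algebraMap_smul]

theorem proper {a : Fin 3 → K} (S : St a) (j b : A K) (hj : ∀ g, j * g ∈ Z S.p)
    (h : j + b * (1 - tt a) = 1) : False := by
  obtain ⟨m, hm⟩ := exists_Up b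
  let n := S.L * m
  have hmn : m ≤ n := Nat.le_mul_of_pos_left _ S.hL
  have hq : S.p 0 ^ m ∈ H n := H_pow (S.hp 0) m
  have h1 := hj (∑ k ∈ Finset.range (n + 1), tt a ^ k) (S.p 0 ^ m)
    (pow_mem (Submonoid.subset_closure (Set.mem_range_self 0)) _)
  have h2 : j * (∑ k ∈ Finset.range (n + 1), tt a ^ k)
      = (∑ k ∈ Finset.range (n + 1), tt a ^ k) - b + b * tt a ^ (n + 1) := by
    have : j = 1 - b * (1 - tt a) := eq_sub_of_add_eq h
    rw [this, sub_mul, one_mul, mul_assoc, mul_neg_geom_sum, mul_sub, mul_one]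
    abel
  have h3 : eps (Dq (S.p 0 ^ m) (b * tt a ^ (n + 1))) = 0 := by
    have := Dq_Low (m := 1) hq (f := b * tt a ^ (n + 1))
      (by rw [add_comm 1 n]; exact Low_mul _ _ _ (pow_mem_Low _ (eps_tt a) _))
    exact ((mem_Low_succ 0 _).1 this).1
  rw [h2, map_add, map_sub, map_add, map_sub, h3, Dq_Up hq (Up_mono hmn _ hm), map_zero,
    Finset.sum_range_succ, map_add, Dq_tt a hq, map_sum,
    Finset.sum_eq_zero (fun k hk => Dq_Up hq (Up_mono (Finset.mem_range.1 hk) _ (tt_pow_Up a k)))]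
    at h1
  simp only [zero_add, map_smul, map_one, smul_eq_mul, mul_one, sub_zero, add_zero, map_pow] at h1
  exact S.hind.linearIndependent.ne_zero 0 (eq_zero_of_pow_eq_zero h1)


theorem exists_ideal {a : Fin 3 → K} (ha : AlgebraicIndependent ℚ a) :
    ∃ M : Ideal (A K), M.IsMaximal ∧ 1 - tt a ∈ M ∧ ∀ r ∈ R, ∃ n : ℕ, ∀ g, r ^ n * g ∈ M := by
  obtain ⟨e, he, he'⟩ := R_countable (K := K)
  choose nx hnx1 hnx2 using fun (S : St a) (n : ℕ) => step S (he n)
  let S0 : St a := ⟨1, X, le_rfl, fun i => Submodule.subset_span ⟨[i], rfl, by simp [wd]⟩,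
    by simpa only [ev_X] using ha⟩
  let S : ℕ → St a := fun n => Nat.rec S0 (fun n S => nx S n) n
  have hmono : ∀ m n, m ≤ n → ∀ f, f ∈ Z (S m).p → f ∈ Z (S n).p := by
    intro m n h f hf
    induction h with
    | refl => exact hf
    | step _ ih => exact Z_mono (hnx1 _ _) ih
  let J : Ideal (A K) :=
    { carrier := {f | ∃ s, ∀ u g, u * f * g ∈ Z (S s).p}
      zero_mem' := ⟨0, fun u g => by simp⟩
      add_mem' := by
        rintro x y ⟨s, hs⟩ ⟨s', hs'⟩
        refine ⟨max s s', fun u g => ?_⟩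
        rw [mul_add, add_mul]
        exact Submodule.add_mem _ (hmono _ _ (le_max_left _ _) _ (hs u g))
          (hmono _ _ (le_max_right _ _) _ (hs' u g))
      smul_mem' := by
        rintro c x ⟨s, hs⟩
        refine ⟨s, fun u g => ?_⟩
        rw [smul_eq_mul, ← mul_assoc]
        exact hs _ _ }
  have hne : J ⊔ Ideal.span {1 - tt a} ≠ ⊤ := by
    intro h
    rw [Ideal.eq_top_iff_one, Submodule.mem_sup] at h
    obtain ⟨j, ⟨s, hs⟩, y, hy, h⟩ := h
    obtain ⟨b, rfl⟩ := Submodule.mem_span_singleton.1 hy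
    exact proper (S s) j b (fun g => by simpa using hs 1 g) h
  obtain ⟨M, hM, hle⟩ := Ideal.exists_le_maximal _ hne
  refine ⟨M, hM, hle (Submodule.mem_sup_right (Submodule.subset_span rfl)), fun r hr => ?_⟩
  obtain ⟨n, rfl⟩ := he' r hr
  refine ⟨2 * (S (n + 1)).L, fun g => hle (Submodule.mem_sup_left ⟨n + 1, fun u g' => ?_⟩)⟩
  rw [← mul_assoc, mul_assoc _ g]
  exact hnx2 (S n) n u _

theorem main {a : Fin 3 → K} (ha : AlgebraicIndependent ℚ a) :
    ∃ (G : Type) (_ : Group G) (V : Type) (_ : AddCommGroup V) (_ : Module K V)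
      (ρ : Representation K G V), Nontrivial V ∧
      (∀ W : Submodule K V, (∀ g : G, ∀ v ∈ W, ρ g v ∈ W) → W = ⊥ ∨ W = ⊤) ∧
      (∀ g : G, ∀ v : V, ∃ n : ℕ, ((ρ g - 1) ^ n) v = 0) ∧ ¬ ∀ g : G, ρ g = 1 := by
  obtain ⟨M, hM, ht, hnil⟩ := exists_ideal ha
  have hs : IsSimpleModule (A K) (A K ⧸ M) :=
    isSimpleModule_iff_isCoatom.2 (Ideal.isMaximal_def.1 hM)
  let L : A K →ₐ[K] Module.End K (A K ⧸ M) := Algebra.lsmul K K (A K ⧸ M)
  have hL : ∀ (f : A K) (v : A K ⧸ M), L f v = f • v := fun _ _ => rfl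
  have hLn : ∀ r ∈ R, ∃ n : ℕ, L r ^ n = 0 := by
    intro r hr
    obtain ⟨n, hn⟩ := hnil r hr
    refine ⟨n, LinearMap.ext fun v => ?_⟩
    obtain ⟨g, rfl⟩ := Submodule.Quotient.mk_surjective M v
    rw [← map_pow, hL, ← Submodule.Quotient.mk_smul, LinearMap.zero_apply,
      Submodule.Quotient.mk_eq_zero]
    exact hn g
  let G : Subgroup (Module.End K (A K ⧸ M))ˣ :=
    { carrier := {g | ∃ r ∈ R, (g : Module.End K (A K ⧸ M)) = 1 + L r}
      one_mem' := ⟨0, Submodule.zero_mem _, by simp⟩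
      mul_mem' := by
        rintro x y ⟨r, hr, hx⟩ ⟨s, hs, hy⟩
        refine ⟨r + s + r * s, Submodule.add_mem _ (Submodule.add_mem _ hr hs) (R_mul hr hs), ?_⟩
        rw [Units.val_mul, hx, hy, map_add, map_add, map_mul]
        noncomm_ring
      inv_mem' := by
        rintro x ⟨r, hr, hx⟩
        obtain ⟨n, hn⟩ := hLn (-r) (Submodule.neg_mem _ hr)
        refine ⟨∑ i ∈ Finset.range n, (-r) ^ (i + 1),
          Submodule.sum_mem _ fun i _ => R_pow (Submodule.neg_mem _ hr) i, ?_⟩
        have h1 := mul_neg_geom_sum (L (-r)) (n + 1)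
        rw [pow_succ, hn, zero_mul, sub_zero, Finset.sum_range_succ', pow_zero, map_neg,
          sub_neg_eq_add, ← hx] at h1
        rw [Units.inv_eq_of_mul_eq_one_right h1, add_comm, map_sum]
        simp only [map_pow, map_neg] }
  have hX : ∀ i, X i ∈ (R : Submodule ℚ (A K)) := fun i =>
    Submodule.subset_span ⟨(i, []), by simp [wd]⟩
  have hgen : ∀ i, ∃ g : G, (g.1 : Module.End K (A K ⧸ M)) = 1 + L (X i) := by
    intro i
    obtain ⟨u, hu⟩ := IsNilpotent.isUnit_one_add (hLn _ (hX i))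
    exact ⟨⟨u, X i, hX i, hu⟩, hu⟩
  let ρ : Representation K G (A K ⧸ M) := (Units.coeHom _).comp G.subtype
  have hρ : ∀ g : G, ρ g = (g.1 : Module.End K (A K ⧸ M)) := fun _ => rfl
  refine ⟨G, inferInstance, A K ⧸ M, inferInstance, inferInstance, ρ,
    IsSimpleModule.nontrivial (A K) _, fun W hW => ?_, fun g v => ?_, fun h => ?_⟩
  · have h1 : ∀ f : A K, ∀ v ∈ W, f • v ∈ W := by
      intro f
      induction f using FreeAlgebra.induction with
      | grade0 r => intro v hv; rw [algebraMap_smul]; exact W.smul_mem _ hv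
      | grade1 i =>
        intro v hv
        obtain ⟨g, hg⟩ := hgen i
        have h2 := hW g v hv
        rw [hρ, hg, LinearMap.add_apply, Module.End.one_apply, hL] at h2
        exact (W.add_mem_iff_right hv).1 h2
      | mul x y hx hy => intro v hv; rw [mul_smul]; exact hx _ (hy _ hv)
      | add x y hx hy => intro v hv; rw [add_smul]; exact W.add_mem (hx _ hv) (hy _ hv)
    let W' : Submodule (A K) (A K ⧸ M) :=
      { carrier := W
        zero_mem' := W.zero_mem
        add_mem' := W.add_mem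
        smul_mem' := fun f v hv => h1 f v hv }
    rcases eq_bot_or_eq_top W' with h | h
    · left
      rw [eq_bot_iff]
      intro v hv
      have : v ∈ W' := hv
      rw [h] at this
      exact this
    · right
      rw [eq_top_iff]
      intro v _
      have : v ∈ W' := by rw [h]; trivial
      exact this
  · obtain ⟨r, hr, hg⟩ := g.2
    obtain ⟨n, hn⟩ := hLn r hr
    refine ⟨n, ?_⟩
    rw [hρ, hg, add_sub_cancel_left, hn, LinearMap.zero_apply]
  · have h1 : ∀ i, L (X i) = 0 := by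
      intro i
      obtain ⟨g, hg⟩ := hgen i
      have := h g
      rw [hρ, hg] at this
      simpa using this
    have h2 : L (tt a) = 0 := by
      simp only [tt, map_sum, map_smul, h1]
      exact Finset.sum_eq_zero fun i _ => LinearMap.ext fun v => by
        rw [LinearMap.smul_apply, LinearMap.zero_apply, smul_zero]
    have h3 : (Submodule.Quotient.mk (tt a) : A K ⧸ M) = 0 := by
      have := hL (tt a) (Submodule.Quotient.mk 1)
      rw [h2, ← Submodule.Quotient.mk_smul, smul_eq_mul, mul_one] at this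
      exact this.symm
    rw [Submodule.Quotient.mk_eq_zero] at h3
    apply hM.ne_top
    rw [Ideal.eq_top_iff_one]
    simpa using M.add_mem ht h3

end H72.Nil
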