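import Mathlib

set_option autoImplicit false
set_option linter.unusedVariables false
set_option linter.unusedSimpArgs false
set_option linter.unnecessarySeqFocus false
set_option linter.unusedTactic false
set_option linter.unreachableTactic false

namespace Pool.Agent.H72.Pm

variable {k : Type} [Field k] {A : Type} [Ring A] [Algebra k A]

/-- The six relations. -/
structure Rels (i c : k) (x : Fin 4 → A) : Prop where
  r0 : x 0 * x 3 + i • (x 3 * x 0) = 0
  r1 : x 1 * x 3 - i • (x 3 * x 1) = 0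
  r2 : x 3 * x 3 + x 0 * x 1 - x 1 * x 0 = 0
  r3 : x 2 * x 2 - x 1 * x 1 = 0
  r4 : x 0 * x 2 + x 2 * x 0 - (2 : k) • (x 1 * x 1) = 0
  r5 : x 1 * x 2 + x 2 * x 1 - (2 * c) • (x 0 * x 0) - (2 * (1 - c)) • (x 1 * x 1) = 0

def D1 (i c : k) (x : Fin 4 → A) : Matrix (Fin 4) (Fin 1) A :=
  !![(1 : k) • x 0;
    (1 : k) • x 1;
    (1 : k) • x 2;
    (1 : k) • x 3]

def D2 (i c : k) (x : Fin 4 → A) : Matrix (Fin 6) (Fin 4) A :=
  !![(i : k) • x 3, 0, 0, (1 : k) • x 0;
    0, (-i : k) • x 3, 0, (1 : k) • x 1;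
    (-1 : k) • x 1, (1 : k) • x 0, 0, (1 : k) • x 3;
    0, (-1 : k) • x 1, (1 : k) • x 2, 0;
    (1 : k) • x 2, (-2 : k) • x 1, (1 : k) • x 0, 0;
    (-2*c : k) • x 0, (-2 + 2*c : k) • x 1 + (1 : k) • x 2, (1 : k) • x 1, 0]

def D3 (i c : k) (x : Fin 4 → A) : Matrix (Fin 4) (Fin 6) A :=
  !![0, (2*c*i : k) • x 3, (-2*c : k) • x 1, (-2*c : k) • x 0 + (4*c : k) • x 2, (-2*c : k) • x 2, 0;
    (2*c*i : k) • x 3, 0, (2*c : k) • x 0, (1 : k) • x 2, 0, (-1 : k) • x 1;
    0, 0, 0, (4*c : k) • x 0 + (1 : k) • x 1 + (-2 - 6*c : k) • x 2, (-2*c : k) • x 0 + (4*c : k) • x 2, (1 : k) • x 2;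
    (2*c : k) • x 1, (-2*c : k) • x 0, (-2*c : k) • x 3, 0, 0, 0]

def D4 (i c : k) (x : Fin 4 → A) : Matrix (Fin 1) (Fin 4) A :=
  !![(1 : k) • x 0, (1 : k) • x 1, (1 : k) • x 2, (1 : k) • x 3]

def H00 (i c e : k) (x : Fin 4 → A) : Matrix (Fin 1) (Fin 4) A :=
  !![(1 : k) • x 1, (1 : k) • x 0, 0, 0]

def H01 (i c e : k) (x : Fin 4 → A) : Matrix (Fin 4) (Fin 6) A :=
  !![(-i : k) • x 3, 0, (-1 : k) • x 0, 0, 0, 0;
    0, (-i : k) • x 3, (1 : k) • x 1, 0, 0, 0;
    0, (-2*i + 2*c*i : k) • x 3, (2 - 2*c : k) • x 1, 0, (1 : k) • x 1, (1 : k) • x 0;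
    (1 : k) • x 1, (1 : k) • x 0, 0, 0, 0, 0]

def H02 (i c e : k) (x : Fin 4 → A) : Matrix (Fin 6) (Fin 4) A :=
  !![0, 0, 0, (e : k) • x 0;
    0, 0, 0, (-e : k) • x 1;
    0, 0, 0, 0;
    (-e : k) • x 1 + (-1 + 2*e : k) • x 2, 0, (1 : k) • x 0 + (-2 : k) • x 2, 0;
    (-1 + 2*e : k) • x 0 + (-2*e : k) • x 1, (e : k) • x 2, (-e : k) • x 1 + (-1 + 2*e : k) • x 2, 0;
    (e : k) • x 2, (-1 : k) • x 0, 0, 0]

def H03 (i c e : k) (x : Fin 4 → A) : Matrix (Fin 4) (Fin 1) A :=
  !![(1 : k) • x 1;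
    (1 : k) • x 0;
    0;
    0]

def H10 (i c e : k) (x : Fin 4 → A) : Matrix (Fin 1) (Fin 4) A :=
  !![(1 : k) • x 0, 0, 0, 0]

def H11 (i c e : k) (x : Fin 4 → A) : Matrix (Fin 4) (Fin 6) A :=
  !![0, 0, 0, 0, 0, 0;
    (i : k) • x 3, 0, (1 : k) • x 0, 0, 0, 0;
    0, (-2*i : k) • x 3, (2 : k) • x 1, 0, (1 : k) • x 0, 0;
    (-1 : k) • x 0, 0, 0, 0, 0, 0]

def H12 (i c e : k) (x : Fin 4 → A) : Matrix (Fin 6) (Fin 4) A :=
  !![0, 0, 0, 0;
    0, 0, 0, (e : k) • x 0;
    0, 0, 0, 0;
    (2*e : k) • x 2, (e : k) • x 1, (e : k) • x 2, 0;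
    (2*e : k) • x 0, (2*e : k) • x 1, (2*e : k) • x 2, 0;
    (2*e : k) • x 1, (-1 + 2*e : k) • x 1 + (-e : k) • x 2, (e : k) • x 1, 0]

def H13 (i c e : k) (x : Fin 4 → A) : Matrix (Fin 4) (Fin 1) A :=
  !![(1 : k) • x 0;
    0;
    0;
    0]

def H20 (i c e : k) (x : Fin 4 → A) : Matrix (Fin 1) (Fin 4) A :=
  !![0, (1 : k) • x 1, 0, 0]

def H21 (i c e : k) (x : Fin 4 → A) : Matrix (Fin 4) (Fin 6) A :=
  !![0, (i : k) • x 3, (-1 : k) • x 1, 0, 0, 0;
    0, 0, 0, 0, 0, 0;
    0, 0, 0, (1 : k) • x 2, 0, 0;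
    0, (-1 : k) • x 1, 0, 0, 0, 0]

def H22 (i c e : k) (x : Fin 4 → A) : Matrix (Fin 6) (Fin 4) A :=
  !![0, 0, 0, (-e : k) • x 1;
    0, 0, 0, 0;
    0, 0, 0, 0;
    0, 0, 0, 0;
    (-e : k) • x 2, 0, 0, 0;
    (1 : k) • x 0, 0, (1 : k) • x 2, 0]

def H23 (i c e : k) (x : Fin 4 → A) : Matrix (Fin 4) (Fin 1) A :=
  !![0;
    (1 : k) • x 1;
    0;
    0]

def T00 (x : Fin 4 → A) : Matrix (Fin 1) (Fin 1) A :=
  !![x 0 * x 1 + x 1 * x 0]

def T01 (x : Fin 4 → A) : Matrix (Fin 4) (Fin 4) A :=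
  !![x 0 * x 1 + x 1 * x 0, 0, 0, 0;
    0, x 0 * x 1 + x 1 * x 0, 0, 0;
    0, 0, x 0 * x 1 + x 1 * x 0, 0;
    0, 0, 0, x 0 * x 1 + x 1 * x 0]

def T02 (x : Fin 4 → A) : Matrix (Fin 6) (Fin 6) A :=
  !![x 0 * x 1 + x 1 * x 0, 0, 0, 0, 0, 0;
    0, x 0 * x 1 + x 1 * x 0, 0, 0, 0, 0;
    0, 0, x 0 * x 1 + x 1 * x 0, 0, 0, 0;
    0, 0, 0, x 0 * x 1 + x 1 * x 0, 0, 0;
    0, 0, 0, 0, x 0 * x 1 + x 1 * x 0, 0;
    0, 0, 0, 0, 0, x 0 * x 1 + x 1 * x 0]

def T03 (x : Fin 4 → A) : Matrix (Fin 4) (Fin 4) A :=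
  !![x 0 * x 1 + x 1 * x 0, 0, 0, 0;
    0, x 0 * x 1 + x 1 * x 0, 0, 0;
    0, 0, x 0 * x 1 + x 1 * x 0, 0;
    0, 0, 0, x 0 * x 1 + x 1 * x 0]

def T04 (x : Fin 4 → A) : Matrix (Fin 1) (Fin 1) A :=
  !![x 0 * x 1 + x 1 * x 0]

def T10 (x : Fin 4 → A) : Matrix (Fin 1) (Fin 1) A :=
  !![x 0 * x 0]

def T11 (x : Fin 4 → A) : Matrix (Fin 4) (Fin 4) A :=
  !![x 0 * x 0, 0, 0, 0;
    0, x 0 * x 0, 0, 0;
    0, 0, x 0 * x 0, 0;
    0, 0, 0, -(x 0 * x 0)]

def T12 (x : Fin 4 → A) : Matrix (Fin 6) (Fin 6) A :=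
  !![-(x 0 * x 0), 0, 0, 0, 0, 0;
    0, -(x 0 * x 0), 0, 0, 0, 0;
    0, 0, x 0 * x 0, 0, 0, 0;
    0, 0, 0, x 0 * x 0, 0, 0;
    0, 0, 0, 0, x 0 * x 0, 0;
    0, 0, 0, 0, 0, x 0 * x 0]

def T13 (x : Fin 4 → A) : Matrix (Fin 4) (Fin 4) A :=
  !![x 0 * x 0, 0, 0, 0;
    0, x 0 * x 0, 0, 0;
    0, 0, x 0 * x 0, 0;
    0, 0, 0, -(x 0 * x 0)]

def T14 (x : Fin 4 → A) : Matrix (Fin 1) (Fin 1) A :=
  !![x 0 * x 0]

def T20 (x : Fin 4 → A) : Matrix (Fin 1) (Fin 1) A :=
  !![x 1 * x 1]

def T21 (x : Fin 4 → A) : Matrix (Fin 4) (Fin 4) A :=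
  !![x 1 * x 1, 0, 0, 0;
    0, x 1 * x 1, 0, 0;
    0, 0, x 1 * x 1, 0;
    0, 0, 0, -(x 1 * x 1)]

def T22 (x : Fin 4 → A) : Matrix (Fin 6) (Fin 6) A :=
  !![-(x 1 * x 1), 0, 0, 0, 0, 0;
    0, -(x 1 * x 1), 0, 0, 0, 0;
    0, 0, x 1 * x 1, 0, 0, 0;
    0, 0, 0, x 1 * x 1, 0, 0;
    0, 0, 0, 0, x 1 * x 1, 0;
    0, 0, 0, 0, 0, x 1 * x 1]

def T23 (x : Fin 4 → A) : Matrix (Fin 4) (Fin 4) A :=
  !![x 1 * x 1, 0, 0, 0;
    0, x 1 * x 1, 0, 0;
    0, 0, x 1 * x 1, 0;
    0, 0, 0, -(x 1 * x 1)]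

def T24 (x : Fin 4 → A) : Matrix (Fin 1) (Fin 1) A :=
  !![x 1 * x 1]

variable {i c e : k} {x : Fin 4 → A}

theorem DD1 (h : Rels i c x) (hi : i ^ 2 = -1) : D2 i c x * D1 i c x = 0 := by
  ext a b
  fin_cases a <;> fin_cases b
  · simp only [D1, D2, D3, D4, Matrix.add_apply, Matrix.mul_apply, Fin.sum_univ_four, Fin.sum_univ_six, Fin.sum_univ_one, Matrix.of_apply, Matrix.cons_val', Matrix.cons_val_zero, Matrix.cons_val_one, Matrix.cons_val, Matrix.cons_val_fin_one, Matrix.zero_apply, Fin.isValue, Fin.zero_eta, Fin.mk_one, Fin.reduceFinMk, mul_zero, zero_mul, add_mul, mul_add, smul_mul_smul_comm] <;>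
      linear_combination (norm := module) (1 : k) • h.r0
  · simp only [D1, D2, D3, D4, Matrix.add_apply, Matrix.mul_apply, Fin.sum_univ_four, Fin.sum_univ_six, Fin.sum_univ_one, Matrix.of_apply, Matrix.cons_val', Matrix.cons_val_zero, Matrix.cons_val_one, Matrix.cons_val, Matrix.cons_val_fin_one, Matrix.zero_apply, Fin.isValue, Fin.zero_eta, Fin.mk_one, Fin.reduceFinMk, mul_zero, zero_mul, add_mul, mul_add, smul_mul_smul_comm] <;>
      linear_combination (norm := module) (1 : k) • h.r1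
  · simp only [D1, D2, D3, D4, Matrix.add_apply, Matrix.mul_apply, Fin.sum_univ_four, Fin.sum_univ_six, Fin.sum_univ_one, Matrix.of_apply, Matrix.cons_val', Matrix.cons_val_zero, Matrix.cons_val_one, Matrix.cons_val, Matrix.cons_val_fin_one, Matrix.zero_apply, Fin.isValue, Fin.zero_eta, Fin.mk_one, Fin.reduceFinMk, mul_zero, zero_mul, add_mul, mul_add, smul_mul_smul_comm] <;>
      linear_combination (norm := module) (1 : k) • h.r2
  · simp only [D1, D2, D3, D4, Matrix.add_apply, Matrix.mul_apply, Fin.sum_univ_four, Fin.sum_univ_six, Fin.sum_univ_one, Matrix.of_apply, Matrix.cons_val', Matrix.cons_val_zero, Matrix.cons_val_one, Matrix.cons_val, Matrix.cons_val_fin_one, Matrix.zero_apply, Fin.isValue, Fin.zero_eta, Fin.mk_one, Fin.reduceFinMk, mul_zero, zero_mul, add_mul, mul_add, smul_mul_smul_comm] <;>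
      linear_combination (norm := module) (1 : k) • h.r3
  · simp only [D1, D2, D3, D4, Matrix.add_apply, Matrix.mul_apply, Fin.sum_univ_four, Fin.sum_univ_six, Fin.sum_univ_one, Matrix.of_apply, Matrix.cons_val', Matrix.cons_val_zero, Matrix.cons_val_one, Matrix.cons_val, Matrix.cons_val_fin_one, Matrix.zero_apply, Fin.isValue, Fin.zero_eta, Fin.mk_one, Fin.reduceFinMk, mul_zero, zero_mul, add_mul, mul_add, smul_mul_smul_comm] <;>
      linear_combination (norm := module) (1 : k) • h.r4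
  · simp only [D1, D2, D3, D4, Matrix.add_apply, Matrix.mul_apply, Fin.sum_univ_four, Fin.sum_univ_six, Fin.sum_univ_one, Matrix.of_apply, Matrix.cons_val', Matrix.cons_val_zero, Matrix.cons_val_one, Matrix.cons_val, Matrix.cons_val_fin_one, Matrix.zero_apply, Fin.isValue, Fin.zero_eta, Fin.mk_one, Fin.reduceFinMk, mul_zero, zero_mul, add_mul, mul_add, smul_mul_smul_comm] <;>
      linear_combination (norm := module) (1 : k) • h.r5

theorem DD2 (h : Rels i c x) (hi : i ^ 2 = -1) : D3 i c x * D2 i c x = 0 := by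
  ext a b
  fin_cases a <;> fin_cases b
  · simp only [D1, D2, D3, D4, Matrix.add_apply, Matrix.mul_apply, Fin.sum_univ_four, Fin.sum_univ_six, Fin.sum_univ_one, Matrix.of_apply, Matrix.cons_val', Matrix.cons_val_zero, Matrix.cons_val_one, Matrix.cons_val, Matrix.cons_val_fin_one, Matrix.zero_apply, Fin.isValue, Fin.zero_eta, Fin.mk_one, Fin.reduceFinMk, mul_zero, zero_mul, add_mul, mul_add, smul_mul_smul_comm] <;>
      linear_combination (norm := module) (-2*c : k) • h.r3
  · simp only [D1, D2, D3, D4, Matrix.add_apply, Matrix.mul_apply, Fin.sum_univ_four, Fin.sum_univ_six, Fin.sum_univ_one, Matrix.of_apply, Matrix.cons_val', Matrix.cons_val_zero, Matrix.cons_val_one, Matrix.cons_val, Matrix.cons_val_fin_one, Matrix.zero_apply, Fin.isValue, Fin.zero_eta, Fin.mk_one, Fin.reduceFinMk, mul_zero, zero_mul, add_mul, mul_add, smul_mul_smul_comm] <;>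
      linear_combination (norm := module) (-2*c*i^2 : k) • h.r2 + ((2*c : k) * hi) • (x 0 * x 1) + ((-2*c : k) * hi) • (x 1 * x 0)
  · simp only [D1, D2, D3, D4, Matrix.add_apply, Matrix.mul_apply, Fin.sum_univ_four, Fin.sum_univ_six, Fin.sum_univ_one, Matrix.of_apply, Matrix.cons_val', Matrix.cons_val_zero, Matrix.cons_val_one, Matrix.cons_val, Matrix.cons_val_fin_one, Matrix.zero_apply, Fin.isValue, Fin.zero_eta, Fin.mk_one, Fin.reduceFinMk, mul_zero, zero_mul, add_mul, mul_add, smul_mul_smul_comm] <;>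
      linear_combination (norm := module) (4*c : k) • h.r3 + (-2*c : k) • h.r4
  · simp only [D1, D2, D3, D4, Matrix.add_apply, Matrix.mul_apply, Fin.sum_univ_four, Fin.sum_univ_six, Fin.sum_univ_one, Matrix.of_apply, Matrix.cons_val', Matrix.cons_val_zero, Matrix.cons_val_one, Matrix.cons_val, Matrix.cons_val_fin_one, Matrix.zero_apply, Fin.isValue, Fin.zero_eta, Fin.mk_one, Fin.reduceFinMk, mul_zero, zero_mul, add_mul, mul_add, smul_mul_smul_comm] <;>
      linear_combination (norm := module) (-2*c : k) • h.r1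
  · simp only [D1, D2, D3, D4, Matrix.add_apply, Matrix.mul_apply, Fin.sum_univ_four, Fin.sum_univ_six, Fin.sum_univ_one, Matrix.of_apply, Matrix.cons_val', Matrix.cons_val_zero, Matrix.cons_val_one, Matrix.cons_val, Matrix.cons_val_fin_one, Matrix.zero_apply, Fin.isValue, Fin.zero_eta, Fin.mk_one, Fin.reduceFinMk, mul_zero, zero_mul, add_mul, mul_add, smul_mul_smul_comm] <;>
      linear_combination (norm := module) (2*c*i^2 : k) • h.r2 + ((-2*c : k) * hi) • (x 0 * x 1) + ((2*c : k) * hi) • (x 1 * x 0)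
  · simp only [D1, D2, D3, D4, Matrix.add_apply, Matrix.mul_apply, Fin.sum_univ_four, Fin.sum_univ_six, Fin.sum_univ_one, Matrix.of_apply, Matrix.cons_val', Matrix.cons_val_zero, Matrix.cons_val_one, Matrix.cons_val, Matrix.cons_val_fin_one, Matrix.zero_apply, Fin.isValue, Fin.zero_eta, Fin.mk_one, Fin.reduceFinMk, mul_zero, zero_mul, add_mul, mul_add, smul_mul_smul_comm] <;>
      linear_combination (norm := module) (-1 : k) • h.r5
  · simp only [D1, D2, D3, D4, Matrix.add_apply, Matrix.mul_apply, Fin.sum_univ_four, Fin.sum_univ_six, Fin.sum_univ_one, Matrix.of_apply, Matrix.cons_val', Matrix.cons_val_zero, Matrix.cons_val_one, Matrix.cons_val, Matrix.cons_val_fin_one, Matrix.zero_apply, Fin.isValue, Fin.zero_eta, Fin.mk_one, Fin.reduceFinMk, mul_zero, zero_mul, add_mul, mul_add, smul_mul_smul_comm] <;>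
      linear_combination (norm := module) (1 : k) • h.r3
  · simp only [D1, D2, D3, D4, Matrix.add_apply, Matrix.mul_apply, Fin.sum_univ_four, Fin.sum_univ_six, Fin.sum_univ_one, Matrix.of_apply, Matrix.cons_val', Matrix.cons_val_zero, Matrix.cons_val_one, Matrix.cons_val, Matrix.cons_val_fin_one, Matrix.zero_apply, Fin.isValue, Fin.zero_eta, Fin.mk_one, Fin.reduceFinMk, mul_zero, zero_mul, add_mul, mul_add, smul_mul_smul_comm] <;>
      linear_combination (norm := module) (2*c : k) • h.r0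
  · simp only [D1, D2, D3, D4, Matrix.add_apply, Matrix.mul_apply, Fin.sum_univ_four, Fin.sum_univ_six, Fin.sum_univ_one, Matrix.of_apply, Matrix.cons_val', Matrix.cons_val_zero, Matrix.cons_val_one, Matrix.cons_val, Matrix.cons_val_fin_one, Matrix.zero_apply, Fin.isValue, Fin.zero_eta, Fin.mk_one, Fin.reduceFinMk, mul_zero, zero_mul, add_mul, mul_add, smul_mul_smul_comm] <;>
      linear_combination (norm := module) (4*c : k) • h.r3 + (-2*c : k) • h.r4
  · simp only [D1, D2, D3, D4, Matrix.add_apply, Matrix.mul_apply, Fin.sum_univ_four, Fin.sum_univ_six, Fin.sum_univ_one, Matrix.of_apply, Matrix.cons_val', Matrix.cons_val_zero, Matrix.cons_val_one, Matrix.cons_val, Matrix.cons_val_fin_one, Matrix.zero_apply, Fin.isValue, Fin.zero_eta, Fin.mk_one, Fin.reduceFinMk, mul_zero, zero_mul, add_mul, mul_add, smul_mul_smul_comm] <;>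
      linear_combination (norm := module) (1 : k) • h.r3
  · simp only [D1, D2, D3, D4, Matrix.add_apply, Matrix.mul_apply, Fin.sum_univ_four, Fin.sum_univ_six, Fin.sum_univ_one, Matrix.of_apply, Matrix.cons_val', Matrix.cons_val_zero, Matrix.cons_val_one, Matrix.cons_val, Matrix.cons_val_fin_one, Matrix.zero_apply, Fin.isValue, Fin.zero_eta, Fin.mk_one, Fin.reduceFinMk, mul_zero, zero_mul, add_mul, mul_add, smul_mul_smul_comm] <;>
      linear_combination (norm := module) (-2 - 6*c : k) • h.r3 + (4*c : k) • h.r4 + (1 : k) • h.r5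
  · simp only [D1, D2, D3, D4, Matrix.add_apply, Matrix.mul_apply, Fin.sum_univ_four, Fin.sum_univ_six, Fin.sum_univ_one, Matrix.of_apply, Matrix.cons_val', Matrix.cons_val_zero, Matrix.cons_val_one, Matrix.cons_val, Matrix.cons_val_fin_one, Matrix.zero_apply, Fin.isValue, Fin.zero_eta, Fin.mk_one, Fin.reduceFinMk, mul_zero, zero_mul, add_mul, mul_add, smul_mul_smul_comm] <;>
      module
  · simp only [D1, D2, D3, D4, Matrix.add_apply, Matrix.mul_apply, Fin.sum_univ_four, Fin.sum_univ_six, Fin.sum_univ_one, Matrix.of_apply, Matrix.cons_val', Matrix.cons_val_zero, Matrix.cons_val_one, Matrix.cons_val, Matrix.cons_val_fin_one, Matrix.zero_apply, Fin.isValue, Fin.zero_eta, Fin.mk_one, Fin.reduceFinMk, mul_zero, zero_mul, add_mul, mul_add, smul_mul_smul_comm] <;>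
      linear_combination (norm := module) (2*c*i : k) • h.r1 + ((2*c : k) * hi) • (x 3 * x 1)
  · simp only [D1, D2, D3, D4, Matrix.add_apply, Matrix.mul_apply, Fin.sum_univ_four, Fin.sum_univ_six, Fin.sum_univ_one, Matrix.of_apply, Matrix.cons_val', Matrix.cons_val_zero, Matrix.cons_val_one, Matrix.cons_val, Matrix.cons_val_fin_one, Matrix.zero_apply, Fin.isValue, Fin.zero_eta, Fin.mk_one, Fin.reduceFinMk, mul_zero, zero_mul, add_mul, mul_add, smul_mul_smul_comm] <;>
      linear_combination (norm := module) (2*c*i : k) • h.r0 + ((-2*c : k) * hi) • (x 3 * x 0)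
  · simp only [D1, D2, D3, D4, Matrix.add_apply, Matrix.mul_apply, Fin.sum_univ_four, Fin.sum_univ_six, Fin.sum_univ_one, Matrix.of_apply, Matrix.cons_val', Matrix.cons_val_zero, Matrix.cons_val_one, Matrix.cons_val, Matrix.cons_val_fin_one, Matrix.zero_apply, Fin.isValue, Fin.zero_eta, Fin.mk_one, Fin.reduceFinMk, mul_zero, zero_mul, add_mul, mul_add, smul_mul_smul_comm] <;>
      module
  · simp only [D1, D2, D3, D4, Matrix.add_apply, Matrix.mul_apply, Fin.sum_univ_four, Fin.sum_univ_six, Fin.sum_univ_one, Matrix.of_apply, Matrix.cons_val', Matrix.cons_val_zero, Matrix.cons_val_one, Matrix.cons_val, Matrix.cons_val_fin_one, Matrix.zero_apply, Fin.isValue, Fin.zero_eta, Fin.mk_one, Fin.reduceFinMk, mul_zero, zero_mul, add_mul, mul_add, smul_mul_smul_comm] <;>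
      linear_combination (norm := module) (-2*c : k) • h.r2

theorem DD3 (h : Rels i c x) (hi : i ^ 2 = -1) : D4 i c x * D3 i c x = 0 := by
  ext a b
  fin_cases a <;> fin_cases b
  · simp only [D1, D2, D3, D4, Matrix.add_apply, Matrix.mul_apply, Fin.sum_univ_four, Fin.sum_univ_six, Fin.sum_univ_one, Matrix.of_apply, Matrix.cons_val', Matrix.cons_val_zero, Matrix.cons_val_one, Matrix.cons_val, Matrix.cons_val_fin_one, Matrix.zero_apply, Fin.isValue, Fin.zero_eta, Fin.mk_one, Fin.reduceFinMk, mul_zero, zero_mul, add_mul, mul_add, smul_mul_smul_comm] <;>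
      linear_combination (norm := module) (2*c*i : k) • h.r1 + ((2*c : k) * hi) • (x 3 * x 1)
  · simp only [D1, D2, D3, D4, Matrix.add_apply, Matrix.mul_apply, Fin.sum_univ_four, Fin.sum_univ_six, Fin.sum_univ_one, Matrix.of_apply, Matrix.cons_val', Matrix.cons_val_zero, Matrix.cons_val_one, Matrix.cons_val, Matrix.cons_val_fin_one, Matrix.zero_apply, Fin.isValue, Fin.zero_eta, Fin.mk_one, Fin.reduceFinMk, mul_zero, zero_mul, add_mul, mul_add, smul_mul_smul_comm] <;>
      linear_combination (norm := module) (2*c*i : k) • h.r0 + ((-2*c : k) * hi) • (x 3 * x 0)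
  · simp only [D1, D2, D3, D4, Matrix.add_apply, Matrix.mul_apply, Fin.sum_univ_four, Fin.sum_univ_six, Fin.sum_univ_one, Matrix.of_apply, Matrix.cons_val', Matrix.cons_val_zero, Matrix.cons_val_one, Matrix.cons_val, Matrix.cons_val_fin_one, Matrix.zero_apply, Fin.isValue, Fin.zero_eta, Fin.mk_one, Fin.reduceFinMk, mul_zero, zero_mul, add_mul, mul_add, smul_mul_smul_comm] <;>
      linear_combination (norm := module) (-2*c : k) • h.r2
  · simp only [D1, D2, D3, D4, Matrix.add_apply, Matrix.mul_apply, Fin.sum_univ_four, Fin.sum_univ_six, Fin.sum_univ_one, Matrix.of_apply, Matrix.cons_val', Matrix.cons_val_zero, Matrix.cons_val_one, Matrix.cons_val, Matrix.cons_val_fin_one, Matrix.zero_apply, Fin.isValue, Fin.zero_eta, Fin.mk_one, Fin.reduceFinMk, mul_zero, zero_mul, add_mul, mul_add, smul_mul_smul_comm] <;>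
      linear_combination (norm := module) (-2 - 6*c : k) • h.r3 + (4*c : k) • h.r4 + (1 : k) • h.r5
  · simp only [D1, D2, D3, D4, Matrix.add_apply, Matrix.mul_apply, Fin.sum_univ_four, Fin.sum_univ_six, Fin.sum_univ_one, Matrix.of_apply, Matrix.cons_val', Matrix.cons_val_zero, Matrix.cons_val_one, Matrix.cons_val, Matrix.cons_val_fin_one, Matrix.zero_apply, Fin.isValue, Fin.zero_eta, Fin.mk_one, Fin.reduceFinMk, mul_zero, zero_mul, add_mul, mul_add, smul_mul_smul_comm] <;>
      linear_combination (norm := module) (4*c : k) • h.r3 + (-2*c : k) • h.r4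
  · simp only [D1, D2, D3, D4, Matrix.add_apply, Matrix.mul_apply, Fin.sum_univ_four, Fin.sum_univ_six, Fin.sum_univ_one, Matrix.of_apply, Matrix.cons_val', Matrix.cons_val_zero, Matrix.cons_val_one, Matrix.cons_val, Matrix.cons_val_fin_one, Matrix.zero_apply, Fin.isValue, Fin.zero_eta, Fin.mk_one, Fin.reduceFinMk, mul_zero, zero_mul, add_mul, mul_add, smul_mul_smul_comm] <;>
      linear_combination (norm := module) (1 : k) • h.r3

theorem HT00 (h : Rels i c x) (hi : i ^ 2 = -1) (he : 2 * c * e = 1) :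
    H00 i c e x * D1 i c x = T00 x := by
  ext a b
  fin_cases a <;> fin_cases b
  · simp only [D1, D2, D3, D4, T00, H00, Matrix.add_apply, Matrix.mul_apply, Fin.sum_univ_four, Fin.sum_univ_six, Fin.sum_univ_one, Matrix.of_apply, Matrix.cons_val', Matrix.cons_val_zero, Matrix.cons_val_one, Matrix.cons_val, Matrix.cons_val_fin_one, Matrix.zero_apply, Fin.isValue, Fin.zero_eta, Fin.mk_one, Fin.reduceFinMk, mul_zero, zero_mul, add_mul, mul_add, smul_mul_smul_comm] <;>
      module

theorem HT01 (h : Rels i c x) (hi : i ^ 2 = -1) (he : 2 * c * e = 1) :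
    H01 i c e x * D2 i c x + D1 i c x * H00 i c e x = T01 x := by
  ext a b
  fin_cases a <;> fin_cases b
  · simp only [D1, D2, D3, D4, T01, H01, H00, Matrix.add_apply, Matrix.mul_apply, Fin.sum_univ_four, Fin.sum_univ_six, Fin.sum_univ_one, Matrix.of_apply, Matrix.cons_val', Matrix.cons_val_zero, Matrix.cons_val_one, Matrix.cons_val, Matrix.cons_val_fin_one, Matrix.zero_apply, Fin.isValue, Fin.zero_eta, Fin.mk_one, Fin.reduceFinMk, mul_zero, zero_mul, add_mul, mul_add, smul_mul_smul_comm] <;>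
      linear_combination (norm := module) (-i^2 : k) • h.r2 + ((1 : k) * hi) • (x 0 * x 1) + ((-1 : k) * hi) • (x 1 * x 0)
  · simp only [D1, D2, D3, D4, T01, H01, H00, Matrix.add_apply, Matrix.mul_apply, Fin.sum_univ_four, Fin.sum_univ_six, Fin.sum_univ_one, Matrix.of_apply, Matrix.cons_val', Matrix.cons_val_zero, Matrix.cons_val_one, Matrix.cons_val, Matrix.cons_val_fin_one, Matrix.zero_apply, Fin.isValue, Fin.zero_eta, Fin.mk_one, Fin.reduceFinMk, mul_zero, zero_mul, add_mul, mul_add, smul_mul_smul_comm] <;>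
      module
  · simp only [D1, D2, D3, D4, T01, H01, H00, Matrix.add_apply, Matrix.mul_apply, Fin.sum_univ_four, Fin.sum_univ_six, Fin.sum_univ_one, Matrix.of_apply, Matrix.cons_val', Matrix.cons_val_zero, Matrix.cons_val_one, Matrix.cons_val, Matrix.cons_val_fin_one, Matrix.zero_apply, Fin.isValue, Fin.zero_eta, Fin.mk_one, Fin.reduceFinMk, mul_zero, zero_mul, add_mul, mul_add, smul_mul_smul_comm] <;>
      module
  · simp only [D1, D2, D3, D4, T01, H01, H00, Matrix.add_apply, Matrix.mul_apply, Fin.sum_univ_four, Fin.sum_univ_six, Fin.sum_univ_one, Matrix.of_apply, Matrix.cons_val', Matrix.cons_val_zero, Matrix.cons_val_one, Matrix.cons_val, Matrix.cons_val_fin_one, Matrix.zero_apply, Fin.isValue, Fin.zero_eta, Fin.mk_one, Fin.reduceFinMk, mul_zero, zero_mul, add_mul, mul_add, smul_mul_smul_comm] <;>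
      linear_combination (norm := module) (-1 : k) • h.r0
  · simp only [D1, D2, D3, D4, T01, H01, H00, Matrix.add_apply, Matrix.mul_apply, Fin.sum_univ_four, Fin.sum_univ_six, Fin.sum_univ_one, Matrix.of_apply, Matrix.cons_val', Matrix.cons_val_zero, Matrix.cons_val_one, Matrix.cons_val, Matrix.cons_val_fin_one, Matrix.zero_apply, Fin.isValue, Fin.zero_eta, Fin.mk_one, Fin.reduceFinMk, mul_zero, zero_mul, add_mul, mul_add, smul_mul_smul_comm] <;>
      module
  · simp only [D1, D2, D3, D4, T01, H01, H00, Matrix.add_apply, Matrix.mul_apply, Fin.sum_univ_four, Fin.sum_univ_six, Fin.sum_univ_one, Matrix.of_apply, Matrix.cons_val', Matrix.cons_val_zero, Matrix.cons_val_one, Matrix.cons_val, Matrix.cons_val_fin_one, Matrix.zero_apply, Fin.isValue, Fin.zero_eta, Fin.mk_one, Fin.reduceFinMk, mul_zero, zero_mul, add_mul, mul_add, smul_mul_smul_comm] <;>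
      linear_combination (norm := module) (i^2 : k) • h.r2 + ((-1 : k) * hi) • (x 0 * x 1) + ((1 : k) * hi) • (x 1 * x 0)
  · simp only [D1, D2, D3, D4, T01, H01, H00, Matrix.add_apply, Matrix.mul_apply, Fin.sum_univ_four, Fin.sum_univ_six, Fin.sum_univ_one, Matrix.of_apply, Matrix.cons_val', Matrix.cons_val_zero, Matrix.cons_val_one, Matrix.cons_val, Matrix.cons_val_fin_one, Matrix.zero_apply, Fin.isValue, Fin.zero_eta, Fin.mk_one, Fin.reduceFinMk, mul_zero, zero_mul, add_mul, mul_add, smul_mul_smul_comm] <;>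
      module
  · simp only [D1, D2, D3, D4, T01, H01, H00, Matrix.add_apply, Matrix.mul_apply, Fin.sum_univ_four, Fin.sum_univ_six, Fin.sum_univ_one, Matrix.of_apply, Matrix.cons_val', Matrix.cons_val_zero, Matrix.cons_val_one, Matrix.cons_val, Matrix.cons_val_fin_one, Matrix.zero_apply, Fin.isValue, Fin.zero_eta, Fin.mk_one, Fin.reduceFinMk, mul_zero, zero_mul, add_mul, mul_add, smul_mul_smul_comm] <;>
      linear_combination (norm := module) (1 : k) • h.r1
  · simp only [D1, D2, D3, D4, T01, H01, H00, Matrix.add_apply, Matrix.mul_apply, Fin.sum_univ_four, Fin.sum_univ_six, Fin.sum_univ_one, Matrix.of_apply, Matrix.cons_val', Matrix.cons_val_zero, Matrix.cons_val_one, Matrix.cons_val, Matrix.cons_val_fin_one, Matrix.zero_apply, Fin.isValue, Fin.zero_eta, Fin.mk_one, Fin.reduceFinMk, mul_zero, zero_mul, add_mul, mul_add, smul_mul_smul_comm] <;>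
      linear_combination (norm := module) (1 : k) • h.r5
  · simp only [D1, D2, D3, D4, T01, H01, H00, Matrix.add_apply, Matrix.mul_apply, Fin.sum_univ_four, Fin.sum_univ_six, Fin.sum_univ_one, Matrix.of_apply, Matrix.cons_val', Matrix.cons_val_zero, Matrix.cons_val_one, Matrix.cons_val, Matrix.cons_val_fin_one, Matrix.zero_apply, Fin.isValue, Fin.zero_eta, Fin.mk_one, Fin.reduceFinMk, mul_zero, zero_mul, add_mul, mul_add, smul_mul_smul_comm] <;>
      linear_combination (norm := module) (2*i^2 - 2*c*i^2 : k) • h.r2 + (1 : k) • h.r4 + ((-2 + 2*c : k) * hi) • (x 0 * x 1) + ((2 - 2*c : k) * hi) • (x 1 * x 0)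
  · simp only [D1, D2, D3, D4, T01, H01, H00, Matrix.add_apply, Matrix.mul_apply, Fin.sum_univ_four, Fin.sum_univ_six, Fin.sum_univ_one, Matrix.of_apply, Matrix.cons_val', Matrix.cons_val_zero, Matrix.cons_val_one, Matrix.cons_val, Matrix.cons_val_fin_one, Matrix.zero_apply, Fin.isValue, Fin.zero_eta, Fin.mk_one, Fin.reduceFinMk, mul_zero, zero_mul, add_mul, mul_add, smul_mul_smul_comm] <;>
      module
  · simp only [D1, D2, D3, D4, T01, H01, H00, Matrix.add_apply, Matrix.mul_apply, Fin.sum_univ_four, Fin.sum_univ_six, Fin.sum_univ_one, Matrix.of_apply, Matrix.cons_val', Matrix.cons_val_zero, Matrix.cons_val_one, Matrix.cons_val, Matrix.cons_val_fin_one, Matrix.zero_apply, Fin.isValue, Fin.zero_eta, Fin.mk_one, Fin.reduceFinMk, mul_zero, zero_mul, add_mul, mul_add, smul_mul_smul_comm] <;>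
      linear_combination (norm := module) (2 - 2*c : k) • h.r1
  · simp only [D1, D2, D3, D4, T01, H01, H00, Matrix.add_apply, Matrix.mul_apply, Fin.sum_univ_four, Fin.sum_univ_six, Fin.sum_univ_one, Matrix.of_apply, Matrix.cons_val', Matrix.cons_val_zero, Matrix.cons_val_one, Matrix.cons_val, Matrix.cons_val_fin_one, Matrix.zero_apply, Fin.isValue, Fin.zero_eta, Fin.mk_one, Fin.reduceFinMk, mul_zero, zero_mul, add_mul, mul_add, smul_mul_smul_comm] <;>
      linear_combination (norm := module) (i : k) • h.r1 + ((1 : k) * hi) • (x 3 * x 1)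
  · simp only [D1, D2, D3, D4, T01, H01, H00, Matrix.add_apply, Matrix.mul_apply, Fin.sum_univ_four, Fin.sum_univ_six, Fin.sum_univ_one, Matrix.of_apply, Matrix.cons_val', Matrix.cons_val_zero, Matrix.cons_val_one, Matrix.cons_val, Matrix.cons_val_fin_one, Matrix.zero_apply, Fin.isValue, Fin.zero_eta, Fin.mk_one, Fin.reduceFinMk, mul_zero, zero_mul, add_mul, mul_add, smul_mul_smul_comm] <;>
      linear_combination (norm := module) (-i : k) • h.r0 + ((1 : k) * hi) • (x 3 * x 0)
  · simp only [D1, D2, D3, D4, T01, H01, H00, Matrix.add_apply, Matrix.mul_apply, Fin.sum_univ_four, Fin.sum_univ_six, Fin.sum_univ_one, Matrix.of_apply, Matrix.cons_val', Matrix.cons_val_zero, Matrix.cons_val_one, Matrix.cons_val, Matrix.cons_val_fin_one, Matrix.zero_apply, Fin.isValue, Fin.zero_eta, Fin.mk_one, Fin.reduceFinMk, mul_zero, zero_mul, add_mul, mul_add, smul_mul_smul_comm] <;>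
      module
  · simp only [D1, D2, D3, D4, T01, H01, H00, Matrix.add_apply, Matrix.mul_apply, Fin.sum_univ_four, Fin.sum_univ_six, Fin.sum_univ_one, Matrix.of_apply, Matrix.cons_val', Matrix.cons_val_zero, Matrix.cons_val_one, Matrix.cons_val, Matrix.cons_val_fin_one, Matrix.zero_apply, Fin.isValue, Fin.zero_eta, Fin.mk_one, Fin.reduceFinMk, mul_zero, zero_mul, add_mul, mul_add, smul_mul_smul_comm] <;>
      module

theorem HT02 (h : Rels i c x) (hi : i ^ 2 = -1) (he : 2 * c * e = 1) :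
    H02 i c e x * D3 i c x + D2 i c x * H01 i c e x = T02 x := by
  ext a b
  fin_cases a <;> fin_cases b
  · simp only [D1, D2, D3, D4, T02, H02, H01, Matrix.add_apply, Matrix.mul_apply, Fin.sum_univ_four, Fin.sum_univ_six, Fin.sum_univ_one, Matrix.of_apply, Matrix.cons_val', Matrix.cons_val_zero, Matrix.cons_val_one, Matrix.cons_val, Matrix.cons_val_fin_one, Matrix.zero_apply, Fin.isValue, Fin.zero_eta, Fin.mk_one, Fin.reduceFinMk, mul_zero, zero_mul, add_mul, mul_add, smul_mul_smul_comm] <;>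
      linear_combination (norm := module) (-i^2 : k) • h.r2 + ((1 : k) * hi) • (x 0 * x 1) + ((1 : k) * he) • (x 0 * x 1) + ((-1 : k) * hi) • (x 1 * x 0)
  · simp only [D1, D2, D3, D4, T02, H02, H01, Matrix.add_apply, Matrix.mul_apply, Fin.sum_univ_four, Fin.sum_univ_six, Fin.sum_univ_one, Matrix.of_apply, Matrix.cons_val', Matrix.cons_val_zero, Matrix.cons_val_one, Matrix.cons_val, Matrix.cons_val_fin_one, Matrix.zero_apply, Fin.isValue, Fin.zero_eta, Fin.mk_one, Fin.reduceFinMk, mul_zero, zero_mul, add_mul, mul_add, smul_mul_smul_comm] <;>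
      linear_combination (norm := module) ((-1 : k) * he) • (x 0 * x 0)
  · simp only [D1, D2, D3, D4, T02, H02, H01, Matrix.add_apply, Matrix.mul_apply, Fin.sum_univ_four, Fin.sum_univ_six, Fin.sum_univ_one, Matrix.of_apply, Matrix.cons_val', Matrix.cons_val_zero, Matrix.cons_val_one, Matrix.cons_val, Matrix.cons_val_fin_one, Matrix.zero_apply, Fin.isValue, Fin.zero_eta, Fin.mk_one, Fin.reduceFinMk, mul_zero, zero_mul, add_mul, mul_add, smul_mul_smul_comm] <;>
      linear_combination (norm := module) (-2*c*e : k) • h.r0 + ((i : k) * he) • (x 3 * x 0)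
  · simp only [D1, D2, D3, D4, T02, H02, H01, Matrix.add_apply, Matrix.mul_apply, Fin.sum_univ_four, Fin.sum_univ_six, Fin.sum_univ_one, Matrix.of_apply, Matrix.cons_val', Matrix.cons_val_zero, Matrix.cons_val_one, Matrix.cons_val, Matrix.cons_val_fin_one, Matrix.zero_apply, Fin.isValue, Fin.zero_eta, Fin.mk_one, Fin.reduceFinMk, mul_zero, zero_mul, add_mul, mul_add, smul_mul_smul_comm] <;>
      module
  · simp only [D1, D2, D3, D4, T02, H02, H01, Matrix.add_apply, Matrix.mul_apply, Fin.sum_univ_four, Fin.sum_univ_six, Fin.sum_univ_one, Matrix.of_apply, Matrix.cons_val', Matrix.cons_val_zero, Matrix.cons_val_one, Matrix.cons_val, Matrix.cons_val_fin_one, Matrix.zero_apply, Fin.isValue, Fin.zero_eta, Fin.mk_one, Fin.reduceFinMk, mul_zero, zero_mul, add_mul, mul_add, smul_mul_smul_comm] <;>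
      module
  · simp only [D1, D2, D3, D4, T02, H02, H01, Matrix.add_apply, Matrix.mul_apply, Fin.sum_univ_four, Fin.sum_univ_six, Fin.sum_univ_one, Matrix.of_apply, Matrix.cons_val', Matrix.cons_val_zero, Matrix.cons_val_one, Matrix.cons_val, Matrix.cons_val_fin_one, Matrix.zero_apply, Fin.isValue, Fin.zero_eta, Fin.mk_one, Fin.reduceFinMk, mul_zero, zero_mul, add_mul, mul_add, smul_mul_smul_comm] <;>
      module
  · simp only [D1, D2, D3, D4, T02, H02, H01, Matrix.add_apply, Matrix.mul_apply, Fin.sum_univ_four, Fin.sum_univ_six, Fin.sum_univ_one, Matrix.of_apply, Matrix.cons_val', Matrix.cons_val_zero, Matrix.cons_val_one, Matrix.cons_val, Matrix.cons_val_fin_one, Matrix.zero_apply, Fin.isValue, Fin.zero_eta, Fin.mk_one, Fin.reduceFinMk, mul_zero, zero_mul, add_mul, mul_add, smul_mul_smul_comm] <;>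
      linear_combination (norm := module) ((-1 : k) * he) • (x 1 * x 1)
  · simp only [D1, D2, D3, D4, T02, H02, H01, Matrix.add_apply, Matrix.mul_apply, Fin.sum_univ_four, Fin.sum_univ_six, Fin.sum_univ_one, Matrix.of_apply, Matrix.cons_val', Matrix.cons_val_zero, Matrix.cons_val_one, Matrix.cons_val, Matrix.cons_val_fin_one, Matrix.zero_apply, Fin.isValue, Fin.zero_eta, Fin.mk_one, Fin.reduceFinMk, mul_zero, zero_mul, add_mul, mul_add, smul_mul_smul_comm] <;>
      linear_combination (norm := module) (i^2 : k) • h.r2 + ((-1 : k) * hi) • (x 0 * x 1) + ((1 : k) * hi) • (x 1 * x 0) + ((1 : k) * he) • (x 1 * x 0)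
  · simp only [D1, D2, D3, D4, T02, H02, H01, Matrix.add_apply, Matrix.mul_apply, Fin.sum_univ_four, Fin.sum_univ_six, Fin.sum_univ_one, Matrix.of_apply, Matrix.cons_val', Matrix.cons_val_zero, Matrix.cons_val_one, Matrix.cons_val, Matrix.cons_val_fin_one, Matrix.zero_apply, Fin.isValue, Fin.zero_eta, Fin.mk_one, Fin.reduceFinMk, mul_zero, zero_mul, add_mul, mul_add, smul_mul_smul_comm] <;>
      linear_combination (norm := module) (2*c*e : k) • h.r1 + ((i : k) * he) • (x 3 * x 1)
  · simp only [D1, D2, D3, D4, T02, H02, H01, Matrix.add_apply, Matrix.mul_apply, Fin.sum_univ_four, Fin.sum_univ_six, Fin.sum_univ_one, Matrix.of_apply, Matrix.cons_val', Matrix.cons_val_zero, Matrix.cons_val_one, Matrix.cons_val, Matrix.cons_val_fin_one, Matrix.zero_apply, Fin.isValue, Fin.zero_eta, Fin.mk_one, Fin.reduceFinMk, mul_zero, zero_mul, add_mul, mul_add, smul_mul_smul_comm] <;>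
      module
  · simp only [D1, D2, D3, D4, T02, H02, H01, Matrix.add_apply, Matrix.mul_apply, Fin.sum_univ_four, Fin.sum_univ_six, Fin.sum_univ_one, Matrix.of_apply, Matrix.cons_val', Matrix.cons_val_zero, Matrix.cons_val_one, Matrix.cons_val, Matrix.cons_val_fin_one, Matrix.zero_apply, Fin.isValue, Fin.zero_eta, Fin.mk_one, Fin.reduceFinMk, mul_zero, zero_mul, add_mul, mul_add, smul_mul_smul_comm] <;>
      module
  · simp only [D1, D2, D3, D4, T02, H02, H01, Matrix.add_apply, Matrix.mul_apply, Fin.sum_univ_four, Fin.sum_univ_six, Fin.sum_univ_one, Matrix.of_apply, Matrix.cons_val', Matrix.cons_val_zero, Matrix.cons_val_one, Matrix.cons_val, Matrix.cons_val_fin_one, Matrix.zero_apply, Fin.isValue, Fin.zero_eta, Fin.mk_one, Fin.reduceFinMk, mul_zero, zero_mul, add_mul, mul_add, smul_mul_smul_comm] <;>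
      module
  · simp only [D1, D2, D3, D4, T02, H02, H01, Matrix.add_apply, Matrix.mul_apply, Fin.sum_univ_four, Fin.sum_univ_six, Fin.sum_univ_one, Matrix.of_apply, Matrix.cons_val', Matrix.cons_val_zero, Matrix.cons_val_one, Matrix.cons_val, Matrix.cons_val_fin_one, Matrix.zero_apply, Fin.isValue, Fin.zero_eta, Fin.mk_one, Fin.reduceFinMk, mul_zero, zero_mul, add_mul, mul_add, smul_mul_smul_comm] <;>
      linear_combination (norm := module) (i : k) • h.r1 + ((1 : k) * hi) • (x 3 * x 1)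
  · simp only [D1, D2, D3, D4, T02, H02, H01, Matrix.add_apply, Matrix.mul_apply, Fin.sum_univ_four, Fin.sum_univ_six, Fin.sum_univ_one, Matrix.of_apply, Matrix.cons_val', Matrix.cons_val_zero, Matrix.cons_val_one, Matrix.cons_val, Matrix.cons_val_fin_one, Matrix.zero_apply, Fin.isValue, Fin.zero_eta, Fin.mk_one, Fin.reduceFinMk, mul_zero, zero_mul, add_mul, mul_add, smul_mul_smul_comm] <;>
      linear_combination (norm := module) (-i : k) • h.r0 + ((1 : k) * hi) • (x 3 * x 0)
  · simp only [D1, D2, D3, D4, T02, H02, H01, Matrix.add_apply, Matrix.mul_apply, Fin.sum_univ_four, Fin.sum_univ_six, Fin.sum_univ_one, Matrix.of_apply, Matrix.cons_val', Matrix.cons_val_zero, Matrix.cons_val_one, Matrix.cons_val, Matrix.cons_val_fin_one, Matrix.zero_apply, Fin.isValue, Fin.zero_eta, Fin.mk_one, Fin.reduceFinMk, mul_zero, zero_mul, add_mul, mul_add, smul_mul_smul_comm] <;>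
      module
  · simp only [D1, D2, D3, D4, T02, H02, H01, Matrix.add_apply, Matrix.mul_apply, Fin.sum_univ_four, Fin.sum_univ_six, Fin.sum_univ_one, Matrix.of_apply, Matrix.cons_val', Matrix.cons_val_zero, Matrix.cons_val_one, Matrix.cons_val, Matrix.cons_val_fin_one, Matrix.zero_apply, Fin.isValue, Fin.zero_eta, Fin.mk_one, Fin.reduceFinMk, mul_zero, zero_mul, add_mul, mul_add, smul_mul_smul_comm] <;>
      module
  · simp only [D1, D2, D3, D4, T02, H02, H01, Matrix.add_apply, Matrix.mul_apply, Fin.sum_univ_four, Fin.sum_univ_six, Fin.sum_univ_one, Matrix.of_apply, Matrix.cons_val', Matrix.cons_val_zero, Matrix.cons_val_one, Matrix.cons_val, Matrix.cons_val_fin_one, Matrix.zero_apply, Fin.isValue, Fin.zero_eta, Fin.mk_one, Fin.reduceFinMk, mul_zero, zero_mul, add_mul, mul_add, smul_mul_smul_comm] <;>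
      module
  · simp only [D1, D2, D3, D4, T02, H02, H01, Matrix.add_apply, Matrix.mul_apply, Fin.sum_univ_four, Fin.sum_univ_six, Fin.sum_univ_one, Matrix.of_apply, Matrix.cons_val', Matrix.cons_val_zero, Matrix.cons_val_one, Matrix.cons_val, Matrix.cons_val_fin_one, Matrix.zero_apply, Fin.isValue, Fin.zero_eta, Fin.mk_one, Fin.reduceFinMk, mul_zero, zero_mul, add_mul, mul_add, smul_mul_smul_comm] <;>
      module
  · simp only [D1, D2, D3, D4, T02, H02, H01, Matrix.add_apply, Matrix.mul_apply, Fin.sum_univ_four, Fin.sum_univ_six, Fin.sum_univ_one, Matrix.of_apply, Matrix.cons_val', Matrix.cons_val_zero, Matrix.cons_val_one, Matrix.cons_val, Matrix.cons_val_fin_one, Matrix.zero_apply, Fin.isValue, Fin.zero_eta, Fin.mk_one, Fin.reduceFinMk, mul_zero, zero_mul, add_mul, mul_add, smul_mul_smul_comm] <;>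
      module
  · simp only [D1, D2, D3, D4, T02, H02, H01, Matrix.add_apply, Matrix.mul_apply, Fin.sum_univ_four, Fin.sum_univ_six, Fin.sum_univ_one, Matrix.of_apply, Matrix.cons_val', Matrix.cons_val_zero, Matrix.cons_val_one, Matrix.cons_val, Matrix.cons_val_fin_one, Matrix.zero_apply, Fin.isValue, Fin.zero_eta, Fin.mk_one, Fin.reduceFinMk, mul_zero, zero_mul, add_mul, mul_add, smul_mul_smul_comm] <;>
      linear_combination (norm := module) (i - 2*c*i*e : k) • h.r1 + ((2*i : k) * he) • (x 2 * x 3) + ((1 - 2*c*e : k) * hi) • (x 3 * x 1) + ((1 : k) * he) • (x 3 * x 1)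
  · simp only [D1, D2, D3, D4, T02, H02, H01, Matrix.add_apply, Matrix.mul_apply, Fin.sum_univ_four, Fin.sum_univ_six, Fin.sum_univ_one, Matrix.of_apply, Matrix.cons_val', Matrix.cons_val_zero, Matrix.cons_val_one, Matrix.cons_val, Matrix.cons_val_fin_one, Matrix.zero_apply, Fin.isValue, Fin.zero_eta, Fin.mk_one, Fin.reduceFinMk, mul_zero, zero_mul, add_mul, mul_add, smul_mul_smul_comm] <;>
      linear_combination (norm := module) ((1 : k) * he) • (x 1 * x 1) + ((-2 : k) * he) • (x 2 * x 1)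
  · simp only [D1, D2, D3, D4, T02, H02, H01, Matrix.add_apply, Matrix.mul_apply, Fin.sum_univ_four, Fin.sum_univ_six, Fin.sum_univ_one, Matrix.of_apply, Matrix.cons_val', Matrix.cons_val_zero, Matrix.cons_val_one, Matrix.cons_val, Matrix.cons_val_fin_one, Matrix.zero_apply, Fin.isValue, Fin.zero_eta, Fin.mk_one, Fin.reduceFinMk, mul_zero, zero_mul, add_mul, mul_add, smul_mul_smul_comm] <;>
      linear_combination (norm := module) (4 + 8*c + 8*c*e : k) • h.r3 + (-2 - 6*c : k) • h.r4 + (-4*c*e : k) • h.r5 + ((-4*c : k) * he) • (x 0 * x 0) + ((1 : k) * he) • (x 1 * x 0) + ((4*c : k) * he) • (x 1 * x 1) + ((-2 : k) * he) • (x 2 * x 0) + ((2 : k) * he) • (x 2 * x 1)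
  · simp only [D1, D2, D3, D4, T02, H02, H01, Matrix.add_apply, Matrix.mul_apply, Fin.sum_univ_four, Fin.sum_univ_six, Fin.sum_univ_one, Matrix.of_apply, Matrix.cons_val', Matrix.cons_val_zero, Matrix.cons_val_one, Matrix.cons_val, Matrix.cons_val_fin_one, Matrix.zero_apply, Fin.isValue, Fin.zero_eta, Fin.mk_one, Fin.reduceFinMk, mul_zero, zero_mul, add_mul, mul_add, smul_mul_smul_comm] <;>
      linear_combination (norm := module) (-6*c - 4*c*e : k) • h.r3 + (4*c : k) • h.r4 + (2*c*e : k) • h.r5 + ((2*c : k) * he) • (x 0 * x 0) + ((-2*c : k) * he) • (x 1 * x 1) + ((-1 : k) * he) • (x 2 * x 1)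
  · simp only [D1, D2, D3, D4, T02, H02, H01, Matrix.add_apply, Matrix.mul_apply, Fin.sum_univ_four, Fin.sum_univ_six, Fin.sum_univ_one, Matrix.of_apply, Matrix.cons_val', Matrix.cons_val_zero, Matrix.cons_val_one, Matrix.cons_val, Matrix.cons_val_fin_one, Matrix.zero_apply, Fin.isValue, Fin.zero_eta, Fin.mk_one, Fin.reduceFinMk, mul_zero, zero_mul, add_mul, mul_add, smul_mul_smul_comm] <;>
      linear_combination (norm := module) (-2 : k) • h.r3 + (1 : k) • h.r4
  · simp only [D1, D2, D3, D4, T02, H02, H01, Matrix.add_apply, Matrix.mul_apply, Fin.sum_univ_four, Fin.sum_univ_six, Fin.sum_univ_one, Matrix.of_apply, Matrix.cons_val', Matrix.cons_val_zero, Matrix.cons_val_one, Matrix.cons_val, Matrix.cons_val_fin_one, Matrix.zero_apply, Fin.isValue, Fin.zero_eta, Fin.mk_one, Fin.reduceFinMk, mul_zero, zero_mul, add_mul, mul_add, smul_mul_smul_comm] <;>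
      linear_combination (norm := module) ((i : k) * he) • (x 2 * x 3)
  · simp only [D1, D2, D3, D4, T02, H02, H01, Matrix.add_apply, Matrix.mul_apply, Fin.sum_univ_four, Fin.sum_univ_six, Fin.sum_univ_one, Matrix.of_apply, Matrix.cons_val', Matrix.cons_val_zero, Matrix.cons_val_one, Matrix.cons_val, Matrix.cons_val_fin_one, Matrix.zero_apply, Fin.isValue, Fin.zero_eta, Fin.mk_one, Fin.reduceFinMk, mul_zero, zero_mul, add_mul, mul_add, smul_mul_smul_comm] <;>
      linear_combination (norm := module) (-2*i + 4*c*i*e : k) • h.r0 + (2*i - 4*c*i*e : k) • h.r1 + ((2 - 4*c*e : k) * hi) • (x 3 * x 0) + ((2 : k) * he) • (x 3 * x 0) + ((2 - 4*c*e : k) * hi) • (x 3 * x 1) + ((2 : k) * he) • (x 3 * x 1)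
  · simp only [D1, D2, D3, D4, T02, H02, H01, Matrix.add_apply, Matrix.mul_apply, Fin.sum_univ_four, Fin.sum_univ_six, Fin.sum_univ_one, Matrix.of_apply, Matrix.cons_val', Matrix.cons_val_zero, Matrix.cons_val_one, Matrix.cons_val, Matrix.cons_val_fin_one, Matrix.zero_apply, Fin.isValue, Fin.zero_eta, Fin.mk_one, Fin.reduceFinMk, mul_zero, zero_mul, add_mul, mul_add, smul_mul_smul_comm] <;>
      linear_combination (norm := module) ((-2 : k) * he) • (x 0 * x 1) + ((2 : k) * he) • (x 1 * x 1) + ((1 : k) * he) • (x 2 * x 0)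
  · simp only [D1, D2, D3, D4, T02, H02, H01, Matrix.add_apply, Matrix.mul_apply, Fin.sum_univ_four, Fin.sum_univ_six, Fin.sum_univ_one, Matrix.of_apply, Matrix.cons_val', Matrix.cons_val_zero, Matrix.cons_val_one, Matrix.cons_val, Matrix.cons_val_fin_one, Matrix.zero_apply, Fin.isValue, Fin.zero_eta, Fin.mk_one, Fin.reduceFinMk, mul_zero, zero_mul, add_mul, mul_add, smul_mul_smul_comm] <;>
      linear_combination (norm := module) (2 - 3*e + 6*c - 12*c*e : k) • h.r3 + (-4*c + 8*c*e : k) • h.r4 + (2*e - 2*c*e : k) • h.r5 + ((-2*c : k) * he) • (x 0 * x 0) + ((-2 + 2*c : k) * he) • (x 1 * x 1) + ((1 : k) * he) • (x 2 * x 1)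
  · simp only [D1, D2, D3, D4, T02, H02, H01, Matrix.add_apply, Matrix.mul_apply, Fin.sum_univ_four, Fin.sum_univ_six, Fin.sum_univ_one, Matrix.of_apply, Matrix.cons_val', Matrix.cons_val_zero, Matrix.cons_val_one, Matrix.cons_val, Matrix.cons_val_fin_one, Matrix.zero_apply, Fin.isValue, Fin.zero_eta, Fin.mk_one, Fin.reduceFinMk, mul_zero, zero_mul, add_mul, mul_add, smul_mul_smul_comm] <;>
      linear_combination (norm := module) (-4*c + 8*c*e : k) • h.r3 + (2*c - 4*c*e : k) • h.r4 + ((1 : k) * he) • (x 1 * x 0)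
  · simp only [D1, D2, D3, D4, T02, H02, H01, Matrix.add_apply, Matrix.mul_apply, Fin.sum_univ_four, Fin.sum_univ_six, Fin.sum_univ_one, Matrix.of_apply, Matrix.cons_val', Matrix.cons_val_zero, Matrix.cons_val_one, Matrix.cons_val, Matrix.cons_val_fin_one, Matrix.zero_apply, Fin.isValue, Fin.zero_eta, Fin.mk_one, Fin.reduceFinMk, mul_zero, zero_mul, add_mul, mul_add, smul_mul_smul_comm] <;>
      linear_combination (norm := module) (-1 + 2*e : k) • h.r3 + (-e : k) • h.r5 + ((-1 : k) * he) • (x 0 * x 0) + ((1 : k) * he) • (x 1 * x 1)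
  · simp only [D1, D2, D3, D4, T02, H02, H01, Matrix.add_apply, Matrix.mul_apply, Fin.sum_univ_four, Fin.sum_univ_six, Fin.sum_univ_one, Matrix.of_apply, Matrix.cons_val', Matrix.cons_val_zero, Matrix.cons_val_one, Matrix.cons_val, Matrix.cons_val_fin_one, Matrix.zero_apply, Fin.isValue, Fin.zero_eta, Fin.mk_one, Fin.reduceFinMk, mul_zero, zero_mul, add_mul, mul_add, smul_mul_smul_comm] <;>
      module
  · simp only [D1, D2, D3, D4, T02, H02, H01, Matrix.add_apply, Matrix.mul_apply, Fin.sum_univ_four, Fin.sum_univ_six, Fin.sum_univ_one, Matrix.of_apply, Matrix.cons_val', Matrix.cons_val_zero, Matrix.cons_val_one, Matrix.cons_val, Matrix.cons_val_fin_one, Matrix.zero_apply, Fin.isValue, Fin.zero_eta, Fin.mk_one, Fin.reduceFinMk, mul_zero, zero_mul, add_mul, mul_add, smul_mul_smul_comm] <;>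
      linear_combination (norm := module) ((i : k) * he) • (x 2 * x 3)
  · simp only [D1, D2, D3, D4, T02, H02, H01, Matrix.add_apply, Matrix.mul_apply, Fin.sum_univ_four, Fin.sum_univ_six, Fin.sum_univ_one, Matrix.of_apply, Matrix.cons_val', Matrix.cons_val_zero, Matrix.cons_val_one, Matrix.cons_val, Matrix.cons_val_fin_one, Matrix.zero_apply, Fin.isValue, Fin.zero_eta, Fin.mk_one, Fin.reduceFinMk, mul_zero, zero_mul, add_mul, mul_add, smul_mul_smul_comm] <;>
      linear_combination (norm := module) ((-1 : k) * he) • (x 2 * x 1)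
  · simp only [D1, D2, D3, D4, T02, H02, H01, Matrix.add_apply, Matrix.mul_apply, Fin.sum_univ_four, Fin.sum_univ_six, Fin.sum_univ_one, Matrix.of_apply, Matrix.cons_val', Matrix.cons_val_zero, Matrix.cons_val_one, Matrix.cons_val, Matrix.cons_val_fin_one, Matrix.zero_apply, Fin.isValue, Fin.zero_eta, Fin.mk_one, Fin.reduceFinMk, mul_zero, zero_mul, add_mul, mul_add, smul_mul_smul_comm] <;>
      linear_combination (norm := module) (4*c*e : k) • h.r3 + (-1 : k) • h.r4 + ((2 : k) * he) • (x 1 * x 1) + ((-1 : k) * he) • (x 2 * x 0)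
  · simp only [D1, D2, D3, D4, T02, H02, H01, Matrix.add_apply, Matrix.mul_apply, Fin.sum_univ_four, Fin.sum_univ_six, Fin.sum_univ_one, Matrix.of_apply, Matrix.cons_val', Matrix.cons_val_zero, Matrix.cons_val_one, Matrix.cons_val, Matrix.cons_val_fin_one, Matrix.zero_apply, Fin.isValue, Fin.zero_eta, Fin.mk_one, Fin.reduceFinMk, mul_zero, zero_mul, add_mul, mul_add, smul_mul_smul_comm] <;>
      linear_combination (norm := module) (-2*c*e : k) • h.r3 + ((-1 : k) * he) • (x 1 * x 1)
  · simp only [D1, D2, D3, D4, T02, H02, H01, Matrix.add_apply, Matrix.mul_apply, Fin.sum_univ_four, Fin.sum_univ_six, Fin.sum_univ_one, Matrix.of_apply, Matrix.cons_val', Matrix.cons_val_zero, Matrix.cons_val_one, Matrix.cons_val, Matrix.cons_val_fin_one, Matrix.zero_apply, Fin.isValue, Fin.zero_eta, Fin.mk_one, Fin.reduceFinMk, mul_zero, zero_mul, add_mul, mul_add, smul_mul_smul_comm] <;>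
      module

theorem HT03 (h : Rels i c x) (hi : i ^ 2 = -1) (he : 2 * c * e = 1) :
    H03 i c e x * D4 i c x + D3 i c x * H02 i c e x = T03 x := by
  ext a b
  fin_cases a <;> fin_cases b
  · simp only [D1, D2, D3, D4, T03, H03, H02, Matrix.add_apply, Matrix.mul_apply, Fin.sum_univ_four, Fin.sum_univ_six, Fin.sum_univ_one, Matrix.of_apply, Matrix.cons_val', Matrix.cons_val_zero, Matrix.cons_val_one, Matrix.cons_val, Matrix.cons_val_fin_one, Matrix.zero_apply, Fin.isValue, Fin.zero_eta, Fin.mk_one, Fin.reduceFinMk, mul_zero, zero_mul, add_mul, mul_add, smul_mul_smul_comm] <;>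
      linear_combination (norm := module) (-4*c + 8*c*e : k) • h.r3 + (2*c - 4*c*e : k) • h.r4 + ((1 : k) * he) • (x 0 * x 1)
  · simp only [D1, D2, D3, D4, T03, H03, H02, Matrix.add_apply, Matrix.mul_apply, Fin.sum_univ_four, Fin.sum_univ_six, Fin.sum_univ_one, Matrix.of_apply, Matrix.cons_val', Matrix.cons_val_zero, Matrix.cons_val_one, Matrix.cons_val, Matrix.cons_val_fin_one, Matrix.zero_apply, Fin.isValue, Fin.zero_eta, Fin.mk_one, Fin.reduceFinMk, mul_zero, zero_mul, add_mul, mul_add, smul_mul_smul_comm] <;>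
      linear_combination (norm := module) (-2*c*e : k) • h.r3 + ((-1 : k) * he) • (x 1 * x 1)
  · simp only [D1, D2, D3, D4, T03, H03, H02, Matrix.add_apply, Matrix.mul_apply, Fin.sum_univ_four, Fin.sum_univ_six, Fin.sum_univ_one, Matrix.of_apply, Matrix.cons_val', Matrix.cons_val_zero, Matrix.cons_val_one, Matrix.cons_val, Matrix.cons_val_fin_one, Matrix.zero_apply, Fin.isValue, Fin.zero_eta, Fin.mk_one, Fin.reduceFinMk, mul_zero, zero_mul, add_mul, mul_add, smul_mul_smul_comm] <;>
      linear_combination (norm := module) (-6*c - 4*c*e : k) • h.r3 + (4*c : k) • h.r4 + (1 : k) • h.r5 + ((-2 : k) * he) • (x 1 * x 1) + ((1 : k) * he) • (x 2 * x 1)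
  · simp only [D1, D2, D3, D4, T03, H03, H02, Matrix.add_apply, Matrix.mul_apply, Fin.sum_univ_four, Fin.sum_univ_six, Fin.sum_univ_one, Matrix.of_apply, Matrix.cons_val', Matrix.cons_val_zero, Matrix.cons_val_one, Matrix.cons_val, Matrix.cons_val_fin_one, Matrix.zero_apply, Fin.isValue, Fin.zero_eta, Fin.mk_one, Fin.reduceFinMk, mul_zero, zero_mul, add_mul, mul_add, smul_mul_smul_comm] <;>
      linear_combination (norm := module) (1 : k) • h.r1 + ((-i : k) * he) • (x 3 * x 1)
  · simp only [D1, D2, D3, D4, T03, H03, H02, Matrix.add_apply, Matrix.mul_apply, Fin.sum_univ_four, Fin.sum_univ_six, Fin.sum_univ_one, Matrix.of_apply, Matrix.cons_val', Matrix.cons_val_zero, Matrix.cons_val_one, Matrix.cons_val, Matrix.cons_val_fin_one, Matrix.zero_apply, Fin.isValue, Fin.zero_eta, Fin.mk_one, Fin.reduceFinMk, mul_zero, zero_mul, add_mul, mul_add, smul_mul_smul_comm] <;>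
      linear_combination (norm := module) (-1 + 2*e : k) • h.r3 + (-e : k) • h.r5 + ((-1 : k) * he) • (x 0 * x 0) + ((1 : k) * he) • (x 1 * x 1)
  · simp only [D1, D2, D3, D4, T03, H03, H02, Matrix.add_apply, Matrix.mul_apply, Fin.sum_univ_four, Fin.sum_univ_six, Fin.sum_univ_one, Matrix.of_apply, Matrix.cons_val', Matrix.cons_val_zero, Matrix.cons_val_one, Matrix.cons_val, Matrix.cons_val_fin_one, Matrix.zero_apply, Fin.isValue, Fin.zero_eta, Fin.mk_one, Fin.reduceFinMk, mul_zero, zero_mul, add_mul, mul_add, smul_mul_smul_comm] <;>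
      module
  · simp only [D1, D2, D3, D4, T03, H03, H02, Matrix.add_apply, Matrix.mul_apply, Fin.sum_univ_four, Fin.sum_univ_six, Fin.sum_univ_one, Matrix.of_apply, Matrix.cons_val', Matrix.cons_val_zero, Matrix.cons_val_one, Matrix.cons_val, Matrix.cons_val_fin_one, Matrix.zero_apply, Fin.isValue, Fin.zero_eta, Fin.mk_one, Fin.reduceFinMk, mul_zero, zero_mul, add_mul, mul_add, smul_mul_smul_comm] <;>
      linear_combination (norm := module) (-2 : k) • h.r3 + (1 : k) • h.r4
  · simp only [D1, D2, D3, D4, T03, H03, H02, Matrix.add_apply, Matrix.mul_apply, Fin.sum_univ_four, Fin.sum_univ_six, Fin.sum_univ_one, Matrix.of_apply, Matrix.cons_val', Matrix.cons_val_zero, Matrix.cons_val_one, Matrix.cons_val, Matrix.cons_val_fin_one, Matrix.zero_apply, Fin.isValue, Fin.zero_eta, Fin.mk_one, Fin.reduceFinMk, mul_zero, zero_mul, add_mul, mul_add, smul_mul_smul_comm] <;>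
      linear_combination (norm := module) (1 : k) • h.r0 + ((i : k) * he) • (x 3 * x 0)
  · simp only [D1, D2, D3, D4, T03, H03, H02, Matrix.add_apply, Matrix.mul_apply, Fin.sum_univ_four, Fin.sum_univ_six, Fin.sum_univ_one, Matrix.of_apply, Matrix.cons_val', Matrix.cons_val_zero, Matrix.cons_val_one, Matrix.cons_val, Matrix.cons_val_fin_one, Matrix.zero_apply, Fin.isValue, Fin.zero_eta, Fin.mk_one, Fin.reduceFinMk, mul_zero, zero_mul, add_mul, mul_add, smul_mul_smul_comm] <;>
      linear_combination (norm := module) (2 - 3*e + 6*c - 12*c*e : k) • h.r3 + (-4*c + 8*c*e : k) • h.r4 + (-1 + 2*e : k) • h.r5 + ((-1 : k) * he) • (x 2 * x 1)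
  · simp only [D1, D2, D3, D4, T03, H03, H02, Matrix.add_apply, Matrix.mul_apply, Fin.sum_univ_four, Fin.sum_univ_six, Fin.sum_univ_one, Matrix.of_apply, Matrix.cons_val', Matrix.cons_val_zero, Matrix.cons_val_one, Matrix.cons_val, Matrix.cons_val_fin_one, Matrix.zero_apply, Fin.isValue, Fin.zero_eta, Fin.mk_one, Fin.reduceFinMk, mul_zero, zero_mul, add_mul, mul_add, smul_mul_smul_comm] <;>
      linear_combination (norm := module) (4*c*e : k) • h.r3 + (-2*c*e : k) • h.r4 + ((1 : k) * he) • (x 2 * x 0)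
  · simp only [D1, D2, D3, D4, T03, H03, H02, Matrix.add_apply, Matrix.mul_apply, Fin.sum_univ_four, Fin.sum_univ_six, Fin.sum_univ_one, Matrix.of_apply, Matrix.cons_val', Matrix.cons_val_zero, Matrix.cons_val_one, Matrix.cons_val, Matrix.cons_val_fin_one, Matrix.zero_apply, Fin.isValue, Fin.zero_eta, Fin.mk_one, Fin.reduceFinMk, mul_zero, zero_mul, add_mul, mul_add, smul_mul_smul_comm] <;>
      linear_combination (norm := module) (4 + 8*c + 8*c*e : k) • h.r3 + (-6*c - 4*c*e : k) • h.r4 + (-2 : k) • h.r5 + ((1 : k) * he) • (x 0 * x 1) + ((2 : k) * he) • (x 2 * x 0) + ((-2 : k) * he) • (x 2 * x 1)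
  · simp only [D1, D2, D3, D4, T03, H03, H02, Matrix.add_apply, Matrix.mul_apply, Fin.sum_univ_four, Fin.sum_univ_six, Fin.sum_univ_one, Matrix.of_apply, Matrix.cons_val', Matrix.cons_val_zero, Matrix.cons_val_one, Matrix.cons_val, Matrix.cons_val_fin_one, Matrix.zero_apply, Fin.isValue, Fin.zero_eta, Fin.mk_one, Fin.reduceFinMk, mul_zero, zero_mul, add_mul, mul_add, smul_mul_smul_comm] <;>
      module
  · simp only [D1, D2, D3, D4, T03, H03, H02, Matrix.add_apply, Matrix.mul_apply, Fin.sum_univ_four, Fin.sum_univ_six, Fin.sum_univ_one, Matrix.of_apply, Matrix.cons_val', Matrix.cons_val_zero, Matrix.cons_val_one, Matrix.cons_val, Matrix.cons_val_fin_one, Matrix.zero_apply, Fin.isValue, Fin.zero_eta, Fin.mk_one, Fin.reduceFinMk, mul_zero, zero_mul, add_mul, mul_add, smul_mul_smul_comm] <;>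
      module
  · simp only [D1, D2, D3, D4, T03, H03, H02, Matrix.add_apply, Matrix.mul_apply, Fin.sum_univ_four, Fin.sum_univ_six, Fin.sum_univ_one, Matrix.of_apply, Matrix.cons_val', Matrix.cons_val_zero, Matrix.cons_val_one, Matrix.cons_val, Matrix.cons_val_fin_one, Matrix.zero_apply, Fin.isValue, Fin.zero_eta, Fin.mk_one, Fin.reduceFinMk, mul_zero, zero_mul, add_mul, mul_add, smul_mul_smul_comm] <;>
      module
  · simp only [D1, D2, D3, D4, T03, H03, H02, Matrix.add_apply, Matrix.mul_apply, Fin.sum_univ_four, Fin.sum_univ_six, Fin.sum_univ_one, Matrix.of_apply, Matrix.cons_val', Matrix.cons_val_zero, Matrix.cons_val_one, Matrix.cons_val, Matrix.cons_val_fin_one, Matrix.zero_apply, Fin.isValue, Fin.zero_eta, Fin.mk_one, Fin.reduceFinMk, mul_zero, zero_mul, add_mul, mul_add, smul_mul_smul_comm] <;>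
      module
  · simp only [D1, D2, D3, D4, T03, H03, H02, Matrix.add_apply, Matrix.mul_apply, Fin.sum_univ_four, Fin.sum_univ_six, Fin.sum_univ_one, Matrix.of_apply, Matrix.cons_val', Matrix.cons_val_zero, Matrix.cons_val_one, Matrix.cons_val, Matrix.cons_val_fin_one, Matrix.zero_apply, Fin.isValue, Fin.zero_eta, Fin.mk_one, Fin.reduceFinMk, mul_zero, zero_mul, add_mul, mul_add, smul_mul_smul_comm] <;>
      linear_combination (norm := module) ((1 : k) * he) • (x 0 * x 1) + ((1 : k) * he) • (x 1 * x 0)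

theorem HT04 (h : Rels i c x) (hi : i ^ 2 = -1) (he : 2 * c * e = 1) :
    D4 i c x * H03 i c e x = T04 x := by
  ext a b
  fin_cases a <;> fin_cases b
  · simp only [D1, D2, D3, D4, T04, H03, Matrix.add_apply, Matrix.mul_apply, Fin.sum_univ_four, Fin.sum_univ_six, Fin.sum_univ_one, Matrix.of_apply, Matrix.cons_val', Matrix.cons_val_zero, Matrix.cons_val_one, Matrix.cons_val, Matrix.cons_val_fin_one, Matrix.zero_apply, Fin.isValue, Fin.zero_eta, Fin.mk_one, Fin.reduceFinMk, mul_zero, zero_mul, add_mul, mul_add, smul_mul_smul_comm] <;>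
      module

theorem HT11 (h : Rels i c x) (hi : i ^ 2 = -1) (he : 2 * c * e = 1) :
    H11 i c e x * D2 i c x + D1 i c x * H10 i c e x = T11 x := by
  ext a b
  fin_cases a <;> fin_cases b
  · simp only [D1, D2, D3, D4, T11, H11, H10, Matrix.add_apply, Matrix.mul_apply, Fin.sum_univ_four, Fin.sum_univ_six, Fin.sum_univ_one, Matrix.of_apply, Matrix.cons_val', Matrix.cons_val_zero, Matrix.cons_val_one, Matrix.cons_val, Matrix.cons_val_fin_one, Matrix.zero_apply, Fin.isValue, Fin.zero_eta, Fin.mk_one, Fin.reduceFinMk, mul_zero, zero_mul, add_mul, mul_add, smul_mul_smul_comm] <;>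
      module
  · simp only [D1, D2, D3, D4, T11, H11, H10, Matrix.add_apply, Matrix.mul_apply, Fin.sum_univ_four, Fin.sum_univ_six, Fin.sum_univ_one, Matrix.of_apply, Matrix.cons_val', Matrix.cons_val_zero, Matrix.cons_val_one, Matrix.cons_val, Matrix.cons_val_fin_one, Matrix.zero_apply, Fin.isValue, Fin.zero_eta, Fin.mk_one, Fin.reduceFinMk, mul_zero, zero_mul, add_mul, mul_add, smul_mul_smul_comm] <;>
      module
  · simp only [D1, D2, D3, D4, T11, H11, H10, Matrix.add_apply, Matrix.mul_apply, Fin.sum_univ_four, Fin.sum_univ_six, Fin.sum_univ_one, Matrix.of_apply, Matrix.cons_val', Matrix.cons_val_zero, Matrix.cons_val_one, Matrix.cons_val, Matrix.cons_val_fin_one, Matrix.zero_apply, Fin.isValue, Fin.zero_eta, Fin.mk_one, Fin.reduceFinMk, mul_zero, zero_mul, add_mul, mul_add, smul_mul_smul_comm] <;>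
      module
  · simp only [D1, D2, D3, D4, T11, H11, H10, Matrix.add_apply, Matrix.mul_apply, Fin.sum_univ_four, Fin.sum_univ_six, Fin.sum_univ_one, Matrix.of_apply, Matrix.cons_val', Matrix.cons_val_zero, Matrix.cons_val_one, Matrix.cons_val, Matrix.cons_val_fin_one, Matrix.zero_apply, Fin.isValue, Fin.zero_eta, Fin.mk_one, Fin.reduceFinMk, mul_zero, zero_mul, add_mul, mul_add, smul_mul_smul_comm] <;>
      module
  · simp only [D1, D2, D3, D4, T11, H11, H10, Matrix.add_apply, Matrix.mul_apply, Fin.sum_univ_four, Fin.sum_univ_six, Fin.sum_univ_one, Matrix.of_apply, Matrix.cons_val', Matrix.cons_val_zero, Matrix.cons_val_one, Matrix.cons_val, Matrix.cons_val_fin_one, Matrix.zero_apply, Fin.isValue, Fin.zero_eta, Fin.mk_one, Fin.reduceFinMk, mul_zero, zero_mul, add_mul, mul_add, smul_mul_smul_comm] <;>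
      linear_combination (norm := module) (i^2 : k) • h.r2 + ((-1 : k) * hi) • (x 0 * x 1) + ((1 : k) * hi) • (x 1 * x 0)
  · simp only [D1, D2, D3, D4, T11, H11, H10, Matrix.add_apply, Matrix.mul_apply, Fin.sum_univ_four, Fin.sum_univ_six, Fin.sum_univ_one, Matrix.of_apply, Matrix.cons_val', Matrix.cons_val_zero, Matrix.cons_val_one, Matrix.cons_val, Matrix.cons_val_fin_one, Matrix.zero_apply, Fin.isValue, Fin.zero_eta, Fin.mk_one, Fin.reduceFinMk, mul_zero, zero_mul, add_mul, mul_add, smul_mul_smul_comm] <;>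
      module
  · simp only [D1, D2, D3, D4, T11, H11, H10, Matrix.add_apply, Matrix.mul_apply, Fin.sum_univ_four, Fin.sum_univ_six, Fin.sum_univ_one, Matrix.of_apply, Matrix.cons_val', Matrix.cons_val_zero, Matrix.cons_val_one, Matrix.cons_val, Matrix.cons_val_fin_one, Matrix.zero_apply, Fin.isValue, Fin.zero_eta, Fin.mk_one, Fin.reduceFinMk, mul_zero, zero_mul, add_mul, mul_add, smul_mul_smul_comm] <;>
      module
  · simp only [D1, D2, D3, D4, T11, H11, H10, Matrix.add_apply, Matrix.mul_apply, Fin.sum_univ_four, Fin.sum_univ_six, Fin.sum_univ_one, Matrix.of_apply, Matrix.cons_val', Matrix.cons_val_zero, Matrix.cons_val_one, Matrix.cons_val, Matrix.cons_val_fin_one, Matrix.zero_apply, Fin.isValue, Fin.zero_eta, Fin.mk_one, Fin.reduceFinMk, mul_zero, zero_mul, add_mul, mul_add, smul_mul_smul_comm] <;>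
      linear_combination (norm := module) (1 : k) • h.r0
  · simp only [D1, D2, D3, D4, T11, H11, H10, Matrix.add_apply, Matrix.mul_apply, Fin.sum_univ_four, Fin.sum_univ_six, Fin.sum_univ_one, Matrix.of_apply, Matrix.cons_val', Matrix.cons_val_zero, Matrix.cons_val_one, Matrix.cons_val, Matrix.cons_val_fin_one, Matrix.zero_apply, Fin.isValue, Fin.zero_eta, Fin.mk_one, Fin.reduceFinMk, mul_zero, zero_mul, add_mul, mul_add, smul_mul_smul_comm] <;>
      linear_combination (norm := module) (1 : k) • h.r4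
  · simp only [D1, D2, D3, D4, T11, H11, H10, Matrix.add_apply, Matrix.mul_apply, Fin.sum_univ_four, Fin.sum_univ_six, Fin.sum_univ_one, Matrix.of_apply, Matrix.cons_val', Matrix.cons_val_zero, Matrix.cons_val_one, Matrix.cons_val, Matrix.cons_val_fin_one, Matrix.zero_apply, Fin.isValue, Fin.zero_eta, Fin.mk_one, Fin.reduceFinMk, mul_zero, zero_mul, add_mul, mul_add, smul_mul_smul_comm] <;>
      linear_combination (norm := module) (2*i^2 : k) • h.r2 + ((-2 : k) * hi) • (x 0 * x 1) + ((2 : k) * hi) • (x 1 * x 0)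
  · simp only [D1, D2, D3, D4, T11, H11, H10, Matrix.add_apply, Matrix.mul_apply, Fin.sum_univ_four, Fin.sum_univ_six, Fin.sum_univ_one, Matrix.of_apply, Matrix.cons_val', Matrix.cons_val_zero, Matrix.cons_val_one, Matrix.cons_val, Matrix.cons_val_fin_one, Matrix.zero_apply, Fin.isValue, Fin.zero_eta, Fin.mk_one, Fin.reduceFinMk, mul_zero, zero_mul, add_mul, mul_add, smul_mul_smul_comm] <;>
      module
  · simp only [D1, D2, D3, D4, T11, H11, H10, Matrix.add_apply, Matrix.mul_apply, Fin.sum_univ_four, Fin.sum_univ_six, Fin.sum_univ_one, Matrix.of_apply, Matrix.cons_val', Matrix.cons_val_zero, Matrix.cons_val_one, Matrix.cons_val, Matrix.cons_val_fin_one, Matrix.zero_apply, Fin.isValue, Fin.zero_eta, Fin.mk_one, Fin.reduceFinMk, mul_zero, zero_mul, add_mul, mul_add, smul_mul_smul_comm] <;>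
      linear_combination (norm := module) (2 : k) • h.r1
  · simp only [D1, D2, D3, D4, T11, H11, H10, Matrix.add_apply, Matrix.mul_apply, Fin.sum_univ_four, Fin.sum_univ_six, Fin.sum_univ_one, Matrix.of_apply, Matrix.cons_val', Matrix.cons_val_zero, Matrix.cons_val_one, Matrix.cons_val, Matrix.cons_val_fin_one, Matrix.zero_apply, Fin.isValue, Fin.zero_eta, Fin.mk_one, Fin.reduceFinMk, mul_zero, zero_mul, add_mul, mul_add, smul_mul_smul_comm] <;>
      linear_combination (norm := module) (-i : k) • h.r0 + ((1 : k) * hi) • (x 3 * x 0)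
  · simp only [D1, D2, D3, D4, T11, H11, H10, Matrix.add_apply, Matrix.mul_apply, Fin.sum_univ_four, Fin.sum_univ_six, Fin.sum_univ_one, Matrix.of_apply, Matrix.cons_val', Matrix.cons_val_zero, Matrix.cons_val_one, Matrix.cons_val, Matrix.cons_val_fin_one, Matrix.zero_apply, Fin.isValue, Fin.zero_eta, Fin.mk_one, Fin.reduceFinMk, mul_zero, zero_mul, add_mul, mul_add, smul_mul_smul_comm] <;>
      module
  · simp only [D1, D2, D3, D4, T11, H11, H10, Matrix.add_apply, Matrix.mul_apply, Fin.sum_univ_four, Fin.sum_univ_six, Fin.sum_univ_one, Matrix.of_apply, Matrix.cons_val', Matrix.cons_val_zero, Matrix.cons_val_one, Matrix.cons_val, Matrix.cons_val_fin_one, Matrix.zero_apply, Fin.isValue, Fin.zero_eta, Fin.mk_one, Fin.reduceFinMk, mul_zero, zero_mul, add_mul, mul_add, smul_mul_smul_comm] <;>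
      module
  · simp only [D1, D2, D3, D4, T11, H11, H10, Matrix.add_apply, Matrix.mul_apply, Fin.sum_univ_four, Fin.sum_univ_six, Fin.sum_univ_one, Matrix.of_apply, Matrix.cons_val', Matrix.cons_val_zero, Matrix.cons_val_one, Matrix.cons_val, Matrix.cons_val_fin_one, Matrix.zero_apply, Fin.isValue, Fin.zero_eta, Fin.mk_one, Fin.reduceFinMk, mul_zero, zero_mul, add_mul, mul_add, smul_mul_smul_comm] <;>
      module

theorem HT12 (h : Rels i c x) (hi : i ^ 2 = -1) (he : 2 * c * e = 1) :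
    H12 i c e x * D3 i c x + D2 i c x * H11 i c e x = T12 x := by
  ext a b
  fin_cases a <;> fin_cases b
  · simp only [D1, D2, D3, D4, T12, H12, H11, Matrix.add_apply, Matrix.mul_apply, Fin.sum_univ_four, Fin.sum_univ_six, Fin.sum_univ_one, Matrix.of_apply, Matrix.cons_val', Matrix.cons_val_zero, Matrix.cons_val_one, Matrix.cons_val, Matrix.cons_val_fin_one, Matrix.zero_apply, Fin.isValue, Fin.zero_eta, Fin.mk_one, Fin.reduceFinMk, mul_zero, zero_mul, add_mul, mul_add, smul_mul_smul_comm] <;>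
      module
  · simp only [D1, D2, D3, D4, T12, H12, H11, Matrix.add_apply, Matrix.mul_apply, Fin.sum_univ_four, Fin.sum_univ_six, Fin.sum_univ_one, Matrix.of_apply, Matrix.cons_val', Matrix.cons_val_zero, Matrix.cons_val_one, Matrix.cons_val, Matrix.cons_val_fin_one, Matrix.zero_apply, Fin.isValue, Fin.zero_eta, Fin.mk_one, Fin.reduceFinMk, mul_zero, zero_mul, add_mul, mul_add, smul_mul_smul_comm] <;>
      module
  · simp only [D1, D2, D3, D4, T12, H12, H11, Matrix.add_apply, Matrix.mul_apply, Fin.sum_univ_four, Fin.sum_univ_six, Fin.sum_univ_one, Matrix.of_apply, Matrix.cons_val', Matrix.cons_val_zero, Matrix.cons_val_one, Matrix.cons_val, Matrix.cons_val_fin_one, Matrix.zero_apply, Fin.isValue, Fin.zero_eta, Fin.mk_one, Fin.reduceFinMk, mul_zero, zero_mul, add_mul, mul_add, smul_mul_smul_comm] <;>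
      module
  · simp only [D1, D2, D3, D4, T12, H12, H11, Matrix.add_apply, Matrix.mul_apply, Fin.sum_univ_four, Fin.sum_univ_six, Fin.sum_univ_one, Matrix.of_apply, Matrix.cons_val', Matrix.cons_val_zero, Matrix.cons_val_one, Matrix.cons_val, Matrix.cons_val_fin_one, Matrix.zero_apply, Fin.isValue, Fin.zero_eta, Fin.mk_one, Fin.reduceFinMk, mul_zero, zero_mul, add_mul, mul_add, smul_mul_smul_comm] <;>
      module
  · simp only [D1, D2, D3, D4, T12, H12, H11, Matrix.add_apply, Matrix.mul_apply, Fin.sum_univ_four, Fin.sum_univ_six, Fin.sum_univ_one, Matrix.of_apply, Matrix.cons_val', Matrix.cons_val_zero, Matrix.cons_val_one, Matrix.cons_val, Matrix.cons_val_fin_one, Matrix.zero_apply, Fin.isValue, Fin.zero_eta, Fin.mk_one, Fin.reduceFinMk, mul_zero, zero_mul, add_mul, mul_add, smul_mul_smul_comm] <;>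
      module
  · simp only [D1, D2, D3, D4, T12, H12, H11, Matrix.add_apply, Matrix.mul_apply, Fin.sum_univ_four, Fin.sum_univ_six, Fin.sum_univ_one, Matrix.of_apply, Matrix.cons_val', Matrix.cons_val_zero, Matrix.cons_val_one, Matrix.cons_val, Matrix.cons_val_fin_one, Matrix.zero_apply, Fin.isValue, Fin.zero_eta, Fin.mk_one, Fin.reduceFinMk, mul_zero, zero_mul, add_mul, mul_add, smul_mul_smul_comm] <;>
      module
  · simp only [D1, D2, D3, D4, T12, H12, H11, Matrix.add_apply, Matrix.mul_apply, Fin.sum_univ_four, Fin.sum_univ_six, Fin.sum_univ_one, Matrix.of_apply, Matrix.cons_val', Matrix.cons_val_zero, Matrix.cons_val_one, Matrix.cons_val, Matrix.cons_val_fin_one, Matrix.zero_apply, Fin.isValue, Fin.zero_eta, Fin.mk_one, Fin.reduceFinMk, mul_zero, zero_mul, add_mul, mul_add, smul_mul_smul_comm] <;>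
      linear_combination (norm := module) (-i^2 : k) • h.r2 + ((1 : k) * hi) • (x 0 * x 1) + ((1 : k) * he) • (x 0 * x 1) + ((-1 : k) * hi) • (x 1 * x 0)
  · simp only [D1, D2, D3, D4, T12, H12, H11, Matrix.add_apply, Matrix.mul_apply, Fin.sum_univ_four, Fin.sum_univ_six, Fin.sum_univ_one, Matrix.of_apply, Matrix.cons_val', Matrix.cons_val_zero, Matrix.cons_val_one, Matrix.cons_val, Matrix.cons_val_fin_one, Matrix.zero_apply, Fin.isValue, Fin.zero_eta, Fin.mk_one, Fin.reduceFinMk, mul_zero, zero_mul, add_mul, mul_add, smul_mul_smul_comm] <;>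
      linear_combination (norm := module) ((-1 : k) * he) • (x 0 * x 0)
  · simp only [D1, D2, D3, D4, T12, H12, H11, Matrix.add_apply, Matrix.mul_apply, Fin.sum_univ_four, Fin.sum_univ_six, Fin.sum_univ_one, Matrix.of_apply, Matrix.cons_val', Matrix.cons_val_zero, Matrix.cons_val_one, Matrix.cons_val, Matrix.cons_val_fin_one, Matrix.zero_apply, Fin.isValue, Fin.zero_eta, Fin.mk_one, Fin.reduceFinMk, mul_zero, zero_mul, add_mul, mul_add, smul_mul_smul_comm] <;>
      linear_combination (norm := module) (-2*c*e : k) • h.r0 + ((i : k) * he) • (x 3 * x 0)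
  · simp only [D1, D2, D3, D4, T12, H12, H11, Matrix.add_apply, Matrix.mul_apply, Fin.sum_univ_four, Fin.sum_univ_six, Fin.sum_univ_one, Matrix.of_apply, Matrix.cons_val', Matrix.cons_val_zero, Matrix.cons_val_one, Matrix.cons_val, Matrix.cons_val_fin_one, Matrix.zero_apply, Fin.isValue, Fin.zero_eta, Fin.mk_one, Fin.reduceFinMk, mul_zero, zero_mul, add_mul, mul_add, smul_mul_smul_comm] <;>
      module
  · simp only [D1, D2, D3, D4, T12, H12, H11, Matrix.add_apply, Matrix.mul_apply, Fin.sum_univ_four, Fin.sum_univ_six, Fin.sum_univ_one, Matrix.of_apply, Matrix.cons_val', Matrix.cons_val_zero, Matrix.cons_val_one, Matrix.cons_val, Matrix.cons_val_fin_one, Matrix.zero_apply, Fin.isValue, Fin.zero_eta, Fin.mk_one, Fin.reduceFinMk, mul_zero, zero_mul, add_mul, mul_add, smul_mul_smul_comm] <;>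
      module
  · simp only [D1, D2, D3, D4, T12, H12, H11, Matrix.add_apply, Matrix.mul_apply, Fin.sum_univ_four, Fin.sum_univ_six, Fin.sum_univ_one, Matrix.of_apply, Matrix.cons_val', Matrix.cons_val_zero, Matrix.cons_val_one, Matrix.cons_val, Matrix.cons_val_fin_one, Matrix.zero_apply, Fin.isValue, Fin.zero_eta, Fin.mk_one, Fin.reduceFinMk, mul_zero, zero_mul, add_mul, mul_add, smul_mul_smul_comm] <;>
      module
  · simp only [D1, D2, D3, D4, T12, H12, H11, Matrix.add_apply, Matrix.mul_apply, Fin.sum_univ_four, Fin.sum_univ_six, Fin.sum_univ_one, Matrix.of_apply, Matrix.cons_val', Matrix.cons_val_zero, Matrix.cons_val_one, Matrix.cons_val, Matrix.cons_val_fin_one, Matrix.zero_apply, Fin.isValue, Fin.zero_eta, Fin.mk_one, Fin.reduceFinMk, mul_zero, zero_mul, add_mul, mul_add, smul_mul_smul_comm] <;>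
      linear_combination (norm := module) (i : k) • h.r0 + ((-1 : k) * hi) • (x 3 * x 0)
  · simp only [D1, D2, D3, D4, T12, H12, H11, Matrix.add_apply, Matrix.mul_apply, Fin.sum_univ_four, Fin.sum_univ_six, Fin.sum_univ_one, Matrix.of_apply, Matrix.cons_val', Matrix.cons_val_zero, Matrix.cons_val_one, Matrix.cons_val, Matrix.cons_val_fin_one, Matrix.zero_apply, Fin.isValue, Fin.zero_eta, Fin.mk_one, Fin.reduceFinMk, mul_zero, zero_mul, add_mul, mul_add, smul_mul_smul_comm] <;>
      module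
  · simp only [D1, D2, D3, D4, T12, H12, H11, Matrix.add_apply, Matrix.mul_apply, Fin.sum_univ_four, Fin.sum_univ_six, Fin.sum_univ_one, Matrix.of_apply, Matrix.cons_val', Matrix.cons_val_zero, Matrix.cons_val_one, Matrix.cons_val, Matrix.cons_val_fin_one, Matrix.zero_apply, Fin.isValue, Fin.zero_eta, Fin.mk_one, Fin.reduceFinMk, mul_zero, zero_mul, add_mul, mul_add, smul_mul_smul_comm] <;>
      module
  · simp only [D1, D2, D3, D4, T12, H12, H11, Matrix.add_apply, Matrix.mul_apply, Fin.sum_univ_four, Fin.sum_univ_six, Fin.sum_univ_one, Matrix.of_apply, Matrix.cons_val', Matrix.cons_val_zero, Matrix.cons_val_one, Matrix.cons_val, Matrix.cons_val_fin_one, Matrix.zero_apply, Fin.isValue, Fin.zero_eta, Fin.mk_one, Fin.reduceFinMk, mul_zero, zero_mul, add_mul, mul_add, smul_mul_smul_comm] <;>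
      module
  · simp only [D1, D2, D3, D4, T12, H12, H11, Matrix.add_apply, Matrix.mul_apply, Fin.sum_univ_four, Fin.sum_univ_six, Fin.sum_univ_one, Matrix.of_apply, Matrix.cons_val', Matrix.cons_val_zero, Matrix.cons_val_one, Matrix.cons_val, Matrix.cons_val_fin_one, Matrix.zero_apply, Fin.isValue, Fin.zero_eta, Fin.mk_one, Fin.reduceFinMk, mul_zero, zero_mul, add_mul, mul_add, smul_mul_smul_comm] <;>
      module
  · simp only [D1, D2, D3, D4, T12, H12, H11, Matrix.add_apply, Matrix.mul_apply, Fin.sum_univ_four, Fin.sum_univ_six, Fin.sum_univ_one, Matrix.of_apply, Matrix.cons_val', Matrix.cons_val_zero, Matrix.cons_val_one, Matrix.cons_val, Matrix.cons_val_fin_one, Matrix.zero_apply, Fin.isValue, Fin.zero_eta, Fin.mk_one, Fin.reduceFinMk, mul_zero, zero_mul, add_mul, mul_add, smul_mul_smul_comm] <;>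
      module
  · simp only [D1, D2, D3, D4, T12, H12, H11, Matrix.add_apply, Matrix.mul_apply, Fin.sum_univ_four, Fin.sum_univ_six, Fin.sum_univ_one, Matrix.of_apply, Matrix.cons_val', Matrix.cons_val_zero, Matrix.cons_val_one, Matrix.cons_val, Matrix.cons_val_fin_one, Matrix.zero_apply, Fin.isValue, Fin.zero_eta, Fin.mk_one, Fin.reduceFinMk, mul_zero, zero_mul, add_mul, mul_add, smul_mul_smul_comm] <;>
      linear_combination (norm := module) (-i + 2*c*i*e : k) • h.r1 + ((-1 + 2*c*e : k) * hi) • (x 3 * x 1) + ((-1 : k) * he) • (x 3 * x 1)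
  · simp only [D1, D2, D3, D4, T12, H12, H11, Matrix.add_apply, Matrix.mul_apply, Fin.sum_univ_four, Fin.sum_univ_six, Fin.sum_univ_one, Matrix.of_apply, Matrix.cons_val', Matrix.cons_val_zero, Matrix.cons_val_one, Matrix.cons_val, Matrix.cons_val_fin_one, Matrix.zero_apply, Fin.isValue, Fin.zero_eta, Fin.mk_one, Fin.reduceFinMk, mul_zero, zero_mul, add_mul, mul_add, smul_mul_smul_comm] <;>
      linear_combination (norm := module) ((2*i : k) * he) • (x 2 * x 3)
  · simp only [D1, D2, D3, D4, T12, H12, H11, Matrix.add_apply, Matrix.mul_apply, Fin.sum_univ_four, Fin.sum_univ_six, Fin.sum_univ_one, Matrix.of_apply, Matrix.cons_val', Matrix.cons_val_zero, Matrix.cons_val_one, Matrix.cons_val, Matrix.cons_val_fin_one, Matrix.zero_apply, Fin.isValue, Fin.zero_eta, Fin.mk_one, Fin.reduceFinMk, mul_zero, zero_mul, add_mul, mul_add, smul_mul_smul_comm] <;>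
      linear_combination (norm := module) ((1 : k) * he) • (x 1 * x 0) + ((-2 : k) * he) • (x 2 * x 1)
  · simp only [D1, D2, D3, D4, T12, H12, H11, Matrix.add_apply, Matrix.mul_apply, Fin.sum_univ_four, Fin.sum_univ_six, Fin.sum_univ_one, Matrix.of_apply, Matrix.cons_val', Matrix.cons_val_zero, Matrix.cons_val_one, Matrix.cons_val, Matrix.cons_val_fin_one, Matrix.zero_apply, Fin.isValue, Fin.zero_eta, Fin.mk_one, Fin.reduceFinMk, mul_zero, zero_mul, add_mul, mul_add, smul_mul_smul_comm] <;>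
      linear_combination (norm := module) (-2*e + 2*c*e : k) • h.r3 + (e : k) • h.r5 + ((1 : k) * he) • (x 0 * x 0)
  · simp only [D1, D2, D3, D4, T12, H12, H11, Matrix.add_apply, Matrix.mul_apply, Fin.sum_univ_four, Fin.sum_univ_six, Fin.sum_univ_one, Matrix.of_apply, Matrix.cons_val', Matrix.cons_val_zero, Matrix.cons_val_one, Matrix.cons_val, Matrix.cons_val_fin_one, Matrix.zero_apply, Fin.isValue, Fin.zero_eta, Fin.mk_one, Fin.reduceFinMk, mul_zero, zero_mul, add_mul, mul_add, smul_mul_smul_comm] <;>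
      linear_combination (norm := module) ((-1 : k) * he) • (x 2 * x 0)
  · simp only [D1, D2, D3, D4, T12, H12, H11, Matrix.add_apply, Matrix.mul_apply, Fin.sum_univ_four, Fin.sum_univ_six, Fin.sum_univ_one, Matrix.of_apply, Matrix.cons_val', Matrix.cons_val_zero, Matrix.cons_val_one, Matrix.cons_val, Matrix.cons_val_fin_one, Matrix.zero_apply, Fin.isValue, Fin.zero_eta, Fin.mk_one, Fin.reduceFinMk, mul_zero, zero_mul, add_mul, mul_add, smul_mul_smul_comm] <;>
      linear_combination (norm := module) (e : k) • h.r3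
  · simp only [D1, D2, D3, D4, T12, H12, H11, Matrix.add_apply, Matrix.mul_apply, Fin.sum_univ_four, Fin.sum_univ_six, Fin.sum_univ_one, Matrix.of_apply, Matrix.cons_val', Matrix.cons_val_zero, Matrix.cons_val_one, Matrix.cons_val, Matrix.cons_val_fin_one, Matrix.zero_apply, Fin.isValue, Fin.zero_eta, Fin.mk_one, Fin.reduceFinMk, mul_zero, zero_mul, add_mul, mul_add, smul_mul_smul_comm] <;>
      linear_combination (norm := module) (-2*i + 4*c*i*e : k) • h.r1 + ((-2 + 4*c*e : k) * hi) • (x 3 * x 1) + ((-2 : k) * he) • (x 3 * x 1)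
  · simp only [D1, D2, D3, D4, T12, H12, H11, Matrix.add_apply, Matrix.mul_apply, Fin.sum_univ_four, Fin.sum_univ_six, Fin.sum_univ_one, Matrix.of_apply, Matrix.cons_val', Matrix.cons_val_zero, Matrix.cons_val_one, Matrix.cons_val, Matrix.cons_val_fin_one, Matrix.zero_apply, Fin.isValue, Fin.zero_eta, Fin.mk_one, Fin.reduceFinMk, mul_zero, zero_mul, add_mul, mul_add, smul_mul_smul_comm] <;>
      linear_combination (norm := module) (-2*i + 4*c*i*e : k) • h.r0 + ((2 - 4*c*e : k) * hi) • (x 3 * x 0) + ((2 : k) * he) • (x 3 * x 0)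
  · simp only [D1, D2, D3, D4, T12, H12, H11, Matrix.add_apply, Matrix.mul_apply, Fin.sum_univ_four, Fin.sum_univ_six, Fin.sum_univ_one, Matrix.of_apply, Matrix.cons_val', Matrix.cons_val_zero, Matrix.cons_val_one, Matrix.cons_val, Matrix.cons_val_fin_one, Matrix.zero_apply, Fin.isValue, Fin.zero_eta, Fin.mk_one, Fin.reduceFinMk, mul_zero, zero_mul, add_mul, mul_add, smul_mul_smul_comm] <;>
      linear_combination (norm := module) ((-2 : k) * he) • (x 0 * x 1) + ((2 : k) * he) • (x 1 * x 0)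
  · simp only [D1, D2, D3, D4, T12, H12, H11, Matrix.add_apply, Matrix.mul_apply, Fin.sum_univ_four, Fin.sum_univ_six, Fin.sum_univ_one, Matrix.of_apply, Matrix.cons_val', Matrix.cons_val_zero, Matrix.cons_val_one, Matrix.cons_val, Matrix.cons_val_fin_one, Matrix.zero_apply, Fin.isValue, Fin.zero_eta, Fin.mk_one, Fin.reduceFinMk, mul_zero, zero_mul, add_mul, mul_add, smul_mul_smul_comm] <;>
      linear_combination (norm := module) (-4*e - 12*c*e : k) • h.r3 + (8*c*e : k) • h.r4 + (2*e : k) • h.r5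
  · simp only [D1, D2, D3, D4, T12, H12, H11, Matrix.add_apply, Matrix.mul_apply, Fin.sum_univ_four, Fin.sum_univ_six, Fin.sum_univ_one, Matrix.of_apply, Matrix.cons_val', Matrix.cons_val_zero, Matrix.cons_val_one, Matrix.cons_val, Matrix.cons_val_fin_one, Matrix.zero_apply, Fin.isValue, Fin.zero_eta, Fin.mk_one, Fin.reduceFinMk, mul_zero, zero_mul, add_mul, mul_add, smul_mul_smul_comm] <;>
      linear_combination (norm := module) (8*c*e : k) • h.r3 + (-4*c*e : k) • h.r4
  · simp only [D1, D2, D3, D4, T12, H12, H11, Matrix.add_apply, Matrix.mul_apply, Fin.sum_univ_four, Fin.sum_univ_six, Fin.sum_univ_one, Matrix.of_apply, Matrix.cons_val', Matrix.cons_val_zero, Matrix.cons_val_one, Matrix.cons_val, Matrix.cons_val_fin_one, Matrix.zero_apply, Fin.isValue, Fin.zero_eta, Fin.mk_one, Fin.reduceFinMk, mul_zero, zero_mul, add_mul, mul_add, smul_mul_smul_comm] <;>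
      linear_combination (norm := module) (2*e : k) • h.r3
  · simp only [D1, D2, D3, D4, T12, H12, H11, Matrix.add_apply, Matrix.mul_apply, Fin.sum_univ_four, Fin.sum_univ_six, Fin.sum_univ_one, Matrix.of_apply, Matrix.cons_val', Matrix.cons_val_zero, Matrix.cons_val_one, Matrix.cons_val, Matrix.cons_val_fin_one, Matrix.zero_apply, Fin.isValue, Fin.zero_eta, Fin.mk_one, Fin.reduceFinMk, mul_zero, zero_mul, add_mul, mul_add, smul_mul_smul_comm] <;>
      linear_combination (norm := module) (-2*i + 4*c*i*e : k) • h.r1 + ((-i : k) * he) • (x 2 * x 3) + ((-2 + 4*c*e : k) * hi) • (x 3 * x 1) + ((-2 : k) * he) • (x 3 * x 1)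
  · simp only [D1, D2, D3, D4, T12, H12, H11, Matrix.add_apply, Matrix.mul_apply, Fin.sum_univ_four, Fin.sum_univ_six, Fin.sum_univ_one, Matrix.of_apply, Matrix.cons_val', Matrix.cons_val_zero, Matrix.cons_val_one, Matrix.cons_val, Matrix.cons_val_fin_one, Matrix.zero_apply, Fin.isValue, Fin.zero_eta, Fin.mk_one, Fin.reduceFinMk, mul_zero, zero_mul, add_mul, mul_add, smul_mul_smul_comm] <;>
      linear_combination (norm := module) (-2*i + 4*c*i*e : k) • h.r1 + ((-2 + 4*c*e : k) * hi) • (x 3 * x 1) + ((-2 : k) * he) • (x 3 * x 1)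
  · simp only [D1, D2, D3, D4, T12, H12, H11, Matrix.add_apply, Matrix.mul_apply, Fin.sum_univ_four, Fin.sum_univ_six, Fin.sum_univ_one, Matrix.of_apply, Matrix.cons_val', Matrix.cons_val_zero, Matrix.cons_val_one, Matrix.cons_val, Matrix.cons_val_fin_one, Matrix.zero_apply, Fin.isValue, Fin.zero_eta, Fin.mk_one, Fin.reduceFinMk, mul_zero, zero_mul, add_mul, mul_add, smul_mul_smul_comm] <;>
      linear_combination (norm := module) ((2 : k) * he) • (x 1 * x 0) + ((-2 : k) * he) • (x 1 * x 1) + ((-1 : k) * he) • (x 2 * x 0)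
  · simp only [D1, D2, D3, D4, T12, H12, H11, Matrix.add_apply, Matrix.mul_apply, Fin.sum_univ_four, Fin.sum_univ_six, Fin.sum_univ_one, Matrix.of_apply, Matrix.cons_val', Matrix.cons_val_zero, Matrix.cons_val_one, Matrix.cons_val, Matrix.cons_val_fin_one, Matrix.zero_apply, Fin.isValue, Fin.zero_eta, Fin.mk_one, Fin.reduceFinMk, mul_zero, zero_mul, add_mul, mul_add, smul_mul_smul_comm] <;>
      linear_combination (norm := module) (-e : k) • h.r3 + (-1 + 2*c*e : k) • h.r5 + ((2*c : k) * he) • (x 0 * x 0) + ((2 - 2*c : k) * he) • (x 1 * x 1) + ((-1 : k) * he) • (x 2 * x 1)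
  · simp only [D1, D2, D3, D4, T12, H12, H11, Matrix.add_apply, Matrix.mul_apply, Fin.sum_univ_four, Fin.sum_univ_six, Fin.sum_univ_one, Matrix.of_apply, Matrix.cons_val', Matrix.cons_val_zero, Matrix.cons_val_one, Matrix.cons_val, Matrix.cons_val_fin_one, Matrix.zero_apply, Fin.isValue, Fin.zero_eta, Fin.mk_one, Fin.reduceFinMk, mul_zero, zero_mul, add_mul, mul_add, smul_mul_smul_comm] <;>
      linear_combination (norm := module) ((-1 : k) * he) • (x 1 * x 0)
  · simp only [D1, D2, D3, D4, T12, H12, H11, Matrix.add_apply, Matrix.mul_apply, Fin.sum_univ_four, Fin.sum_univ_six, Fin.sum_univ_one, Matrix.of_apply, Matrix.cons_val', Matrix.cons_val_zero, Matrix.cons_val_one, Matrix.cons_val, Matrix.cons_val_fin_one, Matrix.zero_apply, Fin.isValue, Fin.zero_eta, Fin.mk_one, Fin.reduceFinMk, mul_zero, zero_mul, add_mul, mul_add, smul_mul_smul_comm] <;>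
      linear_combination (norm := module) (e : k) • h.r5 + ((1 : k) * he) • (x 0 * x 0) + ((-1 : k) * he) • (x 1 * x 1)

theorem HT13 (h : Rels i c x) (hi : i ^ 2 = -1) (he : 2 * c * e = 1) :
    H13 i c e x * D4 i c x + D3 i c x * H12 i c e x = T13 x := by
  ext a b
  fin_cases a <;> fin_cases b
  · simp only [D1, D2, D3, D4, T13, H13, H12, Matrix.add_apply, Matrix.mul_apply, Fin.sum_univ_four, Fin.sum_univ_six, Fin.sum_univ_one, Matrix.of_apply, Matrix.cons_val', Matrix.cons_val_zero, Matrix.cons_val_one, Matrix.cons_val, Matrix.cons_val_fin_one, Matrix.zero_apply, Fin.isValue, Fin.zero_eta, Fin.mk_one, Fin.reduceFinMk, mul_zero, zero_mul, add_mul, mul_add, smul_mul_smul_comm] <;>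
      linear_combination (norm := module) (8*c*e : k) • h.r3 + (-4*c*e : k) • h.r4
  · simp only [D1, D2, D3, D4, T13, H13, H12, Matrix.add_apply, Matrix.mul_apply, Fin.sum_univ_four, Fin.sum_univ_six, Fin.sum_univ_one, Matrix.of_apply, Matrix.cons_val', Matrix.cons_val_zero, Matrix.cons_val_one, Matrix.cons_val, Matrix.cons_val_fin_one, Matrix.zero_apply, Fin.isValue, Fin.zero_eta, Fin.mk_one, Fin.reduceFinMk, mul_zero, zero_mul, add_mul, mul_add, smul_mul_smul_comm] <;>
      linear_combination (norm := module) ((-1 : k) * he) • (x 0 * x 1)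
  · simp only [D1, D2, D3, D4, T13, H13, H12, Matrix.add_apply, Matrix.mul_apply, Fin.sum_univ_four, Fin.sum_univ_six, Fin.sum_univ_one, Matrix.of_apply, Matrix.cons_val', Matrix.cons_val_zero, Matrix.cons_val_one, Matrix.cons_val, Matrix.cons_val_fin_one, Matrix.zero_apply, Fin.isValue, Fin.zero_eta, Fin.mk_one, Fin.reduceFinMk, mul_zero, zero_mul, add_mul, mul_add, smul_mul_smul_comm] <;>
      linear_combination (norm := module) (1 - 2*c*e : k) • h.r4 + ((-2 : k) * he) • (x 1 * x 1) + ((1 : k) * he) • (x 2 * x 0)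
  · simp only [D1, D2, D3, D4, T13, H13, H12, Matrix.add_apply, Matrix.mul_apply, Fin.sum_univ_four, Fin.sum_univ_six, Fin.sum_univ_one, Matrix.of_apply, Matrix.cons_val', Matrix.cons_val_zero, Matrix.cons_val_one, Matrix.cons_val, Matrix.cons_val_fin_one, Matrix.zero_apply, Fin.isValue, Fin.zero_eta, Fin.mk_one, Fin.reduceFinMk, mul_zero, zero_mul, add_mul, mul_add, smul_mul_smul_comm] <;>
      linear_combination (norm := module) (1 : k) • h.r0 + ((i : k) * he) • (x 3 * x 0)
  · simp only [D1, D2, D3, D4, T13, H13, H12, Matrix.add_apply, Matrix.mul_apply, Fin.sum_univ_four, Fin.sum_univ_six, Fin.sum_univ_one, Matrix.of_apply, Matrix.cons_val', Matrix.cons_val_zero, Matrix.cons_val_one, Matrix.cons_val, Matrix.cons_val_fin_one, Matrix.zero_apply, Fin.isValue, Fin.zero_eta, Fin.mk_one, Fin.reduceFinMk, mul_zero, zero_mul, add_mul, mul_add, smul_mul_smul_comm] <;>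
      linear_combination (norm := module) (2*e : k) • h.r3
  · simp only [D1, D2, D3, D4, T13, H13, H12, Matrix.add_apply, Matrix.mul_apply, Fin.sum_univ_four, Fin.sum_univ_six, Fin.sum_univ_one, Matrix.of_apply, Matrix.cons_val', Matrix.cons_val_zero, Matrix.cons_val_one, Matrix.cons_val, Matrix.cons_val_fin_one, Matrix.zero_apply, Fin.isValue, Fin.zero_eta, Fin.mk_one, Fin.reduceFinMk, mul_zero, zero_mul, add_mul, mul_add, smul_mul_smul_comm] <;>
      linear_combination (norm := module) (e : k) • h.r5 + ((1 : k) * he) • (x 0 * x 0) + ((-1 : k) * he) • (x 1 * x 1)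
  · simp only [D1, D2, D3, D4, T13, H13, H12, Matrix.add_apply, Matrix.mul_apply, Fin.sum_univ_four, Fin.sum_univ_six, Fin.sum_univ_one, Matrix.of_apply, Matrix.cons_val', Matrix.cons_val_zero, Matrix.cons_val_one, Matrix.cons_val, Matrix.cons_val_fin_one, Matrix.zero_apply, Fin.isValue, Fin.zero_eta, Fin.mk_one, Fin.reduceFinMk, mul_zero, zero_mul, add_mul, mul_add, smul_mul_smul_comm] <;>
      linear_combination (norm := module) (e : k) • h.r3
  · simp only [D1, D2, D3, D4, T13, H13, H12, Matrix.add_apply, Matrix.mul_apply, Fin.sum_univ_four, Fin.sum_univ_six, Fin.sum_univ_one, Matrix.of_apply, Matrix.cons_val', Matrix.cons_val_zero, Matrix.cons_val_one, Matrix.cons_val, Matrix.cons_val_fin_one, Matrix.zero_apply, Fin.isValue, Fin.zero_eta, Fin.mk_one, Fin.reduceFinMk, mul_zero, zero_mul, add_mul, mul_add, smul_mul_smul_comm] <;>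
      module
  · simp only [D1, D2, D3, D4, T13, H13, H12, Matrix.add_apply, Matrix.mul_apply, Fin.sum_univ_four, Fin.sum_univ_six, Fin.sum_univ_one, Matrix.of_apply, Matrix.cons_val', Matrix.cons_val_zero, Matrix.cons_val_one, Matrix.cons_val, Matrix.cons_val_fin_one, Matrix.zero_apply, Fin.isValue, Fin.zero_eta, Fin.mk_one, Fin.reduceFinMk, mul_zero, zero_mul, add_mul, mul_add, smul_mul_smul_comm] <;>
      linear_combination (norm := module) (-4*e - 12*c*e : k) • h.r3 + (8*c*e : k) • h.r4 + (2*e : k) • h.r5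
  · simp only [D1, D2, D3, D4, T13, H13, H12, Matrix.add_apply, Matrix.mul_apply, Fin.sum_univ_four, Fin.sum_univ_six, Fin.sum_univ_one, Matrix.of_apply, Matrix.cons_val', Matrix.cons_val_zero, Matrix.cons_val_one, Matrix.cons_val, Matrix.cons_val_fin_one, Matrix.zero_apply, Fin.isValue, Fin.zero_eta, Fin.mk_one, Fin.reduceFinMk, mul_zero, zero_mul, add_mul, mul_add, smul_mul_smul_comm] <;>
      linear_combination (norm := module) (-e : k) • h.r3 + ((1 : k) * he) • (x 2 * x 1)
  · simp only [D1, D2, D3, D4, T13, H13, H12, Matrix.add_apply, Matrix.mul_apply, Fin.sum_univ_four, Fin.sum_univ_six, Fin.sum_univ_one, Matrix.of_apply, Matrix.cons_val', Matrix.cons_val_zero, Matrix.cons_val_one, Matrix.cons_val, Matrix.cons_val_fin_one, Matrix.zero_apply, Fin.isValue, Fin.zero_eta, Fin.mk_one, Fin.reduceFinMk, mul_zero, zero_mul, add_mul, mul_add, smul_mul_smul_comm] <;>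
      linear_combination (norm := module) (-2*e + 2*c*e : k) • h.r3 + (e : k) • h.r5 + ((1 : k) * he) • (x 0 * x 0)
  · simp only [D1, D2, D3, D4, T13, H13, H12, Matrix.add_apply, Matrix.mul_apply, Fin.sum_univ_four, Fin.sum_univ_six, Fin.sum_univ_one, Matrix.of_apply, Matrix.cons_val', Matrix.cons_val_zero, Matrix.cons_val_one, Matrix.cons_val, Matrix.cons_val_fin_one, Matrix.zero_apply, Fin.isValue, Fin.zero_eta, Fin.mk_one, Fin.reduceFinMk, mul_zero, zero_mul, add_mul, mul_add, smul_mul_smul_comm] <;>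
      module
  · simp only [D1, D2, D3, D4, T13, H13, H12, Matrix.add_apply, Matrix.mul_apply, Fin.sum_univ_four, Fin.sum_univ_six, Fin.sum_univ_one, Matrix.of_apply, Matrix.cons_val', Matrix.cons_val_zero, Matrix.cons_val_one, Matrix.cons_val, Matrix.cons_val_fin_one, Matrix.zero_apply, Fin.isValue, Fin.zero_eta, Fin.mk_one, Fin.reduceFinMk, mul_zero, zero_mul, add_mul, mul_add, smul_mul_smul_comm] <;>
      module
  · simp only [D1, D2, D3, D4, T13, H13, H12, Matrix.add_apply, Matrix.mul_apply, Fin.sum_univ_four, Fin.sum_univ_six, Fin.sum_univ_one, Matrix.of_apply, Matrix.cons_val', Matrix.cons_val_zero, Matrix.cons_val_one, Matrix.cons_val, Matrix.cons_val_fin_one, Matrix.zero_apply, Fin.isValue, Fin.zero_eta, Fin.mk_one, Fin.reduceFinMk, mul_zero, zero_mul, add_mul, mul_add, smul_mul_smul_comm] <;>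
      module
  · simp only [D1, D2, D3, D4, T13, H13, H12, Matrix.add_apply, Matrix.mul_apply, Fin.sum_univ_four, Fin.sum_univ_six, Fin.sum_univ_one, Matrix.of_apply, Matrix.cons_val', Matrix.cons_val_zero, Matrix.cons_val_one, Matrix.cons_val, Matrix.cons_val_fin_one, Matrix.zero_apply, Fin.isValue, Fin.zero_eta, Fin.mk_one, Fin.reduceFinMk, mul_zero, zero_mul, add_mul, mul_add, smul_mul_smul_comm] <;>
      module
  · simp only [D1, D2, D3, D4, T13, H13, H12, Matrix.add_apply, Matrix.mul_apply, Fin.sum_univ_four, Fin.sum_univ_six, Fin.sum_univ_one, Matrix.of_apply, Matrix.cons_val', Matrix.cons_val_zero, Matrix.cons_val_one, Matrix.cons_val, Matrix.cons_val_fin_one, Matrix.zero_apply, Fin.isValue, Fin.zero_eta, Fin.mk_one, Fin.reduceFinMk, mul_zero, zero_mul, add_mul, mul_add, smul_mul_smul_comm] <;>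
      linear_combination (norm := module) ((-1 : k) * he) • (x 0 * x 0)

theorem HT22 (h : Rels i c x) (hi : i ^ 2 = -1) (he : 2 * c * e = 1) :
    H22 i c e x * D3 i c x + D2 i c x * H21 i c e x = T22 x := by
  ext a b
  fin_cases a <;> fin_cases b
  · simp only [D1, D2, D3, D4, T22, H22, H21, Matrix.add_apply, Matrix.mul_apply, Fin.sum_univ_four, Fin.sum_univ_six, Fin.sum_univ_one, Matrix.of_apply, Matrix.cons_val', Matrix.cons_val_zero, Matrix.cons_val_one, Matrix.cons_val, Matrix.cons_val_fin_one, Matrix.zero_apply, Fin.isValue, Fin.zero_eta, Fin.mk_one, Fin.reduceFinMk, mul_zero, zero_mul, add_mul, mul_add, smul_mul_smul_comm] <;>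
      linear_combination (norm := module) ((-1 : k) * he) • (x 1 * x 1)
  · simp only [D1, D2, D3, D4, T22, H22, H21, Matrix.add_apply, Matrix.mul_apply, Fin.sum_univ_four, Fin.sum_univ_six, Fin.sum_univ_one, Matrix.of_apply, Matrix.cons_val', Matrix.cons_val_zero, Matrix.cons_val_one, Matrix.cons_val, Matrix.cons_val_fin_one, Matrix.zero_apply, Fin.isValue, Fin.zero_eta, Fin.mk_one, Fin.reduceFinMk, mul_zero, zero_mul, add_mul, mul_add, smul_mul_smul_comm] <;>
      linear_combination (norm := module) (i^2 : k) • h.r2 + ((-1 : k) * hi) • (x 0 * x 1) + ((1 : k) * hi) • (x 1 * x 0) + ((1 : k) * he) • (x 1 * x 0)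
  · simp only [D1, D2, D3, D4, T22, H22, H21, Matrix.add_apply, Matrix.mul_apply, Fin.sum_univ_four, Fin.sum_univ_six, Fin.sum_univ_one, Matrix.of_apply, Matrix.cons_val', Matrix.cons_val_zero, Matrix.cons_val_one, Matrix.cons_val, Matrix.cons_val_fin_one, Matrix.zero_apply, Fin.isValue, Fin.zero_eta, Fin.mk_one, Fin.reduceFinMk, mul_zero, zero_mul, add_mul, mul_add, smul_mul_smul_comm] <;>
      linear_combination (norm := module) (2*c*e : k) • h.r1 + ((i : k) * he) • (x 3 * x 1)
  · simp only [D1, D2, D3, D4, T22, H22, H21, Matrix.add_apply, Matrix.mul_apply, Fin.sum_univ_four, Fin.sum_univ_six, Fin.sum_univ_one, Matrix.of_apply, Matrix.cons_val', Matrix.cons_val_zero, Matrix.cons_val_one, Matrix.cons_val, Matrix.cons_val_fin_one, Matrix.zero_apply, Fin.isValue, Fin.zero_eta, Fin.mk_one, Fin.reduceFinMk, mul_zero, zero_mul, add_mul, mul_add, smul_mul_smul_comm] <;>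
      module
  · simp only [D1, D2, D3, D4, T22, H22, H21, Matrix.add_apply, Matrix.mul_apply, Fin.sum_univ_four, Fin.sum_univ_six, Fin.sum_univ_one, Matrix.of_apply, Matrix.cons_val', Matrix.cons_val_zero, Matrix.cons_val_one, Matrix.cons_val, Matrix.cons_val_fin_one, Matrix.zero_apply, Fin.isValue, Fin.zero_eta, Fin.mk_one, Fin.reduceFinMk, mul_zero, zero_mul, add_mul, mul_add, smul_mul_smul_comm] <;>
      module
  · simp only [D1, D2, D3, D4, T22, H22, H21, Matrix.add_apply, Matrix.mul_apply, Fin.sum_univ_four, Fin.sum_univ_six, Fin.sum_univ_one, Matrix.of_apply, Matrix.cons_val', Matrix.cons_val_zero, Matrix.cons_val_one, Matrix.cons_val, Matrix.cons_val_fin_one, Matrix.zero_apply, Fin.isValue, Fin.zero_eta, Fin.mk_one, Fin.reduceFinMk, mul_zero, zero_mul, add_mul, mul_add, smul_mul_smul_comm] <;>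
      module
  · simp only [D1, D2, D3, D4, T22, H22, H21, Matrix.add_apply, Matrix.mul_apply, Fin.sum_univ_four, Fin.sum_univ_six, Fin.sum_univ_one, Matrix.of_apply, Matrix.cons_val', Matrix.cons_val_zero, Matrix.cons_val_one, Matrix.cons_val, Matrix.cons_val_fin_one, Matrix.zero_apply, Fin.isValue, Fin.zero_eta, Fin.mk_one, Fin.reduceFinMk, mul_zero, zero_mul, add_mul, mul_add, smul_mul_smul_comm] <;>
      module
  · simp only [D1, D2, D3, D4, T22, H22, H21, Matrix.add_apply, Matrix.mul_apply, Fin.sum_univ_four, Fin.sum_univ_six, Fin.sum_univ_one, Matrix.of_apply, Matrix.cons_val', Matrix.cons_val_zero, Matrix.cons_val_one, Matrix.cons_val, Matrix.cons_val_fin_one, Matrix.zero_apply, Fin.isValue, Fin.zero_eta, Fin.mk_one, Fin.reduceFinMk, mul_zero, zero_mul, add_mul, mul_add, smul_mul_smul_comm] <;>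
      module
  · simp only [D1, D2, D3, D4, T22, H22, H21, Matrix.add_apply, Matrix.mul_apply, Fin.sum_univ_four, Fin.sum_univ_six, Fin.sum_univ_one, Matrix.of_apply, Matrix.cons_val', Matrix.cons_val_zero, Matrix.cons_val_one, Matrix.cons_val, Matrix.cons_val_fin_one, Matrix.zero_apply, Fin.isValue, Fin.zero_eta, Fin.mk_one, Fin.reduceFinMk, mul_zero, zero_mul, add_mul, mul_add, smul_mul_smul_comm] <;>
      module
  · simp only [D1, D2, D3, D4, T22, H22, H21, Matrix.add_apply, Matrix.mul_apply, Fin.sum_univ_four, Fin.sum_univ_six, Fin.sum_univ_one, Matrix.of_apply, Matrix.cons_val', Matrix.cons_val_zero, Matrix.cons_val_one, Matrix.cons_val, Matrix.cons_val_fin_one, Matrix.zero_apply, Fin.isValue, Fin.zero_eta, Fin.mk_one, Fin.reduceFinMk, mul_zero, zero_mul, add_mul, mul_add, smul_mul_smul_comm] <;>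
      module
  · simp only [D1, D2, D3, D4, T22, H22, H21, Matrix.add_apply, Matrix.mul_apply, Fin.sum_univ_four, Fin.sum_univ_six, Fin.sum_univ_one, Matrix.of_apply, Matrix.cons_val', Matrix.cons_val_zero, Matrix.cons_val_one, Matrix.cons_val, Matrix.cons_val_fin_one, Matrix.zero_apply, Fin.isValue, Fin.zero_eta, Fin.mk_one, Fin.reduceFinMk, mul_zero, zero_mul, add_mul, mul_add, smul_mul_smul_comm] <;>
      module
  · simp only [D1, D2, D3, D4, T22, H22, H21, Matrix.add_apply, Matrix.mul_apply, Fin.sum_univ_four, Fin.sum_univ_six, Fin.sum_univ_one, Matrix.of_apply, Matrix.cons_val', Matrix.cons_val_zero, Matrix.cons_val_one, Matrix.cons_val, Matrix.cons_val_fin_one, Matrix.zero_apply, Fin.isValue, Fin.zero_eta, Fin.mk_one, Fin.reduceFinMk, mul_zero, zero_mul, add_mul, mul_add, smul_mul_smul_comm] <;>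
      module
  · simp only [D1, D2, D3, D4, T22, H22, H21, Matrix.add_apply, Matrix.mul_apply, Fin.sum_univ_four, Fin.sum_univ_six, Fin.sum_univ_one, Matrix.of_apply, Matrix.cons_val', Matrix.cons_val_zero, Matrix.cons_val_one, Matrix.cons_val, Matrix.cons_val_fin_one, Matrix.zero_apply, Fin.isValue, Fin.zero_eta, Fin.mk_one, Fin.reduceFinMk, mul_zero, zero_mul, add_mul, mul_add, smul_mul_smul_comm] <;>
      module
  · simp only [D1, D2, D3, D4, T22, H22, H21, Matrix.add_apply, Matrix.mul_apply, Fin.sum_univ_four, Fin.sum_univ_six, Fin.sum_univ_one, Matrix.of_apply, Matrix.cons_val', Matrix.cons_val_zero, Matrix.cons_val_one, Matrix.cons_val, Matrix.cons_val_fin_one, Matrix.zero_apply, Fin.isValue, Fin.zero_eta, Fin.mk_one, Fin.reduceFinMk, mul_zero, zero_mul, add_mul, mul_add, smul_mul_smul_comm] <;>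
      linear_combination (norm := module) (-i : k) • h.r1 + ((-1 : k) * hi) • (x 3 * x 1)
  · simp only [D1, D2, D3, D4, T22, H22, H21, Matrix.add_apply, Matrix.mul_apply, Fin.sum_univ_four, Fin.sum_univ_six, Fin.sum_univ_one, Matrix.of_apply, Matrix.cons_val', Matrix.cons_val_zero, Matrix.cons_val_one, Matrix.cons_val, Matrix.cons_val_fin_one, Matrix.zero_apply, Fin.isValue, Fin.zero_eta, Fin.mk_one, Fin.reduceFinMk, mul_zero, zero_mul, add_mul, mul_add, smul_mul_smul_comm] <;>
      module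
  · simp only [D1, D2, D3, D4, T22, H22, H21, Matrix.add_apply, Matrix.mul_apply, Fin.sum_univ_four, Fin.sum_univ_six, Fin.sum_univ_one, Matrix.of_apply, Matrix.cons_val', Matrix.cons_val_zero, Matrix.cons_val_one, Matrix.cons_val, Matrix.cons_val_fin_one, Matrix.zero_apply, Fin.isValue, Fin.zero_eta, Fin.mk_one, Fin.reduceFinMk, mul_zero, zero_mul, add_mul, mul_add, smul_mul_smul_comm] <;>
      module
  · simp only [D1, D2, D3, D4, T22, H22, H21, Matrix.add_apply, Matrix.mul_apply, Fin.sum_univ_four, Fin.sum_univ_six, Fin.sum_univ_one, Matrix.of_apply, Matrix.cons_val', Matrix.cons_val_zero, Matrix.cons_val_one, Matrix.cons_val, Matrix.cons_val_fin_one, Matrix.zero_apply, Fin.isValue, Fin.zero_eta, Fin.mk_one, Fin.reduceFinMk, mul_zero, zero_mul, add_mul, mul_add, smul_mul_smul_comm] <;>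
      module
  · simp only [D1, D2, D3, D4, T22, H22, H21, Matrix.add_apply, Matrix.mul_apply, Fin.sum_univ_four, Fin.sum_univ_six, Fin.sum_univ_one, Matrix.of_apply, Matrix.cons_val', Matrix.cons_val_zero, Matrix.cons_val_one, Matrix.cons_val, Matrix.cons_val_fin_one, Matrix.zero_apply, Fin.isValue, Fin.zero_eta, Fin.mk_one, Fin.reduceFinMk, mul_zero, zero_mul, add_mul, mul_add, smul_mul_smul_comm] <;>
      module
  · simp only [D1, D2, D3, D4, T22, H22, H21, Matrix.add_apply, Matrix.mul_apply, Fin.sum_univ_four, Fin.sum_univ_six, Fin.sum_univ_one, Matrix.of_apply, Matrix.cons_val', Matrix.cons_val_zero, Matrix.cons_val_one, Matrix.cons_val, Matrix.cons_val_fin_one, Matrix.zero_apply, Fin.isValue, Fin.zero_eta, Fin.mk_one, Fin.reduceFinMk, mul_zero, zero_mul, add_mul, mul_add, smul_mul_smul_comm] <;>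
      module
  · simp only [D1, D2, D3, D4, T22, H22, H21, Matrix.add_apply, Matrix.mul_apply, Fin.sum_univ_four, Fin.sum_univ_six, Fin.sum_univ_one, Matrix.of_apply, Matrix.cons_val', Matrix.cons_val_zero, Matrix.cons_val_one, Matrix.cons_val, Matrix.cons_val_fin_one, Matrix.zero_apply, Fin.isValue, Fin.zero_eta, Fin.mk_one, Fin.reduceFinMk, mul_zero, zero_mul, add_mul, mul_add, smul_mul_smul_comm] <;>
      module
  · simp only [D1, D2, D3, D4, T22, H22, H21, Matrix.add_apply, Matrix.mul_apply, Fin.sum_univ_four, Fin.sum_univ_six, Fin.sum_univ_one, Matrix.of_apply, Matrix.cons_val', Matrix.cons_val_zero, Matrix.cons_val_one, Matrix.cons_val, Matrix.cons_val_fin_one, Matrix.zero_apply, Fin.isValue, Fin.zero_eta, Fin.mk_one, Fin.reduceFinMk, mul_zero, zero_mul, add_mul, mul_add, smul_mul_smul_comm] <;>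
      module
  · simp only [D1, D2, D3, D4, T22, H22, H21, Matrix.add_apply, Matrix.mul_apply, Fin.sum_univ_four, Fin.sum_univ_six, Fin.sum_univ_one, Matrix.of_apply, Matrix.cons_val', Matrix.cons_val_zero, Matrix.cons_val_one, Matrix.cons_val, Matrix.cons_val_fin_one, Matrix.zero_apply, Fin.isValue, Fin.zero_eta, Fin.mk_one, Fin.reduceFinMk, mul_zero, zero_mul, add_mul, mul_add, smul_mul_smul_comm] <;>
      linear_combination (norm := module) (1 : k) • h.r3
  · simp only [D1, D2, D3, D4, T22, H22, H21, Matrix.add_apply, Matrix.mul_apply, Fin.sum_univ_four, Fin.sum_univ_six, Fin.sum_univ_one, Matrix.of_apply, Matrix.cons_val', Matrix.cons_val_zero, Matrix.cons_val_one, Matrix.cons_val, Matrix.cons_val_fin_one, Matrix.zero_apply, Fin.isValue, Fin.zero_eta, Fin.mk_one, Fin.reduceFinMk, mul_zero, zero_mul, add_mul, mul_add, smul_mul_smul_comm] <;>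
      module
  · simp only [D1, D2, D3, D4, T22, H22, H21, Matrix.add_apply, Matrix.mul_apply, Fin.sum_univ_four, Fin.sum_univ_six, Fin.sum_univ_one, Matrix.of_apply, Matrix.cons_val', Matrix.cons_val_zero, Matrix.cons_val_one, Matrix.cons_val, Matrix.cons_val_fin_one, Matrix.zero_apply, Fin.isValue, Fin.zero_eta, Fin.mk_one, Fin.reduceFinMk, mul_zero, zero_mul, add_mul, mul_add, smul_mul_smul_comm] <;>
      module
  · simp only [D1, D2, D3, D4, T22, H22, H21, Matrix.add_apply, Matrix.mul_apply, Fin.sum_univ_four, Fin.sum_univ_six, Fin.sum_univ_one, Matrix.of_apply, Matrix.cons_val', Matrix.cons_val_zero, Matrix.cons_val_one, Matrix.cons_val, Matrix.cons_val_fin_one, Matrix.zero_apply, Fin.isValue, Fin.zero_eta, Fin.mk_one, Fin.reduceFinMk, mul_zero, zero_mul, add_mul, mul_add, smul_mul_smul_comm] <;>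
      module
  · simp only [D1, D2, D3, D4, T22, H22, H21, Matrix.add_apply, Matrix.mul_apply, Fin.sum_univ_four, Fin.sum_univ_six, Fin.sum_univ_one, Matrix.of_apply, Matrix.cons_val', Matrix.cons_val_zero, Matrix.cons_val_one, Matrix.cons_val, Matrix.cons_val_fin_one, Matrix.zero_apply, Fin.isValue, Fin.zero_eta, Fin.mk_one, Fin.reduceFinMk, mul_zero, zero_mul, add_mul, mul_add, smul_mul_smul_comm] <;>
      linear_combination (norm := module) ((-i : k) * he) • (x 2 * x 3)
  · simp only [D1, D2, D3, D4, T22, H22, H21, Matrix.add_apply, Matrix.mul_apply, Fin.sum_univ_four, Fin.sum_univ_six, Fin.sum_univ_one, Matrix.of_apply, Matrix.cons_val', Matrix.cons_val_zero, Matrix.cons_val_one, Matrix.cons_val, Matrix.cons_val_fin_one, Matrix.zero_apply, Fin.isValue, Fin.zero_eta, Fin.mk_one, Fin.reduceFinMk, mul_zero, zero_mul, add_mul, mul_add, smul_mul_smul_comm] <;>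
      linear_combination (norm := module) ((1 : k) * he) • (x 2 * x 1)
  · simp only [D1, D2, D3, D4, T22, H22, H21, Matrix.add_apply, Matrix.mul_apply, Fin.sum_univ_four, Fin.sum_univ_six, Fin.sum_univ_one, Matrix.of_apply, Matrix.cons_val', Matrix.cons_val_zero, Matrix.cons_val_one, Matrix.cons_val, Matrix.cons_val_fin_one, Matrix.zero_apply, Fin.isValue, Fin.zero_eta, Fin.mk_one, Fin.reduceFinMk, mul_zero, zero_mul, add_mul, mul_add, smul_mul_smul_comm] <;>
      linear_combination (norm := module) (-4*c*e : k) • h.r3 + (1 : k) • h.r4 + ((-2 : k) * he) • (x 1 * x 1) + ((1 : k) * he) • (x 2 * x 0)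
  · simp only [D1, D2, D3, D4, T22, H22, H21, Matrix.add_apply, Matrix.mul_apply, Fin.sum_univ_four, Fin.sum_univ_six, Fin.sum_univ_one, Matrix.of_apply, Matrix.cons_val', Matrix.cons_val_zero, Matrix.cons_val_one, Matrix.cons_val, Matrix.cons_val_fin_one, Matrix.zero_apply, Fin.isValue, Fin.zero_eta, Fin.mk_one, Fin.reduceFinMk, mul_zero, zero_mul, add_mul, mul_add, smul_mul_smul_comm] <;>
      linear_combination (norm := module) (2*c*e : k) • h.r3 + ((1 : k) * he) • (x 1 * x 1)
  · simp only [D1, D2, D3, D4, T22, H22, H21, Matrix.add_apply, Matrix.mul_apply, Fin.sum_univ_four, Fin.sum_univ_six, Fin.sum_univ_one, Matrix.of_apply, Matrix.cons_val', Matrix.cons_val_zero, Matrix.cons_val_one, Matrix.cons_val, Matrix.cons_val_fin_one, Matrix.zero_apply, Fin.isValue, Fin.zero_eta, Fin.mk_one, Fin.reduceFinMk, mul_zero, zero_mul, add_mul, mul_add, smul_mul_smul_comm] <;>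
      module
  · simp only [D1, D2, D3, D4, T22, H22, H21, Matrix.add_apply, Matrix.mul_apply, Fin.sum_univ_four, Fin.sum_univ_six, Fin.sum_univ_one, Matrix.of_apply, Matrix.cons_val', Matrix.cons_val_zero, Matrix.cons_val_one, Matrix.cons_val, Matrix.cons_val_fin_one, Matrix.zero_apply, Fin.isValue, Fin.zero_eta, Fin.mk_one, Fin.reduceFinMk, mul_zero, zero_mul, add_mul, mul_add, smul_mul_smul_comm] <;>
      module
  · simp only [D1, D2, D3, D4, T22, H22, H21, Matrix.add_apply, Matrix.mul_apply, Fin.sum_univ_four, Fin.sum_univ_six, Fin.sum_univ_one, Matrix.of_apply, Matrix.cons_val', Matrix.cons_val_zero, Matrix.cons_val_one, Matrix.cons_val, Matrix.cons_val_fin_one, Matrix.zero_apply, Fin.isValue, Fin.zero_eta, Fin.mk_one, Fin.reduceFinMk, mul_zero, zero_mul, add_mul, mul_add, smul_mul_smul_comm] <;>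
      module
  · simp only [D1, D2, D3, D4, T22, H22, H21, Matrix.add_apply, Matrix.mul_apply, Fin.sum_univ_four, Fin.sum_univ_six, Fin.sum_univ_one, Matrix.of_apply, Matrix.cons_val', Matrix.cons_val_zero, Matrix.cons_val_one, Matrix.cons_val, Matrix.cons_val_fin_one, Matrix.zero_apply, Fin.isValue, Fin.zero_eta, Fin.mk_one, Fin.reduceFinMk, mul_zero, zero_mul, add_mul, mul_add, smul_mul_smul_comm] <;>
      module
  · simp only [D1, D2, D3, D4, T22, H22, H21, Matrix.add_apply, Matrix.mul_apply, Fin.sum_univ_four, Fin.sum_univ_six, Fin.sum_univ_one, Matrix.of_apply, Matrix.cons_val', Matrix.cons_val_zero, Matrix.cons_val_one, Matrix.cons_val, Matrix.cons_val_fin_one, Matrix.zero_apply, Fin.isValue, Fin.zero_eta, Fin.mk_one, Fin.reduceFinMk, mul_zero, zero_mul, add_mul, mul_add, smul_mul_smul_comm] <;>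
      linear_combination (norm := module) (-2 - 6*c : k) • h.r3 + (4*c : k) • h.r4 + (1 : k) • h.r5
  · simp only [D1, D2, D3, D4, T22, H22, H21, Matrix.add_apply, Matrix.mul_apply, Fin.sum_univ_four, Fin.sum_univ_six, Fin.sum_univ_one, Matrix.of_apply, Matrix.cons_val', Matrix.cons_val_zero, Matrix.cons_val_one, Matrix.cons_val, Matrix.cons_val_fin_one, Matrix.zero_apply, Fin.isValue, Fin.zero_eta, Fin.mk_one, Fin.reduceFinMk, mul_zero, zero_mul, add_mul, mul_add, smul_mul_smul_comm] <;>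
      linear_combination (norm := module) (4*c : k) • h.r3 + (-2*c : k) • h.r4
  · simp only [D1, D2, D3, D4, T22, H22, H21, Matrix.add_apply, Matrix.mul_apply, Fin.sum_univ_four, Fin.sum_univ_six, Fin.sum_univ_one, Matrix.of_apply, Matrix.cons_val', Matrix.cons_val_zero, Matrix.cons_val_one, Matrix.cons_val, Matrix.cons_val_fin_one, Matrix.zero_apply, Fin.isValue, Fin.zero_eta, Fin.mk_one, Fin.reduceFinMk, mul_zero, zero_mul, add_mul, mul_add, smul_mul_smul_comm] <;>
      linear_combination (norm := module) (1 : k) • h.r3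

end Pool.Agent.H72.Pm
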