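import Pool.Agent.H72.PmA

set_option autoImplicit false
set_option linter.unusedVariables false
set_option linter.unusedSimpArgs false
set_option linter.unnecessarySeqFocus false

namespace Pool.Agent.H72.Pm

open MvPolynomial

variable {k : Type} [Field k]

abbrev P (k : Type) [Field k] := MvPolynomial (Fin 3) k
abbrev Cl (k : Type) [Field k] := P k × P k × P k × P k
abbrev J := Option (Bool × ℕ)
abbrev V (k : Type) [Field k] := J →₀ Cl k

noncomputable def sg : P k →ₐ[k] P k := aeval ![-X 0, -X 1, X 2]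

@[simp] theorem sg0 : sg (X 0 : P k) = -X 0 := by simp [sg]
@[simp] theorem sg1 : sg (X 1 : P k) = -X 1 := by simp [sg]
@[simp] theorem sg2 : sg (X 2 : P k) = X 2 := by simp [sg]
@[simp] theorem sgsg (p : P k) : sg (sg p) = p := by
  have : (sg.comp sg : P k →ₐ[k] P k) = AlgHom.id k _ := by
    ext j; fin_cases j <;> simp
  exact DFunLike.congr_fun this p

noncomputable def L0 : Cl k →ₗ[k] Cl k where
  toFun v := (X 0 * v.2.1, v.1, X 0 * v.2.2.2, v.2.2.1)
  map_add' u v := by ext <;> simp [mul_add]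
  map_smul' a v := by ext <;> simp

noncomputable def L1 : Cl k →ₗ[k] Cl k where
  toFun v := (X 2 * v.2.1 + X 1 * v.2.2.1, -(X 1 * v.2.2.2), v.1 + X 2 * v.2.2.2, -v.2.1)
  map_add' u v := by refine Prod.ext ?_ (Prod.ext ?_ (Prod.ext ?_ ?_)) <;> simp <;> ring
  map_smul' a v := by refine Prod.ext ?_ (Prod.ext ?_ (Prod.ext ?_ ?_)) <;> simp

noncomputable def al : Cl k →ₗ[k] Cl k where
  toFun v := (v.1, -v.2.1, -v.2.2.1, v.2.2.2)
  map_add' u v := by refine Prod.ext ?_ (Prod.ext ?_ (Prod.ext ?_ ?_)) <;> simp <;> ring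
  map_smul' a v := by refine Prod.ext ?_ (Prod.ext ?_ (Prod.ext ?_ ?_)) <;> simp

noncomputable def pa : P k := (2 : k) • X 1
noncomputable def pb (c : k) : P k := (2 * c) • X 0 + (2 * (1 - c)) • X 1

noncomputable def de (c : k) : Cl k →ₗ[k] Cl k where
  toFun v := (pa * v.2.1 + pb c * v.2.2.1, -(pb c * v.2.2.2), pa * v.2.2.2, 0)
  map_add' u v := by refine Prod.ext ?_ (Prod.ext ?_ (Prod.ext ?_ ?_)) <;> simp <;> ring
  map_smul' a v := by refine Prod.ext ?_ (Prod.ext ?_ (Prod.ext ?_ ?_)) <;> simp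

noncomputable def be (i : k) : Cl k →ₗ[k] Cl k where
  toFun v := (sg v.1, i • sg v.2.1, -(i • sg v.2.2.1), sg v.2.2.2)
  map_add' u v := by refine Prod.ext ?_ (Prod.ext ?_ (Prod.ext ?_ ?_)) <;> simp <;> ring
  map_smul' a v := by
    refine Prod.ext ?_ (Prod.ext ?_ (Prod.ext ?_ ?_)) <;> simp [smul_comm i a]

noncomputable def Rw : Cl k →ₗ[k] Cl k where
  toFun v := (X 2 * v.1 + 2 * (X 0 * X 1) * v.2.2.2, X 2 * v.2.1 + 2 * X 1 * v.2.2.1,
    -(2 * X 0 * v.2.1) - X 2 * v.2.2.1, -(2 * v.1) - X 2 * v.2.2.2)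
  map_add' u v := by refine Prod.ext ?_ (Prod.ext ?_ (Prod.ext ?_ ?_)) <;> simp <;> ring
  map_smul' a v := by
    refine Prod.ext ?_ (Prod.ext ?_ (Prod.ext ?_ ?_)) <;> simp [smul_sub]

noncomputable def mu (p : P k) : Cl k →ₗ[k] Cl k where
  toFun v := p • v
  map_add' u v := smul_add _ _ _
  map_smul' a v := by simp [smul_comm p a]

def nxt (a : Bool) : J → J
  | none => some (a, 0)
  | some (b, n) => if b = a then (match n with | 0 => none | m + 1 => some (!a, m)) else some (a, n + 1)

def red (a : Bool) : J → Bool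
  | none => false
  | some (b, _) => b = a

theorem nxt_nxt (a : Bool) (j : J) : nxt a (nxt a j) = j := by
  rcases j with _ | ⟨b, _ | n⟩ <;> cases a <;> (try cases b) <;> simp [nxt]

theorem red_nxt (a : Bool) (j : J) : red a (nxt a j) = !red a j := by
  rcases j with _ | ⟨b, _ | n⟩ <;> cases a <;> (try cases b) <;> simp [nxt, red]

noncomputable def op (a : Bool) (d s r : Cl k →ₗ[k] Cl k) : Module.End k (V k) :=
  Finsupp.lsum k fun j => Finsupp.lsingle j ∘ₗ d +
    Finsupp.lsingle (nxt a j) ∘ₗ (if red a j then r ∘ₗ s else s)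

theorem op_single (a : Bool) (d s r : Cl k →ₗ[k] Cl k) (j : J) (v : Cl k) :
    op a d s r (Finsupp.single j v) = Finsupp.single j (d v) +
      Finsupp.single (nxt a j) (if red a j then r (s v) else s v) := by
  unfold op
  rw [Finsupp.lsum_single]
  cases red a j <;> simp

noncomputable def dg (l : Cl k →ₗ[k] Cl k) : Module.End k (V k) := Finsupp.mapRange.linearMap l

theorem dg_single (l : Cl k →ₗ[k] Cl k) (j : J) (v : Cl k) :
    dg l (Finsupp.single j v) = Finsupp.single j (l v) := by simp [dg]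

noncomputable def Xo (i c : k) : Fin 4 → Module.End k (V k) :=
  ![dg L0, dg L1, op false (de c) al (mu (X 1)), op true 0 (be i) Rw]

theorem two_single {j j' : J} {u u' : Cl k} (h : u = 0) (h' : u' = 0) :
    Finsupp.single j u + Finsupp.single j' u' = 0 := by simp [h, h']

theorem Xo_rels {i c : k} (hi : i ^ 2 = -1) : Rels i c (Xo i c) := by
  have hI : (C i : P k) ^ 2 = -1 := by rw [← map_pow, hi]; simp
  constructor
  all_goals
    refine Finsupp.lhom_ext fun j v => ?_
    simp only [Xo, Matrix.cons_val_zero, Matrix.cons_val_one, Matrix.cons_val, LinearMap.add_apply,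
      LinearMap.sub_apply, LinearMap.smul_apply, Module.End.mul_apply, op_single, dg_single, map_add,
      nxt_nxt, red_nxt, LinearMap.zero_apply, Finsupp.single_zero, map_zero, zero_add]
  all_goals
    obtain ⟨v0, v1, v2, v3⟩ := v
    refine Finsupp.ext fun j' => ?_
    simp only [Finsupp.add_apply, Finsupp.sub_apply, Finsupp.smul_apply, Finsupp.single_apply,
      Finsupp.zero_apply]
    generalize red _ j = r
    cases r <;> simp only [Bool.false_eq_true, if_false, if_true, Bool.not_false, Bool.not_true] <;>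
      split_ifs <;> refine Prod.ext ?_ (Prod.ext ?_ (Prod.ext ?_ ?_)) <;>
      simp [L0, L1, al, de, be, Rw, mu, pa, pb, smul_eq_C_mul, map_ofNat] <;>
      first | ring1 | grind

end Pool.Agent.H72.Pm
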