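import Pool.Agent.H72.PmB

set_option autoImplicit false
set_option linter.unusedVariables false
set_option linter.unusedSimpArgs false
set_option linter.unnecessarySeqFocus false
set_option linter.unusedSectionVars false

namespace Pool.Agent.H72.Pm

open MvPolynomial

variable {k : Type} [Field k] {A : Type} [Ring A] [Algebra k A] {i c : k} {x : Fin 4 → A}

def uu (x : Fin 4 → A) : Fin 3 → A := ![x 0 * x 0, x 1 * x 1, x 0 * x 1 + x 1 * x 0]

section comm
variable (h : Rels i c x) (hi : i ^ 2 = -1)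
include h hi

theorem x30 : x 3 * x 0 = i • (x 0 * x 3) := by
  linear_combination (norm := module) (-i) • h.r0 + hi • (x 3 * x 0)

theorem x31 : x 3 * x 1 = (-i) • (x 1 * x 3) := by
  linear_combination (norm := module) i • h.r1 + hi • (x 3 * x 1)

theorem x33 : x 3 * x 3 = x 1 * x 0 - x 0 * x 1 := by
  linear_combination (norm := module) h.r2

theorem x3l0 (a : A) : x 3 * (x 0 * a) = i • (x 0 * (x 3 * a)) := by
  rw [← mul_assoc, x30 h hi, smul_mul_assoc, mul_assoc]

theorem x3l1 (a : A) : x 3 * (x 1 * a) = (-i) • (x 1 * (x 3 * a)) := by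
  rw [← mul_assoc, x31 h hi, smul_mul_assoc, mul_assoc]

theorem c3 (j : Fin 3) : x 3 * uu x j = (![-1, -1, 1] j : k) • (uu x j * x 3) := by
  fin_cases j <;>
    simp only [uu, Fin.zero_eta, Fin.mk_one, Fin.reduceFinMk, Matrix.cons_val_zero, Matrix.cons_val_one,
      Matrix.cons_val, mul_add, add_mul, x3l0 h hi, x3l1 h hi, x30 h hi, x31 h hi, mul_smul_comm, mul_assoc]
  · linear_combination (norm := module) hi • (x 0 * (x 0 * x 3))
  · linear_combination (norm := module) hi • (x 1 * (x 1 * x 3))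
  · linear_combination (norm := module) (-hi) • (x 0 * (x 1 * x 3)) + (-hi) • (x 1 * (x 0 * x 3))

theorem c001 : x 0 * (x 0 * x 1) = x 1 * (x 0 * x 0) := by
  have e : x 3 * (x 3 * x 0) = -(x 0 * (x 3 * x 3)) := by
    rw [x30 h hi, mul_smul_comm, x3l0 h hi]
    linear_combination (norm := module) hi • (x 0 * (x 3 * x 3))
  rw [← mul_assoc, x33 h hi] at e
  simp only [mul_sub, sub_mul, mul_assoc] at e
  linear_combination (norm := module) -e

theorem c110 : x 1 * (x 1 * x 0) = x 0 * (x 1 * x 1) := by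
  have e : x 3 * (x 3 * x 1) = -(x 1 * (x 3 * x 3)) := by
    rw [x31 h hi, mul_smul_comm, x3l1 h hi]
    linear_combination (norm := module) hi • (x 1 * (x 3 * x 3))
  rw [← mul_assoc, x33 h hi] at e
  simp only [mul_sub, sub_mul, mul_assoc] at e
  linear_combination (norm := module) e

theorem c0 (j : Fin 3) : Commute (x 0) (uu x j) := by
  have e1 := c001 h hi
  have e2 := c110 h hi
  fin_cases j <;>
    simp only [uu, Fin.zero_eta, Fin.mk_one, Fin.reduceFinMk, Matrix.cons_val_zero, Matrix.cons_val_one,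
      Matrix.cons_val, Commute, SemiconjBy, mul_add, add_mul, mul_assoc]
  · exact e2.symm
  · rw [e1, add_comm]

theorem c1 (j : Fin 3) : Commute (x 1) (uu x j) := by
  have e1 := c001 h hi
  have e2 := c110 h hi
  fin_cases j <;>
    simp only [uu, Fin.zero_eta, Fin.mk_one, Fin.reduceFinMk, Matrix.cons_val_zero, Matrix.cons_val_one,
      Matrix.cons_val, Commute, SemiconjBy, mul_add, add_mul, mul_assoc]
  · exact e1.symm
  · rw [e2, add_comm]

theorem x20 : x 2 * x 0 = (2 : k) • uu x 1 - x 0 * x 2 := by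
  simp only [uu, Matrix.cons_val_one, Matrix.cons_val_zero]
  linear_combination (norm := module) h.r4

theorem x21 : x 2 * x 1 = (2 * c) • uu x 0 + (2 * (1 - c)) • uu x 1 - x 1 * x 2 := by
  simp only [uu, Matrix.cons_val_one, Matrix.cons_val_zero]
  linear_combination (norm := module) h.r5

theorem x22 : x 2 * x 2 = uu x 1 := by
  simp only [uu, Matrix.cons_val_one, Matrix.cons_val_zero]
  linear_combination (norm := module) h.r3

theorem c2 (j : Fin 3) : Commute (x 2) (uu x j) := by
  have a0 := (c0 h hi 0).eq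
  have a1 := (c0 h hi 1).eq
  have b0 := (c1 h hi 0).eq
  have b1 := (c1 h hi 1).eq
  have l0 : ∀ a, x 2 * (x 0 * a) = (2 : k) • (uu x 1 * a) - x 0 * (x 2 * a) := fun a => by
    rw [← mul_assoc, x20 h hi, sub_mul, smul_mul_assoc, mul_assoc]
  have l1 : ∀ a, x 2 * (x 1 * a) = (2 * c) • (uu x 0 * a) + (2 * (1 - c)) • (uu x 1 * a) -
      x 1 * (x 2 * a) := fun a => by
    rw [← mul_assoc, x21 h hi, sub_mul, add_mul, smul_mul_assoc, smul_mul_assoc, mul_assoc]
  fin_cases j
  · show x 2 * (x 0 * x 0) = x 0 * x 0 * x 2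
    rw [l0, x20 h hi, mul_sub, mul_smul_comm, a1, mul_assoc]; abel
  · show x 2 * uu x 1 = uu x 1 * x 2
    rw [← x22 h hi, mul_assoc]
  · show x 2 * (x 0 * x 1 + x 1 * x 0) = (x 0 * x 1 + x 1 * x 0) * x 2
    rw [mul_add, l0, l1, x20 h hi, x21 h hi]
    simp only [mul_sub, mul_add, add_mul, mul_smul_comm, a0, a1, b0, b1, mul_assoc]
    abel

theorem cuu (j l : Fin 3) : Commute (uu x j) (uu x l) := by
  fin_cases j
  · exact (c0 h hi l).mul_left (c0 h hi l)
  · exact (c1 h hi l).mul_left (c1 h hi l)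
  · exact ((c0 h hi l).mul_left (c1 h hi l)).add_left ((c1 h hi l).mul_left (c0 h hi l))

theorem exists_rho : ∃ ρ : P k →ₐ[k] A, ∀ j, ρ (X j) = uu x j := by
  have hc : ∀ a ∈ Set.range (uu x), ∀ b ∈ Set.range (uu x), a * b = b * a := by
    rintro _ ⟨j, rfl⟩ _ ⟨l, rfl⟩; exact (cuu h hi j l).eq
  letI := Algebra.adjoinCommRingOfComm k hc
  refine ⟨(Algebra.adjoin k (Set.range (uu x))).val.comp
    (aeval fun j => (⟨uu x j, Algebra.subset_adjoin ⟨j, rfl⟩⟩ : Algebra.adjoin k (Set.range (uu x)))),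
    fun j => ?_⟩
  simp

end comm

def yy (x : Fin 4 → A) (a : Bool) : A := if a then x 3 else x 2

def wd (x : Fin 4 → A) : Bool → ℕ → A
  | a, 0 => yy x a
  | a, n + 1 => yy x a * wd x (!a) n

def word (x : Fin 4 → A) : J → A
  | none => 1
  | some (a, n) => wd x a n

theorem word_nxt (a : Bool) (j : J) :
    if red a j then word x j = yy x a * word x (nxt a j) else word x (nxt a j) = yy x a * word x j := by
  rcases j with _ | ⟨b, _ | n⟩ <;> cases a <;> (try cases b) <;> simp [nxt, red, word, wd]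

noncomputable def io (x : Fin 4 → A) (ρ : P k →ₐ[k] A) : Cl k →ₗ[k] A where
  toFun v := ρ v.1 + ρ v.2.1 * x 0 + ρ v.2.2.1 * x 1 + ρ v.2.2.2 * (x 0 * x 1)
  map_add' u v := by simp [add_mul]; abel
  map_smul' a v := by simp

noncomputable def psi (x : Fin 4 → A) (ρ : P k →ₐ[k] A) : V k →ₗ[k] A :=
  Finsupp.lsum k fun j => LinearMap.mulRight k (word x j) ∘ₗ io x ρ

theorem psi_single (ρ : P k →ₐ[k] A) (j : J) (v : Cl k) :
    psi x ρ (Finsupp.single j v) = io x ρ v * word x j := by
  unfold psi; rw [Finsupp.lsum_single]; rfl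

section lin
variable (h : Rels i c x) (hi : i ^ 2 = -1) {ρ : P k →ₐ[k] A} (hρ : ∀ j, ρ (X j) = uu x j)
include h hi hρ

theorem rho_comm (a : A) (ha : ∀ j, Commute a (uu x j)) (p : P k) : a * ρ p = ρ p * a := by
  induction p using MvPolynomial.induction_on with
  | C r => rw [algHom_C]; exact (Algebra.commutes r a).symm
  | add p q hp hq => rw [map_add, mul_add, add_mul, hp, hq]
  | mul_X p j hp => rw [map_mul, hρ, ← mul_assoc, hp, mul_assoc, (ha j).eq, mul_assoc]

theorem rho3 (p : P k) : x 3 * ρ p = ρ (sg p) * x 3 := by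
  induction p using MvPolynomial.induction_on with
  | C r => rw [algHom_C, algHom_C, algebraMap_eq, algHom_C]; exact (Algebra.commutes r _).symm
  | add p q hp hq => rw [map_add, mul_add, map_add, map_add, add_mul, hp, hq]
  | mul_X p j hp =>
    rw [map_mul, hρ, ← mul_assoc, hp, mul_assoc, c3 h hi, map_mul, map_mul, mul_assoc]
    congr 1
    fin_cases j <;> simp [hρ]

theorem psi_X (r : Fin 4) (v : V k) : psi x ρ (Xo i c r v) = x r * psi x ρ v := by
  have r0 := rho_comm h hi hρ _ (c0 h hi)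
  have r1 := rho_comm h hi hρ _ (c1 h hi)
  have r2 := rho_comm h hi hρ _ (c2 h hi)
  have r3 := rho3 h hi hρ
  have s0 : ∀ p a, x 0 * (ρ p * a) = ρ p * (x 0 * a) := fun p a => by rw [← mul_assoc, r0, mul_assoc]
  have s1 : ∀ p a, x 1 * (ρ p * a) = ρ p * (x 1 * a) := fun p a => by rw [← mul_assoc, r1, mul_assoc]
  have s2 : ∀ p a, x 2 * (ρ p * a) = ρ p * (x 2 * a) := fun p a => by rw [← mul_assoc, r2, mul_assoc]
  have s3 : ∀ p a, x 3 * (ρ p * a) = ρ (sg p) * (x 3 * a) := fun p a => by
    rw [← mul_assoc, r3, mul_assoc]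
  have e1 := c001 h hi
  have e2 := c110 h hi
  have u0 : ρ (X 0) = x 0 * x 0 := hρ 0
  have u1 : ρ (X 1) = x 1 * x 1 := hρ 1
  have u2 : ρ (X 2) = x 0 * x 1 + x 1 * x 0 := hρ 2
  have cm : ∀ p q : P k, ρ (p * q) = ρ q * ρ p := fun p q => by rw [mul_comm, map_mul]
  have iL0 : ∀ w : Cl k, io x ρ (L0 w) = x 0 * io x ρ w := fun w => by
    simp only [io, L0, LinearMap.coe_mk, AddHom.coe_mk, cm, u0, mul_add, s0, r0, mul_assoc]
    abel
  have iL1 : ∀ w : Cl k, io x ρ (L1 w) = x 1 * io x ρ w := fun w => by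
    simp only [io, L1, LinearMap.coe_mk, AddHom.coe_mk, cm, u1, u2, map_add, map_neg, mul_add, add_mul,
      s1, r1, mul_assoc, neg_mul, e2]
    abel
  have i2 : ∀ w : Cl k, x 2 * io x ρ w = io x ρ (al w) * x 2 + io x ρ (de c w) := fun w => by
    have l0 : ∀ a, x 2 * (x 0 * a) = (2 : k) • (x 1 * (x 1 * a)) - x 0 * (x 2 * a) := fun a => by
      rw [← mul_assoc, x20 h hi, sub_mul, smul_mul_assoc, mul_assoc, ← hρ, u1, mul_assoc]
    have l1 := x21 h hi
    have l2 := x20 h hi
    rw [← hρ, ← hρ, u0, u1] at l1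
    rw [← hρ, u1] at l2
    simp only [io, al, de, pa, pb, LinearMap.coe_mk, AddHom.coe_mk, cm, u0, u1, map_add, map_neg,
      map_smul, map_zero, mul_add, add_mul, s2, r2, mul_assoc, neg_mul, l0, l1, l2, mul_sub,
      mul_smul_comm, smul_mul_assoc, e2, zero_mul]
    module
  have i3 : ∀ w : Cl k, x 3 * io x ρ w = io x ρ (be i w) * x 3 := fun w => by
    simp only [io, be, LinearMap.coe_mk, AddHom.coe_mk, map_neg, map_smul, mul_add, add_mul, s3, r3,
      mul_assoc, neg_mul, x3l0 h hi, x30 h hi, x31 h hi, mul_smul_comm, smul_mul_assoc]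
    linear_combination (norm := module) (-hi) • (ρ (sg w.2.2.2) * (x 0 * (x 1 * x 3)))
  have im : ∀ w : Cl k, io x ρ (mu (X 1) w) = io x ρ w * (x 2 * x 2) := fun w => by
    rw [x22 h hi, ← hρ]
    simp only [io, mu, LinearMap.coe_mk, AddHom.coe_mk, Prod.smul_fst, Prod.smul_snd, smul_eq_mul, cm,
      add_mul, mul_assoc, r0, r1, s0, s1]
  have iw : ∀ w : Cl k, io x ρ (Rw w) = io x ρ w * (x 3 * x 3) := fun w => by
    have e3 : x 0 * (x 1 * (x 1 * x 0)) = x 1 * (x 1 * (x 0 * x 0)) := by
      rw [e2]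
      have : x 0 * x 0 * (x 1 * x 1) = x 1 * x 1 * (x 0 * x 0) := (cuu h hi 0 1).eq
      simpa only [mul_assoc] using this
    have e4 : ∀ a, x 0 * (x 0 * (x 1 * a)) = x 1 * (x 0 * (x 0 * a)) := fun a => by
      simpa only [mul_assoc] using congrArg (· * a) e1
    have t2 : ρ 2 = (2 : k) • (1 : A) := by rw [map_ofNat, two_smul, one_add_one_eq_two]
    rw [x33 h hi]
    simp only [io, Rw, LinearMap.coe_mk, AddHom.coe_mk, cm, u0, u1, u2, map_add, map_neg, map_sub, t2,
      mul_add, add_mul, mul_sub, sub_mul, mul_assoc, neg_mul, mul_smul_comm, smul_mul_assoc, mul_one,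
      one_mul, e1, e2, e3, e4]
    module
  induction v using Finsupp.induction_linear with
  | zero => simp
  | add u w hu hw => rw [map_add, map_add, map_add, hu, hw, mul_add]
  | single j w =>
    fin_cases r
    · show psi x ρ (dg L0 _) = x 0 * _
      rw [dg_single, psi_single, psi_single, iL0, mul_assoc]
    · show psi x ρ (dg L1 _) = x 1 * _
      rw [dg_single, psi_single, psi_single, iL1, mul_assoc]
    · show psi x ρ (op false (de c) al (mu (X 1)) _) = x 2 * _
      have hw := word_nxt (x := x) false j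
      rw [op_single, map_add, psi_single, psi_single, psi_single, ← mul_assoc, i2, add_mul, add_comm]
      congr 1
      split_ifs at hw ⊢
      · rw [hw, im]; simp only [yy, mul_assoc]; rfl
      · rw [hw]; simp only [yy, mul_assoc]; rfl
    · show psi x ρ (op true 0 (be i) Rw _) = x 3 * _
      have hw := word_nxt (x := x) true j
      rw [op_single, map_add, psi_single, psi_single, psi_single, ← mul_assoc, i3]
      simp only [LinearMap.zero_apply, map_zero, zero_mul, zero_add]
      split_ifs at hw ⊢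
      · rw [hw, iw]; simp only [yy, mul_assoc]; rfl
      · rw [hw]; simp only [yy, mul_assoc]; rfl

end lin

end Pool.Agent.H72.Pm
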