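import Pool.Agent.H72.PmC

set_option autoImplicit false
set_option linter.unusedVariables false
set_option linter.unusedSimpArgs false
set_option linter.unnecessarySeqFocus false
set_option linter.unusedSectionVars false

namespace Pool.Agent.H72.Pm

open MvPolynomial

variable {k : Type} [Field k] {A : Type} [Ring A] [Algebra k A] {i c : k} {x : Fin 4 → A}

/-- `A` is presented by the generators `x` and the six relations. -/
structure Pres (i c : k) (x : Fin 4 → A) : Prop where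
  rel : Rels i c x
  gen : Algebra.adjoin k (Set.range x) = ⊤
  up : ∀ (B : Type) [Ring B] [Algebra k B] (y : Fin 4 → B), Rels i c y →
    ∃ φ : A →ₐ[k] B, ∀ j, φ (x j) = y j

theorem gen_ind (hg : Algebra.adjoin k (Set.range x) = ⊤) {p : A → Prop}
    (h1 : ∀ r : k, p (algebraMap k A r)) (hx : ∀ j, p (x j)) (ha : ∀ a b, p a → p b → p (a + b))
    (hm : ∀ a b, p a → p b → p (a * b)) (a : A) : p a := by
  have : a ∈ Algebra.adjoin k (Set.range x) := hg ▸ Algebra.mem_top
  induction this using Algebra.adjoin_induction with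
  | mem y hy => obtain ⟨j, rfl⟩ := hy; exact hx j
  | algebraMap r => exact h1 r
  | add a b _ _ h h' => exact ha a b h h'
  | mul a b _ _ h h' => exact hm a b h h'

theorem Xo_uu (j : Fin 3) (v : V k) : uu (Xo i c) j v = (X j : P k) • v := by
  induction v using Finsupp.induction_linear with
  | zero => simp
  | add u w hu hw => rw [map_add, hu, hw, smul_add]
  | single l w =>
    fin_cases j <;>
      simp only [uu, Xo, Fin.zero_eta, Fin.mk_one, Fin.reduceFinMk, Matrix.cons_val_zero,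
        Matrix.cons_val_one, Matrix.cons_val, LinearMap.add_apply, Module.End.mul_apply, dg_single,
        Finsupp.smul_single, ← Finsupp.single_add] <;> congr 1 <;>
      refine Prod.ext ?_ (Prod.ext ?_ (Prod.ext ?_ ?_)) <;> simp [L0, L1] <;> ring

/-- regular sequence in the polynomial ring -/
theorem poly_reg (s t : Fin 3 →₀ ℕ) (m : Fin 3 →₀ ℕ) (hs : ∀ u, s ≤ m + u → s ≤ u)
    (ht : ∀ u, t ≤ m + u → t ≤ u) (a b d : P k)
    (h : monomial m (1 : k) * a = monomial s 1 * b + monomial t 1 * d) :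
    ∃ b' d', a = monomial s (1 : k) * b' + monomial t 1 * d' := by
  classical
  have e : ({monomial s (1 : k), monomial t 1} : Set (P k)) = (fun s => monomial s (1 : k)) '' {s, t} := by
    simp [Set.image_insert_eq]
  have h1 : monomial m (1 : k) * a ∈ Ideal.span ({monomial s (1 : k), monomial t 1} : Set (P k)) := by
    rw [h, Ideal.mem_span_pair]; exact ⟨b, d, by ring⟩
  have h2 : a ∈ Ideal.span ({monomial s (1 : k), monomial t 1} : Set (P k)) := by
    rw [e, mem_ideal_span_monomial_image] at h1 ⊢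
    intro u hu
    have : m + u ∈ (monomial m (1 : k) * a).support := by
      rw [mem_support_iff, coeff_monomial_mul, one_mul]; exact mem_support_iff.1 hu
    obtain ⟨z, hz, hle⟩ := h1 _ this
    rcases hz with rfl | rfl
    · exact ⟨_, Or.inl rfl, hs u hle⟩
    · exact ⟨_, Or.inr rfl, ht u hle⟩
  obtain ⟨b', d', e'⟩ := Ideal.mem_span_pair.1 h2
  exact ⟨b', d', by rw [← e']; ring⟩

theorem free_reg {R M : Type} [CommRing R] [AddCommGroup M] [Module R M] [Module.Free R M] (m s t : R)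
    (H : ∀ a b d : R, m * a = s * b + t * d → ∃ b' d', a = s * b' + t * d') (a b d : M)
    (h : m • a = s • b + t • d) : ∃ b' d' : M, a = s • b' + t • d' := by
  classical
  let B := Module.Free.chooseBasis R M
  have : ∀ l, ∃ b' d', B.repr a l = s * b' + t * d' := fun l => H _ (B.repr b l) (B.repr d l) (by
    simpa using congrArg (fun z => B.repr z l) h)
  choose f g hfg using this
  refine ⟨∑ l ∈ (B.repr a).support, f l • B l, ∑ l ∈ (B.repr a).support, g l • B l, ?_⟩
  rw [Finset.smul_sum, Finset.smul_sum, ← Finset.sum_add_distrib]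
  conv_lhs => rw [← B.linearCombination_repr a, Finsupp.linearCombination_apply, Finsupp.sum]
  refine Finset.sum_congr rfl fun l _ => ?_
  rw [hfg, add_smul, mul_smul, mul_smul]

theorem P_reg (l : Fin 3) (hl : l ≠ 2) (l' : Fin 3) (hl' : l ≠ l' ∨ l' = 2) (n : ℕ) (a b d : P k)
    (h : X l ^ 2 * a = X 2 * b + X l' ^ (n + 1) * d) : ∃ b' d', a = X 2 * b' + X l' ^ (n + 1) * d' := by
  have hl2 : l ≠ l' := by rcases hl' with h | rfl <;> assumption
  rw [← pow_one (X 2)] at h ⊢
  simp only [X_pow_eq_monomial] at h ⊢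
  refine poly_reg _ _ _ (fun u hu => ?_) (fun u hu => ?_) a b d h
  · rw [Finsupp.single_le_iff] at hu ⊢
    simpa [Finsupp.single_apply, hl] using hu
  · rw [Finsupp.single_le_iff] at hu ⊢
    simpa [Finsupp.single_apply, hl2] using hu

noncomputable def v0 : V k := Finsupp.single none (1, 0, 0, 0)

theorem model (h : Pres i c x) (hi : i ^ 2 = -1) : ∃ (φ : A →ₗ[k] V k) (ψ : V k →ₗ[k] A),
    (∀ a, ψ (φ a) = a) ∧ (∀ r a, φ (x r * a) = Xo i c r (φ a)) ∧ φ 1 = v0 ∧
    (∀ j a, φ (uu x j * a) = (X j : P k) • φ a) ∧ (∀ j v, ψ ((X j : P k) • v) = uu x j * ψ v) := by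
  obtain ⟨Φ, hΦ⟩ := h.up _ _ (Xo_rels (c := c) hi)
  obtain ⟨ρ, hρ⟩ := exists_rho h.rel hi
  have key : ∀ a v, psi x ρ (Φ a v) = a * psi x ρ v := by
    intro a
    induction a using gen_ind h.gen with
    | h1 r => intro v; rw [AlgHom.commutes, Module.algebraMap_end_apply, map_smul, Algebra.smul_def]
    | hx j => intro v; rw [hΦ, psi_X h.rel hi hρ]
    | ha a b ha hb => intro v; rw [map_add, LinearMap.add_apply, map_add, ha, hb, add_mul]
    | hm a b ha hb => intro v; rw [map_mul, Module.End.mul_apply, ha, hb, mul_assoc]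
  have hu : ∀ j, Φ (uu x j) = uu (Xo i c) j := fun j => by fin_cases j <;> simp [uu, hΦ]
  refine ⟨(LinearMap.applyₗ v0).comp Φ.toLinearMap, psi x ρ, fun a => ?_, fun r a => ?_, ?_,
    fun j a => ?_, fun j v => ?_⟩
  · show psi x ρ (Φ a v0) = a
    rw [key, v0, psi_single]; simp [io, word]
  · show Φ (x r * a) v0 = Xo i c r (Φ a v0)
    rw [map_mul, hΦ]; rfl
  · show Φ 1 v0 = v0
    simp
  · show Φ (uu x j * a) v0 = _ • Φ a v0
    rw [map_mul, Module.End.mul_apply, hu, Xo_uu]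
  · rw [← Xo_uu (i := i) (c := c), ← hu, key]

/-- The three central elements. -/
def tt (x : Fin 4 → A) : Fin 3 → A := ![uu x 2, uu x 0 * uu x 0, uu x 1 * uu x 1]

theorem tt_central (h : Pres i c x) (hi : i ^ 2 = -1) (j : Fin 3) (a : A) : a * tt x j = tt x j * a := by
  have hx : ∀ r, Commute (x r) (tt x j) := by
    intro r
    have c3' : ∀ l : Fin 3, Commute (x 3) (uu x l * uu x l) := fun l => by
      show _ = _
      rw [← mul_assoc, c3 h.rel hi, smul_mul_assoc, mul_assoc, c3 h.rel hi, mul_smul_comm, smul_smul,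
        mul_assoc]
      fin_cases l <;> simp
    fin_cases r <;> fin_cases j
    · exact c0 h.rel hi 2
    · exact (c0 h.rel hi 0).mul_right (c0 h.rel hi 0)
    · exact (c0 h.rel hi 1).mul_right (c0 h.rel hi 1)
    · exact c1 h.rel hi 2
    · exact (c1 h.rel hi 0).mul_right (c1 h.rel hi 0)
    · exact (c1 h.rel hi 1).mul_right (c1 h.rel hi 1)
    · exact c2 h.rel hi 2
    · exact (c2 h.rel hi 0).mul_right (c2 h.rel hi 0)
    · exact (c2 h.rel hi 1).mul_right (c2 h.rel hi 1)
    · show x 3 * uu x 2 = uu x 2 * x 3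
      simpa using c3 h.rel hi 2
    · exact c3' 0
    · exact c3' 1
  induction a using gen_ind h.gen with
  | h1 r => exact Algebra.commutes r _
  | hx j => exact (hx j).eq
  | ha a b ha hb => rw [add_mul, mul_add, ha, hb]
  | hm a b ha hb => rw [mul_assoc, hb, ← mul_assoc, ha, mul_assoc]

theorem reg0 (h : Pres i c x) (hi : i ^ 2 = -1) (a : A) (e : tt x 0 * a = 0) : a = 0 := by
  obtain ⟨φ, ψ, h1, -, -, h2, h3⟩ := model h hi
  have e1 : (X 2 : P k) • φ a = (0 : P k) • (0 : V k) + (0 : P k) • (0 : V k) := by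
    rw [← h2]; simpa [tt] using congrArg φ e
  obtain ⟨b, d, e2⟩ := free_reg (X 2 : P k) 0 0 (fun a b d e => ⟨0, 0, by
    simpa [X_ne_zero] using e⟩) _ _ _ e1
  rw [← h1 a, e2]; simp

theorem reg1 (h : Pres i c x) (hi : i ^ 2 = -1) (a b : A) (e : tt x 1 * a = tt x 0 * b) :
    ∃ d, a = tt x 0 * d := by
  obtain ⟨φ, ψ, h1, -, -, h2, h3⟩ := model h hi
  have e1 : (X 0 ^ 2 : P k) • φ a = (X 2 : P k) • φ b + (X 2 ^ (0 + 1) : P k) • (0 : V k) := by
    rw [sq, mul_smul, ← h2, ← h2, ← h2, ← mul_assoc]; simpa [tt] using congrArg φ e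
  obtain ⟨b', d, e2⟩ := free_reg _ _ _ (P_reg 0 (by decide) 2 (Or.inr rfl) 0) _ _ _ e1
  refine ⟨ψ (b' + d), ?_⟩
  rw [← h1 a, e2, zero_add, pow_one, ← smul_add, h3]; rfl

theorem reg2 (h : Pres i c x) (hi : i ^ 2 = -1) (a b d : A)
    (e : tt x 2 * a = tt x 0 * b + tt x 1 * d) : ∃ b' d', a = tt x 0 * b' + tt x 1 * d' := by
  obtain ⟨φ, ψ, h1, -, -, h2, h3⟩ := model h hi
  have e1 : (X 1 ^ 2 : P k) • φ a = (X 2 : P k) • φ b + (X 0 ^ (1 + 1) : P k) • φ d := by
    rw [sq, mul_smul, ← h2, ← h2, ← h2, ← mul_assoc, one_add_one_eq_two, sq, mul_smul, ← h2, ← h2,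
      ← mul_assoc, ← map_add]
    exact congrArg φ e
  obtain ⟨b', d', e2⟩ := free_reg _ _ _ (P_reg 1 (by decide) 0 (Or.inl (by decide)) 1) _ _ _ e1
  refine ⟨ψ b', ψ d', ?_⟩
  rw [← h1 a, e2, map_add, h3, one_add_one_eq_two, sq, mul_smul, h3, h3, ← mul_assoc]; rfl

/-! growth -/

noncomputable def Q (k : Type) [Field k] (n : ℕ) : Submodule k (P k) :=
  Submodule.span k (Set.range fun m : Fin 3 → Fin (n + 1) =>
    (X 0 ^ (m 0 : ℕ) * X 1 ^ (m 1 : ℕ) * X 2 ^ (m 2 : ℕ) : P k))

theorem Q_mem {n a b d : ℕ} (ha : a ≤ n) (hb : b ≤ n) (hd : d ≤ n) :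
    (X 0 ^ a * X 1 ^ b * X 2 ^ d : P k) ∈ Q k n :=
  Submodule.subset_span ⟨![⟨a, by omega⟩, ⟨b, by omega⟩, ⟨d, by omega⟩], rfl⟩

theorem Q_mul {n : ℕ} (a b d : ℕ) (ha : a ≤ 1) (hb : b ≤ 1) (hd : d ≤ 1) {p : P k} (hp : p ∈ Q k n) :
    X 0 ^ a * X 1 ^ b * X 2 ^ d * p ∈ Q k (n + 1) := by
  induction hp using Submodule.span_induction with
  | mem p hp =>
    obtain ⟨m, rfl⟩ := hp
    have := Q_mem (k := k) (n := n + 1) (a := a + m 0) (b := b + m 1) (d := d + m 2)
      (by have := (m 0).2; omega) (by have := (m 1).2; omega) (by have := (m 2).2; omega)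
    rw [pow_add, pow_add, pow_add] at this
    convert this using 1; ring
  | zero => simp
  | add p q _ _ hp hq => rw [mul_add]; exact add_mem hp hq
  | smul r p _ hp => rw [mul_smul_comm]; exact Submodule.smul_mem _ _ hp

theorem Q_sg {n : ℕ} {p : P k} (hp : p ∈ Q k n) : sg p ∈ Q k n := by
  induction hp using Submodule.span_induction with
  | mem p hp =>
    obtain ⟨m, rfl⟩ := hp
    have := Submodule.smul_mem _ ((-1 : k) ^ (m 0 : ℕ) * (-1 : k) ^ (m 1 : ℕ))
      (Submodule.subset_span (R := k) (Set.mem_range_self (f := fun m : Fin 3 → Fin (n + 1) =>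
        (X 0 ^ (m 0 : ℕ) * X 1 ^ (m 1 : ℕ) * X 2 ^ (m 2 : ℕ) : P k)) m))
    have e : sg (X 0 ^ (m 0 : ℕ) * X 1 ^ (m 1 : ℕ) * X 2 ^ (m 2 : ℕ) : P k) =
        ((-1 : k) ^ (m 0 : ℕ) * (-1 : k) ^ (m 1 : ℕ)) •
          (X 0 ^ (m 0 : ℕ) * X 1 ^ (m 1 : ℕ) * X 2 ^ (m 2 : ℕ) : P k) := by
      simp only [map_mul, map_pow, sg0, sg1, sg2, smul_eq_C_mul, map_neg, map_one]
      rw [neg_pow (X 0 : P k), neg_pow (X 1 : P k)]; ring
    show sg _ ∈ _
    rw [e]; exact this
  | zero => simp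
  | add p q _ _ hp hq => rw [map_add]; exact add_mem hp hq
  | smul r p _ hp => rw [map_smul]; exact Submodule.smul_mem _ _ hp

noncomputable def CQ (k : Type) [Field k] (n : ℕ) : Submodule k (Cl k) :=
  (Q k n).prod ((Q k n).prod ((Q k n).prod (Q k n)))

def len : J → ℕ
  | none => 0
  | some (_, n) => n + 1

theorem len_nxt (a : Bool) (j : J) : len (nxt a j) ≤ len j + 1 := by
  rcases j with _ | ⟨b, _ | n⟩ <;> cases a <;> (try cases b) <;> simp [nxt, len]

noncomputable def VQ (k : Type) [Field k] (n : ℕ) : Submodule k (V k) :=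
  Submodule.span k {v | ∃ j w, len j ≤ n ∧ w ∈ CQ k n ∧ v = Finsupp.single j w}

theorem VQ_step (r : Fin 4) (n : ℕ) (v : V k) (hv : v ∈ VQ k n) : Xo i c r v ∈ VQ k (n + 1) := by
  induction hv using Submodule.span_induction with
  | zero => simp
  | add p q _ _ hp hq => rw [map_add]; exact add_mem hp hq
  | smul r p _ hp => rw [map_smul]; exact Submodule.smul_mem _ _ hp
  | mem v hv =>
    obtain ⟨j, ⟨w0, w1, w2, w3⟩, hj, hw, rfl⟩ := hv
    have hj' := len_nxt false j
    have hj'' := len_nxt true j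
    have m1 : ∀ p : P k, p ∈ Q k n → p ∈ Q k (n + 1) := fun p hp => by
      simpa using Q_mul 0 0 0 (by omega) (by omega) (by omega) hp
    have m0 : ∀ p : P k, p ∈ Q k n → X 0 * p ∈ Q k (n + 1) := fun p hp => by
      simpa using Q_mul 1 0 0 (by omega) (by omega) (by omega) hp
    have mx1 : ∀ p : P k, p ∈ Q k n → X 1 * p ∈ Q k (n + 1) := fun p hp => by
      simpa using Q_mul 0 1 0 (by omega) (by omega) (by omega) hp
    have mx2 : ∀ p : P k, p ∈ Q k n → X 2 * p ∈ Q k (n + 1) := fun p hp => by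
      simpa using Q_mul 0 0 1 (by omega) (by omega) (by omega) hp
    have m01 : ∀ p : P k, p ∈ Q k n → X 0 * X 1 * p ∈ Q k (n + 1) := fun p hp => by
      simpa using Q_mul 1 1 0 (by omega) (by omega) (by omega) hp
    have two : ∀ p q : P k, p * q ∈ Q k (n + 1) → 2 * p * q ∈ Q k (n + 1) := fun p q hp => by
      rw [mul_assoc, two_mul]; exact add_mem hp hp
    have two' : ∀ p : P k, p ∈ Q k (n + 1) → 2 * p ∈ Q k (n + 1) := fun p hp => by
      rw [two_mul]; exact add_mem hp hp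
    have ma : ∀ p : P k, p ∈ Q k n → pa * p ∈ Q k (n + 1) := fun p hp => by
      rw [pa, smul_mul_assoc]; exact Submodule.smul_mem _ _ (mx1 p hp)
    have mb : ∀ p : P k, p ∈ Q k n → pb c * p ∈ Q k (n + 1) := fun p hp => by
      rw [pb, add_mul, smul_mul_assoc, smul_mul_assoc]
      exact add_mem (Submodule.smul_mem _ _ (m0 p hp)) (Submodule.smul_mem _ _ (mx1 p hp))
    have up : ∀ w : Cl k, w ∈ CQ k n → w ∈ CQ k (n + 1) := fun w hw =>
      ⟨m1 _ hw.1, m1 _ hw.2.1, m1 _ hw.2.2.1, m1 _ hw.2.2.2⟩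
    have g : ∀ j' w, len j' ≤ n + 1 → w ∈ CQ k (n + 1) → Finsupp.single j' w ∈ VQ k (n + 1) :=
      fun j' w h1 h2 => Submodule.subset_span ⟨j', w, h1, h2, rfl⟩
    obtain ⟨h0, h1, h2, h3⟩ := hw
    fin_cases r
    · show dg L0 _ ∈ _
      rw [dg_single]
      exact g _ _ (by omega) ⟨m0 _ h1, m1 _ h0, m0 _ h3, m1 _ h2⟩
    · show dg L1 _ ∈ _
      rw [dg_single]
      exact g _ _ (by omega) ⟨add_mem (mx2 _ h1) (mx1 _ h2), neg_mem (mx1 _ h3),
        add_mem (m1 _ h0) (mx2 _ h3), neg_mem (m1 _ h1)⟩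
    · show op false (de c) al (mu (X 1)) _ ∈ _
      rw [op_single]
      refine add_mem (g _ _ (by omega) ⟨add_mem (ma _ h1) (mb _ h2), neg_mem (mb _ h3), ma _ h3,
        zero_mem _⟩) (g _ _ (by omega) ?_)
      split_ifs
      · exact ⟨mx1 _ h0, mx1 _ (neg_mem h1), mx1 _ (neg_mem h2), mx1 _ h3⟩
      · exact up _ ⟨h0, neg_mem h1, neg_mem h2, h3⟩
    · show op true 0 (be i) Rw _ ∈ _
      rw [op_single]
      have hb : be i (w0, w1, w2, w3) ∈ CQ k n := ⟨Q_sg h0, Submodule.smul_mem _ _ (Q_sg h1),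
        neg_mem (Submodule.smul_mem _ _ (Q_sg h2)), Q_sg h3⟩
      refine add_mem (g _ _ (by omega) (zero_mem _)) (g _ _ (by omega) ?_)
      split_ifs
      · obtain ⟨b0, b1, b2, b3⟩ := hb
        exact ⟨add_mem (mx2 _ b0) (two _ _ (m01 _ b3)), add_mem (mx2 _ b1) (two _ _ (mx1 _ b2)),
          sub_mem (neg_mem (two _ _ (m0 _ b1))) (mx2 _ b2),
          sub_mem (neg_mem (two' _ (m1 _ b0))) (mx2 _ b3)⟩
      · exact up _ hb

theorem VQ_rank (n : ℕ) : Module.Finite k (VQ k n) ∧ Module.finrank k (VQ k n) ≤ 16 * (n + 1) ^ 4 := by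
  classical
  let e : Fin 4 → P k → Cl k := ![fun p => (p, 0, 0, 0), fun p => (0, p, 0, 0), fun p => (0, 0, p, 0),
    fun p => (0, 0, 0, p)]
  let f : Option (Bool × Fin (n + 1)) × Fin 4 × (Fin 3 → Fin (n + 1)) → V k := fun z =>
    Finsupp.single (z.1.map fun y => (y.1, (y.2 : ℕ)))
      (e z.2.1 (X 0 ^ (z.2.2 0 : ℕ) * X 1 ^ (z.2.2 1 : ℕ) * X 2 ^ (z.2.2 2 : ℕ)))
  have hle : VQ k n ≤ Submodule.span k (Set.range f) := by
    rw [VQ, Submodule.span_le]
    rintro _ ⟨j, ⟨w0, w1, w2, w3⟩, hj, ⟨h0, h1, h2, h3⟩, rfl⟩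
    obtain ⟨j', rfl⟩ : ∃ j' : Option (Bool × Fin (n + 1)), j = j'.map fun y => (y.1, (y.2 : ℕ)) := by
      rcases j with _ | ⟨b, m⟩
      · exact ⟨none, rfl⟩
      · exact ⟨some (b, ⟨m, by simp [len] at hj; omega⟩), rfl⟩
    have key : ∀ (l : Fin 4) (p : P k), p ∈ Q k n →
        Finsupp.single (j'.map fun y => (y.1, (y.2 : ℕ))) (e l p) ∈ Submodule.span k (Set.range f) := by
      intro l p hp
      induction hp using Submodule.span_induction with
      | mem p hp => obtain ⟨m, rfl⟩ := hp; exact Submodule.subset_span ⟨(j', l, m), rfl⟩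
      | zero =>
        have : e l 0 = 0 := by fin_cases l <;> rfl
        rw [this]; simp
      | add p q _ _ hp hq =>
        have : e l (p + q) = e l p + e l q := by fin_cases l <;> simp [e]
        rw [this, Finsupp.single_add]; exact add_mem hp hq
      | smul r p _ hp =>
        have : e l (r • p) = r • e l p := by fin_cases l <;> simp [e]
        rw [this, ← Finsupp.smul_single]; exact Submodule.smul_mem _ _ hp
    have : ((w0, w1, w2, w3) : Cl k) = e 0 w0 + e 1 w1 + e 2 w2 + e 3 w3 := by simp [e]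
    rw [this, Finsupp.single_add, Finsupp.single_add, Finsupp.single_add]
    exact add_mem (add_mem (add_mem (key 0 _ h0) (key 1 _ h1)) (key 2 _ h2)) (key 3 _ h3)
  have : Module.Finite k (Submodule.span k (Set.range f)) :=
    Module.Finite.span_of_finite k (Set.finite_range f)
  refine ⟨Submodule.finiteDimensional_of_le hle, (Submodule.finrank_mono hle).trans
    ((finrank_range_le_card f).trans ?_)⟩
  simp only [Fintype.card_prod, Fintype.card_option, Fintype.card_bool, Fintype.card_fin, Fintype.card_fun]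
  nlinarith [Nat.zero_le ((n + 1) ^ 3), Nat.zero_le (n * (n + 1) ^ 3), pow_succ (n + 1) 3]

theorem growth (h : Pres i c x) (hi : i ^ 2 = -1) (n : ℕ) :
    Module.finrank k ↥((Submodule.span k (Set.range x)) ^ n) ≤ 16 * (n + 1) ^ 4 := by
  obtain ⟨φ, ψ, h1, h2, h3, -, -⟩ := model h hi
  have hm : ∀ n, ∀ a ∈ (Submodule.span k (Set.range x)) ^ n, φ a ∈ VQ k n := by
    intro n
    induction n with
    | zero =>
      intro a ha
      rw [pow_zero, Submodule.mem_one] at ha
      obtain ⟨r, rfl⟩ := ha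
      rw [Algebra.algebraMap_eq_smul_one, map_smul, h3]
      refine Submodule.smul_mem _ _ (Submodule.subset_span ⟨none, _, le_rfl, ?_, rfl⟩)
      exact ⟨by simpa using Q_mem (k := k) (n := 0) le_rfl le_rfl le_rfl, zero_mem _, zero_mem _, zero_mem _⟩
    | succ n ih =>
      intro a ha
      rw [pow_succ'] at ha
      refine Submodule.mul_induction_on ha (fun m hm b hb => ?_) (fun a b ha hb => ?_)
      · induction hm using Submodule.span_induction with
        | mem m hm => obtain ⟨r, rfl⟩ := hm; rw [h2]; exact VQ_step r n _ (ih b hb)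
        | zero => simp
        | add p q _ _ hp hq => rw [add_mul, map_add]; exact add_mem hp hq
        | smul r p _ hp => rw [smul_mul_assoc, map_smul]; exact Submodule.smul_mem _ _ hp
      · rw [map_add]; exact add_mem ha hb
  have := (VQ_rank (k := k) n).1
  refine le_trans ?_ (VQ_rank (k := k) n).2
  refine LinearMap.finrank_le_finrank_of_injective
    (f := (φ.domRestrict _).codRestrict (VQ k n) fun a => hm n a a.2) fun a b e => ?_
  apply Subtype.ext
  rw [← h1 a, ← h1 b]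
  exact congrArg ψ (congrArg Subtype.val e)

end Pool.Agent.H72.Pm
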