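import Mathlib

set_option autoImplicit false

namespace Pool.Agent.H72.PmDef

open CategoryTheory

variable (k : Type) [Field k] (A : Type) [Ring A] [Algebra k A]

/-- The left module `A / A V`; it is the trivial module `k = A / A₊` when `A = ⊕ Vⁿ`. -/
abbrev triv (V : Submodule k A) : ModuleCat.{0} A :=
  ModuleCat.of A (A ⧸ Submodule.span A (V : Set A))

/-- `Extⁿ_A(k, A)` in the category of left `A`-modules. -/
abbrev extk (V : Submodule k A) (n : ℕ) : Type :=
  Abelian.Ext (triv k A V) (ModuleCat.of A A) n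

/-- Every left module has projective dimension at most `d`, and `Extⁿ_A(k, A)` is zero for `n ≠ d`
and one-dimensional for `n = d`. -/
structure LeftReg (V : Submodule k A) (d : ℕ) : Prop where
  gldim : ∀ M : ModuleCat.{0} A, HasProjectiveDimensionLE M d
  ext_ne : ∀ n, n ≠ d → Subsingleton (extk k A V n)
  ext_eq : Module.finrank k (extk k A V d) = 1

/-- `A = ⊕ Vⁿ` is a connected graded algebra generated by its finite-dimensional degree-one part `V`,
Artin-Schelter regular of global dimension `d`. -/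
structure ASRegular (V : Submodule k A) (d : ℕ) : Prop where
  fin : Module.Finite k V
  graded : DirectSum.IsInternal fun n : ℕ => V ^ n
  growth : ∃ C e : ℕ, ∀ n, Module.finrank k ↥(V ^ n) ≤ C * (n + 1) ^ e
  left : LeftReg k A V d
  right : LeftReg k Aᵐᵒᵖ (V.map (MulOpposite.opLinearEquiv k).toLinearMap) d

/-- Point modules: graded right modules, generated by degree zero, with all parts of dimension one. -/
structure PtMod (V : Submodule k A) where
  M : Type
  [acg : AddCommGroup M]
  [mk' : Module k M]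
  [mA : Module Aᵐᵒᵖ M]
  [tower : IsScalarTower k Aᵐᵒᵖ M]
  gr : ℕ → Submodule k M
  internal : DirectSum.IsInternal gr
  act_mem : ∀ i j, ∀ m ∈ gr i, ∀ a ∈ V ^ j, MulOpposite.op a • m ∈ gr (i + j)
  dim : ∀ i, Module.finrank k (gr i) = 1
  cyclic : ∃ m ∈ gr 0, Submodule.span Aᵐᵒᵖ {m} = ⊤

attribute [instance] PtMod.acg PtMod.mk' PtMod.mA PtMod.tower

variable {k A}

/-- Graded isomorphism of point modules. -/
def PtMod.Iso {V : Submodule k A} (P Q : PtMod k A V) : Prop :=
  ∃ φ : P.M ≃ₗ[Aᵐᵒᵖ] Q.M, ∀ i m, m ∈ P.gr i ↔ φ m ∈ Q.gr i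

/-- There are exactly `N` point modules up to graded isomorphism. -/
def NumPt (V : Submodule k A) (N : ℕ) : Prop :=
  ∃ P : Fin N → PtMod k A V, (∀ a b, (P a).Iso (P b) → a = b) ∧ ∀ Q : PtMod k A V, ∃ a, Q.Iso (P a)

end Pool.Agent.H72.PmDef
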