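import Pool.Agent.H72.PmD

set_option autoImplicit false
set_option linter.unusedVariables false
set_option linter.unusedSimpArgs false
set_option linter.unnecessarySeqFocus false
set_option linter.unusedSectionVars false

namespace Pool.Agent.H72.Pm

open Matrix

variable {k : Type} [Field k] {A : Type} [Ring A] [Algebra k A] {i c e : k} {x : Fin 4 → A}

section acyc
variable {t : Fin 3 → A} (cen : ∀ j a, a * t j = t j * a)
  (r0 : ∀ a, t 0 * a = 0 → a = 0) (r1 : ∀ a b, t 1 * a = t 0 * b → ∃ d, a = t 0 * d)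
  (r2 : ∀ a b d, t 2 * a = t 0 * b + t 1 * d → ∃ b' d', a = t 0 * b' + t 1 * d')
  {n0 n1 n2 n3 : ℕ} (d0 : (Fin n0 → A) →+ (Fin n1 → A)) (d1 : (Fin n1 → A) →+ (Fin n2 → A))
  (d2 : (Fin n2 → A) →+ (Fin n3 → A))
  (s0 : ∀ j f, d0 (t j • f) = t j • d0 f) (s1 : ∀ j f, d1 (t j • f) = t j • d1 f)
  (dd : ∀ f, d1 (d0 f) = 0)
  (k0 : ∀ f, d0 f = 0 → t 0 • f = 0)
  (k1 : ∀ f, d1 f = 0 → (∃ g, t 0 • f = d0 g) ∧ ∃ g, t 1 • f = d0 g)
  (k2 : ∀ f, d2 f = 0 → ∀ j, ∃ g, t j • f = d1 g)

include cen r0 r1 r2 s0 s1 dd k0 k1 k2 in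
theorem acyc : (∀ f, d0 f = 0 → f = 0) ∧ (∀ f, d1 f = 0 → ∃ g, d0 g = f) ∧
    (∀ f, d2 f = 0 → ∃ g, d1 g = f) := by
  have v0 : ∀ {n} (f : Fin n → A), t 0 • f = 0 → f = 0 := fun f h =>
    funext fun l => r0 _ (congrFun h l)
  have v1 : ∀ {n} (f g : Fin n → A), t 1 • f = t 0 • g → ∃ w, f = t 0 • w := fun f g h => by
    choose w hw using fun l => r1 _ _ (congrFun h l)
    exact ⟨w, funext hw⟩
  have v2 : ∀ {n} (f g u : Fin n → A), t 2 • f = t 0 • g + t 1 • u → ∃ p q, f = t 0 • p + t 1 • q :=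
    fun f g u h => by
      choose p q hw using fun l => r2 _ _ _ (congrFun h l)
      exact ⟨p, q, funext hw⟩
  have sc : ∀ {n} (a b : Fin 3) (f : Fin n → A), t a • t b • f = t b • t a • f := fun a b f => by
    rw [smul_smul, smul_smul, cen]
  have E0 : ∀ f, d0 f = 0 → f = 0 := fun f h => v0 f (k0 f h)
  have E1 : ∀ f, d1 f = 0 → ∃ g, d0 g = f := fun f h => by
    obtain ⟨⟨a, ha⟩, b, hb⟩ := k1 f h
    have : t 1 • a - t 0 • b = 0 := E0 _ (by rw [map_sub, s0, s0, ← ha, ← hb, sc, sub_self])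
    obtain ⟨w, rfl⟩ := v1 a b (sub_eq_zero.1 this)
    refine ⟨w, (sub_eq_zero.1 (v0 _ ?_)).symm⟩
    rw [smul_sub, ha, s0, sub_self]
  refine ⟨E0, E1, fun z h => ?_⟩
  choose a ha using k2 z h
  have B : ∀ p q, ∃ b, d0 b = t p • a q - t q • a p := fun p q =>
    E1 _ (by rw [map_sub, s1, s1, ← ha, ← ha, sc, sub_self])
  obtain ⟨b2, h2⟩ := B 1 0
  obtain ⟨b1, h1⟩ := B 2 0
  obtain ⟨b0, h0⟩ := B 2 1
  have : t 2 • b2 - (t 0 • (-b0) + t 1 • b1) = 0 := E0 _ (by
    rw [map_sub, map_add, s0, s0, s0, map_neg, h0, h1, h2]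
    simp only [smul_sub, smul_neg]
    rw [sc 2 1, sc 2 0, sc 1 0]; abel)
  obtain ⟨p, q, rfl⟩ := v2 _ _ _ (sub_eq_zero.1 this)
  rw [map_add, s0, s0] at h2
  obtain ⟨w, hw⟩ := v1 (a 0 - d0 q) (a 1 + d0 p) (by
    rw [smul_sub, smul_add, sub_eq_iff_eq_add, add_assoc, h2]; abel)
  refine ⟨w, (sub_eq_zero.1 (v0 _ ?_)).symm⟩
  rw [smul_sub, ha, ← s1, ← hw, map_sub, dd, sub_zero, sub_self]

end acyc

def vm {n m : ℕ} (D : Matrix (Fin n) (Fin m) A) : (Fin n → A) →+ (Fin m → A) :=
  AddMonoidHom.mk' (fun f => f ᵥ* D) fun f g => add_vecMul D f g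

def mv {n m : ℕ} (D : Matrix (Fin n) (Fin m) A) : (Fin m → A) →+ (Fin n → A) :=
  AddMonoidHom.mk' (fun f => D *ᵥ f) fun f g => mulVec_add D f g

theorem vm_smul {n m : ℕ} (D : Matrix (Fin n) (Fin m) A) (t : A) (f : Fin n → A) :
    vm D (t • f) = t • vm D f := smul_vecMul t f D

theorem mv_smul {n m : ℕ} (D : Matrix (Fin n) (Fin m) A) (t : A) (ht : ∀ a, a * t = t * a)
    (f : Fin m → A) : mv D (t • f) = t • mv D f := by
  ext l
  simp only [mv, AddMonoidHom.mk'_apply, mulVec, dotProduct, Pi.smul_apply, smul_eq_mul, Finset.mul_sum,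
    ← mul_assoc, ht]

section kill
variable {n m p : ℕ} {D' : Matrix (Fin p) (Fin n) A} {D : Matrix (Fin n) (Fin m) A}
  {H : Matrix (Fin n) (Fin p) A} {H' : Matrix (Fin m) (Fin n) A} {T : Matrix (Fin n) (Fin n) A} {t : A}

theorem vm_dg (ht : ∀ a, a * t = t * a) (f : Fin n → A) : f ᵥ* diagonal (fun _ => t) = t • f := by
  ext l; rw [vecMul_diagonal, ht]; rfl

theorem mv_dg (f : Fin n → A) : diagonal (fun _ => t) *ᵥ f = t • f := by
  ext l; rw [mulVec_diagonal]; rfl

theorem rk1 (hT : H * D' + D * H' = T) (f : Fin n → A) (hf : vm D f = 0) : f ᵥ* T = vm D' (f ᵥ* H) := by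
  have hf' : f ᵥ* D = 0 := hf
  rw [← hT, vecMul_add, ← vecMul_vecMul, ← vecMul_vecMul, hf', zero_vecMul, add_zero]; rfl

theorem ck1 (hT : H * D' + D * H' = T) (f : Fin n → A) (hf : mv D' f = 0) : T *ᵥ f = mv D (H' *ᵥ f) := by
  have hf' : D' *ᵥ f = 0 := hf
  rw [← hT, add_mulVec, ← mulVec_mulVec, ← mulVec_mulVec, hf', mulVec_zero, zero_add]; rfl

theorem rkA (hT : H * D' + D * H' = T) (ht : ∀ a, a * t = t * a) (e : T = diagonal fun _ => t)
    (f : Fin n → A) (hf : vm D f = 0) : ∃ g, t • f = vm D' g :=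
  ⟨_, by rw [← rk1 hT f hf, e, vm_dg ht]⟩

theorem ckA (hT : H * D' + D * H' = T) (e : T = diagonal fun _ => t)
    (f : Fin n → A) (hf : mv D' f = 0) : ∃ g, t • f = mv D g :=
  ⟨_, by rw [← ck1 hT f hf, e, mv_dg]⟩

theorem rkB (hT : H * D' + D * H' = T) (hD : D' * D = 0) (ht : ∀ a, a * t = t * a)
    (e : T * T = diagonal fun _ => t) (f : Fin n → A) (hf : vm D f = 0) : ∃ g, t • f = vm D' g := by
  have h2 : vm D (f ᵥ* T) = 0 := by
    rw [rk1 hT f hf]; show (_ ᵥ* D') ᵥ* D = 0
    rw [vecMul_vecMul, hD, vecMul_zero]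
  exact ⟨_, by rw [← rk1 hT _ h2, vecMul_vecMul, e, vm_dg ht]⟩

theorem ckB (hT : H * D' + D * H' = T) (hD : D' * D = 0)
    (e : T * T = diagonal fun _ => t) (f : Fin n → A) (hf : mv D' f = 0) : ∃ g, t • f = mv D g := by
  have h2 : mv D' (T *ᵥ f) = 0 := by
    rw [ck1 hT f hf]; show D' *ᵥ (D *ᵥ _) = 0
    rw [mulVec_mulVec, hD, zero_mulVec]
  exact ⟨_, by rw [← ck1 hT _ h2, mulVec_mulVec, e, mv_dg]⟩

end kill

theorem eT00 : T00 x = diagonal fun _ => tt x 0 := by
  ext a b; fin_cases a <;> fin_cases b <;> simp [T00, tt, uu]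
theorem eT01 : T01 x = diagonal fun _ => tt x 0 := by
  ext a b; fin_cases a <;> fin_cases b <;> simp [T01, tt, uu]
theorem eT02 : T02 x = diagonal fun _ => tt x 0 := by
  ext a b; fin_cases a <;> fin_cases b <;> simp [T02, tt, uu]
theorem eT03 : T03 x = diagonal fun _ => tt x 0 := by
  ext a b; fin_cases a <;> fin_cases b <;> simp [T03, tt, uu]
theorem eT04 : T04 x = diagonal fun _ => tt x 0 := by
  ext a b; fin_cases a <;> fin_cases b <;> simp [T04, tt, uu]
theorem eT11 : T11 x * T11 x = diagonal fun _ => tt x 1 := by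
  ext a b; fin_cases a <;> fin_cases b <;> simp [T11, tt, uu, mul_apply, Fin.sum_univ_four]
theorem eT12 : T12 x * T12 x = diagonal fun _ => tt x 1 := by
  ext a b; fin_cases a <;> fin_cases b <;> simp [T12, tt, uu, mul_apply, Fin.sum_univ_six]
theorem eT13 : T13 x * T13 x = diagonal fun _ => tt x 1 := by
  ext a b; fin_cases a <;> fin_cases b <;> simp [T13, tt, uu, mul_apply, Fin.sum_univ_four]
theorem eT22 : T22 x * T22 x = diagonal fun _ => tt x 2 := by
  ext a b; fin_cases a <;> fin_cases b <;> simp [T22, tt, uu, mul_apply, Fin.sum_univ_six]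

theorem row_ex (h : Pres i c x) (hi : i ^ 2 = -1) (he : 2 * c * e = 1) :
    (∀ f, f ᵥ* D4 i c x = 0 → f = 0) ∧ (∀ f, f ᵥ* D3 i c x = 0 → ∃ g, g ᵥ* D4 i c x = f) ∧
    (∀ f, f ᵥ* D2 i c x = 0 → ∃ g, g ᵥ* D3 i c x = f) := by
  have cen := tt_central h hi
  refine acyc cen (reg0 h hi) (reg1 h hi) (reg2 h hi) (vm (D4 i c x)) (vm (D3 i c x)) (vm (D2 i c x))
    (fun j f => vm_smul _ _ _) (fun j f => vm_smul _ _ _) (fun f => ?_) (fun f hf => ?_)
    (fun f hf => ⟨rkA (HT03 h.rel hi he) (cen 0) eT03 f hf,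
      rkB (HT13 h.rel hi he) (DD3 h.rel hi) (cen 1) eT13 f hf⟩) fun f hf j => ?_
  · show (f ᵥ* D4 i c x) ᵥ* D3 i c x = 0
    rw [vecMul_vecMul, DD3 h.rel hi, vecMul_zero]
  · have hf' : f ᵥ* D4 i c x = 0 := hf
    rw [← vm_dg (cen 0), ← eT04, ← HT04 h.rel hi he, ← vecMul_vecMul, hf', zero_vecMul]
  · fin_cases j
    · exact rkA (HT02 h.rel hi he) (cen 0) eT02 f hf
    · exact rkB (HT12 h.rel hi he) (DD2 h.rel hi) (cen 1) eT12 f hf
    · exact rkB (HT22 h.rel hi he) (DD2 h.rel hi) (cen 2) eT22 f hf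

theorem col_ex (h : Pres i c x) (hi : i ^ 2 = -1) (he : 2 * c * e = 1) :
    (∀ f, D1 i c x *ᵥ f = 0 → f = 0) ∧ (∀ f, D2 i c x *ᵥ f = 0 → ∃ g, D1 i c x *ᵥ g = f) ∧
    (∀ f, D3 i c x *ᵥ f = 0 → ∃ g, D2 i c x *ᵥ g = f) := by
  have cen := tt_central h hi
  refine acyc cen (reg0 h hi) (reg1 h hi) (reg2 h hi) (mv (D1 i c x)) (mv (D2 i c x)) (mv (D3 i c x))
    (fun j f => mv_smul _ _ (cen j) _) (fun j f => mv_smul _ _ (cen j) _) (fun f => ?_) (fun f hf => ?_)
    (fun f hf => ⟨ckA (HT01 h.rel hi he) eT01 f hf,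
      ckB (HT11 h.rel hi he) (DD1 h.rel hi) eT11 f hf⟩) fun f hf j => ?_
  · show D2 i c x *ᵥ (D1 i c x *ᵥ f) = 0
    rw [mulVec_mulVec, DD1 h.rel hi, zero_mulVec]
  · have hf' : D1 i c x *ᵥ f = 0 := hf
    rw [← mv_dg, ← eT00, ← HT00 h.rel hi he, ← mulVec_mulVec, hf', mulVec_zero]
  · fin_cases j
    · exact ckA (HT02 h.rel hi he) eT02 f hf
    · exact ckB (HT12 h.rel hi he) (DD2 h.rel hi) eT12 f hf
    · exact ckB (HT22 h.rel hi he) (DD2 h.rel hi) eT22 f hf

/-- operators of the presentation trick -/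
def trick {M : Type} [AddCommGroup M] [Module A M] [Module k M] [IsScalarTower k A M]
    (a : A) (m : M) : Module.End k (k × M) where
  toFun z := (0, z.1 • m + a • z.2)
  map_add' u v := by simp [add_smul]; abel
  map_smul' r v := by simp [mul_smul, smul_comm r a]

theorem trick_mul {M : Type} [AddCommGroup M] [Module A M] [Module k M] [IsScalarTower k A M]
    (a b : A) (m m' : M) (z : k × M) :
    (trick a m * trick b m' : Module.End k (k × M)) z = (0, z.1 • a • m' + (a * b) • z.2) := by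
  simp [trick, mul_smul, smul_comm a z.1]

theorem row_ex1 (h : Pres i c x) (f : Fin 4 → A) (hf : f ᵥ* D1 i c x = 0) :
    ∃ g, g ᵥ* D2 i c x = f := by
  let S : Submodule A (Fin 4 → A) := LinearMap.range (D2 i c x).vecMulLinear
  let ee : Fin 4 → (Fin 4 → A) ⧸ S := fun r => S.mkQ (Pi.single r 1)
  have hrow : ∀ m, ∑ r, D2 i c x m r • ee r = 0 := fun m => by
    have : ∑ r, D2 i c x m r • (Pi.single r 1 : Fin 4 → A) ∈ S := ⟨Pi.single m 1, by
      ext l; simp [Pi.single_apply]⟩
    have h2 : S.mkQ _ = 0 := (Submodule.Quotient.mk_eq_zero S).2 this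
    simpa only [map_sum, map_smul] using h2
  simp only [Fin.sum_univ_four] at hrow
  have hr : Rels i c fun r => (trick (x r) (ee r) : Module.End k (k × ((Fin 4 → A) ⧸ S))) := by
    obtain ⟨act, hact⟩ : ∃ act : A → (Fin 4 → A) ⧸ S → (Fin 4 → A) ⧸ S, ∀ a m, a • m = act a m :=
      ⟨_, fun _ _ => rfl⟩
    have a0 := hrow 0
    have a1 := hrow 1
    have a2 := hrow 2
    have a3 := hrow 3
    have a4 := hrow 4
    have a5 := hrow 5
    simp only [D2, of_apply, cons_val', cons_val_zero, cons_val_one, cons_val, cons_val_fin_one,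
      zero_smul, add_smul, smul_assoc] at a0 a1 a2 a3 a4 a5
    simp only [hact] at a0 a1 a2 a3 a4 a5
    have b := fun (a : A) (ha : a = 0) (m : (Fin 4 → A) ⧸ S) => (show a • m = 0 by rw [ha, zero_smul])
    constructor <;> refine LinearMap.ext fun z => ?_ <;>
      simp only [LinearMap.add_apply, LinearMap.sub_apply, LinearMap.smul_apply, trick_mul,
        LinearMap.zero_apply] <;> refine Prod.ext (by simp) ?_ <;>
      simp only [Prod.snd_add, Prod.snd_sub, Prod.smul_snd, Prod.snd_zero]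
    · have := b _ h.rel.r0 z.2
      simp only [add_smul, sub_smul, smul_assoc] at this
      simp only [hact] at this ⊢
      linear_combination (norm := module) z.1 • a0 + this
    · have := b _ h.rel.r1 z.2
      simp only [add_smul, sub_smul, smul_assoc] at this
      simp only [hact] at this ⊢
      linear_combination (norm := module) z.1 • a1 + this
    · have := b _ h.rel.r2 z.2
      simp only [add_smul, sub_smul, smul_assoc] at this
      simp only [hact] at this ⊢
      linear_combination (norm := module) z.1 • a2 + this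
    · have := b _ h.rel.r3 z.2
      simp only [add_smul, sub_smul, smul_assoc] at this
      simp only [hact] at this ⊢
      linear_combination (norm := module) z.1 • a3 + this
    · have := b _ h.rel.r4 z.2
      simp only [add_smul, sub_smul, smul_assoc] at this
      simp only [hact] at this ⊢
      linear_combination (norm := module) z.1 • a4 + this
    · have := b _ h.rel.r5 z.2
      simp only [add_smul, sub_smul, smul_assoc] at this
      simp only [hact] at this ⊢
      linear_combination (norm := module) z.1 • a5 + this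
  obtain ⟨Φ, hΦ⟩ := h.up _ _ hr
  have k1 : ∀ a m, Φ a (0, m) = (0, a • m) := by
    intro a
    induction a using gen_ind h.gen with
    | h1 r => intro m; rw [AlgHom.commutes, Module.algebraMap_end_apply]; simp
    | hx j => intro m; rw [hΦ]; simp [trick]
    | ha a b ha hb => intro m; rw [map_add, LinearMap.add_apply, ha, hb, add_smul]; simp
    | hm a b ha hb => intro m; rw [map_mul, Module.End.mul_apply, hb, ha, mul_smul]
  have k2 : ∀ a r, (Φ (a * x r) (1, 0)).2 = a • ee r := fun a r => by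
    rw [map_mul, Module.End.mul_apply, hΦ]
    simp [trick, k1]
  have k3 : f 0 * x 0 + f 1 * x 1 + f 2 * x 2 + f 3 * x 3 = 0 := by
    simpa [vecMul, dotProduct, D1, Fin.sum_univ_four] using congrFun hf 0
  have k4 : S.mkQ f = 0 := by
    have := congrArg (fun a => (Φ a (1, 0)).2) k3
    simp only [map_add, LinearMap.add_apply, Prod.snd_add, k2, map_zero, LinearMap.zero_apply,
      Prod.snd_zero] at this
    have e : f = f 0 • Pi.single 0 1 + f 1 • Pi.single 1 1 + f 2 • Pi.single 2 1 + f 3 • Pi.single 3 1 :=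
      funext fun l => by fin_cases l <;> simp
    rw [e, map_add, map_add, map_add, map_smul, map_smul, map_smul, map_smul]
    exact this
  exact (Submodule.Quotient.mk_eq_zero S).1 k4

open MulOpposite in
/-- generators of the opposite algebra -/
def xop (i : k) (x : Fin 4 → A) : Fin 4 → Aᵐᵒᵖ := ![MulOpposite.op (x 0), MulOpposite.op (x 1), MulOpposite.op (x 2), i • MulOpposite.op (x 3)]

open MulOpposite in
theorem rels_op (h : Rels i c x) (hi : i ^ 2 = -1) : Rels (-i) c (xop i x) := by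
  constructor <;> apply unop_injective <;>
    simp only [xop, cons_val_zero, cons_val_one, cons_val, unop_add, unop_sub, unop_mul, unop_smul,
      unop_op, unop_zero, mul_smul_comm, smul_mul_assoc]
  · linear_combination (norm := module) h.r0 - hi • (x 0 * x 3)
  · linear_combination (norm := module) -h.r1 + hi • (x 1 * x 3)
  · linear_combination (norm := module) -h.r2 + hi • (x 3 * x 3)
  · exact h.r3
  · linear_combination (norm := module) h.r4
  · linear_combination (norm := module) h.r5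

open MulOpposite in
theorem span_op (hi : i ^ 2 = -1) (j : Fin 4) : MulOpposite.op (x j) ∈ Submodule.span k (Set.range (xop i x)) := by
  have m : ∀ l, xop i x l ∈ Submodule.span k (Set.range (xop i x)) := fun l =>
    Submodule.subset_span ⟨l, rfl⟩
  fin_cases j
  · exact m 0
  · exact m 1
  · exact m 2
  · have := Submodule.smul_mem _ (-i) (m 3)
    have e : (-i) • xop i x 3 = MulOpposite.op (x 3) := by
      show (-i) • i • MulOpposite.op (x 3) = _
      linear_combination (norm := module) (-hi) • MulOpposite.op (x 3)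
    rwa [e] at this

open MulOpposite in
theorem pres_op (h : Pres i c x) (hi : i ^ 2 = -1) : Pres (-i) c (xop i x) := by
  refine ⟨rels_op h.rel hi, ?_, fun B _ _ y hy => ?_⟩
  · rw [eq_top_iff]
    rintro a -
    obtain ⟨a, rfl⟩ := op_surjective a
    induction a using gen_ind h.gen with
    | h1 r => exact Subalgebra.algebraMap_mem _ r
    | hx j => exact Algebra.span_le_adjoin k _ (span_op hi j)
    | ha a b ha hb => exact add_mem ha hb
    | hm a b ha hb => exact mul_mem hb ha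
  · have := rels_op hy (by rw [neg_sq, hi])
    rw [neg_neg] at this
    obtain ⟨φ, hφ⟩ := h.up _ _ this
    refine ⟨(AlgEquiv.opOp k B).symm.toAlgHom.comp (AlgHom.op φ), fun j => ?_⟩
    fin_cases j
    · show unop (φ (x 0)) = y 0
      rw [hφ]; rfl
    · show unop (φ (x 1)) = y 1
      rw [hφ]; rfl
    · show unop (φ (x 2)) = y 2
      rw [hφ]; rfl
    · show unop (φ (i • x 3)) = y 3
      rw [map_smul, hφ]
      show i • (-i) • y 3 = y 3
      linear_combination (norm := module) (-hi) • y 3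

open MulOpposite in
theorem col_ex3 (h : Pres i c x) (hi : i ^ 2 = -1) (he : 2 * c * e = 1) (f : Fin 4 → A)
    (hf : D4 i c x *ᵥ f = 0) : ∃ g, D3 i c x *ᵥ g = f := by
  have k3 : x 0 * f 0 + x 1 * f 1 + x 2 * f 2 + x 3 * f 3 = 0 := by
    simpa [mulVec, dotProduct, D4, Fin.sum_univ_four] using congrFun hf 0
  obtain ⟨g, hg⟩ := row_ex1 (pres_op h hi) ![MulOpposite.op (f 0), MulOpposite.op (f 1), MulOpposite.op (f 2), (-i) • MulOpposite.op (f 3)] (by
    ext l; fin_cases l
    apply unop_injective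
    simp only [vecMul, dotProduct, D1, Fin.sum_univ_four, xop, of_apply, cons_val', cons_val_zero,
      cons_val_one, cons_val, cons_val_fin_one, unop_add, unop_mul, unop_smul, unop_op, Pi.zero_apply,
      unop_zero, mul_smul_comm, smul_mul_assoc, Fin.zero_eta]
    linear_combination (norm := module) k3 - hi • (x 3 * f 3))
  have a0 := congrArg unop (congrFun hg 0)
  have a1 := congrArg unop (congrFun hg 1)
  have a2 := congrArg unop (congrFun hg 2)
  have a3 := congrArg (fun z => i • unop z) (congrFun hg 3)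
  simp only [vecMul, dotProduct, D2, Fin.sum_univ_six, xop, of_apply, cons_val', cons_val_zero,
    cons_val_one, cons_val, cons_val_fin_one, unop_add, unop_mul, unop_smul, unop_op, Pi.zero_apply,
    unop_zero, mul_smul_comm, smul_mul_assoc, mul_zero, mul_add, add_mul] at a0 a1 a2 a3
  have a3' : f 3 = i • (-i) • f 3 := by linear_combination (norm := module) hi • f 3
  refine ⟨![(i * e) • unop (g 1), (-i * e) • unop (g 0), e • unop (g 2), unop (g 5),
    (2 : k) • unop (g 5) - e • unop (g 4),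
    unop (g 3) + (2 : k) • unop (g 4) + (2 - 2 * c) • unop (g 5)], funext fun l => ?_⟩
  fin_cases l <;>
    simp only [mulVec, dotProduct, D3, Fin.sum_univ_six, of_apply, cons_val', cons_val_zero,
      cons_val_one, cons_val, cons_val_fin_one, mul_smul_comm, smul_mul_assoc, zero_mul, mul_add,
      add_mul, mul_sub, Fin.zero_eta, Fin.mk_one, Fin.reduceFinMk]
  · rw [← a0]; match_scalars <;> grind
  · rw [← a1]; match_scalars <;> grind
  · rw [← a2]; match_scalars <;> grind
  · rw [a3', ← a3]; match_scalars <;> grind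

end Pool.Agent.H72.Pm
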