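import Pool.Agent.H72.PmE

set_option autoImplicit false
set_option linter.unusedVariables false
set_option linter.unusedSimpArgs false
set_option linter.unnecessarySeqFocus false
set_option linter.unusedTactic false
set_option linter.unreachableTactic false

namespace Pool.Agent.H72.Pm

variable {k : Type} [Field k] {A : Type} [Ring A] [Algebra k A]

/-- The six relations read backwards. -/
structure RelsOp (i c : k) (x : Fin 4 → A) : Prop where
  r0 : x 3 * x 0 + i • (x 0 * x 3) = 0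
  r1 : x 3 * x 1 - i • (x 1 * x 3) = 0
  r2 : x 3 * x 3 + x 1 * x 0 - x 0 * x 1 = 0
  r3 : x 2 * x 2 - x 1 * x 1 = 0
  r4 : x 2 * x 0 + x 0 * x 2 - (2 : k) • (x 1 * x 1) = 0
  r5 : x 2 * x 1 + x 1 * x 2 - (2 * c) • (x 0 * x 0) - (2 * (1 - c)) • (x 1 * x 1) = 0

def S1 (i c : k) (x : Fin 4 → A) : Matrix (Fin 4) (Fin 1) A :=
  !![(-1 : k) • x 0;
    (-1 : k) • x 1;
    (-1 : k) • x 2;
    (-1 : k) • x 3]

def S2 (i c : k) (x : Fin 4 → A) : Matrix (Fin 6) (Fin 4) A :=
  !![(1 : k) • x 3, 0, 0, (i : k) • x 0;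
    0, (1 : k) • x 3, 0, (-i : k) • x 1;
    (1 : k) • x 1, (-1 : k) • x 0, 0, (1 : k) • x 3;
    0, (-1 : k) • x 1, (1 : k) • x 2, 0;
    (1 : k) • x 2, (-2 : k) • x 1, (1 : k) • x 0, 0;
    (-2*c : k) • x 0, (-2 + 2*c : k) • x 1 + (1 : k) • x 2, (1 : k) • x 1, 0]

def S3 (i c : k) (x : Fin 4 → A) : Matrix (Fin 4) (Fin 6) A :=
  !![0, (2*c : k) • x 3, (-2*c : k) • x 1, (2*c : k) • x 0 + (-4*c : k) • x 2, (2*c : k) • x 2, 0;
    (-2*c : k) • x 3, 0, (2*c : k) • x 0, (-1 : k) • x 2, 0, (1 : k) • x 1;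
    0, 0, 0, (-4*c : k) • x 0 + (-1 : k) • x 1 + (2 + 6*c : k) • x 2, (2*c : k) • x 0 + (-4*c : k) • x 2, (-1 : k) • x 2;
    (-2*c*i : k) • x 1, (-2*c*i : k) • x 0, (2*c : k) • x 3, 0, 0, 0]

def S4 (i c : k) (x : Fin 4 → A) : Matrix (Fin 1) (Fin 4) A :=
  !![(1 : k) • x 0, (1 : k) • x 1, (1 : k) • x 2, (1 : k) • x 3]

variable {i c : k} {y z : Fin 4 → A}

theorem SS1 (hz : RelsOp i c z) (hi : i ^ 2 = -1) (cm : ∀ r s, z s * y r = y r * z s) :
    D2 i c y * S1 i c z + S2 i c z * D1 i c y + S2 i c z * S1 i c z = 0 := by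
  ext a b
  fin_cases a <;> fin_cases b
  · simp only [D1, D2, D3, D4, S1, S2, S3, S4, cm, Matrix.add_apply, Matrix.mul_apply, Fin.sum_univ_four, Fin.sum_univ_six, Fin.sum_univ_one, Matrix.of_apply, Matrix.cons_val', Matrix.cons_val_zero, Matrix.cons_val_one, Matrix.cons_val, Matrix.cons_val_fin_one, Matrix.zero_apply, Fin.isValue, Fin.zero_eta, Fin.mk_one, Fin.reduceFinMk, mul_zero, zero_mul, add_mul, mul_add, smul_mul_smul_comm] <;>
      linear_combination (norm := module) (-1 : k) • hz.r0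
  · simp only [D1, D2, D3, D4, S1, S2, S3, S4, cm, Matrix.add_apply, Matrix.mul_apply, Fin.sum_univ_four, Fin.sum_univ_six, Fin.sum_univ_one, Matrix.of_apply, Matrix.cons_val', Matrix.cons_val_zero, Matrix.cons_val_one, Matrix.cons_val, Matrix.cons_val_fin_one, Matrix.zero_apply, Fin.isValue, Fin.zero_eta, Fin.mk_one, Fin.reduceFinMk, mul_zero, zero_mul, add_mul, mul_add, smul_mul_smul_comm] <;>
      linear_combination (norm := module) (-1 : k) • hz.r1
  · simp only [D1, D2, D3, D4, S1, S2, S3, S4, cm, Matrix.add_apply, Matrix.mul_apply, Fin.sum_univ_four, Fin.sum_univ_six, Fin.sum_univ_one, Matrix.of_apply, Matrix.cons_val', Matrix.cons_val_zero, Matrix.cons_val_one, Matrix.cons_val, Matrix.cons_val_fin_one, Matrix.zero_apply, Fin.isValue, Fin.zero_eta, Fin.mk_one, Fin.reduceFinMk, mul_zero, zero_mul, add_mul, mul_add, smul_mul_smul_comm] <;>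
      linear_combination (norm := module) (-1 : k) • hz.r2
  · simp only [D1, D2, D3, D4, S1, S2, S3, S4, cm, Matrix.add_apply, Matrix.mul_apply, Fin.sum_univ_four, Fin.sum_univ_six, Fin.sum_univ_one, Matrix.of_apply, Matrix.cons_val', Matrix.cons_val_zero, Matrix.cons_val_one, Matrix.cons_val, Matrix.cons_val_fin_one, Matrix.zero_apply, Fin.isValue, Fin.zero_eta, Fin.mk_one, Fin.reduceFinMk, mul_zero, zero_mul, add_mul, mul_add, smul_mul_smul_comm] <;>
      linear_combination (norm := module) (-1 : k) • hz.r3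
  · simp only [D1, D2, D3, D4, S1, S2, S3, S4, cm, Matrix.add_apply, Matrix.mul_apply, Fin.sum_univ_four, Fin.sum_univ_six, Fin.sum_univ_one, Matrix.of_apply, Matrix.cons_val', Matrix.cons_val_zero, Matrix.cons_val_one, Matrix.cons_val, Matrix.cons_val_fin_one, Matrix.zero_apply, Fin.isValue, Fin.zero_eta, Fin.mk_one, Fin.reduceFinMk, mul_zero, zero_mul, add_mul, mul_add, smul_mul_smul_comm] <;>
      linear_combination (norm := module) (-1 : k) • hz.r4
  · simp only [D1, D2, D3, D4, S1, S2, S3, S4, cm, Matrix.add_apply, Matrix.mul_apply, Fin.sum_univ_four, Fin.sum_univ_six, Fin.sum_univ_one, Matrix.of_apply, Matrix.cons_val', Matrix.cons_val_zero, Matrix.cons_val_one, Matrix.cons_val, Matrix.cons_val_fin_one, Matrix.zero_apply, Fin.isValue, Fin.zero_eta, Fin.mk_one, Fin.reduceFinMk, mul_zero, zero_mul, add_mul, mul_add, smul_mul_smul_comm] <;>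
      linear_combination (norm := module) (-1 : k) • hz.r5

theorem DS1 (hy : Rels i c y) (hz : RelsOp i c z) (hi : i ^ 2 = -1)
    (cm : ∀ r s, z s * y r = y r * z s) :
    (D2 i c y + S2 i c z) * (D1 i c y + S1 i c z) = 0 := by
  rw [Matrix.add_mul, Matrix.mul_add, Matrix.mul_add, DD1 hy hi, zero_add, ← add_assoc, SS1 hz hi cm]

theorem SS2 (hz : RelsOp i c z) (hi : i ^ 2 = -1) (cm : ∀ r s, z s * y r = y r * z s) :
    D3 i c y * S2 i c z + S3 i c z * D2 i c y + S3 i c z * S2 i c z = 0 := by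
  ext a b
  fin_cases a <;> fin_cases b
  · simp only [D1, D2, D3, D4, S1, S2, S3, S4, cm, Matrix.add_apply, Matrix.mul_apply, Fin.sum_univ_four, Fin.sum_univ_six, Fin.sum_univ_one, Matrix.of_apply, Matrix.cons_val', Matrix.cons_val_zero, Matrix.cons_val_one, Matrix.cons_val, Matrix.cons_val_fin_one, Matrix.zero_apply, Fin.isValue, Fin.zero_eta, Fin.mk_one, Fin.reduceFinMk, mul_zero, zero_mul, add_mul, mul_add, smul_mul_smul_comm] <;>
      linear_combination (norm := module) (2*c : k) • hz.r3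
  · simp only [D1, D2, D3, D4, S1, S2, S3, S4, cm, Matrix.add_apply, Matrix.mul_apply, Fin.sum_univ_four, Fin.sum_univ_six, Fin.sum_univ_one, Matrix.of_apply, Matrix.cons_val', Matrix.cons_val_zero, Matrix.cons_val_one, Matrix.cons_val, Matrix.cons_val_fin_one, Matrix.zero_apply, Fin.isValue, Fin.zero_eta, Fin.mk_one, Fin.reduceFinMk, mul_zero, zero_mul, add_mul, mul_add, smul_mul_smul_comm] <;>
      linear_combination (norm := module) (2*c : k) • hz.r2
  · simp only [D1, D2, D3, D4, S1, S2, S3, S4, cm, Matrix.add_apply, Matrix.mul_apply, Fin.sum_univ_four, Fin.sum_univ_six, Fin.sum_univ_one, Matrix.of_apply, Matrix.cons_val', Matrix.cons_val_zero, Matrix.cons_val_one, Matrix.cons_val, Matrix.cons_val_fin_one, Matrix.zero_apply, Fin.isValue, Fin.zero_eta, Fin.mk_one, Fin.reduceFinMk, mul_zero, zero_mul, add_mul, mul_add, smul_mul_smul_comm] <;>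
      linear_combination (norm := module) (-4*c : k) • hz.r3 + (2*c : k) • hz.r4
  · simp only [D1, D2, D3, D4, S1, S2, S3, S4, cm, Matrix.add_apply, Matrix.mul_apply, Fin.sum_univ_four, Fin.sum_univ_six, Fin.sum_univ_one, Matrix.of_apply, Matrix.cons_val', Matrix.cons_val_zero, Matrix.cons_val_one, Matrix.cons_val, Matrix.cons_val_fin_one, Matrix.zero_apply, Fin.isValue, Fin.zero_eta, Fin.mk_one, Fin.reduceFinMk, mul_zero, zero_mul, add_mul, mul_add, smul_mul_smul_comm] <;>
      linear_combination (norm := module) (-2*c*i : k) • hz.r1 + ((-2*c : k) * hi) • (z 1 * z 3) + ((-2*c : k) * hi) • (y 3 * z 1)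
  · simp only [D1, D2, D3, D4, S1, S2, S3, S4, cm, Matrix.add_apply, Matrix.mul_apply, Fin.sum_univ_four, Fin.sum_univ_six, Fin.sum_univ_one, Matrix.of_apply, Matrix.cons_val', Matrix.cons_val_zero, Matrix.cons_val_one, Matrix.cons_val, Matrix.cons_val_fin_one, Matrix.zero_apply, Fin.isValue, Fin.zero_eta, Fin.mk_one, Fin.reduceFinMk, mul_zero, zero_mul, add_mul, mul_add, smul_mul_smul_comm] <;>
      linear_combination (norm := module) (-2*c : k) • hz.r2
  · simp only [D1, D2, D3, D4, S1, S2, S3, S4, cm, Matrix.add_apply, Matrix.mul_apply, Fin.sum_univ_four, Fin.sum_univ_six, Fin.sum_univ_one, Matrix.of_apply, Matrix.cons_val', Matrix.cons_val_zero, Matrix.cons_val_one, Matrix.cons_val, Matrix.cons_val_fin_one, Matrix.zero_apply, Fin.isValue, Fin.zero_eta, Fin.mk_one, Fin.reduceFinMk, mul_zero, zero_mul, add_mul, mul_add, smul_mul_smul_comm] <;>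
      linear_combination (norm := module) (1 : k) • hz.r5
  · simp only [D1, D2, D3, D4, S1, S2, S3, S4, cm, Matrix.add_apply, Matrix.mul_apply, Fin.sum_univ_four, Fin.sum_univ_six, Fin.sum_univ_one, Matrix.of_apply, Matrix.cons_val', Matrix.cons_val_zero, Matrix.cons_val_one, Matrix.cons_val, Matrix.cons_val_fin_one, Matrix.zero_apply, Fin.isValue, Fin.zero_eta, Fin.mk_one, Fin.reduceFinMk, mul_zero, zero_mul, add_mul, mul_add, smul_mul_smul_comm] <;>
      linear_combination (norm := module) (-1 : k) • hz.r3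
  · simp only [D1, D2, D3, D4, S1, S2, S3, S4, cm, Matrix.add_apply, Matrix.mul_apply, Fin.sum_univ_four, Fin.sum_univ_six, Fin.sum_univ_one, Matrix.of_apply, Matrix.cons_val', Matrix.cons_val_zero, Matrix.cons_val_one, Matrix.cons_val, Matrix.cons_val_fin_one, Matrix.zero_apply, Fin.isValue, Fin.zero_eta, Fin.mk_one, Fin.reduceFinMk, mul_zero, zero_mul, add_mul, mul_add, smul_mul_smul_comm] <;>
      linear_combination (norm := module) (-2*c*i : k) • hz.r0 + ((2*c : k) * hi) • (z 0 * z 3) + ((2*c : k) * hi) • (y 3 * z 0)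
  · simp only [D1, D2, D3, D4, S1, S2, S3, S4, cm, Matrix.add_apply, Matrix.mul_apply, Fin.sum_univ_four, Fin.sum_univ_six, Fin.sum_univ_one, Matrix.of_apply, Matrix.cons_val', Matrix.cons_val_zero, Matrix.cons_val_one, Matrix.cons_val, Matrix.cons_val_fin_one, Matrix.zero_apply, Fin.isValue, Fin.zero_eta, Fin.mk_one, Fin.reduceFinMk, mul_zero, zero_mul, add_mul, mul_add, smul_mul_smul_comm] <;>
      linear_combination (norm := module) (-4*c : k) • hz.r3 + (2*c : k) • hz.r4
  · simp only [D1, D2, D3, D4, S1, S2, S3, S4, cm, Matrix.add_apply, Matrix.mul_apply, Fin.sum_univ_four, Fin.sum_univ_six, Fin.sum_univ_one, Matrix.of_apply, Matrix.cons_val', Matrix.cons_val_zero, Matrix.cons_val_one, Matrix.cons_val, Matrix.cons_val_fin_one, Matrix.zero_apply, Fin.isValue, Fin.zero_eta, Fin.mk_one, Fin.reduceFinMk, mul_zero, zero_mul, add_mul, mul_add, smul_mul_smul_comm] <;>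
      linear_combination (norm := module) (-1 : k) • hz.r3
  · simp only [D1, D2, D3, D4, S1, S2, S3, S4, cm, Matrix.add_apply, Matrix.mul_apply, Fin.sum_univ_four, Fin.sum_univ_six, Fin.sum_univ_one, Matrix.of_apply, Matrix.cons_val', Matrix.cons_val_zero, Matrix.cons_val_one, Matrix.cons_val, Matrix.cons_val_fin_one, Matrix.zero_apply, Fin.isValue, Fin.zero_eta, Fin.mk_one, Fin.reduceFinMk, mul_zero, zero_mul, add_mul, mul_add, smul_mul_smul_comm] <;>
      linear_combination (norm := module) (2 + 6*c : k) • hz.r3 + (-4*c : k) • hz.r4 + (-1 : k) • hz.r5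
  · simp only [D1, D2, D3, D4, S1, S2, S3, S4, cm, Matrix.add_apply, Matrix.mul_apply, Fin.sum_univ_four, Fin.sum_univ_six, Fin.sum_univ_one, Matrix.of_apply, Matrix.cons_val', Matrix.cons_val_zero, Matrix.cons_val_one, Matrix.cons_val, Matrix.cons_val_fin_one, Matrix.zero_apply, Fin.isValue, Fin.zero_eta, Fin.mk_one, Fin.reduceFinMk, mul_zero, zero_mul, add_mul, mul_add, smul_mul_smul_comm] <;>
      module
  · simp only [D1, D2, D3, D4, S1, S2, S3, S4, cm, Matrix.add_apply, Matrix.mul_apply, Fin.sum_univ_four, Fin.sum_univ_six, Fin.sum_univ_one, Matrix.of_apply, Matrix.cons_val', Matrix.cons_val_zero, Matrix.cons_val_one, Matrix.cons_val, Matrix.cons_val_fin_one, Matrix.zero_apply, Fin.isValue, Fin.zero_eta, Fin.mk_one, Fin.reduceFinMk, mul_zero, zero_mul, add_mul, mul_add, smul_mul_smul_comm] <;>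
      linear_combination (norm := module) (2*c : k) • hz.r1 + ((-2*c : k) * hi) • (y 3 * z 1)
  · simp only [D1, D2, D3, D4, S1, S2, S3, S4, cm, Matrix.add_apply, Matrix.mul_apply, Fin.sum_univ_four, Fin.sum_univ_six, Fin.sum_univ_one, Matrix.of_apply, Matrix.cons_val', Matrix.cons_val_zero, Matrix.cons_val_one, Matrix.cons_val, Matrix.cons_val_fin_one, Matrix.zero_apply, Fin.isValue, Fin.zero_eta, Fin.mk_one, Fin.reduceFinMk, mul_zero, zero_mul, add_mul, mul_add, smul_mul_smul_comm] <;>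
      linear_combination (norm := module) (-2*c : k) • hz.r0 + ((2*c : k) * hi) • (y 3 * z 0)
  · simp only [D1, D2, D3, D4, S1, S2, S3, S4, cm, Matrix.add_apply, Matrix.mul_apply, Fin.sum_univ_four, Fin.sum_univ_six, Fin.sum_univ_one, Matrix.of_apply, Matrix.cons_val', Matrix.cons_val_zero, Matrix.cons_val_one, Matrix.cons_val, Matrix.cons_val_fin_one, Matrix.zero_apply, Fin.isValue, Fin.zero_eta, Fin.mk_one, Fin.reduceFinMk, mul_zero, zero_mul, add_mul, mul_add, smul_mul_smul_comm] <;>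
      module
  · simp only [D1, D2, D3, D4, S1, S2, S3, S4, cm, Matrix.add_apply, Matrix.mul_apply, Fin.sum_univ_four, Fin.sum_univ_six, Fin.sum_univ_one, Matrix.of_apply, Matrix.cons_val', Matrix.cons_val_zero, Matrix.cons_val_one, Matrix.cons_val, Matrix.cons_val_fin_one, Matrix.zero_apply, Fin.isValue, Fin.zero_eta, Fin.mk_one, Fin.reduceFinMk, mul_zero, zero_mul, add_mul, mul_add, smul_mul_smul_comm] <;>
      linear_combination (norm := module) (2*c : k) • hz.r2 + ((2*c : k) * hi) • (z 0 * z 1) + ((-2*c : k) * hi) • (z 1 * z 0)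

theorem DS2 (hy : Rels i c y) (hz : RelsOp i c z) (hi : i ^ 2 = -1)
    (cm : ∀ r s, z s * y r = y r * z s) :
    (D3 i c y + S3 i c z) * (D2 i c y + S2 i c z) = 0 := by
  rw [Matrix.add_mul, Matrix.mul_add, Matrix.mul_add, DD2 hy hi, zero_add, ← add_assoc, SS2 hz hi cm]

theorem SS3 (hz : RelsOp i c z) (hi : i ^ 2 = -1) (cm : ∀ r s, z s * y r = y r * z s) :
    D4 i c y * S3 i c z + S4 i c z * D3 i c y + S4 i c z * S3 i c z = 0 := by
  ext a b
  fin_cases a <;> fin_cases b
  · simp only [D1, D2, D3, D4, S1, S2, S3, S4, cm, Matrix.add_apply, Matrix.mul_apply, Fin.sum_univ_four, Fin.sum_univ_six, Fin.sum_univ_one, Matrix.of_apply, Matrix.cons_val', Matrix.cons_val_zero, Matrix.cons_val_one, Matrix.cons_val, Matrix.cons_val_fin_one, Matrix.zero_apply, Fin.isValue, Fin.zero_eta, Fin.mk_one, Fin.reduceFinMk, mul_zero, zero_mul, add_mul, mul_add, smul_mul_smul_comm] <;>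
      linear_combination (norm := module) (-2*c*i : k) • hz.r1 + ((-2*c : k) * hi) • (z 1 * z 3)
  · simp only [D1, D2, D3, D4, S1, S2, S3, S4, cm, Matrix.add_apply, Matrix.mul_apply, Fin.sum_univ_four, Fin.sum_univ_six, Fin.sum_univ_one, Matrix.of_apply, Matrix.cons_val', Matrix.cons_val_zero, Matrix.cons_val_one, Matrix.cons_val, Matrix.cons_val_fin_one, Matrix.zero_apply, Fin.isValue, Fin.zero_eta, Fin.mk_one, Fin.reduceFinMk, mul_zero, zero_mul, add_mul, mul_add, smul_mul_smul_comm] <;>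
      linear_combination (norm := module) (-2*c*i : k) • hz.r0 + ((2*c : k) * hi) • (z 0 * z 3)
  · simp only [D1, D2, D3, D4, S1, S2, S3, S4, cm, Matrix.add_apply, Matrix.mul_apply, Fin.sum_univ_four, Fin.sum_univ_six, Fin.sum_univ_one, Matrix.of_apply, Matrix.cons_val', Matrix.cons_val_zero, Matrix.cons_val_one, Matrix.cons_val, Matrix.cons_val_fin_one, Matrix.zero_apply, Fin.isValue, Fin.zero_eta, Fin.mk_one, Fin.reduceFinMk, mul_zero, zero_mul, add_mul, mul_add, smul_mul_smul_comm] <;>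
      linear_combination (norm := module) (2*c : k) • hz.r2
  · simp only [D1, D2, D3, D4, S1, S2, S3, S4, cm, Matrix.add_apply, Matrix.mul_apply, Fin.sum_univ_four, Fin.sum_univ_six, Fin.sum_univ_one, Matrix.of_apply, Matrix.cons_val', Matrix.cons_val_zero, Matrix.cons_val_one, Matrix.cons_val, Matrix.cons_val_fin_one, Matrix.zero_apply, Fin.isValue, Fin.zero_eta, Fin.mk_one, Fin.reduceFinMk, mul_zero, zero_mul, add_mul, mul_add, smul_mul_smul_comm] <;>
      linear_combination (norm := module) (2 + 6*c : k) • hz.r3 + (-4*c : k) • hz.r4 + (-1 : k) • hz.r5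
  · simp only [D1, D2, D3, D4, S1, S2, S3, S4, cm, Matrix.add_apply, Matrix.mul_apply, Fin.sum_univ_four, Fin.sum_univ_six, Fin.sum_univ_one, Matrix.of_apply, Matrix.cons_val', Matrix.cons_val_zero, Matrix.cons_val_one, Matrix.cons_val, Matrix.cons_val_fin_one, Matrix.zero_apply, Fin.isValue, Fin.zero_eta, Fin.mk_one, Fin.reduceFinMk, mul_zero, zero_mul, add_mul, mul_add, smul_mul_smul_comm] <;>
      linear_combination (norm := module) (-4*c : k) • hz.r3 + (2*c : k) • hz.r4
  · simp only [D1, D2, D3, D4, S1, S2, S3, S4, cm, Matrix.add_apply, Matrix.mul_apply, Fin.sum_univ_four, Fin.sum_univ_six, Fin.sum_univ_one, Matrix.of_apply, Matrix.cons_val', Matrix.cons_val_zero, Matrix.cons_val_one, Matrix.cons_val, Matrix.cons_val_fin_one, Matrix.zero_apply, Fin.isValue, Fin.zero_eta, Fin.mk_one, Fin.reduceFinMk, mul_zero, zero_mul, add_mul, mul_add, smul_mul_smul_comm] <;>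
      linear_combination (norm := module) (-1 : k) • hz.r3

theorem DS3 (hy : Rels i c y) (hz : RelsOp i c z) (hi : i ^ 2 = -1)
    (cm : ∀ r s, z s * y r = y r * z s) :
    (D4 i c y + S4 i c z) * (D3 i c y + S3 i c z) = 0 := by
  rw [Matrix.add_mul, Matrix.mul_add, Matrix.mul_add, DD3 hy hi, zero_add, ← add_assoc, SS3 hz hi cm]

end Pool.Agent.H72.Pm
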