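import Pool.Agent.H72.PmF

set_option autoImplicit false
set_option linter.unusedVariables false
set_option linter.unusedSimpArgs false
set_option linter.unnecessarySeqFocus false
set_option linter.unusedSectionVars false

namespace Pool.Agent.H72.Pm

open Matrix TensorProduct CategoryTheory

variable {k : Type} [Field k] {A : Type} [Ring A] [Algebra k A] {i c e : k} {x : Fin 4 → A}

theorem ind_r (hg : Algebra.adjoin k (Set.range x) = ⊤) {p : A → Prop} (h1 : p 1)
    (hs : ∀ (r : k) a, p a → p (r • a)) (ha : ∀ a b, p a → p b → p (a + b))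
    (hx : ∀ a j, p a → p (a * x j)) (a : A) : p a := by
  have : ∀ a b, p b → p (b * a) := by
    intro a
    induction a using gen_ind hg with
    | h1 r => intro b hb; rw [← Algebra.commutes, ← Algebra.smul_def]; exact hs r b hb
    | hx j => exact fun b hb => hx b j hb
    | ha a a' h h' => intro b hb; rw [mul_add]; exact ha _ _ (h b hb) (h' b hb)
    | hm a a' h h' => intro b hb; rw [← mul_assoc]; exact h' _ (h b hb)
  simpa using this a 1 h1

/-- a family of projections -/
structure Proj {W : Type} [AddCommGroup W] (p : ℕ → W →+ W) : Prop where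
  idem : ∀ j l w, p j (p l w) = if j = l then p j w else 0
  fin : ∀ w, ∃ n, ∀ m, n ≤ m → p m w = 0 ∧ ∑ j ∈ Finset.range m, p j w = w

theorem exists_pr (h : Pres i c x) : ∃ p : ℕ → A →ₗ[k] A, Proj (fun j => (p j).toAddMonoidHom) ∧
    (∀ j a r, p (j + 1) (a * x r) = p j a * x r) ∧ (∀ a r, p 0 (a * x r) = 0) ∧
    ∀ j, p j 1 = if j = 0 then 1 else 0 := by
  have hr : Rels i c fun r => (Polynomial.monomial 1 (x r) : Polynomial A) := by
    constructor <;> simp only [Polynomial.monomial_mul_monomial, Polynomial.smul_monomial, ← map_add,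
      ← map_sub]
    · rw [h.rel.r0, map_zero]
    · rw [h.rel.r1, map_zero]
    · rw [h.rel.r2, map_zero]
    · rw [h.rel.r3, map_zero]
    · rw [h.rel.r4, map_zero]
    · rw [h.rel.r5, map_zero]
  obtain ⟨g, hg⟩ := h.up _ _ hr
  let p : ℕ → A →ₗ[k] A := fun j => ((Polynomial.lcoeff A j).restrictScalars k).comp g.toLinearMap
  have hp : ∀ j a, p j a = (g a).coeff j := fun _ _ => rfl
  have p1 : ∀ j a r, p (j + 1) (a * x r) = p j a * x r := fun j a r => by
    rw [hp, hp, map_mul, hg, Polynomial.coeff_mul_monomial]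
  have p0 : ∀ a r, p 0 (a * x r) = 0 := fun a r => by
    rw [hp, map_mul, hg, Polynomial.mul_coeff_zero]; simp
  have po : ∀ j, p j 1 = if j = 0 then 1 else 0 := fun j => by rw [hp, map_one, Polynomial.coeff_one]
  refine ⟨p, ⟨fun j l a => ?_, fun a => ?_⟩, p1, p0, po⟩
  · show p j (p l a) = if j = l then p j a else 0
    induction a using ind_r h.gen generalizing j l with
    | h1 => rw [po l]; split_ifs <;> simp_all
    | hs r a ha => rw [map_smul, map_smul, ha, map_smul]; split_ifs <;> simp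
    | ha a b ha hb => rw [map_add, map_add, ha, hb, map_add]; split_ifs <;> simp
    | hx a r ha =>
      rcases l with _ | l <;> rcases j with _ | j <;> simp [p0, p1, ha]
  · show ∃ n, ∀ m, n ≤ m → p m a = 0 ∧ ∑ j ∈ Finset.range m, p j a = a
    induction a using ind_r h.gen with
    | h1 => exact ⟨1, fun m hm => by simp [po, show m ≠ 0 by omega, show 0 < m by omega]⟩
    | hs r a ha =>
      obtain ⟨n, hn⟩ := ha
      exact ⟨n, fun m hm => by simp only [map_smul, ← Finset.smul_sum, hn m hm, smul_zero, and_self]⟩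
    | ha a b ha hb =>
      obtain ⟨n, hn⟩ := ha
      obtain ⟨n', hn'⟩ := hb
      exact ⟨n + n', fun m hm => by
        simp only [map_add, Finset.sum_add_distrib, hn m (by omega), hn' m (by omega), add_zero, and_self]⟩
    | hx a r ha =>
      obtain ⟨n, hn⟩ := ha
      refine ⟨n + 1, fun m hm => ?_⟩
      obtain ⟨m, rfl⟩ : ∃ m', m = m' + 1 := ⟨m - 1, by omega⟩
      simp only [Finset.sum_range_succ', p1, p0, ← Finset.sum_mul, hn m (by omega), zero_mul, add_zero,
        and_self]

theorem Proj.pi {W : Type} [AddCommGroup W] {p : ℕ → W →+ W} (hp : Proj p) (n : ℕ) :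
    Proj fun j => (p j).compLeft (Fin n) := by
  refine ⟨fun j l w => funext fun a => ?_, fun w => ?_⟩
  · show p j (p l (w a)) = _
    rw [hp.idem]; split_ifs <;> rfl
  · choose f hf using fun a => hp.fin (w a)
    refine ⟨∑ a, f a, fun m hm => ?_⟩
    have : ∀ a, f a ≤ m := fun a =>
      (Finset.single_le_sum (fun _ _ => Nat.zero_le _) (Finset.mem_univ a)).trans hm
    exact ⟨funext fun a => (hf a m (this a)).1, funext fun a => by
      rw [Finset.sum_apply]; exact (hf a m (this a)).2⟩

/-- filtration argument -/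
theorem filt {W2 W1 W0 : Type} [AddCommGroup W2] [AddCommGroup W1] [AddCommGroup W0]
    {p2 : ℕ → W2 →+ W2} {p1 : ℕ → W1 →+ W1} {p0 : ℕ → W0 →+ W0} (h2 : Proj p2) (h1 : Proj p1)
    (L' R' : W2 → W1) (L R : W1 → W0) (d : W1 →+ W0) (d' : W2 →+ W1) (hd : ∀ w, d w = L w + R w)
    (hd' : ∀ w, d' w = L' w + R' w) (dd : ∀ w, d (d' w) = 0)
    (a1 : ∀ j w, p0 (j + 1) (L w) = L (p1 j w)) (a2 : ∀ j w, p0 j (R w) = R (p1 j w)) (a3 : R 0 = 0)
    (b0 : ∀ w, p1 0 (L' w) = 0) (b1 : ∀ j w, p1 (j + 1) (L' w) = L' (p2 j w))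
    (b2 : ∀ j w, p1 j (R' w) = R' (p2 j w)) (b3 : R' 0 = 0)
    (ex : ∀ z, L z = 0 → ∃ w, L' w = z) (z : W1) (hz : d z = 0) : ∃ w, d' w = z := by
  have z0 : ∀ z, (∀ j, p1 j z = 0) → z = 0 := fun z h => by
    obtain ⟨n, hn⟩ := h1.fin z
    rw [← (hn n le_rfl).2]; simp [h]
  obtain ⟨m, hm⟩ : ∃ m, ∀ j, m ≤ j → p1 j z = 0 := (h1.fin z).imp fun n hn j hj => (hn j hj).1
  induction m generalizing z with
  | zero => exact ⟨0, by rw [z0 z fun j => hm j (Nat.zero_le _), map_zero]⟩
  | succ m ih =>
    have e1 : L (p1 m z) = 0 := by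
      have := congrArg (p0 (m + 1)) hz
      rwa [hd, map_add, a1, a2, hm _ le_rfl, a3, add_zero, map_zero] at this
    obtain ⟨w, hw⟩ := ex _ e1
    have e2 : p1 m (L' w) = p1 m z := by rw [hw, h1.idem, if_pos rfl]
    rcases m with _ | m
    · refine ⟨0, ?_⟩
      rw [map_zero, z0 z fun j => ?_]
      rcases j with _ | j
      · rw [← e2, b0]
      · exact hm _ (by omega)
    · rw [b1] at e2
      obtain ⟨u, hu⟩ := ih (z - d' (p2 m w)) (by rw [map_sub, hz, dd, sub_zero]) fun j hj => by
        rw [map_sub, hd', map_add, e2, b2, h2.idem, if_neg (by omega), b3, add_zero, h1.idem]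
        split_ifs with hj'
        · rw [sub_self]
        · rw [hm j (by omega), sub_zero]
      exact ⟨u + p2 m w, by rw [map_add, hu, sub_add_cancel]⟩

theorem rels_lin {B : Type} [Ring B] [Algebra k B] (h : Rels i c x) (f : A →ₗ[k] B)
    (hf : ∀ a b, f a * f b = f (a * b)) : Rels i c fun r => f (x r) := by
  constructor <;> simp only [hf, ← map_smul, ← map_add, ← map_sub]
  · rw [h.r0, map_zero]
  · rw [h.r1, map_zero]
  · rw [h.r2, map_zero]
  · rw [h.r3, map_zero]
  · rw [h.r4, map_zero]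
  · rw [h.r5, map_zero]

theorem relsop_lin {B : Type} [Ring B] [Algebra k B] (h : Rels i c x) (f : A →ₗ[k] B)
    (hf : ∀ a b, f a * f b = f (b * a)) : RelsOp i c fun r => f (x r) := by
  constructor <;> simp only [hf, ← map_smul, ← map_add, ← map_sub]
  · rw [h.r0, map_zero]
  · rw [h.r1, map_zero]
  · rw [h.r2, map_zero]
  · rw [h.r3, map_zero]
  · rw [h.r4, map_zero]
  · rw [h.r5, map_zero]

section mod
variable (M : Type) [AddCommGroup M] [Module A M] [Module k M] [IsScalarTower k A M]

abbrev EE (k A M : Type) [Field k] [Ring A] [Algebra k A] [AddCommGroup M] [Module k M] :=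
  (Module.End A (A ⊗[k] M))ᵐᵒᵖ

noncomputable def ell : A →ₗ[k] EE k A M where
  toFun a := MulOpposite.op (AlgebraTensorModule.map (LinearMap.toSpanSingleton A A a) LinearMap.id)
  map_add' a b := by
    rw [← MulOpposite.op_add]; congr 1; ext m; simp [add_tmul]
  map_smul' r a := by
    rw [RingHom.id_apply, ← MulOpposite.op_smul]; congr 1; ext m; simp [smul_tmul']

noncomputable def rho : A →ₗ[k] EE k A M where
  toFun a := MulOpposite.op (AlgebraTensorModule.map LinearMap.id (DistribSMul.toLinearMap k M a))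
  map_add' a b := by
    rw [← MulOpposite.op_add]; congr 1; ext m; simp [add_smul, tmul_add]
  map_smul' r a := by
    rw [RingHom.id_apply, ← MulOpposite.op_smul]; congr 1; ext m; simp

variable {M}

theorem ell_t (a b : A) (m : M) : (ell M a).unop (b ⊗ₜ[k] m) = (b * a) ⊗ₜ[k] m := by simp [ell]

theorem rho_t (a b : A) (m : M) : (rho M a).unop (b ⊗ₜ[k] m) = b ⊗ₜ[k] (a • m) := by simp [rho]

theorem EE_ext {u v : EE k A M} (h : ∀ b m, u.unop (b ⊗ₜ[k] m) = v.unop (b ⊗ₜ[k] m)) : u = v := by
  apply MulOpposite.unop_injective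
  ext m; exact h 1 m

theorem ell_mul (a b : A) : (ell M a : EE k A M) * ell M b = ell M (a * b) :=
  EE_ext fun _ _ => by simp [ell_t, mul_assoc]

theorem rho_mul (a b : A) : (rho M a : EE k A M) * rho M b = rho M (b * a) :=
  EE_ext fun _ _ => by simp [rho_t, mul_smul]

theorem rho_ell (a b : A) : (rho M a : EE k A M) * ell M b = ell M b * rho M a :=
  EE_ext fun _ _ => by simp [rho_t, ell_t]

theorem ell_rels (h : Rels i c x) : Rels i c fun r => (ell M (x r) : EE k A M) :=
  rels_lin h _ ell_mul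

theorem rho_rels (h : Rels i c x) : RelsOp i c fun r => (rho M (x r) : EE k A M) :=
  relsop_lin h _ rho_mul

noncomputable def act {n m : ℕ} (D : Matrix (Fin n) (Fin m) (EE k A M)) :
    (Fin n → A ⊗[k] M) →ₗ[A] (Fin m → A ⊗[k] M) :=
  LinearMap.pi fun b => ∑ a, (D a b).unop ∘ₗ LinearMap.proj a

theorem act_ap {n m : ℕ} (D : Matrix (Fin n) (Fin m) (EE k A M)) (f : Fin n → A ⊗[k] M) (b : Fin m) :
    act D f b = ∑ a, (D a b).unop (f a) := by simp [act]

theorem act_add {n m : ℕ} (D D' : Matrix (Fin n) (Fin m) (EE k A M)) (f : Fin n → A ⊗[k] M) :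
    act (D + D') f = act D f + act D' f := by
  ext b; simp [act_ap, Finset.sum_add_distrib]

theorem act_mul {n m l : ℕ} (D' : Matrix (Fin l) (Fin n) (EE k A M))
    (D : Matrix (Fin n) (Fin m) (EE k A M)) (hD : D' * D = 0) (f : Fin l → A ⊗[k] M) :
    act D (act D' f) = 0 := by
  ext b
  simp only [act_ap, map_sum]
  rw [Finset.sum_comm]
  refine Finset.sum_eq_zero fun a _ => ?_
  have := congrArg (fun u : EE k A M => u.unop (f a)) (congrFun (congrFun hD a) b)
  simpa [mul_apply, Finset.unop_sum] using this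

theorem act_ex {n m l : ℕ} (D' : Matrix (Fin l) (Fin n) A) (D : Matrix (Fin n) (Fin m) A)
    (ex : ∀ f, f ᵥ* D = 0 → ∃ g, g ᵥ* D' = f) (z : Fin n → A ⊗[k] M)
    (hz : act (D.map (ell M)) z = 0) : ∃ w, act (D'.map (ell M)) w = z := by
  classical
  let β := Algebra.TensorProduct.basis A (Module.Free.chooseBasis k M)
  have hb : ∀ (a : A) (u : A ⊗[k] M) s, β.repr ((ell M a).unop u) s = β.repr u s * a := by
    intro a u s
    induction u using TensorProduct.induction_on with
    | zero => simp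
    | add u v hu hv => simp only [map_add, Finsupp.add_apply, hu, hv, add_mul]
    | tmul b m =>
      rw [ell_t]
      simp only [β, Algebra.TensorProduct.basis_repr_tmul, Finsupp.smul_apply, Finsupp.mapRange_apply,
        smul_eq_mul, mul_assoc, Algebra.commutes]
  have hv : ∀ {n m : ℕ} (D : Matrix (Fin n) (Fin m) A) (z : Fin n → A ⊗[k] M) s b,
      β.repr (act (D.map (ell M)) z b) s = ((fun a => β.repr (z a) s) ᵥ* D) b := fun D z s b => by
    simp [act_ap, map_sum, Finsupp.finsetSum_apply, hb, vecMul, dotProduct]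
  choose g hg using fun s => ex (fun a => β.repr (z a) s) (funext fun b => by
    rw [← hv, hz]; simp)
  let S := Finset.univ.biUnion fun a => (β.repr (z a)).support
  refine ⟨fun p => ∑ s ∈ S, g s p • β s, funext fun a => β.repr.injective (Finsupp.ext fun s => ?_)⟩
  rw [hv]
  have : (fun p => β.repr (∑ s ∈ S, g s p • β s) s) = if s ∈ S then g s else 0 := funext fun p => by
    simp only [map_sum, map_smul, Module.Basis.repr_self, Finsupp.finsetSum_apply, Finsupp.smul_apply,
      Finsupp.single_apply, smul_eq_mul, mul_ite, mul_one, mul_zero, Finset.sum_ite_eq']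
    split_ifs <;> rfl
  rw [this]
  split_ifs with hs
  · rw [hg]
  · rw [zero_vecMul]
    exact (Finsupp.notMem_support_iff.1 fun h' => hs (Finset.mem_biUnion.2 ⟨a, Finset.mem_univ _, h'⟩)).symm

noncomputable def DS (k : Type) [Field k] [Algebra k A] (M : Type) [AddCommGroup M] [Module A M]
    [Module k M] [IsScalarTower k A M] {n m : ℕ} (D S : Matrix (Fin n) (Fin m) A) :
    Matrix (Fin n) (Fin m) (EE k A M) := D.map (ell M) + S.map (rho M)

theorem tens_ex (h : Pres i c x) {n m l : ℕ} (D' S' : Matrix (Fin l) (Fin n) A)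
    (D S : Matrix (Fin n) (Fin m) A) (hD' : ∀ a b, D' a b ∈ Submodule.span k (Set.range x))
    (hD : ∀ a b, D a b ∈ Submodule.span k (Set.range x))
    (dd : DS k M D' S' * DS k M D S = 0)
    (ex : ∀ f, f ᵥ* D = 0 → ∃ g, g ᵥ* D' = f) (z : Fin n → A ⊗[k] M)
    (hz : act (DS k M D S) z = 0) : ∃ w, act (DS k M D' S') w = z := by
  obtain ⟨p, hp, p1, p0, -⟩ := exists_pr h
  let q : ℕ → A ⊗[k] M →+ A ⊗[k] M := fun j => ((p j).rTensor M).toAddMonoidHom
  have qt : ∀ j b m, q j (b ⊗ₜ m) = p j b ⊗ₜ m := fun _ _ _ => rfl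
  have hq : Proj q := by
    refine ⟨fun j l u => ?_, fun u => ?_⟩
    · induction u using TensorProduct.induction_on with
      | zero => simp
      | add u v hu hv => simp only [map_add, hu, hv]; split_ifs <;> simp
      | tmul b m =>
        have : p j (p l b) = if j = l then p j b else 0 := hp.idem j l b
        rw [qt, qt, qt, this]; split_ifs <;> simp
    · induction u using TensorProduct.induction_on with
      | zero => exact ⟨0, by simp⟩
      | add u v hu hv =>
        obtain ⟨n, hn⟩ := hu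
        obtain ⟨n', hn'⟩ := hv
        exact ⟨n + n', fun m hm => by
          simp only [map_add, Finset.sum_add_distrib, hn m (by omega), hn' m (by omega), add_zero,
            and_self]⟩
      | tmul b m =>
        obtain ⟨n, hn⟩ : ∃ n, ∀ m, n ≤ m → p m b = 0 ∧ ∑ j ∈ Finset.range m, p j b = b := hp.fin b
        exact ⟨n, fun l hl => by simp only [qt, ← sum_tmul, hn l hl, zero_tmul, and_self]⟩
  have pv : ∀ a ∈ Submodule.span k (Set.range x), ∀ b, p 0 (b * a) = 0 ∧
      ∀ j, p (j + 1) (b * a) = p j b * a := fun a ha b => by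
    induction ha using Submodule.span_induction with
    | mem a ha => obtain ⟨r, rfl⟩ := ha; exact ⟨p0 b r, fun j => p1 j b r⟩
    | zero => simp
    | add u v _ _ hu hv => simp only [mul_add, map_add, hu, hv, add_zero, implies_true, and_self]
    | smul r u _ hu => simp only [mul_smul_comm, map_smul, hu, smul_zero, implies_true, and_self]
  have ql : ∀ a ∈ Submodule.span k (Set.range x), ∀ u, q 0 ((ell M a).unop u) = 0 ∧
      ∀ j, q (j + 1) ((ell M a).unop u) = (ell M a).unop (q j u) := fun a ha u => by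
    induction u using TensorProduct.induction_on with
    | zero => simp
    | add u v hu hv => simp only [map_add, hu, hv, add_zero, implies_true, and_self]
    | tmul b m => simp only [ell_t, qt, pv a ha b, zero_tmul, implies_true, and_self]
  have qr : ∀ (a : A) u j, q j ((rho M a).unop u) = (rho M a).unop (q j u) := fun a u j => by
    induction u using TensorProduct.induction_on with
    | zero => simp
    | add u v hu hv => simp only [map_add, hu, hv]
    | tmul b m => simp only [rho_t, qt]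
  refine filt (p0 := fun j => (q j).compLeft (Fin m)) (hq.pi l) (hq.pi n) (act (D'.map (ell M)))
    (act (S'.map (rho M))) (act (D.map (ell M))) (act (S.map (rho M)))
    (act (DS k M D S)).toAddMonoidHom (act (DS k M D' S')).toAddMonoidHom (act_add _ _) (act_add _ _) (act_mul _ _ dd)
    ?_ ?_ (map_zero _) ?_ ?_ ?_ (map_zero _) (act_ex D' D ex) z hz <;> intros <;> funext b <;>
    simp [act_ap, map_sum, ql _ (hD _ _), ql _ (hD' _ _), qr]

end mod

theorem pd_ker {P Q : Type} [AddCommGroup P] [Module A P] [AddCommGroup Q] [Module A Q]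
    [Module.Projective A P] (g : P →ₗ[A] Q) (S : Submodule A Q) (h1 : ∀ p, g p ∈ S)
    (h2 : ∀ s ∈ S, ∃ p, g p = s) (n : ℕ)
    (h : HasProjectiveDimensionLT (ModuleCat.of A (LinearMap.ker g)) n) :
    HasProjectiveDimensionLT (ModuleCat.of A S) (n + 1) := by
  rw [← LinearMap.ker_codRestrict S g h1] at h
  have hs : Function.Surjective (g.codRestrict S h1) := fun s => by
    obtain ⟨p, hp⟩ := h2 s s.2
    exact ⟨p, Subtype.ext hp⟩
  exact (LinearMap.shortExact_shortComplexKer hs).hasProjectiveDimensionLT_X₃ n h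
    (hasProjectiveDimensionLT_of_ge _ 1 _ (by omega))

theorem D_mem : (∀ a b, D1 i c x a b ∈ Submodule.span k (Set.range x)) ∧
    (∀ a b, D2 i c x a b ∈ Submodule.span k (Set.range x)) ∧
    (∀ a b, D3 i c x a b ∈ Submodule.span k (Set.range x)) ∧
    (∀ a b, D4 i c x a b ∈ Submodule.span k (Set.range x)) := by
  have m : ∀ l, x l ∈ Submodule.span k (Set.range x) := fun l => Submodule.subset_span ⟨l, rfl⟩
  refine ⟨?_, ?_, ?_, ?_⟩ <;> intro a b <;> fin_cases a <;> fin_cases b <;>
    simp only [D1, D2, D3, D4, of_apply, cons_val', cons_val_zero, cons_val_one, cons_val,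
      cons_val_fin_one, Fin.zero_eta, Fin.mk_one, Fin.reduceFinMk] <;>
    apply_rules [add_mem, Submodule.smul_mem, zero_mem]

theorem map_DS {B : Type} [Ring B] [Algebra k B] (f : A →ₗ[k] B) :
    ((D1 i c x).map f = D1 i c fun r => f (x r)) ∧ ((D2 i c x).map f = D2 i c fun r => f (x r)) ∧
    ((D3 i c x).map f = D3 i c fun r => f (x r)) ∧ ((D4 i c x).map f = D4 i c fun r => f (x r)) ∧
    ((S1 i c x).map f = S1 i c fun r => f (x r)) ∧ ((S2 i c x).map f = S2 i c fun r => f (x r)) ∧
    ((S3 i c x).map f = S3 i c fun r => f (x r)) ∧ ((S4 i c x).map f = S4 i c fun r => f (x r)) := by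
  refine ⟨?_, ?_, ?_, ?_, ?_, ?_, ?_, ?_⟩ <;> ext a b <;> fin_cases a <;> fin_cases b <;>
    simp only [D1, D2, D3, D4, S1, S2, S3, S4, map_apply, of_apply, cons_val', cons_val_zero,
      cons_val_one, cons_val, cons_val_fin_one, Fin.zero_eta, Fin.mk_one, Fin.reduceFinMk, map_add,
      map_smul, map_zero]

theorem gldim (h : Pres i c x) (hi : i ^ 2 = -1) (he : 2 * c * e = 1) (M : ModuleCat.{0} A) :
    HasProjectiveDimensionLE M 4 := by
  let _ : Module k M := Module.restrictScalars k A M
  have : IsScalarTower k A M := IsScalarTower.restrictScalars k A M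
  obtain ⟨m1, m2, m3, m4⟩ := D_mem (i := i) (c := c) (x := x)
  obtain ⟨l1, l2, l3, l4, -⟩ := map_DS (i := i) (c := c) (x := x) (B := EE k A M) (ell (k := k) (A := A) M)
  obtain ⟨-, -, -, -, r1, r2, r3, r4⟩ := map_DS (i := i) (c := c) (x := x) (B := EE k A M)
    (rho (k := k) (A := A) M)
  have hy := ell_rels (M := M) h.rel
  have hz := rho_rels (M := M) h.rel
  have cm := fun r s => rho_ell (k := k) (M := M) (x s) (x r)
  have d1 : DS k M (D2 i c x) (S2 i c x) * DS k M (D1 i c x) (S1 i c x) = 0 := by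
    rw [DS, DS, l1, l2, r1, r2]; exact DS1 hy hz hi cm
  have d2 : DS k M (D3 i c x) (S3 i c x) * DS k M (D2 i c x) (S2 i c x) = 0 := by
    rw [DS, DS, l3, l2, r3, r2]; exact DS2 hy hz hi cm
  have d3 : DS k M (D4 i c x) (S4 i c x) * DS k M (D3 i c x) (S3 i c x) = 0 := by
    rw [DS, DS, l3, l4, r3, r4]; exact DS3 hy hz hi cm
  obtain ⟨e4, e3, e2⟩ := row_ex h hi he
  let ε0 : A ⊗[k] M →ₗ[A] M := AlgebraTensorModule.lift
    (LinearMap.toSpanSingleton A (M →ₗ[k] M) LinearMap.id)
  have εt : ∀ a m, ε0 (a ⊗ₜ m) = a • m := fun a m => by simp [ε0]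
  let ε : (Fin 1 → A ⊗[k] M) →ₗ[A] M := ε0 ∘ₗ LinearMap.proj 0
  let δ := act (DS k M (D1 i c x) (S1 i c x))
  have hδ : ∀ f, δ f 0 = ∑ r, ((ell M (x r)).unop (f r) - (rho M (x r)).unop (f r)) := fun f => by
    simp [δ, act_ap, DS, D1, S1, Fin.sum_univ_four, sub_eq_add_neg]
  have z1 : ∀ f, δ f ∈ LinearMap.ker ε := fun f => by
    show ε0 (δ f 0) = 0
    rw [hδ, map_sum]
    refine Finset.sum_eq_zero fun r _ => ?_
    induction f r using TensorProduct.induction_on with
    | zero => simp
    | add u v hu hv => simp only [map_add, map_sub] at hu hv ⊢; linear_combination (norm := abel) hu + hv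
    | tmul b m => rw [ell_t, rho_t, map_sub, εt, εt, mul_smul, sub_self]
  have z2 : ∀ s ∈ LinearMap.ker ε, ∃ f, δ f = s := by
    let R : Submodule A (A ⊗[k] M) := (LinearMap.range δ).map (LinearMap.proj 0)
    have k1 : ∀ (a b : A) (m : M), (b * a) ⊗ₜ[k] m - b ⊗ₜ[k] (a • m) ∈ R := by
      intro a
      induction a using gen_ind h.gen with
      | h1 r =>
        intro b m
        rw [← Algebra.commutes, ← Algebra.smul_def, algebraMap_smul, smul_tmul, sub_self]
        exact zero_mem _
      | hx j =>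
        intro b m
        refine ⟨_, ⟨Pi.single j (b ⊗ₜ m), rfl⟩, ?_⟩
        show δ _ 0 = _
        rw [hδ, Finset.sum_eq_single j (fun r _ hr => by simp [Pi.single_eq_of_ne hr]) (by simp),
          Pi.single_eq_same, ell_t, rho_t]
      | ha a a' h h' =>
        intro b m
        rw [mul_add, add_tmul, add_smul, tmul_add, add_sub_add_comm]
        exact add_mem (h b m) (h' b m)
      | hm a a' h h' =>
        intro b m
        have := add_mem (h' (b * a) m) (h b (a' • m))
        rwa [sub_add_sub_cancel, mul_assoc, ← mul_smul] at this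
    have k2 : ∀ u, u - (1 : A) ⊗ₜ[k] ε0 u ∈ R := fun u => by
      induction u using TensorProduct.induction_on with
      | zero => simp
      | add u v hu hv => rw [map_add, tmul_add, add_sub_add_comm]; exact add_mem hu hv
      | tmul b m => simpa [εt] using k1 b 1 m
    intro s hs
    have hs' : ε0 (s 0) = 0 := hs
    obtain ⟨_, ⟨f, rfl⟩, hf⟩ := k2 (s 0)
    rw [hs', tmul_zero, sub_zero] at hf
    exact ⟨f, funext fun l => by fin_cases l; exact hf⟩
  have y4 : Subsingleton (LinearMap.ker (act (DS k M (D4 i c x) (S4 i c x)))) := by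
    refine subsingleton_of_forall_eq 0 fun z => Subtype.ext ?_
    obtain ⟨w, hw⟩ := tens_ex h (M := M) (l := 0) 0 0 _ (S4 i c x) (by simp) m4 (Subsingleton.elim _ _)
      (fun f hf => ⟨0, by rw [e4 f hf, zero_vecMul]⟩) z.1 z.2
    rw [← hw, Subsingleton.elim w 0, map_zero]; rfl
  have q4 := (ModuleCat.isZero_of_subsingleton (ModuleCat.of A
    (LinearMap.ker (act (DS k M (D4 i c x) (S4 i c x)))))).hasProjectiveDimensionLT_zero
  have q3 := pd_ker _ (LinearMap.ker _) (act_mul _ _ d3) (tens_ex h _ _ _ _ m4 m3 d3 e3) _ q4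
  have q2 := pd_ker _ (LinearMap.ker _) (act_mul _ _ d2) (tens_ex h _ _ _ _ m3 m2 d2 e2) _ q3
  have q1 := pd_ker _ (LinearMap.ker _) (act_mul _ _ d1) (tens_ex h _ _ _ _ m2 m1 d1 (row_ex1 h)) _ q2
  have q0 := pd_ker δ _ z1 z2 _ q1
  have hs : Function.Surjective ε := fun m => ⟨fun _ => 1 ⊗ₜ m, by simp [ε, εt]⟩
  exact (LinearMap.shortExact_shortComplexKer hs).hasProjectiveDimensionLT_X₃ 4 q0
    (hasProjectiveDimensionLT_of_ge _ 1 _ (by omega))

end Pool.Agent.H72.Pm
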