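import Pool.Agent.H72.PmG

set_option autoImplicit false
set_option linter.unusedVariables false
set_option linter.unusedSimpArgs false
set_option linter.unnecessarySeqFocus false
set_option linter.unusedSectionVars false

namespace Pool.Agent.H72.Pm

open Matrix CategoryTheory Abelian

variable {k : Type} [Field k] {A : Type} [Ring A] [Algebra k A] {i c e : k} {x : Fin 4 → A}

section ext
variable {S : ShortComplex (ModuleCat.{0} A)} (hS : S.ShortExact) [Projective S.X₂] (Y : ModuleCat.{0} A)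

theorem x_surj (n : ℕ) (e : Ext S.X₃ Y (n + 1)) :
    ∃ e' : Ext S.X₁ Y n, hS.extClass.comp e' (add_comm 1 n) = e :=
  Ext.contravariant_sequence_exact₃ hS Y e (Ext.eq_zero_of_projective _) (add_comm 1 n)

theorem x_inj (n : ℕ) (e : Ext S.X₁ Y (n + 1)) (h : hS.extClass.comp e (add_comm 1 (n + 1)) = 0) :
    e = 0 := by
  obtain ⟨z, rfl⟩ := Ext.contravariant_sequence_exact₁ hS Y e _ h
  rw [Ext.eq_zero_of_projective z, Ext.comp_zero]

theorem x_ker (φ : S.X₁ ⟶ Y) :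
    hS.extClass.comp (Ext.mk₀ φ) (add_comm 1 0) = 0 ↔ ∃ ψ : S.X₂ ⟶ Y, S.f ≫ ψ = φ := by
  constructor
  · intro h
    obtain ⟨z, hz⟩ := Ext.contravariant_sequence_exact₁ hS Y _ _ h
    obtain ⟨ψ, rfl⟩ := (Ext.mk₀_bijective _ _).2 z
    exact ⟨ψ, (Ext.mk₀_bijective _ _).1 (by rw [← hz, Ext.mk₀_comp_mk₀])⟩
  · rintro ⟨ψ, rfl⟩
    rw [← Ext.mk₀_comp_mk₀]
    exact hS.extClass_comp_assoc _

include hS in
theorem x_shift (n : ℕ) (h : ∀ e : Ext S.X₁ Y n, e = 0) (e : Ext S.X₃ Y (n + 1)) : e = 0 := by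
  obtain ⟨z, rfl⟩ := x_surj hS Y n e
  rw [h z, Ext.comp_zero]

include hS in
theorem x_one (h : ∀ φ : S.X₁ ⟶ Y, ∃ ψ : S.X₂ ⟶ Y, S.f ≫ ψ = φ) (e : Ext S.X₃ Y 1) : e = 0 := by
  obtain ⟨z, rfl⟩ := x_surj hS Y 0 e
  obtain ⟨φ, rfl⟩ := (Ext.mk₀_bijective _ _).2 z
  exact (x_ker hS Y φ).2 (h φ)

end ext

theorem ses {P Q R : Type} [AddCommGroup P] [Module A P] [AddCommGroup Q] [Module A Q] [AddCommGroup R]
    [Module A R] (f : R →ₗ[A] P) (g : P →ₗ[A] Q) (S : Submodule A Q) (h1 : ∀ p, g p ∈ S)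
    (h2 : ∀ s ∈ S, ∃ p, g p = s) (hf : Function.Injective f) (ex : Function.Exact f g) :
    (ModuleCat.shortComplexOfCompEqZero f (g.codRestrict S h1)
      (LinearMap.ext fun r => Subtype.ext (ex.apply_apply_eq_zero r))).ShortExact := by
  refine ModuleCat.shortComplex_shortExact _ (fun p => ?_) hf fun s => ?_
  · exact Subtype.ext_iff.trans (ex p)
  · obtain ⟨p, hp⟩ := h2 s s.2
    exact ⟨p, Subtype.ext hp⟩

def dotL {n : ℕ} (g : Fin n → A) : (Fin n → A) →ₗ[A] A where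
  toFun u := u ⬝ᵥ g
  map_add' u v := add_dotProduct u v g
  map_smul' a u := smul_dotProduct a u g

theorem lin_dot {n : ℕ} (φ : (Fin n → A) →ₗ[A] A) (u : Fin n → A) :
    φ u = u ⬝ᵥ fun a => φ (Pi.single a 1) := by
  rw [LinearMap.pi_apply_eq_sum_univ φ u]
  refine Finset.sum_congr rfl fun a _ => ?_
  rw [smul_eq_mul]; congr 2; ext b; simp [Pi.single_apply, eq_comm]

theorem extend {n l p : ℕ} (D' : Matrix (Fin l) (Fin n) A) (D'' : Matrix (Fin p) (Fin l) A)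
    (hD : D'' * D' = 0) (ex : ∀ f, D'' *ᵥ f = 0 → ∃ g, D' *ᵥ g = f) (S : Submodule A (Fin n → A))
    (h1 : ∀ f, f ᵥ* D' ∈ S) (h2 : ∀ s ∈ S, ∃ f, f ᵥ* D' = s)
    (φ : ModuleCat.of A S ⟶ ModuleCat.of A A) :
    ∃ ψ : ModuleCat.of A (Fin n → A) ⟶ ModuleCat.of A A, ModuleCat.ofHom S.subtype ≫ ψ = φ := by
  let χ : (Fin l → A) →ₗ[A] A := φ.hom ∘ₗ (D'.vecMulLinear.codRestrict S h1)
  obtain ⟨g, hg⟩ := ex (fun a => χ (Pi.single a 1)) (funext fun b => by
    show D'' b ⬝ᵥ _ = 0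
    rw [← lin_dot]
    have : D'.vecMulLinear.codRestrict S h1 (D'' b) = 0 := Subtype.ext (congrFun hD b)
    simp only [χ, LinearMap.comp_apply, this, map_zero])
  refine ⟨ModuleCat.ofHom (dotL g), ModuleCat.hom_ext (LinearMap.ext fun s => ?_)⟩
  obtain ⟨f, hf⟩ := h2 s s.2
  have e : s = D'.vecMulLinear.codRestrict S h1 f := Subtype.ext hf.symm
  show s.1 ⬝ᵥ g = φ.hom s
  rw [← hf, ← dotProduct_mulVec, hg, ← lin_dot, e]; rfl

theorem exists_aug (h : Pres i c x) : ∃ ε : A →ₐ[k] k, (∀ r, ε (x r) = 0) ∧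
    ∀ a, ∃ g : Fin 4 → A, a - algebraMap k A (ε a) = ∑ r, x r * g r := by
  obtain ⟨ε, hε⟩ := h.up k 0 (by constructor <;> simp)
  refine ⟨ε, hε, fun a => ?_⟩
  induction a using ind_r h.gen with
  | h1 => exact ⟨0, by simp⟩
  | hs r a ha =>
    obtain ⟨g, hg⟩ := ha
    refine ⟨r • g, ?_⟩
    simp only [Pi.smul_apply, mul_smul_comm, ← Finset.smul_sum, ← hg]
    rw [map_smul, smul_sub, smul_eq_mul, map_mul, ← Algebra.smul_def]
  | ha a b ha hb =>
    obtain ⟨g, hg⟩ := ha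
    obtain ⟨g', hg'⟩ := hb
    refine ⟨g + g', ?_⟩
    simp only [Pi.add_apply, mul_add, Finset.sum_add_distrib, ← hg, ← hg', map_add]; abel
  | hx a j ha =>
    obtain ⟨g, hg⟩ := ha
    refine ⟨fun r => g r * x j + (Pi.single j (algebraMap k A (ε a)) : Fin 4 → A) r, ?_⟩
    have : ∑ r, x r * (Pi.single j (algebraMap k A (ε a)) : Fin 4 → A) r = x j * algebraMap k A (ε a) := by
      rw [Finset.sum_eq_single j (fun r _ hr => by simp [Pi.single_eq_of_ne hr]) (by simp),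
        Pi.single_eq_same]
    simp only [mul_add, Finset.sum_add_distrib, this, ← mul_assoc, ← Finset.sum_mul, ← hg, map_mul, hε,
      Pi.zero_apply, mul_zero, map_zero, sub_zero, sub_mul, Algebra.commutes, sub_add_cancel]

theorem gorenstein (h : Pres i c x) (hi : i ^ 2 = -1) (he : 2 * c * e = 1) (I : Submodule A A)
    (hI : I = Submodule.span A (Set.range x)) :
    (∀ n, n ≠ 4 → Subsingleton (Ext (ModuleCat.of A (A ⧸ I)) (ModuleCat.of A A) n)) ∧
    Module.finrank k (Ext (ModuleCat.of A (A ⧸ I)) (ModuleCat.of A A) 4) = 1 := by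
  obtain ⟨e4, e3, e2⟩ := row_ex h hi he
  obtain ⟨c0, c1, c2⟩ := col_ex h hi he
  have c3 := col_ex3 h hi he
  have dd : ∀ {n m l : ℕ} {D' : Matrix (Fin l) (Fin n) A} {D : Matrix (Fin n) (Fin m) A}, D' * D = 0 →
      ∀ f, f ᵥ* D' ∈ LinearMap.ker D.vecMulLinear := fun {n m l D' D} hD f => by
    show (f ᵥ* D') ᵥ* D = 0
    rw [vecMul_vecMul, hD, vecMul_zero]
  let π : (Fin 1 → A) →ₗ[A] A ⧸ I := I.mkQ ∘ₗ LinearMap.proj 0
  have hπ : ∀ u, u ∈ LinearMap.ker π ↔ ∃ f : Fin 4 → A, f ᵥ* D1 i c x = u := fun u => by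
    show I.mkQ (u 0) = 0 ↔ _
    rw [Submodule.mkQ_apply, Submodule.Quotient.mk_eq_zero, hI, Submodule.mem_span_range_iff_exists_fun]
    refine exists_congr fun f => ?_
    rw [funext_iff, Fin.forall_fin_one]
    simp [vecMul, dotProduct, D1, Fin.sum_univ_four]
  have S0 := LinearMap.shortExact_shortComplexKer (f := π) fun q => by
    obtain ⟨a, rfl⟩ := I.mkQ_surjective q
    exact ⟨fun _ => a, rfl⟩
  have S1 := ses _ (D1 i c x).vecMulLinear (LinearMap.ker π) (fun f => (hπ _).2 ⟨f, rfl⟩)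
    (fun s hs => (hπ s).1 hs) (Submodule.injective_subtype _) (LinearMap.exact_subtype_ker_map _)
  have S2 := ses _ (D2 i c x).vecMulLinear _ (dd (DD1 h.rel hi))
    (row_ex1 h) (Submodule.injective_subtype _) (LinearMap.exact_subtype_ker_map _)
  have S3 := ses (D4 i c x).vecMulLinear (D3 i c x).vecMulLinear _ (dd (DD2 h.rel hi)) e2
    ((injective_iff_map_eq_zero _).2 e4) fun f => ⟨e3 f, fun ⟨g, hg⟩ => hg ▸ dd (DD3 h.rel hi) g⟩
  have x1 := x_one S0 _ (extend _ _ (DD1 h.rel hi) c1 _ (fun f => (hπ _).2 ⟨f, rfl⟩)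
    fun s hs => (hπ s).1 hs)
  have x2 := x_shift S0 _ 1 (x_one S1 _ (extend _ _ (DD2 h.rel hi) c2 _ (dd (DD1 h.rel hi)) (row_ex1 h)))
  have x3 := x_shift S0 _ 2 (x_shift S1 _ 1
    (x_one S2 _ (extend _ _ (DD3 h.rel hi) c3 _ (dd (DD2 h.rel hi)) e2)))
  refine ⟨fun n hn => subsingleton_of_forall_eq 0 fun z => ?_, ?_⟩
  · obtain rfl | rfl | rfl | rfl | hn' : n = 0 ∨ n = 1 ∨ n = 2 ∨ n = 3 ∨ 4 + 1 ≤ n := by omega
    · obtain ⟨φ, rfl⟩ := (Ext.mk₀_bijective _ _).2 z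
      have : (fun _ : Fin 1 => φ.hom (I.mkQ 1)) = 0 := c0 _ (funext fun r => by
        have : φ.hom (x r • I.mkQ 1) = 0 := by
          rw [← map_smul, smul_eq_mul, mul_one, Submodule.mkQ_apply,
            (Submodule.Quotient.mk_eq_zero I).2 (hI ▸ Submodule.subset_span ⟨r, rfl⟩), map_zero]
        rw [map_smul, smul_eq_mul] at this
        fin_cases r <;> simpa [mulVec, dotProduct, D1] using this)
      rw [Ext.mk₀_eq_zero_iff]
      refine ModuleCat.hom_ext (LinearMap.ext fun q => ?_)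
      obtain ⟨a, rfl⟩ := I.mkQ_surjective q
      rw [← mul_one a, ← smul_eq_mul, map_smul, map_smul, congrFun this 0]; simp
    · exact x1 z
    · exact x2 z
    · exact x3 z
    · have := gldim h hi he (ModuleCat.of A (A ⧸ I))
      exact Ext.eq_zero_of_hasProjectiveDimensionLT z (4 + 1) hn'
  · obtain ⟨ε, hε, hε'⟩ := exists_aug h
    let φ : A → (ModuleCat.of A (Fin 1 → A) ⟶ ModuleCat.of A A) := fun a => ModuleCat.ofHom (dotL fun _ => a)
    let δ : A → Ext (ModuleCat.of A (A ⧸ I)) (ModuleCat.of A A) 4 := fun a =>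
      S0.extClass.comp (S1.extClass.comp (S2.extClass.comp (S3.extClass.comp (Ext.mk₀ (φ a))
        (add_comm 1 0)) (add_comm 1 1)) (add_comm 1 2)) (add_comm 1 3)
    refine finrank_eq_one_iff'.2 ⟨δ 1, fun h0 => ?_, fun w => ?_⟩
    · obtain ⟨ψ, hψ⟩ := (x_ker S3 _ _).1 (x_inj S2 _ 0 _ (x_inj S1 _ 1 _ (x_inj S0 _ 2 _ h0)))
      have := congrArg (fun u => ε (u.hom fun _ => 1)) hψ
      change ε (ψ.hom ((fun _ => 1) ᵥ* D4 i c x)) = ε ((fun _ : Fin 1 => (1 : A)) ⬝ᵥ fun _ => 1) at this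
      rw [lin_dot] at this
      simp [vecMul, dotProduct, D4, Fin.sum_univ_four, hε] at this
    · obtain ⟨w3, rfl⟩ := x_surj S0 _ 3 w
      obtain ⟨w2, rfl⟩ := x_surj S1 _ 2 w3
      obtain ⟨w1, rfl⟩ := x_surj S2 _ 1 w2
      obtain ⟨w0, rfl⟩ := x_surj S3 _ 0 w1
      obtain ⟨χ, rfl⟩ := (Ext.mk₀_bijective _ _).2 w0
      obtain ⟨g, hg⟩ := hε' (χ.hom fun _ => 1)
      refine ⟨ε (χ.hom fun _ => 1), ?_⟩
      have hs : ∀ r : k, Ext.mk₀ (φ (algebraMap k A r)) = r • Ext.mk₀ (φ 1) := fun r => by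
        rw [← Ext.mk₀_smul]
        refine congrArg _ (ModuleCat.hom_ext (LinearMap.ext fun u => ?_))
        show u ⬝ᵥ (fun _ => algebraMap k A r) = algebraMap k A r * (u ⬝ᵥ fun _ => 1)
        simp [dotProduct, Algebra.commutes]
      have e1 : χ = φ (algebraMap k A (ε (χ.hom fun _ => 1))) +
          ModuleCat.ofHom (D4 i c x).vecMulLinear ≫ ModuleCat.ofHom (dotL g) := by
        refine ModuleCat.hom_ext (LinearMap.ext fun u => ?_)
        show χ.hom u = (u ⬝ᵥ fun _ => algebraMap k A (ε (χ.hom fun _ => 1))) + (u ᵥ* D4 i c x) ⬝ᵥ g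
        have e : u = u 0 • fun _ : Fin 1 => (1 : A) := funext fun l => by fin_cases l; simp
        have e' : χ.hom u = u 0 * χ.hom fun _ => 1 := by
          conv_lhs => rw [e]
          exact map_smul χ.hom _ _
        rw [e', sub_eq_iff_eq_add'.1 hg]
        simp [vecMul, dotProduct, D4, Fin.sum_univ_four, hε, mul_add, mul_assoc]
      have e2 := (x_ker S3 _ _).2 ⟨ModuleCat.ofHom (dotL g), rfl⟩
      conv_rhs => rw [e1, Ext.mk₀_add, Ext.comp_add]
      erw [e2]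
      simp only [add_zero, hs, Ext.comp_smul, δ]

end Pool.Agent.H72.Pm
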