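import Pool.Agent.H72.PmH
import Pool.Agent.H72.PmDefs

set_option autoImplicit false
set_option linter.unusedVariables false
set_option linter.unusedSimpArgs false
set_option linter.unnecessarySeqFocus false
set_option linter.unusedSectionVars false

namespace Pool.Agent.H72.Pm

open Pool.Agent.H72.PmDef

variable {k : Type} [Field k] {A : Type} [Ring A] [Algebra k A] {i c e : k} {x : Fin 4 → A}

/-- the multilinearised relations -/
structure Gam (i c : k) (a b : Fin 4 → k) : Prop where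
  r0 : a 0 * b 3 + i * (a 3 * b 0) = 0
  r1 : a 1 * b 3 - i * (a 3 * b 1) = 0
  r2 : a 3 * b 3 + a 0 * b 1 - a 1 * b 0 = 0
  r3 : a 2 * b 2 - a 1 * b 1 = 0
  r4 : a 0 * b 2 + a 2 * b 0 - 2 * (a 1 * b 1) = 0
  r5 : a 1 * b 2 + a 2 * b 1 - (2 * c) * (a 0 * b 0) - (2 * (1 - c)) * (a 1 * b 1) = 0

abbrev VV (k : Type) [Field k] {A : Type} [Ring A] [Algebra k A] (x : Fin 4 → A) : Submodule k A :=
  Submodule.span k (Set.range x)

structure Sq (P : PtMod k A (VV k x)) (e : ℕ → P.M) (p : ℕ → Fin 4 → k) : Prop where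
  mem : ∀ n, e n ∈ P.gr n
  ne : ∀ n, e n ≠ 0
  act : ∀ n r, MulOpposite.op (x r) • e n = p n r • e (n + 1)

theorem gr_eq (P : PtMod k A (VV k x)) {n : ℕ} {v : P.M} (hv : v ∈ P.gr n) (h0 : v ≠ 0) (m : P.M) :
    m ∈ P.gr n ↔ ∃ t : k, m = t • v := by
  refine ⟨fun hm => ?_, fun ⟨t, ht⟩ => ht ▸ Submodule.smul_mem _ t hv⟩
  obtain ⟨t, ht⟩ := (finrank_eq_one_iff_of_nonzero' (⟨v, hv⟩ : P.gr n)
    (fun h => h0 (congrArg Subtype.val h))).1 (P.dim n) ⟨m, hm⟩
  exact ⟨t, (congrArg Subtype.val ht).symm⟩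

theorem exists_sq (P : PtMod k A (VV k x)) : ∃ e p, Sq P e p := by
  have : ∀ n, ∃ v, v ∈ P.gr n ∧ v ≠ 0 := fun n => by
    obtain ⟨v, hv, -⟩ := finrank_eq_one_iff'.1 (P.dim n)
    exact ⟨v, v.2, fun h => hv (Subtype.ext h)⟩
  choose e h1 h2 using this
  have : ∀ n r, ∃ t : k, MulOpposite.op (x r) • e n = t • e (n + 1) := fun n r =>
    (gr_eq P (h1 _) (h2 _) _).1 (P.act_mem n 1 _ (h1 n) _ (by
      rw [pow_one]; exact Submodule.subset_span ⟨r, rfl⟩))
  choose p hp using this
  exact ⟨e, p, h1, h2, hp⟩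

variable {P Q : PtMod k A (VV k x)} {u : ℕ → P.M} {v : ℕ → Q.M} {p q : ℕ → Fin 4 → k}

theorem Sq.basis (h : Sq P u p) : ∃ b : Module.Basis ℕ k P.M, ∀ n, b n = u n := by
  have li := P.internal.submodule_iSupIndep.linearIndependent _ h.mem h.ne
  refine ⟨Module.Basis.mk li ?_, fun n => Module.Basis.mk_apply _ _ n⟩
  rw [← P.internal.submodule_iSup_eq_top]
  refine iSup_le fun n m hm => ?_
  obtain ⟨t, rfl⟩ := (gr_eq P (h.mem n) (h.ne n) m).1 hm
  exact Submodule.smul_mem _ _ (Submodule.subset_span ⟨n, rfl⟩)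

theorem op_ind (hg : Algebra.adjoin k (Set.range x) = ⊤) {M : Type} [AddCommGroup M] [Module k M]
    [Module Aᵐᵒᵖ M] [IsScalarTower k Aᵐᵒᵖ M] (W : Submodule k M)
    (hW : ∀ r, ∀ m ∈ W, MulOpposite.op (x r) • m ∈ W) (a : A) : ∀ m ∈ W, MulOpposite.op a • m ∈ W := by
  induction a using gen_ind hg with
  | h1 r =>
    intro m hm
    have : MulOpposite.op (algebraMap k A r) • m = r • m := algebraMap_smul Aᵐᵒᵖ r m
    rw [this]; exact W.smul_mem r hm
  | hx j => exact hW j
  | ha a b ha hb => intro m hm; rw [MulOpposite.op_add, add_smul]; exact add_mem (ha m hm) (hb m hm)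
  | hm a b ha hb => intro m hm; rw [MulOpposite.op_mul, mul_smul]; exact hb _ (ha m hm)

theorem Sq.ne_zero (hg : Algebra.adjoin k (Set.range x) = ⊤) (h : Sq P u p) (n : ℕ) : p n ≠ 0 := by
  intro h0
  obtain ⟨b, hb⟩ := h.basis
  let W : Submodule k P.M := Submodule.span k (b '' {m | m ≤ n})
  have hW : ∀ r, ∀ m ∈ W, MulOpposite.op (x r) • m ∈ W := fun r m hm => by
    induction hm using Submodule.span_induction with
    | mem m hm =>
      obtain ⟨l, hl, rfl⟩ := hm
      rw [hb, h.act]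
      rcases Nat.lt_or_eq_of_le hl with hl | rfl
      · exact W.smul_mem _ (Submodule.subset_span ⟨l + 1, hl, hb _⟩)
      · rw [h0]; simp
    | zero => simp
    | add a b _ _ ha hb => rw [smul_add]; exact add_mem ha hb
    | smul t a _ ha => rw [smul_comm]; exact W.smul_mem t ha
  obtain ⟨m, hm, hs⟩ := P.cyclic
  have hmW : m ∈ W := by
    obtain ⟨t, rfl⟩ := (gr_eq P (h.mem 0) (h.ne 0) m).1 hm
    exact W.smul_mem t (Submodule.subset_span ⟨0, Nat.zero_le n, hb 0⟩)
  have : b (n + 1) ∈ Submodule.span Aᵐᵒᵖ {m} := hs ▸ Submodule.mem_top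
  obtain ⟨a, ha⟩ := Submodule.mem_span_singleton.1 this
  have := op_ind hg W hW a.unop m hmW
  rw [MulOpposite.op_unop, ha] at this
  exact b.linearIndependent.notMem_span_image (s := {m | m ≤ n}) (by simp) this

theorem Sq.gam (hr : Rels i c x) (h : Sq P u p) (n : ℕ) : Gam i c (p n) (p (n + 1)) := by
  let f : A →ₗ[k] P.M :=
    { toFun := fun a => MulOpposite.op a • u n
      map_add' := fun a b => by rw [MulOpposite.op_add, add_smul]
      map_smul' := fun r a => by rw [MulOpposite.op_smul, smul_assoc]; rfl }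
  have hf : ∀ r s, f (x r * x s) = (p n r * p (n + 1) s) • u (n + 2) := fun r s => by
    show MulOpposite.op (x r * x s) • u n = _
    rw [MulOpposite.op_mul, mul_smul, h.act, smul_comm, h.act, smul_smul]
  have g : ∀ (a : A) (t : k), a = 0 → f a = t • u (n + 2) → t = 0 := fun a t ha ht => by
    rw [ha, map_zero] at ht
    exact (smul_eq_zero.1 ht.symm).resolve_right (h.ne _)
  exact ⟨g _ _ hr.r0 (by simp only [map_add, map_sub, map_smul, hf]; module),
    g _ _ hr.r1 (by simp only [map_add, map_sub, map_smul, hf]; module),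
    g _ _ hr.r2 (by simp only [map_add, map_sub, map_smul, hf]; module),
    g _ _ hr.r3 (by simp only [map_add, map_sub, map_smul, hf]; module),
    g _ _ hr.r4 (by simp only [map_add, map_sub, map_smul, hf]; module),
    g _ _ hr.r5 (by simp only [map_add, map_sub, map_smul, hf]; module)⟩

theorem Sq.iso (hg : Algebra.adjoin k (Set.range x) = ⊤) (h : Sq P u p) (h' : Sq Q v p) : P.Iso Q := by
  obtain ⟨b, hb⟩ := h.basis
  obtain ⟨b', hb'⟩ := h'.basis
  let φ := b.equiv b' (Equiv.refl ℕ)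
  have hφ : ∀ n, φ (u n) = v n := fun n => by rw [← hb, ← hb']; exact b.equiv_apply n b' _
  have key : ∀ (a : A) m, φ (MulOpposite.op a • m) = MulOpposite.op a • φ m := by
    intro a
    induction a using gen_ind hg with
    | h1 r =>
      intro m
      have e1 : MulOpposite.op (algebraMap k A r) • m = r • m := algebraMap_smul Aᵐᵒᵖ r m
      have e2 : MulOpposite.op (algebraMap k A r) • φ m = r • φ m := algebraMap_smul Aᵐᵒᵖ r (φ m)
      rw [e1, e2, map_smul]
    | hx j =>
      intro m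
      have : φ.toLinearMap ∘ₗ DistribSMul.toLinearMap k P.M (MulOpposite.op (x j)) =
          DistribSMul.toLinearMap k Q.M (MulOpposite.op (x j)) ∘ₗ φ.toLinearMap := b.ext fun n => by
        show φ (MulOpposite.op (x j) • b n) = MulOpposite.op (x j) • φ (b n)
        rw [hb, h.act, map_smul, hφ, hφ, h'.act]
      exact LinearMap.congr_fun this m
    | ha a b ha hb => intro m; rw [MulOpposite.op_add, add_smul, add_smul, map_add, ha, hb]
    | hm a b ha hb => intro m; rw [MulOpposite.op_mul, mul_smul, mul_smul, hb, ha]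
  refine ⟨{ φ.toAddEquiv with map_smul' := fun a m => key a.unop m }, fun n m => ?_⟩
  show _ ↔ φ m ∈ _
  rw [gr_eq P (h.mem n) (h.ne n), gr_eq Q (h'.mem n) (h'.ne n)]
  refine exists_congr fun t => ?_
  rw [← hφ, ← map_smul, φ.injective.eq_iff]

theorem Sq.rescale (h : Sq Q v q) (l : ℕ → k) (hl : ∀ n, l n ≠ 0) (hq : ∀ n, q n = l n • p n) :
    Sq Q (fun n => (∏ j ∈ Finset.range n, l j) • v n) p := by
  refine ⟨fun n => Submodule.smul_mem _ _ (h.mem n), fun n => smul_ne_zero
    (Finset.prod_ne_zero_iff.2 fun j _ => hl j) (h.ne n), fun n r => ?_⟩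
  rw [smul_comm, h.act, hq, Finset.prod_range_succ, smul_smul, smul_smul]
  congr 1; simp; ring

theorem Sq.prop (h : Sq P u p) (h' : Sq Q v q) (e : P.Iso Q) : ∃ t : k, p 0 = t • q 0 := by
  obtain ⟨φ, hφ⟩ := e
  obtain ⟨s, hs⟩ := (gr_eq Q (h'.mem 0) (h'.ne 0) _).1 ((hφ 0 _).1 (h.mem 0))
  obtain ⟨t, ht⟩ := (gr_eq Q (h'.mem 1) (h'.ne 1) _).1 ((hφ 1 _).1 (h.mem 1))
  have t0 : t ≠ 0 := by
    rintro rfl
    rw [zero_smul, φ.map_eq_zero_iff] at ht
    exact h.ne 1 ht
  refine ⟨s / t, funext fun r => ?_⟩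
  have := congrArg φ (h.act 0 r)
  rw [map_smul, LinearMapClass.map_smul_of_tower, hs, zero_add, ht, smul_comm, h'.act, smul_smul,
    smul_smul, zero_add] at this
  have := smul_left_injective k (h'.ne 1) this
  simp only [Pi.smul_apply, smul_eq_mul] at this ⊢
  field_simp
  linear_combination -this

noncomputable def shf (p : ℕ → Fin 4 → k) (r : Fin 4) : Module.End k (ℕ →₀ k) :=
  Finsupp.lsum k fun n => p n r • Finsupp.lsingle (n + 1)

theorem shf_single (p : ℕ → Fin 4 → k) (r : Fin 4) (n : ℕ) (t : k) :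
    shf p r (Finsupp.single n t) = p n r • Finsupp.single (n + 1) t := by
  unfold shf; rw [Finsupp.lsum_single]; rfl

theorem exists_pm (h : Pres i c x) (p : ℕ → Fin 4 → k) (hp : ∀ n, p n ≠ 0)
    (hg : ∀ n, Gam i c (p n) (p (n + 1))) : ∃ (P : PtMod k A (VV k x)) (u : ℕ → P.M), Sq P u p := by
  have hr : Rels i c fun r => MulOpposite.op (shf p r) := by
    constructor <;> apply MulOpposite.unop_injective <;> refine Finsupp.lhom_ext fun n t => ?_ <;>
      simp only [MulOpposite.unop_add, MulOpposite.unop_sub, MulOpposite.unop_mul, MulOpposite.unop_smul,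
        MulOpposite.unop_op, MulOpposite.unop_zero, LinearMap.add_apply, LinearMap.sub_apply,
        LinearMap.smul_apply, Module.End.mul_apply, shf_single, map_smul, LinearMap.zero_apply]
    · linear_combination (norm := module) (hg n).r0 • Finsupp.single (n + 1 + 1) t
    · linear_combination (norm := module) (hg n).r1 • Finsupp.single (n + 1 + 1) t
    · linear_combination (norm := module) (hg n).r2 • Finsupp.single (n + 1 + 1) t
    · linear_combination (norm := module) (hg n).r3 • Finsupp.single (n + 1 + 1) t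
    · linear_combination (norm := module) (hg n).r4 • Finsupp.single (n + 1 + 1) t
    · linear_combination (norm := module) (hg n).r5 • Finsupp.single (n + 1 + 1) t
  obtain ⟨Φ, hΦ⟩ := h.up _ _ hr
  let Ψ : Aᵐᵒᵖ →ₐ[k] Module.End k (ℕ →₀ k) :=
    (AlgEquiv.opOp k (Module.End k (ℕ →₀ k))).symm.toAlgHom.comp (AlgHom.op Φ)
  let mA : Module Aᵐᵒᵖ (ℕ →₀ k) := Module.compHom (ℕ →₀ k) Ψ.toRingHom
  have hs : ∀ (a : Aᵐᵒᵖ) (m : ℕ →₀ k), a • m = Ψ a m := fun _ _ => rfl
  have tw : IsScalarTower k Aᵐᵒᵖ (ℕ →₀ k) := ⟨fun r a m => by rw [hs, hs, map_smul]; rfl⟩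
  have hx : ∀ r n (t : k), MulOpposite.op (x r) • (Finsupp.single n t : ℕ →₀ k) =
      p n r • Finsupp.single (n + 1) t :=
    fun r n t => by
      rw [← shf_single, hs]
      show (Φ (x r)).unop _ = _
      rw [hΦ]; rfl
  let b := Finsupp.basisSingleOne (R := k) (ι := ℕ)
  let gr : ℕ → Submodule k (ℕ →₀ k) := fun n => Submodule.span k {Finsupp.single n 1}
  have ne : ∀ n, (Finsupp.single n (1 : k) : ℕ →₀ k) ≠ 0 := fun n => by simp
  refine ⟨PtMod.mk (ℕ →₀ k) gr ?_ ?_ (fun n => finrank_span_singleton (ne n)) ?_,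
      fun n => Finsupp.single n 1,
      fun n => Submodule.mem_span_singleton_self _, ne, fun n r => hx r n 1⟩
  · refine DirectSum.isInternal_submodule_of_iSupIndep_of_iSup_eq_top
      b.linearIndependent.iSupIndep_span_singleton ?_
    rw [← Submodule.span_range_eq_iSup]
    exact b.span_eq
  · intro n j m hm a ha
    induction j generalizing a with
    | zero =>
      obtain ⟨r, rfl⟩ := Submodule.mem_one.1 (pow_zero (VV k x) ▸ ha)
      have e1 : MulOpposite.op (algebraMap k A r) • m = r • m := algebraMap_smul Aᵐᵒᵖ r m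
      rw [e1]; exact Submodule.smul_mem _ _ hm
    | succ j ih =>
      rw [pow_succ] at ha
      refine Submodule.mul_induction_on ha (fun a ha b hb => ?_) (fun a b ha hb => ?_)
      · obtain ⟨t, ht⟩ := Submodule.mem_span_singleton.1 (ih a ha)
        rw [MulOpposite.op_mul, mul_smul, ← ht, smul_comm]
        refine Submodule.smul_mem _ _ ?_
        induction hb using Submodule.span_induction with
        | mem b hb =>
          obtain ⟨r, rfl⟩ := hb
          rw [hx]; exact Submodule.smul_mem _ _ (Submodule.mem_span_singleton_self _)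
        | zero => simp
        | add b b' _ _ h h' => rw [MulOpposite.op_add, add_smul]; exact add_mem h h'
        | smul r b _ h => rw [MulOpposite.op_smul, smul_assoc]; exact Submodule.smul_mem _ _ h
      · rw [MulOpposite.op_add, add_smul]; exact add_mem ha hb
  · refine ⟨Finsupp.single 0 1, Submodule.mem_span_singleton_self _, ?_⟩
    have k1 : ∀ n, (Finsupp.single n 1 : ℕ →₀ k) ∈ Submodule.span Aᵐᵒᵖ {(Finsupp.single 0 1 : ℕ →₀ k)} := by
      intro n
      induction n with
      | zero => exact Submodule.mem_span_singleton_self _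
      | succ n ih =>
        obtain ⟨r, hr⟩ := Function.ne_iff.1 (hp n)
        have := Submodule.smul_of_tower_mem _ (p n r)⁻¹ (Submodule.smul_mem _ (MulOpposite.op (x r)) ih)
        rwa [hx, smul_smul, inv_mul_cancel₀ hr, one_smul] at this
    rw [eq_top_iff]
    rintro m -
    induction m using Finsupp.induction_linear with
    | zero => exact zero_mem _
    | add a b ha hb => exact add_mem ha hb
    | single n t => simpa using Submodule.smul_of_tower_mem _ t (k1 n)

theorem numPt (h : Pres i c x) {J : Type} {N : ℕ} (eJ : Fin N ≃ J) (pt : J → Fin 4 → k) (σ : J → J)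
    (g1 : ∀ j, pt j ≠ 0 ∧ Gam i c (pt j) (pt (σ j))) (g2 : ∀ j j' (t : k), pt j = t • pt j' → j = j')
    (g3 : ∀ a b, a ≠ 0 → b ≠ 0 → Gam i c a b → ∃ (j : J) (s t : k), a = s • pt j ∧ b = t • pt (σ j)) :
    NumPt (VV k x) N := by
  choose P u hP using fun j => exists_pm h (fun n => pt (σ^[n] j)) (fun n => (g1 _).1) fun n => by
    rw [Function.iterate_succ_apply']; exact (g1 _).2
  refine ⟨fun a => P (eJ a), fun a b hab => ?_, fun Q => ?_⟩
  · obtain ⟨t, ht⟩ := (hP _).prop (hP _) hab
    exact eJ.injective (g2 _ _ t ht)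
  · obtain ⟨v, q, hq⟩ := exists_sq Q
    choose j s t hs ht using fun n => g3 _ _ (hq.ne_zero h.gen n) (hq.ne_zero h.gen (n + 1))
      (hq.gam h.rel n)
    have s0 : ∀ n, s n ≠ 0 := fun n h0 => hq.ne_zero h.gen n (by rw [hs, h0, zero_smul])
    have hj : ∀ n, j n = σ^[n] (j 0) := by
      intro n
      induction n with
      | zero => rfl
      | succ n ih =>
        rw [Function.iterate_succ_apply', ← ih]
        refine g2 _ _ ((s (n + 1))⁻¹ * t n) ?_
        rw [mul_smul, ← ht, hs, smul_smul, inv_mul_cancel₀ (s0 _), one_smul]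
    refine ⟨eJ.symm (j 0), ?_⟩
    simp only [Equiv.apply_symm_apply]
    exact (hq.rescale s s0 fun n => by rw [hs, ← hj]).iso h.gen (hP _)

end Pool.Agent.H72.Pm
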