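import Pool.Agent.H72.PmI

set_option autoImplicit false
set_option linter.unusedVariables false
set_option linter.unusedSimpArgs false
set_option linter.unnecessarySeqFocus false
set_option linter.unusedSectionVars false

namespace Pool.Agent.H72.Pm

open Pool.Agent.H72.PmDef

variable {k : Type} [Field k] {A : Type} [Ring A] [Algebra k A] {i c e : k} {x : Fin 4 → A}

abbrev Qd (b d : k) := {s : k // s ^ 2 + b * s + d = 0}
abbrev Cb (c : k) := {t : k // t ^ 3 + (1 - c) * t ^ 2 - t - 1 = 0}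
abbrev J1 (c : k) := Σ r : Qd c c, Qd (-2 * r.1 ^ 2) (r.1 ^ 2)
abbrev J3 (i c : k) := Σ t : Cb c, Σ r : Qd 0 (1 - t.1 ^ 2), Qd 0 (-2 * i * r.1)
abbrev JJ (i c : k) := (Unit ⊕ J1 c) ⊕ (Bool ⊕ J3 i c)

theorem card_Qd [IsAlgClosed k] (h2 : (2 : k) ≠ 0) {b d : k} (h : b ^ 2 - 4 * d ≠ 0) :
    Nat.card (Qd b d) = 2 := by
  obtain ⟨z, hz⟩ := IsAlgClosed.exists_eq_mul_self (b ^ 2 - 4 * d)
  have z0 : z ≠ 0 := by rintro rfl; exact h (by simpa using hz)
  have : {s : k | s ^ 2 + b * s + d = 0} = {(-b + z) / 2, (-b - z) / 2} := by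
    ext s
    simp only [Set.mem_ofPred_eq, Set.mem_insert_iff, Set.mem_singleton_iff, eq_div_iff h2]
    constructor
    · intro hs
      have : (s * 2 - (-b + z)) * (s * 2 - (-b - z)) = 0 := by linear_combination 4 * hs + hz
      simpa only [mul_eq_zero, sub_eq_zero] using this
    · intro hs
      apply mul_left_cancel₀ (mul_ne_zero h2 h2)
      rcases hs with hs | hs
      · linear_combination (s * 2 - (-b - z)) * hs - hz
      · linear_combination (s * 2 - (-b + z)) * hs - hz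
  show Nat.card {s : k | s ^ 2 + b * s + d = 0} = 2
  rw [Nat.card_coe_set_eq, this]
  refine Set.ncard_pair fun h' => ?_
  rw [div_left_inj' h2] at h'
  exact mul_ne_zero h2 z0 (by linear_combination h')

theorem card_Cb [IsAlgClosed k] (hc : c ≠ 0) (hd : 4 * c ^ 2 - 13 * c + 32 ≠ 0) :
    Nat.card (Cb c) = 3 := by
  classical
  let P : Cubic k := ⟨1, 1 - c, -1, -1⟩
  have h3 := Cubic.card_roots_of_discr_ne_zero (φ := RingHom.id k) (P := P) one_ne_zero
    (IsAlgClosed.splits _) (by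
      have : P.discr = -c * (4 * c ^ 2 - 13 * c + 32) := by simp only [Cubic.discr, P]; ring
      rw [this]; exact mul_ne_zero (neg_ne_zero.2 hc) hd)
  rw [← h3, ← Nat.card_eq_finsetCard]
  refine Nat.card_congr (Equiv.subtypeEquivRight fun t => ?_)
  have : Cubic.map (RingHom.id k) P = P := rfl
  rw [this, Multiset.mem_toFinset, Cubic.mem_roots_iff (Cubic.ne_zero_of_a_ne_zero one_ne_zero)]
  simp only [P]
  constructor <;> intro h <;> linear_combination h

theorem card_sig {α : Type} {β : α → Type} {m n : ℕ} (hα : Nat.card α = m + 1)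
    (hβ : ∀ a, Nat.card (β a) = n + 1) : Nat.card (Sigma β) = (m + 1) * (n + 1) := by
  have := Nat.finite_of_card_ne_zero (α := α) (by omega)
  have := fun a => Nat.finite_of_card_ne_zero (α := β a) (by rw [hβ]; omega)
  have := Fintype.ofFinite α
  rw [Nat.card_sigma, ← hα]
  simp [hβ]

theorem r_ne (hc : c ≠ 0) (t : Cb c) (r : Qd 0 (1 - t.1 ^ 2)) : r.1 ≠ 0 := fun h => by
  have h1 := r.2
  have h2 := t.2
  rw [h] at h1
  exact hc (by linear_combination -h2 - (t.1 + 1 - c) * h1)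

theorem card_JJ [IsAlgClosed k] (h2 : (2 : k) ≠ 0) (hi : i ^ 2 = -1) (hc : c ≠ 0) (hc4 : c - 4 ≠ 0)
    (hc2 : 1 + 2 * c ≠ 0) (hd : 4 * c ^ 2 - 13 * c + 32 ≠ 0) : Nat.card (JJ i c) = 19 := by
  have h4 : (4 : k) ≠ 0 := by rw [show (4 : k) = 2 * 2 by norm_num]; exact mul_ne_zero h2 h2
  have i0 : i ≠ 0 := by rintro rfl; simp at hi
  have a1 : Nat.card (J1 c) = (1 + 1) * (1 + 1) := by
    refine card_sig (card_Qd h2 ?_) fun r => card_Qd h2 ?_
    · rw [show c ^ 2 - 4 * c = c * (c - 4) by ring]; exact mul_ne_zero hc hc4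
    · have hr := r.2
      rw [show (-2 * r.1 ^ 2) ^ 2 - 4 * r.1 ^ 2 = 4 * r.1 ^ 2 * (r.1 - 1) * (r.1 + 1) by ring]
      refine mul_ne_zero (mul_ne_zero (mul_ne_zero h4 (pow_ne_zero _ fun h => hc ?_)) fun h => hc2 ?_)
        fun h => one_ne_zero (α := k) ?_
      · linear_combination hr - (r.1 + c) * h
      · linear_combination hr - (r.1 + 1 + c) * h
      · linear_combination hr - (r.1 - 1 + c) * h
  have a3 : Nat.card (J3 i c) = (2 + 1) * (3 + 1) := by
    refine card_sig (card_Cb hc hd) fun t => card_sig (m := 1) (n := 1) (card_Qd h2 fun h => ?_)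
      fun r => card_Qd h2 ?_
    · have h' : 1 - t.1 ^ 2 = 0 := mul_left_cancel₀ h4 (by linear_combination -h)
      exact r_ne hc t ⟨0, by simpa using h'⟩ rfl
    · rw [show 0 ^ 2 - 4 * (-2 * i * r.1) = 4 * 2 * i * r.1 by ring]
      exact mul_ne_zero (mul_ne_zero (mul_ne_zero h4 h2) i0) (r_ne hc t r)
  have := Nat.finite_of_card_ne_zero (α := J1 c) (by omega)
  have := Nat.finite_of_card_ne_zero (α := J3 i c) (by omega)
  rw [Nat.card_sum, Nat.card_sum, Nat.card_sum, a1, a3]
  simp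

def pt : JJ i c → Fin 4 → k
  | .inl (.inl _) => ![1, 1, 1, 0]
  | .inl (.inr ⟨r, s⟩) => ![1, r.1, s.1, 0]
  | .inr (.inl true) => ![0, 0, 0, 1]
  | .inr (.inl false) => ![0, 0, 1, 0]
  | .inr (.inr ⟨t, r, w⟩) => ![1, r.1, -r.1 ^ 2 - r.1 * t.1, w.1]

def sig (hi : i ^ 2 = -1) : JJ i c → JJ i c
  | .inl (.inl u) => .inl (.inl u)
  | .inl (.inr ⟨r, s⟩) => .inl (.inr ⟨r, 2 * r.1 ^ 2 - s.1, by linear_combination s.2⟩)
  | .inr (.inl b) => .inr (.inl !b)
  | .inr (.inr ⟨t, r, w⟩) => .inr (.inr ⟨t, ⟨-r.1, by linear_combination r.2⟩,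
      ⟨-i * w.1, by linear_combination -w.2 + w.1 ^ 2 * hi⟩⟩)

theorem g1 (hi : i ^ 2 = -1) (j : JJ i c) : pt j ≠ 0 ∧ Gam i c (pt j) (pt (sig hi j)) := by
  rcases j with (u | ⟨⟨r, hr⟩, s, hs⟩) | (_ | _) | ⟨⟨t, ht⟩, ⟨r, hr⟩, w, hw⟩ <;>
    refine ⟨by simp [pt], ?_⟩ <;> constructor <;>
    simp only [pt, sig, Bool.not_true, Bool.not_false, Matrix.cons_val_zero, Matrix.cons_val_one,
      Matrix.cons_val] <;> grind

theorem g2 (hi : i ^ 2 = -1) (h2 : (2 : k) ≠ 0) (hc : c ≠ 0) (hc2 : 1 + 2 * c ≠ 0) (j j' : JJ i c)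
    (l : k) (h : pt j = l • pt j') : j = j' := by
  have e0 := congrFun h 0
  have e1 := congrFun h 1
  have e2 := congrFun h 2
  have e3 := congrFun h 3
  have i0 : i ≠ 0 := by rintro rfl; simp at hi
  have w0 : ∀ (t : Cb c) (r : Qd 0 (1 - t.1 ^ 2)) (w : Qd 0 (-2 * i * r.1)), w.1 ≠ 0 := fun t r w h => by
    have := w.2
    rw [h] at this
    exact mul_ne_zero (mul_ne_zero h2 i0) (r_ne hc t r) (by linear_combination -this)
  rcases j with (u | ⟨⟨r, hr⟩, s, hs⟩) | (_ | _) | ⟨t, r, w⟩ <;>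
  rcases j' with (u' | ⟨⟨r', hr'⟩, s', hs'⟩) | (_ | _) | ⟨t', r', w'⟩ <;>
    simp only [pt, Pi.smul_apply, smul_eq_mul, Matrix.cons_val_zero, Matrix.cons_val_one,
      Matrix.cons_val, mul_one, mul_zero] at e0 e1 e2 e3 <;> (try rfl) <;> (try subst e0) <;>
    (try simp only [one_mul, zero_mul] at e1 e2 e3)
  all_goals first
    | exact absurd e0 one_ne_zero
    | exact absurd e2 one_ne_zero
    | exact absurd e3 one_ne_zero
    | exact absurd e3 (w0 _ _ _)
    | exact absurd e3.symm (w0 _ _ _)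
    | (subst e1; exact absurd (by linear_combination hr) hc2)
    | (subst e1; exact absurd (by linear_combination hr') hc2)
    | (subst e1; subst e2; rfl)
    | skip
  obtain ⟨t, ht⟩ := t
  obtain ⟨t', ht'⟩ := t'
  have r0 := r_ne hc _ r
  obtain ⟨r, hr⟩ := r
  obtain ⟨r', hr'⟩ := r'
  obtain ⟨w, hw⟩ := w
  obtain ⟨w', hw'⟩ := w'
  simp only at e1 e2 e3 r0
  subst e1 e3
  obtain rfl : t = t' := mul_left_cancel₀ r0 (by linear_combination -e2)
  rfl

theorem g3n (hi : i ^ 2 = -1) (h2 : (2 : k) ≠ 0) (hc : c ≠ 0) (a b : Fin 4 → k) (ha : a 0 = 1)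
    (hb : b 0 = 1) (h : Gam i c a b) : ∃ j : JJ i c, a = pt j ∧ b = pt (sig hi j) := by
  obtain ⟨r0, r1, r2, r3, r4, r5⟩ := h
  simp only [ha, hb] at r0 r2 r4 r5
  have ex : ∀ a : Fin 4 → k, a = ![a 0, a 1, a 2, a 3] := fun a => funext fun l => by fin_cases l <;> rfl
  rw [ex a, ex b, ha, hb]
  generalize a 1 = r at *
  generalize a 2 = s at *
  generalize a 3 = w at *
  generalize b 1 = r' at *
  generalize b 2 = s' at *
  generalize b 3 = w' at *
  obtain rfl : w' = -i * w := by linear_combination r0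
  by_cases hw : w = 0
  · subst hw
    obtain rfl : r' = r := by linear_combination r2
    obtain rfl : s' = 2 * r' ^ 2 - s := by linear_combination r4
    have : (r' - 1) * (r' ^ 2 + c * r' + c) = 0 := mul_left_cancel₀ h2 (by linear_combination r5)
    rcases mul_eq_zero.1 this with h | h
    · obtain rfl : r' = 1 := by linear_combination h
      obtain rfl : s = 1 := by
        have : (s - 1) ^ 2 = 0 := by linear_combination -r3
        linear_combination pow_eq_zero_iff two_ne_zero |>.1 this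
      exact ⟨.inl (.inl ()), rfl, by simp [pt, sig]; norm_num⟩
    · exact ⟨.inl (.inr ⟨⟨r', h⟩, ⟨s, by linear_combination -r3⟩⟩), rfl, by simp [pt, sig]⟩
  · have i0 : i ≠ 0 := by rintro rfl; simp at hi
    obtain rfl : r' = -r := mul_left_cancel₀ (mul_ne_zero i0 hw) (by linear_combination -r1)
    obtain rfl : s' = -2 * r ^ 2 - s := by linear_combination r4
    have r0' : r ≠ 0 := by
      rintro rfl
      exact mul_ne_zero h2 hc (by linear_combination -r5)
    obtain ⟨t, rfl⟩ : ∃ t, s = -r ^ 2 - r * t := ⟨(-r ^ 2 - s) / r, by field_simp; ring⟩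
    have q1 : r ^ 2 + 0 * r + (1 - t ^ 2) = 0 :=
      mul_left_cancel₀ (pow_ne_zero 2 r0') (by linear_combination r3)
    refine ⟨.inr (.inr ⟨⟨t, mul_left_cancel₀ h2 ?_⟩, ⟨r, q1⟩, ⟨w, ?_⟩⟩), rfl, ?_⟩
    · linear_combination r5 - (2 * t + 2 * (1 - c)) * q1
    · linear_combination i * r2 + w ^ 2 * hi
    · simp only [pt, sig]
      congr 3; ring

theorem g3 (hi : i ^ 2 = -1) (h2 : (2 : k) ≠ 0) (hc : c ≠ 0) (a b : Fin 4 → k) (ha : a ≠ 0)
    (hb : b ≠ 0) (h : Gam i c a b) :
    ∃ (j : JJ i c) (s t : k), a = s • pt j ∧ b = t • pt (sig hi j) := by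
  have i0 : i ≠ 0 := by rintro rfl; simp at hi
  by_cases h0 : a 0 ≠ 0 ∧ b 0 ≠ 0
  · obtain ⟨j, h1, h2⟩ := g3n (c := c) hi h2 hc ((a 0)⁻¹ • a) ((b 0)⁻¹ • b) (by simp [h0.1])
      (by simp [h0.2]) (by
        constructor <;> simp only [Pi.smul_apply, smul_eq_mul]
        · linear_combination (a 0)⁻¹ * (b 0)⁻¹ * h.r0
        · linear_combination (a 0)⁻¹ * (b 0)⁻¹ * h.r1
        · linear_combination (a 0)⁻¹ * (b 0)⁻¹ * h.r2
        · linear_combination (a 0)⁻¹ * (b 0)⁻¹ * h.r3
        · linear_combination (a 0)⁻¹ * (b 0)⁻¹ * h.r4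
        · linear_combination (a 0)⁻¹ * (b 0)⁻¹ * h.r5)
    exact ⟨j, a 0, b 0, by rw [← h1, smul_inv_smul₀ h0.1], by rw [← h2, smul_inv_smul₀ h0.2]⟩
  · obtain ⟨r0, r1, r2, r3, r4, r5⟩ := h
    have za : a 0 = 0 → a 1 = 0 → a 2 = 0 → a 3 = 0 → False := fun h0 h1 h2 h3 =>
      ha (funext fun l => by fin_cases l <;> assumption)
    have zb : b 0 = 0 → b 1 = 0 → b 2 = 0 → b 3 = 0 → False := fun h0 h1 h2 h3 =>
      hb (funext fun l => by fin_cases l <;> assumption)
    have : (a 0 = 0 ∧ a 1 = 0 ∧ a 2 = 0 ∧ b 0 = 0 ∧ b 1 = 0 ∧ b 3 = 0) ∨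
        (a 0 = 0 ∧ a 1 = 0 ∧ a 3 = 0 ∧ b 0 = 0 ∧ b 1 = 0 ∧ b 2 = 0) := by
      have z : ∀ {u v : k}, u ≠ 0 → u * v = 0 → v = 0 := fun hu h => (mul_eq_zero.1 h).resolve_left hu
      have b0 : b 0 = 0 := by
        by_contra b0
        have a0 : a 0 = 0 := by tauto
        exact za a0 (z b0 (by
            have := z (mul_ne_zero i0 b0) (by linear_combination r0 - b 3 * a0 : i * b 0 * a 3 = 0)
            linear_combination -r2 + b 1 * a0 + b 3 * this)) (z b0 (by
            have h3 := z (mul_ne_zero i0 b0) (by linear_combination r0 - b 3 * a0 : i * b 0 * a 3 = 0)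
            have h1 : a 1 = 0 := z b0 (by linear_combination -r2 + b 1 * a0 + b 3 * h3)
            linear_combination r4 - b 2 * a0 + 2 * b 1 * h1))
          (z (mul_ne_zero i0 b0) (by linear_combination r0 - b 3 * a0))
      have a0 : a 0 = 0 := by
        by_contra a0
        have h3 : b 3 = 0 := z a0 (by linear_combination r0 - i * a 3 * b0)
        have h1 : b 1 = 0 := z a0 (by linear_combination r2 - a 3 * h3 + a 1 * b0)
        exact zb b0 h1 (z a0 (by linear_combination r4 - a 2 * b0 + 2 * a 1 * h1)) h3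
      have e11 : a 1 * b 1 = 0 := z h2 (by linear_combination -r4 + b 2 * a0 + a 2 * b0)
      have a1 : a 1 = 0 := by
        by_contra a1
        have h1 := z a1 e11
        exact zb b0 h1 (z a1 (by
          linear_combination r5 - a 2 * h1 + 2 * c * a 0 * b0 + 2 * (1 - c) * e11))
          (z a1 (by linear_combination r1 + i * a 3 * h1))
      have b1 : b 1 = 0 := by
        by_contra b1
        exact za a0 a1 (z b1 (by
          linear_combination r5 - b 2 * a1 + 2 * c * a 0 * b0 + 2 * (1 - c) * e11))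
          (z (mul_ne_zero i0 b1) (by linear_combination -r1 + b 3 * a1))
      by_cases a3 : a 3 = 0
      · exact Or.inr ⟨a0, a1, a3, b0, b1, z (fun h => za a0 a1 h a3) (by linear_combination r3 + e11)⟩
      · have b3 : b 3 = 0 := z a3 (by linear_combination r2 - b 1 * a0 + b 0 * a1)
        exact Or.inl ⟨a0, a1, z (fun h => zb b0 b1 h b3) (by linear_combination r3 + e11), b0, b1, b3⟩
    rcases this with ⟨h0, h1, h2, h3, h4, h5⟩ | ⟨h0, h1, h2, h3, h4, h5⟩
    · exact ⟨.inr (.inl true), a 3, b 2, funext fun l => by fin_cases l <;> simp [pt, *],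
        funext fun l => by fin_cases l <;> simp [pt, sig, *]⟩
    · exact ⟨.inr (.inl false), a 2, b 3, funext fun l => by fin_cases l <;> simp [pt, *],
        funext fun l => by fin_cases l <;> simp [pt, sig, *]⟩

theorem exists_c (h2 : (2 : k) ≠ 0) :
    ∃ c : k, c ≠ 0 ∧ c - 4 ≠ 0 ∧ 1 + 2 * c ≠ 0 ∧ 4 * c ^ 2 - 13 * c + 32 ≠ 0 := by
  by_cases h : (55 : k) = 0
  · exact ⟨1, one_ne_zero, fun e => one_ne_zero (α := k) (by linear_combination h + 18 * e),
      fun e => one_ne_zero (α := k) (by linear_combination h - 18 * e),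
      fun e => one_ne_zero (α := k) (by linear_combination 12 * e - 5 * h)⟩
  · exact ⟨2, h2, fun e => h2 (by linear_combination -e), fun e => h (by linear_combination 11 * e),
      fun e => mul_ne_zero h2 h (by linear_combination 5 * e)⟩

theorem nineteen [IsAlgClosed k] (h : Pres i c x) (h2 : (2 : k) ≠ 0) (hi : i ^ 2 = -1) (hc : c ≠ 0)
    (hc4 : c - 4 ≠ 0) (hc2 : 1 + 2 * c ≠ 0) (hd : 4 * c ^ 2 - 13 * c + 32 ≠ 0) : NumPt (VV k x) 19 := by
  have hJ := card_JJ h2 hi hc hc4 hc2 hd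
  have := Nat.finite_of_card_ne_zero (α := JJ i c) (by omega)
  exact numPt h (Finite.equivFinOfCardEq hJ).symm pt (sig hi) (g1 hi) (g2 hi h2 hc hc2) (g3 hi h2 hc)

theorem graded (h : Pres i c x) : DirectSum.IsInternal fun n : ℕ => VV k x ^ n := by
  obtain ⟨p, hp, p1, p0, h1⟩ := exists_pr h
  have hv : ∀ j, ∀ a ∈ VV k x ^ j, ∀ l, p l a = if l = j then a else 0 := by
    intro j
    induction j with
    | zero =>
      intro a ha l
      obtain ⟨r, rfl⟩ := Submodule.mem_one.1 (pow_zero (VV k x) ▸ ha)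
      rw [Algebra.algebraMap_eq_smul_one, map_smul, h1]; split_ifs <;> simp
    | succ j ih =>
      intro a ha l
      rw [pow_succ] at ha
      refine Submodule.mul_induction_on ha (fun a ha b hb => ?_) (fun a b ha hb => ?_)
      · induction hb using Submodule.span_induction with
        | mem b hb =>
          obtain ⟨r, rfl⟩ := hb
          rcases l with _ | l
          · simp [p0]
          · rw [p1, ih a ha]; simp
        | zero => simp
        | add b b' _ _ h h' => rw [mul_add, map_add, h, h']; split_ifs <;> simp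
        | smul r b _ h => rw [mul_smul_comm, map_smul, h]; split_ifs <;> simp
      · rw [map_add, ha, hb]; split_ifs <;> simp
  refine DirectSum.isInternal_submodule_of_iSupIndep_of_iSup_eq_top (fun j => ?_) ?_
  · rw [Submodule.disjoint_def]
    intro a ha hb
    have : (⨆ l, ⨆ (_ : l ≠ j), VV k x ^ l) ≤ LinearMap.ker (p j) := iSup₂_le fun l hl b hb => by
      rw [LinearMap.mem_ker, hv l b hb, if_neg hl.symm]
    simpa [hv j a ha] using this hb
  · rw [eq_top_iff]
    rintro a -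
    induction a using ind_r h.gen with
    | h1 => exact Submodule.mem_iSup_of_mem 0 (by rw [pow_zero]; exact Submodule.one_le.1 le_rfl)
    | hs r a ha => exact Submodule.smul_mem _ _ ha
    | ha a b ha hb => exact add_mem ha hb
    | hx a r ha =>
      induction ha using Submodule.iSup_induction' with
      | mem j a ha =>
        exact Submodule.mem_iSup_of_mem (j + 1) (by
          rw [pow_succ]; exact Submodule.mul_mem_mul ha (Submodule.subset_span ⟨r, rfl⟩))
      | zero => simp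
      | add a b _ _ ha hb => rw [add_mul]; exact add_mem ha hb

theorem leftReg (h : Pres i c x) (hi : i ^ 2 = -1) (he : 2 * c * e = 1) : LeftReg k A (VV k x) 4 := by
  have := gorenstein h hi he (Submodule.span A (VV k x : Set A)) (Submodule.span_span_of_tower k A _)
  exact ⟨gldim h hi he, this.1, this.2⟩

theorem asReg (h : Pres i c x) (hi : i ^ 2 = -1) (he : 2 * c * e = 1) : ASRegular k A (VV k x) 4 := by
  refine ⟨Module.Finite.span_of_finite k (Set.finite_range x), graded h, ⟨16, 4, growth h hi⟩,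
    leftReg h hi he, ?_⟩
  have : (VV k x).map (MulOpposite.opLinearEquiv k).toLinearMap = VV k (xop i x) := by
    apply le_antisymm
    · rw [Submodule.map_span_le]
      rintro _ ⟨j, rfl⟩
      exact span_op hi j
    · rw [Submodule.span_le]
      have m : ∀ j, MulOpposite.op (x j) ∈ (VV k x).map (MulOpposite.opLinearEquiv k).toLinearMap :=
        fun j => ⟨x j, Submodule.subset_span ⟨j, rfl⟩, rfl⟩
      rintro _ ⟨j, rfl⟩
      fin_cases j
      · exact m 0
      · exact m 1
      · exact m 2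
      · exact Submodule.smul_mem _ i (m 3)
  rw [this]
  exact leftReg (pres_op h hi) (by rw [neg_sq, hi]) he

end Pool.Agent.H72.Pm
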