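import Mathlib

namespace Pool.Agent.H72.ProjVar

open Cardinal

def w1 : FreeGroup ℕ := FreeGroup.of 0 ^ 6
def w2 : FreeGroup ℕ :=
  FreeGroup.of 0 ^ 2 * FreeGroup.of 1 ^ 2 * (FreeGroup.of 0 ^ 2)⁻¹ * (FreeGroup.of 1 ^ 2)⁻¹
def S : Set (FreeGroup ℕ) := {w1, w2}

def Laws (A : Type) [Group A] : Prop := ∀ w ∈ S, ∀ f : ℕ → A, FreeGroup.lift f w = 1

theorem laws_iff (A : Type) [Group A] :
    Laws A ↔ (∀ a : A, a ^ 6 = 1) ∧ ∀ a b : A, Commute (a ^ 2) (b ^ 2) := by
  constructor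
  · intro h
    refine ⟨fun a => by simpa [w1] using h w1 (by simp [S]) (fun _ => a), fun a b => ?_⟩
    have := h w2 (by simp [S]) (fun n => if n = 0 then a else b)
    simp only [w2, map_mul, map_inv, map_pow, FreeGroup.lift_apply_of, if_true, one_ne_zero,
      if_false] at this
    exact commutatorElement_eq_one_iff_commute.1 this
  · rintro ⟨h1, h2⟩ w (rfl | rfl) f
    · simp [w1, h1]
    · simp only [w2, map_mul, map_inv, map_pow, FreeGroup.lift_apply_of]
      exact commutatorElement_eq_one_iff_commute.2 (h2 _ _)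

abbrev S3 : Type := Equiv.Perm (Fin 3)
theorem laws_S3 : Laws S3 := (laws_iff _).2 ⟨by decide +kernel, by unfold Commute SemiconjBy; decide +kernel⟩
theorem laws_U : Laws ℤˣ := (laws_iff _).2 ⟨by decide, fun _ _ => Commute.all _ _⟩

abbrev K : Type := Set (ℕ → ℤˣ)
abbrev T : Type := K → S3
instance : Nontrivial ℤˣ := ⟨1, -1, by decide⟩
instance : Infinite (ℕ → ℤˣ) := Pi.infinite_of_left
instance : Infinite K :=
  Infinite.of_injective (fun n : ℕ → ℤˣ => ({n} : Set (ℕ → ℤˣ))) Set.singleton_injective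
instance : Infinite T := Pi.infinite_of_left
abbrev Z : Type := {p : K × K // p.1 ≠ p.2} × T
abbrev Gen : Type := K ⊕ Z

def fx (a : K) : FreeGroup Gen := FreeGroup.of (Sum.inl a)
def fz (z : Z) : FreeGroup Gen := FreeGroup.of (Sum.inr z)

def rels : Set (FreeGroup Gen) :=
  {r | (∃ w ∈ S, ∃ f : ℕ → FreeGroup Gen, FreeGroup.lift f w = r) ∨
    ∃ z : Z, r = fz z ^ 3 ∨ r = fx z.1.1.1 * fz z * (fx z.1.1.1)⁻¹ * fz z ∨
      r = fx z.1.1.2 * fz z * (fx z.1.1.2)⁻¹ * fz z}

abbrev P : Type := PresentedGroup rels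

def x (a : K) : P := PresentedGroup.of (Sum.inl a)
def z (t : Z) : P := PresentedGroup.of (Sum.inr t)

theorem lift_comp {A B : Type} [Group A] [Group B] (φ : A →* B) (f : ℕ → A) (w : FreeGroup ℕ) :
    φ (FreeGroup.lift f w) = FreeGroup.lift (φ ∘ f) w := by
  have : φ.comp (FreeGroup.lift f) = FreeGroup.lift (φ ∘ f) :=
    FreeGroup.ext_hom _ _ fun a => by simp
  exact DFunLike.congr_fun this w

theorem laws_P : Laws P := by
  intro w hw f
  choose g hg using fun n => PresentedGroup.mk_surjective rels (f n)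
  have : f = PresentedGroup.mk rels ∘ g := funext fun n => (hg n).symm
  rw [this, ← lift_comp]
  exact PresentedGroup.one_of_mem (Or.inl ⟨w, hw, g, rfl⟩)

theorem z3 (t : Z) : z t ^ 3 = 1 :=
  PresentedGroup.one_of_mem (rels := rels) (x := fz t ^ 3) (Or.inr ⟨t, Or.inl rfl⟩)
theorem zx1 (t : Z) : x t.1.1.1 * z t * (x t.1.1.1)⁻¹ * z t = 1 :=
  PresentedGroup.one_of_mem (rels := rels) (x := fx t.1.1.1 * fz t * (fx t.1.1.1)⁻¹ * fz t)
    (Or.inr ⟨t, Or.inr (Or.inl rfl)⟩)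
theorem zx2 (t : Z) : x t.1.1.2 * z t * (x t.1.1.2)⁻¹ * z t = 1 :=
  PresentedGroup.one_of_mem (rels := rels) (x := fx t.1.1.2 * fz t * (fx t.1.1.2)⁻¹ * fz t)
    (Or.inr ⟨t, Or.inr (Or.inr rfl)⟩)

theorem exists_hom {A : Type} [Group A] (hA : Laws A) (a : K → A) (c : Z → A)
    (h3 : ∀ t, c t ^ 3 = 1) (h1 : ∀ t, a t.1.1.1 * c t * (a t.1.1.1)⁻¹ * c t = 1)
    (h2 : ∀ t, a t.1.1.2 * c t * (a t.1.1.2)⁻¹ * c t = 1) :
    ∃ φ : P →* A, (∀ k, φ (x k) = a k) ∧ ∀ t, φ (z t) = c t := by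
  refine ⟨PresentedGroup.toGroup (f := Sum.elim a c) ?_, fun k => PresentedGroup.toGroup.of _,
    fun t => PresentedGroup.toGroup.of _⟩
  rintro r (⟨w, hw, f, rfl⟩ | ⟨t, rfl | rfl | rfl⟩)
  · rw [lift_comp]; exact hA w hw _
  · simpa [fz] using h3 t
  · simpa [fz, fx] using h1 t
  · simpa [fz, fx] using h2 t

theorem hom_ext {A : Type} [Group A] {φ ψ : P →* A} (h1 : ∀ k, φ (x k) = ψ (x k))
    (h2 : ∀ t, φ (z t) = ψ (z t)) : φ = ψ :=
  PresentedGroup.ext fun g => by
    rcases g with k | t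
    · exact h1 k
    · exact h2 t

/-! ### projectivity -/

section
variable {A : Type} [Group A]

def N (A : Type) [Group A] : Subgroup A := Subgroup.closure (Set.range fun a : A => a ^ 2)

theorem sq_mem (a : A) : a ^ 2 ∈ N A := Subgroup.subset_closure ⟨a, rfl⟩

theorem N_conj (a : A) {m : A} (hm : m ∈ N A) : a * m * a⁻¹ ∈ N A := by
  induction hm using Subgroup.closure_induction with
  | mem g h => obtain ⟨b, rfl⟩ := h; simpa only [← conj_pow] using sq_mem (a * b * a⁻¹)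
  | one => simp
  | mul g h _ _ hg hh => simpa [mul_assoc] using (N A).mul_mem hg hh
  | inv g _ hg => simpa [mul_assoc] using (N A).inv_mem hg

theorem N_comm (hA : Laws A) {m n : A} (hm : m ∈ N A) (hn : n ∈ N A) : Commute m n := by
  induction hm using Subgroup.closure_induction with
  | mem g h =>
    obtain ⟨b, rfl⟩ := h
    induction hn using Subgroup.closure_induction with
    | mem g h => obtain ⟨c, rfl⟩ := h; exact ((laws_iff A).1 hA).2 b c
    | one => simp
    | mul g h _ _ hg hh => exact hg.mul_right hh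
    | inv g _ hg => exact hg.inv_right
  | one => simp
  | mul g h _ _ hg hh => exact hg.mul_left hh
  | inv g _ hg => exact hg.inv_left

theorem N_cube (hA : Laws A) {m : A} (hm : m ∈ N A) : m ^ 3 = 1 := by
  induction hm using Subgroup.closure_induction with
  | mem g h => obtain ⟨b, rfl⟩ := h; simpa only [← pow_mul] using ((laws_iff A).1 hA).1 b
  | one => simp
  | mul g h a b hg hh => rw [(N_comm hA a b).mul_pow, hg, hh, one_mul]
  | inv g _ hg => rw [inv_pow, hg, inv_one]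

def e (a m : A) : A := a * m * a⁻¹ * m⁻¹

theorem e_mem (a : A) {m : A} (hm : m ∈ N A) : e a m ∈ N A :=
  (N A).mul_mem (N_conj a hm) ((N A).inv_mem hm)

theorem e_inv (hA : Laws A) (a : A) {m : A} (hm : m ∈ N A) : a * e a m * a⁻¹ * e a m = 1 := by
  have h := (N_comm hA (sq_mem a) hm).eq
  have : a * e a m * a⁻¹ * e a m = (a ^ 2 * m) * (a ^ 2)⁻¹ * m⁻¹ := by
    simp only [e, sq]; group
  rw [this, h]; group

theorem e_inv2 (hA : Laws A) (a b : A) {n : A} (hn : n ∈ N A) (h : b * n * b⁻¹ * n = 1) :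
    b * e a n * b⁻¹ * e a n = 1 := by
  have hc : b * a * b⁻¹ * a⁻¹ ∈ N A := by
    have : b * a * b⁻¹ * a⁻¹ = b ^ 2 * (b⁻¹ * a) ^ 2 * (a ^ 2)⁻¹ := by
      simp only [sq]; group
    rw [this]
    exact (N A).mul_mem ((N A).mul_mem (sq_mem _) (sq_mem _)) ((N A).inv_mem (sq_mem _))
  have h1 : b * n * b⁻¹ = n⁻¹ := eq_inv_of_mul_eq_one_left h
  have h2 := (N_comm hA hc (N_conj a ((N A).inv_mem hn))).eq
  have h3 := (N_comm hA (N_conj a hn) hn).eq
  have e1 : b * e a n * b⁻¹ = (b * a * b⁻¹ * a⁻¹) * (a * (b * n * b⁻¹) * a⁻¹) *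
      (b * a * b⁻¹ * a⁻¹)⁻¹ * (b * n * b⁻¹)⁻¹ := by simp only [e]; group
  rw [e1, h1, h2, e, inv_inv, mul_inv_cancel_right, mul_assoc, ← mul_assoc n, ← h3]
  group

end

theorem proj (A B : Type) [Group A] [Group B] (hA : Laws A) (π : A →* B)
    (hπ : Function.Surjective π) (φ : P →* B) : ∃ ψ : P →* A, π.comp ψ = φ := by
  choose s hs using hπ
  have h4 : ∀ y : A, y ^ 4 ∈ N A := fun y => by
    have := sq_mem (y ^ 2)
    rwa [← pow_mul] at this
  obtain ⟨ψ, h1, h2⟩ := exists_hom hA (fun k => s (φ (x k)))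
    (fun t => e (s (φ (x t.1.1.1))) (e (s (φ (x t.1.1.2))) (s (φ (z t)) ^ 4)))
    (fun t => N_cube hA (e_mem _ (e_mem _ (h4 _))))
    (fun t => e_inv hA _ (e_mem _ (h4 _)))
    (fun t => e_inv2 hA _ _ (e_mem _ (h4 _)) (e_inv hA _ (h4 _)))
  refine ⟨ψ, hom_ext (fun k => by simp [h1, hs]) fun t => ?_⟩
  have a1 : z t ^ 4 = z t := by rw [pow_succ, z3, one_mul]
  have a2 : ∀ y : P, y * z t * y⁻¹ * z t = 1 → e y (z t) = z t := by
    intro y hy
    rw [e, eq_inv_of_mul_eq_one_left hy, ← mul_inv_rev, inv_eq_iff_mul_eq_one, ← z3 t, pow_three']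
  have a3 : e (x t.1.1.1) (e (x t.1.1.2) (z t ^ 4)) = z t := by
    rw [a1, a2 _ (zx2 t), a2 _ (zx1 t)]
  conv_rhs => rw [← a3]
  simp [h2, e, hs]

/-! ### characters -/

theorem chi_z (χ : P →* ℤˣ) (t : Z) : χ (z t) = 1 := by
  have : χ (z t) ^ 3 = 1 := by rw [← map_pow, z3, map_one]
  revert this; generalize χ (z t) = u; revert u; decide

theorem chi_ext {χ χ' : P →* ℤˣ} (h : ∀ k, χ (x k) = χ' (x k)) : χ = χ' :=
  hom_ext h fun t => by rw [chi_z, chi_z]

def Thin (χ : P →* ℤˣ) : Prop := ∀ a b, χ (x a) = -1 → χ (x b) = -1 → a = b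

def Fib (χ : P →* ℤˣ) : Type := {f : P →* S3 // Equiv.Perm.sign.comp f = χ}

theorem small_of_thin {χ : P →* ℤˣ} (h : Thin χ) : #(Fib χ) ≤ #T := by
  have key : ∀ f : Fib χ, ∀ t, f.1 (z t) = 1 := by
    intro f t
    have aux : ∀ a c : S3, Equiv.Perm.sign a ≠ -1 → a * c * a⁻¹ * c = 1 → c ^ 3 = 1 → c = 1 := by
      decide
    have hs : ∀ g, Equiv.Perm.sign (f.1 g) = χ g := DFunLike.congr_fun f.2
    have h3 : f.1 (z t) ^ 3 = 1 := by rw [← map_pow, z3, map_one]
    by_cases h1 : χ (x t.1.1.1) = -1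
    · refine aux (f.1 (x t.1.1.2)) _ (fun h2 => t.1.2 (h _ _ h1 (hs _ ▸ h2))) ?_ h3
      simpa using congrArg f.1 (zx2 t)
    · refine aux (f.1 (x t.1.1.1)) _ (hs _ ▸ h1) ?_ h3
      simpa using congrArg f.1 (zx1 t)
  refine mk_le_of_injective (f := fun (f : Fib χ) (k : K) => f.1 (x k)) fun f g hfg => ?_
  exact Subtype.ext (hom_ext (congrFun hfg) fun t => by rw [key, key])

theorem thin_of_small {χ : P →* ℤˣ} (h : #(Fib χ) ≤ #T) : Thin χ := by
  classical
  intro a b ha hb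
  by_contra hab
  let c : S3 := Equiv.swap 0 1 * Equiv.swap 1 2
  have : ∀ U : Set T, ∃ f : Fib χ, ∀ t : T, f.1 (z (⟨(a, b), hab⟩, t)) = if t ∈ U then c else 1 := by
    intro U
    obtain ⟨f, h1, h2⟩ := exists_hom laws_S3 (fun k => if χ (x k) = -1 then Equiv.swap 0 1 else 1)
      (fun t => if t.1 = ⟨(a, b), hab⟩ ∧ t.2 ∈ U then c else 1)
      (fun t => by split_ifs <;> decide)
      (fun t => by
        by_cases ht : t.1 = ⟨(a, b), hab⟩ ∧ t.2 ∈ U
        · rw [if_pos ht, ht.1, if_pos ha]; decide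
        · rw [if_neg ht]; simp)
      (fun t => by
        by_cases ht : t.1 = ⟨(a, b), hab⟩ ∧ t.2 ∈ U
        · rw [if_pos ht, ht.1, if_pos hb]; decide
        · rw [if_neg ht]; simp)
    refine ⟨⟨f, chi_ext fun k => ?_⟩, fun t => by simp [h2]⟩
    rw [MonoidHom.comp_apply, h1]
    rcases Int.units_eq_one_or (χ (x k)) with h | h <;> simp [h]
  choose F hF using this
  have hinj : Function.Injective F := by
    intro U U' hU
    ext t
    have h1 := hF U t
    rw [hU, hF] at h1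
    have hc : c ≠ 1 := by decide
    by_cases h2 : t ∈ U <;> by_cases h3 : t ∈ U' <;> simp_all [hc.symm]
  have := (mk_le_of_injective hinj).trans h
  rw [mk_set] at this
  exact absurd this (not_le.2 (cantor _))

theorem exists_delta (a : K) : ∃ δ : P →* ℤˣ, δ (x a) = -1 ∧ ∀ b, δ (x b) = -1 → b = a := by
  classical
  obtain ⟨f, h1, -⟩ := exists_hom laws_U (fun k => if k = a then -1 else 1) (fun _ => 1)
    (by simp) (fun _ => by simp only [mul_one, mul_inv_cancel])
    (fun _ => by simp only [mul_one, mul_inv_cancel])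
  refine ⟨f, by simp [h1], fun b hb => ?_⟩
  by_contra h
  rw [h1, if_neg h] at hb
  exact absurd hb (by decide)

noncomputable def δ (a : K) : P →* ℤˣ := (exists_delta a).choose
theorem δ_self (a : K) : δ a (x a) = -1 := (exists_delta a).choose_spec.1
theorem δ_eq {a b : K} (h : δ a (x b) = -1) : b = a := (exists_delta a).choose_spec.2 b h
theorem δ_thin (a : K) : Thin (δ a) := fun _ _ h1 h2 => (δ_eq h1).trans (δ_eq h2).symm
theorem δ_inj : Function.Injective δ := fun a _ h => δ_eq (h ▸ δ_self a)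

theorem not_countable {H : Type} [Group H] (ι : H →* P) (s : Set H) (hs : s.Countable)
    (hs' : Subgroup.closure s = ⊤) (h : Function.Injective fun a => (δ a).comp ι) : False := by
  obtain ⟨f, hf⟩ := Set.countable_iff_exists_subset_range.1 hs
  refine Function.cantor_injective (fun (a : K) (n : ℕ) => δ a (ι (f n))) fun a b hab => h ?_
  refine MonoidHom.eq_of_eqOn_dense hs' fun y hy => ?_
  obtain ⟨n, rfl⟩ := hf hy
  exact congrFun hab n

theorem not_fg : ¬ Group.FG P := by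
  intro h
  obtain ⟨s, hs, hs'⟩ := Group.fg_iff.1 h
  exact not_countable (MonoidHom.id P) s hs'.countable hs δ_inj

theorem not_coprod (I : Type) (H : I → Type) [∀ i, Group (H i)] (ι : ∀ i, H i →* P)
    (hc : ∀ i, ∃ s : Set (H i), s.Countable ∧ Subgroup.closure s = ⊤)
    (hu : ∀ (B : Type) [Group B], Laws B →
      ∀ g : ∀ i, H i →* B, ∃! θ : P →* B, ∀ i, θ.comp (ι i) = g i) : False := by
  classical
  have uniq : ∀ (B : Type) [Group B], Laws B → ∀ θ θ' : P →* B,
      (∀ i, θ.comp (ι i) = θ'.comp (ι i)) → θ = θ' := fun B _ hB θ θ' h =>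
    (hu B hB fun i => θ'.comp (ι i)).unique h fun _ => rfl
  have mix : ∀ (B : Type) [Group B], Laws B → ∀ (j : I) (θ θ' : P →* B), ∃ η : P →* B,
      η.comp (ι j) = θ.comp (ι j) ∧ ∀ i, i ≠ j → η.comp (ι i) = θ'.comp (ι i) := by
    intro B _ hB j θ θ'
    obtain ⟨η, hη, -⟩ := hu B hB fun i => if i = j then θ.comp (ι i) else θ'.comp (ι i)
    exact ⟨η, by simp [hη], fun i hi => by simp [hη, hi]⟩
  have hne : ∀ χ, Nonempty (Fib χ) := fun χ =>
    (proj S3 ℤˣ laws_S3 Equiv.Perm.sign (Equiv.Perm.sign_surjective _) χ).elim fun f hf => ⟨⟨f, hf⟩⟩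
  have thin_mix : ∀ (j : I) (χ χ' η : P →* ℤˣ), Thin χ → Thin χ' →
      η.comp (ι j) = χ.comp (ι j) → (∀ i, i ≠ j → η.comp (ι i) = χ'.comp (ι i)) → Thin η := by
    intro j χ χ' η h1 h2 h3 h4
    obtain ⟨f0⟩ := hne χ
    obtain ⟨f0'⟩ := hne χ'
    have a1 : ∀ f : Fib η, ∃ g : Fib χ, g.1.comp (ι j) = f.1.comp (ι j) := by
      intro f
      obtain ⟨g, g1, g2⟩ := mix S3 laws_S3 j f.1 f0.1
      refine ⟨⟨g, uniq _ laws_U _ _ fun i => ?_⟩, g1⟩
      by_cases hi : i = j
      · subst hi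
        rw [MonoidHom.comp_assoc, g1, ← MonoidHom.comp_assoc, f.2, h3]
      · rw [MonoidHom.comp_assoc, g2 i hi, ← MonoidHom.comp_assoc, f0.2]
    have a2 : ∀ f : Fib η, ∃ g : Fib χ', ∀ i, i ≠ j → g.1.comp (ι i) = f.1.comp (ι i) := by
      intro f
      obtain ⟨g, g1, g2⟩ := mix S3 laws_S3 j f0'.1 f.1
      refine ⟨⟨g, uniq _ laws_U _ _ fun i => ?_⟩, g2⟩
      by_cases hi : i = j
      · subst hi
        rw [MonoidHom.comp_assoc, g1, ← MonoidHom.comp_assoc, f0'.2]
      · rw [MonoidHom.comp_assoc, g2 i hi, ← MonoidHom.comp_assoc, f.2, h4 i hi]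
    choose F1 hF1 using a1
    choose F2 hF2 using a2
    have hinj : Function.Injective fun f => (F1 f, F2 f) := by
      intro f g hfg
      simp only [Prod.mk.injEq] at hfg
      refine Subtype.ext (uniq _ laws_S3 _ _ fun i => ?_)
      by_cases hi : i = j
      · subst hi; rw [← hF1, ← hF1, hfg.1]
      · rw [← hF2 _ i hi, ← hF2 _ i hi, hfg.2]
    apply thin_of_small
    refine (mk_le_of_injective hinj).trans ?_
    rw [mk_prod, lift_id, lift_id, ← mul_eq_self (aleph0_le_mk T)]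
    exact mul_le_mul' (small_of_thin h1) (small_of_thin h2)
  have thin1 : Thin 1 := fun a b h => absurd h (by simp)
  have same : ∀ a b i j, (δ a).comp (ι i) ≠ 1 → (δ b).comp (ι j) ≠ 1 → i = j := by
    intro a b i j ha hb
    by_contra hij
    obtain ⟨χ1, p1, p2⟩ := mix _ laws_U i (δ a) 1
    obtain ⟨χ2, q1, q2⟩ := mix _ laws_U j (δ b) 1
    have t1 := thin_mix i _ _ χ1 (δ_thin a) thin1 p1 p2
    have t2 := thin_mix j _ _ χ2 (δ_thin b) thin1 q1 q2
    have t3 := thin_mix i _ _ (χ1 * χ2) t1 t2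
      (by rw [MonoidHom.mul_comp, q2 i hij]; simp)
      (fun k hk => by rw [MonoidHom.mul_comp, p2 k hk]; simp)
    have ex : ∀ χ : P →* ℤˣ, χ ≠ 1 → ∃ k, χ (x k) = -1 := by
      intro χ h
      by_contra h'
      exact h (chi_ext fun k => (Int.units_eq_one_or _).resolve_right fun h2 => h' ⟨k, h2⟩)
    obtain ⟨g1, hg1⟩ := ex χ1 (by rintro rfl; exact ha (by simpa using p1.symm))
    obtain ⟨g2, hg2⟩ := ex χ2 (by rintro rfl; exact hb (by simpa using q1.symm))
    have hne : g1 ≠ g2 := by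
      rintro rfl
      have : χ1 = χ2 := chi_ext fun k => by
        rcases Int.units_eq_one_or (χ1 (x k)) with h | h <;>
          rcases Int.units_eq_one_or (χ2 (x k)) with h' | h'
        · rw [h, h']
        · rw [t2 _ _ h' hg2, hg1, hg2]
        · rw [t1 _ _ h hg1, hg1, hg2]
        · rw [h, h']
      rw [this, q2 i hij] at p1
      exact ha (by simpa using p1.symm)
    have b1 : χ2 (x g1) = 1 :=
      (Int.units_eq_one_or _).resolve_right fun h => hne (t2 _ _ h hg2)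
    have b2 : χ1 (x g2) = 1 :=
      (Int.units_eq_one_or _).resolve_right fun h => hne (t1 _ _ hg1 h)
    exact hne (t3 _ _ (by simp [hg1, b1]) (by simp [hg2, b2]))
  obtain ⟨i0, hi0⟩ : ∃ i, (δ ∅).comp (ι i) ≠ 1 := by
    by_contra h
    push Not at h
    have := uniq _ laws_U (δ ∅) 1 fun i => by simp [h i]
    have h2 := δ_self ∅
    rw [this] at h2
    exact absurd h2 (by simp)
  obtain ⟨s, hs, hs'⟩ := hc i0
  refine not_countable (ι i0) s hs hs' fun a b hab => δ_inj (uniq _ laws_U _ _ fun i => ?_)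
  by_cases hi : i = i0
  · subst hi; exact hab
  · have aux : ∀ a, (δ a).comp (ι i) = 1 := fun a => by
      by_contra h
      exact hi (same a ∅ i i0 h hi0)
    rw [aux, aux]

end Pool.Agent.H72.ProjVar
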