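import Mathlib
import Pool.Agent.H72.Pu1

namespace H72Pu

open Finset

/-- `S n` is the sum of the `2n` smallest primes -/
noncomputable def S (n : ℕ) : ℕ := ∑ i ∈ range (2 * n), Nat.nth Nat.Prime i

/-- the number of primes among `S 1, …, S n` -/
noncomputable def piS (n : ℕ) : ℕ := ((Icc 1 n).filter fun k => (S k).Prime).card

def Inv (X : ℕ) (b : Bool) (s u : ℕ) : Prop :=
  ∃ k g, u = k + 4294967296 * g ∧ Nat.count Nat.Prime X = 2 * k + b.toNat ∧
    s = ∑ i ∈ range (Nat.count Nat.Prime X), Nat.nth Nat.Prime i ∧ piS k ≤ g ∧ 5000 < s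

theorem piS_succ (k : ℕ) : piS (k + 1) = piS k + if (S (k + 1)).Prime then 1 else 0 := by
  unfold piS
  rw [← Finset.insert_Icc_right_eq_Icc_add_one (by omega), Finset.filter_insert]
  split_ifs with h
  · rw [Finset.card_insert_of_notMem (by simp)]
  · simp

theorem inv_np {X b s u} (h : ¬ X.Prime) (I : Inv X b s u) : Inv (X + 1) b s u := by
  unfold Inv at *
  rw [Nat.count_succ, if_neg h, add_zero]
  exact I

theorem inv_range {X X' b s u} (hle : X ≤ X') (h : ∀ x, X ≤ x → x < X' → ¬ x.Prime)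
    (I : Inv X b s u) : Inv X' b s u := by
  induction X', hle using Nat.le_induction with
  | base => exact I
  | succ Z hZ ih =>
    exact inv_np (h Z hZ (by omega)) (ih fun x h1 h2 => h x h1 (by omega))

theorem inv_f {X s u} (h : X.Prime) (I : Inv X false s u) : Inv (X + 1) true (s + X) u := by
  obtain ⟨k, g, h1, h2, h3, h4, h5⟩ := I
  refine ⟨k, g, h1, ?_, ?_, h4, by omega⟩
  · rw [Nat.count_succ, if_pos h, h2]; simp
  · rw [Nat.count_succ, if_pos h, Finset.sum_range_succ, Nat.nth_count h, h3]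

theorem inv_t {X s u} (h : X.Prime) (I : Inv X true s u) :
    Inv (X + 1) false (s + X) (u + 1 + 4294967296) ∧
      (¬ (s + X).Prime → Inv (X + 1) false (s + X) (u + 1)) ∧ 5000 < s := by
  obtain ⟨k, g, h1, h2, h3, h4, h5⟩ := I
  have c1 : Nat.count Nat.Prime (X + 1) = 2 * (k + 1) + false.toNat := by
    rw [Nat.count_succ, if_pos h, h2]; simp; ring
  have c2 : s + X = ∑ i ∈ range (Nat.count Nat.Prime (X + 1)), Nat.nth Nat.Prime i := by
    rw [Nat.count_succ, if_pos h, Finset.sum_range_succ, Nat.nth_count h, h3]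
  have c3 : S (k + 1) = s + X := by
    rw [c2, c1]; simp [S]
  refine ⟨⟨k + 1, g + 1, by omega, c1, c2, ?_, by omega⟩,
    fun hn => ⟨k + 1, g, by omega, c1, c2, ?_, by omega⟩, h5⟩
  · rw [piS_succ]; split_ifs <;> omega
  · rw [piS_succ, c3, if_neg hn]; omega

theorem frc_eq (x : ℕ) (k : ℕ → Bool) : frc x k = k x := by cases x <;> rfl

theorem pp_dvd : PP ∣ Nat.factorial 5000 := Nat.dvd_of_mod_eq_zero (by decide +kernel)

theorem np_gcd {s : ℕ} (h5 : 5000 < s) (h : Nat.gcd s PP ≠ 1) : ¬ s.Prime := by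
  intro hp
  have h1 : s ∣ PP := by
    by_contra hn
    exact h ((Nat.Prime.coprime_iff_not_dvd hp).2 hn)
  have := (Nat.Prime.dvd_factorial hp).1 (h1.trans pp_dvd)
  omega

theorem st_mod (S x e j : ℕ) (h : x ≡ 2 ^ (e >>> (j + 6)) [MOD S]) :
    Nat.mod (Nat.shiftLeft (Nat.pow x 64) (Nat.land (Nat.shiftRight e j) 63)) S
      ≡ 2 ^ (e >>> j) [MOD S] := by
  have e1 : Nat.mod (Nat.shiftLeft (Nat.pow x 64) (Nat.land (Nat.shiftRight e j) 63)) S =
      (x ^ 64 * 2 ^ ((e >>> j) &&& (2 ^ 6 - 1))) % S := by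
    rw [← Nat.shiftLeft_eq]; rfl
  rw [e1, Nat.and_two_pow_sub_one_eq_mod]
  refine (Nat.mod_modEq _ _).trans ?_
  have e2 : e >>> j = (e >>> (j + 6)) * 64 + (e >>> j) % 2 ^ 6 := by
    rw [Nat.shiftRight_add, Nat.shiftRight_eq_div_pow (e >>> j) 6]
    omega
  conv_rhs => rw [e2, pow_add, pow_mul]
  exact (h.pow 64).mul_right _

theorem pw_mod (S e : ℕ) : pw S e ≡ 2 ^ e [MOD S] := by
  have h0 : Nat.shiftLeft 1 (Nat.shiftRight e 42) ≡ 2 ^ (e >>> (36 + 6)) [MOD S] := by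
    have : Nat.shiftLeft 1 (Nat.shiftRight e 42) = 1 <<< (e >>> 42) := rfl
    rw [this, Nat.one_shiftLeft]
  exact st_mod S _ e 0 (st_mod S _ e 6 (st_mod S _ e 12 (st_mod S _ e 18 (st_mod S _ e 24
    (st_mod S _ e 30 (st_mod S _ e 36 h0))))))

theorem pw_lt (S e : ℕ) (h : 0 < S) : pw S e < S := Nat.mod_lt _ h

theorem np_fer {s : ℕ} (h5 : 5000 < s) (h : pw s (s - 1) ≠ 1) : ¬ s.Prime := by
  intro hp
  have hc : Nat.Coprime 2 s := (Nat.coprime_primes Nat.prime_two hp).2 (by omega)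
  have h1 := Nat.ModEq.pow_totient hc
  rw [Nat.totient_prime hp] at h1
  have h2 := (pw_mod s (s - 1)).trans h1
  exact h (Nat.ModEq.eq_of_lt_of_lt h2 (pw_lt _ _ (by omega)) (by omega))

def Tb (T Y : ℕ) : Prop := ∀ i, 5 ≤ i → i < 512 →
  Nat.land (Nat.shiftRight T (Nat.mod (2 ^ (i + 1) - 1) 16736)) 2147483647 = Y + 2 * i

theorem tb_chk : ∀ i < 512, 5 ≤ i →
    (TB / 2 ^ ((2 ^ (i + 1) - 1) % 16736)) % 2 ^ 31 = 2 * i ∧
    (ON / 2 ^ ((2 ^ (i + 1) - 1) % 16736)) % 2 ^ 31 = 1 ∧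
    TB % 2 ^ ((2 ^ (i + 1) - 1) % 16736) + 2 ^ 30 * (ON % 2 ^ ((2 ^ (i + 1) - 1) % 16736)) <
      2 ^ ((2 ^ (i + 1) - 1) % 16736) := by decide +kernel

theorem tb_aux (A B Y o c : ℕ) (hY : Y < 2 ^ 30) (hc : c < 1024) (h1 : (A / 2 ^ o) % 2 ^ 31 = c)
    (h2 : (B / 2 ^ o) % 2 ^ 31 = 1) (h3 : A % 2 ^ o + 2 ^ 30 * (B % 2 ^ o) < 2 ^ o) :
    ((A + Y * B) / 2 ^ o) % 2 ^ 31 = Y + c := by
  have hp : 0 < 2 ^ o := by positivity
  have e : A + Y * B = (A % 2 ^ o + Y * (B % 2 ^ o)) + 2 ^ o * (A / 2 ^ o + Y * (B / 2 ^ o)) := by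
    conv_lhs => rw [← Nat.mod_add_div A (2 ^ o), ← Nat.mod_add_div B (2 ^ o)]
    ring
  have hl : A % 2 ^ o + Y * (B % 2 ^ o) < 2 ^ o :=
    lt_of_le_of_lt (Nat.add_le_add_left (Nat.mul_le_mul_right _ hY.le) _) h3
  rw [e, Nat.add_mul_div_left _ _ hp, Nat.div_eq_of_lt hl, zero_add, Nat.add_mod, Nat.mul_mod, h1,
    h2, mul_one]
  omega

theorem tb_ok (Y : ℕ) (hY : Y < 2 ^ 30) : Tb (Nat.add TB (Nat.mul Y ON)) Y := by
  intro i h5 hi
  obtain ⟨h1, h2, h3⟩ := tb_chk i hi h5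
  have := tb_aux TB ON Y _ (2 * i) hY (by omega) h1 h2 h3
  rw [← this, ← Nat.and_two_pow_sub_one_eq_mod, ← Nat.shiftRight_eq_div_pow]
  rfl

def Wd (Y H j w : ℕ) : Prop := ∀ i, w.testBit i = true ↔ (j ≤ i ∧ i < H ∧ (Y + 2 * i).Prime)

theorem np_gap {Y j i x : ℕ} (hY : Y % 2 = 1) (hj : 5 ≤ j)
    (h : ∀ t, j ≤ t → t < i → ¬ (Y + 2 * t).Prime) (h1 : Y + 2 * j - 1 ≤ x) (h2 : x < Y + 2 * i) :
    ¬ x.Prime := by
  intro hp
  rcases hp.eq_two_or_odd with h3 | h3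
  · omega
  · have : x = Y + 2 * ((x - Y) / 2) := by omega
    rw [this] at hp
    exact h _ (by omega) (by omega) hp

theorem low_bit (m : ℕ) : ∃ i a, m + 1 = 2 ^ (i + 1) * a + 2 ^ i ∧ m = 2 ^ (i + 1) * a + (2 ^ i - 1) := by
  obtain ⟨i, c, hc, h⟩ := Nat.exists_eq_two_pow_mul_odd (n := m + 1) (by omega)
  obtain ⟨a, rfl⟩ := hc
  have hp : 0 < 2 ^ i := by positivity
  have e : m + 1 = 2 ^ (i + 1) * a + 2 ^ i := by rw [h]; ring
  exact ⟨i, a, e, by omega⟩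

theorem wd_succ {Y H j m : ℕ} (h : Wd Y H j (m + 1)) :
    ∃ i, j ≤ i ∧ i < H ∧ (Y + 2 * i).Prime ∧ (∀ t, j ≤ t → t < i → ¬ (Y + 2 * t).Prime) ∧
      Wd Y H (i + 1) (Nat.land (m + 1) m) ∧ Nat.xor (m + 1) m = 2 ^ (i + 1) - 1 := by
  obtain ⟨i, a, e1, e2⟩ := low_bit m
  have hp : 0 < 2 ^ i := by positivity
  have l1 : 2 ^ i < 2 ^ (i + 1) := by rw [pow_succ]; omega
  have l2 : 2 ^ i - 1 < 2 ^ (i + 1) := by omega
  have b1 : ∀ t, (m + 1).testBit t = if t < i + 1 then decide (i = t) else a.testBit (t - (i + 1)) := by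
    intro t
    rw [e1, Nat.testBit_two_pow_mul_add _ l1, Nat.testBit_two_pow]
  have b2 : ∀ t, m.testBit t = if t < i + 1 then decide (t < i) else a.testBit (t - (i + 1)) := by
    intro t
    conv_lhs => rw [e2]
    rw [Nat.testBit_two_pow_mul_add _ l2, Nat.testBit_two_pow_sub_one]
  have hi := (h i).1 (by rw [b1]; simp)
  refine ⟨i, hi.1, hi.2.1, hi.2.2, fun t h1 h2 hp => ?_, fun t => ?_, ?_⟩
  · have := (h t).2 ⟨h1, by omega, hp⟩
    rw [b1, if_pos (by omega)] at this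
    simp at this
    omega
  · have e : Nat.land (m + 1) m = (m + 1) &&& m := rfl
    rw [e, Nat.testBit_and, b2]
    by_cases ht : t < i + 1
    · rw [if_pos ht, b1, if_pos ht]
      simp only [Bool.and_eq_true, decide_eq_true_eq]
      constructor
      · intro hh; omega
      · intro hh; omega
    · have := h t
      rw [b1, if_neg ht] at this
      rw [if_neg ht, b1, if_neg ht, Bool.and_self, this]
      constructor
      · intro hh; exact ⟨by omega, hh.2⟩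
      · intro hh; exact ⟨by omega, hh.2⟩
  · have e : Nat.xor (m + 1) m = (m + 1) ^^^ m := rfl
    rw [e]
    apply Nat.eq_of_testBit_eq
    intro t
    rw [Nat.testBit_xor, b1, b2, Nat.testBit_two_pow_sub_one]
    by_cases ht : t < i + 1
    · rw [if_pos ht, if_pos ht]
      by_cases h2 : i = t
      · subst h2; simp
      · have : t < i := by omega
        simp [h2, this, ht]
    · simp [ht]

end H72Pu
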