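import Pool.Agent.H72.Pu2

namespace H72Pu

open Finset

theorem wd_zero {Y H j b s u} (hY : Y % 2 = 1) (hj : 5 ≤ j) (hH : j ≤ H) (h : Wd Y H j 0)
    (I : Inv (Y + 2 * j - 1) b s u) : Inv (Y + 2 * H - 1) b s u := by
  refine inv_range (by omega) (fun x h1 h2 => np_gap (i := H) hY hj (fun t h3 h4 hp => ?_) h1
    (by omega)) I
  have := (h t).2 ⟨h3, h4, hp⟩
  simp at this

section
variable {T Y H : ℕ} {k : Bool → ℕ → ℕ → Bool} {Q : Prop} (hT : Tb T Y) (hY : Y % 2 = 1)
  (hH : H ≤ 512) (hk : ∀ b s u, k b s u = true → Inv (Y + 2 * H - 1) b s u → Q)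
include hT hY hH hk

theorem e1_ok (f : ℕ) (ih : ℕ → ℕ → ℕ → Bool)
    (hih : ∀ j w s u v, 5 ≤ j → j ≤ H → Wd Y H j w → v + 1 = u + f → ih w s v = true →
      Inv (Y + 2 * j - 1) false s u → Q) (j w s u v : ℕ) (hj : 5 ≤ j) (hjH : j ≤ H)
    (hw : Wd Y H j w) (hv : v = u + f) (h : e1 T k f ih v w s = true)
    (I : Inv (Y + 2 * j - 1) true s u) : Q := by
  cases w with
  | zero =>
    have h' : k true s (v - f) = true := h
    rw [hv, Nat.add_sub_cancel] at h'
    exact hk _ _ _ h' (wd_zero hY hj hjH hw I)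
  | succ m =>
    obtain ⟨i, h1, h2, h3, h4, h5, h6⟩ := wd_succ hw
    have h' : e2 ih v (Nat.land (m + 1) m) (s + Nat.land (Nat.shiftRight T
      (Nat.mod (Nat.xor (m + 1) m) 16736)) 2147483647) = true := h
    rw [h6, hT i (by omega) (by omega)] at h'
    have I1 : Inv (Y + 2 * i) true s u :=
      inv_range (by omega) (fun x a1 a2 => np_gap hY hj h4 a1 a2) I
    obtain ⟨J1, J2, J3⟩ := inv_t h3 I1
    have eP : Y + 2 * i + 1 = Y + 2 * (i + 1) - 1 := by omega
    rw [eP] at J1 J2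
    unfold e2 at h'
    cases hb : Nat.beq (Nat.gcd (s + (Y + 2 * i)) PP) 1 with
    | false =>
      rw [hb] at h'
      exact hih (i + 1) _ _ (u + 1) v (by omega) h2 h5 (by omega) h'
        (J2 (np_gcd (by omega) (Nat.ne_of_beq_eq_false hb)))
    | true =>
      rw [hb] at h'
      have h'' : e3 ih v (Nat.land (m + 1) m) (s + (Y + 2 * i)) = true := h'
      unfold e3 at h''
      cases hc : Nat.beq (pw (s + (Y + 2 * i)) (Nat.sub (s + (Y + 2 * i)) 1)) 1 with
      | false =>
        rw [hc] at h''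
        exact hih (i + 1) _ _ (u + 1) v (by omega) h2 h5 (by omega) h''
          (J2 (np_fer (by omega) (Nat.ne_of_beq_eq_false hc)))
      | true =>
        rw [hc] at h''
        exact hih (i + 1) _ _ (u + 1 + 4294967296) (v + 4294967296) (by omega) h2 h5 (by omega)
          h'' J1

theorem evn_ok (fuel : ℕ) : ∀ j w s u v, 5 ≤ j → j ≤ H → Wd Y H j w → v + 1 = u + fuel →
    evn T k fuel w s v = true → Inv (Y + 2 * j - 1) false s u → Q := by
  induction fuel with
  | zero =>
    intro j w s u v _ _ _ _ h _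
    exact absurd h (by unfold evn; simp)
  | succ f ih =>
    intro j w s u v hj hjH hw hv h I
    cases w with
    | zero =>
      have h' : k false s (v - f) = true := h
      have : v - f = u := by omega
      rw [this] at h'
      exact hk _ _ _ h' (wd_zero hY hj hjH hw I)
    | succ m =>
      obtain ⟨i, h1, h2, h3, h4, h5, h6⟩ := wd_succ hw
      have h' : e1 T k f (evn T k f) v (Nat.land (m + 1) m) (s + Nat.land (Nat.shiftRight T
        (Nat.mod (Nat.xor (m + 1) m) 16736)) 2147483647) = true := h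
      rw [h6, hT i (by omega) (by omega)] at h'
      have I1 : Inv (Y + 2 * i) false s u :=
        inv_range (by omega) (fun x a1 a2 => np_gap hY hj h4 a1 a2) I
      have J := inv_f h3 I1
      have eP : Y + 2 * i + 1 = Y + 2 * (i + 1) - 1 := by omega
      rw [eP] at J
      exact e1_ok hT hY hH hk f _ ih (i + 1) _ _ u v (by omega) h2 h5 (by omega) h' J

theorem leaf_ok (w : ℕ) (b : Bool) (s u : ℕ) (h5 : 5 ≤ H) (hw : Wd Y H 5 w)
    (h : leaf T k w b s u = true) (I : Inv (Y + 2 * 5 - 1) b s u) : Q := by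
  unfold leaf at h
  rw [frc_eq] at h
  cases b with
  | false => exact evn_ok hT hY hH hk 300 5 w s u (u + 299) le_rfl h5 hw (by omega) h I
  | true =>
    exact e1_ok hT hY hH hk 300 _ (evn_ok hT hY hH hk 300) 5 w s u (u + 300) le_rfl h5 hw rfl h I

end

theorem tree_ok (h : ℕ) (hh : h ≤ 507) (Q : Prop) (d : ℕ) : ∀ (X M : ℕ)
    (k : Bool → ℕ → ℕ → Bool) (b : Bool) (s u : ℕ), X % 2 = 0 → 10 ≤ X →
    X + 2 * (h * 2 ^ d) ≤ 2 ^ 30 →
    (∀ i, M.testBit i = true ↔ i < h * 2 ^ d ∧ (X + 2 * i + 1).Prime) →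
    (∀ b s u, k b s u = true → Inv (X + 2 * (h * 2 ^ d)) b s u → Q) →
    tree h d X M k b s u = true → Inv X b s u → Q := by
  induction d with
  | zero =>
    intro X M k b s u h2 h10 hb hM hk ht I
    have ht' : leaf (Nat.add TB (Nat.mul (X - 9) ON)) k (M <<< 5) b s u = true := ht
    simp only [pow_zero, mul_one] at hb hM hk
    refine leaf_ok (Y := X - 9) (H := h + 5) (tb_ok _ (by omega)) (by omega) (by omega)
      (fun b s u a1 a2 => hk b s u a1 ?_) _ b s u (by omega) (fun i => ?_) ht' ?_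
    · have : X + 2 * h = X - 9 + 2 * (h + 5) - 1 := by omega
      rw [this]; exact a2
    · rw [Nat.testBit_shiftLeft, Bool.and_eq_true, hM]
      simp only [ge_iff_le, decide_eq_true_eq]
      constructor
      · rintro ⟨a1, a2, a3⟩
        have : X - 9 + 2 * i = X + 2 * (i - 5) + 1 := by omega
        exact ⟨a1, by omega, this ▸ a3⟩
      · rintro ⟨a1, a2, a3⟩
        have : X - 9 + 2 * i = X + 2 * (i - 5) + 1 := by omega
        exact ⟨a1, by omega, this ▸ a3⟩
    · have : X - 9 + 2 * 5 - 1 = X := by omega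
      rw [this]; exact I
  | succ j ih =>
    intro X M k b s u h2 h10 hb hM hk ht I
    have ht' : tree h j X (M % (1 <<< (h <<< j))) (fun b' s' u' => tree h j (X + h <<< (j + 1))
      (M >>> (h <<< j)) k b' s' u') b s u = true := ht
    rw [Nat.one_shiftLeft, Nat.shiftLeft_eq, Nat.shiftLeft_eq] at ht'
    have e : h * 2 ^ (j + 1) = 2 * (h * 2 ^ j) := by ring
    rw [e] at hb hM hk ht'
    generalize h * 2 ^ j = W at *
    refine ih X _ _ b s u h2 h10 (by omega) (fun i => ?_) (fun b' s' u' a1 a2 => ?_) ht' I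
    · rw [Nat.testBit_mod_two_pow, Bool.and_eq_true, hM]
      simp only [decide_eq_true_eq]
      constructor
      · rintro ⟨a1, _, a3⟩; exact ⟨a1, a3⟩
      · rintro ⟨a1, a3⟩; exact ⟨a1, by omega, a3⟩
    · refine ih (X + 2 * W) _ k b' s' u' (by omega) (by omega) (by omega) (fun i => ?_)
        (fun b s u c1 c2 => hk b s u c1 ?_) a1 a2
      · rw [Nat.testBit_shiftRight, hM]
        have : X + 2 * (W + i) + 1 = X + 2 * W + 2 * i + 1 := by ring
        rw [this]
        constructor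
        · rintro ⟨a1, a3⟩; exact ⟨by omega, a3⟩
        · rintro ⟨a1, a3⟩; exact ⟨by omega, a3⟩
      · have : X + 2 * (2 * W) = X + 2 * W + 2 * W := by ring
        rw [this]; exact c2

theorem rep_ok (W q c fuel : ℕ) : ∀ r n, q ∣ n → W ≤ n * 2 ^ fuel →
    (∀ i, r.testBit i = true ↔ i < n ∧ i % q = c) →
    ∃ n', W ≤ n' ∧ ∀ i, (rep W fuel r n).testBit i = true ↔ i < n' ∧ i % q = c := by
  induction fuel with
  | zero =>
    intro r n _ h1 h2
    exact ⟨n, by simpa using h1, h2⟩
  | succ f ih =>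
    intro r n hq h1 h2
    have e : rep W (f + 1) r n = @Bool.rec (fun _ => ℕ) (rep W f (r ||| r <<< n) (n + n)) r
      (Nat.ble W n) := rfl
    rw [e]
    cases hb : Nat.ble W n with
    | true => exact ⟨n, Nat.le_of_ble_eq_true hb, h2⟩
    | false =>
      refine ih _ (n + n) (Dvd.dvd.add hq hq) (by rw [pow_succ] at h1; linarith) fun i => ?_
      rw [Nat.testBit_or, Nat.testBit_shiftLeft, Bool.or_eq_true, Bool.and_eq_true, h2, h2]
      simp only [ge_iff_le, decide_eq_true_eq]
      have key : n ≤ i → (i - n) % q = i % q := by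
        intro hi
        obtain ⟨t, rfl⟩ := hq
        conv_rhs => rw [← Nat.sub_add_cancel hi, Nat.add_mul_mod_self_left]
      constructor
      · rintro (⟨a1, a2⟩ | ⟨a1, a2, a3⟩)
        · exact ⟨by omega, a2⟩
        · exact ⟨by omega, key a1 ▸ a3⟩
      · rintro ⟨a1, a2⟩
        by_cases hi : i < n
        · exact Or.inl ⟨hi, a2⟩
        · exact Or.inr ⟨by omega, by omega, (key (by omega)).trans a2⟩

theorem msk_ok (X W q : ℕ) (hq : q % 2 = 1) (hW : W ≤ 2 ^ 30) (i : ℕ) (hi : i < W) :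
    (msk X W q).testBit i = true ↔ q ∣ X + 2 * i + 1 := by
  have hq0 : 0 < q := by omega
  obtain ⟨n', h1, h2⟩ := rep_ok W q (((X + 1) * (q / 2)) % q) 30
    (1 <<< (((X + 1) * (q / 2)) % q)) q dvd_rfl (hW.trans (Nat.le_mul_of_pos_left _ hq0)) (by
      intro t
      rw [Nat.one_shiftLeft, Nat.testBit_two_pow]
      simp only [decide_eq_true_eq]
      have := Nat.mod_lt ((X + 1) * (q / 2)) hq0
      constructor
      · rintro rfl; exact ⟨this, Nat.mod_mod _ _⟩
      · rintro ⟨a1, a2⟩; rw [← a2, Nat.mod_eq_of_lt a1])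
  have e : msk X W q = rep W 30 (1 <<< (((X + 1) * (q / 2)) % q)) q := rfl
  rw [e, h2]
  obtain ⟨t, rfl⟩ : ∃ t, q = 2 * t + 1 := ⟨q / 2, by omega⟩
  have e2 : (2 * t + 1) / 2 = t := by omega
  rw [e2]
  have e3 : i % (2 * t + 1) = ((X + 1) * t) % (2 * t + 1) ↔
      ((2 * t + 1 : ℕ) : ℤ) ∣ (((X + 1) * t : ℕ) : ℤ) - i := Nat.modEq_iff_dvd
  rw [e3, ← Int.natCast_dvd_natCast]
  push_cast
  constructor
  · rintro ⟨_, a, ha⟩
    exact ⟨X + 1 - 2 * a, by linear_combination (-2) * ha⟩
  · rintro ⟨a, ha⟩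
    exact ⟨by omega, t * a - i, by linear_combination t * ha⟩

theorem siev_ok (X W : ℕ) (L : List ℕ) (i : ℕ) :
    (siev X W L).testBit i = true ↔ ∃ q ∈ L, (msk X W q).testBit i = true := by
  induction L with
  | nil =>
    have : siev X W [] = 0 := rfl
    simp [this]
  | cons q L ih =>
    have : siev X W (q :: L) = msk X W q ||| siev X W L := rfl
    rw [this, Nat.testBit_or, Bool.or_eq_true, ih]
    simp

theorem run_ok (L : List ℕ) (h d X : ℕ) (b : Bool) (s u : ℕ) (b' : Bool) (s' u' : ℕ)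
    (hh : h ≤ 507) (h2 : X % 2 = 0) (h10 : 10 ≤ X) (hb : X + 2 * (h * 2 ^ d) ≤ 2 ^ 30)
    (hL1 : ∀ q ∈ L, q % 2 = 1 ∧ 1 < q ∧ q ≤ X)
    (hL2 : ∀ q, q.Prime → q % 2 = 1 → q * q < X + 2 * (h * 2 ^ d) → q ∈ L)
    (hr : run L h d X b s u b' s' u' = true) (I : Inv X b s u) :
    Inv (X + 2 * (h * 2 ^ d)) b' s' u' := by
  unfold run at hr
  rw [frc_eq, frc_eq] at hr
  have e0 : Nat.shiftLeft h d = h * 2 ^ d := Nat.shiftLeft_eq h d
  rw [e0] at hr
  refine tree_ok h hh _ d X _ _ b s u h2 h10 hb (fun i => ?_) (fun b1 s1 u1 a1 a2 => ?_) hr I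
  · generalize h * 2 ^ d = W at *
    have e : Nat.xor (Nat.mod (siev X W L) (Nat.shiftLeft 1 W)) (Nat.sub (Nat.shiftLeft 1 W) 1) =
        (siev X W L % (1 <<< W)) ^^^ (1 <<< W - 1) := rfl
    rw [e, Nat.one_shiftLeft, Nat.testBit_xor, Nat.testBit_mod_two_pow,
      Nat.testBit_two_pow_sub_one]
    by_cases hi : i < W
    · have key : (siev X W L).testBit i = true ↔ ¬ (X + 2 * i + 1).Prime := by
        rw [siev_ok]
        constructor
        · rintro ⟨q, hq, a⟩ hp
          obtain ⟨c1, c2, c3⟩ := hL1 q hq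
          rw [msk_ok X W q c1 (by omega) i hi] at a
          rcases (Nat.dvd_prime hp).1 a with c | c <;> omega
        · intro hn
          have hp := Nat.minFac_prime (n := X + 2 * i + 1) (by omega)
          have hd := Nat.minFac_dvd (X + 2 * i + 1)
          have hs := Nat.minFac_sq_le_self (n := X + 2 * i + 1) (by omega) hn
          have ho : (X + 2 * i + 1).minFac % 2 = 1 := by
            rcases hp.eq_two_or_odd with c | c
            · rw [c] at hd; omega
            · exact c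
          exact ⟨_, hL2 _ hp ho (by rw [sq] at hs; omega),
            (msk_ok X W _ ho (by omega) i hi).2 hd⟩
      by_cases hp : (X + 2 * i + 1).Prime
      · have : (siev X W L).testBit i = false := by
          rw [← Bool.not_eq_true, key]; exact fun c => c hp
        simp [hi, hp, this]
      · simp [hi, hp, key.2 hp]
    · simp [hi]
  · simp only [Bool.and_eq_true, beq_iff_eq] at a1
    obtain ⟨c1, c2, c3⟩ := a1
    rw [← Nat.eq_of_beq_eq_true c1, ← Nat.eq_of_beq_eq_true c2, ← c3]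
    exact a2

def LF (Q : ℕ) : List ℕ := (List.range Q).filter fun q =>
  q % 2 == 1 && (decide (1 < q) && (decide (q ≤ 113) || Nat.gcd q (Nat.factorial 113) == 1))

theorem LF1 (Q q : ℕ) (h : q ∈ LF Q) : q % 2 = 1 ∧ 1 < q ∧ q < Q := by
  simp only [LF, List.mem_filter, List.mem_range, Bool.and_eq_true, beq_iff_eq,
    decide_eq_true_eq] at h
  exact ⟨h.2.1, h.2.2.1, h.1⟩

theorem LF2 (Q q : ℕ) (hp : q.Prime) (ho : q % 2 = 1) (h : q < Q) : q ∈ LF Q := by
  simp only [LF, List.mem_filter, List.mem_range, Bool.and_eq_true, beq_iff_eq,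
    decide_eq_true_eq, Bool.or_eq_true]
  refine ⟨h, ho, hp.one_lt, ?_⟩
  by_cases h1 : q ≤ 113
  · exact Or.inl h1
  · exact Or.inr ((Nat.Prime.coprime_iff_not_dvd hp).2 fun c => h1 ((Nat.Prime.dvd_factorial hp).1 c))

theorem LL_eq : LF 12400 = LL := by decide +kernel

theorem runL_ok {X b s u X' b' s' u'} (h : runL X b s u X' b' s' u' = true) (I : Inv X b s u) :
    Inv X' b' s' u' := by
  simp only [runL, Bool.and_eq_true, Nat.beq_eq, Nat.ble_eq] at h
  obtain ⟨⟨a1, a2, a3, a4⟩, a5⟩ := h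
  have e : X' = X + 2 * (500 * 2 ^ 9) := by omega
  rw [e]
  refine run_ok LL 500 9 X b s u b' s' u' (by omega) a1 (by omega) (by omega) (fun q hq => ?_)
    (fun q hp ho hq => ?_) a5 I
  · obtain ⟨c1, c2, c3⟩ := LF1 _ _ (LL_eq ▸ hq)
    exact ⟨c1, c2, by omega⟩
  · rw [← LL_eq]
    refine LF2 _ _ hp ho ?_
    by_contra hc
    have := Nat.mul_le_mul (Nat.le_of_not_lt hc) (Nat.le_of_not_lt hc)
    omega

theorem sum_nth (X : ℕ) : ∑ i ∈ range (Nat.count Nat.Prime X), Nat.nth Nat.Prime i =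
    ∑ x ∈ range X, if x.Prime then x else 0 := by
  induction X with
  | zero => simp
  | succ X ih =>
    rw [Nat.count_succ, Finset.sum_range_succ]
    split_ifs with h
    · rw [Finset.sum_range_succ, Nat.nth_count h, ih]
    · simpa using ih

theorem inv0 : Inv 252 false 6081 115964117019 := by
  refine ⟨27, 27, by norm_num, ?_, ?_, ?_, by norm_num⟩
  · rw [Nat.count_eq_card_filter_range]; decide +kernel
  · rw [sum_nth]; decide +kernel
  · exact (Finset.card_filter_le _ _).trans (by simp)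

theorem r0 : run (LF 180) 500 5 252 false 6081 115964117019 true 52334852 1125281433281 = true := by
  decide +kernel

theorem inv1 : Inv 32252 true 52334852 1125281433281 :=
  run_ok (LF 180) 500 5 252 _ _ _ _ _ _ (by omega) (by omega) (by omega) (by omega)
    (fun q hq => by obtain ⟨c1, c2, c3⟩ := LF1 _ _ hq; exact ⟨c1, c2, by omega⟩)
    (fun q hp ho hq => LF2 _ _ hp ho (by nlinarith)) r0 inv0

end H72Pu
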