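import Pool.Agent.H72.Pu1

set_option linter.defProp false

namespace H72Pu

def r1 : runL 32252 true 52334852 1125281433281 544252 true 11669092476 9332963956657 = true := by
  decide +kernel
def r2 : runL 544252 true 11669092476 9332963956657 1056252 false 41731605581 16153372041539 = true := by
  decide +kernel
def r3 : runL 1056252 false 41731605581 16153372041539 1568252 true 89419007950 22411139409999 = true := by
  decide +kernel
def r4 : runL 1568252 true 89419007950 22411139409999 2080252 false 154192739737 28441273511343 = true := by
  decide +kernel
def r5 : runL 2080252 false 154192739737 28441273511343 2592252 true 235680224100 34119220294098 = true := by
  decide +kernel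
def r6 : runL 2592252 true 235680224100 34119220294098 3104252 true 333705363600 39741332501774 = true := by
  decide +kernel
def r7 : runL 3104252 true 333705363600 39741332501774 3616252 false 448147705367 45011257391000 = true := by
  decide +kernel
def r8 : runL 3616252 false 448147705367 45011257391000 4128252 true 578869211844 50311247051145 = true := by
  decide +kernel
def r9 : runL 4128252 true 578869211844 50311247051145 4640252 true 725615288408 55173150046953 = true := by
  decide +kernel
def r10 : runL 4640252 true 725615288408 55173150046953 5152252 true 888506256958 60297046047716 = true := by
  decide +kernel
def r11 : runL 5152252 true 888506256958 60297046047716 5664252 false 1066692325107 65352222571584 = true := by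
  decide +kernel
def r12 : runL 5664252 false 1066692325107 65352222571584 6176252 true 1261162804026 70300024913000 = true := by
  decide +kernel
def r13 : runL 6176252 true 1261162804026 70300024913000 6688252 true 1470765756230 75582834703374 = true := by
  decide +kernel
def r14 : runL 6688252 true 1470765756230 75582834703374 7200252 false 1697187171595 80603651488703 = true := by
  decide +kernel
def r15 : runL 7200252 false 1697187171595 80603651488703 7712252 false 1938262520993 85474144418533 = true := by
  decide +kernel
def r16 : runL 7712252 false 1938262520993 85474144418533 8224252 false 2194631798665 90305982642620 = true := by
  decide +kernel
def r17 : runL 8224252 false 2194631798665 90305982642620 8736252 true 2467320026178 95112051062921 = true := by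
  decide +kernel
def r18 : runL 8736252 true 2467320026178 95112051062921 9248252 false 2754545114399 99913824515820 = true := by
  decide +kernel

end H72Pu
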