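import Pool.Agent.H72.Pu1

set_option linter.defProp false

namespace H72Pu

def r19 : runL 9248252 false 2754545114399 99913824515820 9760252 true 3057379707002 104509439538471 = true := by
  decide +kernel
def r20 : runL 9760252 true 3057379707002 104509439538471 10272252 true 3374540828356 109216723710719 = true := by
  decide +kernel
def r21 : runL 10272252 true 3374540828356 109216723710719 10784252 true 3708534728386 113855288406261 = true := by
  decide +kernel
def r22 : runL 10784252 true 3708534728386 113855288406261 11296252 true 4057292828098 118661356826280 = true := by
  decide +kernel
def r23 : runL 11296252 true 4057292828098 118661356826280 11808252 false 4421302340729 123278446685235 = true := by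
  decide +kernel
def r24 : runL 11808252 false 4421302340729 123278446685235 12320252 false 4800348434487 127899831511440 = true := by
  decide +kernel
def r25 : runL 12320252 false 4800348434487 127899831511440 12832252 true 5194761303812 132443906926288 = true := by
  decide +kernel
def r26 : runL 12832252 true 5194761303812 132443906926288 13344252 false 5601986484015 137129716261781 = true := by
  decide +kernel
def r27 : runL 13344252 false 5601986484015 137129716261781 13856252 true 6026149945216 141699561480318 = true := by
  decide +kernel
def r28 : runL 13856252 true 6026149945216 141699561480318 14368252 false 6465123592271 146381075848511 = true := by
  decide +kernel
def r29 : runL 14368252 false 6465123592271 146381075848511 14880252 false 6918972616691 150757647538652 = true := by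
  decide +kernel
def r30 : runL 14880252 false 6918972616691 150757647538652 15392252 false 7386383536179 155159989032492 = true := by
  decide +kernel
def r31 : runL 15392252 false 7386383536179 155159989032492 15904252 false 7870762805043 159708359414433 = true := by
  decide +kernel
def r32 : runL 15904252 false 7870762805043 159708359414433 16416252 true 8368154367570 164458593259198 = true := by
  decide +kernel
def r33 : runL 16416252 true 8368154367570 164458593259198 16928252 false 8881938030403 169105747888879 = true := by
  decide +kernel
def r34 : runL 16928252 false 8881938030403 169105747888879 17440252 false 9411549971291 173576808859425 = true := by
  decide +kernel
def r35 : runL 17440252 false 9411549971291 173576808859425 17952252 true 9954799036976 177987740287766 = true := by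
  decide +kernel
def r36 : runL 17952252 true 9954799036976 177987740287766 18464252 true 10512265023316 182244052893410 = true := by
  decide +kernel

end H72Pu
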