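import Pool.Agent.H72.Pu1

set_option linter.defProp false

namespace H72Pu

def r182 : runL 92704252 true 240974919318670 745447411477957 93216252 true 243561626962236 749149673301022 = true := by
  decide +kernel
def r183 : runL 93216252 true 243561626962236 749149673301022 93728252 true 246164068504348 752907769698943 = true := by
  decide +kernel
def r184 : runL 93728252 true 246164068504348 752907769698943 94240252 true 248792240514314 756283614007581 = true := by
  decide +kernel
def r185 : runL 94240252 true 248792240514314 756283614007581 94752252 false 251424438132549 759887091582853 = true := by
  decide +kernel
def r186 : runL 94752252 false 251424438132549 759887091582853 95264252 false 254081981335783 763559288634919 = true := by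
  decide +kernel
def r187 : runL 95264252 false 254081981335783 763559288634919 95776252 true 256740569598310 767033917191299 = true := by
  decide +kernel
def r188 : runL 95776252 true 256740569598310 767033917191299 96288252 true 259417539136204 770701819276021 = true := by
  decide +kernel
def r189 : runL 96288252 true 259417539136204 770701819276021 96800252 false 262110840127047 774262347178354 = true := by
  decide +kernel
def r190 : runL 96800252 false 262110840127047 774262347178354 97312252 false 264806471856939 777732680767409 = true := by
  decide +kernel
def r191 : runL 97312252 false 264806471856939 777732680767409 97824252 true 267537112845474 781215899258458 = true := by
  decide +kernel
def r192 : runL 97824252 true 267537112845474 781215899258458 98336252 true 270258844165270 784759247291533 = true := by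
  decide +kernel
def r193 : runL 98336252 true 270258844165270 784759247291533 98848252 false 272998804528993 788203811076821 = true := by
  decide +kernel
def r194 : runL 98848252 false 272998804528993 788203811076821 99360252 true 275742115463338 792073576624357 = true := by
  decide +kernel
def r195 : runL 99360252 true 275742115463338 792073576624357 99872252 true 278513435588938 795470895769403 = true := by
  decide +kernel
def r196 : runL 99872252 true 278513435588938 795470895769403 100384252 true 281300994807418 798863919947163 = true := by
  decide +kernel
def r197 : runL 100384252 true 281300994807418 798863919947163 100896252 false 284083396990699 802540411966363 = true := by
  decide +kernel
def r198 : runL 100896252 false 284083396990699 802540411966363 101408252 false 286904921282059 806423062415894 = true := by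
  decide +kernel
def r199 : runL 101408252 false 286904921282059 806423062415894 101920252 true 289725802034544 810039424892999 = true := by
  decide +kernel

end H72Pu
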