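import Pool.Agent.H72.Pu1

set_option linter.defProp false

namespace H72Pu

def r200 : runL 101920252 true 289725802034544 810039424892999 102432252 false 292578046544313 813745981683405 = true := by
  decide +kernel
def r201 : runL 102432252 false 292578046544313 813745981683405 102944252 true 295429801683944 817293624683786 = true := by
  decide +kernel
def r202 : runL 102944252 true 295429801683944 817293624683786 103456252 false 298294768268011 820871332455235 = true := by
  decide +kernel
def r203 : runL 103456252 false 298294768268011 820871332455235 103968252 false 301163051270671 824522054670663 = true := by
  decide +kernel
def r204 : runL 103968252 false 301163051270671 824522054670663 104480252 true 304069741812608 828172776886207 = true := by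
  decide +kernel
def r205 : runL 104480252 true 304069741812608 828172776886207 104992252 false 306968532310409 831969527989710 = true := by
  decide +kernel
def r206 : runL 104992252 false 306968532310409 831969527989710 105504252 false 309884114215253 835628840139753 = true := by
  decide +kernel
def r207 : runL 105504252 false 309884114215253 835628840139753 106016252 true 312811456935112 839099173728760 = true := by
  decide +kernel
def r208 : runL 106016252 true 312811456935112 839099173728760 106528252 false 315752124535709 842728421107716 = true := by
  decide +kernel
def r209 : runL 106528252 false 315752124535709 842728421107716 107040252 false 318708123344207 846194459729429 = true := by
  decide +kernel
def r210 : runL 107040252 false 318708123344207 846194459729429 107552252 true 321688481905672 849604663776341 = true := by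
  decide +kernel
def r211 : runL 107552252 true 321688481905672 849604663776341 108064252 false 324669474716873 853036342659671 = true := by
  decide +kernel
def r212 : runL 108064252 false 324669474716873 853036342659671 108576252 true 327692168686498 856622640365783 = true := by
  decide +kernel
def r213 : runL 108576252 true 327692168686498 856622640365783 109088252 false 330696059139071 860157398464192 = true := by
  decide +kernel
def r214 : runL 109088252 false 330696059139071 860157398464192 109600252 true 333724131683028 863696451529942 = true := by
  decide +kernel
def r215 : runL 109600252 true 333724131683028 863696451529942 110112252 false 336779797303853 867093770674986 = true := by
  decide +kernel
def r216 : runL 110112252 false 336779797303853 867093770674986 110624252 false 339807885997975 870529744525504 = true := by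
  decide +kernel
def r217 : runL 110624252 false 339807885997975 870529744525504 111136252 false 342874609598305 873896998899397 = true := by
  decide +kernel
def r218 : runL 111136252 false 342874609598305 873896998899397 111648252 true 345937108374964 877332972749943 = true := by
  decide +kernel

end H72Pu
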