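import Pool.Agent.H72.Pu1

set_option linter.defProp false

namespace H72Pu

def r219 : runL 111648252 true 345937108374964 877332972749943 112160252 false 349040327058941 881061004376737 = true := by
  decide +kernel
def r220 : runL 112160252 false 349040327058941 881061004376737 112672252 true 352141096114820 884655892017280 = true := by
  decide +kernel
def r221 : runL 112672252 true 352141096114820 884655892017280 113184252 false 355273171284365 888121930639020 = true := by
  decide +kernel
def r222 : runL 113184252 false 355273171284365 888121930639020 113696252 false 358389149362127 891600854162514 = true := by
  decide +kernel
def r223 : runL 113696252 false 358389149362127 891600854162514 114208252 false 361525356848649 895157087097363 = true := by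
  decide +kernel
def r224 : runL 114208252 false 361525356848649 895157087097363 114720252 false 364676782708179 898545816307673 = true := by
  decide +kernel
def r225 : runL 114720252 false 364676782708179 898545816307673 115232252 false 367847373338999 901981790158261 = true := by
  decide +kernel
def r226 : runL 115232252 false 367847373338999 901981790158261 115744252 false 371030011963943 905658282177416 = true := by
  decide +kernel
def r227 : runL 115744252 false 371030011963943 905658282177416 116256252 false 374236722367689 909055601322374 = true := by
  decide +kernel
def r228 : runL 116256252 false 374236722367689 909055601322374 116768252 true 377451636527944 912405675827050 = true := by
  decide +kernel
def r229 : runL 116768252 true 377451636527944 912405675827050 117280252 true 380672855491792 916064987977005 = true := by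
  decide +kernel
def r230 : runL 117280252 true 380672855491792 916064987977005 117792252 true 383906046810760 919458012154599 = true := by
  decide +kernel
def r231 : runL 117792252 true 383906046810760 919458012154599 118304252 true 387165592749424 923014245089493 = true := by
  decide +kernel
def r232 : runL 118304252 true 387165592749424 923014245089493 118816252 true 390423631988744 926742276716161 = true := by
  decide +kernel
def r233 : runL 118816252 true 390423631988744 926742276716161 119328252 true 393683133475076 930191135468536 = true := by
  decide +kernel
def r234 : runL 119328252 true 393683133475076 930191135468536 119840252 true 396969064995556 933734483501475 = true := by
  decide +kernel
def r235 : runL 119840252 true 396969064995556 933734483501475 120352252 true 400285602128910 937226291926931 = true := by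
  decide +kernel
def r236 : runL 120352252 true 400285602128910 937226291926931 120864252 true 403585429988826 940666560744707 = true := by
  decide +kernel

end H72Pu
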