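import Pool.Agent.H72.Pu1

set_option linter.defProp false

namespace H72Pu

def r237 : runL 120864252 true 403585429988826 940666560744707 121376252 false 406927723012873 944081059758825 = true := by
  decide +kernel
def r238 : runL 121376252 false 406927723012873 944081059758825 121888252 false 410269690360623 947607227922579 = true := by
  decide +kernel
def r239 : runL 121888252 false 410269690360623 947607227922579 122400252 true 413626076963336 951172050791998 = true := by
  decide +kernel
def r240 : runL 122400252 true 413626076963336 951172050791998 122912252 true 417002100381514 954586549806080 = true := by
  decide +kernel
def r241 : runL 122912252 true 417002100381514 954586549806080 123424252 true 420385555009170 958099833067943 = true := by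
  decide +kernel
def r242 : runL 123424252 true 420385555009170 958099833067943 123936252 false 423791098677109 961677540839279 = true := by
  decide +kernel
def r243 : runL 123936252 false 423791098677109 961677540839279 124448252 false 427209859719757 964933126063411 = true := by
  decide +kernel
def r244 : runL 124448252 false 427209859719757 964933126063411 124960252 true 430634122087292 968510833834708 = true := by
  decide +kernel
def r245 : runL 124960252 true 430634122087292 968510833834708 125472252 false 434069675591021 972174440951915 = true := by
  decide +kernel
def r246 : runL 125472252 false 434069675591021 972174440951915 125984252 false 437531238463413 975756443690545 = true := by
  decide +kernel
def r247 : runL 125984252 false 437531238463413 975756443690545 126496252 false 441002595678831 979222482312166 = true := by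
  decide +kernel
def r248 : runL 126496252 false 441002595678831 979222482312166 127008252 true 444476244152382 983002053546348 = true := by
  decide +kernel
def r249 : runL 127008252 true 444476244152382 983002053546348 127520252 true 447969132529756 986532516677383 = true := by
  decide +kernel
def r250 : runL 127520252 true 447969132529756 986532516677383 128032252 true 451476102245250 990307792944290 = true := by
  decide +kernel
def r251 : runL 128032252 true 451476102245250 990307792944290 128544252 true 454983756354746 993902680584713 = true := by
  decide +kernel
def r252 : runL 128544252 true 454983756354746 993902680584713 129056252 false 458535913552829 997553402800103 = true := by
  decide +kernel
def r253 : runL 129056252 false 458535913552829 997553402800103 129568252 false 462087093208953 1001109635734922 = true := by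
  decide +kernel
def r254 : runL 129568252 false 462087093208953 1001109635734922 130080252 false 465630496586715 1004524134748889 = true := by
  decide +kernel

end H72Pu
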