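import Pool.Agent.H72.Pu1

set_option linter.defProp false

namespace H72Pu

def r255 : runL 130080252 false 465630496586715 1004524134748889 130592252 true 469192982643920 1008015943174203 = true := by
  decide +kernel
def r256 : runL 130592252 true 469192982643920 1008015943174203 131104252 true 472791829318736 1011460506959347 = true := by
  decide +kernel
def r257 : runL 131104252 true 472791829318736 1011460506959347 131616252 false 476386754549723 1014741861987175 = true := by
  decide +kernel
def r258 : runL 131616252 false 476386754549723 1014741861987175 132128252 true 479988284882460 1018091936491710 = true := by
  decide +kernel
def r259 : runL 132128252 true 479988284882460 1018091936491710 132640252 true 483619301787950 1021626694590032 = true := by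
  decide +kernel
def r260 : runL 132640252 true 483619301787950 1021626694590032 133152252 false 487259747044103 1025114208048081 = true := by
  decide +kernel
def r261 : runL 133152252 false 487259747044103 1025114208048081 133664252 true 490894726960716 1028584541636872 = true := by
  decide +kernel
def r262 : runL 133664252 true 490894726960716 1028584541636872 134176252 true 494553167754378 1032115004767843 = true := by
  decide +kernel
def r263 : runL 134176252 true 494553167754378 1032115004767843 134688252 false 498231083294881 1035697007506387 = true := by
  decide +kernel
def r264 : runL 134688252 false 498231083294881 1035697007506387 135200252 false 501938795314045 1039150161226109 = true := by
  decide +kernel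
def r265 : runL 135200252 false 501938795314045 1039150161226109 135712252 true 505627124488122 1042495940763307 = true := by
  decide +kernel
def r266 : runL 135712252 true 505627124488122 1042495940763307 136224252 true 509335254688902 1045979159253999 = true := by
  decide +kernel
def r267 : runL 136224252 true 509335254688902 1045979159253999 136736252 false 513088061981089 1049458082777508 = true := by
  decide +kernel
def r268 : runL 136736252 false 513088061981089 1049458082777508 137248252 false 516816165949305 1052984250941131 = true := by
  decide +kernel
def r269 : runL 137248252 false 516816165949305 1052984250941131 137760252 true 520581148618522 1056480354333765 = true := by
  decide +kernel
def r270 : runL 137760252 true 520581148618522 1056480354333765 138272252 false 524323996419673 1060092421843261 = true := by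
  decide +kernel
def r271 : runL 138272252 false 524323996419673 1060092421843261 138784252 false 528112176682267 1063403841642150 = true := by
  decide +kernel
def r272 : runL 138784252 false 528112176682267 1063403841642150 139296252 false 531907680588741 1066964369544183 = true := by
  decide +kernel

end H72Pu
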