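import Pool.Agent.H72.Pu1

set_option linter.defProp false

namespace H72Pu

def r273 : runL 139296252 false 531907680588741 1066964369544183 139808252 false 535733084496263 1070262904441217 = true := by
  decide +kernel
def r274 : runL 139808252 false 535733084496263 1070262904441217 140320252 false 539557677561457 1073814842408662 = true := by
  decide +kernel
def r275 : runL 140320252 false 539557677561457 1073814842408662 140832252 false 543380231788609 1077113377305586 = true := by
  decide +kernel
def r276 : runL 140832252 false 543380231788609 1077113377305586 141344252 false 547220406942237 1080476336711963 = true := by
  decide +kernel
def r277 : runL 141344252 false 547220406942237 1080476336711963 141856252 true 551074613982226 1083955260235332 = true := by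
  decide +kernel
def r278 : runL 141856252 true 551074613982226 1083955260235332 142368252 false 554982839221221 1087322514609147 = true := by
  decide +kernel
def r279 : runL 142368252 false 554982839221221 1087322514609147 142880252 false 558875357563765 1090745603557705 = true := by
  decide +kernel
def r280 : runL 142880252 false 558875357563765 1090745603557705 143392252 true 562787133982408 1094349081132713 = true := by
  decide +kernel
def r281 : runL 143392252 true 562787133982408 1094349081132713 143904252 false 566710019366965 1097793644917760 = true := by
  decide +kernel
def r282 : runL 143904252 false 566710019366965 1097793644917760 144416252 true 570652092830556 1101152309356904 = true := by
  decide +kernel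
def r283 : runL 144416252 true 570652092830556 1101152309356904 144928252 false 574576610933299 1104592578174564 = true := by
  decide +kernel
def r284 : runL 144928252 false 574576610933299 1104592578174564 145440252 true 578523741141678 1108178875880317 = true := by
  decide +kernel
def r285 : runL 145440252 true 578523741141678 1108178875880317 145952252 false 582489741611833 1111301317118120 = true := by
  decide +kernel
def r286 : runL 145952252 false 582489741611833 1111301317118120 146464252 true 586477246669040 1114720111099372 = true := by
  decide +kernel
def r287 : runL 146464252 true 586477246669040 1114720111099372 146976252 true 590485353006244 1118160379917127 = true := by
  decide +kernel
def r288 : runL 146976252 true 590485353006244 1118160379917127 147488252 false 594492853584223 1121643598407793 = true := by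
  decide +kernel
def r289 : runL 147488252 false 594492853584223 1121643598407793 148000252 true 598514002254102 1124826169187737 = true := by
  decide +kernel
def r290 : runL 148000252 true 598514002254102 1124826169187737 148512252 false 602544936550867 1128313682645684 = true := by
  decide +kernel

end H72Pu
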