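import Pool.Agent.H72.Pu1

set_option linter.defProp false

namespace H72Pu

def r37 : runL 18464252 true 10512265023316 182244052893410 18976252 false 11083854553889 186659279288965 = true := by
  decide +kernel
def r38 : runL 18976252 false 11083854553889 186659279288965 19488252 false 11671211679279 191053030848043 = true := by
  decide +kernel
def r39 : runL 19488252 false 11671211679279 191053030848043 20000252 false 12272957820175 195472552210865 = true := by
  decide +kernel
def r40 : runL 20000252 false 12272957820175 195472552210865 20512252 false 12887600241605 199896368540917 = true := by
  decide +kernel
def r41 : runL 20512252 false 12887600241605 199896368540917 21024252 false 13520028509091 204457623824495 = true := by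
  decide +kernel
def r42 : runL 21024252 false 13520028509091 204457623824495 21536252 true 14164545788532 208812720677782 = true := by
  decide +kernel
def r43 : runL 21536252 true 14164545788532 208812720677782 22048252 false 14828414026157 213030378577686 = true := by
  decide +kernel
def r44 : runL 22048252 false 14828414026157 213030378577686 22560252 true 15499113008166 217256626411984 = true := by
  decide +kernel
def r45 : runL 22560252 true 15499113008166 217256626411984 23072252 true 16190081890462 221439924573430 = true := by
  decide +kernel
def r46 : runL 23072252 true 16190081890462 221439924573430 23584252 true 16893430352054 225477193846745 = true := by
  decide +kernel
def r47 : runL 23584252 true 16893430352054 225477193846745 24096252 false 17611286557263 229669081942697 = true := by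
  decide +kernel
def r48 : runL 24096252 false 17611286557263 229669081942697 24608252 true 18345077327206 234002703959427 = true := by
  decide +kernel
def r49 : runL 24608252 true 18345077327206 234002703959427 25120252 true 19094286354690 238314851139677 = true := by
  decide +kernel
def r50 : runL 25120252 true 19094286354690 238314851139677 25632252 true 19852249851660 242867516488371 = true := by
  decide +kernel
def r51 : runL 25632252 true 19852249851660 242867516488371 26144252 true 20630446317546 246806001513833 = true := by
  decide +kernel
def r52 : runL 26144252 true 20630446317546 246806001513833 26656252 true 21422203952658 250654292226044 = true := by
  decide +kernel
def r53 : runL 26656252 true 21422203952658 250654292226044 27168252 false 22228644883357 255082403523203 = true := by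
  decide +kernel
def r54 : runL 27168252 false 22228644883357 255082403523203 27680252 true 23047246544510 259287176520911 = true := by
  decide +kernel

end H72Pu
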