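import Pool.Agent.H72.Pu1

set_option linter.defProp false

namespace H72Pu

def r55 : runL 27680252 true 23047246544510 259287176520911 28192252 false 23880433736011 263337330695952 = true := by
  decide +kernel
def r56 : runL 28192252 false 23880433736011 263337330695952 28704252 false 24730390238787 267366010034539 = true := by
  decide +kernel
def r57 : runL 28704252 false 24730390238787 267366010034539 29216252 true 25591580380436 271441934013311 = true := by
  decide +kernel
def r58 : runL 29216252 true 25591580380436 271441934013311 29728252 false 26470430419523 275663886880189 = true := by
  decide +kernel
def r59 : runL 29728252 false 26470430419523 275663886880189 30240252 true 27365208413120 279791350466565 = true := by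
  decide +kernel
def r60 : runL 30240252 true 27365208413120 279791350466565 30752252 true 28272964647124 284124972483112 = true := by
  decide +kernel
def r61 : runL 30752252 true 28272964647124 284124972483112 31264252 false 29189151190931 288235256200158 = true := by
  decide +kernel
def r62 : runL 31264252 false 29189151190931 288235256200158 31776252 true 30123056933596 292173741225404 = true := by
  decide +kernel
def r63 : runL 31776252 true 30123056933596 292173741225404 32288252 true 31072097820294 296193830629274 = true := by
  decide +kernel
def r64 : runL 32288252 true 31072097820294 296193830629274 32800252 false 32037578500423 300231099902348 = true := by
  decide +kernel
def r65 : runL 32800252 false 32037578500423 300231099902348 33312252 false 33015393530623 304392923226962 = true := by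
  decide +kernel
def r66 : runL 33312252 false 33015393530623 304392923226962 33824252 false 34009218666557 308331408252197 = true := by
  decide +kernel
def r67 : runL 33824252 false 34009218666557 308331408252197 34336252 true 35007663980078 312252713408093 = true := by
  decide +kernel
def r68 : runL 34336252 true 35007663980078 312252713408093 34848252 true 36023006751548 316328637386673 = true := by
  decide +kernel
def r69 : runL 34848252 true 36023006751548 316328637386673 35360252 false 37058807072537 320271417379155 = true := by
  decide +kernel
def r70 : runL 35360252 false 37058807072537 320271417379155 35872252 true 38108443349142 324227082273506 = true := by
  decide +kernel
def r71 : runL 35872252 true 38108443349142 324227082273506 36384252 false 39172904313085 328071078018158 = true := by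
  decide +kernel
def r72 : runL 36384252 false 39172904313085 328071078018158 36896252 false 40245425174175 331885008991642 = true := by
  decide +kernel

end H72Pu
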