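import Pool.Agent.H72.Pu1

set_option linter.defProp false

namespace H72Pu

def r73 : runL 36896252 false 40245425174175 331885008991642 37408252 false 41339631472467 336038242381600 = true := by
  decide +kernel
def r74 : runL 37408252 false 41339631472467 336038242381600 37920252 true 42443152503450 340084101589081 = true := by
  decide +kernel
def r75 : runL 37920252 true 42443152503450 340084101589081 38432252 true 43567063709856 344357594063321 = true := by
  decide +kernel
def r76 : runL 38432252 true 43567063709856 344357594063321 38944252 false 44704558577911 348403453270854 = true := by
  decide +kernel
def r77 : runL 38944252 false 44704558577911 348403453270854 39456252 false 45855030756465 352286103721112 = true := by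
  decide +kernel
def r78 : runL 39456252 false 45855030756465 352286103721112 39968252 true 47015677426468 356383502536109 = true := by
  decide +kernel
def r79 : runL 39968252 true 47015677426468 356383502536109 40480252 false 48192997769915 360326282528472 = true := by
  decide +kernel
def r80 : runL 40480252 false 48192997769915 360326282528472 40992252 true 49383514281436 364260472586220 = true := by
  decide +kernel
def r81 : runL 40992252 true 49383514281436 364260472586220 41504252 true 50586810226890 368070108592358 = true := by
  decide +kernel
def r82 : runL 41504252 true 50586810226890 368070108592358 42016252 true 51799864400932 372060133224866 = true := by
  decide +kernel
def r83 : runL 42016252 true 51799864400932 372060133224866 42528252 true 53036839122358 375861179296457 = true := by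
  decide +kernel
def r84 : runL 42528252 true 53036839122358 375861179296457 43040252 true 54276976811002 379932808307558 = true := by
  decide +kernel
def r85 : runL 43040252 true 54276976811002 379932808307558 43552252 false 55541278380623 383991552416879 = true := by
  decide +kernel
def r86 : runL 43552252 false 55541278380623 383991552416879 44064252 false 56813934172635 387938627376428 = true := by
  decide +kernel
def r87 : runL 44064252 false 56813934172635 387938627376428 44576252 true 58100698149264 391782623120864 = true := by
  decide +kernel
def r88 : runL 44576252 true 58100698149264 391782623120864 45088252 false 59407782841831 395901496772306 = true := by
  decide +kernel
def r89 : runL 45088252 false 59407782841831 395901496772306 45600252 true 60729988778492 399925881143237 = true := by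
  decide +kernel
def r90 : runL 45600252 true 60729988778492 399925881143237 46112252 false 62060780711265 403726927214708 = true := by
  decide +kernel
def r91 : runL 46112252 false 62060780711265 403726927214708 46624252 false 63404457130915 407695477010701 = true := by
  decide +kernel

end H72Pu
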