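import Pool.Agent.H72.Pu1

set_option linter.defProp false

namespace H72Pu

def r92 : runL 46624252 false 63404457130915 407695477010701 47136252 true 64762243046000 411956084582814 = true := by
  decide +kernel
def r93 : runL 47136252 true 64762243046000 411956084582814 47648252 true 66133952598096 416044893463078 = true := by
  decide +kernel
def r94 : runL 47648252 true 66133952598096 416044893463078 48160252 false 67516321130503 420150882212483 = true := by
  decide +kernel
def r95 : runL 48160252 false 67516321130503 420150882212483 48672252 false 68915745885605 423981993054967 = true := by
  decide +kernel
def r96 : runL 48672252 false 68915745885605 423981993054967 49184252 true 70327377967912 427838873701200 = true := by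
  decide +kernel
def r97 : runL 49184252 true 70327377967912 427838873701200 49696252 false 71764351634273 431755883889685 = true := by
  decide +kernel
def r98 : runL 49696252 false 71764351634273 431755883889685 50208252 false 73206170143715 435578404797557 = true := by
  decide +kernel
def r99 : runL 50208252 false 73206170143715 435578404797557 50720252 true 74662105866660 439366565967054 = true := by
  decide +kernel
def r100 : runL 50720252 true 74662105866660 439366565967054 51232252 false 76131679950741 443283576155421 = true := by
  decide +kernel
def r101 : runL 51232252 false 76131679950741 443283576155421 51744252 true 77617569995668 446947183273338 = true := by
  decide +kernel
def r102 : runL 51744252 true 77617569995668 446947183273338 52256252 false 79117284578215 450748229344719 = true := by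
  decide +kernel
def r103 : runL 52256252 false 79117284578215 450748229344719 52768252 true 80629167815816 454708189206026 = true := by
  decide +kernel
def r104 : runL 52768252 true 80629167815816 454708189206026 53280252 false 82157274770151 458423335931476 = true := by
  decide +kernel
def r105 : runL 53280252 false 82157274770151 458423335931476 53792252 true 83692749837616 462142777624152 = true := by
  decide +kernel
def r106 : runL 53792252 true 83692749837616 462142777624152 54304252 true 85244360379438 465802089774698 = true := by
  decide +kernel
def r107 : runL 54304252 true 85244360379438 465802089774698 54816252 true 86810574526720 469736279832187 = true := by
  decide +kernel
def r108 : runL 54816252 true 86810574526720 469736279832187 55328252 false 88392536505567 473356937277078 = true := by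
  decide +kernel
def r109 : runL 55328252 false 88392536505567 473356937277078 55840252 false 89990044021963 477278242432696 = true := by
  decide +kernel

end H72Pu
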