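import Pool.Agent.H72.Pu1

set_option linter.defProp false

namespace H72Pu

def r110 : runL 55840252 false 89990044021963 477278242432696 56352252 true 91602535376004 480890309943004 = true := by
  decide +kernel
def r111 : runL 56352252 true 91602535376004 480890309943004 56864252 false 93228405109801 484583981831925 = true := by
  decide +kernel
def r112 : runL 56864252 false 93228405109801 484583981831925 57376252 false 94869832815997 488458042347285 = true := by
  decide +kernel
def r113 : runL 57376252 false 94869832815997 488458042347285 57888252 true 96515182601160 492362167633623 = true := by
  decide +kernel
def r114 : runL 57888252 true 96515182601160 492362167633623 58400252 true 98180100075004 496167508672196 = true := by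
  decide +kernel
def r115 : runL 58400252 true 98180100075004 496167508672196 58912252 true 99862844812428 500174713173708 = true := by
  decide +kernel
def r116 : runL 58912252 true 99862844812428 500174713173708 59424252 false 101548378081553 503928514604656 = true := by
  decide +kernel
def r117 : runL 59424252 false 101548378081553 503928514604656 59936252 true 103254813366008 507828344923720 = true := by
  decide +kernel
def r118 : runL 59936252 true 103254813366008 507828344923720 60448252 false 104976498700819 511496247008806 = true := by
  decide +kernel
def r119 : runL 60448252 false 104976498700819 511496247008806 60960252 true 106715741674586 515031005107739 = true := by
  decide +kernel
def r120 : runL 60960252 true 106715741674586 515031005107739 61472252 true 108456488218688 518793396473253 = true := by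
  decide +kernel
def r121 : runL 61472252 true 108456488218688 518793396473253 61984252 false 110214206620763 522654572086595 = true := by
  decide +kernel
def r122 : runL 61984252 false 110214206620763 522654572086595 62496252 false 111992272041453 526537222536463 = true := by
  decide +kernel
def r123 : runL 62496252 false 111992272041453 526537222536463 63008252 true 113780027579744 530376923313331 = true := by
  decide +kernel
def r124 : runL 63008252 true 113780027579744 530376923313331 63520252 true 115582676635442 534315408338010 = true := by
  decide +kernel
def r125 : runL 63520252 true 115582676635442 534315408338010 64032252 false 117406220150007 538099274540083 = true := by
  decide +kernel
def r126 : runL 64032252 false 117406220150007 538099274540083 64544252 true 119238363595704 541814421265372 = true := by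
  decide +kernel
def r127 : runL 64544252 true 119238363595704 541814421265372 65056252 true 121074956946462 545581107598135 = true := by
  decide +kernel

end H72Pu
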