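import Pool.Agent.H72.Pu1

set_option linter.defProp false

namespace H72Pu

def r128 : runL 65056252 true 121074956946462 545581107598135 65568252 false 122933038710587 549223239879368 = true := by
  decide +kernel
def r129 : runL 65568252 false 122933038710587 549223239879368 66080252 true 124807542003316 553127365165670 = true := by
  decide +kernel
def r130 : runL 66080252 true 124807542003316 553127365165670 66592252 true 126697715303922 556988540779021 = true := by
  decide +kernel
def r131 : runL 66592252 true 126697715303922 556988540779021 67104252 true 128598064284420 560729457308051 = true := by
  decide +kernel
def r132 : runL 67104252 true 128598064284420 560729457308051 67616252 true 130517971624492 564509028542782 = true := by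
  decide +kernel
def r133 : runL 67616252 true 130517971624492 564509028542782 68128252 false 132445205008205 568391678992564 = true := by
  decide +kernel
def r134 : runL 68128252 false 132445205008205 568391678992564 68640252 true 134381639681362 571917847156738 = true := by
  decide +kernel
def r135 : runL 68640252 true 134381639681362 571917847156738 69152252 false 136332986356681 575736073097044 = true := by
  decide +kernel
def r136 : runL 69152252 false 136332986356681 575736073097044 69664252 false 138306693324265 579403975182046 = true := by
  decide +kernel
def r137 : runL 69664252 false 138306693324265 579403975182046 70176252 false 140285851105665 583101942038055 = true := by
  decide +kernel
def r138 : runL 70176252 false 140285851105665 583101942038055 70688252 false 142283581542637 586795613926797 = true := by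
  decide +kernel
def r139 : runL 70688252 false 142283581542637 586795613926797 71200252 true 144287691678542 590579480128697 = true := by
  decide +kernel
def r140 : runL 71200252 true 144287691678542 590579480128697 71712252 true 146315749644398 594204432540712 = true := by
  decide +kernel
def r141 : runL 71712252 true 146315749644398 594204432540712 72224252 true 148358675359900 597979708808089 = true := by
  decide +kernel
def r142 : runL 72224252 true 148358675359900 597979708808089 72736252 true 150406672076968 601866654225097 = true := by
  decide +kernel
def r143 : runL 72736252 true 150406672076968 601866654225097 73248252 true 152468393657804 605577505982964 = true := by
  decide +kernel
def r144 : runL 73248252 true 152468393657804 605577505982964 73760252 false 154550551218981 609408616825160 = true := by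
  decide +kernel
def r145 : runL 73760252 false 154550551218981 609408616825160 74272252 false 156632769364045 613231137732666 = true := by
  decide +kernel

end H72Pu
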