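import Pool.Agent.H72.Pu1

set_option linter.defProp false

namespace H72Pu

def r146 : runL 74272252 false 156632769364045 613231137732666 74784252 true 158736925952936 617100903280478 = true := by
  decide +kernel
def r147 : runL 74784252 true 158736925952936 617100903280478 75296252 true 160859973297182 620575531837088 = true := by
  decide +kernel
def r148 : runL 75296252 true 160859973297182 620575531837088 75808252 false 162996968694449 624247728889311 = true := by
  decide +kernel
def r149 : runL 75808252 false 162996968694449 624247728889311 76320252 false 165141197092389 627954285679854 = true := by
  decide +kernel
def r150 : runL 76320252 false 165141197092389 627954285679854 76832252 true 167294293833436 631729561947096 = true := by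
  decide +kernel
def r151 : runL 76832252 true 167294293833436 631729561947096 77344252 false 169469335795369 635483363377908 = true := by
  decide +kernel
def r152 : runL 77344252 false 169469335795369 635483363377908 77856252 false 171650833425749 639297294350812 = true := by
  decide +kernel
def r153 : runL 77856252 false 171650833425749 639297294350812 78368252 false 173849515231341 642892181991638 = true := by
  decide +kernel
def r154 : runL 78368252 false 173849515231341 642892181991638 78880252 false 176060746688801 646448414926788 = true := by
  decide +kernel
def r155 : runL 78880252 false 176060746688801 646448414926788 79392252 true 178285496059506 649901568646828 = true := by
  decide +kernel
def r156 : runL 79392252 true 178285496059506 649901568646828 79904252 true 180528697691580 653436326745518 = true := by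
  decide +kernel
def r157 : runL 79904252 true 180528697691580 653436326745518 80416252 true 182783947838638 656992559680673 = true := by
  decide +kernel
def r158 : runL 80416252 true 182783947838638 656992559680673 80928252 true 185055366174284 660634691961759 = true := by
  decide +kernel
def r159 : runL 80928252 true 185055366174284 660634691961759 81440252 true 187350754345520 664431443065560 = true := by
  decide +kernel
def r160 : runL 81440252 true 187350754345520 664431443065560 81952252 true 189642664398216 668107935084963 = true := by
  decide +kernel
def r161 : runL 81952252 true 189642664398216 668107935084963 82464252 true 191948426315898 671857441548395 = true := by
  decide +kernel
def r162 : runL 82464252 true 191948426315898 671857441548395 82976252 true 194278820381444 675452329189233 = true := by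
  decide +kernel
def r163 : runL 82976252 true 194278820381444 675452329189233 83488252 true 196606329940098 679390814213647 = true := by
  decide +kernel

end H72Pu
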