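import Pool.Agent.H72.Pu1

set_option linter.defProp false

namespace H72Pu

def r164 : runL 83488252 true 196606329940098 679390814213647 84000252 false 198967692277317 682882622639394 = true := by
  decide +kernel
def r165 : runL 84000252 false 198967692277317 682882622639394 84512252 false 201324710937115 686692258644933 = true := by
  decide +kernel
def r166 : runL 84512252 false 201324710937115 686692258644933 85024252 true 203689496063048 690351570795073 = true := by
  decide +kernel
def r167 : runL 85024252 true 203689496063048 690351570795073 85536252 true 206087430757010 694122552095020 = true := by
  decide +kernel
def r168 : runL 85536252 true 206087430757010 694122552095020 86048252 true 208488429737284 697979432740821 = true := by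
  decide +kernel
def r169 : runL 86048252 true 208488429737284 697979432740821 86560252 true 210909628575450 701677399596704 = true := by
  decide +kernel
def r170 : runL 86560252 true 210909628575450 701677399596704 87072252 true 213339804652672 705401136256332 = true := by
  decide +kernel
def r171 : runL 87072252 true 213339804652672 705401136256332 87584252 false 215777927618163 709197887359956 = true := by
  decide +kernel
def r172 : runL 87584252 false 215777927618163 709197887359956 88096252 true 218243363492910 713140667351717 = true := by
  decide +kernel
def r173 : runL 88096252 true 218243363492910 713140667351717 88608252 false 220707751208793 716606705973536 = true := by
  decide +kernel
def r174 : runL 88608252 false 220707751208793 716606705973536 89120252 true 223201543751954 720162938908655 = true := by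
  decide +kernel
def r175 : runL 89120252 true 223201543751954 720162938908655 89632252 false 225695216406973 723770711451246 = true := by
  decide +kernel
def r176 : runL 89632252 false 225695216406973 723770711451246 90144252 true 228199805108700 727550282685657 = true := by
  decide +kernel
def r177 : runL 90144252 true 228199805108700 727550282685657 90656252 true 230732078642976 731218184770447 = true := by
  decide +kernel
def r178 : runL 90656252 true 230732078642976 731218184770447 91168252 true 233269977330200 734851727116821 = true := by
  decide +kernel
def r179 : runL 91168252 true 233269977330200 734851727116821 91680252 true 235831121166352 738472384561356 = true := by
  decide +kernel
def r180 : runL 91680252 true 235831121166352 738472384561356 92192252 false 238394950582793 741968487954244 = true := by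
  decide +kernel
def r181 : runL 92192252 false 238394950582793 741968487954244 92704252 true 240974919318670 745447411477957 = true := by
  decide +kernel

end H72Pu
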