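import Pool.Agent.H72.Pu3
import Pool.Agent.H72.PuR0
import Pool.Agent.H72.PuR1
import Pool.Agent.H72.PuR2
import Pool.Agent.H72.PuR3
import Pool.Agent.H72.PuR4
import Pool.Agent.H72.PuR5
import Pool.Agent.H72.PuR6
import Pool.Agent.H72.PuR7
import Pool.Agent.H72.PuR8
import Pool.Agent.H72.PuR9
import Pool.Agent.H72.PuR10
import Pool.Agent.H72.PuR11
import Pool.Agent.H72.PuR12
import Pool.Agent.H72.PuR13
import Pool.Agent.H72.PuR14
import Pool.Agent.H72.PuR15

namespace H72Pu

theorem inv2 : Inv 544252 true 11669092476 9332963956657 := runL_ok r1 inv1
theorem inv3 : Inv 1056252 false 41731605581 16153372041539 := runL_ok r2 inv2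
theorem inv4 : Inv 1568252 true 89419007950 22411139409999 := runL_ok r3 inv3
theorem inv5 : Inv 2080252 false 154192739737 28441273511343 := runL_ok r4 inv4
theorem inv6 : Inv 2592252 true 235680224100 34119220294098 := runL_ok r5 inv5
theorem inv7 : Inv 3104252 true 333705363600 39741332501774 := runL_ok r6 inv6
theorem inv8 : Inv 3616252 false 448147705367 45011257391000 := runL_ok r7 inv7
theorem inv9 : Inv 4128252 true 578869211844 50311247051145 := runL_ok r8 inv8
theorem inv10 : Inv 4640252 true 725615288408 55173150046953 := runL_ok r9 inv9
theorem inv11 : Inv 5152252 true 888506256958 60297046047716 := runL_ok r10 inv10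
theorem inv12 : Inv 5664252 false 1066692325107 65352222571584 := runL_ok r11 inv11
theorem inv13 : Inv 6176252 true 1261162804026 70300024913000 := runL_ok r12 inv12
theorem inv14 : Inv 6688252 true 1470765756230 75582834703374 := runL_ok r13 inv13
theorem inv15 : Inv 7200252 false 1697187171595 80603651488703 := runL_ok r14 inv14
theorem inv16 : Inv 7712252 false 1938262520993 85474144418533 := runL_ok r15 inv15
theorem inv17 : Inv 8224252 false 2194631798665 90305982642620 := runL_ok r16 inv16
theorem inv18 : Inv 8736252 true 2467320026178 95112051062921 := runL_ok r17 inv17
theorem inv19 : Inv 9248252 false 2754545114399 99913824515820 := runL_ok r18 inv18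
theorem inv20 : Inv 9760252 true 3057379707002 104509439538471 := runL_ok r19 inv19
theorem inv21 : Inv 10272252 true 3374540828356 109216723710719 := runL_ok r20 inv20
theorem inv22 : Inv 10784252 true 3708534728386 113855288406261 := runL_ok r21 inv21
theorem inv23 : Inv 11296252 true 4057292828098 118661356826280 := runL_ok r22 inv22
theorem inv24 : Inv 11808252 false 4421302340729 123278446685235 := runL_ok r23 inv23
theorem inv25 : Inv 12320252 false 4800348434487 127899831511440 := runL_ok r24 inv24
theorem inv26 : Inv 12832252 true 5194761303812 132443906926288 := runL_ok r25 inv25
theorem inv27 : Inv 13344252 false 5601986484015 137129716261781 := runL_ok r26 inv26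
theorem inv28 : Inv 13856252 true 6026149945216 141699561480318 := runL_ok r27 inv27
theorem inv29 : Inv 14368252 false 6465123592271 146381075848511 := runL_ok r28 inv28
theorem inv30 : Inv 14880252 false 6918972616691 150757647538652 := runL_ok r29 inv29
theorem inv31 : Inv 15392252 false 7386383536179 155159989032492 := runL_ok r30 inv30
theorem inv32 : Inv 15904252 false 7870762805043 159708359414433 := runL_ok r31 inv31
theorem inv33 : Inv 16416252 true 8368154367570 164458593259198 := runL_ok r32 inv32
theorem inv34 : Inv 16928252 false 8881938030403 169105747888879 := runL_ok r33 inv33
theorem inv35 : Inv 17440252 false 9411549971291 173576808859425 := runL_ok r34 inv34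
theorem inv36 : Inv 17952252 true 9954799036976 177987740287766 := runL_ok r35 inv35
theorem inv37 : Inv 18464252 true 10512265023316 182244052893410 := runL_ok r36 inv36
theorem inv38 : Inv 18976252 false 11083854553889 186659279288965 := runL_ok r37 inv37
theorem inv39 : Inv 19488252 false 11671211679279 191053030848043 := runL_ok r38 inv38
theorem inv40 : Inv 20000252 false 12272957820175 195472552210865 := runL_ok r39 inv39
theorem inv41 : Inv 20512252 false 12887600241605 199896368540917 := runL_ok r40 inv40
theorem inv42 : Inv 21024252 false 13520028509091 204457623824495 := runL_ok r41 inv41
theorem inv43 : Inv 21536252 true 14164545788532 208812720677782 := runL_ok r42 inv42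
theorem inv44 : Inv 22048252 false 14828414026157 213030378577686 := runL_ok r43 inv43
theorem inv45 : Inv 22560252 true 15499113008166 217256626411984 := runL_ok r44 inv44
theorem inv46 : Inv 23072252 true 16190081890462 221439924573430 := runL_ok r45 inv45
theorem inv47 : Inv 23584252 true 16893430352054 225477193846745 := runL_ok r46 inv46
theorem inv48 : Inv 24096252 false 17611286557263 229669081942697 := runL_ok r47 inv47
theorem inv49 : Inv 24608252 true 18345077327206 234002703959427 := runL_ok r48 inv48
theorem inv50 : Inv 25120252 true 19094286354690 238314851139677 := runL_ok r49 inv49
theorem inv51 : Inv 25632252 true 19852249851660 242867516488371 := runL_ok r50 inv50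
theorem inv52 : Inv 26144252 true 20630446317546 246806001513833 := runL_ok r51 inv51
theorem inv53 : Inv 26656252 true 21422203952658 250654292226044 := runL_ok r52 inv52
theorem inv54 : Inv 27168252 false 22228644883357 255082403523203 := runL_ok r53 inv53
theorem inv55 : Inv 27680252 true 23047246544510 259287176520911 := runL_ok r54 inv54
theorem inv56 : Inv 28192252 false 23880433736011 263337330695952 := runL_ok r55 inv55
theorem inv57 : Inv 28704252 false 24730390238787 267366010034539 := runL_ok r56 inv56
theorem inv58 : Inv 29216252 true 25591580380436 271441934013311 := runL_ok r57 inv57
theorem inv59 : Inv 29728252 false 26470430419523 275663886880189 := runL_ok r58 inv58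
theorem inv60 : Inv 30240252 true 27365208413120 279791350466565 := runL_ok r59 inv59
theorem inv61 : Inv 30752252 true 28272964647124 284124972483112 := runL_ok r60 inv60
theorem inv62 : Inv 31264252 false 29189151190931 288235256200158 := runL_ok r61 inv61
theorem inv63 : Inv 31776252 true 30123056933596 292173741225404 := runL_ok r62 inv62
theorem inv64 : Inv 32288252 true 31072097820294 296193830629274 := runL_ok r63 inv63
theorem inv65 : Inv 32800252 false 32037578500423 300231099902348 := runL_ok r64 inv64
theorem inv66 : Inv 33312252 false 33015393530623 304392923226962 := runL_ok r65 inv65
theorem inv67 : Inv 33824252 false 34009218666557 308331408252197 := runL_ok r66 inv66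
theorem inv68 : Inv 34336252 true 35007663980078 312252713408093 := runL_ok r67 inv67
theorem inv69 : Inv 34848252 true 36023006751548 316328637386673 := runL_ok r68 inv68
theorem inv70 : Inv 35360252 false 37058807072537 320271417379155 := runL_ok r69 inv69
theorem inv71 : Inv 35872252 true 38108443349142 324227082273506 := runL_ok r70 inv70
theorem inv72 : Inv 36384252 false 39172904313085 328071078018158 := runL_ok r71 inv71
theorem inv73 : Inv 36896252 false 40245425174175 331885008991642 := runL_ok r72 inv72
theorem inv74 : Inv 37408252 false 41339631472467 336038242381600 := runL_ok r73 inv73
theorem inv75 : Inv 37920252 true 42443152503450 340084101589081 := runL_ok r74 inv74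
theorem inv76 : Inv 38432252 true 43567063709856 344357594063321 := runL_ok r75 inv75
theorem inv77 : Inv 38944252 false 44704558577911 348403453270854 := runL_ok r76 inv76
theorem inv78 : Inv 39456252 false 45855030756465 352286103721112 := runL_ok r77 inv77
theorem inv79 : Inv 39968252 true 47015677426468 356383502536109 := runL_ok r78 inv78
theorem inv80 : Inv 40480252 false 48192997769915 360326282528472 := runL_ok r79 inv79
theorem inv81 : Inv 40992252 true 49383514281436 364260472586220 := runL_ok r80 inv80
theorem inv82 : Inv 41504252 true 50586810226890 368070108592358 := runL_ok r81 inv81
theorem inv83 : Inv 42016252 true 51799864400932 372060133224866 := runL_ok r82 inv82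
theorem inv84 : Inv 42528252 true 53036839122358 375861179296457 := runL_ok r83 inv83
theorem inv85 : Inv 43040252 true 54276976811002 379932808307558 := runL_ok r84 inv84
theorem inv86 : Inv 43552252 false 55541278380623 383991552416879 := runL_ok r85 inv85
theorem inv87 : Inv 44064252 false 56813934172635 387938627376428 := runL_ok r86 inv86
theorem inv88 : Inv 44576252 true 58100698149264 391782623120864 := runL_ok r87 inv87
theorem inv89 : Inv 45088252 false 59407782841831 395901496772306 := runL_ok r88 inv88
theorem inv90 : Inv 45600252 true 60729988778492 399925881143237 := runL_ok r89 inv89
theorem inv91 : Inv 46112252 false 62060780711265 403726927214708 := runL_ok r90 inv90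
theorem inv92 : Inv 46624252 false 63404457130915 407695477010701 := runL_ok r91 inv91
theorem inv93 : Inv 47136252 true 64762243046000 411956084582814 := runL_ok r92 inv92
theorem inv94 : Inv 47648252 true 66133952598096 416044893463078 := runL_ok r93 inv93
theorem inv95 : Inv 48160252 false 67516321130503 420150882212483 := runL_ok r94 inv94
theorem inv96 : Inv 48672252 false 68915745885605 423981993054967 := runL_ok r95 inv95
theorem inv97 : Inv 49184252 true 70327377967912 427838873701200 := runL_ok r96 inv96
theorem inv98 : Inv 49696252 false 71764351634273 431755883889685 := runL_ok r97 inv97
theorem inv99 : Inv 50208252 false 73206170143715 435578404797557 := runL_ok r98 inv98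
theorem inv100 : Inv 50720252 true 74662105866660 439366565967054 := runL_ok r99 inv99
theorem inv101 : Inv 51232252 false 76131679950741 443283576155421 := runL_ok r100 inv100
theorem inv102 : Inv 51744252 true 77617569995668 446947183273338 := runL_ok r101 inv101
theorem inv103 : Inv 52256252 false 79117284578215 450748229344719 := runL_ok r102 inv102
theorem inv104 : Inv 52768252 true 80629167815816 454708189206026 := runL_ok r103 inv103
theorem inv105 : Inv 53280252 false 82157274770151 458423335931476 := runL_ok r104 inv104
theorem inv106 : Inv 53792252 true 83692749837616 462142777624152 := runL_ok r105 inv105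
theorem inv107 : Inv 54304252 true 85244360379438 465802089774698 := runL_ok r106 inv106
theorem inv108 : Inv 54816252 true 86810574526720 469736279832187 := runL_ok r107 inv107
theorem inv109 : Inv 55328252 false 88392536505567 473356937277078 := runL_ok r108 inv108
theorem inv110 : Inv 55840252 false 89990044021963 477278242432696 := runL_ok r109 inv109
theorem inv111 : Inv 56352252 true 91602535376004 480890309943004 := runL_ok r110 inv110
theorem inv112 : Inv 56864252 false 93228405109801 484583981831925 := runL_ok r111 inv111
theorem inv113 : Inv 57376252 false 94869832815997 488458042347285 := runL_ok r112 inv112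
theorem inv114 : Inv 57888252 true 96515182601160 492362167633623 := runL_ok r113 inv113
theorem inv115 : Inv 58400252 true 98180100075004 496167508672196 := runL_ok r114 inv114
theorem inv116 : Inv 58912252 true 99862844812428 500174713173708 := runL_ok r115 inv115
theorem inv117 : Inv 59424252 false 101548378081553 503928514604656 := runL_ok r116 inv116
theorem inv118 : Inv 59936252 true 103254813366008 507828344923720 := runL_ok r117 inv117
theorem inv119 : Inv 60448252 false 104976498700819 511496247008806 := runL_ok r118 inv118
theorem inv120 : Inv 60960252 true 106715741674586 515031005107739 := runL_ok r119 inv119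
theorem inv121 : Inv 61472252 true 108456488218688 518793396473253 := runL_ok r120 inv120
theorem inv122 : Inv 61984252 false 110214206620763 522654572086595 := runL_ok r121 inv121
theorem inv123 : Inv 62496252 false 111992272041453 526537222536463 := runL_ok r122 inv122
theorem inv124 : Inv 63008252 true 113780027579744 530376923313331 := runL_ok r123 inv123
theorem inv125 : Inv 63520252 true 115582676635442 534315408338010 := runL_ok r124 inv124
theorem inv126 : Inv 64032252 false 117406220150007 538099274540083 := runL_ok r125 inv125
theorem inv127 : Inv 64544252 true 119238363595704 541814421265372 := runL_ok r126 inv126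
theorem inv128 : Inv 65056252 true 121074956946462 545581107598135 := runL_ok r127 inv127
theorem inv129 : Inv 65568252 false 122933038710587 549223239879368 := runL_ok r128 inv128
theorem inv130 : Inv 66080252 true 124807542003316 553127365165670 := runL_ok r129 inv129
theorem inv131 : Inv 66592252 true 126697715303922 556988540779021 := runL_ok r130 inv130
theorem inv132 : Inv 67104252 true 128598064284420 560729457308051 := runL_ok r131 inv131
theorem inv133 : Inv 67616252 true 130517971624492 564509028542782 := runL_ok r132 inv132
theorem inv134 : Inv 68128252 false 132445205008205 568391678992564 := runL_ok r133 inv133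
theorem inv135 : Inv 68640252 true 134381639681362 571917847156738 := runL_ok r134 inv134
theorem inv136 : Inv 69152252 false 136332986356681 575736073097044 := runL_ok r135 inv135
theorem inv137 : Inv 69664252 false 138306693324265 579403975182046 := runL_ok r136 inv136
theorem inv138 : Inv 70176252 false 140285851105665 583101942038055 := runL_ok r137 inv137
theorem inv139 : Inv 70688252 false 142283581542637 586795613926797 := runL_ok r138 inv138
theorem inv140 : Inv 71200252 true 144287691678542 590579480128697 := runL_ok r139 inv139
theorem inv141 : Inv 71712252 true 146315749644398 594204432540712 := runL_ok r140 inv140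
theorem inv142 : Inv 72224252 true 148358675359900 597979708808089 := runL_ok r141 inv141
theorem inv143 : Inv 72736252 true 150406672076968 601866654225097 := runL_ok r142 inv142
theorem inv144 : Inv 73248252 true 152468393657804 605577505982964 := runL_ok r143 inv143
theorem inv145 : Inv 73760252 false 154550551218981 609408616825160 := runL_ok r144 inv144
theorem inv146 : Inv 74272252 false 156632769364045 613231137732666 := runL_ok r145 inv145
theorem inv147 : Inv 74784252 true 158736925952936 617100903280478 := runL_ok r146 inv146
theorem inv148 : Inv 75296252 true 160859973297182 620575531837088 := runL_ok r147 inv147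
theorem inv149 : Inv 75808252 false 162996968694449 624247728889311 := runL_ok r148 inv148
theorem inv150 : Inv 76320252 false 165141197092389 627954285679854 := runL_ok r149 inv149
theorem inv151 : Inv 76832252 true 167294293833436 631729561947096 := runL_ok r150 inv150
theorem inv152 : Inv 77344252 false 169469335795369 635483363377908 := runL_ok r151 inv151
theorem inv153 : Inv 77856252 false 171650833425749 639297294350812 := runL_ok r152 inv152
theorem inv154 : Inv 78368252 false 173849515231341 642892181991638 := runL_ok r153 inv153
theorem inv155 : Inv 78880252 false 176060746688801 646448414926788 := runL_ok r154 inv154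
theorem inv156 : Inv 79392252 true 178285496059506 649901568646828 := runL_ok r155 inv155
theorem inv157 : Inv 79904252 true 180528697691580 653436326745518 := runL_ok r156 inv156
theorem inv158 : Inv 80416252 true 182783947838638 656992559680673 := runL_ok r157 inv157
theorem inv159 : Inv 80928252 true 185055366174284 660634691961759 := runL_ok r158 inv158
theorem inv160 : Inv 81440252 true 187350754345520 664431443065560 := runL_ok r159 inv159
theorem inv161 : Inv 81952252 true 189642664398216 668107935084963 := runL_ok r160 inv160
theorem inv162 : Inv 82464252 true 191948426315898 671857441548395 := runL_ok r161 inv161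
theorem inv163 : Inv 82976252 true 194278820381444 675452329189233 := runL_ok r162 inv162
theorem inv164 : Inv 83488252 true 196606329940098 679390814213647 := runL_ok r163 inv163
theorem inv165 : Inv 84000252 false 198967692277317 682882622639394 := runL_ok r164 inv164
theorem inv166 : Inv 84512252 false 201324710937115 686692258644933 := runL_ok r165 inv165
theorem inv167 : Inv 85024252 true 203689496063048 690351570795073 := runL_ok r166 inv166
theorem inv168 : Inv 85536252 true 206087430757010 694122552095020 := runL_ok r167 inv167
theorem inv169 : Inv 86048252 true 208488429737284 697979432740821 := runL_ok r168 inv168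
theorem inv170 : Inv 86560252 true 210909628575450 701677399596704 := runL_ok r169 inv169
theorem inv171 : Inv 87072252 true 213339804652672 705401136256332 := runL_ok r170 inv170
theorem inv172 : Inv 87584252 false 215777927618163 709197887359956 := runL_ok r171 inv171
theorem inv173 : Inv 88096252 true 218243363492910 713140667351717 := runL_ok r172 inv172
theorem inv174 : Inv 88608252 false 220707751208793 716606705973536 := runL_ok r173 inv173
theorem inv175 : Inv 89120252 true 223201543751954 720162938908655 := runL_ok r174 inv174
theorem inv176 : Inv 89632252 false 225695216406973 723770711451246 := runL_ok r175 inv175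
theorem inv177 : Inv 90144252 true 228199805108700 727550282685657 := runL_ok r176 inv176
theorem inv178 : Inv 90656252 true 230732078642976 731218184770447 := runL_ok r177 inv177
theorem inv179 : Inv 91168252 true 233269977330200 734851727116821 := runL_ok r178 inv178
theorem inv180 : Inv 91680252 true 235831121166352 738472384561356 := runL_ok r179 inv179
theorem inv181 : Inv 92192252 false 238394950582793 741968487954244 := runL_ok r180 inv180
theorem inv182 : Inv 92704252 true 240974919318670 745447411477957 := runL_ok r181 inv181
theorem inv183 : Inv 93216252 true 243561626962236 749149673301022 := runL_ok r182 inv182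
theorem inv184 : Inv 93728252 true 246164068504348 752907769698943 := runL_ok r183 inv183
theorem inv185 : Inv 94240252 true 248792240514314 756283614007581 := runL_ok r184 inv184
theorem inv186 : Inv 94752252 false 251424438132549 759887091582853 := runL_ok r185 inv185
theorem inv187 : Inv 95264252 false 254081981335783 763559288634919 := runL_ok r186 inv186
theorem inv188 : Inv 95776252 true 256740569598310 767033917191299 := runL_ok r187 inv187
theorem inv189 : Inv 96288252 true 259417539136204 770701819276021 := runL_ok r188 inv188
theorem inv190 : Inv 96800252 false 262110840127047 774262347178354 := runL_ok r189 inv189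
theorem inv191 : Inv 97312252 false 264806471856939 777732680767409 := runL_ok r190 inv190
theorem inv192 : Inv 97824252 true 267537112845474 781215899258458 := runL_ok r191 inv191
theorem inv193 : Inv 98336252 true 270258844165270 784759247291533 := runL_ok r192 inv192
theorem inv194 : Inv 98848252 false 272998804528993 788203811076821 := runL_ok r193 inv193
theorem inv195 : Inv 99360252 true 275742115463338 792073576624357 := runL_ok r194 inv194
theorem inv196 : Inv 99872252 true 278513435588938 795470895769403 := runL_ok r195 inv195
theorem inv197 : Inv 100384252 true 281300994807418 798863919947163 := runL_ok r196 inv196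
theorem inv198 : Inv 100896252 false 284083396990699 802540411966363 := runL_ok r197 inv197
theorem inv199 : Inv 101408252 false 286904921282059 806423062415894 := runL_ok r198 inv198
theorem inv200 : Inv 101920252 true 289725802034544 810039424892999 := runL_ok r199 inv199
theorem inv201 : Inv 102432252 false 292578046544313 813745981683405 := runL_ok r200 inv200
theorem inv202 : Inv 102944252 true 295429801683944 817293624683786 := runL_ok r201 inv201
theorem inv203 : Inv 103456252 false 298294768268011 820871332455235 := runL_ok r202 inv202
theorem inv204 : Inv 103968252 false 301163051270671 824522054670663 := runL_ok r203 inv203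
theorem inv205 : Inv 104480252 true 304069741812608 828172776886207 := runL_ok r204 inv204
theorem inv206 : Inv 104992252 false 306968532310409 831969527989710 := runL_ok r205 inv205
theorem inv207 : Inv 105504252 false 309884114215253 835628840139753 := runL_ok r206 inv206
theorem inv208 : Inv 106016252 true 312811456935112 839099173728760 := runL_ok r207 inv207
theorem inv209 : Inv 106528252 false 315752124535709 842728421107716 := runL_ok r208 inv208
theorem inv210 : Inv 107040252 false 318708123344207 846194459729429 := runL_ok r209 inv209
theorem inv211 : Inv 107552252 true 321688481905672 849604663776341 := runL_ok r210 inv210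
theorem inv212 : Inv 108064252 false 324669474716873 853036342659671 := runL_ok r211 inv211
theorem inv213 : Inv 108576252 true 327692168686498 856622640365783 := runL_ok r212 inv212
theorem inv214 : Inv 109088252 false 330696059139071 860157398464192 := runL_ok r213 inv213
theorem inv215 : Inv 109600252 true 333724131683028 863696451529942 := runL_ok r214 inv214
theorem inv216 : Inv 110112252 false 336779797303853 867093770674986 := runL_ok r215 inv215
theorem inv217 : Inv 110624252 false 339807885997975 870529744525504 := runL_ok r216 inv216
theorem inv218 : Inv 111136252 false 342874609598305 873896998899397 := runL_ok r217 inv217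
theorem inv219 : Inv 111648252 true 345937108374964 877332972749943 := runL_ok r218 inv218
theorem inv220 : Inv 112160252 false 349040327058941 881061004376737 := runL_ok r219 inv219
theorem inv221 : Inv 112672252 true 352141096114820 884655892017280 := runL_ok r220 inv220
theorem inv222 : Inv 113184252 false 355273171284365 888121930639020 := runL_ok r221 inv221
theorem inv223 : Inv 113696252 false 358389149362127 891600854162514 := runL_ok r222 inv222
theorem inv224 : Inv 114208252 false 361525356848649 895157087097363 := runL_ok r223 inv223
theorem inv225 : Inv 114720252 false 364676782708179 898545816307673 := runL_ok r224 inv224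
theorem inv226 : Inv 115232252 false 367847373338999 901981790158261 := runL_ok r225 inv225
theorem inv227 : Inv 115744252 false 371030011963943 905658282177416 := runL_ok r226 inv226
theorem inv228 : Inv 116256252 false 374236722367689 909055601322374 := runL_ok r227 inv227
theorem inv229 : Inv 116768252 true 377451636527944 912405675827050 := runL_ok r228 inv228
theorem inv230 : Inv 117280252 true 380672855491792 916064987977005 := runL_ok r229 inv229
theorem inv231 : Inv 117792252 true 383906046810760 919458012154599 := runL_ok r230 inv230
theorem inv232 : Inv 118304252 true 387165592749424 923014245089493 := runL_ok r231 inv231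
theorem inv233 : Inv 118816252 true 390423631988744 926742276716161 := runL_ok r232 inv232
theorem inv234 : Inv 119328252 true 393683133475076 930191135468536 := runL_ok r233 inv233
theorem inv235 : Inv 119840252 true 396969064995556 933734483501475 := runL_ok r234 inv234
theorem inv236 : Inv 120352252 true 400285602128910 937226291926931 := runL_ok r235 inv235
theorem inv237 : Inv 120864252 true 403585429988826 940666560744707 := runL_ok r236 inv236
theorem inv238 : Inv 121376252 false 406927723012873 944081059758825 := runL_ok r237 inv237
theorem inv239 : Inv 121888252 false 410269690360623 947607227922579 := runL_ok r238 inv238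
theorem inv240 : Inv 122400252 true 413626076963336 951172050791998 := runL_ok r239 inv239
theorem inv241 : Inv 122912252 true 417002100381514 954586549806080 := runL_ok r240 inv240
theorem inv242 : Inv 123424252 true 420385555009170 958099833067943 := runL_ok r241 inv241
theorem inv243 : Inv 123936252 false 423791098677109 961677540839279 := runL_ok r242 inv242
theorem inv244 : Inv 124448252 false 427209859719757 964933126063411 := runL_ok r243 inv243
theorem inv245 : Inv 124960252 true 430634122087292 968510833834708 := runL_ok r244 inv244
theorem inv246 : Inv 125472252 false 434069675591021 972174440951915 := runL_ok r245 inv245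
theorem inv247 : Inv 125984252 false 437531238463413 975756443690545 := runL_ok r246 inv246
theorem inv248 : Inv 126496252 false 441002595678831 979222482312166 := runL_ok r247 inv247
theorem inv249 : Inv 127008252 true 444476244152382 983002053546348 := runL_ok r248 inv248
theorem inv250 : Inv 127520252 true 447969132529756 986532516677383 := runL_ok r249 inv249
theorem inv251 : Inv 128032252 true 451476102245250 990307792944290 := runL_ok r250 inv250
theorem inv252 : Inv 128544252 true 454983756354746 993902680584713 := runL_ok r251 inv251
theorem inv253 : Inv 129056252 false 458535913552829 997553402800103 := runL_ok r252 inv252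
theorem inv254 : Inv 129568252 false 462087093208953 1001109635734922 := runL_ok r253 inv253
theorem inv255 : Inv 130080252 false 465630496586715 1004524134748889 := runL_ok r254 inv254
theorem inv256 : Inv 130592252 true 469192982643920 1008015943174203 := runL_ok r255 inv255
theorem inv257 : Inv 131104252 true 472791829318736 1011460506959347 := runL_ok r256 inv256
theorem inv258 : Inv 131616252 false 476386754549723 1014741861987175 := runL_ok r257 inv257
theorem inv259 : Inv 132128252 true 479988284882460 1018091936491710 := runL_ok r258 inv258
theorem inv260 : Inv 132640252 true 483619301787950 1021626694590032 := runL_ok r259 inv259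
theorem inv261 : Inv 133152252 false 487259747044103 1025114208048081 := runL_ok r260 inv260
theorem inv262 : Inv 133664252 true 490894726960716 1028584541636872 := runL_ok r261 inv261
theorem inv263 : Inv 134176252 true 494553167754378 1032115004767843 := runL_ok r262 inv262
theorem inv264 : Inv 134688252 false 498231083294881 1035697007506387 := runL_ok r263 inv263
theorem inv265 : Inv 135200252 false 501938795314045 1039150161226109 := runL_ok r264 inv264
theorem inv266 : Inv 135712252 true 505627124488122 1042495940763307 := runL_ok r265 inv265
theorem inv267 : Inv 136224252 true 509335254688902 1045979159253999 := runL_ok r266 inv266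
theorem inv268 : Inv 136736252 false 513088061981089 1049458082777508 := runL_ok r267 inv267
theorem inv269 : Inv 137248252 false 516816165949305 1052984250941131 := runL_ok r268 inv268
theorem inv270 : Inv 137760252 true 520581148618522 1056480354333765 := runL_ok r269 inv269
theorem inv271 : Inv 138272252 false 524323996419673 1060092421843261 := runL_ok r270 inv270
theorem inv272 : Inv 138784252 false 528112176682267 1063403841642150 := runL_ok r271 inv271
theorem inv273 : Inv 139296252 false 531907680588741 1066964369544183 := runL_ok r272 inv272
theorem inv274 : Inv 139808252 false 535733084496263 1070262904441217 := runL_ok r273 inv273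
theorem inv275 : Inv 140320252 false 539557677561457 1073814842408662 := runL_ok r274 inv274
theorem inv276 : Inv 140832252 false 543380231788609 1077113377305586 := runL_ok r275 inv275
theorem inv277 : Inv 141344252 false 547220406942237 1080476336711963 := runL_ok r276 inv276
theorem inv278 : Inv 141856252 true 551074613982226 1083955260235332 := runL_ok r277 inv277
theorem inv279 : Inv 142368252 false 554982839221221 1087322514609147 := runL_ok r278 inv278
theorem inv280 : Inv 142880252 false 558875357563765 1090745603557705 := runL_ok r279 inv279
theorem inv281 : Inv 143392252 true 562787133982408 1094349081132713 := runL_ok r280 inv280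
theorem inv282 : Inv 143904252 false 566710019366965 1097793644917760 := runL_ok r281 inv281
theorem inv283 : Inv 144416252 true 570652092830556 1101152309356904 := runL_ok r282 inv282
theorem inv284 : Inv 144928252 false 574576610933299 1104592578174564 := runL_ok r283 inv283
theorem inv285 : Inv 145440252 true 578523741141678 1108178875880317 := runL_ok r284 inv284
theorem inv286 : Inv 145952252 false 582489741611833 1111301317118120 := runL_ok r285 inv285
theorem inv287 : Inv 146464252 true 586477246669040 1114720111099372 := runL_ok r286 inv286
theorem inv288 : Inv 146976252 true 590485353006244 1118160379917127 := runL_ok r287 inv287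
theorem inv289 : Inv 147488252 false 594492853584223 1121643598407793 := runL_ok r288 inv288
theorem inv290 : Inv 148000252 true 598514002254102 1124826169187737 := runL_ok r289 inv289
theorem inv291 : Inv 148512252 false 602544936550867 1128313682645684 := runL_ok r290 inv290

theorem fin : S 4182708 = 602544936550867 ∧ piS 4182708 ≤ 262706 := by
  obtain ⟨k, g, h1, h2, h3, h4, -⟩ := inv291
  have h5 : Nat.count Nat.Prime 148512252 ≤ 148512252 := Nat.count_le _
  have h6 : Bool.toNat false = 0 := rfl
  rw [h6] at h2
  have hk : k = 4182708 := by omega
  have hg : g = 262706 := by omega
  subst hk hg
  refine ⟨?_, h4⟩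
  rw [h3, h2]
  rfl

end H72Pu
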