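import Mathlib

namespace Pool.Agent.H72.VarDefs

/-- `w` is a law of the group `G`. -/
def IsLaw (G : Type) [Group G] (w : FreeGroup ℕ) : Prop :=
  ∀ f : ℕ → G, FreeGroup.lift f w = 1

/-- `G` lies in the variety defined by the set of laws `S`. -/
def InVar (S : Set (FreeGroup ℕ)) (G : Type) [Group G] : Prop := ∀ w ∈ S, IsLaw G w

/-- `G` generates the variety defined by `S`: it lies in it, and every law of `G` holds in all
groups of the variety. -/
def Generates (S : Set (FreeGroup ℕ)) (G : Type) [Group G] : Prop :=
  InVar S G ∧ ∀ w, IsLaw G w → ∀ (H : Type) [Group H], InVar S H → IsLaw H w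

/-- The relatively free group of rank `m`: the free group of rank `m` modulo the (normal)
subgroup generated by all values of the laws in `S`. -/
abbrev RelFree (S : Set (FreeGroup ℕ)) (m : ℕ) : Type :=
  PresentedGroup {v : FreeGroup (Fin m) | ∃ w ∈ S, ∃ f : ℕ → FreeGroup (Fin m),
    FreeGroup.lift f w = v}

/-- `G` can be generated by at most `k` elements. -/
def IsGenBy (k : ℕ) (G : Type) [Group G] : Prop :=
  ∃ s : Finset G, s.card ≤ k ∧ Subgroup.closure (s : Set G) = ⊤

end Pool.Agent.H72.VarDefs
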