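import Mathlib
import Pool.Agent.H72.VarDefs
import Pool.Agent.H72.Aff

namespace Pool.Agent.H72.ResGen

open Pool.Agent.H72.VarDefs Pool.Agent.H72.Aff
open scoped commutatorElement

theorem lift_comp {A B : Type} [Group A] [Group B] (φ : A →* B) (f : ℕ → A) (w : FreeGroup ℕ) :
    φ (FreeGroup.lift f w) = FreeGroup.lift (φ ∘ f) w := by
  have : φ.comp (FreeGroup.lift f) = FreeGroup.lift (φ ∘ f) :=
    FreeGroup.ext_hom _ _ fun a => by simp
  exact DFunLike.congr_fun this w

theorem IsLaw.of_surj {A B : Type} [Group A] [Group B] (φ : A →* B) (hφ : Function.Surjective φ)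
    {w} (h : IsLaw A w) : IsLaw B w := by
  intro f
  choose g hg using fun n => hφ (f n)
  have : f = φ ∘ g := funext fun n => (hg n).symm
  rw [this, ← lift_comp, h, map_one]

theorem relFree_inVar (S : Set (FreeGroup ℕ)) (m : ℕ) : InVar S (RelFree S m) := by
  intro w hw f
  choose g hg using fun n => PresentedGroup.mk_surjective _ (f n)
  have : f = PresentedGroup.mk _ ∘ g := funext fun n => (hg n).symm
  rw [this, ← lift_comp]
  exact PresentedGroup.one_of_mem ⟨w, hw, g, rfl⟩

def relLift {S : Set (FreeGroup ℕ)} {m : ℕ} {H : Type} [Group H] (hH : InVar S H) (a : Fin m → H) :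
    RelFree S m →* H :=
  PresentedGroup.toGroup (f := a) (by
    rintro _ ⟨w, hw, f, rfl⟩
    rw [lift_comp]; exact hH w hw _)

theorem relLift_of {S : Set (FreeGroup ℕ)} {m : ℕ} {H : Type} [Group H] (hH : InVar S H)
    (a : Fin m → H) (i : Fin m) : relLift hH a (PresentedGroup.of i) = a i :=
  PresentedGroup.toGroup.of _

/-! ### the word -/

section
variable {Q : Type} [Group Q]

def cj (φ m : Q) : Q := φ * m * φ⁻¹

def sg (ε : Bool) (m : Q) : Q := if ε then m⁻¹ else m

def st (ε : Bool) (φ m : Q) : Q := sg ε (cj φ m)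

def opn (ε : Bool) (φ m : Q) : ℕ → Q
  | 0 => 1
  | n + 1 => m * st ε φ (opn ε φ m n)

def op (p : Bool × Q) (m : Q) : Q := opn p.1 p.2 m 8

def base (x y z : Q) : List (Bool × Q) :=
  [(true, x ^ 2), (true, y ^ 2), (true, z ^ 2), (true, ⁅x, y⁆), (false, ⁅x, z⁆), (false, ⁅y, z⁆)]

def rep (x y z : Q) (b : Bool × Bool × Bool) : Q :=
  (if b.1 then x else 1) * (if b.2.1 then y else 1) * (if b.2.2 then z else 1)

def bs : List (Bool × Bool × Bool) := [(false, false, false), (false, false, true),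
  (false, true, false), (false, true, true), (true, false, false), (true, false, true),
  (true, true, false), (true, true, true)]

def lst (x y z : Q) : List (Bool × Q) :=
  bs.flatMap fun b => (base x y z).map fun p => (p.1, cj (rep x y z b) p.2)

def wd (x y z : Q) : Q := (lst x y z).foldr op (⁅z, x⁆ ^ 8)

variable {Q' : Type} [Group Q'] (f : Q →* Q')

theorem map_cj (φ m : Q) : f (cj φ m) = cj (f φ) (f m) := by simp [cj]
theorem map_sg (ε) (m : Q) : f (sg ε m) = sg ε (f m) := by cases ε <;> simp [sg]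
theorem map_opn (ε) (φ m : Q) (n) : f (opn ε φ m n) = opn ε (f φ) (f m) n := by
  induction n with
  | zero => simp [opn]
  | succ n ih => simp [opn, st, map_sg, map_cj, ih]
theorem map_rep (x y z : Q) (b) : f (rep x y z b) = rep (f x) (f y) (f z) b := by
  simp only [rep, map_mul, apply_ite f, map_one]
theorem map_wd (x y z : Q) : f (wd x y z) = wd (f x) (f y) (f z) := by
  have h1 : ∀ (l : List (Bool × Q)) (m : Q),
      f (l.foldr op m) = (l.map fun p => (p.1, f p.2)).foldr op (f m) := by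
    intro l m
    induction l with
    | nil => rfl
    | cons p l ih => simp only [List.foldr_cons, List.map_cons, op, map_opn, ← ih]
  rw [wd, wd, h1, map_pow, map_commutatorElement]
  congr 1
  simp only [lst, List.map_flatMap, base, List.map_cons, List.map_nil, map_cj,
    map_rep, map_pow, map_commutatorElement]

theorem opn_eigen (ε) (φ m : Q) (h : st ε φ m = m) (n : ℕ) : opn ε φ m n = m ^ n := by
  have h2 : ∀ k : ℕ, st ε φ (m ^ k) = m ^ k := by
    intro k
    cases ε
    · simp only [st, sg, cj, Bool.false_eq_true, if_false] at h ⊢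
      rw [← conj_pow, h]
    · simp only [st, sg, cj, if_true] at h ⊢
      rw [← conj_pow, ← inv_pow, h]
  induction n with
  | zero => simp [opn]
  | succ n ih => rw [opn, ih, h2, pow_succ']

theorem foldr_eigen (l : List (Bool × Q)) (m : Q) (h : ∀ p ∈ l, st p.1 p.2 m = m) :
    l.foldr op m = m ^ 8 ^ l.length := by
  induction l with
  | nil => simp
  | cons p l ih =>
    rw [List.foldr_cons, ih fun q hq => h q (by simp [hq]), op, opn_eigen, ← pow_mul,
      List.length_cons, pow_succ]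
    have := opn_eigen p.1 p.2 m (h p (by simp))
    have h3 := this (8 ^ l.length + 1)
    rw [opn, this, pow_succ'] at h3
    exact mul_left_cancel h3

end

/-! ### groups satisfying the three laws -/

structure Good (Q : Type) [Group Q] : Prop where
  l1 : ∀ a b : Q, Commute (a ^ 8) (b ^ 8)
  l2 : ∀ a b c : Q, Commute ⁅a ^ 2, b ^ 2⁆ (c ^ 8)
  l3 : ∀ a : Q, a ^ 40 = 1

section
variable {Q : Type} [Group Q]

def PW (Q : Type) [Group Q] (k : ℕ) : Subgroup Q := Subgroup.closure (Set.range fun a : Q => a ^ k)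

theorem pw_mem (k : ℕ) (a : Q) : a ^ k ∈ PW Q k := Subgroup.subset_closure ⟨a, rfl⟩

instance (k : ℕ) : (PW Q k).Normal := ⟨fun m hm a => by
  induction hm using Subgroup.closure_induction with
  | mem g h => obtain ⟨b, rfl⟩ := h; simpa only [← conj_pow] using pw_mem k (a * b * a⁻¹)
  | one => simp
  | mul g h _ _ hg hh => simpa [mul_assoc] using (PW Q k).mul_mem hg hh
  | inv g _ hg => simpa [mul_assoc] using (PW Q k).inv_mem hg⟩

theorem comm_of {s t : Set Q} (h : ∀ a ∈ s, ∀ b ∈ t, Commute a b) {m n : Q}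
    (hm : m ∈ Subgroup.closure s) (hn : n ∈ Subgroup.closure t) : Commute m n := by
  induction hm using Subgroup.closure_induction with
  | mem g hg =>
    induction hn using Subgroup.closure_induction with
    | mem g' hg' => exact h _ hg _ hg'
    | one => simp
    | mul g h _ _ hg hh => exact hg.mul_right hh
    | inv g _ hg => exact hg.inv_right
  | one => simp
  | mul g h _ _ hg hh => exact hg.mul_left hh
  | inv g _ hg => exact hg.inv_left

theorem A_comm (hQ : Good Q) {m n : Q} (hm : m ∈ PW Q 8) (hn : n ∈ PW Q 8) : Commute m n :=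
  comm_of (by rintro _ ⟨a, rfl⟩ _ ⟨b, rfl⟩; exact hQ.l1 a b) hm hn

theorem A_five (hQ : Good Q) {m : Q} (hm : m ∈ PW Q 8) : m ^ 5 = 1 := by
  induction hm using Subgroup.closure_induction with
  | mem g h => obtain ⟨b, rfl⟩ := h; rw [← pow_mul]; exact hQ.l3 b
  | one => simp
  | mul g h a b hg hh => rw [(A_comm hQ a b).mul_pow, hg, hh, one_mul]
  | inv g _ hg => rw [inv_pow, hg, inv_one]

theorem cj_mem (a : Q) {m : Q} (hm : m ∈ PW Q 8) : cj a m ∈ PW Q 8 :=
  Subgroup.Normal.conj_mem inferInstance m hm a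

theorem cj_mul (a b m : Q) : cj (a * b) m = cj a (cj b m) := by simp [cj, mul_assoc]

/-- conjugation action on `A` -/
def act : Q →* MulAut (PW Q 8) := MulAut.conjNormal

theorem act_apply (a : Q) (m : PW Q 8) : (act a m : Q) = cj a m := rfl

theorem act_comm (hQ : Good Q) {a b : Q} (ha : a ∈ PW Q 2) (hb : b ∈ PW Q 2) :
    Commute (act a) (act b) := by
  have h : ∀ a b : Q, Commute (act (a ^ 2)) (act (b ^ 2)) := by
    intro a b
    rw [← commutatorElement_eq_one_iff_commute, ← map_commutatorElement]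
    ext m
    rw [act_apply]
    have : Commute ⁅a ^ 2, b ^ 2⁆ (m : Q) :=
      comm_of (s := {⁅a ^ 2, b ^ 2⁆}) (by rintro _ rfl _ ⟨c, rfl⟩; exact hQ.l2 a b c)
        (Subgroup.subset_closure rfl) m.2
    rw [cj, this.eq, mul_inv_cancel_right]; rfl
  refine comm_of (s := act '' Set.range fun a : Q => a ^ 2) (t := act '' Set.range fun a : Q => a ^ 2)
    (by rintro _ ⟨_, ⟨a, rfl⟩, rfl⟩ _ ⟨_, ⟨b, rfl⟩, rfl⟩; exact h a b) ?_ ?_
  · rw [← MonoidHom.map_closure]; exact ⟨a, ha, rfl⟩
  · rw [← MonoidHom.map_closure]; exact ⟨b, hb, rfl⟩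

theorem cj_comm (hQ : Good Q) {a b m : Q} (ha : a ∈ PW Q 2) (hb : b ∈ PW Q 2) (hm : m ∈ PW Q 8) :
    cj a (cj b m) = cj b (cj a m) :=
  congrArg (fun e : MulAut (PW Q 8) => (e ⟨m, hm⟩ : Q)) (act_comm hQ ha hb).eq

theorem st_mem (ε) (a : Q) {m : Q} (hm : m ∈ PW Q 8) : st ε a m ∈ PW Q 8 := by
  cases ε
  · exact cj_mem a hm
  · exact (PW Q 8).inv_mem (cj_mem a hm)

theorem st_mul (hQ : Good Q) (ε) (a : Q) {m n : Q} (hm : m ∈ PW Q 8) (hn : n ∈ PW Q 8) :
    st ε a (m * n) = st ε a m * st ε a n := by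
  have : cj a (m * n) = cj a m * cj a n := by simp [cj, mul_assoc]
  cases ε
  · exact this
  · simp only [st, sg, if_true, this]
    rw [(A_comm hQ (cj_mem a hm) (cj_mem a hn)).eq, mul_inv_rev]

theorem st_st (hQ : Good Q) (ε ε') {a b m : Q} (ha : a ∈ PW Q 2) (hb : b ∈ PW Q 2)
    (hm : m ∈ PW Q 8) : st ε a (st ε' b m) = st ε' b (st ε a m) := by
  have h1 : ∀ c n : Q, cj c n⁻¹ = (cj c n)⁻¹ := fun c n => by simp [cj, mul_assoc]
  cases ε <;> cases ε' <;> simp [st, sg, h1, cj_comm hQ ha hb hm]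

theorem opn_mem (ε) (a : Q) {m : Q} (hm : m ∈ PW Q 8) (n) : opn ε a m n ∈ PW Q 8 := by
  induction n with
  | zero => exact (PW Q 8).one_mem
  | succ n ih => exact (PW Q 8).mul_mem hm (st_mem _ _ ih)

theorem st_one (ε) (a : Q) : st ε a 1 = 1 := by cases ε <;> simp [st, sg, cj]

theorem st_opn (hQ : Good Q) (ε ε') {a b m : Q} (ha : a ∈ PW Q 2) (hb : b ∈ PW Q 2)
    (hm : m ∈ PW Q 8) (h : st ε a m = m) (n) : st ε a (opn ε' b m n) = opn ε' b m n := by
  induction n with
  | zero => exact st_one _ _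
  | succ n ih =>
    rw [opn, st_mul hQ _ _ hm (st_mem _ _ (opn_mem _ _ hm n)), h,
      st_st hQ _ _ ha hb (opn_mem _ _ hm n), ih]

theorem st_op (hQ : Good Q) (ε) (a : Q) {m : Q} (hm : m ∈ PW Q 8) :
    st ε a (opn ε a m 8) = opn ε a m 8 := by
  have h1 : ∀ n, opn ε a m (n + 1) = opn ε a m n * (st ε a)^[n] m ∧ (st ε a)^[n] m ∈ PW Q 8 := by
    intro n
    induction n with
    | zero => simp [opn, st_one, hm]
    | succ n ih =>
      refine ⟨?_, by rw [Function.iterate_succ_apply']; exact st_mem _ _ ih.2⟩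
      rw [opn, Function.iterate_succ_apply']
      conv_lhs => rw [ih.1]
      rw [st_mul hQ _ _ (opn_mem _ _ hm n) ih.2, opn, mul_assoc]
  have h2 : (st ε a)^[8] m = m := by
    have h3 : ∀ n : Q, (st ε a)^[2] n = cj (a ^ 2) n := by
      intro n; cases ε <;> simp [st, sg, cj, sq, mul_assoc]
    have : (st ε a)^[8] m = cj (a ^ 8) m := by
      rw [show 8 = 2 + 2 + 2 + 2 from rfl]
      simp only [Function.iterate_add_apply, h3, ← cj_mul, pow_add, mul_assoc]
    rw [this, cj, (A_comm hQ (pw_mem 8 a) hm).eq, mul_inv_cancel_right]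
  have h4 := (h1 8).1
  rw [h2, opn, ← (A_comm hQ hm (opn_mem _ _ hm 8)).eq] at h4
  exact mul_left_cancel h4

theorem foldr_fix (hQ : Good Q) (l : List (Bool × Q)) (hl : ∀ p ∈ l, p.2 ∈ PW Q 2) {m : Q}
    (hm : m ∈ PW Q 8) :
    l.foldr op m ∈ PW Q 8 ∧ ∀ p ∈ l, st p.1 p.2 (l.foldr op m) = l.foldr op m := by
  induction l with
  | nil => simpa using hm
  | cons q l ih =>
    obtain ⟨h1, h2⟩ := ih fun p hp => hl p (by simp [hp])
    refine ⟨opn_mem _ _ h1 8, fun p hp => ?_⟩
    rcases List.mem_cons.1 hp with rfl | hp'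
    · exact st_op hQ _ _ h1
    · exact st_opn hQ _ _ (hl p hp) (hl q (by simp)) h1 (h2 p hp') 8

theorem comm_mem (a b : Q) : ⁅a, b⁆ ∈ PW Q 2 := by
  have : ⁅a, b⁆ = a ^ 2 * (a⁻¹ * b) ^ 2 * (b ^ 2)⁻¹ := by
    simp only [sq, commutatorElement_def]; group
  rw [this]
  exact (PW Q 2).mul_mem ((PW Q 2).mul_mem (pw_mem _ _) (pw_mem _ _)) ((PW Q 2).inv_mem (pw_mem _ _))

def bx (b c : Bool × Bool × Bool) : Bool × Bool × Bool :=
  (xor b.1 c.1, xor b.2.1 c.2.1, xor b.2.2 c.2.2)

theorem mem_bs : ∀ b, b ∈ bs := by decide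
theorem bx_ne : ∀ b c, b ≠ c → bx b c ≠ (false, false, false) := by decide

theorem rep_mul {E : Type} [Group E] (h2 : ∀ e : E, e * e = 1) (hc : ∀ a b : E, a * b = b * a)
    (x y z : E) (b c) : rep x y z b * rep x y z c = rep x y z (bx b c) := by
  let _ : CommGroup E := { (inferInstance : Group E) with mul_comm := hc }
  have aux : ∀ (x : E) (b c : Bool), (if b then x else 1) * (if c then x else 1) =
      if xor b c then x else 1 := by
    intro x b c; cases b <;> cases c <;> simp [h2]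
  rw [rep, rep, mul_mul_mul_comm, mul_mul_mul_comm (if b.1 then x else 1), aux, aux, aux]
  rfl

theorem exists_rep {E : Type} [Group E] (h2 : ∀ e : E, e * e = 1) (hc : ∀ a b : E, a * b = b * a)
    (x y z : E) {e : E} (he : e ∈ Subgroup.closure {x, y, z}) : ∃ b, e = rep x y z b := by
  induction he using Subgroup.closure_induction with
  | mem g h =>
    rcases h with rfl | rfl | rfl
    · exact ⟨(true, false, false), by simp [rep]⟩
    · exact ⟨(false, true, false), by simp [rep]⟩
    · exact ⟨(false, false, true), by simp [rep]⟩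
  | one => exact ⟨(false, false, false), by simp [rep]⟩
  | mul g h _ _ hg hh =>
    obtain ⟨b, rfl⟩ := hg; obtain ⟨c, rfl⟩ := hh
    exact ⟨_, rep_mul h2 hc x y z b c⟩
  | inv g _ hg =>
    obtain ⟨b, rfl⟩ := hg
    exact ⟨b, inv_eq_of_mul_eq_one_left (h2 _)⟩

theorem E_sq (e : Q ⧸ PW Q 2) : e * e = 1 := by
  obtain ⟨a, rfl⟩ := QuotientGroup.mk_surjective e
  rw [← QuotientGroup.mk_mul, QuotientGroup.eq_one_iff, ← sq]; exact pw_mem 2 a

theorem E_comm (e e' : Q ⧸ PW Q 2) : e * e' = e' * e := by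
  obtain ⟨a, rfl⟩ := QuotientGroup.mk'_surjective _ e
  obtain ⟨b, rfl⟩ := QuotientGroup.mk'_surjective _ e'
  rw [← commutatorElement_eq_one_iff_mul_comm, ← map_commutatorElement]
  exact (QuotientGroup.eq_one_iff _).2 (comm_mem a b)

theorem decomp (x y z : Q) {q : Q} (hq : q ∈ Subgroup.closure {x, y, z}) :
    ∃ b, (q : Q ⧸ PW Q 2) = (rep x y z b : Q) := by
  have : (q : Q ⧸ PW Q 2) ∈ Subgroup.closure {(x : Q ⧸ PW Q 2), (y : Q ⧸ PW Q 2), (z : Q ⧸ PW Q 2)} := by
    have := Subgroup.mem_map_of_mem (QuotientGroup.mk' (PW Q 2)) hq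
    rw [MonoidHom.map_closure] at this
    simpa [Set.image_insert_eq] using this
  obtain ⟨b, hb⟩ := exists_rep E_sq E_comm _ _ _ this
  exact ⟨b, hb.trans (map_rep (QuotientGroup.mk' (PW Q 2)) x y z b).symm⟩

theorem dies (hQ : Good Q) (x y z : Q) (hg : Subgroup.closure {x, y, z} = ⊤) (h2 : IsGenBy 2 Q) :
    wd x y z = 1 := by
  by_contra hne
  have hbase : ∀ p ∈ base x y z, p.2 ∈ PW Q 2 := by
    simp only [base, List.mem_cons, List.not_mem_nil, or_false]
    rintro _ (rfl | rfl | rfl | rfl | rfl | rfl) <;> first | exact pw_mem _ _ | exact comm_mem _ _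
  obtain ⟨hA, hfix⟩ := foldr_fix hQ (lst x y z) (by
    simp only [lst, List.mem_flatMap, List.mem_map]
    rintro _ ⟨b, -, p, hp, rfl⟩
    exact Subgroup.Normal.conj_mem inferInstance _ (hbase p hp) _) (pw_mem 8 ⁅z, x⁆)
  change wd x y z ∈ _ at hA
  change ∀ p ∈ lst x y z, st p.1 p.2 (wd x y z) = wd x y z at hfix
  set a := wd x y z
  -- every base element acts by its sign on all conjugates of `a`
  have hall : ∀ p ∈ base x y z, ∀ q : Q, st p.1 p.2 (cj q a) = cj q a := by
    intro p hp q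
    obtain ⟨b, hb⟩ := decomp x y z (q := q⁻¹) (by rw [hg]; trivial)
    have hb' : (rep x y z b)⁻¹ * q⁻¹ ∈ PW Q 2 := QuotientGroup.eq.1 hb.symm
    set t := rep x y z b
    set ψ := t⁻¹ * q⁻¹
    have h1 := hfix (p.1, cj t p.2) (by
      simp only [lst, List.mem_flatMap, List.mem_map]
      exact ⟨b, mem_bs b, p, hp, rfl⟩)
    have h3 : st p.1 p.2 (cj t⁻¹ a) = cj t⁻¹ a := by
      conv_rhs => rw [← h1]
      cases p.1 <;> simp [st, sg, cj, mul_assoc]
    have h4 : cj q a = st false ψ⁻¹ (cj t⁻¹ a) := by simp [st, sg, cj, ψ, mul_assoc]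
    rw [h4, st_st hQ _ _ (hbase p hp) ((PW Q 2).inv_mem hb') (cj_mem _ hA), h3]
  let C : Subgroup Q :=
    { carrier := {c | ∃ ε, ∀ q, st ε c (cj q a) = cj q a}
      one_mem' := ⟨false, fun q => by simp [st, sg, cj]⟩
      mul_mem' := by
        rintro c d ⟨ε, hc⟩ ⟨ε', hd⟩
        refine ⟨xor ε ε', fun q => ?_⟩
        conv_rhs => rw [← hc q, ← hd q]
        cases ε <;> cases ε' <;> simp [st, sg, cj, mul_assoc]
      inv_mem' := by
        rintro c ⟨ε, hc⟩
        refine ⟨ε, fun q => ?_⟩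
        conv_lhs => rw [← hc q]
        cases ε <;> simp [st, sg, cj, mul_assoc] }
  have hCn : C.Normal := ⟨by
    rintro c ⟨ε, hc⟩ g
    refine ⟨ε, fun q => ?_⟩
    have := congrArg (cj g) (hc (g⁻¹ * q))
    cases ε <;> simpa [st, sg, cj, mul_assoc] using this⟩
  have hbC : ∀ p ∈ base x y z, p.2 ∈ C := fun p hp => ⟨p.1, hall p hp⟩
  have hPhi : PW Q 2 ≤ C := by
    let π := QuotientGroup.mk' C
    have hs : ∀ p ∈ base x y z, π p.2 = 1 := fun p hp => (QuotientGroup.eq_one_iff _).2 (hbC p hp)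
    simp only [base, List.mem_cons, List.not_mem_nil, or_false, forall_eq_or_imp, forall_eq,
      map_pow, map_commutatorElement, commutatorElement_eq_one_iff_commute] at hs
    obtain ⟨s1, s2, s3, c1, c2, c3⟩ := hs
    have htop : Subgroup.closure {π x, π y, π z} = ⊤ := by
      have := congrArg (Subgroup.map π) hg
      rw [MonoidHom.map_closure, Subgroup.map_top_of_surjective _ (QuotientGroup.mk'_surjective C)]
        at this
      simpa [Set.image_insert_eq] using this
    have hc : ∀ e e' : Q ⧸ C, Commute e e' := fun e e' =>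
      comm_of (s := {π x, π y, π z}) (t := {π x, π y, π z}) (by
        rintro _ (rfl | rfl | rfl) _ (rfl | rfl | rfl) <;>
          first | exact Commute.refl _ | assumption | (apply Commute.symm; assumption))
        (by rw [htop]; trivial) (by rw [htop]; trivial)
    have hsq : ∀ e : Q ⧸ C, e ^ 2 = 1 := by
      intro e
      have : e ∈ Subgroup.closure {π x, π y, π z} := by rw [htop]; trivial
      induction this using Subgroup.closure_induction with
      | mem g h => rcases h with rfl | rfl | rfl <;> assumption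
      | one => simp
      | mul g h _ _ hg hh => rw [(hc g h).mul_pow, hg, hh, one_mul]
      | inv g _ hg => rw [inv_pow, hg, inv_one]
    rw [PW, Subgroup.closure_le]
    rintro _ ⟨c, rfl⟩
    exact (QuotientGroup.eq_one_iff _).1 ((map_pow π c 2).trans (hsq _))
  have hnot : ∀ c : Q, (∀ q, st true c (cj q a) = cj q a) → (∀ q, st false c (cj q a) = cj q a) →
      False := by
    intro c h1 h2
    have h3 := h1 1
    have h4 := h2 1
    simp only [st, sg, cj, if_true, Bool.false_eq_true, if_false, one_mul, inv_one, mul_one] at h3 h4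
    rw [h4, inv_eq_iff_mul_eq_one] at h3
    have h5 := A_five hQ hA
    rw [show a ^ 5 = a * (a * a) * (a * a) by simp [pow_succ, mul_assoc], h3] at h5
    exact hne (by simpa using h5)
  have hcomm : ∀ c ∈ C, ∀ d q : Q, st false ⁅c, d⁆ (cj q a) = cj q a := by
    rintro c ⟨ε, hc⟩ d q
    have h1 := hc q
    have h2 := congrArg (cj d) (hc (d⁻¹ * q))
    obtain ⟨ε', hc'⟩ := C.inv_mem ⟨ε, hc⟩
    have h3 : ∀ q, st ε c⁻¹ (cj q a) = cj q a := fun q => by
      conv_lhs => rw [← hc q]
      cases ε <;> simp [st, sg, cj, mul_assoc]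
    have h4 : st false ⁅c, d⁆ (cj q a) = st ε c (cj d (st ε c⁻¹ (cj (d⁻¹ * q) a))) := by
      cases ε <;> simp [st, sg, cj, mul_assoc, commutatorElement_def]
    rw [h4, h3, ← cj_mul, mul_inv_cancel_left, hc]
  have hxy := hall (true, ⁅x, y⁆) (by simp [base])
  have hxz := hall (false, ⁅x, z⁆) (by simp [base])
  have hyz := hall (false, ⁅y, z⁆) (by simp [base])
  have hz := hall (true, z ^ 2) (by simp [base])
  simp only at hxy hxz hyz hz
  have fix : ∀ c, (∀ q, st false c (cj q a) = cj q a) → ∀ g q, st false (cj g c) (cj q a) = cj q a := by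
    intro c hc g q
    have := congrArg (cj g) (hc (g⁻¹ * q))
    simpa [st, sg, cj, mul_assoc] using this
  have fmul : ∀ c d, (∀ q, st false c (cj q a) = cj q a) → (∀ q, st false d (cj q a) = cj q a) →
      ∀ q, st false (c * d) (cj q a) = cj q a := by
    intro c d hc hd q
    change cj (c * d) _ = _
    rw [cj_mul]
    exact (congrArg (cj c) (hd q)).trans (hc q)
  have finv : ∀ c, (∀ q, st false c (cj q a) = cj q a) → ∀ q, st false c⁻¹ (cj q a) = cj q a := by
    intro c hc q
    conv_lhs => rw [← hc q]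
    simp [st, sg, cj, mul_assoc]
  have nontriv : ∀ b, b ≠ (false, false, false) → rep x y z b ∉ C := by
    rintro ⟨b1, b2, b3⟩ hb hC
    have k1 := hcomm _ hC x
    have k2 := hcomm _ hC y
    cases b1 <;> cases b2 <;> cases b3 <;>
      simp only [rep, if_true, Bool.false_eq_true, if_false, one_mul, mul_one] at hC k1 k2
    · exact hb rfl
    · obtain ⟨ε, h⟩ := hC
      refine hnot _ hz fun q => ?_
      conv_rhs => rw [← h q, ← h q]
      cases ε <;> simp [st, sg, cj, mul_assoc, sq]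
    · exact hnot _ hxy (by simpa using finv _ k1)
    · refine hnot _ hxy ?_
      have e2 : ⁅x, y⁆ = ⁅y * z, x⁆⁻¹ * (cj y ⁅x, z⁆)⁻¹ := by
        simp only [cj, commutatorElement_def]; group
      rw [e2]; exact fmul _ _ (finv _ k1) (finv _ (fix _ hxz y))
    · exact hnot _ hxy k2
    · refine hnot _ hxy ?_
      have e2 : ⁅x, y⁆ = cj x ⁅y, z⁆ * ⁅x * z, y⁆ := by
        simp only [cj, commutatorElement_def]; group
      rw [e2]; exact fmul _ _ (fix _ hyz x) k2
    · refine hnot _ hxy ?_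
      have e2 : ⁅x, y⁆ = ⁅x * y, y⁆ := by
        simp only [commutatorElement_def]; group
      rw [e2]; exact k2
    · refine hnot _ hxy ?_
      have e2 : ⁅x, y⁆ = cj (x * y) ⁅y, z⁆ * ⁅x * y * z, y⁆ := by
        simp only [cj, commutatorElement_def]; group
      rw [e2]; exact fmul _ _ (fix _ hyz _) k2
  obtain ⟨s, hs, hs'⟩ := h2
  obtain ⟨u, v, huv⟩ : ∃ u v : Q, (s : Set Q) ⊆ {u, v, 1} := by
    classical
    rcases Nat.le_succ_iff.1 hs with h | h
    · obtain ⟨u, hu⟩ := Finset.card_le_one_iff_subset_singleton.1 h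
      exact ⟨u, u, fun w hw => Or.inl (by simpa using hu hw)⟩
    · obtain ⟨u, v, -, rfl⟩ := Finset.card_eq_two.1 h
      exact ⟨u, v, fun w hw => by simp at hw; rcases hw with rfl | rfl <;> simp⟩
  have htop : ∀ q : Q, q ∈ Subgroup.closure {u, v, 1} := fun q =>
    Subgroup.closure_mono huv (by rw [hs']; trivial)
  let π := QuotientGroup.mk' (PW Q 2)
  have hd : ∀ q : Q, ∃ b : Bool × Bool, π q = rep (π u) (π v) 1 (b.1, b.2, false) := by
    intro q
    obtain ⟨b, hb⟩ := decomp u v 1 (htop q)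
    refine ⟨(b.1, b.2.1), hb.trans ((map_rep π u v 1 b).trans ?_)⟩
    simp [rep]
  choose F hF using hd
  obtain ⟨b, c, hbc, h⟩ := Fintype.exists_ne_map_eq_of_card_lt (fun b => F (rep x y z b)) (by simp)
  apply nontriv (bx b c) (bx_ne b c hbc)
  apply hPhi
  rw [← QuotientGroup.eq_one_iff]
  change π _ = 1
  rw [map_rep, ← rep_mul E_sq E_comm, ← map_rep, ← map_rep, hF, hF (rep x y z c), h]
  exact E_sq _

end

/-! ### the finite group -/

structure K where
  a : Fin 4
  b : Fin 4
  s : Bool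
deriving DecidableEq, Fintype

instance : Mul K := ⟨fun x y =>
  if x.s then ⟨x.a + y.b, x.b + y.a, !y.s⟩ else ⟨x.a + y.a, x.b + y.b, y.s⟩⟩
instance : One K := ⟨⟨0, 0, false⟩⟩
instance : Inv K := ⟨fun x => if x.s then ⟨-x.b, -x.a, true⟩ else ⟨-x.a, -x.b, false⟩⟩
instance : Group K := Group.ofLeftAxioms (by decide +kernel) (by decide +kernel) (by decide +kernel)

def p2 : Fin 4 → ZMod 5 := ![1, 2, 4, 3]
abbrev V : Type := ZMod 5 × ZMod 5
instance : SMul K V := ⟨fun x v =>
  if x.s then (p2 x.a * v.2, p2 x.b * v.1) else (p2 x.a * v.1, p2 x.b * v.2)⟩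
instance : DistribMulAction K V where
  one_smul := by decide +kernel
  mul_smul := by decide +kernel
  smul_zero := by decide +kernel
  smul_add := by decide +kernel

abbrev G0 : Type := Aff K V

instance : DecidableEq G0 := fun x y =>
  decidable_of_iff (x.v = y.v ∧ x.q = y.q) Aff.ext_iff.symm

theorem good_G0 : Good G0 := by
  have h8 : ∀ a : G0, (a ^ 8).q = 1 := fun a => by
    have : ∀ k : K, k ^ 8 = 1 := by decide +kernel
    exact (map_pow proj a 8).trans (this _)
  have hc : ∀ a b : G0, a.q = 1 → b.q = 1 → Commute a b := fun x y hx hy =>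
    Aff.ext (by simp [hx, hy, add_comm]) (by simp [hx, hy])
  refine ⟨fun a b => hc _ _ (h8 a) (h8 b), fun a b c => hc _ _ ?_ (h8 c), fun a => ?_⟩
  · have : ∀ k l : K, ⁅k ^ 2, l ^ 2⁆ = 1 := by decide +kernel
    have h := this a.q b.q
    rw [← proj_apply, map_commutatorElement, map_pow, map_pow]; exact h
  · have : a ^ 8 = tr (a ^ 8).v := Aff.ext rfl (h8 a)
    rw [show 40 = 8 * 5 from rfl, pow_mul, this, ← tr_nsmul]
    have : ∀ v : V, 5 • v = 0 := by decide +kernel
    rw [this, tr_zero]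

def s0 : G0 := ⟨(0, 1), ⟨1, 0, false⟩⟩
def t0 : G0 := ⟨(0, 0), ⟨0, 0, true⟩⟩
def x0 : G0 := s0 * (t0 * s0 * t0) ^ 3
def z0 : G0 := s0 * (t0 * s0 * t0)
def y0 : G0 := z0 * t0

theorem wd_ne : wd x0 y0 z0 ≠ 1 := by
  rw [wd, foldr_eigen _ _ (by decide +kernel)]
  intro h
  have h5 : (⁅z0, x0⁆ ^ 8) ^ 5 = 1 := by decide +kernel
  have := pow_gcd_eq_one.2 ⟨h, h5⟩
  rw [Nat.Coprime.gcd_eq_one (Nat.Coprime.pow_left _ (by norm_num)), pow_one] at this
  revert this
  decide +kernel

def H0 : Subgroup G0 := Subgroup.closure {s0, t0}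
def S : Set (FreeGroup ℕ) := {w | IsLaw H0 w}

theorem good_of_inVar (Q : Type) [Group Q] (h : InVar S Q) : Good Q := by
  have sub : ∀ w, IsLaw G0 w → IsLaw Q w := fun w hw => h w fun f =>
    H0.subtype_injective (by rw [lift_comp, hw, map_one])
  refine ⟨fun a b => ?_, fun a b c => ?_, fun a => ?_⟩
  · have := sub ⁅FreeGroup.of 0 ^ 8, FreeGroup.of 1 ^ 8⁆ (fun f => by
      simp only [map_commutatorElement, map_pow, commutatorElement_eq_one_iff_commute]
      exact good_G0.l1 _ _) (fun n => if n = 0 then a else b)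
    simpa [map_commutatorElement, commutatorElement_eq_one_iff_commute] using this
  · have := sub ⁅⁅FreeGroup.of 0 ^ 2, FreeGroup.of 1 ^ 2⁆, FreeGroup.of 2 ^ 8⁆ (fun f => by
      simp only [map_commutatorElement, map_pow, commutatorElement_eq_one_iff_commute]
      exact good_G0.l2 _ _ _) (fun n => if n = 0 then a else if n = 1 then b else c)
    simpa [map_commutatorElement, commutatorElement_eq_one_iff_commute] using this
  · have := sub (FreeGroup.of 0 ^ 40) (fun f => by
      simp only [map_pow]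
      exact good_G0.l3 _) (fun _ => a)
    simpa using this

theorem main : Generates S (RelFree S 2) ∧ ∃ g : RelFree S 3, g ≠ 1 ∧
    ∀ (N : Subgroup (RelFree S 3)) [N.Normal], IsGenBy 2 (RelFree S 3 ⧸ N) → g ∈ N := by
  have hH : InVar S H0 := fun w hw => hw
  have hs : s0 ∈ H0 := Subgroup.subset_closure (by simp)
  have ht : t0 ∈ H0 := Subgroup.subset_closure (by simp)
  refine ⟨⟨relFree_inVar S 2, fun w hw H _ h => h w ?_⟩,
    wd (PresentedGroup.of 0) (PresentedGroup.of 1) (PresentedGroup.of 2), fun h => wd_ne ?_,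
    fun N _ hN => ?_⟩
  · refine IsLaw.of_surj (relLift hH ![⟨s0, hs⟩, ⟨t0, ht⟩]) ?_ hw
    rintro ⟨g, hg⟩
    induction hg using Subgroup.closure_induction with
    | mem g h =>
      rcases h with rfl | rfl
      · exact ⟨_, relLift_of _ _ 0⟩
      · exact ⟨_, relLift_of _ _ 1⟩
    | one => exact ⟨1, map_one _⟩
    | mul g h _ _ hg hh =>
      obtain ⟨a, ha⟩ := hg; obtain ⟨b, hb⟩ := hh
      exact ⟨a * b, by rw [map_mul, ha, hb]; rfl⟩
    | inv g _ hg => obtain ⟨a, ha⟩ := hg; exact ⟨a⁻¹, by rw [map_inv, ha]; rfl⟩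
  · have h1 := H0.mul_mem (H0.mul_mem ht hs) ht
    have hz : z0 ∈ H0 := H0.mul_mem hs h1
    have := congrArg (H0.subtype.comp (relLift hH
      ![⟨x0, H0.mul_mem hs (H0.pow_mem h1 3)⟩, ⟨y0, H0.mul_mem hz ht⟩, ⟨z0, hz⟩])) h
    rw [map_wd, map_one] at this
    simp only [MonoidHom.comp_apply, relLift_of] at this
    exact this
  · rw [← QuotientGroup.eq_one_iff]
    change QuotientGroup.mk' N _ = 1
    rw [map_wd]
    refine dies (good_of_inVar _ fun w hw => IsLaw.of_surj _ (QuotientGroup.mk'_surjective N)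
      (relFree_inVar S 3 w hw)) _ _ _ ?_ hN
    have := congrArg (Subgroup.map (QuotientGroup.mk' N)) (PresentedGroup.closure_range_of
      {v : FreeGroup (Fin 3) | ∃ w ∈ S, ∃ f : ℕ → FreeGroup (Fin 3), FreeGroup.lift f w = v})
    rw [MonoidHom.map_closure, Subgroup.map_top_of_surjective _ (QuotientGroup.mk'_surjective N)]
      at this
    rw [← this]
    congr 1
    ext q
    simp only [Set.mem_insert_iff, Set.mem_singleton_iff, ← Set.range_comp, Set.mem_range,
      Function.comp_apply, Fin.exists_fin_succ, IsEmpty.exists_iff, or_false, eq_comm]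
    rfl

end Pool.Agent.H72.ResGen
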