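import Mathlib

namespace Pool.Agent.H72.Reverser

open Module MvPowerSeries

/-! ### The retraction onto roots of unity -/

theorem exists_psi : ∃ ψ : ℂ → ℂ, ψ 1 = 1 ∧ (∀ a b, ψ (a * b) = ψ a * ψ b) ∧
    (∀ a, ψ (-a) = -ψ a) ∧ ∀ a, a ≠ 0 → ∃ N : ℕ, 0 < N ∧ ψ a ^ N = 1 := by
  obtain ⟨r, hr⟩ : ∃ r : ℝ →ₗ[ℚ] ℚ, r 1 = 1 := by
    have : ¬ ∀ f : Module.Dual ℚ ℝ, f 1 = 0 := by
      rw [Module.forall_dual_apply_eq_zero_iff]; norm_num
    push Not at this
    obtain ⟨f, hf⟩ := this
    exact ⟨(f 1)⁻¹ • f, by simp [hf]⟩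
  let e : ℝ → ℂ := fun t => Complex.exp (2 * Real.pi * Complex.I * (r t : ℂ))
  have eadd : ∀ s t, e (s + t) = e s * e t := by
    intro s t; simp only [e, map_add]; rw [← Complex.exp_add]; push_cast; ring_nf
  have rq : ∀ q : ℚ, r q = q := fun q => by
    have := r.map_smul q 1
    simpa [hr] using this
  have eint : ∀ k : ℤ, e k = 1 := by
    intro k
    have : r (k : ℝ) = k := by exact_mod_cast rq k
    simp only [e, this]
    rw [← Complex.exp_int_mul_two_pi_mul_I k]; push_cast; ring_nf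
  let ψ : ℂ → ℂ := fun a => if a = 0 then 0 else e (a.arg / (2 * Real.pi))
  have hmul : ∀ a b, ψ (a * b) = ψ a * ψ b := by
    intro a b
    by_cases ha : a = 0
    · simp [ψ, ha]
    by_cases hb : b = 0
    · simp [ψ, hb]
    simp only [ψ, ha, hb, mul_eq_zero, or_self, if_false]
    have := Complex.arg_mul_coe_angle ha hb
    rw [← Real.Angle.coe_add, Real.Angle.angle_eq_iff_two_pi_dvd_sub] at this
    obtain ⟨k, hk⟩ := this
    have h2 : (a * b).arg / (2 * Real.pi) =
        a.arg / (2 * Real.pi) + b.arg / (2 * Real.pi) + k := by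
      have : (a * b).arg = a.arg + b.arg + 2 * Real.pi * k := by linarith
      rw [this]; field_simp
    rw [h2, eadd, eadd, eint, mul_one]
  have hm1 : ψ (-1) = -1 := by
    have h1 : Complex.arg (-1) / (2 * Real.pi) = ((1 / 2 : ℚ) : ℝ) := by
      rw [Complex.arg_neg_one]; push_cast; field_simp
    simp only [ψ, neg_eq_zero, one_ne_zero, if_false, h1, e, rq]
    rw [← Complex.exp_pi_mul_I]; push_cast; ring_nf
  refine ⟨ψ, ?_, hmul, fun a => ?_, fun a ha => ?_⟩
  · simp [ψ, e]
  · rw [← neg_one_mul, hmul, hm1, neg_one_mul]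
  · set q := r (a.arg / (2 * Real.pi))
    refine ⟨q.den, q.den_pos, ?_⟩
    simp only [ψ, ha, if_false, e]
    rw [← Complex.exp_nat_mul, ← Complex.exp_int_mul_two_pi_mul_I q.num]
    congr 1
    have : (q.num : ℂ) = q * q.den := by exact_mod_cast (Rat.mul_den_eq_num q).symm
    rw [this]; ring

/-! ### Functional calculus on generalized eigenspaces -/

section lin
variable {V V' : Type} [AddCommGroup V] [Module ℂ V] [AddCommGroup V'] [Module ℂ V']

def IsK (ψ : ℂ → ℂ) (f κ : End ℂ V) : Prop :=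
  ∀ μ x, x ∈ f.maxGenEigenspace μ → κ x = ψ μ • x

theorem exists_isK [FiniteDimensional ℂ V] (ψ : ℂ → ℂ) (f : End ℂ V) : ∃ κ, IsK ψ f κ := by
  classical
  have h := DirectSum.isInternal_submodule_of_iSupIndep_of_iSup_eq_top
    f.independent_maxGenEigenspace f.iSup_maxGenEigenspace_eq_top
  let e := LinearEquiv.ofBijective (DirectSum.coeLinearMap fun μ => f.maxGenEigenspace μ) h
  refine ⟨(DirectSum.toModule ℂ ℂ V fun μ => ψ μ • (f.maxGenEigenspace μ).subtype) ∘ₗ
    e.symm.toLinearMap, fun μ x hx => ?_⟩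
  have : e.symm x = DirectSum.lof ℂ ℂ (fun μ => f.maxGenEigenspace μ) μ ⟨x, hx⟩ := by
    rw [LinearEquiv.symm_apply_eq]
    simp [e]
  simp [this]

theorem eig_ind [FiniteDimensional ℂ V] (f : End ℂ V) {P : V → Prop}
    (h : ∀ μ x, x ∈ f.maxGenEigenspace μ → P x) (h0 : P 0)
    (hadd : ∀ x y, P x → P y → P (x + y)) (x : V) : P x := by
  have : x ∈ ⨆ μ, f.maxGenEigenspace μ := by rw [f.iSup_maxGenEigenspace_eq_top]; trivial
  exact Submodule.iSup_induction _ (motive := P) this h h0 hadd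

theorem map_eig (f : End ℂ V) (f' : End ℂ V') (T : V →ₗ[ℂ] V') (ε : ℂ) (hε : ε * ε = 1)
    (hT : ∀ x, f' (T x) = ε • T (f x)) (μ : ℂ) (x : V) (hx : x ∈ f.maxGenEigenspace μ) :
    T x ∈ f'.maxGenEigenspace (ε * μ) := by
  rw [End.mem_maxGenEigenspace] at hx ⊢
  obtain ⟨k, hk⟩ := hx
  refine ⟨k, ?_⟩
  have : ∀ (k : ℕ) x, ((f' - (ε * μ) • (1 : End ℂ V')) ^ k) (T x) =
      ε ^ k • T (((f - μ • (1 : End ℂ V)) ^ k) x) := by
    intro k
    induction k with
    | zero => simp
    | succ k ih =>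
      intro x
      have : (f' - (ε * μ) • (1 : End ℂ V')) (T x) = ε • T ((f - μ • (1 : End ℂ V)) x) := by
        simp [hT, smul_sub, mul_smul]
      rw [pow_succ, End.mul_apply, this, map_smul, ih, pow_succ (f - _), End.mul_apply, smul_smul,
        pow_succ']
  rw [this, hk]; simp

theorem nat_pos [FiniteDimensional ℂ V] {ψ : ℂ → ℂ} {f κ : End ℂ V} {f' κ' : End ℂ V'}
    (h : IsK ψ f κ) (h' : IsK ψ f' κ') (T : V →ₗ[ℂ] V') (hT : ∀ x, f' (T x) = T (f x)) (x : V) :
    κ' (T x) = T (κ x) := by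
  refine eig_ind f (P := fun x => κ' (T x) = T (κ x)) (fun μ x hx => ?_) (by simp)
    (fun x y hx hy => by simp only [map_add, hx, hy]) x
  have := map_eig f f' T 1 (by simp) (by simpa using hT) μ x hx
  rw [h' _ _ this, h _ _ hx]; simp

theorem nat_neg [FiniteDimensional ℂ V] {ψ : ℂ → ℂ} (hψ : ∀ a, ψ (-a) = -ψ a) {f κ : End ℂ V}
    (h : IsK ψ f κ) (T : V →ₗ[ℂ] V) (hT : ∀ x, f (T x) = -T (f x)) (x : V) :
    κ (T x) = -T (κ x) := by
  refine eig_ind f (P := fun x => κ (T x) = -T (κ x)) (fun μ x hx => ?_) (by simp)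
    (fun x y hx hy => by simp only [map_add, hx, hy]; abel) x
  have := map_eig f f T (-1) (by simp) (by simpa using hT) μ x hx
  rw [h _ _ this, h _ _ hx]; simp [hψ]

end lin

section alg
variable {A : Type} [CommRing A] [Algebra ℂ A]

theorem eig_mul (η : A →ₐ[ℂ] A) (l m : ℂ) : ∀ (s N M : ℕ) (a b : A), N + M = s →
    ((η.toLinearMap - l • (1 : End ℂ A)) ^ N) a = 0 →
    ((η.toLinearMap - m • (1 : End ℂ A)) ^ M) b = 0 →
    ((η.toLinearMap - (l * m) • (1 : End ℂ A)) ^ s) (a * b) = 0 := by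
  intro s
  induction s with
  | zero =>
    intro N M a b h ha _
    obtain rfl : N = 0 := by omega
    simp only [pow_zero, End.one_apply] at ha
    simp [ha]
  | succ s ih =>
    intro N M a b h ha hb
    rcases N with _ | N
    · simp only [pow_zero, End.one_apply] at ha
      simp [ha]
    rcases M with _ | M
    · simp only [pow_zero, End.one_apply] at hb
      simp [hb]
    have e : (η.toLinearMap - (l * m) • (1 : End ℂ A)) (a * b) =
        (η.toLinearMap - l • (1 : End ℂ A)) a * η b +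
          l • (a * (η.toLinearMap - m • (1 : End ℂ A)) b) := by
      simp [sub_mul, mul_sub, smul_sub, mul_smul]
    have hc : Commute ((η.toLinearMap - m • (1 : End ℂ A)) ^ (M + 1)) η.toLinearMap :=
      ((Commute.refl _).sub_left ((Commute.one_left _).smul_left m)).pow_left _
    rw [pow_succ, End.mul_apply, e, map_add, map_smul,
      ih N (M + 1) _ _ (by omega) (by rwa [pow_succ, End.mul_apply] at ha)
        (by
          have := LinearMap.congr_fun hc.eq b
          rw [End.mul_apply, End.mul_apply, hb, map_zero] at this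
          exact this),
      ih (N + 1) M _ _ (by omega) ha (by rwa [pow_succ, End.mul_apply] at hb)]
    simp

theorem exists_alg [FiniteDimensional ℂ A] {ψ : ℂ → ℂ} (h1 : ψ 1 = 1)
    (hmul : ∀ a b, ψ (a * b) = ψ a * ψ b) (η : A →ₐ[ℂ] A) :
    ∃ κ : A →ₐ[ℂ] A, IsK ψ η.toLinearMap κ.toLinearMap := by
  obtain ⟨κ, hκ⟩ := exists_isK ψ η.toLinearMap
  refine ⟨AlgHom.ofLinearMap κ ?_ fun a b => ?_, hκ⟩
  · rw [hκ 1 1, h1, one_smul]
    rw [End.mem_maxGenEigenspace]; exact ⟨1, by simp⟩
  · refine eig_ind η.toLinearMap (P := fun a => κ (a * b) = κ a * κ b) (fun l a ha => ?_) (by simp)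
      (fun x y hx hy => by simp only [add_mul, map_add, hx, hy]) a
    refine eig_ind η.toLinearMap (P := fun b => κ (a * b) = κ a * κ b) (fun m b hb => ?_) (by simp)
      (fun x y hx hy => by simp only [mul_add, map_add, hx, hy]) b
    rw [hκ _ _ ha, hκ _ _ hb, hκ (l * m), hmul]
    · simp [mul_smul, smul_comm (ψ l)]
    · rw [End.mem_maxGenEigenspace] at ha hb ⊢
      obtain ⟨N, hN⟩ := ha
      obtain ⟨M, hM⟩ := hb
      exact ⟨N + M, eig_mul η l m _ N M a b rfl hN hM⟩

end alg

/-! ### Power series -/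

variable {n : ℕ}

abbrev R (n : ℕ) : Type := MvPowerSeries (Fin n) ℂ

def J (n k : ℕ) : Ideal (R n) where
  carrier := {f | (k : ℕ∞) ≤ f.order}
  add_mem' {f g} hf hg := le_trans (le_min hf hg) min_order_le_add
  zero_mem' := by simp
  smul_mem' c f hf := le_trans (le_trans hf le_add_self) le_order_mul

theorem mem_J {k : ℕ} {f : R n} : f ∈ J n k ↔ (k : ℕ∞) ≤ f.order := Iff.rfl

theorem mem_J' {k : ℕ} {f : R n} : f ∈ J n k ↔ ∀ d, Finsupp.degree d < k → coeff d f = 0 :=
  ⟨fun h _ hd => coeff_of_lt_order (lt_of_lt_of_le (by exact_mod_cast hd) h), nat_le_order⟩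

theorem J_mono {k l : ℕ} (h : k ≤ l) : J n l ≤ J n k := fun _ hf =>
  le_trans (by exact_mod_cast h) (mem_J.1 hf)

theorem J_mul {k l : ℕ} {f g : R n} (hf : f ∈ J n k) (hg : g ∈ J n l) : f * g ∈ J n (k + l) :=
  le_trans (by push_cast; exact add_le_add hf hg) le_order_mul

theorem mem_J_one {f : R n} : f ∈ J n 1 ↔ constantCoeff f = 0 := by
  rw [mem_J, ← one_le_order_iff_constCoeff_eq_zero]; rfl

theorem eq_of_J {f g : R n} (h : ∀ k, f - g ∈ J n k) : f = g := by
  ext d
  have := mem_J'.1 (h (d.degree + 1)) d (by omega)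
  rwa [map_sub, sub_eq_zero] at this

theorem sub_trunc (k : ℕ) (f : R n) : f - (truncTotal k f : MvPolynomial (Fin n) ℂ) ∈ J n k :=
  mem_J'.2 fun d hd => by rw [map_sub, MvPolynomial.coeff_coe, coeff_truncTotal _ hd, sub_self]

abbrev A (n k : ℕ) : Type := R n ⧸ J n k

noncomputable def mk (k : ℕ) : R n →ₐ[ℂ] A n k := Ideal.Quotient.mkₐ ℂ (J n k)

theorem mk_eq {k : ℕ} {f g : R n} : mk k f = mk k g ↔ f - g ∈ J n k := Ideal.Quotient.eq

theorem mk_surj (k : ℕ) : Function.Surjective (mk (n := n) k) := Ideal.Quotient.mk_surjective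

instance (k : ℕ) : FiniteDimensional ℂ (A n k) := by
  let T : MvPolynomial.restrictTotalDegree (Fin n) ℂ k →ₗ[ℂ] A n k :=
    (mk k).toLinearMap ∘ₗ (MvPolynomial.coeToMvPowerSeries.algHom ℂ).toLinearMap ∘ₗ
      Submodule.subtype _
  refine Module.Finite.of_surjective T fun x => ?_
  obtain ⟨f, rfl⟩ := mk_surj k x
  refine ⟨⟨truncTotal (k + 1) f, ?_⟩, ?_⟩
  · rw [MvPolynomial.mem_restrictTotalDegree]
    exact Nat.lt_succ_iff.1 (totalDegree_truncTotal_lt _ (by omega))
  · simp only [T, LinearMap.comp_apply, Submodule.subtype_apply, AlgHom.toLinearMap_apply,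
      MvPolynomial.coeToMvPowerSeries.algHom_apply]
    symm
    rw [mk_eq]
    simpa using J_mono (Nat.le_succ k) (sub_trunc (k + 1) f)

theorem alg_ext {k : ℕ} {B : Type} [CommRing B] [Algebra ℂ B] {f g : A n k →ₐ[ℂ] B}
    (h : ∀ i, f (mk k (X i)) = g (mk k (X i))) : f = g := by
  refine AlgHom.ext fun x => ?_
  obtain ⟨x, rfl⟩ := mk_surj k x
  rw [mk_eq.2 (sub_trunc k x)]
  have : (f.comp (mk k)).comp (MvPolynomial.coeToMvPowerSeries.algHom ℂ) =
      (g.comp (mk k)).comp (MvPolynomial.coeToMvPowerSeries.algHom ℂ) := by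
    ext i
    simpa using h i
  simpa using DFunLike.congr_fun this (truncTotal k x)

/-- formal maps -/
def FM (n : ℕ) : Type := {S : Fin n → R n // ∀ i, constantCoeff (S i) = 0}

theorem FM.has (S : FM n) : HasSubst S.1 := hasSubst_of_constantCoeff_zero S.2

theorem subst_J (S : FM n) {k : ℕ} {f : R n} (hf : f ∈ J n k) : subst S.1 f ∈ J n k := by
  refine le_trans ?_ (le_order_subst S.has f)
  have : (1 : ℕ∞) ≤ ⨅ i, (S.1 i).order :=
    le_iInf fun i => one_le_order_iff_constCoeff_eq_zero.2 (S.2 i)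
  calc (k : ℕ∞) = 1 * k := (one_mul _).symm
    _ ≤ _ := mul_le_mul' this hf

noncomputable def sbar (S : FM n) (k : ℕ) : A n k →ₐ[ℂ] A n k :=
  Ideal.Quotient.liftₐ (J n k) ((mk k).comp (substAlgHom S.has)) fun f hf => by
    rw [AlgHom.comp_apply, substAlgHom_apply]
    exact Ideal.Quotient.eq_zero_iff_mem.2 (subst_J S hf)

theorem sbar_mk (S : FM n) (k : ℕ) (f : R n) : sbar S k (mk k f) = mk k (subst S.1 f) := by
  rw [← substAlgHom_apply S.has]; rfl

theorem sbar_X (S : FM n) (k : ℕ) (i : Fin n) : sbar S k (mk k (X i)) = mk k (S.1 i) := by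
  rw [sbar_mk, subst_X S.has]

theorem filt (S : FM n) (hS : ∀ i, S.1 i - X i ∈ J n 2) (j : ℕ) (f : R n) (hf : f ∈ J n j) :
    subst S.1 f - f ∈ J n (j + 1) := by
  let s := substAlgHom (R := ℂ) S.has
  have hs : ∀ f, subst S.1 f = s f := fun f => (substAlgHom_apply S.has f).symm
  have mul : ∀ f g p q, f ∈ J n p → s f - f ∈ J n (p + 1) → g ∈ J n q → s g - g ∈ J n (q + 1) →
      s (f * g) - f * g ∈ J n (p + q + 1) := by
    intro f g p q h1 h2 h3 h4
    have : s (f * g) - f * g = (s f - f) * s g + f * (s g - g) := by rw [map_mul]; ring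
    rw [this]
    refine Ideal.add_mem _ ?_ (J_mul (k := p) (l := q + 1) h1 h4)
    have := J_mul h2 (hs g ▸ subst_J S h3)
    rwa [show p + 1 + q = p + q + 1 by ring] at this
  have mono : ∀ d : Fin n →₀ ℕ, (monomial d 1 : R n) ∈ J n d.degree ∧
      s (monomial d 1) - monomial d 1 ∈ J n (d.degree + 1) := by
    intro d
    induction d using Finsupp.induction_linear with
    | zero =>
      have : (monomial 0 1 : R n) = 1 := rfl
      rw [this]; simp [mem_J]
    | add d e hd he =>
      have : (monomial (d + e) 1 : R n) = monomial d 1 * monomial e 1 := by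
        rw [monomial_mul_monomial, one_mul]
      rw [this, map_add]
      exact ⟨J_mul hd.1 he.1, mul _ _ _ _ hd.1 hd.2 he.1 he.2⟩
    | single i m =>
      rw [← X_pow_eq, Finsupp.degree_single]
      induction m with
      | zero => simp [mem_J]
      | succ m ih =>
        have hX : (X i : R n) ∈ J n 1 := mem_J_one.2 (by simp)
        have hX' : s (X i) - X i ∈ J n (1 + 1) := by rw [← hs, subst_X S.has]; exact hS i
        rw [pow_succ]
        exact ⟨J_mul ih.1 hX, mul _ _ _ _ ih.1 ih.2 hX hX'⟩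
  set p := truncTotal (j + 1) f with hp
  have h1 := sub_trunc (j + 1) f
  rw [← hp] at h1
  have h2 : s p - p ∈ J n (j + 1) := by
    have e : (p : R n) = ∑ d ∈ p.support, (p.coeff d) • monomial d 1 := by
      conv_lhs => rw [p.as_sum]
      rw [← MvPolynomial.coeToMvPowerSeries.ringHom_apply, map_sum]
      refine Finset.sum_congr rfl fun d _ => ?_
      rw [MvPolynomial.coeToMvPowerSeries.ringHom_apply, MvPolynomial.coe_monomial, ← map_smul,
        smul_eq_mul, mul_one]
    rw [e, map_sum, ← Finset.sum_sub_distrib]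
    refine Ideal.sum_mem _ fun d hd => ?_
    rw [map_smul, ← smul_sub]
    refine Submodule.smul_of_tower_mem _ _ (J_mono ?_ (mono d).2)
    by_contra hlt
    have := mem_J'.1 hf d (by omega)
    rw [MvPolynomial.mem_support_iff, hp, coeff_truncTotal _ (by omega)] at hd
    exact hd this
  have : subst S.1 f - f = (s p - p) + (subst S.1 (f - (p : R n)) - (f - (p : R n))) := by
    rw [hs, hs, map_sub]; ring
  rw [this]
  exact Ideal.add_mem _ h2 (Ideal.sub_mem _ (subst_J S h1) h1)

theorem main (F G H H' : FM n) (hFG : ∀ i, subst G.1 (F.1 i) = X i)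
    (hGF : ∀ i, subst F.1 (G.1 i) = X i) (hH : ∀ i, subst H'.1 (H.1 i) = X i)
    (rel : ∀ i, subst (fun j => subst F.1 (H.1 j)) (F.1 i) = H.1 i) :
    ∃ K : Fin n → R n, (∀ i, constantCoeff (K i) = 0) ∧
      (∃ k : ℕ, 1 ≤ k ∧ (fun M : Fin n → R n => fun i => subst M (K i))^[k]
        (fun i => X i) = (fun i => X i)) ∧
      (∀ i, subst (fun j => subst F.1 (K j)) (F.1 i) = K i) := by
  obtain ⟨ψ, h1, hmul, hneg, hroot⟩ := exists_psi
  choose κ hκ using fun k => exists_alg h1 hmul (sbar H k)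
  have compat : ∀ k l (h : k ≤ l) (f g : R n), κ l (mk l f) = mk l g → κ k (mk k f) = mk k g := by
    intro k l h f g hfg
    let T := (Ideal.Quotient.factorₐ ℂ (J_mono (n := n) h))
    have hT : ∀ f, T (mk l f) = mk k f := fun _ => rfl
    have := nat_pos (hκ l) (hκ k) T.toLinearMap (fun x => by
      obtain ⟨f, rfl⟩ := mk_surj l x
      simp only [AlgHom.toLinearMap_apply, hT, sbar_mk]) (mk l f)
    simpa only [AlgHom.toLinearMap_apply, hT, hfg] using this
  choose rep hrep using fun k i => mk_surj k (κ k (mk k (X i : R n)))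
  let K0 : Fin n → R n := fun i d => coeff d (rep (d.degree + 1) i)
  have hK0 : ∀ k i, mk k (K0 i) = κ k (mk k (X i)) := by
    intro k i
    rw [← hrep, mk_eq, mem_J']
    intro d hd
    have := compat (d.degree + 1) k hd _ _ (hrep k i).symm
    rw [← hrep, mk_eq, mem_J'] at this
    exact this d (by omega)
  let K : FM n := ⟨K0, fun i => by
    rw [← mem_J_one, ← sub_zero (K0 i), ← mk_eq, hK0]
    have : mk 1 (X i : R n) = 0 := by
      rw [← map_zero (mk 1), mk_eq, sub_zero, mem_J_one]; simp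
    rw [this, map_zero, map_zero]⟩
  have hK : ∀ k, sbar K k = κ k := fun k => alg_ext fun i => by rw [sbar_X]; exact hK0 k i
  refine ⟨K0, K.2, ?_, fun i => ?_⟩
  · -- finite order
    let Φ := fun M : Fin n → R n => fun i => subst M (K0 i)
    have it : ∀ m : ℕ, ∃ M : FM n, M.1 = Φ^[m] (fun i => X i) ∧ ∀ k, sbar M k = κ k ^ m := by
      intro m
      induction m with
      | zero =>
        refine ⟨⟨fun i => X i, fun i => by simp⟩, rfl, fun k => alg_ext fun i => ?_⟩
        rw [sbar_X]; rfl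
      | succ m ih =>
        obtain ⟨M, hM, hM'⟩ := ih
        refine ⟨⟨Φ M.1, fun i => ?_⟩, by rw [Function.iterate_succ_apply', ← hM],
          fun k => alg_ext fun i => ?_⟩
        · exact mem_J_one.1 (subst_J M (mem_J_one.2 (K.2 i)))
        · rw [sbar_X, pow_succ, AlgHom.mul_apply, ← hK0, ← hM', sbar_mk]
    -- exponent from level two
    have hinj : ∀ k, Function.Injective (sbar H k) := by
      intro k
      have : (sbar H' k).comp (sbar H k) = AlgHom.id ℂ _ := alg_ext fun i => by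
        rw [AlgHom.comp_apply, sbar_X, sbar_mk, hH]; rfl
      exact Function.LeftInverse.injective (g := sbar H' k) (DFunLike.congr_fun this)
    have hpow : ∀ k (m : ℕ) μ x, x ∈ End.maxGenEigenspace (sbar H k).toLinearMap μ →
        (κ k ^ m) x = ψ μ ^ m • x := by
      intro k m μ x hx
      induction m with
      | zero => simp
      | succ m ih =>
        have := hκ k μ x hx
        rw [AlgHom.toLinearMap_apply] at this
        rw [pow_succ, AlgHom.mul_apply, this, map_smul, ih, smul_smul, pow_succ']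
    obtain ⟨N, hN, hN'⟩ : ∃ N : ℕ, 1 ≤ N ∧ ∀ x, (κ 2 ^ N) x = x := by
      have hfin := End.finite_hasEigenvalue (sbar H 2).toLinearMap
      choose! e he he' using hroot
      have hne : ∀ μ ∈ hfin.toFinset, μ ≠ 0 := by
        intro μ hμ h0
        rw [Set.Finite.mem_toFinset] at hμ
        obtain ⟨v, hv⟩ := End.HasEigenvalue.exists_hasEigenvector hμ
        have := hv.apply_eq_smul
        rw [h0, zero_smul, AlgHom.toLinearMap_apply, ← map_zero (sbar H 2)] at this
        exact hv.2 (hinj 2 this)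
      refine ⟨∏ μ ∈ hfin.toFinset, e μ, Finset.prod_pos fun μ hμ => he μ (hne μ hμ), fun x => ?_⟩
      refine eig_ind (sbar H 2).toLinearMap (P := fun x => (κ 2 ^ _) x = x) (fun μ x hx => ?_)
        (by simp) (fun x y hx hy => by simp only [map_add, hx, hy]) x
      rw [hpow 2 _ μ x hx]
      by_cases hx0 : x = 0
      · simp [hx0]
      have hμ : μ ∈ hfin.toFinset := by
        rw [Set.Finite.mem_toFinset]
        obtain ⟨k, hk⟩ := (End.mem_maxGenEigenspace _ _ _).1 hx
        refine End.hasEigenvalue_of_hasGenEigenvalue (k := k) ?_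
        rw [End.hasGenEigenvalue_iff, Submodule.ne_bot_iff]
        exact ⟨x, End.mem_genEigenspace_nat.2 hk, hx0⟩
      obtain ⟨c, hc⟩ := Finset.dvd_prod_of_mem e hμ
      rw [hc, pow_mul, he' μ (hne μ hμ), one_pow, one_smul]
    obtain ⟨M, hM, hM'⟩ := it N
    refine ⟨N, hN, ?_⟩
    change Φ^[N] _ = _
    rw [← hM]
    have hM2 : ∀ i, M.1 i - X i ∈ J n 2 := fun i => by
      rw [← mk_eq, ← sbar_X, hM', hN']
    funext i
    refine eq_of_J fun k => ?_
    rw [← mk_eq, ← sbar_X]
    have nil : ∀ (j : ℕ) (f : R n), ∃ g ∈ J n j,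
        (((sbar M k).toLinearMap - 1) ^ j) (mk k f) = mk k g := by
      intro j f
      induction j with
      | zero => exact ⟨f, by simp [mem_J], rfl⟩
      | succ j ih =>
        obtain ⟨g, hg, hg'⟩ := ih
        refine ⟨_, filt M hM2 j g hg, ?_⟩
        rw [pow_succ', End.mul_apply, hg', map_sub, ← sbar_mk]; rfl
    refine eig_ind (sbar H k).toLinearMap (P := fun x => sbar M k x = x) (fun μ x hx => ?_)
        (by simp) (fun x y hx hy => by simp only [map_add, hx, hy]) _
    have e1 : sbar M k x = ψ μ ^ N • x := by rw [hM', hpow k N μ x hx]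
    have e2 : ∀ j : ℕ, (((sbar M k).toLinearMap - 1) ^ j) x = (ψ μ ^ N - 1) ^ j • x := by
      intro j
      induction j with
      | zero => simp
      | succ j ih =>
        have : ((sbar M k).toLinearMap - 1) x = (ψ μ ^ N - 1) • x := by
          simp [e1, sub_smul]
        rw [pow_succ, End.mul_apply, this, map_smul, ih, smul_smul, pow_succ']
    obtain ⟨f, rfl⟩ := mk_surj k x
    obtain ⟨g, hg, hg'⟩ := nil k f
    have hg0 : mk k g = 0 := Ideal.Quotient.eq_zero_iff_mem.2 hg
    rw [e2, hg0, smul_eq_zero] at hg'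
    rcases hg' with h | h
    · rw [e1, sub_eq_zero.1 (eq_zero_of_pow_eq_zero h), one_smul]
    · rw [h, map_zero]
  · -- reversing
    refine eq_of_J fun k => ?_
    rw [← subst_comp_subst_apply K.has F.has, ← mk_eq, ← sbar_mk, ← sbar_mk, ← sbar_X, hK,
      hK0]
    set φ := sbar F k
    set γ := sbar G k
    set η := sbar H k
    have e1 : γ.comp φ = AlgHom.id ℂ _ := alg_ext fun i => by
      rw [AlgHom.comp_apply, sbar_X, sbar_mk, hFG]; rfl
    have e2 : φ.comp γ = AlgHom.id ℂ _ := alg_ext fun i => by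
      rw [AlgHom.comp_apply, sbar_X, sbar_mk, hGF]; rfl
    have e3 : φ.comp (η.comp φ) = η := alg_ext fun i => by
      rw [AlgHom.comp_apply, AlgHom.comp_apply, sbar_X, sbar_mk, sbar_mk,
        subst_comp_subst_apply H.has F.has, rel, sbar_X]
    have f1 : ∀ x, γ (φ x) = x := DFunLike.congr_fun e1
    have f2 : ∀ x, φ (γ x) = x := DFunLike.congr_fun e2
    have f3 : ∀ x, φ (η (φ x)) = η x := DFunLike.congr_fun e3
    have f4 : ∀ x, η (φ x) = γ (η x) := fun x => by rw [← f3 x, f1]
    have f5 : ∀ x, η (γ x) = φ (η x) := fun x => by rw [← f3 (γ x), f2]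
    have g1 := nat_pos (hκ k) (hκ k) (φ.toLinearMap + γ.toLinearMap) (fun x => by
      simp only [LinearMap.add_apply, AlgHom.toLinearMap_apply, map_add]
      rw [f4, f5, add_comm]) (mk k (X i))
    have g2 := nat_neg hneg (hκ k) (φ.toLinearMap - γ.toLinearMap) (fun x => by
      simp only [LinearMap.sub_apply, AlgHom.toLinearMap_apply, map_sub]
      rw [f4, f5, neg_sub]) (mk k (X i))
    simp only [LinearMap.add_apply, LinearMap.sub_apply, AlgHom.toLinearMap_apply, map_add,
      map_sub] at g1 g2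
    have g3 : κ k (φ (mk k (X i))) = γ (κ k (mk k (X i))) := by
      have : (2 : ℂ) • κ k (φ (mk k (X i))) = (2 : ℂ) • γ (κ k (mk k (X i))) := by
        rw [two_smul, two_smul]; linear_combination g1 + g2
      exact smul_right_injective _ two_ne_zero this
    rw [g3, f2]

end Pool.Agent.H72.Reverser
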