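import Mathlib

set_option autoImplicit false

namespace Pool.Agent.H72.TransAvoid
open Cardinal Set

theorem mk_closure_le {G : Type} [Group G] (S : Set G) :
    #(Subgroup.closure S) ≤ max ℵ₀ #S := by
  have h1 : ∀ x ∈ Subgroup.closure S, ∃ L : List (S × Bool),
      x = (L.map fun p => if p.2 then (p.1 : G) else (p.1 : G)⁻¹).prod := by
    intro x hx
    induction hx using Subgroup.closure_induction_left with
    | one => exact ⟨[], by simp⟩
    | mul_left x hx y hy ih =>
      obtain ⟨L, rfl⟩ := ih
      exact ⟨(⟨x, hx⟩, true) :: L, by simp⟩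
    | inv_mul_cancel x hx y hy ih =>
      obtain ⟨L, rfl⟩ := ih
      exact ⟨(⟨x, hx⟩, false) :: L, by simp⟩
  have h2 : ((Subgroup.closure S : Subgroup G) : Set G) ⊆ Set.range (fun L : List (S × Bool) =>
      (L.map fun p => if p.2 then (p.1 : G) else (p.1 : G)⁻¹).prod) := by
    intro x hx
    obtain ⟨L, hL⟩ := h1 x hx
    exact ⟨L, hL.symm⟩
  refine (mk_le_mk_of_subset h2).trans (mk_range_le.trans ((mk_list_le_max _).trans ?_))
  refine max_le (le_max_left _ _) ?_
  simp only [mk_prod, lift_id, mk_fintype, Fintype.card_bool]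
  refine (Cardinal.mul_le_max _ _).trans ?_
  refine max_le (max_le (le_max_right _ _) ?_) (le_max_left _ _)
  exact le_max_of_le_left (natCast_lt_aleph0).le

theorem exists_avoid {K ι : Type} (hK : ℵ₀ < #K) (hι : #ι < #K) (f : ι → Set K)
    (hf : ∀ i, (f i).Finite) : ∃ t, ∀ i, t ∉ f i := by
  by_contra h
  push Not at h
  have h1 : (⋃ i, f i) = Set.univ := by
    ext t
    simpa using h t
  have h2 : #(⋃ i, f i) ≤ #ι * ℵ₀ := by
    refine (mk_iUnion_le_sum_mk).trans ?_
    refine (sum_le_sum _ (fun _ => ℵ₀) (fun i => (hf i).lt_aleph0.le)).trans ?_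
    simp
  rw [h1, mk_univ] at h2
  exact absurd (h2.trans_lt (Cardinal.mul_lt_of_lt hK.le hι hK)) (lt_irrefl _)

/-- transfinite construction of a subgroup avoiding `u` and meeting each set `C i`. -/
theorem exists_subgroup {G I : Type} [Group G] (κ : Cardinal) (hκ : ℵ₀ ≤ κ) (hI : #I ≤ κ)
    (u : G) (S0 : Set G) (hS0 : #S0 < κ) (hu : u ∉ Subgroup.closure S0) (C : I → Set G)
    (step : ∀ S : Set G, #S < κ → S0 ⊆ S → u ∉ Subgroup.closure S → ∀ i,
      ∃ x ∈ C i, u ∉ Subgroup.closure (insert x S)) :
    ∃ H : Subgroup G, u ∉ H ∧ ∀ i, ∃ x ∈ C i, x ∈ H := by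
  classical
  obtain ⟨r, hr, hord⟩ := Cardinal.exists_ord_eq I
  let P : (i : I) → ((j : I) → r j i → G) → G → Prop := fun i f x =>
    x ∈ C i ∧ u ∉ Subgroup.closure (insert x (S0 ∪ Set.range (fun j : {j // r j i} => f j.1 j.2)))
  let F : I → G := (hr.wf).fix (fun i f => if h : ∃ x, P i f x then h.choose else 1)
  have hF : ∀ i, F i = if h : ∃ x, P i (fun j _ => F j) x then h.choose else 1 := by
    intro i
    exact WellFounded.fix_eq _ _ i
  have lim : ∀ A : Set I, (∀ y ∈ A, u ∉ Subgroup.closure (S0 ∪ F '' {z | r z y ∨ z = y})) →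
      u ∉ Subgroup.closure (S0 ∪ F '' A) := by
    intro A hA hmem
    have key : ∀ w ∈ Subgroup.closure (S0 ∪ F '' A), w ∈ Subgroup.closure S0 ∨
        ∃ y ∈ A, w ∈ Subgroup.closure (S0 ∪ F '' {z | r z y ∨ z = y}) := by
      have mono : ∀ y y', (r y y' ∨ y = y') → Subgroup.closure (S0 ∪ F '' {z | r z y ∨ z = y}) ≤
          Subgroup.closure (S0 ∪ F '' {z | r z y' ∨ z = y'}) := by
        intro y y' h
        refine Subgroup.closure_mono (Set.union_subset_union_right _ (Set.image_mono ?_))
        intro z hz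
        rcases h with h | rfl
        · rcases hz with hz | rfl
          · exact Or.inl (_root_.trans hz h)
          · exact Or.inl h
        · exact hz
      have m0 : ∀ y, Subgroup.closure S0 ≤ Subgroup.closure (S0 ∪ F '' {z | r z y ∨ z = y}) :=
        fun y => Subgroup.closure_mono Set.subset_union_left
      intro w hw
      induction hw using Subgroup.closure_induction with
      | mem x hx =>
        rcases hx with hx | ⟨y, hy, rfl⟩
        · exact Or.inl (Subgroup.subset_closure hx)
        · exact Or.inr ⟨y, hy, Subgroup.subset_closure (Or.inr ⟨y, Or.inr rfl, rfl⟩)⟩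
      | one => exact Or.inl (one_mem _)
      | mul a b _ _ ha hb =>
        rcases ha with ha | ⟨y, hy, ha⟩
        · rcases hb with hb | ⟨y', hy', hb⟩
          · exact Or.inl (mul_mem ha hb)
          · exact Or.inr ⟨y', hy', mul_mem (m0 _ ha) hb⟩
        · rcases hb with hb | ⟨y', hy', hb⟩
          · exact Or.inr ⟨y, hy, mul_mem ha (m0 _ hb)⟩
          · rcases trichotomous_of r y y' with h | h | h
            · exact Or.inr ⟨y', hy', mul_mem (mono _ _ (Or.inl h) ha) hb⟩
            · exact Or.inr ⟨y', hy', mul_mem (mono _ _ (Or.inr h) ha) hb⟩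
            · exact Or.inr ⟨y, hy, mul_mem ha (mono _ _ (Or.inl h) hb)⟩
      | inv a _ ha =>
        rcases ha with ha | ⟨y, hy, ha⟩
        · exact Or.inl (inv_mem ha)
        · exact Or.inr ⟨y, hy, inv_mem ha⟩
    rcases key u hmem with h | ⟨y, hy, h⟩
    · exact hu h
    · exact hA y hy h
  have main : ∀ i, F i ∈ C i ∧ u ∉ Subgroup.closure (S0 ∪ F '' {z | r z i ∨ z = i}) := by
    intro i
    induction i using hr.wf.induction with
    | _ i ih =>
      have h1 := lim {z | r z i} (fun y hy => (ih y hy).2)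
      have e : Set.range (fun j : {j // r j i} => F j.1) = F '' {z | r z i} := by
        ext x
        simp
      have hc : #(S0 ∪ F '' {z | r z i} : Set G) < κ := by
        refine (mk_union_le _ _).trans_lt (Cardinal.add_lt_of_lt hκ hS0 ?_)
        refine mk_image_le.trans_lt (lt_of_lt_of_le ?_ hI)
        have := Cardinal.card_typein_lt (r := r) i hord
        rw [Ordinal.card_typein] at this
        exact this
      obtain ⟨x, hx, hx2⟩ := step _ hc Set.subset_union_left h1 i
      have hex : ∃ x, P i (fun j _ => F j) x := ⟨x, hx, by rw [e]; exact hx2⟩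
      have h2 : P i (fun j _ => F j) (F i) := by
        rw [hF i, dif_pos hex]
        exact hex.choose_spec
      refine ⟨h2.1, ?_⟩
      have h3 := h2.2
      rw [e] at h3
      have e2 : S0 ∪ F '' {z | r z i ∨ z = i} = insert (F i) (S0 ∪ F '' {z | r z i}) := by
        ext x
        simp only [mem_union, mem_image, mem_insert_iff, Set.mem_ofPred_eq]
        constructor
        · rintro (h | ⟨z, hz | rfl, rfl⟩)
          · exact Or.inr (Or.inl h)
          · exact Or.inr (Or.inr ⟨z, hz, rfl⟩)
          · exact Or.inl rfl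
        · rintro (rfl | h | ⟨z, hz, rfl⟩)
          · exact Or.inr ⟨i, Or.inr rfl, rfl⟩
          · exact Or.inl h
          · exact Or.inr ⟨z, Or.inl hz, rfl⟩
      rw [e2]
      exact h3
  refine ⟨Subgroup.closure (S0 ∪ F '' Set.univ), lim _ (fun y _ => (main y).2), fun i => ?_⟩
  exact ⟨F i, (main i).1, Subgroup.subset_closure (Or.inr ⟨i, trivial, rfl⟩)⟩

end Pool.Agent.H72.TransAvoid
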