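import Mathlib
import Pool.Agent.H72.TransAvoid

set_option autoImplicit false

namespace Pool.Agent.H72.SL2IG
open Cardinal Polynomial Matrix

variable {K : Type} [Field K]

abbrev M (K : Type) := Matrix (Fin 2) (Fin 2) K
abbrev G (K : Type) [Field K] := Matrix.SpecialLinearGroup (Fin 2) K

def N (s : K) : M K := !![s, -(s * s); 1, -s]
def phi (s : K) (a : M K) : K := a 0 0 * s + a 0 1 - s * (a 1 0 * s + a 1 1)

theorem NaN (s : K) (a : M K) : N s * a * N s = phi s a • N s := by
  ext i j
  simp only [Matrix.mul_apply, Fin.sum_univ_two, Matrix.smul_apply, smul_eq_mul]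
  fin_cases i <;> fin_cases j <;> simp [N, phi] <;> ring

def g (s t : K) : G K := ⟨1 + t • N s, by
  rw [Matrix.det_fin_two]; simp [N]; ring⟩

theorem g_inv (s t : K) : (g s t)⁻¹ = g s (-t) := by
  rw [inv_eq_iff_mul_eq_one]
  apply Subtype.ext
  rw [Matrix.SpecialLinearGroup.coe_mul]
  ext i j
  fin_cases i <;> fin_cases j <;> simp [g, N, Matrix.mul_apply, Fin.sum_univ_two] <;> ring

def m1 : G K := ⟨!![-1, 0; 0, -1], by rw [Matrix.det_fin_two]; simp⟩

theorem m1_comm (x : G K) : m1 * x = x * m1 := by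
  apply Subtype.ext
  simp only [Matrix.SpecialLinearGroup.coe_mul]
  ext i j
  fin_cases i <;> fin_cases j <;> simp [m1, Matrix.mul_apply, Fin.sum_univ_two]

theorem phi_finite (a : G K) (h1 : a ≠ 1) (h2 : a ≠ m1) : {s : K | phi s a.1 = 0}.Finite := by
  let p : K[X] := C (a.1 0 0) * X + C (a.1 0 1) - X * (C (a.1 1 0) * X + C (a.1 1 1))
  have hp : p ≠ 0 := by
    intro h
    have c0 := congrArg (fun q => q.coeff 0) h
    have c1 := congrArg (fun q => q.coeff 1) h
    have c2 := congrArg (fun q => q.coeff 2) h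
    simp [p, coeff_X, coeff_C, coeff_X_mul] at c0 c1 c2
    have hd := a.2
    rw [Matrix.det_fin_two, c0, c2] at hd
    have e : a.1 1 1 = a.1 0 0 := by linear_combination -c1
    rw [e] at hd
    have : (a.1 0 0 - 1) * (a.1 0 0 + 1) = 0 := by linear_combination hd
    rcases mul_eq_zero.1 this with h | h
    · apply h1
      apply Subtype.ext
      ext i j
      fin_cases i <;> fin_cases j <;> simp [c0, c2, e]
      all_goals linear_combination h
    · apply h2
      apply Subtype.ext
      ext i j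
      fin_cases i <;> fin_cases j <;> simp [m1, c0, c2, e]
      all_goals linear_combination h
  refine (p.rootSet_finite K).subset ?_
  intro s hs
  rw [mem_rootSet]
  refine ⟨hp, ?_⟩
  simp only [Set.mem_ofPred_eq, phi] at hs
  simp only [p, map_sub, map_add, map_mul, aeval_C, aeval_X, Algebra.algebraMap_self,
    RingHom.id_apply]
  exact hs

def Lead (W : M K[X]) (d : ℕ) (A : M K) : Prop :=
  ∀ i j, (W i j).natDegree ≤ d ∧ (W i j).coeff d = A i j

theorem Lead.mul {W W' : M K[X]} {d d' : ℕ} {A A' : M K} (h : Lead W d A) (h' : Lead W' d' A') :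
    Lead (W * W') (d + d') (A * A') := by
  intro i j
  simp only [Matrix.mul_apply, Fin.sum_univ_two]
  refine ⟨natDegree_add_le_of_degree_le (natDegree_mul_le_of_le (h _ _).1 (h' _ _).1)
    (natDegree_mul_le_of_le (h _ _).1 (h' _ _).1), ?_⟩
  rw [coeff_add, coeff_mul_add_eq_of_natDegree_le (h _ _).1 (h' _ _).1,
    coeff_mul_add_eq_of_natDegree_le (h _ _).1 (h' _ _).1, (h _ _).2, (h _ _).2, (h' _ _).2,
    (h' _ _).2]

noncomputable def cst (A : M K) : M K[X] := A.map C

theorem lead_cst (A : M K) : Lead (cst A) 0 A := by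
  intro i j
  simp [cst]

noncomputable def gp (e s : K) : M K[X] := fun i j => C ((1 : M K) i j) + C (e * N s i j) * X

theorem lead_gp (e s : K) : Lead (gp e s) 1 (e • N s) := by
  intro i j
  refine ⟨?_, ?_⟩
  · unfold gp
    compute_degree
  · simp only [gp, coeff_add, coeff_C_mul, coeff_X_one, coeff_C]
    simp

noncomputable def ev (t : K) : M K[X] →+* M K := (evalRingHom t).mapMatrix

theorem ev_cst (t : K) (A : M K) : ev t (cst A) = A := by
  ext i j
  simp [ev, cst]

theorem ev_gp (t e s : K) : ev t (gp e s) = (g s (e * t)).1 := by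
  ext i j
  simp only [ev, gp, g, RingHom.mapMatrix_apply, Matrix.map_apply, coe_evalRingHom, eval_add,
    eval_mul, eval_C, eval_X, Matrix.add_apply, Matrix.smul_apply, smul_eq_mul]
  ring

def word (x : G K) (L : List (G K × G K)) : G K := (L.map fun p => x * p.1 * x⁻¹ * p.2).prod

noncomputable def PW (s : K) (L : List (G K × G K)) : M K[X] :=
  (L.map fun p => gp 1 s * cst p.1.1 * gp (-1) s * cst p.2.1).prod

theorem ev_PW (s t : K) (L : List (G K × G K)) : ev t (PW s L) = (word (g s t) L).1 := by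
  induction L with
  | nil => simp [PW, word]
  | cons p L ih =>
    simp only [PW, word, List.map_cons, List.prod_cons, map_mul, ev_cst, ev_gp,
      Matrix.SpecialLinearGroup.coe_mul, g_inv] at ih ⊢
    rw [ih]
    simp

def Red (s : K) : List (G K × G K) → Prop
  | [] => True
  | [p] => phi s p.1.1 ≠ 0
  | p :: q :: L => phi s p.1.1 ≠ 0 ∧ phi s p.2.1 ≠ 0 ∧ Red s (q :: L)

theorem lead_one (s : K) (p : G K × G K) :
    Lead (gp 1 s * cst p.1.1 * gp (-1) s * cst p.2.1) 2 ((-phi s p.1.1) • (N s * p.2.1)) := by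
  have := (((lead_gp 1 s).mul (lead_cst p.1.1)).mul (lead_gp (-1) s)).mul (lead_cst p.2.1)
  have e : (1 : K) • N s * p.1.1 * (-1 : K) • N s * p.2.1 = (-phi s p.1.1) • (N s * p.2.1) := by
    rw [one_smul, Matrix.mul_smul, NaN, smul_smul, Matrix.smul_mul]
    simp
  rw [e] at this
  exact this

theorem lead_PW (s : K) : ∀ (L : List (G K × G K)) (p : G K × G K), Red s (p :: L) →
    ∃ c : K, c ≠ 0 ∧ ∃ A : G K, Lead (PW s (p :: L)) (2 + 2 * L.length) (c • (N s * A.1)) := by
  intro L
  induction L with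
  | nil =>
    intro p h
    refine ⟨-phi s p.1.1, neg_ne_zero.2 h, p.2, ?_⟩
    simpa [PW] using lead_one s p
  | cons q L ih =>
    intro p h
    obtain ⟨c, hc, A, hA⟩ := ih q h.2.2
    refine ⟨-phi s p.1.1 * c * phi s p.2.1, mul_ne_zero (mul_ne_zero (neg_ne_zero.2 h.1) hc) h.2.1,
      A, ?_⟩
    have := (lead_one s p).mul hA
    have e : ((-phi s p.1.1) • (N s * p.2.1)) * (c • (N s * A.1)) =
        (-phi s p.1.1 * c * phi s p.2.1) • (N s * A.1) := by
      rw [Matrix.smul_mul, Matrix.mul_smul, ← Matrix.mul_assoc, NaN, Matrix.smul_mul, smul_smul,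
        smul_smul]
    rw [e] at this
    have e2 : 2 + 2 * (q :: L).length = 2 + (2 + 2 * L.length) := by simp; ring
    rw [e2]
    exact this

theorem finite_bad (s : K) (L : List (G K × G K)) (p : G K × G K) (h : Red s (p :: L)) (u : G K) :
    {t : K | word (g s t) (p :: L) = u}.Finite := by
  obtain ⟨c, hc, A, hA⟩ := lead_PW s L p h
  have hne : N s * A.1 ≠ 0 := by
    intro h0
    have : N s * A.1 * (A⁻¹).1 = 0 := by rw [h0, Matrix.zero_mul]
    rw [Matrix.mul_assoc, ← Matrix.SpecialLinearGroup.coe_mul, mul_inv_cancel] at this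
    have := congrFun (congrFun this 1) 0
    simp [N] at this
  obtain ⟨i, j, hij⟩ : ∃ i j, (N s * A.1) i j ≠ 0 := by
    by_contra hh
    push Not at hh
    exact hne (Matrix.ext hh)
  let f : K[X] := PW s (p :: L) i j - C (u.1 i j)
  have hf : f ≠ 0 := by
    intro h0
    have := congrArg (fun q => q.coeff (2 + 2 * L.length)) h0
    simp only [f, coeff_sub, (hA i j).2, coeff_zero] at this
    rw [coeff_C, if_neg (by omega), sub_zero, Matrix.smul_apply, smul_eq_mul] at this
    exact mul_ne_zero hc hij this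
  refine (f.rootSet_finite K).subset ?_
  intro t ht
  rw [mem_rootSet]
  refine ⟨hf, ?_⟩
  have h1 := congrFun (congrFun (ev_PW s t (p :: L)) i) j
  simp only [Set.mem_ofPred_eq] at ht
  rw [ht] at h1
  simp only [ev, RingHom.mapMatrix_apply, Matrix.map_apply, coe_evalRingHom] at h1
  simp only [f, map_sub, aeval_C, Algebra.algebraMap_self, RingHom.id_apply, coe_aeval_eq_eval, h1,
    sub_self]

theorem shorten (s : K) (x : G K) (H B : Subgroup (G K)) (hm : m1 ∈ H)
    (hH : ∀ a ∈ H, phi s a.1 = 0 → a = 1 ∨ a = m1) (hB : ∀ a ∈ B, phi s a.1 = 0 → a = 1 ∨ a = m1) :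
    ∀ L : List (G K × G K), (∀ p ∈ L, p.1 ∈ B ∧ p.2 ∈ H) → ¬ Red s L →
      ∃ a ∈ H, ∃ L' : List (G K × G K), (∀ p ∈ L', p.1 ∈ B ∧ p.2 ∈ H) ∧ L'.length < L.length ∧
        word x L = a * word x L' := by
  intro L
  induction L with
  | nil => intro _ h; exact absurd trivial h
  | cons p L ih =>
    intro hL hR
    have hp := hL p (by simp)
    have hL' : ∀ q ∈ L, q.1 ∈ B ∧ q.2 ∈ H := fun q hq => hL q (by simp [hq])
    by_cases h1 : phi s p.1.1 = 0
    · have hc : p.1 ∈ H ∧ x * p.1 * x⁻¹ = p.1 := by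
        rcases hB _ hp.1 h1 with h | h
        · rw [h]; simp
        · rw [h, ← m1_comm]; simp [hm]
      refine ⟨p.1 * p.2, mul_mem hc.1 hp.2, L, hL', by simp, ?_⟩
      simp only [word, List.map_cons, List.prod_cons, hc.2]
    · cases L with
      | nil => exact absurd h1 hR
      | cons q L =>
        have hq := hL' q (by simp)
        by_cases h2 : phi s p.2.1 = 0
        · have hc : ∀ y : G K, p.2 * y = y * p.2 := by
            intro y
            rcases hH _ hp.2 h2 with h | h
            · rw [h]; simp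
            · rw [h, m1_comm]
          refine ⟨1, one_mem _, (p.1 * q.1, p.2 * q.2) :: L, ?_, by simp, ?_⟩
          · intro r hr
            rcases List.mem_cons.1 hr with rfl | hr
            · exact ⟨mul_mem hp.1 hq.1, mul_mem hp.2 hq.2⟩
            · exact hL' r (by simp [hr])
          · simp only [word, List.map_cons, List.prod_cons, one_mul]
            have := hc (x * q.1 * x⁻¹)
            calc _ = x * p.1 * x⁻¹ * (p.2 * (x * q.1 * x⁻¹)) * q.2 *
                  (List.map (fun p => x * p.1 * x⁻¹ * p.2) L).prod := by group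
              _ = _ := by rw [this]; group
        · have hR' : ¬ Red s (q :: L) := fun h => hR ⟨h1, h2, h⟩
          obtain ⟨a, ha, L', hL1, hlen, hw⟩ := ih hL' hR'
          refine ⟨1, one_mem _, (p.1, p.2 * a) :: L', ?_, by simpa using hlen, ?_⟩
          · intro r hr
            rcases List.mem_cons.1 hr with rfl | hr
            · exact ⟨hp.1, mul_mem hp.2 ha⟩
            · exact hL1 r hr
          · simp only [word, List.map_cons, List.prod_cons, one_mul] at hw ⊢
            rw [hw]
            group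

theorem step (hK : ℵ₀ < #K) (u : G K) (S : Set (G K)) (hS : #S < #K) (hm : m1 ∈ S)
    (hu : u ∉ Subgroup.closure S) (c : G K) :
    ∃ x : G K, u ∉ Subgroup.closure (insert (x * c * x⁻¹) S) := by
  classical
  let T := Subgroup.closure (insert c S)
  have hT : #T < #K := by
    refine (TransAvoid.mk_closure_le _).trans_lt (max_lt hK ?_)
    refine mk_insert_le.trans_lt (Cardinal.add_lt_of_lt hK.le hS (one_lt_aleph0.trans hK))
  obtain ⟨s, hs⟩ := TransAvoid.exists_avoid hK hT
    (fun a => {s : K | phi s a.1.1 = 0 ∧ a.1 ≠ 1 ∧ a.1 ≠ m1}) (by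
      intro a
      by_cases h : a.1 ≠ 1 ∧ a.1 ≠ m1
      · exact (phi_finite a.1 h.1 h.2).subset (fun s hs => hs.1)
      · convert Set.finite_empty
        ext s
        simp only [Set.mem_ofPred_eq, Set.mem_empty_iff_false, iff_false]
        exact fun hs => h hs.2)
  have hs' : ∀ a ∈ T, phi s a.1 = 0 → a = 1 ∨ a = m1 := by
    intro a ha h
    by_contra hh
    push Not at hh
    exact hs ⟨a, ha⟩ ⟨h, hh⟩
  have hι : #(T × List (T × T)) < #K := by
    simp only [mk_prod, lift_id]
    refine Cardinal.mul_lt_of_lt hK.le hT ((mk_list_le_max _).trans_lt (max_lt hK ?_))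
    simp only [mk_prod, lift_id]
    exact Cardinal.mul_lt_of_lt hK.le hT hT
  obtain ⟨t, ht⟩ := TransAvoid.exists_avoid hK hι
    (fun i => {t : K | i.2 ≠ [] ∧ Red s (i.2.map fun p => (p.1.1, p.2.1)) ∧
      word (g s t) (i.2.map fun p => (p.1.1, p.2.1)) = i.1.1⁻¹ * u}) (by
      rintro ⟨a, L⟩
      cases L with
      | nil => simp
      | cons p L =>
        by_cases h : Red s ((p :: L).map fun p => (p.1.1, p.2.1))
        · exact (finite_bad s _ _ h (a.1⁻¹ * u)).subset (fun t ht => ht.2.2)
        · convert Set.finite_empty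
          ext t
          simp only [Set.mem_ofPred_eq, Set.mem_empty_iff_false, iff_false]
          exact fun ht => h ht.2.1)
  refine ⟨g s t, fun hmem => ?_⟩
  let H := Subgroup.closure S
  let B := Subgroup.zpowers c
  have hHT : H ≤ T := Subgroup.closure_mono (Set.subset_insert _ _)
  have hBT : B ≤ T := by
    rw [Subgroup.zpowers_le]
    exact Subgroup.subset_closure (Set.mem_insert _ _)
  have form : ∀ y ∈ Subgroup.closure (insert (g s t * c * (g s t)⁻¹) S), ∃ a ∈ H,
      ∃ L : List (G K × G K), (∀ p ∈ L, p.1 ∈ B ∧ p.2 ∈ H) ∧ y = a * word (g s t) L := by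
    have one : ∀ b ∈ B, ∀ a ∈ H, ∀ L : List (G K × G K), (∀ p ∈ L, p.1 ∈ B ∧ p.2 ∈ H) →
        ∃ a' ∈ H, ∃ L' : List (G K × G K), (∀ p ∈ L', p.1 ∈ B ∧ p.2 ∈ H) ∧
          g s t * b * (g s t)⁻¹ * (a * word (g s t) L) = a' * word (g s t) L' := by
      intro b hb a ha L hL
      refine ⟨1, one_mem _, (b, a) :: L, ?_, ?_⟩
      · intro r hr
        rcases List.mem_cons.1 hr with rfl | hr
        · exact ⟨hb, ha⟩
        · exact hL r hr
      · simp only [word, List.map_cons, List.prod_cons, one_mul, mul_assoc]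
    intro y hy
    induction hy using Subgroup.closure_induction_left with
    | one => exact ⟨1, one_mem _, [], by simp, by simp [word]⟩
    | mul_left x hx y hy ih =>
      obtain ⟨a, ha, L, hL, rfl⟩ := ih
      rcases hx with rfl | hx
      · exact one c (Subgroup.mem_zpowers c) a ha L hL
      · exact ⟨x * a, mul_mem (Subgroup.subset_closure hx) ha, L, hL, by rw [mul_assoc]⟩
    | inv_mul_cancel x hx y hy ih =>
      obtain ⟨a, ha, L, hL, rfl⟩ := ih
      rcases hx with rfl | hx
      · have := one c⁻¹ (inv_mem (Subgroup.mem_zpowers c)) a ha L hL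
        have e : (g s t * c * (g s t)⁻¹)⁻¹ = g s t * c⁻¹ * (g s t)⁻¹ := by group
        rw [e]
        exact this
      · exact ⟨x⁻¹ * a, mul_mem (inv_mem (Subgroup.subset_closure hx)) ha, L, hL, by rw [mul_assoc]⟩
  have key : ∀ n : ℕ, ∀ L : List (G K × G K), L.length = n → (∀ p ∈ L, p.1 ∈ B ∧ p.2 ∈ H) →
      ∀ a ∈ H, u ≠ a * word (g s t) L := by
    intro n
    induction n using Nat.strong_induction_on with
    | _ n ih =>
      intro L hlen hL a ha hu'
      by_cases hR : Red s L
      · by_cases hnil : L = []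
        · subst hnil
          apply hu
          rw [hu']
          simpa [word] using ha
        · let L2 : List (T × T) := L.attach.map fun p =>
            (⟨p.1.1, hBT (hL _ p.2).1⟩, ⟨p.1.2, hHT (hL _ p.2).2⟩)
          have e : (L2.map fun p => (p.1.1, p.2.1)) = L := by
            simp only [L2, List.map_map, Function.comp_def, Prod.mk.eta]
            exact List.attach_map_subtype_val L
          apply ht (⟨a, hHT ha⟩, L2)
          simp only [Set.mem_ofPred_eq, e]
          refine ⟨?_, hR, ?_⟩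
          · intro h0
            rw [h0] at e
            exact hnil e.symm
          · rw [hu']; group
      · obtain ⟨a', ha', L', hL1, hlen', hw⟩ := shorten s (g s t) H B
          (Subgroup.subset_closure hm) (fun a ha => hs' a (hHT ha)) (fun a ha => hs' a (hBT ha))
          L hL hR
        refine ih L'.length (hlen ▸ hlen') L' rfl hL1 (a * a') (mul_mem ha ha') ?_
        rw [hu', hw, mul_assoc]
  obtain ⟨a, ha, L, hL, h⟩ := form u hmem
  exact key _ L rfl hL a ha h

theorem not_IG (hK : ℵ₀ < #K) : ∃ H : Subgroup (G K), H ≠ ⊤ ∧ ∀ c : G K, ∃ x : G K,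
    x * c * x⁻¹ ∈ H := by
  have hG : #(G K) ≤ #K := by
    refine (mk_subtype_le _).trans ?_
    simp only [Matrix, mk_pi, prod_const, mk_fintype, Fintype.card_fin, lift_id,
      Cardinal.power_natCast]
    rw [Cardinal.power_nat_eq hK.le (by norm_num), Cardinal.power_nat_eq hK.le (by norm_num)]
  have hu : g (0 : K) 1 ∉ Subgroup.closure {(m1 : G K)} := by
    intro h
    have h1 : Subgroup.closure {(m1 : G K)} ≤ Subgroup.center (G K) := by
      rw [Subgroup.closure_le]
      rintro _ rfl
      exact Subgroup.mem_center_iff.2 fun y => (m1_comm y).symm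
    have h2 := Subgroup.mem_center_iff.1 (h1 h) ⟨!![1, 1; 0, 1], by rw [Matrix.det_fin_two]; simp⟩
    have h3 := congrFun (congrFun (congrArg Subtype.val h2) 0) 0
    simp [g, N, Matrix.mul_apply, Fin.sum_univ_two] at h3
  obtain ⟨H, hH, hC⟩ := TransAvoid.exists_subgroup (I := G K) (#K) hK.le hG (g (0 : K) 1) {m1}
    (by simpa using one_lt_aleph0.trans hK) hu (fun c => {y | ∃ x : G K, y = x * c * x⁻¹}) (by
      intro S hS h0 hu c
      obtain ⟨x, hx⟩ := step hK _ S hS (h0 rfl) hu c
      exact ⟨_, ⟨x, rfl⟩, hx⟩)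
  refine ⟨H, fun h => hH (h ▸ Subgroup.mem_top _), fun c => ?_⟩
  obtain ⟨y, ⟨x, rfl⟩, hy⟩ := hC c
  exact ⟨x, hy⟩

end Pool.Agent.H72.SL2IG
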