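import Mathlib

/-! Sharply `k`-transitive actions of free groups: a generic construction. -/

namespace Pool.Agent.H72.SharpK

open Set Function

variable {M : Type*} {G : Type*} [Group G] {k : ℕ}

/-- edges between `k`-tuples -/
def E (P : Set (ℕ × M × M)) (n : ℕ) (a b : Fin k → M) : Prop :=
  Injective a ∧ ∀ j, (n, a j, b j) ∈ P

/-- connectivity of `k`-tuples -/
def Conn (P : Set (ℕ × M × M)) : (Fin k → M) → (Fin k → M) → Prop :=
  Relation.EqvGen fun a b => ∃ n, E P n a b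

/-- the invariant -/
structure Inv (Γ : Subgroup (Equiv.Perm M)) (k : ℕ) (u : ℕ → G) (P : Set (ℕ × M × M)) : Prop where
  fin : P.Finite
  ext : ∀ n, ∃ σ ∈ Γ, ∀ x y, (n, x, y) ∈ P → σ x = y
  pot : ∃ φ : (Fin k → M) → G, ∀ n a b, E P n a b → φ b = u n * φ a

variable {Γ : Subgroup (Equiv.Perm M)} {u : ℕ → G} {P : Set (ℕ × M × M)}

lemma Conn.mono' {Q : Set (ℕ × M × M)} (h : P ⊆ Q) {a b : Fin k → M} (hc : Conn P a b) :
    Conn Q a b :=
  Relation.EqvGen.mono (r := fun a b => ∃ n, E P n a b) (fun _ _ ⟨n, h1, h2⟩ => ⟨n, h1, fun j => h (h2 j)⟩) a b hc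

lemma Conn.real (h : Inv Γ k u P) {a b : Fin k → M} (hc : Conn P a b) : ∃ γ ∈ Γ, γ ∘ a = b := by
  induction hc with
  | rel a b h1 =>
    obtain ⟨n, -, h2⟩ := h1
    obtain ⟨σ, h3, h4⟩ := h.ext n
    exact ⟨σ, h3, funext fun j => h4 _ _ (h2 j)⟩
  | refl a => exact ⟨1, Γ.one_mem, rfl⟩
  | symm a b _ ih =>
    obtain ⟨γ, h1, rfl⟩ := ih
    exact ⟨γ⁻¹, Γ.inv_mem h1, funext fun j => by simp⟩
  | trans a b c _ _ ih ih' =>
    obtain ⟨γ, h1, rfl⟩ := ih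
    obtain ⟨δ, h2, rfl⟩ := ih'
    exact ⟨δ * γ, Γ.mul_mem h2 h1, rfl⟩

lemma Conn.reindex {a b : Fin k → M} (hc : Conn P a b) (π : Equiv.Perm (Fin k)) :
    Conn P (a ∘ π) (b ∘ π) := by
  induction hc with
  | rel a b h1 =>
    obtain ⟨n, h2, h3⟩ := h1
    exact Relation.EqvGen.rel _ _ ⟨n, h2.comp π.injective, fun j => h3 _⟩
  | refl a => exact Relation.EqvGen.refl _
  | symm a b _ ih => exact ih.symm _ _
  | trans a b c _ _ ih ih' => exact ih.trans _ _ _ ih'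

/-- swapping the direction -/
def flip (P : Set (ℕ × M × M)) : Set (ℕ × M × M) := {t | (t.1, t.2.2, t.2.1) ∈ P}

lemma Inv.flip (h : Inv Γ k u P) : Inv Γ k (fun n => (u n)⁻¹) (flip P) := by
  refine ⟨?_, fun n => ?_, ?_⟩
  · refine h.fin.preimage (f := fun t : ℕ × M × M => (t.1, t.2.2, t.2.1)) ?_
    rintro ⟨a, b, c⟩ - ⟨a', b', c'⟩ - e
    simp only [Prod.mk.injEq] at e ⊢
    tauto
  · obtain ⟨σ, h1, h2⟩ := h.ext n
    exact ⟨σ⁻¹, Γ.inv_mem h1, fun x y h3 => by rw [← h2 y x h3]; simp⟩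
  · obtain ⟨φ, hφ⟩ := h.pot
    refine ⟨φ, fun n a b h1 => ?_⟩
    obtain ⟨σ, -, h2⟩ := h.ext n
    have h3 : ∀ j, σ (b j) = a j := fun j => h2 _ _ (h1.2 j)
    rw [hφ n b a ⟨fun i j e => h1.1 (by rw [← h3, ← h3, e]), h1.2⟩]
    simp

lemma step_dom (hna : ∀ A B : Set M, A.Finite → B.Finite → ∀ x ∉ A,
      ∃ τ ∈ Γ, (∀ a ∈ A, τ a = a) ∧ τ x ∉ B) (h : Inv Γ k u P) (n : ℕ) (x : M) :
    ∃ Q, P ⊆ Q ∧ Inv Γ k u Q ∧ ∃ y, (n, x, y) ∈ Q := by
  classical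
  by_cases hx : ∃ y, (n, x, y) ∈ P
  · exact ⟨P, Subset.rfl, h, hx⟩
  obtain ⟨σ, hσ, hσP⟩ := h.ext n
  let B : Set M := insert x ((fun t => t.2.1) '' P ∪ (fun t => t.2.2) '' P)
  have hB : B.Finite := ((h.fin.image _).union (h.fin.image _)).insert x
  obtain ⟨τ, hτ, h1, h2⟩ := hna {a | ∃ y, (n, a, y) ∈ P} (σ ⁻¹' B)
    ((h.fin.image fun t => t.2.1).subset fun a ⟨y, hy⟩ => ⟨_, hy, rfl⟩)
    (hB.preimage σ.injective.injOn) x hx
  have hext : ∀ a b, (n, a, b) ∈ insert (n, x, σ (τ x)) P → (σ * τ) a = b := by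
    rintro a b (e | e)
    · cases e; rfl
    · rw [Equiv.Perm.mul_apply, h1 a ⟨b, e⟩, hσP a b e]
  refine ⟨insert (n, x, σ (τ x)) P, subset_insert _ _, ⟨h.fin.insert _, fun m => ?_, ?_⟩, _,
    mem_insert _ _⟩
  · by_cases hm : m = n
    · subst hm; exact ⟨σ * τ, Γ.mul_mem hσ hτ, hext⟩
    · obtain ⟨ρ, h3, h4⟩ := h.ext m
      refine ⟨ρ, h3, ?_⟩
      rintro a b (e | e)
      · cases e; exact absurd rfl hm
      · exact h4 a b e
  · obtain ⟨φ, hφ⟩ := h.pot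
    refine ⟨fun b => if σ (τ x) ∈ range b then u n * φ ((σ * τ).symm ∘ b) else φ b, ?_⟩
    rintro m a b ⟨h3, h4⟩
    have ha : σ (τ x) ∉ range a := by
      rintro ⟨j, e⟩
      apply h2
      rcases h4 j with e' | e'
      · simp only [Prod.mk.injEq] at e'
        exact Or.inl (e.symm.trans e'.2.1)
      · exact Or.inr (Or.inl ⟨_, e', e⟩)
    simp only [if_neg ha]
    split_ifs with hb
    · obtain ⟨j, e⟩ := hb
      have hm : m = n := by
        rcases h4 j with e' | e'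
        · exact congrArg Prod.fst e'
        · exact absurd (Or.inr (Or.inr ⟨_, e', e⟩)) h2
      subst hm
      congr 2
      funext i
      rw [comp_apply, ← hext _ _ (h4 i)]
      exact (σ * τ).symm_apply_apply _
    · refine hφ m a b ⟨h3, fun j => (h4 j).resolve_left fun e => hb ⟨j, ?_⟩⟩
      simp only [Prod.mk.injEq] at e
      exact e.2.2

lemma step_ran (hna : ∀ A B : Set M, A.Finite → B.Finite → ∀ x ∉ A,
      ∃ τ ∈ Γ, (∀ a ∈ A, τ a = a) ∧ τ x ∉ B) (h : Inv Γ k u P) (n : ℕ) (y : M) :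
    ∃ Q, P ⊆ Q ∧ Inv Γ k u Q ∧ ∃ x, (n, x, y) ∈ Q := by
  obtain ⟨Q, h1, h2, h3⟩ := step_dom hna h.flip n y
  refine ⟨flip Q, fun t ht => h1 ht, ?_, h3⟩
  simpa using h2.flip

lemma step_tup (hr : ∀ a : Fin k → M, Injective a → ∀ γ ∈ Γ, ∀ π : Equiv.Perm (Fin k),
      γ ∘ a = a ∘ π → π = 1) (h : Inv Γ k u P) {a b : Fin k → M} (ha : Injective a)
    (hab : ∃ σ ∈ Γ, σ ∘ a = b) : ∃ Q, P ⊆ Q ∧ Inv Γ k u Q ∧ Conn Q a b := by
  classical
  by_cases hc : Conn P a b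
  · exact ⟨P, Subset.rfl, h, hc⟩
  obtain ⟨σ, hσ, hb⟩ := hab
  have hbi : Injective b := hb ▸ σ.injective.comp ha
  obtain ⟨n, -, hn⟩ := infinite_univ.exists_notMem_finite (h.fin.image Prod.fst)
  have hn' : ∀ x y, (n, x, y) ∉ P := fun x y e => hn ⟨_, e, rfl⟩
  have uniq : ∀ π π' : Equiv.Perm (Fin k), ∀ γ ∈ Γ, γ ∘ (b ∘ π) = b ∘ π' → π = π' := by
    intro π π' γ h1 h2
    have := hr (b ∘ π) (hbi.comp π.injective) γ h1 (π⁻¹ * π') (by
      rw [h2]; funext j; simp)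
    exact inv_mul_eq_one.1 this
  refine ⟨P ∪ range fun j => (n, a j, b j), subset_union_left,
    ⟨h.fin.union (finite_range _), fun m => ?_, ?_⟩,
    Relation.EqvGen.rel _ _ ⟨n, ha, fun j => Or.inr ⟨j, rfl⟩⟩⟩
  · by_cases hm : m = n
    · subst hm
      refine ⟨σ, hσ, ?_⟩
      rintro x y (e | ⟨j, e⟩)
      · exact absurd e (hn' x y)
      · cases e; exact congrFun hb j
    · obtain ⟨ρ, h3, h4⟩ := h.ext m
      refine ⟨ρ, h3, ?_⟩
      rintro x y (e | ⟨j, e⟩)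
      · exact h4 x y e
      · cases e; exact absurd rfl hm
  · obtain ⟨φ, hφ⟩ := h.pot
    obtain ⟨K, K1, K2⟩ : ∃ K : (Fin k → M) → G,
        (∀ c (π : Equiv.Perm (Fin k)), Conn P (b ∘ π) c →
          K c = (φ (b ∘ π))⁻¹ * u n * φ (a ∘ π)) ∧
        ∀ c, (¬ ∃ π : Equiv.Perm (Fin k), Conn P (b ∘ π) c) → K c = 1 := by
      refine ⟨fun c => if h : ∃ π : Equiv.Perm (Fin k), Conn P (b ∘ π) c then
        (φ (b ∘ h.choose))⁻¹ * u n * φ (a ∘ h.choose) else 1, fun c π hπ => ?_,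
        fun c hc => dif_neg hc⟩
      have h1 : ∃ π : Equiv.Perm (Fin k), Conn P (b ∘ π) c := ⟨π, hπ⟩
      obtain ⟨γ, h2, h3⟩ := Conn.real h (h1.choose_spec.trans _ _ _ (hπ.symm _ _))
      simp only [dif_pos h1]
      rw [uniq _ _ γ h2 h3]
    refine ⟨fun c => φ c * K c, ?_⟩
    rintro m c d ⟨h3, h4⟩
    by_cases hm : m = n
    · subst hm
      have : ∀ j, ∃ i, a i = c j ∧ b i = d j := fun j => by
        obtain ⟨i, e⟩ := (h4 j).resolve_left (hn' _ _)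
        simp only [Prod.mk.injEq] at e
        exact ⟨i, e.2⟩
      choose p hp hp' using this
      have hpi : Injective p := fun i j e => h3 (by rw [← hp, ← hp, e])
      let π := Equiv.ofBijective p (Finite.injective_iff_bijective.1 hpi)
      have e1 : c = a ∘ π := funext fun j => (hp j).symm
      have e2 : d = b ∘ π := funext fun j => (hp' j).symm
      have k1 := K1 d π (e2 ▸ Relation.EqvGen.refl _)
      have k2 := K2 c (by
        rintro ⟨π', h5⟩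
        obtain ⟨γ, h6, h7⟩ := Conn.real h h5
        have h8 := uniq π' π (σ * γ) (Γ.mul_mem hσ h6) (by
          rw [Equiv.Perm.coe_mul, comp_assoc, h7, e1, ← comp_assoc, hb])
        subst h8
        rw [e1] at h5
        have h9 := Conn.reindex (h5.symm _ _) π⁻¹
        apply hc
        simpa [comp_def] using h9)
      simp only [k1, k2]
      rw [e1, e2]; group
    · have h5 : E P m c d := ⟨h3, fun j => (h4 j).resolve_right fun ⟨i, e⟩ =>
        hm (congrArg Prod.fst e).symm⟩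
      have h6 : Conn P c d := Relation.EqvGen.rel _ _ ⟨m, h5⟩
      have h7 : K d = K c := by
        by_cases h8 : ∃ π : Equiv.Perm (Fin k), Conn P (b ∘ π) c
        · obtain ⟨π, h8⟩ := h8
          rw [K1 c π h8, K1 d π (h8.trans _ _ _ h6)]
        · rw [K2 c h8, K2 d fun ⟨π, h9⟩ => h8 ⟨π, h9.trans _ _ _ (h6.symm _ _)⟩]
      simp only [h7, hφ m c d h5, mul_assoc]

theorem main [Countable M] (Γ : Subgroup (Equiv.Perm M)) (k : ℕ) (hk : 0 < k)
    (hcl : ∀ g : Equiv.Perm M, (∀ S : Set M, S.Finite → ∃ σ ∈ Γ, ∀ x ∈ S, σ x = g x) → g ∈ Γ)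
    (hna : ∀ A B : Set M, A.Finite → B.Finite → ∀ x ∉ A, ∃ τ ∈ Γ, (∀ a ∈ A, τ a = a) ∧ τ x ∉ B)
    (hr : ∀ a : Fin k → M, Injective a → ∀ γ ∈ Γ, ∀ π : Equiv.Perm (Fin k),
      γ ∘ a = a ∘ π → π = 1) :
    ∃ ρ : FreeGroup ℕ →* Equiv.Perm M, (∀ w, ρ w ∈ Γ) ∧ ∀ a b : Fin k → M, Injective a →
      (∃ σ ∈ Γ, σ ∘ a = b) → ∃! w, ρ w ∘ a = b := by
  let Sat : Set (ℕ × M × M) → (ℕ × M) ⊕ (ℕ × M) ⊕ ((Fin k → M) × (Fin k → M)) ⊕ Unit → Prop :=
    fun Q r => match r with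
      | .inl p => ∃ y, (p.1, p.2, y) ∈ Q
      | .inr (.inl p) => ∃ x, (p.1, x, p.2) ∈ Q
      | .inr (.inr (.inl p)) => Injective p.1 → (∃ σ ∈ Γ, σ ∘ p.1 = p.2) → Conn Q p.1 p.2
      | .inr (.inr (.inr _)) => True
  have step : ∀ (s : {P // Inv Γ k FreeGroup.of P}) r,
      ∃ s' : {P // Inv Γ k FreeGroup.of P}, s.1 ⊆ s'.1 ∧ Sat s'.1 r := by
    rintro ⟨P, h⟩ (p | p | p | p)
    · obtain ⟨Q, h1, h2, h3⟩ := step_dom hna h p.1 p.2; exact ⟨⟨Q, h2⟩, h1, h3⟩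
    · obtain ⟨Q, h1, h2, h3⟩ := step_ran hna h p.1 p.2; exact ⟨⟨Q, h2⟩, h1, h3⟩
    · by_cases hp : Injective p.1 ∧ ∃ σ ∈ Γ, σ ∘ p.1 = p.2
      · obtain ⟨Q, h1, h2, h3⟩ := step_tup hr h hp.1 hp.2; exact ⟨⟨Q, h2⟩, h1, fun _ _ => h3⟩
      · exact ⟨⟨P, h⟩, Subset.rfl, fun h1 h2 => absurd ⟨h1, h2⟩ hp⟩
    · exact ⟨⟨P, h⟩, Subset.rfl, trivial⟩
  choose f hf1 hf2 using step
  obtain ⟨e, he⟩ := exists_surjective_nat
    ((ℕ × M) ⊕ (ℕ × M) ⊕ ((Fin k → M) × (Fin k → M)) ⊕ Unit)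
  have h0 : Inv Γ k FreeGroup.of (∅ : Set (ℕ × M × M)) :=
    ⟨finite_empty, fun _ => ⟨1, Γ.one_mem, fun _ _ h => h.elim⟩,
      fun _ => 1, fun n a b h => (h.2 ⟨0, hk⟩).elim⟩
  let s : ℕ → {P // Inv Γ k FreeGroup.of P} := fun n => Nat.rec ⟨∅, h0⟩ (fun n t => f t (e n)) n
  have mono : Monotone fun n => (s n).1 := monotone_nat_of_le_succ fun n => hf1 _ _
  have sat : ∀ r, ∃ n, Sat (s n).1 r := fun r => by
    obtain ⟨n, rfl⟩ := he r
    exact ⟨n + 1, hf2 _ _⟩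
  choose N g hg using fun n x => (sat (.inl (n, x)) : ∃ m y, (n, x, y) ∈ (s m).1)
  have hfun : ∀ m n x y, (n, x, y) ∈ (s m).1 → g n x = y := by
    intro m n x y h
    obtain ⟨σ, -, h1⟩ := (s (max m (N n x))).2.ext n
    rw [← h1 _ _ (mono (le_max_left _ _) h), ← h1 _ _ (mono (le_max_right _ _) (hg n x))]
  have hloc : ∀ n (S : Set M), S.Finite → ∃ m₀, ∀ m, m₀ ≤ m → ∀ x ∈ S, (n, x, g n x) ∈ (s m).1 := by
    intro n S hS
    obtain ⟨m₀, hm⟩ := (hS.image (N n)).bddAbove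
    exact ⟨m₀, fun m h x hx => mono ((hm ⟨x, hx, rfl⟩).trans h) (hg n x)⟩
  have hloc' : ∀ n (S : Set M), S.Finite → ∃ σ ∈ Γ, ∀ x ∈ S, σ x = g n x := by
    intro n S hS
    obtain ⟨m, hm⟩ := hloc n S hS
    obtain ⟨σ, h1, h2⟩ := (s m).2.ext n
    exact ⟨σ, h1, fun x hx => h2 _ _ (hm m le_rfl x hx)⟩
  have hbij : ∀ n, Bijective (g n) := by
    refine fun n => ⟨fun x y h => ?_, fun y => ?_⟩
    · obtain ⟨σ, -, h1⟩ := hloc' n {x, y} (toFinite _)
      exact σ.injective (by rw [h1 x (by simp), h1 y (by simp), h])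
    · obtain ⟨m, x, h⟩ := (sat (.inr (.inl (n, y))) : ∃ m x, (n, x, y) ∈ (s m).1)
      exact ⟨x, hfun m n x y h⟩
  let ρ : FreeGroup ℕ →* Equiv.Perm M := FreeGroup.lift fun n => Equiv.ofBijective _ (hbij n)
  have hρ : ∀ n x, ρ (FreeGroup.of n) x = g n x := fun n x => by simp [ρ]
  choose φ hφ using fun m => (s m).2.pot
  have key : ∀ w, ∀ a : Fin k → M, Injective a →
      ∃ m₀, ∀ m, m₀ ≤ m → φ m (ρ w ∘ a) = w * φ m a := by
    have hof : ∀ n, ∀ a : Fin k → M, Injective a →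
        ∃ m₀, ∀ m, m₀ ≤ m → φ m (ρ (FreeGroup.of n) ∘ a) = FreeGroup.of n * φ m a := by
      intro n a ha
      obtain ⟨m₀, hm⟩ := hloc n _ (finite_range a)
      exact ⟨m₀, fun m h => hφ m n _ _ ⟨ha, fun j => by
        rw [comp_apply, hρ]; exact hm m h _ ⟨j, rfl⟩⟩⟩
    intro w
    induction w using FreeGroup.induction_on with
    | C1 => exact fun a _ => ⟨0, fun m _ => by simp⟩
    | of n => exact hof n
    | inv_of n _ =>
      intro a ha
      obtain ⟨m₀, hm⟩ := hof n (ρ (FreeGroup.of n)⁻¹ ∘ a) ((Equiv.injective _).comp ha)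
      refine ⟨m₀, fun m h => ?_⟩
      have := hm m h
      rw [← comp_assoc, ← Equiv.Perm.coe_mul, ← map_mul, mul_inv_cancel, map_one] at this
      rw [eq_inv_mul_iff_mul_eq, ← this]; rfl
    | mul v w hv hw =>
      intro a ha
      obtain ⟨m₁, h1⟩ := hw a ha
      obtain ⟨m₂, h2⟩ := hv (ρ w ∘ a) ((Equiv.injective _).comp ha)
      refine ⟨max m₁ m₂, fun m h => ?_⟩
      rw [map_mul, Equiv.Perm.coe_mul, comp_assoc, h2 m (le_of_max_le_right h),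
        h1 m (le_of_max_le_left h), mul_assoc]
  refine ⟨ρ, fun w => ?_, fun a b ha hab => ?_⟩
  · induction w using FreeGroup.induction_on with
    | C1 => rw [map_one]; exact Γ.one_mem
    | of n => exact hcl _ fun S hS => by simpa only [hρ] using hloc' n S hS
    | inv_of n h => rw [map_inv]; exact Γ.inv_mem h
    | mul v w hv hw => rw [map_mul]; exact Γ.mul_mem hv hw
  · obtain ⟨m, hm⟩ := sat (.inr (.inr (.inl (a, b))))
    have h1 : Conn (s m).1 a b := hm ha hab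
    refine existsUnique_of_exists_of_unique ?_ fun v w hv hw => ?_
    · clear hm hab ha
      induction h1 with
      | rel a b h1 =>
        obtain ⟨n, -, h2⟩ := h1
        exact ⟨FreeGroup.of n, funext fun j => (hρ _ _).trans (hfun m n _ _ (h2 j))⟩
      | refl a => exact ⟨1, by simp⟩
      | symm a b _ ih =>
        obtain ⟨w, rfl⟩ := ih
        exact ⟨w⁻¹, funext fun j => by simp⟩
      | trans a b c _ _ ih ih' =>
        obtain ⟨v, rfl⟩ := ih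
        obtain ⟨w, rfl⟩ := ih'
        exact ⟨w * v, by rw [map_mul]; rfl⟩
    · obtain ⟨m₁, h2⟩ := key v a ha
      obtain ⟨m₂, h3⟩ := key w a ha
      have h4 := h2 _ (le_max_left m₁ m₂)
      rw [hv, ← hw, h3 _ (le_max_right m₁ m₂)] at h4
      exact (mul_right_cancel h4).symm

end Pool.Agent.H72.SharpK
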