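import Mathlib

set_option autoImplicit false
set_option linter.unusedVariables false

namespace Pool.Agent.H72.Skl

variable {k : Type} [Field k]

/-- the rank one matrix -/
def N (J1 J2 J3 c1 c2 m0 l1 l2 m3 : k) : Fin 4 → Fin 4 → k :=
  ![![-c1, l2*m3 + J1*(J2+J3-J1)*m0*l1, m3*l1 + J2*(J3+J1-J2)*m0*l2, -(l1*l2) + J3*(J1+J2-J3)*m0*m3],
    ![l2*m3 - J1*(J2+J3-J1)*m0*l1, c1 + J1*c2, l1*l2 - (J1-J2)*(J1+J2-J3)*m0*m3, m3*l1 - (J3-J1)*(J3+J1-J2)*m0*l2],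
    ![m3*l1 - J2*(J3+J1-J2)*m0*l2, l1*l2 + (J1-J2)*(J1+J2-J3)*m0*m3, c1 + J2*c2, l2*m3 + (J2-J3)*(J2+J3-J1)*m0*l1],
    ![-(l1*l2) - J3*(J1+J2-J3)*m0*m3, m3*l1 + (J3-J1)*(J3+J1-J2)*m0*l2, l2*m3 - (J2-J3)*(J2+J3-J1)*m0*l1, -(c1 + J3*c2)]]

theorem N_rank (J1 J2 J3 c1 c2 m0 l1 l2 m3 : k)
    (h0 : c2 = -((J2+J3-J1)*(J3+J1-J2)*(J1+J2-J3)*m0^2))
    (h1 : l1^2 = c1 - J2*J3*(J3+J1-J2)*(J1+J2-J3)*m0^2)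
    (h2 : l2^2 = c1 - J3*J1*(J1+J2-J3)*(J2+J3-J1)*m0^2)
    (h3 : m3^2 = -c1 + J1*J2*(J2+J3-J1)*(J3+J1-J2)*m0^2) (r s t : Fin 4) (hr : r = 0 ∨ r = 1) :
    N J1 J2 J3 c1 c2 m0 l1 l2 m3 s r * N J1 J2 J3 c1 c2 m0 l1 l2 m3 r t =
      N J1 J2 J3 c1 c2 m0 l1 l2 m3 r r * N J1 J2 J3 c1 c2 m0 l1 l2 m3 s t := by
  subst h0
  rcases hr with rfl | rfl <;> fin_cases s <;> fin_cases t <;> simp only [N] <;>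
    simp only [Fin.isValue, Fin.zero_eta, Fin.mk_one, Fin.reduceFinMk, Matrix.cons_val_zero, Matrix.cons_val_one, Matrix.cons_val]
  · ring
  · linear_combination (-J1^2*J3^2*m0^2 - 2*J1^2*J2*J3*m0^2 - J1^2*J2^2*m0^2 + 2*J1^3*J3*m0^2 + 2*J1^3*J2*m0^2 - J1^4*m0^2) * h1 + (m3^2) * h2 + (c1 + J1*J3^3*m0^2 - J1*J2^2*J3*m0^2 - 2*J1^2*J3^2*m0^2 + J1^3*J3*m0^2) * h3
  · linear_combination (-J1*J3*m0*m3 - J1*J2*m0*m3 + J1^2*m0*m3) * h1 + (J2*J3*m0*m3 - J2^2*m0*m3 + J1*J2*m0*m3) * h2 + (l1*l2) * h3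
  · linear_combination (J1*J3*m0*l2 + J1*J2*m0*l2 - J1^2*m0*l2) * h1 + (-l1*m3) * h2 + (-J3^2*m0*l2 + J2*J3*m0*l2 + J1*J3*m0*l2) * h3
  · ring
  · linear_combination (J1*J3*m0*m3 + J1*J2*m0*m3 - J1^2*m0*m3) * h1 + (-J2*J3*m0*m3 + J2^2*m0*m3 - J1*J2*m0*m3) * h2 + (l1*l2) * h3
  · linear_combination (m3^2) * h1 + (-J2^2*J3^2*m0^2 + 2*J2^3*J3*m0^2 - J2^4*m0^2 - 2*J1*J2^2*J3*m0^2 + 2*J1*J2^3*m0^2 - J1^2*J2^2*m0^2) * h2 + (c1 + J2*J3^3*m0^2 - 2*J2^2*J3^2*m0^2 + J2^3*J3*m0^2 - J1^2*J2*J3*m0^2) * h3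
  · linear_combination (-l2*m3) * h1 + (J2*J3*m0*l1 - J2^2*m0*l1 + J1*J2*m0*l1) * h2 + (-J3^2*m0*l1 + J2*J3*m0*l1 + J1*J3*m0*l1) * h3
  · ring
  · linear_combination (-J1*J3*m0*l2 - J1*J2*m0*l2 + J1^2*m0*l2) * h1 + (-l1*m3) * h2 + (J3^2*m0*l2 - J2*J3*m0*l2 - J1*J3*m0*l2) * h3
  · linear_combination (-l2*m3) * h1 + (-J2*J3*m0*l1 + J2^2*m0*l1 - J1*J2*m0*l1) * h2 + (J3^2*m0*l1 - J2*J3*m0*l1 - J1*J3*m0*l1) * h3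
  · linear_combination (l2^2) * h1 + (c1 + J2*J3^3*m0^2 - 2*J2^2*J3^2*m0^2 + J2^3*J3*m0^2 - J1^2*J2*J3*m0^2) * h2 + (-J3^4*m0^2 + 2*J2*J3^3*m0^2 - J2^2*J3^2*m0^2 + 2*J1*J3^3*m0^2 - 2*J1*J2*J3^2*m0^2 - J1^2*J3^2*m0^2) * h3
  · linear_combination (-J1^2*J3^2*m0^2 - 2*J1^2*J2*J3*m0^2 - J1^2*J2^2*m0^2 + 2*J1^3*J3*m0^2 + 2*J1^3*J2*m0^2 - J1^4*m0^2) * h1 + (m3^2) * h2 + (c1 + J1*J3^3*m0^2 - J1*J2^2*J3*m0^2 - 2*J1^2*J3^2*m0^2 + J1^3*J3*m0^2) * h3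
  · ring
  · linear_combination (J1*J3*m0*l2 + J1*J2*m0*l2 - J1^2*m0*l2) * h1 + (l1*m3) * h2 + (-J2*J3*m0*l2 + J2^2*m0*l2 + J1*J3*m0*l2 - J1^2*m0*l2) * h3
  · linear_combination (J1*J3*m0*m3 + J1*J2*m0*m3 - J1^2*m0*m3) * h1 + (-J3^2*m0*m3 + J2*J3*m0*m3 - J1*J2*m0*m3 + J1^2*m0*m3) * h2 + (l1*l2) * h3
  · linear_combination (-J1*J3*m0*l2 - J1*J2*m0*l2 + J1^2*m0*l2) * h1 + (l1*m3) * h2 + (J2*J3*m0*l2 - J2^2*m0*l2 - J1*J3*m0*l2 + J1^2*m0*l2) * h3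
  · ring
  · linear_combination (l2^2) * h1 + (c1 + J2*J3^3*m0^2 - 2*J2^2*J3^2*m0^2 + J2^3*J3*m0^2 - J1^2*J2*J3*m0^2) * h2 + (-J2^2*J3^2*m0^2 + 2*J2^3*J3*m0^2 - J2^4*m0^2 + 2*J1*J2*J3^2*m0^2 - 2*J1*J2^2*J3*m0^2 - J1^2*J3^2*m0^2 - 2*J1^2*J2*J3*m0^2 + 2*J1^2*J2^2*m0^2 + 2*J1^3*J3*m0^2 - J1^4*m0^2) * h3
  · linear_combination (l2*m3) * h1 + (-J3^2*m0*l1 + J2*J3*m0*l1 - J1*J2*m0*l1 + J1^2*m0*l1) * h2 + (J2*J3*m0*l1 - J2^2*m0*l1 - J1*J3*m0*l1 + J1^2*m0*l1) * h3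
  · linear_combination (-J1*J3*m0*m3 - J1*J2*m0*m3 + J1^2*m0*m3) * h1 + (J3^2*m0*m3 - J2*J3*m0*m3 + J1*J2*m0*m3 - J1^2*m0*m3) * h2 + (l1*l2) * h3
  · ring
  · linear_combination (l2*m3) * h1 + (J3^2*m0*l1 - J2*J3*m0*l1 + J1*J2*m0*l1 - J1^2*m0*l1) * h2 + (-J2*J3*m0*l1 + J2^2*m0*l1 + J1*J3*m0*l1 - J1^2*m0*l1) * h3
  · linear_combination (m3^2) * h1 + (-J3^4*m0^2 + 2*J2*J3^3*m0^2 - J2^2*J3^2*m0^2 - 2*J1*J2*J3^2*m0^2 + 2*J1*J2^2*J3*m0^2 + 2*J1^2*J3^2*m0^2 - 2*J1^2*J2*J3*m0^2 - J1^2*J2^2*m0^2 + 2*J1^3*J2*m0^2 - J1^4*m0^2) * h2 + (c1 + J2*J3^3*m0^2 - 2*J2^2*J3^2*m0^2 + J2^3*J3*m0^2 - J1^2*J2*J3*m0^2) * h3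

/-- Factorisation data: for every nonzero member of the pencil there are `a, b` with
`a s * b t = n * N s t`, `a, b` nonzero. -/
theorem exists_ab [IsAlgClosed k] (J1 J2 J3 c1 c2 : k) (hJ : J1 ≠ 0) (hK1 : J2+J3-J1 ≠ 0)
    (hK2 : J3+J1-J2 ≠ 0) (hK3 : J1+J2-J3 ≠ 0) (hc : c1 ≠ 0 ∨ c2 ≠ 0) :
    ∃ (m0 l1 l2 m3 n : k) (a b : Fin 4 → k), a ≠ 0 ∧ b ≠ 0 ∧
      ∀ s t, a s * b t = n * N J1 J2 J3 c1 c2 m0 l1 l2 m3 s t := by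
  obtain ⟨m0, hm0⟩ := IsAlgClosed.exists_pow_nat_eq
    (-c2 / ((J2+J3-J1)*(J3+J1-J2)*(J1+J2-J3))) (n := 2) (by norm_num)
  obtain ⟨l1, h1⟩ := IsAlgClosed.exists_pow_nat_eq
    (c1 - J2*J3*(J3+J1-J2)*(J1+J2-J3)*m0^2) (n := 2) (by norm_num)
  obtain ⟨l2, h2⟩ := IsAlgClosed.exists_pow_nat_eq
    (c1 - J3*J1*(J1+J2-J3)*(J2+J3-J1)*m0^2) (n := 2) (by norm_num)
  obtain ⟨m3, h3⟩ := IsAlgClosed.exists_pow_nat_eq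
    (-c1 + J1*J2*(J2+J3-J1)*(J3+J1-J2)*m0^2) (n := 2) (by norm_num)
  have h0 : c2 = -((J2+J3-J1)*(J3+J1-J2)*(J1+J2-J3)*m0^2) := by
    rw [hm0]; field_simp
  have key : ∀ r : Fin 4, (r = 0 ∨ r = 1) → N J1 J2 J3 c1 c2 m0 l1 l2 m3 r r ≠ 0 →
      ∃ (m0 l1 l2 m3 n : k) (a b : Fin 4 → k), a ≠ 0 ∧ b ≠ 0 ∧
      ∀ s t, a s * b t = n * N J1 J2 J3 c1 c2 m0 l1 l2 m3 s t := by
    intro r hr hN
    refine ⟨m0, l1, l2, m3, N J1 J2 J3 c1 c2 m0 l1 l2 m3 r r,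
      fun s => N J1 J2 J3 c1 c2 m0 l1 l2 m3 s r, fun t => N J1 J2 J3 c1 c2 m0 l1 l2 m3 r t,
      fun h => hN (congrFun h r), fun h => hN (congrFun h r), fun s t => ?_⟩
    exact N_rank J1 J2 J3 c1 c2 m0 l1 l2 m3 h0 h1 h2 h3 r s t hr
  by_cases hc1 : c1 = 0
  · have hc2 : c2 ≠ 0 := hc.resolve_left (by simpa using hc1)
    refine key 1 (Or.inr rfl) ?_
    show c1 + J1 * c2 ≠ 0
    rw [hc1, zero_add]; exact mul_ne_zero hJ hc2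
  · refine key 0 (Or.inl rfl) ?_
    show -c1 ≠ 0
    exact neg_ne_zero.2 hc1

/-- The graded test module attached to a cubic functional `t`. -/
abbrev M (k : Type) := k × (Fin 4 → k) × (Fin 4 → k) × k

def act (t : Fin 4 → Fin 4 → Fin 4 → k) (r : Fin 4) : Module.End k (M k) where
  toFun m := (0, Pi.single r m.1, fun u => ∑ s, t u r s * m.2.1 s, m.2.2.1 r)
  map_add' m n := by
    ext <;> simp [Pi.single_add, mul_add, Finset.sum_add_distrib]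
  map_smul' c m := by
    ext <;> simp [Pi.single_apply, Finset.mul_sum, mul_left_comm]

theorem act_apply (t : Fin 4 → Fin 4 → Fin 4 → k) (r : Fin 4) (m : M k) :
    act t r m = (0, Pi.single r m.1, fun u => ∑ s, t u r s * m.2.1 s, m.2.2.1 r) := rfl

theorem act2 (t : Fin 4 → Fin 4 → Fin 4 → k) (r s : Fin 4) (m : M k) :
    (act t r * act t s) m = (0, 0, fun u => t u r s * m.1, ∑ w, t r s w * m.2.1 w) := by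
  rw [Module.End.mul_apply, act_apply, act_apply]
  ext u <;> simp [Pi.single_apply]

theorem act3 (t : Fin 4 → Fin 4 → Fin 4 → k) (r s u : Fin 4) :
    ((act t r * act t s * act t u) (1, 0, 0, 0)).2.2.2 = t r s u := by
  rw [Module.End.mul_apply, act2, act_apply]
  simp [Pi.single_apply]

end Pool.Agent.H72.Skl
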