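import Pool.Agent.H72.SklA

set_option autoImplicit false
set_option linter.unusedVariables false
set_option linter.unusedSimpArgs false

namespace Pool.Agent.H72.Skl

variable {k : Type} [Field k]

/-- The six Sklyanin relations for a quadruple in an algebra. -/
structure Rels {B : Type} [Ring B] [Algebra k B] (α β γ : k) (y : Fin 4 → B) : Prop where
  c1 : y 0 * y 1 - y 1 * y 0 = α • (y 2 * y 3 + y 3 * y 2)
  c2 : y 0 * y 2 - y 2 * y 0 = β • (y 3 * y 1 + y 1 * y 3)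
  c3 : y 0 * y 3 - y 3 * y 0 = γ • (y 1 * y 2 + y 2 * y 1)
  a1 : y 0 * y 1 + y 1 * y 0 = y 2 * y 3 - y 3 * y 2
  a2 : y 0 * y 2 + y 2 * y 0 = y 3 * y 1 - y 1 * y 3
  a3 : y 0 * y 3 + y 3 * y 0 = y 1 * y 2 - y 2 * y 1

/-- A bilinear functional kills the relations. -/
structure Kills (α β γ : k) (q : Fin 4 → Fin 4 → k) : Prop where
  c1 : q 0 1 - q 1 0 = α * (q 2 3 + q 3 2)
  c2 : q 0 2 - q 2 0 = β * (q 3 1 + q 1 3)
  c3 : q 0 3 - q 3 0 = γ * (q 1 2 + q 2 1)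
  a1 : q 0 1 + q 1 0 = q 2 3 - q 3 2
  a2 : q 0 2 + q 2 0 = q 3 1 - q 1 3
  a3 : q 0 3 + q 3 0 = q 1 2 - q 2 1

theorem act_rels {α β γ : k} (t : Fin 4 → Fin 4 → Fin 4 → k)
    (hl : ∀ u, Kills α β γ (fun r s => t u r s)) (hr : ∀ u, Kills α β γ (fun r s => t r s u)) :
    Rels α β γ (act t) := by
  constructor
  all_goals
    refine LinearMap.ext fun m => ?_
    simp only [LinearMap.sub_apply, LinearMap.add_apply, LinearMap.smul_apply, act2]
    refine Prod.ext (by simp) (Prod.ext (by simp) (Prod.ext (funext fun u => ?_) ?_))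
    all_goals simp only [Prod.snd_sub, Prod.fst_sub, Prod.snd_add, Prod.fst_add, Prod.smul_snd,
      Prod.smul_fst, Pi.sub_apply, Pi.add_apply, Pi.smul_apply, smul_eq_mul, Fin.sum_univ_four]
  · linear_combination m.1 * (hl u).c1
  · linear_combination m.2.1 0 * (hr 0).c1 + m.2.1 1 * (hr 1).c1 + m.2.1 2 * (hr 2).c1 + m.2.1 3 * (hr 3).c1
  · linear_combination m.1 * (hl u).c2
  · linear_combination m.2.1 0 * (hr 0).c2 + m.2.1 1 * (hr 1).c2 + m.2.1 2 * (hr 2).c2 + m.2.1 3 * (hr 3).c2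
  · linear_combination m.1 * (hl u).c3
  · linear_combination m.2.1 0 * (hr 0).c3 + m.2.1 1 * (hr 1).c3 + m.2.1 2 * (hr 2).c3 + m.2.1 3 * (hr 3).c3
  · linear_combination m.1 * (hl u).a1
  · linear_combination m.2.1 0 * (hr 0).a1 + m.2.1 1 * (hr 1).a1 + m.2.1 2 * (hr 2).a1 + m.2.1 3 * (hr 3).a1
  · linear_combination m.1 * (hl u).a2
  · linear_combination m.2.1 0 * (hr 0).a2 + m.2.1 1 * (hr 1).a2 + m.2.1 2 * (hr 2).a2 + m.2.1 3 * (hr 3).a2
  · linear_combination m.1 * (hl u).a3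
  · linear_combination m.2.1 0 * (hr 0).a3 + m.2.1 1 * (hr 1).a3 + m.2.1 2 * (hr 2).a3 + m.2.1 3 * (hr 3).a3

/-- normal form of a quadratic element -/
def quad {B : Type} [Ring B] [Algebra k B] (y : Fin 4 → B) (d : Fin 4 → k) (f g : Fin 3 → k) : B :=
  d 0 • (y 0 * y 0) + d 1 • (y 1 * y 1) + d 2 • (y 2 * y 2) + d 3 • (y 3 * y 3) +
    f 0 • (y 2 * y 3) + g 0 • (y 3 * y 2) + f 1 • (y 3 * y 1) + g 1 • (y 1 * y 3) +
    f 2 • (y 1 * y 2) + g 2 • (y 2 * y 1)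

theorem exists_quad [CharZero k] {B : Type} [Ring B] [Algebra k B] {α β γ : k} {y : Fin 4 → B}
    (h : Rels α β γ y) {w : B}
    (hw : w ∈ Submodule.span k (Set.range fun p : Fin 4 × Fin 4 => y p.1 * y p.2)) :
    ∃ (d : Fin 4 → k) (f g : Fin 3 → k), w = quad y d f g := by
  obtain ⟨c, rfl⟩ := (Submodule.mem_span_range_iff_exists_fun k).1 hw
  refine ⟨fun r => c (r, r),
    ![c (2,3) + c (0,1) * (1+α)/2 + c (1,0) * (1-α)/2,
      c (3,1) + c (0,2) * (1+β)/2 + c (2,0) * (1-β)/2,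
      c (1,2) + c (0,3) * (1+γ)/2 + c (3,0) * (1-γ)/2],
    ![c (3,2) + c (0,1) * (α-1)/2 - c (1,0) * (1+α)/2,
      c (1,3) + c (0,2) * (β-1)/2 - c (2,0) * (1+β)/2,
      c (2,1) + c (0,3) * (γ-1)/2 - c (3,0) * (1+γ)/2], ?_⟩
  rw [Fintype.sum_prod_type]
  simp only [Fin.sum_univ_four, quad, Matrix.cons_val_zero, Matrix.cons_val_one, Matrix.cons_val]
  linear_combination (norm := module)
    ((c (0,1) - c (1,0))/2) • h.c1 + ((c (0,1) + c (1,0))/2) • h.a1 +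
    ((c (0,2) - c (2,0))/2) • h.c2 + ((c (0,2) + c (2,0))/2) • h.a2 +
    ((c (0,3) - c (3,0))/2) • h.c3 + ((c (0,3) + c (3,0))/2) • h.a3

/-- what centrality of a quadratic element gives, tested on the module of `t` -/
theorem central_test (t : Fin 4 → Fin 4 → Fin 4 → k) (d : Fin 4 → k) (f g : Fin 3 → k) (u : Fin 4)
    (h : quad (act t) d f g * act t u = act t u * quad (act t) d f g) :
    d 0 * (t 0 0 u - t u 0 0) + d 1 * (t 1 1 u - t u 1 1) + d 2 * (t 2 2 u - t u 2 2) +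
      d 3 * (t 3 3 u - t u 3 3) + f 0 * (t 2 3 u - t u 2 3) + g 0 * (t 3 2 u - t u 3 2) +
      f 1 * (t 3 1 u - t u 3 1) + g 1 * (t 1 3 u - t u 1 3) + f 2 * (t 1 2 u - t u 1 2) +
      g 2 * (t 2 1 u - t u 2 1) = 0 := by
  have h' := congrArg (fun φ : Module.End k (M k) => (φ (1, 0, 0, 0)).2.2.2) h
  simp only [quad, add_mul, mul_add, smul_mul_assoc, mul_smul_comm, ← mul_assoc,
    LinearMap.add_apply, LinearMap.smul_apply, Prod.snd_add, Prod.smul_snd, act3, smul_eq_mul] at h'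
  linear_combination h'

/-- weight zero functionals -/
noncomputable def t0 (α β γ A1 A2 A3 B1 B2 B3 : k) : Fin 4 → Fin 4 → Fin 4 → k :=
  ![![![0, 0, 0, 0], ![0, ((1+α)*A2 + (α-1)*B3)/2, 0, 0], ![0, 0, ((1+β)*A3 + (β-1)*B1)/2, 0],
      ![0, 0, 0, ((1+γ)*A1 + (γ-1)*B2)/2]],
    ![![0, ((1-α)*A2 - (1+α)*B3)/2, 0, 0], ![((1-α)*A1 - (1+α)*B1)/2, 0, 0, 0], ![0, 0, 0, A1],
      ![0, 0, B1, 0]],
    ![![0, 0, ((1-β)*A3 - (1+β)*B1)/2, 0], ![0, 0, 0, B2], ![((1-β)*A2 - (1+β)*B2)/2, 0, 0, 0],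
      ![0, A2, 0, 0]],
    ![![0, 0, 0, ((1-γ)*A1 - (1+γ)*B2)/2], ![0, 0, A3, 0], ![0, B3, 0, 0],
      ![((1-γ)*A3 - (1+γ)*B3)/2, 0, 0, 0]]]

theorem t0_rels [CharZero k] (α β γ A1 A2 A3 B1 B2 B3 : k)
    (h1 : (1-α)*(A2+B1) = (1+α)*(A1+B3)) (h2 : (1-β)*(A3+B2) = (1+β)*(A2+B1))
    (h3 : (1-γ)*(A1+B3) = (1+γ)*(A3+B2)) : Rels α β γ (act (t0 α β γ A1 A2 A3 B1 B2 B3)) := by
  apply act_rels
  all_goals
    intro u
    fin_cases u <;> constructor <;> simp [t0] <;> first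
      | ring1
      | linear_combination (1/2 : k) * h1
      | linear_combination (-1/2 : k) * h1
      | linear_combination (1/2 : k) * h2
      | linear_combination (-1/2 : k) * h2
      | linear_combination (1/2 : k) * h3

/-- a functional of the weight of `x 1` -/
noncomputable def t1 (α β γ : k) : Fin 4 → Fin 4 → Fin 4 → k :=
  ![![![0, -((1-α)*(1+β)*(1+γ)), 0, 0], ![-((1-α)*(1-β)*(1-γ)), 0, 0, 0], ![0, 0, 0, 0],
      ![0, 0, 2*(1+γ)*(1+β), 0]],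
    ![![-((1+α)*(1-β)*(1-γ)), 0, 0, 0], ![0, 0, 0, 0], ![0, 0, 4*(1+β), 0], ![0, 0, 0, 0]],
    ![![0, 0, 0, 0], ![0, 0, 0, 0], ![0, 0, 0, 0], ![0, 0, 0, 0]],
    ![![0, 0, 2*(1-γ)*(1+β), 0], ![0, 0, 0, 0], ![2*(1-β)*(1-γ), 0, 0, 0], ![0, 4*(1-γ), 0, 0]]]

theorem t1_rels (α β γ : k) (h : α + β + γ + α * β * γ = 0) : Rels α β γ (act (t1 α β γ)) := by
  apply act_rels
  all_goals
    intro u
    fin_cases u <;> constructor <;> simp [t1] <;> first
      | ring1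
      | linear_combination 2 * h
      | linear_combination (-2) * h

/-- Determination of the quadratic elements that are central in every test module. -/
theorem centre_coeffs [CharZero k] {α β γ : k} (h : α + β + γ + α * β * γ = 0)
    (hα0 : α ≠ 0) (hβ0 : β ≠ 0) (hγ0 : γ ≠ 0) (hα1 : 1 - α ≠ 0) (hβ1 : 1 - β ≠ 0) (hγ1 : 1 - γ ≠ 0)
    (hα2 : 1 + α ≠ 0) (hβ2 : 1 + β ≠ 0) (hγ2 : 1 + γ ≠ 0) (d : Fin 4 → k) (f g : Fin 3 → k)
    (hc : ∀ t : Fin 4 → Fin 4 → Fin 4 → k, Rels α β γ (act t) → ∀ u,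
      quad (act t) d f g * act t u = act t u * quad (act t) d f g) :
    f = 0 ∧ g = 0 ∧ ∃ c1 c2 : k, d 0 = -c1 ∧ d 1 = c1 + (1-β)*(1+γ)*c2 ∧
      d 2 = c1 + (1+α)*(1+γ)*c2 ∧ d 3 = c1 + (1-α)*(1-β)*c2 := by
  have T := fun A1 A2 A3 B1 B2 B3 h1 h2 h3 u => central_test _ d f g u
    (hc _ (t0_rels α β γ A1 A2 A3 B1 B2 B3 h1 h2 h3) u)
  have p0 := T 1 0 0 0 0 (-1) (by ring) (by ring) (by ring) 1
  have p1 := T 0 1 0 (-1) 0 0 (by ring) (by ring) (by ring) 2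
  have p2 := T 0 0 1 0 (-1) 0 (by ring) (by ring) (by ring) 3
  have Q := T 0 0 0 ((1+α)*(1-β)) ((1+α)*(1+β)) ((1-α)*(1-β)) (by ring) (by ring)
    (by linear_combination (-2) * h)
  have q0 := Q 0
  have q1 := Q 1
  have q2 := Q 2
  have q3 := Q 3
  have r1 := central_test _ d f g 1 (hc _ (t1_rels α β γ h) 1)
  simp only [t0, t1, Matrix.cons_val_zero, Matrix.cons_val_one, Matrix.cons_val] at p0 p1 p2 q0 q1 q2 q3 r1
  have g0 : g 0 = 0 := by
    have : (α * (1 - β)) * g 0 = 0 := by linear_combination (-1/2 : k) * q1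
    exact (mul_eq_zero.1 this).resolve_left (mul_ne_zero hα0 hβ1)
  have g1 : g 1 = 0 := by
    have : (β * (1 + α)) * g 1 = 0 := by linear_combination (-1/2 : k) * q2
    exact (mul_eq_zero.1 this).resolve_left (mul_ne_zero hβ0 hα2)
  have g2 : g 2 = 0 := by
    have : (γ * ((1 - α) * (1 - β))) * g 2 = 0 := by
      linear_combination g 2 * h - (1+γ)/2 * q3
    exact (mul_eq_zero.1 this).resolve_left (mul_ne_zero hγ0 (mul_ne_zero hα1 hβ1))
  have f0 : f 0 = 0 := by linear_combination -p0 - g0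
  have f1 : f 1 = 0 := by linear_combination -p1 - g1
  have f2 : f 2 = 0 := by linear_combination -p2 - g2
  refine ⟨by ext i; fin_cases i <;> simp [f0, f1, f2], by ext i; fin_cases i <;> simp [g0, g1, g2], ?_⟩
  obtain ⟨c2, e2⟩ : ∃ c2, d 2 = -d 0 + (1+α)*(1+γ)*c2 :=
    ⟨(d 2 + d 0) / ((1+α)*(1+γ)), by field_simp; ring⟩
  have e3 : d 3 = -d 0 + (1-α)*(1-β)*c2 := by
    have : (1-γ) * (d 3 - (-d 0 + (1-α)*(1-β)*c2)) = 0 := by
      linear_combination (1/4 : k) * r1 + (1+β) * e2 + (2*c2 - d 0/2) * h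
    exact sub_eq_zero.1 ((mul_eq_zero.1 this).resolve_left hγ1)
  have e1 : d 1 = -d 0 + (1-β)*(1+γ)*c2 := by
    have : (α*(1-β)) * (d 1 - (-d 0 + (1-β)*(1+γ)*c2)) = 0 := by
      linear_combination (-1/2 : k) * q0 - β*(1+α) * e2 + (α+β-γ-α*β*γ)/2 * e3 +
        (d 0 - (1+α)*(1+β)*c2)/2 * h
    exact sub_eq_zero.1 ((mul_eq_zero.1 this).resolve_left (mul_ne_zero hα0 hβ1))
  exact ⟨-d 0, c2, by ring, e1, e2, e3⟩

/-- the degree one elements of the twisted algebra -/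
def U {B : Type} [Ring B] [Algebra k B] (y : Fin 4 → B) (a : Fin 4 → k) : Matrix (Fin 2) (Fin 2) B :=
  !![a 0 • y 0 + a 1 • y 1, a 2 • y 2 + a 3 • y 3; a 2 • y 2 - a 3 • y 3, a 0 • y 0 - a 1 • y 1]

theorem U_mul {B : Type} [Ring B] [Algebra k B] {α β γ : k} {y : Fin 4 → B} (h : Rels α β γ y)
    (J1 J2 J3 c1 c2 m0 l1 l2 m3 n : k) (hα : J2 - J3 = α * J1) (hβ : J3 - J1 = β * J2)
    (hγ : J1 - J2 = γ * J3) (a b : Fin 4 → k)
    (hab : ∀ s t, a s * b t = n * N J1 J2 J3 c1 c2 m0 l1 l2 m3 s t) :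
    U y a * U y b = n • Matrix.scalar (Fin 2)
      (quad y ![-c1, c1 + J1*c2, c1 + J2*c2, c1 + J3*c2] (0 : Fin 3 → k) 0) := by
  ext i j
  fin_cases i <;> fin_cases j <;>
    simp only [U, Matrix.mul_apply, Fin.sum_univ_two, Matrix.of_apply, Matrix.cons_val', Matrix.cons_val_zero,
      Matrix.cons_val_one, Matrix.cons_val_fin_one, Fin.zero_eta, Fin.mk_one, Fin.isValue, add_mul, mul_add,
      sub_mul, mul_sub, smul_mul_smul_comm, hab, N, Matrix.cons_val, hα, hβ, hγ, quad, Matrix.smul_apply,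
      Matrix.scalar_apply, Matrix.diagonal_apply, Pi.zero_apply, zero_smul, add_zero, if_true,
      zero_ne_one, one_ne_zero, if_false, smul_zero]
  · linear_combination (norm := module) (n * (l2*m3)) • h.a1 + (n * (J1*(J2+J3-J1)*m0*l1)) • h.c1
  · linear_combination (norm := module) (n * (m3*l1)) • h.a2 + (n * (J2*(J3+J1-J2)*m0*l2)) • h.c2
      - (n * (l1*l2)) • h.a3 + (n * (J3*(J1+J2-J3)*m0*m3)) • h.c3
  · linear_combination (norm := module) (n * (m3*l1)) • h.a2 + (n * (J2*(J3+J1-J2)*m0*l2)) • h.c2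
      + (n * (l1*l2)) • h.a3 - (n * (J3*(J1+J2-J3)*m0*m3)) • h.c3
  · linear_combination (norm := module) (-(n * (l2*m3))) • h.a1 - (n * (J1*(J2+J3-J1)*m0*l1)) • h.c1

theorem U_eq_zero (a : Fin 4 → k) [CharZero k] (h : U (act (0 : Fin 4 → Fin 4 → Fin 4 → k)) a = 0) :
    a = 0 := by
  have h0 := congrArg (fun φ : Module.End k (M k) => (φ (1, 0, 0, 0)).2.1) (congrFun (congrFun h 0) 0)
  have h1 := congrArg (fun φ : Module.End k (M k) => (φ (1, 0, 0, 0)).2.1) (congrFun (congrFun h 0) 1)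
  simp only [U, Matrix.of_apply, Matrix.cons_val', Matrix.cons_val_zero, Matrix.cons_val_one,
    LinearMap.add_apply, LinearMap.smul_apply, act_apply, Prod.snd_add, Prod.fst_add, Prod.smul_snd,
    Prod.smul_fst] at h0 h1
  ext i
  fin_cases i
  · simpa using congrFun h0 0
  · simpa using congrFun h0 1
  · simpa using congrFun h1 2
  · simpa using congrFun h1 3

theorem quad_zero (d : Fin 4 → k) (f g : Fin 3 → k) :
    quad (act (0 : Fin 4 → Fin 4 → Fin 4 → k)) d f g = 0 := by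
  have : ∀ r s, act (0 : Fin 4 → Fin 4 → Fin 4 → k) r * act 0 s = 0 := by
    intro r s
    refine LinearMap.ext fun m => ?_
    rw [act2]; simp; rfl
  simp [quad, this]

theorem zero_rels (α β γ : k) : Rels α β γ (act (0 : Fin 4 → Fin 4 → Fin 4 → k)) := by
  apply act_rels <;> intro u <;> constructor <;> simp

end Pool.Agent.H72.Skl
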