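import Pool.Agent.H72.SklB

set_option autoImplicit false
set_option linter.unusedVariables false
set_option linter.unusedSimpArgs false

namespace Pool.Agent.H72.Skl

variable {k : Type} [Field k] {B : Type} [Ring B]

theorem D_sq : (!![1, 0; 0, -1] : Matrix (Fin 2) (Fin 2) B) * !![1, 0; 0, -1] = 1 := by
  ext i j; fin_cases i <;> fin_cases j <;> simp

theorem P_sq : (!![0, 1; 1, 0] : Matrix (Fin 2) (Fin 2) B) * !![0, 1; 1, 0] = 1 := by
  ext i j; fin_cases i <;> fin_cases j <;> simp

variable [Algebra k B]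

theorem sign1 {α β γ : k} {y : Fin 4 → B} (h : Rels α β γ y) :
    Rels α β γ ![y 0, y 1, -y 2, -y 3] := by
  constructor <;> simp only [Matrix.cons_val_zero, Matrix.cons_val_one, Matrix.cons_val, mul_neg,
    neg_mul, neg_neg]
  · exact h.c1
  · linear_combination (norm := module) -h.c2
  · linear_combination (norm := module) -h.c3
  · exact h.a1
  · linear_combination (norm := module) -h.a2
  · linear_combination (norm := module) -h.a3

theorem sign2 {α β γ : k} {y : Fin 4 → B} (h : Rels α β γ y) :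
    Rels α β γ ![y 0, -y 1, y 2, -y 3] := by
  constructor <;> simp only [Matrix.cons_val_zero, Matrix.cons_val_one, Matrix.cons_val, mul_neg,
    neg_mul, neg_neg]
  · linear_combination (norm := module) -h.c1
  · exact h.c2
  · linear_combination (norm := module) -h.c3
  · linear_combination (norm := module) -h.a1
  · exact h.a2
  · linear_combination (norm := module) -h.a3

theorem U_fix1 (y : Fin 4 → B) (g : B →ₐ[k] B) (e : ∀ i, g (y i) = ![y 0, y 1, -y 2, -y 3] i)
    (a : Fin 4 → k) :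
    !![1, 0; 0, -1] * (U y a).map g * !![1, 0; 0, -1] = U y a := by
  ext i j
  fin_cases i <;> fin_cases j <;>
    simp [U, e, Matrix.mul_apply, Fin.sum_univ_two, Matrix.vecMul, dotProduct] <;> abel

theorem U_fix2 (y : Fin 4 → B) (g : B →ₐ[k] B) (e : ∀ i, g (y i) = ![y 0, -y 1, y 2, -y 3] i)
    (a : Fin 4 → k) :
    !![0, 1; 1, 0] * (U y a).map g * !![0, 1; 1, 0] = U y a := by
  ext i j
  fin_cases i <;> fin_cases j <;>
    simp [U, e, Matrix.mul_apply, Fin.sum_univ_two, Matrix.vecMul, dotProduct] <;> abel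

theorem sc_fix1 (g : B →ₐ[k] B) (z : B) (e : g z = z) :
    !![1, 0; 0, -1] * (Matrix.scalar (Fin 2) z).map g * !![1, 0; 0, -1] = Matrix.scalar (Fin 2) z := by
  ext i j
  fin_cases i <;> fin_cases j <;>
    simp [e, Matrix.mul_apply, Fin.sum_univ_two, Matrix.vecMul, dotProduct]

theorem sc_fix2 (g : B →ₐ[k] B) (z : B) (e : g z = z) :
    !![0, 1; 1, 0] * (Matrix.scalar (Fin 2) z).map g * !![0, 1; 1, 0] = Matrix.scalar (Fin 2) z := by
  ext i j
  fin_cases i <;> fin_cases j <;>
    simp [e, Matrix.mul_apply, Fin.sum_univ_two, Matrix.vecMul, dotProduct]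

theorem map_quad {C : Type} [Ring C] [Algebra k C] (φ : B →ₐ[k] C)
    (y : Fin 4 → B) (d : Fin 4 → k) (f g : Fin 3 → k) :
    φ (quad y d f g) = quad (fun i => φ (y i)) d f g := by
  simp [quad]

theorem map_U {C : Type} [Ring C] [Algebra k C] (φ : B →ₐ[k] C)
    (y : Fin 4 → B) (a : Fin 4 → k) : (U y a).map φ = U (fun i => φ (y i)) a := by
  ext i j
  fin_cases i <;> fin_cases j <;> simp [U]

theorem quad_fix1 (y : Fin 4 → B) (g : B →ₐ[k] B) (e : ∀ i, g (y i) = ![y 0, y 1, -y 2, -y 3] i)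
    (d : Fin 4 → k) : g (quad y d (0 : Fin 3 → k) 0) = quad y d (0 : Fin 3 → k) 0 := by
  simp [quad, e]

theorem quad_fix2 (y : Fin 4 → B) (g : B →ₐ[k] B) (e : ∀ i, g (y i) = ![y 0, -y 1, y 2, -y 3] i)
    (d : Fin 4 → k) : g (quad y d (0 : Fin 3 → k) 0) = quad y d (0 : Fin 3 → k) 0 := by
  simp [quad, e]

theorem sc_smul (n : k) (z : B) : n • Matrix.scalar (Fin 2) z =
    Matrix.scalar (Fin 2) (algebraMap k B n) * Matrix.scalar (Fin 2) z := by
  rw [← map_mul, ← Algebra.smul_def]
  ext i j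
  fin_cases i <;> fin_cases j <;> simp

theorem sc_map {C : Type} [Ring C] [Algebra k C] (φ : B →ₐ[k] C) (z : B) (e : φ z = 0) :
    (Matrix.scalar (Fin 2) z).map φ = 0 := by
  ext i j
  fin_cases i <;> fin_cases j <;> simp [e]

end Pool.Agent.H72.Skl
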