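import Mathlib

set_option autoImplicit false

namespace Pool.Agent.H72.SofAct

open Equiv Filter Topology

/-- Normalized Hamming distance on the symmetric group of a finite set. -/
noncomputable def hamming {A : Type} (σ τ : Perm A) : ℝ :=
  ({a | σ a ≠ τ a}.ncard : ℝ) / Nat.card A

/-- Soficity of the action of `G` on `X` given by `α`. -/
def IsSofic {G X : Type} [Group G] (α : G →* Perm X) : Prop :=
  ∀ (F : Finset G) (E : Finset X) (ε : ℝ), 0 < ε →
    ∃ (A : Type) (_ : Finite A) (φ : G → Perm A), φ 1 = 1 ∧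
      (∀ g ∈ F, ∀ h ∈ F, hamming (φ (g * h)) (φ g * φ h) < ε) ∧
      ∃ (B : Type) (_ : Finite B) (S : Set A) (π : A → E → B),
        (1 - ε) * (Nat.card A : ℝ) < S.ncard ∧ (∀ s ∈ S, Function.Injective (π s)) ∧
        ∀ s ∈ S, ∀ g ∈ F, ∀ x : E, φ g s ∈ S → ∀ hx : α g⁻¹ x ∈ E,
          π (φ g s) x = π s ⟨α g⁻¹ x, hx⟩

noncomputable def dens {A : Type} (Z : Set A) : ℝ := (Z.ncard : ℝ) / Nat.card A

lemma dens_nonneg {A : Type} (Z : Set A) : 0 ≤ dens Z := by unfold dens; positivity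

lemma dens_le {A : Type} [Finite A] {Z Z1 Z2 : Set A} (h : Z ⊆ Z1 ∪ Z2) :
    dens Z ≤ dens Z1 + dens Z2 := by
  unfold dens
  rw [← add_div]
  refine div_le_div_of_nonneg_right ?_ (by positivity)
  exact_mod_cast (Set.ncard_le_ncard h).trans (Set.ncard_union_le _ _)

lemma dens_empty {A : Type} : dens (∅ : Set A) = 0 := by simp [dens]

lemma dens_perm {A : Type} (σ : Perm A) (Z : Set A) : dens (σ ⁻¹' Z) = dens Z := by
  unfold dens
  rw [Set.ncard_preimage_of_injective_subset_range σ.injective (by simp)]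

lemma dens_prod {A A' C : Type} [Finite C] [Nonempty C] (e : A ≃ A' × C) (Z : Set A') :
    dens {a | (e a).1 ∈ Z} = dens Z := by
  unfold dens
  have h1 : {a | (e a).1 ∈ Z} = e ⁻¹' (Z ×ˢ Set.univ) := by ext; simp
  have h2 : (0 : ℝ) < Nat.card C := by exact_mod_cast Nat.card_pos
  rw [h1, Set.ncard_preimage_of_injective_subset_range e.injective (by simp), Set.ncard_prod,
    Nat.card_congr e, Nat.card_prod, Set.ncard_univ]
  push_cast
  rw [mul_div_mul_right _ _ h2.ne']

lemma dens_compl {A : Type} [Finite A] [Nonempty A] (Z : Set A) {ε : ℝ} :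
    dens Zᶜ < ε ↔ (1 - ε) * (Nat.card A : ℝ) < Z.ncard := by
  have h2 : (0 : ℝ) < Nat.card A := by exact_mod_cast Nat.card_pos
  have h1 : (Z.ncard : ℝ) + Zᶜ.ncard = Nat.card A := by
    exact_mod_cast Set.ncard_add_ncard_compl Z
  unfold dens
  rw [div_lt_iff₀ h2]
  constructor <;> intro h <;> linarith

variable {I X : Type} {G : I → Type} [∀ i, Group (G i)] {α : ∀ i, G i →* Perm X}

lemma key (h : ∀ i, IsSofic (α i)) (T : Finset I) (F : ∀ i, Finset (G i)) (E : Finset X)
    {δ : ℝ} (hδ : 0 < δ) :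
    ∃ (A : Type) (_ : Finite A) (_ : Nonempty A) (B : Type) (_ : Finite B)
      (φ : ∀ i, G i → Perm A) (lab : A → X → B), (∀ s, Set.InjOn (lab s) E) ∧ ∀ i ∈ T,
      (∀ g ∈ F i, ∀ h ∈ F i, dens {a | φ i (g * h) a ≠ (φ i g * φ i h) a} ≤ δ) ∧
      ∀ g ∈ F i, ∀ x ∈ E, α i g⁻¹ x ∈ E →
        dens {s | lab (φ i g s) x ≠ lab s (α i g⁻¹ x)} ≤ δ + δ := by
  classical
  choose A hA φ h1 h2 B hB S π h3 h4 h5 using fun i => h i (F i) E δ hδ
  have ne : ∀ i, Nonempty (A i) := fun i => by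
    by_contra hn
    have := h3 i
    rw [not_nonempty_iff] at hn
    simp [Set.eq_empty_of_isEmpty (S i)] at this
  let B0 := E ⊕ Σ i : T, B i
  have hτ : ∀ (i : T) (a : A i), ∃ τ : Perm B0, a ∈ S i → ∀ x : E,
      τ (Sum.inl x) = Sum.inr ⟨i, π i a x⟩ := fun i a => by
    by_cases ha : a ∈ S i
    · obtain ⟨τ, hτ⟩ := Perm.exists_extending_pair (f := (Sum.inl : E → B0))
        (g := fun x => Sum.inr ⟨i, π i a x⟩) Sum.inl_injective
        (fun x y e => h4 i a ha (by simpa using e))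
      exact ⟨τ, fun _ => hτ⟩
    · exact ⟨1, fun h => (ha h).elim⟩
  choose τ hτ using hτ
  let AA := Perm B0 × ∀ i : T, A i
  let e : ∀ i : T, AA ≃ A i × (Perm B0 × ∀ j : {j : T // j ≠ i}, A j) := fun i =>
    { toFun := fun p => (p.2 i, p.1 * (τ i (p.2 i))⁻¹, (piSplitAt i (fun j : T => A j) p.2).2)
      invFun := fun q => (q.2.1 * τ i q.1, (piSplitAt i (fun j : T => A j)).symm (q.1, q.2.2))
      left_inv := fun p => by
        refine Prod.ext (by simp) ?_
        exact (piSplitAt i (fun j : T => A j)).symm_apply_apply p.2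
      right_inv := fun q => by
        have : (piSplitAt i (fun j : T => A j)).symm (q.1, q.2.2) i = q.1 := by simp
        refine Prod.ext this (Prod.ext ?_ ?_)
        · show q.2.1 * τ i q.1 * (τ i ((piSplitAt i (fun j : T => A j)).symm (q.1, q.2.2) i))⁻¹ = _
          rw [this]; simp
        · show (piSplitAt i (fun j : T => A j)
            ((piSplitAt i (fun j : T => A j)).symm (q.1, q.2.2))).2 = _
          rw [apply_symm_apply] }
  have he : ∀ i p, p.1 = (e i p).2.1 * τ i (e i p).1 := fun i p => by simp [e]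
  let ψ : ∀ i : T, Perm (A i) → Perm AA := fun i σ =>
    ((e i).trans (prodCongr σ (Equiv.refl _))).trans (e i).symm
  have hψ : ∀ i σ p, e i (ψ i σ p) = (σ (e i p).1, (e i p).2) := fun i σ p => by
    simp only [ψ, trans_apply, apply_symm_apply]; rfl
  refine ⟨AA, inferInstance, inferInstance, Option B0, inferInstance,
    fun i g => if hi : i ∈ T then ψ ⟨i, hi⟩ (φ i g) else 1,
    fun p x => if hx : x ∈ E then some (p.1 (Sum.inl ⟨x, hx⟩)) else none, ?_, ?_⟩
  · intro p x hx y hy hxy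
    have hx' : x ∈ E := hx
    have hy' : y ∈ E := hy
    simpa [hx', hy', B0] using hxy
  intro i hi
  simp only [dif_pos hi]
  refine ⟨fun g hg k hk => ?_, fun g hg x hx hx' => ?_⟩
  · refine le_trans (le_of_eq ?_) (h2 i g hg k hk).le
    refine Eq.trans ?_ (dens_prod (e ⟨i, hi⟩) {a | φ i (g * k) a ≠ (φ i g * φ i k) a})
    congr 1
    ext p
    simp only [Set.mem_ofPred_eq, Perm.mul_apply]
    rw [Ne, ← (e ⟨i, hi⟩).apply_eq_iff_eq, hψ, hψ, hψ]
    simp
  · have b1 := (dens_compl (S i)).2 (h3 i)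
    refine le_trans (dens_le (Z1 := {p | (e ⟨i, hi⟩ p).1 ∈ (S i)ᶜ})
      (Z2 := {p | (e ⟨i, hi⟩ p).1 ∈ φ i g ⁻¹' (S i)ᶜ}) ?_) ?_
    · intro p hp
      by_contra hc
      simp only [Set.mem_union, Set.mem_ofPred_eq, Set.mem_compl_iff, Set.mem_preimage, not_or,
        not_not] at hc
      apply hp
      simp only [dif_pos hx, dif_pos hx']
      rw [he ⟨i, hi⟩ (ψ _ _ p), he ⟨i, hi⟩ p, hψ]
      simp only [Perm.mul_apply]
      rw [hτ _ _ hc.2, hτ _ _ hc.1, h5 i _ hc.1 g hg ⟨x, hx⟩ hc.2 hx']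
    · rw [dens_prod, dens_prod, dens_perm]
      linarith

section Small

variable {J : Type} {A : J → Type} [∀ j, Finite (A j)] {l : Filter J}

def Small (l : Filter J) (Z : ∀ j, Set (A j)) : Prop := Tendsto (fun j => dens (Z j)) l (𝓝 0)

lemma Small.union {Z Z1 Z2 : ∀ j, Set (A j)} (h1 : Small l Z1) (h2 : Small l Z2)
    (h : ∀ j, Z j ⊆ Z1 j ∪ Z2 j) : Small l Z :=
  squeeze_zero (fun _ => dens_nonneg _) (fun j => dens_le (h j)) (by simpa using h1.add h2)

omit [∀ j, Finite (A j)] in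
lemma small_empty : Small l (fun j => (∅ : Set (A j))) := by
  simp only [Small, dens_empty]; exact tendsto_const_nhds

lemma Small.mono {Z Z1 : ∀ j, Set (A j)} (h1 : Small l Z1) (h : ∀ j, Z j ⊆ Z1 j) : Small l Z :=
  h1.union small_empty fun j => by simpa using h j

omit [∀ j, Finite (A j)] in
lemma Small.perm {Z : ∀ j, Set (A j)} (h1 : Small l Z) (σ : ∀ j, Perm (A j)) :
    Small l fun j => σ j ⁻¹' Z j := by
  simpa only [Small, dens_perm] using h1

lemma small_biUnion {K : Type} (s : Finset K) (Z : K → ∀ j, Set (A j))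
    (h : ∀ k, Small l (Z k)) : Small l fun j => {a | ∃ k ∈ s, a ∈ Z k j} := by
  classical
  induction s using Finset.induction_on with
  | empty => simpa using small_empty
  | insert k s _ ih => exact (h k).union ih fun j a ha => by simpa using ha

def Nul (l : Filter J) (A : J → Type) [∀ j, Finite (A j)] : Subgroup (∀ j, Perm (A j)) where
  carrier := {σ | Small l fun j => {a | σ j a ≠ a}}
  one_mem' := small_empty.mono fun j a ha => by simp at ha
  mul_mem' := fun {σ τ} h1 h2 => (Small.perm h1 τ).union h2 fun j a ha => by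
    by_contra hc
    simp only [Set.mem_union, Set.mem_preimage, Set.mem_ofPred_eq, not_or, not_not] at hc
    exact ha (hc.1.trans hc.2)
  inv_mem' := fun {σ} h1 => (Small.perm h1 σ⁻¹).mono fun j a ha hc => ha (by
    simpa using hc.symm)

instance : (Nul l A).Normal := ⟨fun σ h τ => (Small.perm h τ⁻¹).mono fun j a ha hc => ha (by
  have hc' : σ j ((τ j)⁻¹ a) = (τ j)⁻¹ a := hc
  simp only [Pi.mul_apply, Pi.inv_apply, Perm.mul_apply, hc']
  simp)⟩

lemma nul_iff (σ τ : ∀ j, Perm (A j)) :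
    (σ : (∀ j, Perm (A j)) ⧸ Nul l A) = τ ↔ Small l fun j => {a | σ j a ≠ τ j a} := by
  rw [QuotientGroup.eq]
  show Small l _ ↔ _
  refine iff_of_eq (congrArg _ (funext fun j => Set.ext fun a => ?_))
  simp only [Set.mem_ofPred_eq, Pi.mul_apply, Pi.inv_apply, Perm.mul_apply, Ne,
    Perm.inv_eq_iff_eq]
  rw [eq_comm]

def Cov (l : Filter J) {B : J → Type} (lab : ∀ j, A j → X → B j) :
    Subgroup ((∀ j, Perm (A j)) × Perm X) where
  carrier := {q | ∀ x, Small l fun j => {s | lab j (q.1 j s) x ≠ lab j s (q.2⁻¹ x)}}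
  one_mem' := fun x => small_empty.mono fun j a ha => by simp at ha
  mul_mem' := fun {q r} h1 h2 x => (Small.perm (h1 x) r.1).union (h2 (q.2⁻¹ x)) fun j a ha => by
    by_contra hc
    simp only [Set.mem_union, Set.mem_preimage, Set.mem_ofPred_eq, not_or, not_not] at hc
    exact ha (by simpa using hc.1.trans hc.2)
  inv_mem' := fun {q} h1 x => (Small.perm (h1 (q.2 x)) q.1⁻¹).mono fun j a ha hc => ha (by
    simpa using hc.symm)

end Small

theorem free_product (h : ∀ i, IsSofic (α i)) : IsSofic (Monoid.CoprodI.lift α) := by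
  classical
  let J := Finset (Σ i, G i) × Finset X × ℕ
  choose A hA hne B hB φ lab h1 h2 using fun j : J => key h (j.1.image Sigma.fst)
    (fun i => j.1.preimage (Sigma.mk i) sigma_mk_injective.injOn) j.2.1
    (δ := 1 / ((j.2.2 : ℝ) + 1)) (by positivity)
  have t0 : Tendsto (fun j : J => 1 / ((j.2.2 : ℝ) + 1)) atTop (𝓝 0) :=
    tendsto_one_div_add_atTop_nhds_zero_nat.comp (tendsto_atTop.2 fun n =>
      (eventually_ge_atTop ((∅, ∅, n) : J)).mono fun j hj => hj.2.2)
  have e1 : ∀ p : Σ i, G i, ∀ᶠ j : J in atTop, p ∈ j.1 := fun p =>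
    (eventually_ge_atTop (({p}, ∅, 0) : J)).mono fun j hj => hj.1 (by simp)
  have e2 : ∀ E : Finset X, ∀ᶠ j : J in atTop, E ⊆ j.2.1 := fun E =>
    (eventually_ge_atTop ((∅, E, 0) : J)).mono fun j hj => hj.2.1
  let ψ : ∀ i, G i →* (∀ j, Perm (A j)) ⧸ Nul atTop A := fun i =>
    MonoidHom.mk' (fun g => QuotientGroup.mk fun j => φ j i g) fun g k => by
      rw [← QuotientGroup.mk_mul, nul_iff]
      refine squeeze_zero' (Eventually.of_forall fun _ => dens_nonneg _) ?_ t0
      filter_upwards [e1 ⟨i, g⟩, e1 ⟨i, k⟩] with j a1 a2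
      exact (h2 j i (Finset.mem_image.2 ⟨_, a1, rfl⟩)).1 g (by simpa using a1) k (by simpa using a2)
  have main : ∀ g, ∃ σ : ∀ j, Perm (A j), (g = 1 → σ = 1) ∧
      QuotientGroup.mk σ = Monoid.CoprodI.lift ψ g ∧
      (σ, Monoid.CoprodI.lift α g) ∈ Cov atTop lab := by
    intro g
    by_cases hg : g = 1
    · subst hg
      exact ⟨1, fun _ => rfl, by simp, by rw [map_one]; exact (Cov atTop lab).one_mem⟩
    simp only [hg, false_imp_iff, true_and]
    clear hg
    induction g using Monoid.CoprodI.induction_on with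
    | one => exact ⟨1, by simp, by rw [map_one]; exact (Cov atTop lab).one_mem⟩
    | of i g =>
      refine ⟨fun j => φ j i g, by simp [ψ], fun x => ?_⟩
      refine squeeze_zero' (Eventually.of_forall fun _ => dens_nonneg _) ?_
        (by simpa using t0.add t0)
      filter_upwards [e1 ⟨i, g⟩, e2 {x, α i g⁻¹ x}] with j a1 a2
      simpa using (h2 j i (Finset.mem_image.2 ⟨_, a1, rfl⟩)).2 g (by simpa using a1) x
        (a2 (by simp)) (a2 (by simp))
    | mul g k ih1 ih2 =>
      obtain ⟨σ, a1, a2⟩ := ih1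
      obtain ⟨τ, b1, b2⟩ := ih2
      exact ⟨σ * τ, by simp [a1, b1], by simpa using (Cov atTop lab).mul_mem a2 b2⟩
  choose σ s1 s2 s3 using main
  intro F E ε hε
  have m1 : ∀ᶠ j : J in atTop, ∀ g ∈ F, ∀ k ∈ F,
      hamming (σ (g * k) j) (σ g j * σ k j) < ε := by
    simp only [eventually_all_finset]
    intro g _ k _
    have : Small atTop fun j => {a | σ (g * k) j a ≠ (σ g * σ k) j a} :=
      (nul_iff _ _).1 (by rw [QuotientGroup.mk_mul, s2, s2, s2, map_mul])
    exact this.eventually (gt_mem_nhds hε)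
  have m2 := (small_biUnion (F ×ˢ E) _ fun p => s3 p.1 p.2).eventually (gt_mem_nhds hε)
  obtain ⟨j, j1, j2, j3⟩ := (m1.and (m2.and (e2 E))).exists
  refine ⟨A j, hA j, fun g => σ g j, by beta_reduce; rw [s1 1 rfl]; rfl, j1, B j, hB j, _,
    fun s x => lab j s x, (dens_compl _).1 (by rw [compl_compl]; exact j2),
    fun s _ x y e => Subtype.ext (h1 j s (j3 x.2) (j3 y.2) e), fun s hs g hg x _ hx => ?_⟩
  by_contra hc
  exact hs ⟨(g, x), by simp [hg], by simpa using hc⟩

end Pool.Agent.H72.SofAct
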