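import Mathlib
import Pool.Agent.H72.Aff

namespace Pool.Agent.H72.SolAut

open Pool.Agent.H72.Aff

def X : Type := ℤ → ℤ
instance : AddCommGroup X := inferInstanceAs (AddCommGroup (ℤ → ℤ))
@[simp] theorem X_add (x y : X) (i : ℤ) : (x + y) i = x i + y i := rfl
@[simp] theorem X_neg (x : X) (i : ℤ) : (-x) i = -x i := rfl
@[simp] theorem X_zero (i : ℤ) : (0 : X) i = 0 := rfl
@[simp] theorem X_zsmul (n : ℤ) (x : X) (i : ℤ) : (n • x) i = n * x i := rfl

def Z : Type := Multiplicative ℤ
instance : CommGroup Z := inferInstanceAs (CommGroup (Multiplicative ℤ))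
def Z.val (n : Z) : ℤ := Multiplicative.toAdd n
@[simp] theorem Z_mul (m n : Z) : (m * n).val = m.val + n.val := rfl
@[simp] theorem Z_one : (1 : Z).val = 0 := rfl
@[simp] theorem Z_inv (n : Z) : (n⁻¹).val = -n.val := rfl

instance : SMul Z X := ⟨fun n x i => x (i - n.val)⟩
@[simp] theorem Z_smul (n : Z) (x : X) (i : ℤ) : (n • x) i = x (i - n.val) := rfl
instance : DistribMulAction Z X where
  one_smul x := funext fun i => by simp
  mul_smul m n x := funext fun i => by simp [sub_sub]
  smul_zero _ := rfl
  smul_add _ _ _ := rfl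

abbrev L : Type := Aff Z X

def la (l : L) (w : X) : X := l.v + l.q • w
theorem la_one (w : X) : la 1 w = w := by simp [la]
theorem la_mul (l l' : L) (w : X) : la (l * l') w = la l (la l' w) := by
  simp [la, mul_smul, add_assoc]

def Sg : Type := X → ZMod 2
instance : AddCommGroup Sg := inferInstanceAs (AddCommGroup (X → ZMod 2))
@[simp] theorem Sg_add (x y : Sg) (i : X) : (x + y) i = x i + y i := rfl
@[simp] theorem Sg_zero (i : X) : (0 : Sg) i = 0 := rfl
instance : SMul L Sg := ⟨fun l e w => e (la l⁻¹ w)⟩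
@[simp] theorem L_smul (l : L) (e : Sg) (w : X) : (l • e) w = e (la l⁻¹ w) := rfl
instance : DistribMulAction L Sg where
  one_smul x := funext fun i => by simp [la_one]
  mul_smul m n x := funext fun i => by simp [la_mul]
  smul_zero _ := rfl
  smul_add _ _ _ := rfl

abbrev Q : Type := Aff L Sg

def sgn (a : ZMod 2) : ZMod 3 := if a = 0 then 1 else -1
theorem sgn_add : ∀ a b, sgn (a + b) = sgn a * sgn b := by decide
theorem sgn_zero : sgn 0 = 1 := rfl

def W (G : Type) : Type := X → G → ZMod 3
variable {G : Type}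
instance : AddCommGroup (W G) := inferInstanceAs (AddCommGroup (X → G → ZMod 3))
@[simp] theorem W_add (x y : W G) (i : X) (g : G) : (x + y) i g = x i g + y i g := rfl
@[simp] theorem W_neg (x : W G) (i : X) (g : G) : (-x) i g = -x i g := rfl
@[simp] theorem W_zero (i : X) (g : G) : (0 : W G) i g = 0 := rfl
instance : SMul Q (W G) := ⟨fun q w x g => sgn (q.v x) * w (la q.q⁻¹ x) g⟩
@[simp] theorem Q_smul (q : Q) (w : W G) (x : X) (g : G) :
    (q • w) x g = sgn (q.v x) * w (la q.q⁻¹ x) g := rfl
instance : DistribMulAction Q (W G) where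
  one_smul x := funext fun i => funext fun g => by simp [la_one, sgn_zero]
  mul_smul m n x := funext fun i => funext fun g => by simp [la_mul, sgn_add, mul_assoc]
  smul_zero _ := funext fun i => funext fun g => by simp
  smul_add _ _ _ := funext fun i => funext fun g => by simp [mul_add]

abbrev Gam (G : Type) : Type := Aff Q (W G)

theorem dl_Gam : derivedSeries (Gam G) 4 = ⊥ :=
  dl_aff 3 (dl_aff 2 (dl_aff 1 (by
    rw [derivedSeries_one, eq_bot_iff, commutator, Subgroup.commutator_le]
    intro x _ y _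
    rw [Subgroup.mem_bot, commutatorElement_eq_one_iff_mul_comm, mul_comm])))

variable [Group G]

def Rw (h : G) (w : W G) : W G := fun x g => w x (h⁻¹ * g)

def R (h : G) : Gam G →* Gam G where
  toFun y := ⟨Rw h y.v, y.q⟩
  map_one' := rfl
  map_mul' _ _ := rfl

theorem R_mul (h h' : G) (y : Gam G) : R (h * h') y = R h (R h' y) :=
  Aff.ext (funext fun x => funext fun g => by simp [R, Rw, mul_assoc]) rfl
theorem R_one (y : Gam G) : R 1 y = y :=
  Aff.ext (funext fun x => funext fun g => by simp [R, Rw]) rfl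

def ofList (l : List ℤ) : X := fun i => if 0 ≤ i then l.getD i.toNat 0 else 0

open Classical in
noncomputable def kap (s : ℤ → G) : W G := fun x g =>
  if ∃ l : List ℤ, x = ofList l ∧ g = (l.map s).prod then 1 else 0

theorem kap_pos (s : ℤ → G) (x : X) (g : G)
    (h : ∃ l : List ℤ, x = ofList l ∧ g = (l.map s).prod) : kap s x g = 1 := if_pos h
theorem kap_neg (s : ℤ → G) (x : X) (g : G)
    (h : ¬ ∃ l : List ℤ, x = ofList l ∧ g = (l.map s).prod) : kap s x g = 0 := if_neg h

def d0 : X := fun i => if i = 0 then 1 else 0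
def sh : Z := Multiplicative.ofAdd 1
@[simp] theorem sh_val : sh.val = 1 := rfl
def qt : Q := inr (inr sh)
def qb : Q := inr (tr d0)
def qa : Q := tr fun x => if x 0 = 0 then 1 else 0

noncomputable def gens (s : ℤ → G) : Set (Gam G) := {inr qt, inr qb, inr qa, tr (kap s)}
noncomputable def S (s : ℤ → G) : Subgroup (Gam G) := Subgroup.closure (gens s)

theorem ofList_cons (j : ℤ) (l : List ℤ) (x : X) :
    (fun i => x (i - 1) + j * d0 i : X) = ofList (j :: l) ∧ x (-1) = 0 ↔ x = ofList l := by
  constructor
  · rintro ⟨h, h'⟩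
    funext i
    have := congrFun h (i + 1)
    simp only [add_sub_cancel_right, d0, ofList] at this ⊢
    by_cases hi : 0 ≤ i
    · obtain ⟨n, rfl⟩ := Int.eq_ofNat_of_zero_le hi
      have e : ((n : ℤ) + 1).toNat = n + 1 := by omega
      rw [if_neg (by omega), if_pos (by omega), e] at this
      simpa using this
    · by_cases hi' : i = -1
      · rw [hi', h']; simp
      · rw [if_neg (by omega), if_neg (by omega)] at this
        rw [if_neg hi]; simpa using this
  · rintro rfl
    refine ⟨funext fun i => ?_, by simp [ofList]⟩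
    simp only [ofList, d0]
    by_cases hi : 0 < i
    · obtain ⟨n, rfl⟩ : ∃ n : ℕ, i = n + 1 := ⟨(i - 1).toNat, by omega⟩
      have e : ((n : ℤ) + 1).toNat = n + 1 := by omega
      rw [if_pos (by omega), if_neg (by omega), if_pos (by omega), e]
      simp
    · by_cases hi' : i = 0
      · subst hi'; simp
      · rw [if_neg (by omega), if_neg hi', if_neg (by omega)]; simp

theorem ofList_nil : ofList [] = 0 := funext fun i => by simp [ofList]

theorem kap_shift (s : ℤ → G) (hs : s 0 = 1) (j : ℤ) :
    Rw (s j) (kap s) = qt⁻¹ • (qa • (qb ^ (-j)) • kap s + -((qb ^ (-j)) • kap s)) := by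
  funext x g
  have e : qb ^ (-j) = inr (tr ((-j) • d0)) := by rw [tr_zsmul, map_zpow, qb]
  have e2 : la (tr (-j • d0))⁻¹ (la (inr sh) x) = (fun i => x (i - 1) + j * d0 i : X) := by
    funext i; simp [la, add_comm]
  have e3 : la (inr sh) x 0 = x (-1) := by simp [la]
  have key : (∃ l : List ℤ, x = ofList l ∧ (s j)⁻¹ * g = (l.map s).prod) ↔
      (x (-1) = 0 ∧ ∃ l : List ℤ, (fun i => x (i - 1) + j * d0 i : X) = ofList l ∧
        g = (l.map s).prod) := by
    constructor
    · rintro ⟨l, h1, h2⟩
      have := (ofList_cons j l x).2 h1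
      exact ⟨this.2, j :: l, this.1, by simp [← h2]⟩
    · rintro ⟨h0, l, h1, h2⟩
      rcases l with _ | ⟨y, l⟩
      · have h3 := congrFun h1 0
        simp [ofList, d0, h0] at h3
        subst h3
        refine ⟨[], ?_, by simp [hs, h2]⟩
        funext i
        have := congrFun h1 (i + 1)
        simpa [ofList] using this
      · have h3 := congrFun h1 0
        simp [ofList, d0, h0] at h3
        subst h3
        exact ⟨l, (ofList_cons j l x).1 ⟨h1, h0⟩, by simp [h2]⟩
  simp only [Rw, e, qt, qa, ← map_inv, Q_smul, inr_v, inr_q, Sg_zero, sgn_zero, one_mul, W_add,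
    W_neg, tr_v, tr_q, inv_one, la_one, inv_inv, e2, e3]
  by_cases h0 : x (-1) = 0
  · simp only [h0, true_and] at key
    simp only [h0, if_true]
    by_cases h1 : ∃ l : List ℤ, x = ofList l ∧ (s j)⁻¹ * g = (l.map s).prod
    · rw [kap_pos _ _ _ h1, kap_pos _ _ _ (key.1 h1)]; decide
    · rw [kap_neg _ _ _ h1, kap_neg _ _ _ (fun h => h1 (key.2 h))]; decide
  · rw [kap_neg _ _ _ (fun h => h0 (key.1 h).1), if_neg h0, sgn_zero, one_mul, add_neg_cancel]

theorem R_mem (s : ℤ → G) (hs : s 0 = 1) (hsurj : Function.Surjective s) (h : G)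
    (y : Gam G) (hy : y ∈ S s) : R h y ∈ S s := by
  have : S s ≤ (S s).comap (R h) := by
    rw [S, Subgroup.closure_le]
    have ht : inr qt ∈ S s := Subgroup.subset_closure (by simp [gens])
    have hb : inr qb ∈ S s := Subgroup.subset_closure (by simp [gens])
    have ha : inr qa ∈ S s := Subgroup.subset_closure (by simp [gens])
    have hk : tr (kap s) ∈ S s := Subgroup.subset_closure (by simp [gens])
    have conj : ∀ (q : Q) (w : W G), inr q ∈ S s → tr w ∈ S s → tr (q • w) ∈ S s := by
      intro q w hq hw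
      have := (S s).mul_mem ((S s).mul_mem hq hw) ((S s).inv_mem hq)
      rwa [tr_conj] at this
    rintro y (rfl | rfl | rfl | rfl)
    · exact ht
    · exact hb
    · exact ha
    · obtain ⟨j, rfl⟩ := hsurj h
      change tr (Rw (s j) (kap s)) ∈ S s
      rw [kap_shift s hs]
      have h1 := conj (qb ^ (-j)) _ (by rw [map_zpow]; exact (S s).zpow_mem hb _) hk
      refine conj _ _ (by rw [map_inv]; exact (S s).inv_mem ht) ?_
      rw [tr_add, tr_neg]
      exact (S s).mul_mem (conj _ _ ha h1) ((S s).inv_mem h1)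
  exact this hy

theorem prod_one (s : ℤ → G) (hs : s 0 = 1) (l : List ℤ) (h : (0 : X) = ofList l) :
    (l.map s).prod = 1 := by
  induction l with
  | nil => rfl
  | cons y l ih =>
    have h0 := congrFun h 0
    simp [ofList] at h0
    subst h0
    have := (ofList_cons 0 l 0).1 ⟨by rw [← h]; funext i; simp, rfl⟩
    simp [hs, ih this]

theorem main (G : Type) [Group G] [Countable G] :
    ∃ (S : Type) (_ : Group S), Group.FG S ∧ derivedSeries S 4 = ⊥ ∧
      ∃ f : G →* MulAut S, Function.Injective f := by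
  obtain ⟨f, hf⟩ := exists_surjective_nat G
  let s : ℤ → G := fun j => f j.natAbs * (f 0)⁻¹
  have hs : s 0 = 1 := by simp [s]
  have hsurj : Function.Surjective s := fun g => by
    obtain ⟨n, hn⟩ := hf (g * f 0)
    exact ⟨n, by simp [s, hn]⟩
  refine ⟨S s, inferInstance, ?_, ?_, ?_⟩
  · rw [Group.fg_iff_subgroup_fg, Subgroup.fg_iff]
    exact ⟨gens s, rfl, by simp [gens]⟩
  · have := map_derivedSeries_le_derivedSeries (S s).subtype 4
    rw [dl_Gam, le_bot_iff, Subgroup.map_eq_bot_iff_of_injective _ (S s).subtype_injective] at this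
    exact this
  · let F : G →* MulAut (S s) :=
      { toFun := fun h =>
          { toFun := fun y => ⟨R h y, R_mem s hs hsurj h _ y.2⟩
            invFun := fun y => ⟨R h⁻¹ y, R_mem s hs hsurj _ _ y.2⟩
            left_inv := fun y => Subtype.ext (by simp only [← R_mul, inv_mul_cancel, R_one])
            right_inv := fun y => Subtype.ext (by simp only [← R_mul, mul_inv_cancel, R_one])
            map_mul' := fun y z => Subtype.ext (map_mul (R h) _ _) }
        map_one' := by ext1 y; exact Subtype.ext (R_one _)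
        map_mul' := fun h h' => by ext1 y; exact Subtype.ext (R_mul _ _ _) }
    refine ⟨F, (injective_iff_map_eq_one F).2 fun h hh => ?_⟩
    have hk : tr (kap s) ∈ S s := Subgroup.subset_closure (by simp [gens])
    have h1 : Rw h (kap s) = kap s :=
      congrArg (fun e : MulAut (S s) => (e ⟨_, hk⟩).1.v) hh
    have h2 := congrFun (congrFun h1 0) h
    rw [Rw, kap_pos _ _ _ ⟨[], ofList_nil.symm, by simp⟩] at h2
    by_cases h3 : ∃ l : List ℤ, (0 : X) = ofList l ∧ h = (l.map s).prod
    · obtain ⟨l, h4, h5⟩ := h3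
      rw [h5, prod_one s hs l h4]
    · rw [kap_neg _ _ _ h3] at h2
      exact absurd h2 (by decide)

end Pool.Agent.H72.SolAut
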