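import Mathlib

namespace Pool.Agent.H72.Stab
open Matrix Filter Topology

noncomputable section

section frob
variable {ι κ μ ν : Type} [Fintype ι] [Fintype κ] [Fintype μ] [Fintype ν]

/-- squared Frobenius norm -/
def fr (A : Matrix ι κ ℂ) : ℝ := ∑ i, ∑ j, ‖A i j‖ ^ 2

lemma fr_nonneg (A : Matrix ι κ ℂ) : 0 ≤ fr A := by
  unfold fr; positivity

lemma fr_zero : fr (0 : Matrix ι κ ℂ) = 0 := by simp [fr]

lemma fr_eq_trace (A : Matrix ι κ ℂ) : (fr A : ℂ) = trace (Aᴴ * A) := by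
  unfold fr
  rw [Finset.sum_comm]
  simp only [trace, diag, mul_apply, conjTranspose_apply]
  push_cast
  refine Finset.sum_congr rfl fun j _ => Finset.sum_congr rfl fun i _ => ?_
  rw [Complex.star_def, Complex.conj_mul']

lemma fr_conjT (A : Matrix ι κ ℂ) : fr Aᴴ = fr A := by
  unfold fr
  rw [Finset.sum_comm]
  simp

lemma fr_neg (A : Matrix ι κ ℂ) : fr (-A) = fr A := by simp [fr]

lemma fr_sub_comm (A B : Matrix ι κ ℂ) : fr (A - B) = fr (B - A) := by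
  rw [← fr_neg, neg_sub]

lemma fr_add_le (A B : Matrix ι κ ℂ) : fr (A + B) ≤ 2 * fr A + 2 * fr B := by
  unfold fr
  rw [Finset.mul_sum, Finset.mul_sum, ← Finset.sum_add_distrib]
  refine Finset.sum_le_sum fun i _ => ?_
  rw [Finset.mul_sum, Finset.mul_sum, ← Finset.sum_add_distrib]
  refine Finset.sum_le_sum fun j _ => ?_
  have h := norm_add_le (A i j) (B i j)
  have h0 := norm_nonneg (A i j + B i j)
  rw [Matrix.add_apply]
  nlinarith [sq_nonneg (‖A i j‖ - ‖B i j‖), norm_nonneg (A i j), norm_nonneg (B i j)]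

lemma fr_sub_le (A B : Matrix ι κ ℂ) : fr (A - B) ≤ 2 * fr A + 2 * fr B := by
  have := fr_add_le A (-B)
  rwa [fr_neg, ← sub_eq_add_neg] at this

lemma fr_tri (A B C : Matrix ι κ ℂ) : fr (A - C) ≤ 2 * fr (A - B) + 2 * fr (B - C) := by
  have := fr_add_le (A - B) (B - C)
  rwa [sub_add_sub_cancel] at this

lemma fr_mul_left [DecidableEq ι] {U : Matrix μ ι ℂ} (h : Uᴴ * U = 1) (A : Matrix ι κ ℂ) :
    fr (U * A) = fr A := by
  apply Complex.ofReal_injective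
  rw [fr_eq_trace, fr_eq_trace, conjTranspose_mul, Matrix.mul_assoc, ← Matrix.mul_assoc Uᴴ, h,
    Matrix.one_mul]

lemma fr_mul_right [DecidableEq κ] {U : Matrix κ μ ℂ} (h : U * Uᴴ = 1) (A : Matrix ι κ ℂ) :
    fr (A * U) = fr A := by
  rw [← fr_conjT, conjTranspose_mul, fr_mul_left (by simpa using h), fr_conjT]

lemma fr_blocks (A : Matrix ι μ ℂ) (B : Matrix ι ν ℂ) (C : Matrix κ μ ℂ) (D : Matrix κ ν ℂ) :
    fr (fromBlocks A B C D) = fr A + fr B + fr C + fr D := by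
  simp [fr, Fintype.sum_sum_type, Finset.sum_add_distrib]; ring

lemma fr_iso [DecidableEq κ] {U : Matrix ι κ ℂ} (h : Uᴴ * U = 1) : fr U = Fintype.card κ := by
  apply Complex.ofReal_injective
  rw [fr_eq_trace, h]; simp

lemma eq_zero_of_fr {A : Matrix ι κ ℂ} (h : fr A ≤ 0) : A = 0 := by
  have h0 : fr A = 0 := le_antisymm h (fr_nonneg A)
  unfold fr at h0
  ext i j
  rw [Finset.sum_eq_zero_iff_of_nonneg (fun i _ => by positivity)] at h0
  have := h0 i (Finset.mem_univ _)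
  rw [Finset.sum_eq_zero_iff_of_nonneg (fun i _ => by positivity)] at this
  simpa using this j (Finset.mem_univ _)

lemma norm_trace_sq_le (A : Matrix ι ι ℂ) : ‖trace A‖ ^ 2 ≤ Fintype.card ι * fr A := by
  have h1 : ‖trace A‖ ≤ ∑ i, ‖A i i‖ := norm_sum_le _ _
  have h2 : (∑ i, ‖A i i‖) ^ 2 ≤ (Finset.univ : Finset ι).card * ∑ i, ‖A i i‖ ^ 2 :=
    sq_sum_le_card_mul_sum_sq
  have h3 : ∑ i, ‖A i i‖ ^ 2 ≤ fr A := by
    refine Finset.sum_le_sum fun i _ => ?_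
    exact Finset.single_le_sum (f := fun j => ‖A i j‖ ^ 2) (fun j _ => by positivity)
      (Finset.mem_univ i)
  calc ‖trace A‖ ^ 2 ≤ (∑ i, ‖A i i‖) ^ 2 := by gcongr
    _ ≤ _ := h2
    _ ≤ _ := by rw [Finset.card_univ]; gcongr

lemma fr_sum_le {H : Type} [Fintype H] (A : H → Matrix ι κ ℂ) :
    fr (∑ h, A h) ≤ Fintype.card H * ∑ h, fr (A h) := by
  unfold fr
  rw [Finset.sum_comm (s := (Finset.univ : Finset H)), Finset.mul_sum]
  refine Finset.sum_le_sum fun i _ => ?_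
  rw [Finset.sum_comm (s := (Finset.univ : Finset H)), Finset.mul_sum]
  refine Finset.sum_le_sum fun j _ => ?_
  rw [Matrix.sum_apply]
  have h1 : ‖∑ h, A h i j‖ ≤ ∑ h, ‖A h i j‖ := norm_sum_le _ _
  have h2 : (∑ h, ‖A h i j‖) ^ 2 ≤ (Finset.univ : Finset H).card * ∑ h, ‖A h i j‖ ^ 2 :=
    sq_sum_le_card_mul_sum_sq
  calc _ ≤ (∑ h, ‖A h i j‖) ^ 2 := by gcongr
    _ ≤ _ := h2

lemma fr_smul (c : ℂ) (A : Matrix ι κ ℂ) : fr (c • A) = ‖c‖ ^ 2 * fr A := by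
  simp [fr, Finset.mul_sum, mul_pow]

/-- permutation matrix of a bijection -/
def pm [DecidableEq ι] (e : κ ≃ ι) : Matrix ι κ ℂ := Matrix.of fun i j => if e j = i then 1 else 0

omit [Fintype ι] [Fintype μ] in
lemma pm_mul [DecidableEq ι] [DecidableEq κ] (e : κ ≃ ι) (f : μ ≃ κ) :
    pm e * pm f = pm (f.trans e) := by
  ext i j
  simp [pm, mul_apply]

omit [Fintype ι] [Fintype κ] in
lemma pm_conjT [DecidableEq ι] [DecidableEq κ] (e : κ ≃ ι) : (pm e)ᴴ = pm e.symm := by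
  ext i j
  simp only [pm, conjTranspose_apply, of_apply, Equiv.symm_apply_eq]
  by_cases h : e i = j
  · simp [h]
  · simp [h, Ne.symm h]

omit [Fintype ι] in
lemma pm_refl [DecidableEq ι] : pm (Equiv.refl ι) = 1 := by
  ext i j
  simp [pm, one_apply, eq_comm]

omit [Fintype ι] [Fintype κ] in
lemma pm_inj [DecidableEq ι] {e f : κ ≃ ι} (h : pm e = pm f) : e = f := by
  ext j
  have := congrFun (congrFun h (e j)) j
  simp only [pm, of_apply, if_true] at this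
  by_contra hne
  rw [if_neg (Ne.symm hne)] at this
  exact one_ne_zero this

omit [Fintype ι] [Fintype κ] [Fintype μ] [Fintype ν] in
lemma pm_sum [DecidableEq ι] [DecidableEq μ] (e : κ ≃ ι) (f : ν ≃ μ) :
    pm (e.sumCongr f) = fromBlocks (pm e) 0 0 (pm f) := by
  ext (i | i) (j | j) <;> simp [pm]

omit [Fintype κ] [Fintype μ] in
lemma mul_pm [DecidableEq ι] (A : Matrix μ ι ℂ) (e : κ ≃ ι) :
    A * pm e = A.submatrix id e := by
  ext i j
  simp [pm, mul_apply]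

omit [Fintype ι] [Fintype μ] in
lemma pm_mul' [DecidableEq ι] (A : Matrix κ μ ℂ) (e : κ ≃ ι) :
    pm e * A = A.submatrix e.symm id := by
  ext i j
  simp only [pm, mul_apply, of_apply, submatrix_apply, id]
  rw [Finset.sum_eq_single (e.symm i)]
  · simp
  · intro b _ hb
    rw [if_neg, zero_mul]
    intro h; exact hb (by rw [← h]; simp)
  · simp

lemma fr_pm_sub [DecidableEq ι] (e f : κ ≃ ι) :
    fr (pm e - pm f) = 2 * ((Finset.univ.filter fun j => e j ≠ f j).card : ℝ) := by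
  unfold fr
  rw [Finset.sum_comm, Finset.card_filter]
  push_cast
  rw [Finset.mul_sum]
  refine Finset.sum_congr rfl fun j _ => ?_
  by_cases h : e j = f j
  · simp [pm, h]
  · have : ∀ i, ‖(pm e - pm f) i j‖ ^ 2 = (if e j = i then 1 else 0) + (if f j = i then 1 else 0) := by
      intro i
      simp only [pm, Matrix.sub_apply, of_apply]
      by_cases h1 : e j = i <;> by_cases h2 : f j = i
      · exact absurd (h1.trans h2.symm) h
      all_goals simp [h1, h2]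
    simp only [this, Finset.sum_add_distrib]
    simp [h]; norm_num

end frob

/-- A class of unitary (rectangular) matrices with the closure properties we use. -/
structure Cls where
  Q : ∀ {ι κ : Type} [Fintype ι] [DecidableEq ι] [Fintype κ] [DecidableEq κ], Matrix ι κ ℂ → Prop
  uni : ∀ {ι κ : Type} [Fintype ι] [DecidableEq ι] [Fintype κ] [DecidableEq κ]
    {w : Matrix ι κ ℂ}, Q w → wᴴ * w = 1 ∧ w * wᴴ = 1
  mul : ∀ {ι κ μ : Type} [Fintype ι] [DecidableEq ι] [Fintype κ] [DecidableEq κ]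
    [Fintype μ] [DecidableEq μ] {w : Matrix ι κ ℂ} {w' : Matrix κ μ ℂ}, Q w → Q w' → Q (w * w')
  adj : ∀ {ι κ : Type} [Fintype ι] [DecidableEq ι] [Fintype κ] [DecidableEq κ]
    {w : Matrix ι κ ℂ}, Q w → Q wᴴ
  blk : ∀ {ι κ μ ν : Type} [Fintype ι] [DecidableEq ι] [Fintype κ] [DecidableEq κ]
    [Fintype μ] [DecidableEq μ] [Fintype ν] [DecidableEq ν] {w : Matrix ι κ ℂ}
    {w' : Matrix μ ν ℂ}, Q w → Q w' → Q (fromBlocks w 0 0 w')
  eqv : ∀ {ι κ : Type} [Fintype ι] [DecidableEq ι] [Fintype κ] [DecidableEq κ] (e : κ ≃ ι),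
    Q (pm e)
  shrink : ∀ {α β : Type} [Fintype α] [DecidableEq α] [Fintype β] [DecidableEq β]
    (w : Matrix (α ⊕ β) (α ⊕ β) ℂ), Q w →
    ∃ w' : Matrix α α ℂ, Q w' ∧ fr (w - fromBlocks w' 0 0 1) ≤ 10 * Fintype.card β

lemma Cls.one (C : Cls) {ι : Type} [Fintype ι] [DecidableEq ι] : C.Q (1 : Matrix ι ι ℂ) := by
  rw [← pm_refl]; exact C.eqv _

lemma Cls.card_eq (C : Cls) {ι κ : Type} [Fintype ι] [DecidableEq ι] [Fintype κ] [DecidableEq κ]
    {w : Matrix ι κ ℂ} (h : C.Q w) : Fintype.card ι = Fintype.card κ := by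
  have h1 := fr_iso (C.uni h).1
  have h2 := fr_iso (U := wᴴ) (by simpa using (C.uni h).2)
  rw [fr_conjT, h1] at h2
  exact_mod_cast h2.symm

/-- A representation by matrices of the class. -/
structure Rep (C : Cls) (G : Type) [Group G] where
  ι : Type
  [f : Fintype ι]
  [d : DecidableEq ι]
  π : G →* Matrix ι ι ℂ
  good : ∀ g, C.Q (π g)

attribute [instance] Rep.f Rep.d

variable {C : Cls} {G : Type} [Group G]

def Rep.card (ρ : Rep C G) : ℕ := Fintype.card ρ.ι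

def bsum {ι κ : Type} [Fintype ι] [DecidableEq ι] [Fintype κ] [DecidableEq κ]
    (π : G →* Matrix ι ι ℂ) (σ : G →* Matrix κ κ ℂ) : G →* Matrix (ι ⊕ κ) (ι ⊕ κ) ℂ where
  toFun g := fromBlocks (π g) 0 0 (σ g)
  map_one' := by simp
  map_mul' a b := by simp [fromBlocks_multiply]

abbrev Rep.sum (ρ σ : Rep C G) : Rep C G :=
  { ι := ρ.ι ⊕ σ.ι, π := bsum ρ.π σ.π, good := fun g => C.blk (ρ.good g) (σ.good g) }

lemma Rep.card_sum (ρ σ : Rep C G) : (ρ.sum σ).card = ρ.card + σ.card := by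
  simp [Rep.card]

abbrev Rep.triv (C : Cls) (G : Type) [Group G] (β : Type) [Fintype β] [DecidableEq β] :
    Rep C G := { ι := β, π := 1, good := fun _ => C.one }

abbrev Rep.comp {H : Type} [Group H] (ρ : Rep C G) (i : H →* G) : Rep C H :=
  { ι := ρ.ι, π := ρ.π.comp i, good := fun h => ρ.good (i h) }

/-- approximate intertwining on `S` -/
def Close (S : Set G) (r : ℝ) (ρ σ : Rep C G) : Prop :=
  ∃ w : Matrix ρ.ι σ.ι ℂ, C.Q w ∧ ∀ g ∈ S, fr (ρ.π g * w - w * σ.π g) ≤ r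

lemma Close.mono {S S' : Set G} {r r' : ℝ} {ρ σ : Rep C G} (h : Close S r ρ σ) (hS : S' ⊆ S)
    (hr : r ≤ r') : Close S' r' ρ σ := by
  obtain ⟨w, hw, h⟩ := h
  exact ⟨w, hw, fun g hg => (h g (hS hg)).trans hr⟩

lemma Close.card_eq {S : Set G} {r : ℝ} {ρ σ : Rep C G} (h : Close S r ρ σ) :
    ρ.card = σ.card := by
  obtain ⟨w, hw, -⟩ := h
  exact C.card_eq hw

lemma Close.trans {S : Set G} {r r' : ℝ} {ρ σ τ : Rep C G} (h : Close S r ρ σ)
    (h' : Close S r' σ τ) : Close S (2 * r + 2 * r') ρ τ := by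
  obtain ⟨w, hw, h⟩ := h
  obtain ⟨w', hw', h'⟩ := h'
  refine ⟨w * w', C.mul hw hw', fun g hg => ?_⟩
  have e : ρ.π g * (w * w') - w * w' * τ.π g
      = (ρ.π g * w - w * σ.π g) * w' + w * (σ.π g * w' - w' * τ.π g) := by
    simp only [Matrix.sub_mul, Matrix.mul_sub, Matrix.mul_assoc]; abel
  rw [e]
  refine (fr_add_le _ _).trans ?_
  rw [fr_mul_right (C.uni hw').2, fr_mul_left (C.uni hw).1]
  linarith [h g hg, h' g hg]

lemma Close.sum {S : Set G} {r r' : ℝ} {ρ σ ρ' σ' : Rep C G} (h : Close S r ρ σ)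
    (h' : Close S r' ρ' σ') : Close S (r + r') (ρ.sum ρ') (σ.sum σ') := by
  obtain ⟨w, hw, h⟩ := h
  obtain ⟨w', hw', h'⟩ := h'
  refine ⟨fromBlocks w 0 0 w', C.blk hw hw', fun g hg => ?_⟩
  have e : (ρ.sum ρ').π g * fromBlocks w 0 0 w' - fromBlocks w 0 0 w' * (σ.sum σ').π g
      = fromBlocks (ρ.π g * w - w * σ.π g) 0 0 (ρ'.π g * w' - w' * σ'.π g) := by
    show fromBlocks _ _ _ _ * fromBlocks _ _ _ _ - fromBlocks _ _ _ _ * fromBlocks _ _ _ _ = _
    simp only [fromBlocks_multiply]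
    ext (i | i) (j | j) <;> simp
  rw [e, fr_blocks, fr_zero, fr_zero]
  linarith [h g hg, h' g hg]

lemma close_of_equiv {ρ σ : Rep C G} (e : σ.ι ≃ ρ.ι)
    (h : ∀ g i j, ρ.π g (e i) (e j) = σ.π g i j) (S : Set G) : Close S 0 ρ σ := by
  refine ⟨pm e, C.eqv e, fun g _ => ?_⟩
  have : ρ.π g * pm e - pm e * σ.π g = 0 := by
    rw [mul_pm, pm_mul', sub_eq_zero]
    ext i j
    simp [← h]
  rw [this, fr_zero]

lemma Close.refl (ρ : Rep C G) (S : Set G) : Close S 0 ρ ρ :=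
  close_of_equiv (Equiv.refl _) (fun _ _ _ => rfl) S

lemma close_of_card {ρ σ : Rep C G} (h : ρ.card = σ.card) (S : Set G) :
    Close S (4 * ρ.card) ρ σ := by
  obtain ⟨e⟩ : Nonempty (σ.ι ≃ ρ.ι) := Fintype.card_eq.1 h.symm
  refine ⟨pm e, C.eqv e, fun g _ => ?_⟩
  refine (fr_sub_le _ _).trans ?_
  rw [fr_iso (C.uni (C.mul (ρ.good g) (C.eqv e))).1, fr_iso (C.uni (C.mul (C.eqv e) (σ.good g))).1]
  have : (Fintype.card σ.ι : ℝ) = ρ.card := by rw [h]; rfl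
  linarith

/-- `ρ` is close to `σ` plus something small. -/
def Emb (S : Set G) (r : ℝ) (ρ σ : Rep C G) : Prop :=
  ∃ τ : Rep C G, Close S r ρ (σ.sum τ) ∧ (τ.card : ℝ) ≤ r

lemma Emb.mono {S : Set G} {r r' : ℝ} {ρ σ : Rep C G} (h : Emb S r ρ σ)
    (hr : r ≤ r') : Emb S r' ρ σ := by
  obtain ⟨τ, h, h'⟩ := h
  exact ⟨τ, h.mono subset_rfl hr, h'.trans hr⟩

lemma Emb.sum {S : Set G} {r r' : ℝ} {ρ σ ρ' σ' : Rep C G} (h : Emb S r ρ σ)
    (h' : Emb S r' ρ' σ') : Emb S (2 * (r + r')) (ρ.sum ρ') (σ.sum σ') := by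
  obtain ⟨τ, h, hc⟩ := h
  obtain ⟨τ', h', hc'⟩ := h'
  refine ⟨τ.sum τ', ?_, ?_⟩
  · have h2 : Close S 0 ((σ.sum τ).sum (σ'.sum τ')) ((σ.sum σ').sum (τ.sum τ')) := by
      refine close_of_equiv (Equiv.sumSumSumComm _ _ _ _) ?_ S
      rintro g ((i | i) | (i | i)) ((j | j) | (j | j)) <;> rfl
    exact ((h.sum h').trans h2).mono subset_rfl (by linarith)
  · rw [Rep.card_sum]; push_cast
    have : (0:ℝ) ≤ τ.card := Nat.cast_nonneg _
    have : (0:ℝ) ≤ τ'.card := Nat.cast_nonneg _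
    linarith

lemma Close.emb {S : Set G} {r r' : ℝ} {ρ σ τ : Rep C G} (h : Close S r ρ σ)
    (h' : Emb S r' σ τ) (hr : 0 ≤ r) : Emb S (2 * r + 2 * r') ρ τ := by
  obtain ⟨μ, h', hc⟩ := h'
  refine ⟨μ, h.trans h', ?_⟩
  have : (0:ℝ) ≤ μ.card := Nat.cast_nonneg _
  linarith

lemma emb_empty (ρ : Rep C G) (S : Set G) : Emb S ρ.card ρ (Rep.triv C G Empty) := by
  refine ⟨ρ, ?_, le_rfl⟩
  refine (close_of_equiv (σ := (Rep.triv C G Empty).sum ρ) (Equiv.emptySum Empty ρ.ι) ?_ S).mono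
    subset_rfl (Nat.cast_nonneg _)
  rintro g (i | i) (j | j)
  · exact i.elim
  · exact i.elim
  · exact j.elim
  · rfl

lemma emb_self (ρ : Rep C G) (S : Set G) : Emb S 0 ρ ρ := by
  refine ⟨Rep.triv C G Empty, ?_, by simp [Rep.card]⟩
  refine close_of_equiv (σ := ρ.sum (Rep.triv C G Empty)) (Equiv.sumEmpty ρ.ι Empty) ?_ S
  rintro g (i | i) (j | j)
  · rfl
  · exact j.elim
  · exact i.elim
  · exact i.elim

/-- weak uniform stability -/
def UStable (C : Cls) (G : Type) [Group G] : Prop :=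
  ∀ (S : Finset G) (ε : ℝ), 0 < ε → ∃ δ > 0, ∀ (ι : Type) [Fintype ι] [DecidableEq ι]
    (φ : G → Matrix ι ι ℂ), (∀ g, C.Q (φ g)) →
    (∀ a b, fr (φ a * φ b - φ (a * b)) ≤ δ * Fintype.card ι) →
    ∃ ψ : G →* Matrix ι ι ℂ, (∀ g, C.Q (ψ g)) ∧ ∀ g ∈ S, fr (φ g - ψ g) ≤ ε * Fintype.card ι

/-- A representation of a stable group can be made slightly smaller. -/
lemma shrink_rep (hG : UStable C G) (S : Finset G) {ε : ℝ} (hε : 0 < ε) :
    ∃ δ > 0, ∀ (ρ : Rep C G) (k : ℕ), (k : ℝ) ≤ δ * ρ.card →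
      ∃ σ τ : Rep C G, τ.card = k ∧ Close S (ε * ρ.card) ρ (σ.sum τ) := by
  obtain ⟨δ, hδ, h⟩ := hG S (ε / 8) (by positivity)
  refine ⟨min (min (δ / 400) (ε / 80)) (1 / 2), by positivity, fun ρ k hk => ?_⟩
  have hN : (0:ℝ) ≤ ρ.card := Nat.cast_nonneg _
  have hk1 : (k : ℝ) ≤ δ / 400 * ρ.card :=
    hk.trans (by gcongr; exact (min_le_left _ _).trans (min_le_left _ _))
  have hk2 : (k : ℝ) ≤ ε / 80 * ρ.card :=
    hk.trans (by gcongr; exact (min_le_left _ _).trans (min_le_right _ _))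
  have hk3 : (k : ℝ) ≤ 1 / 2 * ρ.card := hk.trans (by gcongr; exact min_le_right _ _)
  have hkN : k ≤ ρ.card := by
    have : (k : ℝ) ≤ ρ.card := by linarith
    exact_mod_cast this
  obtain ⟨e⟩ : Nonempty ((Fin (ρ.card - k) ⊕ Fin k) ≃ ρ.ι) := by
    apply Fintype.card_eq.1
    simp only [Fintype.card_sum, Fintype.card_fin]
    show _ = ρ.card
    omega
  have hm : ((ρ.card - k : ℕ) : ℝ) = ρ.card - k := Nat.cast_sub hkN
  set w := pm e with hw
  have hQ : C.Q w := C.eqv e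
  have hu := C.uni hQ
  let x : G → Matrix (Fin (ρ.card - k) ⊕ Fin k) (Fin (ρ.card - k) ⊕ Fin k) ℂ :=
    fun g => wᴴ * ρ.π g * w
  have hx : ∀ g, C.Q (x g) := fun g => C.mul (C.mul (C.adj hQ) (ρ.good g)) hQ
  have hxm : ∀ a b, x a * x b = x (a * b) := by
    intro a b
    simp only [x, map_mul, Matrix.mul_assoc]
    rw [← Matrix.mul_assoc w, hu.2, Matrix.one_mul]
  choose φ hφ hφ' using fun g => C.shrink (x g) (hx g)
  simp only [Fintype.card_fin] at hφ'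
  have hB : ∀ g, C.Q (fromBlocks (φ g) 0 0 (1 : Matrix (Fin k) (Fin k) ℂ)) :=
    fun g => C.blk (hφ g) C.one
  obtain ⟨ψ, hψ, hψ'⟩ := h (Fin (ρ.card - k)) φ hφ (by
    intro a b
    have e1 : fr (φ a * φ b - φ (a * b)) = fr (fromBlocks (φ a) 0 0 (1 : Matrix (Fin k) (Fin k) ℂ)
        * fromBlocks (φ b) 0 0 1 - fromBlocks (φ (a * b)) 0 0 1) := by
      have : fromBlocks (φ a) 0 0 (1 : Matrix (Fin k) (Fin k) ℂ)
        * fromBlocks (φ b) 0 0 1 - fromBlocks (φ (a * b)) 0 0 1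
          = fromBlocks (φ a * φ b - φ (a * b)) 0 0 0 := by
        rw [fromBlocks_multiply]
        ext (i | i) (j | j) <;> simp
      rw [this, fr_blocks]; simp [fr_zero]
    rw [e1]
    set A := fromBlocks (φ a) 0 0 (1 : Matrix (Fin k) (Fin k) ℂ) with hA
    set B := fromBlocks (φ b) 0 0 (1 : Matrix (Fin k) (Fin k) ℂ) with hB'
    set D := fromBlocks (φ (a * b)) 0 0 (1 : Matrix (Fin k) (Fin k) ℂ) with hD
    have t1 := fr_tri (A * B) (x a * x b) D
    have t2 := fr_tri (A * B) (x a * B) (x a * x b)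
    rw [← Matrix.sub_mul, ← Matrix.mul_sub, fr_mul_right (C.uni (hB b)).2,
      fr_mul_left (C.uni (hx a)).1, fr_sub_comm A, fr_sub_comm B] at t2
    rw [hxm] at t1 t2
    have := hφ' a
    have := hφ' b
    have := hφ' (a * b)
    rw [Fintype.card_fin, hm]
    nlinarith)
  refine ⟨⟨Fin (ρ.card - k), ψ, hψ⟩, Rep.triv C G (Fin k), by simp [Rep.card], w, hQ, fun g hg => ?_⟩
  have e1 : ρ.π g * w = w * x g := by
    simp only [x]
    rw [← Matrix.mul_assoc, ← Matrix.mul_assoc, hu.2, Matrix.one_mul]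
  show fr (ρ.π g * w - w * fromBlocks (ψ g) 0 0 1) ≤ _
  rw [e1, ← Matrix.mul_sub, fr_mul_left hu.1]
  have t1 := fr_tri (x g) (fromBlocks (φ g) 0 0 1) (fromBlocks (ψ g) 0 0 1)
  have e2 : fr (fromBlocks (φ g) 0 0 (1 : Matrix (Fin k) (Fin k) ℂ) - fromBlocks (ψ g) 0 0 1)
      = fr (φ g - ψ g) := by
    have : fromBlocks (φ g) 0 0 (1 : Matrix (Fin k) (Fin k) ℂ) - fromBlocks (ψ g) 0 0 1
          = fromBlocks (φ g - ψ g) 0 0 0 := by
      ext (i | i) (j | j) <;> simp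
    rw [this, fr_blocks]; simp [fr_zero]
  have h3 := hψ' g hg
  rw [Fintype.card_fin, hm] at h3
  have := hφ' g
  have : (0:ℝ) ≤ k := Nat.cast_nonneg _
  nlinarith

end
end Pool.Agent.H72.Stab
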