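import Mathlib

namespace Pool.Agent.H72.Stab
open Filter Topology

/-- rational linear functionals approximating the identity of `ℝ` pointwise -/
lemma exists_qlin : ∃ f : ℕ → ℝ →ₗ[ℚ] ℚ, ∀ x, Tendsto (fun j => (f j x : ℝ)) atTop (𝓝 x) := by
  classical
  let b := Module.Basis.ofVectorSpace ℚ ℝ
  have h : ∀ (x : ℝ) (j : ℕ), ∃ q : ℚ, |(q : ℝ) - x| < 1 / ((j : ℝ) + 1) := by
    intro x j
    obtain ⟨q, hq⟩ := exists_rat_near x (ε := 1 / ((j : ℝ) + 1)) (by positivity)
    exact ⟨q, by rwa [abs_sub_comm]⟩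
  choose r hr using h
  have hr' : ∀ x, Tendsto (fun j => (r x j : ℝ)) atTop (𝓝 x) := by
    intro x
    rw [tendsto_iff_norm_sub_tendsto_zero]
    exact squeeze_zero (fun j => norm_nonneg _) (fun j => (hr x j).le)
      tendsto_one_div_add_atTop_nhds_zero_nat
  refine ⟨fun j => b.constr ℚ (fun i => r (b i) j), fun x => ?_⟩
  have e1 : ∀ j, ((b.constr ℚ (fun i => r (b i) j) x : ℚ) : ℝ)
      = ∑ i ∈ (b.repr x).support, (b.repr x i : ℝ) * (r (b i) j : ℝ) := by
    intro j
    rw [Module.Basis.constr_apply, Finsupp.sum]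
    push_cast
    simp
  have e2 : x = ∑ i ∈ (b.repr x).support, (b.repr x i : ℝ) * b i := by
    conv_lhs => rw [← b.linearCombination_repr x, Finsupp.linearCombination_apply, Finsupp.sum]
    simp [Rat.smul_def]
  simp only [e1]
  conv => enter [3]; rw [e2]
  exact tendsto_finsetSum _ fun i _ => (hr' _).const_mul _

/-- differences in a submonoid of `ℕ` -/
lemma exists_frob (S : AddSubmonoid ℕ) :
    ∃ Φ : ℕ, ∀ a ∈ S, ∀ b ∈ S, b + Φ ≤ a → ∃ s ∈ S, b + s = a := by
  classical
  by_cases h : ∃ s ∈ S, s ≠ 0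
  · obtain ⟨s, hs, hs0⟩ := h
    have h1 : ∀ r : ℕ, ∃ e : ℕ, (∃ a ∈ S, a % s = r) → e ∈ S ∧ e % s = r := by
      intro r
      by_cases h : ∃ a ∈ S, a % s = r
      · obtain ⟨a, ha, ha'⟩ := h
        exact ⟨a, fun _ => ⟨ha, ha'⟩⟩
      · exact ⟨0, fun h' => absurd h' h⟩
    choose e he using h1
    refine ⟨(Finset.range s).sup e, fun a ha b hb hab => ?_⟩
    obtain ⟨d, rfl⟩ : ∃ d, a = b + d := ⟨a - b, by omega⟩
    refine ⟨d, ?_, rfl⟩
    have hlt : d % s < s := Nat.mod_lt _ (Nat.pos_of_ne_zero hs0)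
    have hle : e (d % s) ≤ d := by
      have : e (d % s) ≤ (Finset.range s).sup e := Finset.le_sup (Finset.mem_range.2 hlt)
      omega
    obtain ⟨he1, he2⟩ := he (d % s) ⟨b + d + (s - 1) * b, S.add_mem ha (by
      simpa using S.nsmul_mem hb (s - 1)), by
        obtain ⟨t, rfl⟩ : ∃ t, s = t + 1 := ⟨s - 1, by omega⟩
        have : b + d + (t + 1 - 1) * b = d + (t + 1) * b := by simp; ring
        rw [this, Nat.add_mul_mod_self_left]⟩
    have hdv : s ∣ d - e (d % s) := (Nat.modEq_iff_dvd' hle).1 he2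
    obtain ⟨m, hm⟩ := hdv
    have : d = e (d % s) + m • s := by rw [smul_eq_mul, mul_comm]; omega
    rw [this]
    exact S.add_mem he1 (S.nsmul_mem hs m)
  · push Not at h
    refine ⟨1, fun a ha b hb hab => ?_⟩
    have := h a ha
    omega

section cone
variable {I T : Type} [Fintype I] [Fintype T]

lemma cone_small (u : I → T → ℝ) (B : ℕ) : ∃ δ > 0, ∀ (N : ℕ) (x : I → ℕ), N ≤ B →
    (∀ c, x c ≤ N) → (∀ t, |∑ c, x c * u c t| ≤ δ * N) → ∀ t, ∑ c, x c * u c t = 0 := by
  classical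
  have key : ∀ᶠ δ in 𝓝[>] (0:ℝ), ∀ x ∈ Fintype.piFinset (fun _ : I => Finset.range (B + 1)),
      ∀ t, |∑ c, x c * u c t| ≤ δ * B → ∑ c, x c * u c t = 0 := by
    rw [Filter.eventually_all_finset]
    intro x _
    rw [Filter.eventually_all]
    intro t
    by_cases h : ∑ c, x c * u c t = 0
    · exact Eventually.of_forall fun _ _ => h
    · have h0 : 0 < |∑ c, x c * u c t| := abs_pos.2 h
      have : Tendsto (fun δ : ℝ => δ * B) (𝓝[>] 0) (𝓝 (0 * B)) :=
        (tendsto_id.mono_left nhdsWithin_le_nhds).mul_const _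
      rw [zero_mul] at this
      filter_upwards [this.eventually_lt_const h0] with δ hδ hle
      linarith
  obtain ⟨δ, hδ, hpos⟩ := (key.and self_mem_nhdsWithin).exists
  have hpos' : (0:ℝ) < δ := hpos
  refine ⟨δ, hpos', fun N x hN hx h t => hδ x ?_ t ((h t).trans ?_)⟩
  · simp only [Fintype.mem_piFinset, Finset.mem_range]
    intro c; have := hx c; omega
  · gcongr

lemma cone_rat (S : I → AddSubmonoid ℕ) (u : I → T → ℝ) (a : I → ℕ)
    (hrat : ∀ c c', (∃ s ∈ S c, s ≠ 0) → (∃ s ∈ S c', s ≠ 0) →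
      ∃ q : ℚ, ∑ t, u c t * u c' t = q)
    (p : I → ℝ) (hp0 : ∀ c, 0 ≤ p c) (hpS : ∀ c, p c ≠ 0 → ∃ s ∈ S c, s ≠ 0)
    (hpa : ∑ c, a c * p c = 1) (hpu : ∀ t, ∑ c, p c * u c t = 0) {η : ℝ} (hη : 0 < η) :
    ∃ (D : ℕ) (z : I → ℕ), 0 < D ∧ (∀ c, z c ∈ S c) ∧ ∑ c, a c * z c = D ∧
      (∀ t, ∑ c, z c * u c t = 0) ∧ ∀ c, |(z c : ℝ) / D - p c| < η := by
  classical
  obtain ⟨f, hf⟩ := exists_qlin
  have h1 : ∀ᶠ j in atTop, 0 < (f j 1 : ℝ) := (hf 1).eventually_const_lt one_pos
  have h2 : ∀ᶠ j in atTop, ∀ c, p c ≠ 0 → 0 < (f j (p c) : ℝ) := by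
    rw [Filter.eventually_all]
    intro c
    by_cases h : p c = 0
    · exact Eventually.of_forall fun _ h' => absurd h h'
    · filter_upwards [(hf (p c)).eventually_const_lt (lt_of_le_of_ne (hp0 c) (Ne.symm h))]
        with j hj _ using hj
  have h3 : ∀ᶠ j in atTop, ∀ c, |(f j (p c) : ℝ) / (f j 1 : ℝ) - p c| < η := by
    rw [Filter.eventually_all]
    intro c
    have := (hf (p c)).div (hf 1) one_ne_zero
    rw [div_one] at this
    exact (Metric.tendsto_nhds.1 this) η hη
  obtain ⟨j, h1, h2, h3⟩ := (h1.and (h2.and h3)).exists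
  set g := f j
  have h1' : 0 < g 1 := by exact_mod_cast h1
  let q : I → ℚ := fun c => g (p c) / g 1
  have hq0 : ∀ c, p c = 0 → q c = 0 := fun c h => by simp [q, h]
  have hqn : ∀ c, 0 ≤ q c := by
    intro c
    by_cases h : p c = 0
    · rw [hq0 c h]
    · have : 0 < g (p c) := by exact_mod_cast h2 c h
      positivity
  have hqa : ∑ c, (a c : ℚ) * q c = 1 := by
    have : g (∑ c, (a c : ℚ) • p c) = g 1 := by
      have : ∑ c, (a c : ℚ) • p c = 1 := by simpa [Rat.smul_def] using hpa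
      rw [this]
    rw [map_sum] at this
    simp only [map_smul, smul_eq_mul] at this
    simp only [q, ← mul_div_assoc]
    rw [← Finset.sum_div, this, div_self h1'.ne']
  have hG : ∀ c c', ∃ Gq : ℚ, p c ≠ 0 → p c' ≠ 0 → ∑ t, u c t * u c' t = Gq := by
    intro c c'
    by_cases h : p c ≠ 0 ∧ p c' ≠ 0
    · obtain ⟨r, hr⟩ := hrat c c' (hpS c h.1) (hpS c' h.2)
      exact ⟨r, fun _ _ => hr⟩
    · exact ⟨0, fun h1 h2 => absurd ⟨h1, h2⟩ h⟩
  choose Gq hGq using hG
  have hqu : ∀ t, ∑ c, (q c : ℝ) * u c t = 0 := by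
    have k1 : ∀ c', p c' ≠ 0 → ∑ t, (∑ c, (q c : ℝ) * u c t) * u c' t = 0 := by
      intro c' hc'
      have e1 : ∑ c, Gq c c' • p c = 0 := by
        have : ∑ t, (∑ c, p c * u c t) * u c' t = 0 := by simp [hpu]
        rw [← this]
        simp only [Finset.sum_mul]
        rw [Finset.sum_comm]
        refine Finset.sum_congr rfl fun c _ => ?_
        by_cases h : p c = 0
        · simp [h]
        · rw [Rat.smul_def, ← hGq c c' h hc', Finset.sum_mul]
          refine Finset.sum_congr rfl fun t _ => by ring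
      have e2 : ∑ c, Gq c c' * q c = 0 := by
        have := congrArg g e1
        rw [map_sum, map_zero] at this
        simp only [map_smul, smul_eq_mul] at this
        simp only [q, ← mul_div_assoc]
        rw [← Finset.sum_div, this, zero_div]
      have e3 : ((∑ c, Gq c c' * q c : ℚ) : ℝ) = 0 := by rw [e2]; simp
      rw [← e3]
      push_cast
      simp only [Finset.sum_mul]
      rw [Finset.sum_comm]
      refine Finset.sum_congr rfl fun c _ => ?_
      by_cases h : p c = 0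
      · simp [hq0 c h]
      · rw [← hGq c c' h hc', Finset.sum_mul]
        refine Finset.sum_congr rfl fun t _ => by ring
    have k2 : ∑ t, (∑ c, (q c : ℝ) * u c t) ^ 2 = 0 := by
      have : ∑ t, (∑ c, (q c : ℝ) * u c t) ^ 2
          = ∑ c', (q c' : ℝ) * ∑ t, (∑ c, (q c : ℝ) * u c t) * u c' t := by
        rw [Finset.sum_congr rfl fun c' _ => Finset.mul_sum Finset.univ
          (fun t => (∑ c, (q c : ℝ) * u c t) * u c' t) (q c' : ℝ), Finset.sum_comm]
        refine Finset.sum_congr rfl fun t _ => ?_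
        rw [sq, Finset.mul_sum]
        refine Finset.sum_congr rfl fun c _ => by ring
      rw [this]
      refine Finset.sum_eq_zero fun c' _ => ?_
      by_cases h : p c' = 0
      · simp [hq0 c' h]
      · rw [k1 c' h, mul_zero]
    intro t
    rw [Finset.sum_eq_zero_iff_of_nonneg (fun _ _ => sq_nonneg _)] at k2
    exact pow_eq_zero_iff (two_ne_zero) |>.1 (k2 t (Finset.mem_univ _))
  have hD : ∀ c, ∃ (D z : ℕ), 0 < D ∧ z ∈ S c ∧ (z : ℚ) = D * q c := by
    intro c
    by_cases h : p c = 0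
    · exact ⟨1, 0, one_pos, (S c).zero_mem, by simp [hq0 c h]⟩
    · obtain ⟨s, hs, hs0⟩ := hpS c h
      refine ⟨(q c).den * s, (q c).num.toNat * s, Nat.mul_pos (q c).den_pos (Nat.pos_of_ne_zero hs0),
        by simpa using (S c).nsmul_mem hs (q c).num.toNat, ?_⟩
      have e : (((q c).num.toNat : ℕ) : ℚ) = (q c).num := by
        have := Int.toNat_of_nonneg (Rat.num_nonneg.2 (hqn c))
        exact_mod_cast this
      push_cast
      rw [e, ← Rat.mul_den_eq_num]; ring
  choose D z hD hz hzq using hD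
  have hk : ∀ c, ∃ k, ∏ c, D c = D c * k := fun c => Finset.dvd_prod_of_mem D (Finset.mem_univ c)
  choose k hk using hk
  have hP : 0 < ∏ c, D c := Finset.prod_pos fun c _ => hD c
  have hz' : ∀ c, ((k c * z c : ℕ) : ℚ) = (∏ c, D c : ℕ) * q c := by
    intro c; rw [hk c]; push_cast; rw [hzq]; ring
  have hz'' : ∀ c, ((k c * z c : ℕ) : ℝ) = (∏ c, D c : ℕ) * (q c : ℝ) := by
    intro c; exact_mod_cast congrArg (fun x : ℚ => (x : ℝ)) (hz' c)
  refine ⟨∏ c, D c, fun c => k c * z c, hP, fun c => by simpa using (S c).nsmul_mem (hz c) (k c),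
    ?_, fun t => ?_, fun c => ?_⟩
  · have : ((∑ c, a c * (k c * z c) : ℕ) : ℚ) = (∏ c, D c : ℕ) := by
      rw [Nat.cast_sum]
      simp only [Nat.cast_mul (a _), hz']
      calc _ = (∏ c, D c : ℕ) * ∑ c, (a c : ℚ) * q c := by
            rw [Finset.mul_sum]; exact Finset.sum_congr rfl fun c _ => by ring
        _ = _ := by rw [hqa, mul_one]
    exact_mod_cast this
  · simp only [hz'', mul_assoc]
    rw [← Finset.mul_sum, hqu, mul_zero]
  · have hP' : ((∏ c, D c : ℕ) : ℝ) ≠ 0 := by exact_mod_cast hP.ne'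
    rw [hz'', mul_div_cancel_left₀ _ hP']
    simpa [q] using h3 c

lemma cone0 (S : I → AddSubmonoid ℕ) (u : I → T → ℝ) (a : I → ℕ)
    (hrat : ∀ c c', (∃ s ∈ S c, s ≠ 0) → (∃ s ∈ S c', s ≠ 0) →
      ∃ q : ℚ, ∑ t, u c t * u c' t = q)
    (e : I → ℕ) (he : ∀ c, e c ∈ S c) (hae : ∑ c, a c * e c = 1)
    (hue : ∀ t, ∑ c, e c * u c t = 0) {ε : ℝ} (hε : 0 < ε) :
    ∃ δ > 0, ∀ (N : ℕ) (x : I → ℕ), (∀ c, x c ∈ S c) → (∀ c, x c ≤ N) → ∑ c, a c * x c = N →
      (∀ t, |∑ c, x c * u c t| ≤ δ * N) →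
      ∃ y : I → ℕ, (∀ c, y c ∈ S c) ∧ ∑ c, a c * y c = N ∧ (∀ t, ∑ c, y c * u c t = 0) ∧
        ∀ c, |(y c : ℝ) - x c| ≤ ε * N := by
  classical
  by_contra hcon
  push Not at hcon
  choose N x hxS hxN hxa hxu hno using fun k : ℕ => hcon (1 / ((k : ℝ) + 1)) (by positivity)
  have hexact : ∀ k, ¬ ∀ t, ∑ c, x k c * u c t = 0 := by
    intro k h
    obtain ⟨c, hc⟩ := hno k (x k) (hxS k) (hxa k) h
    simp only [sub_self, abs_zero] at hc
    have : 0 ≤ ε * N k := by positivity
    linarith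
  have hNpos : ∀ k, 0 < (N k : ℝ) := by
    intro k
    rcases Nat.eq_zero_or_pos (N k) with h | h
    · exfalso
      apply hexact k
      intro t
      have := hxu k t
      rw [h] at this
      simpa using this
    · exact_mod_cast h
  let p : ℕ → I → ℝ := fun k c => x k c / N k
  have hp : ∀ k, p k ∈ Set.pi Set.univ (fun _ : I => Set.Icc (0:ℝ) 1) := by
    intro k c _
    refine ⟨by positivity, ?_⟩
    rw [div_le_one (hNpos k)]
    exact_mod_cast hxN k c
  obtain ⟨P, hP, φ, hφ, hlim⟩ := (isCompact_univ_pi fun _ : I => isCompact_Icc).tendsto_subseq hp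
  have hc : ∀ c, Tendsto (fun k => p (φ k) c) atTop (𝓝 (P c)) :=
    fun c => ((continuous_apply c).tendsto P).comp hlim
  have hδ0 : Tendsto (fun k => 1 / ((φ k : ℝ) + 1)) atTop (𝓝 0) :=
    tendsto_one_div_add_atTop_nhds_zero_nat.comp hφ.tendsto_atTop
  obtain ⟨D, z, hD, hzS, hza, hzu, hzp⟩ := cone_rat S u a hrat P (fun c => (hP c trivial).1)
    (by
      intro c hc0
      by_contra hS
      push Not at hS
      apply hc0
      refine tendsto_nhds_unique (hc c) ?_
      have : ∀ k, p (φ k) c = 0 := fun k => by simp [p, hS _ (hxS (φ k) c)]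
      simp [this])
    (by
      refine tendsto_nhds_unique (tendsto_finsetSum _ fun c _ => (hc c).const_mul (a c : ℝ)) ?_
      have : ∀ k, ∑ c, (a c : ℝ) * p (φ k) c = 1 := by
        intro k
        simp only [p, ← mul_div_assoc]
        rw [← Finset.sum_div, div_eq_one_iff_eq (hNpos _).ne']
        exact_mod_cast hxa (φ k)
      simp [this])
    (by
      intro t
      refine tendsto_nhds_unique (tendsto_finsetSum _ fun c _ => (hc c).mul_const (u c t)) ?_
      refine squeeze_zero_norm (fun k => ?_) hδ0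
      have : ∑ c, p (φ k) c * u c t = (∑ c, x (φ k) c * u c t) / N (φ k) := by
        rw [Finset.sum_div]
        exact Finset.sum_congr rfl fun c _ => by simp only [p]; ring
      rw [this, Real.norm_eq_abs, abs_div, abs_of_pos (hNpos _), div_le_iff₀ (hNpos _)]
      exact hxu _ t)
    (η := ε / 3) (by positivity)
  obtain ⟨B, hB⟩ : ∃ B : ℕ, ∀ c, (D : ℝ) * e c + z c ≤ ε / 3 * B := by
    obtain ⟨B, hB⟩ := exists_nat_ge ((∑ c, ((D : ℝ) * e c + z c)) / (ε / 3))
    refine ⟨B, fun c => ?_⟩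
    rw [div_le_iff₀ (by positivity)] at hB
    have := Finset.single_le_sum (f := fun c => (D : ℝ) * e c + z c) (fun c _ => by positivity)
      (Finset.mem_univ c)
    linarith
  obtain ⟨δB, hδB, hsmall⟩ := cone_small u B
  have h1 : ∀ᶠ k in atTop, ∀ c, |p (φ k) c - P c| < ε / 3 := by
    rw [Filter.eventually_all]
    exact fun c => (Metric.tendsto_nhds.1 (hc c)) _ (by positivity)
  obtain ⟨k, h1, h2⟩ := (h1.and (hδ0.eventually_lt_const hδB)).exists
  set n := N (φ k) with hn
  have hn0 : (0:ℝ) < n := hNpos _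
  rcases le_total n B with hle | hle
  · refine hexact (φ k) (hsmall n _ hle (hxN _) fun t => (hxu _ t).trans ?_)
    gcongr
  · obtain ⟨c, hc⟩ := hno (φ k) (fun c => (n / D) * z c + (n % D) * e c)
      (fun c => (S c).add_mem (by simpa using (S c).nsmul_mem (hzS c) (n / D))
        (by simpa using (S c).nsmul_mem (he c) (n % D)))
      (by
        calc _ = (n / D) * ∑ c, a c * z c + (n % D) * ∑ c, a c * e c := by
              rw [Finset.mul_sum, Finset.mul_sum, ← Finset.sum_add_distrib]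
              exact Finset.sum_congr rfl fun c _ => by ring
          _ = n := by rw [hza, hae, mul_one, mul_comm, Nat.div_add_mod])
      (by
        intro t
        calc _ = ((n / D : ℕ) : ℝ) * ∑ c, z c * u c t + ((n % D : ℕ) : ℝ) * ∑ c, e c * u c t := by
              rw [Finset.mul_sum, Finset.mul_sum, ← Finset.sum_add_distrib]
              exact Finset.sum_congr rfl fun c _ => by push_cast; ring
          _ = 0 := by rw [hzu, hue]; simp)
    have hD' : (0:ℝ) < D := by exact_mod_cast hD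
    have hdm : (n : ℝ) = D * ((n / D : ℕ) : ℝ) + ((n % D : ℕ) : ℝ) := by
      exact_mod_cast (Nat.div_add_mod n D).symm
    have hr : ((n % D : ℕ) : ℝ) ≤ D := by exact_mod_cast (Nat.mod_lt n hD).le
    have hr0 : (0:ℝ) ≤ ((n % D : ℕ) : ℝ) := Nat.cast_nonneg _
    set Q : ℝ := ((n / D : ℕ) : ℝ)
    set r : ℝ := ((n % D : ℕ) : ℝ)
    have e1 : (((n / D) * z c + (n % D) * e c : ℕ) : ℝ) - x (φ k) c
        = (r * e c - r * (z c / D)) + n * ((z c / D - P c) - (p (φ k) c - P c)) := by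
      push_cast
      simp only [p]
      rw [← hn]
      field_simp
      rw [hdm]; ring
    rw [e1] at hc
    have a1 : |r * e c - r * (z c / D)| ≤ ε / 3 * n := by
      have b1 : r * (z c / D) ≤ z c := by
        rw [← mul_div_assoc, div_le_iff₀ hD', mul_comm]; gcongr
      have b2 : r * e c ≤ D * e c := by gcongr
      have b3 : 0 ≤ r * (z c / D) := by positivity
      have b4 : 0 ≤ r * e c := by positivity
      have b5 : ε / 3 * B ≤ ε / 3 * n := by gcongr
      have := hB c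
      rw [abs_le]; constructor <;> nlinarith
    have a2 : |n * ((z c / D - P c) - (p (φ k) c - P c))| ≤ n * (ε / 3 + ε / 3) := by
      rw [abs_mul, abs_of_pos hn0]
      gcongr
      exact (abs_sub _ _).trans (add_le_add (hzp c).le (h1 c).le)
    have := abs_add_le (r * e c - r * (z c / D)) (n * ((z c / D - P c) - (p (φ k) c - P c)))
    nlinarith

end cone

end Pool.Agent.H72.Stab
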