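import Mathlib
import Pool.Agent.H72.StabA
import Pool.Agent.H72.StabB

namespace Pool.Agent.H72.Stab
open Matrix Filter Topology

noncomputable section

/-- isomorphism types of representations of the finite group `H` -/
structure HData (C : Cls) (H : Type) [Group H] where
  T : Type
  [fT : Fintype T]
  τ : Rep C H → T → ℝ
  rat : ∀ ρ σ, ∃ q : ℚ, ∑ t, τ ρ t * τ σ t = q
  cont : ∀ ε > 0, ∃ δ > 0, ∀ ρ σ : Rep C H, Close Set.univ (δ * ρ.card) ρ σ →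
    ∀ t, |τ ρ t - τ σ t| ≤ ε * ρ.card
  conj : ∀ ε > 0, ∃ δ > 0, ∀ (ρ σ : Rep C H) (w : Matrix ρ.ι σ.ι ℂ), C.Q w →
    (∀ h, fr (ρ.π h * w - w * σ.π h) ≤ δ * ρ.card) → τ ρ = τ σ →
    ∃ u : Matrix ρ.ι σ.ι ℂ, C.Q u ∧ (∀ h, ρ.π h * u = u * σ.π h) ∧ fr (u - w) ≤ ε * ρ.card

attribute [instance] HData.fT

variable {C : Cls} {H : Type} [Group H]

/-- decomposition of representations of `G` into pure pieces -/
structure GData (D : HData C H) (G : Type) [Group G] (i : H →* G) where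
  I : Type
  [fI : Fintype I]
  n : Rep C G → I → ℕ
  K : Finset G
  v : I → D.T → ℝ
  sum_n : ∀ ρ, ∑ c, n ρ c = ρ.card
  n_sum : ∀ ρ σ c, n (ρ.sum σ) c = n ρ c + n σ c
  cont : ∀ ε > 0, ∃ δ > 0, ∀ ρ σ : Rep C G, Close K (δ * ρ.card) ρ σ →
    ∀ c, |(n ρ c : ℝ) - n σ c| ≤ ε * ρ.card
  dec : ∀ ρ c, ∃ σ τ : Rep C G, Close Set.univ 0 ρ (σ.sum τ) ∧ n σ c = σ.card ∧ n τ c = 0
  type : ∀ ρ t, D.τ (ρ.comp i) t = ∑ c, n ρ c * v c t

attribute [instance] GData.fI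

variable {D : HData C H} {G : Type} [Group G] {i : H →* G}

namespace GData
variable (E : GData D G i)

lemma n_iso {ρ σ : Rep C G} (h : Close Set.univ 0 ρ σ) (c : E.I) : E.n ρ c = E.n σ c := by
  have h0 : (0:ℝ) ≤ ρ.card := Nat.cast_nonneg _
  obtain ⟨δ, hδ, H⟩ := E.cont (1 / (2 * (ρ.card + 1))) (by positivity)
  have := H ρ σ (h.mono (Set.subset_univ _) (by positivity)) c
  have h2 : 1 / (2 * ((ρ.card : ℝ) + 1)) * ρ.card < 1 := by
    rw [div_mul_eq_mul_div, div_lt_one (by positivity)]; linarith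
  have h3 : |(E.n ρ c : ℝ) - E.n σ c| < 1 := this.trans_lt h2
  have h4 : |(E.n ρ c : ℤ) - E.n σ c| < 1 := by exact_mod_cast h3
  have := Int.abs_lt_one_iff.1 h4
  omega

lemma n_le (ρ : Rep C G) (c : E.I) : E.n ρ c ≤ ρ.card := by
  rw [← E.sum_n ρ]
  exact Finset.single_le_sum (f := E.n ρ) (fun _ _ => Nat.zero_le _) (Finset.mem_univ c)

lemma n_other {ρ : Rep C G} {c c' : E.I} (h : E.n ρ c = ρ.card) (hc : c' ≠ c) : E.n ρ c' = 0 := by
  classical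
  have h1 := E.sum_n ρ
  rw [← Finset.add_sum_erase _ _ (Finset.mem_univ c), h] at h1
  have h2 : ∑ x ∈ Finset.univ.erase c, E.n ρ x = 0 := by omega
  exact Finset.sum_eq_zero_iff.1 h2 c' (by simp [hc])

lemma n_empty (c : E.I) : E.n (Rep.triv C G Empty) c = 0 := by
  have := E.n_le (Rep.triv C G Empty) c
  simpa [Rep.card] using this

/-- sizes of pure representations -/
def Sg (c : E.I) : AddSubmonoid ℕ where
  carrier := {m | ∃ ρ : Rep C G, E.n ρ c = ρ.card ∧ ρ.card = m}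
  zero_mem' := ⟨Rep.triv C G Empty, by simp [E.n_empty, Rep.card], by simp [Rep.card]⟩
  add_mem' := by
    rintro _ _ ⟨ρ, h, rfl⟩ ⟨σ, h', rfl⟩
    exact ⟨ρ.sum σ, by rw [E.n_sum, h, h', Rep.card_sum], Rep.card_sum _ _⟩

lemma n_mem (ρ : Rep C G) (c : E.I) : E.n ρ c ∈ E.Sg c := by
  obtain ⟨σ, τ, h, h1, h2⟩ := E.dec ρ c
  exact ⟨σ, h1, by rw [E.n_iso h, E.n_sum, h1, h2, add_zero]⟩

lemma flex1 (hG : UStable C G) (c : E.I) (S : Finset G) {ε : ℝ} (hε : 0 < ε) :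
    ∃ δ > 0, ∀ ρ : Rep C G, E.n ρ c = ρ.card → ∀ t ∈ E.Sg c, |(t : ℝ) - ρ.card| ≤ δ * ρ.card →
      ∃ σ : Rep C G, E.n σ c = σ.card ∧ Emb S (ε * ρ.card) ρ σ ∧ ∃ s ∈ E.Sg c, σ.card + s = t := by
  classical
  obtain ⟨Φ, hΦ⟩ := exists_frob (E.Sg c)
  obtain ⟨δc, hδc, hc⟩ := E.cont (ε / 2) (by positivity)
  obtain ⟨δs, hδs, hs⟩ := shrink_rep hG (S ∪ E.K) (ε := min δc (ε / 4)) (by positivity)
  set δ' := min δs (ε / 2) / 2 with hδ'
  have hδ'0 : 0 < δ' := by positivity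
  have hδ'1 : 2 * δ' ≤ δs := by have := min_le_left δs (ε / 2); linarith
  have hδ'2 : 2 * δ' ≤ ε / 2 := by have := min_le_right δs (ε / 2); linarith
  refine ⟨δ' / (Φ + 1), by positivity, fun ρ hρ t ht htρ => ?_⟩
  have hN : (0:ℝ) ≤ ρ.card := Nat.cast_nonneg _
  rcases le_or_gt ((Φ : ℝ) + 1) (δ' * ρ.card) with hbig | hsmall
  · set δ := δ' / (Φ + 1) with hδ
    have hδle : δ ≤ δ' := div_le_self hδ'0.le (by linarith [(Nat.cast_nonneg Φ : (0:ℝ) ≤ Φ)])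
    have hδ0 : 0 ≤ δ * ρ.card := by positivity
    set k := ⌈δ * ρ.card⌉₊ + Φ with hk
    have hk1 : (k : ℝ) ≤ 2 * δ' * ρ.card := by
      have := (Nat.ceil_lt_add_one hδ0).le
      have : δ * ρ.card ≤ δ' * ρ.card := by gcongr
      push_cast [hk]; linarith
    have hk2 : δ * ρ.card + Φ ≤ k := by
      have := Nat.le_ceil (δ * ρ.card)
      push_cast [hk]; linarith
    obtain ⟨σ0, τ0, hτ0, h0⟩ := hs ρ k (hk1.trans (by gcongr))
    obtain ⟨σ, τ1, h1, hσ, hτ1⟩ := E.dec σ0 c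
    have c0 : ρ.card = σ0.card + k := by rw [h0.card_eq, Rep.card_sum, hτ0]
    have c1 : σ0.card = σ.card + τ1.card := by rw [h1.card_eq, Rep.card_sum]
    have n0 : E.n σ0 c = σ.card := by rw [E.n_iso h1, E.n_sum, hσ, hτ1, add_zero]
    have n1 := hc ρ _ (h0.mono (by simp) (by gcongr; exact min_le_left _ _)) c
    rw [E.n_sum, n0, hρ] at n1
    have n2 : (E.n τ0 c : ℝ) ≤ k := by exact_mod_cast hτ0 ▸ E.n_le τ0 c
    have c2 : (ρ.card : ℝ) = σ.card + τ1.card + k := by rw [c0, c1]; push_cast; ring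
    have n3 := (abs_le.1 n1).2
    push_cast at n3
    refine ⟨σ, hσ, ⟨τ1.sum τ0, ?_, ?_⟩, hΦ t ht _ ⟨σ, hσ, rfl⟩ ?_⟩
    · have a1 : Close (S : Set G) (min δc (ε / 4) * ρ.card) ρ (σ0.sum τ0) :=
        h0.mono (by simp) le_rfl
      have a2 : Close (S : Set G) (0 + 0) (σ0.sum τ0) ((σ.sum τ1).sum τ0) :=
        (h1.mono (Set.subset_univ _) le_rfl).sum (Close.refl τ0 S)
      have a3 : Close (S : Set G) 0 ((σ.sum τ1).sum τ0) (σ.sum (τ1.sum τ0)) := by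
        refine close_of_equiv (Equiv.sumAssoc _ _ _).symm ?_ (S : Set G)
        rintro g (i | (i | i)) (j | (j | j)) <;> rfl
      refine ((a1.trans a2).trans a3).mono subset_rfl ?_
      have : min δc (ε / 4) * ρ.card ≤ ε / 4 * ρ.card := by gcongr; exact min_le_right _ _
      linarith
    · rw [Rep.card_sum, hτ0]; push_cast
      have : 2 * δ' * ρ.card ≤ ε / 2 * ρ.card := by gcongr
      linarith
    · have := (abs_le.1 htρ).1
      have h5 : (0:ℝ) ≤ τ1.card := Nat.cast_nonneg _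
      have : (σ.card : ℝ) + Φ ≤ t := by linarith
      exact_mod_cast this
  · have h1 : δ' / (Φ + 1) * ρ.card < 1 := by
      rw [div_mul_eq_mul_div, div_lt_one (by positivity)]; exact hsmall
    have h3 : |(t : ℝ) - ρ.card| < 1 := htρ.trans_lt h1
    have h4 : |(t : ℤ) - ρ.card| < 1 := by exact_mod_cast h3
    have := Int.abs_lt_one_iff.1 h4
    exact ⟨ρ, hρ, (emb_self ρ S).mono (by positivity), 0, (E.Sg c).zero_mem, by omega⟩

lemma flexN (hG : UStable C G) (c : E.I) (S : Finset G) {ε : ℝ} (hε : 0 < ε) :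
    ∃ δ > 0, ∀ (N : ℝ) (ρ : Rep C G), (ρ.card : ℝ) ≤ N → E.n ρ c = ρ.card → ∀ t ∈ E.Sg c,
      |(t : ℝ) - ρ.card| ≤ δ * N →
      ∃ σ : Rep C G, E.n σ c = σ.card ∧ Emb S (ε * N) ρ σ ∧ ∃ s ∈ E.Sg c, σ.card + s = t := by
  obtain ⟨δ, hδ, h⟩ := E.flex1 hG c S hε
  refine ⟨δ * ε, by positivity, fun N ρ hN hρ t ht htρ => ?_⟩
  rcases le_total (ρ.card : ℝ) (ε * N) with hle | hle
  · exact ⟨Rep.triv C G Empty, by simp [E.n_empty, Rep.card], (emb_empty ρ S).mono hle, t, ht,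
      by simp [Rep.card]⟩
  · obtain ⟨σ, h1, h2, h3⟩ := h ρ hρ t ht (htρ.trans (by rw [mul_assoc]; gcongr))
    exact ⟨σ, h1, h2.mono (by gcongr), h3⟩

lemma extract (hG : UStable C G) (S : Finset G) (A : Finset E.I) : ∀ ε > 0,
    ∃ δ > 0, ∀ (N : ℝ) (ρ : Rep C G) (t : E.I → ℕ), (ρ.card : ℝ) ≤ N → (∀ c ∉ A, E.n ρ c = 0) →
      (∀ c, t c ∈ E.Sg c) → (∀ c ∈ A, |(t c : ℝ) - E.n ρ c| ≤ δ * N) →
      ∃ σ : Rep C G, Emb S (ε * N) ρ σ ∧ (∀ c ∈ A, ∃ s ∈ E.Sg c, E.n σ c + s = t c) ∧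
        ∀ c ∉ A, E.n σ c = 0 := by
  classical
  induction A using Finset.induction_on with
  | empty =>
    intro ε hε
    refine ⟨1, one_pos, fun N ρ t hN h0 _ _ => ⟨ρ, (emb_self ρ S).mono ?_, by simp, h0⟩⟩
    have : (0:ℝ) ≤ ρ.card := Nat.cast_nonneg _
    have : 0 ≤ N := by linarith
    positivity
  | insert c A hcA ih =>
    intro ε hε
    obtain ⟨δ1, hδ1, h1⟩ := E.flexN hG c S (ε := ε / 8) (by positivity)
    obtain ⟨δ2, hδ2, h2⟩ := ih (ε / 8) (by positivity)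
    refine ⟨min δ1 δ2, by positivity, fun N ρ t hN h0 ht htρ => ?_⟩
    have hN0 : 0 ≤ N := le_trans (Nat.cast_nonneg _) hN
    obtain ⟨ρ1, ρ2, hiso, hρ1, hρ2⟩ := E.dec ρ c
    have hn : ∀ c', E.n ρ c' = E.n ρ1 c' + E.n ρ2 c' := fun c' => by rw [E.n_iso hiso, E.n_sum]
    have hcard : (ρ.card : ℝ) = ρ1.card + ρ2.card := by
      rw [hiso.card_eq, Rep.card_sum]; push_cast; ring
    have p1 : (0:ℝ) ≤ ρ1.card := Nat.cast_nonneg _
    have p2 : (0:ℝ) ≤ ρ2.card := Nat.cast_nonneg _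
    obtain ⟨σ1, hσ1, e1, s1⟩ := h1 N ρ1 (by linarith) hρ1 (t c) (ht c) (by
      have := htρ c (Finset.mem_insert_self _ _)
      rw [hn, hρ1, hρ2, add_zero] at this
      exact this.trans (by gcongr; exact min_le_left _ _))
    obtain ⟨σ2, e2, s2, z2⟩ := h2 N ρ2 t (by linarith) (by
      intro c' hc'
      by_cases h : c' = c
      · rw [h, hρ2]
      · have := h0 c' (by simp [h, hc'])
        rw [hn] at this; omega) ht (by
      intro c' hc'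
      have h : c' ≠ c := fun h => hcA (h ▸ hc')
      have := htρ c' (Finset.mem_insert_of_mem hc')
      rw [hn, E.n_other hρ1 h, zero_add] at this
      exact this.trans (by gcongr; exact min_le_right _ _))
    refine ⟨σ1.sum σ2, (((hiso.mono (Set.subset_univ _) le_rfl)).emb (e1.sum e2) le_rfl).mono
      (by linarith), fun c' hc' => ?_, fun c' hc' => ?_⟩
    · rcases Finset.mem_insert.1 hc' with rfl | hc'
      · rw [E.n_sum, hσ1, z2 _ hcA, add_zero]; exact s1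
      · have h : c' ≠ c := fun h => hcA (h ▸ hc')
        rw [E.n_sum, E.n_other hσ1 h, zero_add]; exact s2 c' hc'
    · simp only [Finset.mem_insert, not_or] at hc'
      rw [E.n_sum, E.n_other hσ1 hc'.1, z2 _ hc'.2]

lemma fill (r : E.I → ℕ) (hr : ∀ c, r c ∈ E.Sg c) : ∃ ρ : Rep C G, ∀ c, E.n ρ c = r c := by
  classical
  have : ∀ A : Finset E.I, ∃ ρ : Rep C G, ∀ c, E.n ρ c = if c ∈ A then r c else 0 := by
    intro A
    induction A using Finset.induction_on with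
    | empty => exact ⟨Rep.triv C G Empty, by simp [E.n_empty]⟩
    | insert c A hcA ih =>
      obtain ⟨ρ, hρ⟩ := ih
      obtain ⟨σ, hσ, hσ'⟩ := hr c
      refine ⟨σ.sum ρ, fun c' => ?_⟩
      rw [E.n_sum, hρ]
      by_cases h : c' = c
      · subst h; simp [hcA, hσ, hσ']
      · simp [h, E.n_other hσ h]
  obtain ⟨ρ, hρ⟩ := this Finset.univ
  exact ⟨ρ, by simpa using hρ⟩

lemma flexG (hG : UStable C G) (S : Finset G) {ε : ℝ} (hε : 0 < ε) :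
    ∃ δ > 0, ∀ (ρ : Rep C G) (t : E.I → ℕ), (∀ c, t c ∈ E.Sg c) → ∑ c, t c = ρ.card →
      (∀ c, |(t c : ℝ) - E.n ρ c| ≤ δ * ρ.card) →
      ∃ σ : Rep C G, Close S (ε * ρ.card) ρ σ ∧ ∀ c, E.n σ c = t c := by
  obtain ⟨δ, hδ, h⟩ := E.extract hG S Finset.univ (ε / 10) (by positivity)
  refine ⟨δ, hδ, fun ρ t ht hsum htρ => ?_⟩
  obtain ⟨σ, ⟨τ, hc, hτ⟩, hs, -⟩ := h ρ.card ρ t le_rfl (by simp) ht (fun c _ => htρ c)
  choose s hs hst using fun c => hs c (Finset.mem_univ c)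
  obtain ⟨μ, hμ⟩ := E.fill s hs
  have hcard : τ.card = μ.card := by
    have h1 := hc.card_eq
    rw [Rep.card_sum, ← hsum, ← E.sum_n σ] at h1
    simp only [← hst, ← hμ, Finset.sum_add_distrib, E.sum_n] at h1
    omega
  refine ⟨σ.sum μ, (hc.trans ((Close.refl σ S).sum (close_of_card hcard S))).mono subset_rfl
    (by linarith), fun c => by rw [E.n_sum, hμ, hst]⟩

lemma type_pure {ρ : Rep C G} {c : E.I} (h : E.n ρ c = ρ.card) (t : D.T) :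
    D.τ (ρ.comp i) t = ρ.card * E.v c t := by
  rw [E.type, Finset.sum_eq_single c, h]
  · intro c' _ hc'; simp [E.n_other h hc']
  · simp

end GData

lemma vrat {G' : Type} [Group G'] {i' : H →* G'} (E : GData D G i) (E' : GData D G' i')
    (c : E.I) (c' : E'.I) (h : ∃ s ∈ E.Sg c, s ≠ 0) (h' : ∃ s ∈ E'.Sg c', s ≠ 0) :
    ∃ q : ℚ, ∑ t, E.v c t * E'.v c' t = q := by
  obtain ⟨_, ⟨ρ, hρ, rfl⟩, h⟩ := h
  obtain ⟨_, ⟨σ, hσ, rfl⟩, h'⟩ := h'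
  obtain ⟨q, hq⟩ := D.rat (ρ.comp i) (σ.comp i')
  refine ⟨q / (ρ.card * σ.card), ?_⟩
  have a1 : (ρ.card : ℝ) ≠ 0 := by exact_mod_cast h
  have a2 : (σ.card : ℝ) ≠ 0 := by exact_mod_cast h'
  push_cast
  rw [← hq, Finset.sum_div]
  refine Finset.sum_congr rfl fun t _ => ?_
  rw [E.type_pure hρ, E'.type_pure hσ]
  field_simp

/-- transport of a homomorphism along a unitary -/
def conjHom {ι κ : Type} [Fintype ι] [DecidableEq ι] [Fintype κ] [DecidableEq κ]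
    (w : Matrix ι κ ℂ) (hw : wᴴ * w = 1 ∧ w * wᴴ = 1) (ψ : G →* Matrix κ κ ℂ) :
    G →* Matrix ι ι ℂ where
  toFun g := w * ψ g * wᴴ
  map_one' := by simp [hw.2]
  map_mul' a b := by
    simp only [map_mul, Matrix.mul_assoc]
    rw [← Matrix.mul_assoc wᴴ, hw.1, Matrix.one_mul]

lemma fr_conj {ι κ : Type} [Fintype ι] [DecidableEq ι] [Fintype κ] [DecidableEq κ]
    {w : Matrix ι κ ℂ} (hw : wᴴ * w = 1 ∧ w * wᴴ = 1) (A : Matrix ι ι ℂ) (B : Matrix κ κ ℂ) :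
    fr (A - w * B * wᴴ) = fr (A * w - w * B) := by
  rw [← fr_mul_right hw.2 (A - w * B * wᴴ), Matrix.sub_mul, Matrix.mul_assoc (w * B), hw.1,
    Matrix.mul_one]

lemma key [Finite H] {G₁ G₂ : Type} [Group G₁] [Group G₂] {i₁ : H →* G₁} {i₂ : H →* G₂}
    (E₁ : GData D G₁ i₁) (E₂ : GData D G₂ i₂) (h₁ : UStable C G₁) (h₂ : UStable C G₂)
    (S₁ : Finset G₁) (S₂ : Finset G₂) {ε : ℝ} (hε : 0 < ε) :
    ∃ δ > 0, ∀ (ι : Type) [Fintype ι] [DecidableEq ι] (π₁ : G₁ →* Matrix ι ι ℂ)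
      (π₂ : G₂ →* Matrix ι ι ℂ), (∀ g, C.Q (π₁ g)) → (∀ g, C.Q (π₂ g)) →
      (∀ h, fr (π₁ (i₁ h) - π₂ (i₂ h)) ≤ δ * Fintype.card ι) →
      ∃ (ψ₁ : G₁ →* Matrix ι ι ℂ) (ψ₂ : G₂ →* Matrix ι ι ℂ), (∀ g, C.Q (ψ₁ g)) ∧
        (∀ g, C.Q (ψ₂ g)) ∧ (∀ h, ψ₁ (i₁ h) = ψ₂ (i₂ h)) ∧
        (∀ g ∈ S₁, fr (π₁ g - ψ₁ g) ≤ ε * Fintype.card ι) ∧
        (∀ g ∈ S₂, fr (π₂ g - ψ₂ g) ≤ ε * Fintype.card ι) := by
  classical
  have := Fintype.ofFinite H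
  obtain ⟨δj, hδj, hj⟩ := D.conj (ε / 16) (by positivity)
  set ε' := min (ε / 4) (δj / 12) with hε'
  have hε'0 : 0 < ε' := by positivity
  obtain ⟨δ1, hδ1, f1⟩ := E₁.flexG h₁ (S₁ ∪ Finset.univ.image i₁) hε'0
  obtain ⟨δ2, hδ2, f2⟩ := E₂.flexG h₂ (S₂ ∪ Finset.univ.image i₂) hε'0
  let u : E₁.I ⊕ E₂.I → Option D.T → ℝ :=
    Sum.elim (fun c t => t.elim 1 (E₁.v c)) (fun c t => - t.elim 1 (E₂.v c))
  obtain ⟨δc, hδc, hc⟩ := cone0 (Sum.elim E₁.Sg E₂.Sg) u (Sum.elim (fun _ => 1) (fun _ => 0))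
    (by
      rintro (c | c) (c' | c') h h'
      · obtain ⟨q, hq⟩ := vrat E₁ E₁ c c' h h'
        exact ⟨1 + q, by simp [u, Fintype.sum_option, hq]⟩
      · obtain ⟨q, hq⟩ := vrat E₁ E₂ c c' h h'
        exact ⟨-(1 + q), by simp [u, Fintype.sum_option, hq]⟩
      · obtain ⟨q, hq⟩ := vrat E₂ E₁ c c' h h'
        exact ⟨-(1 + q), by simp [u, Fintype.sum_option, hq]⟩
      · obtain ⟨q, hq⟩ := vrat E₂ E₂ c c' h h'
        exact ⟨1 + q, by simp [u, Fintype.sum_option, hq]⟩)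
    (Sum.elim (E₁.n (Rep.triv C G₁ Unit)) (E₂.n (Rep.triv C G₂ Unit)))
    (by rintro (c | c); exacts [E₁.n_mem _ c, E₂.n_mem _ c])
    (by simp [Fintype.sum_sum_type, E₁.sum_n, Rep.card])
    (by
      rintro (_ | t)
      · have a1 : ∑ c, (E₁.n (Rep.triv C G₁ Unit) c : ℝ) = 1 := by
          exact_mod_cast (E₁.sum_n (Rep.triv C G₁ Unit)).trans (by simp [Rep.card])
        have a2 : ∑ c, (E₂.n (Rep.triv C G₂ Unit) c : ℝ) = 1 := by
          exact_mod_cast (E₂.sum_n (Rep.triv C G₂ Unit)).trans (by simp [Rep.card])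
        simp [u, Fintype.sum_sum_type, a1, a2]
      · have a1 := E₁.type (Rep.triv C G₁ Unit) t
        have a2 := E₂.type (Rep.triv C G₂ Unit) t
        have a3 : (Rep.triv C G₁ Unit).comp i₁ = (Rep.triv C G₂ Unit).comp i₂ := rfl
        rw [a3, a2] at a1
        simp [u, Fintype.sum_sum_type, a1])
    (ε := min δ1 δ2) (by positivity)
  obtain ⟨δt, hδt, ht⟩ := D.cont δc hδc
  refine ⟨min δt (δj / 12), by positivity, fun ι _ _ π₁ π₂ g₁ g₂ hH => ?_⟩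
  let ρ₁ : Rep C G₁ := ⟨ι, π₁, g₁⟩
  let ρ₂ : Rep C G₂ := ⟨ι, π₂, g₂⟩
  set N := Fintype.card ι with hN
  have hN0 : (0:ℝ) ≤ N := Nat.cast_nonneg _
  have s1 : ∑ c, E₁.n ρ₁ c = N := E₁.sum_n ρ₁
  have s2 : ∑ c, E₂.n ρ₂ c = N := E₂.sum_n ρ₂
  obtain ⟨y, hyS, hya, hyu, hyx⟩ := hc N (Sum.elim (E₁.n ρ₁) (E₂.n ρ₂))
    (by rintro (c | c); exacts [E₁.n_mem _ c, E₂.n_mem _ c])
    (by rintro (c | c); exacts [E₁.n_le ρ₁ c, E₂.n_le ρ₂ c])
    (by simp [Fintype.sum_sum_type, s1])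
    (by
      rintro (_ | t)
      · have a1 : ∑ c, (E₁.n ρ₁ c : ℝ) = N := by exact_mod_cast s1
        have a2 : ∑ c, (E₂.n ρ₂ c : ℝ) = N := by exact_mod_cast s2
        simp only [u, Fintype.sum_sum_type, Sum.elim_inl, Sum.elim_inr, Option.elim_none, mul_one,
          mul_neg, Finset.sum_neg_distrib, a1, a2]
        simp; positivity
      · have := ht (ρ₁.comp i₁) (ρ₂.comp i₂) ⟨1, C.one, fun h _ => by
          rw [Matrix.mul_one, Matrix.one_mul]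
          exact (hH h).trans (show _ ≤ δt * N by gcongr; exact min_le_left _ _)⟩ t
        rw [E₁.type, E₂.type] at this
        have e : (ρ₁.comp i₁).card = N := rfl
        rw [e] at this
        simpa [u, Fintype.sum_sum_type, ← sub_eq_add_neg] using this)
  have y1 : ∑ c, y (Sum.inl c) = N := by simpa [Fintype.sum_sum_type] using hya
  have y2 : ∑ c, y (Sum.inr c) = N := by
    have := hyu none
    simp only [u, Fintype.sum_sum_type, Sum.elim_inl, Sum.elim_inr, Option.elim_none, mul_one,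
          mul_neg, Finset.sum_neg_distrib] at this
    have a1 : ∑ c, (y (Sum.inl c) : ℝ) = N := by exact_mod_cast y1
    have a2 : ∑ c, (y (Sum.inr c) : ℝ) = N := by linarith
    exact_mod_cast a2
  obtain ⟨σ₁, ⟨w₁, hw₁, c₁⟩, n₁⟩ := f1 ρ₁ (fun c => y (Sum.inl c)) (fun c => hyS (Sum.inl c)) y1
    (fun c => (hyx (Sum.inl c)).trans (show _ ≤ δ1 * N by gcongr; exact min_le_left _ _))
  obtain ⟨σ₂, ⟨w₂, hw₂, c₂⟩, n₂⟩ := f2 ρ₂ (fun c => y (Sum.inr c)) (fun c => hyS (Sum.inr c)) y2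
    (fun c => (hyx (Sum.inr c)).trans (show _ ≤ δ2 * N by gcongr; exact min_le_right _ _))
  have hu₁ := C.uni hw₁
  have hu₂ := C.uni hw₂
  have hc₁ : σ₁.card = N := (C.card_eq hw₁).symm
  have e1 : ε' * N ≤ ε / 4 * N := by gcongr; exact min_le_left _ _
  have e2 : ε' * N ≤ δj / 12 * N := by gcongr; exact min_le_right _ _
  have c₁' : ∀ g ∈ S₁ ∪ Finset.univ.image i₁, fr (π₁ g * w₁ - w₁ * σ₁.π g) ≤ ε' * N :=
    fun g hg => c₁ g (by exact_mod_cast hg)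
  have c₂' : ∀ g ∈ S₂ ∪ Finset.univ.image i₂, fr (π₂ g * w₂ - w₂ * σ₂.π g) ≤ ε' * N :=
    fun g hg => c₂ g (by exact_mod_cast hg)
  obtain ⟨v, hv, hvi, hvw⟩ := hj (σ₁.comp i₁) (σ₂.comp i₂) (w₁ᴴ * w₂) (C.mul (C.adj hw₁) hw₂)
    (by
      intro h
      have a1 := c₁' (i₁ h) (by simp)
      have a2 := c₂' (i₂ h) (by simp)
      have a3 := (hH h).trans (show _ ≤ δj / 12 * N by gcongr; exact min_le_right _ _)
      rw [← fr_conj hu₁] at a1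
      rw [← fr_conj hu₂] at a2
      have a4 : fr (σ₁.π (i₁ h) * (w₁ᴴ * w₂) - w₁ᴴ * w₂ * σ₂.π (i₂ h))
          = fr (w₁ * σ₁.π (i₁ h) * w₁ᴴ - w₂ * σ₂.π (i₂ h) * w₂ᴴ) := by
        rw [fr_conj hu₂, ← fr_mul_left hu₁.1, Matrix.mul_sub]
        simp only [← Matrix.mul_assoc, hu₁.2, Matrix.one_mul]
      show fr (σ₁.π (i₁ h) * (w₁ᴴ * w₂) - w₁ᴴ * w₂ * σ₂.π (i₂ h)) ≤ δj * σ₁.card
      rw [a4, hc₁]
      have t1 := fr_tri (w₁ * σ₁.π (i₁ h) * w₁ᴴ) (π₁ (i₁ h)) (w₂ * σ₂.π (i₂ h) * w₂ᴴ)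
      have t2 := fr_tri (π₁ (i₁ h)) (π₂ (i₂ h)) (w₂ * σ₂.π (i₂ h) * w₂ᴴ)
      rw [fr_sub_comm] at a1
      have : 0 ≤ δj * N := by positivity
      linarith)
    (by
      funext t
      rw [E₁.type, E₂.type]
      have := hyu (some t)
      simp only [u, Fintype.sum_sum_type, Sum.elim_inl, Sum.elim_inr, Option.elim_some,
          mul_neg, Finset.sum_neg_distrib] at this
      simp only [n₁, n₂]
      linarith)
  have hvu := C.uni hv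
  have hw' : C.Q (w₂ * vᴴ) := C.mul hw₂ (C.adj hv)
  refine ⟨conjHom (w₂ * vᴴ) (C.uni hw') σ₁.π, conjHom w₂ hu₂ σ₂.π,
    fun g => C.mul (C.mul hw' (σ₁.good g)) (C.adj hw'),
    fun g => C.mul (C.mul hw₂ (σ₂.good g)) (C.adj hw₂), fun h => ?_, fun g hg => ?_,
    fun g hg => ?_⟩
  · have a1 : σ₁.π (i₁ h) * v = v * σ₂.π (i₂ h) := hvi h
    show w₂ * vᴴ * σ₁.π (i₁ h) * (w₂ * vᴴ)ᴴ = w₂ * σ₂.π (i₂ h) * w₂ᴴ
    rw [conjTranspose_mul, conjTranspose_conjTranspose]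
    simp only [Matrix.mul_assoc]
    rw [← Matrix.mul_assoc (σ₁.π (i₁ h)), a1]
    simp only [← Matrix.mul_assoc]
    rw [Matrix.mul_assoc w₂ vᴴ v, hvu.1, Matrix.mul_one]
  · show fr (π₁ g - w₂ * vᴴ * σ₁.π g * (w₂ * vᴴ)ᴴ) ≤ _
    rw [fr_conj (C.uni hw')]
    have a1 := c₁' g (by simp [hg])
    have a2 : fr (w₂ * vᴴ - w₁) ≤ ε / 16 * N := by
      have : fr (w₂ * vᴴ - w₁) = fr (v - w₁ᴴ * w₂) := by
        rw [← fr_conjT, conjTranspose_sub, conjTranspose_mul, conjTranspose_conjTranspose,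
          ← fr_mul_right hu₂.2, Matrix.sub_mul, Matrix.mul_assoc, hu₂.1, Matrix.mul_one]
      rw [this, ← hc₁]; exact hvw
    have a3 : π₁ g * (w₂ * vᴴ) - w₂ * vᴴ * σ₁.π g = (π₁ g * w₁ - w₁ * σ₁.π g) +
        (π₁ g * (w₂ * vᴴ - w₁) - (w₂ * vᴴ - w₁) * σ₁.π g) := by
      simp only [Matrix.mul_sub, Matrix.sub_mul]; abel
    rw [a3]
    have t1 := fr_add_le (π₁ g * w₁ - w₁ * σ₁.π g)
      (π₁ g * (w₂ * vᴴ - w₁) - (w₂ * vᴴ - w₁) * σ₁.π g)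
    have t2 := fr_sub_le (π₁ g * (w₂ * vᴴ - w₁)) ((w₂ * vᴴ - w₁) * σ₁.π g)
    rw [fr_mul_left (C.uni (g₁ g)).1, fr_mul_right (C.uni (σ₁.good g)).2] at t2
    linarith
  · show fr (π₂ g - w₂ * σ₂.π g * w₂ᴴ) ≤ _
    rw [fr_conj hu₂]
    have a1 := c₂' g (by simp [hg])
    have : 0 ≤ ε * N := by positivity
    linarith

end
end Pool.Agent.H72.Stab
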