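import Mathlib
import Pool.Agent.H72.StabC

namespace Pool.Agent.H72.Stab
open Matrix Filter Topology
open scoped commutatorElement

noncomputable section

/-- sequential stability for a class of matrices -/
def SStable (C : Cls) (G : Type) [Group G] : Prop :=
  ∀ (n : ℕ → ℕ) (φ : ∀ k, G → Matrix (Fin (n k)) (Fin (n k)) ℂ), (∀ k, 0 < n k) →
    (∀ k g, C.Q (φ k g)) →
    (∀ a b, Tendsto (fun k => fr (φ k a * φ k b - φ k (a * b)) / n k) atTop (𝓝 0)) →
    ∃ ψ : ∀ k, G →* Matrix (Fin (n k)) (Fin (n k)) ℂ, (∀ k g, C.Q (ψ k g)) ∧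
      ∀ a, Tendsto (fun k => fr (φ k a - ψ k a) / n k) atTop (𝓝 0)

variable {C : Cls}

lemma SStable.ustable {G : Type} [Group G] (h : SStable C G) : UStable C G := by
  intro S ε hε
  by_contra hcon
  push Not at hcon
  choose ι f d φ hφ hm hno using fun k : ℕ => hcon (1 / ((k : ℝ) + 1)) (by positivity)
  have hpos : ∀ k, 0 < Fintype.card (ι k) := by
    intro k
    by_contra h0
    have h0' : Fintype.card (ι k) = 0 := by omega
    obtain ⟨g, -, hg⟩ := hno k 1 (fun _ => C.one)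
    have : IsEmpty (ι k) := Fintype.card_eq_zero_iff.1 h0'
    simp [fr] at hg
  let w : ∀ k, Matrix (ι k) (Fin (Fintype.card (ι k))) ℂ :=
    fun k => pm (Fintype.equivFin (ι k)).symm
  have hw : ∀ k, C.Q (w k) := fun k => C.eqv _
  have hu := fun k => C.uni (hw k)
  have hfr : ∀ k (A : Matrix (ι k) (ι k) ℂ), fr ((w k)ᴴ * A * w k) = fr A := fun k A => by
    rw [fr_mul_right (hu k).2, fr_mul_left (by simpa using (hu k).2)]
  obtain ⟨ψ, hψ, hlim⟩ := h (fun k => Fintype.card (ι k)) (fun k g => (w k)ᴴ * φ k g * w k) hpos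
    (fun k g => C.mul (C.mul (C.adj (hw k)) (hφ k g)) (hw k)) (by
      intro a b
      refine squeeze_zero (fun k => div_nonneg (fr_nonneg _) (Nat.cast_nonneg _)) (fun k => ?_)
        tendsto_one_div_add_atTop_nhds_zero_nat
      have e : (w k)ᴴ * φ k a * w k * ((w k)ᴴ * φ k b * w k) - (w k)ᴴ * φ k (a * b) * w k
          = (w k)ᴴ * (φ k a * φ k b - φ k (a * b)) * w k := by
        simp only [Matrix.mul_sub, Matrix.sub_mul, Matrix.mul_assoc]
        rw [← Matrix.mul_assoc (w k), (hu k).2, Matrix.one_mul]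
      have : (0:ℝ) < Fintype.card (ι k) := by exact_mod_cast hpos k
      rw [e, hfr, div_le_iff₀ this]
      exact hm k a b)
  have : ∀ᶠ k in atTop, ∀ g ∈ S,
      fr ((w k)ᴴ * φ k g * w k - ψ k g) / Fintype.card (ι k) < ε := by
    rw [Filter.eventually_all_finset]
    exact fun g _ => (hlim g).eventually_lt_const hε
  obtain ⟨k, hk⟩ := this.exists
  obtain ⟨g, hg, hlt⟩ := hno k (conjHom (w k) (hu k) (ψ k))
    (fun g => C.mul (C.mul (hw k) (hψ k g)) (C.adj (hw k)))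
  have h1 := hk g hg
  have : (0:ℝ) < Fintype.card (ι k) := by exact_mod_cast hpos k
  rw [div_lt_iff₀ this] at h1
  have e : fr (φ k g - conjHom (w k) (hu k) (ψ k) g) = fr ((w k)ᴴ * φ k g * w k - ψ k g) := by
    rw [← hfr k]
    show fr ((w k)ᴴ * (φ k g - w k * ψ k g * (w k)ᴴ) * w k) = _
    congr 1
    simp only [Matrix.mul_sub, Matrix.sub_mul, Matrix.mul_assoc, (hu k).1, Matrix.mul_one]
    rw [← Matrix.mul_assoc _ (w k) (ψ k g), (hu k).1, Matrix.one_mul]
  linarith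

lemma exists_exhaust (G : Type) [Countable G] :
    ∃ F : ℕ → Finset G, ∀ g, ∃ j₀, ∀ j ≥ j₀, g ∈ F j := by
  classical
  obtain ⟨f, hf⟩ := exists_injective_nat G
  refine ⟨fun j => (Finset.range j).preimage f hf.injOn, fun g => ⟨f g + 1, fun j hj => ?_⟩⟩
  simp; omega

lemma diag {X : ℕ → Type} (x₀ : ∀ k, X k) (P : ∀ k, ℕ → X k → Prop)
    (h : ∀ j, ∀ᶠ k in atTop, ∃ x, P k j x) :
    ∃ x : ∀ k, X k, ∀ j₀, ∀ᶠ k in atTop, ∃ j ≥ j₀, P k j (x k) := by
  classical
  have : ∀ k, ∃ x : X k, (∃ x, P k (Nat.findGreatest (fun j => ∃ x, P k j x) k) x) →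
      P k (Nat.findGreatest (fun j => ∃ x, P k j x) k) x := by
    intro k
    by_cases h : ∃ x, P k (Nat.findGreatest (fun j => ∃ x, P k j x) k) x
    · exact ⟨h.choose, fun _ => h.choose_spec⟩
    · exact ⟨x₀ k, fun h' => absurd h' h⟩
  choose x hx using this
  refine ⟨x, fun j₀ => ?_⟩
  filter_upwards [h j₀, eventually_ge_atTop j₀] with k hk hk'
  exact ⟨_, Nat.le_findGreatest hk' hk, hx k (Nat.findGreatest_spec (P := fun j => ∃ x, P k j x)
    hk' hk)⟩

theorem amalg_stable {H : Type} [Group H] [Finite H] {D : HData C H} {G₁ G₂ P : Type}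
    [Group G₁] [Group G₂] [Group P] [Countable G₁] [Countable G₂]
    {i₁ : H →* G₁} {i₂ : H →* G₂} (E₁ : GData D G₁ i₁) (E₂ : GData D G₂ i₂)
    (j₁ : G₁ →* P) (j₂ : G₂ →* P) (hj : ∀ h, j₁ (i₁ h) = j₂ (i₂ h))
    (hgen : Subgroup.closure (Set.range j₁ ∪ Set.range j₂) = ⊤)
    (hlift : ∀ (M : Type) [Monoid M] (ψ₁ : G₁ →* M) (ψ₂ : G₂ →* M),
      (∀ h, ψ₁ (i₁ h) = ψ₂ (i₂ h)) →
      ∃ ψ : P →* M, (∀ g, ψ (j₁ g) = ψ₁ g) ∧ ∀ g, ψ (j₂ g) = ψ₂ g)
    (h₁ : SStable C G₁) (h₂ : SStable C G₂) : SStable C P := by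
  intro n φ hn hφ hm
  have hn' : ∀ k, (0:ℝ) < n k := fun k => by exact_mod_cast hn k
  obtain ⟨π₁, g₁, l₁⟩ := h₁ n (fun k g => φ k (j₁ g)) hn (fun k g => hφ k _)
    (fun a b => by simpa using hm (j₁ a) (j₁ b))
  obtain ⟨π₂, g₂, l₂⟩ := h₂ n (fun k g => φ k (j₂ g)) hn (fun k g => hφ k _)
    (fun a b => by simpa using hm (j₂ a) (j₂ b))
  have tri : ∀ (A B E : ∀ k, Matrix (Fin (n k)) (Fin (n k)) ℂ),
      Tendsto (fun k => fr (A k - B k) / n k) atTop (𝓝 0) →
      Tendsto (fun k => fr (B k - E k) / n k) atTop (𝓝 0) →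
      Tendsto (fun k => fr (A k - E k) / n k) atTop (𝓝 0) := by
    intro A B E a b
    have := (a.const_mul 2).add (b.const_mul 2)
    simp only [mul_zero, add_zero] at this
    refine squeeze_zero (fun k => div_nonneg (fr_nonneg _) (hn' k).le) (fun k => ?_) this
    rw [← mul_div_assoc, ← mul_div_assoc, ← add_div]
    have := (hn' k).le
    gcongr
    exact fr_tri _ _ _
  have symm : ∀ (A B : ∀ k, Matrix (Fin (n k)) (Fin (n k)) ℂ),
      Tendsto (fun k => fr (A k - B k) / n k) atTop (𝓝 0) →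
      Tendsto (fun k => fr (B k - A k) / n k) atTop (𝓝 0) := by
    intro A B a
    simpa only [fr_sub_comm (B _)] using a
  have lH : ∀ h, Tendsto (fun k => fr (π₁ k (i₁ h) - π₂ k (i₂ h)) / n k) atTop (𝓝 0) := by
    intro h
    refine tri _ (fun k => φ k (j₁ (i₁ h))) _ (symm _ _ (l₁ _)) ?_
    simpa only [hj] using l₂ (i₂ h)
  obtain ⟨F₁, hF₁⟩ := exists_exhaust G₁
  obtain ⟨F₂, hF₂⟩ := exists_exhaust G₂
  obtain ⟨x, hx⟩ := diag
    (X := fun k => {p : (G₁ →* Matrix (Fin (n k)) (Fin (n k)) ℂ) ×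
      (G₂ →* Matrix (Fin (n k)) (Fin (n k)) ℂ) // (∀ g, C.Q (p.1 g)) ∧ (∀ g, C.Q (p.2 g)) ∧
        ∀ h, p.1 (i₁ h) = p.2 (i₂ h)})
    (fun k => ⟨(1, 1), fun _ => C.one, fun _ => C.one, fun _ => rfl⟩)
    (fun k j x => (∀ g ∈ F₁ j, fr (π₁ k g - x.1.1 g) ≤ 1 / ((j : ℝ) + 1) * n k) ∧
      ∀ g ∈ F₂ j, fr (π₂ k g - x.1.2 g) ≤ 1 / ((j : ℝ) + 1) * n k)
    (by
      intro j
      obtain ⟨δ, hδ, hk⟩ := key E₁ E₂ h₁.ustable h₂.ustable (F₁ j) (F₂ j)
        (ε := 1 / ((j : ℝ) + 1)) (by positivity)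
      have : ∀ᶠ k in atTop, ∀ h, fr (π₁ k (i₁ h) - π₂ k (i₂ h)) / n k < δ := by
        rw [Filter.eventually_all]
        exact fun h => (lH h).eventually_lt_const hδ
      filter_upwards [this] with k hk'
      obtain ⟨ψ₁, ψ₂, a1, a2, a3, a4, a5⟩ := hk (Fin (n k)) (π₁ k) (π₂ k) (g₁ k) (g₂ k) (fun h => by
        have := hk' h
        rw [div_lt_iff₀ (hn' k)] at this
        simpa using this.le)
      exact ⟨⟨(ψ₁, ψ₂), a1, a2, a3⟩, by simpa using a4, by simpa using a5⟩)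
  have conv : ∀ (a : ℕ → ℝ) (j₀ : ℕ), (∀ k, 0 ≤ a k) →
      (∀ j₁ ≥ j₀, ∀ᶠ k in atTop, ∃ j ≥ j₁, a k ≤ 1 / ((j : ℝ) + 1) * n k) →
      Tendsto (fun k => a k / n k) atTop (𝓝 0) := by
    intro a j₀ a0 ha
    rw [Metric.tendsto_nhds]
    intro ε hε
    obtain ⟨m, hm⟩ := exists_nat_one_div_lt hε
    filter_upwards [ha (max j₀ m) (le_max_left _ _)] with k ⟨j, hj, hk⟩
    rw [Real.dist_eq, sub_zero, abs_of_nonneg (div_nonneg (a0 k) (hn' k).le)]
    refine lt_of_le_of_lt ?_ hm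
    rw [div_le_iff₀ (hn' k)]
    refine hk.trans ?_
    have : (m : ℝ) ≤ j := by exact_mod_cast (le_max_right _ _).trans hj
    have := (hn' k).le
    gcongr
  have m₁ : ∀ g, Tendsto (fun k => fr (π₁ k g - (x k).1.1 g) / n k) atTop (𝓝 0) := by
    intro g
    obtain ⟨j₀, hj₀⟩ := hF₁ g
    refine conv _ j₀ (fun k => fr_nonneg _) fun j₁ hj₁ => ?_
    filter_upwards [hx j₁] with k ⟨j, hj, hk⟩
    exact ⟨j, hj, hk.1 g (hj₀ j (hj₁.trans hj))⟩
  have m₂ : ∀ g, Tendsto (fun k => fr (π₂ k g - (x k).1.2 g) / n k) atTop (𝓝 0) := by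
    intro g
    obtain ⟨j₀, hj₀⟩ := hF₂ g
    refine conv _ j₀ (fun k => fr_nonneg _) fun j₁ hj₁ => ?_
    filter_upwards [hx j₁] with k ⟨j, hj, hk⟩
    exact ⟨j, hj, hk.2 g (hj₀ j (hj₁.trans hj))⟩
  choose ψ hψ₁ hψ₂ using fun k => hlift _ (x k).1.1 (x k).1.2 (x k).2.2.2
  have hQ : ∀ k g, C.Q (ψ k g) := by
    intro k g
    have hg : g ∈ Subgroup.closure (Set.range j₁ ∪ Set.range j₂) := hgen ▸ Subgroup.mem_top g
    induction hg using Subgroup.closure_induction with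
    | mem y hy =>
      rcases hy with ⟨g, rfl⟩ | ⟨g, rfl⟩
      · rw [hψ₁]; exact (x k).2.1 g
      · rw [hψ₂]; exact (x k).2.2.1 g
    | one => rw [map_one]; exact C.one
    | mul a b _ _ ha hb => rw [map_mul]; exact C.mul ha hb
    | inv a _ ha =>
      have : ψ k a⁻¹ = (ψ k a)ᴴ := by
        rw [← Matrix.mul_one (ψ k a⁻¹), ← (C.uni ha).2, ← Matrix.mul_assoc, ← map_mul,
          inv_mul_cancel, map_one, Matrix.one_mul]
      rw [this]; exact C.adj ha
  refine ⟨ψ, hQ, fun g => ?_⟩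
  have hone : Tendsto (fun k => fr (φ k 1 - ψ k 1) / n k) atTop (𝓝 0) := by
    have := hm 1 1
    refine this.congr fun k => ?_
    rw [mul_one, map_one, ← fr_mul_left (C.uni (hφ k 1)).1 (φ k 1 - 1), Matrix.mul_sub,
      Matrix.mul_one]
  have hg : g ∈ Subgroup.closure (Set.range j₁ ∪ Set.range j₂) := hgen ▸ Subgroup.mem_top g
  induction hg using Subgroup.closure_induction with
  | mem y hy =>
    rcases hy with ⟨g, rfl⟩ | ⟨g, rfl⟩
    · simp only [hψ₁]; exact tri _ _ _ (l₁ g) (m₁ g)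
    · simp only [hψ₂]; exact tri _ _ _ (l₂ g) (m₂ g)
  | one => exact hone
  | mul a b _ _ ha hb =>
    refine tri _ (fun k => φ k a * φ k b) _ (symm _ _ (hm a b)) ?_
    refine tri _ (fun k => φ k a * ψ k b) _ (hb.congr fun k => ?_) (ha.congr fun k => ?_)
    · rw [← Matrix.mul_sub, fr_mul_left (C.uni (hφ k a)).1]
    · rw [map_mul, ← Matrix.sub_mul, fr_mul_right (C.uni (hQ k b)).2]
  | inv a _ ha =>
    have t1 : Tendsto (fun k => fr (φ k a * φ k a⁻¹ - ψ k 1) / n k) atTop (𝓝 0) :=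
      tri _ (fun k => φ k 1) _ (by simpa using hm a a⁻¹) hone
    have t2 : Tendsto (fun k => fr (ψ k 1 - φ k a * ψ k a⁻¹) / n k) atTop (𝓝 0) := by
      refine (symm _ _ ha).congr fun k => ?_
      rw [← mul_inv_cancel a, map_mul, ← Matrix.sub_mul, fr_mul_right (C.uni (hQ k a⁻¹)).2]
    refine (tri _ _ _ t1 t2).congr fun k => ?_
    rw [← Matrix.mul_sub, fr_mul_left (C.uni (hφ k a)).1]

/-- Dietzmann's lemma -/
lemma exists_finite_normal {G : Type} [Group G] (K : Subgroup G) [Finite K]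
    (h : {L : Subgroup G | ∃ g : G, L = K.map (MulAut.conj g).toMonoidHom}.Finite) :
    ∃ N : Subgroup G, N.Normal ∧ Finite N ∧ K ≤ N := by
  classical
  let S : Set G := Group.conjugatesOfSet (K : Set G)
  have hS : S.Finite := by
    refine (h.biUnion (t := fun L => (L : Set G)) ?_).subset ?_
    · rintro L ⟨g, rfl⟩
      rw [Subgroup.coe_map]
      exact (Set.toFinite (K : Set G)).image _
    · intro x hx
      obtain ⟨a, ha, hc⟩ := Group.mem_conjugatesOfSet_iff.1 hx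
      obtain ⟨g, rfl⟩ := isConj_iff.1 hc
      simp only [Set.mem_iUnion]
      exact ⟨_, ⟨g, rfl⟩, a, ha, rfl⟩
  refine ⟨Subgroup.normalClosure K, inferInstance, ?_, Subgroup.subset_normalClosure⟩
  show Finite (Subgroup.closure S)
  set N := Subgroup.closure S with hN
  have hconj : ∀ (g : G), ∀ s ∈ S, g * s * g⁻¹ ∈ S := fun g s hs =>
    Group.conj_mem_conjugatesOfSet hs
  have := hS.to_subtype
  let f : N → (S → S) := fun x s => ⟨x * s * (x : G)⁻¹, hconj _ _ s.2⟩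
  have hf : ∀ x y : N, f x = f y → ∀ z : N, x * z * x⁻¹ = y * z * y⁻¹ := by
    intro x y hxy z
    have : ∀ z ∈ N, (x : G) * z * (x : G)⁻¹ = y * z * (y : G)⁻¹ := by
      intro z hz
      induction hz using Subgroup.closure_induction with
      | mem s hs => exact congrArg Subtype.val (congrFun hxy ⟨s, hs⟩)
      | one => simp
      | mul a b _ _ ha hb =>
        calc _ = ((x : G) * a * (x : G)⁻¹) * ((x : G) * b * (x : G)⁻¹) := by group
          _ = _ := by rw [ha, hb]; group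
      | inv a _ ha =>
        calc _ = ((x : G) * a * (x : G)⁻¹)⁻¹ := by group
          _ = _ := by rw [ha]; group
    exact Subtype.ext (this z z.2)
  have hcs : Finite (commutatorSet N) := by
    let r : (S → S) → N := fun u => if h : ∃ x, f x = u then h.choose else 1
    have hr : ∀ x, f (r (f x)) = f x := by
      intro x
      have h : ∃ y, f y = f x := ⟨x, rfl⟩
      simp only [r, dif_pos h]; exact h.choose_spec
    refine Set.Finite.subset (Set.finite_range fun p : (S → S) × (S → S) => ⁅r p.1, r p.2⁆) ?_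
    rintro _ ⟨a, b, rfl⟩
    refine ⟨(f a, f b), ?_⟩
    simp only [commutatorElement_def]
    have h1 := hf _ _ (hr a) (r (f b))
    have h2 := hf _ _ (hr b) a⁻¹
    calc _ = a * (r (f b) * a⁻¹ * (r (f b))⁻¹) := by rw [h1]; group
      _ = _ := by rw [h2]; group
  have hfg : Group.FG N := Group.closure_finite_fg S
  have hc : Finite (commutator N) := inferInstance
  have hab : Finite (Abelianization N) := by
    have : Group.FG (Abelianization N) :=
      Group.fg_of_surjective (f := Abelianization.of) QuotientGroup.mk_surjective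
    apply CommGroup.finite_of_fg_isMulTorsion
    intro y
    obtain ⟨⟨z, hz⟩, rfl⟩ := QuotientGroup.mk_surjective y
    show (Abelianization.of ⟨z, hz⟩ : Abelianization N) ∈ CommGroup.torsion _
    induction hz using Subgroup.closure_induction with
    | mem s hs =>
      obtain ⟨a, ha, hc⟩ := Group.mem_conjugatesOfSet_iff.1 hs
      have h1 : IsOfFinOrder a :=
        K.subtype.isOfFinOrder (isOfFinOrder_of_finite (⟨a, ha⟩ : K))
      obtain ⟨g, rfl⟩ := isConj_iff.1 hc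
      have h2 : IsOfFinOrder (g * a * g⁻¹) := (MulAut.conj g).toMonoidHom.isOfFinOrder h1
      apply MonoidHom.isOfFinOrder
      exact (Subgroup.subtype_injective N).isOfFinOrder_iff.1 h2
    | one => exact (map_one (Abelianization.of (G := N))).symm ▸ Subgroup.one_mem _
    | mul a b ha' hb' ha hb =>
      have := Subgroup.mul_mem _ ha hb
      rwa [← map_mul] at this
    | inv a ha' ha =>
      have := Subgroup.inv_mem _ ha
      rwa [← map_inv] at this
  have : Finite (N ⧸ commutator N) := hab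
  exact Finite.of_equiv _ (Subgroup.groupEquivQuotientProdSubgroup (s := commutator N)).symm

end
end Pool.Agent.H72.Stab
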