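import Mathlib
import Pool.Agent.H72.StabD

namespace Pool.Agent.H72.Stab
open Matrix Filter Topology

noncomputable section

lemma lattice_cost {T : Type} [Fintype T] (Λ : AddSubgroup (T → ℝ)) {c : ℝ} (hc : 0 < c)
    (hsep : ∀ x ∈ Λ, x ≠ 0 → c ≤ ‖x‖) (R : (T → ℝ) → ℝ → Prop) (R0 : R 0 0)
    (Radd : ∀ x y r s, R x r → R y s → R (x + y) (r + s))
    (Rmono : ∀ x r s, R x r → r ≤ s → R x s) (hR : ∀ x ∈ Λ, ∃ r, R x r) :
    ∃ K > 0, ∀ x ∈ Λ, R x (K * ‖x‖) := by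
  classical
  have hfin : ∀ B : ℝ, (Metric.closedBall (0 : T → ℝ) B ∩ Λ).Finite := by
    intro B
    obtain ⟨t, ht, hs⟩ := Metric.totallyBounded_iff.1
      (isCompact_closedBall (0 : T → ℝ) B).totallyBounded (c / 2) (by positivity)
    refine (ht.biUnion (t := fun y => Metric.ball y (c / 2) ∩ Λ) fun y _ => ?_).subset ?_
    · refine Set.Subsingleton.finite fun a ha b hb => ?_
      by_contra hne
      have h1 := hsep _ (Λ.sub_mem ha.2 hb.2) (sub_ne_zero.2 hne)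
      have h2 := dist_triangle_right a b y
      have h3 : dist a y < c / 2 := ha.1
      have h4 : dist b y < c / 2 := hb.1
      rw [← dist_eq_norm] at h1
      linarith
    · intro x hx
      obtain ⟨y, hy, hxy⟩ := Set.mem_iUnion₂.1 (hs hx.1)
      exact Set.mem_iUnion₂.2 ⟨y, hy, hxy, hx.2⟩
  have hbd : ∀ B : ℝ, ∃ M ≥ 0, ∀ x ∈ Λ, ‖x‖ ≤ B → R x M := by
    intro B
    choose! r hr using hR
    obtain ⟨M, hM⟩ := ((hfin B).image r).bddAbove
    refine ⟨max M 0, le_max_right _ _, fun x hx hB => Rmono _ _ _ (hr x hx) ?_⟩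
    exact (hM ⟨x, ⟨by simpa using hB, hx⟩, rfl⟩).trans (le_max_left _ _)
  obtain ⟨b, hbΛ, hspan, hli⟩ := exists_linearIndependent ℝ (Λ : Set (T → ℝ))
  have hbf : b.Finite := hli.setFinite
  have := hbf.fintype
  obtain ⟨g, hg⟩ := LinearMap.exists_extend (p := Submodule.span ℝ (Set.range ((↑) : b → T → ℝ)))
    hli.repr
  let f : b → (T → ℝ) →L[ℝ] ℝ := fun j =>
    LinearMap.toContinuousLinearMap ((Finsupp.lapply j).comp g)
  have hx : ∀ x ∈ Λ, x = ∑ j : b, f j x • (j : T → ℝ) := by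
    intro x hx
    have hm : x ∈ Submodule.span ℝ (Set.range ((↑) : b → T → ℝ)) := by
      rw [Subtype.range_coe, hspan]; exact Submodule.subset_span hx
    have h1 := hli.linearCombination_repr ⟨x, hm⟩
    have h2 : g x = hli.repr ⟨x, hm⟩ := by rw [← hg]; rfl
    rw [Finsupp.linearCombination_apply, Finsupp.sum_fintype _ _ (by simp)] at h1
    simp only [f, LinearMap.coe_toContinuousLinearMap', LinearMap.comp_apply, Finsupp.lapply_apply,
      h2]
    exact h1.symm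
  obtain ⟨M, hM0, hM⟩ := hbd (∑ j : b, ‖(j : T → ℝ)‖)
  have hnat : ∀ (v : T → ℝ), R v M → ∀ n : ℕ, R (n • v) (n * M) := by
    intro v hv n
    induction n with
    | zero => simpa using R0
    | succ n ih => rw [succ_nsmul]; push_cast; rw [add_mul, one_mul]; exact Radd _ _ _ _ ih hv
  have hle : ∀ j : b, ‖(j : T → ℝ)‖ ≤ ∑ j : b, ‖(j : T → ℝ)‖ := fun j =>
    Finset.single_le_sum (f := fun j : b => ‖(j : T → ℝ)‖) (fun _ _ => norm_nonneg _)
      (Finset.mem_univ j)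
  have hint : ∀ (j : b) (n : ℤ), R (n • (j : T → ℝ)) (|(n : ℝ)| * M) := by
    intro j n
    obtain ⟨m, rfl | rfl⟩ := Int.eq_nat_or_neg n
    · simpa using hnat _ (hM _ (hbΛ j.2) (hle j)) m
    · simpa using hnat _ (hM _ (Λ.neg_mem (hbΛ j.2)) (by simpa using hle j)) m
  have hsum : ∀ (n : b → ℤ) (A : Finset b),
      R (∑ j ∈ A, n j • (j : T → ℝ)) (∑ j ∈ A, |(n j : ℝ)| * M) := by
    intro n A
    induction A using Finset.induction_on with
    | empty => simpa using R0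
    | insert j A hj ih => rw [Finset.sum_insert hj, Finset.sum_insert hj]; exact Radd _ _ _ _ (hint j _) ih
  refine ⟨(∑ j : b, (‖f j‖ + 1 / c)) * M + M / c + 1, by positivity, fun x hxΛ => ?_⟩
  by_cases h0 : x = 0
  · simpa [h0] using R0
  have hcx := hsep x hxΛ h0
  have hcx' : 1 ≤ 1 / c * ‖x‖ := by rw [div_mul_eq_mul_div, one_mul, le_div_iff₀ hc]; linarith
  set y := ∑ j : b, ⌊f j x⌋ • (j : T → ℝ) with hy
  have hyΛ : y ∈ Λ := Λ.sum_mem fun j _ => Λ.zsmul_mem (hbΛ j.2) _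
  have h1 : ‖x - y‖ ≤ ∑ j : b, ‖(j : T → ℝ)‖ := by
    conv_lhs => rw [hx x hxΛ, hy, ← Finset.sum_sub_distrib]
    refine (norm_sum_le _ _).trans (Finset.sum_le_sum fun j _ => ?_)
    rw [← Int.cast_smul_eq_zsmul ℝ, ← sub_smul, norm_smul, Real.norm_eq_abs]
    have a1 := Int.floor_le (f j x)
    have a2 := Int.lt_floor_add_one (f j x)
    have : |f j x - ⌊f j x⌋| ≤ 1 := abs_le.2 ⟨by linarith, by linarith⟩
    nlinarith [norm_nonneg (j : T → ℝ)]
  have h2 := Radd _ _ _ _ (hsum (fun j => ⌊f j x⌋) Finset.univ) (hM _ (Λ.sub_mem hxΛ hyΛ) h1)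
  rw [← hy, add_sub_cancel] at h2
  refine Rmono _ _ _ h2 ?_
  have h3 : ∑ j : b, |((⌊f j x⌋ : ℤ) : ℝ)| * M ≤ (∑ j : b, (‖f j‖ + 1 / c)) * M * ‖x‖ := by
    rw [Finset.sum_mul, Finset.sum_mul]
    refine Finset.sum_le_sum fun j _ => ?_
    have a1 := Int.floor_le (f j x)
    have a2 := Int.lt_floor_add_one (f j x)
    have a3 := (f j).le_opNorm x
    rw [Real.norm_eq_abs] at a3
    have a4 := abs_le.1 a3
    have : |((⌊f j x⌋ : ℤ) : ℝ)| ≤ (‖f j‖ + 1 / c) * ‖x‖ := by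
      rw [add_mul]; exact abs_le.2 ⟨by linarith, by linarith⟩
    calc _ ≤ (‖f j‖ + 1 / c) * ‖x‖ * M := by gcongr
      _ = _ := by ring
  have h4 : M ≤ M / c * ‖x‖ := by
    calc M = M * 1 := (mul_one _).symm
      _ ≤ M * (1 / c * ‖x‖) := by gcongr
      _ = _ := by ring
  have := norm_nonneg x
  nlinarith

variable {C : Cls}

/-- a matrix together with an identity block -/
abbrev blk {ι : Type} (A : Matrix ι ι ℂ) (β : Type) [DecidableEq β] :
    Matrix (ι ⊕ β) (ι ⊕ β) ℂ := fromBlocks A 0 0 1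

section
variable {ι κ β : Type} [Fintype ι] [DecidableEq ι] [Fintype κ] [DecidableEq κ]
  [Fintype β] [DecidableEq β]

omit [DecidableEq ι] [DecidableEq κ] in
lemma fr_diag_sub (A B : Matrix ι ι ℂ) (X Y : Matrix κ κ ℂ) :
    fr (fromBlocks A 0 0 X - fromBlocks B 0 0 Y) = fr (A - B) + fr (X - Y) := by
  have : fromBlocks A 0 0 X - fromBlocks B 0 0 Y = fromBlocks (A - B) 0 0 (X - Y) := by
    ext (i | i) (j | j) <;> simp
  rw [this, fr_blocks]; simp [fr_zero]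

omit [DecidableEq ι] in
lemma fr_blk_sub (A B : Matrix ι ι ℂ) : fr (blk A β - blk B β) = fr (A - B) := by
  rw [fr_diag_sub]; simp [fr_zero]

omit [DecidableEq ι] [DecidableEq κ] in
lemma fr_submatrix (A : Matrix ι ι ℂ) (e : κ ≃ ι) : fr (A.submatrix e e) = fr A := by
  unfold fr
  rw [← Equiv.sum_comp e]
  refine Finset.sum_congr rfl fun i _ => ?_
  rw [← Equiv.sum_comp e (fun j => ‖A (e i) j‖ ^ 2)]; rfl

lemma Cls.submatrix {A : Matrix ι ι ℂ} (h : C.Q A) (e : κ ≃ ι) : C.Q (A.submatrix e e) := by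
  have := C.mul (C.mul (C.eqv e.symm) h) (C.eqv e)
  rwa [pm_mul', mul_pm] at this

lemma fr_Q_sub {A B : Matrix ι κ ℂ} (hA : C.Q A) (hB : C.Q B) :
    fr (A - B) ≤ 4 * Fintype.card κ := by
  have := fr_sub_le A B
  rw [fr_iso (C.uni hA).1, fr_iso (C.uni hB).1] at this
  linarith

/-- reindexing a homomorphism -/
def rx {G : Type} [Group G] (ψ : G →* Matrix ι ι ℂ) (e : κ ≃ ι) : G →* Matrix κ κ ℂ where
  toFun g := (ψ g).submatrix e e
  map_one' := by simp
  map_mul' a b := by rw [map_mul, submatrix_mul_equiv]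

lemma Cls.of_gen {G A : Type} [Group G] {a : A → G} (ha : Subgroup.closure (Set.range a) = ⊤)
    (ψ : G →* Matrix ι ι ℂ) (h : ∀ x, C.Q (ψ (a x))) (g : G) : C.Q (ψ g) := by
  have hg : g ∈ Subgroup.closure (Set.range a) := ha ▸ Subgroup.mem_top g
  induction hg using Subgroup.closure_induction with
  | mem y hy => obtain ⟨x, rfl⟩ := hy; exact h x
  | one => rw [map_one]; exact C.one
  | mul a b _ _ ha hb => rw [map_mul]; exact C.mul ha hb
  | inv a _ ha =>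
    have : ψ a⁻¹ = (ψ a)ᴴ := by
      rw [← Matrix.mul_one (ψ a⁻¹), ← (C.uni ha).2, ← Matrix.mul_assoc, ← map_mul,
        inv_mul_cancel, map_one, Matrix.one_mul]
    rw [this]; exact C.adj ha

end

/-- closeness on generators propagates -/
lemma propagate {G A : Type} [Group G] {a : A → G} (ha : Subgroup.closure (Set.range a) = ⊤)
    (S : Finset G) : ∀ ε > 0, ∃ (S' : Finset A) (T : Finset G), ∃ δ > 0,
      ∀ (ι : Type) [Fintype ι] [DecidableEq ι] (φ : G → Matrix ι ι ℂ) (ψ : G →* Matrix ι ι ℂ)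
        (N : ℝ), 0 ≤ N → (∀ g, C.Q (φ g)) → (∀ g, C.Q (ψ g)) →
        (∀ x ∈ T, ∀ y ∈ T, fr (φ x * φ y - φ (x * y)) ≤ δ * N) →
        (∀ x ∈ S', fr (φ (a x) - ψ (a x)) ≤ δ * N) → ∀ g ∈ S, fr (φ g - ψ g) ≤ ε * N := by
  classical
  let P : G → Prop := fun g => ∀ ε > 0, ∃ (S' : Finset A) (T : Finset G), ∃ δ > 0,
      ∀ (ι : Type) [Fintype ι] [DecidableEq ι] (φ : G → Matrix ι ι ℂ) (ψ : G →* Matrix ι ι ℂ)
        (N : ℝ), 0 ≤ N → (∀ g, C.Q (φ g)) → (∀ g, C.Q (ψ g)) →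
        (∀ x ∈ T, ∀ y ∈ T, fr (φ x * φ y - φ (x * y)) ≤ δ * N) →
        (∀ x ∈ S', fr (φ (a x) - ψ (a x)) ≤ δ * N) → fr (φ g - ψ g) ≤ ε * N
  have one : ∀ (ι : Type) [Fintype ι] [DecidableEq ι] (φ : G → Matrix ι ι ℂ),
      (∀ g, C.Q (φ g)) → fr (φ 1 - 1) = fr (φ 1 * φ 1 - φ (1 * 1)) := by
    intro ι _ _ φ hφ
    rw [mul_one, ← fr_mul_left (C.uni (hφ 1)).1 (φ 1 - 1), Matrix.mul_sub, Matrix.mul_one]
  have hP : ∀ g, P g := by
    intro g
    have hg : g ∈ Subgroup.closure (Set.range a) := ha ▸ Subgroup.mem_top g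
    induction hg using Subgroup.closure_induction with
    | mem y hy =>
      obtain ⟨x, rfl⟩ := hy
      exact fun ε hε => ⟨{x}, ∅, ε, hε, fun ι _ _ φ ψ N _ _ _ _ h => h x (by simp)⟩
    | one =>
      refine fun ε hε => ⟨∅, {1}, ε, hε, fun ι _ _ φ ψ N _ hφ _ h _ => ?_⟩
      rw [map_one, one ι φ hφ]; exact h 1 (by simp) 1 (by simp)
    | mul x y _ _ hx hy =>
      intro ε hε
      obtain ⟨S1, T1, δ1, h1, p1⟩ := hx (ε / 10) (by positivity)
      obtain ⟨S2, T2, δ2, h2, p2⟩ := hy (ε / 10) (by positivity)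
      refine ⟨S1 ∪ S2, T1 ∪ T2 ∪ {x, y}, min (min δ1 δ2) (ε / 10), by positivity,
        fun ι _ _ φ ψ N hN hφ hψ hm hs => ?_⟩
      have e1 : min (min δ1 δ2) (ε / 10) * N ≤ δ1 * N := by
        gcongr; exact (min_le_left _ _).trans (min_le_left _ _)
      have e2 : min (min δ1 δ2) (ε / 10) * N ≤ δ2 * N := by
        gcongr; exact (min_le_left _ _).trans (min_le_right _ _)
      have e3 : min (min δ1 δ2) (ε / 10) * N ≤ ε / 10 * N := by gcongr; exact min_le_right _ _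
      have a1 := p1 ι φ ψ N hN hφ hψ
        (fun u hu v hv => (hm u (by simp [hu]) v (by simp [hv])).trans e1)
        (fun u hu => (hs u (by simp [hu])).trans e1)
      have a2 := p2 ι φ ψ N hN hφ hψ
        (fun u hu v hv => (hm u (by simp [hu]) v (by simp [hv])).trans e2)
        (fun u hu => (hs u (by simp [hu])).trans e2)
      have a3 := (hm x (by simp) y (by simp)).trans e3
      have t1 := fr_tri (φ (x * y)) (φ x * φ y) (ψ (x * y))
      have t2 := fr_tri (φ x * φ y) (φ x * ψ y) (ψ (x * y))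
      rw [← Matrix.mul_sub, fr_mul_left (C.uni (hφ x)).1, map_mul ψ, ← Matrix.sub_mul,
        fr_mul_right (C.uni (hψ y)).2, ← map_mul ψ] at t2
      rw [fr_sub_comm] at a3
      linarith
    | inv x _ hx =>
      intro ε hε
      obtain ⟨S1, T1, δ1, h1, p1⟩ := hx (ε / 10) (by positivity)
      refine ⟨S1, T1 ∪ {x, x⁻¹, 1}, min δ1 (ε / 10), by positivity,
        fun ι _ _ φ ψ N hN hφ hψ hm hs => ?_⟩
      have e1 : min δ1 (ε / 10) * N ≤ δ1 * N := by gcongr; exact min_le_left _ _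
      have e3 : min δ1 (ε / 10) * N ≤ ε / 10 * N := by gcongr; exact min_le_right _ _
      have a1 := p1 ι φ ψ N hN hφ hψ
        (fun u hu v hv => (hm u (by simp [hu]) v (by simp [hv])).trans e1)
        (fun u hu => (hs u hu).trans e1)
      have a3 := (hm x (by simp) x⁻¹ (by simp)).trans e3
      have a4 := (hm 1 (by simp) 1 (by simp)).trans e3
      rw [← one ι φ hφ] at a4
      rw [mul_inv_cancel] at a3
      have t1 := fr_tri (φ x * φ x⁻¹) 1 (φ x * ψ x⁻¹)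
      have t2 := fr_tri (φ x * φ x⁻¹) (φ 1) 1
      have t3 : fr (1 - φ x * ψ x⁻¹) = fr (φ x - ψ x) := by
        rw [← map_one ψ, ← mul_inv_cancel x, map_mul, ← Matrix.sub_mul,
          fr_mul_right (C.uni (hψ x⁻¹)).2, fr_sub_comm]
      rw [← Matrix.mul_sub, fr_mul_left (C.uni (hφ x)).1] at t1
      linarith
  intro ε hε
  choose S' T δ hδ hp using fun g => hP g ε hε
  by_cases hS : S.Nonempty
  · refine ⟨S.biUnion S', S.biUnion T, S.inf' hS δ, by simpa using fun g _ => hδ g,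
      fun ι _ _ φ ψ N hN hφ hψ hm hs g hg => ?_⟩
    have e1 : S.inf' hS δ * N ≤ δ g * N := by gcongr; exact Finset.inf'_le _ hg
    exact hp g ι φ ψ N hN hφ hψ
      (fun u hu v hv => (hm u (Finset.mem_biUnion.2 ⟨g, hg, hu⟩) v
        (Finset.mem_biUnion.2 ⟨g, hg, hv⟩)).trans e1)
      (fun u hu => (hs u (Finset.mem_biUnion.2 ⟨g, hg, hu⟩)).trans e1)
  · exact ⟨∅, ∅, 1, one_pos, fun ι _ _ φ ψ N _ _ _ _ _ g hg => absurd ⟨g, hg⟩ hS⟩

end
end Pool.Agent.H72.Stab
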