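import Mathlib
import Pool.Agent.H72.StabF

namespace Pool.Agent.H72.Stab
open Matrix Filter Topology

noncomputable section
variable {C : Cls}

/-- flexible stability, finitary form for arbitrary maps -/
def UF (C : Cls) (G : Type) [Group G] : Prop :=
  ∀ (S : Finset G) (ε : ℝ), 0 < ε → ∃ T : Finset G, ∃ δ > 0, ∀ n : ℕ, 0 < n →
    ∀ φ : G → Matrix (Fin n) (Fin n) ℂ, (∀ g, C.Q (φ g)) →
    (∀ a ∈ T, ∀ b ∈ T, fr (φ a * φ b - φ (a * b)) ≤ δ * n) →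
    ∃ (β : Type) (_ : Fintype β) (_ : DecidableEq β)
      (ψ : G →* Matrix (Fin n ⊕ β) (Fin n ⊕ β) ℂ), (∀ g, C.Q (ψ g)) ∧
      (Fintype.card β : ℝ) ≤ ε * n ∧ ∀ g ∈ S, fr (blk (φ g) β - ψ g) ≤ ε * n

/-- flexible stability, form with a free group -/
def MFlex (C : Cls) {G σ : Type} [Group G] (s : σ → G) : Prop :=
  ∀ ε : ℝ, 0 < ε → ∃ δ > 0, ∃ E : Finset (FreeGroup σ), (∀ e ∈ E, FreeGroup.lift s e = 1) ∧
    ∀ n : ℕ, 0 < n → ∀ Φ : FreeGroup σ →* Matrix (Fin n) (Fin n) ℂ, (∀ g, C.Q (Φ g)) →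
    (∀ e ∈ E, fr (Φ e - 1) ≤ δ * n) →
    ∃ (m : ℕ) (ψ : G →* Matrix (Fin n ⊕ Fin m) (Fin n ⊕ Fin m) ℂ), (∀ g, C.Q (ψ g)) ∧
      (m : ℝ) ≤ ε * n ∧ ∀ x, fr (blk (Φ (FreeGroup.of x)) (Fin m) - ψ (s x)) ≤ ε * n

variable {G : Type} [Group G]

lemma SStable.uf [Countable G] (h : SStable C G) : UF C G := by
  intro S ε hε
  by_contra hcon
  push Not at hcon
  obtain ⟨F, hF⟩ := exists_exhaust G
  choose n hn φ hφ hm hno using fun k : ℕ => hcon (F k) (1 / ((k : ℝ) + 1)) (by positivity)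
  have hn' : ∀ k, (0:ℝ) < n k := fun k => by exact_mod_cast hn k
  obtain ⟨ψ, hψ, hlim⟩ := h n φ hn hφ (by
    intro a b
    obtain ⟨ja, ha⟩ := hF a
    obtain ⟨jb, hb⟩ := hF b
    refine squeeze_zero' (Eventually.of_forall fun k => div_nonneg (fr_nonneg _) (hn' k).le) ?_
      tendsto_one_div_add_atTop_nhds_zero_nat
    filter_upwards [eventually_ge_atTop ja, eventually_ge_atTop jb] with k h1 h2
    rw [div_le_iff₀ (hn' k)]
    exact hm k a (ha k h1) b (hb k h2))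
  have : ∀ᶠ k in atTop, ∀ g ∈ S, fr (φ k g - ψ k g) / n k < ε := by
    rw [Filter.eventually_all_finset]
    exact fun g _ => (hlim g).eventually_lt_const hε
  obtain ⟨k, hk⟩ := this.exists
  obtain ⟨g, hg, hlt⟩ := hno k Empty inferInstance inferInstance (bsum (ψ k) 1)
    (fun g => C.blk (hψ k g) C.one) (by have := hn' k; simp; positivity)
  have h1 := hk g hg
  rw [div_lt_iff₀ (hn' k)] at h1
  have e : fr (blk (φ k g) Empty - bsum (ψ k) (1 : G →* Matrix Empty Empty ℂ) g)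
      = fr (φ k g - ψ k g) := fr_blk_sub _ _
  linarith

lemma fr_blk_mul {ι β : Type} [Fintype ι] [DecidableEq ι] [Fintype β] [DecidableEq β]
    (A B D : Matrix ι ι ℂ) : fr (blk A β * blk B β - blk D β) = fr (A * B - D) := by
  rw [← fr_blk_sub (β := β) (A * B), fromBlocks_multiply]; simp

lemma MFlex.uf {σ : Type} {s : σ → G} (hs : Subgroup.closure (Set.range s) = ⊤)
    (h : MFlex C s) : UF C G := by
  classical
  intro S ε hε
  obtain ⟨S', T, δ, hδ, hp⟩ := propagate (C := C) hs S ε hε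
  obtain ⟨δ1, hδ1, E, hE, hF⟩ := h (min δ ε) (by positivity)
  obtain ⟨S2, T2, δ2, hδ2, hq⟩ := propagate (C := C) (FreeGroup.closure_range_of σ) E (δ1 / 4)
    (by positivity)
  refine ⟨T ∪ T2.image (FreeGroup.lift s) ∪ {1}, min (min δ δ2) (δ1 / 4), by positivity,
    fun n hn φ hφ hm => ?_⟩
  have hN : (0:ℝ) ≤ n := Nat.cast_nonneg _
  have e1 : min (min δ δ2) (δ1 / 4) * n ≤ δ * n := by
    gcongr; exact (min_le_left _ _).trans (min_le_left _ _)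
  have e2 : min (min δ δ2) (δ1 / 4) * n ≤ δ2 * n := by
    gcongr; exact (min_le_left _ _).trans (min_le_right _ _)
  have e3 : min (min δ δ2) (δ1 / 4) * n ≤ δ1 / 4 * n := by gcongr; exact min_le_right _ _
  let u : σ → (Matrix (Fin n) (Fin n) ℂ)ˣ := fun x =>
    ⟨φ (s x), (φ (s x))ᴴ, (C.uni (hφ _)).2, (C.uni (hφ _)).1⟩
  let Φ : FreeGroup σ →* Matrix (Fin n) (Fin n) ℂ := (Units.coeHom _).comp (FreeGroup.lift u)
  have hΦ0 : ∀ x, Φ (FreeGroup.of x) = φ (s x) := fun x => by simp [Φ, u]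
  have hΦ : ∀ g, C.Q (Φ g) := C.of_gen (FreeGroup.closure_range_of σ) Φ
    (fun x => by rw [hΦ0]; exact hφ _)
  have h1 := hq (Fin n) (fun w => φ (FreeGroup.lift s w)) Φ n hN (fun _ => hφ _) hΦ
    (fun x hx y hy => by
      rw [map_mul]
      exact (hm _ (by simp only [Finset.mem_union, Finset.mem_image]; exact .inl (.inr ⟨x, hx, rfl⟩))
        _ (by simp only [Finset.mem_union, Finset.mem_image]; exact .inl (.inr ⟨y, hy, rfl⟩))).trans e2)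
    (fun x _ => by rw [hΦ0]; simp [fr_zero]; positivity)
  obtain ⟨m, ψ, hψ, hmn, hc⟩ := hF n hn Φ hΦ (fun e he => by
    have a1 := h1 e he
    have a2 := (hm 1 (by simp) 1 (by simp)).trans e3
    simp only [hE e he] at a1
    have a3 : fr (φ 1 - 1) = fr (φ 1 * φ 1 - φ (1 * 1)) := by
      rw [mul_one, ← fr_mul_left (C.uni (hφ 1)).1 (φ 1 - 1), Matrix.mul_sub, Matrix.mul_one]
    have := fr_tri (Φ e) (φ 1) 1
    rw [fr_sub_comm] at a1
    linarith)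
  refine ⟨Fin m, inferInstance, inferInstance, ψ, hψ, ?_, ?_⟩
  · rw [Fintype.card_fin]; exact hmn.trans (by gcongr; exact min_le_right _ _)
  · refine hp _ (fun g => blk (φ g) (Fin m)) ψ n hN (fun g => C.blk (hφ g) C.one) hψ
      (fun x hx y hy => ?_) (fun x _ => ?_)
    · rw [fr_blk_mul]; exact (hm x (by simp [hx]) y (by simp [hy])).trans e1
    · rw [← hΦ0]; exact (hc x).trans (by gcongr; exact min_le_left _ _)

lemma UF.mflex {σ : Type} [Fintype σ] {s : σ → G} (hs : Subgroup.closure (Set.range s) = ⊤)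
    (h : UF C G) : MFlex C s := by
  classical
  intro ε hε
  have hsurj : Function.Surjective (FreeGroup.lift s) := by
    rw [← MonoidHom.range_eq_top, FreeGroup.range_lift_eq_closure, hs]
  choose t ht using hsurj
  obtain ⟨T, δ, hδ, hp⟩ := h (Finset.univ.image s) (ε / 4) (by positivity)
  refine ⟨min δ (ε / 4), by positivity,
    (T ×ˢ T).image (fun p => t p.1 * t p.2 * (t (p.1 * p.2))⁻¹) ∪
      Finset.univ.image (fun x => FreeGroup.of x * (t (s x))⁻¹), ?_, fun n hn Φ hΦ hE => ?_⟩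
  · intro e he
    simp only [Finset.mem_union, Finset.mem_image] at he
    rcases he with ⟨p, -, rfl⟩ | ⟨x, -, rfl⟩ <;> simp [ht]
  have hN : (0:ℝ) ≤ n := Nat.cast_nonneg _
  have key : ∀ a b, fr (Φ (a * b⁻¹) - 1) = fr (Φ a - Φ b) := by
    intro a b
    rw [← fr_mul_right (C.uni (hΦ b)).2, Matrix.sub_mul, ← map_mul, inv_mul_cancel_right,
      Matrix.one_mul]
  obtain ⟨β, _, _, ψ, hψ, hβ, hc⟩ := hp n hn (fun g => Φ (t g)) (fun _ => hΦ _) (fun a ha b hb => by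
    have := hE (t a * t b * (t (a * b))⁻¹) (Finset.mem_union_left _
      (Finset.mem_image.2 ⟨(a, b), Finset.mem_product.2 ⟨ha, hb⟩, rfl⟩))
    rw [key, map_mul] at this
    exact this.trans (by gcongr; exact min_le_left _ _))
  let e : Fin n ⊕ Fin (Fintype.card β) ≃ Fin n ⊕ β :=
    Equiv.sumCongr (Equiv.refl _) (Fintype.equivFin β).symm
  refine ⟨Fintype.card β, rx ψ e, fun g => (C.submatrix (hψ g) e), hβ.trans (by nlinarith),
    fun x => ?_⟩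
  have a1 : blk (Φ (FreeGroup.of x)) (Fin (Fintype.card β)) - rx ψ e (s x)
      = (blk (Φ (FreeGroup.of x)) β - ψ (s x)).submatrix e e := by
    ext (i | i) (j | j) <;> simp [e, rx, one_apply]
  rw [a1, fr_submatrix]
  have a2 := hc (s x) (by simp)
  have a3 := hE (FreeGroup.of x * (t (s x))⁻¹) (Finset.mem_union_right _
      (Finset.mem_image.2 ⟨x, Finset.mem_univ _, rfl⟩))
  rw [key] at a3
  have a4 : min δ (ε / 4) * n ≤ ε / 4 * n := by gcongr; exact min_le_right _ _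
  have := fr_tri (blk (Φ (FreeGroup.of x)) β) (blk (Φ (t (s x))) β) (ψ (s x))
  rw [fr_blk_sub] at this
  linarith

section amalg
variable {H : Type} [Group H] (D : HData C H)

/-- type together with the size -/
def HData.ty (ρ : Rep C H) : Option D.T → ℝ := fun t => t.elim ρ.card (D.τ ρ)

variable {G₁ G₂ : Type} [Group G₁] [Group G₂] (i₁ : H →* G₁) (i₂ : H →* G₂)

lemma match_types [Finite H] (hadd : ∀ ρ σ : Rep C H, D.τ (ρ.sum σ) = D.τ ρ + D.τ σ)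
    (hint : ∀ ρ σ : Rep C H, ∃ z : ℤ, ∑ t, D.τ ρ t * D.τ σ t = z)
    (habs : ∀ (ρ₁ : Rep C G₁) (ρ₂ : Rep C G₂), ∃ (σ₁ : Rep C G₁) (σ₂ : Rep C G₂),
      D.ty ((ρ₁.sum σ₁).comp i₁) = D.ty ((ρ₂.sum σ₂).comp i₂)) :
    ∃ K > 0, ∀ (ρ₁ : Rep C G₁) (ρ₂ : Rep C G₂), ∃ (σ₁ : Rep C G₁) (σ₂ : Rep C G₂),
      D.ty ((ρ₁.sum σ₁).comp i₁) = D.ty ((ρ₂.sum σ₂).comp i₂) ∧
      (σ₂.card : ℝ) ≤ K * ‖D.ty (ρ₁.comp i₁) - D.ty (ρ₂.comp i₂)‖ := by
  have hty : ∀ ρ σ : Rep C H, D.ty (ρ.sum σ) = D.ty ρ + D.ty σ := by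
    intro ρ σ
    funext t
    rcases t with _ | t
    · simp [HData.ty, Rep.card_sum]
    · simp [HData.ty, hadd]
  have h1 : ∀ ρ σ : Rep C G₁, D.ty ((ρ.sum σ).comp i₁) = D.ty (ρ.comp i₁) + D.ty (σ.comp i₁) :=
    fun ρ σ => hty (ρ.comp i₁) (σ.comp i₁)
  have h2 : ∀ ρ σ : Rep C G₂, D.ty ((ρ.sum σ).comp i₂) = D.ty (ρ.comp i₂) + D.ty (σ.comp i₂) :=
    fun ρ σ => hty (ρ.comp i₂) (σ.comp i₂)
  let Λ : AddSubgroup (Option D.T → ℝ) :=
    { carrier := {x | ∃ (σ₁ : Rep C G₁) (σ₂ : Rep C G₂), x = D.ty (σ₁.comp i₁) - D.ty (σ₂.comp i₂)}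
      zero_mem' := ⟨Rep.triv C G₁ Empty, Rep.triv C G₂ Empty, (sub_self _).symm⟩
      add_mem' := by
        rintro _ _ ⟨a, b, rfl⟩ ⟨c, d, rfl⟩
        exact ⟨a.sum c, b.sum d, by rw [h1, h2]; abel⟩
      neg_mem' := by
        rintro _ ⟨a, b, rfl⟩
        obtain ⟨c, d, h⟩ := habs a b
        rw [h1, h2] at h
        exact ⟨c, d, by linear_combination (exp := 1) -h⟩ }
  have hc0 : (0:ℝ) < 1 / (Fintype.card (Option D.T) + 1) := by positivity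
  obtain ⟨K, hK, hΛ⟩ := lattice_cost Λ hc0 (by
      rintro x ⟨a, b, hx⟩ h0
      have hz : ∀ ρ σ : Rep C H, ∃ z : ℤ, ∑ t, D.ty ρ t * D.ty σ t = z := by
        intro ρ σ
        obtain ⟨z, hz⟩ := hint ρ σ
        exact ⟨ρ.card * σ.card + z, by simp [Fintype.sum_option, HData.ty, hz]⟩
      obtain ⟨z1, e1⟩ := hz (a.comp i₁) (a.comp i₁)
      obtain ⟨z2, e2⟩ := hz (a.comp i₁) (b.comp i₂)
      obtain ⟨z3, e3⟩ := hz (b.comp i₂) (b.comp i₂)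
      have e4 : ∑ t, x t ^ 2 = ((z1 - 2 * z2 + z3 : ℤ) : ℝ) := by
        push_cast
        rw [← e1, ← e2, ← e3, Finset.mul_sum, ← Finset.sum_sub_distrib, ← Finset.sum_add_distrib]
        refine Finset.sum_congr rfl fun t _ => ?_
        rw [hx, Pi.sub_apply]; ring
      have e5 : 0 < ∑ t, x t ^ 2 := by
        obtain ⟨t, ht⟩ := Function.ne_iff.1 h0
        exact Finset.sum_pos' (fun _ _ => sq_nonneg _) ⟨t, Finset.mem_univ _, sq_pos_of_ne_zero ht⟩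
      have e6 : (1:ℝ) ≤ ∑ t, x t ^ 2 := by
        rw [e4] at e5 ⊢
        have : 0 < z1 - 2 * z2 + z3 := by exact_mod_cast e5
        exact_mod_cast this
      have e7 : ∑ t, x t ^ 2 ≤ Fintype.card (Option D.T) * ‖x‖ ^ 2 := by
        rw [← nsmul_eq_mul, ← Finset.card_univ]
        refine Finset.sum_le_card_nsmul _ _ _ fun t _ => ?_
        rw [← sq_abs]
        gcongr
        exact norm_le_pi_norm x t
      have hx0 := norm_nonneg x
      have hc : (0:ℝ) ≤ Fintype.card (Option D.T) := Nat.cast_nonneg _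
      by_contra hlt
      push Not at hlt
      rw [lt_div_iff₀ (by positivity)] at hlt
      nlinarith)
    (fun x r => ∃ (σ₁ : Rep C G₁) (σ₂ : Rep C G₂),
      x = D.ty (σ₁.comp i₁) - D.ty (σ₂.comp i₂) ∧ (σ₂.card : ℝ) ≤ r)
    ⟨Rep.triv C G₁ Empty, Rep.triv C G₂ Empty, (sub_self _).symm, by simp [Rep.card]⟩
    (by
      rintro _ _ r s ⟨a, b, rfl, h⟩ ⟨c, d, rfl, h'⟩
      exact ⟨a.sum c, b.sum d, by rw [h1, h2]; abel, by rw [Rep.card_sum]; push_cast; linarith⟩)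
    (by rintro _ r s ⟨a, b, rfl, h⟩ h'; exact ⟨a, b, rfl, h.trans h'⟩)
    (by rintro _ ⟨a, b, rfl⟩; exact ⟨_, a, b, rfl, le_rfl⟩)
  refine ⟨K, hK, fun ρ₁ ρ₂ => ?_⟩
  obtain ⟨σ₁, σ₂, h, h'⟩ := hΛ _ (Λ.neg_mem ⟨ρ₁, ρ₂, rfl⟩)
  refine ⟨σ₁, σ₂, ?_, by rwa [norm_neg] at h'⟩
  rw [h1, h2]
  linear_combination (exp := 1) -h

lemma match_reps [Finite H] (hadd : ∀ ρ σ : Rep C H, D.τ (ρ.sum σ) = D.τ ρ + D.τ σ)
    (hint : ∀ ρ σ : Rep C H, ∃ z : ℤ, ∑ t, D.τ ρ t * D.τ σ t = z)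
    (habs : ∀ (ρ₁ : Rep C G₁) (ρ₂ : Rep C G₂), ∃ (σ₁ : Rep C G₁) (σ₂ : Rep C G₂),
      D.ty ((ρ₁.sum σ₁).comp i₁) = D.ty ((ρ₂.sum σ₂).comp i₂)) {ε : ℝ} (hε : 0 < ε) :
    ∃ δ > 0, ∀ (ι : Type) [Fintype ι] [DecidableEq ι] (π₁ : G₁ →* Matrix ι ι ℂ)
      (π₂ : G₂ →* Matrix ι ι ℂ), (∀ g, C.Q (π₁ g)) → (∀ g, C.Q (π₂ g)) →
      (∀ h, fr (π₁ (i₁ h) - π₂ (i₂ h)) ≤ δ * Fintype.card ι) →
      ∃ (κ : Type) (_ : Fintype κ) (_ : DecidableEq κ)
        (ψ₁ : G₁ →* Matrix (ι ⊕ κ) (ι ⊕ κ) ℂ) (ψ₂ : G₂ →* Matrix (ι ⊕ κ) (ι ⊕ κ) ℂ),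
        (∀ g, C.Q (ψ₁ g)) ∧ (∀ g, C.Q (ψ₂ g)) ∧ (∀ h, ψ₁ (i₁ h) = ψ₂ (i₂ h)) ∧
        (Fintype.card κ : ℝ) ≤ ε * Fintype.card ι ∧
        (∀ g, fr (blk (π₁ g) κ - ψ₁ g) ≤ ε * Fintype.card ι) ∧
        (∀ g, fr (blk (π₂ g) κ - ψ₂ g) ≤ ε * Fintype.card ι) := by
  obtain ⟨K, hK, hm⟩ := match_types D i₁ i₂ hadd hint habs
  obtain ⟨δj, hδj, hj⟩ := D.conj (ε / 32) (by positivity)
  set η := min (min (ε / 16) (δj / 8)) 1 with hη
  have hη0 : 0 < η := by positivity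
  obtain ⟨δt, hδt, ht⟩ := D.cont (η / K) (by positivity)
  refine ⟨min δt (δj / 2), by positivity, fun ι _ _ π₁ π₂ g₁ g₂ hH => ?_⟩
  let ρ₁ : Rep C G₁ := ⟨ι, π₁, g₁⟩
  let ρ₂ : Rep C G₂ := ⟨ι, π₂, g₂⟩
  set N := Fintype.card ι with hN
  have hN0 : (0:ℝ) ≤ N := Nat.cast_nonneg _
  obtain ⟨σ₁, σ₂, h1, h2⟩ := hm ρ₁ ρ₂
  have h3 : ‖D.ty (ρ₁.comp i₁) - D.ty (ρ₂.comp i₂)‖ ≤ η / K * N := by
    refine (pi_norm_le_iff_of_nonneg (by positivity)).2 ?_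
    rintro (_ | t)
    · have : (D.ty (ρ₁.comp i₁) - D.ty (ρ₂.comp i₂)) none = 0 := sub_self _
      rw [this, norm_zero]; positivity
    · exact ht (ρ₁.comp i₁) (ρ₂.comp i₂) ⟨1, C.one, fun h _ => by
        rw [Matrix.mul_one, Matrix.one_mul]
        exact (hH h).trans (show _ ≤ δt * N by gcongr; exact min_le_left _ _)⟩ t
  have h4 : (Fintype.card σ₂.ι : ℝ) ≤ η * N := h2.trans (by
    calc K * _ ≤ K * (η / K * N) := by gcongr
      _ = _ := by field_simp)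
  have h5 : Fintype.card σ₂.ι = Fintype.card σ₁.ι := by
    have := congrFun h1 none
    simp only [HData.ty, Option.elim_none, Rep.card, Fintype.card_sum, Nat.cast_inj] at this
    exact (Nat.add_left_cancel this).symm
  obtain ⟨e⟩ := Fintype.card_eq.1 h5
  have b1 : η * N ≤ ε / 16 * N := by gcongr; exact (min_le_left _ _).trans (min_le_left _ _)
  have b2 : η * N ≤ δj / 8 * N := by gcongr; exact (min_le_left _ _).trans (min_le_right _ _)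
  have b3 : η * N ≤ 1 * N := by gcongr; exact min_le_right _ _
  have hcard : (((ρ₁.sum σ₁).comp i₁).card : ℝ) = N + Fintype.card σ₂.ι := by
    simp [Rep.card, h5, hN, ρ₁]
  have hc0 : (0:ℝ) ≤ Fintype.card σ₂.ι := Nat.cast_nonneg _
  let w : Matrix (ι ⊕ σ₁.ι) (ι ⊕ σ₂.ι) ℂ := fromBlocks 1 0 0 (pm e)
  have hw : C.Q w := C.blk C.one (C.eqv e)
  obtain ⟨u, hu, hui, huw⟩ := hj ((ρ₁.sum σ₁).comp i₁) ((ρ₂.sum σ₂).comp i₂) w hw (by
      intro h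
      have e1 : ((ρ₁.sum σ₁).comp i₁).π h * w - w * ((ρ₂.sum σ₂).comp i₂).π h
          = fromBlocks (π₁ (i₁ h) - π₂ (i₂ h)) 0 0
            (σ₁.π (i₁ h) * pm e - pm e * σ₂.π (i₂ h)) := by
        show fromBlocks _ _ _ _ * fromBlocks _ _ _ _ - fromBlocks _ _ _ _ * fromBlocks _ _ _ _ = _
        simp only [fromBlocks_multiply]
        ext (i | i) (j | j) <;> simp [ρ₁, ρ₂]
      rw [e1, fr_blocks, fr_zero, fr_zero, hcard]
      have a1 := (hH h).trans (show _ ≤ δj / 2 * N by gcongr; exact min_le_right _ _)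
      have a2 := fr_Q_sub (C.mul (σ₁.good (i₁ h)) (C.eqv e)) (C.mul (C.eqv e) (σ₂.good (i₂ h)))
      nlinarith)
    (by funext t; exact congrFun h1 (some t))
  have huu := C.uni hu
  rw [hcard] at huw
  refine ⟨σ₂.ι, inferInstance, inferInstance,
    conjHom uᴴ ⟨by simpa using huu.2, by simpa using huu.1⟩ (ρ₁.sum σ₁).π, (ρ₂.sum σ₂).π,
    fun g => C.mul (C.mul (C.adj hu) ((ρ₁.sum σ₁).good g)) (C.adj (C.adj hu)),
    (ρ₂.sum σ₂).good, fun h => ?_, by nlinarith, fun g => ?_, fun g => ?_⟩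
  · have a1 : (ρ₁.sum σ₁).π (i₁ h) * u = u * (ρ₂.sum σ₂).π (i₂ h) := hui h
    show uᴴ * (ρ₁.sum σ₁).π (i₁ h) * uᴴᴴ = _
    rw [conjTranspose_conjTranspose, Matrix.mul_assoc, a1, ← Matrix.mul_assoc, huu.1,
      Matrix.one_mul]
  · show fr (blk (π₁ g) σ₂.ι - uᴴ * (ρ₁.sum σ₁).π g * uᴴᴴ) ≤ _
    rw [conjTranspose_conjTranspose, ← fr_mul_left huu.1, Matrix.mul_sub, ← Matrix.mul_assoc,
      ← Matrix.mul_assoc, huu.2, Matrix.one_mul]
    set R := (ρ₁.sum σ₁).π g with hR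
    have hRQ : C.Q R := (ρ₁.sum σ₁).good g
    have hB : C.Q (blk (π₁ g) σ₂.ι) := C.blk (g₁ g) C.one
    have a1 : u * blk (π₁ g) σ₂.ι - R * u = (w * blk (π₁ g) σ₂.ι - R * w) +
        ((u - w) * blk (π₁ g) σ₂.ι - R * (u - w)) := by
      simp only [Matrix.mul_sub, Matrix.sub_mul]; abel
    have a2 : w * blk (π₁ g) σ₂.ι - R * w = fromBlocks 0 0 0 (pm e - σ₁.π g * pm e) := by
      show fromBlocks _ _ _ _ * fromBlocks _ _ _ _ - fromBlocks _ _ _ _ * fromBlocks _ _ _ _ = _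
      simp only [fromBlocks_multiply]
      ext (i | i) (j | j) <;> simp [ρ₁]
    have a3 := fr_Q_sub (C.eqv e) (C.mul (σ₁.good g) (C.eqv e))
    have t1 := fr_add_le (w * blk (π₁ g) σ₂.ι - R * w) ((u - w) * blk (π₁ g) σ₂.ι - R * (u - w))
    have t2 := fr_sub_le ((u - w) * blk (π₁ g) σ₂.ι) (R * (u - w))
    rw [fr_mul_right (C.uni hB).2, fr_mul_left (C.uni hRQ).1] at t2
    rw [← a1, a2, fr_blocks, fr_zero, fr_zero, fr_zero] at t1
    nlinarith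
  · show fr (blk (π₂ g) σ₂.ι - fromBlocks (π₂ g) 0 0 (σ₂.π g)) ≤ _
    rw [fr_diag_sub, sub_self, fr_zero]
    have := fr_Q_sub (C.one (ι := σ₂.ι)) (σ₂.good g)
    nlinarith

lemma pad {ι β γ μ : Type} [Fintype ι] [DecidableEq ι] [Fintype β] [DecidableEq β]
    [Fintype γ] [DecidableEq γ] [Fintype μ] [DecidableEq μ] (e : μ ≃ β ⊕ γ)
    (ψ : G →* Matrix (ι ⊕ β) (ι ⊕ β) ℂ) (hψ : ∀ g, C.Q (ψ g)) :
    ∃ ψ' : G →* Matrix (ι ⊕ μ) (ι ⊕ μ) ℂ, (∀ g, C.Q (ψ' g)) ∧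
      ∀ A g, fr (blk A μ - ψ' g) = fr (blk A β - ψ g) := by
  let e' : ι ⊕ μ ≃ (ι ⊕ β) ⊕ γ :=
    (Equiv.sumCongr (Equiv.refl ι) e).trans (Equiv.sumAssoc _ _ _).symm
  refine ⟨rx (bsum ψ (1 : G →* Matrix γ γ ℂ)) e', fun g => C.submatrix (C.blk (hψ g) C.one) e',
    fun A g => ?_⟩
  rw [← fr_blk_sub (β := γ) (blk A β), ← fr_submatrix _ e']
  congr 1
  have : blk A μ = (blk (blk A β) γ).submatrix e' e' := by
    ext (i | i) (j | j)
    · simp [e']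
    · rcases h : e j with b | b <;> simp [e', h]
    · rcases h : e i with b | b <;> simp [e', h]
    · have : (i = j) ↔ (e i = e j) := e.injective.eq_iff.symm
      rcases h : e i with b | b <;> rcases h' : e j with b' | b' <;>
        simp [e', h, h', one_apply, this]
  rw [this]; rfl

theorem amalg_uf [Finite H] (hadd : ∀ ρ σ : Rep C H, D.τ (ρ.sum σ) = D.τ ρ + D.τ σ)
    (hint : ∀ ρ σ : Rep C H, ∃ z : ℤ, ∑ t, D.τ ρ t * D.τ σ t = z)
    (habs : ∀ (ρ₁ : Rep C G₁) (ρ₂ : Rep C G₂), ∃ (σ₁ : Rep C G₁) (σ₂ : Rep C G₂),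
      D.ty ((ρ₁.sum σ₁).comp i₁) = D.ty ((ρ₂.sum σ₂).comp i₂))
    {P : Type} [Group P] (j₁ : G₁ →* P) (j₂ : G₂ →* P) (hj : ∀ h, j₁ (i₁ h) = j₂ (i₂ h))
    (hgen : Subgroup.closure (Set.range (Sum.elim j₁ j₂)) = ⊤)
    (hlift : ∀ (M : Type) [Monoid M] (ψ₁ : G₁ →* M) (ψ₂ : G₂ →* M),
      (∀ h, ψ₁ (i₁ h) = ψ₂ (i₂ h)) →
      ∃ ψ : P →* M, (∀ g, ψ (j₁ g) = ψ₁ g) ∧ ∀ g, ψ (j₂ g) = ψ₂ g)
    (h₁ : UF C G₁) (h₂ : UF C G₂) : UF C P := by
  classical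
  have := Fintype.ofFinite H
  intro S ε hε
  obtain ⟨S', T, δ, hδ, hp⟩ := propagate (C := C) hgen S ε hε
  obtain ⟨δm, hδm, hm⟩ := match_reps D i₁ i₂ hadd hint habs (ε := min (δ / 12) (ε / 6))
    (by positivity)
  set η := min (min (δ / 4) (ε / 4)) (min (δm / 4) 1) with hη
  have hη0 : 0 < η := by positivity
  obtain ⟨T₁, δ₁, hδ₁, f₁⟩ := h₁ (S'.toLeft ∪ Finset.univ.image i₁) η hη0
  obtain ⟨T₂, δ₂, hδ₂, f₂⟩ := h₂ (S'.toRight ∪ Finset.univ.image i₂) η hη0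
  refine ⟨T ∪ (T₁.image j₁ ∪ T₂.image j₂), min δ (min δ₁ δ₂), by positivity,
    fun n hn φ hφ hT => ?_⟩
  have hN : (0:ℝ) ≤ n := Nat.cast_nonneg _
  obtain ⟨β₁, _, _, π₁, q₁, c₁, d₁⟩ := f₁ n hn (fun g => φ (j₁ g)) (fun _ => hφ _)
    (fun a ha b hb => by
      rw [map_mul]
      exact (hT _ (Finset.mem_union_right _ (Finset.mem_union_left _ (Finset.mem_image_of_mem _ ha)))
        _ (Finset.mem_union_right _ (Finset.mem_union_left _ (Finset.mem_image_of_mem _ hb)))).trans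
        (by gcongr; exact (min_le_right _ _).trans (min_le_left _ _)))
  obtain ⟨β₂, _, _, π₂, q₂, c₂, d₂⟩ := f₂ n hn (fun g => φ (j₂ g)) (fun _ => hφ _)
    (fun a ha b hb => by
      rw [map_mul]
      exact (hT _ (Finset.mem_union_right _ (Finset.mem_union_right _ (Finset.mem_image_of_mem _ ha)))
        _ (Finset.mem_union_right _ (Finset.mem_union_right _ (Finset.mem_image_of_mem _ hb)))).trans
        (by gcongr; exact (min_le_right _ _).trans (min_le_right _ _)))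
  obtain ⟨π₁', q₁', p₁⟩ := pad (C := C) (Equiv.refl (β₁ ⊕ β₂)) π₁ q₁
  obtain ⟨π₂', q₂', p₂⟩ := pad (C := C) (Equiv.sumComm β₁ β₂) π₂ q₂
  have b1 : η * n ≤ δ / 4 * n := by gcongr; exact (min_le_left _ _).trans (min_le_left _ _)
  have b2 : η * n ≤ ε / 4 * n := by gcongr; exact (min_le_left _ _).trans (min_le_right _ _)
  have b3 : η * n ≤ δm / 4 * n := by gcongr; exact (min_le_right _ _).trans (min_le_left _ _)
  have b4 : η * n ≤ 1 * n := by gcongr; exact (min_le_right _ _).trans (min_le_right _ _)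
  have hcard : (Fintype.card (Fin n ⊕ (β₁ ⊕ β₂)) : ℝ) = n + Fintype.card β₁ + Fintype.card β₂ := by
    simp [add_assoc]
  have z₁ : (0:ℝ) ≤ Fintype.card β₁ := Nat.cast_nonneg _
  have z₂ : (0:ℝ) ≤ Fintype.card β₂ := Nat.cast_nonneg _
  obtain ⟨κ, _, _, ψ₁, ψ₂, r₁, r₂, hH, hκ, s₁, s₂⟩ := hm _ π₁' π₂' q₁' q₂' (fun h => by
    have a1 := d₁ (i₁ h) (by simp)
    have a2 := d₂ (i₂ h) (by simp)
    rw [← p₁, fr_sub_comm] at a1
    rw [← p₂, ← hj] at a2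
    have := fr_tri (π₁' (i₁ h)) (blk (φ (j₁ (i₁ h))) (β₁ ⊕ β₂)) (π₂' (i₂ h))
    rw [hcard]
    nlinarith)
  rw [hcard] at hκ s₁ s₂
  have b5 : min (δ / 12) (ε / 6) * (n + Fintype.card β₁ + Fintype.card β₂ : ℝ) ≤ δ / 12 * (3 * n) := by
    gcongr
    · exact min_le_left _ _
    · linarith
  have b6 : min (δ / 12) (ε / 6) * (n + Fintype.card β₁ + Fintype.card β₂ : ℝ) ≤ ε / 6 * (3 * n) := by
    gcongr
    · exact min_le_right _ _
    · linarith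
  obtain ⟨ψ, e₁, e₂⟩ := hlift _ ψ₁ ψ₂ hH
  have hψ : ∀ g, C.Q (ψ g) := C.of_gen hgen ψ (by
    rintro (x | x)
    · simpa [e₁] using r₁ x
    · simpa [e₂] using r₂ x)
  let e := (Equiv.sumAssoc (Fin n) (β₁ ⊕ β₂) κ).symm
  refine ⟨(β₁ ⊕ β₂) ⊕ κ, inferInstance, inferInstance, rx ψ e, fun g => C.submatrix (hψ g) e,
    by simp only [Fintype.card_sum]; push_cast; linarith, fun g hg => ?_⟩
  have a1 : blk (φ g) ((β₁ ⊕ β₂) ⊕ κ) - rx ψ e g
      = (blk (blk (φ g) (β₁ ⊕ β₂)) κ - ψ g).submatrix e e := by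
    ext (i | (i | i)) (j | (j | j)) <;> simp [e, rx, one_apply]
  rw [a1, fr_submatrix]
  refine hp _ (fun g => blk (blk (φ g) (β₁ ⊕ β₂)) κ) ψ n hN
    (fun g => C.blk (C.blk (hφ g) C.one) C.one) hψ (fun x hx y hy => ?_) ?_ g hg
  · rw [fr_blk_mul, fr_blk_mul]
    exact (hT x (by simp [hx]) y (by simp [hy])).trans (by gcongr; exact min_le_left _ _)
  · rintro (x | x) hx
    · have a1 := d₁ x (by simp [hx])
      rw [← p₁, ← fr_blk_sub (β := κ)] at a1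
      have := fr_tri (blk (blk (φ (j₁ x)) (β₁ ⊕ β₂)) κ) (blk (π₁' x) κ) (ψ₁ x)
      have a2 := s₁ x
      simp only [Sum.elim_inl, e₁]
      linarith
    · have a1 := d₂ x (by simp [hx])
      rw [← p₂, ← fr_blk_sub (β := κ)] at a1
      have := fr_tri (blk (blk (φ (j₂ x)) (β₁ ⊕ β₂)) κ) (blk (π₂' x) κ) (ψ₂ x)
      have a2 := s₂ x
      simp only [Sum.elim_inr, e₂]
      linarith

end amalg

end
end Pool.Agent.H72.Stab
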