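import Mathlib
import Pool.Agent.H72.StabC

namespace Pool.Agent.H72.Stab
open Matrix Filter Topology

noncomputable section
open Classical in
lemma perm_shrink {α β : Type} [Fintype α] [Fintype β] [DecidableEq α] [DecidableEq β]
    (σ : Equiv.Perm (α ⊕ β)) : ∃ σ' : Equiv.Perm α,
      (Finset.univ.filter fun j => σ j ≠ Equiv.sumCongr σ' (Equiv.refl β) j).card
        ≤ 2 * Fintype.card β := by
  let A := {a : α // ∃ a', σ (Sum.inl a) = Sum.inl a'}
  let g : A → α := fun a => a.2.choose
  have hg : ∀ a : A, σ (Sum.inl a.1) = Sum.inl (g a) := fun a => a.2.choose_spec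
  obtain ⟨σ', hσ'⟩ := Equiv.Perm.exists_extending_pair (f := fun a : A => a.1) (g := g)
    Subtype.val_injective (by
      intro a b hab
      have : σ (Sum.inl a.1) = σ (Sum.inl b.1) := by rw [hg, hg, hab]
      exact Subtype.ext (Sum.inl_injective (σ.injective this)))
  refine ⟨σ', ?_⟩
  calc _ ≤ ((Finset.univ.image (Sum.inr : β → α ⊕ β)) ∪
        (Finset.univ.image (fun b : β => σ.symm (Sum.inr b)))).card := by
        apply Finset.card_le_card
        rintro (a | b) hj
        · simp only [Finset.mem_filter, Finset.mem_univ, true_and] at hj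
          refine Finset.mem_union_right _ ?_
          rcases h : σ (Sum.inl a) with a' | b
          · exfalso
            apply hj
            have := hσ' ⟨a, a', h⟩
            rw [hg ⟨a, a', h⟩, ← this]; rfl
          · exact Finset.mem_image.2 ⟨b, Finset.mem_univ _, by rw [← h]; simp⟩
        · simp
    _ ≤ _ := by
        refine (Finset.card_union_le _ _).trans ?_
        have h1 := Finset.card_image_le (s := (Finset.univ : Finset β)) (f := (Sum.inr : β → α ⊕ β))
        have h2 := Finset.card_image_le (s := (Finset.univ : Finset β))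
          (f := fun b : β => σ.symm (Sum.inr b))
        rw [Finset.card_univ] at h1 h2
        omega

/-- permutation matrices -/
def CP : Cls where
  Q w := ∃ e, w = pm e
  uni := by
    rintro ι κ _ _ _ _ _ ⟨e, rfl⟩
    rw [pm_conjT, pm_mul, pm_mul]
    simp [pm_refl]
  mul := by
    rintro ι κ μ _ _ _ _ _ _ _ _ ⟨e, rfl⟩ ⟨f, rfl⟩
    exact ⟨_, pm_mul e f⟩
  adj := by
    rintro ι κ _ _ _ _ _ ⟨e, rfl⟩
    exact ⟨_, pm_conjT e⟩
  blk := by
    rintro ι κ μ ν _ _ _ _ _ _ _ _ _ _ ⟨e, rfl⟩ ⟨f, rfl⟩
    exact ⟨_, (pm_sum e f).symm⟩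
  eqv e := ⟨e, rfl⟩
  shrink := by
    rintro α β _ _ _ _ _ ⟨σ, rfl⟩
    obtain ⟨σ', h⟩ := perm_shrink σ
    refine ⟨pm σ', ⟨σ', rfl⟩, ?_⟩
    rw [← pm_refl, ← pm_sum, fr_pm_sub]
    have h' : (((Finset.univ.filter fun j => σ j ≠ Equiv.sumCongr σ' (Equiv.refl β) j).card : ℕ) : ℝ)
      ≤ 2 * Fintype.card β := by exact_mod_cast h
    have : (0:ℝ) ≤ Fintype.card β := Nat.cast_nonneg _
    linarith

variable {G : Type} [Group G]

lemma pm_mul_perm {ι : Type} [Fintype ι] [DecidableEq ι] (a b : Equiv.Perm ι) :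
    pm (a * b) = pm a * pm b := (pm_mul a b).symm

/-- the permutation action underlying a representation -/
def perm (ρ : Rep CP G) : G →* Equiv.Perm ρ.ι :=
  MonoidHom.mk' (fun g => (ρ.good g).choose) (fun a b => pm_inj (by
    rw [pm_mul_perm, ← (ρ.good a).choose_spec, ← (ρ.good b).choose_spec,
      ← (ρ.good (a * b)).choose_spec, map_mul]))

lemma perm_spec (ρ : Rep CP G) (g : G) : ρ.π g = pm (perm ρ g) := (ρ.good g).choose_spec

def pmHom {ι : Type} [Fintype ι] [DecidableEq ι] : Equiv.Perm ι →* Matrix ι ι ℂ where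
  toFun e := pm e
  map_one' := pm_refl
  map_mul' := pm_mul_perm

abbrev ofPerm {ι : Type} [Fintype ι] [DecidableEq ι] (f : G →* Equiv.Perm ι) : Rep CP G :=
  { ι := ι, π := pmHom.comp f, good := fun g => ⟨f g, rfl⟩ }

lemma perm_ofPerm {ι : Type} [Fintype ι] [DecidableEq ι] (f : G →* Equiv.Perm ι) (g : G) :
    perm (ofPerm f) g = f g := pm_inj (perm_spec (ofPerm f) g).symm

lemma perm_sum (ρ σ : Rep CP G) (g : G) :
    perm (ρ.sum σ) g = Equiv.sumCongr (perm ρ g) (perm σ g) := by
  apply pm_inj
  rw [← perm_spec, pm_sum, ← perm_spec, ← perm_spec]; rfl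

lemma perm_comp {H : Type} [Group H] (ρ : Rep CP G) (i : H →* G) (h : H) :
    perm (ρ.comp i) h = perm ρ (i h) := by
  apply pm_inj
  rw [← perm_spec, ← perm_spec]; rfl

def bad (ρ σ : Rep CP G) (e : σ.ι ≃ ρ.ι) (g : G) : Finset σ.ι :=
  Finset.univ.filter fun j => perm ρ g (e j) ≠ e (perm σ g j)

lemma fr_bad (ρ σ : Rep CP G) (e : σ.ι ≃ ρ.ι) (g : G) :
    fr (ρ.π g * pm e - pm e * σ.π g) = 2 * ((bad ρ σ e g).card : ℝ) := by
  rw [perm_spec, perm_spec, pm_mul, pm_mul, fr_pm_sub]; rfl

open Classical in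
/-- number of points satisfying a predicate -/
def cnt {α : Type} [Fintype α] (p : α → Prop) : ℕ := (Finset.univ.filter p).card

lemma cnt_eq_card {α : Type} [Fintype α] (p : α → Prop) [DecidablePred p] :
    cnt p = (Finset.univ.filter p).card := by
  unfold cnt; congr

lemma cnt_fib {α β : Type} [Fintype α] [Fintype β] (f : α → β) (P : β → Prop) [DecidablePred P] :
    cnt (fun x => P (f x)) = ∑ L, if P L then cnt (fun x => f x = L) else 0 := by
  classical
  simp only [cnt_eq_card]
  rw [Finset.card_eq_sum_card_fiberwise (f := f) (t := Finset.univ) (fun x _ => by simp)]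
  refine Finset.sum_congr rfl fun L _ => ?_
  split_ifs with h
  · congr 1
    ext x
    simp only [Finset.mem_filter, Finset.mem_univ, true_and]
    exact ⟨fun h => h.2, fun h' => ⟨h' ▸ h, h'⟩⟩
  · rw [Finset.card_eq_zero, Finset.filter_eq_empty_iff]
    intro x hx h'
    exact h (h' ▸ (Finset.mem_filter.1 hx).2)

lemma cnt_eq_sum {α : Type} [Fintype α] (p : α → Prop) [DecidablePred p] :
    cnt p = ∑ x, if p x then 1 else 0 := by rw [cnt_eq_card]; exact Finset.card_filter _ _

open Classical in
lemma count_close {ρ σ : Rep CP G} (S : Finset G) {r : ℝ} (h : Close S r ρ σ)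
    (p : ρ.ι → Prop) (q : σ.ι → Prop)
    (hpq : ∀ x j, (∀ g ∈ S, perm ρ g x = x ↔ perm σ g j = j) → (p x ↔ q j)) :
    |(cnt p : ℝ) - cnt q| ≤ S.card * r := by
  unfold cnt
  obtain ⟨_, ⟨e, rfl⟩, h⟩ := h
  let B := S.biUnion (bad ρ σ e)
  have hB : (B.card : ℝ) ≤ S.card * r := by
    have h1 : (B.card : ℝ) ≤ ∑ g ∈ S, ((bad ρ σ e g).card : ℝ) := by
      exact_mod_cast Finset.card_biUnion_le
    refine h1.trans ?_
    rw [← nsmul_eq_mul]
    refine Finset.sum_le_card_nsmul _ _ _ fun g hg => ?_
    have := h g hg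
    rw [fr_bad] at this
    have : (0:ℝ) ≤ (bad ρ σ e g).card := Nat.cast_nonneg _
    linarith
  have hgood : ∀ j, j ∉ B → (p (e j) ↔ q j) := by
    intro j hj
    apply hpq
    intro g hg
    have : perm ρ g (e j) = e (perm σ g j) := by
      by_contra hne
      exact hj (Finset.mem_biUnion.2 ⟨g, hg, by simp [bad, hne]⟩)
    rw [this, e.apply_eq_iff_eq]
  have e1 : (Finset.univ.filter p).card = (Finset.univ.filter fun j => p (e j)).card := by
    symm
    exact Finset.card_bij (fun j _ => e j) (by simp) (by simp)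
      (fun x hx => ⟨e.symm x, by simpa using hx, by simp⟩)
  have a1 : (Finset.univ.filter fun j => p (e j)).card ≤ (Finset.univ.filter q).card + B.card := by
    refine le_trans (Finset.card_le_card fun j hj => ?_) (Finset.card_union_le _ _)
    by_cases hb : j ∈ B
    · exact Finset.mem_union_right _ hb
    · exact Finset.mem_union_left _ (by simpa [hgood j hb] using hj)
  have a2 : (Finset.univ.filter q).card ≤ (Finset.univ.filter fun j => p (e j)).card + B.card := by
    refine le_trans (Finset.card_le_card fun j hj => ?_) (Finset.card_union_le _ _)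
    by_cases hb : j ∈ B
    · exact Finset.mem_union_right _ hb
    · exact Finset.mem_union_left _ (by simpa [hgood j hb] using hj)
  rw [e1, abs_le]
  have a1' : ((Finset.univ.filter fun j => p (e j)).card : ℝ)
    ≤ (Finset.univ.filter q).card + B.card := by exact_mod_cast a1
  have a2' : ((Finset.univ.filter q).card : ℝ)
    ≤ (Finset.univ.filter fun j => p (e j)).card + B.card := by exact_mod_cast a2
  constructor <;> linarith

open Classical in
lemma extend_iso {H α β : Type} [Group H] [Fintype H] [Fintype α] [Fintype β]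
    (a : H →* Equiv.Perm α) (b : H →* Equiv.Perm β) (e : β ≃ α)
    (hc : ∀ L : Set H, cnt (fun x => {h | a h x = x} = L)
      = cnt (fun j => {h | b h j = j} = L)) :
    ∃ e' : β ≃ α, (∀ h j, a h (e' j) = e' (b h j)) ∧
      ∀ j, (∀ h, a h (e j) = e (b h j)) → e' j = e j := by
  simp only [cnt_eq_card] at hc
  let P : Finset (β × α) → Prop := fun R => (∀ p ∈ R, ∀ h, (b h p.1, a h p.2) ∈ R) ∧
    (∀ p ∈ R, ∀ q ∈ R, p.1 = q.1 ↔ p.2 = q.2) ∧
    ∀ j, (∀ h, a h (e j) = e (b h j)) → (j, e j) ∈ R
  have h0 : P (Finset.univ.filter fun p => (∀ h, a h (e p.1) = e (b h p.1)) ∧ p.2 = e p.1) := by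
    refine ⟨?_, ?_, ?_⟩
    · rintro ⟨j, x⟩ hp h
      simp only [Finset.mem_filter, Finset.mem_univ, true_and] at hp ⊢
      obtain ⟨h1, rfl⟩ := hp
      refine ⟨fun h' => ?_, h1 h⟩
      rw [← h1, ← Equiv.Perm.mul_apply, ← map_mul, h1, map_mul, Equiv.Perm.mul_apply]
    · rintro ⟨j, x⟩ hp ⟨j', x'⟩ hq
      simp only [Finset.mem_filter, Finset.mem_univ, true_and] at hp hq
      simp [hp.2, hq.2]
    · intro j hj; simpa using hj
  obtain ⟨R, hR, hmax⟩ := Finset.exists_max_image (Finset.univ.filter P) Finset.card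
    ⟨_, Finset.mem_filter.2 ⟨Finset.mem_univ _, h0⟩⟩
  obtain ⟨hR1, hR2, hR3⟩ := (Finset.mem_filter.1 hR).2
  have htot : ∀ j, ∃ x, (j, x) ∈ R := by
    intro j0
    by_contra hj0
    push Not at hj0
    set L := {h | b h j0 = j0} with hL
    have hst : ∀ p ∈ R, {h | a h p.2 = p.2} = {h | b h p.1 = p.1} := by
      intro p hp
      ext h
      exact (hR2 _ (hR1 p hp h) p hp).symm
    let R' := R.filter fun p => {h | b h p.1 = p.1} = L
    have c1 : (R'.image Prod.fst).card = R'.card := Finset.card_image_of_injOn (by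
      intro p hp q hq h
      have hp' := (Finset.mem_filter.1 hp).1
      have hq' := (Finset.mem_filter.1 hq).1
      exact Prod.ext h ((hR2 p hp' q hq').1 h))
    have c2 : (R'.image Prod.snd).card ≤ R'.card := Finset.card_image_le
    have c3 : (R'.image Prod.fst).card < (Finset.univ.filter fun j => {h | b h j = j} = L).card := by
      apply Finset.card_lt_card
      refine ⟨fun j hj => ?_, fun hsub => ?_⟩
      · obtain ⟨p, hp, rfl⟩ := Finset.mem_image.1 hj
        simpa using (Finset.mem_filter.1 hp).2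
      · obtain ⟨p, hp, hpj⟩ := Finset.mem_image.1 (hsub (show j0 ∈ _ by simp [hL]))
        exact hj0 p.2 (by rw [← hpj]; exact (Finset.mem_filter.1 hp).1)
    obtain ⟨x0, hx0, hx0'⟩ := Finset.exists_mem_notMem_of_card_lt_card
      (s := R'.image Prod.snd) (t := Finset.univ.filter fun x => {h | a h x = x} = L)
      (by rw [hc]; omega)
    have hx0L : {h | a h x0 = x0} = L := by simpa using hx0
    have hx0R : ∀ j, (j, x0) ∉ R := by
      intro j hj
      exact hx0' (Finset.mem_image.2 ⟨(j, x0), Finset.mem_filter.2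
        ⟨hj, (hst _ hj).symm.trans hx0L⟩, rfl⟩)
    have n1 : ∀ h, ∀ p ∈ R, b h j0 ≠ p.1 := by
      intro h p hp he
      have := hR1 p hp h⁻¹
      rw [← he, ← Equiv.Perm.mul_apply, ← map_mul, inv_mul_cancel, map_one] at this
      exact hj0 _ this
    have n2 : ∀ h, ∀ p ∈ R, a h x0 ≠ p.2 := by
      intro h p hp he
      have := hR1 p hp h⁻¹
      rw [← he, ← Equiv.Perm.mul_apply (a h⁻¹), ← map_mul, inv_mul_cancel, map_one] at this
      exact hx0R _ this
    have hP : P (R ∪ Finset.univ.image fun h => (b h j0, a h x0)) := by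
      refine ⟨?_, ?_, fun j hj => Finset.mem_union_left _ (hR3 j hj)⟩
      · intro p hp h
        rcases Finset.mem_union.1 hp with hp | hp
        · exact Finset.mem_union_left _ (hR1 p hp h)
        · obtain ⟨k, -, rfl⟩ := Finset.mem_image.1 hp
          exact Finset.mem_union_right _ (Finset.mem_image.2 ⟨h * k, Finset.mem_univ _, by simp⟩)
      · intro p hp q hq
        rcases Finset.mem_union.1 hp with hp | hp <;> rcases Finset.mem_union.1 hq with hq | hq
        · exact hR2 p hp q hq
        · obtain ⟨k, -, rfl⟩ := Finset.mem_image.1 hq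
          exact iff_of_false (n1 k p hp).symm (n2 k p hp).symm
        · obtain ⟨k, -, rfl⟩ := Finset.mem_image.1 hp
          exact iff_of_false (n1 k q hq) (n2 k q hq)
        · obtain ⟨k, -, rfl⟩ := Finset.mem_image.1 hp
          obtain ⟨l, -, rfl⟩ := Finset.mem_image.1 hq
          have := Set.ext_iff.1 (hx0L.trans hL) (l⁻¹ * k)
          simp only [Set.mem_ofPred_eq, map_mul, map_inv, Equiv.Perm.mul_apply,
            Equiv.Perm.inv_eq_iff_eq] at this
          exact this.symm
    have := hmax _ (Finset.mem_filter.2 ⟨Finset.mem_univ _, hP⟩)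
    have hlt : R.card < (R ∪ Finset.univ.image fun h => (b h j0, a h x0)).card := by
      apply Finset.card_lt_card
      refine ⟨Finset.subset_union_left, fun hsub => ?_⟩
      have := hsub (Finset.mem_union_right _
        (Finset.mem_image.2 ⟨1, Finset.mem_univ _, rfl⟩))
      exact n1 1 _ this rfl
    omega
  choose f hf using htot
  have hinj : Function.Injective f := fun j j' h => (hR2 _ (hf j) _ (hf j')).2 h
  have hbij : Function.Bijective f :=
    (Fintype.bijective_iff_injective_and_card f).2 ⟨hinj, Fintype.card_congr e⟩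
  refine ⟨Equiv.ofBijective f hbij, fun h j => ?_, fun j hj => ?_⟩
  · exact (hR2 _ (hR1 _ (hf j) h) _ (hf (b h j))).1 rfl
  · exact (hR2 _ (hf j) _ (hR3 j hj)).1 rfl

open Classical in
/-- isomorphism types of finite `H`-sets -/
def HP (H : Type) [Group H] [Fintype H] : HData CP H where
  T := Set H
  τ ρ L := (cnt (fun x => {h | perm ρ h x = x} = L) : ℝ)
  rat ρ σ := ⟨∑ L : Set H, (cnt (fun x => {h | perm ρ h x = x} = L) : ℚ) *
    (cnt (fun x => {h | perm σ h x = x} = L) : ℚ), by push_cast; rfl⟩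
  cont := by
    intro ε hε
    have hH : (0:ℝ) < Fintype.card H := by exact_mod_cast Fintype.card_pos
    refine ⟨ε / Fintype.card H, by positivity, fun ρ σ h L => ?_⟩
    have := count_close Finset.univ (h.mono (Set.subset_univ _) le_rfl)
      (fun x => {h | perm ρ h x = x} = L) (fun x => {h | perm σ h x = x} = L) (by
        intro x j hxj
        have : {h | perm ρ h x = x} = {h | perm σ h j = j} :=
          Set.ext fun h => hxj h (Finset.mem_univ _)
        rw [this])
    refine this.trans (le_of_eq ?_)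
    rw [Finset.card_univ]; field_simp
  conj := by
    intro ε hε
    have hH : (0:ℝ) < Fintype.card H := by exact_mod_cast Fintype.card_pos
    refine ⟨ε / Fintype.card H, by positivity, ?_⟩
    rintro ρ σ _ ⟨e, rfl⟩ h hτ
    obtain ⟨e', h1, h2⟩ := extend_iso (perm ρ) (perm σ) e (fun L => by
      exact_mod_cast congrFun hτ L)
    refine ⟨pm e', ⟨e', rfl⟩, fun g => ?_, ?_⟩
    · rw [perm_spec, perm_spec, pm_mul, pm_mul]
      congr 1
      ext j
      exact h1 g j
    · rw [fr_pm_sub]
      have a1 : (Finset.univ.filter fun j => e' j ≠ e j).card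
          ≤ ∑ g : H, (bad ρ σ e g).card := by
        refine le_trans (Finset.card_le_card fun j hj => ?_) Finset.card_biUnion_le
        by_contra hb
        simp only [Finset.mem_biUnion, Finset.mem_univ, true_and, not_exists, bad,
          Finset.mem_filter, not_not] at hb
        exact (Finset.mem_filter.1 hj).2 (h2 j hb)
      have a2 : ((Finset.univ.filter fun j => e' j ≠ e j).card : ℝ)
          ≤ ∑ g : H, ((bad ρ σ e g).card : ℝ) := by exact_mod_cast a1
      have a3 : ∑ g : H, 2 * ((bad ρ σ e g).card : ℝ)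
          ≤ Fintype.card H * (ε / Fintype.card H * ρ.card) := by
        rw [← nsmul_eq_mul, ← Finset.card_univ]
        refine Finset.sum_le_card_nsmul _ _ _ fun g _ => ?_
        rw [← fr_bad]; exact h g
      rw [← Finset.mul_sum] at a3
      have a4 : Fintype.card H * (ε / Fintype.card H * ρ.card) = ε * ρ.card := by field_simp
      linarith

section GP
variable (K : Subgroup G) [K.Normal]

def cj (g : G) (L : Set K) : Set K := {k | MulAut.conjNormal g k ∈ L}

lemma cj_cj (a b : G) (L : Set K) : cj K a (cj K b L) = cj K (b * a) L := by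
  ext k; simp [cj]

lemma cj_one (L : Set K) : cj K 1 L = L := by
  ext k; simp [cj]

def cjs : Setoid (Set K) where
  r L L' := ∃ g, L' = cj K g L
  iseqv := ⟨fun L => ⟨1, (cj_one K L).symm⟩,
    by rintro L _ ⟨g, rfl⟩; exact ⟨g⁻¹, by rw [cj_cj, mul_inv_cancel, cj_one]⟩,
    by rintro L _ _ ⟨g, rfl⟩ ⟨h, rfl⟩; exact ⟨_, cj_cj K _ _ _⟩⟩

omit [K.Normal] in
def st (ρ : Rep CP G) (x : ρ.ι) : Set K := {k | perm ρ k x = x}

lemma st_smul (ρ : Rep CP G) (g : G) (x : ρ.ι) : st K ρ (perm ρ g x) = cj K g⁻¹ (st K ρ x) := by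
  ext k
  simp only [st, cj, Set.mem_ofPred_eq, MulAut.conjNormal_apply, inv_inv]
  simp only [map_mul, map_inv, Equiv.Perm.mul_apply, Equiv.Perm.inv_eq_iff_eq]

lemma cls_smul (ρ : Rep CP G) (g : G) (x : ρ.ι) :
    Quotient.mk (cjs K) (st K ρ (perm ρ g x)) = Quotient.mk (cjs K) (st K ρ x) :=
  (Quotient.sound (s := cjs K) ⟨g⁻¹, st_smul K ρ g x⟩).symm

def subPerm {ι : Type} (f : G →* Equiv.Perm ι) (p : ι → Prop) (hp : ∀ g x, p (f g x) ↔ p x) :
    G →* Equiv.Perm {x // p x} where
  toFun g := (f g).subtypePerm (hp g)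
  map_one' := by ext x; simp
  map_mul' a b := by ext x; simp

open Classical in
lemma card_st (ρ : Rep CP G) {L L' : Set K} (h : (cjs K).r L L') :
    cnt (fun x => st K ρ x = L) = cnt (fun x => st K ρ x = L') := by
  unfold cnt
  obtain ⟨g, rfl⟩ := h
  refine Finset.card_bij (fun x _ => perm ρ g⁻¹ x) ?_ (by simp) ?_
  · intro x hx
    simp only [Finset.mem_filter, Finset.mem_univ, true_and] at hx ⊢
    rw [st_smul, inv_inv, hx]
  · intro y hy
    simp only [Finset.mem_filter, Finset.mem_univ, true_and] at hy ⊢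
    refine ⟨perm ρ g y, by rw [st_smul, hy, cj_cj, mul_inv_cancel, cj_one], by simp⟩

omit [K.Normal] in
lemma st_inl (ρ σ : Rep CP G) (x : ρ.ι) : st K (ρ.sum σ) (Sum.inl x) = st K ρ x := by
  ext k
  simp only [st, Set.mem_ofPred_eq]
  rw [perm_sum]; simp

omit [K.Normal] in
lemma st_inr (ρ σ : Rep CP G) (x : σ.ι) : st K (ρ.sum σ) (Sum.inr x) = st K σ x := by
  ext k
  simp only [st, Set.mem_ofPred_eq]
  rw [perm_sum]; simp

omit [K.Normal] in
lemma st_sub (ρ : Rep CP G) (p : ρ.ι → Prop) [DecidablePred p]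
    (hp : ∀ g x, p (perm ρ g x) ↔ p x) (x : {x // p x}) :
    st K (ofPerm (subPerm (perm ρ) p hp)) x = st K ρ x.1 := by
  ext k
  simp only [st, Set.mem_ofPred_eq]
  rw [perm_ofPerm]; simp [subPerm, Subtype.ext_iff]

omit [K.Normal] in
lemma perm_dec (ρ : Rep CP G) (P : Set K → Prop)
    (hP : ∀ g x, P (st K ρ (perm ρ g x)) ↔ P (st K ρ x)) :
    ∃ σ τ : Rep CP G, Close Set.univ 0 ρ (σ.sum τ) ∧ cnt (fun x => P (st K σ x)) = σ.card ∧
      cnt (fun x => P (st K τ x)) = 0 := by
  classical
  obtain ⟨p, hpd⟩ : ∃ p : ρ.ι → Prop, ∀ x, p x ↔ P (st K ρ x) := ⟨_, fun _ => Iff.rfl⟩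
  have hp : ∀ g x, p (perm ρ g x) ↔ p x := fun g x => by simp only [hpd, hP]
  have hp' : ∀ g x, (fun x => ¬ p x) (perm ρ g x) ↔ (fun x => ¬ p x) x :=
    fun g x => by simp only [hp]
  refine ⟨ofPerm (subPerm (perm ρ) p hp), ofPerm (subPerm (perm ρ) (fun x => ¬ p x) hp'),
    ?_, ?_, ?_⟩
  · refine ⟨pm (Equiv.sumCompl p), ⟨_, rfl⟩, fun g _ => ?_⟩
    refine (fr_bad ρ ((ofPerm (subPerm (perm ρ) p hp)).sum
        (ofPerm (subPerm (perm ρ) (fun x => ¬ p x) hp'))) (Equiv.sumCompl p) g).le.trans ?_
    have : bad ρ ((ofPerm (subPerm (perm ρ) p hp)).sum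
        (ofPerm (subPerm (perm ρ) (fun x => ¬ p x) hp'))) (Equiv.sumCompl p) g = ∅ := by
      rw [bad, Finset.filter_eq_empty_iff, perm_sum, perm_ofPerm, perm_ofPerm]
      rintro (x | x) - <;> simp [subPerm]
    simp [this]
  · have : (fun x => P (st K (ofPerm (subPerm (perm ρ) p hp)) x)) = fun _ => True := by
      funext x
      rw [st_sub]; exact eq_true ((hpd _).1 x.2)
    rw [this]; simp [cnt, Rep.card]
  · have : (fun x => P (st K (ofPerm (subPerm (perm ρ) (fun x => ¬ p x) hp')) x))
        = fun _ => False := by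
      funext x
      rw [st_sub]; exact eq_false (fun h => x.2 ((hpd _).2 h))
    rw [this]; simp [cnt]

open Classical in
/-- decomposition data for permutation representations -/
def GP [Finite K] {H : Type} [Group H] [Fintype H] (i : H →* G) (hi : ∀ h, i h ∈ K) :
    GData (HP H) G i :=
  letI := Fintype.ofFinite K
  { I := Quotient (cjs K)
    n := fun ρ c => cnt fun x => Quotient.mk (cjs K) (st K ρ x) = c
    K := Finset.univ.image K.subtype
    v := fun c t => (cnt (fun L : Set K => Quotient.mk (cjs K) L = c ∧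
      {h | (⟨i h, hi h⟩ : K) ∈ L} = t) : ℝ) / cnt fun L : Set K => Quotient.mk (cjs K) L = c
    sum_n := by
      intro ρ
      have := cnt_fib (fun x => Quotient.mk (cjs K) (st K ρ x)) (fun _ => True)
      simpa [cnt, Rep.card] using this.symm
    n_sum := by
      intro ρ σ c
      rw [cnt_eq_sum, cnt_eq_sum, cnt_eq_sum, Fintype.sum_sum_type]
      simp only [st_inl, st_inr]
    cont := by
      intro ε hε
      have hK : (0:ℝ) < (Finset.univ.image K.subtype).card := by
        have : 0 < (Finset.univ.image K.subtype).card :=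
          Finset.card_pos.2 ⟨_, Finset.mem_image_of_mem _ (Finset.mem_univ 1)⟩
        exact_mod_cast this
      refine ⟨ε / (Finset.univ.image K.subtype).card, by positivity, fun ρ σ h c => ?_⟩
      have := count_close _ h (fun x => Quotient.mk (cjs K) (st K ρ x) = c)
        (fun x => Quotient.mk (cjs K) (st K σ x) = c) (by
        intro x j hxj
        have : st K ρ x = st K σ j :=
          Set.ext fun k => hxj k (Finset.mem_image.2 ⟨k, Finset.mem_univ _, rfl⟩)
        rw [this])
      refine this.trans (le_of_eq ?_)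
      field_simp
    dec := fun ρ c => perm_dec K ρ (fun L => Quotient.mk (cjs K) L = c)
      (fun g x => by rw [cls_smul])
    type := by
      intro ρ (t : Set H)
      show ((cnt (fun x => {h | perm (ρ.comp i) h x = x} = t) : ℕ) : ℝ) = _
      let m : Set K → ℕ := fun L => cnt fun x => st K ρ x = L
      let w : Quotient (cjs K) → ℕ := fun c => cnt fun L : Set K => Quotient.mk (cjs K) L = c
      let n : Quotient (cjs K) → ℕ := fun c => cnt fun x => Quotient.mk (cjs K) (st K ρ x) = c
      have hm : ∀ L, (m L : ℝ) = n (Quotient.mk (cjs K) L) / w (Quotient.mk (cjs K) L) := by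
        intro L
        have hpos : (0:ℝ) < w (Quotient.mk (cjs K) L) := by
          have : 0 < w (Quotient.mk (cjs K) L) := Finset.card_pos.2 ⟨L, by simp⟩
          exact_mod_cast this
        have : n (Quotient.mk (cjs K) L) = w (Quotient.mk (cjs K) L) * m L := by
          simp only [n, w]
          rw [cnt_fib (st K ρ) (fun L' => Quotient.mk (cjs K) L' = Quotient.mk (cjs K) L),
            cnt_eq_sum (fun L' => Quotient.mk (cjs K) L' = Quotient.mk (cjs K) L), Finset.sum_mul]
          refine Finset.sum_congr rfl fun L' _ => ?_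
          split_ifs with h
          · rw [one_mul]; exact card_st K ρ (Quotient.exact h)
          · simp
        rw [this]; push_cast; field_simp
      have e1 : cnt (fun x => {h | perm (ρ.comp i) h x = x} = t)
          = ∑ L : Set K, if {h | (⟨i h, hi h⟩ : K) ∈ L} = t then m L else 0 := by
        rw [← cnt_fib (st K ρ) (fun L => {h | (⟨i h, hi h⟩ : K) ∈ L} = t)]
        congr 1
      rw [e1]
      show _ = ∑ c, (n c : ℝ) * ((cnt (fun L : Set K => Quotient.mk (cjs K) L = c ∧
        {h | (⟨i h, hi h⟩ : K) ∈ L} = t) : ℝ) / w c)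
      simp only [cnt_eq_sum (fun L : Set K => Quotient.mk (cjs K) L = _ ∧
        {h | (⟨i h, hi h⟩ : K) ∈ L} = t)]
      push_cast
      simp only [Finset.sum_div, Finset.mul_sum]
      rw [Finset.sum_comm]
      refine Finset.sum_congr rfl fun L _ => ?_
      rw [Finset.sum_eq_single (Quotient.mk (cjs K) L)]
      · rw [hm]
        by_cases h : {h | (⟨i h, hi h⟩ : K) ∈ L} = t
        · simp [h, div_eq_mul_inv]
        · simp [h]
      · intro c _ hc
        simp [Ne.symm hc]
      · simp }

end GP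

end
end Pool.Agent.H72.Stab
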