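import Mathlib
import Pool.Agent.H72.StabC

namespace Pool.Agent.H72.Stab
open Matrix Filter Topology
open scoped Kronecker

noncomputable section

section lin
variable {ι κ : Type} [Fintype ι] [Fintype κ] [DecidableEq ι] [DecidableEq κ]

lemma herm_diag {A : Matrix κ κ ℂ} (hA : Aᴴ = A) : ∃ (U : Matrix κ κ ℂ) (lam : κ → ℝ),
    Uᴴ * U = 1 ∧ U * Uᴴ = 1 ∧ A = U * diagonal (fun i => (lam i : ℂ)) * Uᴴ := by
  have h : A.IsHermitian := hA
  refine ⟨h.eigenvectorUnitary, h.eigenvalues, ?_, ?_, ?_⟩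
  · exact (Matrix.mem_unitaryGroup_iff').1 h.eigenvectorUnitary.2
  · exact (Matrix.mem_unitaryGroup_iff).1 h.eigenvectorUnitary.2
  · conv_lhs => rw [h.spectral_theorem]
    rfl

omit [DecidableEq ι] in
lemma fr_mul_diag (S : Matrix ι κ ℂ) (d : κ → ℂ) :
    fr (S * diagonal d) = ∑ j, ‖d j‖ ^ 2 * ∑ i, ‖S i j‖ ^ 2 := by
  unfold fr
  rw [Finset.sum_comm]
  refine Finset.sum_congr rfl fun j _ => ?_
  rw [Finset.mul_sum]
  refine Finset.sum_congr rfl fun i _ => ?_
  rw [mul_diagonal, norm_mul]; ring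

lemma fr_diag (d : κ → ℂ) : fr (diagonal d) = ∑ j, ‖d j‖ ^ 2 := by
  unfold fr
  refine Finset.sum_congr rfl fun i _ => ?_
  rw [Finset.sum_eq_single i]
  · simp
  · intro j _ hj; simp [diagonal_apply_ne _ (Ne.symm hj)]
  · simp

omit [DecidableEq ι] in
lemma polar (T : Matrix ι κ ℂ) : ∃ g : Matrix κ κ ℂ,
    (∀ B : Matrix κ κ ℂ, B * (Tᴴ * T) = (Tᴴ * T) * B → B * g = g * B) ∧
    (T * g) * (T * g)ᴴ * (T * g) = T * g ∧ fr (T * g - T) ≤ fr (Tᴴ * T - 1) ∧
    fr (1 - (T * g)ᴴ * (T * g)) ≤ fr (Tᴴ * T - 1) ∧ (T ≠ 0 → 1 ≤ fr (T * g)) := by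
  obtain ⟨U, lam, h1, h2, hA⟩ := herm_diag (A := Tᴴ * T) (by simp)
  set S := T * U with hS
  have hSS : Sᴴ * S = diagonal (fun i => (lam i : ℂ)) := by
    rw [hS, conjTranspose_mul, Matrix.mul_assoc, ← Matrix.mul_assoc Tᴴ, hA]
    simp only [← Matrix.mul_assoc, h1, Matrix.one_mul]
    rw [Matrix.mul_assoc, h1, Matrix.mul_one]
  have hlam : ∀ j, ∑ i, ‖S i j‖ ^ 2 = lam j := by
    intro j
    have := congrFun (congrFun hSS j) j
    simp only [mul_apply, conjTranspose_apply, diagonal_apply_eq, Complex.star_def,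
      Complex.conj_mul'] at this
    exact_mod_cast this
  have hl0 : ∀ j, 0 ≤ lam j := fun j => by rw [← hlam]; positivity
  let f : κ → ℝ := fun j => (√(lam j))⁻¹
  let χ : κ → ℝ := fun j => if lam j = 0 then 0 else 1
  have hf : ∀ j, f j ^ 2 * lam j = χ j := by
    intro j
    by_cases h : lam j = 0
    · simp [χ, h]
    · simp only [f, χ, if_neg h, inv_pow, Real.sq_sqrt (hl0 j)]
      exact inv_mul_cancel₀ h
  have hfχ : ∀ j, f j * χ j = f j := by
    intro j
    by_cases h : lam j = 0 <;> simp [f, χ, h]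
  have hT : T = S * Uᴴ := by rw [hS, Matrix.mul_assoc, h2, Matrix.mul_one]
  have hV : T * (U * diagonal (fun i => (f i : ℂ)) * Uᴴ) = S * diagonal (fun i => (f i : ℂ)) * Uᴴ := by
    simp only [hS, Matrix.mul_assoc]
  have hVV : (S * diagonal (fun i => (f i : ℂ)) * Uᴴ)ᴴ * (S * diagonal (fun i => (f i : ℂ)) * Uᴴ)
      = U * diagonal (fun i => (χ i : ℂ)) * Uᴴ := by
    simp only [conjTranspose_mul, conjTranspose_conjTranspose, Matrix.mul_assoc]
    rw [← Matrix.mul_assoc Sᴴ, hSS]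
    simp only [← Matrix.mul_assoc]
    congr 1
    simp only [Matrix.mul_assoc]
    congr 1
    rw [diagonal_conjTranspose, diagonal_mul_diagonal, diagonal_mul_diagonal]
    congr 1
    funext j
    rw [← hf]; simp; ring
  have hfr : ∀ d : κ → ℂ, fr (U * diagonal d * Uᴴ) = ∑ j, ‖d j‖ ^ 2 := fun d => by
    rw [fr_mul_right (by simpa using h1), fr_mul_left h1, fr_diag]
  have hA1 : fr (Tᴴ * T - 1) = ∑ j, (lam j - 1) ^ 2 := by
    have : Tᴴ * T - 1 = U * diagonal (fun i => ((lam i - 1 : ℝ) : ℂ)) * Uᴴ := by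
      rw [hA, show (1 : Matrix κ κ ℂ) = U * 1 * Uᴴ by rw [Matrix.mul_one, h2]]
      rw [← Matrix.sub_mul, ← Matrix.mul_sub, ← diagonal_one, diagonal_sub]
      simp
    rw [this, hfr]
    simp only [Complex.norm_real, Real.norm_eq_abs, sq_abs]
  refine ⟨U * diagonal (fun i => (f i : ℂ)) * Uᴴ, fun B hB => ?_, ?_, ?_, ?_, fun hT0 => ?_⟩
  · set B' := Uᴴ * B * U with hB'
    have e1 : B' * diagonal (fun i => (lam i : ℂ)) = diagonal (fun i => (lam i : ℂ)) * B' := by
      have := congrArg (fun X => Uᴴ * X * U) hB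
      simp only [hA, ← Matrix.mul_assoc, h1, Matrix.one_mul] at this
      rw [Matrix.mul_assoc _ Uᴴ U, h1, Matrix.mul_one] at this
      rw [hB', this]; simp only [Matrix.mul_assoc]
    have e2 : B' * diagonal (fun i => (f i : ℂ)) = diagonal (fun i => (f i : ℂ)) * B' := by
      ext i j
      have := congrFun (congrFun e1 i) j
      rw [mul_diagonal, diagonal_mul] at this ⊢
      by_cases h : B' i j = 0
      · simp [h]
      · have h3 : (lam j : ℂ) = lam i := by
          rw [mul_comm] at this; exact mul_right_cancel₀ h this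
        have h4 : lam j = lam i := by exact_mod_cast h3
        simp only [f, h4]; ring
    have e3 : B = U * B' * Uᴴ := by
      simp only [hB', ← Matrix.mul_assoc, h2, Matrix.one_mul]
      rw [Matrix.mul_assoc, h2, Matrix.mul_one]
    rw [e3]
    simp only [Matrix.mul_assoc]
    rw [← Matrix.mul_assoc Uᴴ U, ← Matrix.mul_assoc Uᴴ U, h1, Matrix.one_mul, Matrix.one_mul,
      ← Matrix.mul_assoc B', e2, Matrix.mul_assoc]
  · rw [hV, Matrix.mul_assoc _ _ (S * _ * Uᴴ), hVV]
    simp only [Matrix.mul_assoc]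
    rw [← Matrix.mul_assoc Uᴴ U, h1, Matrix.one_mul, ← Matrix.mul_assoc (diagonal _),
      diagonal_mul_diagonal]
    congr 3
    funext j
    exact_mod_cast hfχ j
  · rw [hV, hA1]
    conv_lhs => enter [1, 2]; rw [hT, ← Matrix.mul_one S]
    rw [← Matrix.sub_mul, ← Matrix.mul_sub, ← diagonal_one, diagonal_sub,
      fr_mul_right (by simpa using h1), fr_mul_diag]
    refine Finset.sum_le_sum fun j _ => ?_
    rw [hlam]
    have e : ‖(f j : ℂ) - 1‖ ^ 2 = (f j - 1) ^ 2 := by
      rw [← Complex.ofReal_one, ← Complex.ofReal_sub, Complex.norm_real, Real.norm_eq_abs, sq_abs]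
    rw [e]
    by_cases h : lam j = 0
    · simp [h]
    · have hs : 0 < √(lam j) := Real.sqrt_pos.2 (lt_of_le_of_ne (hl0 j) (Ne.symm h))
      have hs2 : lam j = √(lam j) ^ 2 := (Real.sq_sqrt (hl0 j)).symm
      simp only [f]
      generalize √(lam j) = s at hs hs2
      rw [hs2]
      have : (s⁻¹ - 1) ^ 2 * s ^ 2 = (1 - s) ^ 2 := by field_simp
      rw [this]
      nlinarith [sq_nonneg (1 - s), mul_nonneg (sq_nonneg (1 - s)) hs.le,
        mul_nonneg (sq_nonneg (1 - s)) (sq_nonneg s)]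
  · rw [hV, hVV, hA1]
    have : 1 - U * diagonal (fun i => (χ i : ℂ)) * Uᴴ
        = U * diagonal (fun i => ((1 - χ i : ℝ) : ℂ)) * Uᴴ := by
      rw [show (1 : Matrix κ κ ℂ) = U * 1 * Uᴴ by rw [Matrix.mul_one, h2]]
      rw [← Matrix.sub_mul, ← Matrix.mul_sub, ← diagonal_one, diagonal_sub]
      simp
    rw [this, hfr]
    refine Finset.sum_le_sum fun j _ => ?_
    simp only [Complex.norm_real, Real.norm_eq_abs, sq_abs]
    by_cases h : lam j = 0
    · simp [χ, h]
    · simp only [χ, if_neg h]; nlinarith [sq_nonneg (lam j - 1)]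
  · rw [hV, fr_mul_right (by simpa using h1), fr_mul_diag]
    simp only [hlam, Complex.norm_real, Real.norm_eq_abs, sq_abs, hf]
    obtain ⟨j, hj⟩ : ∃ j, lam j ≠ 0 := by
      by_contra hc
      push Not at hc
      apply hT0
      have : fr S = 0 := by
        unfold fr; rw [Finset.sum_comm]; simp [hlam, hc]
      rw [hT, eq_zero_of_fr this.le, Matrix.zero_mul]
    have := Finset.single_le_sum (f := χ) (fun j _ => by simp only [χ]; split_ifs <;> simp)
      (Finset.mem_univ j)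
    simpa [χ, hj] using this

lemma proj_range {Q : Matrix ι ι ℂ} (h1 : Qᴴ = Q) (h2 : Q * Q = Q) :
    ∃ (α : Type) (_ : Fintype α) (_ : DecidableEq α) (w : Matrix ι α ℂ),
      wᴴ * w = 1 ∧ w * wᴴ = Q := by
  obtain ⟨U, lam, u1, u2, hA⟩ := herm_diag h1
  have hD : diagonal (fun i => (lam i : ℂ)) = Uᴴ * Q * U := by
    rw [hA]
    simp only [← Matrix.mul_assoc, u1, Matrix.one_mul]
    rw [Matrix.mul_assoc, u1, Matrix.mul_one]
  have hl : ∀ i, (lam i : ℂ) * lam i = lam i := by
    intro i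
    have : diagonal (fun i => (lam i : ℂ)) * diagonal (fun i => (lam i : ℂ))
        = diagonal (fun i => (lam i : ℂ)) := by
      rw [hD]
      simp only [Matrix.mul_assoc]
      rw [← Matrix.mul_assoc U, u2, Matrix.one_mul, ← Matrix.mul_assoc Q, h2]
    rw [diagonal_mul_diagonal] at this
    simpa using congrFun (congrFun this i) i
  refine ⟨{i // (lam i : ℂ) = 1}, inferInstance, inferInstance, U.submatrix id Subtype.val, ?_, ?_⟩
  · ext a b
    have := congrFun (congrFun u1 a.1) b.1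
    simp only [mul_apply, conjTranspose_apply, submatrix_apply, id, one_apply,
      Subtype.ext_iff] at this ⊢
    exact this
  · rw [hA]
    ext a b
    rw [mul_apply, mul_apply]
    simp only [mul_diagonal, conjTranspose_apply, submatrix_apply, id]
    rw [← Finset.sum_subtype (Finset.univ.filter fun i => (lam i : ℂ) = 1) (by simp)
      (fun i => U a i * star (U b i)), Finset.sum_filter]
    refine Finset.sum_congr rfl fun i _ => ?_
    split_ifs with h
    · rw [h, mul_one]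
    · have : (lam i : ℂ) = 0 := by
        by_contra h0
        exact h (mul_left_cancel₀ h0 (by rw [hl, mul_one]))
      simp [this]

lemma proj_trace {Q : Matrix ι ι ℂ} (h1 : Qᴴ = Q) (h2 : Q * Q = Q) : ∃ m : ℕ, trace Q = m := by
  obtain ⟨α, _, _, w, a, b⟩ := proj_range h1 h2
  exact ⟨Fintype.card α, by rw [← b, trace_mul_comm, a]; simp⟩

variable {H : Type} [Group H]

lemma uni_inv {ρ : H →* Matrix κ κ ℂ} (hρ : ∀ h, (ρ h)ᴴ * ρ h = 1) (h : H) :
    ρ h⁻¹ = (ρ h)ᴴ := by
  rw [← Matrix.one_mul (ρ h⁻¹), ← hρ h, Matrix.mul_assoc, ← map_mul, mul_inv_cancel, map_one,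
    Matrix.mul_one]

lemma avg_inter [Fintype H] (ρ' : H →* Matrix ι ι ℂ) (ρ : H →* Matrix κ κ ℂ) (X : Matrix ι κ ℂ)
    (k : H) : ρ' k * (∑ h, ρ' h * X * ρ h⁻¹) = (∑ h, ρ' h * X * ρ h⁻¹) * ρ k := by
  rw [Matrix.mul_sum, Matrix.sum_mul, ← Equiv.sum_comp (Equiv.mulLeft k)
    (fun h => ρ' h * X * ρ h⁻¹ * ρ k)]
  refine Finset.sum_congr rfl fun h _ => ?_
  simp only [Equiv.coe_mulLeft, Matrix.mul_assoc, ← map_mul]
  rw [map_mul ρ', Matrix.mul_assoc]
  congr 3
  group

lemma exists_inter [Fintype H] (ρ' : H →* Matrix ι ι ℂ) (ρ : H →* Matrix κ κ ℂ)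
    (hρ : ∀ h, (ρ h)ᴴ * ρ h = 1) {p' : Matrix ι ι ℂ} {p : Matrix κ κ ℂ}
    (a1 : p' * p' = p') (a2 : ∀ h, ρ' h * p' = p' * ρ' h) (b0 : pᴴ = p)
    (b1 : p * p = p) (b2 : ∀ h, ρ h * p = p * ρ h)
    (ht : ∀ h, trace (ρ' h * p') = trace (ρ h * p)) (hp : p ≠ 0) :
    ∃ T : Matrix ι κ ℂ, T ≠ 0 ∧ (∀ h, ρ' h * T = T * ρ h) ∧ p' * T = T ∧ T * p = T := by
  by_contra hc
  push Not at hc
  have hz : ∀ (i : ι) (j : κ), ∑ h, ρ' h * (p' * single i j (1:ℂ) * p) * ρ h⁻¹ = 0 := by
    intro i j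
    by_contra h0
    refine hc _ h0 (avg_inter ρ' ρ _) ?_ ?_
    · rw [Matrix.mul_sum]
      refine Finset.sum_congr rfl fun h _ => ?_
      simp only [← Matrix.mul_assoc]
      rw [← a2, Matrix.mul_assoc (ρ' h) p' p', a1]
    · rw [Matrix.sum_mul]
      refine Finset.sum_congr rfl fun h _ => ?_
      simp only [Matrix.mul_assoc]
      rw [b2, ← Matrix.mul_assoc p p, b1]
  have h1 : ∑ h, trace (ρ' h * p') * trace (p * ρ h⁻¹) = 0 := by
    have : ∀ i j, ∑ h, (ρ' h * p') i i * (p * ρ h⁻¹) j j = 0 := by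
      intro i j
      have := congrFun (congrFun (hz i j) i) j
      rw [Matrix.sum_apply] at this
      rw [← show (0 : Matrix ι κ ℂ) i j = 0 from rfl, ← this]
      refine Finset.sum_congr rfl fun h _ => ?_
      have e : ρ' h * (p' * single i j (1:ℂ) * p) * ρ h⁻¹
          = (ρ' h * p') * single i j (1:ℂ) * (p * ρ h⁻¹) := by simp only [Matrix.mul_assoc]
      rw [e]
      generalize ρ' h * p' = X
      generalize p * ρ h⁻¹ = Y
      rw [mul_apply, Finset.sum_eq_single j]
      · simp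
      · intro b _ hb; simp [hb]
      · simp
    simp only [trace, diag, Finset.sum_mul_sum]
    rw [Finset.sum_comm]
    refine Finset.sum_eq_zero fun i _ => ?_
    rw [Finset.sum_comm]
    exact Finset.sum_eq_zero fun j _ => this i j
  have h2 : ∑ h, ‖trace (ρ h * p)‖ ^ 2 = 0 := by
    apply Complex.ofReal_injective
    push_cast
    rw [← h1]
    refine Finset.sum_congr rfl fun h _ => ?_
    rw [ht, uni_inv hρ, ← Complex.mul_conj', ← Complex.star_def, ← trace_conjTranspose,
      conjTranspose_mul, b0]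
  rw [Finset.sum_eq_zero_iff_of_nonneg (fun _ _ => by positivity)] at h2
  have h3 := h2 1 (Finset.mem_univ _)
  simp only [map_one, Matrix.one_mul, ne_eq, OfNat.ofNat_ne_zero, not_false_eq_true,
    pow_eq_zero_iff, norm_eq_zero] at h3
  apply hp
  apply eq_zero_of_fr
  have : (fr p : ℂ) = 0 := by rw [fr_eq_trace, b0, b1, h3]
  exact le_of_eq (by exact_mod_cast this)

omit [DecidableEq ι] in
lemma fr_compl {V : Matrix ι κ ℂ} (hV : V * Vᴴ * V = V) :
    fr (1 - Vᴴ * V) = Fintype.card κ - fr V := by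
  apply Complex.ofReal_injective
  push_cast
  rw [fr_eq_trace, fr_eq_trace]
  have : (1 - Vᴴ * V)ᴴ * (1 - Vᴴ * V) = 1 - Vᴴ * V := by
    simp only [conjTranspose_sub, conjTranspose_one, conjTranspose_mul,
      conjTranspose_conjTranspose, Matrix.sub_mul, Matrix.mul_sub, Matrix.one_mul, Matrix.mul_one]
    rw [Matrix.mul_assoc Vᴴ V, ← Matrix.mul_assoc V, hV]; abel
  rw [this, trace_sub]; simp

lemma extend_unitary [Fintype H] (ρ' : H →* Matrix ι ι ℂ) (ρ : H →* Matrix κ κ ℂ)
    (hρ' : ∀ h, (ρ' h)ᴴ * ρ' h = 1) (hρ : ∀ h, (ρ h)ᴴ * ρ h = 1)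
    (ht : ∀ h, trace (ρ' h) = trace (ρ h)) (m : ℕ) : ∀ V : Matrix ι κ ℂ, V * Vᴴ * V = V →
      (∀ h, ρ' h * V = V * ρ h) → Fintype.card κ < fr V + m →
      ∃ U : Matrix ι κ ℂ, Uᴴ * U = 1 ∧ U * Uᴴ = 1 ∧ (∀ h, ρ' h * U = U * ρ h) ∧
        U * (Vᴴ * V) = V := by
  induction m with
  | zero =>
    intro V hV _ hlt
    have := fr_nonneg (1 - Vᴴ * V)
    rw [fr_compl hV] at this
    simp at hlt; linarith
  | succ m ih =>
    intro V hV hi hlt
    have hV' : Vᴴ * V * Vᴴ = Vᴴ := by
      have := congrArg conjTranspose hV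
      simpa [Matrix.mul_assoc] using this
    have hi' : ∀ h, Vᴴ * ρ' h = ρ h * Vᴴ := by
      intro h
      have := congrArg conjTranspose (hi h⁻¹)
      simpa [uni_inv hρ, uni_inv hρ'] using this
    by_cases hp : 1 - Vᴴ * V = 0
    · have h1 : Vᴴ * V = 1 := (sub_eq_zero.1 hp).symm
      refine ⟨V, h1, ?_, hi, by rw [h1, Matrix.mul_one]⟩
      have h2 := fr_compl (V := Vᴴ) (by simpa using hV')
      have h3 : (Fintype.card ι : ℝ) = Fintype.card κ := by
        have := ht 1
        simp only [map_one, trace_one] at this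
        exact_mod_cast this
      rw [fr_conjT, fr_iso h1, h3, sub_self, conjTranspose_conjTranspose] at h2
      exact (sub_eq_zero.1 (eq_zero_of_fr h2.le)).symm
    · obtain ⟨T, hT0, hTi, hT1, hT2⟩ := exists_inter ρ' ρ hρ (p' := 1 - V * Vᴴ) (p := 1 - Vᴴ * V)
        (by
          simp only [Matrix.sub_mul, Matrix.mul_sub, Matrix.one_mul, Matrix.mul_one]
          rw [← Matrix.mul_assoc, hV]; abel)
        (by
          intro h
          simp only [Matrix.sub_mul, Matrix.mul_sub, Matrix.one_mul, Matrix.mul_one]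
          rw [← Matrix.mul_assoc, hi, Matrix.mul_assoc, Matrix.mul_assoc, hi'])
        (by simp)
        (by
          simp only [Matrix.sub_mul, Matrix.mul_sub, Matrix.one_mul, Matrix.mul_one]
          rw [← Matrix.mul_assoc, hV']; abel)
        (by
          intro h
          simp only [Matrix.sub_mul, Matrix.mul_sub, Matrix.one_mul, Matrix.mul_one]
          rw [← Matrix.mul_assoc, ← hi', Matrix.mul_assoc, Matrix.mul_assoc, hi])
        (by
          intro h
          simp only [Matrix.mul_sub, Matrix.mul_one, trace_sub, ht]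
          rw [← Matrix.mul_assoc, hi, trace_mul_comm, ← Matrix.mul_assoc, trace_mul_comm])
        hp
      obtain ⟨g, hg, p1, -, -, p4⟩ := polar T
      have hTi' : ∀ h, Tᴴ * ρ' h = ρ h * Tᴴ := by
        intro h
        have := congrArg conjTranspose (hTi h⁻¹)
        simpa [uni_inv hρ, uni_inv hρ'] using this
      set W := T * g with hW
      have w1 : ∀ h, ρ' h * W = W * ρ h := by
        intro h
        rw [hW, ← Matrix.mul_assoc, hTi, Matrix.mul_assoc, hg _ (by
          rw [← Matrix.mul_assoc, ← hTi', Matrix.mul_assoc, hTi, Matrix.mul_assoc]),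
          Matrix.mul_assoc]
      have w2 : Vᴴ * W = 0 := by
        rw [hW, ← hT1]
        simp only [← Matrix.mul_assoc, Matrix.mul_sub, Matrix.mul_one, hV', sub_self,
          Matrix.zero_mul]
      have w3 : W * Vᴴ = 0 := by
        have c : (1 - Vᴴ * V) * g = g * (1 - Vᴴ * V) := hg _ (by
          have : (1 - Vᴴ * V) * Tᴴ = Tᴴ := by
            have := congrArg conjTranspose hT2
            simpa using this
          rw [← Matrix.mul_assoc, this, Matrix.mul_assoc Tᴴ T, hT2])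
        rw [hW, ← hT2, Matrix.mul_assoc T, c]
        simp only [Matrix.mul_assoc, Matrix.sub_mul, Matrix.one_mul]
        rw [← Matrix.mul_assoc Vᴴ V, hV']; simp
      have w2' : Wᴴ * V = 0 := by
        have := congrArg conjTranspose w2
        simpa using this
      have w3' : V * Wᴴ = 0 := by
        have := congrArg conjTranspose w3
        simpa using this
      have e1 : (V + W)ᴴ * (V + W) = Vᴴ * V + Wᴴ * W := by
        simp only [conjTranspose_add, Matrix.add_mul, Matrix.mul_add, w2, w2']; abel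
      obtain ⟨U, u1, u2, u3, u4⟩ := ih (V + W)
        (by
          rw [Matrix.mul_assoc, e1]
          simp only [Matrix.add_mul, Matrix.mul_add, ← Matrix.mul_assoc, hV, p1, w3, w3',
            Matrix.zero_mul]
          abel)
        (fun h => by rw [Matrix.mul_add, Matrix.add_mul, hi, w1])
        (by
          have : fr (V + W) = fr V + fr W := by
            apply Complex.ofReal_injective
            push_cast
            rw [fr_eq_trace, fr_eq_trace, fr_eq_trace, e1, trace_add]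
          have := p4 hT0
          push_cast at hlt
          linarith)
      refine ⟨U, u1, u2, u3, ?_⟩
      have := congrArg (· * (Vᴴ * V)) u4
      simp only [e1, Matrix.add_mul, Matrix.mul_add, Matrix.mul_assoc] at this
      simp only [← Matrix.mul_assoc W, w3, Matrix.zero_mul, Matrix.mul_zero, add_zero] at this
      rw [← Matrix.mul_assoc V, hV] at this
      exact this

lemma near_unitary [Fintype H] (ρ' : H →* Matrix ι ι ℂ) (ρ : H →* Matrix κ κ ℂ)
    (hρ' : ∀ h, (ρ' h)ᴴ * ρ' h = 1) (hρ : ∀ h, (ρ h)ᴴ * ρ h = 1)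
    (ht : ∀ h, trace (ρ' h) = trace (ρ h)) (T : Matrix ι κ ℂ) (hTi : ∀ h, ρ' h * T = T * ρ h) :
    ∃ U : Matrix ι κ ℂ, Uᴴ * U = 1 ∧ U * Uᴴ = 1 ∧ (∀ h, ρ' h * U = U * ρ h) ∧
        fr (U - T) ≤ 4 * fr (Tᴴ * T - 1) := by
  obtain ⟨g, hg, p1, p2, p3, -⟩ := polar T
  have hTi' : ∀ h, Tᴴ * ρ' h = ρ h * Tᴴ := by
    intro h
    have := congrArg conjTranspose (hTi h⁻¹)
    simpa [uni_inv hρ, uni_inv hρ'] using this
  obtain ⟨U, u1, u2, u3, u4⟩ := extend_unitary ρ' ρ hρ' hρ ht (Fintype.card κ + 1) (T * g) p1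
    (fun h => by
      rw [← Matrix.mul_assoc, hTi, Matrix.mul_assoc, hg _ (by
          rw [← Matrix.mul_assoc, ← hTi', Matrix.mul_assoc, hTi, Matrix.mul_assoc]),
          Matrix.mul_assoc])
    (by push_cast; linarith [fr_nonneg (T * g)])
  refine ⟨U, u1, u2, u3, ?_⟩
  have t := fr_tri U (T * g) T
  have e : U - T * g = U * (1 - (T * g)ᴴ * (T * g)) := by rw [Matrix.mul_sub, u4, Matrix.mul_one]
  rw [e, fr_mul_left u1] at t
  linarith

end lin

/-- all unitary matrices -/
def CU : Cls where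
  Q w := wᴴ * w = 1 ∧ w * wᴴ = 1
  uni h := h
  mul := by
    rintro ι κ μ _ _ _ _ _ _ w w' ⟨a, b⟩ ⟨c, d⟩
    constructor
    · rw [conjTranspose_mul, Matrix.mul_assoc, ← Matrix.mul_assoc wᴴ, a, Matrix.one_mul, c]
    · rw [conjTranspose_mul, Matrix.mul_assoc, ← Matrix.mul_assoc w', d, Matrix.one_mul, b]
  adj := by
    rintro ι κ _ _ _ _ w ⟨a, b⟩
    simp [a, b]
  blk := by
    rintro ι κ μ ν _ _ _ _ _ _ _ _ w w' ⟨a, b⟩ ⟨c, d⟩
    simp [fromBlocks_conjTranspose, fromBlocks_multiply, a, b, c, d]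
  eqv e := by
    rw [pm_conjT, pm_mul, pm_mul]
    simp [pm_refl]
  shrink := by
    rintro α β _ _ _ _ w ⟨h1, h2⟩
    obtain ⟨A, B, C, D, rfl⟩ : ∃ A B C D, w = fromBlocks A B C D :=
      ⟨_, _, _, _, (fromBlocks_toBlocks w).symm⟩
    rw [fromBlocks_conjTranspose, fromBlocks_multiply, ← fromBlocks_one, fromBlocks_inj] at h1 h2
    obtain ⟨U, u1, u2, -, u4⟩ := near_unitary (H := Unit) (1 : Unit →* Matrix α α ℂ) (1 : Unit →* Matrix α α ℂ)
      (by simp) (by simp) (by simp) A (by simp)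
    refine ⟨U, ⟨u1, u2⟩, ?_⟩
    have e : fromBlocks A B C D - fromBlocks U 0 0 1 = fromBlocks (A - U) B C (D - 1) := by
      ext (i | i) (j | j) <;> simp
    have c1 : fr B + fr D = Fintype.card β := by
      apply Complex.ofReal_injective
      push_cast
      rw [fr_eq_trace, fr_eq_trace, ← trace_add, h1.2.2.2]; simp
    have c2 : fr C + fr D = Fintype.card β := by
      apply Complex.ofReal_injective
      push_cast
      rw [← fr_conjT C, ← fr_conjT D, fr_eq_trace, fr_eq_trace, ← trace_add,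
        conjTranspose_conjTranspose, conjTranspose_conjTranspose, h2.2.2.2]; simp
    have c3 : fr (Aᴴ * A - 1) + fr (A * Cᴴ) = fr C := by
      have e2 : Aᴴ * A - 1 = - (Cᴴ * C) := by rw [← h1.1]; abel
      apply Complex.ofReal_injective
      push_cast
      rw [e2, fr_neg, fr_eq_trace, fr_eq_trace, fr_eq_trace]
      simp only [conjTranspose_mul, conjTranspose_conjTranspose]
      have e3 : (C * Aᴴ * (A * Cᴴ)).trace = (Cᴴ * C * (Aᴴ * A)).trace := by
        rw [← Matrix.mul_assoc, trace_mul_comm]; simp only [Matrix.mul_assoc]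
      rw [e3, ← trace_add, ← Matrix.mul_add, add_comm, h1.1, Matrix.mul_one]
    have c4 := fr_sub_le D 1
    rw [fr_iso (U := (1 : Matrix β β ℂ)) (by simp)] at c4
    rw [e, fr_blocks, fr_sub_comm A]
    linarith [fr_nonneg (A * Cᴴ), fr_nonneg B, fr_nonneg C, fr_nonneg D]

lemma trace_close {ι κ : Type} [Fintype ι] [Fintype κ] [DecidableEq ι] [DecidableEq κ]
    {w : Matrix ι κ ℂ} (hw : wᴴ * w = 1 ∧ w * wᴴ = 1) (A : Matrix ι ι ℂ) (B : Matrix κ κ ℂ)
    {η : ℝ} (hη : 0 ≤ η) (h : fr (A * w - w * B) ≤ η ^ 2 * Fintype.card ι) :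
    ‖trace A - trace B‖ ≤ η * Fintype.card ι := by
  rw [← fr_conj hw] at h
  have e : trace A - trace B = trace (A - w * B * wᴴ) := by
    rw [trace_sub, trace_mul_comm _ wᴴ, ← Matrix.mul_assoc, hw.1, Matrix.one_mul]
  have h1 := norm_trace_sq_le (A - w * B * wᴴ)
  rw [e]
  have h0 : (0:ℝ) ≤ Fintype.card ι := Nat.cast_nonneg _
  refine (pow_le_pow_iff_left₀ (norm_nonneg _) (by positivity) two_ne_zero).1 (h1.trans ?_)
  nlinarith [mul_le_mul_of_nonneg_left h h0]

/-- characters of unitary representations of a finite group -/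
def HU (H : Type) [Group H] [Fintype H] : HData CU H where
  T := H × Bool
  τ ρ t := if t.2 then (trace (ρ.π t.1)).re else (trace (ρ.π t.1)).im
  rat := by
    intro ρ σ
    let R : H →* Matrix (ρ.ι × σ.ι) (ρ.ι × σ.ι) ℂ :=
      { toFun := fun h => ρ.π h ⊗ₖ (σ.π h⁻¹)ᵀ
        map_one' := by simp
        map_mul' := fun a b => by
          rw [← mul_kronecker_mul, ← transpose_mul, ← map_mul, ← map_mul, _root_.mul_inv_rev] }
    have hR : ∀ h, (R h)ᴴ = R h⁻¹ := by
      intro h
      show (ρ.π h ⊗ₖ (σ.π h⁻¹)ᵀ)ᴴ = ρ.π h⁻¹ ⊗ₖ (σ.π h⁻¹⁻¹)ᵀ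
      rw [conjTranspose_kronecker, uni_inv (fun h => (ρ.good h).1),
        uni_inv (fun h => (σ.good h).1) h⁻¹]
      rfl
    have hH : (Fintype.card H : ℂ) ≠ 0 := by exact_mod_cast Fintype.card_ne_zero
    obtain ⟨m, hm⟩ := proj_trace (Q := (Fintype.card H : ℂ)⁻¹ • ∑ h, R h)
      (by
        rw [conjTranspose_smul, conjTranspose_sum]
        simp only [hR]
        rw [Equiv.sum_comp (Equiv.inv H) R |>.symm]
        simp)
      (by
        rw [Matrix.smul_mul, Matrix.mul_smul, Matrix.sum_mul]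
        have : ∀ k, R k * ∑ h, R h = ∑ h, R h := by
          intro k
          rw [Matrix.mul_sum]
          simp only [← map_mul]
          exact Equiv.sum_comp (Equiv.mulLeft k) R
        simp only [this, Finset.sum_const, Finset.card_univ, ← Nat.cast_smul_eq_nsmul ℂ, smul_smul]
        rw [inv_mul_cancel₀ hH, mul_one])
    refine ⟨Fintype.card H * m, ?_⟩
    have e1 : ∑ h, trace (R h) = Fintype.card H * m := by
      rw [← hm, trace_smul, trace_sum, smul_eq_mul, mul_inv_cancel_left₀ hH]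
    have e2 := congrArg Complex.re e1
    rw [Complex.re_sum] at e2
    rw [Fintype.sum_prod_type]
    push_cast
    rw [show ((Fintype.card H : ℝ) * m) = ((Fintype.card H : ℂ) * m).re by simp, ← e2]
    refine Finset.sum_congr rfl fun h _ => ?_
    show _ = (trace (ρ.π h ⊗ₖ (σ.π h⁻¹)ᵀ)).re
    rw [trace_kronecker, trace_transpose, uni_inv (fun h => (σ.good h).1), trace_conjTranspose]
    simp
  cont := by
    intro ε hε
    refine ⟨ε ^ 2, by positivity, ?_⟩
    rintro ρ σ ⟨w, hw, h⟩ ⟨g, b⟩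
    have := trace_close hw _ _ hε.le (h g trivial)
    cases b
    · simp only [Bool.false_eq_true, if_false]
      rw [← Complex.sub_im]; exact (Complex.abs_im_le_norm _).trans this
    · simp only [if_true]
      rw [← Complex.sub_re]; exact (Complex.abs_re_le_norm _).trans this
  conj := by
    intro ε hε
    refine ⟨ε / 34, by positivity, fun ρ σ w hw h hτ => ?_⟩
    have hH : (Fintype.card H : ℂ) ≠ 0 := by exact_mod_cast Fintype.card_ne_zero
    have hH' : (0:ℝ) < Fintype.card H := by exact_mod_cast Fintype.card_pos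
    have avg : ∀ {a b : Type} [Fintype a] [Fintype b] (A : H → Matrix a b ℂ) (r : ℝ),
        (∀ h, fr (A h) ≤ r) → fr ((Fintype.card H : ℂ)⁻¹ • ∑ h, A h) ≤ r := by
      intro a b _ _ A r hA
      rw [fr_smul]
      have h1 := fr_sum_le A
      have h2 : ∑ h, fr (A h) ≤ Fintype.card H * r := by
        rw [← nsmul_eq_mul, ← Finset.card_univ]
        exact Finset.sum_le_card_nsmul _ _ _ fun h _ => hA h
      rw [norm_inv, Complex.norm_natCast, inv_pow, inv_mul_le_iff₀ (by positivity)]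
      nlinarith [mul_le_mul_of_nonneg_left h2 hH'.le]
    set T : Matrix ρ.ι σ.ι ℂ := (Fintype.card H : ℂ)⁻¹ • ∑ h, ρ.π h * w * σ.π h⁻¹ with hT
    obtain ⟨U, u1, u2, u3, u4⟩ := near_unitary ρ.π σ.π (fun h => (ρ.good h).1)
      (fun h => (σ.good h).1) (fun h => Complex.ext (congrFun hτ (h, true))
        (congrFun hτ (h, false))) T
      (fun h => by rw [hT, Matrix.mul_smul, Matrix.smul_mul, avg_inter])
    refine ⟨U, ⟨u1, u2⟩, u3, ?_⟩
    have a1 : fr (T - w) ≤ ε / 34 * ρ.card := by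
      have : T - w = (Fintype.card H : ℂ)⁻¹ • ∑ h, (ρ.π h * w - w * σ.π h) * σ.π h⁻¹ := by
        simp only [Matrix.sub_mul, Matrix.mul_assoc, ← map_mul, mul_inv_cancel, map_one,
          Matrix.mul_one, Finset.sum_sub_distrib, Finset.sum_const, Finset.card_univ,
          ← Nat.cast_smul_eq_nsmul ℂ, smul_sub, smul_smul, inv_mul_cancel₀ hH, one_smul, hT]
      rw [this]
      exact avg _ _ fun g => by rw [fr_mul_right (σ.good _).2]; exact h g
    have a2 : fr (Tᴴ * (T - w)) ≤ fr (T - w) := by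
      rw [← fr_conjT, conjTranspose_mul, conjTranspose_conjTranspose]
      generalize (T - w) = X
      rw [hT, Matrix.mul_smul, Matrix.mul_sum]
      refine avg _ _ fun g => ?_
      rw [fr_mul_right (CU.mul (CU.mul (ρ.good g) hw) (σ.good _)).2, fr_conjT]
    have a3 : fr ((T - w)ᴴ * w) = fr (T - w) := by rw [fr_mul_right hw.2, fr_conjT]
    have a4 : Tᴴ * T - 1 = Tᴴ * (T - w) + (T - w)ᴴ * w := by
      rw [conjTranspose_sub, Matrix.mul_sub, Matrix.sub_mul, hw.1]; abel
    have a5 := fr_add_le (Tᴴ * (T - w)) ((T - w)ᴴ * w)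
    rw [← a4] at a5
    have a6 := fr_tri U T w
    linarith

end
end Pool.Agent.H72.Stab
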