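import Mathlib
import Pool.Agent.H72.StabU

namespace Pool.Agent.H72.Stab
open Matrix Filter Topology

noncomputable section

variable {G : Type} [Group G]

lemma central_nilpotent {R : Type} [Ring R] [IsSemisimpleRing R] {y : R}
    (hc : ∀ x, x * y = y * x) (hn : IsNilpotent y) : y = 0 := by
  obtain ⟨e, he, hI⟩ := IsSemisimpleRing.ideal_eq_span_idempotent (Ideal.span {y})
  have h1 : e ∈ Ideal.span {y} := hI ▸ Ideal.subset_span rfl
  have h2 : y ∈ Ideal.span {e} := hI ▸ Ideal.subset_span rfl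
  obtain ⟨r, hr⟩ := Ideal.mem_span_singleton'.1 h1
  obtain ⟨s, hs⟩ := Ideal.mem_span_singleton'.1 h2
  have h3 : IsNilpotent e := hr ▸ (Commute.isNilpotent_mul_left (hc r) hn)
  rw [← hs, he.eq_zero_of_isNilpotent h3, mul_zero]

lemma split_alg (A : Type) [CommRing A] [Algebra ℂ A] [Module.Finite ℂ A] [IsReduced A] :
    ∃ (I : Type) (_ : Fintype I) (q : I → A), (∀ c, q c * q c = q c) ∧ ∑ c, q c = 1 ∧
      ∀ (a : A) c, ∃ l : ℂ, a * q c = l • q c := by
  classical
  have hart : IsArtinianRing A := IsArtinianRing.of_finite ℂ A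
  let e := IsArtinianRing.equivPi A
  have := Fintype.ofFinite (MaximalSpectrum A)
  let q : MaximalSpectrum A → A := fun m => e.symm (Pi.single m 1)
  refine ⟨MaximalSpectrum A, inferInstance, q, fun c => ?_, ?_, fun a m => ?_⟩
  · simp only [q]
    rw [← map_mul, ← Pi.single_mul, mul_one]
  · simp only [q]
    rw [← map_sum, Finset.univ_sum_single (fun _ => 1)]
    exact map_one e.symm
  · have := m.isMaximal
    have : Module.Finite ℂ (A ⧸ m.asIdeal) := inferInstance
    obtain ⟨l, hl⟩ := (IsAlgClosed.algebraMap_bijective_of_isIntegral (k := ℂ)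
      (K := A ⧸ m.asIdeal)).2 (Ideal.Quotient.mk _ a)
    refine ⟨l, e.injective ?_⟩
    rw [Algebra.smul_def, map_mul, map_mul, AlgEquiv.apply_symm_apply]
    funext m'
    by_cases h : m' = m
    · subst h
      simp only [Pi.mul_apply, Pi.single_eq_same, mul_one, e, IsArtinianRing.equivPi_apply]
      rw [← hl]; rfl
    · simp [h]

lemma central_idem (K : Subgroup G) [hK : K.Normal] [Finite K] :
    ∃ (I : Type) (_ : Fintype I) (q : I → MonoidAlgebra ℂ G),
      (∀ c x, x * q c = q c * x) ∧ (∀ c, q c * q c = q c) ∧ ∑ c, q c = 1 ∧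
      ∀ k ∈ K, ∃ S : Finset G, S.Nonempty ∧ (∀ x ∈ S, IsConj k x) ∧
        ∀ c, ∃ l : ℂ, (∑ x ∈ S, MonoidAlgebra.single x (1:ℂ)) * q c = l • q c := by
  classical
  let j : MonoidAlgebra ℂ K →ₐ[ℂ] MonoidAlgebra ℂ G := MonoidAlgebra.mapDomainAlgHom ℂ ℂ K.subtype
  have hj : Function.Injective j := MonoidAlgebra.mapDomain_injective K.subtype_injective
  let Z := Subalgebra.center ℂ (MonoidAlgebra ℂ G)
  let A : Subalgebra ℂ Z := j.range.comap Z.val
  have hfin : Module.Finite ℂ A := by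
    let f : A →ₗ[ℂ] LinearMap.range j.toLinearMap :=
      LinearMap.codRestrict _ (Z.val.toLinearMap ∘ₗ A.val.toLinearMap) (fun a => a.2)
    refine Module.Finite.of_injective f fun a b h => ?_
    have h' : (f a).1 = (f b).1 := congrArg Subtype.val h
    exact Subtype.ext (Subtype.ext h')
  have hred : IsReduced A := ⟨fun y hy => by
    obtain ⟨y', hy'⟩ := y.2
    have hy'' : j y' = y.1.1 := hy'
    have : NeZero (Nat.card K : ℂ) := ⟨by exact_mod_cast Nat.card_pos.ne'⟩
    have h0 : y' = 0 := central_nilpotent (fun x => hj (by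
        rw [map_mul, map_mul, hy'']
        exact Subalgebra.mem_center_iff.1 y.1.2 _)) (by
        obtain ⟨n, hn⟩ := hy
        refine ⟨n, hj ?_⟩
        rw [map_pow, hy'', map_zero]
        exact congrArg (fun a : A => a.1.1) hn)
    apply Subtype.ext; apply Subtype.ext
    rw [← hy'', h0, map_zero]; rfl⟩
  obtain ⟨I, _, q, hq1, hq2, hq⟩ := split_alg A
  refine ⟨I, inferInstance, fun m => (q m).1.1, fun c x =>
    Subalgebra.mem_center_iff.1 (q c).1.2 x, fun c => ?_, ?_, fun k hk => ?_⟩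
  · exact congrArg (fun a : A => a.1.1) (hq1 c)
  · have h2 := congrArg (fun a : A => a.1.1) hq2
    simpa using h2
  · have hfin : {x | IsConj k x}.Finite := by
      refine (Set.toFinite (K : Set G)).subset fun x hx => ?_
      obtain ⟨g, rfl⟩ := isConj_iff.1 hx
      exact hK.conj_mem k hk g
    refine ⟨hfin.toFinset, ⟨k, by simpa using ⟨1, by simp⟩⟩, fun x hx => by simpa using hx, fun c => ?_⟩
    have hz : (∑ x ∈ hfin.toFinset, MonoidAlgebra.single x (1:ℂ)) ∈ Z := by
      rw [Subalgebra.mem_center_iff]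
      intro b
      induction b using MonoidAlgebra.induction_linear with
      | zero => simp
      | add a b ha hb => rw [add_mul, mul_add, ha, hb]
      | single g r =>
        rw [Finset.mul_sum, Finset.sum_mul]
        simp only [MonoidAlgebra.single_mul_single, mul_one, one_mul]
        refine Finset.sum_bij (fun x _ => g * x * g⁻¹) ?_ (by simp) ?_ (by simp)
        · intro x hx
          simp only [Set.Finite.mem_toFinset, Set.mem_ofPred_eq] at hx ⊢
          exact hx.trans (isConj_iff.2 ⟨g, rfl⟩)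
        · intro x hx
          simp only [Set.Finite.mem_toFinset, Set.mem_ofPred_eq] at hx ⊢
          exact ⟨g⁻¹ * x * g, hx.trans (isConj_iff.2 ⟨g⁻¹, by simp⟩), by group⟩
    have hz' : (⟨_, hz⟩ : Z) ∈ A := by
      show (∑ x ∈ hfin.toFinset, MonoidAlgebra.single x (1:ℂ)) ∈ j.range
      refine Subalgebra.sum_mem _ fun x hx => ?_
      have hx' : x ∈ K := by
        obtain ⟨g, rfl⟩ := isConj_iff.1 (show IsConj k x by simpa using hx)
        exact hK.conj_mem k hk g
      exact ⟨MonoidAlgebra.single ⟨x, hx'⟩ 1, by simp [j]⟩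
    obtain ⟨l, hl⟩ := hq ⟨_, hz'⟩ c
    exact ⟨l, congrArg (fun a : A => a.1.1) hl⟩

/-- extension of a representation to the group algebra -/
def ext (ρ : Rep CU G) : MonoidAlgebra ℂ G →ₐ[ℂ] Matrix ρ.ι ρ.ι ℂ :=
  MonoidAlgebra.lift ℂ _ G ρ.π

lemma ext_single (ρ : Rep CU G) (g : G) (r : ℂ) :
    ext ρ (MonoidAlgebra.single g r) = r • ρ.π g := MonoidAlgebra.lift_single _ _ _

lemma trace_ext (ρ : Rep CU G) (x : MonoidAlgebra ℂ G) :
    trace (ext ρ x) = ∑ g ∈ x.coeff.support, x.coeff g * trace (ρ.π g) := by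
  rw [ext, MonoidAlgebra.lift_apply, Finsupp.sum, trace_sum]
  simp

lemma ext_comm (ρ : Rep CU G) {q : MonoidAlgebra ℂ G} (hq : ∀ x, x * q = q * x) (g : G) :
    ρ.π g * ext ρ q = ext ρ q * ρ.π g := by
  have := congrArg (ext ρ) (hq (MonoidAlgebra.single g 1))
  simpa [ext_single] using this

lemma ext_herm (ρ : Rep CU G) {q : MonoidAlgebra ℂ G} (hq : ∀ x, x * q = q * x)
    (hq2 : q * q = q) : (ext ρ q)ᴴ = ext ρ q := by
  set Q := ext ρ q with hQ
  have h1 : Q * Q = Q := by rw [hQ, ← map_mul, hq2]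
  have h2 : ∀ x, (ext ρ x)ᴴ * Q = Q * (ext ρ x)ᴴ := by
    intro x
    induction x using MonoidAlgebra.induction_linear with
    | zero => simp
    | add a b ha hb => rw [map_add, conjTranspose_add, Matrix.add_mul, Matrix.mul_add, ha, hb]
    | single g r =>
      rw [ext_single, conjTranspose_smul, ← uni_inv (fun h => (ρ.good h).1), Matrix.smul_mul,
        Matrix.mul_smul, ext_comm ρ hq]
  have h3 : Qᴴ * Q = Q * Qᴴ := h2 q
  have h4 : Qᴴ * Qᴴ = Qᴴ := by rw [← conjTranspose_mul, h1]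
  have h5 : Q - Qᴴ * Q = 0 := by
    apply eq_zero_of_fr
    have : (fr (Q - Qᴴ * Q) : ℂ) = 0 := by
      rw [fr_eq_trace]
      have : (Q - Qᴴ * Q)ᴴ * (Q - Qᴴ * Q) = 0 := by
        simp only [conjTranspose_sub, conjTranspose_mul, conjTranspose_conjTranspose,
          Matrix.sub_mul, Matrix.mul_sub]
        rw [← Matrix.mul_assoc Qᴴ Qᴴ, h4, Matrix.mul_assoc Qᴴ Q Q, h1, Matrix.mul_assoc Qᴴ Q,
          ← Matrix.mul_assoc Q, ← h3, Matrix.mul_assoc, h1, ← Matrix.mul_assoc, h4]
        simp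
      rw [this, trace_zero]
    exact le_of_eq (by exact_mod_cast this)
  have h6 : Q = Qᴴ * Q := sub_eq_zero.1 h5
  conv_lhs => rw [h6]
  rw [conjTranspose_mul, conjTranspose_conjTranspose, ← h6]

/-- compression of a representation to an invariant subspace -/
abbrev cmp (ρ : Rep CU G) {α : Type} [Fintype α] [DecidableEq α] (w : Matrix ρ.ι α ℂ)
    (h1 : wᴴ * w = 1) (h2 : ∀ g, ρ.π g * (w * wᴴ) = (w * wᴴ) * ρ.π g) : Rep CU G :=
  have key : ∀ g, w * (wᴴ * ρ.π g * w) = ρ.π g * w := fun g => by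
    rw [← Matrix.mul_assoc, ← Matrix.mul_assoc, ← h2]
    simp only [Matrix.mul_assoc, h1, Matrix.mul_one]
  { ι := α
    π := { toFun := fun g => wᴴ * ρ.π g * w
           map_one' := by simp [h1]
           map_mul' := fun a b => by
             rw [Matrix.mul_assoc (wᴴ * ρ.π a), key, map_mul]; simp only [Matrix.mul_assoc] }
    good := fun g => by
      have a1 := uni_inv (fun h => (ρ.good h).1) g
      have a2 : (wᴴ * ρ.π g * w)ᴴ = wᴴ * ρ.π g⁻¹ * w := by
        simp [a1, Matrix.mul_assoc]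
      constructor
      · show (wᴴ * ρ.π g * w)ᴴ * (wᴴ * ρ.π g * w) = 1
        rw [a2, Matrix.mul_assoc (wᴴ * ρ.π g⁻¹), key, Matrix.mul_assoc, ← Matrix.mul_assoc (ρ.π _),
          ← map_mul]
        simp [h1]
      · show (wᴴ * ρ.π g * w) * (wᴴ * ρ.π g * w)ᴴ = 1
        rw [a2, Matrix.mul_assoc (wᴴ * ρ.π g), key, Matrix.mul_assoc, ← Matrix.mul_assoc (ρ.π _),
          ← map_mul]
        simp [h1] }

lemma ext_cmp (ρ : Rep CU G) {α : Type} [Fintype α] [DecidableEq α] (w : Matrix ρ.ι α ℂ)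
    (h1 : wᴴ * w = 1) (h2 : ∀ g, ρ.π g * (w * wᴴ) = (w * wᴴ) * ρ.π g) (x : MonoidAlgebra ℂ G) :
    ext (cmp ρ w h1 h2) x = wᴴ * ext ρ x * w := by
  induction x using MonoidAlgebra.induction_linear with
  | zero => simp
  | add a b ha hb => rw [map_add, map_add, ha, hb, Matrix.mul_add, Matrix.add_mul]
  | single g r =>
    rw [ext_single, ext_single, Matrix.mul_smul, Matrix.smul_mul]; rfl

lemma uni_dec (ρ : Rep CU G) {q : MonoidAlgebra ℂ G} (hq : ∀ x, x * q = q * x)
    (hq2 : q * q = q) : ∃ σ τ : Rep CU G, Close Set.univ 0 ρ (σ.sum τ) ∧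
      trace (ext σ q) = σ.card ∧ trace (ext τ q) = 0 := by
  set Q := ext ρ q with hQ
  have h1 : Q * Q = Q := by rw [hQ, ← map_mul, hq2]
  have h0 : Qᴴ = Q := ext_herm ρ hq hq2
  obtain ⟨α, _, _, w, a1, a2⟩ := proj_range h0 h1
  obtain ⟨β, _, _, w', b1, b2⟩ := proj_range (Q := 1 - Q) (by simp [h0]) (by
    simp [Matrix.sub_mul, Matrix.mul_sub, h1])
  have c1 : ∀ g, ρ.π g * (w * wᴴ) = (w * wᴴ) * ρ.π g := fun g => by rw [a2, hQ, ext_comm ρ hq]
  have c2 : ∀ g, ρ.π g * (w' * w'ᴴ) = (w' * w'ᴴ) * ρ.π g := fun g => by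
    rw [b2, Matrix.mul_sub, Matrix.sub_mul, hQ, ext_comm ρ hq]; simp
  have d1 : Q * w = w := by rw [← a2, Matrix.mul_assoc, a1, Matrix.mul_one]
  have d2 : Q * w' = 0 := by
    have : (1 - Q) * w' = w' := by rw [← b2, Matrix.mul_assoc, b1, Matrix.mul_one]
    rw [← this, ← Matrix.mul_assoc, Matrix.mul_sub, h1]; simp
  have d3 : wᴴ * w' = 0 := by
    rw [← d1, conjTranspose_mul, h0, Matrix.mul_assoc, d2, Matrix.mul_zero]
  have d4 : w'ᴴ * w = 0 := by
    have := congrArg conjTranspose d3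
    simpa using this
  refine ⟨cmp ρ w a1 c1, cmp ρ w' b1 c2, ⟨fromCols w w', ⟨?_, ?_⟩, fun g _ => ?_⟩, ?_, ?_⟩
  · rw [conjTranspose_fromCols_eq_fromRows_conjTranspose, fromRows_mul_fromCols, a1, b1, d3, d4,
      fromBlocks_one]
  · rw [conjTranspose_fromCols_eq_fromRows_conjTranspose, fromCols_mul_fromRows, a2, b2]; simp
  · have : ρ.π g * fromCols w w' = fromCols w w' * fromBlocks (wᴴ * ρ.π g * w) 0 0
        (w'ᴴ * ρ.π g * w') := by
      rw [mul_fromCols, fromCols_mul_fromBlocks]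
      simp only [Matrix.mul_zero, add_zero, zero_add, ← Matrix.mul_assoc, ← c1, ← c2]
      simp only [Matrix.mul_assoc, a1, b1, Matrix.mul_one]
    show fr (ρ.π g * fromCols w w' - fromCols w w' * fromBlocks (wᴴ * ρ.π g * w) 0 0
        (w'ᴴ * ρ.π g * w')) ≤ 0
    rw [this, sub_self, fr_zero]
  · rw [ext_cmp, ← hQ, Matrix.mul_assoc, d1, a1]; simp [Rep.card]
  · rw [ext_cmp, ← hQ, Matrix.mul_assoc, d2]; simp

lemma exists_GU (K : Subgroup G) [K.Normal] [Finite K] {H : Type} [Group H] [Fintype H]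
    (i : H →* G) (hi : ∀ h, i h ∈ K) : Nonempty (GData (HU H) G i) := by
  classical
  obtain ⟨I, _, q, q1, q2, q3, q4⟩ := central_idem K
  have hn : ∀ (ρ : Rep CU G) c, ∃ m : ℕ, trace (ext ρ (q c)) = m := fun ρ c =>
    proj_trace (ext_herm ρ (q1 c) (q2 c)) (by rw [← map_mul, q2])
  choose n hn using hn
  choose S S1 S2 l hl using fun h => q4 (i h) (hi h)
  have hchar : ∀ (ρ : Rep CU G) h, trace (ρ.π (i h)) = ∑ c, n ρ c * (l h c / (S h).card) := by
    intro ρ h
    have hS : ((S h).card : ℂ) ≠ 0 := by exact_mod_cast (Finset.card_pos.2 (S1 h)).ne'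
    have e1 : ρ.π (i h) = ∑ c, ρ.π (i h) * ext ρ (q c) := by
      rw [← Matrix.mul_sum, ← map_sum, q3, map_one, Matrix.mul_one]
    rw [e1, trace_sum]
    refine Finset.sum_congr rfl fun c _ => ?_
    have e2 := congrArg (fun x => trace (ext ρ x)) (hl h c)
    simp only [map_mul, map_sum, ext_single, one_smul, map_smul, trace_smul, hn,
      Matrix.sum_mul, trace_sum, smul_eq_mul] at e2
    have e3 : ∀ x ∈ S h, trace (ρ.π x * ext ρ (q c)) = trace (ρ.π (i h) * ext ρ (q c)) := by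
      intro x hx
      obtain ⟨g, rfl⟩ := isConj_iff.1 (S2 h x hx)
      rw [map_mul, map_mul, Matrix.mul_assoc, ext_comm ρ (q1 c), ← Matrix.mul_assoc,
        trace_mul_comm, ← Matrix.mul_assoc, ← Matrix.mul_assoc, ← map_mul]
      simp
    rw [Finset.sum_congr rfl e3, Finset.sum_const, nsmul_eq_mul] at e2
    field_simp
    rw [mul_comm, e2, mul_comm]
  refine ⟨{
    I := I
    n := n
    K := Finset.univ.biUnion fun c => (q c).coeff.support
    v := fun c t => if t.2 then (l t.1 c / (S t.1).card).re else (l t.1 c / (S t.1).card).im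
    sum_n := ?_
    n_sum := ?_
    cont := ?_
    dec := ?_
    type := ?_ }⟩
  · intro ρ
    have : ((∑ c, n ρ c : ℕ) : ℂ) = (ρ.card : ℂ) := by
      push_cast
      simp only [← hn]
      rw [← trace_sum, ← map_sum, q3, map_one]; simp [Rep.card]
    exact_mod_cast this
  · intro ρ σ c
    have : (n (ρ.sum σ) c : ℂ) = n ρ c + n σ c := by
      rw [← hn, ← hn, ← hn, trace_ext, trace_ext, trace_ext, ← Finset.sum_add_distrib]
      refine Finset.sum_congr rfl fun g _ => ?_
      rw [← mul_add]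
      congr 1
      show trace (fromBlocks (ρ.π g) 0 0 (σ.π g)) = _
      simp [trace, Fintype.sum_sum_type]
    exact_mod_cast this
  · intro ε hε
    set M : ℝ := ∑ c, ∑ g ∈ (q c).coeff.support, ‖(q c).coeff g‖ with hM
    have hM0 : 0 ≤ M := by positivity
    refine ⟨(ε / (M + 1)) ^ 2, by positivity, ?_⟩
    rintro ρ σ ⟨w, hw, h⟩ c
    have h0 : (0:ℝ) ≤ ρ.card := Nat.cast_nonneg _
    have e1 : |(n ρ c : ℝ) - n σ c| = ‖trace (ext ρ (q c)) - trace (ext σ (q c))‖ := by
      rw [hn, hn, ← Real.norm_eq_abs, ← Complex.norm_real]; push_cast; rfl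
    rw [e1, trace_ext, trace_ext, ← Finset.sum_sub_distrib]
    refine (norm_sum_le _ _).trans ?_
    calc _ ≤ ∑ g ∈ (q c).coeff.support, ‖(q c).coeff g‖ * (ε / (M + 1) * ρ.card) := by
          refine Finset.sum_le_sum fun g hg => ?_
          rw [← mul_sub, norm_mul]
          gcongr
          exact trace_close hw _ _ (by positivity) (h g (by
            simp only [Finset.coe_biUnion, Set.mem_iUnion]
            exact ⟨c, by simp, hg⟩))
      _ ≤ (M + 1) * (ε / (M + 1) * ρ.card) := by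
          rw [← Finset.sum_mul]
          gcongr
          have := Finset.single_le_sum (f := fun c => ∑ g ∈ (q c).coeff.support, ‖(q c).coeff g‖)
            (fun c _ => by positivity) (Finset.mem_univ c)
          linarith
      _ = _ := by field_simp
  · intro ρ c
    obtain ⟨σ, τ, h1, h2, h3⟩ := uni_dec ρ (q1 c) (q2 c)
    rw [hn] at h2 h3
    exact ⟨σ, τ, h1, by exact_mod_cast h2, by exact_mod_cast h3⟩
  · rintro ρ ⟨h, b⟩
    cases b
    · show (trace (ρ.π (i h))).im = _
      rw [hchar, Complex.im_sum]; simp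
    · show (trace (ρ.π (i h))).re = _
      rw [hchar, Complex.re_sum]; simp

end
end Pool.Agent.H72.Stab
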