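import Mathlib
import Pool.Agent.H72.StabG
import Pool.Agent.H72.StabP
import Pool.Agent.H72.StabV

namespace Pool.Agent.H72.Stab
open Matrix Filter Topology
open scoped Kronecker

noncomputable section
variable {H G : Type} [Group H] [Group G]

lemma HData.ty_eq {C : Cls} (D : HData C H) {ρ σ : Rep C H} (h : Close Set.univ 0 ρ σ) :
    D.ty ρ = D.ty σ := by
  funext t
  rcases t with _ | t
  · simp [HData.ty, h.card_eq]
  · have h0 : (0:ℝ) ≤ ρ.card := Nat.cast_nonneg _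
    have : |D.τ ρ t - D.τ σ t| ≤ 0 := by
      refine le_of_forall_pos_le_add fun ε hε => ?_
      obtain ⟨δ, hδ, H⟩ := D.cont (ε / (ρ.card + 1)) (by positivity)
      refine (H ρ σ (h.mono subset_rfl (by positivity)) t).trans ?_
      rw [zero_add, div_mul_eq_mul_div, div_le_iff₀ (by positivity)]
      nlinarith
    exact sub_eq_zero.1 (abs_nonpos_iff.1 this)

lemma Close.comp {C : Cls} {ρ σ : Rep C G} (h : Close Set.univ 0 ρ σ) (i : H →* G) :
    Close Set.univ 0 (ρ.comp i) (σ.comp i) := by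
  obtain ⟨w, hw, h⟩ := h
  exact ⟨w, hw, fun g _ => h (i g) trivial⟩

lemma perm_split {Ω : Type} [Fintype Ω] [DecidableEq Ω] (a : G →* Equiv.Perm Ω) (ρ : Rep CP G)
    (f : ρ.ι → Ω) (hf : Function.Injective f) (he : ∀ g y, a g (f y) = f (perm ρ g y)) :
    ∃ σ : Rep CP G, Close Set.univ 0 (ofPerm a) (ρ.sum σ) := by
  classical
  have hp : ∀ g x, (fun x => ¬ x ∈ Set.range f) (a g x) ↔ (fun x => ¬ x ∈ Set.range f) x := by
    intro g x
    refine not_congr ⟨?_, ?_⟩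
    · rintro ⟨y, hy⟩
      exact ⟨perm ρ g⁻¹ y, by rw [← he, hy, ← Equiv.Perm.mul_apply, ← map_mul]; simp⟩
    · rintro ⟨y, rfl⟩
      exact ⟨_, (he g y).symm⟩
  let e : ρ.ι ⊕ {x // ¬ x ∈ Set.range f} ≃ Ω :=
    (Equiv.sumCongr (Equiv.ofInjective f hf) (Equiv.refl _)).trans
      (Equiv.sumCompl (fun x => x ∈ Set.range f))
  refine ⟨ofPerm (subPerm a _ hp), pm e, ⟨_, rfl⟩, fun g _ => ?_⟩
  refine (fr_bad (ofPerm a) (ρ.sum (ofPerm (subPerm a _ hp))) e g).le.trans ?_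
  have : bad (ofPerm a) (ρ.sum (ofPerm (subPerm a _ hp))) e g = ∅ := by
    rw [bad, Finset.filter_eq_empty_iff, perm_sum, perm_ofPerm, perm_ofPerm]
    rintro (x | x) - <;> simp [subPerm, e, he]
  simp [this]

/-- left translation of subsets -/
def transl (W Y : Type) [Group W] : W →* Equiv.Perm (Set (W × Y)) :=
  MonoidHom.toHomPerm
    { toFun := fun w S => {p | (w⁻¹ * p.1, p.2) ∈ S}
      map_one' := by funext S; ext p; simp [Function.End.one_def]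
      map_mul' := fun a b => by funext S; ext p; simp [Function.End.mul_def, mul_assoc] }

lemma perm_induce {W Y : Type} [Group W] [Fintype (Set (W × Y))] [DecidableEq (Set (W × Y))]
    (F : G →* W) (ρ : Rep CP G) (j : ρ.ι → Y) (hj : Function.Injective j)
    (hF : ∀ g, F g = 1 → perm ρ g = 1) :
    ∃ σ : Rep CP G, Close Set.univ 0 (ofPerm ((transl W Y).comp F)) (ρ.sum σ) := by
  refine perm_split _ ρ (fun y => {p | ∃ g, p = (F g, j (perm ρ g⁻¹ y))}) ?_ ?_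
  · intro y y' h
    have : (F 1, j (perm ρ 1⁻¹ y)) ∈ {p | ∃ g, p = (F g, j (perm ρ g⁻¹ y'))} := by
      have h' : {p | ∃ g, p = (F g, j (perm ρ g⁻¹ y))} = {p | ∃ g, p = (F g, j (perm ρ g⁻¹ y'))} := h
      rw [← h']; exact ⟨1, rfl⟩
    obtain ⟨g, hg⟩ := this
    simp only [map_one, inv_one, Prod.mk.injEq, map_inv] at hg
    rw [hF g hg.1.symm] at hg
    simpa using hj hg.2
  · intro g y
    ext ⟨w, z⟩
    show (∃ k, ((F g)⁻¹ * w, z) = (F k, j (perm ρ k⁻¹ y))) ↔ ∃ k, (w, z) = _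
    simp only [Prod.mk.injEq]
    constructor
    · rintro ⟨k, h1, h2⟩
      exact ⟨g * k, by rw [map_mul, ← h1]; simp, by rw [h2]; simp⟩
    · rintro ⟨k, h1, h2⟩
      exact ⟨g⁻¹ * k, by rw [h1]; simp, by rw [h2]; simp⟩

/-- `i` stays injective in a finite quotient -/
def FinEmb (i : H →* G) : Prop :=
  ∃ (Q : Type) (_ : Group Q) (_ : Finite Q) (q : G →* Q), Function.Injective (q.comp i)

variable {G₁ G₂ : Type} [Group G₁] [Group G₂] {i₁ : H →* G₁} {i₂ : H →* G₂}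

lemma free_apply {R : Type} [Group R] {p : H →* R} (hp : Function.Injective p) (h : H) (z : R) :
    (MulAction.toPermHom R R).comp p h z = z ↔ h = 1 := by
  simp [injective_iff_map_eq_one' p |>.1 hp]

lemma HP_add [Fintype H] (ρ σ : Rep CP H) : (HP H).τ (ρ.sum σ) = (HP H).τ ρ + (HP H).τ σ := by
  classical
  funext L
  show ((cnt _ : ℕ) : ℝ) = (cnt _ : ℕ) + (cnt _ : ℕ)
  rw [cnt_eq_sum, cnt_eq_sum, cnt_eq_sum, Fintype.sum_sum_type]
  have a1 : ∀ h x, perm (ρ.sum σ) h (Sum.inl x) = Sum.inl x ↔ perm ρ h x = x := fun h x => by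
    rw [perm_sum]; simp
  have a2 : ∀ h x, perm (ρ.sum σ) h (Sum.inr x) = Sum.inr x ↔ perm σ h x = x := fun h x => by
    rw [perm_sum]; simp
  simp only [a1, a2]
  push_cast; rfl

lemma HP_int [Fintype H] (ρ σ : Rep CP H) :
    ∃ z : ℤ, ∑ t, (HP H).τ ρ t * (HP H).τ σ t = z := by
  classical
  exact ⟨∑ L : Set H, (cnt (fun x => {h | perm ρ h x = x} = L) : ℤ) *
    (cnt (fun x => {h | perm σ h x = x} = L) : ℤ), by push_cast; rfl⟩

lemma HP_abs [Fintype H] (e₁ : FinEmb i₁) (e₂ : FinEmb i₂) (ρ₁ : Rep CP G₁) (ρ₂ : Rep CP G₂) :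
    ∃ (σ₁ : Rep CP G₁) (σ₂ : Rep CP G₂),
      (HP H).ty ((ρ₁.sum σ₁).comp i₁) = (HP H).ty ((ρ₂.sum σ₂).comp i₂) := by
  classical
  obtain ⟨Q₁, _, _, q₁, h₁⟩ := e₁
  obtain ⟨Q₂, _, _, q₂, h₂⟩ := e₂
  let Z := (Q₁ × Equiv.Perm ρ₁.ι) × (Q₂ × Equiv.Perm ρ₂.ι)
  have := Fintype.ofFinite Z
  let p₁ : G₁ →* Z := (MonoidHom.inl _ _).comp (q₁.prod (perm ρ₁))
  let p₂ : G₂ →* Z := (MonoidHom.inr _ _).comp (q₂.prod (perm ρ₂))
  have k₁ : Function.Injective (p₁.comp i₁) := fun a b h => h₁ (congrArg (fun z => z.1.1) h)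
  have k₂ : Function.Injective (p₂.comp i₂) := fun a b h => h₂ (congrArg (fun z => z.2.1) h)
  obtain ⟨e, he, -⟩ := extend_iso ((MulAction.toPermHom Z Z).comp (p₁.comp i₁))
    ((MulAction.toPermHom Z Z).comp (p₂.comp i₂)) (Equiv.refl Z) (fun L => by
      simp only [free_apply k₁, free_apply k₂])
  let F₁ : G₁ →* Equiv.Perm Z := (MulAction.toPermHom Z Z).comp p₁
  let F₂ : G₂ →* Equiv.Perm Z :=
    (MulAut.conj e).toMonoidHom.comp ((MulAction.toPermHom Z Z).comp p₂)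
  have hF : ∀ h, F₁ (i₁ h) = F₂ (i₂ h) := by
    intro h
    ext1 z
    obtain ⟨z, rfl⟩ := e.surjective z
    have := he h z
    simpa [F₁, F₂] using this
  have := Fintype.ofFinite (Set (Equiv.Perm Z × (ρ₁.ι ⊕ ρ₂.ι)))
  obtain ⟨σ₁, c₁⟩ := perm_induce F₁ ρ₁ (Sum.inl : _ → ρ₁.ι ⊕ ρ₂.ι) Sum.inl_injective (by
    intro g hg
    have : p₁ g * 1 = 1 := congrArg (fun f : Equiv.Perm Z => f 1) hg
    rw [mul_one] at this
    exact congrArg (fun z : Z => z.1.2) this)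
  obtain ⟨σ₂, c₂⟩ := perm_induce F₂ ρ₂ (Sum.inr : _ → ρ₁.ι ⊕ ρ₂.ι) Sum.inr_injective (by
    intro g hg
    have hg' : (MulAction.toPermHom Z Z).comp p₂ g = 1 :=
      (MulAut.conj e).injective (by simpa [F₂] using hg)
    have : p₂ g * 1 = 1 := congrArg (fun f : Equiv.Perm Z => f 1) hg'
    rw [mul_one] at this
    exact congrArg (fun z : Z => z.2.2) this)
  refine ⟨σ₁, σ₂, ?_⟩
  rw [← (HP H).ty_eq (c₁.comp i₁), ← (HP H).ty_eq (c₂.comp i₂)]
  refine (HP H).ty_eq (close_of_equiv (Equiv.refl (Set (Equiv.Perm Z × (ρ₁.ι ⊕ ρ₂.ι))))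
    (fun h a b => ?_) _)
  show pm (transl _ _ (F₁ (i₁ h))) a b = pm (transl _ _ (F₂ (i₂ h))) a b
  rw [hF]

lemma trace_sum_rep {C : Cls} (ρ σ : Rep C G) (g : G) :
    trace ((ρ.sum σ).π g) = trace (ρ.π g) + trace (σ.π g) := by
  show trace (fromBlocks (ρ.π g) 0 0 (σ.π g)) = _
  simp [trace, Fintype.sum_sum_type]

lemma HU_add [Fintype H] (ρ σ : Rep CU H) : (HU H).τ (ρ.sum σ) = (HU H).τ ρ + (HU H).τ σ := by
  funext ⟨h, b⟩
  cases b
  · show (trace ((ρ.sum σ).π h)).im = (trace (ρ.π h)).im + (trace (σ.π h)).im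
    rw [trace_sum_rep, Complex.add_im]
  · show (trace ((ρ.sum σ).π h)).re = (trace (ρ.π h)).re + (trace (σ.π h)).re
    rw [trace_sum_rep, Complex.add_re]

lemma HU_int [Fintype H] (ρ σ : Rep CU H) :
    ∃ z : ℤ, ∑ t, (HU H).τ ρ t * (HU H).τ σ t = z := by
  let R : H →* Matrix (ρ.ι × σ.ι) (ρ.ι × σ.ι) ℂ :=
    { toFun := fun h => ρ.π h ⊗ₖ (σ.π h⁻¹)ᵀ
      map_one' := by simp
      map_mul' := fun a b => by
        rw [← mul_kronecker_mul, ← transpose_mul, ← map_mul, ← map_mul, _root_.mul_inv_rev] }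
  have hR : ∀ h, (R h)ᴴ = R h⁻¹ := by
    intro h
    show (ρ.π h ⊗ₖ (σ.π h⁻¹)ᵀ)ᴴ = ρ.π h⁻¹ ⊗ₖ (σ.π h⁻¹⁻¹)ᵀ
    rw [conjTranspose_kronecker, uni_inv (fun h => (ρ.good h).1),
      uni_inv (fun h => (σ.good h).1) h⁻¹]
    rfl
  have hH : (Fintype.card H : ℂ) ≠ 0 := by exact_mod_cast Fintype.card_ne_zero
  obtain ⟨m, hm⟩ := proj_trace (Q := (Fintype.card H : ℂ)⁻¹ • ∑ h, R h)
    (by
      rw [conjTranspose_smul, conjTranspose_sum]
      simp only [hR]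
      rw [Equiv.sum_comp (Equiv.inv H) R |>.symm]
      simp)
    (by
      rw [Matrix.smul_mul, Matrix.mul_smul, Matrix.sum_mul]
      have : ∀ k, R k * ∑ h, R h = ∑ h, R h := by
        intro k
        rw [Matrix.mul_sum]
        simp only [← map_mul]
        exact Equiv.sum_comp (Equiv.mulLeft k) R
      simp only [this, Finset.sum_const, Finset.card_univ, ← Nat.cast_smul_eq_nsmul ℂ, smul_smul]
      rw [inv_mul_cancel₀ hH, mul_one])
  refine ⟨Fintype.card H * m, ?_⟩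
  have e1 : ∑ h, trace (R h) = Fintype.card H * m := by
    rw [← hm, trace_smul, trace_sum, smul_eq_mul, mul_inv_cancel_left₀ hH]
  have e2 := congrArg Complex.re e1
  rw [Complex.re_sum] at e2
  show ∑ t : H × Bool, (if t.2 then (trace (ρ.π t.1)).re else (trace (ρ.π t.1)).im) *
    (if t.2 then (trace (σ.π t.1)).re else (trace (σ.π t.1)).im) = _
  rw [Fintype.sum_prod_type]
  push_cast
  rw [show ((Fintype.card H : ℝ) * m) = ((Fintype.card H : ℂ) * m).re by simp, ← e2]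
  refine Finset.sum_congr rfl fun h _ => ?_
  show _ = (trace (ρ.π h ⊗ₖ (σ.π h⁻¹)ᵀ)).re
  rw [trace_kronecker, trace_transpose, uni_inv (fun h => (σ.good h).1), trace_conjTranspose]
  simp

lemma uni_tens {Z : Type} [Fintype Z] [DecidableEq Z] [Nonempty Z] (ρ : Rep CU G)
    (a : G →* Equiv.Perm Z) : ∃ σ : Rep CU G, ∀ g,
      trace (ρ.π g) + trace (σ.π g) = trace (ρ.π g) * trace (pm (a g)) := by
  let ρ' : Rep CU G :=
    { ι := ρ.ι × Z
      π := { toFun := fun g => ρ.π g ⊗ₖ pm (a g)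
             map_one' := by rw [map_one, map_one, show pm (1 : Equiv.Perm Z) = 1 from pm_refl]; simp
             map_mul' := fun x y => by rw [map_mul, map_mul, pm_mul_perm, mul_kronecker_mul] }
      good := fun g => by
        have h1 := ρ.good g
        have h2 := CU.eqv (a g)
        constructor
        · show (ρ.π g ⊗ₖ pm (a g))ᴴ * (ρ.π g ⊗ₖ pm (a g)) = 1
          rw [conjTranspose_kronecker, ← mul_kronecker_mul, h1.1, h2.1]; simp
        · show (ρ.π g ⊗ₖ pm (a g)) * (ρ.π g ⊗ₖ pm (a g))ᴴ = 1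
          rw [conjTranspose_kronecker, ← mul_kronecker_mul, h1.2, h2.2]; simp }
  have hZ : (Fintype.card Z : ℂ) ≠ 0 := by exact_mod_cast Fintype.card_ne_zero
  let J : Matrix Z Z ℂ := Matrix.of fun _ _ => (Fintype.card Z : ℂ)⁻¹
  have J1 : Jᴴ = J := by ext i j; simp [J]
  have J2 : J * J = J := by ext i j; simp [J, mul_apply, hZ]
  have J3 : ∀ g, pm (a g) * J = J := fun g => by rw [pm_mul']; rfl
  have J4 : ∀ g, J * pm (a g) = J := fun g => by rw [mul_pm]; rfl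
  have J5 : trace J = 1 := by simp [J, trace, hZ]
  let P : Matrix (ρ.ι × Z) (ρ.ι × Z) ℂ := (1 : Matrix ρ.ι ρ.ι ℂ) ⊗ₖ J
  have P1 : Pᴴ = P := by simp only [P]; rw [conjTranspose_kronecker, J1]; simp
  have P2 : P * P = P := by simp only [P]; rw [← mul_kronecker_mul, J2]; simp
  have P3 : ∀ g, ρ'.π g * P = ρ.π g ⊗ₖ J := fun g => by
    show (ρ.π g ⊗ₖ pm (a g)) * P = _
    simp only [P]; rw [← mul_kronecker_mul, J3]; simp
  have P4 : ∀ g, P * ρ'.π g = ρ.π g ⊗ₖ J := fun g => by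
    show P * (ρ.π g ⊗ₖ pm (a g)) = _
    simp only [P]; rw [← mul_kronecker_mul, J4]; simp
  obtain ⟨α, _, _, w, a1, a2⟩ := proj_range (Q := 1 - P) (by simp [P1]) (by
    simp [Matrix.sub_mul, Matrix.mul_sub, P2])
  refine ⟨cmp ρ' w a1 (fun g => by
    rw [a2, Matrix.mul_sub, Matrix.sub_mul, P3, P4]; simp), fun g => ?_⟩
  show _ + trace (wᴴ * ρ'.π g * w) = _
  rw [trace_mul_comm, ← Matrix.mul_assoc, a2, Matrix.sub_mul, P4, Matrix.one_mul, trace_sub,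
    trace_kronecker, J5]
  show _ + (trace (ρ.π g ⊗ₖ pm (a g)) - _) = _
  rw [trace_kronecker]; ring

lemma uni_reg {Z : Type} [Group Z] [Fintype Z] {i : H →* G} (p : G →* Z)
    (hp : Function.Injective (p.comp i)) (ρ : Rep CU G) (β : Type) [Fintype β] [DecidableEq β]
    [DecidableEq H] : ∃ σ : Rep CU G, ∀ h, trace ((ρ.sum σ).π (i h)) =
      if h = 1 then ((ρ.card + Fintype.card β : ℕ) : ℂ) * Fintype.card Z else 0 := by
  classical
  obtain ⟨σ, hσ⟩ := uni_tens (ρ.sum (Rep.triv CU G β)) ((MulAction.toPermHom Z Z).comp p)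
  refine ⟨(Rep.triv CU G β).sum σ, fun h => ?_⟩
  rw [trace_sum_rep, trace_sum_rep, ← add_assoc, ← trace_sum_rep, hσ]
  split_ifs with h1
  · subst h1
    simp only [map_one]
    rw [show pm (1 : Equiv.Perm Z) = 1 from pm_refl]
    simp [Rep.card]
  · have : trace (pm ((MulAction.toPermHom Z Z).comp p (i h))) = 0 := by
      refine Finset.sum_eq_zero fun z _ => ?_
      have := (free_apply hp h z).not.2 h1
      simp only [diag, pm, of_apply]
      exact if_neg this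
    rw [this, mul_zero]

lemma HU_abs [Fintype H] (e₁ : FinEmb i₁) (e₂ : FinEmb i₂) (ρ₁ : Rep CU G₁) (ρ₂ : Rep CU G₂) :
    ∃ (σ₁ : Rep CU G₁) (σ₂ : Rep CU G₂),
      (HU H).ty ((ρ₁.sum σ₁).comp i₁) = (HU H).ty ((ρ₂.sum σ₂).comp i₂) := by
  classical
  obtain ⟨Q₁, _, _, q₁, h₁⟩ := e₁
  obtain ⟨Q₂, _, _, q₂, h₂⟩ := e₂
  have := Fintype.ofFinite (Q₁ × Q₂)
  obtain ⟨σ₁, c₁⟩ := uni_reg (i := i₁) ((MonoidHom.inl Q₁ Q₂).comp q₁)
    (fun a b h => h₁ (congrArg Prod.fst h)) ρ₁ ρ₂.ι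
  obtain ⟨σ₂, c₂⟩ := uni_reg (i := i₂) ((MonoidHom.inr Q₁ Q₂).comp q₂)
    (fun a b h => h₂ (congrArg Prod.snd h)) ρ₂ ρ₁.ι
  have hc : ∀ h, trace ((ρ₁.sum σ₁).π (i₁ h)) = trace ((ρ₂.sum σ₂).π (i₂ h)) := fun h => by
    rw [c₁, c₂, add_comm]; rfl
  refine ⟨σ₁, σ₂, funext fun t => ?_⟩
  rcases t with _ | ⟨h, b⟩
  · have := hc 1
    simp only [map_one, trace_one] at this
    show ((Fintype.card _ : ℕ) : ℝ) = (Fintype.card _ : ℕ)
    exact_mod_cast this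
  · show (if b then (trace ((ρ₁.sum σ₁).π (i₁ h))).re else (trace ((ρ₁.sum σ₁).π (i₁ h))).im) =
      if b then (trace ((ρ₂.sum σ₂).π (i₂ h))).re else (trace ((ρ₂.sum σ₂).π (i₂ h))).im
    rw [hc]

end
end Pool.Agent.H72.Stab
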