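import Mathlib

set_option autoImplicit false

namespace H72.UAdd

open Order Order.PartialIso

/-- Cantor's theorem with a prescribed finite starting map -/
theorem extend_iso {α β : Type} [LinearOrder α] [LinearOrder β]
    [Countable α] [DenselyOrdered α] [NoMinOrder α] [NoMaxOrder α]
    [Nonempty α] [Countable β] [DenselyOrdered β] [NoMinOrder β] [NoMaxOrder β] [Nonempty β]
    (f0 : PartialIso α β) : ∃ e : α ≃o β, ∀ p ∈ f0.val, e p.1 = p.2 := by
  cases nonempty_encodable α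
  cases nonempty_encodable β
  let to_cofinal : α ⊕ β → Cofinal (PartialIso α β) := fun p ↦
    Sum.recOn p (definedAtLeft β) (definedAtRight α)
  let our_ideal : Order.Ideal (PartialIso α β) := idealOfCofinals f0 to_cofinal
  let F a := funOfIdeal a our_ideal (cofinal_meets_idealOfCofinals _ to_cofinal (Sum.inl a))
  let G b := invOfIdeal b our_ideal (cofinal_meets_idealOfCofinals _ to_cofinal (Sum.inr b))
  refine ⟨OrderIso.ofCmpEqCmp (fun a ↦ (F a).val) (fun b ↦ (G b).val) fun a b ↦ by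
      rcases (F a).prop with ⟨f, hf, ha⟩
      rcases (G b).prop with ⟨g, hg, hb⟩
      rcases our_ideal.directed _ hf _ hg with ⟨m, _, fm, gm⟩
      exact m.prop (a, _) (fm ha) (_, b) (gm hb), fun p hp => ?_⟩
  show (F p.1).val = p.2
  rcases (F p.1).prop with ⟨f, hf, ha⟩
  rcases our_ideal.directed _ hf _ (mem_idealOfCofinals f0 to_cofinal) with ⟨m, _, fm, gm⟩
  have := m.prop (p.1, _) (fm ha) p (gm hp)
  simp only [cmp_self_eq_eq] at this
  exact (cmp_eq_eq_iff _ _).1 this.symm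

theorem extend_map {α β γ : Type} [LinearOrder α] [LinearOrder β] [LinearOrder γ]
    [Countable α] [DenselyOrdered α] [NoMinOrder α] [NoMaxOrder α]
    [Nonempty α] [Countable β] [DenselyOrdered β] [NoMinOrder β] [NoMaxOrder β] [Nonempty β]
    (S : Finset γ) (u : γ → α) (v : γ → β) (hu : StrictMonoOn u S) (hv : StrictMonoOn v S) :
    ∃ e : α ≃o β, ∀ s ∈ S, e (u s) = v s := by
  classical
  obtain ⟨e, he⟩ := extend_iso (α := α) (β := β) ⟨S.image fun s => (u s, v s), by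
    intro p hp q hq
    obtain ⟨s, hs, rfl⟩ := Finset.mem_image.1 hp
    obtain ⟨t, ht, rfl⟩ := Finset.mem_image.1 hq
    rcases lt_trichotomy s t with h | rfl | h
    · rw [(cmp_eq_lt_iff _ _).2 (hu hs ht h), (cmp_eq_lt_iff _ _).2 (hv hs ht h)]
    · simp
    · rw [(cmp_eq_gt_iff _ _).2 (hu ht hs h), (cmp_eq_gt_iff _ _).2 (hv ht hs h)]⟩
  exact ⟨e, fun s hs => he (u s, v s) (Finset.mem_image_of_mem _ hs)⟩

abbrev C := ℤ ×ₗ ℚ

instance : Countable C := inferInstanceAs (Countable (ℤ × ℚ))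

structure J where
  θ : C ≃o ℚ
  h0 : θ 0 = 0
  x : C

def oadd (a b : J → C) : J → C := fun j => j.θ.symm (j.θ (a j) + j.θ (b j))
def oneg (a : J → C) : J → C := fun j => j.θ.symm (-j.θ (a j))

inductive InG : (J → C) → Prop
  | gen : InG fun j => j.x
  | zero : InG 0
  | add {a b : J → C} : InG a → InG b → InG (a + b)
  | neg {a : J → C} : InG a → InG (-a)
  | sup {a b : J → C} : InG a → InG b → InG (a ⊔ b)
  | inf {a b : J → C} : InG a → InG b → InG (a ⊓ b)
  | oadd {a b : J → C} : InG a → InG b → InG (oadd a b)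
  | oneg {a : J → C} : InG a → InG (oneg a)

structure Good (S : Finset C) (j j' : J) (α : C → C) : Prop where
  zero : α 0 = 0
  add : ∀ a ∈ S, ∀ b ∈ S, α (a + b) = α a + α b
  neg : ∀ a ∈ S, α (-a) = -α a
  mono : ∀ a ∈ S, ∀ b ∈ S, a ≤ b → α a ≤ α b
  th : ∀ a ∈ S, j'.θ (α a) = j.θ a
  hx : j'.x = α j.x

theorem Good.anti {S T : Finset C} {j j' : J} {α : C → C} (h : Good T j j' α) (hST : S ⊆ T) :
    Good S j j' α :=
  ⟨h.zero, fun a ha b hb => h.add a (hST ha) b (hST hb), fun a ha => h.neg a (hST ha),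
    fun a ha b hb => h.mono a (hST ha) b (hST hb), fun a ha => h.th a (hST ha), h.hx⟩

theorem finite_support {g : J → C} (hg : InG g) (j : J) :
    ∃ S : Finset C, g j ∈ S ∧ ∀ j' α, Good S j j' α → g j' = α (g j) := by
  classical
  induction hg with
  | gen => exact ⟨{j.x}, by simp, fun j' α h => h.hx⟩
  | zero => exact ⟨{0}, by simp, fun j' α h => h.zero.symm⟩
  | @add a b _ _ ha hb =>
    obtain ⟨S, hS, ha⟩ := ha
    obtain ⟨T, hT, hb⟩ := hb
    refine ⟨insert (a j + b j) (S ∪ T), by simp, fun j' α h => ?_⟩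
    have h1 : S ⊆ insert (a j + b j) (S ∪ T) := fun x hx => by simp [hx]
    have h2 : T ⊆ insert (a j + b j) (S ∪ T) := fun x hx => by simp [hx]
    rw [Pi.add_apply, Pi.add_apply, ha j' α (h.anti h1), hb j' α (h.anti h2),
      h.add _ (h1 hS) _ (h2 hT)]
  | @neg a _ ha =>
    obtain ⟨S, hS, ha⟩ := ha
    refine ⟨insert (-a j) S, by simp, fun j' α h => ?_⟩
    have h1 : S ⊆ insert (-a j) S := Finset.subset_insert _ _
    rw [Pi.neg_apply, Pi.neg_apply, ha j' α (h.anti h1), h.neg _ (h1 hS)]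
  | @sup a b _ _ ha hb =>
    obtain ⟨S, hS, ha⟩ := ha
    obtain ⟨T, hT, hb⟩ := hb
    have h1 : S ⊆ S ∪ T := Finset.subset_union_left
    have h2 : T ⊆ S ∪ T := Finset.subset_union_right
    refine ⟨S ∪ T, ?_, fun j' α h => ?_⟩
    · rw [Pi.sup_apply]
      rcases le_total (a j) (b j) with h | h
      · rw [sup_eq_right.2 h]; exact h2 hT
      · rw [sup_eq_left.2 h]; exact h1 hS
    · rw [Pi.sup_apply, Pi.sup_apply, ha j' α (h.anti h1), hb j' α (h.anti h2)]
      rcases le_total (a j) (b j) with h' | h'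
      · rw [sup_eq_right.2 h', sup_eq_right.2 (h.mono _ (h1 hS) _ (h2 hT) h')]
      · rw [sup_eq_left.2 h', sup_eq_left.2 (h.mono _ (h2 hT) _ (h1 hS) h')]
  | @inf a b _ _ ha hb =>
    obtain ⟨S, hS, ha⟩ := ha
    obtain ⟨T, hT, hb⟩ := hb
    have h1 : S ⊆ S ∪ T := Finset.subset_union_left
    have h2 : T ⊆ S ∪ T := Finset.subset_union_right
    refine ⟨S ∪ T, ?_, fun j' α h => ?_⟩
    · rw [Pi.inf_apply]
      rcases le_total (a j) (b j) with h | h
      · rw [inf_eq_left.2 h]; exact h1 hS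
      · rw [inf_eq_right.2 h]; exact h2 hT
    · rw [Pi.inf_apply, Pi.inf_apply, ha j' α (h.anti h1), hb j' α (h.anti h2)]
      rcases le_total (a j) (b j) with h' | h'
      · rw [inf_eq_left.2 h', inf_eq_left.2 (h.mono _ (h1 hS) _ (h2 hT) h')]
      · rw [inf_eq_right.2 h', inf_eq_right.2 (h.mono _ (h2 hT) _ (h1 hS) h')]
  | @oadd a b _ _ ha hb =>
    obtain ⟨S, hS, ha⟩ := ha
    obtain ⟨T, hT, hb⟩ := hb
    refine ⟨insert (oadd a b j) (S ∪ T), by simp, fun j' α h => ?_⟩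
    have h1 : S ⊆ insert (oadd a b j) (S ∪ T) := fun x hx => by simp [hx]
    have h2 : T ⊆ insert (oadd a b j) (S ∪ T) := fun x hx => by simp [hx]
    apply j'.θ.injective
    rw [h.th _ (Finset.mem_insert_self _ _)]
    simp only [UAdd.oadd, OrderIso.apply_symm_apply]
    rw [ha j' α (h.anti h1), hb j' α (h.anti h2), h.th _ (h1 hS), h.th _ (h2 hT)]
  | @oneg a _ ha =>
    obtain ⟨S, hS, ha⟩ := ha
    refine ⟨insert (oneg a j) S, by simp, fun j' α h => ?_⟩
    have h1 : S ⊆ insert (oneg a j) S := Finset.subset_insert _ _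
    apply j'.θ.injective
    rw [h.th _ (Finset.mem_insert_self _ _)]
    simp only [UAdd.oneg, OrderIso.apply_symm_apply]
    rw [ha j' α (h.anti h1), h.th _ (h1 hS)]

theorem exists_int_map (S : Finset C) : ∃ β : C → ℤ, β 0 = 0 ∧
    (∀ a ∈ S, ∀ b ∈ S, β (a + b) = β a + β b) ∧ (∀ a ∈ S, β (-a) = -β a) ∧
    StrictMonoOn β S := by
  classical
  let D : ℕ := ∏ s ∈ S, (ofLex s).2.den
  have hD : 0 < D := Finset.prod_pos fun s _ => (ofLex s).2.den_pos
  obtain ⟨M, hM⟩ := exists_nat_gt (2 * ∑ s ∈ S, |(ofLex s).2|)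
  let ρ : C → ℚ := fun s => D * (M * ((ofLex s).1 : ℚ) + (ofLex s).2)
  have hρ : ∀ s ∈ S, ∃ z : ℤ, ρ s = z := by
    intro s hs
    obtain ⟨e, he⟩ : (ofLex s).2.den ∣ D := Finset.dvd_prod_of_mem _ hs
    refine ⟨D * M * (ofLex s).1 + e * (ofLex s).2.num, ?_⟩
    have h1 : ((ofLex s).2.den : ℚ) * (ofLex s).2 = (ofLex s).2.num := Rat.den_mul_eq_num _
    simp only [ρ]
    push_cast
    rw [← h1, he]
    push_cast
    ring
  have hadd : ∀ a b, ρ (a + b) = ρ a + ρ b := by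
    intro a b
    simp only [ρ, ofLex_add, Prod.fst_add, Prod.snd_add]
    push_cast; ring
  have hneg : ∀ a, ρ (-a) = -ρ a := by
    intro a
    simp only [ρ, ofLex_neg, Prod.fst_neg, Prod.snd_neg]
    push_cast; ring
  have hbd : ∀ s ∈ S, |(ofLex s).2| ≤ ∑ s ∈ S, |(ofLex s).2| := fun s hs =>
    Finset.single_le_sum (f := fun s : C => |(ofLex s).2|) (fun _ _ => abs_nonneg _) hs
  have hmono : ∀ a ∈ S, ∀ b ∈ S, a < b → ρ a < ρ b := by
    intro a ha b hb hab
    have hD' : (0 : ℚ) < D := by exact_mod_cast hD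
    refine mul_lt_mul_of_pos_left ?_ hD'
    rcases Prod.Lex.lt_iff.1 hab with h | ⟨h1, h2⟩
    · have h3 : ((ofLex a).1 : ℚ) + 1 ≤ (ofLex b).1 := by exact_mod_cast h
      have h4 := abs_le.1 (hbd a ha)
      have h5 := abs_le.1 (hbd b hb)
      have h6 : (0 : ℚ) ≤ M := Nat.cast_nonneg _
      nlinarith
    · rw [h1]; linarith
  refine ⟨fun s => ⌊ρ s⌋, by simp [ρ], fun a ha b hb => ?_, fun a ha => ?_, fun a ha b hb hab => ?_⟩
  · obtain ⟨z, hz⟩ := hρ a ha
    obtain ⟨w, hw⟩ := hρ b hb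
    simp only [hadd, hz, hw, ← Int.cast_add, Int.floor_intCast]
  · obtain ⟨z, hz⟩ := hρ a ha
    simp only [hneg, hz, ← Int.cast_neg, Int.floor_intCast]
  · obtain ⟨z, hz⟩ := hρ a ha
    obtain ⟨w, hw⟩ := hρ b hb
    have := hmono a ha b hb hab
    simp only [hz, hw, Int.floor_intCast] at this ⊢
    exact_mod_cast this

theorem detect {g : J → C} (hg : InG g) (j : J) (hj : g j ≠ 0) :
    ∃ j' : J, (ofLex (g j')).1 ≠ 0 := by
  classical
  obtain ⟨S, hS, h⟩ := finite_support hg j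
  obtain ⟨β, h0, hadd, hneg, hmono⟩ := exists_int_map (insert 0 S)
  let α : C → C := fun s => toLex (β s, 0)
  have hα : StrictMonoOn α (insert 0 S : Finset C) := fun a ha b hb hab =>
    Prod.Lex.toLex_lt_toLex.2 (Or.inl (hmono ha hb hab))
  obtain ⟨e, he⟩ := extend_map (insert 0 S) α j.θ hα (j.θ.strictMono.strictMonoOn _)
  have hα0 : α 0 = 0 := by simp only [α, h0]; rfl
  let j' : J := ⟨e, by
    have := he 0 (Finset.mem_insert_self _ _)
    rwa [hα0, j.h0] at this, α j.x⟩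
  have hgood : Good (insert 0 S) j j' α :=
    ⟨hα0, fun a ha b hb => by
      simp only [α, hadd a ha b hb]
      rw [← toLex_add, Prod.mk_add_mk, add_zero],
    fun a ha => by
      simp only [α, hneg a ha]
      rw [← toLex_neg, Prod.neg_mk, neg_zero],
    fun a ha b hb hab => hα.monotoneOn ha hb hab, he, rfl⟩
  refine ⟨j', ?_⟩
  rw [h j' α (hgood.anti (Finset.subset_insert _ _))]
  show β (g j) ≠ 0
  intro hβ
  exact hj (hmono.injOn (Finset.mem_insert_of_mem hS) (Finset.mem_insert_self _ _) (hβ.trans h0.symm))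

theorem nonadd : ∃ j : J, oadd (fun j => j.x) (fun j => j.x) j ≠ j.x + j.x := by
  obtain ⟨e, he⟩ := extend_map ({0, 1, 2} : Finset ℤ) (fun n => (toLex (n, 0) : C))
    (fun n => ((n : ℚ) ^ 2))
    (fun a _ b _ h => Prod.Lex.toLex_lt_toLex.2 (Or.inl h))
    (by
      intro a ha b hb h
      simp only [Finset.coe_insert, Finset.coe_singleton, Set.mem_insert_iff,
        Set.mem_singleton_iff] at ha hb
      rcases ha with rfl | rfl | rfl <;> rcases hb with rfl | rfl | rfl <;>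
        first | omega | norm_num)
  have h0 := he 0 (by simp)
  have h1 := he 1 (by simp)
  have h2 := he 2 (by simp)
  refine ⟨⟨e, h0.trans (by norm_num), toLex (1, 0)⟩, fun h => ?_⟩
  have h3 := congrArg e h
  simp only [oadd, OrderIso.apply_symm_apply] at h3
  rw [← toLex_add, Prod.mk_add_mk, add_zero, h1] at h3
  have h4 : (1 : ℤ) + 1 = 2 := rfl
  rw [h4, h2] at h3
  norm_num at h3

def G : AddSubgroup (J → C) where
  carrier := {g | InG g}
  zero_mem' := InG.zero
  add_mem' := InG.add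
  neg_mem' := InG.neg

instance : Lattice G := Subtype.lattice (fun _ _ => InG.sup) (fun _ _ => InG.inf)

instance : IsOrderedAddMonoid G where
  add_le_add_left := fun a b h c => by
    have h' : (a : J → C) ≤ b := h
    show (a : J → C) + c ≤ b + c
    exact add_le_add_left h' _

theorem rescale (ψ : G →+ ℤ) (hs : ∀ x y, ψ (x ⊔ y) = ψ x ⊔ ψ y)
    (hi : ∀ x y, ψ (x ⊓ y) = ψ x ⊓ ψ y) (g : G) (hg : ψ g ≠ 0) :
    ∃ χ : G →+ ℤ, (Function.Surjective χ ∧ (∀ x y, χ (x ⊔ y) = χ x ⊔ χ y) ∧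
      ∀ x y, χ (x ⊓ y) = χ x ⊓ χ y) ∧ χ g ≠ 0 := by
  obtain ⟨d, hd⟩ := Int.subgroup_cyclic ψ.range
  have hdv : ∀ x, |d| ∣ ψ x := by
    intro x
    have : ψ x ∈ AddSubgroup.closure {d} := hd ▸ ⟨x, rfl⟩
    obtain ⟨n, hn⟩ := AddSubgroup.mem_closure_singleton.1 this
    rw [abs_dvd, ← hn, smul_eq_mul]
    exact Dvd.intro_left _ rfl
  have hd0 : 0 < |d| := by
    rw [abs_pos]
    rintro rfl
    exact hg (by simpa using hdv g)
  have hmem : |d| ∈ ψ.range := by
    have : d ∈ ψ.range := hd ▸ AddSubgroup.subset_closure rfl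
    rcases abs_choice d with h | h <;> rw [h]
    · exact this
    · exact neg_mem this
  obtain ⟨x0, hx0⟩ := hmem
  have hm : Monotone fun z : ℤ => z / |d| := fun a b h => Int.ediv_le_ediv hd0 h
  let χ : G →+ ℤ :=
    { toFun := fun x => ψ x / |d|
      map_zero' := by simp
      map_add' := fun x y => by rw [map_add, Int.add_ediv_of_dvd_left (hdv x)] }
  have hχ : ∀ x, χ x = ψ x / |d| := fun _ => rfl
  refine ⟨χ, ⟨fun n => ⟨n • x0, ?_⟩, fun x y => ?_, fun x y => ?_⟩, fun h => hg ?_⟩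
  · rw [map_zsmul, hχ, hx0, Int.ediv_self hd0.ne', smul_eq_mul, mul_one]
  · rw [hχ, hχ, hχ, hs]; exact hm.map_sup _ _
  · rw [hχ, hχ, hχ, hi]; exact hm.map_inf _ _
  · rw [← Int.mul_ediv_cancel' (hdv g), ← hχ, h, mul_zero]

theorem subdirect : ∃ (I : Type) (f : G →+ (I → ℤ)), Function.Injective f ∧
    (∀ x y : G, f (x ⊔ y) = f x ⊔ f y) ∧ (∀ x y : G, f (x ⊓ y) = f x ⊓ f y) ∧
    (∀ i : I, Function.Surjective (fun x : G => f x i)) := by
  let I := {χ : G →+ ℤ // Function.Surjective χ ∧ (∀ x y, χ (x ⊔ y) = χ x ⊔ χ y) ∧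
      ∀ x y, χ (x ⊓ y) = χ x ⊓ χ y}
  let f : G →+ (I → ℤ) :=
    { toFun := fun x i => i.1 x
      map_zero' := funext fun i => map_zero _
      map_add' := fun x y => funext fun i => map_add _ _ _ }
  refine ⟨I, f, (injective_iff_map_eq_zero f).2 fun g hg => ?_,
    fun x y => funext fun i => i.2.2.1 x y, fun x y => funext fun i => i.2.2.2 x y,
    fun i => i.2.1⟩
  by_contra hne
  obtain ⟨j, hj⟩ : ∃ j, g.1 j ≠ 0 := by
    by_contra h
    push Not at h
    exact hne (Subtype.ext (funext h))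
  obtain ⟨j', hj'⟩ := detect g.2 j hj
  let ψ : G →+ ℤ :=
    { toFun := fun x => (ofLex (x.1 j')).1
      map_zero' := rfl
      map_add' := fun _ _ => rfl }
  obtain ⟨χ, hχ, hχg⟩ := rescale ψ
    (fun x y => (Prod.Lex.monotone_fst_ofLex (α := ℤ) (β := ℚ)).map_sup (x.1 j') (y.1 j'))
    (fun x y => (Prod.Lex.monotone_fst_ofLex (α := ℤ) (β := ℚ)).map_inf (x.1 j') (y.1 j')) g hj'
  exact hχg (congrFun hg ⟨χ, hχ⟩)

def op (a b : G) : G := ⟨oadd a.1 b.1, InG.oadd a.2 b.2⟩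

theorem op_assoc (a b c : G) : op (op a b) c = op a (op b c) :=
  Subtype.ext (funext fun j => by simp [op, oadd, add_assoc])

theorem op_zero (a : G) : op 0 a = a ∧ op a 0 = a :=
  ⟨Subtype.ext (funext fun j => by simp [op, oadd, j.h0]),
    Subtype.ext (funext fun j => by simp [op, oadd, j.h0])⟩

theorem op_inv (a : G) : ∃ b : G, op a b = 0 ∧ op b a = 0 := by
  have h : ∀ j : J, j.θ.symm 0 = 0 := fun j => by rw [← j.h0, OrderIso.symm_apply_apply]
  exact ⟨⟨oneg a.1, InG.oneg a.2⟩, Subtype.ext (funext fun j => by simp [op, oadd, oneg, h]),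
    Subtype.ext (funext fun j => by simp [op, oadd, oneg, h])⟩

theorem op_mono (a b c : G) (h : a ≤ b) : op c a ≤ op c b ∧ op a c ≤ op b c := by
  have h' : (a : J → C) ≤ b := h
  constructor
  · intro j
    simpa [op, oadd] using h' j
  · intro j
    simpa [op, oadd] using h' j

theorem op_ne : ¬ ∀ x y : G, op x y = x + y := by
  intro h
  obtain ⟨j, hj⟩ := nonadd
  exact hj (congrFun (congrArg Subtype.val (h ⟨_, InG.gen⟩ ⟨_, InG.gen⟩)) j)

end H72.UAdd
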