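import Mathlib
import Pool.Agent.H72.AugFil

set_option autoImplicit false

namespace Pool.Agent.H72.Vershik

open Pool.Agent.H72.Amen Pool.Agent.H72.AugFil

abbrev F := ZMod 2

def Forb (w : List ℤ) : Prop :=
  ∃ (k : ℕ) (c : ℤ) (s u v : List ℤ), w = s ++ u ++ v ∧ 2 ^ k + 1 ≤ u.length ∧
    ∀ x ∈ u, c ≤ x ∧ x ≤ c + k

def U : Submodule F (List ℤ → F) where
  carrier := {φ | ∀ w, Forb w → φ w = 0}
  zero_mem' := fun _ _ => rfl
  add_mem' := fun {a b} ha hb w hw => by simp [ha w hw, hb w hw]
  smul_mem' := fun c a ha w hw => by simp [ha w hw]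

def Zl (l : List ℤ) : Module.End F U where
  toFun φ := ⟨fun w => φ.1 (l ++ w), by
    rintro w ⟨k, c, s, u, v, rfl, h⟩
    exact φ.2 _ ⟨k, c, l ++ s, u, v, by simp, h⟩⟩
  map_add' _ _ := rfl
  map_smul' _ _ := rfl

theorem Zl_apply (l : List ℤ) (φ : U) (w : List ℤ) : (Zl l φ).1 w = φ.1 (l ++ w) := rfl

theorem Zl_nil : Zl [] = 1 := rfl

theorem Zl_mul (l l' : List ℤ) : Zl l * Zl l' = Zl (l' ++ l) := by
  ext φ w
  simp [Zl_apply]

theorem Zl_forb (l : List ℤ) (h : Forb l) : Zl l = 0 := by
  ext φ w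
  obtain ⟨k, c, s, u, v, rfl, h⟩ := h
  exact φ.2 _ ⟨k, c, s, u, v ++ w, by simp, h⟩

def S (n : ℤ) : Module.End F U where
  toFun φ := ⟨fun w => φ.1 (w.map (· + n)), by
    rintro w ⟨k, c, s, u, v, rfl, h1, h2⟩
    refine φ.2 _ ⟨k, c + n, s.map (· + n), u.map (· + n), v.map (· + n), by simp, by simpa using h1,
      ?_⟩
    intro x hx
    obtain ⟨y, hy, rfl⟩ := List.mem_map.1 hx
    have := h2 y hy
    omega⟩
  map_add' _ _ := rfl
  map_smul' _ _ := rfl

theorem S_apply (n : ℤ) (φ : U) (w : List ℤ) : (S n φ).1 w = φ.1 (w.map (· + n)) := rfl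

theorem S_mul (m n : ℤ) : S m * S n = S (m + n) := by
  ext φ w
  simp [S_apply, Function.comp_def, add_assoc]

theorem S_zero : S 0 = 1 := by
  ext φ w
  simp [S_apply]

theorem S_Z (n i : ℤ) : S n * Zl [i + n] = Zl [i] * S n := by
  ext φ w
  simp [S_apply, Zl_apply]

theorem a_sq (i : ℤ) : (1 + Zl [i]) * (1 + Zl [i]) = 1 := by
  have h1 : Zl [i] * Zl [i] = 0 := by
    rw [Zl_mul]
    exact Zl_forb _ ⟨0, i, [], [i, i], [], by simp, by simp, by simp⟩
  have h2 : Zl [i] + Zl [i] = 0 := by
    rw [← two_smul F, show (2 : F) = 0 from rfl, zero_smul]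
  rw [add_mul, mul_add, mul_add, h1]
  simp only [one_mul, mul_one, add_zero]
  rw [add_assoc, h2, add_zero]

def ua (i : ℤ) : (Module.End F U)ˣ := ⟨1 + Zl [i], 1 + Zl [i], a_sq i, a_sq i⟩

def ut : (Module.End F U)ˣ :=
  ⟨S 1, S (-1), by rw [S_mul]; simpa using S_zero, by rw [S_mul]; simpa using S_zero⟩

theorem ut_ua (i : ℤ) : ut * ua (i + 1) * ut⁻¹ = ua i := by
  rw [mul_inv_eq_iff_eq_mul]
  apply Units.ext
  simp only [Units.val_mul, ut, ua, mul_add, add_mul, mul_one, one_mul, S_Z]

def G : Subgroup (Module.End F U)ˣ := Subgroup.closure {ut, ua 0}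

theorem ut_mem : ut ∈ G := Subgroup.subset_closure (by simp)

theorem ua_mem (i : ℤ) : ua i ∈ G := by
  induction i using Int.induction_on with
  | zero => exact Subgroup.subset_closure (by simp)
  | succ i ih =>
    have : ua (i + 1) = ut⁻¹ * ua i * ut := by rw [← ut_ua i]; group
    rw [this]
    exact mul_mem (mul_mem (inv_mem ut_mem) ih) ut_mem
  | pred i ih =>
    rw [← ut_ua, sub_add_cancel]
    exact mul_mem (mul_mem ut_mem ih) (inv_mem ut_mem)

def gt : G := ⟨ut, ut_mem⟩
def ga (i : ℤ) : G := ⟨ua i, ua_mem i⟩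

theorem gen : Subgroup.closure {gt, ga 0} = ⊤ := by
  have := Subgroup.closure_closure_coe_preimage (k := ({ut, ua 0} : Set (Module.End F U)ˣ))
  refine eq_top_iff.2 (this.ge.trans (Subgroup.closure_mono ?_))
  rintro ⟨x, hx⟩ (rfl | rfl)
  · exact Or.inl rfl
  · exact Or.inr rfl

def ρ : G →* Module.End F U := (Units.coeHom _).comp G.subtype

theorem ρ_inj : Function.Injective ρ := fun _ _ h => Subtype.ext (Units.ext h)

theorem fin_k (k : ℕ) : Finite (Subgroup.closure (ga '' Set.Icc (-(k : ℤ)) k)) := by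
  classical
  let B : Set (Module.End F U) := Zl '' {l | ∀ x ∈ l, x ∈ Set.Icc (-(k : ℤ)) k}
  have hB : B.Finite := by
    have h1 : {l : List (Set.Icc (-(k : ℤ)) k) | l.length ≤ 2 ^ (2 * k)}.Finite :=
      List.finite_length_le _ _
    refine ((h1.image (fun l => Zl (l.map Subtype.val))).insert 0).subset ?_
    rintro _ ⟨l, hl, rfl⟩
    by_cases h : l.length ≤ 2 ^ (2 * k)
    · right
      refine ⟨l.attach.map fun x => ⟨x.1, hl _ x.2⟩, by simpa using h, ?_⟩
      simp only [List.map_map, Function.comp_def]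
      rw [List.attach_map_subtype_val l]
    · left
      refine Zl_forb _ ⟨2 * k, -k, [], l, [], by simp, by omega, fun x hx => ?_⟩
      have := hl x hx
      simp only [Set.mem_Icc] at this
      push_cast
      omega
  let A := Submodule.span F B
  have : Module.Finite F A := Module.Finite.span_of_finite F hB
  have hA : Finite A := Module.finite_of_finite F
  have hz : ∀ i ∈ Set.Icc (-(k : ℤ)) k, ∀ y ∈ A, (1 + Zl [i]) * y ∈ A := by
    intro i hi y hy
    rw [add_mul, one_mul]
    refine add_mem hy ?_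
    induction hy using Submodule.span_induction with
    | mem x hx =>
      obtain ⟨l, hl, rfl⟩ := hx
      rw [Zl_mul]
      refine Submodule.subset_span ⟨_, ?_, rfl⟩
      intro x hx
      rcases List.mem_append.1 hx with hx | hx
      · exact hl x hx
      · rw [List.mem_singleton.1 hx]; exact hi
    | zero => simp
    | add x y _ _ hx hy => rw [mul_add]; exact add_mem hx hy
    | smul c x _ hx => rw [mul_smul_comm]; exact Submodule.smul_mem _ _ hx
  have hm : ∀ g ∈ Subgroup.closure (ga '' Set.Icc (-(k : ℤ)) k), ρ g ∈ A := by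
    intro g hg
    induction hg using Subgroup.closure_induction_left with
    | one => exact Submodule.subset_span ⟨[], by simp, rfl⟩
    | mul_left x hx y hy ih =>
      obtain ⟨i, hi, rfl⟩ := hx
      rw [map_mul]
      exact hz i hi _ ih
    | inv_mul_cancel x hx y hy ih =>
      obtain ⟨i, hi, rfl⟩ := hx
      rw [map_mul]
      exact hz i hi _ ih
  refine Finite.of_injective (fun g => (⟨ρ g.1, hm _ g.2⟩ : A)) ?_
  intro a b h
  exact Subtype.ext (ρ_inj (congrArg Subtype.val h))

theorem amen : Amenable G := by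
  classical
  refine amenable_of_lf_cyclic (Subgroup.closure (Set.range ga)) gt ?_ ?_ ?_
  · have : Subgroup.closure (Set.range ga) ≤
        (Subgroup.closure (Set.range ga)).comap (MulAut.conj gt).toMonoidHom := by
      rw [Subgroup.closure_le]
      rintro _ ⟨i, rfl⟩
      refine Subgroup.subset_closure ⟨i - 1, Subtype.ext ?_⟩
      have := ut_ua (i - 1)
      rw [sub_add_cancel] at this
      exact this.symm
    exact fun h hh => this hh
  · intro K h1 h2
    rw [eq_top_iff, ← gen, Subgroup.closure_le]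
    rintro _ (rfl | rfl)
    · exact h2
    · exact h1 (Subgroup.subset_closure ⟨0, rfl⟩)
  · have mono : ∀ k k' : ℕ, k ≤ k' → Subgroup.closure (ga '' Set.Icc (-(k : ℤ)) k) ≤
        Subgroup.closure (ga '' Set.Icc (-(k' : ℤ)) k') := fun k k' h =>
      Subgroup.closure_mono (Set.image_mono (Set.Icc_subset_Icc (by omega) (by omega)))
    have key : ∀ x ∈ Subgroup.closure (Set.range ga), ∃ k : ℕ,
        x ∈ Subgroup.closure (ga '' Set.Icc (-(k : ℤ)) k) := by
      intro x hx
      induction hx using Subgroup.closure_induction with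
      | mem x hx =>
        obtain ⟨i, rfl⟩ := hx
        exact ⟨i.natAbs, Subgroup.subset_closure ⟨i, ⟨by omega, by omega⟩, rfl⟩⟩
      | one => exact ⟨0, one_mem _⟩
      | mul x y _ _ hx hy =>
        obtain ⟨k, hk⟩ := hx
        obtain ⟨k', hk'⟩ := hy
        exact ⟨max k k', mul_mem (mono _ _ (le_max_left _ _) hk) (mono _ _ (le_max_right _ _) hk')⟩
      | inv x _ hx =>
        obtain ⟨k, hk⟩ := hx
        exact ⟨k, inv_mem hk⟩
    choose! κ hκ using key
    intro T
    exact ⟨_, fin_k (T.sup κ), fun x hx hxH => mono _ _ (Finset.le_sup hx) (hκ x hxH)⟩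

noncomputable def P : List (ℤ × ℕ) → ℤ → List ℤ → F
  | [], _, [] => 1
  | [], _, _ :: _ => 0
  | _ :: _, _, [] => 0
  | p :: L, b, i :: w => ((Ring.choose (i - b + p.1) p.2 : ℤ) : F) * P L i w

theorem P_shift (n : ℤ) : ∀ (L : List (ℤ × ℕ)) (b : ℤ) (w : List ℤ),
    P L (b + n) (w.map (· + n)) = P L b w
  | [], _, [] => rfl
  | [], _, _ :: _ => rfl
  | _ :: _, _, [] => rfl
  | p :: L, b, i :: w => by
    simp only [List.map_cons, P, P_shift n L i w]
    congr 3
    ring

def wt : List (ℤ × ℕ) → ℕ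
  | [] => 1
  | p :: L => p.2 + 1 + wt L

theorem P_phi : ∀ (n : ℕ) (L : List (ℤ × ℕ)) (s : F) (φ : U), wt L ≤ n → φ.1 = s • P L 0 →
    φ ∈ Phi ρ n := by
  intro n
  induction n with
  | zero =>
    intro L s φ h
    cases L <;> simp [wt] at h
  | succ n ih =>
    intro L s φ h hφ
    have z : ∀ ψ : U, ψ.1 = 0 → ψ ∈ Phi ρ n := fun ψ h => by
      rw [show ψ = 0 from Subtype.ext h]; exact zero_mem _
    have e1 : ∀ w, (ρ gt φ - φ).1 w = s * (P L (-1) w - P L 0 w) := by
      intro w
      have : (ρ gt φ - φ).1 w = φ.1 (w.map (· + 1)) - φ.1 w := rfl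
      rw [this, hφ, ← P_shift 1 L (-1) w]
      simp [mul_sub]
    have e2 : ∀ w, (ρ (ga 0) φ - φ).1 w = s * P L 0 (0 :: w) := by
      intro w
      have : (ρ (ga 0) φ - φ).1 w = φ.1 w + φ.1 (0 :: w) - φ.1 w := rfl
      rw [this, hφ]
      simp
    refine Phi_of_gen ρ _ gen n φ ?_
    rintro _ (rfl | rfl)
    · match L, h, e1 with
      | [], _, e1 =>
        apply z
        ext w
        rw [e1]
        cases w <;> simp [P]
      | (c, 0) :: L, _, e1 =>
        apply z
        ext w
        rw [e1]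
        cases w <;> simp [P]
      | (c, d + 1) :: L, h, e1 =>
        refine ih ((c, d) :: L) s _ (by simp only [wt] at h ⊢; omega) ?_
        ext w
        rw [e1]
        cases w with
        | nil => simp [P]
        | cons i w =>
          simp only [P, Pi.smul_apply, smul_eq_mul]
          rw [show i - -1 + c = (i - 0 + c) + 1 by ring, Ring.choose_succ_succ]
          push_cast
          ring
    · match L, h, e2 with
      | [], _, e2 =>
        apply z
        ext w
        rw [e2]
        simp [P]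
      | (c, d) :: L, h, e2 =>
        refine ih L (s * ((Ring.choose (0 - 0 + c) d : ℤ) : F)) _
          (by simp only [wt] at h ⊢; omega) ?_
        ext w
        rw [e2]
        simp only [P, Pi.smul_apply, smul_eq_mul]
        ring

def nu (r : ℕ) : ℕ := padicValNat 2 r

def LL : List Bool → List (ℤ × ℕ)
  | [] => []
  | x :: ε => (nu (ε.length + 1), 2 * nu (ε.length + 1) + 1 + x.toNat) :: LL ε

theorem wt_LL : ∀ ε : List Bool, wt (LL ε) ≤ 1 + 3 * ε.length + 2 * nu ε.length.factorial
  | [] => by simp [LL, wt]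
  | x :: ε => by
    have := wt_LL ε
    have h2 : nu (ε.length + 1).factorial = nu (ε.length + 1) + nu ε.length.factorial := by
      rw [Nat.factorial_succ]
      exact padicValNat.mul (by omega) (Nat.factorial_ne_zero _)
    have : x.toNat ≤ 1 := Bool.toNat_le x
    simp only [LL, wt, List.length_cons, h2]
    omega

theorem wt_LL' (ε : List Bool) : wt (LL ε) ≤ 1 + 5 * ε.length := by
  have := wt_LL ε
  have h := sub_one_mul_padicValNat_factorial (p := 2) ε.length
  unfold nu at this
  omega

theorem len_P : ∀ (ε : List Bool) (b : ℤ) (w : List ℤ), P (LL ε) b w ≠ 0 → w.length = ε.length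
  | [], _, [], _ => rfl
  | [], _, _ :: _, h => absurd rfl h
  | _ :: _, _, [], h => absurd rfl h
  | x :: ε, b, i :: w, h => by
    simp only [LL, P] at h
    simp [len_P ε i w (right_ne_zero_of_mul h)]

theorem jump0 (ε : List Bool) (b j : ℤ) (v : List ℤ) (h : P (LL ε) b (j :: v) ≠ 0) :
    (nu (v.length + 1) : ℤ) < |j - b| ∧ ∃ ε', P (LL ε') j v ≠ 0 := by
  have hl := len_P _ _ _ h
  cases ε with
  | nil => simp at hl
  | cons x ε =>
    simp only [LL, P] at h
    simp only [List.length_cons, add_left_inj] at hl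
    refine ⟨?_, ε, right_ne_zero_of_mul h⟩
    by_contra hh
    apply left_ne_zero_of_mul h
    rw [hl] at hh
    have h1 := abs_le.1 (not_lt.1 hh)
    obtain ⟨m, hm⟩ := Int.eq_ofNat_of_zero_le (show 0 ≤ j - b + nu (ε.length + 1) by omega)
    rw [hm, Ring.choose_natCast, Nat.choose_eq_zero_of_lt (by omega)]
    simp

theorem jump : ∀ (s : List ℤ) (ε : List Bool) (b i j : ℤ) (v : List ℤ),
    P (LL ε) b (s ++ i :: j :: v) ≠ 0 → (nu (v.length + 1) : ℤ) < |j - i|
  | [], ε, b, i, j, v, h => by
    obtain ⟨_, ε', h'⟩ := jump0 ε b i _ h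
    exact (jump0 ε' i j v h').1
  | x :: s, ε, b, i, j, v, h => by
    obtain ⟨_, ε', h'⟩ := jump0 ε b x _ h
    exact jump s ε' x i j v h'

theorem P_mem (ε : List Bool) : P (LL ε) 0 ∈ U := by
  rintro w ⟨k, c, s, u, v, rfl, h1, h2⟩
  by_contra h
  have hp : 0 < 2 ^ k := by positivity
  obtain ⟨q, hq, hd⟩ : ∃ q, q < 2 ^ k ∧ 2 ^ k ∣ q + v.length + 1 := by
    refine ⟨2 ^ k - 1 - v.length % 2 ^ k, by omega, v.length / 2 ^ k + 1, ?_⟩
    have := Nat.mod_lt v.length hp
    have := Nat.div_add_mod v.length (2 ^ k)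
    rw [mul_add]
    omega
  have hl : (u.drop (u.length - q - 2)).length = q + 2 := by simp; omega
  have hu := (List.take_append_drop (u.length - q - 2) u).symm
  generalize u.drop (u.length - q - 2) = d at hl hu
  generalize u.take (u.length - q - 2) = t at hu
  match d, hl with
  | i :: j :: d, hl =>
    subst hu
    have e : s ++ (t ++ i :: j :: d) ++ v = (s ++ t) ++ i :: j :: (d ++ v) := by simp
    rw [e] at h
    have := jump _ _ _ _ _ _ h
    have hi := h2 i (by simp)
    have hj := h2 j (by simp)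
    have hk : k ≤ nu ((d ++ v).length + 1) := by
      simp only [List.length_cons, add_left_inj] at hl
      rw [List.length_append, show d.length = q by omega]
      exact (padicValNat_dvd_iff_le (by omega)).1 hd
    have : |j - i| ≤ k := abs_le.2 ⟨by omega, by omega⟩
    omega

def W : List Bool → ℤ → List ℤ
  | [], _ => []
  | x :: δ, b => (b + nu (δ.length + 1) + 1 + x.toNat) :: W δ (b + nu (δ.length + 1) + 1 + x.toNat)

theorem P_W : ∀ (ε δ : List Bool) (b : ℤ), ε.length = δ.length →
    P (LL ε) b (W δ b) = if ε = δ then 1 else 0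
  | [], [], _, _ => rfl
  | [], _ :: _, _, h => by simp at h
  | _ :: _, [], _, h => by simp at h
  | x :: ε, y :: δ, b, h => by
    simp only [List.length_cons, add_left_inj] at h
    simp only [LL, W, P, P_W ε δ _ h, h]
    generalize nu (δ.length + 1) = k
    rw [show b + k + 1 + y.toNat - b + k = ((2 * k + 1 + y.toNat : ℕ) : ℤ) by push_cast; ring,
      Ring.choose_natCast]
    cases x <;> cases y
    · simp
    · simp only [Bool.toNat_false, Bool.toNat_true, add_zero, Nat.choose_succ_self_right]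
      have : (((2 * k + 1 + 1 : ℕ) : ℤ) : F) = 0 := by
        push_cast
        rw [show (2 : F) * k + 1 + 1 = 2 * (k + 1) by ring, show (2 : F) = 0 from rfl, zero_mul]
      rw [this]
      simp
    · simp
    · simp

noncomputable def rw' : List ℤ → MonoidAlgebra F G
  | [] => 1
  | i :: w => rw' w * (MonoidAlgebra.of F G (ga i) - 1)

theorem lift_rw : ∀ w : List ℤ, MonoidAlgebra.lift F (Module.End F U) G ρ (rw' w) = Zl w
  | [] => by rw [rw', map_one, Zl_nil]
  | i :: w => by
    rw [rw', map_mul, lift_rw w, map_sub, map_one, MonoidAlgebra.lift_of]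
    have : ρ (ga i) - 1 = Zl [i] := add_sub_cancel_left _ _
    rw [this, Zl_mul]
    rfl

theorem growth (n m : ℕ) (h : 5 * m ≤ n) :
    2 ^ m ≤ Module.finrank F (MonoidAlgebra F G ⧸ aug F G ^ (n + 1)) := by
  classical
  have := finite_quot (F := F) {gt, ga 0} (Set.toFinite _) gen n
  let φ : (Fin m → Bool) → U := fun ε => ⟨_, P_mem (List.ofFn ε)⟩
  let Λ : MonoidAlgebra F G →ₗ[F] ((Fin m → Bool) → F) :=
    { toFun := fun r ε => (MonoidAlgebra.lift F (Module.End F U) G ρ r (φ ε)).1 []
      map_add' := fun x y => by ext ε; simp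
      map_smul' := fun c x => by ext ε; simp }
  have hk : aug F G ^ (n + 1) ≤ LinearMap.ker Λ := by
    intro r hr
    ext ε
    have := aug_kill ρ (n + 1) r hr (φ ε) (P_phi _ (LL (List.ofFn ε)) 1 _ (by
      have := wt_LL' (List.ofFn ε)
      simp only [List.length_ofFn] at this
      omega) (by simp [φ]))
    simp [Λ, this]
  have hs : Function.Surjective ((aug F G ^ (n + 1)).liftQ Λ hk) := by
    rw [← LinearMap.range_eq_top, Submodule.range_liftQ, eq_top_iff, ← (Pi.basisFun F _).span_eq,
      Submodule.span_le]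
    rintro _ ⟨δ, rfl⟩
    refine ⟨rw' (W (List.ofFn δ) 0), ?_⟩
    ext ε
    simp only [Λ, LinearMap.coe_mk, AddHom.coe_mk, lift_rw, Zl_apply, List.append_nil, φ]
    rw [P_W _ _ _ (by simp)]
    simp [List.ofFn_inj, Pi.single_apply]
  have := LinearMap.finrank_le_finrank_of_surjective hs
  simpa using this

end Pool.Agent.H72.Vershik
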